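import Mathlib
import Pool.Agent.P.MP_797ab1_gt.Fund
import Pool.Agent.Lib.Flow.Tools

-- part Pool.Agent.P.MP_365c00_gt.BDef
section

/-! TASK BDef: an abstract deformation lemma (no geometry). -/

open Set Filter Topology Function

namespace Pool.Agent.GeoN

theorem bdef_local {Z : Type} [TopologicalSpace Z] [CompactSpace Z] [T2Space Z] (f : C(Z, ℝ))
    {z : Z} {N : Set Z} (hN : N ∈ 𝓝 z) {m : Z × ℝ → Z} (hm : ContinuousOn m (N ×ˢ Icc 0 1))
    (h : ∀ y ∈ N, m (y, 0) = y ∧ ∀ s ∈ Ioc (0 : ℝ) 1, f (m (y, s)) < f y) :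
    ∃ t ∈ 𝓝 z, ∃ P : C(Z, Z), P.Homotopic (ContinuousMap.id Z) ∧
      (∀ y, P y = y ∨ f (P y) < f y) ∧ ∀ y ∈ t, f (P y) < f y := by
  classical
  obtain ⟨F, hF, hFc, hFN⟩ := exists_mem_nhds_isClosed_subset (interior_mem_nhds.2 hN)
  obtain ⟨ρ, h0, h1, h01⟩ := exists_continuous_zero_one_of_isClosed
    (isOpen_interior (s := F)).isClosed_compl (isClosed_singleton (x := z))
    (disjoint_singleton_right.2 fun hz => hz (mem_interior_iff_mem_nhds.2 hF))
  have hρ : ∀ y, y ∉ F → ρ y = 0 := fun y hy => h0 fun h' => hy (interior_subset h')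
  obtain ⟨Q, hQ⟩ : ∃ Q : unitInterval × Z → Z,
      ∀ p, Q p = if p.2 ∈ N then m (p.2, p.1 * ρ p.2) else p.2 := ⟨_, fun _ => rfl⟩
  have hQc : Continuous Q := by
    rw [continuous_iff_continuousAt]
    intro p
    by_cases hp : p.2 ∈ F
    · have ho : IsOpen {q : unitInterval × Z | q.2 ∈ interior N} :=
        isOpen_interior.preimage continuous_snd
      refine ContinuousOn.continuousAt ?_ (ho.mem_nhds (hFN hp))
      have hc : ContinuousOn (fun q : unitInterval × Z => m (q.2, q.1 * ρ q.2))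
          {q : unitInterval × Z | q.2 ∈ interior N} := by
        refine hm.comp (Continuous.continuousOn (by fun_prop)) fun q hq => ?_
        exact ⟨interior_subset hq, mul_nonneg q.1.2.1 (h01 _).1,
          mul_le_one₀ q.1.2.2 (h01 _).1 (h01 _).2⟩
      exact hc.congr fun q hq => by rw [hQ, if_pos (interior_subset hq)]
    · have ho : IsOpen {q : unitInterval × Z | q.2 ∈ Fᶜ} :=
        hFc.isOpen_compl.preimage continuous_snd
      refine continuousAt_snd.congr ?_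
      filter_upwards [ho.mem_nhds hp] with q hq
      rw [hQ]
      split_ifs with hq'
      · rw [hρ _ hq, mul_zero, (h _ hq').1]
      · rfl
  have hlt : ∀ y, 0 < ρ y → f (Q (1, y)) < f y := fun y hy => by
    have hyN : y ∈ N := by
      by_contra hn
      exact hy.ne' (hρ y fun h' => hn (interior_subset (hFN h')))
    rw [hQ, if_pos hyN]
    refine (h y hyN).2 _ ?_
    simp only [Icc.coe_one, one_mul]
    exact ⟨hy, (h01 y).2⟩
  refine ⟨{y | 0 < ρ y}, (isOpen_lt continuous_const ρ.continuous).mem_nhds ?_,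
    ⟨fun y => Q (1, y), by fun_prop⟩, ContinuousMap.Homotopic.symm ⟨⟨⟨Q, hQc⟩, fun y => ?_,
      fun _ => rfl⟩⟩, fun y => ?_, hlt⟩
  · have : ρ z = 1 := h1 rfl
    change 0 < ρ z
    rw [this]
    exact one_pos
  · change Q (0, y) = y
    rw [hQ]
    split_ifs with hy
    · simp only [Icc.coe_zero, zero_mul]
      exact (h y hy).1
    · rfl
  · rcases (h01 y).1.eq_or_lt with h2 | h2
    · left
      change Q (1, y) = y
      rw [hQ]
      split_ifs with hy
      · rw [← h2, mul_zero]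
        exact (h y hy).1
      · rfl
    · exact Or.inr (hlt y h2)

theorem deform {Z : Type} [TopologicalSpace Z] [CompactSpace Z] [T2Space Z] (f : C(Z, ℝ)) (b : ℝ)
    (h : ∀ z, b ≤ f z → ∃ N ∈ 𝓝 z, ∃ m : Z × ℝ → Z, ContinuousOn m (N ×ˢ Icc 0 1) ∧
      ∀ y ∈ N, m (y, 0) = y ∧ ∀ s ∈ Ioc (0 : ℝ) 1, f (m (y, s)) < f y) :
    ∃ Ψ : C(Z, Z), Ψ.Homotopic (ContinuousMap.id Z) ∧ ∀ z, f (Ψ z) ≤ b := by
  have hK : IsCompact {z | b ≤ f z} := (isClosed_le continuous_const f.continuous).isCompact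
  have hcomp : ∀ P P' : C(Z, Z), P.Homotopic (ContinuousMap.id Z) →
      P'.Homotopic (ContinuousMap.id Z) → (P'.comp P).Homotopic (ContinuousMap.id Z) :=
    fun P P' h1 h2 => ContinuousMap.Homotopic.comp h2 h1
  obtain ⟨P, hP, hle, hlt⟩ : ∃ P : C(Z, Z), P.Homotopic (ContinuousMap.id Z) ∧
      (∀ y, P y = y ∨ f (P y) < f y) ∧ ∀ y ∈ {z | b ≤ f z}, f (P y) < f y := by
    refine hK.induction_on (p := fun t => ∃ P : C(Z, Z), P.Homotopic (ContinuousMap.id Z) ∧
      (∀ y, P y = y ∨ f (P y) < f y) ∧ ∀ y ∈ t, f (P y) < f y) ?_ ?_ ?_ ?_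
    · exact ⟨ContinuousMap.id Z, .refl _, fun _ => Or.inl rfl, fun _ h' => h'.elim⟩
    · rintro s t hst ⟨P, h1, h2, h3⟩
      exact ⟨P, h1, h2, fun y hy => h3 y (hst hy)⟩
    · rintro s t ⟨P, h1, h2, h3⟩ ⟨P', h1', h2', h3'⟩
      have hle' : ∀ y, f (P' y) ≤ f y := fun y => (h2' y).elim (fun e => by rw [e]) le_of_lt
      refine ⟨P'.comp P, hcomp _ _ h1 h1', fun y => ?_, fun y hy => ?_⟩
      · rw [ContinuousMap.comp_apply]
        rcases h2 y with e | e
        · rw [e]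
          exact h2' y
        · exact Or.inr ((hle' _).trans_lt e)
      · rw [ContinuousMap.comp_apply]
        rcases hy with hy | hy
        · exact (hle' _).trans_lt (h3 y hy)
        · rcases h2 y with e | e
          · rw [e]
            exact h3' y hy
          · exact (hle' _).trans_lt e
    · intro z hz
      obtain ⟨N, hN, m, hm, hm'⟩ := h z hz
      obtain ⟨t, ht, hP⟩ := bdef_local f hN hm hm'
      exact ⟨t, mem_nhdsWithin_of_mem_nhds ht, hP⟩
  have hle' : ∀ y, f (P y) ≤ f y := fun y => (hle y).elim (fun e => by rw [e]) le_of_lt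
  obtain ⟨η, hη, hη'⟩ : ∃ η : ℝ, 0 < η ∧ ∀ y ∈ {z | b ≤ f z}, η ≤ f y - f (P y) :=
    hK.exists_forall_le' (f := fun y => f y - f (P y)) (Continuous.continuousOn (by fun_prop))
      fun y hy => sub_pos.2 (hlt y hy)
  obtain ⟨M, hM⟩ := (isCompact_range f.continuous).bddAbove
  have key : ∀ n : ℕ, ∃ Ψ : C(Z, Z), Ψ.Homotopic (ContinuousMap.id Z) ∧
      ∀ z, f (Ψ z) ≤ b ∨ f (Ψ z) ≤ M - n * η := by
    intro n
    induction n with
    | zero =>
      refine ⟨ContinuousMap.id Z, .refl _, fun z => Or.inr ?_⟩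
      rw [Nat.cast_zero, zero_mul, sub_zero]
      exact hM ⟨z, rfl⟩
    | succ n ih =>
      obtain ⟨Ψ, h1, h2⟩ := ih
      refine ⟨P.comp Ψ, hcomp _ _ h1 hP, fun z => ?_⟩
      rw [ContinuousMap.comp_apply]
      rcases le_total (f (Ψ z)) b with h3 | h3
      · exact Or.inl ((hle' _).trans h3)
      · rcases h2 z with h4 | h4
        · exact Or.inl ((hle' _).trans h4)
        · have := hη' _ h3
          right
          push_cast
          linarith
  obtain ⟨n, hn⟩ := exists_nat_ge ((M - b) / η)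
  rw [div_le_iff₀ hη] at hn
  obtain ⟨Ψ, h1, h2⟩ := key n
  exact ⟨Ψ, h1, fun z => (h2 z).elim id fun h3 => by linarith⟩

end Pool.Agent.GeoN
end

-- part Pool.Agent.P.MP_365c00_gt.BFlat
section

/-! TASK BFlat: points where a smooth map vanishes to infinite order (no geometry). -/

open Set Filter Topology Metric MeasureTheory
open scoped ContDiff

namespace Pool.Agent.GeoN

variable {W W' : Type} [NormedAddCommGroup W] [NormedSpace ℝ W] [NormedAddCommGroup W']
  [NormedSpace ℝ W']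

/-- the points of `O` where all derivatives of `X` vanish -/
def Flat (X : W → W') (O : Set W) : Set W := {w | w ∈ O ∧ ∀ j : ℕ, iteratedFDeriv ℝ j X w = 0}

variable {X : W → W'} {O : Set W}

theorem Flat.zero {w : W} (h : w ∈ Flat X O) : X w = 0 := by
  rw [← norm_eq_zero, ← norm_iteratedFDeriv_zero (𝕜 := ℝ), h.2 0, norm_zero]

theorem mem_flat_of_eventually {w : W} (hw : w ∈ O) (h : ∀ᶠ y in 𝓝 w, X y = 0) :
    w ∈ Flat X O := by
  refine ⟨hw, fun j => ?_⟩
  have h1 : X =ᶠ[𝓝 w] fun _ => (0 : W') := h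
  rw [(h1.iteratedFDeriv ℝ j).self_of_nhds]
  simp

theorem mem_flat_of_closure (hO : IsOpen O) (hX : ContDiffOn ℝ ∞ X O) {w : W} (hw : w ∈ O)
    (h : w ∈ closure (Flat X O)) : w ∈ Flat X O := by
  refine ⟨hw, fun j => ?_⟩
  have h1 : ContinuousAt (iteratedFDeriv ℝ j X) w :=
    (hX.contDiffAt (hO.mem_nhds hw)).continuousAt_iteratedFDeriv (by exact_mod_cast le_top)
  have h2 := h1.continuousWithinAt.mem_closure_image h
  have h3 : iteratedFDeriv ℝ j X '' Flat X O ⊆ {0} := by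
    rintro _ ⟨y, hy, rfl⟩
    exact hy.2 j
  simpa using closure_mono h3 h2

theorem bFlat_diff (hO : IsOpen O) (hX : ContDiffOn ℝ ∞ X O) (i : ℕ) {y : W} (hy : y ∈ O) :
    DifferentiableAt ℝ (iteratedFDeriv ℝ i X) y :=
  (hX.contDiffAt (hO.mem_nhds hy)).differentiableAt_iteratedFDeriv
    (by exact_mod_cast ENat.natCast_lt_top i)

theorem bFlat_pow (hO : IsOpen O) (hX : ContDiffOn ℝ ∞ X O) {w : W} (hw : w ∈ Flat X O) (m : ℕ) :
    ∀ i : ℕ, ∃ δ0 > 0, ball w δ0 ⊆ O ∧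
      ∀ y ∈ ball w δ0, ‖iteratedFDeriv ℝ i X y‖ ≤ ‖y - w‖ ^ m := by
  induction m with
  | zero =>
    intro i
    have h1 := (bFlat_diff hO hX i hw.1).continuousAt.norm
    have h2 : ∀ᶠ y in 𝓝 w, ‖iteratedFDeriv ℝ i X y‖ < 1 :=
      h1.eventually_lt continuousAt_const (by simp [hw.2 i])
    obtain ⟨δ, hδ, h3⟩ := Metric.mem_nhds_iff.1 (h2.and (hO.mem_nhds hw.1))
    exact ⟨δ, hδ, fun y hy => (h3 hy).2, fun y hy => by simpa using (h3 hy).1.le⟩
  | succ m ih =>
    intro i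
    obtain ⟨δ, hδ, h1, h2⟩ := ih (i + 1)
    refine ⟨δ, hδ, h1, fun y hy => ?_⟩
    have h3 : closedBall w ‖y - w‖ ⊆ ball w δ :=
      closedBall_subset_ball (by rwa [← dist_eq_norm])
    have h4 := (convex_closedBall w ‖y - w‖).norm_image_sub_le_of_norm_fderiv_le (𝕜 := ℝ)
      (f := iteratedFDeriv ℝ i X) (C := ‖y - w‖ ^ m) (x := w) (y := y)
      (fun z hz => bFlat_diff hO hX i (h1 (h3 hz)))
      (fun z hz => by
        rw [norm_fderiv_iteratedFDeriv]
        exact (h2 z (h3 hz)).trans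
          (pow_le_pow_left₀ (norm_nonneg _) (mem_closedBall_iff_norm.1 hz) m))
      (mem_closedBall_self (norm_nonneg _)) (mem_closedBall_iff_norm.2 le_rfl)
    rwa [hw.2 i, sub_zero, ← pow_succ] at h4

theorem flat_est (hO : IsOpen O) (hX : ContDiffOn ℝ ∞ X O) {w : W} (hw : w ∈ Flat X O) (m : ℕ) :
    ∃ C > 0, ∃ δ0 > 0, ball w δ0 ⊆ O ∧ ∀ δ, 0 < δ → δ ≤ δ0 → ∀ y ∈ ball w δ, ∀ y' ∈ ball w δ,
      ‖X y - X y'‖ ≤ C * δ ^ m * ‖y - y'‖ := by
  obtain ⟨δ0, h0, h1, h2⟩ := bFlat_pow hO hX hw m 1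
  refine ⟨1, one_pos, δ0, h0, h1, fun δ _ hδ y hy y' hy' => ?_⟩
  have h3 : ball w δ ⊆ ball w δ0 := ball_subset_ball hδ
  rw [one_mul]
  refine (convex_ball w δ).norm_image_sub_le_of_norm_fderiv_le (𝕜 := ℝ) (fun z hz => ?_)
    (fun z hz => ?_) hy' hy
  · exact (hX.contDiffAt (hO.mem_nhds (h1 (h3 hz)))).differentiableAt (by simp)
  · rw [← norm_iteratedFDeriv_one]
    exact (h2 z (h3 hz)).trans
      (pow_le_pow_left₀ (norm_nonneg _) (mem_ball_iff_norm.1 hz).le m)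

theorem bFlat_ae [FiniteDimensional ℝ W] [MeasurableSpace W] [BorelSpace W]
    (μ : Measure W) [μ.IsAddHaarMeasure] {Y : W → W'} {s : Set W} (hs : MeasurableSet s)
    (hd : ∀ x ∈ s, DifferentiableAt ℝ Y x) (h0 : ∀ x ∈ s, Y x = 0) :
    ∀ᵐ x ∂μ.restrict s, fderiv ℝ Y x = 0 := by
  have h1 : ∀ x, ∃ T : W' →L[ℝ] W, T.comp (fderiv ℝ Y x) = 0 → fderiv ℝ Y x = 0 := by
    intro x
    by_cases h : fderiv ℝ Y x = 0
    · exact ⟨0, fun _ => h⟩
    obtain ⟨v, hv⟩ : ∃ v, fderiv ℝ Y x v ≠ 0 := by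
      by_contra h2
      push Not at h2
      exact h (ContinuousLinearMap.ext h2)
    obtain ⟨φ, -, hφ⟩ := exists_dual_vector ℝ (fderiv ℝ Y x v) (norm_ne_zero_iff.2 hv)
    refine ⟨φ.smulRight v, fun h2 => ?_⟩
    have h3 := congrArg (fun L : W →L[ℝ] W => L v) h2
    simp only [ContinuousLinearMap.comp_apply, ContinuousLinearMap.smulRight_apply, hφ,
      zero_apply, smul_eq_zero] at h3
    rcases h3 with h3 | h3
    · exact absurd (norm_eq_zero.1 (by simpa using h3)) hv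
    · rw [h3, map_zero] at hv
      exact absurd rfl hv
  choose T hT using h1
  have h2 : ApproximatesLinearOn (fun _ : W => (0 : W)) (0 : W →L[ℝ] W) s 0 := by
    intro x _ y _
    simp
  have h3 := h2.norm_fderiv_sub_le μ hs (fun x => (T x).comp (fderiv ℝ Y x)) fun x hx =>
    ((T x).hasFDerivAt.comp x (hd x hx).hasFDerivAt).hasFDerivWithinAt.congr
      (fun y hy => by simp [h0 y hy]) (by simp [h0 x hx])
  filter_upwards [h3] with x hx
  exact hT x (by simpa using hx)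

theorem null_diff_flat [FiniteDimensional ℝ W] [MeasurableSpace W] [BorelSpace W]
    (μ : Measure W) [μ.IsAddHaarMeasure] (hO : IsOpen O) (hX : ContDiffOn ℝ ∞ X O) :
    μ ({w | w ∈ O ∧ X w = 0} \ Flat X O) = 0 := by
  have h1 : ∀ j : ℕ, μ ({w | w ∈ O ∧ iteratedFDeriv ℝ j X w = 0} \
      {w | iteratedFDeriv ℝ (j + 1) X w = 0}) = 0 := by
    intro j
    have h2 : ContinuousOn (iteratedFDeriv ℝ j X) O := fun y hy =>
      (bFlat_diff hO hX j hy).continuousAt.continuousWithinAt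
    have h3 : MeasurableSet {w | w ∈ O ∧ iteratedFDeriv ℝ j X w = 0} := by
      have h4 := h2.isOpen_inter_preimage hO (isOpen_compl_singleton (x := 0))
      have h5 : {w | w ∈ O ∧ iteratedFDeriv ℝ j X w = 0}
          = O \ (O ∩ iteratedFDeriv ℝ j X ⁻¹' {0}ᶜ) := by
        ext w
        simp only [mem_ofPred_eq, Set.mem_sdiff, mem_inter_iff, mem_preimage, mem_compl_iff,
          mem_singleton_iff]
        tauto
      rw [h5]
      exact hO.measurableSet.diff h4.measurableSet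
    have h4 := bFlat_ae μ h3 (fun x hx => bFlat_diff hO hX j hx.1) fun x hx => hx.2
    rw [ae_restrict_iff' h3, ae_iff] at h4
    refine measure_mono_null (fun w hw => ?_) h4
    intro h5
    refine hw.2 ?_
    have h6 := h5 hw.1
    rw [mem_ofPred_eq, ← norm_eq_zero, ← norm_fderiv_iteratedFDeriv, h6]
    exact ContinuousLinearMap.opNorm_zero
  refine measure_mono_null (fun w hw => ?_) (measure_iUnion_null h1)
  by_contra h2
  simp only [mem_iUnion, Set.mem_sdiff, mem_ofPred_eq, not_exists, not_and, not_not] at h2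
  refine hw.2 ⟨hw.1.1, fun j => ?_⟩
  induction j with
  | zero => rw [← norm_eq_zero, norm_iteratedFDeriv_zero, hw.1.2, norm_zero]
  | succ j ih => exact h2 j ⟨hw.1.1, ih⟩

end Pool.Agent.GeoN
end

-- part Pool.Agent.P.MP_365c00_gt.BHDefs
section

/-!
Definitions for the homological part (Serre's theorem).  `HH A k` is the relative singular
homology `H_k(Y, A)` of the ambient space `Y` of `A`; `E n` is `Fin n → ℝ`.
-/

open Set Topology Function
open Pool.Agent.URC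

namespace Pool.Agent.GeoN.Ser

variable {X Y : Type} [TopologicalSpace X] [TopologicalSpace Y]

/-- complements of preimages reverse inclusions -/
theorem sub_pre (e : C(Y, X)) {K K' : Set X} (h : K' ⊆ K) : (e ⁻¹' K)ᶜ ⊆ (e ⁻¹' K')ᶜ :=
  compl_subset_compl.2 (preimage_mono h)

/-- the same for a point of `K` -/
theorem sub_pt (e : C(Y, X)) {K : Set X} {x : X} (h : x ∈ K) : (e ⁻¹' K)ᶜ ⊆ (e ⁻¹' {x})ᶜ :=
  sub_pre e (singleton_subset_iff.2 h)

/-- over the open embedding `j` the map `e` is fibre homotopy equivalent to the projection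
`E n × F → E n` -/
structure LocTriv (e : C(Y, X)) (F : Type) [TopologicalSpace F] {n : ℕ} (j : C(E n, X)) where
  Φ : C(e ⁻¹' range j, E n × F)
  Ψ : C(E n × F, Y)
  eΨ : ∀ z, e (Ψ z) = j z.1
  eΦ : ∀ y, j (Φ y).1 = e y.1
  H1 : C((e ⁻¹' range j) × unitInterval, Y)
  H1_zero : ∀ y, H1 (y, 0) = Ψ (Φ y)
  H1_one : ∀ y, H1 (y, 1) = y.1
  H1_e : ∀ y t, e (H1 (y, t)) = e y.1
  H2 : C((E n × F) × unitInterval, E n × F)
  H2_zero : ∀ z, H2 (z, 0) = Φ ⟨Ψ z, ⟨z.1, (eΨ z).symm⟩⟩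
  H2_one : ∀ z, H2 (z, 1) = z
  H2_e : ∀ z t, (H2 (z, t)).1 = z.1

/-- the homological properties of a chart `j` of the base of `e`, top degree `N` -/
structure Loc (e : C(Y, X)) (N : ℕ) {n : ℕ} (j : C(E n, X)) : Prop where
  emb : IsOpenEmbedding j
  bij : ∀ (K : Set (E n)), IsCompact K → Convex ℝ K → ∀ z (hz : z ∈ K) (k : ℕ),
    Bijective (HH.res (sub_pt e (mem_image_of_mem j hz)) :
      HH (e ⁻¹' (j '' K))ᶜ k → HH (e ⁻¹' {j z})ᶜ k)
  van : ∀ (z : E n) (k : ℕ), N < k → ∀ α : HH (e ⁻¹' {j z})ᶜ k, α = 0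

/-- a locally consistent choice of classes in the local homology groups -/
def Cons (e : C(Y, X)) (N : ℕ) (om : ∀ x : X, HH (e ⁻¹' {x})ᶜ N) : Prop :=
  ∀ x : X, ∃ K ∈ 𝓝 x, ∃ α : HH (e ⁻¹' K)ᶜ N, ∀ y (hy : y ∈ K), HH.res (sub_pt e hy) α = om y

/-- the three properties of Hatcher 3.27 over the set `K` -/
structure Gd (e : C(Y, X)) (N : ℕ) (om : ∀ x : X, HH (e ⁻¹' {x})ᶜ N) (K : Set X) : Prop where
  van : ∀ k, N < k → ∀ α : HH (e ⁻¹' K)ᶜ k, α = 0
  inj : ∀ α : HH (e ⁻¹' K)ᶜ N, (∀ x (hx : x ∈ K), HH.res (sub_pt e hx) α = 0) → α = 0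
  ex : ∃ α : HH (e ⁻¹' K)ᶜ N, ∀ x (hx : x ∈ K), HH.res (sub_pt e hx) α = om x

/-- the set `A` has finitely many path components -/
def FinComp (A : Set Y) : Prop := ∃ S : Set Y, S.Finite ∧ ∀ y ∈ A, ∃ s ∈ S, JoinedIn A y s

/-- the singular homology of `F` vanishes above the degree `d` -/
def Van (F : Type) [TopologicalSpace F] (d : ℕ) : Prop :=
  ∀ k, d < k → ∀ α : HH (∅ : Set F) k, α = 0

/-- every point lies in the range of an open embedding of `E n` -/
def Charted (n : ℕ) (X : Type) [TopologicalSpace X] : Prop :=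
  ∀ x : X, ∃ j : C(E n, X), IsOpenEmbedding j ∧ x ∈ range j

/-- paths starting at `p` -/
abbrev PP (p : X) : Type := {γ : C(unitInterval, X) // γ 0 = p}

/-- paths from `p` to `q` -/
abbrev Om (p q : X) : Type := {γ : C(unitInterval, X) // γ 0 = p ∧ γ 1 = q}

/-- the end point -/
def endp (p : X) : C(PP p, X) := ⟨fun γ => γ.1 1, by fun_prop⟩

end Pool.Agent.GeoN.Ser
end

-- part Pool.Agent.P.MP_365c00_gt.BIter
section

/-! TASK BIter: iterates of a map close to the identity (no geometry). -/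

open Set Filter Topology Metric Function

namespace Pool.Agent.GeoN

variable {E : Type} [NormedAddCommGroup E] [NormedSpace ℝ E] [CompleteSpace E]
  {f : E × E → E × E} {w1 : E × E} {δ η : ℝ} {K : ℕ}

/-- `f` fixes `w1` and `f - id` is `η`-Lipschitz on the ball of radius `10 δ` -/
structure NearId (f : E × E → E × E) (w1 : E × E) (δ η : ℝ) (K : ℕ) : Prop where
  δ_pos : 0 < δ
  η_nonneg : 0 ≤ η
  fix : f w1 = w1
  lip : ∀ y ∈ ball w1 (10 * δ), ∀ y' ∈ ball w1 (10 * δ),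
    ‖(f y - y) - (f y' - y')‖ ≤ η * ‖y - y'‖
  small : K * η ≤ 1 / 100

omit [NormedSpace ℝ E] [CompleteSpace E] in
theorem biter_small (h : NearId f w1 δ η K) {j : ℕ} (hj : j ≤ K) : j * η ≤ 1 / 100 :=
  (mul_le_mul_of_nonneg_right (Nat.cast_le.2 hj) h.η_nonneg).trans h.small

omit [NormedSpace ℝ E] [CompleteSpace E] in
theorem biter_mem (h : NearId f w1 δ η K) {y z : E × E} (hy : y ∈ ball w1 (5 * δ)) {j : ℕ}
    (hj : j ≤ K) (hz : ‖z - y‖ ≤ j * η * (10 * δ)) : z ∈ ball w1 (10 * δ) := by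
  have h1 := biter_small h hj
  have h2 := h.δ_pos
  rw [mem_ball, dist_eq_norm] at hy ⊢
  have h3 := norm_sub_le_norm_sub_add_norm_sub z y w1
  nlinarith

omit [NormedSpace ℝ E] [CompleteSpace E] in
theorem biter_move (h : NearId f w1 δ η K) {y : E × E} (hy : y ∈ ball w1 (5 * δ)) {j : ℕ}
    (hj : j ≤ K) : ‖f^[j] y - y‖ ≤ j * η * (10 * δ) := by
  induction j with
  | zero => simp
  | succ j ih =>
    have h1 := ih (by omega)
    have h2 := biter_mem h hy (by omega) h1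
    have h3 := h.lip _ h2 w1 (mem_ball_self (by linarith [h.δ_pos]))
    rw [h.fix, sub_self, sub_zero] at h3
    rw [mem_ball, dist_eq_norm] at h2
    have h4 := mul_le_mul_of_nonneg_left h2.le h.η_nonneg
    have h5 := norm_sub_le_norm_sub_add_norm_sub (f (f^[j] y)) (f^[j] y) y
    rw [iterate_succ_apply']
    push_cast
    linarith

theorem NearId.mem (h : NearId f w1 δ η K) {y : E × E} (hy : y ∈ ball w1 (5 * δ)) {j : ℕ}
    (hj : j ≤ K) : f^[j] y ∈ ball w1 (10 * δ) := by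
  exact biter_mem h hy hj (biter_move h hy hj)

theorem biter_diff (h : NearId f w1 δ η K) {y y' : E × E} (hy : y ∈ ball w1 (5 * δ))
    (hy' : y' ∈ ball w1 (5 * δ)) {j : ℕ} (hj : j ≤ K) :
    ‖(f^[j] y - y) - (f^[j] y' - y')‖ ≤ 2 * (j * η) * ‖y - y'‖ := by
  induction j with
  | zero => simp
  | succ j ih =>
    have hj' : j ≤ K := by omega
    have h1 := ih hj'
    have h2 := h.lip _ (h.mem hy hj') _ (h.mem hy' hj')
    have h3 := biter_small h hj'
    have h0 := norm_nonneg (y - y')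
    have h4 : ‖f^[j] y - f^[j] y'‖ ≤ 2 * ‖y - y'‖ := by
      have e : f^[j] y - f^[j] y' = ((f^[j] y - y) - (f^[j] y' - y')) + (y - y') := by abel
      rw [e]
      refine (norm_add_le _ _).trans ?_
      nlinarith
    have h5 := mul_le_mul_of_nonneg_left h4 h.η_nonneg
    rw [iterate_succ_apply', iterate_succ_apply']
    have e : f (f^[j] y) - y - (f (f^[j] y') - y')
        = ((f (f^[j] y) - f^[j] y) - (f (f^[j] y') - f^[j] y'))
          + ((f^[j] y - y) - (f^[j] y' - y')) := by abel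
    rw [e]
    refine (norm_add_le _ _).trans ?_
    push_cast
    linarith

theorem biter_step (h : NearId f w1 δ η K) {y : E × E} (hy : y ∈ ball w1 (5 * δ)) {j : ℕ}
    (hj : j ≤ K) (h1 : ‖f^[j] y - y‖ ≤ 2 * j * ‖f y - y‖) :
    ‖(f (f^[j] y) - f^[j] y) - (f y - y)‖ ≤ ‖f y - y‖ / 50 := by
  have h2 := h.lip _ (h.mem hy hj) _ (h.mem hy (Nat.zero_le K))
  have h3 := biter_small h hj
  have h4 := mul_le_mul_of_nonneg_left h1 h.η_nonneg
  have h0 := norm_nonneg (f y - y)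
  simp only [iterate_zero, id] at h2
  nlinarith

theorem biter_lin (h : NearId f w1 δ η K) {y : E × E} (hy : y ∈ ball w1 (5 * δ)) {j : ℕ}
    (hj : j ≤ K) : ‖f^[j] y - y‖ ≤ 2 * j * ‖f y - y‖ := by
  induction j with
  | zero => simp
  | succ j ih =>
    have hj' : j ≤ K := by omega
    have h1 := ih hj'
    have h2 := biter_step h hy hj' h1
    have h0 := norm_nonneg (f y - y)
    rw [iterate_succ_apply']
    have e : f (f^[j] y) - y
        = ((f (f^[j] y) - f^[j] y) - (f y - y)) + (f y - y) + (f^[j] y - y) := by abel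
    rw [e]
    refine (norm_add₃_le).trans ?_
    push_cast
    linarith

theorem biter_sum (h : NearId f w1 δ η K) {y : E × E} (hy : y ∈ ball w1 (5 * δ)) (j : ℕ) {n : ℕ}
    (hn : j + n ≤ K) : ‖f^[j + n] y - f^[j] y - (n : ℝ) • (f y - y)‖ ≤ n * (‖f y - y‖ / 50) := by
  induction n with
  | zero => simp
  | succ n ih =>
    have hn' : j + n ≤ K := by omega
    have h1 := ih hn'
    have h2 := biter_step h hy hn' (biter_lin h hy hn')
    rw [← add_assoc, iterate_succ_apply']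
    have e : f (f^[j + n] y) - f^[j] y - ((n + 1 : ℕ) : ℝ) • (f y - y)
        = ((f (f^[j + n] y) - f^[j + n] y) - (f y - y))
          + (f^[j + n] y - f^[j] y - (n : ℝ) • (f y - y)) := by
      rw [Nat.cast_succ, add_smul, one_smul]
      abel
    rw [e]
    refine (norm_add_le _ _).trans ?_
    push_cast
    linarith

theorem NearId.solve (h : NearId f w1 δ η K) {w : E × E} (hw : w ∈ ball w1 (3 * δ)) {k : ℕ}
    (hk : k ≤ K) : ∃ y ∈ ball w1 (5 * δ), y.1 = w.1 ∧ (f^[k] y).2 = w.2 := by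
  have hδ := h.δ_pos
  have hs := biter_small h hk
  have hm : ∀ b ∈ closedBall w.2 δ, (w.1, b) ∈ ball w1 (5 * δ) := by
    intro b hb
    have h1 : dist (w.1, b) w ≤ δ := by
      rw [Prod.dist_eq, dist_self]
      exact max_le hδ.le hb
    rw [mem_ball] at hw ⊢
    linarith [dist_triangle (w.1, b) w w1]
  set Φ : E → E := fun b => w.2 - ((f^[k] (w.1, b)).2 - b) with hΦ
  have hmaps : MapsTo Φ (closedBall w.2 δ) (closedBall w.2 δ) := by
    intro b hb
    have h1 := biter_move h (hm b hb) hk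
    have h2 := norm_snd_le (f^[k] (w.1, b) - (w.1, b))
    rw [mem_closedBall, dist_eq_norm, hΦ]
    simp only [sub_sub_cancel_left, norm_neg]
    simp only [Prod.snd_sub] at h2
    nlinarith
  have hc : ContractingWith (1 / 50) (hmaps.restrict Φ _ _) := by
    refine ⟨by norm_num, LipschitzWith.of_dist_le_mul fun a b => ?_⟩
    have h1 := biter_diff h (hm a a.2) (hm b b.2) hk
    have h2 := norm_snd_le
      ((f^[k] (w.1, a) - (w.1, (a : E))) - (f^[k] (w.1, b) - (w.1, (b : E))))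
    have h3 : ‖(w.1, (a : E)) - (w.1, (b : E))‖ = ‖(a : E) - b‖ := by simp
    have h4 : Φ a - Φ b = -(((f^[k] (w.1, a)).2 - a) - ((f^[k] (w.1, b)).2 - b)) := by
      simp only [hΦ]
      abel
    rw [Subtype.dist_eq, Subtype.dist_eq, dist_eq_norm, dist_eq_norm]
    simp only [MapsTo.val_restrict_apply]
    simp only [Prod.snd_sub] at h2
    rw [h3] at h1
    rw [h4, norm_neg]
    have h0 := norm_nonneg ((a : E) - b)
    push_cast
    nlinarith
  obtain ⟨b, hb, hfix, -⟩ := hc.exists_fixedPoint' isClosed_closedBall.isComplete hmaps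
    (mem_closedBall_self hδ.le) (edist_ne_top _ _)
  refine ⟨(w.1, b), hm b hb, rfl, ?_⟩
  have h1 : w.2 - ((f^[k] (w.1, b)).2 - b) = b := hfix
  rw [sub_sub_eq_add_sub, sub_eq_iff_eq_add, add_comm] at h1
  exact (add_left_cancel h1).symm

theorem NearId.fixed (h : NearId f w1 δ η K) {y : E × E} (hy : y ∈ ball w1 (5 * δ)) {j j' : ℕ}
    (hj : j < j') (hj' : j' ≤ K) (e : f^[j] y = f^[j'] y) : f y = y := by
  obtain ⟨n, rfl⟩ := Nat.exists_eq_add_of_le hj.le
  have h1 := biter_sum h hy j hj'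
  have hn : (0 : ℝ) < n := by exact_mod_cast (by omega : 0 < n)
  rw [← e, sub_self, zero_sub, norm_neg, norm_smul, Real.norm_of_nonneg hn.le] at h1
  have h2 := le_of_mul_le_mul_left h1 hn
  have h3 : ‖f y - y‖ = 0 := by linarith [norm_nonneg (f y - y)]
  exact sub_eq_zero.1 (norm_eq_zero.1 h3)

end Pool.Agent.GeoN
end

-- part Pool.Agent.P.MP_365c00_gt.BLift
section

/-! TASK BLift: lifting a contractible space into a local system (no homology here). -/

set_option linter.style.haveILetI false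

open Set Topology Function Filter

namespace Pool.Agent.GeoN.Ser

/-- the local sections of the total space -/
def blift_sec {X : Type} {G : X → Type} {ι : Type} (U : ι → Set X) {A : ι → Type}
    (r : ∀ i x, x ∈ U i → A i → G x) (i : ι) (α : A i) (x : U i) : Σ x, G x :=
  ⟨x.1, r i x.1 x.2 α⟩

/-- the topology of the total space -/
@[reducible] def blift_top {X : Type} [TopologicalSpace X] {G : X → Type} {ι : Type}
    (U : ι → Set X) {A : ι → Type} (r : ∀ i x, x ∈ U i → A i → G x) :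
    TopologicalSpace (Σ x, G x) :=
  ⨆ p : Σ i, A i, TopologicalSpace.coinduced (blift_sec U r p.1 p.2) inferInstance

theorem blift_cov {X : Type} [TopologicalSpace X] {G : X → Type}
    {ι : Type} (U : ι → Set X) (hU : ∀ i, IsOpen (U i)) (hcov : ∀ x, ∃ i, x ∈ U i)
    {A : ι → Type} (r : ∀ i x, x ∈ U i → A i → G x) (hr : ∀ i x h, Bijective (r i x h))
    (hcomp : ∀ i i' x (h : x ∈ U i) (h' : x ∈ U i') α α', r i x h α = r i' x h' α' →
      ∀ᶠ y in 𝓝 x, ∀ (k : y ∈ U i) (k' : y ∈ U i'), r i y k α = r i' y k' α') :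
    letI := blift_top U r
    (∀ i α, IsOpenMap (blift_sec U r i α)) ∧ IsCoveringMap (Sigma.fst : (Σ x, G x) → X) := by
  letI := blift_top U r
  have hc : ∀ i α, Continuous (blift_sec U r i α) := fun i α =>
    continuous_iSup_rng (i := (⟨i, α⟩ : Σ i, A i)) continuous_coinduced_rng
  have hp : Continuous (Sigma.fst : (Σ x, G x) → X) :=
    continuous_iSup_dom.2 fun p => continuous_coinduced_dom.2 continuous_subtype_val
  have ho : ∀ i α, IsOpenMap (blift_sec U r i α) := by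
    intro i α W hW
    refine isOpen_iSup_iff.2 fun p => ?_
    obtain ⟨i', α'⟩ := p
    change IsOpen (blift_sec U r i' α' ⁻¹' (blift_sec U r i α '' W))
    rw [isOpen_iff_mem_nhds]
    rintro ⟨x, hx'⟩ ⟨⟨z, hz⟩, hzW, hzx⟩
    have h1 : z = x := congrArg Sigma.fst hzx
    subst h1
    have h2 : r i z hz α = r i' z hx' α' := eq_of_heq (Sigma.mk.inj hzx).2
    have h3 : Subtype.val '' W ∈ 𝓝 z :=
      ((hU i).isOpenMap_subtype_val W hW).mem_nhds ⟨⟨z, hz⟩, hzW, rfl⟩
    have h4 := continuous_subtype_val.continuousAt (x := (⟨z, hx'⟩ : U i'))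
      ((hcomp i i' z hz hx' α α' h2).and h3)
    filter_upwards [h4] with y hy
    obtain ⟨hy1, ⟨w, hw⟩, hwW, hwy⟩ := hy
    obtain ⟨y, hy'⟩ := y
    change w = y at hwy
    subst hwy
    exact ⟨⟨w, hw⟩, hwW, congrArg (Sigma.mk w) (hy1 hw hy')⟩
  refine ⟨ho, fun x => ?_⟩
  obtain ⟨i, hi⟩ := hcov x
  letI : TopologicalSpace (A i) := ⊥
  haveI : DiscreteTopology (A i) := ⟨rfl⟩
  let Φ : U i × A i → (Sigma.fst ⁻¹' U i : Set (Σ x, G x)) := fun q =>
    ⟨blift_sec U r i q.2 q.1, q.1.2⟩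
  have hΦb : Bijective Φ := by
    constructor
    · rintro ⟨⟨z, hz⟩, α⟩ ⟨⟨w, hw⟩, β⟩ h
      have h0 : blift_sec U r i α ⟨z, hz⟩ = blift_sec U r i β ⟨w, hw⟩ := congrArg Subtype.val h
      have h1 : z = w := congrArg Sigma.fst h0
      subst h1
      have h2 : r i z hz α = r i z hw β := eq_of_heq (Sigma.mk.inj h0).2
      rw [(hr i z hz).1 h2]
    · rintro ⟨⟨z, g⟩, hz⟩
      obtain ⟨α, hα⟩ := (hr i z hz).2 g
      exact ⟨(⟨z, hz⟩, α), Subtype.ext (congrArg (Sigma.mk z) hα)⟩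
  have hΦc : Continuous Φ :=
    continuous_prod_of_discrete_right.2 fun α => (hc i α).subtype_mk _
  have hΦo : IsOpenMap Φ :=
    isOpenMap_prod_of_discrete_right.2 fun α => (ho i α).subtype_mk _
  let Ψ := (Equiv.ofBijective Φ hΦb).toHomeomorphOfContinuousOpen hΦc hΦo
  refine IsEvenlyCovered.to_isEvenlyCovered_preimage (I := A i)
    ⟨inferInstance, U i, hi, hU i, (hU i).preimage hp, Ψ.symm, fun q => ?_⟩
  obtain ⟨q, rfl⟩ := Ψ.surjective q
  rw [Homeomorph.symm_apply_apply]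
  rfl

theorem exists_lift {X Y : Type} [TopologicalSpace X] [TopologicalSpace Y] {G : X → Type}
    {ι : Type} (U : ι → Set X) (hU : ∀ i, IsOpen (U i)) (hcov : ∀ x, ∃ i, x ∈ U i)
    {A : ι → Type} (r : ∀ i x, x ∈ U i → A i → G x) (hr : ∀ i x h, Bijective (r i x h))
    (hcomp : ∀ i i' x (h : x ∈ U i) (h' : x ∈ U i') α α', r i x h α = r i' x h' α' →
      ∀ᶠ y in 𝓝 x, ∀ (k : y ∈ U i) (k' : y ∈ U i'), r i y k α = r i' y k' α')
    (e : C(Y, X)) (y0 : Y) (H : C(Y × unitInterval, Y)) (H0 : ∀ y, H (y, 0) = y0)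
    (H1 : ∀ y, H (y, 1) = y) (y1 : Y) (a : G (e y1)) :
    ∃ T : Y → (Σ x, G x), T y1 = ⟨e y1, a⟩ ∧ ∀ y i, e y ∈ U i → ∃ α : A i,
      ∀ᶠ y' in 𝓝 y, ∀ k : e y' ∈ U i, T y' = ⟨e y', r i (e y') k α⟩ := by
  letI := blift_top U r
  obtain ⟨ho, cov⟩ := blift_cov U hU hcov r hr hcomp
  let K : C(unitInterval × Y, X) := e.comp (H.comp ⟨Prod.swap, continuous_swap⟩)
  let γ : C(unitInterval, X) :=
    ⟨fun t => K (unitInterval.symm t, y1), by fun_prop⟩
  have hγ0 : γ 0 = (⟨e y1, a⟩ : Σ x, G x).1 := by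
    change e (H (y1, unitInterval.symm 0)) = e y1
    rw [unitInterval.symm_zero, H1]
  obtain ⟨Γ, hΓ, hΓ0⟩ := cov.exists_path_lifts γ ⟨e y1, a⟩ hγ0
  have hK0 : ∀ y, K (0, y) = ((ContinuousMap.const Y (Γ 1)) y).1 := by
    intro y
    have h1 : (Γ 1).1 = γ 1 := congrFun hΓ 1
    change e (H (y, 0)) = (Γ 1).1
    rw [h1, H0]
    change e y0 = e (H (y1, unitInterval.symm 1))
    rw [unitInterval.symm_one, H0]
  let L := cov.liftHomotopy K (ContinuousMap.const Y (Γ 1)) hK0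
  have hL : ∀ q, (L q).1 = K q := fun q => congrFun (cov.liftHomotopy_lifts K _ hK0) q
  have hT : ∀ y, (L (1, y)).1 = e y := by
    intro y
    rw [hL]
    change e (H (y, 1)) = e y
    rw [H1]
  refine ⟨fun y => L (1, y), ?_, fun y i hy => ?_⟩
  · have h1 : (fun t : unitInterval => L (t, y1)) = fun t => Γ (unitInterval.symm t) := by
      refine cov.eq_of_comp_eq (by fun_prop) (by fun_prop) ?_ 0 ?_
      · funext t
        have h2 : (Γ (unitInterval.symm t)).1 = γ (unitInterval.symm t) := congrFun hΓ _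
        change (L (t, y1)).1 = (Γ (unitInterval.symm t)).1
        rw [hL, h2]
        change K (t, y1) = K (unitInterval.symm (unitInterval.symm t), y1)
        rw [unitInterval.symm_symm]
      · rw [unitInterval.symm_zero]
        exact cov.liftHomotopy_zero K _ hK0 y1
    have h3 := congrFun h1 1
    rw [unitInterval.symm_one, hΓ0] at h3
    exact h3
  · have hx : (L (1, y)).1 ∈ U i := by rw [hT]; exact hy
    obtain ⟨α, hα⟩ := (hr i _ hx).2 (L (1, y)).2
    have hm : L (1, y) ∈ range (blift_sec U r i α) :=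
      ⟨⟨_, hx⟩, congrArg (Sigma.mk (L (1, y)).1) hα⟩
    have hcT : Continuous fun y => L (1, y) := by fun_prop
    refine ⟨α, ?_⟩
    filter_upwards [hcT.continuousAt ((ho i α).isOpen_range.mem_nhds hm)] with y' hy' k
    obtain ⟨⟨w, hw⟩, hwy⟩ := hy'
    have h5 : w = e y' := (congrArg Sigma.fst hwy).trans (hT y')
    subst h5
    exact hwy.symm

end Pool.Agent.GeoN.Ser
end

-- part Pool.Agent.P.MP_365c00_gt.NDefs
section

open Set Bundle MeasureTheory
open scoped Manifold ContDiff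

namespace Pool.Agent.GeoN

variable {E : Type} [NormedAddCommGroup E] [NormedSpace ℝ E]

/-- smooth Riemannian metrics on `M` -/
abbrev Met (E : Type) [NormedAddCommGroup E] [NormedSpace ℝ E] (M : Type) [TopologicalSpace M]
    [ChartedSpace E M] [IsManifold 𝓘(ℝ, E) ∞ M] :=
  ContMDiffRiemannianMetric 𝓘(ℝ, E) ∞ E (fun x : M => TangentSpace 𝓘(ℝ, E) x)

variable {M : Type} [TopologicalSpace M] [ChartedSpace E M] [IsManifold 𝓘(ℝ, E) ∞ M]

/-- the metric `g` read in the chart at `x`, at the point `a` of the model space -/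
noncomputable def coef (g : Met E M) (x : M) (a u w : E) : ℝ :=
  g.inner ((extChartAt 𝓘(ℝ, E) x).symm a)
    (mfderiv 𝓘(ℝ, E) 𝓘(ℝ, E) (extChartAt 𝓘(ℝ, E) x).symm a u)
    (mfderiv 𝓘(ℝ, E) 𝓘(ℝ, E) (extChartAt 𝓘(ℝ, E) x).symm a w)

/-- smooth curves solving the Euler-Lagrange equation of the energy in every chart -/
def IsGeodesic (g : Met E M) (γ : ℝ → M) : Prop :=
  ContMDiff 𝓘(ℝ, ℝ) 𝓘(ℝ, E) ∞ γ ∧ ∀ (x : M) (t : ℝ), γ t ∈ (extChartAt 𝓘(ℝ, E) x).source →
    ∀ w : E, HasDerivAt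
      (fun s => coef g x (extChartAt 𝓘(ℝ, E) x (γ s)) (deriv (extChartAt 𝓘(ℝ, E) x ∘ γ) s) w)
      (1 / 2 * fderiv ℝ (fun a => coef g x a (deriv (extChartAt 𝓘(ℝ, E) x ∘ γ) t)
        (deriv (extChartAt 𝓘(ℝ, E) x ∘ γ) t)) (extChartAt 𝓘(ℝ, E) x (γ t)) w) t

/-- unit speed -/
def UnitSpeed (g : Met E M) (γ : ℝ → M) : Prop :=
  ∀ t, g.inner (γ t) (mfderiv 𝓘(ℝ, ℝ) 𝓘(ℝ, E) γ t (1 : ℝ))
    (mfderiv 𝓘(ℝ, ℝ) 𝓘(ℝ, E) γ t (1 : ℝ)) = 1

/-- the images of the geodesics joining the two points of `z` -/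
def images (g : Met E M) (z : M × M) : Set (Set M) :=
  {S : Set M | ∃ γ : ℝ → M, IsGeodesic g γ ∧ (∃ s ∈ Icc (0 : ℝ) 1, γ s ≠ γ 0) ∧
    γ 0 = z.1 ∧ γ 1 = z.2 ∧ S = γ '' Icc 0 1}

end Pool.Agent.GeoN
end

-- part Pool.Agent.P.MP_365c00_gt.BGood
section

/-! TASK BGood: Hatcher 3.27 over a base, and vanishing of homology above the dimension. -/

open Set Topology Function
open Pool.Agent.URC

namespace Pool.Agent.GeoN.Ser

variable {X Y : Type} [TopologicalSpace X] [TopologicalSpace Y] {n N : ℕ}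

section aux

variable {e : C(Y, X)} {om : ∀ x : X, HH (e ⁻¹' {x})ᶜ N}

theorem good_empty : Gd e N om ∅ :=
  ⟨fun _ _ => HH.eq_zero_of_forall (by simp), fun α _ => HH.eq_zero_of_forall (by simp) α,
    0, fun _ hx => absurd hx (notMem_empty _)⟩

theorem good_union {K L : Set X} (hK : IsClosed K) (hL : IsClosed L) (h1 : Gd e N om K)
    (h2 : Gd e N om L) (h3 : Gd e N om (K ∩ L)) : Gd e N om (K ∪ L) := by
  have hS : IsOpen (e ⁻¹' K)ᶜ := (hK.preimage e.continuous).isOpen_compl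
  have hT : IsOpen (e ⁻¹' L)ᶜ := (hL.preimage e.continuous).isOpen_compl
  have e1 : (e ⁻¹' K)ᶜ ∪ (e ⁻¹' L)ᶜ = (e ⁻¹' (K ∩ L))ᶜ := by rw [preimage_inter, compl_inter]
  have e2 : (e ⁻¹' K)ᶜ ∩ (e ⁻¹' L)ᶜ = (e ⁻¹' (K ∪ L))ᶜ := by rw [preimage_union, compl_union]
  have h0 : ∀ k, N ≤ k → ∀ γ : HH ((e ⁻¹' K)ᶜ ∪ (e ⁻¹' L)ᶜ) (k + 1), γ = 0 := fun k hk => by
    rw [e1]
    exact h3.van _ (by omega)
  refine ⟨fun k hk α => mv_inj hS hT e2.le (sub_pre e subset_union_left)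
    (sub_pre e subset_union_right) (h0 k hk.le) α (h1.van k hk _) (h2.van k hk _),
    fun α h => mv_inj hS hT e2.le (sub_pre e subset_union_left)
    (sub_pre e subset_union_right) (h0 N le_rfl) α (h1.inj _ fun x hx => ?_)
    (h2.inj _ fun x hx => ?_), ?_⟩
  · rw [HH.res_res]; exact h x (Or.inl hx)
  · rw [HH.res_res]; exact h x (Or.inr hx)
  · obtain ⟨α, hα⟩ := h1.ex
    obtain ⟨β, hβ⟩ := h2.ex
    have h4 : HH.res (sub_pre e (inter_subset_left (t := L))) α =
        HH.res (sub_pre e (inter_subset_right (s := K))) β :=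
      sub_eq_zero.1 (h3.inj _ fun x hx => by
        rw [map_sub, HH.res_res, HH.res_res, hα x hx.1, hβ x hx.2, sub_self])
    have h5 := congrArg (HH.res e1.ge) h4
    rw [HH.res_res, HH.res_res] at h5
    obtain ⟨γ, k1, k2⟩ := mv_glue hS hT α β h5
    refine ⟨HH.res e2.le γ, fun x hx => ?_⟩
    rcases hx with hx | hx
    · rw [← hα x hx, ← k1, HH.res_res, HH.res_res]
    · rw [← hβ x hx, ← k2, HH.res_res, HH.res_res]

theorem good_biUnion' (C : Set X → Prop) (hcl : ∀ A, C A → IsClosed A)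
    (hP : ∀ A, C A → Gd e N om A) (hi : ∀ A B, C A → C B → C (A ∩ B)) {ι : Type} (s : Finset ι)
    (f : ι → Set X) (hf : ∀ i ∈ s, C (f i)) : Gd e N om (⋃ i ∈ s, f i) := by
  classical
  induction s using Finset.induction_on generalizing f with
  | empty => simpa using good_empty
  | insert a s ha ih =>
    have h1 := hf a (Finset.mem_insert_self _ _)
    have h2 : ∀ i ∈ s, C (f i) := fun i hi => hf i (Finset.mem_insert_of_mem hi)
    rw [Finset.set_biUnion_insert]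
    refine good_union (hcl _ h1) (isClosed_biUnion_finset fun i hi => hcl _ (h2 i hi))
      (hP _ h1) (ih f h2) ?_
    rw [inter_iUnion₂]
    exact ih _ fun i h => hi _ _ h1 (h2 i h)

variable {j : C(E n, X)}

theorem good_prop (hj : Loc e N j) {B : Set (E n)} (hB : IsCompact B) (hc : Convex ℝ B)
    {k : ℕ} (α : HH (e ⁻¹' (j '' B))ᶜ k) {z w : E n} (hz : z ∈ B) (hw : w ∈ B)
    (h : HH.res (sub_pt e (mem_image_of_mem j hz)) α = 0) :
    HH.res (sub_pt e (mem_image_of_mem j hw)) α = 0 := by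
  rw [(injective_iff_map_eq_zero _).1 (hj.bij B hB hc z hz k).1 α h, map_zero]

theorem good_convex' (hj : Loc e N j) (hom : Cons e N om) {K : Set (E n)} (hK : IsCompact K)
    (hc : Convex ℝ K) : Gd e N om (j '' K) := by
  rcases K.eq_empty_or_nonempty with rfl | ⟨z₀, hz₀⟩
  · simpa using good_empty
  have hb := fun k => (injective_iff_map_eq_zero _).1 (hj.bij K hK hc z₀ hz₀ k).1
  refine ⟨fun k hk α => hb k α (hj.van z₀ k hk _), fun α h => hb N α (h _ (mem_image_of_mem j hz₀)), ?_⟩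
  obtain ⟨α, hα⟩ := (hj.bij K hK hc z₀ hz₀ N).2 (om (j z₀))
  refine ⟨α, ?_⟩
  set P : E n → Prop := fun z => ∀ hz : z ∈ K,
    HH.res (sub_pt e (mem_image_of_mem j hz)) α = om (j z) with hP
  have key : ∀ z ∈ K, ∀ᶠ w in 𝓝[K] z, (P z ↔ P w) := by
    intro z hz
    obtain ⟨K', hK', α', hα'⟩ := hom (j z)
    obtain ⟨r, hr, hsub⟩ := Metric.nhds_basis_closedBall.mem_iff.1
      (j.continuous.continuousAt.preimage_mem_nhds hK')
    have hB : IsCompact (K ∩ Metric.closedBall z r) := hK.inter_right Metric.isClosed_closedBall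
    have hBc : Convex ℝ (K ∩ Metric.closedBall z r) := hc.inter (convex_closedBall _ _)
    have s1 : j '' (K ∩ Metric.closedBall z r) ⊆ j '' K := image_mono inter_subset_left
    have s2 : j '' (K ∩ Metric.closedBall z r) ⊆ K' := by
      rintro _ ⟨w, hw, rfl⟩
      exact hsub hw.2
    have hiff : ∀ w (hw : w ∈ K ∩ Metric.closedBall z r), P w ↔
        HH.res (sub_pt e (mem_image_of_mem j hw))
          (HH.res (sub_pre e s1) α - HH.res (sub_pre e s2) α') = 0 := fun w hw => by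
      rw [map_sub, HH.res_res, HH.res_res, hα' (j w) (hsub hw.2), sub_eq_zero]
      exact ⟨fun h => h hw.1, fun h _ => h⟩
    have hzB : z ∈ K ∩ Metric.closedBall z r := ⟨hz, Metric.mem_closedBall_self hr.le⟩
    filter_upwards [inter_mem_nhdsWithin K (Metric.closedBall_mem_nhds z hr)] with w hw
    rw [hiff z hzB, hiff w hw]
    exact ⟨good_prop hj hB hBc _ hzB hw, good_prop hj hB hBc _ hw hzB⟩
  rintro _ ⟨z, hz, rfl⟩
  have h1 : P z₀ ↔ P z :=
    hc.isPreconnected.induction₂ (fun a b => P a ↔ P b) key (fun _ _ _ _ _ _ h h' => h.trans h')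
      (fun _ _ _ _ h => h.symm) hz₀ hz
  exact h1.1 (fun _ => hα) hz

theorem good_balls {A : Set (E n)} (hA : IsCompact A) [T2Space X] {k : ℕ}
    (α : HH (e ⁻¹' (j '' A))ᶜ k) :
    ∃ (s : Finset (E n)) (r : E n → ℝ) (h : A ⊆ ⋃ x ∈ s, Metric.closedBall x (r x))
      (β : HH (e ⁻¹' (j '' ⋃ x ∈ s, Metric.closedBall x (r x)))ᶜ k),
      (∀ x ∈ s, x ∈ A ∧ 0 < r x) ∧ HH.res (sub_pre e (image_mono h)) β = α := by
  obtain ⟨c, hc, rfl⟩ := HH.exists_mk α
  have hcl : IsClosed (j ⁻¹' (e '' car (bd c))) :=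
    ((isCompact_car (bd c)).image e.continuous).isClosed.preimage j.continuous
  have h1 : ∀ x : E n, ∃ r : ℝ, 0 < r ∧
      (x ∈ A → Metric.closedBall x r ⊆ (j ⁻¹' (e '' car (bd c)))ᶜ) := fun x => by
    by_cases hx : x ∈ A
    · obtain ⟨r, hr, h⟩ := Metric.nhds_basis_closedBall.mem_iff.1
        (hcl.isOpen_compl.mem_nhds (x := x) fun ⟨y, hy, e1⟩ =>
          mem_ChIn_iff_car.1 hc hy ⟨x, hx, e1.symm⟩)
      exact ⟨r, hr, fun _ => h⟩
    · exact ⟨1, one_pos, fun h => absurd h hx⟩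
  choose r hr h1 using h1
  obtain ⟨s, hs, h2⟩ := hA.elim_nhds_subcover (fun x => Metric.closedBall x (r x))
    fun x _ => Metric.closedBall_mem_nhds x (hr x)
  refine ⟨s, r, h2, HH.mk c (mem_ChIn_iff_car.2 fun y hy h => ?_),
    fun x hx => ⟨hs x hx, hr x⟩, HH.res_mk _ _ _⟩
  obtain ⟨w, hw, e1⟩ := h
  obtain ⟨x, hx, h⟩ := mem_iUnion₂.1 hw
  exact h1 x (hs x hx) h ⟨y, hy, e1.symm⟩

theorem good_chart [T2Space X] (hj : Loc e N j) (hom : Cons e N om) {A : Set (E n)}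
    (hA : IsCompact A) : Gd e N om (j '' A) := by
  have key : ∀ (s : Finset (E n)) (r : E n → ℝ),
      Gd e N om (j '' ⋃ x ∈ s, Metric.closedBall x (r x)) := fun s r => by
    rw [image_iUnion₂]
    refine good_biUnion' (fun A => ∃ B, IsCompact B ∧ Convex ℝ B ∧ A = j '' B) ?_ ?_ ?_ s _
      fun x _ => ⟨_, isCompact_closedBall _ _, convex_closedBall _ _, rfl⟩
    · rintro _ ⟨B, hB, -, rfl⟩
      exact (hB.image j.continuous).isClosed
    · rintro _ ⟨B, hB, hc, rfl⟩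
      exact good_convex' hj hom hB hc
    · rintro _ _ ⟨B, hB, hc, rfl⟩ ⟨B', hB', hc', rfl⟩
      exact ⟨_, hB.inter hB', hc.inter hc', (image_inter hj.emb.injective).symm⟩
  refine ⟨fun k hk α => ?_, fun α h => ?_, ?_⟩
  · obtain ⟨s, r, h, β, -, rfl⟩ := good_balls hA α
    rw [(key s r).van k hk β, map_zero]
  · obtain ⟨s, r, h1, β, h2, rfl⟩ := good_balls hA α
    rw [(key s r).inj β ?_, map_zero]
    rintro _ ⟨y, hy, rfl⟩
    obtain ⟨x, hx, h3⟩ := mem_iUnion₂.1 hy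
    have k1 : j '' Metric.closedBall x (r x) ⊆ j '' ⋃ x ∈ s, Metric.closedBall x (r x) :=
      image_mono (subset_iUnion₂ (s := fun x (_ : x ∈ s) => Metric.closedBall x (r x)) x hx)
    have k2 : x ∈ Metric.closedBall x (r x) := Metric.mem_closedBall_self (h2 x hx).2.le
    have k4 := good_prop hj (isCompact_closedBall x (r x)) (convex_closedBall x (r x))
      (HH.res (sub_pre e k1) β) k2 h3 (by
        have := h (j x) (mem_image_of_mem j (h2 x hx).1)
        rw [HH.res_res] at this ⊢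
        exact this)
    rw [HH.res_res] at k4
    exact k4
  · obtain ⟨R, hR⟩ := hA.isBounded.subset_closedBall 0
    obtain ⟨α, hα⟩ :=
      (good_convex' hj hom (isCompact_closedBall (0 : E n) R) (convex_closedBall _ _)).ex
    refine ⟨HH.res (sub_pre e (image_mono hR)) α, fun x hx => ?_⟩
    rw [HH.res_res]
    exact hα x (image_mono hR hx)

end aux

theorem good_of_compact [T2Space X] {e : C(Y, X)} {om : ∀ x : X, HH (e ⁻¹' {x})ᶜ N}
    (hX : ∀ x : X, ∃ j : C(E n, X), Loc e N j ∧ x ∈ range j) (hom : Cons e N om)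
    {K : Set X} (hK : IsCompact K) : Gd e N om K := by
  choose J hJ hJx using hX
  have h1 : ∀ x : X, ∃ A : Set (E n), IsCompact A ∧ J x '' A ∈ 𝓝 x := fun x => by
    obtain ⟨z, hz⟩ := hJx x
    refine ⟨Metric.closedBall z 1, isCompact_closedBall _ _, ?_⟩
    have := (hJ x).emb.image_mem_nhds.2 (Metric.closedBall_mem_nhds z one_pos)
    rwa [hz] at this
  choose A hA hA' using h1
  obtain ⟨s, -, h2⟩ := hK.elim_nhds_subcover (fun x => J x '' A x) fun x _ => hA' x
  have e1 : K = ⋃ x ∈ s, J x '' (A x ∩ J x ⁻¹' K) := by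
    simp only [image_inter_preimage]
    rw [← iUnion₂_inter]
    exact (inter_eq_right.2 h2).symm
  rw [e1]
  refine good_biUnion' (fun B => ∃ x B', IsCompact B' ∧ B = J x '' B') ?_ ?_ ?_ s _
    fun x _ => ⟨x, _, (hA x).inter_right (hK.isClosed.preimage (J x).continuous), rfl⟩
  · rintro _ ⟨x, B, hB, rfl⟩
    exact (hB.image (J x).continuous).isClosed
  · rintro _ ⟨x, B, hB, rfl⟩
    exact good_chart (hJ x) hom hB
  · rintro _ _ ⟨x, B, hB, rfl⟩ ⟨x', B', hB', rfl⟩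
    exact ⟨x, _, hB.inter_right ((hB'.image (J x').continuous).isClosed.preimage
      (J x).continuous), (image_inter_preimage _ _ _).symm⟩

end Pool.Agent.GeoN.Ser
end

-- part Pool.Agent.P.MP_365c00_gt.BPath
section

/-! TASK BPath: the path fibration is locally trivial up to fibre homotopy (no homology). -/

open Set Topology Function
open Pool.Agent.URC

namespace Pool.Agent.GeoN.Ser

variable {X : Type} [TopologicalSpace X] {n : ℕ}

/-- a path on `[0,1]` followed by `b` -/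
noncomputable def bpCat (g : C(unitInterval, X)) (b : ℝ → X) (u : ℝ) : X :=
  if u ≤ 1 then g (projIcc 0 1 zero_le_one u) else b u

theorem bp_coe (g : C(unitInterval, X)) (b : ℝ → X) (t : unitInterval) : bpCat g b t = g t := by
  rw [bpCat, if_pos t.2.2, projIcc_val]

theorem bp_zero (g : C(unitInterval, X)) (b : ℝ → X) : bpCat g b 0 = g 0 := bp_coe g b 0

theorem bp_one (g : C(unitInterval, X)) (b : ℝ → X) : bpCat g b 1 = g 1 := bp_coe g b 1

theorem bp_ge {g : C(unitInterval, X)} {b : ℝ → X} (h : g 1 = b 1) {u : ℝ} (hu : 1 ≤ u) :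
    bpCat g b u = b u := by
  rcases hu.eq_or_lt with rfl | hu
  · rw [bp_one, h]
  · rw [bpCat, if_neg hu.not_ge]

theorem bp_back {g g' : C(unitInterval, X)} {b b' : ℝ → X} (h : g 1 = b 1)
    (hg : ∀ t : unitInterval, g' t = bpCat g b (2 * t)) (hb : ∀ u, b' u = b (3 - u))
    (t : unitInterval) : bpCat g' b' (2 * t) = bpCat g b (min (4 * t) (3 - 2 * t)) := by
  have h0 := t.2.1
  have h1 := t.2.2
  by_cases ht : 2 * (t : ℝ) ≤ 1
  · rw [min_eq_left (by linarith), bp_coe g' b' ⟨2 * t, by linarith, ht⟩, hg]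
    congr 1
    ring
  · rw [min_eq_right (by linarith), bpCat, if_neg ht, hb, bp_ge h (by linarith)]

/-- a family of paths, each followed by a curve -/
structure BpFam (Z X : Type) [TopologicalSpace Z] [TopologicalSpace X] where
  g : C(Z, C(unitInterval, X))
  b : C(Z × ℝ, X)
  h : ∀ z, g z 1 = b (z, 1)

namespace BpFam

variable {Z : Type} [TopologicalSpace Z] (A : BpFam Z X)

/-- the concatenation -/
noncomputable def cat : C(Z × ℝ, X) :=
  ⟨fun x => bpCat (A.g x.1) (fun u => A.b (x.1, u)) x.2, by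
    refine Continuous.if_le ?_ ?_ continuous_snd continuous_const fun x hx => ?_
    · exact (A.g.continuous.comp continuous_fst).eval (continuous_projIcc.comp continuous_snd)
    · exact A.b.continuous
    · rw [hx, projIcc_right]
      exact A.h x.1⟩

/-- the concatenation at double speed -/
noncomputable def dbl : C(Z, C(unitInterval, X)) :=
  (A.cat.comp (⟨fun x : Z × unitInterval => (x.1, 2 * (x.2 : ℝ)), by fun_prop⟩ :
    C(Z × unitInterval, Z × ℝ))).curry

/-- the homotopy that pulls the second half back -/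
noncomputable def hty : C(Z × unitInterval, C(unitInterval, X)) :=
  (A.cat.comp (⟨fun x : (Z × unitInterval) × unitInterval =>
    (x.1.1, (1 - (x.1.2 : ℝ)) * min (4 * (x.2 : ℝ)) (3 - 2 * (x.2 : ℝ)) + (x.1.2 : ℝ) * (x.2 : ℝ)),
      by fun_prop⟩ : C((Z × unitInterval) × unitInterval, Z × ℝ))).curry

theorem dbl_apply (z : Z) (t : unitInterval) :
    A.dbl z t = bpCat (A.g z) (fun u => A.b (z, u)) (2 * t) := rfl

theorem hty_apply (z : Z) (s t : unitInterval) : A.hty (z, s) t =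
    bpCat (A.g z) (fun u => A.b (z, u))
      ((1 - (s : ℝ)) * min (4 * (t : ℝ)) (3 - 2 * (t : ℝ)) + (s : ℝ) * (t : ℝ)) := rfl

theorem dbl_zero (z : Z) : A.dbl z 0 = A.g z 0 := by
  rw [dbl_apply, Icc.coe_zero, mul_zero, bp_zero]

theorem dbl_one (z : Z) : A.dbl z 1 = A.b (z, 2) := by
  rw [dbl_apply, Icc.coe_one, mul_one, bp_ge (A.h z) one_le_two]

theorem hty_start (x : Z × unitInterval) : A.hty x 0 = A.g x.1 0 := by
  rw [hty_apply, ← bp_zero _ fun u => A.b (x.1, u)]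
  congr 1
  norm_num

theorem hty_end (x : Z × unitInterval) : A.hty x 1 = A.g x.1 1 := by
  rw [hty_apply, ← bp_one _ fun u => A.b (x.1, u)]
  congr 1
  norm_num

theorem hty_one (z : Z) : A.hty (z, 1) = A.g z := by
  ext t
  rw [hty_apply, ← bp_coe _ fun u => A.b (z, u)]
  congr 1
  norm_num

theorem hty_zero {W : Type} [TopologicalSpace W] (B : BpFam W X) (z : Z) (w : W)
    (hg : B.g w = A.dbl z) (hb : ∀ u, B.b (w, u) = A.b (z, 3 - u)) : A.hty (z, 0) = B.dbl w := by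
  ext t
  rw [hty_apply, dbl_apply, bp_back (A.h z) (fun t => by rw [hg, dbl_apply]) hb]
  congr 1
  norm_num

end BpFam

theorem bp_lam [PathConnectedSpace X] (q : X) (j : C(E n, X)) :
    ∃ L : C(E n × ℝ, X), (∀ y, L (y, 0) = j y) ∧ ∀ y, L (y, 1) = q := by
  obtain ⟨c⟩ := PathConnectedSpace.joined (j 0) q
  refine ⟨⟨fun x => if x.2 ≤ 1 / 2 then j ((1 - 2 * x.2) • x.1) else c.extend (2 * x.2 - 1), ?_⟩,
    fun y => ?_, fun y => ?_⟩
  · refine Continuous.if_le (by fun_prop) (by fun_prop) continuous_snd continuous_const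
      fun x hx => ?_
    rw [hx]
    norm_num
  · norm_num
  · norm_num

theorem path_locTriv [PathConnectedSpace X] (p q : X) {j : C(E n, X)} (hj : IsOpenEmbedding j) :
    Nonempty (LocTriv (endp p) (Om p q) j) := by
  obtain ⟨L, L0, L1⟩ := bp_lam q j
  let k : C(endp p ⁻¹' range j, E n) :=
    ⟨fun y => hj.isEmbedding.toHomeomorph.symm ⟨endp p y.1, y.2⟩, by fun_prop⟩
  have hk : ∀ y, j (k y) = endp p y.1 := fun y =>
    congrArg Subtype.val (hj.isEmbedding.toHomeomorph.apply_symm_apply ⟨endp p y.1, y.2⟩)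
  let A : BpFam (endp p ⁻¹' range j) X :=
    ⟨⟨fun y => y.1.1, by fun_prop⟩, ⟨fun x => L (k x.1, x.2 - 1), by fun_prop⟩, fun y => by
      show endp p y.1 = L (k y, 1 - 1)
      rw [sub_self, L0, hk]⟩
  let B : BpFam (E n × Om p q) X :=
    ⟨⟨fun z => z.2.1, by fun_prop⟩, ⟨fun x => L (x.1.1, 2 - x.2), by fun_prop⟩, fun z => by
      show z.2.1 1 = L (z.1, 2 - 1)
      rw [z.2.2.2, show (2 : ℝ) - 1 = 1 by norm_num, L1]⟩
  have A1 : ∀ y, A.dbl y 1 = q := fun y => by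
    rw [A.dbl_one]
    show L (k y, 2 - 1) = q
    rw [show (2 : ℝ) - 1 = 1 by norm_num, L1]
  have B1 : ∀ z, B.dbl z 1 = j z.1 := fun z => by
    rw [B.dbl_one]
    show L (z.1, 2 - 2) = j z.1
    rw [sub_self, L0]
  let Φ : C(endp p ⁻¹' range j, E n × Om p q) :=
    ⟨fun y => (k y, ⟨A.dbl y, (A.dbl_zero y).trans y.1.2, A1 y⟩),
      k.continuous.prodMk (A.dbl.continuous.subtype_mk _)⟩
  let Ψ : C(E n × Om p q, PP p) :=
    ⟨fun z => ⟨B.dbl z, (B.dbl_zero z).trans z.2.2.1⟩, B.dbl.continuous.subtype_mk _⟩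
  refine ⟨{
    Φ := Φ
    Ψ := Ψ
    eΨ := B1
    eΦ := hk
    H1 := ⟨fun x => ⟨A.hty x, (A.hty_start x).trans x.1.1.2⟩, A.hty.continuous.subtype_mk _⟩
    H1_zero := fun y => Subtype.ext (A.hty_zero B y (Φ y) rfl fun u => ?_)
    H1_one := fun y => Subtype.ext (A.hty_one y)
    H1_e := fun y t => A.hty_end (y, t)
    H2 := ⟨fun x => (x.1.1, ⟨B.hty x, (B.hty_start x).trans x.1.2.2.1,
      (B.hty_end x).trans x.1.2.2.2⟩),
      (continuous_fst.comp continuous_fst).prodMk (B.hty.continuous.subtype_mk _)⟩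
    H2_zero := fun z => ?_
    H2_one := fun z => Prod.ext rfl (Subtype.ext (B.hty_one z))
    H2_e := fun _ _ => rfl }⟩
  · show L (k y, 2 - u) = L (k y, 3 - u - 1)
    congr 2
    ring
  · have h1 : k ⟨Ψ z, ⟨z.1, (B1 z).symm⟩⟩ = z.1 := hj.injective ((hk _).trans (B1 z))
    refine Prod.ext h1.symm (Subtype.ext (B.hty_zero A z ⟨Ψ z, ⟨z.1, (B1 z).symm⟩⟩ rfl fun u => ?_))
    show L (k ⟨Ψ z, ⟨z.1, (B1 z).symm⟩⟩, u - 1) = L (z.1, 2 - (3 - u))
    rw [h1]
    congr 2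
    ring

theorem path_contr (p : X) : ∃ (y0 : PP p) (H : C(PP p × unitInterval, PP p)),
    (∀ y, H (y, 0) = y0) ∧ ∀ y, H (y, 1) = y := by
  let G : C(PP p × unitInterval, C(unitInterval, X)) :=
    (⟨fun x => x.1.1.1 (x.1.2 * x.2), by fun_prop⟩ :
      C((PP p × unitInterval) × unitInterval, X)).curry
  have hG : ∀ x t, G x t = x.1.1 (x.2 * t) := fun _ _ => rfl
  have h0 : ∀ x, G x 0 = p := fun x => by rw [hG, mul_zero, x.1.2]
  refine ⟨⟨ContinuousMap.const _ p, rfl⟩, ⟨fun x => ⟨G x, h0 x⟩, G.continuous.subtype_mk h0⟩,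
    fun y => Subtype.ext ?_, fun y => Subtype.ext ?_⟩
  · ext t
    exact (hG _ _).trans (by rw [zero_mul, y.2]; rfl)
  · ext t
    exact (hG _ _).trans (by rw [one_mul])

end Pool.Agent.GeoN.Ser
end

-- part Pool.Agent.P.MP_365c00_gt.BProd
section

/-! TASK BProd: local homology of the product `E n × F` along `K × F`. -/

open Set Topology Function
open Pool.Agent.URC

namespace Pool.Agent.GeoN.Ser

variable {F : Type} [TopologicalSpace F] {n : ℕ}

/-- the dilation in the first factor -/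
noncomputable def bprod_dil (F : Type) [TopologicalSpace F] (x : E n) (l : ℝ) :
    C(E n × F, E n × F) :=
  ⟨fun p => (dil x l p.1, p.2), by fun_prop⟩

theorem bprod_mapsTo {K : Set (E n)} {x : E n} (hs : StarConvex ℝ x K) {l : ℝ} (hl : 1 ≤ l) :
    MapsTo (bprod_dil F x l) (K ×ˢ (univ : Set F))ᶜ (K ×ˢ (univ : Set F))ᶜ :=
  fun _ hp h => dil_mapsTo hs hl (fun e => hp ⟨e, mem_univ _⟩) h.1

theorem bprod_map_dil {K : Set (E n)} {x : E n} (hs : StarConvex ℝ x K) {l : ℝ} (hl : 1 ≤ l)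
    {k : ℕ} (α : HH (K ×ˢ (univ : Set F))ᶜ k) :
    HH.map (bprod_dil F x l) (bprod_mapsTo hs hl) α = α := by
  let H : C((E n × F) × unitInterval, E n × F) :=
    ⟨fun q => (x + (1 + (q.2 : ℝ) * (l - 1)) • (q.1.1 - x), q.1.2), by fun_prop⟩
  rw [← HH.map_homotopy (ContinuousMap.id _) (bprod_dil F x l) H (fun y => by simp [H])
    (fun y => by simp [H, bprod_dil, dil]) ?_ (mapsTo_id _), HH.map_id']
  intro y hy t
  have h1 : 1 ≤ 1 + (t : ℝ) * (l - 1) := by
    have := mul_nonneg t.2.1 (sub_nonneg.2 hl)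
    linarith
  exact bprod_mapsTo hs h1 hy

theorem bprod_exists_dil {K : Set (E n)} {C : Set (E n × F)} (hK : Bornology.IsBounded K)
    (hC : IsCompact C) {x : E n} (hx : C ⊆ (({x} : Set (E n)) ×ˢ (univ : Set F))ᶜ) :
    ∃ l : ℝ, 1 ≤ l ∧ MapsTo (bprod_dil F x l) C (K ×ˢ (univ : Set F))ᶜ := by
  obtain ⟨l, hl, hm⟩ := exists_dil hK (hC.image continuous_fst) (x := x) (by
    rintro _ ⟨p, hp, rfl⟩ h
    exact hx hp ⟨h, mem_univ _⟩)
  exact ⟨l, hl, fun p hp h => hm (mem_image_of_mem _ hp) h.1⟩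

/-- non-vanishing passes to the suspension -/
theorem bprod_susp {Y : Type} [TopologicalSpace Y] {A : Set Y} (hA : IsClosed A) {k : ℕ}
    (h : ∃ β : HH Aᶜ k, β ≠ 0) : ∃ α : HH (Up A ∪ Dn A) (k + 1), α ≠ 0 := by
  obtain ⟨β, hβ⟩ := h
  obtain ⟨γ, rfl⟩ := (snd_bij A).2 β
  obtain ⟨a, ha, rfl⟩ := HH.exists_mk γ
  obtain ⟨d1, h1⟩ := mem_Bd.1 (HH.mk_eq_zero.1
    (vanish_Up A (HH.mk a (ChIn_mono inter_subset_left k ha))))
  obtain ⟨d2, h2⟩ := mem_Bd.1 (HH.mk_eq_zero.1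
    (vanish_Dn A (HH.mk a (ChIn_mono inter_subset_right k ha))))
  have h3 : bd (d2 - d1) = (a - bd d1) + -(a - bd d2) := by
    rw [map_sub]
    abel
  have h4 := Submodule.neg_mem _ h2
  refine ⟨HH.mk (d2 - d1) (split_mem h1 h4 h3), fun e => hβ ?_⟩
  have h5 := delta_wd (isOpen_Up hA) (isOpen_Dn hA) h1 h4 h3 (HH.mk_eq_zero.1 e)
  have h6 : HH.mk a ha = 0 := by
    rw [HH.mk_eq_zero, ← sub_add_cancel a (bd d1)]
    exact Submodule.add_mem _ h5 (bd_mem_Bd _ _)
  rw [h6, map_zero]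

theorem bprod_zero (x : E 0) (k : ℕ) :
    ∃ φ : HH (({x} : Set (E 0)) ×ˢ (univ : Set F))ᶜ k →+ HH (∅ : Set F) k, Bijective φ := by
  have hf : MapsTo (ContinuousMap.snd : C(E 0 × F, F)) (({x} : Set (E 0)) ×ˢ (univ : Set F))ᶜ ∅ :=
    fun p hp => hp ⟨Subsingleton.elim _ _, mem_univ _⟩
  exact ⟨_, map_bij_of_inv _ ⟨fun w => (x, w), by fun_prop⟩ hf (fun _ h => h.elim)
    (fun p => Prod.ext (Subsingleton.elim _ _) rfl) fun _ => rfl⟩

theorem bprod_succ (x : E (n + 1)) (k : ℕ) : ∃ y : E n,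
    ∃ φ : HH (({x} : Set (E (n + 1))) ×ˢ (univ : Set F))ᶜ k →+
      HH (Up (({y} : Set (E n)) ×ˢ (univ : Set F)) ∪ Dn (({y} : Set (E n)) ×ˢ (univ : Set F))) k,
      Bijective φ := by
  have h : spl 0 (x 0) 0 x = (0, fun j => x j.succ) := by
    ext <;> simp [spl]
  generalize (fun j : Fin n => x j.succ) = y at h
  let f : C(E (n + 1) × F, ℝ × (E n × F)) :=
    ⟨fun p => ((spl 0 (x 0) 0 p.1).1, (spl 0 (x 0) 0 p.1).2, p.2), by fun_prop⟩
  let g : C(ℝ × (E n × F), E (n + 1) × F) :=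
    ⟨fun q => (uns 0 (x 0) 0 (q.1, q.2.1), q.2.2), by fun_prop⟩
  have hf : MapsTo f (({x} : Set (E (n + 1))) ×ˢ (univ : Set F))ᶜ
      (Up (({y} : Set (E n)) ×ˢ (univ : Set F)) ∪ Dn (({y} : Set (E n)) ×ˢ (univ : Set F))) :=
    fun p hp => mem_Up_union_Dn.2 fun e =>
      (mem_Up_union_Dn (A := {y}) (p := spl 0 (x 0) 0 p.1)).1
        (spl_mapsTo 0 (x 0) 0 h fun e' => hp ⟨e', mem_univ _⟩) e.1
  refine ⟨y, _, map_bij_of_inv f g hf (fun q hq hx => ?_)
    (fun p => Prod.ext (uns_spl 0 (x 0) 0 p.1) rfl) fun q => ?_⟩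
  · have e : uns 0 (x 0) 0 (q.1, q.2.1) = x := hx.1
    have e2 : (q.1, q.2.1) = (0, y) := by rw [← h, ← spl_uns 0 (x 0) 0 (q.1, q.2.1), e]
    exact mem_Up_union_Dn.1 hq ⟨(Prod.mk.inj e2).2, mem_univ _⟩ (Prod.mk.inj e2).1
  · change ((spl 0 (x 0) 0 (uns 0 (x 0) 0 (q.1, q.2.1))).1,
      (spl 0 (x 0) 0 (uns 0 (x 0) 0 (q.1, q.2.1))).2, q.2.2) = q
    rw [spl_uns]

theorem prod_res_bij {K : Set (E n)} (hK : Bornology.IsBounded K) {x : E n}
    (hs : StarConvex ℝ x K)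
    (h : (K ×ˢ (univ : Set F))ᶜ ⊆ (({x} : Set (E n)) ×ˢ (univ : Set F))ᶜ) (k : ℕ) :
    Bijective (HH.res h :
      HH (K ×ˢ (univ : Set F))ᶜ k → HH (({x} : Set (E n)) ×ˢ (univ : Set F))ᶜ k) := by
  constructor
  · rw [injective_iff_map_eq_zero]
    intro α h
    obtain ⟨c, hc, rfl⟩ := HH.exists_mk α
    rw [HH.res_mk, HH.mk_eq_zero] at h
    obtain ⟨d, hd⟩ := mem_Bd.1 h
    obtain ⟨l, hl, hm⟩ := bprod_exists_dil hK (isCompact_car (c - bd d)) (mem_ChIn_iff_car.1 hd)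
    rw [← bprod_map_dil hs hl (HH.mk c hc), HH.map_mk, HH.mk_eq_zero]
    refine mem_Bd.2 ⟨push (bprod_dil F x l) d, ?_⟩
    rw [bd_push, ← map_sub]
    exact push_mem_ChIn _ hm (mem_ChIn_iff_car.2 subset_rfl)
  · intro α
    obtain ⟨c, hc, rfl⟩ := HH.exists_mk α
    obtain ⟨l, hl, hm⟩ := bprod_exists_dil hK (isCompact_car (bd c)) (mem_ChIn_iff_car.1 hc)
    refine ⟨HH.mk (push (bprod_dil F x l) c) ?_, ?_⟩
    · rw [bd_push]
      exact push_mem_ChIn _ hm (mem_ChIn_iff_car.2 subset_rfl)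
    · rw [HH.res_mk, ← bprod_map_dil (starConvex_singleton x) hl (HH.mk c hc), HH.map_mk]

theorem prod_vanish {d : ℕ} (hF : Van F d) (x : E n) {k : ℕ} (hk : n + d < k)
    (α : HH (({x} : Set (E n)) ×ˢ (univ : Set F))ᶜ k) : α = 0 := by
  induction n generalizing k with
  | zero =>
    obtain ⟨φ, hφ⟩ := bprod_zero (F := F) x k
    exact hφ.1 (by rw [map_zero]; exact hF k (by omega) _)
  | succ n ih =>
    obtain ⟨k, rfl⟩ : ∃ j, k = j + 1 := ⟨k - 1, by omega⟩
    obtain ⟨y, φ, hφ⟩ := bprod_succ (F := F) x (k + 1)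
    refine hφ.1 ?_
    rw [map_zero]
    exact susp_vanish (isClosed_singleton.prod isClosed_univ) (ih y (by omega)) _

theorem prod_nonzero {d : ℕ} (h : ∃ α : HH (∅ : Set F) d, α ≠ 0) (x : E n) :
    ∃ β : HH (({x} : Set (E n)) ×ˢ (univ : Set F))ᶜ (n + d), β ≠ 0 := by
  induction n with
  | zero =>
    rw [Nat.zero_add]
    obtain ⟨φ, hφ⟩ := bprod_zero (F := F) x d
    obtain ⟨α, hα⟩ := h
    obtain ⟨β, rfl⟩ := hφ.2 α
    exact ⟨β, fun e => hα (by rw [e, map_zero])⟩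
  | succ n ih =>
    rw [Nat.add_right_comm]
    obtain ⟨y, φ, hφ⟩ := bprod_succ (F := F) x (n + d + 1)
    obtain ⟨α, hα⟩ := bprod_susp (isClosed_singleton.prod isClosed_univ) (ih y)
    obtain ⟨β, rfl⟩ := hφ.2 α
    exact ⟨β, fun e => hα (by rw [e, map_zero])⟩

end Pool.Agent.GeoN.Ser
end

-- part Pool.Agent.P.MP_365c00_gt.BSec
section

/-! TASK BSec: a non-zero locally consistent section. -/

open Set Topology Function Filter
open Pool.Agent.URC

namespace Pool.Agent.GeoN.Ser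

variable {X Y : Type} [TopologicalSpace X] [TopologicalSpace Y] {n N : ℕ}

/-- a class along a finite disjoint union of closed sets is determined by its pieces -/
theorem mv_fin_inj {ι : Type} (s : Finset ι) (Z : ι → Set Y) (hZ : ∀ i ∈ s, IsClosed (Z i))
    (hd : ∀ i ∈ s, ∀ i' ∈ s, Z i = Z i' ∨ Disjoint (Z i) (Z i')) {A : Set Y}
    (hA : A = ⋃ i ∈ s, Z i) (α : HH Aᶜ N)
    (h : ∀ i ∈ s, ∀ hi : Aᶜ ⊆ (Z i)ᶜ, HH.res hi α = 0) : α = 0 := by
  classical
  induction s using Finset.induction_on generalizing A with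
  | empty => exact HH.eq_zero_of_forall (by simp [hA]) α
  | @insert i s hi ih =>
    rw [Finset.set_biUnion_insert] at hA
    have hZ' : ∀ i ∈ s, IsClosed (Z i) := fun i' h' => hZ i' (Finset.mem_insert_of_mem h')
    have hd' : ∀ i ∈ s, ∀ i' ∈ s, Z i = Z i' ∨ Disjoint (Z i) (Z i') := fun a ha b hb =>
      hd a (Finset.mem_insert_of_mem ha) b (Finset.mem_insert_of_mem hb)
    by_cases hc : ∃ i' ∈ s, Z i = Z i'
    · obtain ⟨i', hi', e⟩ := hc
      refine ih hZ' hd' (hA.trans (union_eq_right.2 ?_)) α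
        fun a ha => h a (Finset.mem_insert_of_mem ha)
      rw [e]
      exact subset_biUnion_of_mem (u := Z) (Finset.mem_coe.2 hi')
    · have h1 : Aᶜ ⊆ (Z i)ᶜ := compl_subset_compl.2 (hA ▸ subset_union_left)
      have h2 : Aᶜ ⊆ (⋃ a ∈ s, Z a)ᶜ := compl_subset_compl.2 (hA ▸ subset_union_right)
      refine mv_inj (hZ i (Finset.mem_insert_self _ _)).isOpen_compl
        (isClosed_biUnion_finset hZ').isOpen_compl (by rw [hA, compl_union]) h1 h2
        (fun γ => HH.eq_zero_of_forall (fun y => ?_) γ) α (h i (Finset.mem_insert_self _ _) h1)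
        (ih hZ' hd' rfl _ fun a ha k => ?_)
      · by_contra hy
        simp only [mem_union, mem_compl_iff, not_or, not_not, mem_iUnion] at hy
        obtain ⟨y1, a, ha, y2⟩ := hy
        rcases hd i (Finset.mem_insert_self _ _) a (Finset.mem_insert_of_mem ha) with e | e
        · exact hc ⟨a, ha, e⟩
        · exact disjoint_left.1 e y1 y2
      · rw [HH.res_res]
        exact h a (Finset.mem_insert_of_mem ha) _

/-- and the pieces can be prescribed -/
theorem mv_fin_ex {ι : Type} (s : Finset ι) (Z : ι → Set Y) (hZ : ∀ i ∈ s, IsClosed (Z i))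
    (hd : ∀ i ∈ s, ∀ i' ∈ s, i ≠ i' → Disjoint (Z i) (Z i')) {A : Set Y}
    (hA : A = ⋃ i ∈ s, Z i) (α : ∀ i, HH (Z i)ᶜ N) :
    ∃ β : HH Aᶜ N, ∀ i ∈ s, ∀ hi : Aᶜ ⊆ (Z i)ᶜ, HH.res hi β = α i := by
  classical
  induction s using Finset.induction_on generalizing A with
  | empty => exact ⟨0, by simp⟩
  | @insert i s hi ih =>
    rw [Finset.set_biUnion_insert] at hA
    have hZ' : ∀ i ∈ s, IsClosed (Z i) := fun i' h' => hZ i' (Finset.mem_insert_of_mem h')
    obtain ⟨β, hβ⟩ := ih hZ' (fun a ha b hb =>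
      hd a (Finset.mem_insert_of_mem ha) b (Finset.mem_insert_of_mem hb)) rfl
    have hu : ∀ y, y ∈ (Z i)ᶜ ∪ (⋃ a ∈ s, Z a)ᶜ := by
      intro y
      by_contra hy
      simp only [mem_union, mem_compl_iff, not_or, not_not, mem_iUnion] at hy
      obtain ⟨y1, a, ha, y2⟩ := hy
      exact disjoint_left.1 (hd i (Finset.mem_insert_self _ _) a (Finset.mem_insert_of_mem ha)
        fun e => hi (e ▸ ha)) y1 y2
    obtain ⟨γ, h1, h2⟩ := mv_glue (hZ i (Finset.mem_insert_self _ _)).isOpen_compl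
      (isClosed_biUnion_finset hZ').isOpen_compl (α i) β
      ((HH.eq_zero_of_forall hu _).trans (HH.eq_zero_of_forall hu _).symm)
    refine ⟨HH.res (by rw [hA, compl_union]) γ, fun a ha k => ?_⟩
    rw [HH.res_res]
    rcases Finset.mem_insert.1 ha with rfl | ha
    · exact h1
    · have k' : (⋃ a ∈ s, Z a)ᶜ ⊆ (Z a)ᶜ :=
        compl_subset_compl.2 (subset_biUnion_of_mem (u := Z) (Finset.mem_coe.2 ha))
      rw [← hβ a ha k', ← h2, HH.res_res]

section Pieces

variable {D : Type} {A B : Set Y} {W : D → Set Y}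

theorem bsec_cover (hAB : A ⊆ B) (hB : FinComp B) (h1 : ∀ y ∈ B, ∃ c, y ∈ W c)
    (h2 : ∀ y y' c, JoinedIn B y y' → y' ∈ W c → y ∈ W c) :
    ∃ s : Finset D, A = ⋃ c ∈ s, A ∩ W c := by
  obtain ⟨S, hS, h⟩ := hB
  choose f hf using h1
  have : Finite (S ∩ B : Set Y) := (hS.subset inter_subset_left).to_subtype
  refine ⟨(finite_range fun y : (S ∩ B : Set Y) => f y y.2.2).toFinset, ?_⟩
  refine Subset.antisymm (fun y hy => ?_) (iUnion₂_subset fun _ _ => inter_subset_left)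
  obtain ⟨s, hs, hj⟩ := h y (hAB hy)
  refine mem_iUnion₂.2 ⟨f s hj.target_mem, ?_, hy, h2 _ _ _ hj (hf _ _)⟩
  rw [Finite.mem_toFinset]
  exact ⟨⟨s, hs, hj.target_mem⟩, rfl⟩

theorem bsec_inj (hAB : A ⊆ B) (hB : FinComp B) (h1 : ∀ y ∈ B, ∃ c, y ∈ W c)
    (h2 : ∀ y y' c, JoinedIn B y y' → y' ∈ W c → y ∈ W c) (h3 : ∀ c, IsClosed (A ∩ W c))
    (h4 : ∀ y c c', y ∈ W c → y ∈ W c' → c = c') (α : HH Aᶜ N)
    (h : ∀ c (k : Aᶜ ⊆ (A ∩ W c)ᶜ), HH.res k α = 0) : α = 0 := by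
  obtain ⟨s, hs⟩ := bsec_cover hAB hB h1 h2
  refine mv_fin_inj s (fun c => A ∩ W c) (fun c _ => h3 c) (fun c _ c' _ => ?_) hs α
    fun c _ k => h c k
  by_cases e : c = c'
  · exact Or.inl (e ▸ rfl)
  · exact Or.inr (disjoint_left.2 fun y hy hy' => e (h4 y c c' hy.2 hy'.2))

theorem bsec_ex (hAB : A ⊆ B) (hB : FinComp B) (h1 : ∀ y ∈ B, ∃ c, y ∈ W c)
    (h2 : ∀ y y' c, JoinedIn B y y' → y' ∈ W c → y ∈ W c) (h3 : ∀ c, IsClosed (A ∩ W c))
    (h4 : ∀ y c c', y ∈ W c → y ∈ W c' → c = c') (α : ∀ c, HH (A ∩ W c)ᶜ N) :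
    ∃ β : HH Aᶜ N, ∀ c (k : Aᶜ ⊆ (A ∩ W c)ᶜ), HH.res k β = α c := by
  obtain ⟨s, hs⟩ := bsec_cover hAB hB h1 h2
  obtain ⟨β, hβ⟩ := mv_fin_ex s (fun c => A ∩ W c) (fun c _ => h3 c)
    (fun c _ c' _ e => disjoint_left.2 fun y hy hy' => e (h4 y c c' hy.2 hy'.2)) hs α
  refine ⟨β, fun c k => ?_⟩
  by_cases hc : c ∈ s
  · exact hβ c hc k
  · have hu : ∀ y, y ∈ (A ∩ W c)ᶜ := by
      intro y hy
      obtain ⟨c', hc', hy'⟩ := mem_iUnion₂.1 (hs ▸ hy.1 : y ∈ ⋃ c ∈ s, A ∩ W c)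
      exact hc (h4 y c' c hy'.2 hy.2 ▸ hc')
    exact (HH.eq_zero_of_forall hu _).trans (HH.eq_zero_of_forall hu _).symm

end Pieces

section Sys

variable {G : X → Type} {ι : Type} {U : ι → Set X} {A : ι → Type}

/-- locally constant lifts into a local system -/
def bsecLift (e : C(Y, X)) (r : ∀ i x, x ∈ U i → A i → G x) (T : Y → (Σ x, G x)) : Prop :=
  ∀ y i, e y ∈ U i → ∃ α : A i,
    ∀ᶠ y' in 𝓝 y, ∀ k : e y' ∈ U i, T y' = ⟨e y', r i (e y') k α⟩

/-- the part of `Y` that is lifted to one sheet -/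
def bsecW (e : C(Y, X)) (r : ∀ i x, x ∈ U i → A i → G x) (T : Y → (Σ x, G x)) (i : ι) (α : A i) :
    Set Y := {y | ∃ k : e y ∈ U i, T y = ⟨e y, r i (e y) k α⟩}

variable {e : C(Y, X)} {r : ∀ i x, x ∈ U i → A i → G x} {T : Y → (Σ x, G x)}

theorem bsec_uniq (hr : ∀ i x h, Bijective (r i x h)) {i : ι} {α α' : A i} {y : Y}
    (h : y ∈ bsecW e r T i α) (h' : y ∈ bsecW e r T i α') : α = α' := by
  obtain ⟨k, h⟩ := h
  obtain ⟨k', h'⟩ := h'
  exact (hr i _ k).1 (eq_of_heq (Sigma.mk.inj (h.symm.trans h')).2)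

theorem bsec_exW (hT : bsecLift e r T) {i : ι} {y : Y} (k : e y ∈ U i) :
    ∃ α, y ∈ bsecW e r T i α := by
  obtain ⟨α, h⟩ := hT y i k
  exact ⟨α, k, h.self_of_nhds k⟩

theorem bsec_open (hU : ∀ i, IsOpen (U i)) (hr : ∀ i x h, Bijective (r i x h))
    (hT : bsecLift e r T) (i : ι) (α : A i) : IsOpen (bsecW e r T i α) := by
  rw [isOpen_iff_mem_nhds]
  intro y hy
  obtain ⟨k, hk⟩ := hy
  obtain ⟨α', h⟩ := hT y i k
  obtain rfl : α = α' := bsec_uniq hr (T := T) ⟨k, hk⟩ ⟨k, h.self_of_nhds k⟩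
  filter_upwards [h, ((hU i).preimage e.continuous).mem_nhds k] with y' h1 h2
  exact ⟨h2, h1 h2⟩

theorem bsec_closed (hU : ∀ i, IsOpen (U i)) (hr : ∀ i x h, Bijective (r i x h))
    (hT : bsecLift e r T) {i : ι} {K : Set X} (hK : IsClosed K) (hKU : K ⊆ U i) (α : A i) :
    IsClosed (e ⁻¹' K ∩ bsecW e r T i α) := by
  rw [← isOpen_compl_iff, isOpen_iff_mem_nhds]
  intro y hy
  by_cases h : e y ∈ K
  · obtain ⟨α', h'⟩ := bsec_exW hT (hKU h)
    filter_upwards [(bsec_open hU hr hT i α').mem_nhds h'] with y' h1 h2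
    exact hy ⟨h, bsec_uniq hr h1 h2.2 ▸ h'⟩
  · filter_upwards [(hK.preimage e.continuous).isOpen_compl.mem_nhds h] with y' h1 h2
    exact h1 h2.1

theorem bsec_join (hU : ∀ i, IsOpen (U i)) (hr : ∀ i x h, Bijective (r i x h))
    (hT : bsecLift e r T) {i : ι} {B : Set Y} (hB : B ⊆ e ⁻¹' U i) {y y' : Y} {α : A i}
    (hj : JoinedIn B y y') (h : y' ∈ bsecW e r T i α) : y ∈ bsecW e r T i α := by
  obtain ⟨γ, hγ⟩ := hj
  have hp : IsPreconnected (range γ) := isPreconnected_range γ.continuous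
  refine hp.subset_left_of_subset_union (v := ⋃ α' ∈ {α' | α' ≠ α}, bsecW e r T i α')
    (bsec_open hU hr hT i α) (isOpen_biUnion fun α' _ => bsec_open hU hr hT i α') ?_ ?_
    ⟨y', γ.target_mem_range, h⟩ γ.source_mem_range
  · refine disjoint_left.2 fun z h1 h2 => ?_
    obtain ⟨α', h3, h4⟩ := mem_iUnion₂.1 h2
    exact h3 (bsec_uniq hr h4 h1)
  · rintro _ ⟨t, rfl⟩
    obtain ⟨α', h'⟩ := bsec_exW hT (hB (hγ t))
    by_cases e' : α' = α
    · exact Or.inl (e' ▸ h')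
    · exact Or.inr (mem_iUnion₂.2 ⟨α', e', h'⟩)

theorem bsec_fst (hcov : ∀ x, ∃ i, x ∈ U i) (hT : bsecLift e r T) (y : Y) : (T y).1 = e y := by
  obtain ⟨i, k⟩ := hcov (e y)
  obtain ⟨α, k', h⟩ := bsec_exW hT k
  rw [h]

theorem bsec_sub (hcov : ∀ x, ∃ i, x ∈ U i) (hT : bsecLift e r T) {i : ι} {x : X} (k : x ∈ U i)
    (α : A i) : T ⁻¹' {⟨x, r i x k α⟩} = e ⁻¹' {x} ∩ bsecW e r T i α := by
  ext y
  constructor
  · intro h
    have h' : T y = ⟨x, r i x k α⟩ := h
    obtain rfl : e y = x := (bsec_fst hcov hT y).symm.trans (congrArg Sigma.fst h')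
    exact ⟨rfl, k, h'⟩
  · rintro ⟨h1, k', h2⟩
    obtain rfl : e y = x := h1
    exact h2

theorem bsec_fib_closed [T1Space X] (hU : ∀ i, IsOpen (U i)) (hcov : ∀ x, ∃ i, x ∈ U i)
    (hr : ∀ i x h, Bijective (r i x h)) (hT : bsecLift e r T) (c : Σ x, G x) :
    IsClosed (T ⁻¹' {c}) := by
  obtain ⟨x, g⟩ := c
  obtain ⟨i, k⟩ := hcov x
  obtain ⟨α, rfl⟩ := (hr i x k).2 g
  rw [bsec_sub hcov hT]
  exact bsec_closed hU hr hT isClosed_singleton (singleton_subset_iff.2 k) α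

theorem bsec_fib_join (hU : ∀ i, IsOpen (U i)) (hcov : ∀ x, ∃ i, x ∈ U i)
    (hr : ∀ i x h, Bijective (r i x h)) (hT : bsecLift e r T) {x : X} {y y' : Y}
    (hj : JoinedIn (e ⁻¹' {x}) y y') : T y = T y' := by
  obtain ⟨i, k⟩ := hcov x
  have hB : e ⁻¹' {x} ⊆ e ⁻¹' U i := preimage_mono (singleton_subset_iff.2 k)
  obtain ⟨α, h'⟩ := bsec_exW hT (hB hj.target_mem)
  have h := bsec_join hU hr hT hB hj h'
  have h1 : y ∈ T ⁻¹' {⟨x, r i x k α⟩} := by rw [bsec_sub hcov hT]; exact ⟨hj.source_mem, h⟩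
  have h2 : y' ∈ T ⁻¹' {⟨x, r i x k α⟩} := by rw [bsec_sub hcov hT]; exact ⟨hj.target_mem, h'⟩
  exact (mem_singleton_iff.1 h1).trans (mem_singleton_iff.1 h2).symm

end Sys

/-- centred charts -/
abbrev bsecI (e : C(Y, X)) (N n : ℕ) : Type := {p : C(E n, X) × E n // Loc e N p.1}

/-- the open sets of the local system -/
def bsecU (e : C(Y, X)) (N n : ℕ) (i : bsecI e N n) : Set X := i.1.1 '' Metric.ball i.1.2 2

/-- the restriction maps of the local system -/
noncomputable def bsecR (e : C(Y, X)) (N n : ℕ) (i : bsecI e N n) (x : X) (h : x ∈ bsecU e N n i)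
    (α : HH (e ⁻¹' (i.1.1 '' Metric.closedBall i.1.2 2))ᶜ N) : HH (e ⁻¹' {x})ᶜ N :=
  HH.res (sub_pt e (image_mono Metric.ball_subset_closedBall h)) α

theorem bsec_hU {e : C(Y, X)} (i : bsecI e N n) : IsOpen (bsecU e N n i) :=
  i.2.emb.isOpenMap _ Metric.isOpen_ball

theorem bsec_hr {e : C(Y, X)} (i : bsecI e N n) (x : X) (h : x ∈ bsecU e N n i) :
    Bijective (bsecR e N n i x h) := by
  obtain ⟨w, hw, rfl⟩ := h
  exact i.2.bij _ (isCompact_closedBall _ _) (convex_closedBall _ _) w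
    (Metric.ball_subset_closedBall hw) N

theorem bsec_comp {e : C(Y, X)} (i i' : bsecI e N n) (x : X) (h : x ∈ bsecU e N n i)
    (h' : x ∈ bsecU e N n i') (α) (α') (H : bsecR e N n i x h α = bsecR e N n i' x h' α') :
    ∀ᶠ y in 𝓝 x, ∀ (k : y ∈ bsecU e N n i) (k' : y ∈ bsecU e N n i'),
      bsecR e N n i y k α = bsecR e N n i' y k' α' := by
  obtain ⟨w, hw, rfl⟩ := h
  obtain ⟨δ, hδ, hb⟩ := Metric.nhds_basis_closedBall.mem_iff.1 (inter_mem
    (Metric.isOpen_ball.mem_nhds hw) (((bsec_hU i').preimage i.1.1.continuous).mem_nhds h'))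
  have s1 : i.1.1 '' Metric.closedBall w δ ⊆ i.1.1 '' Metric.closedBall i.1.2 2 :=
    image_mono fun z hz => Metric.ball_subset_closedBall (hb hz).1
  have s2 : i.1.1 '' Metric.closedBall w δ ⊆ i'.1.1 '' Metric.closedBall i'.1.2 2 := by
    rintro _ ⟨z, hz, rfl⟩
    exact image_mono Metric.ball_subset_closedBall (hb hz).2
  have key : HH.res (sub_pre e s1) α = HH.res (sub_pre e s2) α' := by
    refine (i.2.bij _ (isCompact_closedBall w δ) (convex_closedBall _ _) w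
      (Metric.mem_closedBall_self hδ.le) N).1 ?_
    rw [HH.res_res, HH.res_res]
    exact H
  filter_upwards [i.2.emb.isOpenMap.image_mem_nhds (Metric.closedBall_mem_nhds w hδ)]
    with y hy k k'
  have := congrArg (HH.res (sub_pt e hy)) key
  rw [HH.res_res, HH.res_res] at this
  exact this

theorem exists_section [T2Space X] (e : C(Y, X))
    (hX : ∀ x : X, ∃ j : C(E n, X), Loc e N j ∧ x ∈ range j ∧
      ∀ K : Set (E n), Convex ℝ K → FinComp (e ⁻¹' (j '' K)))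
    (y0 : Y) (H : C(Y × unitInterval, Y)) (H0 : ∀ y, H (y, 0) = y0) (H1 : ∀ y, H (y, 1) = y)
    (hne : ∃ (x : X) (a : HH (e ⁻¹' {x})ᶜ N), a ≠ 0) :
    ∃ om : ∀ x : X, HH (e ⁻¹' {x})ᶜ N, Cons e N om ∧ ∃ x, om x ≠ 0 := by
  have hcov : ∀ x, ∃ i, x ∈ bsecU e N n i := by
    intro x
    obtain ⟨j, hj, ⟨z, rfl⟩, -⟩ := hX x
    exact ⟨⟨(j, z), hj⟩, z, Metric.mem_ball_self two_pos, rfl⟩
  have hfib : ∀ x, FinComp (e ⁻¹' {x}) := by
    intro x
    obtain ⟨j, -, ⟨z, rfl⟩, h⟩ := hX x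
    simpa only [image_singleton] using h {z} (convex_singleton z)
  obtain ⟨x0, a0, ha0⟩ := hne
  obtain ⟨T, hT, hTa⟩ : ∃ T : Y → (Σ x, HH (e ⁻¹' {x})ᶜ N), bsecLift e (bsecR e N n) T ∧
      ∀ k : (e ⁻¹' {x0})ᶜ ⊆ (T ⁻¹' {⟨x0, a0⟩})ᶜ, HH.res k a0 ≠ 0 := by
    by_contra hcon
    refine ha0 (bsec_inj (W := fun c : {T // bsecLift e (bsecR e N n) T} →
      (Σ x, HH (e ⁻¹' {x})ᶜ N) => {y | ∀ T : {T // bsecLift e (bsecR e N n) T}, T.1 y = c T})
      Subset.rfl (hfib x0) (fun y _ => ⟨fun T => T.1 y, fun _ => rfl⟩)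
      (fun y y' c hj h T => (bsec_fib_join bsec_hU hcov bsec_hr T.2 hj).trans (h T)) (fun c => ?_)
      (fun y c c' h h' => funext fun T => (h T).symm.trans (h' T)) a0 fun c k => ?_)
    · refine (isClosed_singleton.preimage e.continuous).inter ?_
      rw [Set.ofPred_forall]
      exact isClosed_iInter fun T => bsec_fib_closed bsec_hU hcov bsec_hr T.2 (c T)
    · by_contra hk
      obtain ⟨y1, h1, h2⟩ : ∃ y1, y1 ∈ e ⁻¹' {x0} ∩
          {y | ∀ T : {T // bsecLift e (bsecR e N n) T}, T.1 y = c T} := by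
        by_contra hy
        exact hk (HH.eq_zero_of_forall (fun y h => hy ⟨y, h⟩) _)
      obtain rfl : e y1 = x0 := h1
      obtain ⟨T, t1, t2⟩ := exists_lift (bsecU e N n) bsec_hU hcov (bsecR e N n) bsec_hr
        bsec_comp e y0 H H0 H1 y1 a0
      refine hcon ⟨T, t2, fun k' h0 => hk ?_⟩
      have k2 : (T ⁻¹' {⟨e y1, a0⟩})ᶜ ⊆ (e ⁻¹' {e y1} ∩
          {y | ∀ T : {T // bsecLift e (bsecR e N n) T}, T.1 y = c T})ᶜ :=
        compl_subset_compl.2 fun y hy => ((hy.2 ⟨T, t2⟩).trans (h2 ⟨T, t2⟩).symm).trans t1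
      have := congrArg (HH.res k2) h0
      rwa [HH.res_res, map_zero] at this
  have hsub : ∀ x g, (e ⁻¹' {x})ᶜ ⊆ (T ⁻¹' {⟨x, g⟩})ᶜ := fun x g =>
    compl_subset_compl.2 fun y hy => (bsec_fst hcov hT y).symm.trans (congrArg Sigma.fst hy)
  have huniq : ∀ x (b b' : HH (e ⁻¹' {x})ᶜ N), (∀ g, HH.res (hsub x g) b = HH.res (hsub x g) g) →
      (∀ g, HH.res (hsub x g) b' = HH.res (hsub x g) g) → b = b' := by
    intro x b b' hb hb'
    rw [← sub_eq_zero]
    refine bsec_inj (W := fun g : HH (e ⁻¹' {x})ᶜ N => T ⁻¹' {⟨x, g⟩}) Subset.rfl (hfib x)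
      (fun y hy => ?_) (fun y y' g hj h => (bsec_fib_join bsec_hU hcov bsec_hr hT hj).trans h)
      (fun g => (isClosed_singleton.preimage e.continuous).inter
        (bsec_fib_closed bsec_hU hcov bsec_hr hT _))
      (fun y g g' h h' => eq_of_heq (Sigma.mk.inj (β := fun x => HH (e ⁻¹' {x})ᶜ N)
        ((mem_singleton_iff.1 h).symm.trans h')).2) _
      fun g k => ?_
    · obtain rfl : e y = x := hy
      obtain ⟨i, k⟩ := hcov (e y)
      obtain ⟨α, k', h⟩ := bsec_exW hT k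
      exact ⟨_, h⟩
    · have := congrArg (HH.res (compl_subset_compl.2 (inter_subset_right (s := e ⁻¹' {x}))))
        ((hb g).trans (hb' g).symm)
      rw [HH.res_res, HH.res_res] at this
      rw [map_sub, sub_eq_zero]
      exact this
  have hloc : ∀ x, ∃ K ∈ 𝓝 x, ∃ β : HH (e ⁻¹' K)ᶜ N, ∀ x' (hx : x' ∈ K) g,
      HH.res (hsub x' g) (HH.res (sub_pt e hx) β) = HH.res (hsub x' g) g := by
    intro x
    obtain ⟨j, hj, ⟨z, rfl⟩, hf⟩ := hX x
    have hKU : j '' Metric.closedBall z 1 ⊆ bsecU e N n ⟨(j, z), hj⟩ :=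
      image_mono (Metric.closedBall_subset_ball one_lt_two)
    have hK : IsClosed (j '' Metric.closedBall z 1) :=
      ((isCompact_closedBall z 1).image j.continuous).isClosed
    have hs : ∀ α, (e ⁻¹' (j '' Metric.closedBall z 2))ᶜ ⊆
        (e ⁻¹' (j '' Metric.closedBall z 1) ∩ bsecW e (bsecR e N n) T ⟨(j, z), hj⟩ α)ᶜ := fun α =>
      compl_subset_compl.2 fun y hy =>
        image_mono (Metric.closedBall_subset_closedBall one_le_two) hy.1
    obtain ⟨β, hβ⟩ := bsec_ex (N := N) (W := bsecW e (bsecR e N n) T ⟨(j, z), hj⟩)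
      (preimage_mono hKU) (hf _ (convex_ball z 2)) (fun y hy => bsec_exW hT hy)
      (fun y y' α hj h => bsec_join bsec_hU bsec_hr hT Subset.rfl hj h)
      (fun α => bsec_closed bsec_hU bsec_hr hT hK hKU α)
      (fun y α α' h h' => bsec_uniq bsec_hr h h') fun α => HH.res (hs α) α
    refine ⟨_, hj.emb.isOpenMap.image_mem_nhds (Metric.closedBall_mem_nhds z one_pos), β,
      fun x' hx g => ?_⟩
    obtain ⟨α, rfl⟩ := (bsec_hr ⟨(j, z), hj⟩ x' (hKU hx)).2 g
    have k : (e ⁻¹' (j '' Metric.closedBall z 1) ∩ bsecW e (bsecR e N n) T ⟨(j, z), hj⟩ α)ᶜ ⊆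
        (T ⁻¹' {⟨x', bsecR e N n ⟨(j, z), hj⟩ x' (hKU hx) α⟩})ᶜ := by
      rw [bsec_sub hcov hT]
      exact compl_subset_compl.2
        (inter_subset_inter_left _ (preimage_mono (singleton_subset_iff.2 hx)))
    have := congrArg (HH.res k) (hβ α (compl_subset_compl.2 inter_subset_left))
    rw [HH.res_res, HH.res_res] at this
    rw [HH.res_res]
    refine this.trans ?_
    exact (HH.res_res _ _ α).symm
  have hex : ∀ x, ∃ b : HH (e ⁻¹' {x})ᶜ N, ∀ g, HH.res (hsub x g) b = HH.res (hsub x g) g := by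
    intro x
    obtain ⟨K, hK, β, h⟩ := hloc x
    exact ⟨_, h x (mem_of_mem_nhds hK)⟩
  choose om hom using hex
  refine ⟨om, fun x => ?_, x0, fun h0 => hTa (hsub x0 a0) ?_⟩
  · obtain ⟨K, hK, β, h⟩ := hloc x
    exact ⟨K, hK, β, fun y hy => huniq y _ _ (h y hy) (hom y)⟩
  · rw [← hom x0 a0, h0, map_zero]

end Pool.Agent.GeoN.Ser
end

-- part Pool.Agent.P.MP_365c00_gt.NChart
section

/-!
The metric and the geodesic equation in charts.
-/

set_option maxSynthPendingDepth 3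

set_option linter.unusedSectionVars false
set_option linter.unusedVariables false

open Set Filter Topology Bundle
open scoped Manifold ContDiff

namespace Pool.Agent.GeoN

variable {E : Type} [NormedAddCommGroup E] [NormedSpace ℝ E] [FiniteDimensional ℝ E]
  {M : Type} [TopologicalSpace M] [ChartedSpace E M] [IsManifold 𝓘(ℝ, E) ∞ M]

/-- the chart at `x` -/
noncomputable abbrev κ (E : Type) [NormedAddCommGroup E] [NormedSpace ℝ E] {M : Type}
    [TopologicalSpace M] [ChartedSpace E M] (x : M) : PartialEquiv M E := extChartAt 𝓘(ℝ, E) x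

/-- the metric in the chart at `x` as a field of bilinear forms -/
noncomputable def G (g : Met E M) (x : M) (a : E) : E →L[ℝ] E →L[ℝ] ℝ :=
  let B : E →L[ℝ] E →L[ℝ] ℝ := g.inner ((κ E x).symm a)
  let D : E →L[ℝ] E := mfderiv 𝓘(ℝ, E) 𝓘(ℝ, E) (κ E x).symm a
  B.bilinearComp D D

theorem G_apply (g : Met E M) (x : M) (a u w : E) : G g x a u w = coef g x a u w := rfl

section
omit [IsManifold 𝓘(ℝ, E) ∞ M]

theorem target_open (x : M) : IsOpen (κ E x).target := isOpen_extChartAt_target x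

theorem source_open (x : M) : IsOpen (κ E x).source := isOpen_extChartAt_source x

end

namespace ChartX

theorem two_le : (2 : WithTop ℕ∞) ≤ ∞ := WithTop.coe_le_coe.2 (le_top : ((2 : ℕ) : ℕ∞) ≤ ⊤)

theorem one_add_one_le : (1 : WithTop ℕ∞) + 1 ≤ ∞ := one_add_one_eq_two (R := WithTop ℕ∞) ▸ two_le

/-- derivative of a field of bilinear forms along a curve -/
theorem hasDerivAt_bil {B : E → E →L[ℝ] E →L[ℝ] ℝ} {c U W : ℝ → E} {v U' W' : E} {t : ℝ}
    (hB : DifferentiableAt ℝ B (c t)) (hc : HasDerivAt c v t) (hU : HasDerivAt U U' t)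
    (hW : HasDerivAt W W' t) : HasDerivAt (fun s => B (c s) (U s) (W s))
      (fderiv ℝ B (c t) v (U t) (W t) + B (c t) U' (W t) + B (c t) (U t) W') t := by
  have h1 : HasDerivAt (fun s => B (c s)) (fderiv ℝ B (c t) v) t :=
    hB.hasFDerivAt.comp_hasDerivAt t hc
  simpa using (h1.clm_apply hU).clm_apply hW

theorem fderiv_bil {B : E → E →L[ℝ] E →L[ℝ] ℝ} {a : E} (hB : DifferentiableAt ℝ B a)
    (u w h : E) : fderiv ℝ (fun b => B b u w) a h = fderiv ℝ B a h u w := by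
  have h1 := ((hB.hasFDerivAt.clm_apply (hasFDerivAt_const u a)).clm_apply
    (hasFDerivAt_const w a)).fderiv
  rw [h1]
  simp

/-- derivative of the transformation rule -/
theorem fderiv_pull {B B' : E → E →L[ℝ] E →L[ℝ] ℝ} {φ : E → E} {a : E}
    (hB : DifferentiableAt ℝ B a) (hB' : DifferentiableAt ℝ B' (φ a)) (hφ : ContDiffAt ℝ 2 φ a)
    (he : ∀ᶠ b in 𝓝 a, ∀ u w, B b u w = B' (φ b) (fderiv ℝ φ b u) (fderiv ℝ φ b w)) (h u w : E) :
    fderiv ℝ B a h u w = fderiv ℝ B' (φ a) (fderiv ℝ φ a h) (fderiv ℝ φ a u) (fderiv ℝ φ a w)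
      + B' (φ a) (fderiv ℝ (fderiv ℝ φ) a h u) (fderiv ℝ φ a w)
      + B' (φ a) (fderiv ℝ φ a u) (fderiv ℝ (fderiv ℝ φ) a h w) := by
  have hl : HasDerivAt (fun s : ℝ => a + s • h) h 0 := by
    simpa using ((hasDerivAt_id (0 : ℝ)).smul_const h).const_add a
  have e0 : a + (0 : ℝ) • h = a := by simp
  have hD : DifferentiableAt ℝ (fderiv ℝ φ) (a + (0 : ℝ) • h) := by
    rw [e0]
    exact (hφ.fderiv_right (m := 1) (by norm_num)).differentiableAt (by norm_num)
  have hφ' : DifferentiableAt ℝ φ (a + (0 : ℝ) • h) := by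
    rw [e0]
    exact hφ.differentiableAt (by norm_num)
  have hD' := hD.hasFDerivAt.comp_hasDerivAt (0 : ℝ) hl
  have h1 := hasDerivAt_bil (B := B) (c := fun s : ℝ => a + s • h) (by rwa [e0]) hl
    (hasDerivAt_const (0 : ℝ) u) (hasDerivAt_const (0 : ℝ) w)
  have h2 := hasDerivAt_bil (B := B') (c := fun s : ℝ => φ (a + s • h)) (by rwa [e0])
    (hφ'.hasFDerivAt.comp_hasDerivAt (0 : ℝ) hl)
    (hD'.clm_apply (hasDerivAt_const (0 : ℝ) u)) (hD'.clm_apply (hasDerivAt_const (0 : ℝ) w))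
  have ht : Tendsto (fun s : ℝ => a + s • h) (𝓝 0) (𝓝 a) := by
    simpa using hl.continuousAt.tendsto
  have h3 := h1.unique (h2.congr_of_eventuallyEq ((ht.eventually he).mono fun s hs => hs u w))
  simpa using h3

theorem hasDerivAt_deriv {c : ℝ → E} {t : ℝ} (h : ContDiffAt ℝ ∞ c t) :
    HasDerivAt (deriv c) (deriv (deriv c) t) t := by
  have h1 : ContDiffAt ℝ 1 (fderiv ℝ c) t := h.fderiv_right one_add_one_le
  exact ((h1.differentiableAt (by norm_num)).clm_apply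
    (differentiableAt_const (1 : ℝ))).hasDerivAt

theorem inner_congr (g : Met E M) {p q : M} (h : p = q) (u w : E) :
    (g.inner p : E →L[ℝ] E →L[ℝ] ℝ) u w = (g.inner q : E →L[ℝ] E →L[ℝ] ℝ) u w := by
  subst h
  rfl

theorem symm_smooth {x : M} {a : E} (ha : a ∈ (κ E x).target) :
    ContMDiffAt 𝓘(ℝ, E) 𝓘(ℝ, E) ∞ (κ E x).symm a :=
  (contMDiffOn_extChartAt_symm x).contMDiffAt ((target_open x).mem_nhds ha)

theorem field_smooth {x : M} {a : E} (ha : a ∈ (κ E x).target) (u : E) :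
    ContMDiffAt 𝓘(ℝ, E) (𝓘(ℝ, E).prod 𝓘(ℝ, E)) ∞ (fun b => (TotalSpace.mk' E ((κ E x).symm b)
      (mfderiv 𝓘(ℝ, E) 𝓘(ℝ, E) (κ E x).symm b u) : TangentBundle 𝓘(ℝ, E) M)) a := by
  have h1 := (symm_smooth ha).mfderiv_const (m := ∞) (by exact_mod_cast le_top)
  have h2 : ContMDiffAt 𝓘(ℝ, E) (𝓘(ℝ, E).prod 𝓘(ℝ, E)) ∞
      (fun b : E => (TotalSpace.mk' E b u : TangentBundle 𝓘(ℝ, E) E)) a :=
    contMDiffAt_vectorSpace_iff_contDiffAt.2 contDiffAt_const
  exact ContMDiffAt.clm_apply_of_inCoordinates (b₁ := id) (b₂ := (κ E x).symm)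
    (ϕ := fun b => mfderiv 𝓘(ℝ, E) 𝓘(ℝ, E) (κ E x).symm b) (v := fun _ => u) h1 h2 (symm_smooth ha)

end ChartX

open ChartX

variable {P : Type*} [NormedAddCommGroup P] [NormedSpace ℝ P]

theorem contDiffAt_chart {n : ℕ∞} {Γ : P → M} {z : P} {x : M}
    (h : ContMDiffAt 𝓘(ℝ, P) 𝓘(ℝ, E) n Γ z) (hx : Γ z ∈ (κ E x).source) :
    ContDiffAt ℝ n (κ E x ∘ Γ) z := by
  have h1 : ContMDiffAt 𝓘(ℝ, E) 𝓘(ℝ, E) ∞ (κ E x) (Γ z) :=
    contMDiffAt_extChartAt' (by rwa [extChartAt_source] at hx)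
  exact ((h1.of_le (by exact_mod_cast le_top)).comp z h).contDiffAt

theorem contMDiffAt_symm {n : ℕ∞} {c : P → E} {z : P} {x : M} (h : ContDiffAt ℝ n c z)
    (hx : c z ∈ (κ E x).target) : ContMDiffAt 𝓘(ℝ, P) 𝓘(ℝ, E) n ((κ E x).symm ∘ c) z := by
  exact ((symm_smooth hx).of_le (by exact_mod_cast le_top)).comp z h.contMDiffAt

/-- change of chart -/
theorem contDiffAt_trans {x x' : M} {a : E} (ha : a ∈ (κ E x).target)
    (ha' : (κ E x).symm a ∈ (κ E x').source) : ContDiffAt ℝ ∞ (κ E x' ∘ (κ E x).symm) a := by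
  exact contDiffAt_chart (n := ⊤) (symm_smooth ha) ha'

theorem G_smooth (g : Met E M) (x : M) : ContDiffOn ℝ ∞ (G g x) (κ E x).target := by
  refine contDiffOn_clm_apply.2 fun u => contDiffOn_clm_apply.2 fun w a ha => ?_
  have h : ContMDiffAt 𝓘(ℝ, E) (𝓘(ℝ, E).prod 𝓘(ℝ)) ∞
      (fun b => TotalSpace.mk' ℝ (E := Bundle.Trivial M ℝ) ((κ E x).symm b)
        (g.inner ((κ E x).symm b) (mfderiv 𝓘(ℝ, E) 𝓘(ℝ, E) (κ E x).symm b u)
          (mfderiv 𝓘(ℝ, E) 𝓘(ℝ, E) (κ E x).symm b w))) a := by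
    apply ContMDiffAt.clm_bundle_apply₂ (F₁ := E) (F₂ := E)
    · exact g.contMDiff.contMDiffAt.comp a (symm_smooth ha)
    · exact field_smooth ha u
    · exact field_smooth ha w
  simp only [contMDiffAt_totalSpace] at h
  exact h.2.contDiffAt.contDiffWithinAt

theorem G_symm (g : Met E M) (x : M) (a u w : E) : G g x a u w = G g x a w u := by
  exact g.symm _ _ _

theorem G_pos (g : Met E M) (x : M) {a : E} (ha : a ∈ (κ E x).target) {u : E} (hu : u ≠ 0) :
    0 < G g x a u u := by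
  refine g.pos _ _ fun h0 => hu ?_
  have hs : MDifferentiableAt 𝓘(ℝ, E) 𝓘(ℝ, E) (κ E x).symm a :=
    (symm_smooth ha).mdifferentiableAt (by simp)
  have hk : MDifferentiableAt 𝓘(ℝ, E) 𝓘(ℝ, E) (κ E x) ((κ E x).symm a) :=
    mdifferentiableAt_extChartAt (by simpa using (κ E x).map_target ha)
  have h2 := mfderiv_comp a hk hs
  have h3 : κ E x ∘ (κ E x).symm =ᶠ[𝓝 a] id := by
    filter_upwards [(target_open x).mem_nhds ha] with b hb using (κ E x).right_inv hb
  rw [h3.mfderiv_eq, mfderiv_id] at h2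
  have h4 : u = mfderiv 𝓘(ℝ, E) 𝓘(ℝ, E) (κ E x) ((κ E x).symm a)
      (mfderiv 𝓘(ℝ, E) 𝓘(ℝ, E) (κ E x).symm a u) := congrArg (fun L => L u) h2
  have h5 : mfderiv 𝓘(ℝ, E) 𝓘(ℝ, E) (κ E x).symm a u = 0 := h0
  rw [h5, map_zero] at h4
  exact h4

/-- uniform positivity on compact sets -/
theorem G_coercive (g : Met E M) (x : M) {K : Set E} (hK : IsCompact K) (hKt : K ⊆ (κ E x).target) :
    ∃ l > 0, ∀ a ∈ K, ∀ u : E, l * ‖u‖ ^ 2 ≤ G g x a u u := by
  have hc : ContinuousOn (fun z : E × E => G g x z.1 z.2 z.2) (K ×ˢ Metric.sphere 0 1) := by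
    have h1 : ContinuousOn (fun z : E × E => G g x z.1) (K ×ˢ Metric.sphere 0 1) :=
      (G_smooth g x).continuousOn.comp continuousOn_fst fun z hz => hKt hz.1
    exact (h1.clm_apply continuousOn_snd).clm_apply continuousOn_snd
  obtain ⟨l, hl, h⟩ := (hK.prod (isCompact_sphere (0 : E) 1)).exists_forall_le' hc (a := 0)
    fun z hz => G_pos g x (hKt hz.1) (by
      rintro h0
      have := hz.2
      rw [h0] at this
      simp at this)
  refine ⟨l, hl, fun a ha u => ?_⟩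
  by_cases hu : u = 0
  · simp [hu]
  have h0 : 0 < ‖u‖ := norm_pos_iff.2 hu
  have h1 := h (a, ‖u‖⁻¹ • u) ⟨ha, by simp [norm_smul, h0.ne']⟩
  simp only [map_smul, smul_apply, smul_eq_mul] at h1
  have h2 : G g x a u u = ‖u‖ ^ 2 * (‖u‖⁻¹ * (‖u‖⁻¹ * G g x a u u)) := by field_simp
  rw [h2, mul_comm l]
  exact mul_le_mul_of_nonneg_left h1 (by positivity)

/-- the metric of two tangent vectors of a map, in a chart -/
theorem inner_eq (g : Met E M) {Γ : P → M} {z : P} {x : M}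
    (h : MDifferentiableAt 𝓘(ℝ, P) 𝓘(ℝ, E) Γ z) (hx : Γ z ∈ (κ E x).source) (ξ ξ' : P) :
    g.inner (Γ z) (mfderiv 𝓘(ℝ, P) 𝓘(ℝ, E) Γ z ξ) (mfderiv 𝓘(ℝ, P) 𝓘(ℝ, E) Γ z ξ') =
      G g x (κ E x (Γ z)) (fderiv ℝ (κ E x ∘ Γ) z ξ) (fderiv ℝ (κ E x ∘ Γ) z ξ') := by
  have hk : MDifferentiableAt 𝓘(ℝ, E) 𝓘(ℝ, E) (κ E x) (Γ z) :=
    mdifferentiableAt_extChartAt (by rwa [extChartAt_source] at hx)
  have hs : MDifferentiableAt 𝓘(ℝ, E) 𝓘(ℝ, E) (κ E x).symm ((κ E x ∘ Γ) z) :=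
    (symm_smooth ((κ E x).map_source hx)).mdifferentiableAt (by simp)
  have h2 := mfderiv_comp z hs (hk.comp z h)
  have h3 : (κ E x).symm ∘ (κ E x ∘ Γ) =ᶠ[𝓝 z] Γ := by
    filter_upwards [h.continuousAt.preimage_mem_nhds ((source_open x).mem_nhds hx)] with b hb
      using (κ E x).left_inv hb
  rw [h3.mfderiv_eq, mfderiv_eq_fderiv] at h2
  rw [h2]
  exact inner_congr g ((κ E x).left_inv hx).symm _ _

theorem G_trans (g : Met E M) {x x' : M} {a : E} (ha : a ∈ (κ E x).target)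
    (ha' : (κ E x).symm a ∈ (κ E x').source) (u w : E) :
    G g x a u w = G g x' (κ E x' ((κ E x).symm a)) (fderiv ℝ (κ E x' ∘ (κ E x).symm) a u)
      (fderiv ℝ (κ E x' ∘ (κ E x).symm) a w) := by
  exact inner_eq g ((symm_smooth ha).mdifferentiableAt (by simp)) ha' u w

theorem ChartX.G_diff (g : Met E M) (x : M) {a : E} (ha : a ∈ (κ E x).target) :
    ContDiffAt ℝ ∞ (G g x) a := (G_smooth g x).contDiffAt ((target_open x).mem_nhds ha)

theorem ChartX.G_inj (g : Met E M) (x : M) {a : E} (ha : a ∈ (κ E x).target) {u u' : E}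
    (h : ∀ w, G g x a u w = G g x a u' w) : u = u' := by
  by_contra hne
  have h1 := G_pos g x ha (sub_ne_zero.2 hne)
  rw [map_sub (G g x a), sub_apply, h, sub_self] at h1
  exact lt_irrefl _ h1

theorem ChartX.G_equiv (g : Met E M) (x : M) {a : E} (ha : a ∈ (κ E x).target) :
    ∃ e : E ≃L[ℝ] (E →L[ℝ] ℝ), (e : E →L[ℝ] E →L[ℝ] ℝ) = G g x a := by
  have hi : Function.Injective (G g x a : E →ₗ[ℝ] E →L[ℝ] ℝ) := fun u u' h =>
    G_inj g x ha fun w => congrArg (fun L : E →L[ℝ] ℝ => L w) h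
  have hd : Module.finrank ℝ E = Module.finrank ℝ (E →L[ℝ] ℝ) := by
    rw [← (LinearMap.toContinuousLinearMap (𝕜 := ℝ) (E := E) (F' := ℝ)).finrank_eq]
    exact Subspace.dual_finrank_eq.symm
  refine ⟨(LinearMap.linearEquivOfInjective _ hi hd).toContinuousLinearEquiv, ?_⟩
  ext1 u
  rfl

theorem exists_acc (g : Met E M) (x : M) : ∃ acc : E × E → E,
    ContDiffOn ℝ ∞ acc ((κ E x).target ×ˢ univ) ∧ ∀ a ∈ (κ E x).target, ∀ V w : E,
      G g x a (acc (a, V)) w = 1 / 2 * fderiv ℝ (G g x) a w V V - fderiv ℝ (G g x) a V V w := by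
  refine ⟨fun z => (G g x z.1).inverse ((1 / 2 : ℝ) • ((fderiv ℝ (G g x) z.1).flip z.2).flip z.2
    - fderiv ℝ (G g x) z.1 z.2 z.2), ?_, fun a ha V w => ?_⟩
  · have hD : ContDiffOn ℝ ∞ (fun z : E × E => fderiv ℝ (G g x) z.1) ((κ E x).target ×ˢ univ) :=
      fun z hz => (((G_diff g x hz.1).fderiv_right (m := ∞) (by exact_mod_cast le_top)).comp z
        contDiffAt_fst).contDiffWithinAt
    refine ContDiffOn.clm_apply (fun z hz => ?_) (contDiffOn_clm_apply.2 fun w => ?_)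
    · obtain ⟨e, he⟩ := G_equiv g x hz.1
      have h1 : ContDiffAt ℝ ∞ ContinuousLinearMap.inverse (G g x z.1) :=
        he ▸ contDiffAt_map_inverse e
      exact ((h1.comp z.1 (G_diff g x hz.1)).comp z contDiffAt_fst).contDiffWithinAt
    · simp only [sub_apply, smul_apply,
        ContinuousLinearMap.flip_apply]
      exact (((hD.clm_apply contDiffOn_const).clm_apply contDiffOn_snd).clm_apply
        contDiffOn_snd).const_smul _ |>.sub
        (((hD.clm_apply contDiffOn_snd).clm_apply contDiffOn_snd).clm_apply contDiffOn_const)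
  · obtain ⟨e, he⟩ := G_equiv g x ha
    simp only
    conv_lhs => rw [← he]
    simp

/-- the acceleration of geodesics in the chart at `x` -/
noncomputable def acc (g : Met E M) (x : M) : E × E → E := (exists_acc g x).choose

theorem acc_smooth (g : Met E M) (x : M) : ContDiffOn ℝ ∞ (acc g x) ((κ E x).target ×ˢ univ) :=
  (exists_acc g x).choose_spec.1

theorem acc_spec (g : Met E M) (x : M) {a : E} (ha : a ∈ (κ E x).target) (V w : E) :
    G g x a (acc g x (a, V)) w = 1 / 2 * fderiv ℝ (G g x) a w V V - fderiv ℝ (G g x) a V V w :=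
  (exists_acc g x).choose_spec.2 a ha V w

theorem acc_smul (g : Met E M) (x : M) {a : E} (ha : a ∈ (κ E x).target) (l : ℝ) (V : E) :
    acc g x (a, l • V) = l ^ 2 • acc g x (a, V) := by
  refine G_inj g x ha fun w => ?_
  simp only [map_smul, smul_apply, acc_spec g x ha, smul_eq_mul]
  ring

/-- velocity in the chart at `x` -/
noncomputable def vel (E : Type) [NormedAddCommGroup E] [NormedSpace ℝ E] {M : Type}
    [TopologicalSpace M] [ChartedSpace E M] (x : M) (γ : ℝ → M) (t : ℝ) : E := deriv (κ E x ∘ γ) t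

/-- geodesic at the time `t` -/
def GeoAt (g : Met E M) (γ : ℝ → M) (t : ℝ) : Prop :=
  (∀ᶠ s in 𝓝 t, ContMDiffAt 𝓘(ℝ, ℝ) 𝓘(ℝ, E) ∞ γ s) ∧ ∀ x : M, γ t ∈ (κ E x).source →
    HasDerivAt (vel E x γ) (acc g x (κ E x (γ t), vel E x γ t)) t

theorem isGeodesic_iff (g : Met E M) (γ : ℝ → M) : IsGeodesic g γ ↔ ∀ t, GeoAt g γ t := by
  have key : ∀ (x : M) (t : ℝ), ContMDiffAt 𝓘(ℝ, ℝ) 𝓘(ℝ, E) ∞ γ t → γ t ∈ (κ E x).source → ∀ w : E,
      HasDerivAt (vel E x γ) (deriv (vel E x γ) t) t ∧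
      HasDerivAt (fun s => G g x (κ E x (γ s)) (vel E x γ s) w)
        (fderiv ℝ (G g x) (κ E x (γ t)) (vel E x γ t) (vel E x γ t) w
          + G g x (κ E x (γ t)) (deriv (vel E x γ) t) w) t ∧
      fderiv ℝ (fun a => G g x a (vel E x γ t) (vel E x γ t)) (κ E x (γ t)) w
        = fderiv ℝ (G g x) (κ E x (γ t)) w (vel E x γ t) (vel E x γ t) := by
    intro x t h hx w
    have h1 := contDiffAt_chart (n := ⊤) h hx
    have h2 := (G_diff g x ((κ E x).map_source hx)).differentiableAt (by simp)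
    have h3 := hasDerivAt_deriv h1
    refine ⟨h3, ?_, fderiv_bil h2 _ _ _⟩
    have h4 := hasDerivAt_bil (c := κ E x ∘ γ) h2 (h1.differentiableAt (by simp)).hasDerivAt h3
      (hasDerivAt_const t w)
    rw [map_zero, add_zero] at h4
    exact h4
  constructor
  · rintro ⟨h1, h2⟩ t
    refine ⟨Eventually.of_forall h1, fun x hx => ?_⟩
    have e : deriv (vel E x γ) t = acc g x (κ E x (γ t), vel E x γ t) := by
      refine G_inj g x ((κ E x).map_source hx) fun w => ?_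
      obtain ⟨-, k2, k3⟩ := key x t (h1 t) hx w
      have h3 := k2.unique (h2 x t hx w)
      rw [acc_spec g x ((κ E x).map_source hx), ← k3]
      exact eq_sub_of_add_eq' h3
    exact e ▸ (key x t (h1 t) hx 0).1
  · intro h
    refine ⟨fun t => (h t).1.self_of_nhds, fun x t hx w => ?_⟩
    obtain ⟨-, k2, k3⟩ := key x t (h t).1.self_of_nhds hx w
    rw [((h t).2 x hx).deriv, acc_spec g x ((κ E x).map_source hx), add_sub_cancel, ← k3] at k2
    exact k2

theorem GeoAt.congr {g : Met E M} {γ γ' : ℝ → M} {t : ℝ} (h : GeoAt g γ t) (he : γ' =ᶠ[𝓝 t] γ) :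
    GeoAt g γ' t := by
  refine ⟨?_, fun x hx => ?_⟩
  · filter_upwards [h.1, he.eventuallyEq_nhds] with s h1 h2 using h1.congr_of_eventuallyEq h2
  · have h1 : vel E x γ' =ᶠ[𝓝 t] vel E x γ := (he.fun_comp (κ E x)).deriv
    rw [he.self_of_nhds] at hx ⊢
    rw [h1.self_of_nhds]
    exact (h.2 x hx).congr_of_eventuallyEq h1

theorem GeoAt.hasDerivAt {g : Met E M} {γ : ℝ → M} {t : ℝ} (h : GeoAt g γ t) {x : M}
    (hx : γ t ∈ (κ E x).source) : HasDerivAt (fun s => κ E x (γ s)) (vel E x γ t) t := by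
  exact ((contDiffAt_chart (n := ⊤) h.1.self_of_nhds hx).differentiableAt (by simp)).hasDerivAt

/-- transformation rule of the acceleration -/
theorem ChartX.acc_trans (g : Met E M) {x x' : M} {a : E} (ha : a ∈ (κ E x).target)
    (ha' : (κ E x).symm a ∈ (κ E x').source) (V : E) :
    acc g x' ((κ E x' ∘ (κ E x).symm) a, fderiv ℝ (κ E x' ∘ (κ E x).symm) a V) =
      fderiv ℝ (fderiv ℝ (κ E x' ∘ (κ E x).symm)) a V V
        + fderiv ℝ (κ E x' ∘ (κ E x).symm) a (acc g x (a, V)) := by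
  have hφ := contDiffAt_trans ha ha'
  have hb : (κ E x' ∘ (κ E x).symm) a ∈ (κ E x').target := (κ E x').map_source ha'
  have he : ∀ᶠ b in 𝓝 a, ∀ u w, G g x b u w = G g x' ((κ E x' ∘ (κ E x).symm) b)
      (fderiv ℝ (κ E x' ∘ (κ E x).symm) b u) (fderiv ℝ (κ E x' ∘ (κ E x).symm) b w) := by
    filter_upwards [(target_open x).mem_nhds ha, (symm_smooth ha).continuousAt.preimage_mem_nhds
      ((source_open x').mem_nhds ha')] with b h1 h2 using G_trans g h1 h2
  generalize κ E x' ∘ (κ E x).symm = φ at hφ hb he ⊢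
  have h2 : ContDiffAt ℝ 2 φ a := hφ.of_le two_le
  have hp := fderiv_pull ((G_diff g x ha).differentiableAt (by simp))
    ((G_diff g x' hb).differentiableAt (by simp)) h2 he
  have hsym := h2.isSymmSndFDerivAt (by simp)
  have hi : Function.Injective (fderiv ℝ φ a : E →ₗ[ℝ] E) := by
    rw [injective_iff_map_eq_zero]
    intro u hu
    by_contra hne
    have h3 := G_pos g x ha hne
    have hu' : fderiv ℝ φ a u = 0 := hu
    rw [he.self_of_nhds, hu', map_zero] at h3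
    exact lt_irrefl _ h3
  refine G_inj g x' hb fun w' => ?_
  obtain ⟨w, hw⟩ := LinearMap.injective_iff_surjective.1 hi w'
  have hw' : fderiv ℝ φ a w = w' := hw
  have h4 := acc_spec g x ha V w
  rw [he.self_of_nhds, hp, hp, hsym w V, hw'] at h4
  rw [acc_spec g x' hb, map_add, add_apply, h4,
    G_symm g x' _ (fderiv ℝ (fderiv ℝ φ) a V w)]
  ring

/-- a solution in one chart is a geodesic (invariance of the equation) -/
theorem geoAt_of_chart (g : Met E M) {x : M} {c : ℝ → E} {t : ℝ}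
    (hc : ∀ᶠ s in 𝓝 t, ContDiffAt ℝ ∞ c s) (ht : c t ∈ (κ E x).target)
    (hd : HasDerivAt (deriv c) (acc g x (c t, deriv c t)) t) : GeoAt g ((κ E x).symm ∘ c) t := by
  have hc0 := hc.self_of_nhds
  have h1 : ∀ᶠ s in 𝓝 t, c s ∈ (κ E x).target :=
    hc0.continuousAt.preimage_mem_nhds ((target_open x).mem_nhds ht)
  refine ⟨?_, fun x' hx' => ?_⟩
  · filter_upwards [hc, h1] with s h2 h3 using contMDiffAt_symm (n := ⊤) h2 h3
  have h2 : ∀ᶠ s in 𝓝 t, (κ E x).symm (c s) ∈ (κ E x').source :=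
    (contMDiffAt_symm (n := ⊤) hc0 ht).continuousAt.preimage_mem_nhds
      ((source_open x').mem_nhds hx')
  have h3 : vel E x' ((κ E x).symm ∘ c) =ᶠ[𝓝 t]
      fun s => fderiv ℝ (κ E x' ∘ (κ E x).symm) (c s) (deriv c s) := by
    filter_upwards [hc, h1, h2] with s k1 k2 k3
    exact (((contDiffAt_trans k2 k3).differentiableAt (by simp)).hasFDerivAt.comp_hasDerivAt s
      (k1.differentiableAt (by simp)).hasDerivAt).deriv
  have h4 : DifferentiableAt ℝ (fderiv ℝ (κ E x' ∘ (κ E x).symm)) (c t) :=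
    ((contDiffAt_trans ht hx').fderiv_right (m := 1) one_add_one_le).differentiableAt
      (by simp)
  have h5 := (h4.hasFDerivAt.comp_hasDerivAt t
    (hc0.differentiableAt (by simp)).hasDerivAt).clm_apply hd
  rw [h3.self_of_nhds]
  refine HasDerivAt.congr_of_eventuallyEq ?_ h3
  have h6 := acc_trans g ht hx' (deriv c t)
  exact h6 ▸ h5

omit [IsManifold 𝓘(ℝ, E) ∞ M] in
theorem ChartX.vel_aff (x : M) (γ : ℝ → M) (l m t : ℝ) :
    vel E x (fun s => γ (l * s + m)) t = l • vel E x γ (l * t + m) := by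
  have h1 := deriv_comp_mul_left l (fun s => (κ E x ∘ γ) (s + m)) t
  rw [deriv_comp_add_const] at h1
  exact h1

/-- affine reparametrisation -/
theorem GeoAt.affine {g : Met E M} {γ : ℝ → M} {l m t : ℝ} (h : GeoAt g γ (l * t + m)) :
    GeoAt g (fun s => γ (l * s + m)) t := by
  have ha : HasDerivAt (fun s : ℝ => l * s + m) l t := by
    simpa using ((hasDerivAt_id t).const_mul l).add_const m
  refine ⟨?_, fun x hx => ?_⟩
  · filter_upwards [ha.continuousAt.tendsto.eventually h.1] with s hs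
    exact hs.comp s (f := fun s : ℝ => l * s + m) (ContDiffAt.contMDiffAt (by fun_prop))
  · have h1 := ((h.2 x hx).scomp t ha).const_smul l
    rw [vel_aff, acc_smul g x ((κ E x).map_source hx), funext (vel_aff x γ l m), sq, mul_smul]
    exact h1

theorem vel_affine {g : Met E M} {γ : ℝ → M} {l m t : ℝ} (h : GeoAt g γ (l * t + m)) {x : M}
    (hx : γ (l * t + m) ∈ (κ E x).source) :
    vel E x (fun s => γ (l * s + m)) t = l • vel E x γ (l * t + m) := by
  exact vel_aff x γ l m t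

/-- velocities in two charts -/
theorem vel_trans {g : Met E M} {γ : ℝ → M} {t : ℝ} (h : GeoAt g γ t) {x x' : M}
    (hx : γ t ∈ (κ E x).source) (hx' : γ t ∈ (κ E x').source) :
    vel E x' γ t = fderiv ℝ (κ E x' ∘ (κ E x).symm) (κ E x (γ t)) (vel E x γ t) := by
  have h1 : κ E x' ∘ γ =ᶠ[𝓝 t] (κ E x' ∘ (κ E x).symm) ∘ fun s => κ E x (γ s) := by
    filter_upwards [h.1.self_of_nhds.continuousAt.preimage_mem_nhds
      ((source_open x).mem_nhds hx)] with s hs
    simp only [Function.comp_apply, (κ E x).left_inv hs]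
  have h2 := (contDiffAt_trans ((κ E x).map_source hx) (x' := x')
    (by rwa [(κ E x).left_inv hx])).differentiableAt (by simp)
  exact ((h2.hasFDerivAt.comp_hasDerivAt t (h.hasDerivAt hx)).congr_of_eventuallyEq h1).deriv

/-- squared speed -/
noncomputable def energy (g : Met E M) (γ : ℝ → M) (t : ℝ) : ℝ :=
  g.inner (γ t) (mfderiv 𝓘(ℝ, ℝ) 𝓘(ℝ, E) γ t (1 : ℝ)) (mfderiv 𝓘(ℝ, ℝ) 𝓘(ℝ, E) γ t (1 : ℝ))

theorem energy_eq {g : Met E M} {γ : ℝ → M} {t : ℝ} (h : GeoAt g γ t) {x : M}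
    (hx : γ t ∈ (κ E x).source) : energy g γ t = G g x (κ E x (γ t)) (vel E x γ t) (vel E x γ t) := by
  exact inner_eq g (h.1.self_of_nhds.mdifferentiableAt (by simp)) hx 1 1

theorem hasDerivAt_energy {g : Met E M} {γ : ℝ → M} {t : ℝ} (h : ∀ᶠ s in 𝓝 t, GeoAt g γ s) :
    HasDerivAt (energy g γ) 0 t := by
  have h0 := h.self_of_nhds
  have hx : γ t ∈ (κ E (γ t)).source := mem_extChartAt_source _
  generalize hy : γ t = y at hx
  have hx : γ t ∈ (κ E y).source := hy ▸ hx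
  have ha := (κ E y).map_source hx
  have h1 : energy g γ =ᶠ[𝓝 t] fun s => G g y (κ E y (γ s)) (vel E y γ s) (vel E y γ s) := by
    filter_upwards [h, h0.1.self_of_nhds.continuousAt.preimage_mem_nhds
      ((source_open y).mem_nhds hx)] with s k1 k2 using energy_eq k1 k2
  have h2 := hasDerivAt_bil (c := fun s => κ E y (γ s)) ((G_diff g y ha).differentiableAt (by simp))
    (h0.hasDerivAt hx) (h0.2 y hx) (h0.2 y hx)
  rw [G_symm g y _ (vel E y γ t) (acc g y _), acc_spec g y ha] at h2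
  refine (h2.congr_of_eventuallyEq h1).congr_deriv ?_
  ring

end Pool.Agent.GeoN
end

-- part Pool.Agent.P.MP_365c00_gt.BFib
section

/-! Consequences of a local trivialisation up to fibre homotopy. -/

open Set Topology Function
open Pool.Agent.URC

namespace Pool.Agent.GeoN.Ser

variable {X Y F : Type} [TopologicalSpace X] [TopologicalSpace Y] [TopologicalSpace F] {n : ℕ}
  {e : C(Y, X)} {j : C(E n, X)}

theorem LocTriv.mapsTo (L : LocTriv e F j) (hj : Injective j) (K : Set (E n)) :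
    MapsTo L.Ψ (K ×ˢ (univ : Set F))ᶜ (e ⁻¹' (j '' K))ᶜ := by
  rintro z hz ⟨a, ha, h⟩
  rw [L.eΨ] at h
  exact hz ⟨hj h ▸ ha, trivial⟩

theorem LocTriv.bij [T2Space X] (L : LocTriv e F j) (hj : IsOpenEmbedding j) {K : Set (E n)}
    (hK : IsCompact K) (k : ℕ) :
    Bijective (HH.map L.Ψ (L.mapsTo hj.injective K) :
      HH (K ×ˢ (univ : Set F))ᶜ k → HH (e ⁻¹' (j '' K))ᶜ k) := by
  let i : C(e ⁻¹' range j, Y) := ⟨Subtype.val, continuous_subtype_val⟩
  let Ψ' : C(E n × F, e ⁻¹' range j) :=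
    ⟨fun z => ⟨L.Ψ z, ⟨z.1, (L.eΨ z).symm⟩⟩, L.Ψ.continuous.subtype_mk _⟩
  have hH : ∀ p, L.H1 p ∈ e ⁻¹' range j := fun p => by
    show e (L.H1 (p.1, p.2)) ∈ range j
    rw [L.H1_e]
    exact p.1.2
  let H' : C((e ⁻¹' range j) × unitInterval, e ⁻¹' range j) :=
    ⟨fun p => ⟨L.H1 p, hH p⟩, L.H1.continuous.subtype_mk hH⟩
  have hU : IsOpen (e ⁻¹' range j) := hj.isOpen_range.preimage e.continuous
  have hT : IsOpen (e ⁻¹' (j '' K))ᶜ :=
    ((hK.image j.continuous).isClosed.preimage e.continuous).isOpen_compl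
  have m0 : MapsTo i (i ⁻¹' (e ⁻¹' (j '' K))ᶜ) (e ⁻¹' (j '' K))ᶜ := mapsTo_preimage _ _
  have b1 := excision (k := k) i hU.isOpenEmbedding_subtypeVal hT (fun y => by
    by_cases hy : y ∈ e ⁻¹' range j
    · exact Or.inl ⟨⟨y, hy⟩, rfl⟩
    · exact Or.inr fun h => hy (image_subset_range _ _ h)) (fun _ h => h) m0
  have m1 : MapsTo Ψ' (K ×ˢ (univ : Set F))ᶜ (i ⁻¹' (e ⁻¹' (j '' K))ᶜ) :=
    L.mapsTo hj.injective K
  have m2 : MapsTo L.Φ (i ⁻¹' (e ⁻¹' (j '' K))ᶜ) (K ×ˢ (univ : Set F))ᶜ := fun y hy h =>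
    hy ⟨_, h.1, L.eΦ y⟩
  have l1 : ∀ a : HH (K ×ˢ (univ : Set F))ᶜ k, HH.map L.Φ m2 (HH.map Ψ' m1 a) = a := fun a => by
    rw [HH.map_map]
    refine (HH.map_homotopy _ (ContinuousMap.id _) L.H2 L.H2_zero L.H2_one ?_ _
      (mapsTo_id _) a).trans (HH.res_self Subset.rfl a)
    exact fun z hz t h => hz ⟨L.H2_e z t ▸ h.1, trivial⟩
  have l2 : ∀ b : HH (i ⁻¹' (e ⁻¹' (j '' K))ᶜ) k, HH.map Ψ' m1 (HH.map L.Φ m2 b) = b := fun b => by
    rw [HH.map_map]
    refine (HH.map_homotopy _ (ContinuousMap.id _) H' (fun y => Subtype.ext (L.H1_zero y))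
      (fun y => Subtype.ext (L.H1_one y)) ?_ _ (mapsTo_id _) b).trans (HH.res_self Subset.rfl b)
    intro y hy t h
    have h1 : e (L.H1 (y, t)) ∈ j '' K := h
    rw [L.H1_e] at h1
    exact hy h1
  have b2 : Bijective (HH.map Ψ' m1 : HH (K ×ˢ (univ : Set F))ᶜ k → _) :=
    bijective_iff_has_inverse.2 ⟨HH.map L.Φ m2, l1, l2⟩
  have h3 : (HH.map L.Ψ (L.mapsTo hj.injective K) : HH (K ×ˢ (univ : Set F))ᶜ k → _) =
      HH.map i m0 ∘ HH.map Ψ' m1 := funext fun a => (HH.map_map i Ψ' m0 m1 a).symm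
  rw [h3]
  exact b1.comp b2

theorem fib_mapsTo (L : LocTriv e F j) (hj : Injective j) (z : E n) :
    MapsTo L.Ψ (({z} : Set (E n)) ×ˢ (univ : Set F))ᶜ (e ⁻¹' {j z})ᶜ := by
  rw [← image_singleton]
  exact L.mapsTo hj _

theorem fib_bij [T2Space X] (L : LocTriv e F j) (hj : IsOpenEmbedding j) {K : Set (E n)}
    (hK : IsCompact K) {S : Set X} (hS : j '' K = S)
    (h : MapsTo L.Ψ (K ×ˢ (univ : Set F))ᶜ (e ⁻¹' S)ᶜ) (k : ℕ) :
    Bijective (HH.map L.Ψ h : HH (K ×ˢ (univ : Set F))ᶜ k → HH (e ⁻¹' S)ᶜ k) := by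
  subst hS
  exact L.bij hj hK k

theorem LocTriv.loc [T2Space X] (L : LocTriv e F j) (hj : IsOpenEmbedding j) {d : ℕ}
    (hF : Van F d) : Loc e (n + d) j := by
  have hp := fun z k => fib_bij L hj isCompact_singleton image_singleton
    (fib_mapsTo L hj.injective z) k
  refine ⟨hj, fun K hK hc z hz k => ?_, fun z k hk α => ?_⟩
  · have hs : (K ×ˢ (univ : Set F))ᶜ ⊆ (({z} : Set (E n)) ×ˢ (univ : Set F))ᶜ :=
      compl_subset_compl.2 (prod_mono (singleton_subset_iff.2 hz) Subset.rfl)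
    rw [← Bijective.of_comp_iff _ (L.bij hj hK k)]
    have h1 : (HH.res (sub_pt e (mem_image_of_mem j hz)) : HH (e ⁻¹' (j '' K))ᶜ k → _) ∘
        HH.map L.Ψ (L.mapsTo hj.injective K) =
        HH.map L.Ψ (fib_mapsTo L hj.injective z) ∘ HH.res hs := funext fun a => by
      simp only [comp_apply, HH.res_map, HH.map_res]
    rw [h1]
    exact (hp z k).comp (prod_res_bij hK.isBounded (hc.starConvex hz) hs k)
  · obtain ⟨a, rfl⟩ := (hp z k).2 α
    rw [prod_vanish hF z hk a, map_zero]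

theorem LocTriv.nonzero [T2Space X] (L : LocTriv e F j) (hj : IsOpenEmbedding j) {d : ℕ}
    (h : ∃ α : HH (∅ : Set F) d, α ≠ 0) (z : E n) :
    ∃ β : HH (e ⁻¹' {j z})ᶜ (n + d), β ≠ 0 := by
  obtain ⟨a, ha⟩ := prod_nonzero h z
  refine ⟨HH.map L.Ψ (fib_mapsTo L hj.injective z) a, fun h0 => ha ?_⟩
  exact (fib_bij L hj isCompact_singleton image_singleton (fib_mapsTo L hj.injective z) _).1
    (h0.trans (map_zero _).symm)

theorem LocTriv.finComp (L : LocTriv e F j) (hj : Injective j) (hF : FinComp (univ : Set F))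
    {K : Set (E n)} (hK : Convex ℝ K) : FinComp (e ⁻¹' (j '' K)) := by
  rcases K.eq_empty_or_nonempty with rfl | ⟨z₀, hz₀⟩
  · exact ⟨∅, finite_empty, fun y hy => by simp at hy⟩
  obtain ⟨S, hS, h⟩ := hF
  refine ⟨(fun s => L.Ψ (z₀, s)) '' S, hS.image _, fun y hy => ?_⟩
  let y' : e ⁻¹' range j := ⟨y, image_subset_range _ _ hy⟩
  obtain ⟨s, hs, h1⟩ := h (L.Φ y').2 trivial
  refine ⟨_, mem_image_of_mem _ hs, ?_⟩
  have ha : (L.Φ y').1 ∈ K := by
    obtain ⟨a, ha, h2⟩ := hy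
    exact hj (h2.trans (L.eΦ y').symm) ▸ ha
  have j1 : JoinedIn (e ⁻¹' (j '' K)) (L.Ψ (L.Φ y')) y :=
    ⟨⟨⟨fun t => L.H1 (y', t), by fun_prop⟩, L.H1_zero y', L.H1_one y'⟩, fun t => by
      show e (L.H1 (y', t)) ∈ j '' K
      rw [L.H1_e]
      exact hy⟩
  have j2 : JoinedIn (K ×ˢ (univ : Set F)) (L.Φ y') (z₀, s) :=
    ((hK.isPathConnected ⟨z₀, hz₀⟩).joinedIn _ ha _ hz₀).prod h1
  refine j1.symm.trans ((j2.map L.Ψ.continuous).mono ?_)
  rintro _ ⟨z, hz, rfl⟩
  exact ⟨z.1, hz.1, (L.eΨ z).symm⟩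

end Pool.Agent.GeoN.Ser
end

-- part Pool.Agent.P.MP_365c00_gt.BVan
section

/-! TASK BVan: the homology of an open subset of a compact manifold vanishes above the
dimension; products of charted spaces; domination. -/

open Set Topology Function
open Pool.Agent.URC

namespace Pool.Agent.GeoN.Ser

variable {X : Type} [TopologicalSpace X] {n : ℕ}

theorem loc_id [T2Space X] {j : C(E n, X)} (hj : IsOpenEmbedding j) :
    Loc (ContinuousMap.id X) n j := by
  refine ⟨hj, fun K hK hc z hz k => ?_, fun z k hk α => ?_⟩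
  · have h : MapsTo j Kᶜ (j '' K)ᶜ := fun x hx h => hx (hj.injective.mem_set_image.1 h)
    have hb := excision (k := k) j hj (A := Kᶜ) (hK.image j.continuous).isClosed.isOpen_compl
      (fun y => by
        by_cases hy : y ∈ j '' K
        · exact Or.inl (image_subset_range _ _ hy)
        · exact Or.inr hy) (fun x hx hx' => hx ⟨x, hx', rfl⟩) h
    have hz' : Kᶜ ⊆ {z}ᶜ := compl_subset_compl.2 (singleton_subset_iff.2 hz)
    have hz2 : (j '' K)ᶜ ⊆ {j z}ᶜ :=
      compl_subset_compl.2 (singleton_subset_iff.2 (mem_image_of_mem j hz))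
    have h1 := (bij_pt (k := k) j hj rfl (mapsTo_pt hj.injective z)).comp
      (res_bij hK.isBounded (hc.starConvex hz) hz')
    have e : (HH.map j (mapsTo_pt hj.injective z) : HH {z}ᶜ k → HH {j z}ᶜ k) ∘ HH.res hz' =
        (HH.res hz2 : HH (j '' K)ᶜ k → HH {j z}ᶜ k) ∘ HH.map j h := by
      funext α
      simp only [comp_apply, HH.res_map, HH.map_res]
    rw [e] at h1
    exact (Bijective.of_comp_iff _ hb).1 h1
  · obtain ⟨β, rfl⟩ := (bij_pt (k := k) j hj rfl (mapsTo_pt hj.injective z)).2 α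
    rw [vanish_pt z hk β]
    exact map_zero _

/-- a chain in a union of two disjoint open sets splits -/
theorem bvan_split {U V : Set X} (hU : IsOpen U) (hV : IsOpen V) (hd : Disjoint U V) {k : ℕ}
    {c : Ch X k} (hc : c ∈ ChIn (U ∪ V) k) : ∃ a ∈ ChIn U k, ∃ b ∈ ChIn V k, c = a + b := by
  refine ChIn_induction (P := fun c => ∃ a ∈ ChIn U k, ∃ b ∈ ChIn V k, c = a + b) hc
    ⟨0, Submodule.zero_mem _, 0, Submodule.zero_mem _, by simp⟩ ?_ ?_
  · rintro _ _ ⟨a, ha, b, hb, rfl⟩ ⟨a', ha', b', hb', rfl⟩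
    exact ⟨a + a', Submodule.add_mem _ ha ha', b + b', Submodule.add_mem _ hb hb', by abel⟩
  · intro σ m hσ
    have : PreconnectedSpace (Dl k) :=
      Subtype.preconnectedSpace (convex_stdSimplex ℝ (Fin k)).isPreconnected
    rcases (isPreconnected_range σ.continuous).subset_or_subset hU hV hd
      (range_subset_iff.2 hσ) with h | h
    · exact ⟨_, single_mem_ChIn m (range_subset_iff.1 h), 0, Submodule.zero_mem _, by simp⟩
    · exact ⟨0, Submodule.zero_mem _, _, single_mem_ChIn m (range_subset_iff.1 h), by simp⟩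

theorem bvan_compact [T2Space X] (hX : Charted n X) {K : Set X} (hK : IsCompact K) {k : ℕ}
    (hk : n < k) (α : HH Kᶜ k) : α = 0 := by
  have h := good_of_compact (e := ContinuousMap.id X) (N := n) (om := fun _ => 0)
    (fun x => by
      obtain ⟨j, hj, hx⟩ := hX x
      exact ⟨j, loc_id hj, hx⟩)
    (fun x => ⟨univ, Filter.univ_mem, 0, fun y hy => map_zero _⟩) hK
  exact h.van k hk α

theorem bvan_push_inj {Y : Type} [TopologicalSpace Y] (i : C(Y, X)) (hi : Injective i) {k : ℕ}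
    {c : Ch Y (k + 1)} (h : push i c = 0) : c = 0 := by
  have h1 := mem_ChIn_of_push i hi (T := ∅) (c := c) (by rw [h]; exact Submodule.zero_mem _)
  rw [preimage_empty] at h1
  exact mem_ChIn_empty.1 h1

theorem van_open [T2Space X] [CompactSpace X] (hX : Charted n X) {W : Set X} (hW : IsOpen W) :
    Van W n := by
  intro k hk α
  obtain ⟨k, rfl⟩ : ∃ m, k = m + 1 := ⟨k - 1, by omega⟩
  obtain ⟨c, hc, rfl⟩ := HH.exists_mk α
  have hc0 : bd c = 0 := mem_ChIn_empty.1 hc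
  let i : C(W, X) := ⟨Subtype.val, continuous_subtype_val⟩
  have hz0 : bd (push i c) = 0 := by rw [bd_push, hc0, map_zero]
  have hzW : push i c ∈ ChIn W (k + 2) :=
    push_mem_ChIn i (A := univ) (fun x _ => x.2) (mem_ChIn_univ c)
  obtain ⟨U, hU, h1, h2⟩ := normal_exists_closure_subset (isCompact_car (push i c)).isClosed hW
    (mem_ChIn_iff_car.1 hzW)
  have hzU : push i c ∈ ChIn U (k + 2) := mem_ChIn_iff_car.2 h1
  have hV : IsOpen (closure U)ᶜ := isClosed_closure.isOpen_compl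
  have hd : Disjoint U (closure U)ᶜ := disjoint_compl_right_iff_subset.2 subset_closure
  obtain ⟨d, hd1⟩ := mem_Bd.1 (HH.mk_eq_zero.1 (bvan_compact hX isClosed_closure.isCompact hk
    (HH.mk (A := (closure U)ᶜ) (push i c) (by rw [hz0]; exact Submodule.zero_mem _))))
  have hK : IsCompact (U ∪ (closure U)ᶜ)ᶜ := (hU.union hV).isClosed_compl.isCompact
  have hbd : bd d ∈ ChIn (U ∪ (closure U)ᶜ)ᶜᶜ (k + 2) := by
    rw [compl_compl]
    have := Submodule.sub_mem _ (ChIn_mono (subset_union_left (t := (closure U)ᶜ)) _ hzU)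
      (ChIn_mono (subset_union_right (s := U)) _ hd1)
    rwa [sub_sub_cancel] at this
  obtain ⟨d', hd2⟩ := mem_Bd.1 (HH.mk_eq_zero.1 (bvan_compact hX hK (by omega) (HH.mk d hbd)))
  rw [compl_compl] at hd2
  obtain ⟨a, ha, b, hb, e⟩ := bvan_split hU hV hd hd2
  have e1 : bd d = bd a + bd b := by
    rw [← map_add, ← e, map_sub, bd_bd, sub_zero]
  have m1 : push i c - bd a ∈ ChIn U (k + 2) := Submodule.sub_mem _ hzU (bd_mem_ChIn ha)
  have m2 : push i c - bd a ∈ ChIn (closure U)ᶜ (k + 2) := by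
    have := Submodule.add_mem _ hd1 (bd_mem_ChIn hb)
    rwa [e1, show push i c - (bd a + bd b) + bd b = push i c - bd a by abel] at this
  have m3 := mem_ChIn_inter.2 ⟨m1, m2⟩
  rw [hd.inter_eq] at m3
  have m4 := mem_ChIn_empty.1 m3
  obtain ⟨a', rfl⟩ := exists_push i IsInducing.subtypeVal (c := a)
    (ChIn_mono (B := range i) (fun x hx => ⟨⟨x, h2 (subset_closure hx)⟩, rfl⟩) _ ha)
  rw [bd_push, ← map_sub] at m4
  refine HH.mk_eq_zero.2 (mem_Bd.2 ⟨a', ?_⟩)
  rw [bvan_push_inj i Subtype.val_injective m4]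
  exact Submodule.zero_mem _

/-- blocks of coordinates -/
def bvanBlk (m n : ℕ) : E (m * n) ≃ₜ (Fin m → E n) where
  toFun v i a := v (finProdFinEquiv (i, a))
  invFun w l := w (finProdFinEquiv.symm l).1 (finProdFinEquiv.symm l).2
  left_inv v := by
    funext l
    simp only [Prod.mk.eta, Equiv.apply_symm_apply]
  right_inv w := by
    funext i a
    simp only [Equiv.symm_apply_apply]
  continuous_toFun := by fun_prop
  continuous_invFun := by fun_prop

theorem Charted.pi (hX : Charted n X) (m : ℕ) : Charted (m * n) (Fin m → X) := by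
  intro x
  choose j hj y hy using fun i => hX (x i)
  have h := (IsOpenEmbedding.piMap (f := fun i => (j i : E n → X)) hj).comp
    (bvanBlk m n).isOpenEmbedding
  refine ⟨⟨_, h.continuous⟩, h, (bvanBlk m n).symm y, ?_⟩
  funext i
  simp only [ContinuousMap.coe_mk, comp_apply, Homeomorph.apply_symm_apply, Pi.map_apply, hy]

theorem charted_of_chartedSpace {V : Type} [NormedAddCommGroup V] [NormedSpace ℝ V]
    [FiniteDimensional ℝ V] [ChartedSpace V X] : Charted (Module.finrank ℝ V) X := by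
  intro x
  let L : E (Module.finrank ℝ V) ≃L[ℝ] V := ContinuousLinearEquiv.ofFinrankEq (by simp)
  have hx := mem_chart_source V x
  have h1 : L ⁻¹' (chartAt V x).target ∈ 𝓝 (L.symm (chartAt V x x)) := by
    refine ((chartAt V x).open_target.preimage L.continuous).mem_nhds ?_
    rw [mem_preimage, L.apply_symm_apply]
    exact (chartAt V x).map_source hx
  obtain ⟨β, hβ, h0, hU⟩ := exists_emb _ h1
  have hL : IsOpenEmbedding (L ∘ β) := L.toHomeomorph.isOpenEmbedding.comp hβ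
  have h : IsOpenEmbedding ((chartAt V x).symm ∘ (L ∘ β)) := by
    refine IsOpenEmbedding.of_continuous_injective_isOpenMap
      ((chartAt V x).continuousOn_symm.comp_continuous hL.continuous hU)
      (fun y y' e => hL.injective ((chartAt V x).symm.injOn (hU y) (hU y') e)) fun S hS => ?_
    rw [image_comp]
    refine (chartAt V x).symm.isOpen_image_of_subset_source (hL.isOpenMap S hS) ?_
    rintro _ ⟨y, -, rfl⟩
    exact hU y
  refine ⟨⟨_, h.continuous⟩, h, 0, ?_⟩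
  simp only [ContinuousMap.coe_mk, comp_apply, h0, L.apply_symm_apply]
  exact (chartAt V x).left_inv hx

/-- if every map from a compact space to `F` factors up to homotopy through `W`, vanishing of
homology passes from `W` to `F` -/
theorem van_of_dom {F W : Type} [TopologicalSpace F] [TopologicalSpace W] (b : C(W, F))
    (h : ∀ (K : Set F), IsCompact K → ∃ φ : C(K, W),
      ContinuousMap.Homotopic (⟨Subtype.val, continuous_subtype_val⟩ : C(K, F)) (b.comp φ))
    {d : ℕ} (hW : Van W d) : Van F d := by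
  intro k hk α
  obtain ⟨k, rfl⟩ : ∃ m, k = m + 1 := ⟨k - 1, by omega⟩
  obtain ⟨c, hc, rfl⟩ := HH.exists_mk α
  have hc0 : bd c = 0 := mem_ChIn_empty.1 hc
  obtain ⟨φ, ⟨H⟩⟩ := h (car c) (isCompact_car c)
  let i : C(car c, F) := ⟨Subtype.val, continuous_subtype_val⟩
  obtain ⟨c', hc'⟩ := exists_push i IsInducing.subtypeVal (c := c)
    (mem_ChIn_iff_car.2 fun x hx => ⟨⟨x, hx⟩, rfl⟩)
  have h0 : bd c' = 0 := bvan_push_inj i Subtype.val_injective (by rw [← bd_push, hc', hc0])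
  have h1 : bd c' ∈ ChIn (∅ : Set (car c)) (k + 1) := by
    rw [h0]
    exact Submodule.zero_mem _
  have h2 : HH.mk c hc = HH.map i (mapsTo_empty _ _) (HH.mk c' h1) := by
    rw [HH.map_mk, HH.mk_eq_mk, hc', sub_self]
    exact Submodule.zero_mem _
  have h3 := HH.map_homotopy i (b.comp φ) (H.toContinuousMap.comp ContinuousMap.prodSwap)
    (fun x => H.apply_zero x) (fun x => H.apply_one x) (A := ∅) (B := ∅)
    (fun x hx => absurd hx (notMem_empty x)) (mapsTo_empty _ _) (mapsTo_empty _ _) (HH.mk c' h1)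
  rw [h2, h3, ← HH.map_map b φ (mapsTo_empty _ ∅) (mapsTo_empty _ ∅), hW _ hk (HH.map φ _ _),
    map_zero]

end Pool.Agent.GeoN.Ser
end

-- part Pool.Agent.P.MP_365c00_gt.NFlow
section

/-!
Existence, uniqueness and smooth dependence for geodesics.
-/

set_option linter.unusedSectionVars false
set_option linter.unusedVariables false

open Set Filter Topology Metric
open scoped Manifold ContDiff

namespace Pool.Agent.GeoN

variable {E : Type} [NormedAddCommGroup E] [NormedSpace ℝ E] [FiniteDimensional ℝ E]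
  {M : Type} [TopologicalSpace M] [ChartedSpace E M] [IsManifold 𝓘(ℝ, E) ∞ M]

/-- local smooth flow of the geodesic equation in a chart -/
theorem exists_local_flow (g : Met E M) (x : M) {a0 : E} (ha : a0 ∈ (κ E x).target) {R : ℝ}
    (hR : 0 < R) : ∃ ε > 0, ∃ r > 0, ∃ Φ : ℝ × (E × E) → E × E, ContDiff ℝ ∞ Φ ∧
      (∀ y, Φ (0, y) = y) ∧ ∀ y ∈ ball a0 r ×ˢ ball (0 : E) R, ∀ t, |t| < ε →
        (Φ (t, y)).1 ∈ (κ E x).target ∧
        HasDerivAt (fun s => Φ (s, y)) ((Φ (t, y)).2, acc g x (Φ (t, y))) t := by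
  obtain ⟨ρ0, hρ0, hb⟩ := Metric.isOpen_iff.1 (target_open x) a0 ha
  set ρ := ρ0 / 4 with hρ
  have hρ' : 0 < ρ := by positivity
  have hsub : closedBall a0 (3 * ρ) ⊆ (κ E x).target :=
    (closedBall_subset_ball (by rw [hρ]; linarith)).trans hb
  let f1 : ContDiffBump a0 := ⟨2 * ρ, 3 * ρ, by positivity, by linarith⟩
  let f2 : ContDiffBump (0 : E) := ⟨R + 1, R + 2, by positivity, by linarith⟩
  let v : E × E → E × E := fun y => (f1 y.1 * f2 y.2) • (y.2, acc g x y)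
  have hv : ContDiff ℝ ∞ v := by
    rw [contDiff_iff_contDiffAt]
    intro y
    by_cases hy : y.1 ∈ (κ E x).target
    · refine ContDiffAt.smul (((f1.contDiff.comp contDiff_fst).mul
        (f2.contDiff.comp contDiff_snd)).contDiffAt) (contDiffAt_snd.prodMk ?_)
      exact (acc_smooth g x).contDiffAt
        (((target_open x).prod isOpen_univ).mem_nhds ⟨hy, mem_univ _⟩)
    · have h1 : y.1 ∉ tsupport f1 := by
        rw [f1.tsupport_eq]; exact fun h => hy (hsub h)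
      have h2 : (fun z : E × E => f1 z.1) =ᶠ[𝓝 y] fun _ => 0 :=
        continuous_fst.continuousAt.eventually (notMem_tsupport_iff_eventuallyEq.1 h1)
      refine (contDiffAt_const (c := (0 : E × E))).congr_of_eventuallyEq ?_
      filter_upwards [h2] with z hz
      simp only [v, hz, zero_mul, zero_smul]
  have hc : HasCompactSupport v := by
    refine HasCompactSupport.intro ((isCompact_closedBall a0 (3 * ρ)).prod
      (isCompact_closedBall (0 : E) (R + 2))) fun y hy => ?_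
    rw [mem_prod, not_and_or, mem_closedBall, mem_closedBall, not_le, not_le] at hy
    rcases hy with hy | hy
    · simp only [v, f1.zero_of_le_dist hy.le, zero_mul, zero_smul]
    · simp only [v, f2.zero_of_le_dist hy.le, mul_zero, zero_smul]
  obtain ⟨P, hP, h0, hd, -⟩ := Lib.Flow.exists_flow_of_hasCompactSupport (n := ⊤) (by simp) v hv hc
  have hU : IsOpen (ball a0 (2 * ρ) ×ˢ ball (0 : E) (R + 1)) := isOpen_ball.prod isOpen_ball
  have key : ∀ᶠ t in 𝓝 (0 : ℝ), ∀ y ∈ closedBall a0 ρ ×ˢ closedBall (0 : E) R,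
      P (t, y) ∈ ball a0 (2 * ρ) ×ˢ ball (0 : E) (R + 1) := by
    refine ((isCompact_closedBall a0 ρ).prod
      (isCompact_closedBall (0 : E) R)).eventually_forall_of_forall_eventually fun y hy => ?_
    refine hP.continuous.continuousAt.eventually_mem (hU.mem_nhds ?_)
    rw [h0]
    exact ⟨closedBall_subset_ball (by linarith) hy.1, closedBall_subset_ball (by linarith) hy.2⟩
  obtain ⟨ε, hε, hk⟩ := Metric.eventually_nhds_iff.1 key
  refine ⟨ε, hε, ρ, hρ', P, hP, h0, fun y hy t ht => ?_⟩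
  have hm := hk (y := t) (by simpa [Real.dist_eq] using ht) y
    ⟨ball_subset_closedBall hy.1, ball_subset_closedBall hy.2⟩
  refine ⟨hsub (ball_subset_closedBall (ball_subset_ball (by linarith) hm.1)), ?_⟩
  have := hd t y
  simp only [v, f1.one_of_mem_closedBall (ball_subset_closedBall hm.1),
    f2.one_of_mem_closedBall (ball_subset_closedBall hm.2), mul_one, one_smul] at this
  exact this

namespace FlowX

theorem cont {g : Met E M} {γ : ℝ → M} {t : ℝ} (h : GeoAt g γ t) : ContinuousAt γ t :=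
  h.1.self_of_nhds.continuousAt

/-- the geodesic given by a solution in a chart -/
theorem loc_geo {g : Met E M} {x : M} {ε : ℝ} {Φ : ℝ × (E × E) → E × E} (hΦ : ContDiff ℝ ∞ Φ)
    (h0 : ∀ y, Φ (0, y) = y) {y : E × E}
    (h : ∀ t, |t| < ε → (Φ (t, y)).1 ∈ (κ E x).target ∧
      HasDerivAt (fun s => Φ (s, y)) ((Φ (t, y)).2, acc g x (Φ (t, y))) t) (hε : 0 < ε) (t1 : ℝ) :
    (∀ t ∈ Ioo (t1 - ε) (t1 + ε), GeoAt g (fun s => (κ E x).symm (Φ (s - t1, y)).1) t) ∧
      (κ E x).symm (Φ (t1 - t1, y)).1 = (κ E x).symm y.1 ∧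
      vel E x (fun s => (κ E x).symm (Φ (s - t1, y)).1) t1 = y.2 := by
  set Y : ℝ → E × E := fun s => Φ (s - t1, y) with hY
  have hm : ∀ t ∈ Ioo (t1 - ε) (t1 + ε), |t - t1| < ε := fun t ht =>
    abs_lt.2 ⟨by linarith [ht.1], by linarith [ht.2]⟩
  have hd : ∀ t ∈ Ioo (t1 - ε) (t1 + ε), HasDerivAt Y ((Y t).2, acc g x (Y t)) t := fun t ht =>
    HasDerivAt.comp_sub_const t t1 (h _ (hm t ht)).2
  have hd1 : ∀ t ∈ Ioo (t1 - ε) (t1 + ε), deriv (fun s => (Y s).1) t = (Y t).2 := fun t ht =>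
    ((ContinuousLinearMap.fst ℝ E E).hasFDerivAt.comp_hasDerivAt t (hd t ht)).deriv
  have hs : ContDiff ℝ ∞ fun s => (Y s).1 :=
    (hΦ.comp ((contDiff_id.sub contDiff_const).prodMk contDiff_const)).fst
  have ht1 : t1 ∈ Ioo (t1 - ε) (t1 + ε) := ⟨by linarith, by linarith⟩
  refine ⟨fun t ht => ?_, by rw [sub_self, h0], ?_⟩
  · refine geoAt_of_chart g (c := fun s => (Y s).1) (Eventually.of_forall fun s => hs.contDiffAt)
      (h _ (hm t ht)).1 ?_
    rw [hd1 t ht]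
    refine HasDerivAt.congr_of_eventuallyEq
      ((ContinuousLinearMap.snd ℝ E E).hasFDerivAt.comp_hasDerivAt t (hd t ht)) ?_
    filter_upwards [isOpen_Ioo.mem_nhds ht] with s hs using hd1 s hs
  · have e : (κ E x ∘ fun s => (κ E x).symm (Φ (s - t1, y)).1) =ᶠ[𝓝 t1] fun s => (Y s).1 := by
      filter_upwards [isOpen_Ioo.mem_nhds ht1] with s hs
      exact (κ E x).right_inv (h _ (hm s hs)).1
    rw [vel, e.deriv_eq, hd1 t1 ht1]
    simp only [hY, sub_self, h0]

omit [IsManifold 𝓘(ℝ, E) ∞ M] in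
theorem vel_congr {γ γ' : ℝ → M} {t : ℝ} (h : γ =ᶠ[𝓝 t] γ') (x : M) : vel E x γ t = vel E x γ' t :=
  (h.fun_comp (κ E x)).deriv_eq

theorem loc_unique {g : Met E M} {γ γ' : ℝ → M} {t : ℝ} (h : ∀ᶠ s in 𝓝 t, GeoAt g γ s)
    (h' : ∀ᶠ s in 𝓝 t, GeoAt g γ' s) {x : M} (hx : γ t ∈ (κ E x).source) (h0 : γ t = γ' t)
    (h1 : vel E x γ t = vel E x γ' t) : γ =ᶠ[𝓝 t] γ' := by
  have hv : ContDiffAt ℝ 1 (fun y : E × E => (y.2, acc g x y)) (κ E x (γ t), vel E x γ t) :=
    contDiffAt_snd.prodMk (((acc_smooth g x).contDiffAt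
      (((target_open x).prod isOpen_univ).mem_nhds
        ⟨(κ E x).map_source hx, mem_univ _⟩)).of_le (by simp))
  obtain ⟨K, W, hW, hK⟩ := hv.exists_lipschitzOnWith
  have key : ∀ c : ℝ → M, (∀ᶠ s in 𝓝 t, GeoAt g c s) → c t ∈ (κ E x).source →
      W ∈ 𝓝 (κ E x (c t), vel E x c t) → ∀ᶠ s in 𝓝 t, c s ∈ (κ E x).source ∧
        HasDerivAt (fun s => (κ E x (c s), vel E x c s))
          (vel E x c s, acc g x (κ E x (c s), vel E x c s)) s ∧ (κ E x (c s), vel E x c s) ∈ W := by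
    intro c hc hcx hcW
    have h2 := hc.self_of_nhds
    filter_upwards [hc, (cont h2).eventually_mem ((source_open x).mem_nhds hcx),
      ((h2.hasDerivAt hcx).prodMk (h2.2 x hcx)).continuousAt.eventually_mem hcW] with s a b d
    exact ⟨b, (a.hasDerivAt b).prodMk (a.2 x b), d⟩
  have k1 := key γ h hx hW
  have k2 := key γ' h' (h0 ▸ hx) (by rwa [← h0, ← h1])
  have e := ODE_solution_unique_of_eventually (v := fun _ (y : E × E) => (y.2, acc g x y))
    (s := fun _ => W) (K := K) (f := fun s => (κ E x (γ s), vel E x γ s))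
    (g := fun s => (κ E x (γ' s), vel E x γ' s)) (Eventually.of_forall fun _ => hK)
    (k1.mono fun s hs => hs.2) (k2.mono fun s hs => hs.2) (by simp only [h0, h1])
  filter_upwards [k1, k2, e] with s a b c
  exact (κ E x).injOn a.1 b.1 (congrArg Prod.fst c)

end FlowX

open FlowX

variable [T2Space M]

theorem geo_unique_on {g : Met E M} {γ γ' : ℝ → M} {a b t0 : ℝ} (ht : t0 ∈ Ioo a b)
    (h : ∀ t ∈ Ioo a b, GeoAt g γ t) (h' : ∀ t ∈ Ioo a b, GeoAt g γ' t) {x : M}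
    (hx : γ t0 ∈ (κ E x).source) (h0 : γ t0 = γ' t0) (h1 : vel E x γ t0 = vel E x γ' t0) :
    EqOn γ γ' (Ioo a b) := by
  have ev : ∀ {c : ℝ → M}, (∀ t ∈ Ioo a b, GeoAt g c t) → ∀ t ∈ Ioo a b,
      ∀ᶠ s in 𝓝 t, GeoAt g c s := fun hc t ht =>
    mem_of_superset (isOpen_Ioo.mem_nhds ht) hc
  have key : Ioo a b ⊆ {t | ∀ᶠ s in 𝓝 t, γ s = γ' s} := by
    refine isPreconnected_Ioo.subset_of_closure_inter_subset isOpen_setOfPred_eventually_nhds
      ⟨t0, ht, loc_unique (ev h t0 ht) (ev h' t0 ht) hx h0 h1⟩ ?_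
    rintro t ⟨hc, hm⟩
    have fr := mem_closure_iff_frequently.1 hc
    have e0 : γ t = γ' t := tendsto_nhds_unique_of_frequently_eq (cont (h t hm)) (cont (h' t hm))
      (fr.mono fun s hs => hs.self_of_nhds)
    have hs : γ t ∈ (κ E (γ t)).source := mem_extChartAt_source _
    refine loc_unique (ev h t hm) (ev h' t hm) hs e0 ?_
    exact tendsto_nhds_unique_of_frequently_eq ((h t hm).2 _ hs).continuousAt
      ((h' t hm).2 _ (e0 ▸ hs)).continuousAt (fr.mono fun s hs => vel_congr hs _)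
  exact fun t ht => (key ht).self_of_nhds

theorem geo_unique {g : Met E M} {γ γ' : ℝ → M} (h : IsGeodesic g γ) (h' : IsGeodesic g γ')
    {t0 : ℝ} {x : M} (hx : γ t0 ∈ (κ E x).source) (h0 : γ t0 = γ' t0)
    (h1 : vel E x γ t0 = vel E x γ' t0) : γ = γ' := by
  rw [isGeodesic_iff] at h h'
  funext t
  exact geo_unique_on (a := min t t0 - 1) (b := max t t0 + 1)
    ⟨by linarith [min_le_right t t0], by linarith [le_max_right t t0]⟩ (fun s _ => h s)
    (fun s _ => h' s) hx h0 h1 ⟨by linarith [min_le_left t t0], by linarith [le_max_left t t0]⟩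

namespace FlowX

theorem glue {g : Met E M} {γ δ : ℝ → M} {a b c d t : ℝ} (ht : t ∈ Ioo a b) (ht' : t ∈ Ioo c d)
    (h : ∀ s ∈ Ioo a b, GeoAt g γ s) (h' : ∀ s ∈ Ioo c d, GeoAt g δ s) {x : M}
    (hx : γ t ∈ (κ E x).source) (h0 : γ t = δ t) (h1 : vel E x γ t = vel E x δ t) :
    ∃ η : ℝ → M, (∀ s ∈ Ioo (min a c) (max b d), GeoAt g η s) ∧ EqOn η γ (Ioo a b) := by
  classical
  have e : EqOn γ δ (Ioo (max a c) (min b d)) :=
    geo_unique_on ⟨max_lt ht.1 ht'.1, lt_min ht.2 ht'.2⟩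
      (fun s hs => h s ⟨(max_lt_iff.1 hs.1).1, (lt_min_iff.1 hs.2).1⟩)
      (fun s hs => h' s ⟨(max_lt_iff.1 hs.1).2, (lt_min_iff.1 hs.2).2⟩) hx h0 h1
  refine ⟨fun s => if s ∈ Ioo a b then γ s else δ s, fun s hs => ?_, fun s hs => if_pos hs⟩
  by_cases h2 : s ∈ Ioo a b
  · refine (h s h2).congr ?_
    filter_upwards [isOpen_Ioo.mem_nhds h2] with u hu using if_pos hu
  have h3 : s ∈ Ioo c d := by
    rw [mem_Ioo, not_and_or, not_lt, not_lt] at h2
    rcases h2 with h2 | h2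
    · exact ⟨(min_lt_iff.1 hs.1).resolve_left (not_lt.2 h2), by linarith [ht.1, ht'.2]⟩
    · exact ⟨by linarith [ht.2, ht'.1], (lt_max_iff.1 hs.2).resolve_left (not_lt.2 h2)⟩
  refine (h' s h3).congr ?_
  filter_upwards [isOpen_Ioo.mem_nhds h3] with u hu
  split_ifs with h4
  · exact e ⟨max_lt h4.1 hu.1, lt_min h4.2 hu.2⟩
  · rfl

omit [T2Space M] in
theorem energy_const {g : Met E M} {γ : ℝ → M} {a b : ℝ} (h : ∀ s ∈ Ioo a b, GeoAt g γ s) {s t : ℝ}
    (hs : s ∈ Ioo a b) (ht : t ∈ Ioo a b) : energy g γ s = energy g γ t := by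
  have hd : ∀ u ∈ Ioo a b, HasDerivAt (energy g γ) 0 u := fun u hu =>
    hasDerivAt_energy (mem_of_superset (isOpen_Ioo.mem_nhds hu) h)
  exact isOpen_Ioo.is_const_of_deriv_eq_zero isPreconnected_Ioo
    (fun u hu => (hd u hu).differentiableAt.differentiableWithinAt) (fun u hu => (hd u hu).deriv)
    hs ht

omit [T2Space M] in
/-- a uniform time of existence for bounded energy -/
theorem uniform [CompactSpace M] (g : Met E M) (e : ℝ) : ∃ ε > 0, ∀ (γ : ℝ → M) (t : ℝ),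
    GeoAt g γ t → energy g γ t ≤ e → ∃ (x : M) (δ : ℝ → M), γ t ∈ (κ E x).source ∧
      (∀ s ∈ Ioo (t - ε) (t + ε), GeoAt g δ s) ∧ γ t = δ t ∧ vel E x γ t = vel E x δ t := by
  have key : ∀ q : M, ∃ ε > 0, ∀ᶠ p in 𝓝 q, ∀ ε' ∈ Ioc 0 ε, ∀ (γ : ℝ → M) (t : ℝ), γ t = p →
      GeoAt g γ t → energy g γ t ≤ e → ∃ (x : M) (δ : ℝ → M), γ t ∈ (κ E x).source ∧
        (∀ s ∈ Ioo (t - ε') (t + ε'), GeoAt g δ s) ∧ γ t = δ t ∧ vel E x γ t = vel E x δ t := by
    intro q
    have hq : κ E q q ∈ (κ E q).target := mem_extChartAt_target q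
    obtain ⟨r0, hr0, hb⟩ := Metric.nhds_basis_closedBall.mem_iff.1 ((target_open q).mem_nhds hq)
    obtain ⟨l, hl, hco⟩ := G_coercive g q (isCompact_closedBall _ r0) hb
    obtain ⟨ε, hε, r, hr, Φ, hΦ, h0, hf⟩ := exists_local_flow g q hq
      (R := |e| / l + 1) (by positivity)
    refine ⟨ε, hε, ?_⟩
    filter_upwards [extChartAt_source_mem_nhds (I := 𝓘(ℝ, E)) q,
      (continuousAt_extChartAt (I := 𝓘(ℝ, E)) q).eventually_mem (ball_mem_nhds _ hr),
      (continuousAt_extChartAt (I := 𝓘(ℝ, E)) q).eventually_mem (closedBall_mem_nhds _ hr0)]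
      with p p1 p2 p3 ε' hε' γ t hp hg he
    subst hp
    have hV : vel E q γ t ∈ ball (0 : E) (|e| / l + 1) := by
      have h1 := hco _ p3 (vel E q γ t)
      rw [← energy_eq hg p1] at h1
      have h2 : ‖vel E q γ t‖ ^ 2 ≤ |e| / l := by
        rw [le_div_iff₀ hl]; linarith [le_abs_self e]
      rw [mem_ball_zero_iff]
      nlinarith [sq_nonneg (‖vel E q γ t‖ - 1 / 2)]
    obtain ⟨a, b, c⟩ := loc_geo hΦ h0 (hf (κ E q (γ t), vel E q γ t) ⟨p2, hV⟩) hε t
    exact ⟨q, _, p1, fun s hs => a s ⟨by linarith [hs.1, hε'.2], by linarith [hs.2, hε'.2]⟩,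
      by rw [b, (κ E q).left_inv p1], c.symm⟩
  choose ε hε hU using key
  obtain ⟨T, hT⟩ := CompactSpace.elim_nhds_subcover _ hU
  have : ∀ᶠ ε' in 𝓝[>] (0 : ℝ), ∀ q ∈ T, ε' ∈ Ioc 0 (ε q) :=
    (eventually_all_finset T).2 fun q _ => Ioc_mem_nhdsGT (hε q)
  obtain ⟨ε', h1, h2⟩ := (this.and self_mem_nhdsWithin).exists
  refine ⟨ε', h2, fun γ t => ?_⟩
  obtain ⟨q, hq, hp⟩ := mem_iUnion₂.1 (hT.ge (mem_univ (γ t)))
  exact hp ε' (h1 q hq) γ t rfl

end FlowX

variable [CompactSpace M]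

theorem exists_geo (g : Met E M) (x : M) (y : E × E) : ∃ γ : ℝ → M, y.1 ∈ (κ E x).target →
    IsGeodesic g γ ∧ γ 0 = (κ E x).symm y.1 ∧ vel E x γ 0 = y.2 := by
  by_cases hy : y.1 ∈ (κ E x).target
  swap
  · exact ⟨fun _ => x, fun h => absurd h hy⟩
  let Q : ℝ → ℝ → (ℝ → M) → Prop := fun a b γ =>
    (∀ s ∈ Ioo a b, GeoAt g γ s) ∧ γ 0 = (κ E x).symm y.1 ∧ vel E x γ 0 = y.2
  have hsrc : (κ E x).symm y.1 ∈ (κ E x).source := (κ E x).map_target hy
  obtain ⟨ε, hε, hU⟩ := uniform g (G g x y.1 y.2 y.2)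
  have step : ∀ a b γ, (0 : ℝ) ∈ Ioo a b → Q a b γ → ∀ t ∈ Ioo a b,
      ∃ η, Q (min a (t - ε)) (max b (t + ε)) η := by
    rintro a b γ h0 ⟨h1, h2, h3⟩ t ht
    obtain ⟨q, δ, d1, d2, d3, d4⟩ := hU γ t (h1 t ht) (by
      rw [energy_const h1 ht h0, energy_eq (h1 0 h0) (h2 ▸ hsrc), h2, h3, (κ E x).right_inv hy])
    obtain ⟨η, e1, e2⟩ := glue ht ⟨by linarith, by linarith⟩ h1 d2 d1 d3 d4
    exact ⟨η, e1, (e2 h0).trans h2,
      (vel_congr (e2.eventuallyEq_of_mem (isOpen_Ioo.mem_nhds h0)) x).trans h3⟩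
  have mono : ∀ a b a' b' γ, Q a b γ → a ≤ a' → b' ≤ b → Q a' b' γ :=
    fun a b a' b' γ h ha hb => ⟨fun s hs => h.1 s (Ioo_subset_Ioo ha hb hs), h.2⟩
  obtain ⟨T, hT, r, hr, Φ, hΦ, h0, hf⟩ := exists_local_flow g x hy (R := ‖y.2‖ + 1)
    (by positivity)
  have ind : ∀ n : ℕ, ∃ γ, Q (-(T + n * (ε / 2))) (T + n * (ε / 2)) γ := by
    intro n
    induction n with
    | zero =>
      obtain ⟨a, b, c⟩ := loc_geo hΦ h0 (hf y ⟨mem_ball_self hr, by simp⟩) hT 0
      exact ⟨_, fun s hs => a s (by simpa using hs), b, c⟩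
    | succ n ih =>
      obtain ⟨γ, hγ⟩ := ih
      have hS : 0 < T + n * (ε / 2) := by positivity
      generalize hS' : T + n * (ε / 2) = S at hγ hS
      have e : T + ((n + 1 : ℕ) : ℝ) * (ε / 2) = S + ε / 2 := by rw [← hS']; push_cast; ring
      have h1 : max 0 (S - ε / 2) < S := max_lt hS (by linarith)
      have h2 := le_max_left 0 (S - ε / 2)
      have h3 := le_max_right 0 (S - ε / 2)
      generalize max 0 (S - ε / 2) = t at h1 h2 h3
      obtain ⟨η, hη⟩ := step _ _ γ ⟨by linarith, hS⟩ hγ t ⟨by linarith, h1⟩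
      have hη' := mono _ _ (-S) (S + ε / 2) η hη (min_le_left _ _)
        (le_max_of_le_right (by linarith))
      obtain ⟨ζ, hζ⟩ := step _ _ η ⟨by linarith, by linarith⟩ hη' (-t) ⟨by linarith, by linarith⟩
      rw [e]
      exact ⟨ζ, mono _ _ _ _ ζ hζ (min_le_of_right_le (by linarith)) (le_max_left _ _)⟩
  have all : ∀ S : ℝ, ∃ γ, Q (-S) S γ := by
    intro S
    obtain ⟨n, hn⟩ := exists_nat_ge (S / (ε / 2))
    rw [div_le_iff₀ (by positivity)] at hn
    obtain ⟨γ, hγ⟩ := ind n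
    exact ⟨γ, mono _ _ _ _ γ hγ (by linarith) (by linarith)⟩
  choose c hc using all
  have agree : ∀ S t, |t| < S → c (|t| + 1) t = c S t := by
    intro S t ht
    have h1 : 0 < min S (|t| + 1) := lt_min ((abs_nonneg t).trans_lt ht) (by positivity)
    have h2 : |t| < min S (|t| + 1) := lt_min ht (by linarith)
    have q1 := mono _ _ _ _ _ (hc S) (neg_le_neg (min_le_left S (|t| + 1)))
      (min_le_left S (|t| + 1))
    have q2 := mono _ _ _ _ _ (hc (|t| + 1)) (neg_le_neg (min_le_right S (|t| + 1)))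
      (min_le_right S (|t| + 1))
    exact geo_unique_on (t0 := 0) ⟨by linarith, h1⟩ q2.1 q1.1 (x := x) (by rw [q2.2.1]; exact hsrc)
      (q2.2.1.trans q1.2.1.symm) (q2.2.2.trans q1.2.2.symm) (abs_lt.1 h2)
  have ev : ∀ t, (fun s => c (|s| + 1) s) =ᶠ[𝓝 t] c (|t| + 1) := by
    intro t
    filter_upwards [continuous_abs.continuousAt.eventually_lt continuousAt_const
      (show |t| < |t| + 1 by linarith)] with s hs using agree _ s hs
  refine ⟨fun s => c (|s| + 1) s, fun _ => ⟨(isGeodesic_iff _ _).2 fun t => ?_, (hc _).2.1,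
    (vel_congr (ev 0) x).trans (hc _).2.2⟩⟩
  exact ((hc _).1 t (abs_lt.1 (by linarith))).congr (ev t)

/-- the geodesic with initial point and velocity `y` in the chart at `x` -/
noncomputable def geo (g : Met E M) (x : M) (y : E × E) : ℝ → M := (exists_geo g x y).choose

theorem geo_spec (g : Met E M) (x : M) {y : E × E} (hy : y.1 ∈ (κ E x).target) :
    IsGeodesic g (geo g x y) ∧ geo g x y 0 = (κ E x).symm y.1 ∧ vel E x (geo g x y) 0 = y.2 :=
  (exists_geo g x y).choose_spec hy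

theorem geo_smooth (g : Met E M) (x : M) {y : E × E} (hy : y.1 ∈ (κ E x).target) (t : ℝ) :
    ContMDiffAt 𝓘(ℝ, (E × E) × ℝ) 𝓘(ℝ, E) ∞ (fun z : (E × E) × ℝ => geo g x z.1 z.2) (y, t) := by
  let Γ : (E × E) × ℝ → M := fun z => geo g x z.1 z.2
  have hyt : ∀ᶠ y' in 𝓝 y, y'.1 ∈ (κ E x).target :=
    continuous_fst.continuousAt.eventually_mem ((target_open x).mem_nhds hy)
  have prop : ∀ (q : M) (t1 ε : ℝ) (Φ : ℝ × (E × E) → E × E) (W : E × E → E × E)
      (B : Set (E × E)), 0 < ε → IsOpen B → ContDiff ℝ ∞ Φ → (∀ y, Φ (0, y) = y) →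
      (∀ y ∈ B, ∀ t, |t| < ε → (Φ (t, y)).1 ∈ (κ E q).target ∧
        HasDerivAt (fun s => Φ (s, y)) ((Φ (t, y)).2, acc g q (Φ (t, y))) t) → W y ∈ B →
      (∀ᶠ y' in 𝓝 y, ContDiffAt ℝ ∞ W y' ∧ geo g x y' t1 ∈ (κ E q).source ∧
        κ E q (geo g x y' t1) = (W y').1 ∧ vel E q (geo g x y') t1 = (W y').2) →
      ∀ t ∈ Ioo (t1 - ε) (t1 + ε),
        ∀ᶠ z in 𝓝 (y, t), ContMDiffAt 𝓘(ℝ, (E × E) × ℝ) 𝓘(ℝ, E) ∞ Γ z := by
    intro q t1 ε Φ W B hε hB hΦ h0 hf hy' hW t ht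
    have e1 : ∀ᶠ z in 𝓝 (y, t), ContDiffAt ℝ ∞ W z.1 ∧ (Φ (z.2 - t1, W z.1)).1 ∈ (κ E q).target ∧
        Γ z = (κ E q).symm (Φ (z.2 - t1, W z.1)).1 := by
      filter_upwards [(continuous_fst.tendsto (y, t)).eventually (hW.and (hyt.and
        (hW.self_of_nhds.1.continuousAt.eventually_mem (hB.mem_nhds hy')))),
        continuous_snd.continuousAt.eventually_mem (x := (y, t)) (isOpen_Ioo.mem_nhds ht)]
        with z ⟨⟨a1, a2, a3, a4⟩, a5, a6⟩ b
      obtain ⟨c1, c2, c3⟩ := loc_geo hΦ h0 (hf _ a6) hε t1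
      refine ⟨a1, (hf _ a6 _ (abs_lt.2 ⟨by linarith [b.1], by linarith [b.2]⟩)).1, ?_⟩
      exact geo_unique_on (t0 := t1) ⟨by linarith, by linarith⟩
        (fun s _ => (isGeodesic_iff _ _).1 (geo_spec g x a5).1 s) c1 a2
        (by rw [c2, ← a3, (κ E q).left_inv a2]) (a4.trans c3.symm) b
    filter_upwards [e1.eventually_nhds] with z hz
    refine (contMDiffAt_symm (n := ⊤) (x := q) (c := fun z : (E × E) × ℝ =>
      (Φ (z.2 - t1, W z.1)).1) ?_ hz.self_of_nhds.2.1).congr_of_eventuallyEq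
      (hz.mono fun w hw => hw.2.2)
    exact (hΦ.contDiffAt.comp z ((contDiffAt_snd.sub contDiffAt_const).prodMk
      (hz.self_of_nhds.1.comp z contDiffAt_fst))).fst
  have key : (univ : Set ℝ) ⊆
      {t | ∀ᶠ z in 𝓝 (y, t), ContMDiffAt 𝓘(ℝ, (E × E) × ℝ) 𝓘(ℝ, E) ∞ Γ z} := by
    refine isPreconnected_univ.subset_of_closure_inter_subset
      (isOpen_setOfPred_eventually_nhds.preimage (Continuous.prodMk_right y)) ⟨0, mem_univ _, ?_⟩ ?_
    · obtain ⟨ε, hε, r, hr, Φ, hΦ, h0, hf⟩ := exists_local_flow g x hy (R := ‖y.2‖ + 1)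
        (by positivity)
      refine prop x 0 ε Φ id _ hε (isOpen_ball.prod isOpen_ball) hΦ h0 hf
        ⟨mem_ball_self hr, by simp⟩ ?_ 0 ⟨by linarith, by linarith⟩
      filter_upwards [hyt] with y' h
      obtain ⟨-, s2, s3⟩ := geo_spec g x h
      exact ⟨contDiffAt_id, s2 ▸ (κ E x).map_target h, by rw [s2, (κ E x).right_inv h]; rfl, s3⟩
    rintro t0 ⟨hc, -⟩
    have hg := (isGeodesic_iff _ _).1 (geo_spec g x hy).1 t0
    set q := geo g x y t0 with hq
    have hs : geo g x y t0 ∈ (κ E q).source := mem_extChartAt_source q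
    obtain ⟨ε, hε, r, hr, Φ, hΦ, h0, hf⟩ := exists_local_flow g q ((κ E q).map_source hs)
      (R := ‖vel E q (geo g x y) t0‖ + 1) (by positivity)
    obtain ⟨t1, a0, a1, a2, a3, a4⟩ := ((mem_closure_iff_frequently.1 hc).and_eventually
      (((cont hg).eventually_mem ((source_open q).mem_nhds hs)).and
        (((hg.hasDerivAt hs).continuousAt.eventually_mem (ball_mem_nhds _ hr)).and
          (((hg.2 q hs).continuousAt.eventually_mem (isOpen_ball.mem_nhds
            (show vel E q (geo g x y) t0 ∈ ball 0 (‖vel E q (geo g x y) t0‖ + 1) by simp))).and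
            (Ioo_mem_nhds (show t0 - ε < t0 by linarith) (show t0 < t0 + ε by linarith)))))).exists
    have a0 : ∀ᶠ z in 𝓝 (y, t1), ContMDiffAt 𝓘(ℝ, (E × E) × ℝ) 𝓘(ℝ, E) ∞ Γ z := a0
    have hW : ∀ᶠ y' in 𝓝 y, ContDiffAt ℝ ∞
        (fun y' => (κ E q (Γ (y', t1)), fderiv ℝ (κ E q ∘ Γ) (y', t1) (0, 1))) y' ∧
        geo g x y' t1 ∈ (κ E q).source ∧ κ E q (geo g x y' t1) = κ E q (Γ (y', t1)) ∧
        vel E q (geo g x y') t1 = fderiv ℝ (κ E q ∘ Γ) (y', t1) (0, 1) := by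
      filter_upwards [((Continuous.prodMk_left t1).tendsto y).eventually (a0.and
        (a0.self_of_nhds.continuousAt.eventually_mem ((source_open q).mem_nhds a1)))]
        with y' ⟨b1, b2⟩
      have b3 : ContDiffAt ℝ ∞ (κ E q ∘ Γ) (y', t1) := contDiffAt_chart (n := ⊤) b1 b2
      have b4 : ContDiffAt ℝ ∞ (fun y'' : E × E => (y'', t1)) y' :=
        contDiffAt_id.prodMk contDiffAt_const
      have b5 := ContDiffAt.comp y' (f := fun y'' : E × E => (y'', t1)) b3 b4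
      have b6 := ContDiffAt.comp y' (f := fun y'' : E × E => (y'', t1))
        (b3.fderiv_right (m := ∞) (by simp)) b4
      refine ⟨b5.prodMk (b6.clm_apply contDiffAt_const), b2, rfl, ?_⟩
      exact ((b3.differentiableAt (by simp)).hasFDerivAt.comp_hasDerivAt t1
        ((hasDerivAt_const t1 y').prodMk (hasDerivAt_id t1))).deriv
    refine prop q t1 ε Φ (fun y' => (κ E q (Γ (y', t1)), fderiv ℝ (κ E q ∘ Γ) (y', t1) (0, 1))) _ hε
      (isOpen_ball.prod isOpen_ball) hΦ h0 hf ⟨a2, ?_⟩ hW t0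
      ⟨by linarith [a4.2], by linarith [a4.1]⟩
    have e := hW.self_of_nhds.2.2.2
    rw [e] at a3
    exact a3
  exact (key (mem_univ t)).self_of_nhds

end Pool.Agent.GeoN
end

-- part Pool.Agent.P.MP_365c00_gt.BSerre
section

/-! TASK BSerre: the space of paths between two points of a closed manifold is not finitely
dominated. -/

open Set Topology Function
open Pool.Agent.URC

namespace Pool.Agent.GeoN.Ser

variable {X Y : Type} [TopologicalSpace X] [TopologicalSpace Y] {n : ℕ}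

theorem h0_ne (F : Type) [TopologicalSpace F] [Nonempty F] : ∃ α : HH (∅ : Set F) 0, α ≠ 0 := by
  obtain ⟨y⟩ := ‹Nonempty F›
  have hb : ∀ {Z : Type} [TopologicalSpace Z] (A : Set Z) (c : Ch Z 0), c ∈ ChIn A 0 := by
    intro Z _ A c
    refine mem_ChIn.2 fun σ _ => ?_
    rintro _ ⟨t, rfl⟩
    have := t.2.2
    simp at this
  refine ⟨HH.mk (Finsupp.single (ContinuousMap.const _ y) 1) (hb _ _), fun h => ?_⟩
  have h1 := congrArg (HH.map (B := ({()}ᶜ : Set Unit)) (ContinuousMap.const F ())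
    (mapsTo_empty _ _)) h
  rw [map_zero, HH.map_mk] at h1
  simp only [push_single] at h1
  have h2 := (gen_subsingleton () ((ContinuousMap.const F ()).comp (ContinuousMap.const _ y))
    (hb _ _)).1 (a₁ := 1) (a₂ := 0) (by simp only [h1, smul_zero])
  exact one_ne_zero h2

theorem contr_van (y0 : Y) (H : C(Y × unitInterval, Y)) (H0 : ∀ y, H (y, 0) = y0)
    (H1 : ∀ y, H (y, 1) = y) : Van Y 0 := by
  intro k hk α
  obtain ⟨k, rfl⟩ : ∃ m, k = m + 1 := ⟨k - 1, by omega⟩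
  have hm : MapsTo (ContinuousMap.const Unit y0) ({()}ᶜ : Set Unit) (∅ : Set Y) :=
    fun u hu => absurd (mem_singleton_iff.2 rfl) hu
  have h1 := HH.map_homotopy ((ContinuousMap.const Unit y0).comp (ContinuousMap.const Y ()))
    (ContinuousMap.id Y) H H0 H1 (A := ∅) (B := ∅) (fun x hx => hx.elim) (mapsTo_empty _ _)
    (mapsTo_empty _ _) α
  rw [HH.map_id'] at h1
  have h2 := HH.map_map (ContinuousMap.const Unit y0) (ContinuousMap.const Y ()) hm
    (mapsTo_empty _ _) α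
  rw [vanish_subsingleton () (HH.map (ContinuousMap.const Y ()) _ α), map_zero] at h2
  rw [← h1]
  exact h2.symm

theorem serre_top [T2Space X] [CompactSpace X] [PathConnectedSpace X] (hn : 0 < n)
    (hX : Charted n X) (p q : X) (hfin : FinComp (univ : Set (Om p q))) {d : ℕ}
    (hv : Van (Om p q) d) : False := by
  classical
  have : Nonempty (Om p q) := by
    obtain ⟨γ⟩ := PathConnectedSpace.joined p q
    exact ⟨⟨γ.toContinuousMap, γ.source, γ.target⟩⟩
  have hex : ∃ d, Van (Om p q) d := ⟨d, hv⟩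
  obtain ⟨m, hm, hne⟩ : ∃ m, Van (Om p q) m ∧ ∃ α : HH (∅ : Set (Om p q)) m, α ≠ 0 := by
    refine ⟨Nat.find hex, Nat.find_spec hex, ?_⟩
    have h1 := Nat.find_spec hex
    have h2 : ∀ m < Nat.find hex, ¬ Van (Om p q) m := fun m h => Nat.find_min hex h
    generalize Nat.find hex = m at h1 h2
    rcases m with _ | m
    · exact h0_ne _
    · by_contra hn
      refine h2 m (Nat.lt_succ_self m) fun k hk α => ?_
      rcases Nat.lt_or_ge (m + 1) k with h | h
      · exact h1 k h α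
      · obtain rfl : k = m + 1 := by omega
        by_contra h0
        exact hn ⟨α, h0⟩
  obtain ⟨y0, H, H0, H1⟩ := path_contr p
  have hL : ∀ x : X, ∃ j : C(E n, X), Loc (endp p) (n + m) j ∧ x ∈ range j ∧
      ∀ K : Set (E n), Convex ℝ K → FinComp (endp p ⁻¹' (j '' K)) := by
    intro x
    obtain ⟨j, hj, hx⟩ := hX x
    obtain ⟨L⟩ := path_locTriv p q hj
    exact ⟨j, L.loc hj hm, hx, fun K hK => L.finComp hj.injective hfin hK⟩
  have hne' : ∃ (x : X) (a : HH (endp p ⁻¹' {x})ᶜ (n + m)), a ≠ 0 := by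
    obtain ⟨j, hj, -⟩ := hX p
    obtain ⟨L⟩ := path_locTriv p q hj
    exact ⟨j 0, L.nonzero hj hne 0⟩
  obtain ⟨om, hom, x, hx⟩ := exists_section (endp p) hL y0 H H0 H1 hne'
  obtain ⟨α, hα⟩ := (good_of_compact (fun x => (hL x).imp fun j h => ⟨h.1, h.2.1⟩) hom
    isCompact_univ).ex
  have he : (endp p ⁻¹' (univ : Set X))ᶜ ⊆ ∅ := fun y hy => hy (mem_univ _)
  have h0 : α = 0 := by
    have h1 := contr_van y0 H H0 H1 (n + m) (by omega) (HH.res he α)
    have h2 := congrArg (HH.res (empty_subset (endp p ⁻¹' (univ : Set X))ᶜ)) h1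
    rwa [HH.res_res, HH.res_self, map_zero] at h2
  exact hx (by rw [← hα x (mem_univ x), h0, map_zero])

end Pool.Agent.GeoN.Ser
end

-- part Pool.Agent.P.MP_365c00_gt.NSpace
section

/-!
The compact space of unit speed geodesics.
-/

set_option linter.unusedSectionVars false
set_option linter.unusedVariables false

open Set Filter Topology Metric
open scoped Manifold ContDiff

namespace Pool.Agent.GeoN

variable {E : Type} [NormedAddCommGroup E] [InnerProductSpace ℝ E] [FiniteDimensional ℝ E]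
  {M : Type} [TopologicalSpace M] [ChartedSpace E M] [IsManifold 𝓘(ℝ, E) ∞ M]

/-- unit speed geodesics, with the compact-open topology -/
abbrev UG (g : Met E M) := {u : C(ℝ, M) // IsGeodesic g u ∧ UnitSpeed g u}

theorem UG.geoAt {g : Met E M} (u : UG g) (t : ℝ) : GeoAt g u.1 t :=
  (isGeodesic_iff g u.1).1 u.2.1 t

theorem UG.unit {g : Met E M} (u : UG g) (t : ℝ) {x : M} (hx : u.1 t ∈ (κ E x).source) :
    G g x (κ E x (u.1 t)) (vel E x u.1 t) (vel E x u.1 t) = 1 :=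
  (energy_eq (u.geoAt t) hx).symm.trans (u.2.2 t)

theorem UG.vel_ne {g : Met E M} (u : UG g) (t : ℝ) {x : M} (hx : u.1 t ∈ (κ E x).source) :
    vel E x u.1 t ≠ 0 := fun h => by simpa [h] using u.unit t hx

theorem energy_const {g : Met E M} {γ : ℝ → M} (h : IsGeodesic g γ) (s t : ℝ) :
    energy g γ s = energy g γ t := by
  have hd : ∀ t, HasDerivAt (energy g γ) 0 t := fun t =>
    hasDerivAt_energy (Eventually.of_forall ((isGeodesic_iff g γ).1 h))
  exact is_const_of_deriv_eq_zero (fun t => (hd t).differentiableAt) (fun t => (hd t).deriv) s t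

theorem IsGeodesic.affine {g : Met E M} {γ : ℝ → M} (h : IsGeodesic g γ) (l m : ℝ) :
    IsGeodesic g fun s => γ (l * s + m) := by
  exact (isGeodesic_iff g _).2 fun t => ((isGeodesic_iff g γ).1 h _).affine

theorem energy_affine {g : Met E M} {γ : ℝ → M} (h : IsGeodesic g γ) (l m t : ℝ) :
    energy g (fun s => γ (l * s + m)) t = l ^ 2 * energy g γ (l * t + m) := by
  have h1 := (isGeodesic_iff g γ).1 h (l * t + m)
  have hx : γ (l * t + m) ∈ (κ E (γ (l * t + m))).source := mem_extChartAt_source _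
  rw [energy_eq h1.affine hx, energy_eq h1 hx, vel_affine h1 hx]
  simp only [map_smul, smul_apply, smul_eq_mul]
  ring

/-- a nonconstant geodesic is a rescaled unit speed geodesic -/
theorem exists_unit {g : Met E M} {γ : ℝ → M} (h : IsGeodesic g γ) {s : ℝ} (hs : γ s ≠ γ 0) :
    ∃ (u : UG g) (l : ℝ), 0 < l ∧ ∀ t, γ t = u.1 (l * t) := by
  have hg := (isGeodesic_iff g γ).1 h
  have hc : Continuous γ := h.1.continuous
  have hpos : 0 < energy g γ 0 := by
    by_contra hn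
    have hv : ∀ (t : ℝ) (x : M), γ t ∈ (κ E x).source → vel E x γ t = 0 := by
      intro t x hx
      by_contra hv
      have := G_pos g x ((κ E x).map_source hx) hv
      rw [← energy_eq (hg t) hx, energy_const h t 0] at this
      exact hn this
    have hl : IsLocallyConstant γ := by
      refine (IsLocallyConstant.iff_eventually_eq γ).2 fun t => ?_
      have hO : γ ⁻¹' (κ E (γ t)).source ∈ 𝓝 t :=
        hc.continuousAt.preimage_mem_nhds (extChartAt_source_mem_nhds _)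
      obtain ⟨ε, hε, hb⟩ := Metric.mem_nhds_iff.1 hO
      filter_upwards [ball_mem_nhds t hε] with y hy
      refine (κ E (γ t)).injOn (hb hy) (hb (mem_ball_self hε)) ?_
      exact isOpen_ball.is_const_of_deriv_eq_zero (f := fun s => κ E (γ t) (γ s))
        (convex_ball t ε).isPreconnected
        (fun s hs => ((hg s).hasDerivAt (hb hs)).differentiableAt.differentiableWithinAt)
        (fun s hs => ((hg s).hasDerivAt (hb hs)).deriv.trans (hv s _ (hb hs))) hy
        (mem_ball_self hε)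
    exact hs (hl.apply_eq_of_preconnectedSpace s 0)
  have hl : 0 < √(energy g γ 0) := Real.sqrt_pos.2 hpos
  have h2 := h.affine (√(energy g γ 0))⁻¹ 0
  refine ⟨⟨⟨_, h2.1.continuous⟩, h2, fun t => ?_⟩, √(energy g γ 0), hl, fun t => ?_⟩
  · have := energy_affine h (√(energy g γ 0))⁻¹ 0 t
    rw [energy_const h (_ * t + 0) 0, inv_pow, Real.sq_sqrt hpos.le,
      inv_mul_cancel₀ hpos.ne'] at this
    exact this
  · simp only [ContinuousMap.coe_mk]
    rw [inv_mul_cancel_left₀ hl.ne', add_zero]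

theorem exists_shift {g : Met E M} (t : ℝ) (u : UG g) : ∃ v : UG g, ∀ s, v.1 s = u.1 (s + t) := by
  have h2 := u.2.1.affine 1 t
  refine ⟨⟨⟨_, h2.1.continuous⟩, h2, fun s => ?_⟩, fun s => by simp⟩
  have := energy_affine u.2.1 1 t s
  rw [one_pow, one_mul (energy _ _ _)] at this
  exact this.trans (u.2.2 _)

/-- the geodesic flow -/
noncomputable def shift {g : Met E M} (t : ℝ) (u : UG g) : UG g := (exists_shift t u).choose

theorem shift_apply {g : Met E M} (t : ℝ) (u : UG g) (s : ℝ) : (shift t u).1 s = u.1 (s + t) :=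
  (exists_shift t u).choose_spec s

theorem vel_shift {g : Met E M} (t : ℝ) (u : UG g) (x : M) (s : ℝ) :
    vel E x (shift t u).1 s = vel E x u.1 (s + t) := by
  have e : κ E x ∘ (shift t u).1 = fun s => (κ E x ∘ u.1) (s + t) :=
    funext fun s => by simp only [Function.comp_apply, shift_apply]
  unfold vel
  rw [e, deriv_comp_add_const]

theorem ev_cont (g : Met E M) : Continuous fun z : UG g × ℝ => z.1.1 z.2 := by
  exact (continuous_subtype_val.comp continuous_fst).eval continuous_snd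

theorem shift_cont (g : Met E M) : Continuous fun z : ℝ × UG g => shift z.1 z.2 := by
  refine continuous_induced_rng.2 (ContinuousMap.continuous_of_continuous_uncurry _ ?_)
  have e : (Function.uncurry fun (z : ℝ × UG g) (s : ℝ) =>
      (Subtype.val ∘ fun z : ℝ × UG g => shift z.1 z.2) z s)
      = fun q : (ℝ × UG g) × ℝ => q.1.2.1 (q.2 + q.1.1) :=
    funext fun q => shift_apply _ _ _
  rw [e]
  exact (ev_cont g).comp (f := fun q : (ℝ × UG g) × ℝ => (q.1.2, q.2 + q.1.1)) (by fun_prop)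

theorem UG.locinj {g : Met E M} (u : UG g) : ∃ ε > 0, InjOn u.1 (Ioo (-ε) ε) := by
  have hx : u.1 0 ∈ (κ E (u.1 0)).source := mem_extChartAt_source _
  set x := u.1 0 with hx0
  set V := vel E x u.1 0 with hV
  have hV0 : V ≠ 0 := u.vel_ne 0 hx
  have h1 : ∀ᶠ t in 𝓝 (0 : ℝ), u.1 t ∈ (κ E x).source :=
    u.1.continuous.continuousAt.preimage_mem_nhds (extChartAt_source_mem_nhds _)
  have h2 : ∀ᶠ t in 𝓝 (0 : ℝ), 0 < inner ℝ V (vel E x u.1 t) := by
    have hc : ContinuousAt (fun t => inner ℝ V (vel E x u.1 t)) 0 :=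
      continuousAt_const.inner ((u.geoAt 0).2 x hx).continuousAt
    exact hc.eventually (lt_mem_nhds (real_inner_self_pos.2 hV0))
  obtain ⟨ε, hε, hb⟩ := Metric.eventually_nhds_iff_ball.1 (h1.and h2)
  rw [Real.ball_eq_Ioo, zero_sub, zero_add] at hb
  have hd : ∀ t ∈ Ioo (-ε) ε, HasDerivAt (fun s => inner ℝ V (κ E x (u.1 s)))
      (inner ℝ V (vel E x u.1 t)) t := fun t ht =>
    (innerSL ℝ V).hasFDerivAt.comp_hasDerivAt t ((u.geoAt t).hasDerivAt (hb t ht).1)
  have hm : StrictMonoOn (fun s => inner ℝ V (κ E x (u.1 s))) (Ioo (-ε) ε) :=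
    strictMonoOn_of_deriv_pos (convex_Ioo _ _)
      (fun t ht => (hd t ht).continuousAt.continuousWithinAt) fun t ht => by
        rw [interior_Ioo] at ht
        rw [(hd t ht).deriv]
        exact (hb t ht).2
  exact ⟨ε, hε, fun s hs t ht e => hm.injOn hs ht (by simp only [e])⟩

variable [T2Space M]

theorem UG.dir {g : Met E M} (u u' : UG g) (T ε : ℝ) (hε : 0 < ε)
    (h : u.1 '' Icc 0 ε ⊆ u'.1 '' Icc 0 T) :
    ∃ r ∈ Icc 0 T, (∀ s, u.1 s = u'.1 (r + s)) ∨ ∀ s, u.1 s = u'.1 (r - s) := by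
  have hex : ∀ t : ℝ, ∃ r, t ∈ Icc 0 ε → r ∈ Icc 0 T ∧ u'.1 r = u.1 t := by
    intro t
    by_cases ht : t ∈ Icc 0 ε
    · obtain ⟨r, hr, e⟩ := h ⟨t, ht, rfl⟩
      exact ⟨r, fun _ => ⟨hr, e⟩⟩
    · exact ⟨0, fun h => absurd h ht⟩
  choose ρ hρ using hex
  obtain ⟨F, hF⟩ := Ultrafilter.exists_le (𝓝[>] (0 : ℝ))
  have hF0 : (F : Filter ℝ) ≤ 𝓝 0 := hF.trans nhdsWithin_le_nhds
  have hI : ∀ᶠ t in (F : Filter ℝ), t ∈ Ioc 0 ε := hF (Ioc_mem_nhdsGT hε)
  obtain ⟨r, hr, hlim⟩ := isCompact_Icc.ultrafilter_le_nhds (F.map ρ)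
    (le_principal_iff.2 (hI.mono fun t ht => (hρ t (Ioc_subset_Icc_self ht)).1))
  have hlim' : Tendsto ρ F (𝓝 r) := hlim
  have h0 : u.1 0 = u'.1 r := by
    refine tendsto_nhds_unique_of_eventuallyEq (l := (F : Filter ℝ))
      ((u.1.continuous.tendsto 0).mono_left hF0) ((u'.1.continuous.tendsto r).comp hlim') ?_
    exact hI.mono fun t ht => (hρ t (Ioc_subset_Icc_self ht)).2.symm
  obtain ⟨x, hx⟩ : ∃ x : M, u.1 0 ∈ (κ E x).source := ⟨_, mem_extChartAt_source _⟩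
  have hx' : u'.1 r ∈ (κ E x).source := h0 ▸ hx
  set V := vel E x u.1 0 with hV
  set V' := vel E x u'.1 r with hV'
  have hV0 : V' ≠ 0 := u'.vel_ne r hx'
  have hd := (u.geoAt 0).hasDerivAt hx
  have hd' := (u'.geoAt r).hasDerivAt hx'
  have hQ : Tendsto (dslope (fun s => κ E x (u.1 s)) 0) F (𝓝 V) := by
    have := (continuousAt_dslope_same.2 hd.differentiableAt).tendsto
    rw [dslope_same, hd.deriv] at this
    exact this.mono_left hF0
  have hQ' : Tendsto (fun t => dslope (fun s => κ E x (u'.1 s)) r (ρ t)) F (𝓝 V') := by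
    have := (continuousAt_dslope_same.2 hd'.differentiableAt).tendsto
    rw [dslope_same, hd'.deriv] at this
    exact this.comp hlim'
  have hrel : ∀ᶠ t in (F : Filter ℝ), dslope (fun s => κ E x (u.1 s)) 0 t
      = ((ρ t - r) / t) • dslope (fun s => κ E x (u'.1 s)) r (ρ t) := by
    refine hI.mono fun t ht => ?_
    have e1 := sub_smul_dslope (fun s => κ E x (u.1 s)) 0 t
    have e2 := sub_smul_dslope (fun s => κ E x (u'.1 s)) r (ρ t)
    simp only [(hρ t (Ioc_subset_Icc_self ht)).2, ← h0] at e2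
    rw [sub_zero] at e1
    rw [div_eq_inv_mul, mul_smul, e2, ← e1, inv_smul_smul₀ ht.1.ne']
  have hVV : inner ℝ V' V' ≠ 0 := (real_inner_self_pos.2 hV0).ne'
  have hi : Tendsto (fun t => inner ℝ V' (dslope (fun s => κ E x (u.1 s)) 0 t)) F
      (𝓝 (inner ℝ V' V)) := tendsto_const_nhds.inner hQ
  have hi' : Tendsto (fun t => inner ℝ V' (dslope (fun s => κ E x (u'.1 s)) r (ρ t))) F
      (𝓝 (inner ℝ V' V')) := tendsto_const_nhds.inner hQ'
  set l : ℝ := inner ℝ V' V / inner ℝ V' V' with hl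
  have hlam : Tendsto (fun t => (ρ t - r) / t) F (𝓝 l) := by
    refine (hi.div hi' hVV).congr' ?_
    filter_upwards [hrel, hi'.eventually_ne hVV] with t h1 h2
    simp only [Pi.div_apply]
    rw [h1, real_inner_smul_right, mul_div_cancel_right₀ _ h2]
  have hVl : V = l • V' := tendsto_nhds_unique_of_eventuallyEq hQ (hlam.smul hQ') hrel
  have hsq : l * l = 1 := by
    have h1 := u.unit 0 hx
    have h2 := u'.unit r hx'
    rw [← hV, hVl, h0] at h1
    simp only [map_smul, smul_apply, smul_eq_mul] at h1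
    rw [← hV'] at h2
    rw [h2] at h1
    linarith
  have hxl : u'.1 (l * 0 + r) ∈ (κ E x).source := by rwa [mul_zero, zero_add]
  have key := geo_unique u.2.1 (u'.2.1.affine l r) (t0 := 0) hx (by simpa using h0)
    (by rw [vel_affine (u'.geoAt _) hxl, mul_zero, zero_add]; exact hVl)
  refine ⟨r, hr, ?_⟩
  rcases mul_self_eq_one_iff.1 hsq with h1 | h1
  · exact Or.inl fun s => by rw [congrFun key s, h1, one_mul, add_comm]
  · exact Or.inr fun s => by rw [congrFun key s, h1, neg_one_mul, neg_add_eq_sub]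

variable [CompactSpace M] [Nonempty M] [Nontrivial E]

omit [Nonempty M] in
theorem SpaceX.exists_mk' (g : Met E M) (x : M) {y : E × E} (hy : y.1 ∈ (κ E x).target)
    (hV : y.2 ≠ 0) :
    ∃ u : UG g, (u.1 : ℝ → M) = geo g x (y.1, (√(G g x y.1 y.2 y.2))⁻¹ • y.2) := by
  obtain ⟨h1, h2, h3⟩ := geo_spec g x (y := (y.1, (√(G g x y.1 y.2 y.2))⁻¹ • y.2)) hy
  refine ⟨⟨⟨_, h1.1.continuous⟩, h1, fun t => ?_⟩, rfl⟩
  have hpos := G_pos g x hy hV
  have hx : geo g x (y.1, (√(G g x y.1 y.2 y.2))⁻¹ • y.2) 0 ∈ (κ E x).source := by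
    rw [h2]; exact (κ E x).map_target hy
  have h4 := energy_eq ((isGeodesic_iff g _).1 h1 0) hx
  rw [h3, h2, (κ E x).right_inv hy] at h4
  simp only [map_smul, smul_apply, smul_eq_mul] at h4
  rw [← mul_assoc, ← mul_inv, Real.mul_self_sqrt hpos.le, inv_mul_cancel₀ hpos.ne'] at h4
  exact (energy_const h1 t 0).trans h4

theorem exists_mk (g : Met E M) (x : M) (y : E × E) : ∃ u : UG g, y.1 ∈ (κ E x).target → y.2 ≠ 0 →
    (u.1 : ℝ → M) = geo g x (y.1, (√(G g x y.1 y.2 y.2))⁻¹ • y.2) := by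
  by_cases h : y.1 ∈ (κ E x).target ∧ y.2 ≠ 0
  · obtain ⟨u, hu⟩ := SpaceX.exists_mk' g x h.1 h.2
    exact ⟨u, fun _ _ => hu⟩
  · obtain ⟨V, hV⟩ := exists_ne (0 : E)
    obtain ⟨u, -⟩ := SpaceX.exists_mk' g x (y := (κ E x x, V)) (mem_extChartAt_target x) hV
    exact ⟨u, fun h1 h2 => absurd ⟨h1, h2⟩ h⟩

/-- the unit speed geodesic with initial point `y.1` and initial direction `y.2` in the chart at
`x` -/
noncomputable def mk (g : Met E M) (x : M) (y : E × E) : UG g := (exists_mk g x y).choose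

theorem mk_eq (g : Met E M) (x : M) {y : E × E} (hy : y.1 ∈ (κ E x).target) (hV : y.2 ≠ 0) :
    ((mk g x y).1 : ℝ → M) = geo g x (y.1, (√(G g x y.1 y.2 y.2))⁻¹ • y.2) :=
  (exists_mk g x y).choose_spec hy hV

theorem mk_zero (g : Met E M) (x : M) {y : E × E} (hy : y.1 ∈ (κ E x).target) (hV : y.2 ≠ 0) :
    (mk g x y).1 0 = (κ E x).symm y.1 := by
  rw [mk_eq g x hy hV]; exact (geo_spec g x (y := (y.1, (√(G g x y.1 y.2 y.2))⁻¹ • y.2)) hy).2.1

theorem vel_mk (g : Met E M) (x : M) {y : E × E} (hy : y.1 ∈ (κ E x).target) (hV : y.2 ≠ 0) :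
    vel E x (mk g x y).1 0 = (√(G g x y.1 y.2 y.2))⁻¹ • y.2 := by
  rw [mk_eq g x hy hV]; exact (geo_spec g x (y := (y.1, (√(G g x y.1 y.2 y.2))⁻¹ • y.2)) hy).2.2

theorem mk_jet {g : Met E M} (u : UG g) {x : M} (hx : u.1 0 ∈ (κ E x).source) {l : ℝ} (hl : 0 < l) :
    mk g x (κ E x (u.1 0), l • vel E x u.1 0) = u := by
  have hy : κ E x (u.1 0) ∈ (κ E x).target := (κ E x).map_source hx
  have hV : l • vel E x u.1 0 ≠ 0 := smul_ne_zero hl.ne' (u.vel_ne 0 hx)
  have h0 : (mk g x (κ E x (u.1 0), l • vel E x u.1 0)).1 0 = u.1 0 := by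
    rw [mk_zero g x hy hV]; exact (κ E x).left_inv hx
  refine Subtype.ext (DFunLike.coe_injective ?_)
  refine geo_unique (mk g x _).2.1 u.2.1 (t0 := 0) (x := x) (by rw [h0]; exact hx) h0 ?_
  rw [vel_mk g x hy hV]
  simp only [map_smul, smul_apply, smul_eq_mul]
  rw [u.unit 0 hx, mul_one, Real.sqrt_mul_self hl.le, inv_smul_smul₀ hl.ne']

theorem mk_smooth (g : Met E M) (x : M) {y : E × E} (hy : y.1 ∈ (κ E x).target) (hV : y.2 ≠ 0)
    (t : ℝ) :
    ContMDiffAt 𝓘(ℝ, (E × E) × ℝ) 𝓘(ℝ, E) ∞ (fun z : (E × E) × ℝ => (mk g x z.1).1 z.2) (y, t) := by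
  have hO : ∀ᶠ z : (E × E) × ℝ in 𝓝 (y, t), z.1.1 ∈ (κ E x).target ∧ z.1.2 ≠ 0 := by
    refine Eventually.and ?_ ?_
    · exact (continuous_fst.fst).continuousAt.preimage_mem_nhds ((target_open x).mem_nhds hy)
    · exact (continuous_fst.snd).continuousAt.eventually_ne hV
  have hG : ContDiffAt ℝ ∞ (fun z : (E × E) × ℝ => G g x z.1.1 z.1.2 z.1.2) (y, t) := by
    have h1 : ContDiffAt ℝ ∞ (fun z : (E × E) × ℝ => G g x z.1.1) (y, t) :=
      ((G_smooth g x).contDiffAt ((target_open x).mem_nhds hy)).comp (y, t) contDiffAt_fst.fst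
    exact (h1.clm_apply contDiffAt_fst.snd).clm_apply contDiffAt_fst.snd
  have hpos := G_pos g x hy hV
  have hN : ContDiffAt ℝ ∞ (fun z : (E × E) × ℝ =>
      ((z.1.1, (√(G g x z.1.1 z.1.2 z.1.2))⁻¹ • z.1.2), z.2)) (y, t) :=
    (contDiffAt_fst.fst.prodMk (((hG.sqrt hpos.ne').inv (Real.sqrt_pos.2 hpos).ne').smul
      contDiffAt_fst.snd)).prodMk contDiffAt_snd
  have h := (geo_smooth g x (y := (y.1, (√(G g x y.1 y.2 y.2))⁻¹ • y.2)) hy t).comp (y, t)
    hN.contMDiffAt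
  refine h.congr_of_eventuallyEq (hO.mono fun z hz => ?_)
  simp only [Function.comp_apply]
  rw [mk_eq g x hz.1 hz.2]

theorem mk_cont (g : Met E M) (x : M) : ContinuousOn (mk g x) ((κ E x).target ×ˢ {0}ᶜ) := by
  rw [continuousOn_iff_continuous_domRestrict]
  refine continuous_induced_rng.2 (ContinuousMap.continuous_of_continuous_uncurry _ ?_)
  refine continuous_iff_continuousAt.2 fun q => ?_
  exact ContinuousAt.comp (f := fun q : ((κ E x).target ×ˢ ({0}ᶜ : Set E) : Set (E × E)) × ℝ =>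
    ((q.1 : E × E), q.2)) (mk_smooth g x q.1.2.1 q.1.2.2 q.2).continuousAt (by fun_prop)

omit [T2Space M] [CompactSpace M] [Nonempty M] in
theorem SpaceX.compact_sphere (g : Met E M) (x : M) {K : Set E} (hK : IsCompact K)
    (hKt : K ⊆ (κ E x).target) : IsCompact {y : E × E | y.1 ∈ K ∧ G g x y.1 y.2 y.2 = 1} := by
  obtain ⟨l, hl, h⟩ := G_coercive g x hK hKt
  have hc : ContinuousOn (fun y : E × E => G g x y.1 y.2 y.2) (K ×ˢ univ) := by
    have h1 : ContinuousOn (fun y : E × E => G g x y.1) (K ×ˢ univ) :=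
      (G_smooth g x).continuousOn.comp continuousOn_fst fun y hy => hKt hy.1
    exact (h1.clm_apply continuousOn_snd).clm_apply continuousOn_snd
  have hcl := hc.preimage_isClosed_of_isClosed (hK.isClosed.prod isClosed_univ)
    (isClosed_singleton (x := (1 : ℝ)))
  refine (hK.prod (isCompact_closedBall (0 : E) (l⁻¹ + 1))).of_isClosed_subset ?_ ?_
  · convert hcl using 1
    ext y
    simp
  · intro y hy
    refine ⟨hy.1, mem_closedBall_zero_iff.2 ?_⟩
    have h1 := h y.1 hy.1 y.2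
    rw [hy.2] at h1
    have h2 : ‖y.2‖ ^ 2 ≤ l⁻¹ := by
      rw [← one_div, le_div_iff₀ hl]; linarith
    nlinarith [sq_nonneg (‖y.2‖ - 1), inv_pos.2 hl]

theorem SpaceX.vel_cont_zero (g : Met E M) (x : M) {u : UG g} (hu : u.1 0 ∈ (κ E x).source) :
    ContinuousAt (fun v : UG g => vel E x v.1 0) u := by
  obtain ⟨r, hr, hsub⟩ := nhds_basis_closedBall.mem_iff.1
    ((target_open x).mem_nhds ((κ E x).map_source hu))
  have hev : Continuous fun v : UG g => v.1 0 :=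
    (ev_cont g).comp (continuous_id.prodMk continuous_const)
  have h1 : ∀ᶠ v : UG g in 𝓝 u, v.1 0 ∈ (κ E x).source :=
    hev.continuousAt.preimage_mem_nhds ((source_open x).mem_nhds hu)
  have h2 : ∀ᶠ v : UG g in 𝓝 u, κ E x (v.1 0) ∈ closedBall (κ E x (u.1 0)) r :=
    (ContinuousAt.comp (f := fun v : UG g => v.1 0) (continuousAt_extChartAt' hu)
      hev.continuousAt).preimage_mem_nhds (closedBall_mem_nhds _ hr)
  have key : Tendsto (fun v : UG g => (κ E x (v.1 0), vel E x v.1 0)) (𝓝 u)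
      (𝓝 (κ E x (u.1 0), vel E x u.1 0)) := by
    refine (SpaceX.compact_sphere g x (isCompact_closedBall _ r)
      hsub).tendsto_nhds_of_unique_mapClusterPt ?_ fun y hy hcl => ?_
    · filter_upwards [h1, h2] with v hv1 hv2
      exact ⟨hv2, v.unit 0 hv1⟩
    · have hyt : y.1 ∈ (κ E x).target := hsub hy.1
      have hy0 : y.2 ≠ 0 := fun h0 => by
        have h3 := hy.2
        rw [h0] at h3
        simp at h3
      have hc : ContinuousAt (mk g x) y := (mk_cont g x).continuousAt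
        (((target_open x).prod isOpen_compl_singleton).mem_nhds ⟨hyt, hy0⟩)
      have h3 := hcl.continuousAt_comp hc
      have h4 : (mk g x ∘ fun v : UG g => (κ E x (v.1 0), vel E x v.1 0)) =ᶠ[𝓝 u] id :=
        h1.mono fun v hv => by simpa using mk_jet v hv one_pos
      have h5 : mk g x y = u := by
        have h6 : ClusterPt (mk g x y) (𝓝 u) := by
          have h7 : ClusterPt (mk g x y) (map _ (𝓝 u)) := h3
          rwa [map_congr h4, map_id] at h7
        exact eq_of_nhds_neBot h6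
      rw [← h5, mk_zero g x hyt hy0, vel_mk g x hyt hy0, (κ E x).right_inv hyt, hy.2]
      simp
  exact key.snd_nhds

/-- the velocity depends continuously on the geodesic and the time -/
theorem vel_cont (g : Met E M) (x : M) :
    ContinuousOn (fun z : UG g × ℝ => vel E x z.1.1 z.2) {z | z.1.1 z.2 ∈ (κ E x).source} := by
  intro z hz
  have e : (fun z : UG g × ℝ => vel E x z.1.1 z.2) = fun z => vel E x (shift z.2 z.1).1 0 :=
    funext fun z => by rw [vel_shift, zero_add]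
  rw [e]
  refine ContinuousAt.continuousWithinAt ?_
  refine ContinuousAt.comp (f := fun z : UG g × ℝ => shift z.2 z.1)
    (SpaceX.vel_cont_zero g x (by rwa [shift_apply, zero_add])) ?_
  exact ((shift_cont g).comp continuous_swap).continuousAt

instance (g : Met E M) : CompactSpace (UG g) := by
  have hex : ∀ p : M, ∃ r > 0, closedBall (κ E p p) r ⊆ (κ E p).target := fun p =>
    nhds_basis_closedBall.mem_iff.1 ((target_open p).mem_nhds (mem_extChartAt_target p))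
  choose r hr hsub using hex
  obtain ⟨t, -, ht⟩ := isCompact_univ.elim_nhds_subcover
    (fun p : M => (κ E p).source ∩ κ E p ⁻¹' closedBall (κ E p p) (r p)) fun p _ =>
      inter_mem (extChartAt_source_mem_nhds p)
        ((continuousAt_extChartAt p).preimage_mem_nhds (closedBall_mem_nhds _ (hr p)))
  refine ⟨IsCompact.of_isClosed_subset (t.isCompact_biUnion (f := fun p => mk g p ''
    {y : E × E | y.1 ∈ closedBall (κ E p p) (r p) ∧ G g p y.1 y.2 y.2 = 1}) fun p _ => ?_)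
    isClosed_univ fun u _ => ?_⟩
  · refine (SpaceX.compact_sphere g p (isCompact_closedBall _ _) (hsub p)).image_of_continuousOn
      ((mk_cont g p).mono fun y hy => ⟨hsub p hy.1, fun h0 => ?_⟩)
    have h1 := hy.2
    rw [mem_singleton_iff.1 h0] at h1
    simp at h1
  · obtain ⟨p, hp, h⟩ := mem_iUnion₂.1 (ht (mem_univ (u.1 0)))
    refine mem_iUnion₂.2 ⟨p, hp, (κ E p (u.1 0), vel E p u.1 0), ⟨h.2, u.unit 0 h.1⟩, ?_⟩
    simpa using mk_jet u h.1 one_pos

theorem fib_ne (g : Met E M) (p : M) : ∃ u : UG g, u.1 0 = p := by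
  obtain ⟨V, hV⟩ := exists_ne (0 : E)
  refine ⟨mk g p (κ E p p, V), ?_⟩
  rw [mk_zero g p (mem_extChartAt_target p) hV]
  exact extChartAt_to_inv p

theorem fib_conn (hE : 2 ≤ Module.finrank ℝ E) (g : Met E M) (p : M) :
    IsPreconnected {u : UG g | u.1 0 = p} := by
  have e : {u : UG g | u.1 0 = p} = (fun V : E => mk g p (κ E p p, V)) '' {0}ᶜ := by
    ext u
    constructor
    · intro hu
      have hu' : u.1 0 = p := hu
      have hx : u.1 0 ∈ (κ E p).source := hu' ▸ mem_extChartAt_source _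
      refine ⟨vel E p u.1 0, u.vel_ne 0 hx, ?_⟩
      have := mk_jet u hx one_pos
      rwa [one_smul, hu'] at this
    · rintro ⟨V, hV, rfl⟩
      exact (mk_zero g p (y := (κ E p p, V)) (mem_extChartAt_target p) hV).trans
        (extChartAt_to_inv p)
  rw [e]
  refine (isConnected_compl_singleton_of_one_lt_rank ?_ 0).isPreconnected.image _ ?_
  · rw [← Module.finrank_eq_rank]
    exact_mod_cast hE
  · exact (mk_cont g p).comp (by fun_prop) fun V hV => ⟨mem_extChartAt_target p, hV⟩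

end Pool.Agent.GeoN
end

-- part Pool.Agent.P.MP_365c00_gt.BVar
section

/-! TASK BVar: elementary facts on geodesics and the first variation formula. -/

set_option linter.unusedSectionVars false
set_option linter.unusedVariables false

open Set Filter Topology Metric Function
open scoped Manifold ContDiff

namespace Pool.Agent.GeoN

variable {E : Type} [NormedAddCommGroup E] [InnerProductSpace ℝ E] [FiniteDimensional ℝ E]
  {M : Type} [TopologicalSpace M] [ChartedSpace E M] [IsManifold 𝓘(ℝ, E) ∞ M]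
  [T2Space M] [CompactSpace M] [Nonempty M] [Nontrivial E]

theorem isGeodesic_const (g : Met E M) (x : M) : IsGeodesic g fun _ => x := by
  refine (isGeodesic_iff g _).2 fun t => ⟨Eventually.of_forall fun s => contMDiffAt_const,
    fun y hy => ?_⟩
  have hv : vel E y (fun _ : ℝ => x) = fun _ => 0 := funext fun s => by
    unfold vel
    exact deriv_const s (κ E y x)
  have h0 := acc_smul g y ((κ E y).map_source hy) 0 0
  rw [zero_smul, zero_pow two_ne_zero, zero_smul] at h0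
  rw [hv, h0]
  exact hasDerivAt_const t 0

theorem energy_nonneg (g : Met E M) (γ : ℝ → M) (t : ℝ) : 0 ≤ energy g γ t := by
  unfold energy
  by_cases h : mfderiv 𝓘(ℝ, ℝ) 𝓘(ℝ, E) γ t (1 : ℝ) = 0
  · rw [h, map_zero]
  · exact (g.pos _ _ h).le

theorem energy_of_const (g : Met E M) (x : M) (t : ℝ) : energy g (fun _ => x) t = 0 := by
  unfold energy
  rw [mfderiv_const, zero_apply, map_zero]

theorem IsGeodesic.cont {g : Met E M} {γ : ℝ → M} (h : IsGeodesic g γ) : Continuous γ := by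
  exact h.1.continuous

theorem geo_jet {g : Met E M} {γ : ℝ → M} (h : IsGeodesic g γ) {x : M}
    (hx : γ 0 ∈ (κ E x).source) : geo g x (κ E x (γ 0), vel E x γ 0) = γ := by
  obtain ⟨h1, h2, h3⟩ := geo_spec g x (y := (κ E x (γ 0), vel E x γ 0)) ((κ E x).map_source hx)
  rw [(κ E x).left_inv hx] at h2
  exact geo_unique h1 h (t0 := 0) (x := x) (by rwa [h2]) h2 h3

theorem energy_geo (g : Met E M) (x : M) {y : E × E} (hy : y.1 ∈ (κ E x).target) :
    energy g (geo g x y) 0 = G g x y.1 y.2 y.2 := by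
  obtain ⟨h1, h2, h3⟩ := geo_spec g x hy
  have hx : geo g x y 0 ∈ (κ E x).source := by rw [h2]; exact (κ E x).map_target hy
  rw [energy_eq ((isGeodesic_iff g _).1 h1 0) hx, h3, h2, (κ E x).right_inv hy]

theorem geo_smul (g : Met E M) (x : M) {a : E} (ha : a ∈ (κ E x).target) (l : ℝ) (V : E) (s : ℝ) :
    geo g x (a, l • V) s = geo g x (a, V) (l * s) := by
  obtain ⟨h1, h2, h3⟩ := geo_spec g x (y := (a, l • V)) ha
  obtain ⟨k1, k2, k3⟩ := geo_spec g x (y := (a, V)) ha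
  have hs : (κ E x).symm a ∈ (κ E x).source := (κ E x).map_target ha
  have e : l * 0 + 0 = (0 : ℝ) := by ring
  have := geo_unique h1 (k1.affine l 0) (t0 := 0) (x := x) (by rwa [h2])
    (by rw [h2, e, k2]) (by
      rw [h3, vel_affine ((isGeodesic_iff g _).1 k1 _) (by rwa [e, k2]), e, k3])
  rw [this]
  dsimp only
  rw [add_zero]

theorem energy_pos {g : Met E M} {γ : ℝ → M} (h : IsGeodesic g γ) {s : ℝ} (hs : γ s ≠ γ 0) :
    0 < energy g γ 0 := by
  obtain ⟨u, l, hl, hu⟩ := exists_unit h hs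
  have e : γ = fun s => u.1 (l * s + 0) := funext fun t => by rw [hu, add_zero]
  have h1 : energy g u.1 (l * 0 + 0) = 1 := u.2.2 _
  rw [e, energy_affine u.2.1, h1]
  positivity

theorem exists_unit_sqrt {g : Met E M} {γ : ℝ → M} (h : IsGeodesic g γ) (he : 0 < energy g γ 0) :
    ∃ u : UG g, ∀ t, γ t = u.1 (√(energy g γ 0) * t) := by
  have hl : 0 < √(energy g γ 0) := Real.sqrt_pos.2 he
  have h2 := h.affine (√(energy g γ 0))⁻¹ 0
  refine ⟨⟨⟨_, h2.1.continuous⟩, h2, fun t => ?_⟩, fun t => ?_⟩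
  · have := energy_affine h (√(energy g γ 0))⁻¹ 0 t
    rw [energy_const h (_ * t + 0) 0, inv_pow, Real.sq_sqrt he.le,
      inv_mul_cancel₀ he.ne'] at this
    exact this
  · simp only [ContinuousMap.coe_mk]
    rw [inv_mul_cancel_left₀ hl.ne', add_zero]

theorem exists_ne_of_energy {g : Met E M} {γ : ℝ → M} (h : IsGeodesic g γ)
    (he : 0 < energy g γ 0) {a : ℝ} (ha : 0 < a) : ∃ s ∈ Icc 0 a, γ s ≠ γ 0 := by
  obtain ⟨u, hu⟩ := exists_unit_sqrt h he
  obtain ⟨ε, hε, hi⟩ := u.locinj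
  have hl : 0 < √(energy g γ 0) := Real.sqrt_pos.2 he
  generalize √(energy g γ 0) = l at hu hl
  have h1 : 0 < min a (ε / 2 / l) := lt_min ha (by positivity)
  refine ⟨min a (ε / 2 / l), ⟨h1.le, min_le_left _ _⟩, fun e => ?_⟩
  rw [hu, hu, mul_zero] at e
  have h2 : l * min a (ε / 2 / l) ≤ ε / 2 := by
    rw [mul_comm, ← le_div_iff₀ hl]; exact min_le_right _ _
  have h3 := mul_pos hl h1
  exact h3.ne' (hi ⟨by linarith, by linarith⟩ ⟨by linarith, hε⟩ e)

theorem UG.energy_scale {g : Met E M} (u : UG g) (l m : ℝ) :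
    IsGeodesic g (fun t => u.1 (l * t + m)) ∧ energy g (fun t => u.1 (l * t + m)) 0 = l ^ 2 := by
  refine ⟨u.2.1.affine l m, ?_⟩
  have h1 : energy g u.1 (l * 0 + m) = 1 := u.2.2 _
  rw [energy_affine u.2.1, h1, mul_one]

variable {P : Type} [NormedAddCommGroup P] [NormedSpace ℝ P]

namespace VarX

theorem deriv_fderiv {c : P → E} {y : P} (hc : ContDiffAt ℝ 2 c y) {σ : ℝ → P} {v : P} {s : ℝ}
    (hσ : HasDerivAt σ v s) (h0 : σ s = y) (e : P) :
    HasDerivAt (fun r => fderiv ℝ c (σ r) e) (fderiv ℝ (fderiv ℝ c) y v e) s := by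
  subst h0
  have hD : HasFDerivAt (fderiv ℝ c) (fderiv ℝ (fderiv ℝ c) (σ s)) (σ s) :=
    ((hc.fderiv_right (m := 1) (by norm_num)).differentiableAt one_ne_zero).hasFDerivAt
  simpa using (hD.comp_hasDerivAt s hσ).clm_apply (hasDerivAt_const s e)

theorem deriv_form {c : P → E} {y : P} (hc : ContDiffAt ℝ 2 c y) {B : E → E →L[ℝ] E →L[ℝ] ℝ}
    (hB : DifferentiableAt ℝ B (c y)) {σ : ℝ → P} {v : P} {s : ℝ}
    (hσ : HasDerivAt σ v s) (h0 : σ s = y) (e e' : P) :
    HasDerivAt (fun r => B (c (σ r)) (fderiv ℝ c (σ r) e) (fderiv ℝ c (σ r) e'))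
      (fderiv ℝ B (c y) (fderiv ℝ c y v) (fderiv ℝ c y e) (fderiv ℝ c y e')
        + B (c y) (fderiv ℝ (fderiv ℝ c) y v e) (fderiv ℝ c y e')
        + B (c y) (fderiv ℝ c y e) (fderiv ℝ (fderiv ℝ c) y v e')) s := by
  have h1 := deriv_fderiv hc hσ h0 e
  have h2 := deriv_fderiv hc hσ h0 e'
  subst h0
  have h3 : HasDerivAt (fun r => c (σ r)) (fderiv ℝ c (σ s) v) s :=
    (hc.differentiableAt two_ne_zero).hasFDerivAt.comp_hasDerivAt s hσ
  exact ChartX.hasDerivAt_bil (c := fun r => c (σ r)) hB h3 h1 h2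

theorem fderiv_snd {c : P × ℝ → E} {z : P} {t : ℝ} (hc : DifferentiableAt ℝ c (z, t)) :
    fderiv ℝ c (z, t) (0, 1) = deriv (fun s => c (z, s)) t :=
  (hc.hasFDerivAt.comp_hasDerivAt t ((hasDerivAt_const t z).prodMk (hasDerivAt_id t))).deriv.symm

theorem fderiv_fst {c : P × ℝ → E} {z : P} {t : ℝ} (hc : DifferentiableAt ℝ c (z, t)) (ξ : P) :
    fderiv ℝ c (z, t) (ξ, 0) = fderiv ℝ (fun y => c (y, t)) z ξ := by
  have h := HasFDerivAt.comp z (f := fun y => (y, t)) hc.hasFDerivAt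
    ((hasFDerivAt_id z).prodMk (hasFDerivAt_const t z))
  rw [HasFDerivAt.fderiv (f := fun y => c (y, t)) h]
  simp

/-- the family of curves as a map of all the variables -/
def fam (Γ : P → ℝ → M) (y : P × ℝ) : M := Γ y.1 y.2

variable {Γ : P → ℝ → M}

theorem fam_vel {y : P × ℝ} {x : M} (h : DifferentiableAt ℝ (κ E x ∘ fam Γ) y) :
    fderiv ℝ (κ E x ∘ fam Γ) y (0, 1) = vel E x (Γ y.1) y.2 := fderiv_snd (z := y.1) (t := y.2) h

theorem fam_ev {D : Set P} (hD : IsOpen D)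
    (hZ : ∀ z ∈ D, ∀ t, ContMDiffAt 𝓘(ℝ, P × ℝ) 𝓘(ℝ, E) ∞ (fam Γ) (z, t))
    {z : P} (hz : z ∈ D) {t : ℝ} {x : M} (hx : fam Γ (z, t) ∈ (κ E x).source) :
    ∀ᶠ y in 𝓝 (z, t), y.1 ∈ D ∧ fam Γ y ∈ (κ E x).source ∧
      ContMDiffAt 𝓘(ℝ, P × ℝ) 𝓘(ℝ, E) ∞ (fam Γ) y ∧ ContDiffAt ℝ ∞ (κ E x ∘ fam Γ) y := by
  have h1 : ∀ᶠ y in 𝓝 (z, t), fam Γ y ∈ (κ E x).source :=
    (hZ z hz t).continuousAt.preimage_mem_nhds ((source_open x).mem_nhds hx)
  have h2 : ∀ᶠ y : P × ℝ in 𝓝 (z, t), y.1 ∈ D :=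
    continuousAt_fst.preimage_mem_nhds (hD.mem_nhds hz)
  filter_upwards [h1, h2] with y hy hy'
  exact ⟨hy', hy, hZ y.1 hy' y.2, contDiffAt_chart (n := ⊤) (hZ y.1 hy' y.2) hy⟩

theorem vel_sm {D : Set P} (hD : IsOpen D)
    (hs : ∀ z ∈ D, ∀ t, ContMDiffAt 𝓘(ℝ, P × ℝ) 𝓘(ℝ, E) ∞ (fam Γ) (z, t))
    {z : P} (hz : z ∈ D) {t : ℝ} {x : M} (hx : fam Γ (z, t) ∈ (κ E x).source) :
    ContDiffAt ℝ ∞ (fun y : P × ℝ => vel E x (Γ y.1) y.2) (z, t) := by
  have hev := fam_ev hD hs hz hx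
  have h1 : ContDiffAt ℝ ∞ (fun y => fderiv ℝ (κ E x ∘ fam Γ) y (0, 1)) (z, t) :=
    (hev.self_of_nhds.2.2.2.fderiv_right (m := ∞) (by exact_mod_cast le_top)).clm_apply
      contDiffAt_const
  refine h1.congr_of_eventuallyEq (hev.mono fun y hy => ?_)
  exact (fam_vel (hy.2.2.2.differentiableAt (by simp))).symm

end VarX

theorem energy_smooth {g : Met E M} {Γ : P → ℝ → M} {D : Set P} (hD : IsOpen D)
    (hg : ∀ z ∈ D, IsGeodesic g (Γ z))
    (hs : ∀ z ∈ D, ∀ t, ContMDiffAt 𝓘(ℝ, P × ℝ) 𝓘(ℝ, E) ∞ (fun y : P × ℝ => Γ y.1 y.2) (z, t))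
    {z : P} (hz : z ∈ D) : ContDiffAt ℝ ∞ (fun y => energy g (Γ y) 0) z := by
  have hx : Γ z 0 ∈ (κ E (Γ z 0)).source := mem_extChartAt_source _
  generalize hy : Γ z 0 = x at hx
  have hx : VarX.fam Γ (z, 0) ∈ (κ E x).source := hy ▸ hx
  have hev := VarX.fam_ev hD hs hz hx
  have hι : ContDiffAt ℝ ∞ (fun y : P => (y, (0 : ℝ))) z := contDiffAt_id.prodMk contDiffAt_const
  have h1 := (VarX.vel_sm hD hs hz hx).comp z hι
  have h2 := hev.self_of_nhds.2.2.2.comp z hι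
  have h3 := (ChartX.G_diff g x ((κ E x).map_source hx)).comp z h2
  refine ((h3.clm_apply h1).clm_apply h1).congr_of_eventuallyEq ?_
  filter_upwards [hι.continuousAt.eventually hev] with y hy
  exact energy_eq ((isGeodesic_iff g _).1 (hg y hy.1) 0) hy.2.1

theorem vel_smooth {g : Met E M} {Γ : P → ℝ → M} {D : Set P} (hD : IsOpen D)
    (hs : ∀ z ∈ D, ∀ t, ContMDiffAt 𝓘(ℝ, P × ℝ) 𝓘(ℝ, E) ∞ (fun y : P × ℝ => Γ y.1 y.2) (z, t))
    {z : P} (hz : z ∈ D) {t : ℝ} {x : M} (hx : Γ z t ∈ (κ E x).source) :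
    ContDiffAt ℝ ∞ (fun y : P × ℝ => vel E x (Γ y.1) y.2) (z, t) := by
  exact VarX.vel_sm hD hs hz hx

theorem VarX.hasDerivAt_var {g : Met E M} {Γ : P → ℝ → M} {D : Set P} (hD : IsOpen D)
    (hg : ∀ z ∈ D, IsGeodesic g (Γ z))
    (hZ : ∀ z ∈ D, ∀ t, ContMDiffAt 𝓘(ℝ, P × ℝ) 𝓘(ℝ, E) ∞ (fam Γ) (z, t))
    {z : P} (hz : z ∈ D) (ξ : P) (t : ℝ) :
    HasDerivAt (fun s => g.inner (fam Γ (z, s))
      (mfderiv 𝓘(ℝ, P × ℝ) 𝓘(ℝ, E) (fam Γ) (z, s) ((0, 1) : P × ℝ))
      (mfderiv 𝓘(ℝ, P × ℝ) 𝓘(ℝ, E) (fam Γ) (z, s) ((ξ, 0) : P × ℝ)))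
      (1 / 2 * fderiv ℝ (fun y => energy g (Γ y) 0) z ξ) t := by
  set x := fam Γ (z, t) with hxdef
  have hx : fam Γ (z, t) ∈ (κ E x).source := mem_extChartAt_source x
  have hev := fam_ev hD hZ hz hx
  set c := κ E x ∘ fam Γ with hcdef
  have hc : ContDiffAt ℝ 2 c (z, t) := hev.self_of_nhds.2.2.2.of_le ChartX.two_le
  have ha : c (z, t) ∈ (κ E x).target := (κ E x).map_source hx
  have hB : DifferentiableAt ℝ (G g x) (c (z, t)) :=
    (ChartX.G_diff g x ha).differentiableAt (by simp)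
  have hσ : HasDerivAt (fun s : ℝ => (z, s)) ((0, 1) : P × ℝ) t :=
    (hasDerivAt_const t z).prodMk (hasDerivAt_id t)
  have hl : HasDerivAt (fun s : ℝ => z + s • ξ) ξ 0 := by
    simpa using ((hasDerivAt_id (0 : ℝ)).smul_const ξ).const_add z
  have hσ' : HasDerivAt (fun s : ℝ => (z + s • ξ, t)) ((ξ, 0) : P × ℝ) 0 :=
    hl.prodMk (hasDerivAt_const (0 : ℝ) t)
  have h0 : z + (0 : ℝ) • ξ = z := by simp
  have h0' : (z + (0 : ℝ) • ξ, t) = (z, t) := by rw [h0]
  have hev1 := hσ.continuousAt.eventually hev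
  have hev2 : ∀ᶠ s in 𝓝 (0 : ℝ), z + s • ξ ∈ D ∧ fam Γ (z + s • ξ, t) ∈ (κ E x).source ∧
      ContMDiffAt 𝓘(ℝ, P × ℝ) 𝓘(ℝ, E) ∞ (fam Γ) (z + s • ξ, t) ∧
      ContDiffAt ℝ ∞ c (z + s • ξ, t) := by
    have := hσ'.continuousAt
    rw [ContinuousAt, h0'] at this
    exact this.eventually hev
  have hacc : fderiv ℝ (fderiv ℝ c) (z, t) (0, 1) (0, 1)
      = acc g x (c (z, t), fderiv ℝ c (z, t) (0, 1)) := by
    have h1 := deriv_fderiv hc hσ rfl (0, 1)
    have h2 := ((isGeodesic_iff g _).1 (hg z hz) t).2 x hx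
    rw [fam_vel (hc.differentiableAt two_ne_zero)]
    refine h1.unique (h2.congr_of_eventuallyEq ?_)
    filter_upwards [hev1] with s hs
    exact fam_vel (hs.2.2.2.differentiableAt (by simp))
  have hunit := deriv_form hc hB hσ' h0' (0, 1) (0, 1)
  have hE : DifferentiableAt ℝ (fun y => energy g (Γ y) 0) (z + (0 : ℝ) • ξ) := by
    rw [h0]; exact (energy_smooth hD hg hZ hz).differentiableAt (by simp)
  have hone : HasDerivAt (fun r : ℝ => G g x (c (z + r • ξ, t)) (fderiv ℝ c (z + r • ξ, t) (0, 1))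
      (fderiv ℝ c (z + r • ξ, t) (0, 1))) (fderiv ℝ (fun y => energy g (Γ y) 0) z ξ) 0 := by
    have h1 := hE.hasFDerivAt.comp_hasDerivAt (0 : ℝ) hl
    rw [h0] at h1
    refine h1.congr_of_eventuallyEq ?_
    filter_upwards [hev2] with s hs
    rw [fam_vel (hs.2.2.2.differentiableAt (by simp))]
    exact ((energy_const (hg _ hs.1) 0 t).trans
      (energy_eq ((isGeodesic_iff g _).1 (hg _ hs.1) t) hs.2.1)).symm
  have hu := hunit.unique hone
  have hmain := deriv_form hc hB hσ rfl (0, 1) (ξ, 0)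
  rw [hacc, acc_spec g x ha, (hc.isSymmSndFDerivAt (by simp)).eq (0, 1) (ξ, 0)] at hmain
  rw [G_symm g x _ (fderiv ℝ (fderiv ℝ c) (z, t) (ξ, 0) (0, 1))] at hu
  refine (hmain.congr_deriv (by linarith)).congr_of_eventuallyEq ?_
  filter_upwards [hev1] with s hs
  exact inner_eq g (hs.2.2.1.mdifferentiableAt (by simp)) hs.2.1 _ _

theorem first_variation {g : Met E M} {Γ : P → ℝ → M} {D : Set P} (hD : IsOpen D)
    (hg : ∀ z ∈ D, IsGeodesic g (Γ z))
    (hs : ∀ z ∈ D, ∀ t, ContMDiffAt 𝓘(ℝ, P × ℝ) 𝓘(ℝ, E) ∞ (fun y : P × ℝ => Γ y.1 y.2) (z, t))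
    {z : P} (hz : z ∈ D) (ξ : P) {t t' : ℝ} {x x' : M} (hx : Γ z t ∈ (κ E x).source)
    (hx' : Γ z t' ∈ (κ E x').source) :
    G g x' (κ E x' (Γ z t')) (vel E x' (Γ z) t') (fderiv ℝ (fun y => κ E x' (Γ y t')) z ξ) =
      G g x (κ E x (Γ z t)) (vel E x (Γ z) t) (fderiv ℝ (fun y => κ E x (Γ y t)) z ξ)
        + (t' - t) / 2 * fderiv ℝ (fun y => energy g (Γ y) 0) z ξ := by
  have key : ∀ (s : ℝ) (p : M), Γ z s ∈ (κ E p).source →
      g.inner (VarX.fam Γ (z, s))
        (mfderiv 𝓘(ℝ, P × ℝ) 𝓘(ℝ, E) (VarX.fam Γ) (z, s) ((0, 1) : P × ℝ))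
        (mfderiv 𝓘(ℝ, P × ℝ) 𝓘(ℝ, E) (VarX.fam Γ) (z, s) ((ξ, 0) : P × ℝ)) =
      G g p (κ E p (Γ z s)) (vel E p (Γ z) s) (fderiv ℝ (fun y => κ E p (Γ y s)) z ξ) := by
    intro s p hp
    have h1 : ContMDiffAt 𝓘(ℝ, P × ℝ) 𝓘(ℝ, E) ∞ (VarX.fam Γ) (z, s) := hs z hz s
    have h2 : DifferentiableAt ℝ (κ E p ∘ VarX.fam Γ) (z, s) :=
      (contDiffAt_chart (n := ⊤) h1 hp).differentiableAt (by simp)
    refine (inner_eq g (h1.mdifferentiableAt (by simp)) hp _ _).trans ?_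
    rw [VarX.fam_vel h2, VarX.fderiv_fst h2]
    rfl
  rw [← key t x hx, ← key t' x' hx']
  have hd := fun s => (VarX.hasDerivAt_var hD hg hs hz ξ s).sub
    ((hasDerivAt_id s).mul_const (1 / 2 * fderiv ℝ (fun y => energy g (Γ y) 0) z ξ))
  have := is_const_of_deriv_eq_zero (fun s => (hd s).differentiableAt)
    (fun s => (hd s).deriv.trans (by ring)) t t'
  simp only [Pi.sub_apply, id] at this
  linarith

/-- smoothness of an implicitly defined continuous function -/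
theorem implicit_smooth [CompleteSpace P] {Φ : P × ℝ → ℝ} {T : P → ℝ} {z : P} {k : ℝ}
    (hΦ : ContDiffAt ℝ ∞ Φ (z, T z)) (hd : fderiv ℝ Φ (z, T z) (0, 1) ≠ 0)
    (hT : ContinuousAt T z) (hk : ∀ᶠ y in 𝓝 z, Φ (y, T y) = k) : ContDiffAt ℝ ∞ T z := by
  have hn : (∞ : ℕ∞ω) ≠ 0 := by simp
  have hinv : (fderiv ℝ Φ (z, T z) ∘L ContinuousLinearMap.inr ℝ P ℝ).IsInvertible := by
    refine ⟨ContinuousLinearEquiv.unitsEquivAut ℝ (Units.mk0 _ hd), ?_⟩
    ext
    simp
  have h1 := hΦ.eventually_apply_eq_iff_implicitFunction hn hinv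
  have h2 : ContinuousAt (fun y => (y, T y)) z := continuousAt_id.prodMk hT
  refine (hΦ.contDiffAt_implicitFunction hn hinv).congr_of_eventuallyEq ?_
  filter_upwards [h2.eventually h1, hk] with y hy hy'
  exact (hy.1 (hy'.trans hk.self_of_nhds.symm)).symm

end Pool.Agent.GeoN
end

-- part Pool.Agent.P.MP_365c00_gt.BImg
section

/-! TASK BImg: two geodesic segments with the same image. -/

set_option linter.unusedSectionVars false
set_option linter.unusedVariables false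

open Set Filter Topology Metric Function
open scoped Manifold ContDiff

namespace Pool.Agent.GeoN

variable {E : Type} [NormedAddCommGroup E] [InnerProductSpace ℝ E] [FiniteDimensional ℝ E]
  {M : Type} [TopologicalSpace M] [ChartedSpace E M] [IsManifold 𝓘(ℝ, E) ∞ M]
  [T2Space M] [CompactSpace M] [Nonempty M] [Nontrivial E]

variable {g : Met E M}

theorem bimg_norev (u : UG g) (c ρ : ℝ) : ¬ ∀ s, u.1 (c + s) = u.1 (ρ - s) := by
  intro h
  obtain ⟨ε, hε, hi⟩ := (shift ((c + ρ) / 2) u).locinj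
  have h1 : (shift ((c + ρ) / 2) u).1 (ε / 2) = (shift ((c + ρ) / 2) u).1 (-(ε / 2)) := by
    rw [shift_apply, shift_apply, show ε / 2 + (c + ρ) / 2 = c + (ε / 2 + (ρ - c) / 2) by ring, h]
    congr 1
    ring
  have := hi ⟨by linarith, by linarith⟩ ⟨by linarith, by linarith⟩ h1
  linarith

theorem bimg_P (u : UG g) {a b c d : ℝ} (hcd : c < d) (h : u.1 '' Icc c d ⊆ u.1 '' Icc a b) :
    ∃ ρ ∈ Icc a b, ∀ s, u.1 (c + s) = u.1 (ρ + s) := by
  obtain ⟨r, hr, h1 | h1⟩ := (shift c u).dir (shift a u) (b - a) (d - c) (by linarith) (by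
    rintro _ ⟨t, ht, rfl⟩
    obtain ⟨t', ht', e⟩ := h ⟨t + c, ⟨by linarith [ht.1], by linarith [ht.2]⟩, rfl⟩
    exact ⟨t' - a, ⟨by linarith [ht'.1], by linarith [ht'.2]⟩, by
      rw [shift_apply, shift_apply, sub_add_cancel, e]⟩)
  · refine ⟨r + a, ⟨by linarith [hr.1], by linarith [hr.2]⟩, fun s => ?_⟩
    have := h1 s
    rw [shift_apply, shift_apply] at this
    rw [add_comm c s, this, add_right_comm]
  · refine absurd (fun s => ?_) (bimg_norev u c (r + a))
    have := h1 s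
    rw [shift_apply, shift_apply] at this
    rw [add_comm c s, this, sub_add_eq_add_sub]

theorem bimg_per {f : ℝ → M} {c ρ : ℝ} (h : ∀ s, f (c + s) = f (ρ + s)) : Periodic f (ρ - c) :=
  fun x => by
    have := h (x - c)
    rw [add_sub_cancel] at this
    rw [this]
    congr 1
    ring

theorem bimg_left (u : UG g) {a b a' b' : ℝ} (h' : a' < b') (h : u.1 '' Icc a' b' ⊆ u.1 '' Icc a b)
    (ha : a' < a) : ∃ π ∈ Ioc 0 (b - a'), Periodic u.1 π := by
  obtain ⟨ρ, hρ, e⟩ := bimg_P u h' h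
  exact ⟨ρ - a', ⟨by linarith [hρ.1], by linarith [hρ.2]⟩, bimg_per e⟩

theorem bimg_right (u : UG g) {a b a' b' : ℝ} (h' : a' < b')
    (h : u.1 '' Icc a' b' ⊆ u.1 '' Icc a b) (hb : b < b') :
    ∃ π ∈ Ioc 0 (b' - a), Periodic u.1 π := by
  obtain ⟨c, hc1, hc2⟩ := exists_between (max_lt h' hb)
  obtain ⟨ρ, hρ, e⟩ := bimg_P u hc2
    ((image_mono (Icc_subset_Icc_left ((le_max_left _ _).trans hc1.le))).trans h)
  exact ⟨c - ρ, ⟨by linarith [hρ.2, le_max_right a' b], by linarith [hρ.1]⟩,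
    bimg_per fun s => (e s).symm⟩

theorem bimg_R (u : UG g) {L a b r : ℝ} (hL : 0 < L) (hab : a < b) (hr : r ∈ Icc 0 L)
    (hr' : r ∈ Icc a b) (h : u.1 '' Icc 0 L = u.1 '' Icc a b) :
    (∃ π ∈ Ioc 0 (L + (b - a)), Periodic u.1 π) ∨ (a = 0 ∧ b = L) := by
  rcases lt_trichotomy a 0 with h1 | h1 | h1
  · obtain ⟨π, hπ, e⟩ := bimg_left u hab h.ge h1
    exact Or.inl ⟨π, ⟨hπ.1, by linarith [hπ.2, hr.1, hr'.2]⟩, e⟩
  · rcases lt_trichotomy b L with h2 | h2 | h2
    · obtain ⟨π, hπ, e⟩ := bimg_right u hL h.le h2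
      exact Or.inl ⟨π, ⟨hπ.1, by linarith [hπ.2, hr.1, hr'.2]⟩, e⟩
    · exact Or.inr ⟨h1, h2⟩
    · obtain ⟨π, hπ, e⟩ := bimg_right u hab h.ge h2
      exact Or.inl ⟨π, ⟨hπ.1, by linarith [hπ.2, hr.2, hr'.1]⟩, e⟩
  · obtain ⟨π, hπ, e⟩ := bimg_left u hL h.le h1
    exact Or.inl ⟨π, ⟨hπ.1, by linarith [hπ.2, hr.2, hr'.1]⟩, e⟩

theorem bimg_core (u u' : UG g) {L L' : ℝ} (hL : 0 < L) (hL' : 0 < L') (h0 : u.1 0 = u'.1 0)
    (him : u.1 '' Icc 0 L = u'.1 '' Icc 0 L') :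
    (∃ π ∈ Ioc 0 (L + L'), Periodic u.1 π ∧ Periodic u'.1 π) ∨
      (L = L' ∧ ((∀ s, u'.1 s = u.1 s) ∨ u.1 L = u.1 0)) := by
  obtain ⟨r, hr, h1 | h1⟩ := u'.dir u L L' hL' him.ge
  · have e : u'.1 '' Icc 0 L' = u.1 '' Icc r (r + L') := by
      rw [show (u'.1 : ℝ → M) = u.1 ∘ fun s => r + s from funext h1, image_comp,
        image_const_add_Icc, add_zero]
    rcases bimg_R u hL (by linarith) hr ⟨le_rfl, by linarith⟩ (him.trans e) with
      ⟨π, hπ, hp⟩ | ⟨h2, h3⟩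
    · exact Or.inl ⟨π, ⟨hπ.1, by linarith [hπ.2]⟩, hp, fun s => by
        rw [h1, h1, ← add_assoc, hp]⟩
    · exact Or.inr ⟨by linarith, Or.inl fun s => by rw [h1, h2, zero_add]⟩
  · have e : u'.1 '' Icc 0 L' = u.1 '' Icc (r - L') r := by
      rw [show (u'.1 : ℝ → M) = u.1 ∘ fun s => r - s from funext h1, image_comp,
        image_const_sub_Icc, sub_zero]
    rcases bimg_R u hL (by linarith) hr ⟨by linarith, le_rfl⟩ (him.trans e) with
      ⟨π, hπ, hp⟩ | ⟨h2, h3⟩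
    · exact Or.inl ⟨π, ⟨hπ.1, by linarith [hπ.2]⟩, hp, fun s => by
        rw [h1, h1, ← sub_sub, hp.sub_eq]⟩
    · exact Or.inr ⟨by linarith, Or.inr (by rw [h0, h1, sub_zero, h3])⟩

theorem bimg_scale {γ f : ℝ → M} {l : ℝ} (hl : 0 < l) (h : ∀ t, γ t = f (l * t)) :
    (∀ A, γ '' Icc 0 A = f '' Icc 0 (l * A)) ∧ ∀ π, Periodic f π → Periodic γ (π / l) := by
  refine ⟨fun A => ?_, fun π hp t => ?_⟩
  · rw [show γ = f ∘ fun s => l * s from funext h, image_comp, image_mul_left_Icc' hl, mul_zero]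
  · rw [h, h, mul_add, mul_div_cancel₀ _ hl.ne', hp]

theorem bimg_geo {γ γ' : ℝ → M} (h : IsGeodesic g γ) (h' : IsGeodesic g γ')
    (he : 0 < energy g γ 0) (he' : 0 < energy g γ' 0) {A A' : ℝ} (hA : 0 < A) (hA' : 0 < A')
    (h0 : γ 0 = γ' 0) (him : γ '' Icc 0 A = γ' '' Icc 0 A') :
    (∃ π ∈ Ioc 0 (2 * A), Periodic γ π) ∨ (∃ π ∈ Ioc 0 (2 * A'), Periodic γ' π) ∨
      (√(energy g γ 0) * A = √(energy g γ' 0) * A' ∧
        ((∀ t, γ' t = γ (√(energy g γ' 0) / √(energy g γ 0) * t)) ∨ γ A = γ 0)) := by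
  obtain ⟨u, hu⟩ := exists_unit_sqrt h he
  obtain ⟨u', hu'⟩ := exists_unit_sqrt h' he'
  have hl := Real.sqrt_pos.2 he
  have hl' := Real.sqrt_pos.2 he'
  generalize √(energy g γ 0) = l at hu hl ⊢
  generalize √(energy g γ' 0) = l' at hu' hl' ⊢
  obtain ⟨i1, p1⟩ := bimg_scale hl hu
  obtain ⟨i2, p2⟩ := bimg_scale hl' hu'
  rw [i1, i2] at him
  rw [hu, hu', mul_zero, mul_zero] at h0
  rcases bimg_core u u' (mul_pos hl hA) (mul_pos hl' hA') h0 him with
    ⟨π, hπ, q1, q2⟩ | ⟨e, h1 | h1⟩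
  · rcases le_total (l' * A') (l * A) with h2 | h2
    · exact Or.inl ⟨π / l, ⟨div_pos hπ.1 hl, (div_le_iff₀ hl).2 (by linarith [hπ.2])⟩, p1 π q1⟩
    · exact Or.inr (Or.inl ⟨π / l', ⟨div_pos hπ.1 hl', (div_le_iff₀ hl').2 (by linarith [hπ.2])⟩,
        p2 π q2⟩)
  · exact Or.inr (Or.inr ⟨e, Or.inl fun t => by
      rw [hu, hu', h1, ← mul_assoc, mul_div_cancel₀ _ hl.ne']⟩)
  · exact Or.inr (Or.inr ⟨e, Or.inr (by rw [hu, hu, mul_zero, h1])⟩)

theorem per_of_image {γ γ' : ℝ → M} (h : IsGeodesic g γ) (h' : IsGeodesic g γ')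
    (he : 0 < energy g γ 0) (he' : 0 < energy g γ' 0) {A A' : ℝ} (hA : 0 < A) (hA' : 0 < A')
    (h0 : γ 0 = γ' 0) (hne : γ A ≠ γ 0) (him : γ '' Icc 0 A = γ' '' Icc 0 A') :
    (∃ π ∈ Ioc 0 (2 * A), Periodic γ π) ∨ (∃ π ∈ Ioc 0 (2 * A'), Periodic γ' π) ∨
      ∃ l > 0, (∀ t, γ' t = γ (l * t)) ∧ l * A' = A ∧
        l * √(energy g γ 0) = √(energy g γ' 0) := by
  have hl := Real.sqrt_pos.2 he
  have hl' := Real.sqrt_pos.2 he'
  rcases bimg_geo h h' he he' hA hA' h0 him with h1 | h1 | ⟨e, h1 | h1⟩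
  · exact Or.inl h1
  · exact Or.inr (Or.inl h1)
  · refine Or.inr (Or.inr ⟨_, div_pos hl' hl, h1, ?_, div_mul_cancel₀ _ hl.ne'⟩)
    rw [div_mul_eq_mul_div, ← e, mul_div_cancel_left₀ _ hl.ne']
  · exact absurd h1 hne

theorem per_of_finite {p q : M}
    (hS : ∀ T : ℝ, ∃ γ, IsGeodesic g γ ∧ γ 0 = p ∧ γ 1 = q ∧ T < energy g γ 0)
    (h : (images g (p, q)).Finite) :
    ∃ γ, IsGeodesic g γ ∧ γ 0 = p ∧ γ 1 = q ∧ 0 < energy g γ 0 ∧ ∃ π > 0, Periodic γ π := by
  choose F h1 h2 h3 h4 using hS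
  obtain ⟨T, T0, Ts⟩ : ∃ T : ℕ → ℝ, T 0 = 0 ∧ ∀ n, T (n + 1) = energy g (F (T n)) 0 :=
    ⟨fun n => Nat.rec 0 (fun _ t => energy g (F t) 0) n, rfl, fun _ => rfl⟩
  have hm : StrictMono T := strictMono_nat_of_lt_succ fun n => (Ts n).symm ▸ h4 (T n)
  have hp : ∀ n, 0 < energy g (F (T n)) 0 := fun n => by
    rw [← Ts, ← T0]
    exact hm (Nat.succ_pos n)
  obtain ⟨n, -, m, -, hnm, e⟩ := Set.infinite_univ.exists_ne_map_eq_of_mapsTo
    (f := fun n : ℕ => F (T n) '' Icc 0 1) (t := images g (p, q)) (fun n _ => ⟨F (T n), h1 _,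
      exists_ne_of_energy (h1 _) (hp n) one_pos, h2 _, h3 _, rfl⟩) h
  rcases bimg_geo (h1 _) (h1 _) (hp n) (hp m) one_pos one_pos ((h2 _).trans (h2 _).symm) e with
    ⟨π, hπ, q⟩ | ⟨π, hπ, q⟩ | ⟨e', -⟩
  · exact ⟨_, h1 _, h2 _, h3 _, hp n, π, hπ.1, q⟩
  · exact ⟨_, h1 _, h2 _, h3 _, hp m, π, hπ.1, q⟩
  · rw [mul_one, mul_one, Real.sqrt_inj (hp n).le (hp m).le, ← Ts, ← Ts] at e'
    exact absurd (Nat.succ_injective (hm.injective e')) hnm

theorem ug_conn [ConnectedSpace M] (hE : 2 ≤ Module.finrank ℝ E) (g : Met E M) :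
    PreconnectedSpace (UG g) := by
  have hc : Continuous fun u : UG g => u.1 0 :=
    (ev_cont g).comp (continuous_id.prodMk continuous_const)
  have hq : IsQuotientMap fun u : UG g => u.1 0 :=
    hc.isClosedMap.isQuotientMap hc fun p => fib_ne g p
  refine preconnectedSpace_iff_connectedComponent.2 fun u => ?_
  rw [← hq.preimage_connectedComponent (fun p => ⟨fib_ne g p, fib_conn hE g p⟩) u,
    PreconnectedSpace.connectedComponent_eq_univ, preimage_univ]

theorem per_closed (g : Met E M) (τ : ℝ) : IsClosed {u : UG g | Periodic u.1 τ} := by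
  have e : {u : UG g | Periodic u.1 τ} = ⋂ t : ℝ, {u : UG g | u.1 (t + τ) = u.1 t} := by
    ext u
    simp only [mem_iInter]
    rfl
  rw [e]
  exact isClosed_iInter fun t => isClosed_eq
    ((ev_cont g).comp (continuous_id.prodMk continuous_const))
    ((ev_cont g).comp (continuous_id.prodMk continuous_const))

end Pool.Agent.GeoN
end

-- part Pool.Agent.P.MP_365c00_gt.BSDefs
section

/-! Definitions: short geodesics, broken geodesics, return maps. -/

set_option linter.unusedSectionVars false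
set_option linter.unusedVariables false

open Set Filter Topology Metric Function
open scoped Manifold ContDiff

namespace Pool.Agent.GeoN

variable {E : Type} [NormedAddCommGroup E] [InnerProductSpace ℝ E] [FiniteDimensional ℝ E]
  {M : Type} [TopologicalSpace M] [ChartedSpace E M] [IsManifold 𝓘(ℝ, E) ∞ M]
  [T2Space M] [CompactSpace M] [Nonempty M] [Nontrivial E]

/-- the short geodesic between two nearby points -/
structure Short (g : Met E M) where
  ε : ℝ
  ε_pos : 0 < ε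
  D : Set (M × M)
  D_open : IsOpen D
  σ : M × M → ℝ → M
  geo : ∀ z ∈ D, IsGeodesic g (σ z)
  zero : ∀ z ∈ D, σ z 0 = z.1
  one : ∀ z ∈ D, σ z 1 = z.2
  lt : ∀ z ∈ D, energy g (σ z) 0 < ε
  uniq : ∀ γ, IsGeodesic g γ → energy g γ 0 < ε → (γ 0, γ 1) ∈ D ∧ σ (γ 0, γ 1) = γ
  smooth : ∀ (x y : M) (w : E × E), w.1 ∈ (κ E x).target → w.2 ∈ (κ E y).target →
    ((κ E x).symm w.1, (κ E y).symm w.2) ∈ D → ∀ t : ℝ,
    ContMDiffAt 𝓘(ℝ, (E × E) × ℝ) 𝓘(ℝ, E) ∞
      (fun v : (E × E) × ℝ => σ ((κ E x).symm v.1.1, (κ E y).symm v.1.2) v.2) (w, t)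

variable {g : Met E M}

/-- the energy of the short geodesic -/
noncomputable def Short.S (sh : Short g) (z : M × M) : ℝ := energy g (sh.σ z) 0

/-- the corners `p, y 0, ..., y (k-1), q, q, ...` -/
def pt (p q : M) {k : ℕ} (y : Fin k → M) (i : ℕ) : M :=
  if i = 0 then p else if h : i - 1 < k then y ⟨i - 1, h⟩ else q

/-- admissible corner points -/
def Short.W (sh : Short g) (p q : M) (k : ℕ) : Set (Fin k → M) :=
  {y | ∀ i ≤ k, (pt p q y i, pt p q y (i + 1)) ∈ sh.D}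

/-- the discrete energy -/
noncomputable def Short.En (sh : Short g) (p q : M) {k : ℕ} (y : Fin k → M) : ℝ :=
  ∑ i ∈ Finset.range (k + 1), sh.S (pt p q y i, pt p q y (i + 1))

/-- the broken geodesic with the given corners, on `[0,1]` -/
noncomputable def Short.bk (sh : Short g) (p q : M) {k : ℕ} (y : Fin k → M) (t : ℝ) : M :=
  sh.σ (pt p q y (min k ⌊((k : ℝ) + 1) * t⌋₊), pt p q y (min k ⌊((k : ℝ) + 1) * t⌋₊ + 1))
    (((k : ℝ) + 1) * t - (min k ⌊((k : ℝ) + 1) * t⌋₊ : ℕ))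

/-- sampling a path at the times `(i+1)/(k+1)` -/
noncomputable def smp {p q : M} (k : ℕ) (γ : Ser.Om p q) : Fin k → M :=
  fun i => γ.1 (projIcc 0 1 zero_le_one ((((i : ℕ) : ℝ) + 1) / ((k : ℝ) + 1)))

/-- `ι` is an embedding which is `C`-Lipschitz along geodesics -/
def LipEmb (g : Met E M) {N : ℕ} (ι : M → EuclideanSpace ℝ (Fin N)) (C : ℝ) : Prop :=
  IsClosedEmbedding ι ∧ 0 < C ∧ ∀ γ, IsGeodesic g γ → ∀ s t : ℝ,
    dist (ι (γ s)) (ι (γ t)) ≤ C * √(energy g γ 0) * |s - t|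

/-- the short geodesic between two points of the chart at `x` -/
noncomputable def Short.Γ (sh : Short g) (x : M) (w : E × E) : ℝ → M :=
  sh.σ ((κ E x).symm w.1, (κ E x).symm w.2)

/-- admissible pairs of distinct points of the chart at `x` -/
def Short.V (sh : Short g) (x : M) : Set (E × E) :=
  {w | w.1 ∈ (κ E x).target ∧ w.2 ∈ (κ E x).target ∧
    ((κ E x).symm w.1, (κ E x).symm w.2) ∈ sh.D ∧ w.1 ≠ w.2}

/-- a return map near the geodesic `sh.Γ x w0` of period `τ` -/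
structure Box (sh : Short g) (x : M) (w0 : E × E) (τ : ℝ) where
  r : ℝ
  r_pos : 0 < r
  sub : ball w0 r ⊆ sh.V x
  T : E × E → ℝ
  f : E × E → E × E
  T_smooth : ContDiffOn ℝ ∞ T (ball w0 r)
  f_smooth : ContDiffOn ℝ ∞ f (ball w0 r)
  T_zero : T w0 = τ
  src0 : ∀ w ∈ ball w0 r, sh.Γ x w (T w) ∈ (κ E x).source
  src1 : ∀ w ∈ ball w0 r, sh.Γ x w (T w + 1) ∈ (κ E x).source
  f_eq : ∀ w ∈ ball w0 r, f w = (κ E x (sh.Γ x w (T w)), κ E x (sh.Γ x w (T w + 1)))
  l : E →L[ℝ] ℝ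
  lev : ∀ w ∈ ball w0 r, l (f w).1 = l w.1
  c : ℝ
  gap : ∀ w ∈ ball w0 r, ∀ s : ℝ, |s| < c → l (κ E x (sh.Γ x w s)) = l w.1 → s = 0
  θ : ℝ
  θ_pos : 0 < θ
  θ_le : θ ≤ 1 / 10
  θ_τ : 4 * θ < τ
  θ_c : θ * (τ + 4) < c
  T_near : ∀ w ∈ ball w0 r, |T w - τ| < θ
  speed : ∀ w ∈ ball w0 r, ∀ w' ∈ ball w0 r,
    |√(energy g (sh.Γ x w') 0) - √(energy g (sh.Γ x w) 0)| ≤ θ * √(energy g (sh.Γ x w) 0)

/-- the number of geometrically distinct geodesics, read in the charts at `x` and `y` -/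
noncomputable def num (g : Met E M) (x y : M) (w : E × E) : ENNReal :=
  ((images g ((κ E x).symm w.1, (κ E y).symm w.2)).encard : ENNReal)

/-- unit speed geodesics with period `τ` -/
def Per (g : Met E M) (τ : ℝ) : Set (UG g) := {u | Periodic u.1 τ}

/-- the moment condition near the diagonal -/
def Mom (g : Met E M) [MeasurableSpace (E × E)] (μ : MeasureTheory.Measure (E × E)) : Prop :=
  ∀ x : M, ∃ s : ℝ, 0 < s ∧ ∃ U ∈ 𝓝 (κ E x x), ∫⁻ w in U ×ˢ U, num g x x w ^ s ∂μ < ⊤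

end Pool.Agent.GeoN
end

-- part Pool.Agent.P.MP_365c00_gt.BConv
section

/-! TASK BConv: on a Besse manifold the number of geodesics is integrable. -/

set_option linter.unusedSectionVars false
set_option linter.unusedVariables false

open Set Filter Topology Metric Function
open scoped Manifold ContDiff

namespace Pool.Agent.GeoN

variable {E : Type} [NormedAddCommGroup E] [InnerProductSpace ℝ E] [FiniteDimensional ℝ E]
  {M : Type} [TopologicalSpace M] [ChartedSpace E M] [IsManifold 𝓘(ℝ, E) ∞ M]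
  [T2Space M] [CompactSpace M] [Nonempty M] [Nontrivial E]

open MeasureTheory

namespace ConvX

/-- a bound for all finite subsets bounds the extended cardinality -/
theorem encard_le {α : Type} {s : Set α} {c : ENNReal}
    (h : ∀ t : Finset α, (t : Set α) ⊆ s → (t.card : ENNReal) ≤ c) : (s.encard : ENNReal) ≤ c := by
  rcases s.finite_or_infinite with hs | hs
  · have h1 := h hs.toFinset (by simp)
    rw [hs.encard_eq_coe_toFinset_card]
    simpa using h1
  · have h1 : c = ⊤ := by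
      refine top_unique ?_
      rw [← ENNReal.iSup_natCast]
      refine iSup_le fun n => ?_
      obtain ⟨t, ht, hn⟩ := hs.exists_subset_card_eq n
      rw [← hn]
      exact h t ht
    rw [h1]
    exact le_top

/-- measurable partitions with small pieces -/
theorem exists_part (W : Type) [NormedAddCommGroup W] [NormedSpace ℝ W] [FiniteDimensional ℝ W]
    [MeasurableSpace W] [BorelSpace W] (n : ℕ) : ∃ D : ℕ → Set W, (∀ i, MeasurableSet (D i)) ∧
      Pairwise (Disjoint on D) ∧ (∀ x, ∃ i, x ∈ D i) ∧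
      ∀ i, ∀ x ∈ D i, ∀ y ∈ D i, dist x y < 2 * (1 / ((n : ℝ) + 1)) := by
  have hr : (0 : ℝ) < 1 / ((n : ℝ) + 1) := Nat.one_div_pos_of_nat
  let B : ℕ → Set W := fun i => ball (TopologicalSpace.denseSeq W i) (1 / ((n : ℝ) + 1))
  refine ⟨disjointed B, fun i => MeasurableSet.disjointed (fun j => measurableSet_ball) i,
    disjoint_disjointed B, fun x => ?_, fun i x hx y hy => ?_⟩
  · obtain ⟨i, hi⟩ := (TopologicalSpace.denseRange_denseSeq W).exists_dist_lt x hr
    have h1 : x ∈ ⋃ i, B i := mem_iUnion.2 ⟨i, hi⟩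
    rw [← iUnion_disjointed] at h1
    exact mem_iUnion.1 h1
  · have h1 : dist x (TopologicalSpace.denseSeq W i) < 1 / ((n : ℝ) + 1) :=
      disjointed_subset B i hx
    have h2 : dist y (TopologicalSpace.denseSeq W i) < 1 / ((n : ℝ) + 1) :=
      disjointed_subset B i hy
    linarith [dist_triangle_right x y (TopologicalSpace.denseSeq W i)]

end ConvX

theorem mult_le {W : Type} [NormedAddCommGroup W] [NormedSpace ℝ W] [FiniteDimensional ℝ W]
    [MeasurableSpace W] [BorelSpace W] (μ : Measure W) [μ.IsAddHaarMeasure] {F : W → W}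
    {O K : Set W} (hO : IsOpen O) (hF : ContDiffOn ℝ 1 F O) (hK : IsCompact K) (hKO : K ⊆ O) :
    ∃ φ : W → ENNReal, Measurable φ ∧ ∫⁻ w, φ w ∂μ < ⊤ ∧
      ∀ w, ((K ∩ F ⁻¹' {w}).encard : ENNReal) ≤ φ w := by
  classical
  have hc : ContinuousOn (fun x => |(fderiv ℝ F x).det|) K :=
    (ContinuousLinearMap.continuous_det.comp_continuousOn
      ((hF.continuousOn_fderiv_of_isOpen hO le_rfl).mono hKO)).abs
  obtain ⟨L, hL⟩ := hK.bddAbove_image hc
  have him : ∀ A : Set W, MeasurableSet A → A ⊆ K → μ (F '' A) ≤ ENNReal.ofReal L * μ A := by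
    intro A hA hAK
    refine (addHaar_image_le_lintegral_abs_det_fderiv μ (f' := fderiv ℝ F) hA fun x hx => ?_).trans ?_
    · exact ((hF.contDiffAt (hO.mem_nhds (hKO (hAK hx)))).differentiableAt
        one_ne_zero).hasFDerivAt.hasFDerivWithinAt
    · rw [← setLIntegral_const]
      exact setLIntegral_mono' hA fun x hx =>
        ENNReal.ofReal_le_ofReal (hL (mem_image_of_mem _ (hAK hx)))
  choose D hDm hDd hDc hDs using ConvX.exists_part W
  let ψ : ℕ → W → ENNReal := fun n w =>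
    ∑' i, (toMeasurable μ (F '' (K ∩ D n i))).indicator (fun _ => (1 : ENNReal)) w
  have hm1 : ∀ n i, Measurable
      ((toMeasurable μ (F '' (K ∩ D n i))).indicator (fun _ => (1 : ENNReal))) := fun n i =>
    measurable_const.indicator (measurableSet_toMeasurable _ _)
  have hm : ∀ n, Measurable (ψ n) := fun n => Measurable.tsum (hm1 n)
  have hi : ∀ n, ∫⁻ w, ψ n w ∂μ ≤ ENNReal.ofReal L * μ K := by
    intro n
    have hA : ∀ i, MeasurableSet (K ∩ D n i) := fun i => hK.measurableSet.inter (hDm n i)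
    have e : μ K = ∑' i, μ (K ∩ D n i) := by
      rw [← measure_iUnion (fun i j hij => (hDd n hij).mono inter_subset_right inter_subset_right)
        hA]
      congr 1
      ext x
      simp only [mem_iUnion, mem_inter_iff]
      exact ⟨fun hx => (hDc n x).imp fun i hi => ⟨hx, hi⟩, fun ⟨i, hi⟩ => hi.1⟩
    rw [lintegral_tsum fun i => (hm1 n i).aemeasurable, e, ← ENNReal.tsum_mul_left]
    refine ENNReal.tsum_le_tsum fun i => ?_
    rw [lintegral_indicator (measurableSet_toMeasurable _ _), setLIntegral_const, one_mul,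
      measure_toMeasurable]
    exact him _ (hA i) inter_subset_left
  refine ⟨fun w => liminf (fun n => ψ n w) atTop, Measurable.liminf hm, ?_, fun w => ?_⟩
  · refine ((lintegral_liminf_le hm).trans (liminf_le_of_frequently_le'
      (Eventually.of_forall hi).frequently)).trans_lt ?_
    exact ENNReal.mul_lt_top ENNReal.ofReal_lt_top hK.measure_lt_top
  · refine ConvX.encard_le fun t ht => le_liminf_of_le (by isBoundedDefault) ?_
    have hev : ∀ᶠ n : ℕ in atTop, ∀ x ∈ t, ∀ y ∈ t, x ≠ y →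
        2 * (1 / ((n : ℝ) + 1)) < dist x y := by
      refine (t.eventually_all).2 fun x _ => (t.eventually_all).2 fun y _ => ?_
      by_cases hxy : x = y
      · exact Eventually.of_forall fun n h => absurd hxy h
      · have h1 : Tendsto (fun n : ℕ => 2 * (1 / ((n : ℝ) + 1))) atTop (𝓝 (2 * 0)) :=
          tendsto_one_div_add_atTop_nhds_zero_nat.const_mul 2
        rw [mul_zero] at h1
        filter_upwards [h1.eventually (gt_mem_nhds (dist_pos.2 hxy))] with n hn _ using hn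
    filter_upwards [hev] with n hn
    choose ι hι using hDc n
    have hinj : InjOn ι t := by
      intro x hx y hy hxy
      by_contra hne
      have h1 := hDs n (ι x) x (hι x) y (hxy ▸ hι y)
      exact lt_asymm h1 (hn x hx y hy hne)
    refine le_trans ?_ (ENNReal.sum_le_tsum (t.image ι))
    rw [← Finset.card_image_of_injOn hinj, Finset.card_eq_sum_ones, Nat.cast_sum]
    refine Finset.sum_le_sum fun i hi => ?_
    obtain ⟨x, hx, rfl⟩ := Finset.mem_image.1 hi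
    have h1 : w ∈ toMeasurable μ (F '' (K ∩ D n (ι x))) :=
      subset_toMeasurable _ _ ⟨x, ⟨(ht hx).1, hι x⟩, (ht hx).2⟩
    rw [indicator_of_mem h1, Nat.cast_one]

variable {g : Met E M} [MeasurableSpace (E × E)] [BorelSpace (E × E)]

theorem ConvX.compact_ball (g : Met E M) (x : M) {K : Set E} (hK : IsCompact K)
    (hKt : K ⊆ (κ E x).target) (c : ℝ) :
    IsCompact {y : E × E | y.1 ∈ K ∧ G g x y.1 y.2 y.2 ≤ c} := by
  obtain ⟨l, hl, h⟩ := G_coercive g x hK hKt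
  have hc : ContinuousOn (fun y : E × E => G g x y.1 y.2 y.2) (K ×ˢ univ) := by
    have h1 : ContinuousOn (fun y : E × E => G g x y.1) (K ×ˢ univ) :=
      (G_smooth g x).continuousOn.comp continuousOn_fst fun y hy => hKt hy.1
    exact (h1.clm_apply continuousOn_snd).clm_apply continuousOn_snd
  have hcl := hc.preimage_isClosed_of_isClosed (hK.isClosed.prod isClosed_univ)
    (isClosed_Iic (a := c))
  have e : {y : E × E | y.1 ∈ K ∧ G g x y.1 y.2 y.2 ≤ c} =
      K ×ˢ univ ∩ (fun y : E × E => G g x y.1 y.2 y.2) ⁻¹' Iic c := by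
    ext y
    simp
  refine (hK.prod (isCompact_closedBall (0 : E) (c / l + 1))).of_isClosed_subset (e ▸ hcl) ?_
  intro y hy
  refine ⟨hy.1, mem_closedBall_zero_iff.2 ?_⟩
  have h1 := (h y.1 hy.1 y.2).trans hy.2
  have h2 : ‖y.2‖ ^ 2 ≤ c / l := by
    rw [le_div_iff₀ hl]; linarith
  nlinarith [sq_nonneg (‖y.2‖ - 1), sq_nonneg ‖y.2‖]

theorem conv (μ : Measure (E × E)) [μ.IsAddHaarMeasure] {τ : ℝ} (hτ : 0 < τ)
    (h : ∀ γ : ℝ → M, IsGeodesic g γ → UnitSpeed g γ → Periodic γ τ) (x y : M)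
    {K : Set (E × E)} (hK : IsCompact K) (hKt : K ⊆ (κ E x).target ×ˢ (κ E y).target) :
    ∃ φ : E × E → ENNReal, Measurable φ ∧ ∫⁻ w, φ w ∂μ < ⊤ ∧ ∀ w ∈ K, num g x y w ≤ φ w := by
  have hK1 : IsCompact (Prod.fst '' K) := hK.image continuous_fst
  have hK1t : Prod.fst '' K ⊆ (κ E x).target := by
    rintro _ ⟨w, hw, rfl⟩
    exact (hKt hw).1
  have hK2t : Prod.snd '' K ⊆ (κ E y).target := by
    rintro _ ⟨w, hw, rfl⟩
    exact (hKt hw).2
  have hC : IsCompact ((κ E y).symm '' (Prod.snd '' K)) :=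
    (hK.image continuous_snd).image_of_continuousOn
      ((continuousOn_extChartAt_symm y).mono hK2t)
  have hs : ∀ z : E × E, z.1 ∈ (κ E x).target →
      ContMDiffAt 𝓘(ℝ, E × E) 𝓘(ℝ, E) ∞ (fun z : E × E => geo g x z 1) z := by
    intro z hz
    exact (geo_smooth g x hz 1).comp z (f := fun z : E × E => (z, (1 : ℝ)))
      (ContDiffAt.contMDiffAt (by fun_prop))
  have hQ0 := ConvX.compact_ball g x hK1 hK1t (τ ^ 2)
  set Q0 := {z : E × E | z.1 ∈ Prod.fst '' K ∧ G g x z.1 z.2 z.2 ≤ τ ^ 2} with hQ0d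
  set Q := Q0 ∩ (fun z : E × E => geo g x z 1) ⁻¹' ((κ E y).symm '' (Prod.snd '' K)) with hQd
  have hQ : IsCompact Q := by
    refine hQ0.of_isClosed_subset ?_ inter_subset_left
    exact ContinuousOn.preimage_isClosed_of_isClosed
      (fun z hz => (hs z (hK1t hz.1)).continuousAt.continuousWithinAt) hQ0.isClosed hC.isClosed
  set O := (Prod.fst ⁻¹' (κ E x).target) ∩ (fun z : E × E => geo g x z 1) ⁻¹' (κ E y).source
    with hOd
  have hO : IsOpen O := by
    refine ContinuousOn.isOpen_inter_preimage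
      (fun z hz => (hs z hz).continuousAt.continuousWithinAt)
      ((target_open x).preimage continuous_fst) (source_open y)
  have hQO : Q ⊆ O := by
    rintro z ⟨hz, b, hb, e⟩
    refine ⟨hK1t hz.1, ?_⟩
    show geo g x z 1 ∈ (κ E y).source
    rw [show geo g x z 1 = (κ E y).symm b from e.symm]
    exact (κ E y).map_target (hK2t hb)
  let F : E × E → E × E := fun z => (z.1, κ E y (geo g x z 1))
  have hF : ContDiffOn ℝ 1 F O := fun z hz =>
    (contDiffAt_fst.prodMk ((contDiffAt_chart (n := ⊤) (hs z hz.1) hz.2).of_le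
      (by simp))).contDiffWithinAt
  obtain ⟨φ, hφm, hφi, hφ⟩ := mult_le μ hO hF hQ hQO
  refine ⟨fun w => φ w + φ w, hφm.add hφm, ?_, fun w hw => ?_⟩
  · rw [lintegral_add_left hφm]
    exact ENNReal.add_lt_top.2 ⟨hφi, hφi⟩
  have hsub : images g ((κ E x).symm w.1, (κ E y).symm w.2) ⊆
      (fun z => geo g x z '' Icc 0 1) '' (Q ∩ F ⁻¹' {w}) ∪
        (fun z => range (geo g x z)) '' (Q ∩ F ⁻¹' {w}) := by
    rintro S ⟨γ, hγ, ⟨s, -, hs0⟩, h0, h1, rfl⟩
    obtain ⟨u, l, hl, hu⟩ := exists_unit hγ hs0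
    have hp : Periodic u.1 τ := h _ u.2.1 u.2.2
    have hu0 : u.1 0 = (κ E x).symm w.1 := by
      have h2 := hu 0
      rw [mul_zero] at h2
      exact h2.symm.trans h0
    have hul : u.1 l = (κ E y).symm w.2 := by
      have h2 := hu 1
      rw [mul_one] at h2
      exact h2.symm.trans h1
    have key : ∀ l' : ℝ, 0 ≤ l' → l' ≤ τ → u.1 l' = u.1 l →
        ∃ z ∈ Q ∩ F ⁻¹' {w}, geo g x z = fun t => u.1 (l' * t) := by
      intro l' hl0 hlτ he
      obtain ⟨hc, hen⟩ := u.energy_scale l' 0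
      simp only [add_zero] at hc hen
      have hc0 : u.1 (l' * 0) = (κ E x).symm w.1 := by rw [mul_zero, hu0]
      have hsrc : (fun t => u.1 (l' * t)) 0 ∈ (κ E x).source := by
        show u.1 (l' * 0) ∈ _
        rw [hc0]
        exact (κ E x).map_target (hKt hw).1
      have hj := geo_jet hc hsrc
      have ha : κ E x (u.1 (l' * 0)) = w.1 := by
        rw [hc0]
        exact (κ E x).right_inv (hKt hw).1
      simp only [ha] at hj
      set V := vel E x (fun t => u.1 (l' * t)) 0 with hV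
      have h11 : geo g x (w.1, V) 1 = (κ E y).symm w.2 := by
        rw [hj]
        show u.1 (l' * 1) = _
        rw [mul_one, he, hul]
      refine ⟨(w.1, V), ⟨⟨⟨⟨w, hw, rfl⟩, ?_⟩, ?_⟩, ?_⟩, hj⟩
      · have h2 := energy_geo g x (y := (w.1, V)) (hKt hw).1
        rw [hj, hen] at h2
        rw [← h2]
        exact pow_le_pow_left₀ hl0 hlτ 2
      · exact ⟨w.2, mem_image_of_mem _ hw, h11.symm⟩
      · show (w.1, κ E y (geo g x (w.1, V) 1)) = w
        rw [h11, (κ E y).right_inv (hKt hw).2]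
    rcases le_total l τ with hlτ | hlτ
    · obtain ⟨z, hz, e⟩ := key l hl.le hlτ rfl
      refine Or.inl ⟨z, hz, ?_⟩
      show geo g x z '' Icc 0 1 = γ '' Icc 0 1
      rw [e, show γ = fun t => u.1 (l * t) from funext hu]
    · have hm := toIocMod_mem_Ioc hτ 0 l
      rw [zero_add] at hm
      obtain ⟨z, hz, e⟩ := key (toIocMod hτ 0 l) hm.1.le hm.2 (by
        rw [← self_sub_toIocDiv_zsmul]
        exact hp.sub_zsmul_eq _)
      refine Or.inr ⟨z, hz, ?_⟩
      show range (geo g x z) = γ '' Icc 0 1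
      rw [e]
      refine Subset.antisymm ?_ ?_
      · rintro _ ⟨t, rfl⟩
        have h2 : u.1 (toIocMod hτ 0 l * t) ∈ u.1 '' Ioc 0 (0 + τ) := by
          rw [hp.image_Ioc hτ 0]
          exact mem_range_self _
        obtain ⟨t', ht', e'⟩ := h2
        rw [zero_add] at ht'
        refine ⟨t' / l, ⟨div_nonneg ht'.1.le hl.le, (div_le_one hl).2 (ht'.2.trans hlτ)⟩, ?_⟩
        rw [hu, mul_div_cancel₀ _ hl.ne']
        exact e'
      · rintro _ ⟨t, -, rfl⟩
        refine ⟨l * t / toIocMod hτ 0 l, ?_⟩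
        show u.1 (toIocMod hτ 0 l * (l * t / toIocMod hτ 0 l)) = γ t
        rw [mul_div_cancel₀ _ hm.1.ne', hu]
  have h2 : (images g ((κ E x).symm w.1, (κ E y).symm w.2)).encard ≤
      (Q ∩ F ⁻¹' {w}).encard + (Q ∩ F ⁻¹' {w}).encard :=
    (encard_le_encard hsub).trans ((encard_union_le _ _).trans
      (add_le_add (encard_image_le _ _) (encard_image_le _ _)))
  have h3 := ENat.toENNReal_le.2 h2
  rw [ENat.toENNReal_add] at h3
  exact h3.trans (add_le_add (hφ w) (hφ w))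

theorem conv_null (μ : Measure (E × E)) [μ.IsAddHaarMeasure] {τ : ℝ} (hτ : 0 < τ)
    (h : ∀ γ : ℝ → M, IsGeodesic g γ → UnitSpeed g γ → Periodic γ τ) (x y : M) :
    μ (Prod.map (κ E x) (κ E y) '' ({z : M × M | (images g z).Finite}ᶜ ∩
      (κ E x).source ×ˢ (κ E y).source)) = 0 := by
  refine measure_null_of_locally_null _ ?_
  rintro w ⟨z, ⟨-, hz⟩, rfl⟩
  have ht : Prod.map (κ E x) (κ E y) z ∈ (κ E x).target ×ˢ (κ E y).target :=
    ⟨(κ E x).map_source hz.1, (κ E y).map_source hz.2⟩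
  obtain ⟨K, hK, hKi, hKt⟩ := exists_compact_subset ((target_open x).prod (target_open y)) ht
  obtain ⟨φ, hφm, hφi, hφ⟩ := conv μ hτ h x y hK hKt
  refine ⟨_, inter_mem_nhdsWithin _ (mem_interior_iff_mem_nhds.1 hKi), ?_⟩
  refine measure_mono_null ?_ (ae_iff.1 (ae_lt_top hφm hφi.ne))
  rintro w ⟨⟨z', ⟨hinf, hz'⟩, rfl⟩, hw⟩
  have h1 := hφ _ hw
  have h2 : num g x y (Prod.map (κ E x) (κ E y) z') = ⊤ := by
    show ((images g ((κ E x).symm (κ E x z'.1), (κ E y).symm (κ E y z'.2))).encard : ENNReal) = ⊤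
    rw [(κ E x).left_inv hz'.1, (κ E y).left_inv hz'.2, Set.Infinite.encard_eq hinf]
    rfl
  rw [h2] at h1
  exact not_lt.2 h1

end Pool.Agent.GeoN
end

-- part Pool.Agent.P.MP_365c00_gt.BLip
section

/-! TASK BLip: basic properties of short geodesics, a Lipschitz embedding. -/

set_option linter.unusedSectionVars false
set_option linter.unusedVariables false

open Set Filter Topology Metric Function
open scoped Manifold ContDiff

namespace Pool.Agent.GeoN

variable {E : Type} [NormedAddCommGroup E] [InnerProductSpace ℝ E] [FiniteDimensional ℝ E]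
  {M : Type} [TopologicalSpace M] [ChartedSpace E M] [IsManifold 𝓘(ℝ, E) ∞ M]
  [T2Space M] [CompactSpace M] [Nonempty M] [Nontrivial E]

variable {g : Met E M}

theorem Short.diag (sh : Short g) (x : M) : (x, x) ∈ sh.D :=
  (sh.uniq _ (isGeodesic_const g x) (by rw [energy_of_const]; exact sh.ε_pos)).1

theorem Short.const (sh : Short g) (x : M) (t : ℝ) : sh.σ (x, x) t = x :=
  congrFun (sh.uniq _ (isGeodesic_const g x) (by rw [energy_of_const]; exact sh.ε_pos)).2 t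

theorem Short.S_nonneg (sh : Short g) (z : M × M) : 0 ≤ sh.S z :=
  energy_nonneg g _ _

theorem Short.S_diag (sh : Short g) (x : M) : sh.S (x, x) = 0 := by
  have h : sh.σ (x, x) = fun _ => x := funext (sh.const x)
  unfold Short.S
  rw [h, energy_of_const]

theorem LipX.chart_cont (z : M × M) :
    ContinuousAt (fun y : M × M => (κ E z.1 y.1, κ E z.2 y.2)) z :=
  ((continuousAt_extChartAt z.1).comp continuousAt_fst).prodMk
    ((continuousAt_extChartAt z.2).comp continuousAt_snd)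

theorem LipX.chart_inv (z : M × M) :
    ∀ᶠ y in 𝓝 z, ((κ E z.1).symm (κ E z.1 y.1), (κ E z.2).symm (κ E z.2 y.2)) = y := by
  filter_upwards [continuousAt_fst.preimage_mem_nhds (extChartAt_source_mem_nhds (I := 𝓘(ℝ, E)) z.1),
    continuousAt_snd.preimage_mem_nhds (extChartAt_source_mem_nhds (I := 𝓘(ℝ, E)) z.2)] with y h1 h2
  rw [(κ E z.1).left_inv h1, (κ E z.2).left_inv h2]

theorem Short.cont (sh : Short g) :
    ContinuousOn (fun y : (M × M) × ℝ => sh.σ y.1 y.2) (sh.D ×ˢ univ) := by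
  rintro ⟨z, t⟩ ⟨hz, -⟩
  refine ContinuousAt.continuousWithinAt ?_
  have h0 := (LipX.chart_inv (E := E) z).self_of_nhds
  have h1 := (sh.smooth z.1 z.2 (κ E z.1 z.1, κ E z.2 z.2) (mem_extChartAt_target z.1)
    (mem_extChartAt_target z.2) (by rw [h0]; exact hz) t).continuousAt
  have h2 : ContinuousAt (fun y : (M × M) × ℝ => ((κ E z.1 y.1.1, κ E z.2 y.1.2), y.2)) (z, t) :=
    (ContinuousAt.comp (f := fun y : (M × M) × ℝ => y.1) (x := (z, t))
      (g := fun y : M × M => (κ E z.1 y.1, κ E z.2 y.2))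
      (LipX.chart_cont (E := E) z) continuousAt_fst).prodMk continuousAt_snd
  refine (ContinuousAt.comp
    (f := fun y : (M × M) × ℝ => ((κ E z.1 y.1.1, κ E z.2 y.1.2), y.2)) h1 h2).congr ?_
  filter_upwards [(continuousAt_fst (p := (z, t))).tendsto.eventually (LipX.chart_inv (E := E) z)]
    with y hy
  simp only [Function.comp_apply]
  rw [hy]

theorem Short.S_cont (sh : Short g) : ContinuousOn sh.S sh.D := by
  intro z hz
  refine ContinuousAt.continuousWithinAt ?_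
  have h0 := (LipX.chart_inv (E := E) z).self_of_nhds
  have hc : ContinuousOn (fun w : E × E => ((κ E z.1).symm w.1, (κ E z.2).symm w.2))
      ((κ E z.1).target ×ˢ (κ E z.2).target) :=
    ((continuousOn_extChartAt_symm z.1).comp continuousOn_fst fun w hw => hw.1).prodMk
      ((continuousOn_extChartAt_symm z.2).comp continuousOn_snd fun w hw => hw.2)
  have hO := hc.isOpen_inter_preimage ((target_open z.1).prod (target_open z.2)) sh.D_open
  have h1 := (energy_smooth (g := g)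
    (Γ := fun w : E × E => sh.σ ((κ E z.1).symm w.1, (κ E z.2).symm w.2)) hO
    (fun w hw => sh.geo _ hw.2) (fun w hw t => sh.smooth z.1 z.2 w hw.1.1 hw.1.2 hw.2 t)
    (z := (κ E z.1 z.1, κ E z.2 z.2))
    ⟨⟨mem_extChartAt_target z.1, mem_extChartAt_target z.2⟩,
      by rw [mem_preimage, h0]; exact hz⟩).continuousAt
  refine (ContinuousAt.comp (f := fun y : M × M => (κ E z.1 y.1, κ E z.2 y.2)) h1
    (LipX.chart_cont (E := E) z)).congr ?_
  filter_upwards [LipX.chart_inv (E := E) z] with y hy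
  simp only [Function.comp_apply]
  rw [hy]
  rfl

theorem Short.compact_le (sh : Short g) {c : ℝ} (hc : c < sh.ε) :
    IsCompact {z | z ∈ sh.D ∧ sh.S z ≤ c} := by
  rcases lt_or_ge c 0 with h0 | h0
  · have e : {z | z ∈ sh.D ∧ sh.S z ≤ c} = ∅ :=
      eq_empty_of_forall_notMem fun z hz => by linarith [hz.2, sh.S_nonneg z]
    rw [e]
    exact isCompact_empty
  have e : {z | z ∈ sh.D ∧ sh.S z ≤ c} =
      (fun y : UG g × ℝ => (y.1.1 0, y.1.1 y.2)) '' (univ ×ˢ Icc 0 √c) := by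
    ext z
    constructor
    · rintro ⟨hz, h1⟩
      by_cases he : 0 < energy g (sh.σ z) 0
      · obtain ⟨u, hu⟩ := exists_unit_sqrt (sh.geo z hz) he
        refine ⟨(u, √(energy g (sh.σ z) 0)),
          ⟨mem_univ _, Real.sqrt_nonneg _, Real.sqrt_le_sqrt h1⟩, Prod.ext ?_ ?_⟩
        · rw [← sh.zero z hz, hu, mul_zero]
        · rw [← sh.one z hz, hu, mul_one]
      · obtain ⟨u, hu⟩ := fib_ne g z.1
        have h2 : sh.σ z 1 = sh.σ z 0 := by
          by_contra h2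
          exact he (energy_pos (sh.geo z hz) h2)
        rw [sh.zero z hz, sh.one z hz] at h2
        exact ⟨(u, 0), ⟨mem_univ _, le_rfl, Real.sqrt_nonneg _⟩, Prod.ext hu (hu.trans h2.symm)⟩
    · rintro ⟨⟨u, l⟩, ⟨-, h1, h2⟩, rfl⟩
      obtain ⟨h3, h4⟩ := u.energy_scale l 0
      have h5 : l ^ 2 ≤ c := (Real.le_sqrt h1 h0).1 h2
      obtain ⟨h6, h7⟩ := sh.uniq _ h3 (by rw [h4]; linarith)
      simp only [mul_zero, mul_one, add_zero] at h4 h6 h7
      refine ⟨h6, ?_⟩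
      unfold Short.S
      rw [h7, h4]
      exact h5
  rw [e]
  exact (isCompact_univ.prod isCompact_Icc).image
    (((ev_cont g).comp (continuous_fst.prodMk continuous_const)).prodMk (ev_cont g))

theorem LipX.smooth {N : ℕ} {ι : M → EuclideanSpace ℝ (Fin N)}
    (hι : ContMDiff 𝓘(ℝ, E) 𝓘(ℝ, EuclideanSpace ℝ (Fin N)) ∞ ι) {x : M} {a : E}
    (ha : a ∈ (κ E x).target) : ContDiffAt ℝ ∞ (ι ∘ (κ E x).symm) a :=
  (hι.contMDiffAt.comp a (ChartX.symm_smooth ha)).contDiffAt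

theorem LipX.hasDerivAt {N : ℕ} {ι : M → EuclideanSpace ℝ (Fin N)}
    (hι : ContMDiff 𝓘(ℝ, E) 𝓘(ℝ, EuclideanSpace ℝ (Fin N)) ∞ ι) (u : UG g) (t : ℝ) {x : M}
    (hx : u.1 t ∈ (κ E x).source) : HasDerivAt (fun s => ι (u.1 s))
      (fderiv ℝ (ι ∘ (κ E x).symm) (κ E x (u.1 t)) (vel E x u.1 t)) t := by
  have h1 := ((LipX.smooth hι ((κ E x).map_source hx)).differentiableAt
    (by simp)).hasFDerivAt.comp_hasDerivAt t ((u.geoAt t).hasDerivAt hx)
  refine h1.congr_of_eventuallyEq ?_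
  filter_upwards [u.1.continuous.continuousAt.preimage_mem_nhds ((source_open x).mem_nhds hx)]
    with s hs
  simp only [Function.comp_apply, (κ E x).left_inv hs]

theorem LipX.deriv_cont {N : ℕ} {ι : M → EuclideanSpace ℝ (Fin N)}
    (hι : ContMDiff 𝓘(ℝ, E) 𝓘(ℝ, EuclideanSpace ℝ (Fin N)) ∞ ι) :
    Continuous fun u : UG g => deriv (fun s => ι (u.1 s)) 0 := by
  refine continuous_iff_continuousAt.2 fun u => ?_
  obtain ⟨x, hx⟩ : ∃ x : M, u.1 0 ∈ (κ E x).source := ⟨_, mem_extChartAt_source _⟩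
  have hev : Continuous fun v : UG g => v.1 0 :=
    (ev_cont g).comp (continuous_id.prodMk continuous_const)
  have h1 : ContinuousAt (fun v : UG g => κ E x (v.1 0)) u :=
    ContinuousAt.comp (f := fun v : UG g => v.1 0) (continuousAt_extChartAt' hx) hev.continuousAt
  have h2 : ContinuousAt (fderiv ℝ (ι ∘ (κ E x).symm)) (κ E x (u.1 0)) :=
    ((LipX.smooth hι ((κ E x).map_source hx)).fderiv_right (m := 0) (by simp)).continuousAt
  have h3 := (ContinuousAt.comp (f := fun v : UG g => κ E x (v.1 0)) h2 h1).clm_apply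
    (SpaceX.vel_cont_zero g x hx)
  refine h3.congr ?_
  filter_upwards [hev.continuousAt.preimage_mem_nhds ((source_open x).mem_nhds hx)] with v hv
  exact (LipX.hasDerivAt hι v 0 hv).deriv.symm

theorem exists_lipEmb (g : Met E M) :
    ∃ (N : ℕ) (ι : M → EuclideanSpace ℝ (Fin N)) (C : ℝ), LipEmb g ι C := by
  obtain ⟨N, ι, h1, h2, -⟩ := exists_embedding_euclidean_of_compact (I := 𝓘(ℝ, E)) (M := M)
  obtain ⟨C, hC⟩ := isCompact_univ.exists_bound_of_continuousOn
    (LipX.deriv_cont (g := g) h1).continuousOn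
  have h3 : ∀ (u : UG g) (s t : ℝ), dist (ι (u.1 s)) (ι (u.1 t)) ≤ (|C| + 1) * |s - t| := by
    intro u s t
    rw [dist_eq_norm, ← Real.norm_eq_abs (s - t)]
    refine Convex.norm_image_sub_le_of_norm_deriv_le (f := fun s => ι (u.1 s)) (s := univ)
      (fun r _ => (LipX.hasDerivAt h1 u r (mem_extChartAt_source _)).differentiableAt)
      (fun r _ => ?_) convex_univ (mem_univ t) (mem_univ s)
    have h4 := hC (shift r u) (mem_univ _)
    simp only [shift_apply] at h4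
    rw [deriv_comp_add_const (fun s => ι (u.1 s)), zero_add] at h4
    linarith [le_abs_self C]
  refine ⟨N, ι, |C| + 1, h2, by positivity, fun γ hγ s t => ?_⟩
  by_cases he : 0 < energy g γ 0
  · obtain ⟨u, hu⟩ := exists_unit_sqrt hγ he
    rw [hu s, hu t]
    refine (h3 u _ _).trans (le_of_eq ?_)
    rw [← mul_sub, abs_mul, abs_of_nonneg (Real.sqrt_nonneg _), mul_assoc]
  · have h4 : ∀ r, γ r = γ 0 := fun r => by
      by_contra h4
      exact he (energy_pos hγ h4)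
    rw [h4 s, h4 t, dist_self]
    positivity

theorem Short.near (sh : Short g) {N : ℕ} {ι : M → EuclideanSpace ℝ (Fin N)}
    (hι : IsClosedEmbedding ι) {δ : ℝ} (hδ : 0 < δ) :
    ∃ ρ > 0, ∀ x y : M, dist (ι x) (ι y) < ρ → (x, y) ∈ sh.D ∧ sh.S (x, y) < δ := by
  have hO : IsOpen (sh.D ∩ sh.S ⁻¹' Iio δ) := sh.S_cont.isOpen_inter_preimage sh.D_open isOpen_Iio
  have hc : Continuous fun z : M × M => dist (ι z.1) (ι z.2) :=
    (hι.continuous.comp continuous_fst).dist (hι.continuous.comp continuous_snd)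
  obtain ⟨ρ, h1, h2⟩ := hO.isClosed_compl.isCompact.exists_forall_le' hc.continuousOn (a := 0)
    fun z hz => dist_pos.2 fun h => hz (by
      obtain ⟨x, y⟩ := z
      obtain rfl : x = y := hι.injective h
      exact ⟨sh.diag x, by rw [mem_preimage, sh.S_diag]; exact hδ⟩)
  refine ⟨ρ, h1, fun x y h => ?_⟩
  by_contra h3
  exact absurd (h2 (x, y) h3) (not_le.2 h)

theorem Short.homotopic (sh : Short g) {p q : M} {Z : Type} [TopologicalSpace Z]
    (f f' : C(Z, Ser.Om p q)) (h : ∀ z t, ((f z).1 t, (f' z).1 t) ∈ sh.D) : f.Homotopic f' := by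
  have ev : ∀ φ : C(Z, Ser.Om p q),
      Continuous fun y : (unitInterval × Z) × unitInterval => (φ y.1.2).1 y.2 := fun φ =>
    (continuous_subtype_val.comp (φ.continuous.comp continuous_fst.snd)).eval continuous_snd
  let Φ : C((unitInterval × Z) × unitInterval, M) :=
    ⟨fun y => sh.σ ((f y.1.2).1 y.2, (f' y.1.2).1 y.2) y.1.1,
      sh.cont.comp_continuous (f := fun y : (unitInterval × Z) × unitInterval =>
        (((f y.1.2).1 y.2, (f' y.1.2).1 y.2), (y.1.1 : ℝ)))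
        (((ev f).prodMk (ev f')).prodMk (continuous_subtype_val.comp continuous_fst.fst))
        fun y => ⟨h _ _, mem_univ _⟩⟩
  have e0 : ∀ y, Φ.curry y 0 = p ∧ Φ.curry y 1 = q := fun y => by
    constructor
    · show sh.σ ((f y.2).1 0, (f' y.2).1 0) y.1 = p
      rw [(f y.2).2.1, (f' y.2).2.1, sh.const]
    · show sh.σ ((f y.2).1 1, (f' y.2).1 1) y.1 = q
      rw [(f y.2).2.2, (f' y.2).2.2, sh.const]
  refine ⟨⟨⟨fun y => ⟨Φ.curry y, e0 y⟩, Φ.curry.continuous.subtype_mk _⟩, fun z => ?_, fun z => ?_⟩⟩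
  · exact Subtype.ext (ContinuousMap.ext fun t => sh.zero _ (h z t))
  · exact Subtype.ext (ContinuousMap.ext fun t => sh.one _ (h z t))

end Pool.Agent.GeoN
end

-- part Pool.Agent.P.MP_365c00_gt.BShort
section

/-! TASK BShort: existence of short geodesics. -/

set_option linter.unusedSectionVars false
set_option linter.unusedVariables false

open Set Filter Topology Metric Function
open scoped Manifold ContDiff

namespace Pool.Agent.GeoN

variable {E : Type} [NormedAddCommGroup E] [InnerProductSpace ℝ E] [FiniteDimensional ℝ E]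
  {M : Type} [TopologicalSpace M] [ChartedSpace E M] [IsManifold 𝓘(ℝ, E) ∞ M]
  [T2Space M] [CompactSpace M] [Nonempty M] [Nontrivial E]

theorem bsh_smooth (g : Met E M) (x : M) {y : E × E} (hy : y.1 ∈ (κ E x).target)
    (h1 : geo g x y 1 ∈ (κ E x).source) :
    ContDiffAt ℝ ∞ (fun y : E × E => κ E x (geo g x y 1)) y := by
  have hin : ContDiff ℝ ∞ fun y : E × E => ((y, 1) : (E × E) × ℝ) := by fun_prop
  exact ContDiffAt.comp (f := fun y : E × E => ((y, 1) : (E × E) × ℝ)) y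
    (contDiffAt_chart (n := ⊤) (x := x) (geo_smooth g x hy 1) h1) hin.contDiffAt

theorem bsh_zero (g : Met E M) (x : M) {a : E} (ha : a ∈ (κ E x).target) :
    geo g x (a, 0) 1 = (κ E x).symm a := by
  have := geo_smul g x ha 0 0 1
  rw [zero_smul, zero_mul] at this
  rw [this]
  exact (geo_spec g x (y := (a, 0)) ha).2.1

theorem bsh_deriv (g : Met E M) (x : M) {a : E} (ha : a ∈ (κ E x).target) (V : E) :
    fderiv ℝ (fun y : E × E => κ E x (geo g x y 1)) (a, 0) (0, V) = V := by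
  have hs : (κ E x).symm a ∈ (κ E x).source := (κ E x).map_target ha
  have hc := bsh_smooth g x (y := (a, 0)) ha (by rwa [bsh_zero g x ha])
  have h1 := (hc.differentiableAt (by simp)).hasFDerivAt
  obtain ⟨k1, k2, k3⟩ := geo_spec g x (y := (a, V)) ha
  have h2 := ((isGeodesic_iff g _).1 k1 0).hasDerivAt (x := x) (by rwa [k2])
  rw [k3] at h2
  have h3 : HasDerivAt (fun t : ℝ => ((a, t • V) : E × E)) (0, V) 0 := by
    refine (hasDerivAt_const (0 : ℝ) a).prodMk ?_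
    simpa using (hasDerivAt_id (0 : ℝ)).smul_const V
  have h4 := h1.comp_hasDerivAt_of_eq 0 h3 (by simp)
  have e : ((fun y : E × E => κ E x (geo g x y 1)) ∘ fun t : ℝ => ((a, t • V) : E × E)) =
      fun t => κ E x (geo g x (a, V) t) := by
    funext t
    rw [Function.comp_apply, geo_smul g x ha, mul_one]
  rw [e] at h4
  exact h4.unique h2

/-- the local inverse of the end point map -/
theorem bsh_local (g : Met E M) (x : M) : ∃ (r ε : ℝ) (O : Set (E × E)) (Ψ : E × E → E × E),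
    0 < r ∧ 0 < ε ∧ IsOpen O ∧
    (∀ a ∈ ball (κ E x x) r, ∀ V, G g x a V V < ε → (a, V) ∈ O) ∧
    ∀ y ∈ O, y.1 ∈ (κ E x).target ∧ geo g x y 1 ∈ (κ E x).source ∧
      Ψ (y.1, κ E x (geo g x y 1)) = y ∧ ContDiffAt ℝ ∞ Ψ (y.1, κ E x (geo g x y 1)) ∧
      ∀ᶠ w in 𝓝 (y.1, κ E x (geo g x y 1)), ((Ψ w).1, κ E x (geo g x (Ψ w) 1)) = w := by
  have ha : κ E x x ∈ (κ E x).target := mem_extChartAt_target x
  generalize κ E x x = a at ha ⊢
  have hs : geo g x (a, 0) 1 ∈ (κ E x).source := by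
    rw [bsh_zero g x ha]
    exact (κ E x).map_target ha
  obtain ⟨F, hF⟩ : ∃ F : E × E → E × E, F = fun y => (y.1, κ E x (geo g x y 1)) := ⟨_, rfl⟩
  have hsm : ∀ y : E × E, y.1 ∈ (κ E x).target → geo g x y 1 ∈ (κ E x).source →
      ContDiffAt ℝ ∞ F y := fun y h1 h2 => hF ▸ contDiffAt_fst.prodMk (bsh_smooth g x h1 h2)
  have h0 := hsm (a, 0) ha hs
  have hd : fderiv ℝ F (a, 0) = (ContinuousLinearMap.fst ℝ E E).prod
      (fderiv ℝ (fun y : E × E => κ E x (geo g x y 1)) (a, 0)) := by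
    rw [hF]
    exact (hasFDerivAt_fst.prodMk
      ((bsh_smooth g x (y := (a, 0)) ha hs).differentiableAt (by simp)).hasFDerivAt).fderiv
  have hinj : Injective (fderiv ℝ F (a, 0)) := by
    rw [injective_iff_map_eq_zero]
    rintro ⟨u, v⟩ h
    rw [hd] at h
    have h1 : u = 0 := congrArg Prod.fst h
    have h2 : fderiv ℝ (fun y : E × E => κ E x (geo g x y 1)) (a, 0) (u, v) = 0 :=
      congrArg Prod.snd h
    rw [h1, bsh_deriv g x ha] at h2
    rw [h1, h2]
    rfl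
  obtain ⟨L, hL⟩ : ∃ L : (E × E) ≃L[ℝ] (E × E), (L : E × E →L[ℝ] E × E) = fderiv ℝ F (a, 0) :=
    ⟨(LinearEquiv.ofInjectiveEndo (fderiv ℝ F (a, 0)).toLinearMap hinj).toContinuousLinearEquiv,
      ContinuousLinearMap.ext fun _ => rfl⟩
  have h0' : HasFDerivAt F (L : E × E →L[ℝ] E × E) (a, 0) :=
    hL ▸ (h0.differentiableAt (by simp)).hasFDerivAt
  obtain ⟨e, he, hes⟩ : ∃ e : OpenPartialHomeomorph (E × E) (E × E), (e : E × E → E × E) = F ∧
      (a, 0) ∈ e.source :=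
    ⟨h0.toOpenPartialHomeomorph F h0' (by simp), rfl,
      h0.mem_toOpenPartialHomeomorph_source h0' (by simp)⟩
  have e1 : ∀ᶠ y in 𝓝 ((a, 0) : E × E), y ∈ e.source := e.open_source.mem_nhds hes
  have e2 : ∀ᶠ y in 𝓝 ((a, 0) : E × E), y.1 ∈ (κ E x).target :=
    continuousAt_fst.eventually ((target_open x).mem_nhds ha)
  have e3 : ∀ᶠ y in 𝓝 ((a, 0) : E × E), geo g x y 1 ∈ (κ E x).source := by
    have hin : Continuous fun y : E × E => ((y, 1) : (E × E) × ℝ) := by fun_prop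
    have : ContinuousAt (fun y : E × E => geo g x y 1) (a, 0) :=
      (geo_smooth g x (y := (a, 0)) ha 1).continuousAt.comp_of_eq hin.continuousAt rfl
    exact this.eventually ((source_open x).mem_nhds hs)
  have e4 : ∀ᶠ y in 𝓝 ((a, 0) : E × E), fderiv ℝ F y ∈
      range ((↑) : ((E × E) ≃L[ℝ] (E × E)) → E × E →L[ℝ] E × E) :=
    (h0.continuousAt_fderiv (by simp)).eventually
      (ContinuousLinearEquiv.isOpen.mem_nhds ⟨L, hL⟩)
  obtain ⟨ρ, hρ, hb⟩ := Metric.eventually_nhds_iff_ball.1 (e1.and (e2.and (e3.and e4)))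
  have hmem : ∀ b ∈ closedBall a (ρ / 2), ∀ V : E, ‖V‖ < ρ → (b, V) ∈ ball ((a, 0) : E × E) ρ := by
    intro b hb V hV
    rw [← ball_prod_same]
    exact ⟨closedBall_subset_ball (half_lt_self hρ) hb, mem_ball_zero_iff.2 hV⟩
  obtain ⟨l, hl, hG⟩ := G_coercive g x (isCompact_closedBall a (ρ / 2))
    (fun b hb' => (hb _ (hmem b hb' 0 (by simpa using hρ))).2.1)
  refine ⟨ρ / 2, l * ρ ^ 2, ball (a, 0) ρ, e.symm, half_pos hρ, by positivity, isOpen_ball, ?_, ?_⟩
  · intro b hb' V hV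
    refine hmem b (ball_subset_closedBall hb') V ?_
    have h1 := lt_of_mul_lt_mul_left ((hG b (ball_subset_closedBall hb') V).trans_lt hV) hl.le
    exact lt_of_pow_lt_pow_left₀ 2 hρ.le h1
  · intro y hy
    obtain ⟨h1, h2, h3, L', hL'⟩ := hb y hy
    have h4 : (y.1, κ E x (geo g x y 1)) = e y := by rw [he, hF]
    have h5 : e.symm (e y) = y := e.left_inv h1
    rw [h4]
    refine ⟨h2, h3, h5, ?_, ?_⟩
    · refine e.contDiffAt_symm (f₀' := L') (e.map_source h1) ?_ ?_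
      · rw [h5, he, hL']
        exact ((hsm y h2 h3).differentiableAt (by simp)).hasFDerivAt
      · rw [h5, he]
        exact hsm y h2 h3
    · filter_upwards [e.open_target.mem_nhds (e.map_source h1)] with w hw
      have := e.right_inv hw
      rwa [he, hF] at this

/-- a uniform energy bound -/
theorem bsh_unif (g : Met E M) : ∃ ε : ℝ, 0 < ε ∧ ∀ p : M, ∃ (x : M) (O : Set (E × E))
    (Ψ : E × E → E × E), p ∈ (κ E x).source ∧ IsOpen O ∧
    (∀ V, G g x (κ E x p) V V < ε → (κ E x p, V) ∈ O) ∧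
    ∀ y ∈ O, y.1 ∈ (κ E x).target ∧ geo g x y 1 ∈ (κ E x).source ∧
      Ψ (y.1, κ E x (geo g x y 1)) = y ∧ ContDiffAt ℝ ∞ Ψ (y.1, κ E x (geo g x y 1)) ∧
      ∀ᶠ w in 𝓝 (y.1, κ E x (geo g x y 1)), ((Ψ w).1, κ E x (geo g x (Ψ w) 1)) = w := by
  choose r ε O Ψ hr hε hO h1 h2 using bsh_local g
  obtain ⟨t, ht⟩ := CompactSpace.elim_nhds_subcover
    (fun x : M => (κ E x).source ∩ κ E x ⁻¹' ball (κ E x x) (r x)) fun x =>
      inter_mem (extChartAt_source_mem_nhds x)
        ((continuousAt_extChartAt x).preimage_mem_nhds (ball_mem_nhds _ (hr x)))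
  have h3 : ∀ᶠ δ in 𝓝[>] (0 : ℝ), ∀ x ∈ t, δ < ε x :=
    (eventually_all_finset t).2 fun x _ => nhdsWithin_le_nhds (gt_mem_nhds (hε x))
  obtain ⟨δ, h4, h5⟩ := (h3.and self_mem_nhdsWithin).exists
  refine ⟨δ, h5, fun p => ?_⟩
  have hp : p ∈ ⋃ x ∈ t, (κ E x).source ∩ κ E x ⁻¹' ball (κ E x x) (r x) := by
    rw [ht]
    exact mem_univ p
  obtain ⟨x, hx, hp1, hp2⟩ := mem_iUnion₂.1 hp
  exact ⟨x, O x, Ψ x, hp1, hO x, fun V hV => h1 x _ hp2 V (hV.trans (h4 x hx)), h2 x⟩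

theorem exists_short (g : Met E M) : Nonempty (Short g) := by
  obtain ⟨ε, hε, H⟩ := bsh_unif g
  have hen : ∀ {γ : ℝ → M} {x : M}, IsGeodesic g γ → γ 0 ∈ (κ E x).source →
      G g x (κ E x (γ 0)) (vel E x γ 0) (vel E x γ 0) = energy g γ 0 := fun h hx =>
    (energy_eq ((isGeodesic_iff g _).1 h 0) hx).symm
  have U : ∀ γ γ' : ℝ → M, IsGeodesic g γ → IsGeodesic g γ' → energy g γ 0 < ε →
      energy g γ' 0 < ε → γ 0 = γ' 0 → γ 1 = γ' 1 → γ = γ' := by
    intro γ γ' h h' k k' h0 h1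
    obtain ⟨x, O, Ψ, hx, -, h2, h3⟩ := H (γ 0)
    have hx' : γ' 0 ∈ (κ E x).source := h0 ▸ hx
    have a := (h3 _ (h2 _ (by rwa [hen h hx]))).2.2.1
    rw [h0] at h2
    have b := (h3 _ (h2 _ (by rwa [hen h' hx']))).2.2.1
    rw [geo_jet h hx] at a
    rw [geo_jet h' hx', ← h1] at b
    dsimp only at a b
    rw [← h0, a] at b
    exact geo_unique h h' hx h0 (congrArg Prod.snd b)
  obtain ⟨D, hD⟩ : ∃ D : Set (M × M), ∀ z, z ∈ D ↔
      ∃ γ, IsGeodesic g γ ∧ energy g γ 0 < ε ∧ γ 0 = z.1 ∧ γ 1 = z.2 := ⟨{z | _}, fun _ => Iff.rfl⟩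
  have hex : ∀ z : M × M, ∃ γ : ℝ → M, z ∈ D →
      IsGeodesic g γ ∧ energy g γ 0 < ε ∧ γ 0 = z.1 ∧ γ 1 = z.2 := by
    intro z
    by_cases hz : z ∈ D
    · obtain ⟨γ, h⟩ := (hD z).1 hz
      exact ⟨γ, fun _ => h⟩
    · exact ⟨fun _ => z.1, fun h => absurd h hz⟩
  choose σ hσ using hex
  have hu : ∀ γ, IsGeodesic g γ → energy g γ 0 < ε → (γ 0, γ 1) ∈ D ∧ σ (γ 0, γ 1) = γ := by
    intro γ h k
    have hz : (γ 0, γ 1) ∈ D := (hD _).2 ⟨γ, h, k, rfl, rfl⟩
    obtain ⟨a, b, c, d⟩ := hσ _ hz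
    exact ⟨hz, U _ _ a h b k c d⟩
  have K : ∀ z ∈ D, ∃ (x : M) (Ψ : E × E → E × E), z.1 ∈ (κ E x).source ∧ z.2 ∈ (κ E x).source ∧
      ContDiffAt ℝ ∞ Ψ (κ E x z.1, κ E x z.2) ∧ (Ψ (κ E x z.1, κ E x z.2)).1 ∈ (κ E x).target ∧
      ∀ᶠ z' in 𝓝 z, z' ∈ D ∧ σ z' = geo g x (Ψ (κ E x z'.1, κ E x z'.2)) := by
    intro z hz
    obtain ⟨γ, h, k, h0, h1⟩ := (hD z).1 hz
    obtain ⟨x, O, Ψ, hx, hO, h2, h3⟩ := H (γ 0)
    have hy := h2 _ (show G g x _ (vel E x γ 0) (vel E x γ 0) < ε by rwa [hen h hx])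
    obtain ⟨a1, a2, a3, a4, a5⟩ := h3 _ hy
    rw [geo_jet h hx] at a2 a3 a4 a5
    dsimp only at a1 a3 a4 a5
    have k' : G g x (κ E x (γ 0)) (vel E x γ 0) (vel E x γ 0) < ε := by rwa [hen h hx]
    generalize vel E x γ 0 = V at hy a3 k'
    rw [h1] at a2 a3 a4 a5
    rw [h0] at hx hy a1 a3 a4 a5 k'
    refine ⟨x, Ψ, hx, a2, a4, by rwa [a3], ?_⟩
    have c1 : ContinuousAt (fun z' : M × M => (κ E x z'.1, κ E x z'.2)) z :=
      ((continuousAt_extChartAt' hx).comp continuousAt_fst).prodMk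
        ((continuousAt_extChartAt' a2).comp continuousAt_snd)
    have c2 : Tendsto (fun z' : M × M => Ψ (κ E x z'.1, κ E x z'.2)) (𝓝 z) (𝓝 (κ E x z.1, V)) := by
      rw [← a3]
      exact a4.continuousAt.tendsto.comp c1
    have c3 : ContinuousAt (fun y : E × E => G g x y.1 y.2 y.2) (κ E x z.1, V) :=
      (((ChartX.G_diff g x a1).continuousAt.comp_of_eq continuousAt_fst rfl).clm_apply
        continuousAt_snd).clm_apply continuousAt_snd
    filter_upwards [c1.eventually a5, c2.eventually (hO.mem_nhds hy),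
      c2.eventually (c3.eventually (gt_mem_nhds k')),
      continuousAt_fst.eventually ((source_open x).mem_nhds hx),
      continuousAt_snd.eventually ((source_open x).mem_nhds a2)] with z' b1 b2 b3 b4 b5
    generalize Ψ (κ E x z'.1, κ E x z'.2) = y at b1 b2 b3 ⊢
    obtain ⟨d1, d2, -⟩ := h3 y b2
    obtain ⟨d3, d4, -⟩ := geo_spec g x d1
    have d5 : geo g x y 0 = z'.1 := by
      rw [d4, show y.1 = κ E x z'.1 from congrArg Prod.fst b1]
      exact (κ E x).left_inv b4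
    have d6 : geo g x y 1 = z'.2 := (κ E x).injOn d2 b5 (congrArg Prod.snd b1)
    have d7 := hu _ d3 (by rwa [energy_geo g x d1])
    rwa [d5, d6] at d7
  refine ⟨⟨ε, hε, D, ?_, σ, fun z hz => (hσ z hz).1, fun z hz => (hσ z hz).2.2.1,
    fun z hz => (hσ z hz).2.2.2, fun z hz => (hσ z hz).2.1, hu, ?_⟩⟩
  · rw [isOpen_iff_mem_nhds]
    intro z hz
    obtain ⟨x, Ψ, -, -, -, -, h⟩ := K z hz
    exact h.mono fun _ h' => h'.1
  · intro x y w h1 h2 hz t
    obtain ⟨x0, Ψ, a1, a2, a3, a4, a5⟩ := K _ hz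
    dsimp only at a1 a2 a3 a4
    have c1 : ContinuousAt (fun v : (E × E) × ℝ => ((κ E x).symm v.1.1, (κ E y).symm v.1.2))
        (w, t) :=
      ((ChartX.symm_smooth h1).continuousAt.comp_of_eq
        (continuousAt_fst.comp continuousAt_fst) rfl).prodMk
        ((ChartX.symm_smooth h2).continuousAt.comp_of_eq
          (continuousAt_snd.comp continuousAt_fst) rfl)
    have c2 : ContDiffAt ℝ ∞ (fun v : (E × E) × ℝ =>
        (κ E x0 ((κ E x).symm v.1.1), κ E x0 ((κ E y).symm v.1.2))) (w, t) :=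
      (ContDiffAt.comp (f := fun v : (E × E) × ℝ => v.1.1) (w, t) (contDiffAt_trans h1 a1)
        contDiffAt_fst.fst).prodMk
        (ContDiffAt.comp (f := fun v : (E × E) × ℝ => v.1.2) (w, t) (contDiffAt_trans h2 a2)
          contDiffAt_fst.snd)
    have c3 : ContDiffAt ℝ ∞ (fun v : (E × E) × ℝ =>
        (Ψ (κ E x0 ((κ E x).symm v.1.1), κ E x0 ((κ E y).symm v.1.2)), v.2)) (w, t) :=
      (ContDiffAt.comp (f := fun v : (E × E) × ℝ =>
        (κ E x0 ((κ E x).symm v.1.1), κ E x0 ((κ E y).symm v.1.2))) (w, t) a3 c2).prodMk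
        contDiffAt_snd
    have c4 := ContMDiffAt.comp (f := fun v : (E × E) × ℝ =>
        (Ψ (κ E x0 ((κ E x).symm v.1.1), κ E x0 ((κ E y).symm v.1.2)), v.2)) (w, t)
      (geo_smooth g x0 a4 t) c3.contMDiffAt
    refine c4.congr_of_eventuallyEq ?_
    filter_upwards [c1.eventually a5] with v hv
    exact congrFun hv.2 v.2

end Pool.Agent.GeoN
end

-- part Pool.Agent.P.MP_365c00_gt.BBrk
section

/-! TASK BBrk: broken geodesics. -/

set_option linter.unusedSectionVars false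
set_option linter.unusedVariables false

open Set Filter Topology Metric Function
open scoped Manifold ContDiff

namespace Pool.Agent.GeoN

variable {E : Type} [NormedAddCommGroup E] [InnerProductSpace ℝ E] [FiniteDimensional ℝ E]
  {M : Type} [TopologicalSpace M] [ChartedSpace E M] [IsManifold 𝓘(ℝ, E) ∞ M]
  [T2Space M] [CompactSpace M] [Nonempty M] [Nontrivial E]

variable {g : Met E M} (sh : Short g) (p q : M) {k : ℕ}

theorem pt_cont (i : ℕ) : Continuous fun y : Fin k → M => pt p q y i := by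
  unfold pt
  split_ifs
  · exact continuous_const
  · exact continuous_apply _
  · exact continuous_const

theorem brk_pair_cont (i : ℕ) :
    Continuous fun y : Fin k → M => (pt p q y i, pt p q y (i + 1)) :=
  (pt_cont p q i).prodMk (pt_cont p q (i + 1))

theorem brk_pt_zero (y : Fin k → M) : pt p q y 0 = p := by simp [pt]

theorem brk_pt_last (y : Fin k → M) : pt p q y (k + 1) = q := by simp [pt]

theorem Short.W_open (k : ℕ) : IsOpen (sh.W p q k) := by
  have e : sh.W p q k = ⋂ i ∈ Iic k,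
      (fun y : Fin k → M => (pt p q y i, pt p q y (i + 1))) ⁻¹' sh.D := by
    ext y
    simp [Short.W]
  rw [e]
  exact (finite_Iic k).isOpen_biInter fun i _ => sh.D_open.preimage (brk_pair_cont p q i)

theorem Short.En_cont : ContinuousOn (fun y : Fin k → M => sh.En p q y) (sh.W p q k) := by
  refine continuousOn_finsetSum _ fun i hi => ?_
  exact sh.S_cont.comp (brk_pair_cont p q i).continuousOn fun y hy =>
    hy i (Nat.lt_succ_iff.1 (Finset.mem_range.1 hi))

theorem Short.compact_each {c : ℝ} (hc : c < sh.ε) :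
    IsCompact {y | y ∈ sh.W p q k ∧ ∀ i ≤ k, sh.S (pt p q y i, pt p q y (i + 1)) ≤ c} := by
  have e : {y | y ∈ sh.W p q k ∧ ∀ i ≤ k, sh.S (pt p q y i, pt p q y (i + 1)) ≤ c} = ⋂ i ∈ Iic k,
      (fun y : Fin k → M => (pt p q y i, pt p q y (i + 1))) ⁻¹' {z | z ∈ sh.D ∧ sh.S z ≤ c} := by
    ext y
    simp [Short.W, forall_and]
  rw [e]
  exact (isClosed_biInter fun i _ =>
    (sh.compact_le hc).isClosed.preimage (brk_pair_cont p q i)).isCompact

theorem Short.compact_En {c : ℝ} (hc : c < sh.ε) :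
    IsCompact {y | y ∈ sh.W p q k ∧ sh.En p q y ≤ c} := by
  have h1 := sh.compact_each p q (k := k) hc
  have h2 := ((sh.En_cont p q).mono fun y hy => hy.1 :
    ContinuousOn _ {y | y ∈ sh.W p q k ∧ ∀ i ≤ k, sh.S (pt p q y i, pt p q y (i + 1)) ≤ c}
    ).preimage_isClosed_of_isClosed h1.isClosed (isClosed_Iic (a := c))
  have e : {y | y ∈ sh.W p q k ∧ sh.En p q y ≤ c} =
      {y | y ∈ sh.W p q k ∧ ∀ i ≤ k, sh.S (pt p q y i, pt p q y (i + 1)) ≤ c} ∩
        (fun y : Fin k → M => sh.En p q y) ⁻¹' Iic c := by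
    ext y
    refine ⟨fun h => ⟨⟨h.1, fun i hi => le_trans ?_ h.2⟩, h.2⟩, fun h => ⟨h.1.1, h.2⟩⟩
    exact Finset.single_le_sum (f := fun i => sh.S (pt p q y i, pt p q y (i + 1)))
      (fun _ _ => sh.S_nonneg _) (Finset.mem_range.2 (Nat.lt_succ_of_le hi))
  rw [e]
  exact h2.isCompact

theorem Short.bk_eq {y : Fin k → M} (hy : y ∈ sh.W p q k) {i : ℕ} (hi : i ≤ k) {t : ℝ}
    (h1 : (i : ℝ) ≤ ((k : ℝ) + 1) * t) (h2 : ((k : ℝ) + 1) * t ≤ i + 1) :
    sh.bk p q y t = sh.σ (pt p q y i, pt p q y (i + 1)) (((k : ℝ) + 1) * t - i) := by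
  unfold Short.bk
  rcases h2.lt_or_eq with h3 | h3
  · have h4 : ⌊((k : ℝ) + 1) * t⌋₊ = i :=
      (Nat.floor_eq_iff ((Nat.cast_nonneg i).trans h1)).2 ⟨h1, h3⟩
    rw [h4, min_eq_right hi]
  · have h4 : ⌊((k : ℝ) + 1) * t⌋₊ = i + 1 := by
      rw [h3, ← Nat.cast_succ, Nat.floor_natCast]
    rw [h4]
    rcases hi.lt_or_eq with h5 | h5
    · rw [min_eq_right (Nat.succ_le_of_lt h5), h3, Nat.cast_succ, sub_self, add_sub_cancel_left,
        sh.zero _ (hy (i + 1) h5), sh.one _ (hy i hi)]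
    · rw [h5, min_eq_left (Nat.le_succ k)]

theorem Short.exists_brk (k : ℕ) : ∃ b : C(sh.W p q k, Ser.Om p q),
    ∀ y (t : unitInterval), (b y).1 t = sh.bk p q y.1 t := by
  have hk : (0 : ℝ) < (k : ℝ) + 1 := by positivity
  have hc : Continuous fun z : sh.W p q k × unitInterval => sh.bk p q z.1.1 z.2 := by
    refine (locallyFinite_of_finite fun i : Iic k => {z : sh.W p q k × unitInterval |
      (i.1 : ℝ) ≤ ((k : ℝ) + 1) * z.2 ∧ ((k : ℝ) + 1) * z.2 ≤ i.1 + 1}).continuous ?_ ?_ ?_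
    · refine eq_univ_of_forall fun z => mem_iUnion.2 ?_
      have h0 : 0 ≤ ((k : ℝ) + 1) * z.2 := mul_nonneg hk.le z.2.2.1
      refine ⟨⟨min k ⌊((k : ℝ) + 1) * z.2⌋₊, mem_Iic.2 (min_le_left _ _)⟩, ?_, ?_⟩
      · exact le_trans (Nat.cast_le.2 (min_le_right _ _)) (Nat.floor_le h0)
      · rcases le_total k ⌊((k : ℝ) + 1) * z.2⌋₊ with h | h
        · simp only [min_eq_left h]
          exact mul_le_of_le_one_right hk.le z.2.2.2
        · simp only [min_eq_right h]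
          exact (Nat.lt_floor_add_one _).le
    · intro i
      have h1 : Continuous fun z : sh.W p q k × unitInterval => ((k : ℝ) + 1) * z.2 := by fun_prop
      exact (isClosed_le continuous_const h1).inter (isClosed_le h1 continuous_const)
    · intro i
      have h1 : Continuous fun z : sh.W p q k × unitInterval =>
          ((pt p q z.1.1 i.1, pt p q z.1.1 (i.1 + 1)), ((k : ℝ) + 1) * z.2 - i.1) :=
        ((brk_pair_cont p q i.1).comp (continuous_subtype_val.comp continuous_fst)).prodMk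
          (by fun_prop)
      have h2 := sh.cont.comp_continuous h1 fun z => ⟨z.1.2 i.1 i.2, mem_univ _⟩
      exact h2.continuousOn.congr fun z hz => sh.bk_eq p q z.1.2 i.2 hz.1 hz.2
  refine ⟨⟨fun y => ⟨(ContinuousMap.curry ⟨_, hc⟩) y, ?_, ?_⟩,
    (ContinuousMap.curry ⟨_, hc⟩).continuous.subtype_mk _⟩, fun y t => rfl⟩
  · show sh.bk p q y.1 0 = p
    rw [sh.bk_eq p q y.2 (Nat.zero_le k) (by simp) (by simp), mul_zero, Nat.cast_zero, sub_zero,
      sh.zero _ (y.2 0 (Nat.zero_le k)), brk_pt_zero]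
  · show sh.bk p q y.1 1 = q
    rw [sh.bk_eq p q y.2 le_rfl (by simp) (by simp), mul_one, add_sub_cancel_left,
      sh.one _ (y.2 k le_rfl), brk_pt_last]

/-- the broken geodesic as a path -/
noncomputable def Short.brk (k : ℕ) : C(sh.W p q k, Ser.Om p q) := (sh.exists_brk p q k).choose

theorem Short.brk_apply (y : sh.W p q k) (t : unitInterval) :
    (sh.brk p q k y).1 t = sh.bk p q y.1 t := (sh.exists_brk p q k).choose_spec y t

theorem smp_cont (k : ℕ) : Continuous (smp k : Ser.Om p q → Fin k → M) := by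
  exact continuous_pi fun i => (continuous_eval_const _).comp continuous_subtype_val

theorem pt_smp (γ : Ser.Om p q) {i : ℕ} (hi : i ≤ k + 1) :
    pt p q (smp k γ) i = γ.1 (projIcc 0 1 zero_le_one ((i : ℝ) / ((k : ℝ) + 1))) := by
  have hk : (0 : ℝ) < (k : ℝ) + 1 := by positivity
  unfold pt
  split_ifs with h0 h1
  · rw [h0, Nat.cast_zero, zero_div, projIcc_left]
    exact γ.2.1.symm
  · obtain ⟨j, rfl⟩ := Nat.exists_eq_succ_of_ne_zero h0
    simp only [smp, Nat.succ_sub_one, Nat.cast_succ]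
  · obtain rfl : i = k + 1 := by omega
    rw [Nat.cast_succ, div_self hk.ne', projIcc_right]
    exact γ.2.2.symm

end Pool.Agent.GeoN
end

-- part Pool.Agent.P.MP_365c00_gt.BGam
section

/-! TASK BGam: geodesics parametrised by pairs of chart points; properties of boxes. -/

set_option linter.unusedSectionVars false
set_option linter.unusedVariables false

open Set Filter Topology Metric Function
open scoped Manifold ContDiff

namespace Pool.Agent.GeoN

variable {E : Type} [NormedAddCommGroup E] [InnerProductSpace ℝ E] [FiniteDimensional ℝ E]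
  {M : Type} [TopologicalSpace M] [ChartedSpace E M] [IsManifold 𝓘(ℝ, E) ∞ M]
  [T2Space M] [CompactSpace M] [Nonempty M] [Nontrivial E]

variable {g : Met E M} {sh : Short g} {x : M} {w0 : E × E} {τ : ℝ}

theorem Short.V_open (sh : Short g) (x : M) : IsOpen (sh.V x) := by
  refine isOpen_iff_mem_nhds.2 fun w hw => ?_
  obtain ⟨h1, h2, h3, h4⟩ := hw
  have c1 : ContinuousAt (fun v : E × E => (κ E x).symm v.1) w :=
    ContinuousAt.comp (f := fun v : E × E => v.1) (ChartX.symm_smooth h1).continuousAt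
      continuous_fst.continuousAt
  have c2 : ContinuousAt (fun v : E × E => (κ E x).symm v.2) w :=
    ContinuousAt.comp (f := fun v : E × E => v.2) (ChartX.symm_smooth h2).continuousAt
      continuous_snd.continuousAt
  have e1 : ∀ᶠ v : E × E in 𝓝 w, v.1 ∈ (κ E x).target :=
    continuous_fst.continuousAt.eventually_mem ((target_open x).mem_nhds h1)
  have e2 : ∀ᶠ v : E × E in 𝓝 w, v.2 ∈ (κ E x).target :=
    continuous_snd.continuousAt.eventually_mem ((target_open x).mem_nhds h2)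
  have e3 : ∀ᶠ v : E × E in 𝓝 w, ((κ E x).symm v.1, (κ E x).symm v.2) ∈ sh.D :=
    (c1.prodMk c2).eventually_mem (sh.D_open.mem_nhds h3)
  have e4 : ∀ᶠ v : E × E in 𝓝 w, v.1 ≠ v.2 :=
    (isOpen_ne_fun continuous_fst continuous_snd).mem_nhds h4
  filter_upwards [e1, e2, e3, e4] with v a1 a2 a3 a4 using ⟨a1, a2, a3, a4⟩

theorem Short.Γ_geo {w : E × E} (hw : w ∈ sh.V x) : IsGeodesic g (sh.Γ x w) := by
  exact sh.geo _ hw.2.2.1

theorem Short.Γ_zero {w : E × E} (hw : w ∈ sh.V x) : sh.Γ x w 0 = (κ E x).symm w.1 := by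
  exact sh.zero _ hw.2.2.1

theorem Short.Γ_one {w : E × E} (hw : w ∈ sh.V x) : sh.Γ x w 1 = (κ E x).symm w.2 := by
  exact sh.one _ hw.2.2.1

theorem Short.Γ_pos {w : E × E} (hw : w ∈ sh.V x) : 0 < energy g (sh.Γ x w) 0 := by
  refine energy_pos (Short.Γ_geo hw) (s := 1) ?_
  rw [Short.Γ_zero hw, Short.Γ_one hw]
  intro h
  apply hw.2.2.2
  have h1 := congrArg (κ E x) h
  rw [(κ E x).right_inv hw.1, (κ E x).right_inv hw.2.1] at h1
  exact h1.symm

theorem Short.Γ_inj {w w' : E × E} (hw : w ∈ sh.V x) (hw' : w' ∈ sh.V x)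
    (h : sh.Γ x w = sh.Γ x w') : w = w' := by
  have h0 := congrArg (κ E x) (congrFun h 0)
  have h1 := congrArg (κ E x) (congrFun h 1)
  rw [Short.Γ_zero hw, Short.Γ_zero hw', (κ E x).right_inv hw.1, (κ E x).right_inv hw'.1] at h0
  rw [Short.Γ_one hw, Short.Γ_one hw', (κ E x).right_inv hw.2.1, (κ E x).right_inv hw'.2.1] at h1
  exact Prod.ext h0 h1

theorem Short.Γ_smooth {w : E × E} (hw : w ∈ sh.V x) (t : ℝ) :
    ContMDiffAt 𝓘(ℝ, (E × E) × ℝ) 𝓘(ℝ, E) ∞ (fun v : (E × E) × ℝ => sh.Γ x v.1 v.2) (w, t) := by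
  exact sh.smooth x x w hw.1 hw.2.1 hw.2.2.1 t

theorem Short.Γ_of_geo {γ : ℝ → M} (h : IsGeodesic g γ) (he : energy g γ 0 < sh.ε)
    (h0 : γ 0 ∈ (κ E x).source) (h1 : γ 1 ∈ (κ E x).source) (hne : γ 1 ≠ γ 0) :
    (κ E x (γ 0), κ E x (γ 1)) ∈ sh.V x ∧ sh.Γ x (κ E x (γ 0), κ E x (γ 1)) = γ := by
  obtain ⟨a1, a2⟩ := sh.uniq γ h he
  have e0 := (κ E x).left_inv h0
  have e1 := (κ E x).left_inv h1
  refine ⟨⟨(κ E x).map_source h0, (κ E x).map_source h1, ?_, fun hh => hne ?_⟩, ?_⟩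
  · simpa only [e0, e1] using a1
  · have h2 : κ E x (γ 0) = κ E x (γ 1) := hh
    rw [← e0, ← e1, h2]
  · unfold Short.Γ
    simpa only [e0, e1] using a2

/-- the unit speed version depends continuously on the pair -/
theorem Short.exists_un (sh : Short g) (x : M) : ∃ un : E × E → UG g, ContinuousOn un (sh.V x) ∧
    ∀ w ∈ sh.V x, ∀ t, sh.Γ x w t = (un w).1 (√(energy g (sh.Γ x w) 0) * t) := by
  have hx : ∀ w ∈ sh.V x, sh.Γ x w 0 ∈ (κ E x).source := fun w hw => by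
    rw [Short.Γ_zero hw]; exact (κ E x).map_target hw.1
  have hk : ∀ w ∈ sh.V x, κ E x (sh.Γ x w 0) = w.1 := fun w hw => by
    rw [Short.Γ_zero hw]; exact (κ E x).right_inv hw.1
  have hj : ∀ w ∈ sh.V x, GeoN.geo g x (w.1, vel E x (sh.Γ x w) 0) = sh.Γ x w := fun w hw => by
    have := geo_jet (Short.Γ_geo hw) (hx w hw)
    rwa [hk w hw] at this
  have he : ∀ w ∈ sh.V x, energy g (sh.Γ x w) 0 =
      G g x w.1 (vel E x (sh.Γ x w) 0) (vel E x (sh.Γ x w) 0) := fun w hw => by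
    have := energy_geo g x (y := (w.1, vel E x (sh.Γ x w) 0)) hw.1
    rwa [hj w hw] at this
  have hV : ∀ w ∈ sh.V x, vel E x (sh.Γ x w) 0 ≠ 0 := fun w hw h0 => by
    have := Short.Γ_pos hw
    rw [he w hw, h0] at this
    simp at this
  refine ⟨fun w => GeoN.mk g x (w.1, vel E x (sh.Γ x w) 0), ?_, fun w hw t => ?_⟩
  · refine (mk_cont g x).comp (f := fun w : E × E => (w.1, vel E x (sh.Γ x w) 0))
      (continuousOn_fst.prodMk fun w hw => ?_) fun w hw => ⟨hw.1, hV w hw⟩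
    have h1 := vel_smooth (g := g) (Γ := sh.Γ x) (sh.V_open x) (fun z hz t => Short.Γ_smooth hz t) hw
      (hx w hw)
    exact (ContinuousAt.comp (f := fun w : E × E => (w, (0 : ℝ))) h1.continuousAt
      (by fun_prop)).continuousWithinAt
  · have hp := Real.sqrt_pos.2 (Short.Γ_pos hw)
    rw [mk_eq g x (y := (w.1, vel E x (sh.Γ x w) 0)) hw.1 (hV w hw)]
    dsimp only
    rw [geo_smul g x hw.1, hj w hw, ← he w hw, ← mul_assoc, inv_mul_cancel₀ hp.ne', one_mul]

theorem Box.c_pos (b : Box sh x w0 τ) : 0 < b.c := by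
  have h1 := b.θ_pos
  have h2 := b.θ_τ
  have h3 := b.θ_c
  have : 0 < b.θ * (τ + 4) := mul_pos h1 (by linarith)
  linarith

theorem Box.Γ_f (b : Box sh x w0 τ) {w : E × E} (hw : w ∈ ball w0 b.r) (t : ℝ) :
    sh.Γ x (b.f w) t = sh.Γ x w (t + b.T w) := by
  have hV := b.sub hw
  have hg := Short.Γ_geo hV
  have h1 := hg.affine 1 (b.T w)
  have h2 : energy g (fun s => sh.Γ x w (1 * s + b.T w)) 0 < sh.ε := by
    rw [energy_affine hg, one_pow, one_mul (energy _ _ _), energy_const hg _ 0]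
    exact sh.lt _ hV.2.2.1
  have h3 := congrFun (sh.uniq _ h1 h2).2 t
  simp only [mul_zero, zero_add, one_mul] at h3
  rw [← h3, b.f_eq w hw]
  unfold Short.Γ
  have e0 := (κ E x).left_inv (b.src0 w hw)
  have e1 := (κ E x).left_inv (b.src1 w hw)
  unfold Short.Γ at e0 e1
  simp only [e0, e1, add_comm (1 : ℝ) (b.T w)]

theorem Box.fix (b : Box sh x w0 τ) {w : E × E} (hw : w ∈ ball w0 b.r) {t : ℝ}
    (ht : |t - τ| < b.θ) (hp : Periodic (sh.Γ x w) t) : b.f w = w := by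
  have hV := b.sub hw
  have h1 := b.θ_pos
  have h2 := b.θ_τ
  have h3 := b.θ_c
  have h4 := b.T_near w hw
  have h5 : |b.T w - t| < b.c := by
    have a1 := abs_lt.1 h4
    have a2 := abs_lt.1 ht
    have a3 : b.θ * 4 ≤ b.θ * (τ + 4) := mul_le_mul_of_nonneg_left (by linarith) h1.le
    rw [abs_lt]
    constructor <;> linarith
  have h6 := b.lev w hw
  rw [b.f_eq w hw] at h6
  have h7 : b.T w - t = 0 := b.gap w hw _ h5 (by rw [hp.sub_eq]; exact h6)
  have h8 : b.T w = t := by linarith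
  have h9 := hp 0
  rw [zero_add] at h9
  rw [b.f_eq w hw, h8, add_comm t 1, hp 1, h9, Short.Γ_zero hV, Short.Γ_one hV,
    (κ E x).right_inv hV.1, (κ E x).right_inv hV.2.1]

theorem Box.const (b : Box sh x w0 τ) (h : ∀ w ∈ ball w0 b.r, b.f w = w) {w : E × E}
    (hw : w ∈ ball w0 b.r) : Periodic (sh.Γ x w) (b.T w) ∧
      √(energy g (sh.Γ x w) 0) * b.T w = √(energy g (sh.Γ x w0) 0) * τ := by
  have hper : ∀ z ∈ ball w0 b.r, Periodic (sh.Γ x z) (b.T z) := fun z hz t => by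
    rw [← b.Γ_f hz t, h z hz]
  refine ⟨hper w hw, ?_⟩
  have hT : ∀ z ∈ ball w0 b.r, 0 < b.T z := fun z hz => by
    have a1 := abs_lt.1 (b.T_near z hz)
    have := b.θ_pos
    have := b.θ_τ
    linarith
  have hk : ∀ z ∈ ball w0 b.r, κ E x (sh.Γ x z 0) = z.1 := fun z hz => by
    rw [Short.Γ_zero (b.sub hz)]; exact (κ E x).right_inv (b.sub hz).1
  have hkT : ∀ z ∈ ball w0 b.r, κ E x (sh.Γ x z (b.T z)) = z.1 := fun z hz => by
    have := hper z hz 0
    rw [zero_add] at this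
    rw [this, hk z hz]
  have hd : ∀ z ∈ ball w0 b.r,
      HasFDerivAt (fun y => energy g (sh.Γ x y) 0 * (b.T y * b.T y)) (0 : (E × E) →L[ℝ] ℝ) z := by
    intro z hz
    have hV := b.sub hz
    have hn : ball w0 b.r ∈ 𝓝 z := isOpen_ball.mem_nhds hz
    have hx0 : sh.Γ x z 0 ∈ (κ E x).source := by
      rw [Short.Γ_zero hV]; exact (κ E x).map_target hV.1
    have hgeo := (isGeodesic_iff g _).1 (Short.Γ_geo hV)
    have dT : HasFDerivAt b.T (fderiv ℝ b.T z) z :=
      ((b.T_smooth.contDiffAt hn).differentiableAt (by simp)).hasFDerivAt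
    have de : HasFDerivAt (fun y => energy g (sh.Γ x y) 0)
        (fderiv ℝ (fun y => energy g (sh.Γ x y) 0) z) z :=
      ((energy_smooth (Γ := sh.Γ x) (sh.V_open x) (fun z hz => Short.Γ_geo hz)
        (fun z hz t => Short.Γ_smooth hz t) hV).differentiableAt (by simp)).hasFDerivAt
    have hΦ0 := ((contDiffAt_chart (n := ⊤) (Short.Γ_smooth hV (b.T z))
      (b.src0 z hz)).differentiableAt (by simp)).hasFDerivAt
    obtain ⟨L, hΦ⟩ : ∃ L : (E × E) × ℝ →L[ℝ] E,
        HasFDerivAt (fun v : (E × E) × ℝ => κ E x (sh.Γ x v.1 v.2)) L (z, b.T z) := ⟨_, hΦ0⟩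
    have d1 : HasFDerivAt (fun y : E × E => κ E x (sh.Γ x y (b.T y)))
        (L.comp ((ContinuousLinearMap.id ℝ (E × E)).prod (fderiv ℝ b.T z))) z :=
      HasFDerivAt.comp (f := fun y : E × E => (y, b.T y)) z hΦ ((hasFDerivAt_id z).prodMk dT)
    have d1' : HasFDerivAt (fun y : E × E => κ E x (sh.Γ x y (b.T y)))
        (ContinuousLinearMap.fst ℝ E E) z :=
      hasFDerivAt_fst.congr_of_eventuallyEq (mem_of_superset hn fun y hy => hkT y hy)
    have d2 : HasFDerivAt (fun y : E × E => κ E x (sh.Γ x y (b.T z)))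
        (L.comp ((ContinuousLinearMap.id ℝ (E × E)).prod 0)) z :=
      HasFDerivAt.comp (f := fun y : E × E => (y, b.T z)) z hΦ
        ((hasFDerivAt_id z).prodMk (hasFDerivAt_const _ _))
    have d3 : HasDerivAt (fun s : ℝ => κ E x (sh.Γ x z s)) (L (0, 1)) (b.T z) :=
      HasFDerivAt.comp_hasDerivAt (f := fun s : ℝ => (z, s)) (b.T z) hΦ
        ((hasDerivAt_const _ _).prodMk (hasDerivAt_id _))
    have d4 : HasFDerivAt (fun y : E × E => κ E x (sh.Γ x y 0))
        (ContinuousLinearMap.fst ℝ E E) z :=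
      hasFDerivAt_fst.congr_of_eventuallyEq (mem_of_superset hn fun y hy => hk y hy)
    have v1 : vel E x (sh.Γ x z) (b.T z) = L (0, 1) := d3.deriv
    have v2 : vel E x (sh.Γ x z) (b.T z) = vel E x (sh.Γ x z) 0 := by
      have e : (κ E x ∘ sh.Γ x z) = fun s => (κ E x ∘ sh.Γ x z) (s + b.T z) :=
        funext fun s => by simp only [Function.comp_apply, hper z hz s]
      unfold vel
      conv_rhs => rw [e, deriv_comp_add_const, zero_add]
    have he := energy_eq (hgeo 0) hx0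
    have key : ∀ ξ : E × E, -(fderiv ℝ b.T z ξ) * energy g (sh.Γ x z) 0 =
        b.T z / 2 * fderiv ℝ (fun y => energy g (sh.Γ x y) 0) z ξ := by
      intro ξ
      have fv := first_variation (Γ := sh.Γ x) (sh.V_open x) (fun z hz => Short.Γ_geo hz)
        (fun z hz t => Short.Γ_smooth hz t) hV ξ hx0 (b.src0 z hz)
      have q1 : L (ξ, fderiv ℝ b.T z ξ) = ξ.1 := congrArg (fun A => A ξ) (d1.unique d1')
      have q2 : L (ξ, 0) = ξ.1 - fderiv ℝ b.T z ξ • L (0, 1) := by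
        rw [← q1, ← map_smul, ← map_sub]
        simp
      have q3 : fderiv ℝ (fun y : E × E => κ E x (sh.Γ x y (b.T z))) z ξ = L (ξ, 0) := by
        rw [d2.fderiv]; rfl
      have q4 : fderiv ℝ (fun y : E × E => κ E x (sh.Γ x y 0)) z ξ = ξ.1 := by
        rw [d4.fderiv]; rfl
      rw [q3, q4, q2, ← v1, v2, hkT z hz, hk z hz, map_sub, map_smul, smul_eq_mul] at fv
      rw [he, hk z hz]
      linarith
    refine (de.mul (dT.mul dT)).congr_fderiv (ContinuousLinearMap.ext fun ξ => ?_)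
    have := key ξ
    simp only [add_apply, smul_apply, smul_eq_mul, zero_apply, Pi.mul_apply]
    linear_combination (-2 * b.T z) * this
  have h0 : w0 ∈ ball w0 b.r := mem_ball_self b.r_pos
  have hc : energy g (sh.Γ x w) 0 * (b.T w * b.T w) = energy g (sh.Γ x w0) 0 * (b.T w0 * b.T w0) :=
    isOpen_ball.is_const_of_fderiv_eq_zero (𝕜 := ℝ) (convex_ball w0 b.r).isPreconnected
      (fun z hz => (hd z hz).differentiableAt.differentiableWithinAt)
      (fun z hz => (hd z hz).fderiv) hw h0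
  have hs := congrArg Real.sqrt hc
  rw [Real.sqrt_mul (energy_nonneg _ _ _), Real.sqrt_mul (energy_nonneg _ _ _),
    Real.sqrt_mul_self (hT w hw).le, Real.sqrt_mul_self (hT w0 h0).le, b.T_zero] at hs
  exact hs

end Pool.Agent.GeoN
end

-- part Pool.Agent.P.MP_365c00_gt.BBox
section

/-! TASK BBox: existence of return maps. -/

set_option linter.unusedSectionVars false
set_option linter.unusedVariables false

open Set Filter Topology Metric Function
open scoped Manifold ContDiff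

namespace Pool.Agent.GeoN

variable {E : Type} [NormedAddCommGroup E] [InnerProductSpace ℝ E] [FiniteDimensional ℝ E]
  {M : Type} [TopologicalSpace M] [ChartedSpace E M] [IsManifold 𝓘(ℝ, E) ∞ M]
  [T2Space M] [CompactSpace M] [Nonempty M] [Nontrivial E]

variable {g : Met E M} {sh : Short g} {x : M} {w0 : E × E} {τ : ℝ}

theorem bbox_mono {f f' : ℝ → ℝ} {s0 a : ℝ}
    (h : ∀ s ∈ ball s0 a, HasDerivAt f (f' s) s ∧ 0 < f' s) : StrictMonoOn f (ball s0 a) := by
  refine strictMonoOn_of_deriv_pos (convex_ball s0 a)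
    (fun s hs => (h s hs).1.continuousAt.continuousWithinAt) fun s hs => ?_
  rw [isOpen_ball.interior_eq] at hs
  rw [(h s hs).1.deriv]
  exact (h s hs).2

theorem bbox_ift {P : Type} [NormedAddCommGroup P] [NormedSpace ℝ P] [CompleteSpace P]
    {Φ Φ' : P × ℝ → ℝ} {w0 : P} {τ a θ : ℝ} (ha : 0 < a) (hθ : 0 < θ) (h0 : Φ (w0, τ) = 0)
    (h : ∀ w ∈ ball w0 a, ∀ s ∈ ball τ a, ContDiffAt ℝ ∞ Φ (w, s) ∧
      HasDerivAt (fun s => Φ (w, s)) (Φ' (w, s)) s ∧ 0 < Φ' (w, s)) :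
    ∃ r > 0, r ≤ a ∧ ∃ T : P → ℝ, ContDiffOn ℝ ∞ T (ball w0 r) ∧ T w0 = τ ∧
      ∀ w ∈ ball w0 r, |T w - τ| < θ ∧ T w ∈ ball τ a ∧ Φ (w, T w) = 0 := by
  have mono : ∀ w ∈ ball w0 a, StrictMonoOn (fun s => Φ (w, s)) (ball τ a) := fun w hw =>
    bbox_mono (f' := fun s => Φ' (w, s)) fun s hs => (h w hw s hs).2
  have cont : ∀ w ∈ ball w0 a, ∀ s ∈ ball τ a, ContinuousAt (fun v => Φ (v, s)) w :=
    fun w hw s hs => ContinuousAt.comp (f := fun v : P => (v, s)) (h w hw s hs).1.continuousAt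
      (continuousAt_id.prodMk continuousAt_const)
  set η : ℝ := min θ a / 2 with hη
  have hm : 0 < min θ a := lt_min hθ ha
  have η0 : 0 < η := by positivity
  have ηθ : η < θ := by have := min_le_left θ a; linarith
  have ηa : η < a := by have := min_le_right θ a; linarith
  have hI : ∀ s, τ - η ≤ s → s ≤ τ + η → s ∈ ball τ a := fun s h1 h2 => by
    rw [mem_ball, Real.dist_eq, abs_lt]
    constructor <;> linarith
  have m0 : τ ∈ ball τ a := mem_ball_self ha
  have m1 : τ - η ∈ ball τ a := hI _ le_rfl (by linarith)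
  have m2 : τ + η ∈ ball τ a := hI _ (by linarith) le_rfl
  have w0a : w0 ∈ ball w0 a := mem_ball_self ha
  have s1 : Φ (w0, τ - η) < 0 := h0 ▸ mono w0 w0a m1 m0 (by linarith)
  have s2 : 0 < Φ (w0, τ + η) := h0 ▸ mono w0 w0a m0 m2 (by linarith)
  obtain ⟨r, hr, hr'⟩ := Metric.eventually_nhds_iff_ball.1
    (((cont w0 w0a _ m1).eventually (gt_mem_nhds s1)).and
      ((cont w0 w0a _ m2).eventually (lt_mem_nhds s2)))
  have sub : ball w0 (min r a) ⊆ ball w0 a := ball_subset_ball (min_le_right _ _)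
  have ex : ∀ w, ∃ t, w ∈ ball w0 (min r a) → t ∈ Ioo (τ - η) (τ + η) ∧ Φ (w, t) = 0 := by
    intro w
    by_cases hw : w ∈ ball w0 (min r a)
    · have hc : ContinuousOn (fun s => Φ (w, s)) (Icc (τ - η) (τ + η)) := fun s hs =>
        (h w (sub hw) s (hI s hs.1 hs.2)).2.1.continuousAt.continuousWithinAt
      obtain ⟨t, ht, ht'⟩ := intermediate_value_Ioo (by linarith) hc
        (hr' w (ball_subset_ball (min_le_left _ _) hw))
      exact ⟨t, fun _ => ⟨ht, ht'⟩⟩
    · exact ⟨0, fun h => absurd h hw⟩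
  choose T hT using ex
  have hTa : ∀ w ∈ ball w0 (min r a), T w ∈ ball τ a := fun w hw =>
    hI _ (hT w hw).1.1.le (hT w hw).1.2.le
  have hra : 0 < min r a := lt_min hr ha
  refine ⟨min r a, hra, min_le_right _ _, T, fun w hw => ?_, ?_, fun w hw => ⟨?_, hTa w hw,
    (hT w hw).2⟩⟩
  · have hn : ∀ᶠ v in 𝓝 w, v ∈ ball w0 (min r a) := isOpen_ball.mem_nhds hw
    have hc : ContinuousAt T w := by
      refine tendsto_order.2 ⟨fun b hb => ?_, fun b hb => ?_⟩
      · have b1 : max b (τ - η) < T w := max_lt hb (hT w hw).1.1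
        have b2 : max b (τ - η) ∈ ball τ a :=
          hI _ (le_max_right _ _) (b1.le.trans (hT w hw).1.2.le)
        have b3 : Φ (w, max b (τ - η)) < 0 := (hT w hw).2 ▸ mono w (sub hw) b2 (hTa w hw) b1
        filter_upwards [hn, (cont w (sub hw) _ b2).eventually (gt_mem_nhds b3)] with v hv h1
        refine (le_max_left _ _).trans_lt (((mono v (sub hv)).lt_iff_lt b2 (hTa v hv)).1 ?_)
        rw [(hT v hv).2]
        exact h1
      · have b1 : T w < min b (τ + η) := lt_min hb (hT w hw).1.2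
        have b2 : min b (τ + η) ∈ ball τ a :=
          hI _ ((hT w hw).1.1.le.trans b1.le) (min_le_right _ _)
        have b3 : 0 < Φ (w, min b (τ + η)) := (hT w hw).2 ▸ mono w (sub hw) (hTa w hw) b2 b1
        filter_upwards [hn, (cont w (sub hw) _ b2).eventually (lt_mem_nhds b3)] with v hv h1
        refine (((mono v (sub hv)).lt_iff_lt (hTa v hv) b2).1 ?_).trans_le (min_le_left _ _)
        rw [(hT v hv).2]
        exact h1
    obtain ⟨h1, h2, h3⟩ := h w (sub hw) _ (hTa w hw)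
    refine (implicit_smooth (k := 0) h1 ?_ hc (hn.mono fun v hv => (hT v hv).2)).contDiffWithinAt
    have h4 : HasDerivAt (fun s => Φ (w, s)) (fderiv ℝ Φ (w, T w) (0, 1)) (T w) :=
      (h1.differentiableAt (by simp)).hasFDerivAt.comp_hasDerivAt (T w)
        ((hasDerivAt_const (T w) w).prodMk (hasDerivAt_id (T w)))
    rw [h4.unique h2]
    exact h3.ne'
  · have hw := mem_ball_self (x := w0) hra
    exact (mono w0 w0a).injOn (hTa w0 hw) m0 ((hT w0 hw).2.trans h0.symm)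
  · rw [abs_lt]
    constructor <;> linarith [(hT w hw).1.1, (hT w hw).1.2]

theorem bbox_chart {w : E × E} (hw : w ∈ sh.V x) {t : ℝ} (ht : sh.Γ x w t ∈ (κ E x).source) :
    ContDiffAt ℝ ∞ (fun v : (E × E) × ℝ => κ E x (sh.Γ x v.1 v.2)) (w, t) :=
  contDiffAt_chart (n := ⊤) (Short.Γ_smooth hw t) ht

theorem bbox_good {w : E × E} (hw : w ∈ sh.V x) {t : ℝ} (ht : sh.Γ x w t ∈ (κ E x).source)
    (l : E →L[ℝ] ℝ) (hl : 0 < l (vel E x (sh.Γ x w) t)) : ∃ c > 0, ∀ v ∈ ball w c,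
      ∀ s ∈ ball t c, v ∈ sh.V x ∧ sh.Γ x v s ∈ (κ E x).source ∧ 0 < l (vel E x (sh.Γ x v) s) := by
  have h1 : ∀ᶠ y : (E × E) × ℝ in 𝓝 (w, t), y.1 ∈ sh.V x :=
    continuousAt_fst.eventually ((sh.V_open x).mem_nhds hw)
  have h2 : ∀ᶠ y : (E × E) × ℝ in 𝓝 (w, t), sh.Γ x y.1 y.2 ∈ (κ E x).source :=
    (Short.Γ_smooth hw t).continuousAt.eventually ((source_open x).mem_nhds ht)
  have h3 : ∀ᶠ y : (E × E) × ℝ in 𝓝 (w, t), 0 < l (vel E x (sh.Γ x y.1) y.2) :=
    (l.continuous.continuousAt.comp (vel_smooth (g := g) (sh.V_open x)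
      (fun z hz t => Short.Γ_smooth hz t) hw ht).continuousAt).eventually (lt_mem_nhds hl)
  obtain ⟨c, hc, h⟩ := Metric.eventually_nhds_iff_ball.1 (h1.and (h2.and h3))
  refine ⟨c, hc, fun v hv s hs => h (v, s) ?_⟩
  rw [← ball_prod_same]
  exact ⟨hv, hs⟩

theorem exists_box (hw : w0 ∈ sh.V x) (hτ : 0 < τ) (hp : Periodic (sh.Γ x w0) τ)
    {N : Set (E × E)} (hN : N ∈ 𝓝 w0) : ∃ b : Box sh x w0 τ, ball w0 b.r ⊆ N := by
  have geoAt : ∀ w ∈ sh.V x, ∀ t, GeoAt g (sh.Γ x w) t := fun w hw =>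
    (isGeodesic_iff g _).1 (Short.Γ_geo hw)
  have z0 : ∀ w ∈ sh.V x, κ E x (sh.Γ x w 0) = w.1 := fun w hw => by
    rw [Short.Γ_zero hw, (κ E x).right_inv hw.1]
  have s0 : sh.Γ x w0 0 ∈ (κ E x).source := by
    rw [Short.Γ_zero hw]
    exact (κ E x).map_target hw.1
  have pτ : sh.Γ x w0 τ = sh.Γ x w0 0 := by simpa using hp 0
  have sτ : sh.Γ x w0 τ ∈ (κ E x).source := pτ ▸ s0
  have s1 : sh.Γ x w0 (τ + 1) ∈ (κ E x).source := by
    rw [add_comm, hp 1, Short.Γ_one hw]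
    exact (κ E x).map_target hw.2.1
  have hV0 : vel E x (sh.Γ x w0) 0 ≠ 0 := fun h => by
    have := Short.Γ_pos hw
    rw [energy_eq (geoAt w0 hw 0) s0, h, map_zero] at this
    exact lt_irrefl _ this
  have vτ : vel E x (sh.Γ x w0) τ = vel E x (sh.Γ x w0) 0 := by
    have h1 := ChartX.vel_aff (E := E) x (sh.Γ x w0) 1 τ 0
    have h2 : (fun s => sh.Γ x w0 (1 * s + τ)) = sh.Γ x w0 := funext fun s => by
      rw [one_mul, hp s]
    rw [h2, one_smul, mul_zero, zero_add] at h1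
    exact h1.symm
  set l : E →L[ℝ] ℝ := innerSL ℝ (vel E x (sh.Γ x w0) 0) with hl
  have l0 : 0 < l (vel E x (sh.Γ x w0) 0) := by
    rw [hl, innerSL_apply_apply]
    exact real_inner_self_pos.2 hV0
  obtain ⟨c0, hc0, g0⟩ := bbox_good hw s0 l l0
  obtain ⟨c1, hc1, g1⟩ := bbox_good hw sτ l (vτ ▸ l0)
  have der : ∀ w ∈ sh.V x, ∀ s, sh.Γ x w s ∈ (κ E x).source →
      HasDerivAt (fun s => l (κ E x (sh.Γ x w s))) (l (vel E x (sh.Γ x w) s)) s :=
    fun w hw s hs => l.hasFDerivAt.comp_hasDerivAt s ((geoAt w hw s).hasDerivAt hs)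
  set θ : ℝ := min (1 / 10) (min (τ / 5) (c0 / (τ + 5))) with hθ
  have θ0 : 0 < θ := lt_min (by norm_num) (lt_min (by positivity) (by positivity))
  have θ1 : θ ≤ 1 / 10 := min_le_left _ _
  have θ2 : θ ≤ τ / 5 := (min_le_right _ _).trans (min_le_left _ _)
  have θ3 : θ ≤ c0 / (τ + 5) := (min_le_right _ _).trans (min_le_right _ _)
  obtain ⟨r2, hr2, hr2c, T, hT, hT0, hT'⟩ := bbox_ift
    (Φ := fun y : (E × E) × ℝ => l (κ E x (sh.Γ x y.1 y.2)) - l y.1.1)
    (Φ' := fun y => l (vel E x (sh.Γ x y.1) y.2)) (w0 := w0) (τ := τ) hc1 θ0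
    (by simp only [pτ, z0 w0 hw, sub_self]) fun w hw s hs => by
      obtain ⟨a1, a2, a3⟩ := g1 w hw s hs
      exact ⟨(l.contDiff.contDiffAt.comp _ (bbox_chart a1 a2)).sub
        (l.contDiff.contDiffAt.comp _ (contDiffAt_fst.comp _ contDiffAt_fst)),
        (der w a1 s a2).sub_const (l w.1), a3⟩
  have Tc : ContinuousAt T w0 :=
    (hT.contDiffAt (isOpen_ball.mem_nhds (mem_ball_self hr2))).continuousAt
  have e1 : ∀ᶠ w in 𝓝 w0, sh.Γ x w (T w + 1) ∈ (κ E x).source := by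
    have h1 : ContinuousAt (fun w => sh.Γ x w (T w + 1)) w0 :=
      ContinuousAt.comp (f := fun w : E × E => (w, T w + 1))
        (Short.Γ_smooth hw (T w0 + 1)).continuousAt
        (continuousAt_id.prodMk (Tc.add continuousAt_const))
    rw [← hT0] at s1
    exact h1.eventually ((source_open x).mem_nhds s1)
  have q0 : 0 < √(energy g (sh.Γ x w0) 0) := Real.sqrt_pos.2 (Short.Γ_pos hw)
  have e2 : ∀ᶠ w in 𝓝 w0, √(energy g (sh.Γ x w) 0) ∈
      ball (√(energy g (sh.Γ x w0) 0)) (θ * √(energy g (sh.Γ x w0) 0) / 4) :=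
    (energy_smooth (sh.V_open x) (fun z hz => Short.Γ_geo hz)
      (fun z hz t => Short.Γ_smooth hz t) hw).continuousAt.sqrt.eventually
      (ball_mem_nhds _ (by positivity))
  obtain ⟨r3, hr3, h3⟩ := Metric.eventually_nhds_iff_ball.1
    (e1.and (e2.and (Filter.Eventually.and hN (ball_mem_nhds w0 hc0))))
  have b2 : ball w0 (min r2 r3) ⊆ ball w0 r2 := ball_subset_ball (min_le_left _ _)
  have b3 : ball w0 (min r2 r3) ⊆ ball w0 r3 := ball_subset_ball (min_le_right _ _)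
  have gT : ∀ w ∈ ball w0 (min r2 r3), w ∈ sh.V x ∧ sh.Γ x w (T w) ∈ (κ E x).source :=
    fun w hw => by
      obtain ⟨a1, a2, -⟩ := g1 w (ball_subset_ball hr2c (b2 hw)) _ (hT' w (b2 hw)).2.1
      exact ⟨a1, a2⟩
  refine ⟨{ r := min r2 r3
            r_pos := lt_min hr2 hr3
            sub := fun w hw => (gT w hw).1
            T := T
            f := fun w => (κ E x (sh.Γ x w (T w)), κ E x (sh.Γ x w (T w + 1)))
            T_smooth := hT.mono b2
            f_smooth := fun w hw => ?_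
            T_zero := hT0
            src0 := fun w hw => (gT w hw).2
            src1 := fun w hw => (h3 w (b3 hw)).1
            f_eq := fun w _ => rfl
            l := l
            lev := fun w hw => sub_eq_zero.1 (hT' w (b2 hw)).2.2
            c := c0
            gap := fun w hw s hs hls => ?_
            θ := θ
            θ_pos := θ0
            θ_le := θ1
            θ_τ := by linarith
            θ_c := ?_
            T_near := fun w hw => (hT' w (b2 hw)).1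
            speed := fun w hw w' hw' => ?_ }, fun w hw => (h3 w (b3 hw)).2.2.1⟩
  · have h1 : ContDiffAt ℝ ∞ T w := hT.contDiffAt (isOpen_ball.mem_nhds (b2 hw))
    refine (ContDiffAt.prodMk ?_ ?_).contDiffWithinAt
    · exact ContDiffAt.comp (f := fun w : E × E => (w, T w)) w
        (bbox_chart (gT w hw).1 (gT w hw).2) (contDiffAt_id.prodMk h1)
    · exact ContDiffAt.comp (f := fun w : E × E => (w, T w + 1)) w
        (bbox_chart (gT w hw).1 (h3 w (b3 hw)).1)
        (contDiffAt_id.prodMk (h1.add contDiffAt_const))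
  · have hwc := (h3 w (b3 hw)).2.2.2
    have mono : StrictMonoOn (fun s => l (κ E x (sh.Γ x w s))) (ball 0 c0) :=
      bbox_mono (f' := fun s => l (vel E x (sh.Γ x w) s)) fun s hs => by
        obtain ⟨a1, a2, a3⟩ := g0 w hwc s hs
        exact ⟨der w a1 s a2, a3⟩
    refine mono.injOn (mem_ball_zero_iff.2 hs) (mem_ball_self hc0) ?_
    simp only [hls, z0 w (gT w hw).1]
  · have h1 : θ * (τ + 5) ≤ c0 := (le_div_iff₀ (by positivity)).1 θ3
    nlinarith
  · have a1 := (h3 w (b3 hw)).2.1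
    have a2 := (h3 w' (b3 hw')).2.1
    rw [mem_ball, Real.dist_eq, abs_lt] at a1 a2
    have a3 : θ * √(energy g (sh.Γ x w0) 0) ≤ 1 / 10 * √(energy g (sh.Γ x w0) 0) :=
      mul_le_mul_of_nonneg_right θ1 q0.le
    have a4 : √(energy g (sh.Γ x w0) 0) / 2 ≤ √(energy g (sh.Γ x w) 0) := by linarith [a1.1]
    have a5 := mul_le_mul_of_nonneg_left a4 θ0.le
    rw [abs_le]
    constructor <;> linarith [a1.1, a1.2, a2.1, a2.2]

end Pool.Agent.GeoN
end

-- part Pool.Agent.P.MP_365c00_gt.BCount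
section

/-! TASK BCount: many geometrically distinct geodesics. -/

set_option linter.unusedSectionVars false
set_option linter.unusedVariables false

open Set Filter Topology Metric Function
open scoped Manifold ContDiff

namespace Pool.Agent.GeoN

variable {E : Type} [NormedAddCommGroup E] [InnerProductSpace ℝ E] [FiniteDimensional ℝ E]
  {M : Type} [TopologicalSpace M] [ChartedSpace E M] [IsManifold 𝓘(ℝ, E) ∞ M]
  [T2Space M] [CompactSpace M] [Nonempty M] [Nontrivial E]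

variable {g : Met E M} {sh : Short g} {x : M} {w0 : E × E} {τ : ℝ}

/-- the total return time -/
noncomputable def Box.cnT (b : Box sh x w0 τ) (y : E × E) (j : ℕ) : ℝ :=
  ∑ i ∈ Finset.range j, b.T (b.f^[i] y)

theorem Box.cnT_succ (b : Box sh x w0 τ) (y : E × E) (j : ℕ) :
    b.cnT y (j + 1) = b.cnT y j + b.T (b.f^[j] y) := Finset.sum_range_succ _ _

theorem Box.cn_Γ (b : Box sh x w0 τ) {K : ℕ} {y : E × E} (ho : ∀ j ≤ K, b.f^[j] y ∈ ball w0 b.r)
    {j : ℕ} (hj : j ≤ K) (t : ℝ) : sh.Γ x (b.f^[j] y) t = sh.Γ x y (t + b.cnT y j) := by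
  induction j generalizing t with
  | zero => simp [Box.cnT]
  | succ j ih =>
    rw [iterate_succ_apply', b.Γ_f (ho j (by omega)), ih (by omega), b.cnT_succ]
    congr 1
    ring

theorem Box.cn_lev (b : Box sh x w0 τ) {K : ℕ} {y : E × E} (ho : ∀ j ≤ K, b.f^[j] y ∈ ball w0 b.r)
    {j : ℕ} (hj : j ≤ K) : b.l (b.f^[j] y).1 = b.l y.1 := by
  induction j with
  | zero => rfl
  | succ j ih => rw [iterate_succ_apply', b.lev _ (ho j (by omega)), ih (by omega)]

theorem Box.cn_bd (b : Box sh x w0 τ) {K : ℕ} {y : E × E} (ho : ∀ j ≤ K, b.f^[j] y ∈ ball w0 b.r)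
    {j : ℕ} (hj : j ≤ K) : 0 ≤ b.cnT y j ∧ b.cnT y j ≤ j * (τ + 1) := by
  induction j with
  | zero => simp [Box.cnT]
  | succ j ih =>
    have h1 := abs_lt.1 (b.T_near _ (ho j (by omega)))
    have h2 := ih (by omega)
    have := b.θ_pos
    have := b.θ_le
    have := b.θ_τ
    rw [b.cnT_succ]
    push_cast
    constructor
    · linarith
    · linarith

theorem Box.cn_lt (b : Box sh x w0 τ) {K : ℕ} {y : E × E} (ho : ∀ j ≤ K, b.f^[j] y ∈ ball w0 b.r)
    {j j' : ℕ} (h : j < j') (hj : j' ≤ K) : b.cnT y j + (τ - b.θ) ≤ b.cnT y j' := by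
  induction j', h using Nat.le_induction with
  | base =>
    have h1 := abs_lt.1 (b.T_near _ (ho j (by omega)))
    rw [b.cnT_succ]
    linarith
  | succ i hi ih =>
    have h1 := abs_lt.1 (b.T_near _ (ho i (by omega)))
    have h2 := ih (by omega)
    have := b.θ_pos
    have := b.θ_τ
    rw [b.cnT_succ]
    linarith

/-- a shift smaller than the gap between two points of the same level vanishes -/
theorem Box.cn_gap (b : Box sh x w0 τ) {z z' : E × E} (hz : z ∈ ball w0 b.r)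
    (hz' : z' ∈ ball w0 b.r) (hl : b.l z'.1 = b.l z.1) {s : ℝ} (hs : |s| < b.c)
    (h : sh.Γ x z' 0 = sh.Γ x z s) : s = 0 := by
  refine b.gap z hz s hs ?_
  rw [← h, Short.Γ_zero (b.sub hz'), (κ E x).right_inv (b.sub hz').1, hl]

theorem Box.cn_per (b : Box sh x w0 τ) {K : ℕ} {y : E × E} (ho : ∀ j ≤ K, b.f^[j] y ∈ ball w0 b.r)
    (h3 : ∀ j j', j < j' → j' ≤ K → b.f^[j] y ≠ b.f^[j'] y) {p : ℝ} (hp : 0 < p)
    (hK : p < b.c * K) : ¬ Periodic (sh.Γ x y) p := by
  intro hper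
  have hK0 : (0 : ℝ) < K := by
    rcases Nat.eq_zero_or_pos K with rfl | h
    · simp at hK
      linarith
    · exact_mod_cast h
  obtain ⟨j, hj, j', hj', hne, he⟩ := Finset.exists_ne_map_eq_of_card_lt_of_maps_to
    (s := Finset.range (K + 1)) (t := Finset.range K) (by simp)
    (f := fun j => ⌊(K : ℝ) * Int.fract (b.cnT y j / p)⌋₊) (fun j _ => by
      rw [Finset.mem_coe, Finset.mem_range, Nat.floor_lt (mul_nonneg hK0.le (Int.fract_nonneg _))]
      exact mul_lt_of_lt_one_right hK0 (Int.fract_lt_one _))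
  rw [Finset.mem_range, Nat.lt_succ_iff] at hj hj'
  have a1 := Nat.floor_le (mul_nonneg hK0.le (Int.fract_nonneg (b.cnT y j / p)))
  have a2 := Nat.lt_floor_add_one ((K : ℝ) * Int.fract (b.cnT y j / p))
  have a3 := Nat.floor_le (mul_nonneg hK0.le (Int.fract_nonneg (b.cnT y j' / p)))
  have a4 := Nat.lt_floor_add_one ((K : ℝ) * Int.fract (b.cnT y j' / p))
  rw [he] at a1 a2
  have e1 := Int.floor_add_fract (b.cnT y j / p)
  have e2 := Int.floor_add_fract (b.cnT y j' / p)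
  generalize Int.fract (b.cnT y j / p) = u at a1 a2 e1
  generalize Int.fract (b.cnT y j' / p) = u' at a1 a2 a3 a4 e2
  generalize ⌊b.cnT y j / p⌋ = n at e1
  generalize ⌊b.cnT y j' / p⌋ = n' at e2
  rw [eq_div_iff hp.ne'] at e1 e2
  have hs : |p * (u' - u)| < b.c := by
    have h1 : |(K : ℝ) * (u' - u)| < 1 := by
      rw [abs_lt]
      constructor
      · linarith
      · linarith
    rw [abs_mul, abs_of_pos hK0] at h1
    rw [abs_mul, abs_of_pos hp]
    have h2 := abs_nonneg (u' - u)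
    have h4 := b.c_pos
    nlinarith
  have key : ∀ t, sh.Γ x (b.f^[j'] y) t = sh.Γ x (b.f^[j] y) (t + p * (u' - u)) := by
    intro t
    rw [b.cn_Γ ho hj, b.cn_Γ ho hj', ← (hper.int_mul (n' - n)) (t + p * (u' - u) + b.cnT y j)]
    congr 1
    push_cast
    linarith
  have h0 := b.cn_gap (ho j hj) (ho j' hj') ((b.cn_lev ho hj').trans (b.cn_lev ho hj).symm) hs
    (by rw [key, zero_add])
  have h5 : b.f^[j'] y = b.f^[j] y := Short.Γ_inj (b.sub (ho j' hj')) (b.sub (ho j hj))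
    (funext fun t => by rw [key, h0, add_zero])
  rcases lt_or_gt_of_ne hne with h | h
  · exact h3 j j' h hj' h5.symm
  · exact h3 j' j h hj h5

theorem Box.cn_scale (b : Box sh x w0 τ) {K : ℕ} {y y' : E × E}
    (ho : ∀ j ≤ K, b.f^[j] y ∈ ball w0 b.r) (ho' : ∀ j ≤ K, b.f^[j] y' ∈ ball w0 b.r)
    (h1 : y'.1 = y.1) {l : ℝ} (hl : |l - 1| ≤ b.θ) (h : ∀ t, sh.Γ x y' t = sh.Γ x y (l * t))
    {j : ℕ} (hj : j ≤ K) : l * b.cnT y' j = b.cnT y j := by
  induction j with
  | zero => simp [Box.cnT]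
  | succ j ih =>
    have ih := ih (by omega)
    have a1 := abs_lt.1 (b.T_near _ (ho j (by omega)))
    have a2 := abs_lt.1 (b.T_near _ (ho' j (by omega)))
    have a3 := abs_le.1 hl
    have := b.θ_pos
    have := b.θ_le
    have := b.θ_τ
    have := b.θ_c
    have hs : |l * b.T (b.f^[j] y') - b.T (b.f^[j] y)| < b.c := by
      rw [abs_lt]
      constructor
      · nlinarith
      · nlinarith
    have h0 := b.cn_gap (ho _ hj) (ho' _ hj)
      (by rw [b.cn_lev ho hj, b.cn_lev ho' hj, h1]) hs (by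
        rw [b.cn_Γ ho hj, b.cn_Γ ho' hj, h, b.cnT_succ, b.cnT_succ]
        congr 1
        linarith)
    rw [b.cnT_succ, b.cnT_succ]
    linarith

theorem Box.count (b : Box sh x w0 τ) {K K' : ℕ} {w : E × E} (hw : w ∈ ball w0 b.r)
    (y : ℕ → E × E) (h1 : ∀ k ≤ K', (y k).1 = w.1 ∧ (b.f^[k] (y k)).2 = w.2)
    (h2 : ∀ k ≤ K', ∀ j ≤ K, b.f^[j] (y k) ∈ ball w0 b.r)
    (h3 : ∀ k ≤ K', ∀ j j', j < j' → j' ≤ K → b.f^[j] (y k) ≠ b.f^[j'] (y k))
    (hK' : K' ≤ K) (hK : 2 * (K' * (τ + 1) + 1) < b.c * K) :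
    ((K' + 1 : ℕ) : ENNReal) ≤ num g x x w := by
  have hV := b.sub hw
  have h0 : ∀ k ≤ K', y k ∈ ball w0 b.r := fun k hk => h2 k hk 0 (Nat.zero_le _)
  have e0 : ∀ k ≤ K', sh.Γ x (y k) 0 = (κ E x).symm w.1 := fun k hk => by
    rw [Short.Γ_zero (b.sub (h0 k hk)), (h1 k hk).1]
  have e1 : ∀ k ≤ K', sh.Γ x (y k) (1 + b.cnT (y k) k) = (κ E x).symm w.2 := fun k hk => by
    rw [← b.cn_Γ (h2 k hk) (hk.trans hK'), Short.Γ_one (b.sub (h2 k hk k (hk.trans hK'))),
      (h1 k hk).2]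
  have hne : (κ E x).symm w.2 ≠ (κ E x).symm w.1 := fun h =>
    hV.2.2.2 ((κ E x).symm.injOn hV.2.1 hV.1 h).symm
  have hA : ∀ k ≤ K', 0 < 1 + b.cnT (y k) k ∧ 2 * (1 + b.cnT (y k) k) < b.c * K := fun k hk => by
    have a1 := b.cn_bd (h2 k hk) (hk.trans hK')
    have a2 : (k : ℝ) ≤ K' := by exact_mod_cast hk
    have := b.θ_pos
    have := b.θ_τ
    constructor
    · linarith
    · nlinarith
  have hmem : ∀ k ≤ K', sh.Γ x (y k) '' Icc 0 (1 + b.cnT (y k) k) ∈
      images g ((κ E x).symm w.1, (κ E x).symm w.2) := fun k hk => by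
    refine ⟨_, (Short.Γ_geo (b.sub (h0 k hk))).affine (1 + b.cnT (y k) k) 0,
      ⟨1, ⟨zero_le_one, le_rfl⟩, ?_⟩, ?_, ?_, ?_⟩
    · rw [mul_one, mul_zero, add_zero, add_zero, e0 k hk, e1 k hk]
      exact hne
    · rw [mul_zero, add_zero, e0 k hk]
    · rw [mul_one, add_zero, e1 k hk]
    · have hp := (hA k hk).1
      ext z
      constructor
      · rintro ⟨t, ht, rfl⟩
        refine ⟨t / (1 + b.cnT (y k) k), ⟨div_nonneg ht.1 hp.le, (div_le_one hp).2 ht.2⟩, ?_⟩
        show sh.Γ x (y k) _ = _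
        rw [mul_div_cancel₀ _ hp.ne', add_zero]
      · rintro ⟨t, ht, rfl⟩
        exact ⟨_, ⟨by nlinarith [ht.1], by nlinarith [ht.2]⟩, rfl⟩
  have hinj : InjOn (fun k => sh.Γ x (y k) '' Icc 0 (1 + b.cnT (y k) k))
      (Finset.range (K' + 1) : Set ℕ) := by
    intro k hk k' hk' him
    rw [Finset.mem_coe, Finset.mem_range, Nat.lt_succ_iff] at hk hk'
    by_contra hkk
    have hp := Short.Γ_pos (b.sub (h0 k hk))
    rcases per_of_image (Short.Γ_geo (b.sub (h0 k hk))) (Short.Γ_geo (b.sub (h0 k' hk'))) hp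
      (Short.Γ_pos (b.sub (h0 k' hk'))) (hA k hk).1 (hA k' hk').1 ((e0 k hk).trans (e0 k' hk').symm)
      (by rw [e0 k hk, e1 k hk]; exact hne) him with ⟨p, h, hper⟩ | ⟨p, h, hper⟩ | ⟨l, -, a1, a2, a3⟩
    · exact b.cn_per (h2 k hk) (h3 k hk) h.1 (h.2.trans_lt (hA k hk).2) hper
    · exact b.cn_per (h2 k' hk') (h3 k' hk') h.1 (h.2.trans_lt (hA k' hk').2) hper
    · have hl : |l - 1| ≤ b.θ := by
        have a4 := b.speed _ (h0 k hk) _ (h0 k' hk')
        have a5 := Real.sqrt_pos.2 hp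
        rw [← a3, ← sub_one_mul, abs_mul, abs_of_pos a5] at a4
        exact le_of_mul_le_mul_right a4 a5
      have a6 := b.cn_scale (h2 k hk) (h2 k' hk') ((h1 k' hk').1.trans (h1 k hk).1.symm) hl a1
        (hk'.trans hK')
      have a7 := abs_le.1 hl
      have := b.θ_pos
      have := b.θ_τ
      rcases lt_or_gt_of_ne hkk with h | h
      · have := b.cn_lt (h2 k hk) h (hk'.trans hK')
        linarith
      · have := b.cn_lt (h2 k hk) h (hk.trans hK')
        linarith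
  have hle : ((K' + 1 : ℕ) : ℕ∞) ≤ (images g ((κ E x).symm w.1, (κ E x).symm w.2)).encard := by
    have := Set.encard_le_encard_of_injOn (fun k hk => hmem k (by
      rwa [Finset.mem_coe, Finset.mem_range, Nat.lt_succ_iff] at hk)) hinj
    rwa [Set.encard_coe_eq_coe_finsetCard, Finset.card_range] at this
  rw [num, ← ENat.toENNReal_coe]
  exact ENat.toENNReal_le.2 hle

end Pool.Agent.GeoN
end

-- part Pool.Agent.P.MP_365c00_gt.BMove
section

/-! TASK BMove: a broken geodesic which is not a geodesic can be shortened. -/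

set_option linter.unusedSectionVars false
set_option linter.unusedVariables false

open Set Filter Topology Metric Function
open scoped Manifold ContDiff

namespace Pool.Agent.GeoN

variable {E : Type} [NormedAddCommGroup E] [InnerProductSpace ℝ E] [FiniteDimensional ℝ E]
  {M : Type} [TopologicalSpace M] [ChartedSpace E M] [IsManifold 𝓘(ℝ, E) ∞ M]
  [T2Space M] [CompactSpace M] [Nonempty M] [Nontrivial E]

variable {g : Met E M} (sh : Short g) (p q : M) {k : ℕ}

theorem bm_open {X : Type} [TopologicalSpace X] {s t : Set X} (h : s = t) :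
    IsOpen s ↔ IsOpen t := h ▸ Iff.rfl

theorem bm_desc {P : Type} [NormedAddCommGroup P] [NormedSpace ℝ P] {Φ : P → ℝ} {v0 u : P}
    (hΦ : ContDiffAt ℝ 1 Φ v0) (hd : fderiv ℝ Φ v0 u < 0) {Q : P → Prop} (hQ : ∀ᶠ v in 𝓝 v0, Q v) :
    ∃ η : ℝ, ∀ᶠ v in 𝓝 v0, ∀ s ∈ Icc (0 : ℝ) 1, Q (v + s • η • u) ∧
      (0 < s → Φ (v + s • η • u) < Φ v) := by
  have h1 : ∀ᶠ v in 𝓝 v0, fderiv ℝ Φ v u < 0 :=
    ((hΦ.continuousAt_fderiv (by simp)).clm_apply continuousAt_const).eventually_lt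
      continuousAt_const hd
  obtain ⟨r, hr, h2⟩ := Metric.eventually_nhds_iff_ball.1
    (hQ.and (h1.and (hΦ.eventually (by simp))))
  have hη : 0 < r / 2 / (‖u‖ + 1) := by positivity
  refine ⟨r / 2 / (‖u‖ + 1), ?_⟩
  filter_upwards [ball_mem_nhds v0 (half_pos hr)] with v hv
  have h3 : ∀ s ∈ Icc (0 : ℝ) 1, v + s • (r / 2 / (‖u‖ + 1)) • u ∈ ball v0 r := fun s hs => by
    have : ‖s • (r / 2 / (‖u‖ + 1)) • u‖ ≤ r / 2 := by
      rw [norm_smul, norm_smul, Real.norm_of_nonneg hs.1, Real.norm_of_nonneg hη.le]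
      refine (mul_le_of_le_one_left (by positivity) hs.2).trans ?_
      rw [div_mul_eq_mul_div, div_le_iff₀ (by positivity)]
      nlinarith
    have := dist_triangle (v + s • (r / 2 / (‖u‖ + 1)) • u) v v0
    rw [dist_self_add_left] at this
    rw [mem_ball] at hv ⊢
    linarith
  have h4 : ∀ s ∈ Icc (0 : ℝ) 1, HasDerivAt (fun s : ℝ => Φ (v + s • (r / 2 / (‖u‖ + 1)) • u))
      (r / 2 / (‖u‖ + 1) * fderiv ℝ Φ (v + s • (r / 2 / (‖u‖ + 1)) • u) u) s := fun s hs => by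
    have := ((h2 _ (h3 s hs)).2.2.differentiableAt (by simp)).hasFDerivAt.comp_hasDerivAt s
      (((hasDerivAt_id s).smul_const ((r / 2 / (‖u‖ + 1)) • u)).const_add v)
    rwa [one_smul, map_smul] at this
  refine fun s hs => ⟨(h2 _ (h3 s hs)).1, fun h0 => ?_⟩
  have := strictAntiOn_of_deriv_neg (convex_Icc (0 : ℝ) 1)
    (fun s hs => (h4 s hs).continuousAt.continuousWithinAt) (fun s hs => by
      rw [(h4 s (interior_subset hs)).deriv]
      exact mul_neg_of_pos_of_neg hη (h2 _ (h3 s (interior_subset hs))).2.1)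
    (left_mem_Icc.2 zero_le_one) hs h0
  simpa using this

theorem bm_pair {x y : M} (h : (x, y) ∈ sh.D) :
    (∀ᶠ w : E × E in 𝓝 (κ E x x, κ E y y), w.1 ∈ (κ E x).target ∧ w.2 ∈ (κ E y).target ∧
      ((κ E x).symm w.1, (κ E y).symm w.2) ∈ sh.D) ∧
    ContDiffAt ℝ ∞ (fun w : E × E => sh.S ((κ E x).symm w.1, (κ E y).symm w.2)) (κ E x x, κ E y y) ∧
    ∀ ξ : E × E, fderiv ℝ (fun w : E × E => sh.S ((κ E x).symm w.1, (κ E y).symm w.2))
      (κ E x x, κ E y y) ξ = 2 * G g y (κ E y y) (vel E y (sh.σ (x, y)) 1) ξ.2 -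
        2 * G g x (κ E x x) (vel E x (sh.σ (x, y)) 0) ξ.1 := by
  have ho : IsOpen {w : E × E | w.1 ∈ (κ E x).target ∧ w.2 ∈ (κ E y).target ∧
      ((κ E x).symm w.1, (κ E y).symm w.2) ∈ sh.D} := by
    have := (((continuousOn_extChartAt_symm (I := 𝓘(ℝ, E)) x).prodMap
      (continuousOn_extChartAt_symm (I := 𝓘(ℝ, E)) y)).isOpen_inter_preimage
      ((target_open x).prod (target_open y)) sh.D_open)
    exact (bm_open (Set.ext fun w => and_assoc.symm)).2 this
  have e : ((κ E x).symm (κ E x x), (κ E y).symm (κ E y y)) = (x, y) := by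
    rw [extChartAt_to_inv, extChartAt_to_inv]
  have hz : (κ E x x, κ E y y) ∈ {w : E × E | w.1 ∈ (κ E x).target ∧ w.2 ∈ (κ E y).target ∧
      ((κ E x).symm w.1, (κ E y).symm w.2) ∈ sh.D} :=
    ⟨mem_extChartAt_target x, mem_extChartAt_target y, e ▸ h⟩
  have hg := fun w (hw : w ∈ {w : E × E | w.1 ∈ (κ E x).target ∧ w.2 ∈ (κ E y).target ∧
      ((κ E x).symm w.1, (κ E y).symm w.2) ∈ sh.D}) => sh.geo _ hw.2.2
  have hs := fun w (hw : w ∈ {w : E × E | w.1 ∈ (κ E x).target ∧ w.2 ∈ (κ E y).target ∧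
      ((κ E x).symm w.1, (κ E y).symm w.2) ∈ sh.D}) => sh.smooth x y w hw.1 hw.2.1 hw.2.2
  refine ⟨ho.mem_nhds hz, energy_smooth ho hg hs hz, fun ξ => ?_⟩
  have := first_variation ho hg hs hz ξ (t := 0) (t' := 1) (x := x) (x' := y)
    (by simp only [e, sh.zero _ h]; exact mem_extChartAt_source x)
    (by simp only [e, sh.one _ h]; exact mem_extChartAt_source y)
  have e0 : (fun w : E × E => κ E x (sh.σ ((κ E x).symm w.1, (κ E y).symm w.2) 0)) =ᶠ[𝓝
      (κ E x x, κ E y y)] Prod.fst := by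
    filter_upwards [ho.mem_nhds hz] with w hw
    rw [sh.zero _ hw.2.2, (κ E x).right_inv hw.1]
  have e1 : (fun w : E × E => κ E y (sh.σ ((κ E x).symm w.1, (κ E y).symm w.2) 1)) =ᶠ[𝓝
      (κ E x x, κ E y y)] Prod.snd := by
    filter_upwards [ho.mem_nhds hz] with w hw
    rw [sh.one _ hw.2.2, (κ E y).right_inv hw.2.1]
  rw [e0.fderiv_eq, e1.fderiv_eq, fderiv_fst, fderiv_snd] at this
  simp only [e, sh.zero _ h, sh.one _ h, ContinuousLinearMap.coe_fst', ContinuousLinearMap.coe_snd']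
    at this
  unfold Short.S
  linarith

theorem bm_corner {x' x x'' : M} (h1 : (x', x) ∈ sh.D) (h2 : (x, x'') ∈ sh.D)
    (hne : vel E x (sh.σ (x', x)) 1 ≠ vel E x (sh.σ (x, x'')) 0) :
    ∃ ξ : E, ∀ᶠ z : M × M × M in 𝓝 (x', x, x''), z.2.1 ∈ (κ E x).source ∧ ∀ s ∈ Icc (0 : ℝ) 1,
      κ E x z.2.1 + s • ξ ∈ (κ E x).target ∧ (z.1, (κ E x).symm (κ E x z.2.1 + s • ξ)) ∈ sh.D ∧
      ((κ E x).symm (κ E x z.2.1 + s • ξ), z.2.2) ∈ sh.D ∧ (0 < s →
        sh.S (z.1, (κ E x).symm (κ E x z.2.1 + s • ξ)) +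
          sh.S ((κ E x).symm (κ E x z.2.1 + s • ξ), z.2.2) < sh.S (z.1, z.2.1) + sh.S z.2) := by
  obtain ⟨a1, a2, a3⟩ := bm_pair sh h1
  obtain ⟨b1, b2, b3⟩ := bm_pair sh h2
  let L : (E × E × E) →L[ℝ] E × E := (ContinuousLinearMap.id ℝ E).prodMap (ContinuousLinearMap.fst ℝ E E)
  let v0 : E × E × E := (κ E x' x', κ E x x, κ E x'' x'')
  have c1 := (ContDiffAt.comp v0 (f := L) a2 L.contDiff.contDiffAt).add
    (ContDiffAt.comp v0 (f := Prod.snd) b2 contDiffAt_snd)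
  have c2 := (HasFDerivAt.comp v0 (f := L) (a2.differentiableAt (by simp)).hasFDerivAt
    L.hasFDerivAt).fun_add (HasFDerivAt.comp v0 (f := Prod.snd)
      (b2.differentiableAt (by simp)).hasFDerivAt hasFDerivAt_snd)
  obtain ⟨η, hη⟩ := bm_desc (u := (0, vel E x (sh.σ (x, x'')) 0 - vel E x (sh.σ (x', x)) 1, 0))
    (c1.of_le (by simp)) (by
      have := G_pos g x (mem_extChartAt_target x) (sub_ne_zero.2 hne.symm)
      rw [map_sub (G g x _), sub_apply] at this
      rw [c2.fderiv]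
      simp only [add_apply, ContinuousLinearMap.comp_apply, a3, b3, L,
        ContinuousLinearMap.coe_prodMap', Prod.map, ContinuousLinearMap.coe_fst',
        ContinuousLinearMap.coe_snd', map_zero]
      linarith) ((L.continuous.continuousAt.eventually a1).and
        (continuous_snd.continuousAt.eventually b1))
  refine ⟨η • (vel E x (sh.σ (x, x'')) 0 - vel E x (sh.σ (x', x)) 1), ?_⟩
  have d : ContinuousAt (fun z : M × M × M => (κ E x' z.1, κ E x z.2.1, κ E x'' z.2.2))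
      (x', x, x'') := (continuousAt_extChartAt x').prodMap'
        ((continuousAt_extChartAt x).prodMap' (continuousAt_extChartAt x''))
  filter_upwards [d.eventually hη, prod_mem_nhds (extChartAt_source_mem_nhds (I := 𝓘(ℝ, E)) x')
    (prod_mem_nhds (extChartAt_source_mem_nhds (I := 𝓘(ℝ, E)) x)
      (extChartAt_source_mem_nhds (I := 𝓘(ℝ, E)) x''))] with z hz hs
  refine ⟨hs.2.1, fun s h => ?_⟩
  obtain ⟨⟨⟨-, f1, f2⟩, -, -, f3⟩, f4⟩ := hz s h
  simp only [L, ContinuousLinearMap.coe_prodMap', Prod.map, ContinuousLinearMap.coe_fst',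
    ContinuousLinearMap.coe_id', id, Prod.smul_mk, Prod.mk_add_mk, smul_zero, add_zero,
    Function.comp_apply, (κ E x').left_inv hs.1, (κ E x).left_inv hs.2.1,
    (κ E x'').left_inv hs.2.2] at f1 f2 f3 f4
  exact ⟨f1, f2, f3, f4⟩

theorem bm_pt (y : Fin k → M) (j : Fin k) : pt p q y (j + 1) = y j := by simp [pt]

theorem bm_update (y : Fin k → M) (j : Fin k) (a : M) {l : ℕ} (h : l ≠ j + 1) :
    pt p q (update y j a) l = pt p q y l := by
  unfold pt
  split_ifs with h1 h2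
  · rfl
  · exact update_of_ne (fun e => h (by rw [← e]; simp only; omega)) _ _
  · rfl

theorem Short.move {y0 : Fin k → M} (hy : y0 ∈ sh.W p q k)
    (hno : ∀ γ, IsGeodesic g γ → γ 0 = p → γ 1 = q →
      energy g γ 0 ≠ ((k : ℝ) + 1) * sh.En p q y0) :
    ∃ N ∈ 𝓝 y0, ∃ m : (Fin k → M) × ℝ → (Fin k → M), ContinuousOn m (N ×ˢ Icc 0 1) ∧
      ∀ y ∈ N, m (y, 0) = y ∧ ∀ s ∈ Icc (0 : ℝ) 1, m (y, s) ∈ sh.W p q k ∧
        (0 < s → sh.En p q (m (y, s)) < sh.En p q y) := by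
  obtain ⟨j, hj⟩ : ∃ j : Fin k, vel E (y0 j) (sh.σ (pt p q y0 j, y0 j)) 1 ≠
      vel E (y0 j) (sh.σ (y0 j, pt p q y0 (j + 1 + 1))) 0 := by
    by_contra! h
    have g0 := sh.geo _ (hy 0 k.zero_le)
    have e : ∀ i ≤ k, sh.σ (pt p q y0 i, pt p q y0 (i + 1)) =
        fun t => sh.σ (pt p q y0 0, pt p q y0 (0 + 1)) (1 * t + i) := fun i hi => by
      induction i with
      | zero => simp
      | succ i ih =>
        have a := hy i (by omega)
        have b := bm_pt p q y0 ⟨i, hi⟩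
        rw [geo_unique (sh.geo _ (hy _ hi)) ((sh.geo _ a).affine 1 1) (t0 := 0) (x := y0 ⟨i, hi⟩)
          (by rw [sh.zero _ (hy _ hi), b]; exact mem_extChartAt_source _)
          (by simp only [mul_zero, zero_add, sh.zero _ (hy _ hi), sh.one _ a])
          (by rw [ChartX.vel_aff, one_smul, mul_zero, zero_add, b]; exact (h ⟨i, hi⟩).symm),
          ih (by omega)]
        funext t
        exact congrArg _ (by push_cast; ring)
    refine hno _ (g0.affine (k + 1) 0) ?_ ?_ ?_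
    · simp only [mul_zero, add_zero, sh.zero _ (hy 0 k.zero_le)]
      rfl
    · have := sh.one _ (hy k le_rfl)
      rw [e k le_rfl] at this
      simp only [mul_one, add_zero] at this ⊢
      rw [add_comm (k : ℝ), this]
      simp [pt]
    · rw [energy_affine g0, Short.En, Finset.sum_congr rfl fun i hi => show sh.S _ =
        energy g (sh.σ (pt p q y0 0, pt p q y0 (0 + 1))) 0 by
          rw [Short.S, e i (Nat.lt_succ_iff.1 (Finset.mem_range.1 hi)), energy_affine g0,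
            energy_const g0 _ 0, one_pow, one_mul], energy_const g0 _ 0]
      simp only [Finset.sum_const, Finset.card_range, nsmul_eq_mul]
      push_cast
      ring
  have a := hy j j.2.le
  have b := hy (j + 1) j.2
  rw [bm_pt] at a b
  obtain ⟨ξ, h⟩ := bm_corner sh a b hj
  have c : ContinuousAt (fun y : Fin k → M => (pt p q y j, y j, pt p q y (j + 1 + 1))) y0 :=
    ((pt_cont p q j).prodMk ((continuous_apply j).prodMk (pt_cont p q _))).continuousAt
  refine ⟨_, inter_mem (c.eventually h) ((sh.W_open p q k).mem_nhds hy),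
    fun z => update z.1 j ((κ E (y0 j)).symm (κ E (y0 j) (z.1 j) + z.2 • ξ)), ?_,
    fun y ⟨⟨h1, h2⟩, h3⟩ => ⟨?_, fun s hs => ?_⟩⟩
  · refine continuousOn_pi.2 fun i => ?_
    rcases eq_or_ne i j with rfl | hi
    · simp only [update_self]
      exact (continuousOn_extChartAt_symm _).comp (((continuousOn_extChartAt _).comp
        ((continuous_apply i).comp continuous_fst).continuousOn fun z hz => hz.1.1.1).add
        (continuous_snd.smul continuous_const).continuousOn) fun z hz => (hz.1.1.2 _ hz.2).1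
    · simp only [update_of_ne hi]
      exact ((continuous_apply i).comp continuous_fst).continuousOn
  · simp only [zero_smul, add_zero, (κ E (y0 j)).left_inv h1, update_eq_self]
  obtain ⟨-, d1, d2, d3⟩ := h2 s hs
  simp only at d1 d2 d3 ⊢
  generalize (κ E (y0 j)).symm (κ E (y0 j) (y j) + s • ξ) = u at d1 d2 d3
  have e0 := bm_update p q y j u (l := j) (by omega)
  have e1 : pt p q (update y j u) (j + 1) = u := by rw [bm_pt, update_self]
  have e2 := bm_update p q y j u (l := j + 1 + 1) (by omega)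
  refine ⟨fun i hi => ?_, fun h0 => ?_⟩
  · rcases eq_or_ne i j with rfl | f1
    · rwa [e0, e1]
    rcases eq_or_ne i (j + 1) with rfl | f2
    · rwa [e1, e2]
    rw [bm_update p q y j u f2, bm_update p q y j u (by omega)]
    exact h3 i hi
  · have := j.2
    rw [← sub_neg, Short.En, Short.En, ← Finset.sum_sub_distrib, Finset.sum_eq_add_of_mem (j : ℕ)
      (j + 1) (Finset.mem_range.2 (by omega)) (Finset.mem_range.2 (by omega)) (by omega)
      fun i _ hi => by rw [bm_update p q y j u hi.2, bm_update p q y j u (by omega), sub_self],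
      e0, e1, e2, bm_pt]
    linarith [d3 h0]

end Pool.Agent.GeoN
end

-- part Pool.Agent.P.MP_365c00_gt.BRef
section

/-! TASK BRef: refinement of broken geodesics and the Hoelder estimate. -/

set_option linter.unusedSectionVars false
set_option linter.unusedVariables false

open Set Filter Topology Metric Function
open scoped Manifold ContDiff

namespace Pool.Agent.GeoN

variable {E : Type} [NormedAddCommGroup E] [InnerProductSpace ℝ E] [FiniteDimensional ℝ E]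
  {M : Type} [TopologicalSpace M] [ChartedSpace E M] [IsManifold 𝓘(ℝ, E) ∞ M]
  [T2Space M] [CompactSpace M] [Nonempty M] [Nontrivial E]

variable {g : Met E M} (sh : Short g) (p q : M) {k : ℕ}

theorem bref_sum (F : ℕ → ℝ) (n m : ℕ) :
    ∑ j ∈ Finset.range (n * m), F j = ∑ i ∈ Finset.range n, ∑ r ∈ Finset.range m, F (i * m + r) := by
  induction n with
  | zero => simp
  | succ n ih => rw [Nat.succ_mul, Finset.sum_range_add, ih, Finset.sum_range_succ]

theorem bref_idx (k : ℕ) {t : ℝ} (h0 : 0 ≤ t) (h1 : t ≤ 1) :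
    ∃ i ≤ k, (i : ℝ) ≤ ((k : ℝ) + 1) * t ∧ ((k : ℝ) + 1) * t ≤ i + 1 := by
  have hk : (0 : ℝ) ≤ k := Nat.cast_nonneg k
  have h2 : 0 ≤ ((k : ℝ) + 1) * t := by positivity
  rcases le_total k ⌊((k : ℝ) + 1) * t⌋₊ with h | h
  · refine ⟨k, le_rfl, ?_, by nlinarith⟩
    exact le_trans (by exact_mod_cast h) (Nat.floor_le h2)
  · exact ⟨_, h, Nat.floor_le h2, (Nat.lt_floor_add_one _).le⟩

theorem Short.bref_pt (y : sh.W p q k) {m k' : ℕ} (hm : 0 < m) (hk : k' + 1 = (k + 1) * m)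
    {i r : ℕ} (hi : i ≤ k) (hr : r ≤ m) :
    pt p q (smp k' (sh.brk p q k y)) (i * m + r) =
      sh.σ (pt p q y.1 i, pt p q y.1 (i + 1)) ((r : ℝ) / m) := by
  have hle : i * m + r ≤ k' + 1 := by
    rw [hk]; nlinarith [Nat.mul_le_mul_right m hi]
  have hm' : (0 : ℝ) < m := by exact_mod_cast hm
  have hk' : (k' : ℝ) + 1 = ((k : ℝ) + 1) * m := by exact_mod_cast hk
  have hp : (0 : ℝ) < (k' : ℝ) + 1 := by positivity
  have hmem : ((i * m + r : ℕ) : ℝ) / ((k' : ℝ) + 1) ∈ Icc (0 : ℝ) 1 :=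
    ⟨by positivity, (div_le_one hp).2 (by exact_mod_cast hle)⟩
  have e : ((k : ℝ) + 1) * (((i * m + r : ℕ) : ℝ) / ((k' : ℝ) + 1)) = i + (r : ℝ) / m := by
    have : (0 : ℝ) < (k : ℝ) + 1 := by positivity
    rw [hk']; push_cast; field_simp
  have h1 : (0 : ℝ) ≤ (r : ℝ) / m := by positivity
  have h2 : (r : ℝ) / m ≤ 1 := (div_le_one hm').2 (by exact_mod_cast hr)
  rw [pt_smp p q _ hle, sh.brk_apply, projIcc_of_mem _ hmem]
  show sh.bk p q y.1 (((i * m + r : ℕ) : ℝ) / ((k' : ℝ) + 1)) = _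
  rw [sh.bk_eq p q y.2 hi (by rw [e]; linarith) (by rw [e]; linarith), e, add_sub_cancel_left]

theorem Short.bref_seg (y : sh.W p q k) {m k' : ℕ} (hm : 0 < m) (hk : k' + 1 = (k + 1) * m)
    {i r : ℕ} (hi : i ≤ k) (hr : r < m) :
    (pt p q (smp k' (sh.brk p q k y)) (i * m + r),
      pt p q (smp k' (sh.brk p q k y)) (i * m + r + 1)) ∈ sh.D ∧
    sh.σ (pt p q (smp k' (sh.brk p q k y)) (i * m + r),
      pt p q (smp k' (sh.brk p q k y)) (i * m + r + 1)) =
      (fun t => sh.σ (pt p q y.1 i, pt p q y.1 (i + 1)) ((m : ℝ)⁻¹ * t + (r : ℝ) / m)) ∧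
    sh.S (pt p q (smp k' (sh.brk p q k y)) (i * m + r),
      pt p q (smp k' (sh.brk p q k y)) (i * m + r + 1)) =
      sh.S (pt p q y.1 i, pt p q y.1 (i + 1)) / (m : ℝ) ^ 2 := by
  have hm' : (1 : ℝ) ≤ m := by exact_mod_cast hm
  have hD := y.2 i hi
  have hg := sh.geo _ hD
  have he : energy g (fun t => sh.σ (pt p q y.1 i, pt p q y.1 (i + 1))
      ((m : ℝ)⁻¹ * t + (r : ℝ) / m)) 0 = sh.S (pt p q y.1 i, pt p q y.1 (i + 1)) / (m : ℝ) ^ 2 := by
    rw [energy_affine hg, energy_const hg _ 0, Short.S, inv_pow, div_eq_inv_mul]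
  have hlt : sh.S (pt p q y.1 i, pt p q y.1 (i + 1)) / (m : ℝ) ^ 2 < sh.ε :=
    (div_le_self (sh.S_nonneg _) (one_le_pow₀ hm')).trans_lt (sh.lt _ hD)
  obtain ⟨h1, h2⟩ := sh.uniq _ (hg.affine (m : ℝ)⁻¹ ((r : ℝ) / m)) (he.trans_lt hlt)
  have e0 : pt p q (smp k' (sh.brk p q k y)) (i * m + r) =
      sh.σ (pt p q y.1 i, pt p q y.1 (i + 1)) ((m : ℝ)⁻¹ * 0 + (r : ℝ) / m) := by
    rw [sh.bref_pt p q y hm hk hi hr.le, mul_zero, zero_add]
  have e1 : pt p q (smp k' (sh.brk p q k y)) (i * m + r + 1) =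
      sh.σ (pt p q y.1 i, pt p q y.1 (i + 1)) ((m : ℝ)⁻¹ * 1 + (r : ℝ) / m) := by
    rw [Nat.add_assoc, sh.bref_pt p q y hm hk hi (Nat.succ_le_of_lt hr)]
    congr 1
    push_cast
    rw [add_div, mul_one, one_div, add_comm]
  rw [e0, e1]
  exact ⟨h1, h2, by rw [Short.S, h2, he]⟩

theorem Short.refine (y : sh.W p q k) {m k' : ℕ} (hm : 0 < m) (hk : k' + 1 = (k + 1) * m) :
    ∃ h : smp k' (sh.brk p q k y) ∈ sh.W p q k',
      sh.En p q (smp k' (sh.brk p q k y)) = sh.En p q y.1 / m ∧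
      sh.brk p q k' ⟨_, h⟩ = sh.brk p q k y := by
  have hm' : (0 : ℝ) < m := by exact_mod_cast hm
  have hk' : (k' : ℝ) + 1 = ((k : ℝ) + 1) * m := by exact_mod_cast hk
  have hdiv : ∀ j ≤ k', ∃ i ≤ k, ∃ r < m, j = i * m + r := fun j hj =>
    ⟨j / m, Nat.lt_succ_iff.1 ((Nat.div_lt_iff_lt_mul hm).2 (hk ▸ Nat.lt_succ_of_le hj)), j % m, Nat.mod_lt _ hm,
      (Nat.div_add_mod' j m).symm⟩
  have hW : smp k' (sh.brk p q k y) ∈ sh.W p q k' := fun j hj => by
    obtain ⟨i, hi, r, hr, rfl⟩ := hdiv j hj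
    exact (sh.bref_seg p q y hm hk hi hr).1
  refine ⟨hW, ?_, ?_⟩
  · rw [Short.En, Short.En, hk, bref_sum, Finset.sum_div]
    refine Finset.sum_congr rfl fun i hi => ?_
    rw [Finset.sum_congr rfl fun r hr => (sh.bref_seg p q y hm hk
      (Nat.lt_succ_iff.1 (Finset.mem_range.1 hi)) (Finset.mem_range.1 hr)).2.2,
      Finset.sum_const, Finset.card_range, nsmul_eq_mul]
    field_simp
  · refine Subtype.ext (ContinuousMap.ext fun t => ?_)
    obtain ⟨j, hj, h1, h2⟩ := bref_idx k' t.2.1 t.2.2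
    obtain ⟨i, hi, r, hr, rfl⟩ := hdiv j hj
    have hr' : (r : ℝ) + 1 ≤ m := by exact_mod_cast hr
    have hr0 : (0 : ℝ) ≤ r := Nat.cast_nonneg r
    rw [sh.brk_apply, sh.brk_apply, sh.bk_eq p q hW hj h1 h2, (sh.bref_seg p q y hm hk hi hr).2.1]
    rw [hk'] at h1 h2 ⊢
    push_cast at h1 h2 ⊢
    rw [sh.bk_eq p q y.2 hi (le_of_mul_le_mul_right (by linarith) hm')
      (le_of_mul_le_mul_right (by linarith) hm')]
    congr 1
    field_simp
    ring

theorem Short.bref_le {N : ℕ} {ι : M → EuclideanSpace ℝ (Fin N)} {C : ℝ} (hι : LipEmb g ι C)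
    (y : sh.W p q k) (s t : unitInterval) (hst : (s : ℝ) ≤ t) :
    dist (ι ((sh.brk p q k y).1 s)) (ι ((sh.brk p q k y).1 t)) ≤
      C * √(((k : ℝ) + 1) * sh.En p q y.1) * √|(s : ℝ) - t| := by
  have hk : (0 : ℝ) < (k : ℝ) + 1 := by positivity
  set a := ((k : ℝ) + 1) * s with ha
  set b := ((k : ℝ) + 1) * t with hb
  have ha0 : 0 ≤ a := mul_nonneg hk.le s.2.1
  have hab : a ≤ b := mul_le_mul_of_nonneg_left hst hk.le
  have hb1 : b ≤ (k : ℝ) + 1 := mul_le_of_le_one_right hk.le t.2.2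
  let u : ℕ → ℝ := fun i => min (max (i : ℝ) a) b
  let P : ℕ → EuclideanSpace ℝ (Fin N) := fun i => ι (sh.bk p q y.1 (u i / ((k : ℝ) + 1)))
  have hu0 : u 0 = a := by simp [u, ha0, hab]
  have hu1 : u (k + 1) = b := by
    simp only [u]; push_cast; exact min_eq_right (le_max_of_le_left hb1)
  have hmono : ∀ i, u i ≤ u (i + 1) := fun i =>
    min_le_min (max_le_max (by push_cast; linarith) le_rfl) le_rfl
  have hin : ∀ i, u i < u (i + 1) → (i : ℝ) ≤ u i ∧ u (i + 1) ≤ i + 1 := fun i h => by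
    simp only [u] at h ⊢
    push_cast at h ⊢
    constructor
    · have h1 : max (i : ℝ) a < b := by
        by_contra h2
        rw [min_eq_right (not_lt.1 h2)] at h
        exact absurd (min_le_right _ _) (not_le.2 h)
      rw [min_eq_left h1.le]; exact le_max_left _ _
    · have h1 : a ≤ i + 1 := by
        by_contra h2
        rw [max_eq_right (by linarith), max_eq_right (by linarith)] at h
        exact lt_irrefl _ h
      rw [max_eq_left h1]; exact min_le_left _ _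
  have hd1 : ∀ i, u (i + 1) - u i ≤ 1 := fun i => by
    rcases (hmono i).lt_or_eq with h | h
    · linarith [hin i h]
    · linarith
  have hstep : ∀ i ∈ Finset.range (k + 1), dist (P i) (P (i + 1)) ≤
      C * (√(sh.S (pt p q y.1 i, pt p q y.1 (i + 1))) * (u (i + 1) - u i)) := fun i hi => by
    have hi' : i ≤ k := Nat.lt_succ_iff.1 (Finset.mem_range.1 hi)
    rcases (hmono i).lt_or_eq with h | h
    · obtain ⟨h1, h2⟩ := hin i h
      have e : ∀ v : ℝ, ((k : ℝ) + 1) * (v / ((k : ℝ) + 1)) = v := fun v => by field_simp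
      simp only [P]
      rw [sh.bk_eq p q y.2 hi' (by rw [e]; linarith) (by rw [e]; linarith),
        sh.bk_eq p q y.2 hi' (by rw [e]; linarith) (by rw [e]; linarith), e, e]
      refine (hι.2.2 _ (sh.geo _ (y.2 i hi')) _ _).trans (le_of_eq ?_)
      rw [sub_sub_sub_cancel_right, abs_sub_comm, abs_of_nonneg (by linarith), Short.S, mul_assoc]
    · simp only [P, ← h, dist_self, sub_self, mul_zero, le_refl]
  have h1 := (dist_le_range_sum_dist P (k + 1)).trans (Finset.sum_le_sum hstep)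
  rw [← Finset.mul_sum] at h1
  have h2 := Finset.sum_mul_sq_le_sq_mul_sq (Finset.range (k + 1))
    (fun i => √(sh.S (pt p q y.1 i, pt p q y.1 (i + 1)))) (fun i => u (i + 1) - u i)
  have h3 : ∑ i ∈ Finset.range (k + 1), √(sh.S (pt p q y.1 i, pt p q y.1 (i + 1))) ^ 2 =
      sh.En p q y.1 := Finset.sum_congr rfl fun i _ => Real.sq_sqrt (sh.S_nonneg _)
  have h4 : ∑ i ∈ Finset.range (k + 1), (u (i + 1) - u i) ^ 2 ≤ ((k : ℝ) + 1) * |(s : ℝ) - t| := by
    refine (Finset.sum_le_sum (g := fun i => u (i + 1) - u i) fun i _ => by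
      nlinarith [hmono i, hd1 i]).trans (le_of_eq ?_)
    rw [Finset.sum_range_sub, hu0, hu1, abs_sub_comm, abs_of_nonneg (by linarith), ha, hb]
    ring
  have hE : 0 ≤ sh.En p q y.1 := Finset.sum_nonneg fun i _ => sh.S_nonneg _
  rw [h3] at h2
  have h5 : ∑ i ∈ Finset.range (k + 1), √(sh.S (pt p q y.1 i, pt p q y.1 (i + 1))) *
      (u (i + 1) - u i) ≤ √(((k : ℝ) + 1) * sh.En p q y.1) * √|(s : ℝ) - t| := by
    rw [← Real.sqrt_mul (by positivity)]
    refine Real.le_sqrt_of_sq_le (h2.trans ((mul_le_mul_of_nonneg_left h4 hE).trans (le_of_eq ?_)))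
    ring
  have e0 : P 0 = ι ((sh.brk p q k y).1 s) := by
    simp only [P]; rw [hu0, sh.brk_apply, ha, mul_div_cancel_left₀ _ hk.ne']
  have e1 : P (k + 1) = ι ((sh.brk p q k y).1 t) := by
    simp only [P]; rw [hu1, sh.brk_apply, hb, mul_div_cancel_left₀ _ hk.ne']
  rw [← e0, ← e1, mul_assoc]
  exact h1.trans (mul_le_mul_of_nonneg_left h5 hι.2.1.le)

theorem Short.hoelder {N : ℕ} {ι : M → EuclideanSpace ℝ (Fin N)} {C : ℝ} (hι : LipEmb g ι C)
    (y : sh.W p q k) (s t : unitInterval) :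
    dist (ι ((sh.brk p q k y).1 s)) (ι ((sh.brk p q k y).1 t)) ≤
      C * √(((k : ℝ) + 1) * sh.En p q y.1) * √|(s : ℝ) - t| := by
  rcases le_total (s : ℝ) t with h | h
  · exact sh.bref_le p q hι y s t h
  · rw [dist_comm, abs_sub_comm]; exact sh.bref_le p q hι y t s h

end Pool.Agent.GeoN
end

-- part Pool.Agent.P.MP_365c00_gt.BDom
section

/-! TASK BDom: without long geodesics the path space is dominated by a compact set of broken geodesics. -/

set_option linter.unusedSectionVars false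
set_option linter.unusedVariables false

open Set Filter Topology Metric Function
open scoped Manifold ContDiff

namespace Pool.Agent.GeoN

variable {E : Type} [NormedAddCommGroup E] [InnerProductSpace ℝ E] [FiniteDimensional ℝ E]
  {M : Type} [TopologicalSpace M] [ChartedSpace E M] [IsManifold 𝓘(ℝ, E) ∞ M]
  [T2Space M] [CompactSpace M] [Nonempty M] [Nontrivial E]

variable {g : Met E M}

theorem bdom_proj {k i : ℕ} (hi : i ≤ k + 1) :
    ((projIcc (0 : ℝ) 1 zero_le_one ((i : ℝ) / ((k : ℝ) + 1)) : unitInterval) : ℝ) =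
      (i : ℝ) / ((k : ℝ) + 1) := by
  have h1 : (i : ℝ) ≤ (k : ℝ) + 1 := by exact_mod_cast hi
  rw [projIcc_of_mem zero_le_one ⟨by positivity, (div_le_one (by positivity)).2 h1⟩]

theorem bdom_idx (k : ℕ) (t : unitInterval) :
    ∃ i ≤ k, (i : ℝ) ≤ ((k : ℝ) + 1) * t ∧ ((k : ℝ) + 1) * t ≤ i + 1 := by
  have h0 : 0 ≤ ((k : ℝ) + 1) * t := mul_nonneg (by positivity) t.2.1
  rcases le_total k ⌊((k : ℝ) + 1) * t⌋₊ with h | h
  · refine ⟨k, le_rfl, le_trans (by exact_mod_cast h) (Nat.floor_le h0), ?_⟩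
    exact mul_le_of_le_one_right (by positivity) t.2.2
  · exact ⟨_, h, Nat.floor_le h0, (Nat.lt_floor_add_one _).le⟩

theorem bdom_A (sh : Short g) (p q : M) {N : ℕ} {ι : M → EuclideanSpace ℝ (Fin N)} {C : ℝ}
    (hι : LipEmb g ι C) : ∃ ρ > 0, ∀ (k : ℕ) (Z : Type) [TopologicalSpace Z]
      (f : C(Z, Ser.Om p q)), (∀ z (s t : unitInterval), |(s : ℝ) - t| ≤ 1 / ((k : ℝ) + 1) →
        dist (ι ((f z).1 s)) (ι ((f z).1 t)) < ρ) →
      ∃ φ : C(Z, sh.W p q k),
        (∀ z, ∀ i ≤ k, sh.S (pt p q (φ z).1 i, pt p q (φ z).1 (i + 1)) ≤ sh.ε / 2) ∧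
        f.Homotopic ((sh.brk p q k).comp φ) := by
  obtain ⟨h1, hC, h3⟩ := hι
  have hε := sh.ε_pos
  obtain ⟨ρ0, hρ0, n0⟩ := sh.near h1 hε
  obtain ⟨ρ2, hρ2, n2⟩ := sh.near h1 (δ := min (sh.ε / 2) ((ρ0 / (2 * C)) ^ 2))
    (lt_min (by positivity) (by positivity))
  refine ⟨min ρ2 (ρ0 / 2), lt_min hρ2 (by positivity), fun k Z _ f hf => ?_⟩
  have hk : (0 : ℝ) < (k : ℝ) + 1 := by positivity
  have key : ∀ z, ∀ i ≤ k, (pt p q (smp k (f z)) i, pt p q (smp k (f z)) (i + 1)) ∈ sh.D ∧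
      sh.S (pt p q (smp k (f z)) i, pt p q (smp k (f z)) (i + 1)) <
        min (sh.ε / 2) ((ρ0 / (2 * C)) ^ 2) := fun z i hi => by
    refine n2 _ _ ?_
    rw [pt_smp p q _ (by omega : i ≤ k + 1), pt_smp p q _ (by omega : i + 1 ≤ k + 1)]
    refine (hf z _ _ ?_).trans_le (min_le_left _ _)
    rw [bdom_proj (by omega : i ≤ k + 1), bdom_proj (by omega : i + 1 ≤ k + 1), ← sub_div,
      abs_div, abs_of_pos hk]
    push_cast
    rw [sub_add_cancel_left, abs_neg, abs_one]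
  refine ⟨⟨fun z => ⟨smp k (f z), fun i hi => (key z i hi).1⟩,
    ((smp_cont p q k).comp f.continuous).subtype_mk _⟩,
    fun z i hi => ((key z i hi).2.trans_le (min_le_left _ _)).le,
    sh.homotopic _ _ fun z t => (n0 _ _ ?_).1⟩
  obtain ⟨i, hi, a1, a2⟩ := bdom_idx k t
  obtain ⟨b1, b2⟩ := key z i hi
  rw [ContinuousMap.comp_apply, sh.brk_apply, sh.bk_eq p q (Subtype.property _) hi a1 a2]
  have c1 : dist (ι ((f z).1 t)) (ι (pt p q (smp k (f z)) i)) < ρ0 / 2 := by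
    rw [pt_smp p q _ (by omega : i ≤ k + 1)]
    refine (hf z _ _ ?_).trans_le (min_le_right _ _)
    rw [bdom_proj (by omega : i ≤ k + 1), sub_div' hk.ne', abs_div, abs_of_pos hk]
    gcongr
    rw [abs_le]
    constructor <;> linarith
  have c2 := h3 _ (sh.geo _ b1) 0 (((k : ℝ) + 1) * t - i)
  rw [sh.zero _ b1] at c2
  have c3 : √(sh.S (pt p q (smp k (f z)) i, pt p q (smp k (f z)) (i + 1))) ≤ ρ0 / (2 * C) :=
    Real.sqrt_le_iff.2 ⟨by positivity, (b2.trans_le (min_le_right _ _)).le⟩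
  have c4 : |0 - (((k : ℝ) + 1) * t - i)| ≤ 1 := by
    rw [abs_le]
    constructor <;> linarith
  have c5 : C * √(sh.S (pt p q (smp k (f z)) i, pt p q (smp k (f z)) (i + 1))) *
      |0 - (((k : ℝ) + 1) * t - i)| ≤ C * (ρ0 / (2 * C)) * 1 := by gcongr
  have c6 : C * (ρ0 / (2 * C)) * 1 = ρ0 / 2 := by field_simp
  exact (dist_triangle _ (ι (pt p q (smp k (f z)) i)) _).trans_lt
    ((add_lt_add_of_lt_of_le c1 (c2.trans (c5.trans c6.le))).trans_eq (add_halves ρ0))

theorem bdom_unif {p q : M} {N : ℕ} {ι : M → EuclideanSpace ℝ (Fin N)} (hι : Continuous ι)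
    {Z : Type} [TopologicalSpace Z] [CompactSpace Z] (f : C(Z, Ser.Om p q)) {ρ : ℝ} (hρ : 0 < ρ) :
    ∃ k : ℕ, ∀ z (s t : unitInterval), |(s : ℝ) - t| ≤ 1 / ((k : ℝ) + 1) →
      dist (ι ((f z).1 s)) (ι ((f z).1 t)) < ρ := by
  have h0 : Continuous fun z => (f z).1 := continuous_subtype_val.comp f.continuous
  have h1 : IsClosed {w : Z × unitInterval × unitInterval |
      ρ ≤ dist (ι ((f w.1).1 w.2.1)) (ι ((f w.1).1 w.2.2))} :=
    isClosed_le continuous_const
      ((hι.comp ((h0.comp continuous_fst).eval continuous_snd.fst)).dist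
        (hι.comp ((h0.comp continuous_fst).eval continuous_snd.snd)))
  obtain ⟨a, ha, h2⟩ := h1.isCompact.exists_forall_le' (a := (0 : ℝ))
    (f := fun w => |(w.2.1 : ℝ) - w.2.2|) (by fun_prop) fun w hw => by
      refine abs_pos.2 (sub_ne_zero.2 fun e => ?_)
      have e1 : w.2.1 = w.2.2 := Subtype.ext e
      have e2 : ρ ≤ dist (ι ((f w.1).1 w.2.1)) (ι ((f w.1).1 w.2.2)) := hw
      rw [e1, dist_self] at e2
      exact absurd hρ e2.not_gt
  obtain ⟨k, hk⟩ := exists_nat_one_div_lt ha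
  refine ⟨k, fun z s t h => ?_⟩
  by_contra h3
  exact absurd (h2 (z, s, t) (not_lt.1 h3)) (h.trans_lt hk).not_ge

theorem bdom_def (sh : Short g) (p q : M) {T B : ℝ} (hB : T < B)
    (hT : ∀ γ, IsGeodesic g γ → γ 0 = p → γ 1 = q → energy g γ 0 ≤ T) (k : ℕ) {c : ℝ}
    (hc : c < sh.ε) : ∃ Ψ : C({y | y ∈ sh.W p q k ∧ sh.En p q y ≤ c},
      {y | y ∈ sh.W p q k ∧ sh.En p q y ≤ c}), Ψ.Homotopic (ContinuousMap.id _) ∧
      ∀ z, ((k : ℝ) + 1) * sh.En p q (Ψ z).1 ≤ B := by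
  classical
  have hk : (0 : ℝ) < (k : ℝ) + 1 := by positivity
  have : CompactSpace {y | y ∈ sh.W p q k ∧ sh.En p q y ≤ c} :=
    isCompact_iff_compactSpace.1 (sh.compact_En p q hc)
  obtain ⟨Ψ, h1, h2⟩ := deform (Z := {y | y ∈ sh.W p q k ∧ sh.En p q y ≤ c})
    ⟨fun z => sh.En p q z.1, (sh.En_cont p q).comp_continuous continuous_subtype_val
      fun z => z.2.1⟩ (B / ((k : ℝ) + 1)) fun z hz => by
    obtain ⟨U, hU, m, m1, m2⟩ := sh.move p q z.2.1 fun γ a1 a2 a3 e => by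
      have a4 := hT γ a1 a2 a3
      have a5 : B ≤ sh.En p q z.1 * ((k : ℝ) + 1) := (div_le_iff₀ hk).1 hz
      linarith
    have m3 : ∀ y : {y | y ∈ sh.W p q k ∧ sh.En p q y ≤ c}, y.1 ∈ U → ∀ s ∈ Icc (0 : ℝ) 1,
        m (y.1, s) ∈ {y | y ∈ sh.W p q k ∧ sh.En p q y ≤ c} := fun y hy s hs => by
      refine ⟨((m2 _ hy).2 s hs).1, ?_⟩
      rcases hs.1.eq_or_lt with e | e
      · rw [← e, (m2 _ hy).1]
        exact y.2.2
      · exact (((m2 _ hy).2 s hs).2 e).le.trans y.2.2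
    refine ⟨Subtype.val ⁻¹' U, continuous_subtype_val.continuousAt.preimage_mem_nhds hU,
      fun w => if h : m (w.1.1, w.2) ∈ {y | y ∈ sh.W p q k ∧ sh.En p q y ≤ c} then ⟨_, h⟩
        else w.1, ?_, fun y hy => ⟨?_, fun s hs => ?_⟩⟩
    · rw [IsInducing.subtypeVal.continuousOn_iff]
      refine (m1.comp (f := fun w : {y | y ∈ sh.W p q k ∧ sh.En p q y ≤ c} × ℝ => (w.1.1, w.2))
        (by fun_prop) fun w hw => hw).congr fun w hw => ?_
      simp only [comp_apply, dif_pos (m3 w.1 hw.1 w.2 hw.2)]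
    · simp only [dif_pos (m3 y hy 0 ⟨le_rfl, zero_le_one⟩)]
      exact Subtype.ext (m2 _ hy).1
    · simp only [dif_pos (m3 y hy s ⟨hs.1.le, hs.2⟩)]
      exact ((m2 _ hy).2 s ⟨hs.1.le, hs.2⟩).2 hs.1
  exact ⟨Ψ, h1, fun z => (le_div_iff₀' hk).1 (h2 z)⟩

theorem Short.dom (sh : Short g) (p q : M) {T : ℝ}
    (hT : ∀ γ, IsGeodesic g γ → γ 0 = p → γ 1 = q → energy g γ 0 ≤ T) :
    ∃ (k : ℕ) (Z : Set (sh.W p q k)), IsCompact Z ∧ ∀ K : Set (Ser.Om p q), IsCompact K →
      ∃ φ : C(K, sh.W p q k), (∀ z, φ z ∈ Z) ∧ ContinuousMap.Homotopic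
        (⟨Subtype.val, continuous_subtype_val⟩ : C(K, Ser.Om p q)) ((sh.brk p q k).comp φ) := by
  obtain ⟨N, ι, C, hι⟩ := exists_lipEmb g
  obtain ⟨ρ, hρ, hA⟩ := bdom_A sh p q hι
  have hC := hι.2.1
  have hε := sh.ε_pos
  obtain ⟨B, hB, hTB⟩ : ∃ B : ℝ, 0 < B ∧ T < B :=
    ⟨max T 0 + 1, by positivity, by linarith [le_max_left T 0]⟩
  obtain ⟨k0, hk0⟩ := exists_nat_one_div_lt (show 0 < (ρ / (C * √B)) ^ 2 by positivity)
  refine ⟨k0, {y | ∀ i ≤ k0, sh.S (pt p q y.1 i, pt p q y.1 (i + 1)) ≤ sh.ε / 2}, ?_,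
    fun K hK => ?_⟩
  · rw [Subtype.isCompact_iff]
    refine (sh.compact_each p q (k := k0) (half_lt_self hε)).of_isClosed_subset ?_ ?_
    · have e : Subtype.val '' {y : sh.W p q k0 |
          ∀ i ≤ k0, sh.S (pt p q y.1 i, pt p q y.1 (i + 1)) ≤ sh.ε / 2} =
          {y | y ∈ sh.W p q k0 ∧ ∀ i ≤ k0, sh.S (pt p q y i, pt p q y (i + 1)) ≤ sh.ε / 2} := by
        ext y
        exact ⟨fun ⟨y', h, e⟩ => e ▸ ⟨y'.2, h⟩, fun h => ⟨⟨y, h.1⟩, h.2, rfl⟩⟩
      rw [e]
      exact (sh.compact_each p q (half_lt_self hε)).isClosed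
    · rintro _ ⟨y, h, rfl⟩
      exact ⟨y.2, h⟩
  have : CompactSpace K := isCompact_iff_compactSpace.1 hK
  obtain ⟨k1, hk1⟩ := bdom_unif hι.1.continuous
    (⟨Subtype.val, continuous_subtype_val⟩ : C(K, Ser.Om p q)) hρ
  obtain ⟨φ0, a1, a2⟩ := hA k1 K _ hk1
  have hk : (0 : ℝ) < (k1 : ℝ) + 1 := by positivity
  have hr := fun z => sh.refine p q (φ0 z) (m := k1 + 1) (k' := k1 * k1 + 2 * k1)
    (Nat.succ_pos _) (by ring)
  choose r1 r2 r3 using hr
  have r4 : ∀ z, sh.En p q (smp (k1 * k1 + 2 * k1) (sh.brk p q k1 (φ0 z))) ≤ sh.ε / 2 :=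
    fun z => by
      rw [r2, Nat.cast_succ, div_le_iff₀ hk]
      refine (Finset.sum_le_card_nsmul _ _ (sh.ε / 2) fun i hi =>
        a1 z i (Nat.lt_succ_iff.1 (Finset.mem_range.1 hi))).trans (le_of_eq ?_)
      rw [Finset.card_range, nsmul_eq_mul, Nat.cast_succ, mul_comm]
  obtain ⟨Ψ, b1, b2⟩ := bdom_def sh p q hTB hT (k1 * k1 + 2 * k1) (half_lt_self hε)
  let φ1 : C(K, {y | y ∈ sh.W p q (k1 * k1 + 2 * k1) ∧ sh.En p q y ≤ sh.ε / 2}) :=
    ⟨fun z => ⟨smp _ (sh.brk p q k1 (φ0 z)), r1 z, r4 z⟩,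
      ((smp_cont p q _).comp ((sh.brk p q k1).comp φ0).continuous).subtype_mk _⟩
  let j : C({y | y ∈ sh.W p q (k1 * k1 + 2 * k1) ∧ sh.En p q y ≤ sh.ε / 2},
      sh.W p q (k1 * k1 + 2 * k1)) :=
    ⟨fun y => ⟨y.1, y.2.1⟩, continuous_subtype_val.subtype_mk _⟩
  have c1 : (((sh.brk p q _).comp j).comp (Ψ.comp φ1)).Homotopic ((sh.brk p q k1).comp φ0) := by
    have e : ((sh.brk p q _).comp j).comp ((ContinuousMap.id _).comp φ1) =
        (sh.brk p q k1).comp φ0 := ContinuousMap.ext fun z => r3 z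
    rw [← e]
    exact (ContinuousMap.Homotopic.refl _).comp (b1.comp (ContinuousMap.Homotopic.refl φ1))
  obtain ⟨φ, d1, d2⟩ := hA k0 K (((sh.brk p q _).comp j).comp (Ψ.comp φ1)) fun z s t h => by
    refine (sh.hoelder p q hι (j (Ψ (φ1 z))) s t).trans_lt ?_
    have e1 : √|(s : ℝ) - t| < ρ / (C * √B) :=
      (Real.sqrt_lt' (by positivity)).2 (h.trans_lt hk0)
    calc _ ≤ C * √B * √|(s : ℝ) - t| := by gcongr; exact b2 (φ1 z)
      _ < ρ := (lt_div_iff₀' (by positivity)).1 e1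
  exact ⟨φ, d1, a2.trans (c1.symm.trans d2)⟩

end Pool.Agent.GeoN
end

-- part Pool.Agent.P.MP_365c00_gt.BKey
section

/-! TASK BKey: under the moment condition the flat set of a return map is open. -/

set_option linter.unusedSectionVars false
set_option linter.unusedVariables false

open Set Filter Topology Metric Function
open scoped Manifold ContDiff

namespace Pool.Agent.GeoN

variable {E : Type} [NormedAddCommGroup E] [InnerProductSpace ℝ E] [FiniteDimensional ℝ E]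
  {M : Type} [TopologicalSpace M] [ChartedSpace E M] [IsManifold 𝓘(ℝ, E) ∞ M]
  [T2Space M] [CompactSpace M] [Nonempty M] [Nontrivial E]

open MeasureTheory

variable {g : Met E M} {sh : Short g} {x : M} {w0 : E × E} {τ : ℝ}
  [MeasurableSpace (E × E)] [BorelSpace (E × E)]

theorem Box.key_smooth (b : Box sh x w0 τ) :
    ContDiffOn ℝ ∞ (fun w => b.f w - w) (ball w0 b.r) :=
  b.f_smooth.sub contDiffOn_id

theorem Box.key_c_pos (b : Box sh x w0 τ) : 0 < τ ∧ 0 < b.c := by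
  have h1 := b.θ_pos
  have h2 := b.θ_τ
  have h3 := b.θ_c
  have h4 : 0 < τ := by linarith
  refine ⟨h4, lt_trans ?_ h3⟩
  positivity

theorem Box.key_count (b : Box sh x w0 τ) {w1 : E × E}
    (hw1 : w1 ∈ Flat (fun w => b.f w - w) (ball w0 b.r)) {m : ℕ} (hm : 1 ≤ m) :
    ∃ A > 0, ∃ δ1 > 0, ∀ d : ℝ, 0 < d → d ≤ δ1 → ball w1 (3 * d) ⊆ ball w0 b.r ∧
      ∀ w ∈ ball w1 (3 * d), b.f w ≠ w → ENNReal.ofReal (A / d ^ m) ≤ num g x x w := by
  obtain ⟨hτ, hc⟩ := b.key_c_pos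
  obtain ⟨C, hC, δ0, hδ0, hsub, hest⟩ := flat_est isOpen_ball b.key_smooth hw1 m
  obtain ⟨al, hal0, hal1, hal2⟩ : ∃ al : ℝ, 0 < al ∧ al ≤ 1 ∧ al * (τ + 1) ≤ b.c / 4 := by
    refine ⟨min 1 (b.c / (4 * (τ + 1))), lt_min one_pos (by positivity), min_le_left _ _, ?_⟩
    have h1 : min 1 (b.c / (4 * (τ + 1))) ≤ b.c / (4 * (τ + 1)) := min_le_right _ _
    have h2 : b.c / (4 * (τ + 1)) * (τ + 1) = b.c / 4 := by field_simp
    rw [← h2]
    exact mul_le_mul_of_nonneg_right h1 (by positivity)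
  obtain ⟨B, hB⟩ : ∃ B : ℝ, B = 4 / b.c + 2 := ⟨_, rfl⟩
  have hB0 : 0 < 4 / b.c := by positivity
  have hBpos : 0 < B := by rw [hB]; positivity
  refine ⟨al / (200 * C * 10 ^ m), by positivity,
    min (δ0 / 10) (min (1 / 10) (1 / (1000 * C * B))), by positivity, ?_⟩
  intro d hd hdle
  have hd1 : 10 * d ≤ δ0 := by
    have := hdle.trans (min_le_left _ _); linarith
  have hd2 : 10 * d ≤ 1 := by
    have := (hdle.trans (min_le_right _ _)).trans (min_le_left _ _); linarith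
  have hd3 : d * (1000 * C * B) ≤ 1 := by
    have := (hdle.trans (min_le_right _ _)).trans (min_le_right _ _)
    rwa [le_div_iff₀ (by positivity)] at this
  have hball : ball w1 (10 * d) ⊆ ball w0 b.r := (ball_subset_ball hd1).trans hsub
  refine ⟨(ball_subset_ball (by linarith)).trans hball, ?_⟩
  intro w hw hne
  obtain ⟨η, hη⟩ : ∃ η : ℝ, η = C * (10 * d) ^ m := ⟨_, rfl⟩
  have hη0 : 0 < η := by rw [hη]; positivity
  have hpow : (10 * d) ^ m ≤ 10 * d := pow_le_of_le_one (by positivity) hd2 (by omega)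
  have hη1 : 100 * η * B ≤ 1 := by
    have h1 : η ≤ C * (10 * d) := by rw [hη]; exact mul_le_mul_of_nonneg_left hpow hC.le
    have h2 : 100 * η * B ≤ 100 * (C * (10 * d)) * B :=
      mul_le_mul_of_nonneg_right (by linarith) hBpos.le
    nlinarith
  obtain ⟨u, hu⟩ : ∃ u : ℝ, u = 1 / (100 * η) := ⟨_, rfl⟩
  have hu0 : 0 < u := by rw [hu]; positivity
  have huB : B ≤ u := by
    rw [hu, le_div_iff₀ (by positivity)]; linarith
  obtain ⟨K, hK⟩ : ∃ K : ℕ, K = ⌊u⌋₊ := ⟨_, rfl⟩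
  have hK1 : (K : ℝ) ≤ u := by rw [hK]; exact Nat.floor_le hu0.le
  have hK2 : u < K + 1 := by rw [hK]; exact Nat.lt_floor_add_one u
  have hN : NearId b.f w1 d η K := by
    have h0 := Flat.zero hw1
    refine ⟨hd, hη0.le, sub_eq_zero.1 h0, ?_, ?_⟩
    · intro y hy y' hy'
      rw [hη]
      exact hest (10 * d) (by positivity) hd1 y hy y' hy'
    · have h1 : (K : ℝ) * η ≤ u * η := mul_le_mul_of_nonneg_right hK1 hη0.le
      have h2 : u * η = 1 / 100 := by rw [hu]; field_simp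
      linarith
  have hsol : ∀ k : ℕ, ∃ y : E × E, k ≤ K →
      y ∈ ball w1 (5 * d) ∧ y.1 = w.1 ∧ (b.f^[k] y).2 = w.2 := by
    intro k
    by_cases hk : k ≤ K
    · obtain ⟨y, hy, h⟩ := hN.solve hw hk
      exact ⟨y, fun _ => ⟨hy, h⟩⟩
    · exact ⟨w, fun h => absurd h hk⟩
  choose y hy using hsol
  obtain ⟨K', hK'⟩ : ∃ K' : ℕ, K' = ⌊al * K⌋₊ := ⟨_, rfl⟩
  have hKn : (0 : ℝ) ≤ K := Nat.cast_nonneg K
  have hK'1 : (K' : ℝ) ≤ al * K := by rw [hK']; exact Nat.floor_le (by positivity)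
  have hK'2 : al * K < K' + 1 := by rw [hK']; exact Nat.lt_floor_add_one _
  have hK'K : K' ≤ K := by
    have : (K' : ℝ) ≤ K := hK'1.trans (by nlinarith)
    exact_mod_cast this
  have hcK : 4 < b.c * K := by
    have h1 : 4 / b.c < K := by linarith
    rw [div_lt_iff₀ hc] at h1
    linarith
  have hcount := b.count (K := K) (K' := K') (w := w)
    (hball (ball_subset_ball (by linarith) hw)) y
    (fun k hk => (hy k (hk.trans hK'K)).2)
    (fun k hk j hj => hball (hN.mem (hy k (hk.trans hK'K)).1 hj))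
    (fun k hk j j' hj hj' e => by
      obtain ⟨h1, h2, h3⟩ := hy k (hk.trans hK'K)
      have hf : b.f (y k) = y k := hN.fixed h1 hj hj' e
      have hi : b.f^[k] (y k) = y k := Function.iterate_fixed hf k
      rw [hi] at h3
      have hyw : y k = w := Prod.ext h2 h3
      rw [hyw] at hf
      exact hne hf)
    hK'K
    (by
      have h1 : (K' : ℝ) * (τ + 1) ≤ al * K * (τ + 1) :=
        mul_le_mul_of_nonneg_right hK'1 (by positivity)
      have h2 : al * (τ + 1) * K ≤ b.c / 4 * K := mul_le_mul_of_nonneg_right hal2 hKn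
      nlinarith)
  refine le_trans ?_ hcount
  rw [← ENNReal.ofReal_natCast]
  apply ENNReal.ofReal_le_ofReal
  have h1 : al / (200 * C * 10 ^ m) / d ^ m = al * (u / 2) := by
    rw [hu, hη, mul_pow]; field_simp; ring
  have h2 : u / 2 ≤ K := by linarith
  have h3 : al * (u / 2) ≤ al * K := mul_le_mul_of_nonneg_left h2 hal0.le
  rw [h1]
  push_cast
  linarith

theorem Box.key_touch (b : Box sh x w0 τ) (μ : Measure (E × E)) [μ.IsAddHaarMeasure] {s : ℝ}
    (hs : 0 < s) (hμ : ∫⁻ w in ball w0 b.r, num g x x w ^ s ∂μ < ⊤) {w1 c : E × E}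
    (hw1 : w1 ∈ Flat (fun w => b.f w - w) (ball w0 b.r)) (hc : 0 < dist c w1)
    (hno : ∀ y ∈ ball c (dist c w1), y ∉ Flat (fun w => b.f w - w) (ball w0 b.r)) : False := by
  obtain ⟨D, hD⟩ : ∃ D : ℕ, D = Module.finrank ℝ (E × E) := ⟨_, rfl⟩
  obtain ⟨m, hm⟩ := exists_nat_ge (((D : ℝ) + 1) / s)
  have hms : (D : ℝ) + 1 ≤ m * s := by rwa [div_le_iff₀ hs] at hm
  have hm1 : 1 ≤ m := by
    rcases Nat.eq_zero_or_pos m with h | h
    · rw [h] at hms
      have : (0 : ℝ) ≤ D := Nat.cast_nonneg D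
      simp only [Nat.cast_zero, zero_mul] at hms
      linarith
    · exact h
  obtain ⟨A, hA, δ1, hδ1, hcnt⟩ := b.key_count hw1 hm1
  obtain ⟨R, hR⟩ : ∃ R : ℝ, R = dist c w1 := ⟨_, rfl⟩
  rw [← hR] at hc hno
  obtain ⟨I, hI⟩ : ∃ I, I = ∫⁻ w in ball w0 b.r, num g x x w ^ s ∂μ := ⟨_, rfl⟩
  have hI0 : 0 ≤ I.toReal := ENNReal.toReal_nonneg
  have hβ0 : μ (ball (0 : E × E) 1) ≠ 0 := (measure_ball_pos μ _ one_pos).ne'
  have hβ1 : μ (ball (0 : E × E) 1) ≠ ⊤ := measure_ball_lt_top.ne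
  obtain ⟨β, hβ⟩ : ∃ β : ℝ, β = (μ (ball (0 : E × E) 1)).toReal := ⟨_, rfl⟩
  have hβpos : 0 < β := by rw [hβ]; exact ENNReal.toReal_pos hβ0 hβ1
  have hAs : 0 < A ^ s := Real.rpow_pos_of_pos hA s
  obtain ⟨d, hd, hd1, hd2, hd3, hd4⟩ : ∃ d : ℝ, 0 < d ∧ d ≤ δ1 ∧ d ≤ 1 ∧ 2 * d ≤ R ∧
      d * (I.toReal + 1) ≤ A ^ s * β := by
    refine ⟨min (min δ1 1) (min (R / 2) (A ^ s * β / (I.toReal + 1))), by positivity,
      (min_le_left _ _).trans (min_le_left _ _), (min_le_left _ _).trans (min_le_right _ _),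
      ?_, ?_⟩
    · have : min (min δ1 1) (min (R / 2) (A ^ s * β / (I.toReal + 1))) ≤ R / 2 :=
        (min_le_right _ _).trans (min_le_left _ _)
      linarith
    · rw [← le_div_iff₀ (by positivity)]
      exact (min_le_right _ _).trans (min_le_right _ _)
  obtain ⟨hsub, hlow⟩ := hcnt d hd hd1
  obtain ⟨wd, hwd⟩ : ∃ wd : E × E, wd = w1 + (2 * d / R) • (c - w1) := ⟨_, rfl⟩
  have hnorm : ‖c - w1‖ = R := by rw [hR, dist_eq_norm]
  have hq0 : 0 ≤ 2 * d / R := by positivity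
  have hq1 : 2 * d / R ≤ 1 := by rw [div_le_one hc]; exact hd3
  have hqR : 2 * d / R * R = 2 * d := by field_simp
  have e1 : dist wd w1 = 2 * d := by
    rw [hwd, dist_eq_norm, add_sub_cancel_left, norm_smul, hnorm, Real.norm_eq_abs,
      abs_of_nonneg hq0, hqR]
  have e2 : dist wd c = R - 2 * d := by
    have : wd - c = (-(1 - 2 * d / R)) • (c - w1) := by
      rw [hwd, neg_smul, sub_smul, one_smul]; abel
    rw [dist_eq_norm, this, norm_smul, hnorm, Real.norm_eq_abs, abs_neg,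
      abs_of_nonneg (by linarith), sub_mul, hqR, one_mul]
  have s1 : ball wd d ⊆ ball w1 (3 * d) := by
    intro y hy
    have := dist_triangle y wd w1
    rw [mem_ball] at hy ⊢
    linarith
  have s2 : ball wd d ⊆ ball c R := by
    intro y hy
    have := dist_triangle y wd c
    rw [mem_ball] at hy ⊢
    linarith
  have hnull := null_diff_flat μ isOpen_ball b.key_smooth
  have hae : ∀ᵐ w ∂(μ.restrict (ball wd d)),
      ENNReal.ofReal (A / d ^ m) ^ s ≤ num g x x w ^ s := by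
    rw [ae_restrict_iff' measurableSet_ball]
    have h0 : ∀ᵐ w ∂μ, w ∉ ({w | w ∈ ball w0 b.r ∧ b.f w - w = 0} \
        Flat (fun w => b.f w - w) (ball w0 b.r)) := measure_eq_zero_iff_ae_notMem.1 hnull
    filter_upwards [h0] with w hw hwb
    apply ENNReal.rpow_le_rpow _ hs.le
    apply hlow w (s1 hwb)
    intro hfix
    exact hw ⟨⟨hsub (s1 hwb), sub_eq_zero.2 hfix⟩, hno w (s2 hwb)⟩
  have hle : ENNReal.ofReal (A / d ^ m) ^ s * μ (ball wd d) ≤ I := by
    rw [hI, ← setLIntegral_const]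
    exact (lintegral_mono_ae hae).trans (lintegral_mono_set (s1.trans hsub))
  rw [Measure.addHaar_ball_of_pos μ wd hd, ← hD,
    ENNReal.ofReal_rpow_of_pos (by positivity)] at hle
  have hIt : I ≠ ⊤ := by rw [hI]; exact hμ.ne
  have hre := ENNReal.toReal_mono hIt hle
  rw [ENNReal.toReal_mul, ENNReal.toReal_mul, ← hβ,
    ENNReal.toReal_ofReal (by positivity), ENNReal.toReal_ofReal (by positivity)] at hre
  have hdm : (d ^ m) ^ s ≤ d ^ (D + 1) := by
    rw [← Real.rpow_natCast, ← Real.rpow_mul hd.le, ← Real.rpow_natCast]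
    apply Real.rpow_le_rpow_of_exponent_ge hd hd2
    push_cast
    exact hms
  have hdm0 : 0 < (d ^ m) ^ s := Real.rpow_pos_of_pos (by positivity) s
  rw [Real.div_rpow hA.le (by positivity)] at hre
  have h1 : A ^ s / d ^ (D + 1) ≤ A ^ s / (d ^ m) ^ s :=
    div_le_div_of_nonneg_left hAs.le hdm0 hdm
  have h2 : A ^ s / d ^ (D + 1) * (d ^ D * β) ≤ I.toReal :=
    (mul_le_mul_of_nonneg_right h1 (by positivity)).trans hre
  have h3 : A ^ s / d ^ (D + 1) * (d ^ D * β) = A ^ s * β / d := by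
    rw [pow_succ]; field_simp
  rw [h3, div_le_iff₀ hd] at h2
  nlinarith

theorem Box.flat_open (b : Box sh x w0 τ) (μ : Measure (E × E)) [μ.IsAddHaarMeasure] {s : ℝ}
    (hs : 0 < s) (hμ : ∫⁻ w in ball w0 b.r, num g x x w ^ s ∂μ < ⊤) :
    IsOpen (Flat (fun w => b.f w - w) (ball w0 b.r)) := by
  rw [Metric.isOpen_iff]
  intro v hv
  obtain ⟨ε, hε, hεs⟩ := Metric.isOpen_iff.1 isOpen_ball v hv.1
  refine ⟨ε / 3, by positivity, fun c hc => ?_⟩
  by_contra hcn
  have hcb : closedBall v (2 * (ε / 3)) ⊆ ball w0 b.r :=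
    (closedBall_subset_ball (by linarith)).trans hεs
  have hcl : IsClosed (Flat (fun w => b.f w - w) (ball w0 b.r) ∩ closedBall v (2 * (ε / 3))) := by
    rw [← closure_subset_iff_isClosed]
    intro y hy
    have h2 : y ∈ closedBall v (2 * (ε / 3)) :=
      isClosed_closedBall.closure_subset (closure_mono inter_subset_right hy)
    exact ⟨mem_flat_of_closure isOpen_ball b.key_smooth (hcb h2)
      (closure_mono inter_subset_left hy), h2⟩
  have hcp : IsCompact (Flat (fun w => b.f w - w) (ball w0 b.r) ∩ closedBall v (2 * (ε / 3))) :=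
    (isCompact_closedBall v _).of_isClosed_subset hcl inter_subset_right
  have hvm : v ∈ Flat (fun w => b.f w - w) (ball w0 b.r) ∩ closedBall v (2 * (ε / 3)) :=
    ⟨hv, mem_closedBall_self (by positivity)⟩
  obtain ⟨w1, hw1, hmin⟩ := hcp.exists_isMinOn ⟨v, hvm⟩
    (f := fun y => dist c y) (continuous_const.dist continuous_id).continuousOn
  have hpos : 0 < dist c w1 := by
    rw [dist_pos]
    rintro rfl
    exact hcn hw1.1
  have hlt : dist c w1 ≤ dist c v := hmin hvm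
  refine b.key_touch μ hs hμ hw1.1 hpos fun y hy hyf => ?_
  rw [mem_ball] at hy hc
  have h1 : y ∈ closedBall v (2 * (ε / 3)) := by
    have := dist_triangle y c v
    rw [mem_closedBall]
    linarith
  have h2 : dist c w1 ≤ dist c y := hmin ⟨hyf, h1⟩
  rw [dist_comm c y] at h2
  linarith

theorem Box.all_fixed (b : Box sh x w0 τ) (μ : Measure (E × E)) [μ.IsAddHaarMeasure] {s : ℝ}
    (hs : 0 < s) (hμ : ∫⁻ w in ball w0 b.r, num g x x w ^ s ∂μ < ⊤)
    (hne : (Flat (fun w => b.f w - w) (ball w0 b.r)).Nonempty) :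
    ∀ w ∈ ball w0 b.r, b.f w = w := by
  have hsub : ball w0 b.r ⊆ Flat (fun w => b.f w - w) (ball w0 b.r) := by
    apply (convex_ball w0 b.r).isPreconnected.subset_of_closure_inter_subset
      (b.flat_open μ hs hμ)
    · obtain ⟨v, hv⟩ := hne
      exact ⟨v, hv.1, hv⟩
    · intro y hy
      exact mem_flat_of_closure isOpen_ball b.key_smooth hy.2 hy.1
  intro w hw
  have h0 := Flat.zero (hsub hw)
  exact sub_eq_zero.1 h0

end Pool.Agent.GeoN
end

-- part Pool.Agent.P.MP_365c00_gt.BLong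
section

/-! TASK BLong: Serre's theorem: arbitrarily long geodesics between any two points. -/

set_option linter.unusedSectionVars false
set_option linter.unusedVariables false

open Set Filter Topology Metric Function
open scoped Manifold ContDiff

namespace Pool.Agent.GeoN

variable {E : Type} [NormedAddCommGroup E] [InnerProductSpace ℝ E] [FiniteDimensional ℝ E]
  {M : Type} [TopologicalSpace M] [ChartedSpace E M] [IsManifold 𝓘(ℝ, E) ∞ M]
  [T2Space M] [CompactSpace M] [Nonempty M] [Nontrivial E]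

theorem blong_joined {A B : Type} [TopologicalSpace A] [TopologicalSpace B] {f f' : C(A, B)}
    (h : f.Homotopic f') (a : A) : Joined (f a) (f' a) := by
  obtain ⟨H⟩ := h
  exact ⟨H.evalAt a⟩

theorem blong_near {g : Met E M} (sh : Short g) {p q : M} (c : Ser.Om p q) :
    ∀ᶠ c' in 𝓝 c, Joined c' c := by
  have h1 : ∀ᶠ c' : Ser.Om p q in 𝓝 c, ∀ t ∈ (univ : Set unitInterval), (c'.1 t, c.1 t) ∈ sh.D := by
    refine isCompact_univ.eventually_forall_of_forall_eventually fun t _ => ?_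
    have hc : Continuous fun z : Ser.Om p q × unitInterval => (z.1.1 z.2, c.1 z.2) := by
      fun_prop
    exact hc.continuousAt.eventually_mem (sh.D_open.mem_nhds (sh.diag _))
  filter_upwards [h1] with c' hc'
  exact blong_joined (sh.homotopic (Z := PUnit) (ContinuousMap.const _ c')
    (ContinuousMap.const _ c) fun _ t => hc' t (mem_univ t)) PUnit.unit

theorem serre [ConnectedSpace M] (g : Met E M) (p q : M) (T : ℝ) :
    ∃ γ, IsGeodesic g γ ∧ γ 0 = p ∧ γ 1 = q ∧ T < energy g γ 0 := by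
  by_contra hno
  push Not at hno
  obtain ⟨sh⟩ := exists_short g
  obtain ⟨k, Z, hZ, hdom⟩ := sh.dom p q hno
  have hch : Ser.Charted (Module.finrank ℝ E) M := Ser.charted_of_chartedSpace
  have hv : Ser.Van (Ser.Om p q) (k * Module.finrank ℝ E) :=
    Ser.van_of_dom (sh.brk p q k) (fun K hK => (hdom K hK).imp fun φ h => h.2)
      (Ser.van_open (hch.pi k) (sh.W_open p q k))
  have hfin : Ser.FinComp (univ : Set (Ser.Om p q)) := by
    obtain ⟨S, -, hS⟩ := (hZ.image (sh.brk p q k).continuous).elim_nhds_subcover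
      (fun c => {c' | Joined c' c}) fun c _ => blong_near sh c
    refine ⟨S, S.finite_toSet, fun c _ => ?_⟩
    obtain ⟨φ, h1, h2⟩ := hdom {c} isCompact_singleton
    obtain ⟨s, hs, h3⟩ := mem_iUnion₂.1 (hS (mem_image_of_mem _ (h1 ⟨c, rfl⟩)))
    exact ⟨s, hs, joinedIn_univ.2 ((blong_joined h2 ⟨c, rfl⟩).trans h3)⟩
  have : LocallyPathConnectedSpace M := ChartedSpace.locallyPathConnectedSpace E M
  have : PathConnectedSpace M := pathConnectedSpace_iff_connectedSpace.2 inferInstance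
  exact Ser.serre_top Module.finrank_pos hch p q hfin hv

end Pool.Agent.GeoN
end

-- part Pool.Agent.P.MP_365c00_gt.BStep
section

/-! TASK BStep: the moment condition gives an open set of geodesics with a common period. -/

set_option linter.unusedSectionVars false
set_option linter.unusedVariables false

open Set Filter Topology Metric Function
open scoped Manifold ContDiff

namespace Pool.Agent.GeoN

variable {E : Type} [NormedAddCommGroup E] [InnerProductSpace ℝ E] [FiniteDimensional ℝ E]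
  {M : Type} [TopologicalSpace M] [ChartedSpace E M] [IsManifold 𝓘(ℝ, E) ∞ M]
  [T2Space M] [CompactSpace M] [Nonempty M] [Nontrivial E]

open MeasureTheory

variable {g : Met E M} [MeasurableSpace (E × E)] [BorelSpace (E × E)]

/-- a box all of whose points are fixed gives an interior point -/
theorem Box.interior {sh : Short g} {x : M} {w0 : E × E} {τ : ℝ} (b : Box sh x w0 τ)
    (h : ∀ w ∈ ball w0 b.r, b.f w = w) (u : UG g)
    (hu : ∀ t, sh.Γ x w0 t = u.1 (√(energy g (sh.Γ x w0) 0) * t)) :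
    u ∈ interior (Per g (√(energy g (sh.Γ x w0) 0) * τ)) := by
  have hw0 : w0 ∈ sh.V x := b.sub (mem_ball_self b.r_pos)
  have hpos := Short.Γ_pos hw0
  have hlt : energy g (sh.Γ x w0) 0 < sh.ε := sh.lt _ hw0.2.2.1
  set e0 := energy g (sh.Γ x w0) 0 with he0
  set lam := √e0 with hlam
  have hl : 0 < lam := Real.sqrt_pos.2 hpos
  have hl2 : lam ^ 2 = e0 := Real.sq_sqrt hpos.le
  have u0 : u.1 0 = (κ E x).symm w0.1 := by rw [← Short.Γ_zero hw0, hu, mul_zero]
  have u1 : u.1 lam = (κ E x).symm w0.2 := by rw [← Short.Γ_one hw0, hu, mul_one]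
  have s0 : u.1 0 ∈ (κ E x).source := u0 ▸ (κ E x).map_target hw0.1
  have s1 : u.1 lam ∈ (κ E x).source := u1 ▸ (κ E x).map_target hw0.2.1
  have hev : ∀ t : ℝ, Continuous fun v : UG g => v.1 t := fun t =>
    (ev_cont g).comp (continuous_id.prodMk continuous_const)
  have e1 : ∀ᶠ v : UG g in 𝓝 u, v.1 0 ∈ (κ E x).source :=
    (hev 0).continuousAt.eventually_mem ((source_open x).mem_nhds s0)
  have e2 : ∀ᶠ v : UG g in 𝓝 u, v.1 lam ∈ (κ E x).source :=
    (hev lam).continuousAt.eventually_mem ((source_open x).mem_nhds s1)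
  have c1 : ContinuousAt (fun v : UG g => κ E x (v.1 0)) u :=
    ContinuousAt.comp (f := fun v : UG g => v.1 0) (continuousAt_extChartAt' s0)
      (hev 0).continuousAt
  have c2 : ContinuousAt (fun v : UG g => κ E x (v.1 lam)) u :=
    ContinuousAt.comp (f := fun v : UG g => v.1 lam) (continuousAt_extChartAt' s1)
      (hev lam).continuousAt
  have e3 : ∀ᶠ v : UG g in 𝓝 u, (κ E x (v.1 0), κ E x (v.1 lam)) ∈ ball w0 b.r := by
    refine (c1.prodMk c2).eventually_mem (isOpen_ball.mem_nhds ?_)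
    rw [u0, u1, (κ E x).right_inv hw0.1, (κ E x).right_inv hw0.2.1]
    exact mem_ball_self b.r_pos
  rw [mem_interior_iff_mem_nhds]
  filter_upwards [e1, e2, e3] with v h1 h2 h3
  obtain ⟨hg, he⟩ := v.energy_scale lam 0
  have a0 : lam * 0 + 0 = 0 := by ring
  have a1 : lam * 1 + 0 = lam := by ring
  have hne : v.1 lam ≠ v.1 0 := fun e => (b.sub h3).2.2.2 (by simp only [e])
  have key := (Short.Γ_of_geo (sh := sh) (x := x) hg (by rw [he, hl2]; exact hlt)
    (by simpa only [a0] using h1) (by simpa only [a1] using h2)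
    (by simpa only [a0, a1] using hne)).2
  simp only [a0, a1] at key
  obtain ⟨hp, hT⟩ := b.const h h3
  rw [key] at hp hT
  rw [he, Real.sqrt_sq hl.le] at hT
  intro s
  have := hp (s / lam)
  simp only [add_zero] at this
  rw [mul_add, hT, mul_div_cancel₀ _ hl.ne'] at this
  exact this

omit [MeasurableSpace (E × E)] [BorelSpace (E × E)] in
theorem bstep_small {γ : ℝ → M} (h : IsGeodesic g γ) (he : 0 < energy g γ 0) {x : M}
    (hx : γ 0 ∈ (κ E x).source) {B : Set E} (hB : IsOpen B) (h0 : κ E x (γ 0) ∈ B) {ε : ℝ}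
    (hε : 0 < ε) : ∃ m : ℕ, (1 / ((m : ℝ) + 1)) ^ 2 * energy g γ 0 < ε ∧
      γ (1 / ((m : ℝ) + 1)) ∈ (κ E x).source ∧ κ E x (γ (1 / ((m : ℝ) + 1))) ∈ B ∧
      γ (1 / ((m : ℝ) + 1)) ≠ γ 0 := by
  obtain ⟨u, hu⟩ := exists_unit_sqrt h he
  obtain ⟨δ, hδ, hinj⟩ := u.locinj
  have hl : 0 < √(energy g γ 0) := Real.sqrt_pos.2 he
  have e1 : ∀ᶠ t in 𝓝 (0 : ℝ), t ^ 2 * energy g γ 0 < ε := by
    have : ContinuousAt (fun t : ℝ => t ^ 2 * energy g γ 0) 0 := by fun_prop
    exact this.eventually_lt continuousAt_const (by simpa using hε)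
  have e2 : ∀ᶠ t in 𝓝 (0 : ℝ), γ t ∈ (κ E x).source :=
    h.cont.continuousAt.eventually_mem ((source_open x).mem_nhds hx)
  have e3 : ∀ᶠ t in 𝓝 (0 : ℝ), κ E x (γ t) ∈ B :=
    (ContinuousAt.comp (f := γ) (continuousAt_extChartAt' hx)
      h.cont.continuousAt).eventually_mem (hB.mem_nhds h0)
  have e4 : ∀ᶠ t in 𝓝 (0 : ℝ), √(energy g γ 0) * t < δ := by
    have : ContinuousAt (fun t : ℝ => √(energy g γ 0) * t) 0 := by fun_prop
    exact this.eventually_lt continuousAt_const (by simpa using hδ)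
  obtain ⟨m, h1, h2, h3, h4⟩ := (tendsto_one_div_add_atTop_nhds_zero_nat.eventually
    (e1.and (e2.and (e3.and e4)))).exists
  refine ⟨m, h1, h2, h3, fun e => ?_⟩
  have hm : 0 < √(energy g γ 0) * (1 / ((m : ℝ) + 1)) := by positivity
  rw [hu, hu 0, mul_zero] at e
  have := hinj ⟨by linarith, h4⟩ ⟨by linarith, hδ⟩ e
  linarith

/-- closed short geodesics have positive measure -/
theorem bstep_pos [ConnectedSpace M] (μ : Measure (E × E)) [μ.IsAddHaarMeasure] (sh : Short g)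
    (x : M) {B : Set E} (hB : IsOpen B) (hne : B.Nonempty) (hBt : B ⊆ (κ E x).target) {s : ℝ}
    (hs : 0 < s) (hint : ∫⁻ w in B ×ˢ B, num g x x w ^ s ∂μ < ⊤) :
    μ {w | w ∈ B ×ˢ B ∧ w ∈ sh.V x ∧ ∃ π > 0, Periodic (sh.Γ x w) π} ≠ 0 := by
  intro hP
  set P := {w | w ∈ B ×ˢ B ∧ w ∈ sh.V x ∧ ∃ π > 0, Periodic (sh.Γ x w) π} with hPdef
  let F : ℕ → E × E → E × E := fun m w => (w.1, κ E x (sh.Γ x w ((m : ℝ) + 1)))
  let S : ℕ → Set (E × E) := fun m => P ∩ {w | sh.Γ x w ((m : ℝ) + 1) ∈ (κ E x).source}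
  have hF : ∀ m, μ (F m '' S m) = 0 := by
    intro m
    refine addHaar_image_eq_zero_of_differentiableOn_of_addHaar_eq_zero μ (fun w hw => ?_)
      (measure_mono_null inter_subset_left hP)
    have h1 := contDiffAt_chart (n := ⊤) (Short.Γ_smooth hw.1.2.1 ((m : ℝ) + 1)) hw.2
    have h2 : DifferentiableAt ℝ (fun w : E × E => (w, (m : ℝ) + 1)) w := by fun_prop
    have h3 := (h1.differentiableAt (by simp)).comp w h2
    exact (differentiableAt_fst.prodMk h3).differentiableWithinAt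
  have hA : {w | w ∈ B ×ˢ B ∧ num g x x w < ⊤} ⊆ ⋃ m, F m '' S m := by
    rintro w ⟨hw, hfin⟩
    have hfin' : (images g ((κ E x).symm w.1, (κ E x).symm w.2)).Finite := by
      rw [← Set.encard_lt_top_iff]
      exact ENat.toENNReal_lt_top.1 hfin
    obtain ⟨γ, hγ, g0, g1, he, π, hπ, hp⟩ := per_of_finite (fun T => serre g _ _ T) hfin'
    have s0 : γ 0 ∈ (κ E x).source := g0 ▸ (κ E x).map_target (hBt hw.1)
    have k0 : κ E x (γ 0) = w.1 := by rw [g0, (κ E x).right_inv (hBt hw.1)]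
    obtain ⟨m, h1, h2, h3, h4⟩ := bstep_small hγ he s0 hB (k0 ▸ hw.1) sh.ε_pos
    set l : ℝ := 1 / ((m : ℝ) + 1) with hl
    have hl0 : 0 < l := by positivity
    have a0 : l * 0 + 0 = 0 := by ring
    have a1 : l * 1 + 0 = l := by ring
    have a2 : l * ((m : ℝ) + 1) + 0 = 1 := by
      rw [hl]
      field_simp
      ring
    have hg := hγ.affine l 0
    have key := Short.Γ_of_geo (sh := sh) (x := x) hg
      (by rw [energy_affine hγ, a0]; exact h1)
      (by simpa only [a0] using s0) (by simpa only [a1] using h2)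
      (by simpa only [a0, a1] using h4)
    simp only [a0, a1] at key
    have g2 : sh.Γ x (κ E x (γ 0), κ E x (γ l)) ((m : ℝ) + 1) = (κ E x).symm w.2 := by
      rw [key.2]
      simp only [a2, g1]
    refine mem_iUnion.2 ⟨m, (κ E x (γ 0), κ E x (γ l)), ⟨⟨⟨k0 ▸ hw.1, h3⟩, key.1, π / l,
      by positivity, ?_⟩, ?_⟩, ?_⟩
    · rw [key.2]
      intro t
      simp only [add_zero]
      rw [mul_add, mul_div_cancel₀ _ hl0.ne']
      exact hp _
    · change sh.Γ x (κ E x (γ 0), κ E x (γ l)) ((m : ℝ) + 1) ∈ (κ E x).source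
      rw [g2]
      exact (κ E x).map_target (hBt hw.2)
    · simp only [F]
      rw [g2, k0, (κ E x).right_inv (hBt hw.2)]
  have hA0 := measure_mono_null hA (measure_iUnion_null hF)
  have hae : (fun w => num g x x w ^ s) =ᵐ[μ.restrict (B ×ˢ B)] fun _ => ⊤ := by
    refine (ae_restrict_iff' (hB.prod hB).measurableSet).2 ?_
    filter_upwards [measure_eq_zero_iff_ae_notMem.1 hA0] with w hw hwB
    have : num g x x w = ⊤ := by
      by_contra hh
      exact hw ⟨hwB, lt_top_iff_ne_top.2 hh⟩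
    rw [this, ENNReal.top_rpow_of_pos hs]
  rw [lintegral_congr_ae hae, lintegral_const, Measure.restrict_apply_univ,
    ENNReal.top_mul ((hB.prod hB).measure_ne_zero μ (hne.prod hne))] at hint
  exact lt_irrefl _ hint

theorem step1 [ConnectedSpace M] (μ : Measure (E × E)) [μ.IsAddHaarMeasure] (hm : Mom g μ) :
    ∃ τ > 0, (interior (Per g τ)).Nonempty := by
  obtain ⟨sh⟩ := exists_short g
  let x : M := Classical.arbitrary M
  obtain ⟨s, hs, U, hU, hint⟩ := hm x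
  obtain ⟨ρ, hρ, hB⟩ := Metric.mem_nhds_iff.1
    (inter_mem hU ((target_open x).mem_nhds (mem_extChartAt_target x)))
  set B := ball (κ E x x) ρ with hBdef
  have hBo : IsOpen B := isOpen_ball
  have hint' : ∫⁻ w in B ×ˢ B, num g x x w ^ s ∂μ < ⊤ :=
    (lintegral_mono_set (prod_mono (fun _ h => (hB h).1) fun _ h => (hB h).1)).trans_lt hint
  by_contra hno
  refine bstep_pos μ sh x hBo ⟨_, mem_ball_self hρ⟩ (fun _ h => (hB h).2) hs hint' ?_
  let Q : Set ((E × E) × ℝ) :=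
    {z | z.1 ∈ B ×ˢ B ∧ z.1 ∈ sh.V x ∧ 0 < z.2 ∧ Periodic (sh.Γ x z.1) z.2}
  have key : ∀ z ∈ Q, ∃ N ∈ 𝓝[Q] z, μ (Prod.fst '' (N ∩ Q)) = 0 := by
    rintro ⟨w0, τ⟩ ⟨h1, h2, h3, h4⟩
    obtain ⟨b, hb⟩ := exists_box h2 h3 h4 ((hBo.prod hBo).mem_nhds h1)
    have hX : ContDiffOn ℝ ∞ (fun w => b.f w - w) (ball w0 b.r) := b.f_smooth.sub contDiffOn_id
    have hflat : Flat (fun w => b.f w - w) (ball w0 b.r) = ∅ := by
      by_contra hne
      have hfix := b.all_fixed μ hs ((lintegral_mono_set hb).trans_lt hint')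
        (nonempty_iff_ne_empty.2 hne)
      obtain ⟨u, hu⟩ := exists_unit_sqrt (Short.Γ_geo h2) (Short.Γ_pos h2)
      exact hno ⟨_, mul_pos (Real.sqrt_pos.2 (Short.Γ_pos h2)) h3, u, b.interior hfix u hu⟩
    have hnull := null_diff_flat μ isOpen_ball hX
    rw [hflat, sdiff_empty] at hnull
    refine ⟨ball w0 b.r ×ˢ ball τ b.θ, mem_nhdsWithin_of_mem_nhds
      (prod_mem_nhds (ball_mem_nhds _ b.r_pos) (ball_mem_nhds _ b.θ_pos)),
      measure_mono_null ?_ hnull⟩
    rintro _ ⟨⟨w, t⟩, ⟨⟨hw, ht⟩, hq⟩, rfl⟩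
    refine ⟨hw, sub_eq_zero.2 (b.fix hw ?_ hq.2.2.2)⟩
    simpa only [mem_ball, Real.dist_eq] using ht
  choose! N hN hN0 using key
  obtain ⟨t, htQ, htc, hcov⟩ := TopologicalSpace.countable_cover_nhdsWithin hN
  refine measure_mono_null (t := ⋃ z ∈ t, Prod.fst '' (N z ∩ Q)) ?_
    ((measure_biUnion_null_iff htc).2 fun z hz => hN0 z (htQ hz))
  rintro w ⟨h1, h2, π, h3, h4⟩
  have hq : (w, π) ∈ Q := ⟨h1, h2, h3, h4⟩
  obtain ⟨z, hz, hz'⟩ := mem_iUnion₂.1 (hcov hq)
  exact mem_iUnion₂.2 ⟨z, hz, (w, π), ⟨hz', hq⟩, rfl⟩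

end Pool.Agent.GeoN
end

-- part Pool.Agent.P.MP_365c00_gt.BMain
section

/-! TASK BMain: the moment condition implies a common period. -/

set_option linter.unusedSectionVars false
set_option linter.unusedVariables false

open Set Filter Topology Metric Function
open scoped Manifold ContDiff

namespace Pool.Agent.GeoN

variable {E : Type} [NormedAddCommGroup E] [InnerProductSpace ℝ E] [FiniteDimensional ℝ E]
  {M : Type} [TopologicalSpace M] [ChartedSpace E M] [IsManifold 𝓘(ℝ, E) ∞ M]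
  [T2Space M] [CompactSpace M] [Nonempty M] [Nontrivial E]

open MeasureTheory

variable {g : Met E M} [MeasurableSpace (E × E)] [BorelSpace (E × E)]

theorem bmain_pair (sh : Short g) (x : M) {lam : ℝ} (hε : lam ^ 2 < sh.ε) (v : UG g)
    (h0 : v.1 0 ∈ (κ E x).source) (h1 : v.1 lam ∈ (κ E x).source) (hne : v.1 lam ≠ v.1 0) :
    (κ E x (v.1 0), κ E x (v.1 lam)) ∈ sh.V x ∧
      (∀ t, sh.Γ x (κ E x (v.1 0), κ E x (v.1 lam)) t = v.1 (lam * t)) ∧
      energy g (sh.Γ x (κ E x (v.1 0), κ E x (v.1 lam))) 0 = lam ^ 2 := by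
  obtain ⟨a1, a2⟩ := v.energy_scale lam 0
  have h := Short.Γ_of_geo (sh := sh) (x := x) a1 (a2 ▸ hε) (by simpa using h0)
    (by simpa using h1) (by simpa using hne)
  simp only [mul_zero, add_zero, mul_one] at h a2
  exact ⟨h.1, fun t => by rw [h.2], by rw [h.2]; exact a2⟩

theorem step2 (μ : Measure (E × E)) [μ.IsAddHaarMeasure] (hm : Mom g μ) {τ : ℝ} (hτ : 0 < τ) :
    IsClosed (interior (Per g τ)) := by
  obtain ⟨sh⟩ := exists_short g
  refine isClosed_of_closure_subset fun u hu => ?_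
  have hup : Periodic u.1 τ := closure_minimal interior_subset (per_closed g τ) hu
  obtain ⟨x, hx⟩ : ∃ x, x = u.1 0 := ⟨_, rfl⟩
  obtain ⟨s, hs, U, hU, hμ⟩ := hm x
  have hsrc : IsOpen (κ E x).source := isOpen_extChartAt_source x
  have hx0 : u.1 0 ∈ (κ E x).source := hx ▸ mem_extChartAt_source x
  have hk : ∀ y ∈ (κ E x).source, ContinuousAt (κ E x) y := fun y hy =>
    continuousAt_extChartAt' hy
  obtain ⟨ε, hε, hinj⟩ := u.locinj
  have hev : ∀ᶠ lam in 𝓝[>] (0 : ℝ), lam ^ 2 < sh.ε ∧ u.1 lam ∈ (κ E x).source ∧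
      κ E x (u.1 lam) ∈ interior U ∧ lam < ε ∧ 0 < lam := by
    have hc : ContinuousAt u.1 0 := u.1.continuous.continuousAt
    refine (Eventually.filter_mono nhdsWithin_le_nhds ?_).and
      ((Eventually.filter_mono nhdsWithin_le_nhds (hc.eventually (hsrc.mem_nhds hx0))).and
      ((Eventually.filter_mono nhdsWithin_le_nhds ?_).and
      ((Eventually.filter_mono nhdsWithin_le_nhds (gt_mem_nhds hε)).and self_mem_nhdsWithin)))
    · exact (continuous_pow 2).continuousAt.eventually (gt_mem_nhds (by simpa using sh.ε_pos))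
    · refine ((hk _ hx0).comp hc).eventually (interior_mem_nhds.2 ?_)
      simpa only [Function.comp_apply, ← hx] using hU
  obtain ⟨lam, l1, l2, l3, l4, l5⟩ := hev.exists
  have l6 : u.1 lam ≠ u.1 0 := fun h =>
    l5.ne' (hinj ⟨by linarith, l4⟩ ⟨by linarith, hε⟩ h)
  have hsq : √(lam ^ 2) = lam := Real.sqrt_sq l5.le
  obtain ⟨w1, w2, w3⟩ := bmain_pair sh x l1 u hx0 l2 l6
  have hN : U ×ˢ U ∈ 𝓝 (κ E x (u.1 0), κ E x (u.1 lam)) :=
    prod_mem_nhds (hx ▸ hU) (mem_interior_iff_mem_nhds.1 l3)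
  have hW : ContinuousAt (fun v : UG g => (κ E x (v.1 0), κ E x (v.1 lam))) u ∧
      ∀ᶠ v : UG g in 𝓝 u, v.1 0 ∈ (κ E x).source ∧ v.1 lam ∈ (κ E x).source ∧
        v.1 lam ≠ v.1 0 := by
    have e0 : Continuous fun v : UG g => v.1 0 :=
      (ev_cont g).comp (continuous_id.prodMk continuous_const)
    have e1 : Continuous fun v : UG g => v.1 lam :=
      (ev_cont g).comp (continuous_id.prodMk continuous_const)
    refine ⟨(ContinuousAt.comp (f := fun v : UG g => v.1 0) (hk _ hx0) e0.continuousAt).prodMk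
      (ContinuousAt.comp (f := fun v : UG g => v.1 lam) (hk _ l2) e1.continuousAt), ?_⟩
    exact (e0.continuousAt.eventually (hsrc.mem_nhds hx0)).and
      ((e1.continuousAt.eventually (hsrc.mem_nhds l2)).and
        ((isOpen_ne_fun e1 e0).mem_nhds l6))
  generalize hw0 : (κ E x (u.1 0), κ E x (u.1 lam)) = w0 at w1 w2 w3 hN
  have hper : Periodic (sh.Γ x w0) (τ / lam) := fun t => by
    rw [w2, w2, mul_add, mul_div_cancel₀ _ l5.ne', hup]
  obtain ⟨b, hb⟩ := exists_box w1 (div_pos hτ l5) hper hN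
  have hball : ∀ᶠ v : UG g in 𝓝 u, (κ E x (v.1 0), κ E x (v.1 lam)) ∈ ball w0 b.r :=
    hW.1.eventually (by beta_reduce; rw [hw0]; exact ball_mem_nhds w0 b.r_pos)
  obtain ⟨v, hv1, hv2, hv3⟩ := ((mem_closure_iff_frequently.1 hu).and_eventually
    (hball.and hW.2)).exists
  obtain ⟨v1, v2, v3⟩ := bmain_pair sh x l1 v hv3.1 hv3.2.1 hv3.2.2
  generalize (κ E x (v.1 0), κ E x (v.1 lam)) = w at v1 v2 v3 hv2
  obtain ⟨un, hun, hun2⟩ := sh.exists_un x
  have hVn : sh.V x ∈ 𝓝 w := (sh.V_open x).mem_nhds v1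
  have hunw : un w = v := by
    refine Subtype.ext (ContinuousMap.ext fun t => ?_)
    have h := hun2 w v1 (t / lam)
    rw [v2, v3, hsq, mul_div_cancel₀ _ l5.ne'] at h
    exact h.symm
  have he : ContinuousAt (fun y => energy g (sh.Γ x y) 0) w :=
    (energy_smooth (Γ := sh.Γ x) (sh.V_open x) (fun z hz => Short.Γ_geo hz)
      (fun z hz t => Short.Γ_smooth hz t) v1).continuousAt
  have hq : ContinuousAt (fun y => |τ / √(energy g (sh.Γ x y) 0) - τ / lam|) w :=
    ((continuousAt_const.div he.sqrt (by rw [v3, hsq]; exact l5.ne')).sub continuousAt_const).abs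
  have hfix : ∀ᶠ y in 𝓝 w, b.f y - y = 0 := by
    have e1 : ∀ᶠ y in 𝓝 w, un y ∈ interior (Per g τ) :=
      (hun.continuousAt hVn).eventually (isOpen_interior.mem_nhds (hunw ▸ hv1))
    have e2 : ∀ᶠ y in 𝓝 w, |τ / √(energy g (sh.Γ x y) 0) - τ / lam| < b.θ :=
      hq.eventually (gt_mem_nhds (by simpa only [v3, hsq, sub_self, abs_zero] using b.θ_pos))
    filter_upwards [e1, e2, isOpen_ball.mem_nhds hv2] with y h1 h2 h3
    have hy := b.sub h3
    have hp : Periodic (un y).1 τ := interior_subset h1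
    have hpos : 0 < √(energy g (sh.Γ x y) 0) := Real.sqrt_pos.2 (Short.Γ_pos hy)
    refine sub_eq_zero.2 (b.fix h3 h2 fun t => ?_)
    rw [hun2 y hy, hun2 y hy, mul_add, mul_div_cancel₀ _ hpos.ne', hp]
  have hall := b.all_fixed μ hs ((lintegral_mono_set hb).trans_lt hμ)
    ⟨w, mem_flat_of_eventually hv2 hfix⟩
  have hfin := b.interior hall u (fun t => by rw [w2, w3, hsq])
  rwa [w3, hsq, mul_div_cancel₀ _ l5.ne'] at hfin

theorem besse_of_mom [ConnectedSpace M] (hE : 2 ≤ Module.finrank ℝ E) (μ : Measure (E × E))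
    [μ.IsAddHaarMeasure] (hm : Mom g μ) :
    ∃ τ : ℝ, 0 < τ ∧ ∀ γ : ℝ → M, IsGeodesic g γ → UnitSpeed g γ → Periodic γ τ := by
  obtain ⟨τ, hτ, hne⟩ := step1 μ hm
  haveI := ug_conn hE g
  have h : interior (Per g τ) = univ :=
    IsClopen.eq_univ ⟨step2 μ hm hτ, isOpen_interior⟩ hne
  refine ⟨τ, hτ, fun γ h1 h2 => ?_⟩
  have h3 : (⟨⟨γ, h1.cont⟩, h1, h2⟩ : UG g) ∈ Per g τ := interior_subset (h ▸ mem_univ _)
  exact h3

end Pool.Agent.GeoN
end
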