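import Mathlib
import Pool.Agent.K.MP_365c00_gt.C0

-- part Pool.Agent.P.MP_365c00_gt.Abs
section

/-!
Abstract geodesic systems on surfaces: what the dynamical part of the proof uses.
-/

open Set Filter Topology MeasureTheory

namespace Pool.Agent.GeoFin

/-- `Y` is the space of unit speed geodesics, `ev u` the curve, `φ` the flow, `ae` the filter of
sets of full measure of `M` -/
structure Sys (M Y : Type*) [TopologicalSpace M] [TopologicalSpace Y] where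
  ev : Y → ℝ → M
  φ : ℝ → Y → Y
  ae : Filter M
  cif : CountableInterFilter ae
  ev_cont : Continuous fun x : Y × ℝ => ev x.1 x.2
  φ_cont : Continuous fun x : ℝ × Y => φ x.1 x.2
  ev_φ : ∀ t u s, ev (φ t u) s = ev u (s + t)
  ev_inj : Function.Injective ev
  locinj : ∀ u, ∃ ε > 0, InjOn (ev u) (Ioo (-ε) ε)
  dir : ∀ u u' T ε, 0 < ε → ev u '' Icc 0 ε ⊆ ev u' '' Icc 0 T →
    ∃ r ∈ Icc 0 T, (∀ s, ev u s = ev u' (r + s)) ∨ ∀ s, ev u s = ev u' (r - s)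
  open_pos : ∀ O, IsOpen O → O.Nonempty → Oᶜ ∉ ae
  null_range : ∀ u, (range (ev u))ᶜ ∈ ae
  fib_conn : ∀ p, IsPreconnected {u | ev u 0 = p}
  fib_ne : ∀ p, ∃ u, ev u 0 = p
  sec : ∀ w, ∃ O ∈ 𝓝 (ev w 0), ∃ r > 0, ∃ e : M → ℝ → Y,
    ContinuousOn (fun x : M × ℝ => e x.1 x.2) (O ×ˢ Icc (-r) r) ∧
    (∀ q ∈ O, ∀ s ∈ Icc (-r) r, ev (e q s) 0 = q) ∧ InjOn (e (ev w 0)) (Icc (-r) r) ∧
    e (ev w 0) 0 = w
  cone : ∀ A : Set M, Aᶜ ∉ ae → ∃ p ∈ A, ∀ v, ev v 0 = p → ∀ U ∈ 𝓝 v, ∀ ε > 0,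
    (A ∩ {q | ∃ x ∈ U, ev x 0 = p ∧ ∃ a, |a| < ε ∧ ev x a = q})ᶜ ∉ ae

variable {M Y : Type*} [TopologicalSpace M] [TopologicalSpace Y]

/-- a flow box with a planar transversal -/
structure Box (S : Sys M Y) where
  D : Set (ℝ × ℝ)
  Z : ℝ × ℝ → Y
  N : Set Y
  τ : Y → ℝ
  ζ : Y → ℝ × ℝ
  c : ℝ
  c_pos : 0 < c
  D_open : IsOpen D
  N_open : IsOpen N
  Z_cont : ContinuousOn Z D
  τ_cont : ContinuousOn τ N
  ζ_cont : ContinuousOn ζ N
  ζ_mem : ∀ u ∈ N, ζ u ∈ D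
  τ_lt : ∀ u ∈ N, |τ u| < c
  φ_τ : ∀ u ∈ N, S.φ (τ u) u = Z (ζ u)
  mem_N : ∀ z ∈ D, ∀ t, |t| < c → S.φ t (Z z) ∈ N
  uniq : ∀ z ∈ D, ∀ z' ∈ D, ∀ t, |t| < 2 * c → S.φ t (Z z) = Z z' → t = 0 ∧ z = z'
  sweep : ∀ z ∈ D, ∀ z' ∈ D, z ≠ z' → ∃ V ∈ 𝓝 z, ∃ V' ∈ 𝓝 z', ∃ O : Set M, IsOpen O ∧
    O.Nonempty ∧ ∀ (β : ℝ → ℝ × ℝ) (a b : ℝ), a ≤ b → ContinuousOn β (Icc a b) →
      MapsTo β (Icc a b) D → β a ∈ V → β b ∈ V' →
      ∀ q ∈ O, ∃ s ∈ Ioo a b, ∃ t, |t| < c ∧ S.ev (Z (β s)) t = q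
  null_arc : ∀ A : Set (ℝ × ℝ), volume A = 0 →
    {p | ∃ (e : ℝ → Y) (r : ℝ), 0 < r ∧ ContinuousOn e (Icc 0 r) ∧ InjOn e (Icc 0 r) ∧
      ∀ s ∈ Icc 0 r, S.ev (e s) 0 = p ∧ e s ∈ N ∧ ζ (e s) ∈ A}ᶜ ∈ S.ae

/-- domain of the holonomy map from `b` to `b'` after time about `a` -/
def holDom {S : Sys M Y} (b b' : Box S) (a : ℝ) : Set (ℝ × ℝ) :=
  {z | z ∈ b.D ∧ S.φ a (b.Z z) ∈ b'.N}

/-- the holonomy map -/
def hol {S : Sys M Y} (b b' : Box S) (a : ℝ) (z : ℝ × ℝ) : ℝ × ℝ := b'.ζ (S.φ a (b.Z z))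

/-- the holonomy time -/
def holT {S : Sys M Y} (b b' : Box S) (a : ℝ) (z : ℝ × ℝ) : ℝ := a + b'.τ (S.φ a (b.Z z))

/-- a box centred at each point, with smooth exact holonomy maps -/
structure Atl (S : Sys M Y) where
  box : Y → Box S
  η0 : Y → ℝ
  c_le : ∀ w, (box w).c ≤ 1 / 4
  ctr_mem : ∀ w, (0, η0 w) ∈ (box w).D
  ctr : ∀ w, (box w).Z (0, η0 w) = w
  fib : ∀ w, ∀ z ∈ (box w).D, S.ev ((box w).Z z) 0 = S.ev w 0 ↔ z.1 = 0
  fib_τ : ∀ w, ∀ u ∈ (box w).N, S.ev u 0 = S.ev w 0 → (box w).τ u = 0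
  hol_smooth : ∀ w w' a, ContDiffOn ℝ 2 (hol (box w) (box w') a) (holDom (box w) (box w') a)
  holT_smooth : ∀ w w' a, ContDiffOn ℝ 2 (holT (box w) (box w') a) (holDom (box w) (box w') a)
  exact : ∀ w w' a, ∀ z ∈ holDom (box w) (box w') a, ∀ ξ : ℝ × ℝ,
    fderiv ℝ (holT (box w) (box w') a) z ξ =
      (hol (box w) (box w') a z).2 * (fderiv ℝ (hol (box w) (box w') a) z ξ).1 - z.2 * ξ.1

namespace Sys

variable (S : Sys M Y)

/-- finitely many images of geodesic arcs from `p` to `q` -/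
def Fin (p q : M) : Prop :=
  Set.Finite {A : Set M | ∃ u t, 0 < t ∧ S.ev u 0 = p ∧ S.ev u t = q ∧ A = S.ev u '' Icc 0 t}

/-- good points -/
def Good (p : M) : Prop := ∀ᶠ q in S.ae, S.Fin p q

/-- periodic geodesics -/
def Per (u : Y) : Prop := ∃ σ > 0, S.φ σ u = u

/-- every nonempty open subset of the fibre has uncountably many periodic elements -/
def Rich (p : M) : Prop :=
  ∀ v, S.ev v 0 = p → ∀ U ∈ 𝓝 v, ¬ {u | u ∈ U ∧ S.ev u 0 = p ∧ S.Per u}.Countable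

theorem φ_zero (u : Y) : S.φ 0 u = u := S.ev_inj (funext fun s => by rw [S.ev_φ, add_zero])

theorem φ_add (s t : ℝ) (u : Y) : S.φ (s + t) u = S.φ s (S.φ t u) :=
  S.ev_inj (funext fun r => by rw [S.ev_φ, S.ev_φ, S.ev_φ, add_assoc])

theorem ev_φ_zero (t : ℝ) (u : Y) : S.ev (S.φ t u) 0 = S.ev u t := by rw [S.ev_φ, zero_add]

theorem continuous_ev (u : Y) : Continuous (S.ev u) :=
  S.ev_cont.comp (continuous_const.prodMk continuous_id)

theorem continuous_φ (t : ℝ) : Continuous (S.φ t) :=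
  S.φ_cont.comp (continuous_const.prodMk continuous_id)

theorem continuous_π : Continuous fun u => S.ev u 0 :=
  S.ev_cont.comp (continuous_id.prodMk continuous_const)

instance : CountableInterFilter S.ae := S.cif

end Sys

theorem holDom_open {S : Sys M Y} (b b' : Box S) (a : ℝ) : IsOpen (holDom b b' a) :=
  ((S.continuous_φ a).comp_continuousOn b.Z_cont).isOpen_inter_preimage b.D_open b'.N_open

theorem Z_hol {S : Sys M Y} (b b' : Box S) (a : ℝ) {z : ℝ × ℝ} (hz : z ∈ holDom b b' a) :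
    b'.Z (hol b b' a z) = S.φ (holT b b' a z) (b.Z z) := by
  rw [hol, holT, add_comm, S.φ_add, b'.φ_τ _ hz.2]

theorem hol_mem {S : Sys M Y} (b b' : Box S) (a : ℝ) {z : ℝ × ℝ} (hz : z ∈ holDom b b' a) :
    hol b b' a z ∈ b'.D := b'.ζ_mem _ hz.2

theorem Box.τ_ζ {S : Sys M Y} (b : Box S) {z : ℝ × ℝ} (hz : z ∈ b.D) {t : ℝ} (ht : |t| < b.c) :
    b.τ (S.φ t (b.Z z)) = -t ∧ b.ζ (S.φ t (b.Z z)) = z := by
  have hN := b.mem_N z hz t ht
  have h1 := b.φ_τ _ hN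
  rw [← S.φ_add] at h1
  have h2 := b.τ_lt _ hN
  have h3 := b.uniq z hz _ (b.ζ_mem _ hN) _
    ((abs_add_le _ _).trans_lt (by linarith)) h1
  exact ⟨by linarith [h3.1], h3.2.symm⟩

end Pool.Agent.GeoFin
end

-- part Pool.Agent.P.MP_365c00_gt.Area
section

/-!
Exact planar maps preserve area; asymptotic sets of a chain of such maps are null.
-/

open Set Filter Topology MeasureTheory

namespace Pool.Agent.GeoFin

theorem det_eq (A : ℝ × ℝ →L[ℝ] ℝ × ℝ) :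
    A.det = (A (1, 0)).1 * (A (0, 1)).2 - (A (0, 1)).1 * (A (1, 0)).2 := by
  rw [ContinuousLinearMap.det, ← LinearMap.det_toMatrix (Module.Basis.finTwoProd ℝ),
    Matrix.det_fin_two]
  simp [LinearMap.toMatrix_apply]

theorem det_of_exact {g : ℝ × ℝ → ℝ × ℝ} {T : ℝ × ℝ → ℝ} {U : Set (ℝ × ℝ)} (hU : IsOpen U)
    (hg : ContDiffOn ℝ 2 g U) (hT : ContDiffOn ℝ 2 T U)
    (hex : ∀ z ∈ U, ∀ ξ : ℝ × ℝ, fderiv ℝ T z ξ = (g z).2 * (fderiv ℝ g z ξ).1 - z.2 * ξ.1)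
    {z : ℝ × ℝ} (hz : z ∈ U) : (fderiv ℝ g z).det = 1 := by
  have hg' : ContDiffAt ℝ 2 g z := hg.contDiffAt (hU.mem_nhds hz)
  have hT' : ContDiffAt ℝ 2 T z := hT.contDiffAt (hU.mem_nhds hz)
  have sg := hg'.isSymmSndFDerivAt (by simp)
  have sT := hT'.isSymmSndFDerivAt (by simp)
  have dg : HasFDerivAt g (fderiv ℝ g z) z := (hg'.differentiableAt (by norm_num)).hasFDerivAt
  have d2g : HasFDerivAt (fderiv ℝ g) (fderiv ℝ (fderiv ℝ g) z) z :=
    ((hg'.fderiv_right (m := 1) (by norm_num)).differentiableAt (by norm_num)).hasFDerivAt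
  have d2T : HasFDerivAt (fderiv ℝ T) (fderiv ℝ (fderiv ℝ T) z) z :=
    ((hT'.fderiv_right (m := 1) (by norm_num)).differentiableAt (by norm_num)).hasFDerivAt
  have key : ∀ u v : ℝ × ℝ, fderiv ℝ (fderiv ℝ T) z u v =
      (g z).2 * (fderiv ℝ (fderiv ℝ g) z u v).1 + (fderiv ℝ g z v).1 * (fderiv ℝ g z u).2 -
        u.2 * v.1 := by
    intro u v
    have h1 := d2T.clm_apply (hasFDerivAt_const v z)
    have h2 := (dg.snd.fun_mul (d2g.clm_apply (hasFDerivAt_const v z)).fst).fun_sub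
      ((hasFDerivAt_snd (𝕜 := ℝ) (p := z)).mul_const v.1)
    have h3 : (fun w => fderiv ℝ T w v) =ᶠ[𝓝 z]
        fun w => (g w).2 * (fderiv ℝ g w v).1 - w.2 * v.1 := by
      filter_upwards [hU.mem_nhds hz] with w hw using hex w hw v
    have h4 := congrArg (fun L : ℝ × ℝ →L[ℝ] ℝ => L u) (h1.unique (h2.congr_of_eventuallyEq h3))
    simpa [mul_comm] using h4
  have h := sT (0, 1) (1, 0)
  rw [key, key, sg (0, 1) (1, 0)] at h
  rw [det_eq]
  simp only at h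
  linarith

/-- a map with nonzero Jacobian is injective near the point -/
theorem injOn_nhds_of_det {g : ℝ × ℝ → ℝ × ℝ} {z : ℝ × ℝ} (hg : ContDiffAt ℝ 1 g z)
    (hd : (fderiv ℝ g z).det ≠ 0) : ∃ V ∈ 𝓝 z, InjOn g V := by
  have h : HasStrictFDerivAt g
      (((fderiv ℝ g z).toContinuousLinearEquivOfDetNeZero hd : (ℝ × ℝ) ≃L[ℝ] (ℝ × ℝ)) :
        ℝ × ℝ →L[ℝ] ℝ × ℝ) z := by
    rw [ContinuousLinearMap.coe_toContinuousLinearEquivOfDetNeZero]
    exact hg.hasStrictFDerivAt (by norm_num)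
  refine ⟨_, h.eventually_left_inverse, fun x hx y hy hxy => ?_⟩
  have hx' : h.localInverse g _ _ (g x) = x := hx
  have hy' : h.localInverse g _ _ (g y) = y := hy
  rw [← hx', hxy, hy']

namespace AreaX

theorem step {g : ℝ × ℝ → ℝ × ℝ} {Ω B : Set (ℝ × ℝ)} (hΩ : IsOpen Ω)
    (hg : DifferentiableOn ℝ g Ω) (hi : InjOn g Ω) (hd : ∀ z ∈ Ω, (fderiv ℝ g z).det = 1)
    (hB : IsOpen B) : volume (Ω ∩ g ⁻¹' B) ≤ volume B := by
  have ho : IsOpen (Ω ∩ g ⁻¹' B) := hg.continuousOn.isOpen_inter_preimage hΩ hB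
  have h := lintegral_abs_det_fderiv_eq_addHaar_image volume ho.measurableSet
    (f' := fderiv ℝ g) (fun x hx =>
      (hg.differentiableAt (hΩ.mem_nhds hx.1)).hasFDerivAt.hasFDerivWithinAt)
    (hi.mono inter_subset_left)
  rw [setLIntegral_congr_fun ho.measurableSet (g := fun _ => 1)
    (fun x hx => by simp [hd x hx.1]), setLIntegral_const, one_mul] at h
  rw [h]
  exact measure_mono (by rintro _ ⟨x, hx, rfl⟩; exact hx.2)

end AreaX

theorem null_of_chain (g : ℕ → ℝ × ℝ → ℝ × ℝ) (Ω : ℕ → Set (ℝ × ℝ)) (hΩ : ∀ j, IsOpen (Ω j))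
    (hg : ∀ j, DifferentiableOn ℝ (g j) (Ω j)) (hi : ∀ j, InjOn (g j) (Ω j))
    (hd : ∀ j, ∀ z ∈ Ω j, (fderiv ℝ (g j) z).det = 1) (F : ℕ → ℝ × ℝ → ℝ × ℝ)
    (F0 : ∀ z, F 0 z = z) (Fs : ∀ j z, F (j + 1) z = g j (F j z)) (v : ℕ → ℝ × ℝ) :
    volume {z | (∀ j, F j z ∈ Ω j) ∧ Tendsto (fun j => dist (F j z) (v j)) atTop (𝓝 0)} = 0 := by
  have h1 : ∀ n, ∀ B, IsOpen B → volume {z | (∀ j < n, F j z ∈ Ω j) ∧ F n z ∈ B} ≤ volume B := by
    intro n
    induction n with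
    | zero =>
      intro B _
      exact measure_mono fun z hz => by simpa [F0] using hz.2
    | succ n ih =>
      intro B hB
      refine le_trans (measure_mono fun z hz => ?_)
        ((ih _ ((hg n).continuousOn.isOpen_inter_preimage (hΩ n) hB)).trans
          (AreaX.step (hΩ n) (hg n) (hi n) (hd n) hB))
      refine ⟨fun j hj => hz.1 j (by omega), hz.1 n (by omega), ?_⟩
      have := hz.2
      rwa [Fs] at this
  have h2 : ∀ ε : ℝ, 0 < ε →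
      volume {z | (∀ j, F j z ∈ Ω j) ∧ Tendsto (fun j => dist (F j z) (v j)) atTop (𝓝 0)} ≤
        ENNReal.ofReal (2 * ε) * ENNReal.ofReal (2 * ε) := by
    intro ε hε
    have hm : Monotone fun n : ℕ => {z | (∀ j, F j z ∈ Ω j) ∧ ∀ j ≥ n, dist (F j z) (v j) < ε} :=
      fun a b hab z hz => ⟨hz.1, fun j hj => hz.2 j (hab.trans hj)⟩
    refine le_trans (measure_mono (t := ⋃ n : ℕ,
      {z | (∀ j, F j z ∈ Ω j) ∧ ∀ j ≥ n, dist (F j z) (v j) < ε}) fun z hz => ?_) ?_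
    · obtain ⟨n, hn⟩ := eventually_atTop.1 (hz.2.eventually (gt_mem_nhds hε))
      exact mem_iUnion.2 ⟨n, hz.1, hn⟩
    · rw [hm.measure_iUnion]
      refine iSup_le fun n => le_trans (measure_mono fun z hz => ?_)
        ((h1 n (Metric.ball (v n) ε) Metric.isOpen_ball).trans (le_of_eq ?_))
      · exact ⟨fun j _ => hz.1 j, hz.2 n le_rfl⟩
      · rw [← Prod.mk.eta (p := v n), ← ball_prod_same, Measure.volume_eq_prod, Measure.prod_prod,
          Real.volume_ball, Real.volume_ball]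
  have h3 : Tendsto (fun ε : ℝ => ENNReal.ofReal (2 * ε) * ENNReal.ofReal (2 * ε)) (𝓝[>] 0)
      (𝓝 0) := by
    have h4 : Tendsto (fun ε : ℝ => ENNReal.ofReal (2 * ε * (2 * ε))) (𝓝 0)
        (𝓝 (ENNReal.ofReal (2 * 0 * (2 * 0)))) :=
      (ENNReal.continuous_ofReal.comp (by fun_prop)).tendsto 0
    simp only [mul_zero, ENNReal.ofReal_zero] at h4
    refine (h4.mono_left nhdsWithin_le_nhds).congr' ?_
    filter_upwards [self_mem_nhdsWithin] with ε hε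
    rw [ENNReal.ofReal_mul (by have : 0 < ε := hε; positivity)]
  refine le_antisymm (ge_of_tendsto h3 ?_) bot_le
  filter_upwards [self_mem_nhdsWithin] with ε hε using h2 ε hε

end Pool.Agent.GeoFin
end

-- part Pool.Agent.P.MP_365c00_gt.Defs
section

open Set Bundle MeasureTheory
open scoped Manifold ContDiff

namespace Pool.Agent.GeoFin

/-- the model plane -/
abbrev E : Type := EuclideanSpace ℝ (Fin 2)

variable {M : Type*} [TopologicalSpace M] [ChartedSpace E M] [IsManifold (𝓡 2) ∞ M]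

/-- smooth Riemannian metrics on the surface `M` -/
abbrev Met (M : Type*) [TopologicalSpace M] [ChartedSpace E M] [IsManifold (𝓡 2) ∞ M] :=
  ContMDiffRiemannianMetric (𝓡 2) ∞ E (fun x : M => TangentSpace (𝓡 2) x)

/-- the metric `g` read in the chart at `x`, at the point `a` of the plane -/
noncomputable def coef (g : Met M) (x : M) (a u w : E) : ℝ :=
  g.inner ((extChartAt (𝓡 2) x).symm a)
    (mfderiv 𝓘(ℝ, E) (𝓡 2) (extChartAt (𝓡 2) x).symm a u)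
    (mfderiv 𝓘(ℝ, E) (𝓡 2) (extChartAt (𝓡 2) x).symm a w)

/-- smooth curves solving the Euler-Lagrange equation of the energy in every chart -/
def IsGeodesic (g : Met M) (γ : ℝ → M) : Prop :=
  ContMDiff 𝓘(ℝ, ℝ) (𝓡 2) ∞ γ ∧ ∀ (x : M) (t : ℝ), γ t ∈ (extChartAt (𝓡 2) x).source → ∀ w : E,
    HasDerivAt
      (fun s => coef g x (extChartAt (𝓡 2) x (γ s)) (deriv (extChartAt (𝓡 2) x ∘ γ) s) w)
      (1 / 2 * fderiv ℝ (fun a => coef g x a (deriv (extChartAt (𝓡 2) x ∘ γ) t)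
        (deriv (extChartAt (𝓡 2) x ∘ γ) t)) (extChartAt (𝓡 2) x (γ t)) w) t

/-- unit speed -/
def UnitSpeed (g : Met M) (γ : ℝ → M) : Prop :=
  ∀ t, g.inner (γ t) (mfderiv 𝓘(ℝ, ℝ) (𝓡 2) γ t (1 : ℝ)) (mfderiv 𝓘(ℝ, ℝ) (𝓡 2) γ t (1 : ℝ)) = 1

/-- pairs of points joined by only finitely many geometrically distinct geodesics -/
def finPairs (g : Met M) : Set (M × M) :=
  {z | Set.Finite {S : Set M | ∃ γ : ℝ → M, IsGeodesic g γ ∧ (∃ s ∈ Icc (0 : ℝ) 1, γ s ≠ γ 0) ∧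
    γ 0 = z.1 ∧ γ 1 = z.2 ∧ S = γ '' Icc 0 1}}

/-- subsets of `M × M` that are Lebesgue null in every product chart -/
def NullPairs (S : Set (M × M)) : Prop :=
  ∀ x y : M, volume (Prod.map (extChartAt (𝓡 2) x) (extChartAt (𝓡 2) y) ''
    (S ∩ (extChartAt (𝓡 2) x).source ×ˢ (extChartAt (𝓡 2) y).source)) = 0

end Pool.Agent.GeoFin
end

-- part Pool.Agent.P.MP_365c00_gt.LocDefs
section

/-!
Normalised planar setting of paper sec. 4.
-/

open Set Metric Complex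

namespace Pool.Agent.GeoFin

/-- a map close to the identity with a fixed point and a generating function -/
structure Near (f : ℂ → ℂ) (H : ℂ → ℝ) (z0 : ℂ) (R : ℝ) : Prop where
  R_pos : 0 < R
  fix : f z0 = z0
  lip : ∀ z ∈ ball z0 R, ∀ z' ∈ ball z0 R, ‖(f z - z) - (f z' - z')‖ ≤ 1 / 10 * ‖z - z'‖
  H_cont : ContinuousOn H (ball z0 R)
  up : ∀ z ∈ closedBall z0 (R / 2), ∀ h ∈ Icc (0 : ℝ) 1,
    H z + h * ‖f z - z‖ ^ 2 / 2 ≤ H (z - I * h * (f z - z))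
  down : ∀ z ∈ closedBall z0 (R / 2), ∀ h ∈ Icc (0 : ℝ) 1,
    H (z + I * h * (f z - z)) ≤ H z - h * ‖f z - z‖ ^ 2 / 2

/-- total turning of the orbit polygon of `y` around `w` -/
noncomputable def turn (f : ℂ → ℂ) (y : ℂ) (k : ℕ) (w : ℂ) : ℝ :=
  ∑ i ∈ Finset.range k, arg ((f^[i + 1] y - w) / (f^[i] y - w))

end Pool.Agent.GeoFin
end

-- part Pool.Agent.P.MP_365c00_gt.ZA3
section

/-! Null sets in a finite dimensional space. -/

set_option linter.unusedSectionVars false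
set_option linter.unusedVariables false

open Set Filter Topology Metric Function MeasureTheory
open scoped Manifold ContDiff
open Pool.Agent.GeoN

namespace Pool.Agent.Fu

variable {W W' : Type} [NormedAddCommGroup W] [NormedSpace ℝ W] [FiniteDimensional ℝ W]
  [NormedAddCommGroup W'] [NormedSpace ℝ W']

theorem za_inj_det (L : W →L[ℝ] W) : Injective L ↔ L.det ≠ 0 := by
  have h1 : L.det = 0 ↔ LinearMap.ker (L : W →ₗ[ℝ] W) ≠ ⊥ := LinearMap.det_eq_zero_iff_ker_ne_bot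
  rw [Ne, h1, not_not, LinearMap.ker_eq_bot]
  rfl

/-- a local inverse -/
theorem loc_inv {F : W → W} {y0 : W} (hF : ContDiffAt ℝ ∞ F y0)
    (hi : Injective (fderiv ℝ F y0)) {N : Set W} (hN : N ∈ 𝓝 y0) :
    ∃ (b : W → W) (O : Set W), IsOpen O ∧ F y0 ∈ O ∧ (∀ z ∈ O, DifferentiableAt ℝ b z ∧
      b z ∈ N ∧ F (b z) = z) ∧ ∀ᶠ y in 𝓝 y0, F y ∈ O ∧ b (F y) = y := by
  have : CompleteSpace W := FiniteDimensional.complete ℝ W
  have h1 : ContDiffAt ℝ 1 F y0 := hF.of_le (by exact_mod_cast le_top)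
  let e : W ≃L[ℝ] W :=
    (LinearEquiv.ofInjectiveEndo (fderiv ℝ F y0 : W →ₗ[ℝ] W) hi).toContinuousLinearEquiv
  have he : (e : W →L[ℝ] W) = fderiv ℝ F y0 := by
    ext v
    rfl
  have h2 : HasFDerivAt F (e : W →L[ℝ] W) y0 := by
    rw [he]
    exact (h1.differentiableAt one_ne_zero).hasFDerivAt
  have h3 := h1.hasStrictFDerivAt' h2 one_ne_zero
  have h4 : ∀ᶠ z in 𝓝 (F y0), DifferentiableAt ℝ (h1.localInverse h2 one_ne_zero) z ∧
      h1.localInverse h2 one_ne_zero z ∈ N ∧ F (h1.localInverse h2 one_ne_zero z) = z := by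
    have h5 := (h1.to_localInverse h2 one_ne_zero).eventually (by simp)
    filter_upwards [h5, h3.localInverse_tendsto hN, h3.eventually_right_inverse] with z a b c
    exact ⟨a.differentiableAt one_ne_zero, b, c⟩
  obtain ⟨O, hO, hO1, hO2⟩ := _root_.mem_nhds_iff.1 h4
  refine ⟨_, O, hO1, hO2, fun z hz => hO hz, ?_⟩
  filter_upwards [h1.continuousAt.eventually (hO1.mem_nhds hO2), h3.eventually_left_inverse]
    with y a b
  exact ⟨a, b⟩

theorem inj_ev {F : W → W} {y0 : W} (hF : ContDiffAt ℝ ∞ F y0)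
    (hi : Injective (fderiv ℝ F y0)) : ∀ᶠ y in 𝓝 y0, Injective (fderiv ℝ F y) := by
  have h1 : ContinuousAt (fderiv ℝ F) y0 := hF.continuousAt_fderiv (by simp)
  have h2 : ContinuousAt (fun y => (fderiv ℝ F y).det) y0 :=
    ContinuousLinearMap.continuous_det.continuousAt.comp h1
  filter_upwards [h2.eventually_ne ((za_inj_det _).1 hi)] with y hy
  exact (za_inj_det _).2 hy

variable [MeasurableSpace W] [BorelSpace W] {μ : Measure W} [μ.IsAddHaarMeasure]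

theorem null_push {F : W → W} {A : Set W} (hF : ∀ y ∈ A, DifferentiableAt ℝ F y) (hA : μ A = 0) :
    μ (F '' A) = 0 :=
  addHaar_image_eq_zero_of_differentiableOn_of_addHaar_eq_zero μ
    (fun y hy => (hF y hy).differentiableWithinAt) hA

theorem null_pull {F : W → W} {A B : Set W} (hF : ∀ y ∈ A, ContDiffAt ℝ ∞ F y)
    (hi : ∀ y ∈ A, Injective (fderiv ℝ F y)) (hB : μ B = 0) (hA : ∀ y ∈ A, F y ∈ B) :
    μ A = 0 := by
  refine measure_null_of_locally_null A fun x hx => ?_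
  obtain ⟨b, O, -, -, h1, h2⟩ := loc_inv (hF x hx) (hi x hx) univ_mem
  refine ⟨b '' (B ∩ O), ?_, null_push (fun z hz => (h1 z hz.2).1)
    (measure_mono_null inter_subset_left hB)⟩
  filter_upwards [mem_nhdsWithin_of_mem_nhds h2, self_mem_nhdsWithin] with y hy hyA
  exact ⟨F y, ⟨hA y hyA, hy.1⟩, hy.2⟩

theorem null_sard {F : W → W} {A : Set W} (hF : ∀ y ∈ A, DifferentiableAt ℝ F y)
    (hi : ∀ y ∈ A, ¬ Injective (fderiv ℝ F y)) : μ (F '' A) = 0 :=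
  addHaar_image_eq_zero_of_det_fderivWithin_eq_zero μ (f' := fderiv ℝ F)
    (fun y hy => (hF y hy).hasFDerivAt.hasFDerivWithinAt)
    (fun y hy => not_not.1 fun h => hi y hy ((za_inj_det _).2 h))

theorem null_cover {X : Type} [TopologicalSpace X] [SecondCountableTopology X] {Q : Set X}
    (p : X → W) (hQ : ∀ z ∈ Q, ∃ N ∈ 𝓝 z, μ (p '' (N ∩ Q)) = 0) : μ (p '' Q) = 0 := by
  choose! N hN h0 using hQ
  obtain ⟨t, ht, htc, hc⟩ := TopologicalSpace.countable_cover_nhdsWithin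
    (f := N) (s := Q) fun z hz => mem_nhdsWithin_of_mem_nhds (hN z hz)
  refine measure_mono_null (t := ⋃ z ∈ t, p '' (N z ∩ Q)) ?_
    ((measure_biUnion_null_iff htc).2 fun z hz => h0 z (ht hz))
  rintro _ ⟨y, hy, rfl⟩
  obtain ⟨z, hz, hyz⟩ := mem_iUnion₂.1 (hc hy)
  exact mem_iUnion₂.2 ⟨z, hz, y, ⟨hyz, hy⟩, rfl⟩

theorem null_zero {X : W → W'} {O : Set W} (hO : IsOpen O)
    (hX : ∀ z ∈ O, DifferentiableAt ℝ X z) :
    μ {z | z ∈ O ∧ X z = 0 ∧ fderiv ℝ X z ≠ 0} = 0 := by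
  have h1 : IsOpen (O ∩ X ⁻¹' {0}ᶜ) :=
    ContinuousOn.isOpen_inter_preimage (fun z hz => (hX z hz).continuousAt.continuousWithinAt) hO
      isOpen_compl_singleton
  have h2 : MeasurableSet (O \ (O ∩ X ⁻¹' {0}ᶜ)) := hO.measurableSet.diff h1.measurableSet
  have h3 : ∀ z ∈ O \ (O ∩ X ⁻¹' {0}ᶜ), X z = 0 := fun z hz => by
    by_contra h
    exact hz.2 ⟨hz.1, h⟩
  have h4 := bFlat_ae μ h2 (fun z hz => hX z hz.1) h3
  rw [ae_restrict_iff' h2, ae_iff] at h4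
  refine measure_mono_null (fun z hz => ?_) h4
  intro h
  exact hz.2.2 (h ⟨hz.1, fun h5 => h5.2 hz.2.1⟩)

end Pool.Agent.Fu
end
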