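import Mathlib

/-! Oriented normalised cubical chains, defined by recursion on iterated path spaces. -/

set_option linter.unusedSectionVars false
set_option linter.unusedVariables false

open Set Topology unitInterval

namespace Pool.Agent.Fu

/-- singular cubes: points of iterated path spaces -/
def Cb : ℕ → (X : Type) → [TopologicalSpace X] → Type
  | 0, X, _ => X
  | n + 1, X, _ => Cb n C(I, X)

/-- composition with a continuous map -/
def post {X Y : Type} [TopologicalSpace X] [TopologicalSpace Y] (f : C(X, Y)) :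
    C(C(I, X), C(I, Y)) := ⟨fun g => f.comp g, ContinuousMap.continuous_postcomp f⟩

/-- constant paths -/
def cst (X : Type) [TopologicalSpace X] : C(X, C(I, X)) := ContinuousMap.const'

/-- evaluation of a path -/
def ev (X : Type) [TopologicalSpace X] (s : I) : C(C(I, X), X) :=
  ⟨fun g => g s, continuous_eval_const s⟩

/-- exchange of the two variables -/
def flp (X : Type) [TopologicalSpace X] : C(C(I, C(I, X)), C(I, C(I, X))) :=
  ⟨fun g => (g.uncurry.comp ⟨Prod.swap, continuous_swap⟩).curry,
    ContinuousMap.continuous_curry.comp ((ContinuousMap.continuous_precomp _).comp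
      ContinuousMap.continuous_uncurry)⟩

section
variable {X Y Z : Type} [TopologicalSpace X] [TopologicalSpace Y] [TopologicalSpace Z]

@[simp] theorem post_apply (f : C(X, Y)) (g : C(I, X)) (s : I) : post f g s = f (g s) := rfl
@[simp] theorem cst_apply (x : X) (s : I) : cst X x s = x := rfl
@[simp] theorem ev_apply (s : I) (g : C(I, X)) : ev X s g = g s := rfl
@[simp] theorem flp_apply (g : C(I, C(I, X))) (s t : I) : flp X g s t = g t s := rfl
theorem post_comp (g : C(Y, Z)) (f : C(X, Y)) : post (g.comp f) = (post g).comp (post f) := rfl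
theorem post_id : post (ContinuousMap.id X) = ContinuousMap.id _ := rfl
theorem post_cst (f : C(X, Y)) : (post f).comp (cst X) = (cst Y).comp f := rfl
theorem ev_post (f : C(X, Y)) (s : I) : (ev Y s).comp (post f) = f.comp (ev X s) := rfl
theorem ev_cst (s : I) : (ev X s).comp (cst X) = ContinuousMap.id X := rfl
theorem flp_post (f : C(X, Y)) : (post (post f)).comp (flp X) = (flp Y).comp (post (post f)) := rfl
theorem ev_flp (s : I) : (ev C(I, X) s).comp (flp X) = post (ev X s) := rfl
theorem postev_flp (s : I) : (post (ev X s)).comp (flp X) = ev C(I, X) s := rfl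
end

/-- image of a cube -/
def cbMap : (n : ℕ) → {X Y : Type} → [TopologicalSpace X] → [TopologicalSpace Y] → C(X, Y) →
    Cb n X → Cb n Y
  | 0, _, _, _, _, f, c => f c
  | n + 1, _, _, _, _, f, c => cbMap n (post f) c

variable (F : Type) [Field F]

/-- formal sums of cubes -/
abbrev Pre (X : Type) [TopologicalSpace X] : Type := (Σ n, Cb n X) →₀ F

section
variable {X Y Z : Type} [TopologicalSpace X] [TopologicalSpace Y] [TopologicalSpace Z]

/-- image of a formal sum -/
noncomputable def pmap (f : C(X, Y)) : Pre F X →ₗ[F] Pre F Y :=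
  Finsupp.lmapDomain F F fun c => ⟨c.1, cbMap c.1 f c.2⟩

/-- cubes of the path space are cubes -/
noncomputable def punc (X : Type) [TopologicalSpace X] : Pre F C(I, X) →ₗ[F] Pre F X :=
  Finsupp.lmapDomain F F fun c => ⟨c.1 + 1, c.2⟩

theorem cbMap_comp (n : ℕ) : ∀ {X Y Z : Type} [TopologicalSpace X] [TopologicalSpace Y]
    [TopologicalSpace Z] (g : C(Y, Z)) (f : C(X, Y)) (c : Cb n X),
    cbMap n (g.comp f) c = cbMap n g (cbMap n f c) := by
  induction n with
  | zero => intros; rfl
  | succ n ih => intro X Y Z _ _ _ g f c; exact ih (post g) (post f) c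

theorem cbMap_id (n : ℕ) : ∀ {X : Type} [TopologicalSpace X] (c : Cb n X),
    cbMap n (ContinuousMap.id X) c = c := by
  induction n with
  | zero => intros; rfl
  | succ n ih => intro X _ c; exact ih (X := C(I, X)) c

theorem pmap_single (f : C(X, Y)) (c : Σ n, Cb n X) (a : F) :
    pmap F f (Finsupp.single c a) = Finsupp.single ⟨c.1, cbMap c.1 f c.2⟩ a := by
  simp [pmap, Finsupp.mapDomain_single]

theorem punc_single (c : Σ n, Cb n C(I, X)) (a : F) :
    punc F X (Finsupp.single c a) = Finsupp.single ⟨c.1 + 1, c.2⟩ a := by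
  simp [punc, Finsupp.mapDomain_single]

theorem pmap_pmap (g : C(Y, Z)) (f : C(X, Y)) (c : Pre F X) :
    pmap F g (pmap F f c) = pmap F (g.comp f) c := by
  induction c using Finsupp.induction_linear with
  | zero => simp
  | add a b ha hb => simp [ha, hb]
  | single c a => simp [pmap_single, cbMap_comp]

theorem pmap_punc (f : C(X, Y)) (c : Pre F C(I, X)) :
    pmap F f (punc F X c) = punc F Y (pmap F (post f) c) := by
  induction c using Finsupp.induction_linear with
  | zero => simp
  | add a b ha hb => simp [ha, hb]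
  | single c a => simp only [pmap_single, punc_single]; rfl
end

/-- the relations: degenerate cubes vanish, exchanging two variables changes the sign -/
noncomputable def RelN : ℕ → (X : Type) → [TopologicalSpace X] → Submodule F (Pre F X)
  | 0, X, _ => LinearMap.range (punc F X ∘ₗ pmap F (cst X)) ⊔
      LinearMap.range (punc F X ∘ₗ punc F C(I, X) ∘ₗ (LinearMap.id + pmap F (flp X)))
  | n + 1, X, _ => (RelN n C(I, X)).map (punc F X)

/-- all relations -/
noncomputable def Rel (X : Type) [TopologicalSpace X] : Submodule F (Pre F X) := ⨆ n, RelN F n X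

/-- oriented normalised cubical chains -/
def Ch (X : Type) [TopologicalSpace X] : Type := Pre F X ⧸ Rel F X

noncomputable instance (X : Type) [TopologicalSpace X] : AddCommGroup (Ch F X) :=
  inferInstanceAs (AddCommGroup (Pre F X ⧸ Rel F X))
noncomputable instance (X : Type) [TopologicalSpace X] : Module F (Ch F X) :=
  inferInstanceAs (Module F (Pre F X ⧸ Rel F X))

/-- the class of a formal sum -/
noncomputable def mkC (X : Type) [TopologicalSpace X] : Pre F X →ₗ[F] Ch F X := (Rel F X).mkQ

theorem relN_map (n : ℕ) : ∀ {X Y : Type} [TopologicalSpace X] [TopologicalSpace Y]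
    (f : C(X, Y)) (c : Pre F X), c ∈ RelN F n X → pmap F f c ∈ RelN F n Y := by
  induction n with
  | zero =>
    intro X Y _ _ f c hc
    obtain ⟨_, ⟨a, rfl⟩, _, ⟨b, rfl⟩, rfl⟩ := Submodule.mem_sup.1 hc
    rw [map_add]
    refine Submodule.add_mem_sup ⟨pmap F f a, ?_⟩ ⟨pmap F (post (post f)) b, ?_⟩
    · simp only [LinearMap.comp_apply, pmap_punc, pmap_pmap, post_cst]
    · simp only [LinearMap.comp_apply, LinearMap.add_apply, LinearMap.id_apply, map_add,
        pmap_punc, pmap_pmap, flp_post]
  | succ n ih =>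
    rintro X Y _ _ f _ ⟨c, hc, rfl⟩
    exact ⟨_, ih (post f) c hc, (pmap_punc F f c).symm⟩

variable {F}

section
variable {X Y Z : Type} [TopologicalSpace X] [TopologicalSpace Y] [TopologicalSpace Z]

theorem mkC_rel {n : ℕ} {c : Pre F X} (h : c ∈ RelN F n X) : mkC F X c = 0 :=
  (Submodule.Quotient.mk_eq_zero _).2 (Submodule.mem_iSup_of_mem n h)

/-- linear maps on chains from linear maps on formal sums -/
noncomputable def liftC {T : Type} [AddCommGroup T] [Module F T] (L : Pre F X →ₗ[F] T)
    (h : ∀ n, ∀ c ∈ RelN F n X, L c = 0) : Ch F X →ₗ[F] T :=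
  (Rel F X).liftQ L (iSup_le fun n c hc => h n c hc)

theorem liftC_mk {T : Type} [AddCommGroup T] [Module F T] (L : Pre F X →ₗ[F] T)
    (h : ∀ n, ∀ c ∈ RelN F n X, L c = 0) (c : Pre F X) : liftC L h (mkC F X c) = L c := rfl

theorem mkC_surj (c : Ch F X) : ∃ a, mkC F X a = c := Submodule.Quotient.mk_surjective _ c

/-- the chain map induced by a continuous map -/
noncomputable def map (f : C(X, Y)) : Ch F X →ₗ[F] Ch F Y :=
  liftC (mkC F Y ∘ₗ pmap F f) fun n c hc => mkC_rel (relN_map F n f c hc)

/-- chains of the path space give chains of one degree more -/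
noncomputable def unc : Ch F C(I, X) →ₗ[F] Ch F X :=
  liftC (mkC F X ∘ₗ punc F X) fun n c hc => mkC_rel (n := n + 1) ⟨c, hc, rfl⟩

/-- a point as a chain -/
noncomputable def pt (x : X) : Ch F X := mkC F X (Finsupp.single ⟨0, x⟩ 1)

/-- a cube as a chain -/
noncomputable def cube (c : Σ n, Cb n X) : Ch F X := mkC F X (Finsupp.single c 1)

theorem map_mk (f : C(X, Y)) (c : Pre F X) : map f (mkC F X c) = mkC F Y (pmap F f c) := rfl
theorem unc_mk (c : Pre F C(I, X)) : unc (mkC F _ c) = mkC F X (punc F X c) := rfl

theorem cube_zero (x : X) : cube (F := F) ⟨0, x⟩ = pt x := rfl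
theorem cube_succ (n : ℕ) (c : Cb n C(I, X)) :
    cube (F := F) (X := X) ⟨n + 1, c⟩ = unc (cube ⟨n, c⟩) := by
  simp only [cube, unc_mk, punc_single]

@[simp] theorem map_pt (f : C(X, Y)) (x : X) : map f (pt x : Ch F X) = pt (f x) := by
  simp only [pt, map_mk, pmap_single]; rfl

theorem map_unc (f : C(X, Y)) (c : Ch F C(I, X)) : map f (unc c) = unc (map (post f) c) := by
  obtain ⟨a, rfl⟩ := mkC_surj c
  simp only [map_mk, unc_mk, pmap_punc]

theorem map_map (g : C(Y, Z)) (f : C(X, Y)) (c : Ch F X) :
    map g (map f c) = map (g.comp f) c := by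
  obtain ⟨a, rfl⟩ := mkC_surj c
  simp only [map_mk, pmap_pmap]

theorem unc_cst (c : Ch F X) : unc (map (cst X) c) = 0 := by
  obtain ⟨a, rfl⟩ := mkC_surj c
  exact mkC_rel (n := 0) (Submodule.mem_sup_left ⟨a, rfl⟩)

theorem unc_flp (c : Ch F C(I, C(I, X))) : unc (unc (map (flp X) c)) = - unc (unc c) := by
  obtain ⟨a, rfl⟩ := mkC_surj c
  have := mkC_rel (F := F) (X := X) (n := 0) (Submodule.mem_sup_right ⟨a, rfl⟩)
  simp only [LinearMap.comp_apply, LinearMap.add_apply, LinearMap.id_apply, map_add] at this
  rw [eq_neg_iff_add_eq_zero, add_comm]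
  exact this

theorem span_ind {P : Ch F X → Prop} (h0 : P 0) (hadd : ∀ a b, P a → P b → P (a + b))
    (hsm : ∀ (r : F) a, P a → P (r • a)) (hc : ∀ c, P (cube c)) (c : Ch F X) : P c := by
  obtain ⟨a, rfl⟩ := mkC_surj c
  induction a using Finsupp.induction_linear with
  | zero => simpa using h0
  | add a b ha hb => rw [map_add]; exact hadd _ _ ha hb
  | single c a =>
    have : Finsupp.single c a = a • Finsupp.single c (1 : F) := by simp
    rw [this, map_smul]
    exact hsm _ _ (hc c)
end

/-- induction on chains, for all spaces at once -/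
theorem ind {P : (X : Type) → [TopologicalSpace X] → Ch F X → Prop}
    (h0 : ∀ (X : Type) [TopologicalSpace X], P X 0)
    (hadd : ∀ (X : Type) [TopologicalSpace X] a b, P X a → P X b → P X (a + b))
    (hsm : ∀ (X : Type) [TopologicalSpace X] (r : F) a, P X a → P X (r • a))
    (hpt : ∀ (X : Type) [TopologicalSpace X] x, P X (pt x))
    (hunc : ∀ (X : Type) [TopologicalSpace X] a, P C(I, X) a → P X (unc a))
    (X : Type) [TopologicalSpace X] (c : Ch F X) : P X c := by
  have key : ∀ (n : ℕ) (X : Type) [TopologicalSpace X] (c : Cb n X), P X (cube ⟨n, c⟩) := by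
    intro n
    induction n with
    | zero => intro X _ c; exact hpt X c
    | succ n ih => intro X _ c; rw [cube_succ]; exact hunc X _ (ih _ c)
  exact span_ind (h0 X) (hadd X) (hsm X) (fun c => key c.1 X c.2) c

@[simp] theorem map_id' {X : Type} [TopologicalSpace X] (c : Ch F X) :
    map (ContinuousMap.id X) c = c := by
  induction X, c using ind with
  | h0 => simp
  | hadd X a b ha hb => simp [ha, hb]
  | hsm X r a ha => simp [ha]
  | hpt => simp
  | hunc X a ha => rw [map_unc, post_id, ha]

/-- data for a recursive definition of a natural linear map on chains -/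
structure Alg (F : Type) [Field F] where
  T : (X : Type) → [TopologicalSpace X] → Type
  acg : ∀ (X : Type) [TopologicalSpace X], AddCommGroup (T X)
  mod : ∀ (X : Type) [TopologicalSpace X], @Module F (T X) _ (acg X).toAddCommMonoid
  tm : ∀ {X Y : Type} [TopologicalSpace X] [TopologicalSpace Y], C(X, Y) →
    @LinearMap F F _ _ (RingHom.id F) (T X) (T Y) (acg X).toAddCommMonoid (acg Y).toAddCommMonoid
      (mod X) (mod Y)
  p : ∀ {X : Type} [TopologicalSpace X], X → T X
  u : ∀ (X : Type) [TopologicalSpace X],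
    @LinearMap F F _ _ (RingHom.id F) (T C(I, X)) (T X) (acg _).toAddCommMonoid
      (acg X).toAddCommMonoid (mod _) (mod X)
  tm_p : ∀ {X Y : Type} [TopologicalSpace X] [TopologicalSpace Y] (f : C(X, Y)) (x : X),
    tm f (p x) = p (f x)
  tm_u : ∀ {X Y : Type} [TopologicalSpace X] [TopologicalSpace Y] (f : C(X, Y)) (t : T C(I, X)),
    tm f (u X t) = u Y (tm (post f) t)
  u_cst : ∀ (X : Type) [TopologicalSpace X] (t : T X),
    u X (tm (cst X) t) = @Zero.zero _ (acg X).toAddCommMonoid.toZero
  u_flp : ∀ (X : Type) [TopologicalSpace X] (t : T C(I, C(I, X))),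
    u X (u _ (tm (flp X) t)) = @Neg.neg _ (acg X).toNeg (u X (u _ t))

namespace Alg
variable (A : Alg F)

instance (X : Type) [TopologicalSpace X] : AddCommGroup (A.T X) := A.acg X
instance (X : Type) [TopologicalSpace X] : Module F (A.T X) := A.mod X

/-- the value on a cube -/
def cb : (n : ℕ) → (X : Type) → [TopologicalSpace X] → Cb n X → A.T X
  | 0, _, _, c => A.p c
  | n + 1, X, _, c => A.u X (cb n C(I, X) c)

theorem cb_map (n : ℕ) : ∀ {X Y : Type} [TopologicalSpace X] [TopologicalSpace Y] (f : C(X, Y))
    (c : Cb n X), A.cb n Y (cbMap n f c) = A.tm f (A.cb n X c) := by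
  induction n with
  | zero => intro X Y _ _ f c; exact (A.tm_p f c).symm
  | succ n ih =>
    intro X Y _ _ f c
    show A.u Y (A.cb n _ (cbMap n (post f) c)) = A.tm f (A.u X (A.cb n _ c))
    rw [ih, A.tm_u]

/-- the value on a formal sum -/
noncomputable def pre (X : Type) [TopologicalSpace X] : Pre F X →ₗ[F] A.T X :=
  Finsupp.linearCombination F fun c => A.cb c.1 X c.2

theorem pre_map {X Y : Type} [TopologicalSpace X] [TopologicalSpace Y] (f : C(X, Y))
    (c : Pre F X) : A.pre Y (pmap F f c) = A.tm f (A.pre X c) := by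
  induction c using Finsupp.induction_linear with
  | zero => simp
  | add a b ha hb => simp [ha, hb]
  | single c a => simp [pmap_single, pre, cb_map]

theorem pre_unc {X : Type} [TopologicalSpace X] (c : Pre F C(I, X)) :
    A.pre X (punc F X c) = A.u X (A.pre _ c) := by
  induction c using Finsupp.induction_linear with
  | zero => simp
  | add a b ha hb => simp [ha, hb]
  | single c a => simp only [punc_single, pre, Finsupp.linearCombination_single, map_smul]; rfl

theorem pre_rel (n : ℕ) : ∀ (X : Type) [TopologicalSpace X], ∀ c ∈ RelN F n X, A.pre X c = 0 := by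
  induction n with
  | zero =>
    intro X _ c hc
    obtain ⟨_, ⟨a, rfl⟩, _, ⟨b, rfl⟩, rfl⟩ := Submodule.mem_sup.1 hc
    have h1 := A.u_cst X (A.pre X a)
    have h2 := A.u_flp X (A.pre _ b)
    simp only [LinearMap.comp_apply, LinearMap.add_apply, LinearMap.id_apply, map_add, pre_unc,
      pre_map]
    rw [h1, h2]
    exact (zero_add _).trans (add_neg_cancel _)
  | succ n ih =>
    rintro X _ _ ⟨c, hc, rfl⟩
    rw [pre_unc, ih _ c hc, map_zero]

/-- the recursively defined linear map -/
noncomputable def lift (X : Type) [TopologicalSpace X] : Ch F X →ₗ[F] A.T X :=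
  liftC (A.pre X) fun n => A.pre_rel n X

theorem lift_pt {X : Type} [TopologicalSpace X] (x : X) : A.lift X (pt x) = A.p x := by
  simp only [lift, pt, liftC_mk, pre, Finsupp.linearCombination_single, one_smul]; rfl

theorem lift_unc {X : Type} [TopologicalSpace X] (c : Ch F C(I, X)) :
    A.lift X (unc c) = A.u X (A.lift _ c) := by
  obtain ⟨a, rfl⟩ := mkC_surj c
  exact A.pre_unc a

theorem lift_map {X Y : Type} [TopologicalSpace X] [TopologicalSpace Y] (f : C(X, Y))
    (c : Ch F X) : A.lift Y (map f c) = A.tm f (A.lift X c) := by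
  obtain ⟨a, rfl⟩ := mkC_surj c
  exact A.pre_map f a

end Alg

end Pool.Agent.Fu
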