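import Mathlib
import Pool.Agent.K.MP_365c00_gt.C0

-- part Pool.Agent.P.MP_365c00_gt.ZG0
section


/-! Sequences for the action of a cyclic group on a complex: definitions. -/

set_option linter.unusedSectionVars false
set_option linter.unusedVariables false

open Set TensorProduct

namespace Pool.Agent.Fu

variable {F : Type} [Field F] {P P' : Type} [AddCommGroup P] [Module F P] [AddCommGroup P']
  [Module F P']

/-- a differential module with an action of a cyclic group of order `q` -/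
structure GC (F : Type) [Field F] (q : ℕ) (P : Type) [AddCommGroup P] [Module F P] where
  d : P →ₗ[F] P
  s : Module.End F P
  dd : ∀ c, d (d c) = 0
  ds : ∀ c, d (s c) = s (d c)
  pow : s ^ q = 1

variable {q : ℕ}

/-- the alternating operators of the periodic resolution -/
noncomputable def GC.T (G : GC F q P) (j : ℕ) : Module.End F P :=
  if Even j then G.s - 1 else ∑ i ∈ Finset.range q, G.s ^ i

/-- invariant subcomplexes -/
def GC.St (G : GC F q P) (A : Submodule F P) : Prop :=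
  (∀ c ∈ A, G.d c ∈ A) ∧ ∀ c ∈ A, G.s c ∈ A

/-- homotopy invariant cycles up to the order `R` -/
def GC.Seq (G : GC F q P) (A B : Submodule F P) (R : ℕ) (x : ℕ → P) : Prop :=
  (∀ j ≤ R, x j ∈ A) ∧ G.d (x 0) ∈ B ∧ ∀ j < R, G.d (x (j + 1)) - G.T j (x j) ∈ B

/-- `h` is a null homotopy up to the order `R` -/
def GC.NulBy (G : GC F q P) (A B : Submodule F P) (R : ℕ) (x h : ℕ → P) : Prop :=
  (∀ j ≤ R, h j ∈ A) ∧ x 0 - G.d (h 0) ∈ B ∧
    ∀ j < R, x (j + 1) - G.d (h (j + 1)) - G.T j (h j) ∈ B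

/-- null up to the order `R` -/
def GC.Nul (G : GC F q P) (A B : Submodule F P) (R : ℕ) (x : ℕ → P) : Prop :=
  ∃ h, G.NulBy A B R x h

/-- the sequence with one term, at the place `m` -/
noncomputable def sq (m : ℕ) (g : P) : ℕ → P := fun j => if j = m then g else 0

/-- `f` induces an isomorphism of the relative homology groups -/
def QI (d : P →ₗ[F] P) (d' : P' →ₗ[F] P') (f : P →ₗ[F] P') (A B : Submodule F P)
    (A' B' : Submodule F P') : Prop :=
  (∀ c ∈ A, d c ∈ B → f c ∈ A'.map d' ⊔ B' → c ∈ A.map d ⊔ B) ∧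
    ∀ c' ∈ A', d' c' ∈ B' → ∃ c ∈ A, d c ∈ B ∧ f c - c' ∈ A'.map d' ⊔ B'

/-- `f` is an equivariant chain map of pairs -/
structure EqMap (G : GC F q P) (G' : GC F q P') (f : P →ₗ[F] P') (A B : Submodule F P)
    (A' B' : Submodule F P') : Prop where
  d : ∀ c ∈ A, G'.d (f c) = f (G.d c)
  s : ∀ c ∈ A, G'.s (f c) = f (G.s c)
  A : ∀ c ∈ A, f c ∈ A'
  B : ∀ c ∈ B, f c ∈ B'

/-- relative cycles of degree `k` in `(A, B)` are null in `(A', B')` -/
def Van (d : P →ₗ[F] P) (H : ℕ → Submodule F P) (k : ℕ) (A B A' B' : Submodule F P) : Prop :=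
  ∀ c ∈ A, c ∈ H k → d c ∈ B → ∃ h ∈ A', h ∈ H (k + 1) ∧ c - d h ∈ B'

/-- a grading that is compatible with the structure -/
def GC.Gr (G : GC F q P) (H : ℕ → Submodule F P) : Prop :=
  (∀ k, ∀ c ∈ H (k + 1), G.d c ∈ H k) ∧ ∀ k, ∀ c ∈ H k, G.s c ∈ H k

/-- the submodule is induced from the trivial group, compatibly with the submodule `B` -/
def GC.Ind (G : GC F q P) (A B : Submodule F P) : Prop :=
  ∃ p : P →ₗ[F] P, (∀ c ∈ A, p c ∈ A) ∧ (∀ c ∈ A, c ∈ B → p c ∈ B) ∧
    (∀ c ∈ A, G.d (p c) = p (G.d c)) ∧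
    ∀ c ∈ A, ∑ i ∈ Finset.range q, (G.s ^ i) (p ((G.s ^ (q - i)) c)) = c

end Pool.Agent.Fu
end

-- part Pool.Agent.P.MP_365c00_gt.ZM0
section

/-! Index of geodesics, null sets, orientability: definitions. -/

set_option linter.unusedSectionVars false
set_option linter.unusedVariables false

open Set Filter Topology Metric Function MeasureTheory
open scoped Manifold ContDiff
open Pool.Agent.GeoN

namespace Pool.Agent.Fu

variable {E : Type} [NormedAddCommGroup E] [InnerProductSpace ℝ E] [FiniteDimensional ℝ E]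
  {M : Type} [TopologicalSpace M] [ChartedSpace E M] [IsManifold 𝓘(ℝ, E) ∞ M]
  [T2Space M] [CompactSpace M] [Nonempty M] [Nontrivial E] {g : Met E M}

/-- the differential of the exponential map along `u` at the time `l`, in the charts at the two
end points -/
noncomputable def Jac (g : Met E M) (u : UG g) (l : ℝ) : E →L[ℝ] E :=
  fderiv ℝ (fun V => κ E (u.1 l) (geo g (u.1 0) (κ E (u.1 0) (u.1 0), V) l)) (vel E (u.1 0) u.1 0)

/-- the end points are not conjugate -/
def NdJ (g : Met E M) (u : UG g) (l : ℝ) : Prop := Injective (Jac g u l)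

/-- all normal Jacobi fields that vanish at `0` vanish at `P` -/
def FlatJ (g : Met E M) (u : UG g) (P : ℝ) : Prop :=
  ∀ ξ, ∃ c : ℝ, Jac g u P ξ = c • vel E (u.1 P) u.1 P

/-- the energy of the short geodesic, traversed in the time `b - a`, in the charts at `u a`
and `u b` -/
noncomputable def Sq (sh : Short g) (u : UG g) (a b : ℝ) (w : E × E) : ℝ :=
  sh.S ((κ E (u.1 a)).symm w.1, (κ E (u.1 b)).symm w.2) / (b - a)

/-- its second derivative -/
noncomputable def Bq (sh : Short g) (u : UG g) (a b : ℝ) : (E × E) →L[ℝ] (E × E) →L[ℝ] ℝ :=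
  fderiv ℝ (fderiv ℝ (Sq sh u a b)) (κ E (u.1 a) (u.1 a), κ E (u.1 b) (u.1 b))

/-- the index form of broken geodesics for the partition `t 0 < ... < t k` -/
noncomputable def Qf (sh : Short g) (u : UG g) (k : ℕ) (t : ℕ → ℝ) (v w : ℕ → E) : ℝ :=
  ∑ j ∈ Finset.range k, Bq sh u (t j) (t (j + 1)) (v j, v (j + 1)) (w j, w (j + 1))

variable (E) in
/-- variations of the inner corners -/
def Vk (k : ℕ) : Submodule ℝ (ℕ → E) where
  carrier := {v | v 0 = 0 ∧ ∀ j, k ≤ j → v j = 0}
  add_mem' := fun {a b} ha hb => ⟨by simp [ha.1, hb.1], fun j hj => by simp [ha.2 j hj, hb.2 j hj]⟩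
  zero_mem' := ⟨rfl, fun _ _ => rfl⟩
  smul_mem' := fun c {a} ha => ⟨by simp [ha.1], fun j hj => by simp [ha.2 j hj]⟩

/-- partitions of `[0, l]` with mesh less than `a` -/
def Part (a l : ℝ) (k : ℕ) (t : ℕ → ℝ) : Prop :=
  0 < k ∧ t 0 = 0 ∧ t k = l ∧ ∀ j < k, t j < t (j + 1) ∧ t (j + 1) - t j < a

/-- the index of a form on a subspace -/
noncomputable def nI {W : Type} [AddCommGroup W] [Module ℝ W] (Q : W → W → ℝ)
    (V : Submodule ℝ W) : ℕ :=
  sSup {r | ∃ N : Submodule ℝ W, N ≤ V ∧ Module.finrank ℝ N = r ∧ ∀ v ∈ N, v ≠ 0 → Q v v < 0}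

/-- the index of the geodesic `u` on `[0, l]` -/
noncomputable def idx (sh : Short g) (a : ℝ) (u : UG g) (l : ℝ) : ℕ :=
  nI (Qf sh u (⌊2 * l / a⌋₊ + 1) fun j => j * (l / (⌊2 * l / a⌋₊ + 1 : ℕ))) (Vk E (⌊2 * l / a⌋₊ + 1))

/-- all long geodesics from `x` to `y` lie on finitely many closed geodesics -/
def FinU (g : Met E M) (x y : M) : Prop :=
  ∃ (L : ℝ) (U : Set (UG g)), U.Finite ∧ (∀ u ∈ U, ∃ P > 0, Periodic u.1 P) ∧
    ∀ (u : UG g) (l : ℝ), 0 < l → L < l → u.1 0 = x → u.1 l = y → u ∈ U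

variable (E) in
/-- null sets of pairs of points -/
def NP [MeasurableSpace (E × E)] (μ : Measure (E × E)) (S : Set (M × M)) : Prop :=
  ∀ x y : M, μ (Prod.map (κ E x) (κ E y) '' (S ∩ (κ E x).source ×ˢ (κ E y).source)) = 0

/-- null sets of geodesic arcs -/
def NT (g : Met E M) [MeasurableSpace (E × E)] (μ : Measure (E × E)) (S : Set (UG g × ℝ)) : Prop :=
  ∀ x : M, μ {y | y.1 ∈ (κ E x).target ∧ y.2 ≠ 0 ∧
    (GeoN.mk g x y, √(G g x y.1 y.2 y.2)) ∈ S} = 0

variable (E M) in
/-- the preferred charts can be oriented in a locally consistent way -/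
def OriL : Prop :=
  ∃ s : M → ℝ, ∀ x, ∀ᶠ p in 𝓝 x,
    0 < s x * s p * (fderiv ℝ (κ E p ∘ (κ E x).symm) (κ E x p)).det

/-- all unit speed geodesics have a common period -/
def Bes (g : Met E M) : Prop := ∃ τ : ℝ, 0 < τ ∧ ∀ u : UG g, Periodic u.1 τ

/-- the function `d` is the Riemannian distance on short scales -/
structure SMd (sh : Short g) (d : M → M → ℝ) (a : ℝ) : Prop where
  pos : 0 < a
  le : a ^ 2 ≤ sh.ε
  mem : ∀ x y, d x y < a → (x, y) ∈ sh.D ∧ sh.S (x, y) = d x y ^ 2
  near : ∀ z ∈ sh.D, sh.S z < a ^ 2 → d z.1 z.2 < a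

end Pool.Agent.Fu
end

-- part Pool.Agent.P.MP_365c00_gt.ZV1
section

/-! The orientation double cover as a topological space. -/

set_option linter.unusedSectionVars false
set_option linter.unusedVariables false

open Set Filter Topology Function
open scoped Manifold ContDiff
open Pool.Agent.GeoN

namespace Pool.Agent.Fu

variable {E : Type} [NormedAddCommGroup E] [NormedSpace ℝ E] [FiniteDimensional ℝ E]
  {M : Type} [TopologicalSpace M] [ChartedSpace E M] [IsManifold 𝓘(ℝ, E) ∞ M]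

variable (E) in
/-- the determinant of the change of charts -/
noncomputable def dt (x y p : M) : ℝ := (fderiv ℝ (κ E y ∘ (κ E x).symm) (κ E x p)).det

theorem tcc_eq (x y p : M) :
    tangentCoordChange 𝓘(ℝ, E) x y p = fderiv ℝ (κ E y ∘ (κ E x).symm) (κ E x p) := by
  rw [tangentCoordChange_def, modelWithCornersSelf_coe, range_id, fderivWithin_univ]

theorem dt_eq (x y p : M) : dt E x y p = (tangentCoordChange 𝓘(ℝ, E) x y p).det := by
  rw [tcc_eq, dt]

theorem dt_self {x p : M} (h : p ∈ (κ E x).source) : dt E x x p = 1 := by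
  have : tangentCoordChange 𝓘(ℝ, E) x x p = ContinuousLinearMap.id ℝ E :=
    ContinuousLinearMap.ext fun v => tangentCoordChange_self h
  rw [dt_eq, this]
  exact LinearMap.det_id

theorem dt_mul {x y z p : M} (hx : p ∈ (κ E x).source) (hy : p ∈ (κ E y).source)
    (hz : p ∈ (κ E z).source) : dt E y z p * dt E x y p = dt E x z p := by
  have : tangentCoordChange 𝓘(ℝ, E) x z p =
      (tangentCoordChange 𝓘(ℝ, E) y z p).comp (tangentCoordChange 𝓘(ℝ, E) x y p) :=
    ContinuousLinearMap.ext fun v => (tangentCoordChange_comp ⟨⟨hx, hy⟩, hz⟩).symm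
  rw [dt_eq, dt_eq, dt_eq, this]
  exact (LinearMap.det_comp _ _).symm

theorem dt_ne {x y p : M} (hx : p ∈ (κ E x).source) (hy : p ∈ (κ E y).source) :
    dt E x y p ≠ 0 := fun h => by
  have := dt_mul hx hy hx
  rw [h, mul_zero, dt_self hx] at this
  exact zero_ne_one this

theorem dt_cont {x y p : M} (hx : p ∈ (κ E x).source) (hy : p ∈ (κ E y).source) :
    ContinuousAt (dt E x y) p := by
  have h := (continuousOn_tangentCoordChange (I := 𝓘(ℝ, E)) x y).continuousAt
    (((source_open x).inter (source_open y)).mem_nhds ⟨hx, hy⟩)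
  rw [funext (dt_eq x y)]
  exact ContinuousLinearMap.continuous_det.continuousAt.comp h

variable (E M) in
/-- the bundle of orientations -/
noncomputable def oriCore : FiberBundleCore M M Bool where
  baseSet x := (κ E x).source
  isOpen_baseSet x := source_open x
  indexAt x := x
  mem_baseSet_at x := mem_extChartAt_source x
  coordChange x y p b := if 0 < dt E x y p then b else !b
  coordChange_self x p hp b := by rw [dt_self hp, if_pos one_pos]
  continuousOn_coordChange x y := by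
    rintro ⟨p, b⟩ ⟨⟨hx, hy⟩, -⟩
    refine ContinuousAt.continuousWithinAt ?_
    have hc : ContinuousAt (fun q : M × Bool => dt E x y q.1) (p, b) :=
      ContinuousAt.comp (f := fun q : M × Bool => q.1) (dt_cont hx hy) continuousAt_fst
    have hb : ∀ᶠ q : M × Bool in 𝓝 (p, b), q.2 = b :=
      ((isOpen_discrete ({b} : Set Bool)).preimage continuous_snd).mem_nhds rfl
    rcases (dt_ne hx hy).lt_or_gt with h | h
    · refine (continuousAt_const (y := !b)).congr ?_
      filter_upwards [hb, hc.eventually (gt_mem_nhds h)] with q h1 h2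
      rw [if_neg h2.not_gt, h1]
    · refine (continuousAt_const (y := b)).congr ?_
      filter_upwards [hb, hc.eventually (lt_mem_nhds h)] with q h1 h2
      rw [if_pos h2, h1]
  coordChange_comp x y z p hp b := by
    obtain ⟨⟨hx, hy⟩, hz⟩ := hp
    rw [← dt_mul hx hy hz]
    rcases (dt_ne hx hy).lt_or_gt with h | h <;> rcases (dt_ne hy hz).lt_or_gt with h' | h'
    · rw [if_neg h.not_gt, if_neg h'.not_gt, if_pos (mul_pos_of_neg_of_neg h' h), Bool.not_not]
    · rw [if_neg h.not_gt, if_pos h', if_neg (mul_neg_of_pos_of_neg h' h).not_gt]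
    · rw [if_pos h, if_neg h'.not_gt, if_neg (mul_neg_of_neg_of_pos h' h).not_gt]
    · rw [if_pos h, if_pos h', if_pos (mul_pos h' h)]

/-- the sign of a Boolean -/
def sgB (b : Bool) : ℝ := cond b 1 (-1)

theorem sgB_key {d e : ℝ} {b b' : Bool} (h7 : d * e = 1) (h6 : (if 0 < d then b' else !b') = b) :
    0 < sgB b * sgB b' * e := by
  have h0 : d ≠ 0 := fun h => by simp [h] at h7
  rcases h0.lt_or_gt with h | h
  · rw [if_neg h.not_gt] at h6
    have h8 : e < 0 := by nlinarith
    subst h6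
    cases b' <;> simpa [sgB] using h8
  · rw [if_pos h] at h6
    have h8 : 0 < e := by nlinarith
    subst h6
    cases b' <;> simpa [sgB] using h8

variable (E M) in
theorem exists_dc [T2Space M] [CompactSpace M] :
    ∃ (N : Type) (_ : TopologicalSpace N) (_ : T2Space N) (_ : CompactSpace N) (π : N → M)
      (s : N → ℝ), IsCoveringMap π ∧ Surjective π ∧
      (∀ a b c, π a = π b → π a = π c → a = b ∨ a = c ∨ b = c) ∧
      ∀ q, ∀ᶠ q' in 𝓝 q, 0 < s q * s q' * dt E (π q) (π q') (π q') := by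
  let Z := oriCore E M
  have cov : IsCoveringMap Z.proj := FiberBundle.isCoveringMap (F := Bool) (E := Z.Fiber)
  refine ⟨Z.TotalSpace, inferInstance, ⟨fun a b hab => ?_⟩, ⟨?_⟩, Z.proj,
    fun q => sgB q.2, cov, fun x => ⟨⟨x, true⟩, rfl⟩, ?_, ?_⟩
  · by_cases h : Z.proj a = Z.proj b
    · exact cov.isSeparatedMap a b h hab
    · exact separated_by_continuous cov.continuous h
  · have hK : ∀ x : M, ∃ K, IsCompact K ∧ x ∈ interior K ∧ K ⊆ (κ E x).source := fun x =>
      exists_compact_subset (source_open x) (mem_extChartAt_source x)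
    choose K hK1 hK2 hK3 using hK
    obtain ⟨t, ht⟩ := CompactSpace.elim_nhds_subcover K fun x => mem_interior_iff_mem_nhds.1 (hK2 x)
    have hc : IsCompact (⋃ x ∈ t, (Z.localTriv x).toOpenPartialHomeomorph.symm '' (K x ×ˢ univ)) :=
      t.isCompact_biUnion fun x _ => ((hK1 x).prod isCompact_univ).image_of_continuousOn
        ((Z.localTriv x).toOpenPartialHomeomorph.continuousOn_symm.mono
          (prod_mono (hK3 x) Subset.rfl))
    refine (eq_univ_of_forall fun q => ?_ : _ = univ) ▸ hc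
    have hq : Z.proj q ∈ ⋃ x ∈ t, K x := by rw [ht]; trivial
    obtain ⟨x, hx, hq⟩ := mem_iUnion₂.1 hq
    exact mem_iUnion₂.2 ⟨x, hx, Z.localTriv x q, ⟨hq, trivial⟩,
      (Z.localTriv x).toOpenPartialHomeomorph.left_inv (hK3 x hq)⟩
  · rintro ⟨x, a⟩ ⟨y, b⟩ ⟨z, c⟩ h1 h2
    obtain rfl : x = y := h1
    obtain rfl : x = z := h2
    have : a = b ∨ a = c ∨ b = c := by
      revert a b c
      exact (by decide : ∀ a b c : Bool, a = b ∨ a = c ∨ b = c)
    rcases this with h | h | h <;> simp [h]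
  · rintro ⟨x, b⟩
    have hx : x ∈ (κ E x).source := mem_extChartAt_source x
    have h1 : ContinuousAt (fun q => (Z.localTriv x q).2) (⟨x, b⟩ : Z.TotalSpace) :=
      ((Z.localTriv x).continuousAt (show _ ∈ (Z.localTriv x).source from hx)).snd
    have h2 : (Z.localTriv x ⟨x, b⟩).2 = b := Z.coordChange_self x x hx b
    have h3 : ∀ᶠ q : Z.TotalSpace in 𝓝 ⟨x, b⟩, Z.proj q ∈ (κ E x).source :=
      cov.continuous.continuousAt.eventually ((source_open x).mem_nhds hx)
    have h4 : ∀ᶠ q : Z.TotalSpace in 𝓝 ⟨x, b⟩, (Z.localTriv x q).2 = (Z.localTriv x ⟨x, b⟩).2 :=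
      h1.preimage_mem_nhds ((isOpen_discrete ({(Z.localTriv x ⟨x, b⟩).2} : Set Bool)).mem_nhds rfl)
    filter_upwards [h4, h3] with q h4 h5
    obtain ⟨p, b'⟩ := q
    have hp : p ∈ (κ E p).source := mem_extChartAt_source p
    exact sgB_key ((dt_mul h5 hp h5).trans (dt_self h5)) (h4.trans h2)

end Pool.Agent.Fu
end
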