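import Mathlib
import Pool.Agent.K.MP_365c00_gt.C1
import Pool.Agent.K.MP_365c00_gt.C3
import Pool.Agent.K.MP_365c00_gt.C2
import Pool.Agent.K.MP_365c00_gt.C0
import Pool.Agent.Lib.Flow.Tools

-- part Pool.Agent.P.MP_365c00_gt.Chart
section

/-!
The metric and the geodesic equation in charts.
-/

set_option maxSynthPendingDepth 3

open Set Filter Topology Bundle
open scoped Manifold ContDiff

namespace Pool.Agent.GeoFin

variable {M : Type*} [TopologicalSpace M] [ChartedSpace E M] [IsManifold (𝓡 2) ∞ M]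

/-- the chart at `x` -/
noncomputable abbrev κ (x : M) : PartialEquiv M E := extChartAt (𝓡 2) x

/-- the metric in the chart at `x` as a field of bilinear forms -/
noncomputable def G (g : Met M) (x : M) (a : E) : E →L[ℝ] E →L[ℝ] ℝ :=
  let B : E →L[ℝ] E →L[ℝ] ℝ := g.inner ((κ x).symm a)
  let D : E →L[ℝ] E := mfderiv 𝓘(ℝ, E) (𝓡 2) (κ x).symm a
  B.bilinearComp D D

theorem G_apply (g : Met M) (x : M) (a u w : E) : G g x a u w = coef g x a u w := rfl

section
omit [IsManifold (𝓡 2) ∞ M]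

theorem target_open (x : M) : IsOpen (κ x).target := isOpen_extChartAt_target x

theorem source_open (x : M) : IsOpen (κ x).source := isOpen_extChartAt_source x

end

namespace ChartX

theorem two_le : (2 : WithTop ℕ∞) ≤ ∞ := WithTop.coe_le_coe.2 (le_top : ((2 : ℕ) : ℕ∞) ≤ ⊤)

theorem one_add_one_le : (1 : WithTop ℕ∞) + 1 ≤ ∞ := one_add_one_eq_two (R := WithTop ℕ∞) ▸ two_le

/-- derivative of a field of bilinear forms along a curve -/
theorem hasDerivAt_bil {B : E → E →L[ℝ] E →L[ℝ] ℝ} {c U W : ℝ → E} {v U' W' : E} {t : ℝ}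
    (hB : DifferentiableAt ℝ B (c t)) (hc : HasDerivAt c v t) (hU : HasDerivAt U U' t)
    (hW : HasDerivAt W W' t) : HasDerivAt (fun s => B (c s) (U s) (W s))
      (fderiv ℝ B (c t) v (U t) (W t) + B (c t) U' (W t) + B (c t) (U t) W') t := by
  have h1 : HasDerivAt (fun s => B (c s)) (fderiv ℝ B (c t) v) t :=
    hB.hasFDerivAt.comp_hasDerivAt t hc
  simpa using (h1.clm_apply hU).clm_apply hW

theorem fderiv_bil {B : E → E →L[ℝ] E →L[ℝ] ℝ} {a : E} (hB : DifferentiableAt ℝ B a)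
    (u w h : E) : fderiv ℝ (fun b => B b u w) a h = fderiv ℝ B a h u w := by
  have h1 := ((hB.hasFDerivAt.clm_apply (hasFDerivAt_const u a)).clm_apply
    (hasFDerivAt_const w a)).fderiv
  rw [h1]
  simp

/-- derivative of the transformation rule -/
theorem fderiv_pull {B B' : E → E →L[ℝ] E →L[ℝ] ℝ} {φ : E → E} {a : E}
    (hB : DifferentiableAt ℝ B a) (hB' : DifferentiableAt ℝ B' (φ a)) (hφ : ContDiffAt ℝ 2 φ a)
    (he : ∀ᶠ b in 𝓝 a, ∀ u w, B b u w = B' (φ b) (fderiv ℝ φ b u) (fderiv ℝ φ b w)) (h u w : E) :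
    fderiv ℝ B a h u w = fderiv ℝ B' (φ a) (fderiv ℝ φ a h) (fderiv ℝ φ a u) (fderiv ℝ φ a w)
      + B' (φ a) (fderiv ℝ (fderiv ℝ φ) a h u) (fderiv ℝ φ a w)
      + B' (φ a) (fderiv ℝ φ a u) (fderiv ℝ (fderiv ℝ φ) a h w) := by
  have hl : HasDerivAt (fun s : ℝ => a + s • h) h 0 := by
    simpa using ((hasDerivAt_id (0 : ℝ)).smul_const h).const_add a
  have e0 : a + (0 : ℝ) • h = a := by simp
  have hD : DifferentiableAt ℝ (fderiv ℝ φ) (a + (0 : ℝ) • h) := by
    rw [e0]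
    exact (hφ.fderiv_right (m := 1) (by norm_num)).differentiableAt (by norm_num)
  have hφ' : DifferentiableAt ℝ φ (a + (0 : ℝ) • h) := by
    rw [e0]
    exact hφ.differentiableAt (by norm_num)
  have hD' := hD.hasFDerivAt.comp_hasDerivAt (0 : ℝ) hl
  have h1 := hasDerivAt_bil (B := B) (c := fun s : ℝ => a + s • h) (by rwa [e0]) hl
    (hasDerivAt_const (0 : ℝ) u) (hasDerivAt_const (0 : ℝ) w)
  have h2 := hasDerivAt_bil (B := B') (c := fun s : ℝ => φ (a + s • h)) (by rwa [e0])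
    (hφ'.hasFDerivAt.comp_hasDerivAt (0 : ℝ) hl)
    (hD'.clm_apply (hasDerivAt_const (0 : ℝ) u)) (hD'.clm_apply (hasDerivAt_const (0 : ℝ) w))
  have ht : Tendsto (fun s : ℝ => a + s • h) (𝓝 0) (𝓝 a) := by
    simpa using hl.continuousAt.tendsto
  have h3 := h1.unique (h2.congr_of_eventuallyEq ((ht.eventually he).mono fun s hs => hs u w))
  simpa using h3

theorem hasDerivAt_deriv {c : ℝ → E} {t : ℝ} (h : ContDiffAt ℝ ∞ c t) :
    HasDerivAt (deriv c) (deriv (deriv c) t) t := by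
  have h1 : ContDiffAt ℝ 1 (fderiv ℝ c) t := h.fderiv_right one_add_one_le
  exact ((h1.differentiableAt (by norm_num)).clm_apply
    (differentiableAt_const (1 : ℝ))).hasDerivAt

theorem inner_congr (g : Met M) {p q : M} (h : p = q) (u w : E) :
    (g.inner p : E →L[ℝ] E →L[ℝ] ℝ) u w = (g.inner q : E →L[ℝ] E →L[ℝ] ℝ) u w := by
  subst h
  rfl

theorem symm_smooth {x : M} {a : E} (ha : a ∈ (κ x).target) :
    ContMDiffAt 𝓘(ℝ, E) (𝓡 2) ∞ (κ x).symm a :=
  (contMDiffOn_extChartAt_symm x).contMDiffAt ((target_open x).mem_nhds ha)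

theorem field_smooth {x : M} {a : E} (ha : a ∈ (κ x).target) (u : E) :
    ContMDiffAt 𝓘(ℝ, E) ((𝓡 2).prod 𝓘(ℝ, E)) ∞ (fun b => (TotalSpace.mk' E ((κ x).symm b)
      (mfderiv 𝓘(ℝ, E) (𝓡 2) (κ x).symm b u) : TangentBundle (𝓡 2) M)) a := by
  have h1 := (symm_smooth ha).mfderiv_const (m := ∞) (by exact_mod_cast le_top)
  have h2 : ContMDiffAt 𝓘(ℝ, E) (𝓘(ℝ, E).prod 𝓘(ℝ, E)) ∞
      (fun b : E => (TotalSpace.mk' E b u : TangentBundle 𝓘(ℝ, E) E)) a :=
    contMDiffAt_vectorSpace_iff_contDiffAt.2 contDiffAt_const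
  exact ContMDiffAt.clm_apply_of_inCoordinates (b₁ := id) (b₂ := (κ x).symm)
    (ϕ := fun b => mfderiv 𝓘(ℝ, E) (𝓡 2) (κ x).symm b) (v := fun _ => u) h1 h2 (symm_smooth ha)

end ChartX

open ChartX

variable {P : Type*} [NormedAddCommGroup P] [NormedSpace ℝ P]

theorem contDiffAt_chart {n : ℕ∞} {Γ : P → M} {z : P} {x : M}
    (h : ContMDiffAt 𝓘(ℝ, P) (𝓡 2) n Γ z) (hx : Γ z ∈ (κ x).source) :
    ContDiffAt ℝ n (κ x ∘ Γ) z := by
  have h1 : ContMDiffAt (𝓡 2) 𝓘(ℝ, E) ∞ (κ x) (Γ z) :=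
    contMDiffAt_extChartAt' (by rwa [extChartAt_source] at hx)
  exact ((h1.of_le (by exact_mod_cast le_top)).comp z h).contDiffAt

theorem contMDiffAt_symm {n : ℕ∞} {c : P → E} {z : P} {x : M} (h : ContDiffAt ℝ n c z)
    (hx : c z ∈ (κ x).target) : ContMDiffAt 𝓘(ℝ, P) (𝓡 2) n ((κ x).symm ∘ c) z := by
  exact ((symm_smooth hx).of_le (by exact_mod_cast le_top)).comp z h.contMDiffAt

/-- change of chart -/
theorem contDiffAt_trans {x x' : M} {a : E} (ha : a ∈ (κ x).target)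
    (ha' : (κ x).symm a ∈ (κ x').source) : ContDiffAt ℝ ∞ (κ x' ∘ (κ x).symm) a := by
  exact contDiffAt_chart (n := ⊤) (symm_smooth ha) ha'

theorem G_smooth (g : Met M) (x : M) : ContDiffOn ℝ ∞ (G g x) (κ x).target := by
  refine contDiffOn_clm_apply.2 fun u => contDiffOn_clm_apply.2 fun w a ha => ?_
  have h : ContMDiffAt 𝓘(ℝ, E) ((𝓡 2).prod 𝓘(ℝ)) ∞
      (fun b => TotalSpace.mk' ℝ (E := Bundle.Trivial M ℝ) ((κ x).symm b)
        (g.inner ((κ x).symm b) (mfderiv 𝓘(ℝ, E) (𝓡 2) (κ x).symm b u)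
          (mfderiv 𝓘(ℝ, E) (𝓡 2) (κ x).symm b w))) a := by
    apply ContMDiffAt.clm_bundle_apply₂ (F₁ := E) (F₂ := E)
    · exact g.contMDiff.contMDiffAt.comp a (symm_smooth ha)
    · exact field_smooth ha u
    · exact field_smooth ha w
  simp only [contMDiffAt_totalSpace] at h
  exact h.2.contDiffAt.contDiffWithinAt

theorem G_symm (g : Met M) (x : M) (a u w : E) : G g x a u w = G g x a w u := by
  exact g.symm _ _ _

theorem G_pos (g : Met M) (x : M) {a : E} (ha : a ∈ (κ x).target) {u : E} (hu : u ≠ 0) :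
    0 < G g x a u u := by
  refine g.pos _ _ fun h0 => hu ?_
  have hs : MDifferentiableAt 𝓘(ℝ, E) (𝓡 2) (κ x).symm a :=
    (symm_smooth ha).mdifferentiableAt (by simp)
  have hk : MDifferentiableAt (𝓡 2) 𝓘(ℝ, E) (κ x) ((κ x).symm a) :=
    mdifferentiableAt_extChartAt (by simpa using (κ x).map_target ha)
  have h2 := mfderiv_comp a hk hs
  have h3 : κ x ∘ (κ x).symm =ᶠ[𝓝 a] id := by
    filter_upwards [(target_open x).mem_nhds ha] with b hb using (κ x).right_inv hb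
  rw [h3.mfderiv_eq, mfderiv_id] at h2
  have h4 : u = mfderiv (𝓡 2) 𝓘(ℝ, E) (κ x) ((κ x).symm a)
      (mfderiv 𝓘(ℝ, E) (𝓡 2) (κ x).symm a u) := congrArg (fun L => L u) h2
  have h5 : mfderiv 𝓘(ℝ, E) (𝓡 2) (κ x).symm a u = 0 := h0
  rw [h5, map_zero] at h4
  exact h4

/-- uniform positivity on compact sets -/
theorem G_coercive (g : Met M) (x : M) {K : Set E} (hK : IsCompact K) (hKt : K ⊆ (κ x).target) :
    ∃ l > 0, ∀ a ∈ K, ∀ u : E, l * ‖u‖ ^ 2 ≤ G g x a u u := by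
  have hc : ContinuousOn (fun z : E × E => G g x z.1 z.2 z.2) (K ×ˢ Metric.sphere 0 1) := by
    have h1 : ContinuousOn (fun z : E × E => G g x z.1) (K ×ˢ Metric.sphere 0 1) :=
      (G_smooth g x).continuousOn.comp continuousOn_fst fun z hz => hKt hz.1
    exact (h1.clm_apply continuousOn_snd).clm_apply continuousOn_snd
  obtain ⟨l, hl, h⟩ := (hK.prod (isCompact_sphere (0 : E) 1)).exists_forall_le' hc (a := 0)
    fun z hz => G_pos g x (hKt hz.1) (by
      rintro h0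
      have := hz.2
      rw [h0] at this
      simp at this)
  refine ⟨l, hl, fun a ha u => ?_⟩
  by_cases hu : u = 0
  · simp [hu]
  have h0 : 0 < ‖u‖ := norm_pos_iff.2 hu
  have h1 := h (a, ‖u‖⁻¹ • u) ⟨ha, by simp [norm_smul, h0.ne']⟩
  simp only [map_smul, smul_apply, smul_eq_mul] at h1
  have h2 : G g x a u u = ‖u‖ ^ 2 * (‖u‖⁻¹ * (‖u‖⁻¹ * G g x a u u)) := by field_simp
  rw [h2, mul_comm l]
  exact mul_le_mul_of_nonneg_left h1 (by positivity)

/-- the metric of two tangent vectors of a map, in a chart -/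
theorem inner_eq (g : Met M) {Γ : P → M} {z : P} {x : M}
    (h : MDifferentiableAt 𝓘(ℝ, P) (𝓡 2) Γ z) (hx : Γ z ∈ (κ x).source) (ξ ξ' : P) :
    g.inner (Γ z) (mfderiv 𝓘(ℝ, P) (𝓡 2) Γ z ξ) (mfderiv 𝓘(ℝ, P) (𝓡 2) Γ z ξ') =
      G g x (κ x (Γ z)) (fderiv ℝ (κ x ∘ Γ) z ξ) (fderiv ℝ (κ x ∘ Γ) z ξ') := by
  have hk : MDifferentiableAt (𝓡 2) 𝓘(ℝ, E) (κ x) (Γ z) :=
    mdifferentiableAt_extChartAt (by rwa [extChartAt_source] at hx)
  have hs : MDifferentiableAt 𝓘(ℝ, E) (𝓡 2) (κ x).symm ((κ x ∘ Γ) z) :=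
    (symm_smooth ((κ x).map_source hx)).mdifferentiableAt (by simp)
  have h2 := mfderiv_comp z hs (hk.comp z h)
  have h3 : (κ x).symm ∘ (κ x ∘ Γ) =ᶠ[𝓝 z] Γ := by
    filter_upwards [h.continuousAt.preimage_mem_nhds ((source_open x).mem_nhds hx)] with b hb
      using (κ x).left_inv hb
  rw [h3.mfderiv_eq, mfderiv_eq_fderiv] at h2
  rw [h2]
  exact inner_congr g ((κ x).left_inv hx).symm _ _

theorem G_trans (g : Met M) {x x' : M} {a : E} (ha : a ∈ (κ x).target)
    (ha' : (κ x).symm a ∈ (κ x').source) (u w : E) :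
    G g x a u w = G g x' (κ x' ((κ x).symm a)) (fderiv ℝ (κ x' ∘ (κ x).symm) a u)
      (fderiv ℝ (κ x' ∘ (κ x).symm) a w) := by
  exact inner_eq g ((symm_smooth ha).mdifferentiableAt (by simp)) ha' u w

theorem ChartX.G_diff (g : Met M) (x : M) {a : E} (ha : a ∈ (κ x).target) :
    ContDiffAt ℝ ∞ (G g x) a := (G_smooth g x).contDiffAt ((target_open x).mem_nhds ha)

theorem ChartX.G_inj (g : Met M) (x : M) {a : E} (ha : a ∈ (κ x).target) {u u' : E}
    (h : ∀ w, G g x a u w = G g x a u' w) : u = u' := by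
  by_contra hne
  have h1 := G_pos g x ha (sub_ne_zero.2 hne)
  rw [map_sub (G g x a), sub_apply, h, sub_self] at h1
  exact lt_irrefl _ h1

theorem ChartX.G_equiv (g : Met M) (x : M) {a : E} (ha : a ∈ (κ x).target) :
    ∃ e : E ≃L[ℝ] (E →L[ℝ] ℝ), (e : E →L[ℝ] E →L[ℝ] ℝ) = G g x a := by
  have hi : Function.Injective (G g x a : E →ₗ[ℝ] E →L[ℝ] ℝ) := fun u u' h =>
    G_inj g x ha fun w => congrArg (fun L : E →L[ℝ] ℝ => L w) h
  have hd : Module.finrank ℝ E = Module.finrank ℝ (E →L[ℝ] ℝ) := by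
    rw [← (LinearMap.toContinuousLinearMap (𝕜 := ℝ) (E := E) (F' := ℝ)).finrank_eq]
    exact Subspace.dual_finrank_eq.symm
  refine ⟨(LinearMap.linearEquivOfInjective _ hi hd).toContinuousLinearEquiv, ?_⟩
  ext1 u
  rfl

theorem exists_acc (g : Met M) (x : M) : ∃ acc : E × E → E,
    ContDiffOn ℝ ∞ acc ((κ x).target ×ˢ univ) ∧ ∀ a ∈ (κ x).target, ∀ V w : E,
      G g x a (acc (a, V)) w = 1 / 2 * fderiv ℝ (G g x) a w V V - fderiv ℝ (G g x) a V V w := by
  refine ⟨fun z => (G g x z.1).inverse ((1 / 2 : ℝ) • ((fderiv ℝ (G g x) z.1).flip z.2).flip z.2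
    - fderiv ℝ (G g x) z.1 z.2 z.2), ?_, fun a ha V w => ?_⟩
  · have hD : ContDiffOn ℝ ∞ (fun z : E × E => fderiv ℝ (G g x) z.1) ((κ x).target ×ˢ univ) :=
      fun z hz => (((G_diff g x hz.1).fderiv_right (m := ∞) (by exact_mod_cast le_top)).comp z
        contDiffAt_fst).contDiffWithinAt
    refine ContDiffOn.clm_apply (fun z hz => ?_) (contDiffOn_clm_apply.2 fun w => ?_)
    · obtain ⟨e, he⟩ := G_equiv g x hz.1
      have h1 : ContDiffAt ℝ ∞ ContinuousLinearMap.inverse (G g x z.1) :=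
        he ▸ contDiffAt_map_inverse e
      exact ((h1.comp z.1 (G_diff g x hz.1)).comp z contDiffAt_fst).contDiffWithinAt
    · simp only [sub_apply, smul_apply,
        ContinuousLinearMap.flip_apply]
      exact (((hD.clm_apply contDiffOn_const).clm_apply contDiffOn_snd).clm_apply
        contDiffOn_snd).const_smul _ |>.sub
        (((hD.clm_apply contDiffOn_snd).clm_apply contDiffOn_snd).clm_apply contDiffOn_const)
  · obtain ⟨e, he⟩ := G_equiv g x ha
    simp only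
    conv_lhs => rw [← he]
    simp

/-- the acceleration of geodesics in the chart at `x` -/
noncomputable def acc (g : Met M) (x : M) : E × E → E := (exists_acc g x).choose

theorem acc_smooth (g : Met M) (x : M) : ContDiffOn ℝ ∞ (acc g x) ((κ x).target ×ˢ univ) :=
  (exists_acc g x).choose_spec.1

theorem acc_spec (g : Met M) (x : M) {a : E} (ha : a ∈ (κ x).target) (V w : E) :
    G g x a (acc g x (a, V)) w = 1 / 2 * fderiv ℝ (G g x) a w V V - fderiv ℝ (G g x) a V V w :=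
  (exists_acc g x).choose_spec.2 a ha V w

theorem acc_smul (g : Met M) (x : M) {a : E} (ha : a ∈ (κ x).target) (l : ℝ) (V : E) :
    acc g x (a, l • V) = l ^ 2 • acc g x (a, V) := by
  refine G_inj g x ha fun w => ?_
  simp only [map_smul, smul_apply, acc_spec g x ha, smul_eq_mul]
  ring

/-- velocity in the chart at `x` -/
noncomputable def vel (x : M) (γ : ℝ → M) (t : ℝ) : E := deriv (κ x ∘ γ) t

/-- geodesic at the time `t` -/
def GeoAt (g : Met M) (γ : ℝ → M) (t : ℝ) : Prop :=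
  (∀ᶠ s in 𝓝 t, ContMDiffAt 𝓘(ℝ, ℝ) (𝓡 2) ∞ γ s) ∧ ∀ x : M, γ t ∈ (κ x).source →
    HasDerivAt (vel x γ) (acc g x (κ x (γ t), vel x γ t)) t

theorem isGeodesic_iff (g : Met M) (γ : ℝ → M) : IsGeodesic g γ ↔ ∀ t, GeoAt g γ t := by
  have key : ∀ (x : M) (t : ℝ), ContMDiffAt 𝓘(ℝ, ℝ) (𝓡 2) ∞ γ t → γ t ∈ (κ x).source → ∀ w : E,
      HasDerivAt (vel x γ) (deriv (vel x γ) t) t ∧
      HasDerivAt (fun s => G g x (κ x (γ s)) (vel x γ s) w)
        (fderiv ℝ (G g x) (κ x (γ t)) (vel x γ t) (vel x γ t) w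
          + G g x (κ x (γ t)) (deriv (vel x γ) t) w) t ∧
      fderiv ℝ (fun a => G g x a (vel x γ t) (vel x γ t)) (κ x (γ t)) w
        = fderiv ℝ (G g x) (κ x (γ t)) w (vel x γ t) (vel x γ t) := by
    intro x t h hx w
    have h1 := contDiffAt_chart (n := ⊤) h hx
    have h2 := (G_diff g x ((κ x).map_source hx)).differentiableAt (by simp)
    have h3 := hasDerivAt_deriv h1
    refine ⟨h3, ?_, fderiv_bil h2 _ _ _⟩
    have h4 := hasDerivAt_bil (c := κ x ∘ γ) h2 (h1.differentiableAt (by simp)).hasDerivAt h3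
      (hasDerivAt_const t w)
    rw [map_zero, add_zero] at h4
    exact h4
  constructor
  · rintro ⟨h1, h2⟩ t
    refine ⟨Eventually.of_forall h1, fun x hx => ?_⟩
    have e : deriv (vel x γ) t = acc g x (κ x (γ t), vel x γ t) := by
      refine G_inj g x ((κ x).map_source hx) fun w => ?_
      obtain ⟨-, k2, k3⟩ := key x t (h1 t) hx w
      have h3 := k2.unique (h2 x t hx w)
      rw [acc_spec g x ((κ x).map_source hx), ← k3]
      exact eq_sub_of_add_eq' h3
    exact e ▸ (key x t (h1 t) hx 0).1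
  · intro h
    refine ⟨fun t => (h t).1.self_of_nhds, fun x t hx w => ?_⟩
    obtain ⟨-, k2, k3⟩ := key x t (h t).1.self_of_nhds hx w
    rw [((h t).2 x hx).deriv, acc_spec g x ((κ x).map_source hx), add_sub_cancel, ← k3] at k2
    exact k2

theorem GeoAt.congr {g : Met M} {γ γ' : ℝ → M} {t : ℝ} (h : GeoAt g γ t) (he : γ' =ᶠ[𝓝 t] γ) :
    GeoAt g γ' t := by
  refine ⟨?_, fun x hx => ?_⟩
  · filter_upwards [h.1, he.eventuallyEq_nhds] with s h1 h2 using h1.congr_of_eventuallyEq h2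
  · have h1 : vel x γ' =ᶠ[𝓝 t] vel x γ := (he.fun_comp (κ x)).deriv
    rw [he.self_of_nhds] at hx ⊢
    rw [h1.self_of_nhds]
    exact (h.2 x hx).congr_of_eventuallyEq h1

theorem GeoAt.hasDerivAt {g : Met M} {γ : ℝ → M} {t : ℝ} (h : GeoAt g γ t) {x : M}
    (hx : γ t ∈ (κ x).source) : HasDerivAt (fun s => κ x (γ s)) (vel x γ t) t := by
  exact ((contDiffAt_chart (n := ⊤) h.1.self_of_nhds hx).differentiableAt (by simp)).hasDerivAt

/-- transformation rule of the acceleration -/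
theorem ChartX.acc_trans (g : Met M) {x x' : M} {a : E} (ha : a ∈ (κ x).target)
    (ha' : (κ x).symm a ∈ (κ x').source) (V : E) :
    acc g x' ((κ x' ∘ (κ x).symm) a, fderiv ℝ (κ x' ∘ (κ x).symm) a V) =
      fderiv ℝ (fderiv ℝ (κ x' ∘ (κ x).symm)) a V V
        + fderiv ℝ (κ x' ∘ (κ x).symm) a (acc g x (a, V)) := by
  have hφ := contDiffAt_trans ha ha'
  have hb : (κ x' ∘ (κ x).symm) a ∈ (κ x').target := (κ x').map_source ha'
  have he : ∀ᶠ b in 𝓝 a, ∀ u w, G g x b u w = G g x' ((κ x' ∘ (κ x).symm) b)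
      (fderiv ℝ (κ x' ∘ (κ x).symm) b u) (fderiv ℝ (κ x' ∘ (κ x).symm) b w) := by
    filter_upwards [(target_open x).mem_nhds ha, (symm_smooth ha).continuousAt.preimage_mem_nhds
      ((source_open x').mem_nhds ha')] with b h1 h2 using G_trans g h1 h2
  generalize κ x' ∘ (κ x).symm = φ at hφ hb he ⊢
  have h2 : ContDiffAt ℝ 2 φ a := hφ.of_le two_le
  have hp := fderiv_pull ((G_diff g x ha).differentiableAt (by simp))
    ((G_diff g x' hb).differentiableAt (by simp)) h2 he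
  have hsym := h2.isSymmSndFDerivAt (by simp)
  have hi : Function.Injective (fderiv ℝ φ a : E →ₗ[ℝ] E) := by
    rw [injective_iff_map_eq_zero]
    intro u hu
    by_contra hne
    have h3 := G_pos g x ha hne
    have hu' : fderiv ℝ φ a u = 0 := hu
    rw [he.self_of_nhds, hu', map_zero] at h3
    exact lt_irrefl _ h3
  refine G_inj g x' hb fun w' => ?_
  obtain ⟨w, hw⟩ := LinearMap.injective_iff_surjective.1 hi w'
  have hw' : fderiv ℝ φ a w = w' := hw
  have h4 := acc_spec g x ha V w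
  rw [he.self_of_nhds, hp, hp, hsym w V, hw'] at h4
  rw [acc_spec g x' hb, map_add, add_apply, h4,
    G_symm g x' _ (fderiv ℝ (fderiv ℝ φ) a V w)]
  ring

/-- a solution in one chart is a geodesic (invariance of the equation) -/
theorem geoAt_of_chart (g : Met M) {x : M} {c : ℝ → E} {t : ℝ}
    (hc : ∀ᶠ s in 𝓝 t, ContDiffAt ℝ ∞ c s) (ht : c t ∈ (κ x).target)
    (hd : HasDerivAt (deriv c) (acc g x (c t, deriv c t)) t) : GeoAt g ((κ x).symm ∘ c) t := by
  have hc0 := hc.self_of_nhds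
  have h1 : ∀ᶠ s in 𝓝 t, c s ∈ (κ x).target :=
    hc0.continuousAt.preimage_mem_nhds ((target_open x).mem_nhds ht)
  refine ⟨?_, fun x' hx' => ?_⟩
  · filter_upwards [hc, h1] with s h2 h3 using contMDiffAt_symm (n := ⊤) h2 h3
  have h2 : ∀ᶠ s in 𝓝 t, (κ x).symm (c s) ∈ (κ x').source :=
    (contMDiffAt_symm (n := ⊤) hc0 ht).continuousAt.preimage_mem_nhds
      ((source_open x').mem_nhds hx')
  have h3 : vel x' ((κ x).symm ∘ c) =ᶠ[𝓝 t]
      fun s => fderiv ℝ (κ x' ∘ (κ x).symm) (c s) (deriv c s) := by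
    filter_upwards [hc, h1, h2] with s k1 k2 k3
    exact (((contDiffAt_trans k2 k3).differentiableAt (by simp)).hasFDerivAt.comp_hasDerivAt s
      (k1.differentiableAt (by simp)).hasDerivAt).deriv
  have h4 : DifferentiableAt ℝ (fderiv ℝ (κ x' ∘ (κ x).symm)) (c t) :=
    ((contDiffAt_trans ht hx').fderiv_right (m := 1) one_add_one_le).differentiableAt
      (by simp)
  have h5 := (h4.hasFDerivAt.comp_hasDerivAt t
    (hc0.differentiableAt (by simp)).hasDerivAt).clm_apply hd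
  rw [h3.self_of_nhds]
  refine HasDerivAt.congr_of_eventuallyEq ?_ h3
  have h6 := acc_trans g ht hx' (deriv c t)
  exact h6 ▸ h5

omit [IsManifold (𝓡 2) ∞ M] in
theorem ChartX.vel_aff (x : M) (γ : ℝ → M) (l m t : ℝ) :
    vel x (fun s => γ (l * s + m)) t = l • vel x γ (l * t + m) := by
  have h1 := deriv_comp_mul_left l (fun s => (κ x ∘ γ) (s + m)) t
  rw [deriv_comp_add_const] at h1
  exact h1

/-- affine reparametrisation -/
theorem GeoAt.affine {g : Met M} {γ : ℝ → M} {l m t : ℝ} (h : GeoAt g γ (l * t + m)) :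
    GeoAt g (fun s => γ (l * s + m)) t := by
  have ha : HasDerivAt (fun s : ℝ => l * s + m) l t := by
    simpa using ((hasDerivAt_id t).const_mul l).add_const m
  refine ⟨?_, fun x hx => ?_⟩
  · filter_upwards [ha.continuousAt.tendsto.eventually h.1] with s hs
    exact hs.comp s (f := fun s : ℝ => l * s + m) (ContDiffAt.contMDiffAt (by fun_prop))
  · have h1 := ((h.2 x hx).scomp t ha).const_smul l
    rw [vel_aff, acc_smul g x ((κ x).map_source hx), funext (vel_aff x γ l m), sq, mul_smul]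
    exact h1

theorem vel_affine {g : Met M} {γ : ℝ → M} {l m t : ℝ} (h : GeoAt g γ (l * t + m)) {x : M}
    (hx : γ (l * t + m) ∈ (κ x).source) :
    vel x (fun s => γ (l * s + m)) t = l • vel x γ (l * t + m) := by
  exact vel_aff x γ l m t

/-- velocities in two charts -/
theorem vel_trans {g : Met M} {γ : ℝ → M} {t : ℝ} (h : GeoAt g γ t) {x x' : M}
    (hx : γ t ∈ (κ x).source) (hx' : γ t ∈ (κ x').source) :
    vel x' γ t = fderiv ℝ (κ x' ∘ (κ x).symm) (κ x (γ t)) (vel x γ t) := by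
  have h1 : κ x' ∘ γ =ᶠ[𝓝 t] (κ x' ∘ (κ x).symm) ∘ fun s => κ x (γ s) := by
    filter_upwards [h.1.self_of_nhds.continuousAt.preimage_mem_nhds
      ((source_open x).mem_nhds hx)] with s hs
    simp only [Function.comp_apply, (κ x).left_inv hs]
  have h2 := (contDiffAt_trans ((κ x).map_source hx) (x' := x')
    (by rwa [(κ x).left_inv hx])).differentiableAt (by simp)
  exact ((h2.hasFDerivAt.comp_hasDerivAt t (h.hasDerivAt hx)).congr_of_eventuallyEq h1).deriv

/-- squared speed -/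
noncomputable def energy (g : Met M) (γ : ℝ → M) (t : ℝ) : ℝ :=
  g.inner (γ t) (mfderiv 𝓘(ℝ, ℝ) (𝓡 2) γ t (1 : ℝ)) (mfderiv 𝓘(ℝ, ℝ) (𝓡 2) γ t (1 : ℝ))

theorem energy_eq {g : Met M} {γ : ℝ → M} {t : ℝ} (h : GeoAt g γ t) {x : M}
    (hx : γ t ∈ (κ x).source) : energy g γ t = G g x (κ x (γ t)) (vel x γ t) (vel x γ t) := by
  exact inner_eq g (h.1.self_of_nhds.mdifferentiableAt (by simp)) hx 1 1

theorem hasDerivAt_energy {g : Met M} {γ : ℝ → M} {t : ℝ} (h : ∀ᶠ s in 𝓝 t, GeoAt g γ s) :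
    HasDerivAt (energy g γ) 0 t := by
  have h0 := h.self_of_nhds
  have hx : γ t ∈ (κ (γ t)).source := mem_extChartAt_source _
  generalize hy : γ t = y at hx
  have hx : γ t ∈ (κ y).source := hy ▸ hx
  have ha := (κ y).map_source hx
  have h1 : energy g γ =ᶠ[𝓝 t] fun s => G g y (κ y (γ s)) (vel y γ s) (vel y γ s) := by
    filter_upwards [h, h0.1.self_of_nhds.continuousAt.preimage_mem_nhds
      ((source_open y).mem_nhds hx)] with s k1 k2 using energy_eq k1 k2
  have h2 := hasDerivAt_bil (c := fun s => κ y (γ s)) ((G_diff g y ha).differentiableAt (by simp))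
    (h0.hasDerivAt hx) (h0.2 y hx) (h0.2 y hx)
  rw [G_symm g y _ (vel y γ t) (acc g y _), acc_spec g y ha] at h2
  refine (h2.congr_of_eventuallyEq h1).congr_deriv ?_
  ring

end Pool.Agent.GeoFin
end

-- part Pool.Agent.P.MP_365c00_gt.Count
section

/-!
Counting images of geodesic arcs (paper sec. 1, 6 and small facts of sec. 5).
-/

set_option linter.unusedSectionVars false

open Set Filter Topology

namespace Pool.Agent.GeoFin

namespace CountX

theorem finite_of_isolated {X : Type*} [TopologicalSpace X] {K : Set X} (hK : IsCompact K)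
    (h : ∀ x ∈ K, ∀ᶠ y in 𝓝 x, y ∈ K → y = x) : K.Finite := by
  obtain ⟨t, -, hsub⟩ := hK.elim_nhds_subcover (fun x => {y | y ∈ K → y = x}) h
  refine t.finite_toSet.subset fun y hy => ?_
  obtain ⟨x, hx, hxy⟩ := mem_iUnion₂.1 (hsub hy)
  rw [hxy hy]
  exact hx

variable {M Y : Type*} [TopologicalSpace M] [TopologicalSpace Y]

theorem locinj_at (S : Sys M Y) (u : Y) (r : ℝ) :
    ∃ ε > 0, InjOn (S.ev u) (Ioo (r - ε) (r + ε)) := by
  obtain ⟨ε, hε, h⟩ := S.locinj (S.φ r u)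
  refine ⟨ε, hε, fun a ha b hb hab => ?_⟩
  have : a - r = b - r := by
    refine h ⟨by linarith [ha.1], by linarith [ha.2]⟩ ⟨by linarith [hb.1], by linarith [hb.2]⟩ ?_
    rw [S.ev_φ, S.ev_φ, sub_add_cancel, sub_add_cancel, hab]
  linarith

end CountX

open CountX

variable {M Y : Type*} [TopologicalSpace M] [TopologicalSpace Y] [T2Space M]

theorem Sys.times_finite (S : Sys M Y) (u : Y) (p : M) (T : ℝ) :
    {r | r ∈ Icc 0 T ∧ S.ev u r = p}.Finite := by
  refine finite_of_isolated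
    (isCompact_Icc.inter_right (isClosed_eq (S.continuous_ev u) continuous_const)) ?_
  intro r hr
  obtain ⟨ε, hε, h⟩ := locinj_at S u r
  have hm : r ∈ Ioo (r - ε) (r + ε) := ⟨by linarith, by linarith⟩
  filter_upwards [Ioo_mem_nhds hm.1 hm.2] with s hs hsK
  exact h hs hm (hsK.2.trans hr.2.symm)

theorem CountX.starts_finite (S : Sys M Y) (u' : Y) (p : M) (T : ℝ) :
    {u | S.ev u 0 = p ∧ ∃ ε > 0, S.ev u '' Icc 0 ε ⊆ S.ev u' '' Icc 0 T}.Finite := by
  have hR := S.times_finite u' p T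
  have hfin := (hR.image fun r s => S.ev u' (r + s)).union (hR.image fun r s => S.ev u' (r - s))
  refine (hfin.preimage S.ev_inj.injOn).subset ?_
  rintro u ⟨hu, ε, hε, hsub⟩
  obtain ⟨r, hr, h | h⟩ := S.dir u u' T ε hε hsub
  · exact Or.inl ⟨r, ⟨hr, by rw [← hu, h, add_zero]⟩, (funext h).symm⟩
  · exact Or.inr ⟨r, ⟨hr, by rw [← hu, h, sub_zero]⟩, (funext h).symm⟩

/-- (N1) -/
theorem Sys.not_fin_of_infinite (S : Sys M Y) {p q : M}
    (h : {u | S.ev u 0 = p ∧ ∃ t > 0, S.ev u t = q}.Infinite) : ¬ S.Fin p q := by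
  intro hF
  refine h ((hF.biUnion (t := fun A => {u | S.ev u 0 = p ∧ ∃ ε > 0, S.ev u '' Icc 0 ε ⊆ A})
    ?_).subset ?_)
  · rintro A ⟨u', T, -, -, -, rfl⟩
    exact starts_finite S u' p T
  · rintro u ⟨hu, t, ht, hq⟩
    exact mem_iUnion₂.2 ⟨_, ⟨u, t, ht, hu, hq, rfl⟩, hu, t, ht, Subset.rfl⟩

/-- (N2) -/
theorem Sys.per_of_fin (S : Sys M Y) {p q : M} {u : Y} (hF : S.Fin p q) (hu : S.ev u 0 = p)
    (h : ∀ T : ℝ, ∃ t > T, S.ev u t = q) : S.Per u := by
  have hfin : {A : Set M | ∃ t, 0 < t ∧ S.ev u t = q ∧ A = S.ev u '' Icc 0 t}.Finite :=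
    hF.subset fun A ⟨t, h1, h2, h3⟩ => ⟨u, t, h1, hu, h2, h3⟩
  have := hfin.to_subtype
  choose τ hτ using fun A : {A : Set M | ∃ t, 0 < t ∧ S.ev u t = q ∧ A = S.ev u '' Icc 0 t} => A.2
  obtain ⟨T, hT⟩ := (finite_range τ).bddAbove
  have hall : ∀ s, 0 ≤ s → S.ev u s ∈ S.ev u '' Icc 0 T := by
    intro s hs
    obtain ⟨t, ht, hq⟩ := h s
    have h1 := (hτ ⟨_, t, hs.trans_lt ht, hq, rfl⟩).2.2
    have h2 : S.ev u s ∈ S.ev u '' Icc 0 t := ⟨s, ⟨hs, ht.le⟩, rfl⟩
    simp only at h1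
    rw [h1] at h2
    exact image_mono (Icc_subset_Icc_right (hT ⟨_, rfl⟩)) h2
  obtain ⟨r, hr, h1 | h1⟩ := S.dir (S.φ (|T| + 1) u) u T 1 one_pos (by
    rintro _ ⟨s, hs, rfl⟩
    rw [S.ev_φ]
    exact hall _ (by linarith [hs.1, abs_nonneg T]))
  · refine ⟨|T| + 1 - r, by linarith [hr.2, le_abs_self T], S.ev_inj (funext fun s => ?_)⟩
    have := h1 (s - r)
    rw [S.ev_φ, add_sub_cancel] at this
    rw [S.ev_φ, ← this]
    congr 1
    ring
  · exfalso
    obtain ⟨ε, hε, hinj⟩ := locinj_at S u ((r + (|T| + 1)) / 2)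
    have h2 := h1 ((r - (|T| + 1)) / 2 + ε / 2)
    rw [S.ev_φ] at h2
    have := hinj ⟨by linarith, by linarith⟩ ⟨by linarith, by linarith⟩ h2
    linarith

/-- sec. 6 -/
theorem Sys.fin_of_discrete [CompactSpace Y] (S : Sys M Y) {τ : ℝ} (hτ : 0 < τ)
    (hper : ∀ u, S.φ τ u = u) {p q : M}
    (h : ∀ u t, S.ev u 0 = p → S.ev u t = q →
      ∀ᶠ x in 𝓝 (u, t), S.ev x.1 0 = p → S.ev x.1 x.2 = q → x = (u, t)) : S.Fin p q := by
  have hK : {x : Y × ℝ | x ∈ (univ : Set Y) ×ˢ Icc 0 τ ∧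
      (S.ev x.1 0 = p ∧ S.ev x.1 x.2 = q)}.Finite := by
    refine finite_of_isolated ((isCompact_univ.prod isCompact_Icc).inter_right
      ((isClosed_eq (S.continuous_π.comp continuous_fst) continuous_const).inter
        (isClosed_eq S.ev_cont continuous_const))) ?_
    rintro ⟨u, t⟩ hx
    filter_upwards [h u t hx.2.1 hx.2.2] with y hy hyK
    exact hy hyK.2.1 hyK.2.2
  refine ((hK.image fun x => S.ev x.1 '' Icc 0 x.2).union
    (hK.image fun x => range (S.ev x.1))).subset ?_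
  rintro A ⟨u, t, ht, hu, hq, rfl⟩
  rcases le_total t τ with h1 | h1
  · exact Or.inl ⟨(u, t), ⟨⟨mem_univ _, ht.le, h1⟩, hu, hq⟩, rfl⟩
  · have hP : Function.Periodic (S.ev u) τ := fun s => by rw [← S.ev_φ, hper]
    obtain ⟨t', ht', e⟩ := hP.exists_mem_Ico₀ hτ t
    refine Or.inr ⟨(u, t'), ⟨⟨mem_univ _, ht'.1, ht'.2.le⟩, hu, e.symm.trans hq⟩, ?_⟩
    refine Subset.antisymm ?_ (image_subset_range _ _)
    rintro _ ⟨s, rfl⟩
    obtain ⟨s', hs', e'⟩ := hP.exists_mem_Ico₀ hτ s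
    exact ⟨s', ⟨hs'.1, hs'.2.le.trans h1⟩, e'.symm⟩

/-- two periods of one geodesic are commensurable -/
theorem Sys.period_ratio (S : Sys M Y) [T2Space Y] {u : Y} {s t : ℝ} (hs : 0 < s) (ht : 0 < t)
    (h1 : S.φ s u = u) (h2 : S.φ t u = u) : ∃ m n : ℕ, 0 < m ∧ 0 < n ∧ m * s = n * t := by
  let H : AddSubgroup ℝ :=
    { carrier := {a | S.φ a u = u}
      zero_mem' := S.φ_zero u
      add_mem' := fun {a b} ha hb => by
        simp only [mem_ofPred_eq] at ha hb ⊢
        rw [S.φ_add, hb, ha]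
      neg_mem' := fun {a} ha => by
        simp only [mem_ofPred_eq] at ha ⊢
        conv_lhs => rw [← ha]
        rw [← S.φ_add, neg_add_cancel, S.φ_zero] }
  obtain ⟨ε, hε, hinj⟩ := S.locinj u
  have hd : Disjoint (H : Set ℝ) (Ioo 0 ε) := by
    refine disjoint_left.2 fun a ha ha' => ?_
    have e : S.ev u a = S.ev u 0 := by
      rw [← S.ev_φ_zero, show S.φ a u = u from ha]
    exact ha'.1.ne' (hinj ⟨by linarith [ha'.1], ha'.2⟩ ⟨by linarith, hε⟩ e)
  obtain ⟨b, hb⟩ := AddSubgroup.cyclic_of_isolated_zero hε hd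
  have hsH : s ∈ H := h1
  have htH : t ∈ H := h2
  rw [hb, AddSubgroup.mem_closure_singleton] at hsH htH
  obtain ⟨k, hk⟩ := hsH
  obtain ⟨l, hl⟩ := htH
  rw [zsmul_eq_mul] at hk hl
  have hk0 : k ≠ 0 := by
    rintro rfl
    simp at hk
    exact hs.ne hk
  have hl0 : l ≠ 0 := by
    rintro rfl
    simp at hl
    exact ht.ne hl
  refine ⟨l.natAbs, k.natAbs, Int.natAbs_pos.2 hl0, Int.natAbs_pos.2 hk0, ?_⟩
  rw [Nat.cast_natAbs, Nat.cast_natAbs, ← abs_of_pos hs, ← abs_of_pos ht, ← hk, ← hl,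
    Int.cast_abs, Int.cast_abs, abs_mul, abs_mul]
  ring

theorem Sys.φ_nat_mul (S : Sys M Y) {u : Y} {s : ℝ} (h : S.φ s u = u) (m : ℕ) :
    S.φ (m * s) u = u := by
  induction m with
  | zero => rw [Nat.cast_zero, zero_mul, S.φ_zero]
  | succ m ih => rw [Nat.cast_succ, add_mul, one_mul, S.φ_add, h, ih]

/-- a closed orbit meets the transversal of a box in finitely many points -/
theorem Box.finite_of_per {S : Sys M Y} (b : Box S) {u : Y} (hu : S.Per u) :
    {z | z ∈ b.D ∧ ∃ t, S.φ t u = b.Z z}.Finite := by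
  obtain ⟨σ, hσ, hper⟩ := hu
  have hP : Function.Periodic (fun t => S.φ t u) σ := fun t => by
    simp only [S.φ_add, hper]
  have key : ∀ z, ∃ t, z ∈ {z | z ∈ b.D ∧ ∃ t, S.φ t u = b.Z z} →
      t ∈ Ico 0 σ ∧ S.φ t u = b.Z z := by
    intro z
    by_cases hz : z ∈ {z | z ∈ b.D ∧ ∃ t, S.φ t u = b.Z z}
    · obtain ⟨t, ht⟩ := hz.2
      obtain ⟨t', ht', e⟩ := hP.exists_mem_Ico₀ hσ t
      exact ⟨t', fun _ => ⟨ht', e.symm.trans ht⟩⟩
    · exact ⟨0, fun h => absurd h hz⟩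
  choose t ht using key
  have hc : 0 < 2 * b.c := by linarith [b.c_pos]
  refine Set.Finite.of_injOn (f := fun z => ⌊t z / (2 * b.c)⌋)
    (t := Icc 0 ⌊σ / (2 * b.c)⌋) (fun z hz => ⟨?_, ?_⟩) (fun z hz z' hz' e => ?_)
    (finite_Icc _ _)
  · exact Int.floor_nonneg.2 (div_nonneg (ht z hz).1.1 hc.le)
  · exact Int.floor_le_floor (div_le_div_of_nonneg_right (ht z hz).1.2.le hc.le)
  · have h1 := Int.abs_sub_lt_one_of_floor_eq_floor e.symm
    rw [← sub_div, abs_div, abs_of_pos hc, div_lt_one hc] at h1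
    refine (b.uniq z hz.1 z' hz'.1 _ h1 ?_).2
    rw [← (ht z hz).2, ← S.φ_add, sub_add_cancel, (ht z' hz').2]

end Pool.Agent.GeoFin
end

-- part Pool.Agent.P.MP_365c00_gt.LocRho
section

/-!
Rotation numbers along an equicontinuous segment vanish (paper sec. 4, part (rho)).
-/

open Set Metric Complex

namespace Pool.Agent.GeoFin

namespace LocRhoX

/-- the sum of the turning angles of the chord between two orbits -/
noncomputable def Rn (f : ℂ → ℂ) (n : ℕ) (z w : ℂ) : ℝ :=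
  ∑ i ∈ Finset.range n, arg ((f^[i + 1] z - f^[i + 1] w) / (f^[i] z - f^[i] w))

theorem Rn_symm (f : ℂ → ℂ) (n : ℕ) (z w : ℂ) : Rn f n z w = Rn f n w z := by
  refine Finset.sum_congr rfl fun i _ => ?_
  rw [← neg_div_neg_eq, neg_sub, neg_sub]

theorem Rn_add (f : ℂ → ℂ) (n m : ℕ) (z w : ℂ) :
    Rn f (n + m) z w = Rn f n z w + Rn f m (f^[n] z) (f^[n] w) := by
  unfold Rn
  rw [Finset.sum_range_add]
  congr 1
  refine Finset.sum_congr rfl fun i _ => ?_
  rw [← Function.iterate_add_apply, ← Function.iterate_add_apply, ← Function.iterate_add_apply,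
    ← Function.iterate_add_apply, add_comm i n, add_comm (i + 1) n, add_assoc]

theorem iter_mul {f : ℂ → ℂ} {k : ℕ} {z : ℂ} (hz : f^[k] z = z) (m : ℕ) : f^[m * k] z = z := by
  rw [mul_comm, Function.iterate_mul]
  exact Function.iterate_fixed hz m

theorem Rn_mul {f : ℂ → ℂ} {k : ℕ} {z w : ℂ} (hz : f^[k] z = z) (hw : f^[k] w = w) (m : ℕ) :
    Rn f (m * k) z w = m * Rn f k z w := by
  induction m with
  | zero => simp [Rn]
  | succ m ih =>
    rw [Nat.succ_mul, Rn_add, ih, iter_mul hz, iter_mul hw]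
    push_cast
    ring

/-- the rotation number vanishes -/
def Null (f : ℂ → ℂ) (z w : ℂ) : Prop := ∃ N > 0, ∃ C : ℝ, ∀ m, |Rn f (m * N) z w| ≤ C

theorem Null.symm {f : ℂ → ℂ} {z w : ℂ} (h : Null f z w) : Null f w z := by
  obtain ⟨N, hN, C, hC⟩ := h
  exact ⟨N, hN, C, fun m => by rw [Rn_symm]; exact hC m⟩

theorem null_fixed {f : ℂ → ℂ} {z w : ℂ} (hz : f z = z) (hw : f w = w) : Null f z w := by
  refine ⟨1, one_pos, 0, fun m => ?_⟩
  have : Rn f (m * 1) z w = 0 := by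
    refine Finset.sum_eq_zero fun i _ => ?_
    simp only [Function.iterate_fixed hz, Function.iterate_fixed hw]
    by_cases e : z - w = 0
    · simp [e]
    · rw [div_self e, arg_one]
  rw [this, abs_zero]

theorem Null.trans {f : ℂ → ℂ} {z z' w : ℂ} (h : Null f z w) {N : ℕ} (hN : 0 < N) {C : ℝ}
    (hC : ∀ m, |Rn f (m * N) z w - Rn f (m * N) z' w| ≤ C) : Null f z' w := by
  obtain ⟨N', hN', C', hC'⟩ := h
  refine ⟨N * N', Nat.mul_pos hN hN', C' + C, fun m => ?_⟩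
  have h1 := hC' (m * N)
  have h2 := hC (m * N')
  rw [mul_assoc] at h1
  rw [mul_assoc, mul_comm N' N] at h2
  rw [abs_le] at h1 h2 ⊢
  constructor <;> linarith [h1.1, h1.2, h2.1, h2.2]

theorem Null.eq_zero {f : ℂ → ℂ} {z w : ℂ} (h : Null f z w) {k : ℕ} (hz : f^[k] z = z)
    (hw : f^[k] w = w) : Rn f k z w = 0 := by
  obtain ⟨N, hN, C, hC⟩ := h
  by_contra hne
  have hpos : 0 < |Rn f k z w| := abs_pos.2 hne
  obtain ⟨m, hm⟩ := exists_nat_gt (C / |Rn f k z w|)
  have h1 := hC (m * k)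
  rw [mul_right_comm, Rn_mul hz hw, abs_mul, Nat.abs_cast, Nat.cast_mul] at h1
  rw [div_lt_iff₀ hpos] at hm
  have h2 : (1 : ℝ) ≤ N := by exact_mod_cast hN
  have h3 : (0 : ℝ) ≤ m * |Rn f k z w| := by positivity
  nlinarith

theorem re_pos_of_norm_lt {a b : ℂ} (h : ‖a - b‖ < ‖b‖) : 0 < (a / b).re := by
  have hb : b ≠ 0 := by
    rintro rfl
    simp only [norm_zero] at h
    exact absurd h (not_lt.2 (norm_nonneg _))
  have e : a / b = 1 + (a - b) / b := by field_simp; ring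
  have h1 : ‖(a - b) / b‖ < 1 := by
    rw [norm_div, div_lt_one (norm_pos_iff.2 hb)]
    exact h
  have h2 := (abs_le.1 (abs_re_le_norm ((a - b) / b))).1
  rw [e, add_re, one_re]
  linarith

variable {f : ℂ → ℂ} {H : ℂ → ℝ} {z0 : ℂ} {R r : ℝ}

theorem step (h : Near f H z0 R) {z w : ℂ} (hz : z ∈ ball z0 R) (hw : w ∈ ball z0 R)
    (hne : z - w ≠ 0) : 0 < ((f z - f w) / (z - w)).re := by
  refine re_pos_of_norm_lt ?_
  have h1 := h.lip z hz w hw
  have e : f z - f w - (z - w) = f z - z - (f w - w) := by ring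
  have h2 := norm_pos_iff.2 hne
  rw [e]
  linarith

theorem iter_ne (h : Near f H z0 R) {z w : ℂ} (hz : ∀ i, f^[i] z ∈ ball z0 R)
    (hw : ∀ i, f^[i] w ∈ ball z0 R) (hne : z - w ≠ 0) (i : ℕ) : f^[i] z - f^[i] w ≠ 0 := by
  induction i with
  | zero => exact hne
  | succ i ih =>
    have h1 := step h (hz i) (hw i) ih
    rw [Function.iterate_succ_apply', Function.iterate_succ_apply']
    intro e
    simp [e] at h1

theorem Rn_angle (h : Near f H z0 R) {z w : ℂ} (hz : ∀ i, f^[i] z ∈ ball z0 R)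
    (hw : ∀ i, f^[i] w ∈ ball z0 R) (hne : z - w ≠ 0) (n : ℕ) :
    (Rn f n z w : Real.Angle) = (arg (f^[n] z - f^[n] w) : Real.Angle) - arg (z - w) := by
  induction n with
  | zero => simp [Rn]
  | succ n ih =>
    unfold Rn at ih ⊢
    rw [Finset.sum_range_succ, Real.Angle.coe_add, ih,
      arg_div_coe_angle (iter_ne h hz hw hne _) (iter_ne h hz hw hne _)]
    abel

theorem loc (h : Near f H z0 R)
    (horb : ∀ s ∈ Ioo (-r) r, ∀ i, f^[i] (z0 + s * I) ∈ ball z0 R)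
    (heq : ∀ s ∈ Ioo (-r) r, ∀ d > 0, ∃ η > 0, ∀ s' ∈ Ioo (-r) r, |s' - s| < η →
      ∀ i, dist (f^[i] (z0 + s' * I)) (f^[i] (z0 + s * I)) < d)
    (hdense : ∀ s ∈ Ioo (-r) r, ∀ η > 0, ∃ s' ∈ Ioo (-r) r, |s' - s| < η ∧
      ∃ k > 0, f^[k] (z0 + s' * I) = z0 + s' * I)
    {w : ℂ} (hw : ∀ i, f^[i] w ∈ ball z0 R) {l : ℕ} (hl : 0 < l) (hwl : f^[l] w = w)
    {s : ℝ} (hs : s ∈ Ioo (-r) r) (hne : z0 + s * I ≠ w) :
    ∃ η > 0, ∃ N > 0, ∀ a ∈ Ioo (-r) r, |a - s| < η → ∀ b ∈ Ioo (-r) r, |b - s| < η → ∀ m,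
      |Rn f (m * N) (z0 + a * I) w - Rn f (m * N) (z0 + b * I) w| ≤ 2 * Real.pi := by
  set x : ℂ := z0 + s * I with hx
  have hxw : x - w ≠ 0 := sub_ne_zero.2 hne
  set d : ℝ := ‖x - w‖ / 4 with hd
  have hd0 : 0 < d := by have := norm_pos_iff.2 hxw; positivity
  obtain ⟨η, hη, hJ⟩ := heq s hs d hd0
  obtain ⟨s1, hs1, hs1η, p, hp, hper⟩ := hdense s hs η hη
  refine ⟨η, hη, p * l, Nat.mul_pos hp hl, fun a ha haη b hb hbη m => ?_⟩
  set n : ℕ := m * (p * l) with hn
  have hwn : f^[n] w = w := by rw [hn, ← mul_assoc]; exact iter_mul hwl _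
  have hzn : f^[n] (z0 + s1 * I) = z0 + s1 * I := by
    rw [hn, mul_comm p l, ← mul_assoc]; exact iter_mul hper _
  set J : Set ℝ := Ioo (-r) r ∩ ball s η with hJd
  have hJc : IsPreconnected J := ((convex_Ioo _ _).inter (convex_ball _ _)).isPreconnected
  have hmem : ∀ c ∈ J, c ∈ Ioo (-r) r ∧ |c - s| < η := fun c hc =>
    ⟨hc.1, by have := hc.2; rwa [mem_ball, Real.dist_eq] at this⟩
  have h0 : ∀ c ∈ J, ‖(z0 + c * I - w) - (x - w)‖ < ‖x - w‖ := fun c hc => by
    have h1 := hJ c (hmem c hc).1 (hmem c hc).2 0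
    simp only [Function.iterate_zero, id_eq, dist_eq_norm] at h1
    rw [sub_sub_sub_cancel_right]
    linarith
  have h1 : ∀ c ∈ J, ‖(f^[n] (z0 + c * I) - w) - (x - w)‖ < ‖x - w‖ := fun c hc => by
    have h1 := hJ c (hmem c hc).1 (hmem c hc).2 n
    have h2 := hJ s1 hs1 hs1η n
    have h3 := hJ s1 hs1 hs1η 0
    rw [hzn] at h2
    simp only [Function.iterate_zero, id_eq] at h3
    have h4 := dist_triangle (f^[n] (z0 + c * I)) (f^[n] x) x
    have h5 := dist_triangle_left (f^[n] x) x (z0 + s1 * I)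
    rw [sub_sub_sub_cancel_right, ← dist_eq_norm]
    linarith
  have hne' : ∀ c ∈ J, z0 + c * I - w ≠ 0 := fun c hc e => by
    have := h0 c hc
    rw [e, zero_sub, norm_neg] at this
    exact lt_irrefl _ this
  have hcont : ∀ i, ContinuousOn (fun c : ℝ => f^[i] (z0 + c * I)) J := fun i => by
    refine ContinuousOn.mono (s := Ioo (-r) r) ?_ inter_subset_left
    rw [Metric.continuousOn_iff]
    intro c hc ε hε
    obtain ⟨δ, hδ, hδ'⟩ := heq c hc ε hε
    exact ⟨δ, hδ, fun c' hc' hcc => hδ' c' hc' (by rwa [Real.dist_eq] at hcc) i⟩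
  set Φ : ℝ → ℝ := fun c => Rn f n (z0 + c * I) w - arg ((f^[n] (z0 + c * I) - w) / (x - w))
    + arg ((z0 + c * I - w) / (x - w)) with hΦ
  have hΦc : ContinuousOn Φ J := by
    refine ContinuousOn.add (ContinuousOn.sub ?_ ?_) ?_
    · refine continuousOn_finsetSum _ fun i _ => continuousOn_arg.comp ?_ fun c hc => ?_
      · exact ((hcont _).sub continuousOn_const).div ((hcont _).sub continuousOn_const)
          fun c hc => iter_ne h (horb c hc.1) hw (hne' c hc) i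
      · refine Or.inl ?_
        rw [Function.iterate_succ_apply', Function.iterate_succ_apply']
        exact step h (horb c hc.1 i) (hw i) (iter_ne h (horb c hc.1) hw (hne' c hc) i)
    · exact continuousOn_arg.comp (((hcont n).sub continuousOn_const).div_const _)
        fun c hc => Or.inl (re_pos_of_norm_lt (h1 c hc))
    · exact continuousOn_arg.comp (((hcont 0).sub continuousOn_const).div_const _)
        fun c hc => Or.inl (re_pos_of_norm_lt (h0 c hc))
  have hΦ0 : ∀ c ∈ J, (Φ c : Real.Angle) = 0 := fun c hc => by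
    have h2 := iter_ne h (horb c hc.1) hw (hne' c hc) n
    have h3 := Rn_angle h (horb c hc.1) hw (hne' c hc) n
    rw [hwn] at h2 h3
    simp only [hΦ]
    rw [Real.Angle.coe_add, Real.Angle.coe_sub, h3, arg_div_coe_angle h2 hxw,
      arg_div_coe_angle (hne' c hc) hxw]
    abel
  have haJ : a ∈ J := ⟨ha, by rwa [mem_ball, Real.dist_eq]⟩
  have hbJ : b ∈ J := ⟨hb, by rwa [mem_ball, Real.dist_eq]⟩
  have hab : Φ a = Φ b :=
    (AddCircle.isCoveringMap_coe (2 * Real.pi)).constOn_of_comp hJc hΦc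
      (fun c hc c' hc' => (hΦ0 c hc).trans (hΦ0 c' hc').symm) haJ hbJ
  simp only [hΦ] at hab
  have e1 := abs_le.1 (abs_arg_le_pi_div_two_iff.2 (re_pos_of_norm_lt (h0 a haJ)).le)
  have e2 := abs_le.1 (abs_arg_le_pi_div_two_iff.2 (re_pos_of_norm_lt (h1 a haJ)).le)
  have e3 := abs_le.1 (abs_arg_le_pi_div_two_iff.2 (re_pos_of_norm_lt (h0 b hbJ)).le)
  have e4 := abs_le.1 (abs_arg_le_pi_div_two_iff.2 (re_pos_of_norm_lt (h1 b hbJ)).le)
  rw [abs_le]
  constructor <;> linarith [e1.1, e1.2, e2.1, e2.2, e3.1, e3.2, e4.1, e4.2]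

theorem move (h : Near f H z0 R)
    (horb : ∀ s ∈ Ioo (-r) r, ∀ i, f^[i] (z0 + s * I) ∈ ball z0 R)
    (heq : ∀ s ∈ Ioo (-r) r, ∀ d > 0, ∃ η > 0, ∀ s' ∈ Ioo (-r) r, |s' - s| < η →
      ∀ i, dist (f^[i] (z0 + s' * I)) (f^[i] (z0 + s * I)) < d)
    (hdense : ∀ s ∈ Ioo (-r) r, ∀ η > 0, ∃ s' ∈ Ioo (-r) r, |s' - s| < η ∧
      ∃ k > 0, f^[k] (z0 + s' * I) = z0 + s' * I)
    {w : ℂ} (hw : ∀ i, f^[i] w ∈ ball z0 R) {l : ℕ} (hl : 0 < l) (hwl : f^[l] w = w)
    {a b : ℝ} (ha : a ∈ Ioo (-r) r) (hb : b ∈ Ioo (-r) r)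
    (hne : ∀ c ∈ uIcc a b, z0 + c * I ≠ w) (hN : Null f (z0 + a * I) w) :
    Null f (z0 + b * I) w := by
  have hsub : uIcc a b ⊆ Ioo (-r) r := ordConnected_Ioo.uIcc_subset ha hb
  refine isPreconnected_uIcc.induction₂'
    (fun c c' : ℝ => Null f (z0 + c * I) w → Null f (z0 + c' * I) w) (fun c hc => ?_)
    (fun c c' c'' _ _ _ h1 h2 h3 => h2 (h1 h3)) left_mem_uIcc right_mem_uIcc hN
  obtain ⟨η, hη, N, hN, hb⟩ := loc h horb heq hdense hw hl hwl (hsub hc) (hne c hc)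
  have hc0 : |c - c| < η := by simpa using hη
  filter_upwards [self_mem_nhdsWithin, mem_nhdsWithin_of_mem_nhds (ball_mem_nhds c hη)]
    with c' hc' hcc
  rw [mem_ball, Real.dist_eq] at hcc
  exact ⟨fun h1 => h1.trans hN (hb c (hsub hc) hc0 c' (hsub hc') hcc),
    fun h1 => h1.trans hN (hb c' (hsub hc') hcc c (hsub hc) hc0)⟩

theorem line_inj {a b : ℝ} (e : z0 + a * I = z0 + b * I) : a = b := by
  have := congrArg Complex.im e
  simpa using this

end LocRhoX

open LocRhoX in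
theorem Near.turn_eq_zero {f : ℂ → ℂ} {H : ℂ → ℝ} {z0 : ℂ} {R r : ℝ} (h : Near f H z0 R)
    (horb : ∀ s ∈ Ioo (-r) r, ∀ i, f^[i] (z0 + s * I) ∈ ball z0 (R / 4))
    (heq : ∀ s ∈ Ioo (-r) r, ∀ d > 0, ∃ η > 0, ∀ s' ∈ Ioo (-r) r, |s' - s| < η →
      ∀ i, dist (f^[i] (z0 + s' * I)) (f^[i] (z0 + s * I)) < d)
    (hdense : ∀ s ∈ Ioo (-r) r, ∀ η > 0, ∃ s' ∈ Ioo (-r) r, |s' - s| < η ∧
      ∃ k > 0, f^[k] (z0 + s' * I) = z0 + s' * I)
    (hfix : ∃ s ∈ Ioo (-r) r, s ≠ 0 ∧ f (z0 + s * I) = z0 + s * I)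
    {s : ℝ} (hs : s ∈ Ioo (-r) r) {k : ℕ} (hk : 0 < k) (hper : f^[k] (z0 + s * I) = z0 + s * I)
    (hy : f (z0 + s * I) ≠ z0 + s * I) {w : ℂ} (hw : w ∈ ball z0 R) (hfw : f w = w) :
    turn f (z0 + s * I) k w = 0 := by
  have hR := h.R_pos
  have horb' : ∀ s ∈ Ioo (-r) r, ∀ i, f^[i] (z0 + s * I) ∈ ball z0 R := fun s hs i =>
    ball_subset_ball (by linarith) (horb s hs i)
  have hwi : ∀ i, f^[i] w = w := fun i => Function.iterate_fixed hfw i
  have hwB : ∀ i, f^[i] w ∈ ball z0 R := fun i => by rw [hwi]; exact hw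
  obtain ⟨t, ht, hft, htw⟩ : ∃ t ∈ Ioo (-r) r, f (z0 + t * I) = z0 + t * I ∧ z0 + t * I ≠ w := by
    obtain ⟨s0, hs0, hs00, hf0⟩ := hfix
    by_cases e : z0 + s0 * I = w
    · refine ⟨0, ⟨by linarith [hs.1, hs.2], by linarith [hs.1, hs.2]⟩, by simpa using h.fix,
        fun e' => hs00 (line_inj (e.trans e'.symm))⟩
    · exact ⟨s0, hs0, hf0, e⟩
  have key : Null f (z0 + s * I) w := by
    by_cases hc : ∀ c ∈ uIcc t s, z0 + c * I ≠ w
    · exact move h horb' heq hdense hwB one_pos hfw ht hs hc (null_fixed hft hfw)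
    · push Not at hc
      obtain ⟨c, hc, rfl⟩ := hc
      have hcI : c ∈ Ioo (-r) r := ordConnected_Ioo.uIcc_subset ht hs hc
      have hct : c ≠ t := fun e => htw (by rw [e])
      have hcs : c ≠ s := fun e => hy (by rw [← e]; exact hfw)
      have h1 : Null f (z0 + s * I) (z0 + t * I) := by
        refine move h horb' heq hdense (horb' t ht) one_pos hft hcI hs (fun e he e' => ?_)
          (null_fixed hfw hft)
        obtain rfl := line_inj e'
        rw [mem_uIcc] at hc he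
        rcases hc with hc | hc <;> rcases he with he | he <;>
          exact hct (by linarith [hc.1, hc.2, he.1, he.2])
      have h2 : Null f (z0 + c * I) (z0 + s * I) := by
        refine move h horb' heq hdense (horb' s hs) hk hper ht hcI (fun e he e' => ?_) h1.symm
        obtain rfl := line_inj e'
        rw [mem_uIcc] at hc he
        rcases hc with hc | hc <;> rcases he with he | he <;>
          exact hcs (by linarith [hc.1, hc.2, he.1, he.2])
      exact h2.symm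
  have e := key.eq_zero hper (hwi k)
  unfold Rn at e
  simpa only [turn, hwi] using e

end Pool.Agent.GeoFin
end

-- part Pool.Agent.P.MP_365c00_gt.LocWind
section

/-!
A periodic orbit turns around some fixed point (paper sec. 4, part (nu)).
-/

open Set Metric Complex

namespace Pool.Agent.GeoFin

/-- the quadrilateral sum -/
noncomputable def quad (P Q a b : ℂ) : ℝ :=
  arg ((Q - b) / (P - b)) - arg ((Q - a) / (P - a)) - arg ((Q - b) / (Q - a)) +
    arg ((P - b) / (P - a))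

namespace LocWindX

theorem arg_div_half {u x y : ℂ} (hx : 0 < (u * x).re) (hy : 0 < (u * y).re) :
    arg (x / y) = arg (u * x) - arg (u * y) := by
  have hx0 : u * x ≠ 0 := fun h => by simp [h] at hx
  have hy0 : u * y ≠ 0 := fun h => by simp [h] at hy
  have hu : u ≠ 0 := left_ne_zero_of_mul hx0
  have e : x / y = (u * x) / (u * y) := (mul_div_mul_left x y hu).symm
  have h1 := abs_lt.1 (abs_arg_lt_pi_div_two_iff.2 (Or.inl hx))
  have h2 := abs_lt.1 (abs_arg_lt_pi_div_two_iff.2 (Or.inl hy))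
  have h3 : ((arg (x / y) : ℝ) : Real.Angle) = ((arg (u * x) - arg (u * y) : ℝ) : Real.Angle) := by
    rw [e, arg_div_coe_angle hx0 hy0, Real.Angle.coe_sub]
  have h4 := congrArg Real.Angle.toReal h3
  rw [arg_coe_angle_toReal_eq_arg, Real.Angle.toReal_coe_eq_self_iff.2
    ⟨by linarith [h1.1, h2.2], by linarith [h1.2, h2.1]⟩] at h4
  exact h4

theorem quad_int {P Q a b : ℂ} (h1 : P - a ≠ 0) (h2 : P - b ≠ 0) (h3 : Q - a ≠ 0)
    (h4 : Q - b ≠ 0) : ∃ n : ℤ, (n : ℝ) * (2 * Real.pi) = quad P Q a b := by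
  have : ((quad P Q a b : ℝ) : Real.Angle) = 0 := by
    unfold quad
    rw [Real.Angle.coe_add, Real.Angle.coe_sub, Real.Angle.coe_sub, arg_div_coe_angle h4 h2,
      arg_div_coe_angle h3 h1, arg_div_coe_angle h4 h3, arg_div_coe_angle h2 h1]
    abel
  obtain ⟨n, hn⟩ := Real.Angle.coe_eq_zero_iff.1 this
  exact ⟨n, by simpa using hn⟩

theorem im_div (x y : ℂ) : (x / y).im = (x.im * y.re - x.re * y.im) / normSq y := by
  rw [div_im]
  ring

end LocWindX

open LocWindX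

theorem quad_eq_zero {P Q a b : ℂ} (h : Disjoint (segment ℝ a b) (segment ℝ P Q)) :
    quad P Q a b = 0 := by
  have hc : ∀ x y : ℂ, IsCompact (segment ℝ x y) := fun x y => by
    rw [segment_eq_image]
    exact isCompact_Icc.image (by fun_prop)
  obtain ⟨φ, s, t, h1, hst, h2⟩ := geometric_hahn_banach_compact_closed (convex_segment a b)
    (hc a b) (convex_segment P Q) (hc P Q).isClosed h
  set u : ℂ := (φ 1 : ℂ) - (φ I : ℂ) * I with hu
  have hφ : ∀ z : ℂ, (u * z).re = φ z := by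
    intro z
    have : z = z.re • (1 : ℂ) + z.im • I := by simp
    conv_rhs => rw [this, map_add, map_smul, map_smul]
    simp [hu]
    ring
  have ha := h1 a (left_mem_segment ℝ a b)
  have hb := h1 b (right_mem_segment ℝ a b)
  have hP := h2 P (left_mem_segment ℝ P Q)
  have hQ := h2 Q (right_mem_segment ℝ P Q)
  have e1 : 0 < (u * (P - a)).re := by rw [hφ, map_sub]; linarith
  have e2 : 0 < (u * (P - b)).re := by rw [hφ, map_sub]; linarith
  have e3 : 0 < (u * (Q - a)).re := by rw [hφ, map_sub]; linarith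
  have e4 : 0 < (u * (Q - b)).re := by rw [hφ, map_sub]; linarith
  unfold quad
  rw [arg_div_half e4 e2, arg_div_half e3 e1, arg_div_half e4 e3, arg_div_half e2 e1]
  ring

theorem quad_nonpos {P Q a b : ℂ} (ha : a ∉ segment ℝ P Q) (hb : b ∉ segment ℝ P Q)
    (h : ¬ Disjoint (segment ℝ a b) (segment ℝ P Q))
    (hs : ((starRingEnd ℂ) (Q - P) * (b - a)).im < 0) :
    quad P Q a b ≤ 0 ∧ (P ∉ segment ℝ a b → quad P Q a b < 0) := by
  obtain ⟨c, hc1, hc2⟩ := Set.not_disjoint_iff.1 h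
  have hc1' := hc1
  have hc2' := hc2
  rw [segment_eq_image'] at hc1 hc2
  obtain ⟨s, hs01, hsc⟩ := hc1
  obtain ⟨t, ht01, htc⟩ := hc2
  have hsc' : a + s • (b - a) = c := hsc
  have htc' : P + t • (Q - P) = c := htc
  have hs0 : 0 < s := lt_of_le_of_ne hs01.1 fun h0 => ha (by
    rw [← h0] at hsc'
    have : a = c := by simpa using hsc'
    rw [this]; exact hc2')
  have hs1 : s < 1 := lt_of_le_of_ne hs01.2 fun h0 => hb (by
    rw [h0] at hsc'
    have : b = c := by simpa using hsc'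
    rw [this]; exact hc2')
  have n1 : P - a ≠ 0 := sub_ne_zero.2 fun h => ha (h ▸ left_mem_segment ℝ P Q)
  have n2 : P - b ≠ 0 := sub_ne_zero.2 fun h => hb (h ▸ left_mem_segment ℝ P Q)
  have n3 : Q - a ≠ 0 := sub_ne_zero.2 fun h => ha (h ▸ right_mem_segment ℝ P Q)
  have n4 : Q - b ≠ 0 := sub_ne_zero.2 fun h => hb (h ▸ right_mem_segment ℝ P Q)
  have hre : a.re + s * (b.re - a.re) = P.re + t * (Q.re - P.re) := by
    have := congrArg re (hsc'.trans htc'.symm)
    simpa using this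
  have him : a.im + s * (b.im - a.im) = P.im + t * (Q.im - P.im) := by
    have := congrArg im (hsc'.trans htc'.symm)
    simpa using this
  set D : ℝ := (Q.re - P.re) * (b.im - a.im) - (Q.im - P.im) * (b.re - a.re) with hD
  have hD0 : D < 0 := by
    have : ((starRingEnd ℂ) (Q - P) * (b - a)).im = D := by
      simp [hD]
      ring
    rwa [this] at hs
  have a1 : arg ((Q - b) / (P - b)) < 0 := by
    rw [arg_neg_iff, im_div]
    refine div_neg_of_neg_of_pos ?_ (normSq_pos.2 n2)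
    have : (Q - b).im * (P - b).re - (Q - b).re * (P - b).im = (1 - s) * D := by
      simp only [sub_re, sub_im, hD]
      linear_combination (-(Q.im - P.im)) * hre + (Q.re - P.re) * him
    rw [this]
    exact mul_neg_of_pos_of_neg (by linarith) hD0
  have a2 : 0 ≤ arg ((Q - a) / (P - a)) := by
    rw [arg_nonneg_iff, im_div]
    refine div_nonneg ?_ (normSq_nonneg _)
    have : (Q - a).im * (P - a).re - (Q - a).re * (P - a).im = -(s * D) := by
      simp only [sub_re, sub_im, hD]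
      linear_combination (-(Q.im - P.im)) * hre + (Q.re - P.re) * him
    rw [this]
    nlinarith
  have a3 : 0 ≤ arg ((Q - b) / (Q - a)) := by
    rw [arg_nonneg_iff, im_div]
    refine div_nonneg ?_ (normSq_nonneg _)
    have : (Q - b).im * (Q - a).re - (Q - b).re * (Q - a).im = -((1 - t) * D) := by
      simp only [sub_re, sub_im, hD]
      linear_combination (b.im - a.im) * hre - (b.re - a.re) * him
    rw [this]
    nlinarith [ht01.2]
  have key : 0 < t → quad P Q a b < 0 := by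
    intro ht
    have a4 : arg ((P - b) / (P - a)) < 0 := by
      rw [arg_neg_iff, im_div]
      refine div_neg_of_neg_of_pos ?_ (normSq_pos.2 n1)
      have : (P - b).im * (P - a).re - (P - b).re * (P - a).im = t * D := by
        simp only [sub_re, sub_im, hD]
        linear_combination (b.im - a.im) * hre - (b.re - a.re) * him
      rw [this]
      exact mul_neg_of_pos_of_neg ht hD0
    unfold quad
    linarith
  constructor
  · obtain ⟨n, hn⟩ := quad_int n1 n2 n3 n4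
    have h1 : quad P Q a b < Real.pi := by
      unfold quad
      linarith [arg_le_pi ((P - b) / (P - a))]
    have hπ := Real.pi_pos
    have h2 : (n : ℝ) < 1 := by nlinarith
    have h3 : n ≤ 0 := by
      have : n < 1 := by exact_mod_cast h2
      omega
    have h4 : (n : ℝ) ≤ 0 := by exact_mod_cast h3
    nlinarith
  · intro hP
    refine key (lt_of_le_of_ne ht01.1 fun h0 => hP ?_)
    rw [← h0] at htc'
    have : P = c := by simpa using htc'
    rw [this]; exact hc1'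

namespace LocWindX

/-- the orbit polygon -/
def Gam (f : ℂ → ℂ) (y : ℂ) (k : ℕ) : Set ℂ :=
  ⋃ i ∈ Finset.range k, segment ℝ (f^[i] y) (f^[i + 1] y)

theorem isClosed_Gam (f : ℂ → ℂ) (y : ℂ) (k : ℕ) : IsClosed (Gam f y k) := by
  refine isClosed_biUnion_finset fun i _ => IsCompact.isClosed ?_
  rw [segment_eq_image]
  exact isCompact_Icc.image (by fun_prop)

theorem not_mem_Gam {f : ℂ → ℂ} {y z : ℂ} {k : ℕ} :
    z ∉ Gam f y k ↔ ∀ i < k, z ∉ segment ℝ (f^[i] y) (f^[i + 1] y) := by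
  simp [Gam]

theorem turn_sub {f : ℂ → ℂ} {y : ℂ} {k : ℕ} (hper : f^[k] y = y) (a b : ℂ) :
    turn f y k b - turn f y k a = ∑ i ∈ Finset.range k, quad (f^[i] y) (f^[i + 1] y) a b := by
  have h := Finset.sum_range_sub (fun i => arg ((f^[i] y - b) / (f^[i] y - a))) k
  simp only [hper, Function.iterate_zero, id, sub_self] at h
  unfold turn quad
  rw [Finset.sum_sub_distrib] at h
  rw [Finset.sum_add_distrib, Finset.sum_sub_distrib, Finset.sum_sub_distrib]
  linarith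

theorem turn_far {f : ℂ → ℂ} {y z0 w : ℂ} {k : ℕ} {r : ℝ} (hper : f^[k] y = y)
    (horb : ∀ i, f^[i] y ∈ ball z0 r) (hw : w ∉ closedBall z0 r) : turn f y k w = 0 := by
  set u : ℂ := (starRingEnd ℂ) (z0 - w) with hu
  have hpos : ∀ i, 0 < (u * (f^[i] y - w)).re := by
    intro i
    have h1 : ‖f^[i] y - z0‖ < r := by simpa [dist_eq_norm] using horb i
    have h2 : r < ‖z0 - w‖ := by
      rw [mem_closedBall, not_le, dist_comm, dist_eq_norm] at hw
      exact hw
    have h3 : u * (f^[i] y - w) = u * (z0 - w) + u * (f^[i] y - z0) := by ring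
    have h4 : (u * (z0 - w)).re = ‖z0 - w‖ ^ 2 := by
      rw [hu, mul_comm, mul_conj, normSq_eq_norm_sq, ofReal_re]
    have h5 : |(u * (f^[i] y - z0)).re| ≤ ‖z0 - w‖ * ‖f^[i] y - z0‖ := by
      refine (abs_re_le_norm _).trans ?_
      rw [norm_mul, hu, norm_conj]
    have h6 := (abs_le.1 h5).1
    have h7 := norm_nonneg (f^[i] y - z0)
    rw [h3, add_re, h4]
    nlinarith
  unfold turn
  simp_rw [fun i => arg_div_half (hpos (i + 1)) (hpos i)]
  rw [Finset.sum_range_sub (fun i => arg (u * (f^[i] y - w))) k]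
  simp [hper]

theorem turn_loc {f : ℂ → ℂ} {y w : ℂ} {k : ℕ} (hper : f^[k] y = y) (hw : w ∉ Gam f y k) :
    ∃ ε > 0, ∀ z ∈ ball w ε, turn f y k z = turn f y k w := by
  obtain ⟨ε, hε, hb⟩ := Metric.isOpen_iff.1 (isClosed_Gam f y k).isOpen_compl w hw
  refine ⟨ε, hε, fun z hz => ?_⟩
  have h := turn_sub hper w z
  rw [Finset.sum_eq_zero] at h
  · linarith
  · intro i hi
    refine quad_eq_zero (Set.disjoint_left.2 fun x hx => ?_)
    have : x ∈ ball w ε := (convex_ball w ε).segment_subset (mem_ball_self hε) hz hx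
    exact not_mem_Gam.1 (hb this) i (Finset.mem_range.1 hi)

theorem re_pos {A B C : ℂ} (hA : A ≠ 0) (h1 : ‖C - A‖ ≤ 1 / 10 * ‖A‖)
    (h2 : ‖C - B‖ ≤ 1 / 10 * ‖B‖) : 0 < A.re * B.re + A.im * B.im := by
  have h3 : ‖A - B‖ ≤ 1 / 10 * ‖A‖ + 1 / 10 * ‖B‖ := by
    have : A - B = (C - B) - (C - A) := by ring
    rw [this]
    linarith [norm_sub_le (C - B) (C - A)]
  have h4 : ‖A - B‖ ^ 2 = ‖A‖ ^ 2 + ‖B‖ ^ 2 - 2 * (A.re * B.re + A.im * B.im) := by
    rw [← normSq_eq_norm_sq, ← normSq_eq_norm_sq, ← normSq_eq_norm_sq]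
    simp only [normSq_apply, sub_re, sub_im]
    ring
  have h5 := pow_le_pow_left₀ (norm_nonneg _) h3 2
  have h6 := norm_pos_iff.2 hA
  nlinarith [sq_nonneg (‖A‖ - ‖B‖), sq_nonneg ‖B‖, pow_pos h6 2]

theorem norm_sub_le_of_mem {a b x y : ℂ} (hx : x ∈ segment ℝ a b) (hy : y ∈ segment ℝ a b) :
    ‖x - y‖ ≤ ‖b - a‖ := by
  rw [segment_eq_image'] at hx hy
  obtain ⟨s, hs, rfl⟩ := hx
  obtain ⟨t, ht, rfl⟩ := hy
  have : a + s • (b - a) - (a + t • (b - a)) = (s - t) • (b - a) := by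
    rw [sub_smul]; abel
  simp only
  rw [this, norm_smul, Real.norm_eq_abs]
  have h1 : |s - t| ≤ 1 := abs_le.2 ⟨by linarith [hs.1, ht.2], by linarith [hs.2, ht.1]⟩
  nlinarith [norm_nonneg (b - a), abs_nonneg (s - t)]

section
variable {f : ℂ → ℂ} {H : ℂ → ℝ} {z0 : ℂ} {R : ℝ} {y : ℂ} {k : ℕ}

theorem not_fixed (hk : 0 < k) (hper : f^[k] y = y) (hy : f y ≠ y) (i : ℕ) :
    f (f^[i] y) - f^[i] y ≠ 0 := by
  intro h
  have h1 : f (f^[i] y) = f^[i] y := sub_eq_zero.1 h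
  have h2 : f^[k * (i + 1)] y = y := Function.IsPeriodicPt.mul_const hper (i + 1)
  have h3 : k * (i + 1) = (k * (i + 1) - i) + i := by
    have : i + 1 ≤ k * (i + 1) := Nat.le_mul_of_pos_left _ hk
    omega
  rw [h3, Function.iterate_add_apply, Function.iterate_fixed h1] at h2
  rw [h2] at h1
  exact hy h1

theorem cross (h : Near f H z0 R) (hk : 0 < k) (hper : f^[k] y = y)
    (horb : ∀ i, f^[i] y ∈ ball z0 (R / 4)) (hy : f y ≠ y) {i : ℕ} {c m : ℂ}
    (hc : c ∈ segment ℝ (f^[i] y) (f^[i + 1] y)) (hm : m ∈ ball z0 R)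
    (hcm : ‖c - m‖ ≤ ‖f m - m‖) :
    0 < (f^[i + 1] y - f^[i] y).re * (f m - m).re + (f^[i + 1] y - f^[i] y).im * (f m - m).im := by
  have hR := h.R_pos
  have hsub : ball z0 (R / 4) ⊆ ball z0 R := ball_subset_ball (by linarith)
  have hcb : c ∈ ball z0 R := hsub ((convex_ball z0 (R / 4)).segment_subset (horb _) (horb _) hc)
  have h1 := h.lip c hcb _ (hsub (horb i))
  have h2 := h.lip c hcb m hm
  have h3 := norm_sub_le_of_mem hc (left_mem_segment ℝ _ _)
  rw [Function.iterate_succ_apply'] at h3 ⊢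
  exact re_pos (C := f c - c) (not_fixed hk hper hy i) (by linarith) (by linarith)

theorem quad_step (h : Near f H z0 R) (hk : 0 < k) (hper : f^[k] y = y)
    (horb : ∀ i, f^[i] y ∈ ball z0 (R / 4)) (hy : f y ≠ y) {a b m : ℂ} {t : ℝ}
    (ha : a ∉ Gam f y k) (hb : b ∉ Gam f y k) (hm : m ∈ ball z0 R) (hmab : m ∈ segment ℝ a b)
    (ht0 : 0 < t) (ht1 : t ≤ 1) (hab : b - a = -(I * t * (f m - m))) {i : ℕ} (hi : i < k) :
    quad (f^[i] y) (f^[i + 1] y) a b ≤ 0 ∧
      (¬ Disjoint (segment ℝ a b) (segment ℝ (f^[i] y) (f^[i + 1] y)) →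
        f^[i] y ∉ segment ℝ a b → quad (f^[i] y) (f^[i + 1] y) a b < 0) := by
  by_cases hd : Disjoint (segment ℝ a b) (segment ℝ (f^[i] y) (f^[i + 1] y))
  · exact ⟨(quad_eq_zero hd).le, fun h => absurd hd h⟩
  · obtain ⟨c, hc1, hc2⟩ := Set.not_disjoint_iff.1 hd
    have h1 : ‖c - m‖ ≤ ‖f m - m‖ := by
      refine (norm_sub_le_of_mem hc1 hmab).trans ?_
      rw [hab, norm_neg, norm_mul, norm_mul, norm_I, norm_real, Real.norm_eq_abs, abs_of_pos ht0]
      nlinarith [norm_nonneg (f m - m)]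
    have h2 := cross h hk hper horb hy hc2 hm h1
    have h3 : ((starRingEnd ℂ) (f^[i + 1] y - f^[i] y) * (b - a)).im < 0 := by
      rw [hab]
      generalize f^[i + 1] y - f^[i] y = A at h2 ⊢
      generalize f m - m = B at h2 ⊢
      have : ((starRingEnd ℂ) A * -(I * t * B)).im = -(t * (A.re * B.re + A.im * B.im)) := by
        simp
        ring
      rw [this]
      nlinarith
    have := quad_nonpos (not_mem_Gam.1 ha i hi) (not_mem_Gam.1 hb i hi) hd h3
    exact ⟨this.1, fun _ => this.2⟩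

theorem avoid (h : Near f H z0 R) (hk : 0 < k) (hper : f^[k] y = y)
    (horb : ∀ i, f^[i] y ∈ ball z0 (R / 4)) (hy : f y ≠ y) {z : ℂ} (hz : z ∈ ball z0 R)
    {lo hi : ℝ} (h0 : -1 ≤ lo) (hlt : lo < hi) (h1 : hi ≤ 1) :
    ∃ t ∈ Icc lo hi, z + I * t * (f z - z) ∉ Gam f y k := by
  have hfin : (⋃ i ∈ Finset.range k,
      {t ∈ Icc lo hi | z + I * t * (f z - z) ∈ segment ℝ (f^[i] y) (f^[i + 1] y)}).Finite := by
    refine Set.Finite.biUnion (Finset.finite_toSet _) fun i _ => Set.Subsingleton.finite ?_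
    rintro t ⟨ht, hs⟩ t' ⟨ht', hs'⟩
    have hn : ‖z + I * t * (f z - z) - z‖ ≤ ‖f z - z‖ := by
      rw [add_sub_cancel_left, norm_mul, norm_mul, norm_I, norm_real, Real.norm_eq_abs]
      have : |t| ≤ 1 := abs_le.2 ⟨by linarith [ht.1], by linarith [ht.2]⟩
      nlinarith [norm_nonneg (f z - z), abs_nonneg t]
    have h2 := cross h hk hper horb hy hs hz hn
    rw [segment_eq_image'] at hs hs'
    obtain ⟨s, -, hs⟩ := hs
    obtain ⟨s', -, hs'⟩ := hs'
    generalize f^[i + 1] y - f^[i] y = A at h2 hs hs'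
    generalize f z - z = B at h2 hs hs'
    have e1 := congrArg re hs
    have e2 := congrArg im hs
    have e3 := congrArg re hs'
    have e4 := congrArg im hs'
    simp at e1 e2 e3 e4
    have : (t - t') * (A.re * B.re + A.im * B.im) = 0 := by
      linear_combination A.im * e1 - A.re * e2 - A.im * e3 + A.re * e4
    rcases mul_eq_zero.1 this with h | h
    · linarith
    · exact absurd h h2.ne'
  obtain ⟨t, ht, hn⟩ := (Set.Icc_infinite hlt).exists_notMem_finite hfin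
  refine ⟨t, ht, not_mem_Gam.2 fun i hi hs => hn ?_⟩
  exact Set.mem_biUnion (Finset.mem_coe.2 (Finset.mem_range.2 hi)) ⟨ht, hs⟩

theorem descend (h : Near f H z0 R) {G : ℂ → ℝ} (hG : ContinuousOn G (ball z0 R)) {S : Set ℂ}
    (hS : S ⊆ closedBall z0 (R / 4)) (hne : S.Nonempty)
    (hstep : ∀ z ∈ S, ∃ z' ∈ S, G z + ‖f z - z‖ ^ 2 / 4 ≤ G z') :
    ∃ w ∈ closure S, f w = w := by
  have hR := h.R_pos
  have hsub : closedBall z0 (R / 4) ⊆ ball z0 R := closedBall_subset_ball (by linarith)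
  have hcl : closure S ⊆ closedBall z0 (R / 4) := closure_minimal hS isClosed_closedBall
  have hK : IsCompact (closure S) :=
    (isCompact_closedBall z0 (R / 4)).of_isClosed_subset isClosed_closure hcl
  have hX : ContinuousOn (fun z => ‖f z - z‖) (ball z0 R) := by
    refine ContinuousOn.norm (LipschitzOnWith.continuousOn (K := 1) ?_)
    refine LipschitzOnWith.of_dist_le_mul fun z hz z' hz' => ?_
    rw [dist_eq_norm, dist_eq_norm]
    have := h.lip z hz z' hz'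
    simp only [NNReal.coe_one]
    linarith [norm_nonneg (z - z')]
  obtain ⟨w, hw, hmin⟩ := hK.exists_isMinOn hne.closure (hX.mono (hcl.trans hsub))
  refine ⟨w, hw, ?_⟩
  by_contra hc
  have hp : 0 < ‖f w - w‖ := norm_pos_iff.2 (sub_ne_zero.2 hc)
  have hbdd : BddAbove (G '' S) :=
    ((isCompact_closedBall z0 (R / 4)).bddAbove_image (hG.mono hsub)).mono (image_mono hS)
  obtain ⟨_, ⟨z, hz, rfl⟩, hlt⟩ := exists_lt_of_lt_csSup (hne.image G)
    (show sSup (G '' S) - ‖f w - w‖ ^ 2 / 4 < sSup (G '' S) by nlinarith)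
  obtain ⟨z', hz', h1⟩ := hstep z hz
  have h2 := le_csSup hbdd (mem_image_of_mem G hz')
  have h3 : ‖f w - w‖ ≤ ‖f z - z‖ := hmin (subset_closure hz)
  have h4 := pow_le_pow_left₀ hp.le h3 2
  linarith

end

end LocWindX

theorem Near.exists_turn_ne {f : ℂ → ℂ} {H : ℂ → ℝ} {z0 : ℂ} {R : ℝ} (h : Near f H z0 R)
    {y : ℂ} {k : ℕ} (hk : 0 < k) (hper : f^[k] y = y) (horb : ∀ i, f^[i] y ∈ ball z0 (R / 4))
    (hy : f y ≠ y) : ∃ w ∈ closedBall z0 (R / 2), f w = w ∧ turn f y k w ≠ 0 := by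
  by_contra hcon
  push Not at hcon
  have hR := h.R_pos
  have hsub : closedBall z0 (R / 4) ⊆ ball z0 R := closedBall_subset_ball (by linarith)
  have hsub2 : closedBall z0 (R / 4) ⊆ closedBall z0 (R / 2) :=
    closedBall_subset_closedBall (by linarith)
  have hmono : ∀ {a b m : ℂ} {t : ℝ}, a ∉ Gam f y k → b ∉ Gam f y k → m ∈ ball z0 R →
      m ∈ segment ℝ a b → 0 < t → t ≤ 1 → b - a = -(I * t * (f m - m)) →
      turn f y k b ≤ turn f y k a := by
    intro a b m t ha hb hm hmab ht0 ht1 hab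
    have h1 := turn_sub hper a b
    have h2 : ∑ i ∈ Finset.range k, quad (f^[i] y) (f^[i + 1] y) a b ≤ 0 :=
      Finset.sum_nonpos fun i hi =>
        (quad_step h hk hper horb hy ha hb hm hmab ht0 ht1 hab (Finset.mem_range.1 hi)).1
    linarith
  have hend : ∀ S : Set ℂ, S ⊆ closedBall z0 (R / 4) → (∀ z ∈ S, turn f y k z ≠ 0) →
      ∀ w ∈ closure S, f w ≠ w := by
    intro S hS hS' w hw hfw
    have hw4 : w ∈ closedBall z0 (R / 4) := closure_minimal hS isClosed_closedBall hw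
    have hwG : w ∉ Gam f y k := not_mem_Gam.2 fun i _ hi => by
      have := cross h hk hper horb hy hi (hsub hw4) (by simp)
      simp [hfw] at this
    obtain ⟨ε, hε, hl⟩ := turn_loc hper hwG
    obtain ⟨z, hz, hd⟩ := Metric.mem_closure_iff.1 hw ε hε
    exact hS' z hz ((hl z (mem_ball'.2 hd)).trans (hcon w (hsub2 hw4) hfw))
  have hpos : ∀ b, b ∉ Gam f y k → 0 ≤ turn f y k b := by
    intro b hb
    by_contra hneg
    push Not at hneg
    have hS : {z | z ∉ Gam f y k ∧ turn f y k z < 0} ⊆ closedBall z0 (R / 4) := by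
      intro z hz
      by_contra hc
      exact hz.2.ne (turn_far hper horb hc)
    obtain ⟨w, hw, hfw⟩ := descend h h.H_cont hS ⟨b, hb, hneg⟩ (fun z hz => by
      obtain ⟨t, ht, hn⟩ := avoid h hk hper horb hy (hsub (hS hz)) (lo := -1) (hi := -1 / 2)
        le_rfl (by norm_num) (by norm_num)
      have e : z + I * t * (f z - z) = z - I * ((-t : ℝ) : ℂ) * (f z - z) := by
        push_cast; ring
      rw [e] at hn
      refine ⟨_, ⟨hn, lt_of_le_of_lt (hmono (m := z) (t := -t) hz.1 hn (hsub (hS hz))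
        (left_mem_segment ℝ _ _) (by linarith [ht.2]) (by linarith [ht.1]) (by ring)) hz.2⟩, ?_⟩
      have := h.up z (hsub2 (hS hz)) (-t) ⟨by linarith [ht.2], by linarith [ht.1]⟩
      nlinarith [ht.2, sq_nonneg ‖f z - z‖])
    exact hend _ hS (fun z hz => hz.2.ne) w hw hfw
  have hneg : ∀ a, a ∉ Gam f y k → turn f y k a ≤ 0 := by
    intro a ha
    by_contra hneg
    push Not at hneg
    have hS : {z | z ∉ Gam f y k ∧ 0 < turn f y k z} ⊆ closedBall z0 (R / 4) := by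
      intro z hz
      by_contra hc
      exact hz.2.ne' (turn_far hper horb hc)
    obtain ⟨w, hw, hfw⟩ := descend h (G := fun z => -H z) h.H_cont.neg hS ⟨a, ha, hneg⟩
      (fun z hz => by
        obtain ⟨t, ht, hn⟩ := avoid h hk hper horb hy (hsub (hS hz)) (lo := 1 / 2) (hi := 1)
          (by norm_num) (by norm_num) le_rfl
        refine ⟨_, ⟨hn, lt_of_lt_of_le hz.2 (hmono (m := z) (t := t) hn hz.1 (hsub (hS hz))
          (right_mem_segment ℝ _ _) (by linarith [ht.1]) ht.2 (by ring))⟩, ?_⟩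
        have := h.down z (hsub2 (hS hz)) t ⟨by linarith [ht.1], ht.2⟩
        nlinarith [ht.1, sq_nonneg ‖f z - z‖])
    exact hend _ hS (fun z hz => hz.2.ne') w hw hfw
  set m : ℂ := y + (1 / 2 : ℝ) • (f y - y) with hm
  have hmseg : m ∈ segment ℝ (f^[0] y) (f^[0 + 1] y) := by
    rw [segment_eq_image']
    exact ⟨1 / 2, ⟨by norm_num, by norm_num⟩, by simp [hm]⟩
  have hmb : m ∈ ball z0 R := hsub (ball_subset_closedBall
    ((convex_ball z0 (R / 4)).segment_subset (horb _) (horb _) hmseg))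
  obtain ⟨s, hs, ha⟩ := avoid h hk hper horb hy hmb (lo := 1 / 4) (hi := 1 / 2)
    (by norm_num) (by norm_num) (by norm_num)
  obtain ⟨t, ht, hb⟩ := avoid h hk hper horb hy hmb (lo := -1 / 2) (hi := -1 / 4)
    (by norm_num) (by norm_num) (by norm_num)
  have hst : 0 < s - t := by linarith [hs.1, ht.2]
  have hab : (m + I * t * (f m - m)) - (m + I * s * (f m - m))
      = -(I * ((s - t : ℝ) : ℂ) * (f m - m)) := by
    push_cast; ring
  have hmab : m ∈ segment ℝ (m + I * s * (f m - m)) (m + I * t * (f m - m)) := by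
    rw [segment_eq_image']
    refine ⟨s / (s - t), ⟨div_nonneg (by linarith [hs.1]) hst.le,
      (div_le_one hst).2 (by linarith [ht.2])⟩, ?_⟩
    have hc : ((s - t : ℝ) : ℂ) ≠ 0 := ofReal_ne_zero.2 hst.ne'
    simp only
    rw [hab, real_smul, ofReal_div]
    field_simp
    ring
  have hq := fun i (hi : i < k) => quad_step h hk hper horb hy ha hb hmb hmab hst
    (by linarith [hs.2, ht.1]) hab hi
  have hP : f^[0] y ∉ segment ℝ (m + I * s * (f m - m)) (m + I * t * (f m - m)) := by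
    intro hc
    have h2 := cross h hk hper horb hy hmseg hmb (by simp)
    have h3 := not_fixed hk hper hy 0
    rw [segment_eq_image'] at hc
    obtain ⟨r, -, hr⟩ := hc
    simp only [hab, Function.iterate_zero, id, zero_add, Function.iterate_one] at hr h2 h3
    generalize f m - m = B at hr h2
    rw [hm] at hr
    generalize f y - y = A at hr h2 h3
    have e1 := congrArg re hr
    have e2 := congrArg im hr
    simp at e1 e2
    have : A.re * B.re + A.im * B.im = 0 := by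
      linear_combination 2 * B.re * e1 + 2 * B.im * e2
    linarith
  have hlt : ∑ i ∈ Finset.range k, quad (f^[i] y) (f^[i + 1] y) (m + I * s * (f m - m))
      (m + I * t * (f m - m)) < ∑ _i ∈ Finset.range k, (0 : ℝ) :=
    Finset.sum_lt_sum (fun i hi => (hq i (Finset.mem_range.1 hi)).1)
      ⟨0, Finset.mem_range.2 hk, (hq 0 hk).2 (Set.not_disjoint_iff.2 ⟨m, hmab, hmseg⟩) hP⟩
  rw [← turn_sub hper, Finset.sum_const_zero] at hlt
  linarith [hpos _ hb, hneg _ ha]

end Pool.Agent.GeoFin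
end

-- part Pool.Agent.P.MP_365c00_gt.ZA0
section

/-! Finitely many images. -/

set_option linter.unusedSectionVars false
set_option linter.unusedVariables false

open Set Filter Topology Metric Function MeasureTheory
open scoped Manifold ContDiff
open Pool.Agent.GeoN

namespace Pool.Agent.Fu

variable {E : Type} [NormedAddCommGroup E] [InnerProductSpace ℝ E] [FiniteDimensional ℝ E]
  {M : Type} [TopologicalSpace M] [ChartedSpace E M] [IsManifold 𝓘(ℝ, E) ∞ M]
  [T2Space M] [CompactSpace M] [Nonempty M] [Nontrivial E] {g : Met E M}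

theorem za0_fin (u : UG g) (l : ℝ) (x : M) : {r ∈ Icc 0 l | u.1 r = x}.Finite := by
  by_contra hinf
  obtain ⟨r, -, hr⟩ := Set.Infinite.exists_accPt_of_subset_isCompact hinf isCompact_Icc
    (sep_subset _ _)
  rw [accPt_iff_frequently] at hr
  have h1 : u.1 r = x := tendsto_nhds_unique_of_frequently_eq (u.1.continuous.tendsto r)
    tendsto_const_nhds (hr.mono fun s hs => hs.2.2)
  obtain ⟨ε, hε, hi⟩ := (shift r u).locinj
  obtain ⟨s, hs, hs'⟩ := (hr.and_eventually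
    (Ioo_mem_nhds (show r - ε < r by linarith) (show r < r + ε by linarith))).exists
  have h2 : s - r = 0 := hi ⟨by linarith [hs'.1], by linarith [hs'.2]⟩
    ⟨by linarith, hε⟩ (by rw [shift_apply, shift_apply, sub_add_cancel, zero_add, h1, hs.2.2])
  exact hs.1 (sub_eq_zero.1 h2)

theorem za0_one (g : Met E M) (x : M) (S : Set M) :
    ∃ (L : ℝ) (U : Set (UG g)), U.Finite ∧ (∀ u ∈ U, ∃ P > 0, Periodic u.1 P) ∧
      ∀ (u : UG g) (l : ℝ), 0 < l → L < l → u.1 0 = x → u.1 '' Icc 0 l = S → u ∈ U := by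
  by_cases h : ∃ (u : UG g) (l : ℝ), 0 < l ∧ u.1 0 = x ∧ u.1 '' Icc 0 l = S
  swap
  · exact ⟨0, ∅, finite_empty, fun _ hu => hu.elim, fun u l h1 _ h2 h3 => h ⟨u, l, h1, h2, h3⟩⟩
  obtain ⟨v, L, hL, h0, hS⟩ := h
  refine ⟨L, {u | (∃ P > 0, Periodic u.1 P) ∧ ∃ r ∈ {r ∈ Icc 0 L | v.1 r = x},
    (∀ s, u.1 s = v.1 (r + s)) ∨ ∀ s, u.1 s = v.1 (r - s)}, ?_, fun u hu => hu.1,
    fun u l h1 h2 h3 h4 => ⟨?_, ?_⟩⟩
  · have hs : ∀ f : ℝ → M, {u : UG g | ∀ s, u.1 s = f s}.Finite := fun f =>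
      Set.Subsingleton.finite fun a ha b hb =>
        Subtype.ext (ContinuousMap.ext fun s => (ha s).trans (hb s).symm)
    refine ((za0_fin v L x).biUnion fun r _ =>
      (hs fun s => v.1 (r + s)).union (hs fun s => v.1 (r - s))).subset ?_
    rintro u ⟨-, r, hr, hu⟩
    exact mem_biUnion hr hu
  · rcases bimg_core v u hL h1 (h0.trans h3.symm) (hS.trans h4.symm) with ⟨π, hπ, -, hp⟩ | ⟨e, -⟩
    · exact ⟨π, hπ.1, hp⟩
    · exact absurd e h2.ne
  · obtain ⟨r, hr, hu⟩ := u.dir v L l h1 (h4.trans hS.symm).le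
    refine ⟨r, ⟨hr, ?_⟩, hu⟩
    rcases hu with hu | hu
    · rw [← h3, hu, add_zero]
    · rw [← h3, hu, sub_zero]

theorem finU_of_finite {x y : M} (hne : x ≠ y) (h : (images g (x, y)).Finite) : FinU g x y := by
  choose L U hU hP hm using za0_one g x
  obtain ⟨B, hB⟩ := (h.image L).bddAbove
  refine ⟨B, ⋃ S ∈ images g (x, y), U S, h.biUnion fun S _ => hU S, fun u hu => ?_,
    fun u l h1 h2 h3 h4 => ?_⟩
  · obtain ⟨S, -, hS⟩ := mem_iUnion₂.1 hu
    exact hP S u hS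
  · have hS : u.1 '' Icc 0 l ∈ images g (x, y) := by
      refine ⟨fun t => u.1 (l * t + 0), (u.energy_scale l 0).1, ⟨1, ⟨zero_le_one, le_rfl⟩, ?_⟩, ?_,
        ?_, ?_⟩
      · simp only [mul_one, mul_zero, add_zero, h3, h4]
        exact hne.symm
      · simp only [mul_zero, add_zero, h3]
      · simp only [mul_one, add_zero, h4]
      · rw [(bimg_scale (f := u.1) h1 fun t => by rw [add_zero]).1 1, mul_one]
    exact mem_biUnion hS (hm _ u l h1 ((hB (mem_image_of_mem L hS)).trans_lt h2) h3 rfl)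

theorem np_finU [MeasurableSpace (E × E)] [BorelSpace (E × E)] (μ : Measure (E × E))
    [μ.IsAddHaarMeasure] (h : NP E μ {z : M × M | (images g z).Finite}ᶜ) :
    NP E μ {z : M × M | ¬ FinU g z.1 z.2} := fun x y => by
  have hA : μ {w : E × E | w.2 = 0 ∧ w.1 ∈ (κ E x).target ∧ (κ E x).symm w.1 ∈ (κ E y).source} =
      0 := by
    refine measure_mono_null (fun w hw => hw.1) (Measure.addHaar_submodule μ
      (LinearMap.ker (LinearMap.snd ℝ E E)) fun e => ?_)
    obtain ⟨v, hv⟩ := exists_ne (0 : E)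
    have h1 : ((0, v) : E × E) ∈ LinearMap.ker (LinearMap.snd ℝ E E) := e ▸ Submodule.mem_top
    exact hv h1
  have hD := addHaar_image_eq_zero_of_differentiableOn_of_addHaar_eq_zero μ
    (f := fun w : E × E => (w.1, (κ E y ∘ (κ E x).symm) w.1)) (fun w hw =>
      (differentiableAt_fst.prodMk (((contDiffAt_trans hw.2.1 hw.2.2).differentiableAt
        (by simp)).comp w differentiableAt_fst)).differentiableWithinAt) hA
  refine measure_mono_null ?_ (measure_union_null (h x y) hD)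
  rintro _ ⟨⟨a, b⟩, ⟨h1, h2, h3⟩, rfl⟩
  by_cases hab : a = b
  · subst hab
    refine Or.inr ⟨(κ E x a, 0), ⟨rfl, (κ E x).map_source h2, ?_⟩, ?_⟩
    · rw [(κ E x).left_inv h2]
      exact h3
    · simp only [Function.comp_apply, Prod.map_apply, (κ E x).left_inv h2]
  · exact Or.inl ⟨(a, b), ⟨fun hf => h1 (finU_of_finite hab hf), h2, h3⟩, rfl⟩

end Pool.Agent.Fu
end

-- part Pool.Agent.P.MP_365c00_gt.ZA1
section

/-! Geodesic arcs in charts: definitions and basic facts. -/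

set_option linter.unusedSectionVars false
set_option linter.unusedVariables false

open Set Filter Topology Metric Function MeasureTheory
open scoped Manifold ContDiff
open Pool.Agent.GeoN

namespace Pool.Agent.Fu

variable {E : Type} [NormedAddCommGroup E] [InnerProductSpace ℝ E] [FiniteDimensional ℝ E]
  {M : Type} [TopologicalSpace M] [ChartedSpace E M] [IsManifold 𝓘(ℝ, E) ∞ M]
  [T2Space M] [CompactSpace M] [Nonempty M] [Nontrivial E] {g : Met E M}

variable (E) in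
/-- nonzero tangent vectors in the chart at `x` -/
def TT (x : M) : Set (E × E) := {y | y.1 ∈ (κ E x).target ∧ y.2 ≠ 0}

/-- the length of a tangent vector -/
noncomputable def ln (g : Met E M) (x : M) (y : E × E) : ℝ := √(G g x y.1 y.2 y.2)

/-- the arc with a given initial jet -/
noncomputable def arc (g : Met E M) (x : M) (y : E × E) : UG g × ℝ := (GeoN.mk g x y, ln g x y)

/-- the initial jet of an arc -/
noncomputable def jet (x : M) (w : UG g × ℝ) : E × E :=
  (κ E x (w.1.1 0), w.2 • vel E x w.1.1 0)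

/-- the end points of an arc -/
def Psi (w : UG g × ℝ) : M × M := (w.1.1 0, w.1.1 w.2)

/-- jets whose geodesic is in the chart at `x'` at the time `t` -/
def DD (g : Met E M) (x x' : M) (t : ℝ) : Set (E × E) :=
  {y | y ∈ TT E x ∧ geo g x y t ∈ (κ E x').source}

/-- the end point map in charts -/
noncomputable def FF (g : Met E M) (x x' : M) (y : E × E) : E × E := (y.1, κ E x' (geo g x y 1))

/-- the differential of the exponential map in charts -/
noncomputable def JC (g : Met E M) (x x' : M) (y : E × E) (t : ℝ) : E →L[ℝ] E :=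
  fderiv ℝ (fun V => κ E x' (geo g x (y.1, V) t)) y.2

theorem TT_open (x : M) : IsOpen (TT E x) :=
  (target_open x).prod (isOpen_compl_singleton (x := (0 : E)))

theorem ln_pos {x : M} {y : E × E} (hy : y ∈ TT E x) : 0 < ln g x y :=
  Real.sqrt_pos.2 (G_pos g x hy.1 hy.2)

theorem ln_smooth {x : M} {y : E × E} (hy : y ∈ TT E x) : ContDiffAt ℝ ∞ (ln g x) y := by
  have h1 : ContDiffAt ℝ ∞ (fun z : E × E => G g x z.1) y :=
    (ChartX.G_diff g x hy.1).comp y contDiffAt_fst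
  exact ((h1.clm_apply contDiffAt_snd).clm_apply contDiffAt_snd).sqrt (G_pos g x hy.1 hy.2).ne'

theorem arc_cont {x : M} {y : E × E} (hy : y ∈ TT E x) : ContinuousAt (arc g x) y :=
  ((mk_cont g x).continuousAt ((TT_open x).mem_nhds hy)).prodMk (ln_smooth hy).continuousAt

theorem jet_cont {x : M} {w : UG g × ℝ} (hw : w.1.1 0 ∈ (κ E x).source) :
    ContinuousAt (jet x : UG g × ℝ → E × E) w := by
  have h0 : Continuous fun v : UG g × ℝ => (v.1, (0 : ℝ)) := by fun_prop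
  have h1 : Continuous fun v : UG g × ℝ => v.1.1 0 := (ev_cont g).comp h0
  have h2 : ContinuousAt (fun z : UG g × ℝ => vel E x z.1.1 z.2) (w.1, 0) :=
    (vel_cont g x).continuousAt (((source_open x).preimage (ev_cont g)).mem_nhds hw)
  exact (ContinuousAt.comp (f := fun v : UG g × ℝ => v.1.1 0) (continuousAt_extChartAt' hw)
    h1.continuousAt).prodMk (continuousAt_snd.smul
      (ContinuousAt.comp (f := fun v : UG g × ℝ => (v.1, (0 : ℝ))) h2 h0.continuousAt))

theorem jet_mem {x : M} {w : UG g × ℝ} (hw : w.1.1 0 ∈ (κ E x).source) (hl : 0 < w.2) :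
    jet x w ∈ TT E x :=
  ⟨(κ E x).map_source hw, smul_ne_zero hl.ne' (w.1.vel_ne 0 hw)⟩

theorem arc_jet {x : M} {w : UG g × ℝ} (hw : w.1.1 0 ∈ (κ E x).source) (hl : 0 < w.2) :
    arc g x (jet x w) = w := by
  refine Prod.ext (mk_jet w.1 hw hl) ?_
  simp only [arc, ln, jet, map_smul, smul_apply, smul_eq_mul]
  rw [w.1.unit 0 hw, mul_one, Real.sqrt_mul_self hl.le]

theorem arc_zero {x : M} {y : E × E} (hy : y ∈ TT E x) :
    (arc g x y).1.1 0 = (κ E x).symm y.1 := mk_zero g x hy.1 hy.2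

theorem arc_src {x : M} {y : E × E} (hy : y ∈ TT E x) :
    (arc g x y).1.1 0 ∈ (κ E x).source := by
  rw [arc_zero hy]
  exact (κ E x).map_target hy.1

theorem jet_arc {x : M} {y : E × E} (hy : y ∈ TT E x) : jet x (arc g x y) = y := by
  refine Prod.ext ?_ ?_
  · change κ E x ((arc g x y).1.1 0) = y.1
    rw [arc_zero hy, (κ E x).right_inv hy.1]
  · change ln g x y • vel E x (GeoN.mk g x y).1 0 = y.2
    rw [vel_mk g x hy.1 hy.2]
    exact smul_inv_smul₀ (ln_pos hy).ne' _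

theorem geo_arc {x : M} {y : E × E} (hy : y ∈ TT E x) (t : ℝ) :
    geo g x y t = (arc g x y).1.1 (ln g x y * t) := by
  change geo g x y t = (GeoN.mk g x y).1 (ln g x y * t)
  rw [mk_eq g x hy.1 hy.2, ← geo_smul g x hy.1]
  exact congrArg (fun V => geo g x (y.1, V) t) (smul_inv_smul₀ (ln_pos hy).ne' _).symm

theorem vel_arc {x : M} {y : E × E} (hy : y ∈ TT E x) (x' : M) (t : ℝ) :
    vel E x' (geo g x y) t = ln g x y • vel E x' (arc g x y).1.1 (ln g x y * t) := by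
  have e : geo g x y = fun s => (arc g x y).1.1 (ln g x y * s + 0) :=
    funext fun s => by rw [add_zero, geo_arc hy]
  rw [e, ChartX.vel_aff, add_zero]

theorem geo_chart {x x' : M} {y : E × E} {t : ℝ} (hy : y.1 ∈ (κ E x).target)
    (ht : geo g x y t ∈ (κ E x').source) :
    ContDiffAt ℝ ∞ (fun z : (E × E) × ℝ => κ E x' (geo g x z.1 z.2)) (y, t) :=
  contDiffAt_chart (n := ⊤) (geo_smooth g x hy t) ht

theorem vel_chart {x x' : M} {y : E × E} {t : ℝ} (hy : y.1 ∈ (κ E x).target)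
    (ht : geo g x y t ∈ (κ E x').source) :
    ContDiffAt ℝ ∞ (fun z : (E × E) × ℝ => vel E x' (geo g x z.1) z.2) (y, t) :=
  vel_smooth (g := g) (D := {z : E × E | z.1 ∈ (κ E x).target})
    ((target_open x).preimage continuous_fst) (fun z hz s => geo_smooth g x hz s) hy ht

theorem DD_open (x x' : M) (t : ℝ) : IsOpen (DD g x x' t) := by
  refine isOpen_iff_mem_nhds.2 fun y hy => ?_
  have h1 : ContinuousAt (fun z : E × E => geo g x z t) y :=
    ContinuousAt.comp (f := fun z : E × E => (z, t)) (geo_smooth g x hy.1.1 t).continuousAt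
      (continuousAt_id.prodMk continuousAt_const)
  exact inter_mem ((TT_open x).mem_nhds hy.1) (h1.eventually_mem ((source_open x').mem_nhds hy.2))

theorem FF_smooth {x x' : M} {y : E × E} (hy : y ∈ DD g x x' 1) :
    ContDiffAt ℝ ∞ (FF g x x') y :=
  contDiffAt_fst.prodMk (ContDiffAt.comp (f := fun z : E × E => (z, (1 : ℝ))) y
    (geo_chart hy.1.1 hy.2) (contDiffAt_id.prodMk contDiffAt_const))

theorem FF_arc {x : M} {y : E × E} (hy : y ∈ TT E x) (x' : M) :
    FF g x x' y = Prod.map (κ E x) (κ E x') (Psi (arc g x y)) := by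
  refine Prod.ext ?_ ?_
  · change y.1 = κ E x ((arc g x y).1.1 0)
    rw [arc_zero hy, (κ E x).right_inv hy.1]
  · change κ E x' (geo g x y 1) = κ E x' ((arc g x y).1.1 (ln g x y))
    rw [geo_arc hy, mul_one]

theorem jet_DD {x x' : M} {w : UG g × ℝ} (hw : w.1.1 0 ∈ (κ E x).source)
    (hw' : w.1.1 w.2 ∈ (κ E x').source) (hl : 0 < w.2) : jet x w ∈ DD g x x' 1 := by
  refine ⟨jet_mem hw hl, ?_⟩
  have e : ln g x (jet x w) = w.2 := congrArg Prod.snd (arc_jet hw hl)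
  rw [geo_arc (jet_mem hw hl), e, arc_jet hw hl, mul_one]
  exact hw'

theorem Psi_src {x x' : M} {y : E × E} (hy : y ∈ DD g x x' 1) :
    Psi (arc g x y) ∈ (κ E x).source ×ˢ (κ E x').source := by
  refine ⟨arc_src hy.1, ?_⟩
  have h1 := hy.2
  rw [geo_arc hy.1, mul_one] at h1
  exact h1

theorem Psi_cont : Continuous (Psi : UG g × ℝ → M × M) :=
  ((ev_cont g).comp (f := fun v : UG g × ℝ => (v.1, (0 : ℝ))) (by fun_prop)).prodMk (ev_cont g)

theorem za_shift_zero (u : UG g) : shift 0 u = u :=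
  Subtype.ext (ContinuousMap.ext fun s => by rw [shift_apply, add_zero])

theorem za_ext {u v : UG g} {x : M} {s t : ℝ} (hx : u.1 s ∈ (κ E x).source) (h0 : u.1 s = v.1 t)
    (h1 : vel E x u.1 s = vel E x v.1 t) (r : ℝ) : u.1 (r + s) = v.1 (r + t) := by
  have h2 := geo_unique (shift s u).2.1 (shift t v).2.1 (t0 := 0) (x := x)
    (by rwa [shift_apply, zero_add]) (by rw [shift_apply, shift_apply, zero_add, zero_add, h0])
    (by rw [vel_shift, vel_shift, zero_add, zero_add, h1])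
  rw [← shift_apply, ← shift_apply, h2]

variable (E M) in
theorem za_cover : ∃ t : Finset M, ∀ p : M, ∃ x ∈ t, p ∈ (κ E x).source := by
  obtain ⟨t, ht⟩ := CompactSpace.elim_nhds_subcover (fun x : M => (κ E x).source)
    fun x => extChartAt_source_mem_nhds x
  refine ⟨t, fun p => ?_⟩
  obtain ⟨x, hx, hp⟩ := mem_iUnion₂.1 (ht.ge (mem_univ p))
  exact ⟨x, hx, hp⟩

end Pool.Agent.Fu
end

-- part Pool.Agent.P.MP_365c00_gt.ZC1
section

/-! The basic operators on cubical chains: definitions and defining equations. -/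

set_option linter.unusedSectionVars false
set_option linter.unusedVariables false

open Set Topology unitInterval TensorProduct

namespace Pool.Agent.Fu

variable {F : Type} [Field F]

/-- recursion data for the boundary -/
noncomputable def bdA (F : Type) [Field F] : Alg F where
  T X := Ch F X × Ch F X
  acg X := inferInstance
  mod X := inferInstance
  tm f := (map f).prodMap (map f)
  p x := (pt x, 0)
  u X := (unc ∘ₗ LinearMap.fst F _ _).prod
    ((map (ev X 1) - map (ev X 0)) ∘ₗ LinearMap.fst F _ _ - unc ∘ₗ LinearMap.snd F _ _)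
  tm_p f x := by simp
  tm_u f t := by simp [map_unc, map_map, ev_post]
  u_cst X _ t := by
    refine Prod.ext ?_ ?_
    · exact unc_cst t.1
    · simp [map_map, ev_cst, unc_cst]; rfl
  u_flp X _ t := by
    refine Prod.ext ?_ ?_
    · simpa using unc_flp t.1
    · simp [map_unc, map_map, ev_flp, postev_flp, unc_flp]
      abel

/-- recursion data for the sign operator -/
noncomputable def omA (F : Type) [Field F] : Alg F where
  T X := Ch F X
  acg X := inferInstance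
  mod X := inferInstance
  tm f := map f
  p x := pt x
  u X := - unc
  tm_p f x := by simp
  tm_u f t := by simp [map_unc]
  u_cst X _ t := by simp [unc_cst]; rfl
  u_flp X _ t := by simp [unc_flp]

/-- recursion data for the augmentation -/
noncomputable def epsA (F : Type) [Field F] : Alg F where
  T X := F
  acg X := inferInstance
  mod X := inferInstance
  tm f := LinearMap.id
  p x := 1
  u X := 0
  tm_p f x := rfl
  tm_u f t := rfl
  u_cst X _ t := rfl
  u_flp X _ t := by simp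

/-- recursion data for the homogeneous components -/
noncomputable def dgA (F : Type) [Field F] : Alg F where
  T X := ℕ → Ch F X
  acg X := inferInstance
  mod X := inferInstance
  tm f := LinearMap.pi fun k => map f ∘ₗ LinearMap.proj k
  p x k := if k = 0 then pt x else 0
  u X := LinearMap.pi fun k => match k with
    | 0 => 0
    | k + 1 => unc ∘ₗ LinearMap.proj k
  tm_p f x := by
    funext k
    by_cases h : k = 0 <;> simp [h]
  tm_u f t := by
    funext k
    cases k <;> simp [map_unc]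
  u_cst X _ t := by
    funext k
    cases k
    · rfl
    · exact unc_cst _
  u_flp X _ t := by
    funext k
    rcases k with _ | _ | k
    · exact neg_zero.symm
    · show unc 0 = - unc 0
      simp
    · exact unc_flp _

/-- the paths in `A` -/
def hat {X : Type} [TopologicalSpace X] (A : Set X) : Set C(I, X) := {g | ∀ s, g s ∈ A}

theorem flp_hat {X : Type} [TopologicalSpace X] (A : Set X) :
    flp X ⁻¹' hat (hat A) = hat (hat A) := by
  ext g
  exact ⟨fun h s t => h t s, fun h s t => h t s⟩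

/-- recursion data for the support projections -/
noncomputable def prA (F : Type) [Field F] : Alg F where
  T X := Set X → Ch F X
  acg X := inferInstance
  mod X := inferInstance
  tm f := LinearMap.pi fun B => map f ∘ₗ LinearMap.proj (f ⁻¹' B)
  p x A := by classical exact if x ∈ A then pt x else 0
  u X := LinearMap.pi fun A => unc ∘ₗ LinearMap.proj (hat A)
  tm_p f x := by
    funext B
    by_cases h : f x ∈ B <;> simp [h]
  tm_u f t := by
    funext B
    exact map_unc f _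
  u_cst X _ t := by
    funext A
    exact unc_cst _
  u_flp X _ t := by
    funext A
    show unc (unc (map (flp X) (t (flp X ⁻¹' hat (hat A))))) = - unc (unc (t (hat (hat A))))
    rw [flp_hat, unc_flp]

/-- a path in `A` as a path of the subspace -/
def toSub {X : Type} [TopologicalSpace X] (A : Set X) : C(hat A, C(I, A)) :=
  ⟨fun g => ⟨fun s => ⟨g.1 s, g.2 s⟩, g.1.continuous.subtype_mk _⟩,
    ContinuousMap.continuous_of_continuous_uncurry _
      ((continuous_eval.comp ((continuous_subtype_val.comp continuous_fst).prodMk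
        continuous_snd)).subtype_mk _)⟩

/-- restriction of a map to a preimage -/
def subMap {X Y : Type} [TopologicalSpace X] [TopologicalSpace Y] (f : C(X, Y)) (B : Set Y) :
    C(f ⁻¹' B, B) :=
  ⟨fun x => ⟨f x.1, x.2⟩, (f.continuous.comp continuous_subtype_val).subtype_mk _⟩

/-- recursion data for the restriction to a subspace -/
noncomputable def rsA (F : Type) [Field F] : Alg F where
  T X := (A : Set X) → Ch F A
  acg X := inferInstance
  mod X := inferInstance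
  tm f := LinearMap.pi fun B => map (subMap f B) ∘ₗ
    LinearMap.proj (φ := fun A : Set _ => Ch F A) (f ⁻¹' B)
  p x A := by classical exact if h : x ∈ A then pt ⟨x, h⟩ else 0
  u X := LinearMap.pi fun A => unc ∘ₗ map (toSub A) ∘ₗ
    LinearMap.proj (φ := fun A : Set _ => Ch F A) (hat A)
  tm_p f x := by
    funext B
    by_cases h : f x ∈ B
    · simp [h]; rfl
    · simp [h]
  tm_u f t := by
    funext B
    show map (subMap f B) (unc (map (toSub _) (t _))) =
      unc (map (toSub B) (map (subMap (post f) (hat B)) (t _)))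
    rw [map_unc, map_map, map_map]
    rfl
  u_cst X _ t := by
    funext A
    show unc (map (toSub A) (map (subMap (cst X) (hat A)) (t _))) = 0
    rw [map_map]
    have : (toSub A).comp (subMap (cst X) (hat A)) = (cst A).comp
      ⟨fun x => ⟨x.1, x.2 0⟩, continuous_subtype_val.subtype_mk _⟩ := rfl
    rw [this, ← map_map, unc_cst]
  u_flp X _ t := by
    funext A
    show unc (map (toSub A) (unc (map (toSub (hat A)) (map (subMap (flp X) (hat (hat A)))
      (t (flp X ⁻¹' hat (hat A))))))) =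
      - unc (map (toSub A) (unc (map (toSub (hat A)) (t (hat (hat A))))))
    have key : ∀ (S : Set C(I, C(I, X))) (h : S = hat (hat A)) (φ : C(S, hat (hat A)))
        (hφ : ∀ g, (φ g).1 = flp X g.1),
        unc (map (toSub A) (unc (map (toSub (hat A)) (map φ (t S))))) =
          - unc (map (toSub A) (unc (map (toSub (hat A)) (t (hat (hat A)))))) := by
      rintro S rfl φ hφ
      rw [map_unc, map_unc, map_map, map_map, map_map, ← unc_flp, map_map]
      congr 4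
      ext g s r
      exact congrArg (fun k : C(I, C(I, X)) => k s r) (hφ g)
    exact key _ (flp_hat A) _ fun g => rfl

/-- a pair of a path and a point as a path in the product -/
def prL (X Y : Type) [TopologicalSpace X] [TopologicalSpace Y] : C(C(I, X) × Y, C(I, X × Y)) :=
  ContinuousMap.curry ⟨fun z : (C(I, X) × Y) × I => (z.1.1 z.2, z.1.2), by fun_prop⟩

/-- a pair of a point and a path as a path in the product -/
def prR (X Y : Type) [TopologicalSpace X] [TopologicalSpace Y] : C(X × C(I, Y), C(I, X × Y)) :=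
  ContinuousMap.curry ⟨fun z : (X × C(I, Y)) × I => (z.1.1, z.1.2 z.2), by fun_prop⟩

/-- recursion data for the cross product -/
noncomputable def crA (F : Type) [Field F] (Y : Type) [TopologicalSpace Y] : Alg F where
  T X := Ch F Y →ₗ[F] Ch F (X × Y)
  acg X := inferInstance
  mod X := inferInstance
  tm f := LinearMap.llcomp F _ _ _ (map (f.prodMap (ContinuousMap.id Y)))
  p x := map ⟨fun y => (x, y), by fun_prop⟩
  u X := LinearMap.llcomp F _ _ _ (unc ∘ₗ map (prL X Y))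
  tm_p f x := by
    ext b
    simp only [LinearMap.llcomp_apply, map_map]
    rfl
  tm_u f t := by
    ext b
    simp only [LinearMap.llcomp_apply, LinearMap.comp_apply, map_map, map_unc]
    rfl
  u_cst X _ t := by
    ext b
    simp only [LinearMap.llcomp_apply, LinearMap.comp_apply, map_map]
    have : (prL X Y).comp ((cst X).prodMap (ContinuousMap.id Y)) = cst (X × Y) := rfl
    rw [this, unc_cst]
    rfl
  u_flp X _ t := by
    ext b
    simp only [LinearMap.llcomp_apply, LinearMap.comp_apply, map_map, map_unc,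
      LinearMap.neg_apply]
    rw [← unc_flp, map_map]
    rfl

section
variable {X Y Z : Type} [TopologicalSpace X] [TopologicalSpace Y] [TopologicalSpace Z]

/-- the boundary -/
noncomputable def bd : Ch F X →ₗ[F] Ch F X := LinearMap.snd F _ _ ∘ₗ (bdA F).lift X
/-- the sign operator: `(-1) ^ k` in degree `k` -/
noncomputable def om : Ch F X →ₗ[F] Ch F X := (omA F).lift X
/-- the augmentation -/
noncomputable def eps : Ch F X →ₗ[F] F := (epsA F).lift X
/-- the component of degree `k` -/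
noncomputable def dg (k : ℕ) : Ch F X →ₗ[F] Ch F X :=
  LinearMap.proj (φ := fun _ : ℕ => Ch F X) k ∘ₗ (dgA F).lift X
/-- the part carried by cubes in `A` -/
noncomputable def prj (A : Set X) : Ch F X →ₗ[F] Ch F X :=
  LinearMap.proj (φ := fun _ : Set X => Ch F X) A ∘ₗ (prA F).lift X
/-- the part carried by cubes in `A`, as a chain of the subspace -/
noncomputable def res (A : Set X) : Ch F X →ₗ[F] Ch F A :=
  LinearMap.proj (φ := fun A : Set X => Ch F A) A ∘ₗ (rsA F).lift X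
/-- the cross product -/
noncomputable def cross : Ch F X →ₗ[F] Ch F Y →ₗ[F] Ch F (X × Y) := (crA F Y).lift X

theorem bdA_fst (c : Ch F X) : ((bdA F).lift X c).1 = c := by
  induction X, c using ind with
  | h0 => rw [map_zero]; rfl
  | hadd X a b ha hb => rw [map_add]; exact congrArg₂ (· + ·) ha hb
  | hsm X r a ha => rw [map_smul]; exact congrArg (r • ·) ha
  | hpt => rw [Alg.lift_pt]; rfl
  | hunc X a ha => rw [Alg.lift_unc]; exact congrArg unc ha

@[simp] theorem bd_pt (x : X) : bd (pt x : Ch F X) = 0 := congrArg Prod.snd ((bdA F).lift_pt x)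
theorem bd_unc (c : Ch F C(I, X)) :
    bd (unc c) = map (ev X 1) c - map (ev X 0) c - unc (bd c) := by
  refine (congrArg Prod.snd ((bdA F).lift_unc c)).trans ?_
  show map (ev X 1) ((bdA F).lift _ c).1 - map (ev X 0) ((bdA F).lift _ c).1 - _ = _
  rw [bdA_fst]
  rfl
theorem bd_map (f : C(X, Y)) (c : Ch F X) : bd (map f c) = map f (bd c) :=
  congrArg Prod.snd ((bdA F).lift_map f c)

@[simp] theorem om_pt (x : X) : om (pt x : Ch F X) = pt x := (omA F).lift_pt x
theorem om_unc (c : Ch F C(I, X)) : om (unc c) = - unc (om c) := (omA F).lift_unc c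
theorem om_map (f : C(X, Y)) (c : Ch F X) : om (map f c) = map f (om c) := (omA F).lift_map f c

@[simp] theorem eps_pt (x : X) : eps (pt x : Ch F X) = 1 := (epsA F).lift_pt x
@[simp] theorem eps_unc (c : Ch F C(I, X)) : eps (unc c) = 0 := (epsA F).lift_unc c
@[simp] theorem eps_map (f : C(X, Y)) (c : Ch F X) : eps (map f c) = eps c :=
  (epsA F).lift_map f c

@[simp] theorem dg_zero_pt (x : X) : dg 0 (pt x : Ch F X) = pt x :=
  congrFun ((dgA F).lift_pt x) 0
@[simp] theorem dg_succ_pt (k : ℕ) (x : X) : dg (k + 1) (pt x : Ch F X) = 0 :=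
  congrFun ((dgA F).lift_pt x) (k + 1)
@[simp] theorem dg_zero_unc (c : Ch F C(I, X)) : dg 0 (unc c) = 0 :=
  congrFun ((dgA F).lift_unc c) 0
theorem dg_succ_unc (k : ℕ) (c : Ch F C(I, X)) : dg (k + 1) (unc c) = unc (dg k c) :=
  congrFun ((dgA F).lift_unc c) (k + 1)
theorem dg_map (k : ℕ) (f : C(X, Y)) (c : Ch F X) : dg k (map f c) = map f (dg k c) :=
  congrFun ((dgA F).lift_map f c) k

theorem prj_pt_mem {A : Set X} {x : X} (h : x ∈ A) : prj A (pt x : Ch F X) = pt x :=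
  (congrFun ((prA F).lift_pt x) A).trans (if_pos h)
theorem prj_pt_not {A : Set X} {x : X} (h : x ∉ A) : prj A (pt x : Ch F X) = 0 :=
  (congrFun ((prA F).lift_pt x) A).trans (if_neg h)
theorem prj_unc (A : Set X) (c : Ch F C(I, X)) : prj A (unc c) = unc (prj (hat A) c) :=
  congrFun ((prA F).lift_unc c) A
theorem prj_map (f : C(X, Y)) (B : Set Y) (c : Ch F X) :
    prj B (map f c) = map f (prj (f ⁻¹' B) c) := congrFun ((prA F).lift_map f c) B

theorem res_pt_mem {A : Set X} {x : X} (h : x ∈ A) : res A (pt x : Ch F X) = pt ⟨x, h⟩ :=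
  (congrFun ((rsA F).lift_pt x) A).trans (dif_pos h)
theorem res_pt_not {A : Set X} {x : X} (h : x ∉ A) : res A (pt x : Ch F X) = 0 :=
  (congrFun ((rsA F).lift_pt x) A).trans (dif_neg h)
theorem res_unc (A : Set X) (c : Ch F C(I, X)) :
    res A (unc c) = unc (map (toSub A) (res (hat A) c)) := congrFun ((rsA F).lift_unc c) A
theorem res_map (f : C(X, Y)) (B : Set Y) (c : Ch F X) :
    res B (map f c) = map (subMap f B) (res (f ⁻¹' B) c) := congrFun ((rsA F).lift_map f c) B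

theorem cross_pt (x : X) (b : Ch F Y) :
    cross (pt x : Ch F X) b = map ⟨fun y => (x, y), by fun_prop⟩ b :=
  LinearMap.congr_fun ((crA F Y).lift_pt x) b
theorem cross_unc (a : Ch F C(I, X)) (b : Ch F Y) :
    cross (unc a) b = unc (map (prL X Y) (cross a b)) :=
  LinearMap.congr_fun ((crA F Y).lift_unc a) b
theorem cross_map_left (f : C(X, Z)) (a : Ch F X) (b : Ch F Y) :
    cross (map f a) b = map (f.prodMap (ContinuousMap.id Y)) (cross a b) :=
  LinearMap.congr_fun ((crA F Y).lift_map f a) b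

end

end Pool.Agent.Fu
end

-- part Pool.Agent.P.MP_365c00_gt.ZG1
section

/-! Sequences: functoriality and reflection along quasi-isomorphisms. -/

set_option linter.unusedSectionVars false
set_option linter.unusedVariables false

open Set TensorProduct

namespace Pool.Agent.Fu

variable {F : Type} [Field F] {P P' : Type} [AddCommGroup P] [Module F P] [AddCommGroup P']
  [Module F P']

variable {q : ℕ} {G : GC F q P} {G' : GC F q P'} {A B : Submodule F P} {A' B' : Submodule F P'}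

theorem zg1_d_pow (G : GC F q P) (i : ℕ) (c : P) : G.d ((G.s ^ i) c) = (G.s ^ i) (G.d c) := by
  induction i with
  | zero => rfl
  | succ i ih => rw [pow_succ', Module.End.mul_apply, Module.End.mul_apply, G.ds, ih]

theorem zg1_pow_mem (G : GC F q P) (h : ∀ c ∈ A, G.s c ∈ A) (i : ℕ) {c : P} (hc : c ∈ A) :
    (G.s ^ i) c ∈ A := by
  induction i with
  | zero => exact hc
  | succ i ih => rw [pow_succ', Module.End.mul_apply]; exact h _ ih

theorem zg1_even (G : GC F q P) {j : ℕ} (hj : Even j) (c : P) : G.T j c = G.s c - c := by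
  rw [GC.T, if_pos hj]
  rfl

theorem zg1_odd (G : GC F q P) {j : ℕ} (hj : ¬ Even j) (c : P) :
    G.T j c = ∑ i ∈ Finset.range q, (G.s ^ i) c := by
  rw [GC.T, if_neg hj, LinearMap.sum_apply]

theorem zg1_T_mem (G : GC F q P) (h : ∀ c ∈ A, G.s c ∈ A) (j : ℕ) {c : P} (hc : c ∈ A) :
    G.T j c ∈ A := by
  by_cases hj : Even j
  · rw [zg1_even G hj]
    exact A.sub_mem (h c hc) hc
  · rw [zg1_odd G hj]
    exact A.sum_mem fun i _ => zg1_pow_mem G h i hc

theorem zg1_mem {d : P →ₗ[F] P} {c : P} : c ∈ A.map d ⊔ B ↔ ∃ a ∈ A, c - d a ∈ B := by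
  rw [Submodule.mem_sup]
  constructor
  · rintro ⟨_, ⟨a, ha, rfl⟩, b, hb, rfl⟩
    exact ⟨a, ha, by rwa [add_sub_cancel_left]⟩
  · rintro ⟨a, ha, hb⟩
    exact ⟨_, ⟨a, ha, rfl⟩, _, hb, add_sub_cancel _ _⟩

theorem zg1_of_eq {x y : P} (h : x ∈ B) (e : y = x) : y ∈ B := e ▸ h

theorem zg1_sq {S : P → Prop} (m j : ℕ) {g : P} (h : S g) (h0 : S 0) : S (sq m g j) := by
  unfold sq
  split_ifs
  exacts [h, h0]

theorem GC.d_T (G : GC F q P) (j : ℕ) (c : P) : G.d (G.T j c) = G.T j (G.d c) := by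
  by_cases hj : Even j
  · rw [zg1_even G hj, zg1_even G hj, map_sub, G.ds]
  · rw [zg1_odd G hj, zg1_odd G hj, map_sum]
    exact Finset.sum_congr rfl fun i _ => zg1_d_pow G i c
theorem GC.T_T (G : GC F q P) (j : ℕ) (c : P) : G.T (j + 1) (G.T j c) = 0 := by
  rw [← Module.End.mul_apply]
  by_cases hj : Even j
  · rw [GC.T, GC.T, if_pos hj, if_neg (by rwa [Nat.even_add_one, not_not]), geom_sum_mul, G.pow,
      sub_self, LinearMap.zero_apply]
  · rw [GC.T, GC.T, if_neg hj, if_pos (Nat.even_add_one.2 hj), mul_geom_sum, G.pow,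
      sub_self, LinearMap.zero_apply]
theorem GC.T_add_even (G : GC F q P) (j : ℕ) {m : ℕ} (hm : Even m) : G.T (j + m) = G.T j := by
  have e : Even (j + m) ↔ Even j := by rw [Nat.even_add]; exact ⟨fun h => h.2 hm, fun h => iff_of_true h hm⟩
  simp only [GC.T, e]
theorem GC.T_fix (G : GC F q P) [CharP F q] (j : ℕ) {c : P} (h : G.s c = c) : G.T j c = 0 := by
  by_cases hj : Even j
  · rw [zg1_even G hj, h, sub_self]
  · have h1 : ∀ i, (G.s ^ i) c = c := fun i => by
      induction i with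
      | zero => rfl
      | succ i ih => rw [pow_succ', Module.End.mul_apply, ih, h]
    rw [zg1_odd G hj]
    simp only [h1, Finset.sum_const, Finset.card_range]
    rw [← Nat.cast_smul_eq_nsmul F, CharP.cast_eq_zero, zero_smul]
theorem GC.St.T (h : G.St A) (j : ℕ) {c : P} (hc : c ∈ A) : G.T j c ∈ A := zg1_T_mem G h.2 j hc
theorem GC.St.sup (h : G.St A) (h' : G.St B) : G.St (A ⊔ B) := by
  constructor <;> intro c hc <;> obtain ⟨a, ha, b, hb, rfl⟩ := Submodule.mem_sup.1 hc <;>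
    rw [map_add]
  · exact Submodule.add_mem_sup (h.1 a ha) (h'.1 b hb)
  · exact Submodule.add_mem_sup (h.2 a ha) (h'.2 b hb)
theorem GC.St.inf (h : G.St A) (h' : G.St B) : G.St (A ⊓ B) :=
  ⟨fun c hc => ⟨h.1 c hc.1, h'.1 c hc.2⟩, fun c hc => ⟨h.2 c hc.1, h'.2 c hc.2⟩⟩
theorem GC.Gr.T {H : ℕ → Submodule F P} (h : G.Gr H) (j : ℕ) {k : ℕ} {c : P} (hc : c ∈ H k) :
    G.T j c ∈ H k := zg1_T_mem G (h.2 k) j hc
theorem EqMap.T {f : P →ₗ[F] P'} (h : EqMap G G' f A B A' B') (hA : G.St A) (j : ℕ) {c : P}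
    (hc : c ∈ A) : G'.T j (f c) = f (G.T j c) := by
  by_cases hj : Even j
  · rw [zg1_even G hj, zg1_even G' hj, map_sub, h.s c hc]
  · rw [zg1_odd G hj, zg1_odd G' hj, map_sum]
    have h1 : ∀ i, (G'.s ^ i) (f c) = f ((G.s ^ i) c) := fun i => by
      induction i with
      | zero => rfl
      | succ i ih =>
        rw [pow_succ', pow_succ', Module.End.mul_apply, Module.End.mul_apply, ih,
          h.s _ (zg1_pow_mem G hA.2 i hc)]
    exact Finset.sum_congr rfl fun i _ => h1 i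

theorem GC.seq_sq [CharP F q] {g : P} (hg : g ∈ A) (hd : G.d g ∈ B) (hs : G.s g = g) (m R : ℕ) :
    G.Seq A B R (sq m g) := by
  have h1 : ∀ j, G.d (sq m g j) ∈ B := fun j =>
    zg1_sq (S := fun c => G.d c ∈ B) m j hd (by rw [map_zero]; exact B.zero_mem)
  refine ⟨fun j _ => zg1_sq (S := fun c => c ∈ A) m j hg A.zero_mem, h1 0, fun j _ => ?_⟩
  rw [G.T_fix j (zg1_sq (S := fun c => G.s c = c) m j hs (map_zero _)), sub_zero]
  exact h1 _
theorem GC.Seq.map {f : P →ₗ[F] P'} (h : EqMap G G' f A B A' B') (hA : G.St A) {R : ℕ}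
    {x : ℕ → P} (hx : G.Seq A B R x) : G'.Seq A' B' R fun j => f (x j) := by
  refine ⟨fun j hj => h.A _ (hx.1 j hj), ?_, fun j hj => ?_⟩
  · rw [h.d _ (hx.1 0 (Nat.zero_le _))]
    exact h.B _ hx.2.1
  · rw [h.d _ (hx.1 _ hj), h.T hA j (hx.1 j hj.le), ← map_sub]
    exact h.B _ (hx.2.2 j hj)
theorem GC.Nul.map {f : P →ₗ[F] P'} (h : EqMap G G' f A B A' B') (hA : G.St A) {R : ℕ}
    {x : ℕ → P} (hx : G.Nul A B R x) : G'.Nul A' B' R fun j => f (x j) := by
  obtain ⟨k, h1, h2, h3⟩ := hx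
  refine ⟨fun j => f (k j), fun j hj => h.A _ (h1 j hj), ?_, fun j hj => ?_⟩
  · rw [h.d _ (h1 0 (Nat.zero_le _)), ← map_sub]
    exact h.B _ h2
  · rw [h.d _ (h1 _ hj), h.T hA j (h1 j hj.le), ← map_sub, ← map_sub]
    exact h.B _ (h3 j hj)
theorem GC.Nul.mono {A1 B1 : Submodule F P} {R R1 : ℕ} {x : ℕ → P} (hx : G.Nul A B R x)
    (hA : A ≤ A1) (hB : B ≤ B1) (hR : R1 ≤ R) : G.Nul A1 B1 R1 x := by
  obtain ⟨k, h1, h2, h3⟩ := hx
  exact ⟨k, fun j hj => hA (h1 j (hj.trans hR)), hB h2, fun j hj => hB (h3 j (hj.trans_le hR))⟩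
theorem GC.Nul.congr {R : ℕ} {x y : ℕ → P} (hx : G.Nul A B R x) (h : ∀ j ≤ R, x j - y j ∈ B) :
    G.Nul A B R y := by
  obtain ⟨k, h1, h2, h3⟩ := hx
  exact ⟨k, h1, zg1_of_eq (B.sub_mem h2 (h 0 (Nat.zero_le _))) (by abel),
    fun j hj => zg1_of_eq (B.sub_mem (h3 j hj) (h (j + 1) hj)) (by abel)⟩
theorem GC.Nul.add {R : ℕ} {x y : ℕ → P} (hx : G.Nul A B R x) (hy : G.Nul A B R y) :
    G.Nul A B R fun j => x j + y j := by
  obtain ⟨k, h1, h2, h3⟩ := hx
  obtain ⟨l, g1, g2, g3⟩ := hy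
  exact ⟨fun j => k j + l j, fun j hj => A.add_mem (h1 j hj) (g1 j hj),
    zg1_of_eq (B.add_mem h2 g2) (by simp only [map_add]; abel),
    fun j hj => zg1_of_eq (B.add_mem (h3 j hj) (g3 j hj)) (by simp only [map_add]; abel)⟩
theorem GC.Nul.smul {R : ℕ} {x : ℕ → P} (hx : G.Nul A B R x) (r : F) :
    G.Nul A B R fun j => r • x j := by
  obtain ⟨k, h1, h2, h3⟩ := hx
  exact ⟨fun j => r • k j, fun j hj => A.smul_mem r (h1 j hj),
    zg1_of_eq (B.smul_mem r h2) (by simp only [map_smul, smul_sub]),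
    fun j hj => zg1_of_eq (B.smul_mem r (h3 j hj)) (by simp only [map_smul, smul_sub])⟩
theorem GC.Nul.shift {R m : ℕ} (hm : Even m) {g : P} (hx : G.Nul A B R (sq 0 g)) :
    G.Nul A B (R + m) (sq m g) := by
  obtain ⟨k, h1, h2, h3⟩ := hx
  have h2' : g - G.d (k 0) ∈ B := h2
  refine ⟨fun j => if m ≤ j then k (j - m) else 0, fun j hj => ?_, ?_, fun j hj => ?_⟩
  · dsimp only
    split_ifs
    exacts [h1 _ (by omega), A.zero_mem]
  · rcases Nat.eq_zero_or_pos m with rfl | h0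
    · exact h2
    · simp only [sq, if_neg h0.ne, if_neg (not_le.2 h0), map_zero, sub_zero]
      exact B.zero_mem
  · rcases lt_trichotomy (j + 1) m with h0 | h0 | h0
    · simp only [sq, if_neg h0.ne, if_neg (not_le.2 h0), if_neg (show ¬ m ≤ j by omega), map_zero,
        sub_zero]
      exact B.zero_mem
    · subst h0
      simp only [sq, if_true, le_refl, Nat.sub_self, if_neg (Nat.not_succ_le_self j), map_zero,
        sub_zero]
      exact h2'
    · obtain ⟨i, rfl⟩ : ∃ i, j = i + m := ⟨j - m, by omega⟩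
      have h4 := h3 i (by omega)
      simp only [sq, if_neg (Nat.succ_ne_zero i)] at h4
      simp only [sq, if_neg h0.ne', if_pos h0.le, if_pos (Nat.le_add_left m i), Nat.add_sub_cancel,
        show i + m + 1 - m = i + 1 by omega, G.T_add_even i hm]
      exact h4
/-- an invariant primitive -/
theorem GC.nul_sq [CharP F q] {g h : P} (hh : h ∈ A) (hs : G.s h = h) (hd : g - G.d h ∈ B)
    (R : ℕ) : G.Nul A B R (sq 0 g) := by
  refine ⟨sq 0 h, fun j _ => zg1_sq (S := fun c => c ∈ A) 0 j hh A.zero_mem, hd, fun j _ => ?_⟩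
  rw [G.T_fix j (zg1_sq (S := fun c => G.s c = c) 0 j hs (map_zero _))]
  simp only [sq, if_neg (Nat.succ_ne_zero j), map_zero, sub_zero]
  exact B.zero_mem
theorem sq_map (f : P →ₗ[F] P') (m : ℕ) (g : P) : (fun j => f (sq m g j)) = sq m (f g) := by
  funext j
  unfold sq
  split_ifs
  exacts [rfl, map_zero f]

theorem zg1_step {f : P →ₗ[F] P'} (h : EqMap G G' f A B A' B') (hq : QI G.d G'.d f A B A' B')
    {y : P} (hy : y ∈ A) (hd : G.d y ∈ B) {w : P'} (hw : w ∈ A') (e : f y - G'.d w ∈ B') :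
    ∃ u ∈ A, ∃ k ∈ A', y - G.d u ∈ B ∧ f u - w - G'.d k ∈ B' := by
  obtain ⟨u, hu, h1⟩ := zg1_mem.1 (hq.1 y hy hd (zg1_mem.2 ⟨w, hw, e⟩))
  obtain ⟨c, hc, h2, h3⟩ := hq.2 (w - f u) (A'.sub_mem hw (h.A u hu))
    (zg1_of_eq (B'.sub_mem (h.B _ h1) e) (by simp only [map_sub, h.d u hu]; abel))
  obtain ⟨k, hk, h4⟩ := zg1_mem.1 h3
  exact ⟨u + c, A.add_mem hu hc, k, hk, zg1_of_eq (B.sub_mem h1 h2) (by rw [map_add]; abel),
    zg1_of_eq h4 (by rw [map_add]; abel)⟩

/-- an equivariant quasi-isomorphism reflects null sequences -/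
theorem GC.Nul.reflect {f : P →ₗ[F] P'} (h : EqMap G G' f A B A' B') (hq : QI G.d G'.d f A B A' B')
    (hA : G.St A) (hB : G.St B) (hA' : G'.St A') (hB' : G'.St B') (hBA : B ≤ A) (hBA' : B' ≤ A')
    {R : ℕ} {x : ℕ → P} (hx : G.Seq A B R x) (hn : G'.Nul A' B' R fun j => f (x j)) :
    G.Nul A B R x := by
  obtain ⟨l, l1, l2, l3⟩ := hn
  have key : ∀ r ≤ R, ∃ k : ℕ → P, ∃ w ∈ A', G.NulBy A B r x k ∧ G.T r (x r - G.d (k r)) ∈ B ∧
      G'.T r (f (k r) - l r - G'.d w) ∈ B' := by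
    intro r
    induction r with
    | zero =>
      intro hr
      obtain ⟨u, hu, w, hw, a1, a2⟩ := zg1_step h hq (hx.1 0 hr) hx.2.1 (l1 0 hr) l2
      exact ⟨fun _ => u, w, hw, ⟨fun _ _ => hu, a1, fun j hj => absurd hj (Nat.not_lt_zero j)⟩,
        hB.T 0 a1, hB'.T 0 a2⟩
    | succ r ih =>
      intro hr
      obtain ⟨k, w, hw, ⟨k1, k2, k3⟩, b1, b2⟩ := ih (Nat.le_of_succ_le hr)
      have hk := k1 r le_rfl
      obtain ⟨u, hu, w', hw', a1, a2⟩ := zg1_step h hq (y := x (r + 1) - G.T r (k r))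
        (A.sub_mem (hx.1 _ hr) (hA.T r hk))
        (zg1_of_eq (B.add_mem (hx.2.2 r hr) b1) (by simp only [map_sub, G.d_T]; abel))
        (w := l (r + 1) - G'.T r w) (A'.sub_mem (l1 _ hr) (hA'.T r hw))
        (zg1_of_eq (B'.sub_mem (l3 r hr) b2)
          (by simp only [map_sub, G'.d_T, h.T hA r hk]; abel))
      refine ⟨Function.update k (r + 1) u, w', hw', ⟨fun j hj => ?_, ?_, fun j hj => ?_⟩, ?_, ?_⟩
      · rcases hj.eq_or_lt with rfl | hj
        · rwa [Function.update_self]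
        · rw [Function.update_of_ne hj.ne]
          exact k1 j (Nat.le_of_lt_succ hj)
      · rwa [Function.update_of_ne (Nat.succ_ne_zero r).symm]
      · rw [Function.update_of_ne hj.ne]
        rcases (Nat.le_of_lt_succ hj).eq_or_lt with rfl | hj'
        · rw [Function.update_self]
          exact zg1_of_eq a1 (by abel)
        · rw [Function.update_of_ne (Nat.succ_lt_succ hj').ne]
          exact k3 j hj'
      · rw [Function.update_self]
        exact zg1_of_eq (hB.T (r + 1) a1) (by simp only [map_sub, G.T_T, sub_zero])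
      · rw [Function.update_self]
        exact zg1_of_eq (hB'.T (r + 1) a2) (by simp only [map_sub, G'.T_T, sub_zero])
  obtain ⟨k, -, -, hk, -⟩ := key R le_rfl
  exact ⟨k, hk⟩

/-- five lemma for a triple -/
theorem QI.five {d : P →ₗ[F] P} {d' : P' →ₗ[F] P'} {f : P →ₗ[F] P'} {A0 A1 A2 : Submodule F P}
    {B0 B1 B2 : Submodule F P'} (hdd : ∀ c, d (d c) = 0) (hdd' : ∀ c, d' (d' c) = 0)
    (h01 : A0 ≤ A1) (h12 : A1 ≤ A2) (k01 : B0 ≤ B1) (k12 : B1 ≤ B2)
    (s0 : ∀ c ∈ A0, d c ∈ A0) (s1 : ∀ c ∈ A1, d c ∈ A1) (s2 : ∀ c ∈ A2, d c ∈ A2)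
    (t0 : ∀ c ∈ B0, d' c ∈ B0) (t1 : ∀ c ∈ B1, d' c ∈ B1) (t2 : ∀ c ∈ B2, d' c ∈ B2)
    (f0 : ∀ c ∈ A0, f c ∈ B0) (f1 : ∀ c ∈ A1, f c ∈ B1) (f2 : ∀ c ∈ A2, f c ∈ B2)
    (hf : ∀ c ∈ A2, d' (f c) = f (d c))
    (q1 : QI d d' f A1 A0 B1 B0) (q2 : QI d d' f A2 A1 B2 B1) : QI d d' f A2 A0 B2 B0 := by
  constructor
  · intro c hc hdc hfc
    obtain ⟨b2, hb2, e1⟩ := zg1_mem.1 hfc
    obtain ⟨a2, ha2, e2⟩ := zg1_mem.1 (q2.1 c hc (h01 hdc) (zg1_mem.2 ⟨b2, hb2, k01 e1⟩))
    obtain ⟨e, he, hde, e3⟩ := q2.2 (b2 - f a2) (B2.sub_mem hb2 (f2 _ ha2))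
      (zg1_of_eq (B1.sub_mem (f1 _ e2) (k01 e1)) (by simp only [map_sub, hf a2 ha2]; abel))
    obtain ⟨b, hb, e4⟩ := zg1_mem.1 e3
    obtain ⟨a1, ha1, e5⟩ := zg1_mem.1 (q1.1 (c - d a2 - d e) (A1.sub_mem e2 hde)
      (zg1_of_eq hdc (by simp only [map_sub, hdd, sub_zero]))
      (zg1_mem.2 ⟨-_, B1.neg_mem e4, zg1_of_eq e1
        (by simp only [map_sub, map_neg, hf a2 ha2, hf e he, hdd']; abel)⟩))
    exact zg1_mem.2 ⟨a2 + e + a1, A2.add_mem (A2.add_mem ha2 he) (h12 ha1),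
      zg1_of_eq e5 (by simp only [map_add]; abel)⟩
  · intro c' hc' hdc
    obtain ⟨c, hc, h1, e1⟩ := q2.2 c' hc' (k01 hdc)
    obtain ⟨b2, hb2, e2⟩ := zg1_mem.1 e1
    obtain ⟨a1, ha1, e3⟩ := zg1_mem.1 (q1.1 (d c) h1 (zg1_of_eq A0.zero_mem (hdd c))
      (zg1_mem.2 ⟨_, e2, zg1_of_eq hdc (by simp only [map_sub, hf c hc, hdd']; abel)⟩))
    obtain ⟨e, he, hde, e4⟩ := q1.2 (f c - c' - d' b2 - f a1) (B1.sub_mem e2 (f1 _ ha1))
      (zg1_of_eq (B0.sub_mem (f0 _ e3) hdc)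
        (by simp only [map_sub, hf c hc, hf a1 (h12 ha1), hdd']; abel))
    obtain ⟨b1, hb1, e5⟩ := zg1_mem.1 e4
    exact ⟨c - a1 - e, A2.sub_mem (A2.sub_mem hc (h12 ha1)) (h12 he),
      zg1_of_eq (A0.sub_mem e3 hde) (by simp only [map_sub]),
      zg1_mem.2 ⟨b2 - b1, B2.sub_mem hb2 (k12 hb1),
        zg1_of_eq (B0.neg_mem e5) (by simp only [map_sub]; abel)⟩⟩

end Pool.Agent.Fu
end

-- part Pool.Agent.P.MP_365c00_gt.ZM1
section

/-! The truncated Riemannian distance. -/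

set_option linter.unusedSectionVars false
set_option linter.unusedVariables false

open Set Filter Topology Metric Function MeasureTheory
open scoped Manifold ContDiff
open Pool.Agent.GeoN

namespace Pool.Agent.Fu

variable {E : Type} [NormedAddCommGroup E] [InnerProductSpace ℝ E] [FiniteDimensional ℝ E]
  {M : Type} [TopologicalSpace M] [ChartedSpace E M] [IsManifold 𝓘(ℝ, E) ∞ M]
  [T2Space M] [CompactSpace M] [Nonempty M] [Nontrivial E] {g : Met E M}

theorem zm1_symm (sh : Short g) {x y : M} (h : (x, y) ∈ sh.D) :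
    (y, x) ∈ sh.D ∧ sh.S (y, x) = sh.S (x, y) := by
  have hg := sh.geo _ h
  have he : energy g (fun s => sh.σ (x, y) (-1 * s + 1)) 0 = sh.S (x, y) := by
    rw [energy_affine hg, energy_const hg _ 0]
    simp [Short.S]
  have h1 := sh.uniq _ (hg.affine (-1) 1) (by rw [he]; exact sh.lt _ h)
  have e0 : sh.σ (x, y) (-1 * 0 + 1) = y := by
    rw [mul_zero, zero_add]; exact sh.one _ h
  have e1 : sh.σ (x, y) (-1 * 1 + 1) = x := by
    rw [mul_one, neg_add_cancel]; exact sh.zero _ h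
  simp only [e0, e1] at h1
  refine ⟨h1.1, ?_⟩
  rw [← he, ← h1.2]
  rfl

theorem zm1_pos (sh : Short g) {x y : M} (h : (x, y) ∈ sh.D) (hne : x ≠ y) : 0 < sh.S (x, y) :=
  energy_pos (sh.geo _ h) (s := 1) (by rw [sh.one _ h, sh.zero _ h]; exact hne.symm)

theorem zm1_cs {p : M} {V W : E} {r L δ : ℝ} (hr : 0 < r) (hL : 0 ≤ L) (hδ : 0 < δ)
    (hV : G g p (κ E p p) V V = r ^ 2) (hW : G g p (κ E p p) W W = L ^ 2) :
    G g p (κ E p p) V W < r * (L + δ) := by
  have h0 : 0 ≤ G g p (κ E p p) ((L + δ) • V - r • W) ((L + δ) • V - r • W) := by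
    by_cases h : (L + δ) • V - r • W = 0
    · rw [h]; simp
    · exact (G_pos g p (mem_extChartAt_target p) h).le
  simp only [map_sub, map_smul, sub_apply, smul_apply,
    smul_eq_mul] at h0
  rw [hV, hW, G_symm g p _ W V] at h0
  by_contra hn
  have h1 : r * (L + δ) * (r * (L + δ)) ≤ r * (L + δ) * G g p (κ E p p) V W :=
    mul_le_mul_of_nonneg_left (not_lt.1 hn) (by positivity)
  have h2 : 0 < r ^ 2 * (δ * (2 * L + δ)) := by positivity
  nlinarith

theorem zm1_der (sh : Short g) {x : M} {c : ℝ → M} (hc : IsGeodesic g c) {t : ℝ}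
    (h : (x, c t) ∈ sh.D) : ∃ V W : E, G g (c t) (κ E (c t) (c t)) V V = sh.S (x, c t) ∧
      G g (c t) (κ E (c t) (c t)) W W = energy g c 0 ∧
      HasDerivAt (fun s => sh.S (x, c s)) (2 * G g (c t) (κ E (c t) (c t)) V W) t := by
  obtain ⟨-, a2, a3⟩ := bm_pair sh h
  have hg := sh.geo _ h
  have hct := (isGeodesic_iff g c).1 hc t
  have hs : c t ∈ (κ E (c t)).source := mem_extChartAt_source _
  refine ⟨vel E (c t) (sh.σ (x, c t)) 1, vel E (c t) c t, ?_, ?_, ?_⟩
  · have h1 := energy_eq ((isGeodesic_iff g _).1 hg 1) (x := c t) (by rw [sh.one _ h]; exact hs)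
    rw [sh.one _ h, energy_const hg 1 0] at h1
    exact h1.symm
  · rw [← energy_eq hct hs, energy_const hc t 0]
  · have h1 : HasDerivAt (fun s => (κ E x x, κ E (c t) (c s))) ((0 : E), vel E (c t) c t) t :=
      (hasDerivAt_const t _).prodMk (hct.hasDerivAt hs)
    have h2 := (a2.differentiableAt (by simp)).hasFDerivAt.comp_hasDerivAt t h1
    rw [a3] at h2
    simp only [map_zero, mul_zero, sub_zero] at h2
    refine h2.congr_of_eventuallyEq ?_
    filter_upwards [hc.cont.continuousAt.preimage_mem_nhds ((source_open (c t)).mem_nhds hs)]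
      with s hs'
    simp only [Function.comp_apply, extChartAt_to_inv, (κ E (c t)).left_inv hs']

theorem zm1_tri (sh : Short g) {x y z : M} (h1 : (x, y) ∈ sh.D) (h2 : (y, z) ∈ sh.D)
    {r L δ : ℝ} (hr : 0 ≤ r) (hL : 0 ≤ L) (hδ : 0 < δ) (e1 : sh.S (x, y) = r ^ 2)
    (e2 : sh.S (y, z) = L ^ 2) (hc : (r + δ + (L + δ)) ^ 2 < sh.ε) :
    (x, z) ∈ sh.D ∧ sh.S (x, z) ≤ (r + δ + (L + δ)) ^ 2 := by
  have hg := sh.geo _ h2
  set c := sh.σ (y, z) with hcd
  have hcx : Continuous fun t => (x, c t) := continuous_const.prodMk hg.cont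
  let B : ℝ → ℝ := fun t => (r + δ + (L + δ) * t) ^ 2
  have hBc : Continuous B := by fun_prop
  have key : Icc (0 : ℝ) 1 ⊆ {t | (x, c t) ∈ sh.D ∧ sh.S (x, c t) ≤ B t} := by
    refine IsClosed.Icc_subset_of_forall_mem_nhdsWithin ?_ ?_ ?_
    · have hK := ((sh.compact_le hc).isClosed.preimage hcx).inter (isClosed_Icc (a := 0) (b := 1))
      have h3 := hK.isClosed_le (f := fun t => sh.S (x, c t)) (g := B)
        (sh.S_cont.comp hcx.continuousOn fun t ht => ht.1.1) hBc.continuousOn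
      have e : {t | (x, c t) ∈ sh.D ∧ sh.S (x, c t) ≤ B t} ∩ Icc (0 : ℝ) 1 =
          {t ∈ (fun t => (x, c t)) ⁻¹' {w | w ∈ sh.D ∧ sh.S w ≤ (r + δ + (L + δ)) ^ 2} ∩
            Icc (0 : ℝ) 1 | sh.S (x, c t) ≤ B t} := by
        ext t
        refine ⟨fun h => ⟨⟨⟨h.1.1, h.1.2.trans ?_⟩, h.2⟩, h.1.2⟩, fun h => ⟨⟨h.1.1.1, h.2⟩, h.1.2⟩⟩
        have h4 : (L + δ) * t ≤ (L + δ) * 1 := mul_le_mul_of_nonneg_left h.2.2 (by positivity)
        have h5 : 0 ≤ (L + δ) * t := mul_nonneg (by positivity) h.2.1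
        exact pow_le_pow_left₀ (by positivity) (by linarith) 2
      rw [e]
      exact h3
    · have e : c 0 = y := sh.zero _ h2
      refine ⟨by rw [e]; exact h1, ?_⟩
      rw [e, e1]
      exact pow_le_pow_left₀ hr (by rw [mul_zero]; linarith) 2
    · rintro t ⟨⟨ht1, ht2⟩, ht3⟩
      obtain ⟨V, W, hV, hW, hd⟩ := zm1_der sh hg ht1
      have hD : ∀ᶠ s in 𝓝[>] t, (x, c s) ∈ sh.D :=
        nhdsWithin_le_nhds (hcx.continuousAt.preimage_mem_nhds (sh.D_open.mem_nhds ht1))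
      have hle : ∀ᶠ s in 𝓝[>] t, sh.S (x, c s) ≤ B s := by
        rcases ht2.lt_or_eq with hlt | heq
        · exact nhdsWithin_le_nhds
            ((hd.continuousAt.eventually_lt hBc.continuousAt hlt).mono fun s hs => hs.le)
        · have h5 : 0 ≤ (L + δ) * t := mul_nonneg (by positivity) ht3.1
          have hρ : 0 < r + δ + (L + δ) * t := by positivity
          have hcs := zm1_cs hρ hL hδ (hV.trans heq) (hW.trans e2)
          have hB : HasDerivAt B (2 * ((r + δ + (L + δ) * t) * (L + δ))) t := by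
            have h6 := (((hasDerivAt_id t).const_mul (L + δ)).const_add (r + δ)).fun_pow 2
            refine h6.congr_deriv ?_
            simp only [id]
            norm_num
            ring
          have h7 := (hasDerivAt_iff_tendsto_slope.1 (hB.sub hd)).mono_left (nhdsGT_le_nhdsNE t)
          filter_upwards [h7.eventually (lt_mem_nhds (by linarith : (0 : ℝ) < _)),
            self_mem_nhdsWithin] with s hs hst
          rw [slope_def_field, Pi.sub_apply, Pi.sub_apply, heq, sub_self, sub_zero] at hs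
          have h8 := (div_pos_iff_of_pos_right (sub_pos.2 hst)).1 hs
          linarith
      exact hD.and hle
  have h9 := key (right_mem_Icc.2 zero_le_one)
  have e : c 1 = z := sh.one _ h2
  simp only [mem_ofPred_eq, e, B, mul_one] at h9
  exact h9

theorem exists_dist (sh : Short g) : ∃ (d : M → M → ℝ) (a : ℝ), (∀ x, d x x = 0) ∧
    (∀ x y, d x y = d y x) ∧ (∀ x y z, d x z ≤ d x y + d y z) ∧
    (∀ s : Set M, IsOpen s ↔ ∀ x ∈ s, ∃ ε > 0, ∀ y, d x y < ε → y ∈ s) ∧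
    (∀ x y, d x y = 0 → x = y) ∧ SMd sh d a := by
  classical
  obtain ⟨a, ha, haε⟩ : ∃ a : ℝ, 0 < a ∧ 16 * a ^ 2 = sh.ε :=
    ⟨√sh.ε / 4, by have := Real.sqrt_pos.2 sh.ε_pos; positivity, by
      rw [div_pow, Real.sq_sqrt sh.ε_pos.le]; ring⟩
  have ha2 : 0 < a ^ 2 := by positivity
  let d : M → M → ℝ := fun x y => if (x, y) ∈ sh.D then min a √(sh.S (x, y)) else a
  have d_in : ∀ x y, (x, y) ∈ sh.D → d x y = min a √(sh.S (x, y)) := fun x y h => if_pos h
  have d_out : ∀ x y, (x, y) ∉ sh.D → d x y = a := fun x y h => if_neg h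
  have d_le : ∀ x y, d x y ≤ a := fun x y => by
    by_cases h : (x, y) ∈ sh.D
    · rw [d_in x y h]; exact min_le_left _ _
    · rw [d_out x y h]
  have d_nn : ∀ x y, 0 ≤ d x y := fun x y => by
    by_cases h : (x, y) ∈ sh.D
    · rw [d_in x y h]; exact le_min ha.le (Real.sqrt_nonneg _)
    · rw [d_out x y h]; exact ha.le
  have d_mem : ∀ x y, d x y < a → (x, y) ∈ sh.D ∧ sh.S (x, y) = d x y ^ 2 := fun x y h => by
    have hD : (x, y) ∈ sh.D := by
      by_contra hn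
      exact h.ne (d_out x y hn)
    refine ⟨hD, ?_⟩
    rw [d_in x y hD] at h ⊢
    rw [min_eq_right ((min_lt_iff.1 h).resolve_left (lt_irrefl a)).le,
      Real.sq_sqrt (sh.S_nonneg _)]
  have d_lt : ∀ x y (r : ℝ), 0 < r → (x, y) ∈ sh.D → sh.S (x, y) < r ^ 2 → d x y < r :=
    fun x y r hr h hS => by
      rw [d_in x y h]
      exact (min_le_right _ _).trans_lt ((Real.sqrt_lt' hr).2 hS)
  refine ⟨d, a, fun x => ?_, fun x y => ?_, fun x y z => ?_, fun s => ⟨fun hs x hx => ?_,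
    fun h => ?_⟩, fun x y h => ?_, ha, by linarith, d_mem, fun z hz hS => d_lt _ _ a ha hz hS⟩
  · rw [d_in x x (sh.diag x), sh.S_diag, Real.sqrt_zero, min_eq_right ha.le]
  · by_cases h : (x, y) ∈ sh.D
    · rw [d_in x y h, d_in y x (zm1_symm sh h).1, (zm1_symm sh h).2]
    · rw [d_out x y h, d_out y x fun h' => h (zm1_symm sh h').1]
  · rcases (d_le x y).lt_or_eq with h1 | h1
    · rcases (d_le y z).lt_or_eq with h2 | h2
      · refine le_of_forall_pos_le_add fun η hη => ?_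
        have hδ : 0 < min (η / 2) (a / 2) := lt_min (by linarith) (by linarith)
        have hδ1 := min_le_left (η / 2) (a / 2)
        have hδ2 := min_le_right (η / 2) (a / 2)
        have n1 := d_nn x y
        have n2 := d_nn y z
        obtain ⟨hD, hS⟩ := zm1_tri sh (d_mem x y h1).1 (d_mem y z h2).1 n1 n2 hδ
          (d_mem x y h1).2 (d_mem y z h2).2 (by
            have h3 : (d x y + min (η / 2) (a / 2) + (d y z + min (η / 2) (a / 2))) ^ 2 ≤
                (3 * a) ^ 2 := pow_le_pow_left₀ (by positivity) (by linarith) 2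
            nlinarith)
        rw [d_in x z hD]
        refine (min_le_right _ _).trans ((Real.sqrt_le_iff.2 ⟨by positivity, hS⟩).trans ?_)
        linarith
      · linarith [d_le x z, d_nn x y]
    · linarith [d_le x z, d_nn y z]
  · have hcx : Continuous fun y : M => (x, y) := continuous_const.prodMk continuous_id
    have hK : IsCompact ((fun y : M => (x, y)) ⁻¹' {w | w ∈ sh.D ∧ sh.S w ≤ a ^ 2} ∩ sᶜ) :=
      (((sh.compact_le (by linarith)).isClosed.preimage hcx).inter hs.isClosed_compl).isCompact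
    obtain ⟨b, hb, hbK⟩ := hK.exists_forall_le' (f := fun y => sh.S (x, y)) (a := 0)
      (sh.S_cont.comp hcx.continuousOn fun y hy => hy.1.1)
      fun y hy => zm1_pos sh hy.1.1 fun e => hy.2 (e ▸ hx)
    refine ⟨min a √b, lt_min ha (Real.sqrt_pos.2 hb), fun y hy => ?_⟩
    by_contra hys
    obtain ⟨h1, h2⟩ := lt_min_iff.1 hy
    obtain ⟨hD, hS⟩ := d_mem x y h1
    have h3 : sh.S (x, y) ≤ a ^ 2 := by
      rw [hS]
      exact pow_le_pow_left₀ (d_nn x y) h1.le 2
    have h4 : b ≤ sh.S (x, y) := hbK y ⟨⟨hD, h3⟩, hys⟩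
    have h5 := (Real.lt_sqrt (d_nn x y)).1 h2
    linarith
  · refine isOpen_iff_mem_nhds.2 fun x hx => ?_
    obtain ⟨r, hr, hrs⟩ := h x hx
    have hcx : Continuous fun y : M => (x, y) := continuous_const.prodMk continuous_id
    have hD := sh.D_open.mem_nhds (sh.diag x)
    have hS : ContinuousAt (fun y => sh.S (x, y)) x :=
      ContinuousAt.comp (f := fun y : M => (x, y)) (sh.S_cont.continuousAt hD) hcx.continuousAt
    filter_upwards [hcx.continuousAt.preimage_mem_nhds hD,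
      hS.eventually_lt (continuousAt_const (y := r ^ 2)) (by rw [sh.S_diag]; positivity)]
      with y h1 h2 using hrs y (d_lt x y r hr h1 h2)
  · obtain ⟨hD, hS⟩ := d_mem x y (by rw [h]; exact ha)
    by_contra hne
    have := zm1_pos sh hD hne
    rw [hS, h] at this
    simp at this

end Pool.Agent.Fu
end

-- part Pool.Agent.P.MP_365c00_gt.ZV2
section

/-! Pulling back the charts and the metric along a local homeomorphism. -/

set_option linter.unusedSectionVars false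
set_option linter.unusedVariables false

open Set Filter Topology Function Bundle
open scoped Manifold ContDiff
open Pool.Agent.GeoN

namespace Pool.Agent.Fu

variable {E : Type} [NormedAddCommGroup E] [InnerProductSpace ℝ E] [FiniteDimensional ℝ E]
  {M : Type} [TopologicalSpace M] [ChartedSpace E M] [IsManifold 𝓘(ℝ, E) ∞ M]
  {N : Type} [TopologicalSpace N] {f : N → M}

theorem symmL_eq {x p : M} (hp : p ∈ (κ E x).source) (v : E) :
    (trivializationAt E (TangentSpace 𝓘(ℝ, E)) x).symmL ℝ p v =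
      tangentCoordChange 𝓘(ℝ, E) x p p v := by
  rw [TangentBundle.symmL_trivializationAt_eq_core (by rwa [extChartAt_source] at hp)]
  rfl

theorem G_eq (g : Met E M) {x p : M} (hp : p ∈ (κ E x).source) (u w : E) :
    G g x (κ E x p) u w = (g.inner p : E →L[ℝ] E →L[ℝ] ℝ) (tangentCoordChange 𝓘(ℝ, E) x p p u)
      (tangentCoordChange 𝓘(ℝ, E) x p p w) := by
  have h1 := TangentBundle.symmL_trivializationAt (I := 𝓘(ℝ, E)) (x₀ := x) (x := p)
    (by rwa [extChartAt_source] at hp)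
  rw [modelWithCornersSelf_coe, range_id, mfderivWithin_univ] at h1
  rw [← symmL_eq hp, ← symmL_eq hp, h1]
  exact ChartX.inner_congr g ((κ E x).left_inv hp) _ _

theorem geoAt_iff_chart (g : Met E M) {γ : ℝ → M} {t : ℝ} {x : M} (hc : ContinuousAt γ t)
    (hx : γ t ∈ (κ E x).source) : GeoAt g γ t ↔ (∀ᶠ s in 𝓝 t, ContDiffAt ℝ ∞ (κ E x ∘ γ) s) ∧
      HasDerivAt (deriv (κ E x ∘ γ)) (acc g x (κ E x (γ t), deriv (κ E x ∘ γ) t)) t := by
  have h0 : ∀ᶠ s in 𝓝 t, γ s ∈ (κ E x).source :=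
    hc.preimage_mem_nhds ((source_open x).mem_nhds hx)
  constructor
  · intro h
    refine ⟨?_, h.2 x hx⟩
    filter_upwards [h.1, h0] with s h1 h2 using contDiffAt_chart (n := ⊤) h1 h2
  · rintro ⟨h1, h2⟩
    refine (geoAt_of_chart g h1 ((κ E x).map_source hx) h2).congr ?_
    filter_upwards [h0] with s hs using ((κ E x).left_inv hs).symm

variable (E) in
/-- the charts of `N` are pulled back along `f` -/
structure Pull [ChartedSpace E N] (f : N → M) : Prop where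
  cont : Continuous f
  app : ∀ q a, κ E q a = κ E (f q) (f a)
  src : ∀ q, ∀ a ∈ (κ E q).source, f a ∈ (κ E (f q)).source
  atl : ∀ e ∈ atlas E N, ∃ q, e = chartAt E q

variable (E) in
theorem exists_pull (h : IsLocalHomeomorph f) : ∃ _ : ChartedSpace E N, Pull E f := by
  have hc := h.continuous
  choose e he hf using h
  let cs : ChartedSpace E N :=
    { atlas := range fun q => (e q).trans (chartAt E (f q))
      chartAt := fun q => (e q).trans (chartAt E (f q))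
      mem_chart_source := fun q => ⟨he q, by
        show e q q ∈ (chartAt E (f q)).source
        rw [← congrFun (hf q) q]
        exact mem_chart_source E _⟩
      chart_mem_atlas := fun q => ⟨q, rfl⟩ }
  refine ⟨cs, hc, fun q a => ?_, fun q a ha => ?_, fun c hc => ?_⟩
  · show chartAt E (f q) (e q a) = chartAt E (f q) (f a)
    rw [← congrFun (hf q) a]
  · rw [extChartAt_source] at ha ⊢
    rw [congrFun (hf q) a]
    exact ha.2
  · obtain ⟨q, rfl⟩ := hc
    exact ⟨q, rfl⟩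

namespace Pull

variable [ChartedSpace E N] (h : Pull E f)
include h

theorem tgt {q : N} {a : E} (ha : a ∈ (κ E q).target) :
    a ∈ (κ E (f q)).target ∧ f ((κ E q).symm a) = (κ E (f q)).symm a := by
  have h1 := h.src q _ ((κ E q).map_target ha)
  have h2 := h.app q ((κ E q).symm a)
  rw [(κ E q).right_inv ha] at h2
  refine ⟨?_, ((κ E (f q)).left_inv h1).symm.trans (congrArg _ h2.symm)⟩
  rw [h2]
  exact (κ E (f q)).map_source h1

theorem trans_eq {q : N} (q' : N) {a : E} (ha : a ∈ (κ E q).target) :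
    κ E q' ∘ (κ E q).symm =ᶠ[𝓝 a] κ E (f q') ∘ (κ E (f q)).symm := by
  filter_upwards [(target_open q).mem_nhds ha] with b hb
  rw [comp_apply, comp_apply, h.app, (h.tgt hb).2]

theorem isManifold : IsManifold 𝓘(ℝ, E) ∞ N := by
  refine isManifold_of_contDiffOn _ _ _ fun e e' he he' a ha => ?_
  obtain ⟨q, rfl⟩ := h.atl e he
  obtain ⟨q', rfl⟩ := h.atl e' he'
  have h1 : a ∈ (κ E q).target := by simpa using ha.1.1
  have h2 : (κ E q).symm a ∈ (κ E q').source := by simpa using ha.1.2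
  exact ((contDiffAt_trans (h.tgt h1).1 (x' := f q')
    ((h.tgt h1).2 ▸ h.src q' _ h2)).congr_of_eventuallyEq (h.trans_eq q' h1)).contDiffWithinAt

variable [IsManifold 𝓘(ℝ, E) ∞ N]

theorem tcc {q p : N} (q' : N) (hp : p ∈ (κ E q).source) :
    tangentCoordChange 𝓘(ℝ, E) q q' p = tangentCoordChange 𝓘(ℝ, E) (f q) (f q') (f p) := by
  rw [tcc_eq, tcc_eq, ← h.app]
  exact (h.trans_eq q' ((κ E q).map_source hp)).fderiv_eq

theorem exists_met (g : Met E M) :
    ∃ g' : Met E N, ∀ q, (g'.inner q : E →L[ℝ] E →L[ℝ] ℝ) = g.inner (f q) := by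
  refine ⟨⟨fun q => (g.inner (f q) : E →L[ℝ] E →L[ℝ] ℝ), fun q => g.symm (f q),
    fun q => g.pos (f q), fun q => g.isVonNBounded (f q), fun q₀ => ?_⟩, fun q => rfl⟩
  refine (contMDiffAt_section _).2 ?_
  have h0 : q₀ ∈ (κ E q₀).source := mem_extChartAt_source q₀
  have h1 : ContMDiffAt 𝓘(ℝ, E) 𝓘(ℝ, E →L[ℝ] E →L[ℝ] ℝ) ∞
      (fun q => G g (f q₀) (κ E q₀ q)) q₀ :=
    (ChartX.G_diff g (f q₀) (h.tgt ((κ E q₀).map_source h0)).1).contMDiffAt.comp q₀
      contMDiffAt_extChartAt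
  refine h1.congr_of_eventuallyEq ?_
  filter_upwards [(source_open q₀).mem_nhds h0] with q hq
  ext v w
  have hb : q ∈ (trivializationAt E (TangentSpace 𝓘(ℝ, E)) q₀).baseSet := by
    simpa using hq
  rw [hom_trivializationAt_apply, h.app, G_eq g (h.src _ _ hq), ← h.tcc q hq, ← symmL_eq hq,
    ← symmL_eq hq]
  refine (inCoordinates_apply_eq₂ hb hb (mem_univ _)).trans ?_
  rw [Trivialization.symmL_apply _ hb, Trivialization.symmL_apply _ hb]
  simp
  rfl

variable {g : Met E M} {g' : Met E N}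
  (hg : ∀ q, (g'.inner q : E →L[ℝ] E →L[ℝ] ℝ) = g.inner (f q))
include hg

theorem G_pull {q : N} {a : E} (ha : a ∈ (κ E q).target) : G g' q a = G g (f q) a := by
  ext u w
  have h1 := (κ E q).map_target ha
  have h2 := G_eq g' h1 u w
  have h3 := G_eq g (h.src _ _ h1) u w
  rw [← h.app, ← h.tcc _ h1, ← hg] at h3
  have h4 := h2.trans h3.symm
  rwa [(κ E q).right_inv ha] at h4

theorem acc_pull {q : N} {a : E} (ha : a ∈ (κ E q).target) (V : E) :
    acc g' q (a, V) = acc g (f q) (a, V) := by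
  have h1 : G g' q =ᶠ[𝓝 a] G g (f q) := by
    filter_upwards [(target_open q).mem_nhds ha] with b hb using h.G_pull hg hb
  refine ChartX.G_inj g' q ha fun w => ?_
  rw [acc_spec g' q ha, h1.fderiv_eq, h.G_pull hg ha, acc_spec g (f q) (h.tgt ha).1]

theorem geoAt_pull {γ : ℝ → N} (hc : Continuous γ) (t : ℝ) :
    GeoAt g' γ t ↔ GeoAt g (f ∘ γ) t := by
  have h0 : γ t ∈ (κ E (γ t)).source := mem_extChartAt_source _
  have h1 : κ E (f (γ t)) ∘ f ∘ γ = κ E (γ t) ∘ γ := funext fun s => (h.app _ _).symm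
  rw [geoAt_iff_chart g' hc.continuousAt h0,
    geoAt_iff_chart g (h.cont.comp hc).continuousAt (h.src _ _ h0), h1,
    h.acc_pull hg ((κ E (γ t)).map_source h0), comp_apply, ← h.app]

theorem ug_iff {γ : ℝ → N} (hc : Continuous γ) :
    (IsGeodesic g' γ ∧ UnitSpeed g' γ) ↔ (IsGeodesic g (f ∘ γ) ∧ UnitSpeed g (f ∘ γ)) := by
  rw [isGeodesic_iff, isGeodesic_iff, ← forall_congr' (h.geoAt_pull hg hc)]
  refine and_congr_right fun h1 => forall_congr' fun t => ?_
  have h0 : γ t ∈ (κ E (γ t)).source := mem_extChartAt_source _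
  have h2 : vel E (f (γ t)) (f ∘ γ) t = vel E (γ t) γ t :=
    congrArg (fun c => deriv c t) (funext fun s => (h.app _ _).symm)
  show energy g' γ t = 1 ↔ energy g (f ∘ γ) t = 1
  rw [energy_eq (h1 t) h0, energy_eq ((h.geoAt_pull hg hc t).1 (h1 t)) (h.src _ _ h0), h2,
    h.G_pull hg ((κ E (γ t)).map_source h0), comp_apply, ← h.app]

end Pull

end Pool.Agent.Fu
end

-- part Pool.Agent.P.MP_365c00_gt.Chain
section

/-!
The chain lemma (paper sec. 2).
-/

set_option linter.unusedSectionVars false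

open Set Filter Topology Metric

namespace Pool.Agent.GeoFin

variable {M Y : Type*} [TopologicalSpace M] [TopologicalSpace Y]

/-- a chain of holonomy maps between finitely many boxes -/
structure Chain {S : Sys M Y} (box : Y → Box S) where
  w : ℕ → Y
  fin : (range w).Finite
  K : Y → Set (ℝ × ℝ)
  K_cpt : ∀ j, IsCompact (K (w j))
  K_sub : ∀ j, K (w j) ⊆ (box (w j)).D
  Ω : ℕ → Set (ℝ × ℝ)
  Ω_sub : ∀ j, Ω j ⊆ (box (w j)).D
  g : ℕ → ℝ × ℝ → ℝ × ℝ
  g_cont : ∀ j, ContinuousOn (g j) (Ω j)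
  g_maps : ∀ j, MapsTo (g j) (Ω j) (K (w (j + 1)))
  a0 : ℝ
  a0_pos : 0 < a0
  g_time : ∀ j, ∀ z ∈ Ω j, ∃ t, a0 ≤ t ∧ (box (w (j + 1))).Z (g j z) = S.φ t ((box (w j)).Z z)

/-- iterates along the chain -/
def Chain.it {S : Sys M Y} {box : Y → Box S} (C : Chain box) (j : ℕ) (z : ℝ × ℝ) : ℝ × ℝ :=
  Nat.rec z (fun i x => C.g i x) j

theorem Chain.it_zero {S : Sys M Y} {box : Y → Box S} (C : Chain box) (z : ℝ × ℝ) :
    C.it 0 z = z := rfl

theorem Chain.it_succ {S : Sys M Y} {box : Y → Box S} (C : Chain box) (j : ℕ) (z : ℝ × ℝ) :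
    C.it (j + 1) z = C.g j (C.it j z) := rfl

/-- an arc in the fibre over `p`, read in the first box, whose centre follows the chain -/
structure Chain.Arc {S : Sys M Y} {box : Y → Box S} (C : Chain box) (p : M) (e : ℝ → Y)
    (β : ℝ → ℝ × ℝ) (s0 r d1 : ℝ) : Prop where
  r_pos : 0 < r
  d_pos : 0 < d1
  inj : InjOn e (Icc (s0 - r) (s0 + r))
  base : ∀ s ∈ Icc (s0 - r) (s0 + r), S.ev (e s) 0 = p
  cont : ContinuousOn β (Icc (s0 - r) (s0 + r))
  maps : MapsTo β (Icc (s0 - r) (s0 + r)) (box (C.w 0)).D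
  time : ∃ C0 : ℝ, ∀ s ∈ Icc (s0 - r) (s0 + r), ∃ t, |t| ≤ C0 ∧
    (box (C.w 0)).Z (β s) = S.φ t (e s)
  ball_sub : ∀ j, ball (C.it j (β s0)) d1 ⊆ C.Ω j

variable [T2Space M] {S : Sys M Y} {box : Y → Box S} {C : Chain box} {p : M} {e : ℝ → Y}
  {β : ℝ → ℝ × ℝ} {s0 r d1 : ℝ}

namespace ChainX

theorem mem_D (h : C.Arc p e β s0 r d1) {s : ℝ} (hs : s ∈ Icc (s0 - r) (s0 + r)) {j : ℕ}
    (hj : ∀ i < j, C.it i (β s) ∈ C.Ω i) : C.it j (β s) ∈ (box (C.w j)).D := by
  cases j with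
  | zero => exact h.maps hs
  | succ j => exact C.K_sub _ (C.g_maps j (hj j (Nat.lt_succ_self j)))

theorem mem_K {z : ℝ × ℝ} {j : ℕ} (h0 : 0 < j) (hj : ∀ i < j, C.it i z ∈ C.Ω i) :
    C.it j z ∈ C.K (C.w j) := by
  cases j with
  | zero => exact absurd h0 (lt_irrefl _)
  | succ j => exact C.g_maps j (hj j (Nat.lt_succ_self j))

theorem time_it {z : ℝ × ℝ} : ∀ j : ℕ, (∀ i < j, C.it i z ∈ C.Ω i) →
    ∃ t, j * C.a0 ≤ t ∧ (box (C.w j)).Z (C.it j z) = S.φ t ((box (C.w 0)).Z z)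
  | 0, _ => ⟨0, by simp, (S.φ_zero _).symm⟩
  | j + 1, hj => by
    obtain ⟨t, ht, e1⟩ := time_it j fun i hi => hj i (hi.trans (Nat.lt_succ_self j))
    obtain ⟨t', ht', e2⟩ := C.g_time j _ (hj j (Nat.lt_succ_self j))
    refine ⟨t' + t, by push_cast; linarith, ?_⟩
    rw [C.it_succ, e2, e1, S.φ_add]

theorem cont_it {J : Set ℝ} (hβ : ContinuousOn β J) : ∀ j : ℕ,
    (∀ i < j, ∀ s ∈ J, C.it i (β s) ∈ C.Ω i) → ContinuousOn (fun s => C.it j (β s)) J
  | 0, _ => hβ
  | j + 1, hj =>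
    (C.g_cont j).comp (cont_it hβ j fun i hi => hj i (hi.trans (Nat.lt_succ_self j)))
      fun s hs => hj j (Nat.lt_succ_self j) s hs

/-- arcs whose far iterates have ends far apart sweep out an open set at late times -/
theorem sweep (h : C.Arc p e β s0 r d1) {d : ℝ} (hd : 0 < d) (j : ℕ → ℕ) (a b : ℕ → ℝ)
    (hj : ∀ n, n ≤ j n) (hab : ∀ n, a n ≤ b n)
    (hI : ∀ n, Icc (a n) (b n) ⊆ Icc (s0 - r) (s0 + r))
    (hΩ : ∀ n, ∀ i < j n, ∀ s ∈ Icc (a n) (b n), C.it i (β s) ∈ C.Ω i)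
    (hfar : ∀ n, d ≤ dist (C.it (j n) (β (a n))) (C.it (j n) (β (b n)))) :
    ∃ O : Set M, IsOpen O ∧ O.Nonempty ∧ ∀ q ∈ O, ∀ (N : ℕ) (T : ℝ), ∃ n ≥ N,
      ∃ s ∈ Ioo (a n) (b n), ∃ t > T, S.ev (e s) t = q := by
  let U : Ultrafilter ℕ := Ultrafilter.of atTop
  have hU : (U : Filter ℕ) ≤ atTop := Ultrafilter.of_le _
  obtain ⟨w, ⟨j0, hw⟩, hpure⟩ := Ultrafilter.eq_pure_of_finite_mem
    (f := U.map fun n => C.w (j n)) C.fin
    (Ultrafilter.mem_map.2 (univ_mem' fun n => mem_range_self _))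
  have hwU : ∀ᶠ n in (U : Filter ℕ), C.w (j n) = w := by
    have : ({w} : Set Y) ∈ U.map fun n => C.w (j n) := by
      rw [hpure]; exact Ultrafilter.mem_pure.2 rfl
    exact this
  have hK : IsCompact (C.K w) := hw ▸ C.K_cpt j0
  have hKD : C.K w ⊆ (box w).D := hw ▸ C.K_sub j0
  have hlim : ∀ x : ℕ → ℝ, (∀ n, x n ∈ Icc (a n) (b n)) →
      ∃ z ∈ C.K w, Tendsto (fun n => C.it (j n) (β (x n))) U (𝓝 z) := by
    intro x hx
    refine hK.ultrafilter_le_nhds (U.map fun n => C.it (j n) (β (x n))) ?_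
    rw [le_principal_iff]
    change ∀ᶠ n in (U : Filter ℕ), C.it (j n) (β (x n)) ∈ C.K w
    filter_upwards [hwU, hU (eventually_ge_atTop 1)] with n h1 h2
    rw [← h1]
    exact mem_K (lt_of_lt_of_le h2 (hj n)) fun i hi => hΩ n i hi _ (hx n)
  obtain ⟨z, hz, hza⟩ := hlim a fun n => left_mem_Icc.2 (hab n)
  obtain ⟨z', hz', hzb⟩ := hlim b fun n => right_mem_Icc.2 (hab n)
  have hne : z ≠ z' := by
    have : d ≤ dist z z' := ge_of_tendsto' (hza.dist hzb) hfar
    exact dist_pos.1 (hd.trans_le this)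
  obtain ⟨V, hV, V', hV', O, hO, hOne, hsw⟩ := (box w).sweep z (hKD hz) z' (hKD hz') hne
  obtain ⟨C0, hC0⟩ := h.time
  refine ⟨O, hO, hOne, fun q hq N T => ?_⟩
  have hbig : ∀ᶠ n : ℕ in atTop, T + C0 + (box w).c ≤ n * C.a0 :=
    (tendsto_natCast_atTop_atTop.atTop_mul_const C.a0_pos).eventually_ge_atTop _
  obtain ⟨n, h1, h2, h3, h4, h5⟩ := (hwU.and ((hza.eventually_mem hV).and
    ((hzb.eventually_mem hV').and
    (((eventually_ge_atTop N).filter_mono hU).and (hbig.filter_mono hU))))).exists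
  obtain ⟨s, hs, t, ht, hq'⟩ := hsw (fun s => C.it (j n) (β s)) (a n) (b n) (hab n)
    (cont_it (h.cont.mono (hI n)) _ (hΩ n))
    (fun s hs => h1 ▸ mem_D h (hI n hs) fun i hi => hΩ n i hi s hs) h2 h3 q hq
  have hs' := Ioo_subset_Icc_self hs
  obtain ⟨t1, ht1, e1⟩ := time_it (C := C) (j n) fun i hi => hΩ n i hi s hs'
  obtain ⟨t0, ht0, e0⟩ := hC0 s (hI n hs')
  refine ⟨n, h4, s, hs, t + t1 + t0, ?_, ?_⟩
  · have h6 : (n : ℝ) * C.a0 ≤ j n * C.a0 :=
      mul_le_mul_of_nonneg_right (by exact_mod_cast hj n) C.a0_pos.le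
    have h7 := abs_lt.1 ht
    have h8 := abs_le.1 ht0
    have h9 : T + C0 + (box w).c ≤ n * C.a0 := h5
    linarith [h7.1, h8.1]
  · rw [← h1, e1, e0, S.ev_φ, S.ev_φ] at hq'
    exact hq'

theorem near_upto (h : C.Arc p e β s0 r d1) {d : ℝ} (hd : 0 < d) (hd1 : d ≤ d1) : ∀ N : ℕ,
    ∃ η > 0, η ≤ r ∧ ∀ s, |s - s0| < η → ∀ i < N, dist (C.it i (β s)) (C.it i (β s0)) < d
  | 0 => ⟨r, h.r_pos, le_rfl, fun _ _ i hi => absurd hi (Nat.not_lt_zero i)⟩
  | N + 1 => by
    obtain ⟨η, hη, hηr, H⟩ := near_upto h hd hd1 N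
    have hsub : ball s0 η ⊆ Icc (s0 - r) (s0 + r) := fun s hs => by
      have := abs_lt.1 (mem_ball_iff_norm.1 hs)
      exact ⟨by linarith [this.1], by linarith [this.2]⟩
    have hc : ContinuousAt (fun s => C.it N (β s)) s0 :=
      (cont_it (h.cont.mono hsub) N fun i hi s hs =>
        h.ball_sub i (mem_ball.2 ((H s (mem_ball_iff_norm.1 hs) i hi).trans_le hd1))).continuousAt
        (ball_mem_nhds s0 hη)
    obtain ⟨η', hη', H'⟩ := Metric.continuousAt_iff.1 hc d hd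
    refine ⟨min η η', lt_min hη hη', (min_le_left _ _).trans hηr, fun s hs i hi => ?_⟩
    rcases Nat.lt_succ_iff_lt_or_eq.1 hi with hi | rfl
    · exact H s (hs.trans_le (min_le_left _ _)) i hi
    · exact H' (hs.trans_le (min_le_right _ _))

theorem abs_lt_of_mem {s s0 η x : ℝ} (hs : |s - s0| < η) (hx : x ∈ Icc (min s s0) (max s s0)) :
    |x - s0| < η := by
  have := abs_lt.1 hs
  rcases le_total s s0 with h | h
  · rw [min_eq_left h, max_eq_right h] at hx
    exact abs_lt.2 ⟨by linarith [hx.1], by linarith [hx.2]⟩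
  · rw [min_eq_right h, max_eq_left h] at hx
    exact abs_lt.2 ⟨by linarith [hx.1], by linarith [hx.2]⟩

theorem dist_min_max {X : Type*} [PseudoMetricSpace X] (f : ℝ → X) (s s0 : ℝ) :
    dist (f (min s s0)) (f (max s s0)) = dist (f s) (f s0) := by
  rcases le_total s s0 with h | h
  · rw [min_eq_left h, max_eq_right h]
  · rw [min_eq_right h, max_eq_left h, dist_comm]

theorem ne_of_mem {s s0 x : ℝ} (hx : x ∈ Ioo (min s s0) (max s s0)) : x ≠ s0 := by
  rcases le_total s s0 with h | h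
  · rw [min_eq_left h, max_eq_right h] at hx
    exact hx.2.ne
  · rw [min_eq_right h, max_eq_left h] at hx
    exact hx.1.ne'

theorem mem_I {s s0 η r : ℝ} (hη : η ≤ r) (hs : |s - s0| < η) : s ∈ Icc (s0 - r) (s0 + r) := by
  have := abs_lt.1 hs
  exact ⟨by linarith [this.1], by linarith [this.2]⟩

theorem finite_hits (h : C.Arc p e β s0 r d1) {q : M} (hF : S.Fin p q) :
    {s | s ∈ Icc (s0 - r) (s0 + r) ∧ ∃ t > 0, S.ev (e s) t = q}.Finite := by
  have hfin : {u | S.ev u 0 = p ∧ ∃ t > 0, S.ev u t = q}.Finite := by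
    by_contra hcon
    exact S.not_fin_of_infinite hcon hF
  refine Set.Finite.of_injOn (f := e) (fun s hs => ?_) (h.inj.mono fun s hs => hs.1) hfin
  exact ⟨h.base s hs.1, hs.2⟩

theorem stable_le (h : C.Arc p e β s0 r d1) (hp : S.Good p) {d : ℝ} (hd : 0 < d) (hd1 : d ≤ d1) :
    ∃ η > 0, η ≤ r ∧ ∀ s, |s - s0| < η → ∀ j, dist (C.it j (β s)) (C.it j (β s0)) < d := by
  classical
  by_contra hcon
  push Not at hcon
  have key : ∀ N : ℕ, ∃ (j : ℕ) (s η : ℝ), N ≤ j ∧ η ≤ r ∧ η ≤ 1 / ((N : ℝ) + 1) ∧ |s - s0| < η ∧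
      (∀ i < j, ∀ x, |x - s0| < η → dist (C.it i (β x)) (C.it i (β s0)) < d) ∧
      d ≤ dist (C.it j (β s)) (C.it j (β s0)) := by
    intro N
    obtain ⟨η, hη, hηr, H⟩ := near_upto h hd hd1 N
    have hη' : 0 < min η (1 / ((N : ℝ) + 1)) := lt_min hη (by positivity)
    have hex : ∃ j, ∃ s, |s - s0| < min η (1 / ((N : ℝ) + 1)) ∧
        d ≤ dist (C.it j (β s)) (C.it j (β s0)) := by
      obtain ⟨s, hs, j, hj⟩ := hcon _ hη' ((min_le_left _ _).trans hηr)
      exact ⟨j, s, hs, hj⟩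
    obtain ⟨s, hs, hfar⟩ := Nat.find_spec hex
    refine ⟨Nat.find hex, s, _, ?_, (min_le_left _ _).trans hηr, min_le_right _ _, hs,
      fun i hi x hx => ?_, hfar⟩
    · by_contra hlt
      exact absurd (H s (hs.trans_le (min_le_left _ _)) _ (not_le.1 hlt)) (not_lt.2 hfar)
    · by_contra hge
      exact Nat.find_min hex hi ⟨x, hx, not_lt.1 hge⟩
  choose j s η hj hηr hηN hs hin hfar using key
  obtain ⟨O, hO, hOne, hsw⟩ := sweep h hd j (fun n => min (s n) s0) (fun n => max (s n) s0) hj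
    (fun n => min_le_max) (fun n x hx => mem_I (hηr n) (abs_lt_of_mem (hs n) hx))
    (fun n i hi x hx => h.ball_sub i
      (mem_ball.2 ((hin n i hi x (abs_lt_of_mem (hs n) hx)).trans_le hd1)))
    (fun n => by rw [dist_min_max fun x => C.it (j n) (β x)]; exact hfar n)
  refine S.open_pos O hO hOne (mem_of_superset hp fun q hF hq => ?_)
  have hfin := (finite_hits h hF).sdiff (t := {s0})
  obtain ⟨ε, hε, hball⟩ := Metric.isOpen_iff.1 hfin.isClosed.isOpen_compl s0
    (fun hm => hm.2 rfl)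
  obtain ⟨N, hN⟩ := exists_nat_one_div_lt hε
  obtain ⟨n, hn, x, hx, t, ht, hq'⟩ := hsw q hq N 0
  have hx' := abs_lt_of_mem (hs n) (Ioo_subset_Icc_self hx)
  refine hball (a := x) (mem_ball_iff_norm.2 ?_) ⟨⟨mem_I (hηr n) hx', t, ht, hq'⟩, ne_of_mem hx⟩
  refine (hx'.trans_le ((hηN n).trans ?_)).trans hN
  exact Nat.one_div_le_one_div hn

end ChainX

open ChainX

/-- (C1) -/
theorem Chain.Arc.stable (h : C.Arc p e β s0 r d1) (hp : S.Good p) {d : ℝ} (hd : 0 < d) :
    ∃ η > 0, η ≤ r ∧ ∀ s, |s - s0| < η → ∀ j, dist (C.it j (β s)) (C.it j (β s0)) < d := by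
  obtain ⟨η, hη, hηr, H⟩ := stable_le h hp (lt_min hd h.d_pos) (min_le_right _ _)
  exact ⟨η, hη, hηr, fun s hs j => (H s hs j).trans_le (min_le_left _ _)⟩

/-- (C2) -/
theorem Chain.Arc.asymptotic (h : C.Arc p e β s0 r d1) (hp : S.Good p)
    (hc : {s | s ∈ Icc (s0 - r) (s0 + r) ∧ S.Per (e s)}.Countable) :
    ∃ η > 0, η ≤ r ∧ ∀ s, |s - s0| < η → (∀ j, dist (C.it j (β s)) (C.it j (β s0)) < d1) ∧
      Tendsto (fun j => dist (C.it j (β s)) (C.it j (β s0))) atTop (𝓝 0) := by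
  obtain ⟨η, hη, hηr, H⟩ := h.stable hp h.d_pos
  refine ⟨η, hη, hηr, fun s hs => ⟨H s hs, ?_⟩⟩
  by_contra hcon
  rw [Metric.tendsto_atTop] at hcon
  push Not at hcon
  obtain ⟨d, hd, hfar⟩ := hcon
  choose j hj hfar using hfar
  obtain ⟨O, hO, hOne, hsw⟩ := sweep h hd j (fun _ => min s s0) (fun _ => max s s0) hj
    (fun _ => min_le_max) (fun _ x hx => mem_I hηr (abs_lt_of_mem hs hx))
    (fun _ i _ x hx => h.ball_sub i (mem_ball.2 (H x (abs_lt_of_mem hs hx) i)))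
    (fun n => by
      rw [dist_min_max fun x => C.it (j n) (β x)]
      simpa using hfar n)
  have hnull : ∀ᶠ q in S.ae, ∀ x ∈ {s | s ∈ Icc (s0 - r) (s0 + r) ∧ S.Per (e s)},
      q ∉ range (S.ev (e x)) :=
    (eventually_countable_ball hc).2 fun x _ => S.null_range (e x)
  refine S.open_pos O hO hOne (mem_of_superset (hp.and hnull) fun q ⟨hF, hq0⟩ hq => ?_)
  have hfin := finite_hits h hF
  have hex : ∃ x ∈ {s | s ∈ Icc (s0 - r) (s0 + r) ∧ ∃ t > 0, S.ev (e s) t = q},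
      ∀ T : ℝ, ∃ t > T, S.ev (e x) t = q := by
    by_contra hno
    push Not at hno
    choose! T hT using hno
    obtain ⟨B, hB⟩ := (hfin.image T).bddAbove
    obtain ⟨-, -, x, hx, t, ht, hq'⟩ := hsw q hq 0 (max B 0)
    have hxm : x ∈ {s | s ∈ Icc (s0 - r) (s0 + r) ∧ ∃ t > 0, S.ev (e s) t = q} :=
      ⟨mem_I hηr (abs_lt_of_mem hs (Ioo_subset_Icc_self hx)), t,
        (le_max_right _ _).trans_lt ht, hq'⟩
    exact hT x hxm t (((hB ⟨x, hxm, rfl⟩).trans (le_max_left _ _)).trans_lt ht) hq'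
  obtain ⟨x, hx, hT⟩ := hex
  obtain ⟨t, -, ht⟩ := hx.2
  exact hq0 x ⟨hx.1, S.per_of_fin hF (h.base x hx.1) hT⟩ ⟨t, ht⟩

end Pool.Agent.GeoFin
end

-- part Pool.Agent.P.MP_365c00_gt.Flow
section

/-!
Existence, uniqueness and smooth dependence for geodesics.
-/

open Set Filter Topology Metric
open scoped Manifold ContDiff

namespace Pool.Agent.GeoFin

variable {M : Type*} [TopologicalSpace M] [ChartedSpace E M] [IsManifold (𝓡 2) ∞ M]

/-- local smooth flow of the geodesic equation in a chart -/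
theorem exists_local_flow (g : Met M) (x : M) {a0 : E} (ha : a0 ∈ (κ x).target) {R : ℝ}
    (hR : 0 < R) : ∃ ε > 0, ∃ r > 0, ∃ Φ : ℝ × (E × E) → E × E, ContDiff ℝ ∞ Φ ∧
      (∀ y, Φ (0, y) = y) ∧ ∀ y ∈ ball a0 r ×ˢ ball (0 : E) R, ∀ t, |t| < ε →
        (Φ (t, y)).1 ∈ (κ x).target ∧
        HasDerivAt (fun s => Φ (s, y)) ((Φ (t, y)).2, acc g x (Φ (t, y))) t := by
  obtain ⟨ρ0, hρ0, hb⟩ := Metric.isOpen_iff.1 (target_open x) a0 ha
  set ρ := ρ0 / 4 with hρ
  have hρ' : 0 < ρ := by positivity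
  have hsub : closedBall a0 (3 * ρ) ⊆ (κ x).target :=
    (closedBall_subset_ball (by rw [hρ]; linarith)).trans hb
  let f1 : ContDiffBump a0 := ⟨2 * ρ, 3 * ρ, by positivity, by linarith⟩
  let f2 : ContDiffBump (0 : E) := ⟨R + 1, R + 2, by positivity, by linarith⟩
  let v : E × E → E × E := fun y => (f1 y.1 * f2 y.2) • (y.2, acc g x y)
  have hv : ContDiff ℝ ∞ v := by
    rw [contDiff_iff_contDiffAt]
    intro y
    by_cases hy : y.1 ∈ (κ x).target
    · refine ContDiffAt.smul (((f1.contDiff.comp contDiff_fst).mul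
        (f2.contDiff.comp contDiff_snd)).contDiffAt) (contDiffAt_snd.prodMk ?_)
      exact (acc_smooth g x).contDiffAt
        (((target_open x).prod isOpen_univ).mem_nhds ⟨hy, mem_univ _⟩)
    · have h1 : y.1 ∉ tsupport f1 := by
        rw [f1.tsupport_eq]; exact fun h => hy (hsub h)
      have h2 : (fun z : E × E => f1 z.1) =ᶠ[𝓝 y] fun _ => 0 :=
        continuous_fst.continuousAt.eventually (notMem_tsupport_iff_eventuallyEq.1 h1)
      refine (contDiffAt_const (c := (0 : E × E))).congr_of_eventuallyEq ?_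
      filter_upwards [h2] with z hz
      simp only [v, hz, zero_mul, zero_smul]
  have hc : HasCompactSupport v := by
    refine HasCompactSupport.intro ((isCompact_closedBall a0 (3 * ρ)).prod
      (isCompact_closedBall (0 : E) (R + 2))) fun y hy => ?_
    rw [mem_prod, not_and_or, mem_closedBall, mem_closedBall, not_le, not_le] at hy
    rcases hy with hy | hy
    · simp only [v, f1.zero_of_le_dist hy.le, zero_mul, zero_smul]
    · simp only [v, f2.zero_of_le_dist hy.le, mul_zero, zero_smul]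
  obtain ⟨P, hP, h0, hd, -⟩ := Lib.Flow.exists_flow_of_hasCompactSupport (n := ⊤) (by simp) v hv hc
  have hU : IsOpen (ball a0 (2 * ρ) ×ˢ ball (0 : E) (R + 1)) := isOpen_ball.prod isOpen_ball
  have key : ∀ᶠ t in 𝓝 (0 : ℝ), ∀ y ∈ closedBall a0 ρ ×ˢ closedBall (0 : E) R,
      P (t, y) ∈ ball a0 (2 * ρ) ×ˢ ball (0 : E) (R + 1) := by
    refine ((isCompact_closedBall a0 ρ).prod
      (isCompact_closedBall (0 : E) R)).eventually_forall_of_forall_eventually fun y hy => ?_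
    refine hP.continuous.continuousAt.eventually_mem (hU.mem_nhds ?_)
    rw [h0]
    exact ⟨closedBall_subset_ball (by linarith) hy.1, closedBall_subset_ball (by linarith) hy.2⟩
  obtain ⟨ε, hε, hk⟩ := Metric.eventually_nhds_iff.1 key
  refine ⟨ε, hε, ρ, hρ', P, hP, h0, fun y hy t ht => ?_⟩
  have hm := hk (y := t) (by simpa [Real.dist_eq] using ht) y
    ⟨ball_subset_closedBall hy.1, ball_subset_closedBall hy.2⟩
  refine ⟨hsub (ball_subset_closedBall (ball_subset_ball (by linarith) hm.1)), ?_⟩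
  have := hd t y
  simp only [v, f1.one_of_mem_closedBall (ball_subset_closedBall hm.1),
    f2.one_of_mem_closedBall (ball_subset_closedBall hm.2), mul_one, one_smul] at this
  exact this

namespace FlowX

theorem cont {g : Met M} {γ : ℝ → M} {t : ℝ} (h : GeoAt g γ t) : ContinuousAt γ t :=
  h.1.self_of_nhds.continuousAt

/-- the geodesic given by a solution in a chart -/
theorem loc_geo {g : Met M} {x : M} {ε : ℝ} {Φ : ℝ × (E × E) → E × E} (hΦ : ContDiff ℝ ∞ Φ)
    (h0 : ∀ y, Φ (0, y) = y) {y : E × E}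
    (h : ∀ t, |t| < ε → (Φ (t, y)).1 ∈ (κ x).target ∧
      HasDerivAt (fun s => Φ (s, y)) ((Φ (t, y)).2, acc g x (Φ (t, y))) t) (hε : 0 < ε) (t1 : ℝ) :
    (∀ t ∈ Ioo (t1 - ε) (t1 + ε), GeoAt g (fun s => (κ x).symm (Φ (s - t1, y)).1) t) ∧
      (κ x).symm (Φ (t1 - t1, y)).1 = (κ x).symm y.1 ∧
      vel x (fun s => (κ x).symm (Φ (s - t1, y)).1) t1 = y.2 := by
  set Y : ℝ → E × E := fun s => Φ (s - t1, y) with hY
  have hm : ∀ t ∈ Ioo (t1 - ε) (t1 + ε), |t - t1| < ε := fun t ht =>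
    abs_lt.2 ⟨by linarith [ht.1], by linarith [ht.2]⟩
  have hd : ∀ t ∈ Ioo (t1 - ε) (t1 + ε), HasDerivAt Y ((Y t).2, acc g x (Y t)) t := fun t ht =>
    HasDerivAt.comp_sub_const t t1 (h _ (hm t ht)).2
  have hd1 : ∀ t ∈ Ioo (t1 - ε) (t1 + ε), deriv (fun s => (Y s).1) t = (Y t).2 := fun t ht =>
    ((ContinuousLinearMap.fst ℝ E E).hasFDerivAt.comp_hasDerivAt t (hd t ht)).deriv
  have hs : ContDiff ℝ ∞ fun s => (Y s).1 :=
    (hΦ.comp ((contDiff_id.sub contDiff_const).prodMk contDiff_const)).fst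
  have ht1 : t1 ∈ Ioo (t1 - ε) (t1 + ε) := ⟨by linarith, by linarith⟩
  refine ⟨fun t ht => ?_, by rw [sub_self, h0], ?_⟩
  · refine geoAt_of_chart g (c := fun s => (Y s).1) (Eventually.of_forall fun s => hs.contDiffAt)
      (h _ (hm t ht)).1 ?_
    rw [hd1 t ht]
    refine HasDerivAt.congr_of_eventuallyEq
      ((ContinuousLinearMap.snd ℝ E E).hasFDerivAt.comp_hasDerivAt t (hd t ht)) ?_
    filter_upwards [isOpen_Ioo.mem_nhds ht] with s hs using hd1 s hs
  · have e : (κ x ∘ fun s => (κ x).symm (Φ (s - t1, y)).1) =ᶠ[𝓝 t1] fun s => (Y s).1 := by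
      filter_upwards [isOpen_Ioo.mem_nhds ht1] with s hs
      exact (κ x).right_inv (h _ (hm s hs)).1
    rw [vel, e.deriv_eq, hd1 t1 ht1]
    simp only [hY, sub_self, h0]

omit [IsManifold (𝓡 2) ∞ M] in
theorem vel_congr {γ γ' : ℝ → M} {t : ℝ} (h : γ =ᶠ[𝓝 t] γ') (x : M) : vel x γ t = vel x γ' t :=
  (h.fun_comp (κ x)).deriv_eq

theorem loc_unique {g : Met M} {γ γ' : ℝ → M} {t : ℝ} (h : ∀ᶠ s in 𝓝 t, GeoAt g γ s)
    (h' : ∀ᶠ s in 𝓝 t, GeoAt g γ' s) {x : M} (hx : γ t ∈ (κ x).source) (h0 : γ t = γ' t)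
    (h1 : vel x γ t = vel x γ' t) : γ =ᶠ[𝓝 t] γ' := by
  have hv : ContDiffAt ℝ 1 (fun y : E × E => (y.2, acc g x y)) (κ x (γ t), vel x γ t) :=
    contDiffAt_snd.prodMk (((acc_smooth g x).contDiffAt
      (((target_open x).prod isOpen_univ).mem_nhds
        ⟨(κ x).map_source hx, mem_univ _⟩)).of_le (by simp))
  obtain ⟨K, W, hW, hK⟩ := hv.exists_lipschitzOnWith
  have key : ∀ c : ℝ → M, (∀ᶠ s in 𝓝 t, GeoAt g c s) → c t ∈ (κ x).source →
      W ∈ 𝓝 (κ x (c t), vel x c t) → ∀ᶠ s in 𝓝 t, c s ∈ (κ x).source ∧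
        HasDerivAt (fun s => (κ x (c s), vel x c s))
          (vel x c s, acc g x (κ x (c s), vel x c s)) s ∧ (κ x (c s), vel x c s) ∈ W := by
    intro c hc hcx hcW
    have h2 := hc.self_of_nhds
    filter_upwards [hc, (cont h2).eventually_mem ((source_open x).mem_nhds hcx),
      ((h2.hasDerivAt hcx).prodMk (h2.2 x hcx)).continuousAt.eventually_mem hcW] with s a b d
    exact ⟨b, (a.hasDerivAt b).prodMk (a.2 x b), d⟩
  have k1 := key γ h hx hW
  have k2 := key γ' h' (h0 ▸ hx) (by rwa [← h0, ← h1])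
  have e := ODE_solution_unique_of_eventually (v := fun _ (y : E × E) => (y.2, acc g x y))
    (s := fun _ => W) (K := K) (f := fun s => (κ x (γ s), vel x γ s))
    (g := fun s => (κ x (γ' s), vel x γ' s)) (Eventually.of_forall fun _ => hK)
    (k1.mono fun s hs => hs.2) (k2.mono fun s hs => hs.2) (by simp only [h0, h1])
  filter_upwards [k1, k2, e] with s a b c
  exact (κ x).injOn a.1 b.1 (congrArg Prod.fst c)

end FlowX

open FlowX

variable [T2Space M]

theorem geo_unique_on {g : Met M} {γ γ' : ℝ → M} {a b t0 : ℝ} (ht : t0 ∈ Ioo a b)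
    (h : ∀ t ∈ Ioo a b, GeoAt g γ t) (h' : ∀ t ∈ Ioo a b, GeoAt g γ' t) {x : M}
    (hx : γ t0 ∈ (κ x).source) (h0 : γ t0 = γ' t0) (h1 : vel x γ t0 = vel x γ' t0) :
    EqOn γ γ' (Ioo a b) := by
  have ev : ∀ {c : ℝ → M}, (∀ t ∈ Ioo a b, GeoAt g c t) → ∀ t ∈ Ioo a b,
      ∀ᶠ s in 𝓝 t, GeoAt g c s := fun hc t ht =>
    mem_of_superset (isOpen_Ioo.mem_nhds ht) hc
  have key : Ioo a b ⊆ {t | ∀ᶠ s in 𝓝 t, γ s = γ' s} := by
    refine isPreconnected_Ioo.subset_of_closure_inter_subset isOpen_setOfPred_eventually_nhds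
      ⟨t0, ht, loc_unique (ev h t0 ht) (ev h' t0 ht) hx h0 h1⟩ ?_
    rintro t ⟨hc, hm⟩
    have fr := mem_closure_iff_frequently.1 hc
    have e0 : γ t = γ' t := tendsto_nhds_unique_of_frequently_eq (cont (h t hm)) (cont (h' t hm))
      (fr.mono fun s hs => hs.self_of_nhds)
    have hs : γ t ∈ (κ (γ t)).source := mem_extChartAt_source _
    refine loc_unique (ev h t hm) (ev h' t hm) hs e0 ?_
    exact tendsto_nhds_unique_of_frequently_eq ((h t hm).2 _ hs).continuousAt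
      ((h' t hm).2 _ (e0 ▸ hs)).continuousAt (fr.mono fun s hs => vel_congr hs _)
  exact fun t ht => (key ht).self_of_nhds

theorem geo_unique {g : Met M} {γ γ' : ℝ → M} (h : IsGeodesic g γ) (h' : IsGeodesic g γ')
    {t0 : ℝ} {x : M} (hx : γ t0 ∈ (κ x).source) (h0 : γ t0 = γ' t0)
    (h1 : vel x γ t0 = vel x γ' t0) : γ = γ' := by
  rw [isGeodesic_iff] at h h'
  funext t
  exact geo_unique_on (a := min t t0 - 1) (b := max t t0 + 1)
    ⟨by linarith [min_le_right t t0], by linarith [le_max_right t t0]⟩ (fun s _ => h s)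
    (fun s _ => h' s) hx h0 h1 ⟨by linarith [min_le_left t t0], by linarith [le_max_left t t0]⟩

namespace FlowX

theorem glue {g : Met M} {γ δ : ℝ → M} {a b c d t : ℝ} (ht : t ∈ Ioo a b) (ht' : t ∈ Ioo c d)
    (h : ∀ s ∈ Ioo a b, GeoAt g γ s) (h' : ∀ s ∈ Ioo c d, GeoAt g δ s) {x : M}
    (hx : γ t ∈ (κ x).source) (h0 : γ t = δ t) (h1 : vel x γ t = vel x δ t) :
    ∃ η : ℝ → M, (∀ s ∈ Ioo (min a c) (max b d), GeoAt g η s) ∧ EqOn η γ (Ioo a b) := by
  classical
  have e : EqOn γ δ (Ioo (max a c) (min b d)) :=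
    geo_unique_on ⟨max_lt ht.1 ht'.1, lt_min ht.2 ht'.2⟩
      (fun s hs => h s ⟨(max_lt_iff.1 hs.1).1, (lt_min_iff.1 hs.2).1⟩)
      (fun s hs => h' s ⟨(max_lt_iff.1 hs.1).2, (lt_min_iff.1 hs.2).2⟩) hx h0 h1
  refine ⟨fun s => if s ∈ Ioo a b then γ s else δ s, fun s hs => ?_, fun s hs => if_pos hs⟩
  by_cases h2 : s ∈ Ioo a b
  · refine (h s h2).congr ?_
    filter_upwards [isOpen_Ioo.mem_nhds h2] with u hu using if_pos hu
  have h3 : s ∈ Ioo c d := by
    rw [mem_Ioo, not_and_or, not_lt, not_lt] at h2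
    rcases h2 with h2 | h2
    · exact ⟨(min_lt_iff.1 hs.1).resolve_left (not_lt.2 h2), by linarith [ht.1, ht'.2]⟩
    · exact ⟨by linarith [ht.2, ht'.1], (lt_max_iff.1 hs.2).resolve_left (not_lt.2 h2)⟩
  refine (h' s h3).congr ?_
  filter_upwards [isOpen_Ioo.mem_nhds h3] with u hu
  split_ifs with h4
  · exact e ⟨max_lt h4.1 hu.1, lt_min h4.2 hu.2⟩
  · rfl

omit [T2Space M] in
theorem energy_const {g : Met M} {γ : ℝ → M} {a b : ℝ} (h : ∀ s ∈ Ioo a b, GeoAt g γ s) {s t : ℝ}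
    (hs : s ∈ Ioo a b) (ht : t ∈ Ioo a b) : energy g γ s = energy g γ t := by
  have hd : ∀ u ∈ Ioo a b, HasDerivAt (energy g γ) 0 u := fun u hu =>
    hasDerivAt_energy (mem_of_superset (isOpen_Ioo.mem_nhds hu) h)
  exact isOpen_Ioo.is_const_of_deriv_eq_zero isPreconnected_Ioo
    (fun u hu => (hd u hu).differentiableAt.differentiableWithinAt) (fun u hu => (hd u hu).deriv)
    hs ht

omit [T2Space M] in
/-- a uniform time of existence for bounded energy -/
theorem uniform [CompactSpace M] (g : Met M) (e : ℝ) : ∃ ε > 0, ∀ (γ : ℝ → M) (t : ℝ),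
    GeoAt g γ t → energy g γ t ≤ e → ∃ (x : M) (δ : ℝ → M), γ t ∈ (κ x).source ∧
      (∀ s ∈ Ioo (t - ε) (t + ε), GeoAt g δ s) ∧ γ t = δ t ∧ vel x γ t = vel x δ t := by
  have key : ∀ q : M, ∃ ε > 0, ∀ᶠ p in 𝓝 q, ∀ ε' ∈ Ioc 0 ε, ∀ (γ : ℝ → M) (t : ℝ), γ t = p →
      GeoAt g γ t → energy g γ t ≤ e → ∃ (x : M) (δ : ℝ → M), γ t ∈ (κ x).source ∧
        (∀ s ∈ Ioo (t - ε') (t + ε'), GeoAt g δ s) ∧ γ t = δ t ∧ vel x γ t = vel x δ t := by
    intro q
    have hq : κ q q ∈ (κ q).target := mem_extChartAt_target q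
    obtain ⟨r0, hr0, hb⟩ := Metric.nhds_basis_closedBall.mem_iff.1 ((target_open q).mem_nhds hq)
    obtain ⟨l, hl, hco⟩ := G_coercive g q (isCompact_closedBall _ r0) hb
    obtain ⟨ε, hε, r, hr, Φ, hΦ, h0, hf⟩ := exists_local_flow g q hq
      (R := |e| / l + 1) (by positivity)
    refine ⟨ε, hε, ?_⟩
    filter_upwards [extChartAt_source_mem_nhds (I := 𝓡 2) q,
      (continuousAt_extChartAt (I := 𝓡 2) q).eventually_mem (ball_mem_nhds _ hr),
      (continuousAt_extChartAt (I := 𝓡 2) q).eventually_mem (closedBall_mem_nhds _ hr0)]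
      with p p1 p2 p3 ε' hε' γ t hp hg he
    subst hp
    have hV : vel q γ t ∈ ball (0 : E) (|e| / l + 1) := by
      have h1 := hco _ p3 (vel q γ t)
      rw [← energy_eq hg p1] at h1
      have h2 : ‖vel q γ t‖ ^ 2 ≤ |e| / l := by
        rw [le_div_iff₀ hl]; linarith [le_abs_self e]
      rw [mem_ball_zero_iff]
      nlinarith [sq_nonneg (‖vel q γ t‖ - 1 / 2)]
    obtain ⟨a, b, c⟩ := loc_geo hΦ h0 (hf (κ q (γ t), vel q γ t) ⟨p2, hV⟩) hε t
    exact ⟨q, _, p1, fun s hs => a s ⟨by linarith [hs.1, hε'.2], by linarith [hs.2, hε'.2]⟩,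
      by rw [b, (κ q).left_inv p1], c.symm⟩
  choose ε hε hU using key
  obtain ⟨T, hT⟩ := CompactSpace.elim_nhds_subcover _ hU
  have : ∀ᶠ ε' in 𝓝[>] (0 : ℝ), ∀ q ∈ T, ε' ∈ Ioc 0 (ε q) :=
    (eventually_all_finset T).2 fun q _ => Ioc_mem_nhdsGT (hε q)
  obtain ⟨ε', h1, h2⟩ := (this.and self_mem_nhdsWithin).exists
  refine ⟨ε', h2, fun γ t => ?_⟩
  obtain ⟨q, hq, hp⟩ := mem_iUnion₂.1 (hT.ge (mem_univ (γ t)))
  exact hp ε' (h1 q hq) γ t rfl

end FlowX

variable [CompactSpace M]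

theorem exists_geo (g : Met M) (x : M) (y : E × E) : ∃ γ : ℝ → M, y.1 ∈ (κ x).target →
    IsGeodesic g γ ∧ γ 0 = (κ x).symm y.1 ∧ vel x γ 0 = y.2 := by
  by_cases hy : y.1 ∈ (κ x).target
  swap
  · exact ⟨fun _ => x, fun h => absurd h hy⟩
  let Q : ℝ → ℝ → (ℝ → M) → Prop := fun a b γ =>
    (∀ s ∈ Ioo a b, GeoAt g γ s) ∧ γ 0 = (κ x).symm y.1 ∧ vel x γ 0 = y.2
  have hsrc : (κ x).symm y.1 ∈ (κ x).source := (κ x).map_target hy
  obtain ⟨ε, hε, hU⟩ := uniform g (G g x y.1 y.2 y.2)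
  have step : ∀ a b γ, (0 : ℝ) ∈ Ioo a b → Q a b γ → ∀ t ∈ Ioo a b,
      ∃ η, Q (min a (t - ε)) (max b (t + ε)) η := by
    rintro a b γ h0 ⟨h1, h2, h3⟩ t ht
    obtain ⟨q, δ, d1, d2, d3, d4⟩ := hU γ t (h1 t ht) (by
      rw [energy_const h1 ht h0, energy_eq (h1 0 h0) (h2 ▸ hsrc), h2, h3, (κ x).right_inv hy])
    obtain ⟨η, e1, e2⟩ := glue ht ⟨by linarith, by linarith⟩ h1 d2 d1 d3 d4
    exact ⟨η, e1, (e2 h0).trans h2,
      (vel_congr (e2.eventuallyEq_of_mem (isOpen_Ioo.mem_nhds h0)) x).trans h3⟩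
  have mono : ∀ a b a' b' γ, Q a b γ → a ≤ a' → b' ≤ b → Q a' b' γ :=
    fun a b a' b' γ h ha hb => ⟨fun s hs => h.1 s (Ioo_subset_Ioo ha hb hs), h.2⟩
  obtain ⟨T, hT, r, hr, Φ, hΦ, h0, hf⟩ := exists_local_flow g x hy (R := ‖y.2‖ + 1)
    (by positivity)
  have ind : ∀ n : ℕ, ∃ γ, Q (-(T + n * (ε / 2))) (T + n * (ε / 2)) γ := by
    intro n
    induction n with
    | zero =>
      obtain ⟨a, b, c⟩ := loc_geo hΦ h0 (hf y ⟨mem_ball_self hr, by simp⟩) hT 0
      exact ⟨_, fun s hs => a s (by simpa using hs), b, c⟩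
    | succ n ih =>
      obtain ⟨γ, hγ⟩ := ih
      have hS : 0 < T + n * (ε / 2) := by positivity
      generalize hS' : T + n * (ε / 2) = S at hγ hS
      have e : T + ((n + 1 : ℕ) : ℝ) * (ε / 2) = S + ε / 2 := by rw [← hS']; push_cast; ring
      have h1 : max 0 (S - ε / 2) < S := max_lt hS (by linarith)
      have h2 := le_max_left 0 (S - ε / 2)
      have h3 := le_max_right 0 (S - ε / 2)
      generalize max 0 (S - ε / 2) = t at h1 h2 h3
      obtain ⟨η, hη⟩ := step _ _ γ ⟨by linarith, hS⟩ hγ t ⟨by linarith, h1⟩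
      have hη' := mono _ _ (-S) (S + ε / 2) η hη (min_le_left _ _)
        (le_max_of_le_right (by linarith))
      obtain ⟨ζ, hζ⟩ := step _ _ η ⟨by linarith, by linarith⟩ hη' (-t) ⟨by linarith, by linarith⟩
      rw [e]
      exact ⟨ζ, mono _ _ _ _ ζ hζ (min_le_of_right_le (by linarith)) (le_max_left _ _)⟩
  have all : ∀ S : ℝ, ∃ γ, Q (-S) S γ := by
    intro S
    obtain ⟨n, hn⟩ := exists_nat_ge (S / (ε / 2))
    rw [div_le_iff₀ (by positivity)] at hn
    obtain ⟨γ, hγ⟩ := ind n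
    exact ⟨γ, mono _ _ _ _ γ hγ (by linarith) (by linarith)⟩
  choose c hc using all
  have agree : ∀ S t, |t| < S → c (|t| + 1) t = c S t := by
    intro S t ht
    have h1 : 0 < min S (|t| + 1) := lt_min ((abs_nonneg t).trans_lt ht) (by positivity)
    have h2 : |t| < min S (|t| + 1) := lt_min ht (by linarith)
    have q1 := mono _ _ _ _ _ (hc S) (neg_le_neg (min_le_left S (|t| + 1)))
      (min_le_left S (|t| + 1))
    have q2 := mono _ _ _ _ _ (hc (|t| + 1)) (neg_le_neg (min_le_right S (|t| + 1)))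
      (min_le_right S (|t| + 1))
    exact geo_unique_on (t0 := 0) ⟨by linarith, h1⟩ q2.1 q1.1 (x := x) (by rw [q2.2.1]; exact hsrc)
      (q2.2.1.trans q1.2.1.symm) (q2.2.2.trans q1.2.2.symm) (abs_lt.1 h2)
  have ev : ∀ t, (fun s => c (|s| + 1) s) =ᶠ[𝓝 t] c (|t| + 1) := by
    intro t
    filter_upwards [continuous_abs.continuousAt.eventually_lt continuousAt_const
      (show |t| < |t| + 1 by linarith)] with s hs using agree _ s hs
  refine ⟨fun s => c (|s| + 1) s, fun _ => ⟨(isGeodesic_iff _ _).2 fun t => ?_, (hc _).2.1,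
    (vel_congr (ev 0) x).trans (hc _).2.2⟩⟩
  exact ((hc _).1 t (abs_lt.1 (by linarith))).congr (ev t)

/-- the geodesic with initial point and velocity `y` in the chart at `x` -/
noncomputable def geo (g : Met M) (x : M) (y : E × E) : ℝ → M := (exists_geo g x y).choose

theorem geo_spec (g : Met M) (x : M) {y : E × E} (hy : y.1 ∈ (κ x).target) :
    IsGeodesic g (geo g x y) ∧ geo g x y 0 = (κ x).symm y.1 ∧ vel x (geo g x y) 0 = y.2 :=
  (exists_geo g x y).choose_spec hy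

theorem geo_smooth (g : Met M) (x : M) {y : E × E} (hy : y.1 ∈ (κ x).target) (t : ℝ) :
    ContMDiffAt 𝓘(ℝ, (E × E) × ℝ) (𝓡 2) ∞ (fun z : (E × E) × ℝ => geo g x z.1 z.2) (y, t) := by
  let Γ : (E × E) × ℝ → M := fun z => geo g x z.1 z.2
  have hyt : ∀ᶠ y' in 𝓝 y, y'.1 ∈ (κ x).target :=
    continuous_fst.continuousAt.eventually_mem ((target_open x).mem_nhds hy)
  have prop : ∀ (q : M) (t1 ε : ℝ) (Φ : ℝ × (E × E) → E × E) (W : E × E → E × E)
      (B : Set (E × E)), 0 < ε → IsOpen B → ContDiff ℝ ∞ Φ → (∀ y, Φ (0, y) = y) →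
      (∀ y ∈ B, ∀ t, |t| < ε → (Φ (t, y)).1 ∈ (κ q).target ∧
        HasDerivAt (fun s => Φ (s, y)) ((Φ (t, y)).2, acc g q (Φ (t, y))) t) → W y ∈ B →
      (∀ᶠ y' in 𝓝 y, ContDiffAt ℝ ∞ W y' ∧ geo g x y' t1 ∈ (κ q).source ∧
        κ q (geo g x y' t1) = (W y').1 ∧ vel q (geo g x y') t1 = (W y').2) →
      ∀ t ∈ Ioo (t1 - ε) (t1 + ε),
        ∀ᶠ z in 𝓝 (y, t), ContMDiffAt 𝓘(ℝ, (E × E) × ℝ) (𝓡 2) ∞ Γ z := by
    intro q t1 ε Φ W B hε hB hΦ h0 hf hy' hW t ht
    have e1 : ∀ᶠ z in 𝓝 (y, t), ContDiffAt ℝ ∞ W z.1 ∧ (Φ (z.2 - t1, W z.1)).1 ∈ (κ q).target ∧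
        Γ z = (κ q).symm (Φ (z.2 - t1, W z.1)).1 := by
      filter_upwards [(continuous_fst.tendsto (y, t)).eventually (hW.and (hyt.and
        (hW.self_of_nhds.1.continuousAt.eventually_mem (hB.mem_nhds hy')))),
        continuous_snd.continuousAt.eventually_mem (x := (y, t)) (isOpen_Ioo.mem_nhds ht)]
        with z ⟨⟨a1, a2, a3, a4⟩, a5, a6⟩ b
      obtain ⟨c1, c2, c3⟩ := loc_geo hΦ h0 (hf _ a6) hε t1
      refine ⟨a1, (hf _ a6 _ (abs_lt.2 ⟨by linarith [b.1], by linarith [b.2]⟩)).1, ?_⟩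
      exact geo_unique_on (t0 := t1) ⟨by linarith, by linarith⟩
        (fun s _ => (isGeodesic_iff _ _).1 (geo_spec g x a5).1 s) c1 a2
        (by rw [c2, ← a3, (κ q).left_inv a2]) (a4.trans c3.symm) b
    filter_upwards [e1.eventually_nhds] with z hz
    refine (contMDiffAt_symm (n := ⊤) (x := q) (c := fun z : (E × E) × ℝ =>
      (Φ (z.2 - t1, W z.1)).1) ?_ hz.self_of_nhds.2.1).congr_of_eventuallyEq
      (hz.mono fun w hw => hw.2.2)
    exact (hΦ.contDiffAt.comp z ((contDiffAt_snd.sub contDiffAt_const).prodMk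
      (hz.self_of_nhds.1.comp z contDiffAt_fst))).fst
  have key : (univ : Set ℝ) ⊆
      {t | ∀ᶠ z in 𝓝 (y, t), ContMDiffAt 𝓘(ℝ, (E × E) × ℝ) (𝓡 2) ∞ Γ z} := by
    refine isPreconnected_univ.subset_of_closure_inter_subset
      (isOpen_setOfPred_eventually_nhds.preimage (Continuous.prodMk_right y)) ⟨0, mem_univ _, ?_⟩ ?_
    · obtain ⟨ε, hε, r, hr, Φ, hΦ, h0, hf⟩ := exists_local_flow g x hy (R := ‖y.2‖ + 1)
        (by positivity)
      refine prop x 0 ε Φ id _ hε (isOpen_ball.prod isOpen_ball) hΦ h0 hf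
        ⟨mem_ball_self hr, by simp⟩ ?_ 0 ⟨by linarith, by linarith⟩
      filter_upwards [hyt] with y' h
      obtain ⟨-, s2, s3⟩ := geo_spec g x h
      exact ⟨contDiffAt_id, s2 ▸ (κ x).map_target h, by rw [s2, (κ x).right_inv h]; rfl, s3⟩
    rintro t0 ⟨hc, -⟩
    have hg := (isGeodesic_iff _ _).1 (geo_spec g x hy).1 t0
    set q := geo g x y t0 with hq
    have hs : geo g x y t0 ∈ (κ q).source := mem_extChartAt_source q
    obtain ⟨ε, hε, r, hr, Φ, hΦ, h0, hf⟩ := exists_local_flow g q ((κ q).map_source hs)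
      (R := ‖vel q (geo g x y) t0‖ + 1) (by positivity)
    obtain ⟨t1, a0, a1, a2, a3, a4⟩ := ((mem_closure_iff_frequently.1 hc).and_eventually
      (((cont hg).eventually_mem ((source_open q).mem_nhds hs)).and
        (((hg.hasDerivAt hs).continuousAt.eventually_mem (ball_mem_nhds _ hr)).and
          (((hg.2 q hs).continuousAt.eventually_mem (isOpen_ball.mem_nhds
            (show vel q (geo g x y) t0 ∈ ball 0 (‖vel q (geo g x y) t0‖ + 1) by simp))).and
            (Ioo_mem_nhds (show t0 - ε < t0 by linarith) (show t0 < t0 + ε by linarith)))))).exists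
    have a0 : ∀ᶠ z in 𝓝 (y, t1), ContMDiffAt 𝓘(ℝ, (E × E) × ℝ) (𝓡 2) ∞ Γ z := a0
    have hW : ∀ᶠ y' in 𝓝 y, ContDiffAt ℝ ∞
        (fun y' => (κ q (Γ (y', t1)), fderiv ℝ (κ q ∘ Γ) (y', t1) (0, 1))) y' ∧
        geo g x y' t1 ∈ (κ q).source ∧ κ q (geo g x y' t1) = κ q (Γ (y', t1)) ∧
        vel q (geo g x y') t1 = fderiv ℝ (κ q ∘ Γ) (y', t1) (0, 1) := by
      filter_upwards [((Continuous.prodMk_left t1).tendsto y).eventually (a0.and
        (a0.self_of_nhds.continuousAt.eventually_mem ((source_open q).mem_nhds a1)))]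
        with y' ⟨b1, b2⟩
      have b3 : ContDiffAt ℝ ∞ (κ q ∘ Γ) (y', t1) := contDiffAt_chart (n := ⊤) b1 b2
      have b4 : ContDiffAt ℝ ∞ (fun y'' : E × E => (y'', t1)) y' :=
        contDiffAt_id.prodMk contDiffAt_const
      have b5 := ContDiffAt.comp y' (f := fun y'' : E × E => (y'', t1)) b3 b4
      have b6 := ContDiffAt.comp y' (f := fun y'' : E × E => (y'', t1))
        (b3.fderiv_right (m := ∞) (by simp)) b4
      refine ⟨b5.prodMk (b6.clm_apply contDiffAt_const), b2, rfl, ?_⟩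
      exact ((b3.differentiableAt (by simp)).hasFDerivAt.comp_hasDerivAt t1
        ((hasDerivAt_const t1 y').prodMk (hasDerivAt_id t1))).deriv
    refine prop q t1 ε Φ (fun y' => (κ q (Γ (y', t1)), fderiv ℝ (κ q ∘ Γ) (y', t1) (0, 1))) _ hε
      (isOpen_ball.prod isOpen_ball) hΦ h0 hf ⟨a2, ?_⟩ hW t0
      ⟨by linarith [a4.2], by linarith [a4.1]⟩
    have e := hW.self_of_nhds.2.2.2
    rw [e] at a3
    exact a3
  exact (key (mem_univ t)).self_of_nhds

end Pool.Agent.GeoFin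
end

-- part Pool.Agent.P.MP_365c00_gt.Loc
section

/-!
The planar theorem (paper sec. 4).
-/

open Set Filter Topology Metric

namespace Pool.Agent.GeoFin

namespace LocX

open Complex

theorem ineq (X Y e : ℂ) (h1 : ‖Y - X‖ ≤ 1 / 10 * ‖X‖) (h2 : ‖e‖ ≤ 1 / 10 * ‖X‖) :
    ‖X‖ ^ 2 / 2 ≤ Y.im * (X.im + e.re) + Y.re * X.re := by
  have hX := norm_nonneg X
  have h3 : ‖Y‖ ≤ 11 / 10 * ‖X‖ := by
    have := norm_add_le (Y - X) X
    rw [sub_add_cancel] at this
    linarith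
  have h4 : |Y.im * e.re| ≤ 11 / 10 * ‖X‖ * (1 / 10 * ‖X‖) := by
    rw [abs_mul]
    exact mul_le_mul ((abs_im_le_norm Y).trans h3) ((abs_re_le_norm e).trans h2) (abs_nonneg _)
      (by positivity)
  have h5 : |((Y - X) * (starRingEnd ℂ) X).re| ≤ 1 / 10 * ‖X‖ * ‖X‖ := by
    refine (abs_re_le_norm _).trans ?_
    rw [norm_mul, norm_conj]
    exact mul_le_mul_of_nonneg_right h1 hX
  have h6 : ‖X‖ ^ 2 = X.re * X.re + X.im * X.im := by
    rw [Complex.sq_norm, normSq_apply]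
  simp only [mul_re, sub_re, sub_im, conj_re, conj_im] at h5
  have h7 := (abs_le.1 h4).1
  have h8 := (abs_le.1 h5).1
  nlinarith

theorem near_of {F : ℂ → ℂ} {T : ℂ → ℝ} {z0 : ℂ} {R : ℝ} (hR : 0 < R) (hfix : F z0 = z0)
    {D : ℂ → ℂ →L[ℝ] ℂ} {E : ℂ → ℂ →L[ℝ] ℝ} (hF : ∀ w ∈ ball z0 R, HasFDerivAt F (D w) w)
    (hT : ∀ w ∈ ball z0 R, HasFDerivAt T (E w) w)
    (hd : ∀ w ∈ ball z0 R, ‖D w - ContinuousLinearMap.id ℝ ℂ‖ ≤ 1 / 10)
    (hex : ∀ w ∈ ball z0 R, ∀ ξ, E w ξ = (F w).im * (D w ξ).re - w.im * ξ.re) :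
    Near F (fun w => T w - w.im * ((F w).re - w.re)) z0 R := by
  have lip : ∀ z ∈ ball z0 R, ∀ z' ∈ ball z0 R,
      ‖(F z - z) - (F z' - z')‖ ≤ 1 / 10 * ‖z - z'‖ := fun z hz z' hz' =>
    (convex_ball z0 R).norm_image_sub_le_of_norm_hasFDerivWithin_le (f := fun w => F w - w)
      (fun w hw => ((hF w hw).fun_sub (hasFDerivAt_id w)).hasFDerivWithinAt) hd hz' hz
  have hH : ∀ w ∈ ball z0 R, ∃ G : ℂ →L[ℝ] ℝ,
      HasFDerivAt (fun w => T w - w.im * ((F w).re - w.re)) G w ∧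
      ∀ ξ, G ξ = (F w - w).im * (D w ξ).re - (F w - w).re * ξ.im := by
    intro w hw
    refine ⟨_, (hT w hw).fun_sub ((imCLM.hasFDerivAt (x := w)).fun_mul
      ((reCLM.hasFDerivAt.comp w (hF w hw)).fun_sub (reCLM.hasFDerivAt (x := w)))), fun ξ => ?_⟩
    simp [hex w hw]
    ring
  have main : ∀ c : ℝ, c * c = 1 → ∀ z ∈ closedBall z0 (R / 2), ∀ h ∈ Icc (0 : ℝ) 1,
      c * (T z - z.im * ((F z).re - z.re)) + h * ‖F z - z‖ ^ 2 / 2 ≤
        c * (T (z + h • (c • (-I * (F z - z)))) - (z + h • (c • (-I * (F z - z)))).im *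
          ((F (z + h • (c • (-I * (F z - z))))).re - (z + h • (c • (-I * (F z - z)))).re)) := by
    intro c hc z hz h hh
    have hc1 : |c| = 1 := by
      rcases mul_self_eq_one_iff.1 hc with h | h <;> simp [h]
    have hz1 : ‖z - z0‖ ≤ R / 2 := by rwa [mem_closedBall, dist_eq_norm] at hz
    have hzb : z ∈ ball z0 R := by rw [mem_ball, dist_eq_norm]; linarith
    set X := F z - z with hX
    have hXn : ‖X‖ ≤ 1 / 10 * ‖z - z0‖ := by
      have := lip z hzb z0 (mem_ball_self hR)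
      rwa [hfix, sub_self, sub_zero] at this
    have hn : ∀ t ∈ Icc (0 : ℝ) 1, ‖t • (c • (-I * X))‖ ≤ ‖X‖ := by
      intro t ht
      rw [norm_smul, norm_smul, norm_mul, norm_neg, norm_I, one_mul, Real.norm_eq_abs c, hc1,
        one_mul, Real.norm_of_nonneg ht.1]
      exact mul_le_of_le_one_left (norm_nonneg _) ht.2
    have hm : ∀ t ∈ Icc (0 : ℝ) 1, z + t • (c • (-I * X)) ∈ ball z0 R := by
      intro t ht
      rw [mem_ball, dist_eq_norm, add_sub_right_comm]
      have := norm_add_le (z - z0) (t • (c • (-I * X)))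
      linarith [hn t ht]
    have hder : ∀ t ∈ Icc (0 : ℝ) 1, ∃ d : ℝ, 0 ≤ d ∧ HasDerivAt (fun t : ℝ =>
        c * (T (z + t • (c • (-I * X))) - (z + t • (c • (-I * X))).im *
          ((F (z + t • (c • (-I * X)))).re - (z + t • (c • (-I * X))).re)) -
          t * ‖X‖ ^ 2 / 2) d t := by
      intro t ht
      obtain ⟨G, hG, hG'⟩ := hH _ (hm t ht)
      have h1 : HasDerivAt (fun t : ℝ => z + t • (c • (-I * X))) (c • (-I * X)) t := by
        simpa using ((hasDerivAt_id' t).smul_const (c • (-I * X))).const_add z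
      refine ⟨_, ?_, ((hG.comp_hasDerivAt t h1).const_mul c).fun_sub
        (((hasDerivAt_id' t).mul_const (‖X‖ ^ 2)).div_const 2)⟩
      set m := z + t • (c • (-I * X)) with hmd
      have h2 := ineq X (F m - m) ((D m - ContinuousLinearMap.id ℝ ℂ) (-I * X))
        ((lip m (hm t ht) z hzb).trans (by
          rw [hmd, add_sub_cancel_left]; linarith [hn t ht]))
        (((D m - ContinuousLinearMap.id ℝ ℂ).le_opNorm _).trans (by
          rw [norm_mul, norm_neg, norm_I, one_mul]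
          exact mul_le_mul_of_nonneg_right (hd m (hm t ht)) (norm_nonneg _)))
      rw [map_smul, smul_eq_mul, ← mul_assoc, hc, one_mul, hG']
      have h3 : X.im + ((D m - ContinuousLinearMap.id ℝ ℂ) (-I * X)).re = (D m (-I * X)).re := by
        simp
      have h4 : (-I * X).im = -X.re := by simp
      rw [h3] at h2
      rw [h4]
      linarith
    choose! d hd0 hdd using hder
    have hmono := monotoneOn_of_deriv_nonneg (convex_Icc (0 : ℝ) 1)
      (fun t ht => (hdd t ht).continuousAt.continuousWithinAt)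
      (fun t ht => (hdd t (interior_subset ht)).differentiableAt.differentiableWithinAt)
      (fun t ht => by rw [(hdd t (interior_subset ht)).deriv]; exact hd0 t (interior_subset ht))
      (left_mem_Icc.2 zero_le_one) hh hh.1
    simp only [zero_smul, add_zero, zero_mul, zero_div, sub_zero] at hmono
    linarith
  refine ⟨hR, hfix, lip, fun w hw => ?_, fun z hz h hh => ?_, fun z hz h hh => ?_⟩
  · obtain ⟨G, hG, -⟩ := hH w hw
    exact hG.continuousAt.continuousWithinAt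
  · have h1 := main 1 (by norm_num) z hz h hh
    have e : z + h • ((1 : ℝ) • (-I * (F z - z))) = z - I * h * (F z - z) := by
      simp only [real_smul]; push_cast; ring
    rw [e] at h1
    linarith
  · have h1 := main (-1) (by norm_num) z hz h hh
    have e : z + h • ((-1 : ℝ) • (-I * (F z - z))) = z + I * h * (F z - z) := by
      simp only [real_smul]; push_cast; ring
    rw [e] at h1
    linarith

theorem exists_LM {l : ℝ} (hl : 0 < l) : ∃ (L : ℂ →L[ℝ] ℝ × ℝ) (M : ℝ × ℝ →L[ℝ] ℂ),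
    (∀ w, L w = (l * w.re, w.im / l)) ∧ (∀ z, (M z).re = z.1 / l) ∧ (∀ z, (M z).im = l * z.2) ∧
      (∀ w, M (L w) = w) ∧ ∀ z, L (M z) = z := by
  refine ⟨(l • reCLM).prod (l⁻¹ • imCLM),
    (equivRealProdCLM.symm : ℝ × ℝ →L[ℝ] ℂ).comp
      ((l⁻¹ • ContinuousLinearMap.fst ℝ ℝ ℝ).prod (l • ContinuousLinearMap.snd ℝ ℝ ℝ)),
    fun w => ?_, fun z => ?_, fun z => ?_, fun w => ?_, fun z => ?_⟩
  · simp [div_eq_inv_mul]
  · rw [div_eq_inv_mul]; simp [equivRealProdCLM_symm_apply]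
  · simp [equivRealProdCLM_symm_apply]
  · apply Complex.ext <;> simp [equivRealProdCLM_symm_apply, hl.ne']
  · apply Prod.ext <;> simp [equivRealProdCLM_symm_apply, hl.ne']

theorem line {g : ℝ × ℝ → ℝ × ℝ} {s : ℝ} (hg : DifferentiableAt ℝ g (0, s))
    (hacc : ∃ᶠ t in 𝓝[≠] s, g (0, t) = (0, t)) : fderiv ℝ g (0, s) (0, 1) = (0, 1) := by
  have h1 : HasDerivAt (fun t : ℝ => ((0, t) : ℝ × ℝ)) (0, 1) s :=
    (hasDerivAt_const s 0).prodMk (hasDerivAt_id' s)
  have h2 := (hg.hasFDerivAt.comp_hasDerivAt s h1).fun_sub h1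
  by_contra h
  refine hacc ?_
  filter_upwards [h2.eventually_ne (c := 0) (sub_ne_zero.2 h)] with t ht
  exact fun h' => ht (sub_eq_zero.2 h')

theorem fixed {f : ℝ × ℝ → ℝ × ℝ} {T : ℝ × ℝ → ℝ} {U : Set (ℝ × ℝ)} {η0 r0 : ℝ} (hU : IsOpen U)
    (h0 : (0, η0) ∈ U) (hf : ContDiffOn ℝ 2 f U) (hT : ContDiffOn ℝ 2 T U)
    (hex : ∀ z ∈ U, ∀ ξ : ℝ × ℝ, fderiv ℝ T z ξ = (f z).2 * (fderiv ℝ f z ξ).1 - z.2 * ξ.1)
    (hfix : f (0, η0) = (0, η0)) (hacc : ∃ᶠ s in 𝓝[≠] η0, f (0, s) = (0, s)) (hr : 0 < r0)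
    (heq : ∀ s, |s - η0| < r0 → ∀ d > 0, ∃ η > 0, ∀ s', |s' - s| < η →
      ∀ i, dist (f^[i] (0, s')) (f^[i] (0, s)) < d)
    (hdense : ∀ s, |s - η0| < r0 → ∀ η > 0, ∃ s', |s' - s| < η ∧
      ∃ k > 0, f^[k] (0, s') = (0, s')) :
    ∃ ρ > 0, ∀ s, |s - η0| < ρ → ∀ k > 0, f^[k] (0, s) = (0, s) → f (0, s) = (0, s) := by
  have hfd : ∀ z ∈ U, DifferentiableAt ℝ f z := fun z hz =>
    (hf.contDiffAt (hU.mem_nhds hz)).differentiableAt (by norm_num)
  have hTd : ∀ z ∈ U, DifferentiableAt ℝ T z := fun z hz =>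
    (hT.contDiffAt (hU.mem_nhds hz)).differentiableAt (by norm_num)
  have hA2 := line (hfd _ h0) hacc
  have hA1 : (fderiv ℝ f (0, η0) (1, 0)).1 = 1 := by
    have := det_of_exact hU hf hT hex h0
    rw [det_eq, hA2] at this
    simpa using this
  obtain ⟨σ, hσ⟩ : ∃ σ, σ = (fderiv ℝ f (0, η0) (1, 0)).2 := ⟨_, rfl⟩
  have hA : ∀ ξ : ℝ × ℝ, fderiv ℝ f (0, η0) ξ = (ξ.1, σ * ξ.1 + ξ.2) := by
    intro ξ
    have e : ξ = ξ.1 • ((1, 0) : ℝ × ℝ) + ξ.2 • ((0, 1) : ℝ × ℝ) := by simp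
    conv_lhs => rw [e, map_add, map_smul, map_smul, hA2]
    apply Prod.ext <;> simp [hA1, hσ, mul_comm]
  obtain ⟨l, hl, hlσ⟩ : ∃ l : ℝ, 0 < l ∧ |σ| * (l * l) ≤ 1 / 20 := by
    have h1 : 0 < |σ| + 1 := by positivity
    refine ⟨1 / (20 * (|σ| + 1)), by positivity, ?_⟩
    have h2 : |σ| * (1 / (20 * (|σ| + 1))) ≤ 1 / 20 := by
      rw [mul_one_div, div_le_div_iff₀ (by positivity) (by norm_num)]; linarith
    have h3 : 1 / (20 * (|σ| + 1)) ≤ 1 := by
      rw [div_le_one (by positivity)]; linarith [abs_nonneg σ]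
    rw [← mul_assoc]
    exact (mul_le_of_le_one_right (by positivity) h3).trans h2
  obtain ⟨L, M, hL, hM1, hM2, hML, hLM⟩ := exists_LM hl
  set z0 := M (0, η0) with hz0
  set F : ℂ → ℂ := fun w => M (f (L w)) with hF
  set D : ℂ → ℂ →L[ℝ] ℂ := fun w => M.comp ((fderiv ℝ f (L w)).comp L) with hD
  have hLz : L z0 = (0, η0) := hLM _
  have hD0 : ‖D z0 - ContinuousLinearMap.id ℝ ℂ‖ ≤ 1 / 20 := by
    refine ContinuousLinearMap.opNorm_le_bound _ (by norm_num) fun w => ?_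
    have e : (D z0 - ContinuousLinearMap.id ℝ ℂ) w = ((σ * (l * l) * w.re : ℝ) : ℂ) * I := by
      have e1 : D z0 w = M (l * w.re, σ * (l * w.re) + w.im / l) := by
        simp only [hD, ContinuousLinearMap.comp_apply, hLz, hA]
        simp only [hL]
      rw [ContinuousLinearMap.sub_apply, e1]
      apply Complex.ext
      · simp [hM1, hl.ne']
      · simp [hM2]
        field_simp
        ring
    rw [e, norm_mul, norm_I, mul_one, norm_real, Real.norm_eq_abs, abs_mul, abs_mul,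
      abs_of_pos (mul_pos hl hl)]
    exact mul_le_mul hlσ (abs_re_le_norm w) (abs_nonneg _) (by norm_num)
  have hDc : ContinuousAt D z0 := by
    have h1 : ContinuousAt (fderiv ℝ f) (L z0) := by
      rw [hLz]
      exact ((hf.contDiffAt (hU.mem_nhds h0)).fderiv_right (m := 1) (by norm_num)).continuousAt
    exact continuousAt_const.clm_comp ((h1.comp L.continuous.continuousAt).clm_comp
      continuousAt_const)
  obtain ⟨R, hR, hRb⟩ : ∃ R > 0, ∀ w ∈ ball z0 R, L w ∈ U ∧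
      ‖D w - ContinuousLinearMap.id ℝ ℂ‖ ≤ 1 / 10 := by
    have h1 : ∀ᶠ w in 𝓝 z0, L w ∈ U :=
      L.continuous.continuousAt.eventually_mem (by rw [hLz]; exact hU.mem_nhds h0)
    have h2 : ∀ᶠ w in 𝓝 z0, ‖D w - ContinuousLinearMap.id ℝ ℂ‖ < 1 / 10 :=
      (hDc.sub continuousAt_const).norm.eventually (gt_mem_nhds (hD0.trans_lt (by norm_num)))
    obtain ⟨R, hR, h⟩ := Metric.eventually_nhds_iff_ball.1 (h1.and h2)
    exact ⟨R, hR, fun w hw => ⟨(h w hw).1, (h w hw).2.le⟩⟩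
  have hN := near_of (F := F) (T := fun w => T (L w)) (D := D)
    (E := fun w => (fderiv ℝ T (L w)).comp L) hR (by simp only [hF, hLz, hfix]; rfl)
    (fun w hw => M.hasFDerivAt.comp w ((hfd _ (hRb w hw).1).hasFDerivAt.comp w L.hasFDerivAt))
    (fun w hw => (hTd _ (hRb w hw).1).hasFDerivAt.comp w L.hasFDerivAt) (fun w hw => (hRb w hw).2)
    (fun w hw ξ => by
      simp only [hF, hD, ContinuousLinearMap.comp_apply, hex _ (hRb w hw).1, hM1, hM2]
      simp only [hL]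
      field_simp)
  have hit : ∀ i w, F^[i] w = M (f^[i] (L w)) := by
    intro i
    induction i with
    | zero => intro w; exact (hML w).symm
    | succ i ih =>
      intro w
      rw [Function.iterate_succ_apply', Function.iterate_succ_apply', ih, hF]
      simp only [hLM]
  have hLs : ∀ s : ℝ, L (z0 + s * I) = (0, η0 + s / l) := by
    intro s
    rw [map_add, hLz, hL]
    simp
  have hMd : ∀ d > 0, ∃ d' > 0, ∀ a b, dist a b < d' → dist (M a) (M b) < d := fun d hd => by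
    obtain ⟨d', h, h'⟩ := Metric.uniformContinuous_iff.1 M.uniformContinuous d hd
    exact ⟨d', h, fun a b hab => h' hab⟩
  have hMi : ∀ a b, M a = M b → a = b := fun a b h => by rw [← hLM a, h, hLM]
  have hMs : ∀ s : ℝ, M (0, η0 + s / l) = z0 + s * I := fun s => by rw [← hLs, hML]
  obtain ⟨d0, hd0, hd0'⟩ := hMd (R / 4) (by positivity)
  obtain ⟨η1, hη1, hη1'⟩ := heq η0 (by simpa using hr) d0 hd0
  set ρ := min η1 r0 with hρ
  have hρ0 : 0 < ρ := lt_min hη1 hr
  have hI : ∀ s : ℝ, s ∈ Ioo (-(l * ρ)) (l * ρ) ↔ |η0 + s / l - η0| < ρ := by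
    intro s
    rw [add_sub_cancel_left, abs_div, abs_of_pos hl, div_lt_iff₀ hl, abs_lt, mul_comm, mem_Ioo]
  have hsub : ∀ s s' : ℝ, |η0 + s' / l - (η0 + s / l)| = |s' - s| / l := by
    intro s s'
    rw [add_sub_add_left_eq_sub, ← sub_div, abs_div, abs_of_pos hl]
  have hsur : ∀ t : ℝ, ∃ s : ℝ, t = η0 + s / l := fun t => ⟨(t - η0) * l, by field_simp; ring⟩
  have horb : ∀ s ∈ Ioo (-(l * ρ)) (l * ρ), ∀ i, F^[i] (z0 + s * I) ∈ ball z0 (R / 4) := by
    intro s hs i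
    rw [hit, hLs, mem_ball]
    refine hd0' _ _ ?_
    have := hη1' _ (((hI s).1 hs).trans_le (min_le_left _ _)) i
    rwa [Function.iterate_fixed hfix] at this
  refine ⟨ρ, hρ0, fun t ht k hk hper => ?_⟩
  obtain ⟨s, rfl⟩ := hsur t
  have hs := (hI s).2 ht
  by_contra hne
  have hper' : F^[k] (z0 + s * I) = z0 + s * I := by rw [hit, hLs, hper, hMs]
  have hy : F (z0 + s * I) ≠ z0 + s * I := fun h => hne (hMi _ _ (by
    rw [hMs, ← h, hF]; simp only [hLs]))
  obtain ⟨w, hw, hfw, hturn⟩ := hN.exists_turn_ne hk hper' (horb s hs) hy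
  refine hturn (hN.turn_eq_zero horb (fun a ha d hd => ?_) (fun a ha η hη => ?_) ?_ hs hk hper' hy
    (closedBall_subset_ball (by linarith) hw) hfw)
  · obtain ⟨d', hd', h1⟩ := hMd d hd
    obtain ⟨η, hη, h2⟩ := heq _ (((hI a).1 ha).trans_le (min_le_right _ _)) d' hd'
    refine ⟨l * η, by positivity, fun a' _ h i => ?_⟩
    rw [hit, hit, hLs, hLs]
    refine h1 _ _ (h2 _ ?_ i)
    rw [hsub, div_lt_iff₀ hl, mul_comm]
    exact h
  · have h1 := (hI a).1 ha
    obtain ⟨t', h2, k', hk', h3⟩ := hdense _ (h1.trans_le (min_le_right _ _))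
      (min (η / l) (ρ - |η0 + a / l - η0|)) (lt_min (by positivity) (by linarith))
    obtain ⟨a', rfl⟩ := hsur t'
    refine ⟨a', (hI a').2 ?_, ?_, k', hk', by rw [hit, hLs, h3, hMs]⟩
    · have h4 := h2.trans_le (min_le_right _ _)
      have h5 := abs_sub_le (η0 + a' / l) (η0 + a / l) η0
      linarith
    · have h4 := h2.trans_le (min_le_left _ _)
      rwa [hsub, div_lt_div_iff_of_pos_right hl] at h4
  · have h1 : ∀ᶠ t in 𝓝[≠] η0, |t - η0| < ρ ∧ t ≠ η0 := by
      refine Eventually.and (Eventually.filter_mono nhdsWithin_le_nhds ?_) self_mem_nhdsWithin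
      filter_upwards [ball_mem_nhds η0 hρ0] with t ht
      rwa [mem_ball, Real.dist_eq] at ht
    obtain ⟨t', h2, h3, h4⟩ := (hacc.and_eventually h1).exists
    obtain ⟨a', rfl⟩ := hsur t'
    refine ⟨a', (hI a').2 h3, fun h => h4 (by simp [h]), ?_⟩
    rw [hF]
    simp only [hLs, h2, hMs]

end LocX

theorem planar {f : ℝ × ℝ → ℝ × ℝ} {T : ℝ × ℝ → ℝ} {U : Set (ℝ × ℝ)} {η0 r0 : ℝ} (hU : IsOpen U)
    (h0 : (0, η0) ∈ U) (hf : ContDiffOn ℝ 2 f U) (hT : ContDiffOn ℝ 2 T U)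
    (hex : ∀ z ∈ U, ∀ ξ : ℝ × ℝ, fderiv ℝ T z ξ = (f z).2 * (fderiv ℝ f z ξ).1 - z.2 * ξ.1)
    (hfix : f (0, η0) = (0, η0)) (hacc : ∃ᶠ s in 𝓝[≠] η0, f (0, s) = (0, s)) (hr : 0 < r0)
    (heq : ∀ s, |s - η0| < r0 → ∀ d > 0, ∃ η > 0, ∀ s', |s' - s| < η →
      ∀ i, dist (f^[i] (0, s')) (f^[i] (0, s)) < d)
    (hdense : ∀ s, |s - η0| < r0 → ∀ η > 0, ∃ s', |s' - s| < η ∧
      ∃ k > 0, f^[k] (0, s') = (0, s')) :
    ∀ᶠ s in 𝓝 η0, f (0, s) = (0, s) ∧ T (0, s) = T (0, η0) := by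
  obtain ⟨ρ, hρ, hper⟩ := LocX.fixed hU h0 hf hT hex hfix hacc hr heq hdense
  have hc : Continuous fun t : ℝ => ((0, t) : ℝ × ℝ) := by fun_prop
  obtain ⟨r, hr0, hb⟩ := Metric.eventually_nhds_iff_ball.1
    ((hc.continuousAt.eventually_mem (hU.mem_nhds h0)).and
      (Eventually.and (p := fun t => t ∈ ball η0 ρ) (q := fun t => t ∈ ball η0 r0)
        (ball_mem_nhds η0 hρ) (ball_mem_nhds η0 hr)))
  have hfd : ∀ z ∈ U, DifferentiableAt ℝ f z := fun z hz =>
    (hf.contDiffAt (hU.mem_nhds hz)).differentiableAt (by norm_num)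
  have hTd : ∀ z ∈ U, DifferentiableAt ℝ T z := fun z hz =>
    (hT.contDiffAt (hU.mem_nhds hz)).differentiableAt (by norm_num)
  have h1 : ∀ s ∈ ball η0 r, f (0, s) = (0, s) := by
    intro s hs
    obtain ⟨hsU, hsρ, hsr⟩ := hb s hs
    have h2 : ∃ᶠ t in 𝓝 s, f (0, t) = (0, t) := by
      rw [frequently_iff]
      intro V hV
      obtain ⟨η, hη, hηV⟩ := Metric.mem_nhds_iff.1 (inter_mem hV (isOpen_ball.mem_nhds hsρ))
      obtain ⟨t, ht, k, hk, hp⟩ := hdense s (by rwa [mem_ball, Real.dist_eq] at hsr) η hη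
      have h3 := hηV (show t ∈ ball s η by rwa [mem_ball, Real.dist_eq])
      exact ⟨t, h3.1, hper t (by have := h3.2; rwa [mem_ball, Real.dist_eq] at this) k hk hp⟩
    exact tendsto_nhds_unique_of_frequently_eq
      (ContinuousAt.comp (f := fun t : ℝ => ((0, t) : ℝ × ℝ)) (hfd _ hsU).continuousAt
        hc.continuousAt) hc.continuousAt h2
  have h2 : ∀ s ∈ ball η0 r, HasDerivAt (fun t : ℝ => T (0, t)) 0 s := by
    intro s hs
    have hsU := (hb s hs).1
    have h3 : HasDerivAt (fun t : ℝ => ((0, t) : ℝ × ℝ)) (0, 1) s :=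
      (hasDerivAt_const s 0).prodMk (hasDerivAt_id' s)
    have h4 := (hTd _ hsU).hasFDerivAt.comp_hasDerivAt s h3
    have h5 : ∀ᶠ t in 𝓝[≠] s, f (0, t) = (0, t) :=
      Eventually.filter_mono nhdsWithin_le_nhds
        (by filter_upwards [isOpen_ball.mem_nhds hs] with t ht using h1 t ht)
    rw [hex _ hsU, LocX.line (hfd _ hsU) h5.frequently] at h4
    exact h4.congr_deriv (by simp)
  filter_upwards [ball_mem_nhds η0 hr0] with s hs
  exact ⟨h1 s hs, isOpen_ball.is_const_of_deriv_eq_zero (convex_ball η0 r).isPreconnected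
    (fun t ht => (h2 t ht).differentiableAt.differentiableWithinAt)
    (fun t ht => (h2 t ht).deriv) hs (mem_ball_self hr0)⟩

end Pool.Agent.GeoFin
end

-- part Pool.Agent.P.MP_365c00_gt.ZA2
section

/-! Jacobi maps in arbitrary charts, and the differential of the length. -/

set_option linter.unusedSectionVars false
set_option linter.unusedVariables false

open Set Filter Topology Metric Function MeasureTheory
open scoped Manifold ContDiff
open Pool.Agent.GeoN

namespace Pool.Agent.Fu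

variable {E : Type} [NormedAddCommGroup E] [InnerProductSpace ℝ E] [FiniteDimensional ℝ E]
  {M : Type} [TopologicalSpace M] [ChartedSpace E M] [IsManifold 𝓘(ℝ, E) ∞ M]
  [T2Space M] [CompactSpace M] [Nonempty M] [Nontrivial E] {g : Met E M}

theorem za2_bij (g : Met E M) {x x' : M} {a : E} (ha : a ∈ (κ E x).target)
    (ha' : (κ E x).symm a ∈ (κ E x').source) :
    Bijective (fderiv ℝ (κ E x' ∘ (κ E x).symm) a) := by
  have hi : Function.Injective (fderiv ℝ (κ E x' ∘ (κ E x).symm) a : E →ₗ[ℝ] E) := by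
    rw [injective_iff_map_eq_zero]
    intro u hu
    by_contra hne
    have h3 := G_pos g x ha hne
    have hu' : fderiv ℝ (κ E x' ∘ (κ E x).symm) a u = 0 := hu
    rw [G_trans g ha ha', hu', map_zero] at h3
    exact lt_irrefl _ h3
  exact ⟨hi, LinearMap.injective_iff_surjective.1 hi⟩

theorem za2_chg (g : Met E M) {x p : M} {a : E} (ha : a ∈ (κ E x).target)
    (ha' : (κ E x).symm a ∈ (κ E p).source) (V : E) :
    geo g x (a, V) = geo g p (κ E p ((κ E x).symm a), fderiv ℝ (κ E p ∘ (κ E x).symm) a V) := by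
  obtain ⟨h1, h2, h3⟩ := geo_spec g x (y := (a, V)) ha
  have h2' : geo g x (a, V) 0 = (κ E x).symm a := h2
  have h3' : vel E x (geo g x (a, V)) 0 = V := h3
  have hx : geo g x (a, V) 0 ∈ (κ E x).source := by rw [h2']; exact (κ E x).map_target ha
  have hp : geo g x (a, V) 0 ∈ (κ E p).source := by rw [h2']; exact ha'
  have h4 := geo_jet h1 hp
  rw [vel_trans ((isGeodesic_iff g _).1 h1 0) hx hp, h3', h2', (κ E x).right_inv ha] at h4
  exact h4.symm

theorem za2_fib {x x' : M} {a V : E} {t : ℝ} (ha : a ∈ (κ E x).target)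
    (ht : geo g x (a, V) t ∈ (κ E x').source) :
    DifferentiableAt ℝ (fun W => κ E x' (geo g x (a, W) t)) V := by
  have h1 := (geo_chart (g := g) (y := (a, V)) ha ht).differentiableAt (by simp)
  have h2 : DifferentiableAt ℝ (fun W : E => (((a, W), t) : (E × E) × ℝ)) V := by fun_prop
  have h3 := h1.comp V h2
  exact h3

theorem za2_end {x x' : M} {y : E × E} {t : ℝ} (ha : y.1 ∈ (κ E x).target)
    (ht : geo g x y t ∈ (κ E x').source) :
    DifferentiableAt ℝ (fun z => κ E x' (geo g x z t)) y := by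
  have h1 := (geo_chart (g := g) ha ht).differentiableAt (by simp)
  have h2 : DifferentiableAt ℝ (fun z : E × E => ((z, t) : (E × E) × ℝ)) y := by fun_prop
  have h3 := h1.comp y h2
  exact h3

theorem za2_ev {x x' : M} {a V : E} {t : ℝ} (ha : a ∈ (κ E x).target)
    (ht : geo g x (a, V) t ∈ (κ E x').source) :
    ∀ᶠ W in 𝓝 V, geo g x (a, W) t ∈ (κ E x').source := by
  have h1 := (geo_smooth g x (y := (a, V)) ha t).continuousAt
  have h2 : ContinuousAt (fun W : E => (((a, W), t) : (E × E) × ℝ)) V := by fun_prop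
  have h3 : ContinuousAt (fun W : E => geo g x (a, W) t) V := h1.comp_of_eq h2 rfl
  exact h3.preimage_mem_nhds ((source_open x').mem_nhds ht)

theorem za2_jet {x : M} {y : E × E} (hy : y ∈ TT E x) :
    κ E x ((arc g x y).1.1 0) = y.1 ∧ ln g x y • vel E x (arc g x y).1.1 0 = y.2 :=
  ⟨congrArg Prod.fst (jet_arc (g := g) hy), congrArg Prod.snd (jet_arc (g := g) hy)⟩

theorem za2_main {x x' : M} {y : E × E} {t l : ℝ} {u : UG g} (ha : y.1 ∈ (κ E x).target)
    (hl : 0 < l) (hx : u.1 0 ∈ (κ E x).source) (h1 : κ E x (u.1 0) = y.1)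
    (h2 : l • vel E x u.1 0 = y.2) (hq : geo g x y t = u.1 (l * t))
    (hq' : u.1 (l * t) ∈ (κ E x').source) :
    ∃ A B : E →L[ℝ] E, Bijective A ∧ Bijective B ∧
      (∀ ξ, Jac g u (l * t) (A ξ) = B (JC g x x' y t ξ)) ∧
      B (vel E x' u.1 (l * t)) = vel E (u.1 (l * t)) u.1 (l * t) := by
  obtain ⟨a, V⟩ := y
  simp only at ha h1 h2
  have hp : (κ E x).symm a = u.1 0 := by rw [← h1, (κ E x).left_inv hx]
  have hpp : u.1 0 ∈ (κ E (u.1 0)).source := mem_extChartAt_source _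
  have hqq : u.1 (l * t) ∈ (κ E (u.1 (l * t))).source := mem_extChartAt_source _
  have ha' : (κ E x).symm a ∈ (κ E (u.1 0)).source := by rw [hp]; exact hpp
  have hb : κ E x' (u.1 (l * t)) ∈ (κ E x').target := (κ E x').map_source hq'
  have hb' : (κ E x').symm (κ E x' (u.1 (l * t))) ∈ (κ E (u.1 (l * t))).source := by
    rw [(κ E x').left_inv hq']; exact hqq
  have hD := za2_bij g ha ha'
  have hB := za2_bij g hb hb'
  have hchg := za2_chg g ha ha'
  rw [hp] at hchg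
  have hv := vel_trans (u.geoAt 0) hx hpp
  rw [h1] at hv
  have hψ := (contDiffAt_trans hb hb').differentiableAt (by simp)
  have hv' := vel_trans (u.geoAt (l * t)) hq' hqq
  generalize fderiv ℝ (κ E (u.1 0) ∘ (κ E x).symm) a = D at hD hchg hv
  have hA : Bijective (l⁻¹ • D) := by
    have h3 : Bijective (fun w : E => l⁻¹ • w) := MulAction.bijective (Units.mk0 l⁻¹ (inv_ne_zero hl.ne'))
    exact h3.comp hD
  have hAV : (l⁻¹ • D) V = vel E (u.1 0) u.1 0 := by
    rw [hv, ← h2, smul_apply, map_smul, smul_smul, inv_mul_cancel₀ hl.ne',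
      one_smul]
  have hk : ∀ W, geo g x (a, W) t =
      geo g (u.1 0) (κ E (u.1 0) (u.1 0), (l⁻¹ • D) W) (l * t) := by
    intro W
    rw [← geo_smul g (u.1 0) ((κ E (u.1 0)).map_source hpp), hchg, smul_apply,
      smul_smul, mul_inv_cancel₀ hl.ne', one_smul]
  refine ⟨l⁻¹ • D, _, hA, hB, fun ξ => ?_, hv'.symm⟩
  generalize l⁻¹ • D = A at hAV hk
  have hs : geo g x (a, V) t ∈ (κ E x').source := by rw [hq]; exact hq'
  have hF : DifferentiableAt ℝ (fun W => κ E (u.1 (l * t))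
      (geo g (u.1 0) (κ E (u.1 0) (u.1 0), W) (l * t))) (A V) :=
    za2_fib ((κ E (u.1 0)).map_source hpp) (by rw [← hk, hq]; exact hqq)
  have hC := za2_fib ha hs
  have e1 := hF.hasFDerivAt.comp V A.hasFDerivAt
  have hψ' : HasFDerivAt (κ E (u.1 (l * t)) ∘ (κ E x').symm)
      (fderiv ℝ (κ E (u.1 (l * t)) ∘ (κ E x').symm) (κ E x' (u.1 (l * t))))
      (κ E x' (geo g x (a, V) t)) := by
    rw [hq]; exact hψ.hasFDerivAt
  have e2 := hψ'.comp V hC.hasFDerivAt
  have e3 : ((fun W => κ E (u.1 (l * t))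
      (geo g (u.1 0) (κ E (u.1 0) (u.1 0), W) (l * t))) ∘ A) =ᶠ[𝓝 V]
      (κ E (u.1 (l * t)) ∘ (κ E x').symm) ∘ fun W => κ E x' (geo g x (a, W) t) := by
    filter_upwards [za2_ev ha hs] with W hW
    simp only [Function.comp_apply]
    rw [← hk, (κ E x').left_inv hW]
  have e4 := (e2.congr_of_eventuallyEq e3).unique e1
  have e5 := congrArg (fun L : E →L[ℝ] E => L ξ) e4
  simp only [ContinuousLinearMap.comp_apply] at e5
  rw [hAV] at e5
  exact e5.symm

theorem jac_rel {x x' : M} {y : E × E} {t : ℝ} (hy : y ∈ DD g x x' t) :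
    ∃ A B : E →L[ℝ] E, Bijective A ∧ Bijective B ∧
      (∀ ξ, Jac g (arc g x y).1 (ln g x y * t) (A ξ) = B (JC g x x' y t ξ)) ∧
      B (vel E x' (arc g x y).1.1 (ln g x y * t)) =
        vel E ((arc g x y).1.1 (ln g x y * t)) (arc g x y).1.1 (ln g x y * t) := by
  obtain ⟨h1, h2⟩ := za2_jet (g := g) hy.1
  exact za2_main hy.1.1 (ln_pos hy.1) (arc_src hy.1) h1 h2 (geo_arc hy.1 t)
    (by rw [← geo_arc hy.1 t]; exact hy.2)

theorem fderiv_FF {x x' : M} {y : E × E} (hy : y ∈ DD g x x' 1) (η : E × E) :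
    fderiv ℝ (FF g x x') y η = (η.1, fderiv ℝ (fun z => κ E x' (geo g x z 1)) y η) := by
  have h1 := (hasFDerivAt_fst (𝕜 := ℝ) (p := y)).prodMk (za2_end hy.1.1 hy.2).hasFDerivAt
  have h2 : fderiv ℝ (FF g x x') y = _ := h1.fderiv
  rw [h2]
  rfl

theorem nd_iff {x x' : M} {y : E × E} (hy : y ∈ DD g x x' 1) :
    Injective (fderiv ℝ (FF g x x') y) ↔ NdJ g (arc g x y).1 (arc g x y).2 := by
  have hJ : ∀ ξ, fderiv ℝ (fun z => κ E x' (geo g x z 1)) y (0, ξ) = JC g x x' y 1 ξ := by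
    intro ξ
    have h1 := (za2_end (g := g) (y := (y.1, y.2)) hy.1.1 hy.2).hasFDerivAt
    have h2 : HasFDerivAt (fun W : E => ((y.1, W) : E × E)) (ContinuousLinearMap.inr ℝ E E) y.2 :=
      hasFDerivAt_prodMk_right y.1 y.2
    have h3 := (h1.comp y.2 h2).fderiv
    have h4 : JC g x x' y 1 = _ := h3
    rw [h4]
    rfl
  obtain ⟨A, B, hA, hB, h1, -⟩ := jac_rel hy
  rw [mul_one] at h1
  have h2 : Injective (fderiv ℝ (FF g x x') y) ↔ Injective (JC g x x' y 1) := by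
    rw [injective_iff_map_eq_zero, injective_iff_map_eq_zero]
    constructor
    · intro h ξ hξ
      have h3 := h (0, ξ) (by rw [fderiv_FF hy, hJ, hξ]; rfl)
      exact congrArg Prod.snd h3
    · rintro h ⟨η, ξ⟩ hξ
      rw [fderiv_FF hy] at hξ
      have h3 : η = 0 := congrArg Prod.fst hξ
      subst h3
      have h4 : fderiv ℝ (fun z => κ E x' (geo g x z 1)) y (0, ξ) = 0 := congrArg Prod.snd hξ
      rw [hJ] at h4
      rw [h ξ h4]
      rfl
  rw [h2]
  have h3 : (Jac g (arc g x y).1 (ln g x y)) ∘ A = B ∘ JC g x x' y 1 := funext h1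
  change _ ↔ Injective (Jac g (arc g x y).1 (ln g x y))
  rw [← Injective.of_comp_iff' (Jac g (arc g x y).1 (ln g x y)) hA, h3, hB.1.of_comp_iff]

theorem flat_of_chart {x x' : M} {y : E × E} {t : ℝ} (hy : y ∈ DD g x x' t)
    (hf : ∀ ξ, ∃ c : ℝ, JC g x x' y t ξ = c • vel E x' (geo g x y) t) :
    FlatJ g (arc g x y).1 (ln g x y * t) := by
  obtain ⟨A, B, hA, hB, h1, h2⟩ := jac_rel hy
  intro ξ
  obtain ⟨η, rfl⟩ := hA.2 ξ
  obtain ⟨c, hc⟩ := hf η
  refine ⟨c * ln g x y, ?_⟩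
  rw [h1, hc, vel_arc hy.1, smul_smul, map_smul, h2]

/-- the first variation of the length -/
theorem dlen {x x' : M} {y : E × E} (hy : y ∈ DD g x x' 1) (η : E × E) :
    fderiv ℝ (ln g x) y η =
      G g x' (FF g x x' y).2 (vel E x' (arc g x y).1.1 (ln g x y)) (fderiv ℝ (FF g x x') y η).2 -
        G g x y.1 (vel E x (arc g x y).1.1 0) η.1 := by
  have hD : IsOpen {z : E × E | z.1 ∈ (κ E x).target} := (target_open x).preimage continuous_fst
  have ha : y.1 ∈ (κ E x).target := hy.1.1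
  have h0 : geo g x y 0 = (κ E x).symm y.1 := (geo_spec g x ha).2.1
  have hx : geo g x y 0 ∈ (κ E x).source := by rw [h0]; exact (κ E x).map_target ha
  have h1 := first_variation (g := g) (Γ := geo g x) hD (fun z hz => (geo_spec g x hz).1)
    (fun z hz t => geo_smooth g x hz t) (z := y) ha η (t := 0) (t' := 1) hx hy.2
  have e1 : (fun z => κ E x (geo g x z 0)) =ᶠ[𝓝 y] Prod.fst := by
    filter_upwards [hD.mem_nhds ha] with z hz
    rw [(geo_spec g x hz).2.1, (κ E x).right_inv hz]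
  have e2 : (fun z => energy g (geo g x z) 0) =ᶠ[𝓝 y] fun z => ln g x z * ln g x z := by
    filter_upwards [hD.mem_nhds ha] with z hz
    have h2 := energy_nonneg g (geo g x z) 0
    rw [energy_geo g x hz] at h2 ⊢
    exact (Real.mul_self_sqrt h2).symm
  have hd := ((ln_smooth (g := g) hy.1).differentiableAt (by simp)).hasFDerivAt
  have e3 := ((hd.mul hd).congr_of_eventuallyEq e2).fderiv
  rw [e1.fderiv_eq, e3, fderiv_fst, vel_arc hy.1, vel_arc hy.1, h0, (κ E x).right_inv ha,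
    mul_one, mul_zero] at h1
  rw [fderiv_FF hy]
  have hl := ln_pos (g := g) hy.1
  simp only [map_smul, smul_apply, add_apply, smul_eq_mul,
    ContinuousLinearMap.coe_fst'] at h1
  change _ = G g x' (κ E x' (geo g x y 1)) _ (fderiv ℝ (fun z => κ E x' (geo g x z 1)) y η) - _
  apply mul_left_cancel₀ hl.ne'
  linarith

end Pool.Agent.Fu
end

-- part Pool.Agent.P.MP_365c00_gt.ZA4
section

/-! The calculus of null sets of pairs and of arcs. -/

set_option linter.unusedSectionVars false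
set_option linter.unusedVariables false

open Set Filter Topology Metric Function MeasureTheory
open scoped Manifold ContDiff
open Pool.Agent.GeoN

namespace Pool.Agent.Fu

variable {E : Type} [NormedAddCommGroup E] [InnerProductSpace ℝ E] [FiniteDimensional ℝ E]
  {M : Type} [TopologicalSpace M] [ChartedSpace E M] [IsManifold 𝓘(ℝ, E) ∞ M]
  [T2Space M] [CompactSpace M] [Nonempty M] [Nontrivial E] {g : Met E M}

variable [MeasurableSpace (E × E)] [BorelSpace (E × E)] {μ : Measure (E × E)}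
  [μ.IsAddHaarMeasure]

theorem nt_iff {A : Set (UG g × ℝ)} :
    NT g μ A ↔ ∀ x : M, μ {y | y ∈ TT E x ∧ arc g x y ∈ A} = 0 := by
  simp only [NT, TT, arc, ln, mem_ofPred_eq, and_assoc]
theorem NP.mono {A B : Set (M × M)} (hB : NP E μ B) (hAB : A ⊆ B) : NP E μ A := fun x y =>
  measure_mono_null (image_mono (inter_subset_inter_left _ hAB)) (hB x y)
theorem NP.union {A B : Set (M × M)} (hA : NP E μ A) (hB : NP E μ B) : NP E μ (A ∪ B) := fun x y => by
  rw [union_inter_distrib_right, image_union]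
  exact measure_union_null (hA x y) (hB x y)
theorem NP.iUnion {ι : Type} [Countable ι] {A : ι → Set (M × M)} (hA : ∀ i, NP E μ (A i)) :
    NP E μ (⋃ i, A i) := fun x y => by
  rw [iUnion_inter, image_iUnion]
  exact measure_iUnion_null fun i => hA i x y
theorem NT.mono {A B : Set (UG g × ℝ)} (hB : NT g μ B) (hAB : ∀ w ∈ A, 0 < w.2 → w ∈ B) :
    NT g μ A := by
  rw [nt_iff] at hB ⊢
  refine fun x => measure_mono_null ?_ (hB x)
  exact fun y hy => ⟨hy.1, hAB _ hy.2 (ln_pos hy.1)⟩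
theorem NT.union {A B : Set (UG g × ℝ)} (hA : NT g μ A) (hB : NT g μ B) : NT g μ (A ∪ B) := by
  rw [nt_iff] at hA hB ⊢
  exact fun x => measure_mono_null
    (fun y hy => hy.2.elim (fun h => Or.inl ⟨hy.1, h⟩) fun h => Or.inr ⟨hy.1, h⟩)
    (measure_union_null (hA x) (hB x))
theorem NT.iUnion {ι : Type} [Countable ι] {A : ι → Set (UG g × ℝ)} (hA : ∀ i, NT g μ (A i)) :
    NT g μ (⋃ i, A i) := by
  simp only [nt_iff] at hA ⊢
  refine fun x => measure_mono_null (fun y hy => ?_) (measure_iUnion_null fun i => hA i x)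
  obtain ⟨i, hi⟩ := mem_iUnion.1 hy.2
  exact mem_iUnion.2 ⟨i, hy.1, hi⟩
theorem np_diag : NP E μ {z : M × M | z.1 = z.2} := fun x y => by
  have hA : μ {w : E × E | w.2 = 0 ∧ w.1 ∈ (κ E x).target ∧ (κ E x).symm w.1 ∈ (κ E y).source} =
      0 := by
    refine measure_mono_null (fun w hw => hw.1) (Measure.addHaar_submodule μ
      (LinearMap.ker (LinearMap.snd ℝ E E)) fun e => ?_)
    obtain ⟨v, hv⟩ := exists_ne (0 : E)
    have h1 : ((0, v) : E × E) ∈ LinearMap.ker (LinearMap.snd ℝ E E) := e ▸ Submodule.mem_top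
    exact hv h1
  have hD := addHaar_image_eq_zero_of_differentiableOn_of_addHaar_eq_zero μ
    (f := fun w : E × E => (w.1, (κ E y ∘ (κ E x).symm) w.1)) (fun w hw =>
      (differentiableAt_fst.prodMk (((contDiffAt_trans hw.2.1 hw.2.2).differentiableAt
        (by simp)).comp w differentiableAt_fst)).differentiableWithinAt) hA
  refine measure_mono_null ?_ hD
  rintro _ ⟨⟨a, b⟩, ⟨h1, h2, h3⟩, rfl⟩
  obtain rfl : a = b := h1
  refine ⟨(κ E x a, 0), ⟨rfl, (κ E x).map_source h2, ?_⟩, ?_⟩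
  · rw [(κ E x).left_inv h2]
    exact h3
  · simp only [Function.comp_apply, Prod.map_apply, (κ E x).left_inv h2]
theorem NP.dense {A : Set (M × M)} (hA : NP E μ A) : Dense Aᶜ := by
  rw [← interior_eq_empty_iff_dense_compl, eq_empty_iff_forall_notMem]
  rintro ⟨p, q⟩ hz
  have h1 : A ∩ (κ E p).source ×ˢ (κ E q).source ∈ 𝓝 (p, q) :=
    inter_mem (mem_interior_iff_mem_nhds.1 hz)
      (prod_mem_nhds (extChartAt_source_mem_nhds p) (extChartAt_source_mem_nhds q))
  obtain ⟨U, hU, V, hV, hUV⟩ := mem_nhds_prod_iff.1 h1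
  have h2 : (κ E p '' U) ×ˢ (κ E q '' V) ∈ 𝓝 (κ E p p, κ E q q) :=
    prod_mem_nhds (extChartAt_image_nhds_mem_nhds_of_boundaryless hU)
      (extChartAt_image_nhds_mem_nhds_of_boundaryless hV)
  refine (Measure.measure_pos_of_mem_nhds μ h2).ne' (measure_mono_null ?_ (hA p q))
  rintro ⟨_, _⟩ ⟨⟨a, ha, rfl⟩, ⟨b, hb, rfl⟩⟩
  exact ⟨(a, b), hUV ⟨ha, hb⟩, rfl⟩
theorem NT.not_open {A : Set (UG g × ℝ)} (hA : NT g μ A) {O : Set (UG g × ℝ)} (hO : IsOpen O)
    {w : UG g × ℝ} (hw : w ∈ O) (hl : 0 < w.2) : ∃ v ∈ O, 0 < v.2 ∧ v ∉ A := by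
  by_contra! hn
  have hx : w.1.1 0 ∈ (κ E (w.1.1 0)).source := mem_extChartAt_source _
  have hj := jet_mem hx hl
  have h1 : {y | y ∈ TT E (w.1.1 0) ∧ arc g (w.1.1 0) y ∈ O} ∈ 𝓝 (jet (w.1.1 0) w) :=
    inter_mem ((TT_open _).mem_nhds hj)
      ((arc_cont hj).preimage_mem_nhds (hO.mem_nhds (by rwa [arc_jet hx hl])))
  refine (Measure.measure_pos_of_mem_nhds μ h1).ne'
    (measure_mono_null (fun y hy => ?_) (nt_iff.1 hA (w.1.1 0)))
  exact ⟨hy.1, hn _ hy.2 (ln_pos hy.1)⟩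

end Pool.Agent.Fu
end

-- part Pool.Agent.P.MP_365c00_gt.ZC2
section

/-! Supports, degrees, maps that are continuous on a subset only. -/

set_option linter.unusedSectionVars false
set_option linter.unusedVariables false

open Set Topology unitInterval TensorProduct

namespace Pool.Agent.Fu

variable {F : Type} [Field F]

/-- the range of a cube -/
def rg : (n : ℕ) → {X : Type} → [TopologicalSpace X] → Cb n X → Set X
  | 0, X, _, c => @singleton X (Set X) _ c
  | n + 1, X, _, c => ⋃ g ∈ rg n (X := C(I, X)) c, range g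

theorem rg_map (n : ℕ) : ∀ {X Y : Type} [TopologicalSpace X] [TopologicalSpace Y] (f : C(X, Y))
    (c : Cb n X), rg n (cbMap n f c) = f '' rg n c := by
  induction n with
  | zero => intro X Y _ _ f c; exact (image_singleton (f := f) (a := c)).symm
  | succ n ih =>
    intro X Y _ _ f c
    show (⋃ g ∈ rg n (cbMap n (post f) c), range g) = f '' ⋃ g ∈ rg n (X := C(I, X)) c, range g
    rw [ih, biUnion_image, image_iUnion₂]
    exact iUnion₂_congr fun g _ => range_comp f g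

section
variable {X Y Z : Type} [TopologicalSpace X] [TopologicalSpace Y] [TopologicalSpace Z]

/-- vanishing formal sums of cubes with a common range -/
def Gd (F : Type) [Field F] (X : Type) [TopologicalSpace X] : Set (Pre F X) :=
  {a | (∃ S : Set X, ∀ c ∈ a.support, rg c.1 c.2 = S) ∧ mkC F X a = 0}

theorem gd_punc {a : Pre F C(I, X)} (h : a ∈ Gd F C(I, X)) : punc F X a ∈ Gd F X := by
  classical
  obtain ⟨⟨S, hS⟩, h0⟩ := h
  refine ⟨⟨⋃ g ∈ S, range g, fun c hc => ?_⟩, by rw [← unc_mk, h0, map_zero]⟩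
  obtain ⟨c', hc', rfl⟩ := Finset.mem_image.1 (Finsupp.mapDomain_support hc)
  rw [← hS c' hc']
  rfl

theorem relN_le (n : ℕ) : ∀ (X : Type) [TopologicalSpace X],
    RelN F n X ≤ Submodule.span F (Gd F X) := by
  classical
  induction n with
  | zero =>
    intro X _
    refine sup_le ?_ ?_
    · rintro _ ⟨a, rfl⟩
      induction a using Finsupp.induction_linear with
      | zero => simp
      | add a b ha hb => rw [map_add]; exact add_mem ha hb
      | single c r =>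
        refine Submodule.subset_span ⟨?_, mkC_rel (n := 0) (Submodule.mem_sup_left ⟨_, rfl⟩)⟩
        rw [LinearMap.comp_apply, pmap_single, punc_single]
        exact ⟨_, fun c' hc' => by rw [Finset.mem_singleton.1 (Finsupp.support_single_subset hc')]⟩
    · rintro _ ⟨a, rfl⟩
      induction a using Finsupp.induction_linear with
      | zero => simp
      | add a b ha hb => rw [map_add]; exact add_mem ha hb
      | single c r =>
        refine Submodule.subset_span ⟨?_, mkC_rel (n := 0) (Submodule.mem_sup_right ⟨_, rfl⟩)⟩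
        simp only [LinearMap.comp_apply, LinearMap.add_apply, LinearMap.id_apply, map_add,
          pmap_single, punc_single]
        refine ⟨rg (c.1 + 1 + 1) (X := X) c.2, fun c' hc' => ?_⟩
        rcases Finset.mem_union.1 (Finsupp.support_add hc') with h | h <;>
          rw [Finset.mem_singleton.1 (Finsupp.support_single_subset h)]
        show (⋃ g ∈ (⋃ k ∈ rg c.1 (cbMap c.1 (flp X) c.2), range k), range g) =
          ⋃ g ∈ (⋃ k ∈ rg c.1 (X := C(I, C(I, X))) c.2, range k), range g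
        rw [rg_map]
        ext x
        simp only [mem_iUnion, mem_range, mem_image, exists_prop]
        constructor
        · rintro ⟨_, ⟨_, ⟨k, hk, rfl⟩, s, rfl⟩, t, rfl⟩
          exact ⟨_, ⟨k, hk, t, rfl⟩, s, rfl⟩
        · rintro ⟨_, ⟨k, hk, s, rfl⟩, t, rfl⟩
          exact ⟨_, ⟨_, ⟨k, hk, rfl⟩, t, rfl⟩, s, rfl⟩
  | succ n ih =>
    rintro X _ _ ⟨a, ha, rfl⟩
    have := ih _ ha
    clear ha
    induction this using Submodule.span_induction with
    | mem a h => exact Submodule.subset_span (gd_punc h)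
    | zero => simp
    | add a b _ _ ha hb => rw [map_add]; exact add_mem ha hb
    | smul r a _ ha => rw [map_smul]; exact Submodule.smul_mem _ r ha

/-- the chain map of a map that is continuous on `A`, on the part carried by `A` -/
noncomputable def pm (A : Set X) (f : X → Y) : Ch F X →ₗ[F] Ch F Y := by
  classical exact if h : ContinuousOn f A then map ⟨A.domRestrict f, h.domRestrict⟩ ∘ₗ res A else 0

/-- the map on chains induced by an arbitrary map; cubes on which it is not continuous go to zero -/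
noncomputable def mp (f : X → Y) : Ch F X →ₗ[F] Ch F Y :=
  liftC (Finsupp.linearCombination F fun c => pm (rg c.1 c.2) f (cube c)) fun n c hc => by
    have := relN_le n X hc
    clear hc
    induction this using Submodule.span_induction with
    | mem a h =>
      obtain ⟨⟨S, hS⟩, h0⟩ := h
      have : Finsupp.linearCombination F (fun c => pm (F := F) (rg c.1 c.2) f (cube c)) a =
          pm S f (mkC F X a) := by
        conv_rhs => rw [← a.sum_single]
        rw [Finsupp.linearCombination_apply, Finsupp.sum, Finsupp.sum, map_sum, map_sum]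
        refine Finset.sum_congr rfl fun c hc => ?_
        rw [hS c hc, ← map_smul, cube, ← map_smul, Finsupp.smul_single_one]
      rw [this, h0, map_zero]
    | zero => simp
    | add a b _ _ ha hb => rw [map_add, ha, hb, add_zero]
    | smul r a _ ha => rw [map_smul, ha, smul_zero]

theorem mp_cube (f : X → Y) (c : Σ n, Cb n X) :
    mp f (cube c : Ch F X) = pm (rg c.1 c.2) f (cube c) := by
  simp only [mp, cube, liftC_mk, Finsupp.linearCombination_single, one_smul]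

variable (F) in
/-- chains in `A` -/
noncomputable def CC (A : Set X) : Submodule F (Ch F X) := LinearMap.eqLocus (prj A) LinearMap.id

variable (F X) in
/-- chains of degree `k` -/
noncomputable def HD (k : ℕ) : Submodule F (Ch F X) := LinearMap.eqLocus (dg k) LinearMap.id

variable (F) in
/-- boundaries of chains in `A` -/
noncomputable def BB (A : Set X) : Submodule F (Ch F X) := (CC F A).map bd

variable (F) in
/-- relative cycles -/
noncomputable def ZZ (A B : Set X) : Submodule F (Ch F X) := CC F A ⊓ (CC F B).comap bd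

variable (F) in
/-- relative boundaries -/
noncomputable def NN (A B : Set X) : Submodule F (Ch F X) := BB F A ⊔ CC F B

/-- the inclusion of a subspace -/
def incl (A : Set X) : C(A, X) := ⟨Subtype.val, continuous_subtype_val⟩

end

/-- recursion data for the diagonal approximation -/
noncomputable def cpA (F : Type) [Field F] : Alg F where
  T X := Ch F X ⊗[F] Ch F X
  acg X := inferInstance
  mod X := inferInstance
  tm f := TensorProduct.map (map f) (map f)
  p x := pt x ⊗ₜ pt x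
  u X := TensorProduct.map unc (map (ev X 0)) + TensorProduct.map (om ∘ₗ map (ev X 1)) unc
  tm_p f x := by simp
  tm_u f t := by
    induction t using TensorProduct.induction_on with
    | zero => simp
    | add a b ha hb => simp only [map_add, ha, hb]
    | tmul a b => simp [map_unc, map_map, ev_post, om_map]
  u_cst X _ t := by
    induction t using TensorProduct.induction_on with
    | zero => simp; rfl
    | add a b ha hb => simp only [map_add, ha, hb]; exact add_zero _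
    | tmul a b => simp [unc_cst]; rfl
  u_flp X _ t := by
    induction t using TensorProduct.induction_on with
    | zero => simp
    | add a b ha hb => simp only [map_add, ha, hb, neg_add]
    | tmul a b =>
      have e1 : (ev X 0).comp ((ev C(I, X) 0).comp (flp X)) = (ev X 0).comp (ev C(I, X) 0) := rfl
      have e2 : (ev X 1).comp ((ev C(I, X) 1).comp (flp X)) = (ev X 1).comp (ev C(I, X) 1) := rfl
      simp only [LinearMap.add_apply, TensorProduct.map_tmul, map_add, LinearMap.comp_apply,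
        unc_flp, map_unc, om_unc, om_map, map_map, ev_flp, postev_flp, neg_tmul, tmul_neg]
      have e3 : (ev X 0).comp (post (ev X 0)) = (ev X 0).comp (ev C(I, X) 0) := rfl
      have e4 : (ev X 1).comp (post (ev X 1)) = (ev X 1).comp (ev C(I, X) 1) := rfl
      rw [e3, e4]
      abel

/-- a path in the square, depending on a parameter -/
abbrev Pc : Type := C(I × I, I × I)

/-- the reparametrisation of a pair of paths along a path in the square -/
def opM (a : Pc) (Z : Type) [TopologicalSpace Z] :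
    C(C(I, C(I, Z) × C(I, Z)), C(I, C(I, Z × Z))) :=
  ContinuousMap.curry (ContinuousMap.curry
    ⟨fun w : (C(I, C(I, Z) × C(I, Z)) × I) × I =>
      ((w.1.1 w.2).1 (a (w.2, w.1.2)).1, (w.1.1 w.2).2 (a (w.2, w.1.2)).2), by fun_prop⟩)

/-- recursion data for the operator given by two paths in the square -/
noncomputable def opA (F : Type) [Field F] (a b : Pc) : Alg F where
  T Z := Ch F C(I, Z × Z)
  acg X := inferInstance
  mod X := inferInstance
  tm f := map (post (f.prodMap f))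
  p z := pt (cst _ (z, z))
  u Z := unc ∘ₗ (map (opM a Z) + map (opM b Z))
  tm_p f x := by simp; rfl
  tm_u f t := by
    simp only [LinearMap.comp_apply, LinearMap.add_apply, map_add, map_unc, map_map]
    rfl
  u_cst X _ t := by
    have e : ∀ a : Pc, (opM a X).comp (post ((cst X).prodMap (cst X))) = cst _ := fun a => rfl
    simp only [LinearMap.comp_apply, LinearMap.add_apply, map_add, map_map, e, unc_cst]
    exact add_zero _
  u_flp X _ t := by
    have e : ∀ a b : Pc, (post (opM a X)).comp ((opM b C(I, X)).comp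
        (post ((flp X).prodMap (flp X)))) =
        (flp _).comp ((post (opM b X)).comp (opM a C(I, X))) := fun a b => rfl
    simp only [LinearMap.comp_apply, LinearMap.add_apply, map_add, map_unc, map_map, e]
    simp only [← map_map (flp _), unc_flp]
    abel

/-- the first half of the interval -/
noncomputable def hl : C(I, I) :=
  ⟨fun s => ⟨s / 2, by constructor <;> linarith [s.2.1, s.2.2]⟩, by fun_prop⟩
/-- the second half of the interval -/
noncomputable def hr : C(I, I) :=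
  ⟨fun s => ⟨(1 + s) / 2, by constructor <;> linarith [s.2.1, s.2.2]⟩, by fun_prop⟩

/-- reparametrisation of paths -/
def prec (φ : C(I, I)) (X : Type) [TopologicalSpace X] : C(C(I, X), C(I, X)) :=
  ⟨fun g => g.comp φ, ContinuousMap.continuous_precomp φ⟩

/-- recursion data for the subdivision -/
noncomputable def sdA (F : Type) [Field F] : Alg F where
  T X := Ch F X
  acg X := inferInstance
  mod X := inferInstance
  tm f := map f
  p x := pt x
  u X := unc ∘ₗ (map (prec hl X) + map (prec hr X))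
  tm_p f x := by simp
  tm_u f t := by
    simp only [LinearMap.comp_apply, LinearMap.add_apply, map_add, map_unc, map_map]
    rfl
  u_cst X _ t := by
    have e : ∀ a : C(I, I), (prec a X).comp (cst X) = cst _ := fun a => rfl
    simp only [LinearMap.comp_apply, LinearMap.add_apply, map_add, map_map, e, unc_cst]
    exact add_zero _
  u_flp X _ t := by
    have e : ∀ a b : C(I, I), (post (prec a X)).comp ((prec b C(I, X)).comp (flp X)) =
        (flp _).comp ((post (prec b X)).comp (prec a C(I, X))) := fun a b => rfl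
    simp only [LinearMap.comp_apply, LinearMap.add_apply, map_add, map_unc, map_map, e]
    simp only [← map_map (flp _), unc_flp]
    abel

section
variable {X Y Z : Type} [TopologicalSpace X] [TopologicalSpace Y] [TopologicalSpace Z]

/-- the diagonal approximation -/
noncomputable def diagC : Ch F X →ₗ[F] Ch F X ⊗[F] Ch F X := (cpA F).lift X
/-- the splitting of a chain of a product -/
noncomputable def cop : Ch F (X × Y) →ₗ[F] Ch F X ⊗[F] Ch F Y :=
  TensorProduct.map (map ContinuousMap.fst) (map ContinuousMap.snd) ∘ₗ diagC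
/-- the cross product on the tensor product -/
noncomputable def kap : Ch F X ⊗[F] Ch F Y →ₗ[F] Ch F (X × Y) := TensorProduct.lift cross
/-- the boundary on the tensor product -/
noncomputable def tbd : Ch F X ⊗[F] Ch F Y →ₗ[F] Ch F X ⊗[F] Ch F Y :=
  TensorProduct.map bd LinearMap.id + TensorProduct.map om bd
/-- the operator given by two paths in the square -/
noncomputable def opr (a b : Pc) : Ch F X →ₗ[F] Ch F C(I, X × X) := (opA F a b).lift X
/-- the subdivision -/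
noncomputable def sd : Ch F X →ₗ[F] Ch F X := (sdA F).lift X

theorem diagC_pt (x : X) : diagC (pt x : Ch F X) = pt x ⊗ₜ pt x := (cpA F).lift_pt x
theorem diagC_unc (c : Ch F C(I, X)) : diagC (unc c) =
    TensorProduct.map unc (map (ev X 0)) (diagC c) +
      TensorProduct.map (om ∘ₗ map (ev X 1)) unc (diagC c) := (cpA F).lift_unc c
theorem diagC_map (f : C(X, Y)) (c : Ch F X) :
    diagC (map f c) = TensorProduct.map (map f) (map f) (diagC c) := (cpA F).lift_map f c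

theorem opr_pt (a b : Pc) (x : X) : opr a b (pt x : Ch F X) = pt (cst _ (x, x)) :=
  (opA F a b).lift_pt x
theorem opr_unc (a b : Pc) (c : Ch F C(I, X)) : opr a b (unc c) =
    unc (map (opM a X) (opr a b c)) + unc (map (opM b X) (opr a b c)) :=
  ((opA F a b).lift_unc c).trans (map_add unc _ _)
theorem opr_map (a b : Pc) (f : C(X, Y)) (c : Ch F X) :
    opr a b (map f c) = map (post (f.prodMap f)) (opr a b c) := (opA F a b).lift_map f c

@[simp] theorem sd_pt (x : X) : sd (pt x : Ch F X) = pt x := (sdA F).lift_pt x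
theorem sd_unc (c : Ch F C(I, X)) :
    sd (unc c) = unc (map (prec hl X) (sd c)) + unc (map (prec hr X) (sd c)) :=
  ((sdA F).lift_unc c).trans (map_add unc _ _)
theorem sd_map (f : C(X, Y)) (c : Ch F X) : sd (map f c) = map f (sd c) := (sdA F).lift_map f c

/-- the span of the tensors of two submodules -/
noncomputable def TS {P Q : Type} [AddCommGroup P] [Module F P] [AddCommGroup Q] [Module F Q]
    (A : Submodule F P) (B : Submodule F Q) : Submodule F (P ⊗[F] Q) :=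
  Submodule.span F {w | ∃ a ∈ A, ∃ b ∈ B, w = a ⊗ₜ b}

end

end Pool.Agent.Fu
end

-- part Pool.Agent.P.MP_365c00_gt.ZG2
section

/-! Sequences: obstruction arguments and induced complexes. -/

set_option linter.unusedSectionVars false
set_option linter.unusedVariables false

open Set TensorProduct

namespace Pool.Agent.Fu

variable {F : Type} [Field F] {P P' : Type} [AddCommGroup P] [Module F P] [AddCommGroup P']
  [Module F P']

variable {q : ℕ} {G : GC F q P} {A B : Submodule F P} {H : ℕ → Submodule F P}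

theorem GC.zg2_cyc (hB : G.St B) {r : ℕ} {x h : ℕ → P}
    (h1 : G.d (x (r + 1)) - G.T r (x r) ∈ B) (hn : G.NulBy A B r x h) :
    G.d (x (r + 1) - G.T r (h r)) ∈ B := by
  have h2 : G.T r (x r - G.d (h r)) ∈ B := by
    rcases r with _ | r
    · exact hB.T 0 hn.2.1
    · have h3 := hB.T (r + 1) (hn.2.2 r (Nat.lt_succ_self r))
      rwa [map_sub, G.T_T, sub_zero] at h3
  have e : G.d (x (r + 1) - G.T r (h r)) =
      (G.d (x (r + 1)) - G.T r (x r)) + G.T r (x r - G.d (h r)) := by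
    rw [map_sub, map_sub, G.d_T]; abel
  rw [e]
  exact B.add_mem h1 h2

theorem GC.zg2_ext {r : ℕ} {x h : ℕ → P} (hn : G.NulBy A B r x h) {h' : P} (hA : h' ∈ A)
    (hb : x (r + 1) - G.d h' - G.T r (h r) ∈ B) :
    G.NulBy A B (r + 1) x (Function.update h (r + 1) h') := by
  refine ⟨fun j hj => ?_, ?_, fun j hj => ?_⟩
  · rcases Nat.lt_or_eq_of_le hj with hj | rfl
    · rw [Function.update_of_ne (by omega)]; exact hn.1 j (by omega)
    · rw [Function.update_self]; exact hA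
  · rw [Function.update_of_ne (by omega)]; exact hn.2.1
  · rcases Nat.lt_or_eq_of_le (Nat.le_of_lt_succ hj) with hj | rfl
    · rw [Function.update_of_ne (by omega), Function.update_of_ne (by omega)]
      exact hn.2.2 j hj
    · rw [Function.update_self, Function.update_of_ne (by omega)]; exact hb

theorem zg2_deg {E : ℕ → Submodule F P} {r : ℕ} {h : ℕ → P} (hh : ∀ j ≤ r, h j ∈ E j) {h' : P}
    (hA : h' ∈ E (r + 1)) : ∀ j ≤ r + 1, Function.update h (r + 1) h' j ∈ E j := by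
  intro j hj
  rcases Nat.lt_or_eq_of_le hj with hj | rfl
  · rw [Function.update_of_ne (by omega)]; exact hh j (by omega)
  · rw [Function.update_self]; exact hA

theorem GC.zg2_congr {r : ℕ} {x y h : ℕ → P} (hn : G.NulBy A B r x h)
    (e : ∀ j ≤ r, y j = x j) : G.NulBy A B r y h :=
  ⟨hn.1, by rw [e 0 (Nat.zero_le r)]; exact hn.2.1,
    fun j hj => by rw [e (j + 1) hj]; exact hn.2.2 j hj⟩

theorem GC.zg2_mono {A1 B1 : Submodule F P} {r : ℕ} {x h : ℕ → P} (hn : G.NulBy A B r x h)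
    (hA : A ≤ A1) (hB : B ≤ B1) : G.NulBy A1 B1 r x h :=
  ⟨fun j hj => hA (hn.1 j hj), hB hn.2.1, fun j hj => hB (hn.2.2 j hj)⟩

theorem GC.zg2_pow (hA : G.St A) (i : ℕ) {c : P} (hc : c ∈ A) : (G.s ^ i) c ∈ A := by
  induction i with
  | zero => simpa using hc
  | succ i ih => rw [pow_succ', Module.End.mul_apply]; exact hA.2 _ ih

theorem GC.zg2_dpow (G : GC F q P) (i : ℕ) (c : P) : G.d ((G.s ^ i) c) = (G.s ^ i) (G.d c) := by
  induction i with
  | zero => simp
  | succ i ih => rw [pow_succ', Module.End.mul_apply, Module.End.mul_apply, G.ds, ih]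

theorem GC.zg2_St (m : ℕ) (A : ℕ → Submodule F P) (hA : ∀ i, G.St (A i)) :
    G.St (⨆ j < m, A j) := by
  constructor
  · have : (⨆ j < m, A j) ≤ (⨆ j < m, A j).comap G.d :=
      iSup₂_le fun j hj c hc => (le_iSup₂_of_le (f := fun j (_ : j < m) => A j) j hj le_rfl :
        A j ≤ ⨆ j < m, A j) ((hA j).1 c hc)
    exact fun c hc => this hc
  · have : (⨆ j < m, A j) ≤ (⨆ j < m, A j).comap G.s :=
      iSup₂_le fun j hj c hc => (le_iSup₂_of_le (f := fun j (_ : j < m) => A j) j hj le_rfl :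
        A j ≤ ⨆ j < m, A j) ((hA j).2 c hc)
    exact fun c hc => this hc

/-- no obstruction: a sequence with null first term is null -/
theorem GC.nul_of_van (hH : G.Gr H) (hA : G.St A) (hB : G.St B) {D R : ℕ} {x : ℕ → P}
    (hx : G.Seq A B R x) (hd : ∀ j ≤ R, x j ∈ H (D + j))
    (h0 : ∃ h ∈ A, h ∈ H (D + 1) ∧ x 0 - G.d h ∈ B)
    (hv : ∀ j, 1 ≤ j → j ≤ R → Van G.d H (D + j) A B A B) :
    ∃ h, G.NulBy A B R x h ∧ ∀ j ≤ R, h j ∈ H (D + j + 1) := by
  have key : ∀ r ≤ R, ∃ h, G.NulBy A B r x h ∧ ∀ j ≤ r, h j ∈ H (D + j + 1) := by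
    intro r
    induction r with
    | zero =>
      intro _
      obtain ⟨h, h1, h2, h3⟩ := h0
      refine ⟨fun _ => h, ⟨fun _ _ => h1, h3, fun j hj => absurd hj (Nat.not_lt_zero j)⟩,
        fun j hj => ?_⟩
      obtain rfl : j = 0 := by omega
      exact h2
    | succ r ih =>
      intro hr
      obtain ⟨h, hn, hh⟩ := ih (by omega)
      obtain ⟨h', a1, a2, a3⟩ := hv (r + 1) (by omega) hr (x (r + 1) - G.T r (h r))
        (A.sub_mem (hx.1 _ hr) (hA.T r (hn.1 r le_rfl)))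
        ((H _).sub_mem (hd _ hr) (hH.T r (hh r le_rfl)))
        (GC.zg2_cyc hB (hx.2.2 r hr) hn)
      refine ⟨_, GC.zg2_ext hn a1 ?_, zg2_deg (E := fun j => H (D + j + 1)) hh a2⟩
      rwa [sub_right_comm] at a3
  exact key R le_rfl

/-- one obstruction, at the even place `m` -/
theorem GC.nul_sub_sq [CharP F q] (hH : G.Gr H) (hA : G.St A) (hB : G.St B) {D R m : ℕ}
    (hm : Even m) {x : ℕ → P} (hx : G.Seq A B R x) (hd : ∀ j ≤ R, x j ∈ H (D + j)) {g : P}
    (hg : g ∈ A) (hgH : g ∈ H (D + m)) (hgd : G.d g ∈ B) (hgs : G.s g = g)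
    (hv : ∀ j ≤ R, j ≠ m → Van G.d H (D + j) A B A B)
    (hs : ∀ c ∈ A, c ∈ H (D + m) → G.d c ∈ B →
      ∃ r : F, ∃ h ∈ A, h ∈ H (D + m + 1) ∧ c - r • g - G.d h ∈ B) :
    ∃ r : F, G.Nul A B R fun j => x j - r • sq m g j := by
  have hsq := GC.seq_sq hg hgd hgs m R
  have key : ∀ r ≤ R, ∃ (ρ : F) (h : ℕ → P), G.NulBy A B r (fun j => x j - ρ • sq m g j) h ∧
      ∀ j ≤ r, h j ∈ H (D + j + 1) := by
    intro r
    induction r with
    | zero =>
      intro hR
      have : ∃ (ρ : F) (h : P), h ∈ A ∧ h ∈ H (D + 0 + 1) ∧ x 0 - ρ • sq m g 0 - G.d h ∈ B := by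
        by_cases e : m = 0
        · subst e
          obtain ⟨ρ, h, h1, h2, h3⟩ := hs (x 0) (hx.1 0 hR) (hd 0 hR) hx.2.1
          exact ⟨ρ, h, h1, h2, by simpa [sq] using h3⟩
        · obtain ⟨h, h1, h2, h3⟩ := hv 0 hR (Ne.symm e) (x 0) (hx.1 0 hR) (hd 0 hR) hx.2.1
          exact ⟨0, h, h1, h2, by simpa using h3⟩
      obtain ⟨ρ, h, h1, h2, h3⟩ := this
      refine ⟨ρ, fun _ => h, ⟨fun _ _ => h1, h3, fun j hj => absurd hj (Nat.not_lt_zero j)⟩,
        fun j hj => ?_⟩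
      obtain rfl : j = 0 := by omega
      exact h2
    | succ r ih =>
      intro hr
      obtain ⟨ρ, h, hn, hh⟩ := ih (by omega)
      have cA : x (r + 1) - G.T r (h r) ∈ A := A.sub_mem (hx.1 _ hr) (hA.T r (hn.1 r le_rfl))
      have cH : x (r + 1) - G.T r (h r) ∈ H (D + (r + 1)) :=
        (H _).sub_mem (hd _ hr) (hH.T r (hh r le_rfl))
      by_cases e : r + 1 = m
      · subst e
        have z : ∀ j ≤ r, sq (r + 1) g j = 0 := fun j hj => if_neg (by omega)
        have hn' : G.NulBy A B r x h := GC.zg2_congr hn fun j hj => by simp [z j hj]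
        obtain ⟨ρ', h', a1, a2, a3⟩ := hs _ cA cH (GC.zg2_cyc hB (hx.2.2 r hr) hn')
        have hn'' : G.NulBy A B r (fun j => x j - ρ' • sq (r + 1) g j) h :=
          GC.zg2_congr hn' fun j hj => by simp [z j hj]
        refine ⟨ρ', _, GC.zg2_ext hn'' a1 ?_, zg2_deg (E := fun j => H (D + j + 1)) hh a2⟩
        have e1 : sq (r + 1) g (r + 1) = g := if_pos rfl
        have e2 : x (r + 1) - ρ' • sq (r + 1) g (r + 1) - G.d h' - G.T r (h r) =
            x (r + 1) - G.T r (h r) - ρ' • g - G.d h' := by rw [e1]; abel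
        rw [e2]; exact a3
      · have z : sq m g (r + 1) = 0 := if_neg e
        have h1 : G.d (x (r + 1) - ρ • sq m g (r + 1)) - G.T r (x r - ρ • sq m g r) ∈ B := by
          have e2 : G.d (x (r + 1) - ρ • sq m g (r + 1)) - G.T r (x r - ρ • sq m g r) =
              (G.d (x (r + 1)) - G.T r (x r)) -
                ρ • (G.d (sq m g (r + 1)) - G.T r (sq m g r)) := by
            simp only [map_sub, map_smul, smul_sub]; abel
          rw [e2]
          exact B.sub_mem (hx.2.2 r hr) (B.smul_mem ρ (hsq.2.2 r hr))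
        have h2 := GC.zg2_cyc (x := fun j => x j - ρ • sq m g j) hB h1 hn
        simp only [z, smul_zero, sub_zero] at h2
        obtain ⟨h', a1, a2, a3⟩ := hv (r + 1) hr e _ cA cH h2
        refine ⟨ρ, _, GC.zg2_ext hn a1 ?_, zg2_deg (E := fun j => H (D + j + 1)) hh a2⟩
        simp only [z, smul_zero, sub_zero]
        rwa [sub_right_comm] at a3
  obtain ⟨ρ, h, hn, -⟩ := key R le_rfl
  exact ⟨ρ, h, hn⟩

/-- continuation of a low representative beyond the order `r` -/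
theorem GC.tail (hH : G.Gr H) {A B : ℝ → Submodule F P} (hAm : Monotone A) (hBm : Monotone B)
    (hA : ∀ t, G.St (A t)) (hB : ∀ t, G.St (B t)) {D r R : ℕ} (hrR : r ≤ R) {lo top η : ℝ}
    (hη : 0 ≤ η) (hlt : lo + η ≤ top) {x l h : ℕ → P} (hx : G.Seq (A top) (B top) R x)
    (hxd : ∀ j ≤ R, x j ∈ H (D + j)) (hl : G.Seq (A lo) (B lo) r l)
    (hld : ∀ j ≤ r, l j ∈ H (D + j)) (hh : G.NulBy (A top) (B top) r (fun j => x j - l j) h)
    (hhd : ∀ j ≤ r, h j ∈ H (D + j + 1))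
    (hv : ∀ (i : ℕ) (t : ℝ), r + i ≤ R → t ≤ top + i * η →
      Van G.d H (D + r + i) (A t) (B t) (A (t + η)) (B (t + η))) :
    G.Nul (A (top + (R - r : ℕ) * η)) (B (top + (R - r : ℕ) * η) ⊔ A (lo + (R - r : ℕ) * η)) R x := by
  have key : ∀ i : ℕ, r + i ≤ R → ∃ l h : ℕ → P,
      G.Seq (A (lo + i * η)) (B (lo + i * η)) (r + i) l ∧ (∀ j ≤ r + i, l j ∈ H (D + j)) ∧
      G.NulBy (A (top + i * η)) (B (top + i * η)) (r + i) (fun j => x j - l j) h ∧
      ∀ j ≤ r + i, h j ∈ H (D + j + 1) := by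
    intro i
    induction i with
    | zero =>
      intro _
      refine ⟨l, h, ?_, hld, ?_, hhd⟩
      · simpa using hl
      · simpa using hh
    | succ i ih =>
      intro hi
      obtain ⟨l, h, b1, b2, b3, b4⟩ := ih (by omega)
      have i0 : (0 : ℝ) ≤ i * η := by positivity
      have c1 : G.d (G.T (r + i) (l (r + i))) ∈ B (lo + i * η) := by
        rw [G.d_T]
        rcases hm : r + i with _ | m
        · exact (hB _).T 0 b1.2.1
        · have h3 := (hB _).T (m + 1) (b1.2.2 m (by omega))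
          rwa [map_sub, G.T_T, sub_zero] at h3
      obtain ⟨l', a1, a2, a3⟩ := hv i (lo + i * η) (by omega) (by linarith) _
        ((hA _).T (r + i) (b1.1 _ le_rfl))
        (by rw [add_assoc]; exact hH.T (r + i) (b2 _ le_rfl)) c1
      have a4 : G.d l' - G.T (r + i) (l (r + i)) ∈ B (lo + i * η + η) := by
        rw [← neg_sub]; exact (B _).neg_mem a3
      have a2' : l' ∈ H (D + (r + i + 1)) := by rw [← add_assoc, ← add_assoc]; exact a2
      have u1 : Function.update l (r + i + 1) l' (r + i + 1) = l' := Function.update_self ..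
      have u2 : ∀ j ≤ r + i, Function.update l (r + i + 1) l' j = l j := fun j hj =>
        Function.update_of_ne (by omega) ..
      have b3' : G.NulBy (A (top + i * η)) (B (top + i * η)) (r + i)
          (fun j => x j - Function.update l (r + i + 1) l' j) h :=
        GC.zg2_congr b3 fun j hj => by rw [u2 j hj]
      have h1 : G.d (x (r + i + 1) - Function.update l (r + i + 1) l' (r + i + 1)) -
          G.T (r + i) (x (r + i) - Function.update l (r + i + 1) l' (r + i)) ∈ B (top + i * η) := by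
        rw [u1, u2 _ le_rfl]
        have e2 : G.d (x (r + i + 1) - l') - G.T (r + i) (x (r + i) - l (r + i)) =
            (G.d (x (r + i + 1)) - G.T (r + i) (x (r + i))) -
              (G.d l' - G.T (r + i) (l (r + i))) := by
          simp only [map_sub]; abel
        rw [e2]
        exact (B _).sub_mem (hBm (by linarith) (hx.2.2 _ (by omega))) (hBm (by linarith) a4)
      have h2 := GC.zg2_cyc (x := fun j => x j - Function.update l (r + i + 1) l' j) (hB _) h1 b3'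
      have e0 : ((i + 1 : ℕ) : ℝ) * η = i * η + η := by push_cast; ring
      obtain ⟨h', d1, d2, d3⟩ := hv (i + 1) (top + i * η) hi (by rw [e0]; linarith) _
        ((A _).sub_mem ((A _).sub_mem (hAm (by linarith) (hx.1 _ hi))
          (by rw [u1]; exact hAm (by linarith) a1)) ((hA _).T (r + i) (b3.1 _ le_rfl)))
        (by
          rw [add_assoc]
          exact (H _).sub_mem ((H _).sub_mem (hxd _ hi) (by rw [u1]; exact a2'))
            (hH.T (r + i) (b4 _ le_rfl))) h2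
      rw [e0, ← add_assoc lo, ← add_assoc top]
      refine ⟨Function.update l (r + i + 1) l', Function.update h (r + i + 1) h', ⟨?_, ?_, ?_⟩,
        zg2_deg (E := fun j => H (D + j)) b2 a2', ?_,
        zg2_deg (E := fun j => H (D + j + 1)) b4 (by rw [add_assoc D r] at d2; exact d2)⟩
      · exact zg2_deg (E := fun _ => A (lo + i * η + η))
          (fun j hj => hAm (by linarith) (b1.1 j hj)) a1
      · rw [u2 0 (Nat.zero_le _)]; exact hBm (by linarith) b1.2.1
      · intro j hj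
        have hj' : j < r + i ∨ j = r + i := by omega
        rcases hj' with hj | rfl
        · rw [u2 _ hj, u2 _ hj.le]; exact hBm (by linarith) (b1.2.2 j hj)
        · rw [u1, u2 _ le_rfl]; exact a4
      · refine GC.zg2_ext (GC.zg2_mono b3' (hAm (by linarith)) (hBm (by linarith))) d1 ?_
        rwa [sub_right_comm] at d3
  obtain ⟨l, h, b1, -, b3, -⟩ := key (R - r) (by omega)
  rw [Nat.add_sub_cancel' hrR] at b1 b3
  refine GC.Nul.congr (x := fun j => x j - l j) ⟨h, GC.zg2_mono b3 le_rfl le_sup_left⟩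
    fun j hj => ?_
  rw [sub_sub_cancel_left]
  exact Submodule.neg_mem _ (Submodule.mem_sup_right (b1.1 j hj))

/-- a piece of a sequence, without initial condition -/
def GC.Seq' (G : GC F q P) (A B : Submodule F P) (R : ℕ) (x : ℕ → P) : Prop :=
  (∀ j ≤ R, x j ∈ A) ∧ ∀ j < R, G.d (x (j + 1)) - G.T j (x j) ∈ B

theorem GC.Ind.pair (h : G.Ind A B) (hA : G.St A) (hB : G.St B) :
    ∃ k k' : P →ₗ[F] P, ∀ c ∈ A, k c ∈ A ∧ k' c ∈ A ∧ (c ∈ B → k c ∈ B ∧ k' c ∈ B) ∧
      G.d (k c) = k (G.d c) ∧ G.d (k' c) = k' (G.d c) ∧ G.T 1 (k c) + k' (G.T 0 c) = c ∧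
      G.T 0 (k' c) + k (G.T 1 c) = c := by
  obtain ⟨p, p1, p2, p3, p4⟩ := h
  have T0 : G.T 0 = G.s - 1 := if_pos Even.zero
  have T1 : G.T 1 = ∑ i ∈ Finset.range q, G.s ^ i := if_neg Nat.not_even_one
  have hk : ∀ c, (∑ i ∈ Finset.range q,
      (∑ j ∈ Finset.range i, G.s ^ j) ∘ₗ p ∘ₗ (G.s ^ (q - i)) : P →ₗ[F] P) c =
      ∑ i ∈ Finset.range q, ∑ j ∈ Finset.range i, (G.s ^ j) (p ((G.s ^ (q - i)) c)) := by
    intro c
    simp only [LinearMap.sum_apply, LinearMap.comp_apply]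
  refine ⟨p ∘ₗ G.s, ∑ i ∈ Finset.range q,
    (∑ j ∈ Finset.range i, G.s ^ j) ∘ₗ p ∘ₗ (G.s ^ (q - i)), fun c hc => ?_⟩
  simp only [hk, LinearMap.comp_apply]
  refine ⟨p1 _ (hA.2 c hc), ?_, fun hb => ⟨p2 _ (hA.2 c hc) (hB.2 c hb), ?_⟩, ?_, ?_, ?_, ?_⟩
  · exact A.sum_mem fun i _ => A.sum_mem fun j _ =>
      GC.zg2_pow hA j (p1 _ (GC.zg2_pow hA _ hc))
  · exact B.sum_mem fun i _ => B.sum_mem fun j _ =>
      GC.zg2_pow hB j (p2 _ (GC.zg2_pow hA _ hc) (GC.zg2_pow hB _ hb))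
  · rw [p3 _ (hA.2 c hc), G.ds]
  · rw [map_sum]
    refine Finset.sum_congr rfl fun i _ => ?_
    rw [map_sum]
    refine Finset.sum_congr rfl fun j _ => ?_
    rw [G.zg2_dpow, p3 _ (GC.zg2_pow hA _ hc), G.zg2_dpow]
  · have key : ∀ n ≤ q, ∑ i ∈ Finset.range n, ∑ j ∈ Finset.range i,
        (G.s ^ j) (p ((G.s ^ (q - i)) (G.T 0 c))) +
        ∑ j ∈ Finset.range n, (G.s ^ j) (p ((G.s ^ (q - n)) (G.s c))) =
        ∑ i ∈ Finset.range n, (G.s ^ i) (p ((G.s ^ (q - i)) c)) := by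
      intro n
      induction n with
      | zero => intro _; simp
      | succ n ih =>
        intro hn
        have e1 : (G.s ^ (q - (n + 1))) (G.s c) = (G.s ^ (q - n)) c := by
          rw [← Module.End.mul_apply, ← pow_succ]
          congr 2; omega
        have e2 : ∑ j ∈ Finset.range n, (G.s ^ j) (p ((G.s ^ (q - n)) (G.T 0 c))) =
            ∑ j ∈ Finset.range n, (G.s ^ j) (p ((G.s ^ (q - n)) (G.s c))) -
            ∑ j ∈ Finset.range n, (G.s ^ j) (p ((G.s ^ (q - n)) c)) := by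
          rw [← Finset.sum_sub_distrib]
          refine Finset.sum_congr rfl fun j _ => ?_
          rw [T0, LinearMap.sub_apply, Module.End.one_apply, map_sub, map_sub, map_sub]
        rw [Finset.sum_range_succ, Finset.sum_range_succ, Finset.sum_range_succ, ← ih (by omega),
          e1, e2]
        abel
    have h1 := key q le_rfl
    rw [p4 c hc, Nat.sub_self, pow_zero, Module.End.one_apply] at h1
    rw [T1, LinearMap.sum_apply, add_comm]
    exact h1
  · have e1 : ∀ (i : ℕ) (y : P), G.T 0 (∑ j ∈ Finset.range i, (G.s ^ j) y) = (G.s ^ i) y - y := by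
      intro i y
      rw [← LinearMap.sum_apply, ← Module.End.mul_apply, T0, mul_geom_sum, LinearMap.sub_apply,
        Module.End.one_apply]
    have e2 : G.s (G.T 1 c) = ∑ i ∈ Finset.range q, (G.s ^ (q - i)) c := by
      rw [T1, LinearMap.sum_apply, map_sum, ← Finset.sum_range_reflect]
      refine Finset.sum_congr rfl fun i hi => ?_
      rw [← Module.End.mul_apply, ← pow_succ']
      have := Finset.mem_range.1 hi
      congr 2; omega
    rw [map_sum, e2, map_sum]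
    simp only [e1]
    rw [Finset.sum_sub_distrib, p4 c hc, sub_add_cancel]

/-- in an induced complex a piece of a sequence is null, with one more term at the left -/
theorem GC.Ind.nul (h : G.Ind A B) (hA : G.St A) (hB : G.St B) {R : ℕ} {x : ℕ → P}
    (hx : G.Seq' A B (R + 1) x) :
    ∃ k : ℕ → P, (∀ j ≤ R + 1, k j ∈ A) ∧
      ∀ j ≤ R, x j - G.d (k (j + 1)) - G.T (j + 1) (k j) ∈ B := by
  obtain ⟨k, k', hk⟩ := h.pair hA hB
  have Te : ∀ j, Even j → G.T j = G.T 0 := fun j hj => by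
    unfold GC.T; rw [if_pos hj, if_pos Even.zero]
  have To : ∀ j, ¬ Even j → G.T j = G.T 1 := fun j hj => by
    unfold GC.T; rw [if_neg hj, if_neg Nat.not_even_one]
  refine ⟨fun j => if Even j then k (x j) else k' (x j), fun j hj => ?_, fun j hj => ?_⟩
  · show (if Even j then k (x j) else k' (x j)) ∈ A
    split_ifs
    · exact (hk _ (hx.1 j hj)).1
    · exact (hk _ (hx.1 j hj)).2.1
  · have a0 := hx.1 j (by omega)
    have a1 := hx.1 (j + 1) (by omega)
    have a2 := hx.2 j (by omega)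
    have a3 : G.d (x (j + 1)) - G.T j (x j) ∈ A := A.sub_mem (hA.1 _ a1) (hA.T j a0)
    obtain ⟨b1, b2⟩ := (hk _ a3).2.2.1 a2
    by_cases e : Even j
    · have e' : ¬ Even (j + 1) := by rw [Nat.even_add_one]; exact fun h => h e
      simp only [if_pos e, if_neg e']
      rw [To _ e', (hk _ a1).2.2.2.2.1]
      rw [Te _ e, map_sub] at b2
      have b3 := (hk _ a0).2.2.2.2.2.1
      have e3 : x j - k' (G.d (x (j + 1))) - G.T 1 (k (x j)) =
          -(k' (G.d (x (j + 1))) - k' (G.T 0 (x j))) := by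
        rw [← sub_eq_iff_eq_add'.2 b3.symm]; abel
      rw [e3]; exact B.neg_mem b2
    · have e' : Even (j + 1) := by rw [Nat.even_add_one]; exact e
      simp only [if_neg e, if_pos e']
      rw [Te _ e', (hk _ a1).2.2.2.1]
      rw [To _ e, map_sub] at b1
      have b3 := (hk _ a0).2.2.2.2.2.2
      have e3 : x j - k (G.d (x (j + 1))) - G.T 0 (k' (x j)) =
          -(k (G.d (x (j + 1))) - k (G.T 1 (x j))) := by
        rw [← sub_eq_iff_eq_add'.2 b3.symm]; abel
      rw [e3]; exact B.neg_mem b1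

/-- a sum of `m` induced complexes -/
theorem GC.nil (m : ℕ) (A : ℕ → Submodule F P) (hA : ∀ i, G.St (A i)) (hB : G.St B)
    (hI : ∀ i < m, G.Ind (A i) ((⨆ j < i, A j) ⊔ B)) {x : ℕ → P}
    (hx : G.Seq' (⨆ j < m, A j) B m x) :
    ∃ a ∈ ⨆ j < m, A j, ∃ b ∈ ⨆ j < m, A j, x 0 - G.d a - G.T 1 b ∈ B := by
  induction m generalizing x with
  | zero =>
    have h0 := hx.1 0 le_rfl
    have e : (⨆ j < 0, A j) = ⊥ := by simp
    rw [e, Submodule.mem_bot] at h0
    exact ⟨0, Submodule.zero_mem _, 0, Submodule.zero_mem _, by simp [h0]⟩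
  | succ m ih =>
    have hS := GC.zg2_St m A hA
    have e : (⨆ j < m + 1, A j) = (⨆ j < m, A j) ⊔ A m := Nat.iSup_lt_succ A m
    rw [e] at hx ⊢
    set S := ⨆ j < m, A j with hSd
    have h1 : ∀ j, ∃ y, j ≤ m + 1 → y ∈ A m ∧ x j - y ∈ S := by
      intro j
      by_cases hj : j ≤ m + 1
      · obtain ⟨z, hz, y, hy, e⟩ := Submodule.mem_sup.1 (hx.1 j hj)
        exact ⟨y, fun _ => ⟨hy, by rw [← e, add_sub_cancel_right]; exact hz⟩⟩
      · exact ⟨0, fun h => absurd h hj⟩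
    choose y hy using h1
    have hy' : G.Seq' (A m) (S ⊔ B) (m + 1) y := by
      refine ⟨fun j hj => (hy j hj).1, fun j hj => ?_⟩
      have e2 : G.d (y (j + 1)) - G.T j (y j) =
          -(G.d (x (j + 1) - y (j + 1)) - G.T j (x j - y j)) + (G.d (x (j + 1)) - G.T j (x j)) := by
        simp only [map_sub]; abel
      rw [e2]
      exact Submodule.add_mem_sup (S.neg_mem (S.sub_mem (hS.1 _ (hy _ hj).2)
        (hS.T j (hy _ hj.le).2))) (hx.2 j hj)
    obtain ⟨k, k1, k2⟩ := (hI m (Nat.lt_succ_self m)).nul (hA m) (hS.sup hB) hy'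
    have h2 : ∀ j, ∃ b, j ≤ m → b ∈ B ∧ x j - G.d (k (j + 1)) - G.T (j + 1) (k j) - b ∈ S := by
      intro j
      by_cases hj : j ≤ m
      · obtain ⟨z, hz, b, hb, e⟩ := Submodule.mem_sup.1 (k2 j hj)
        refine ⟨b, fun _ => ⟨hb, ?_⟩⟩
        have e2 : x j - G.d (k (j + 1)) - G.T (j + 1) (k j) - b = (x j - y j) + z := by
          rw [eq_sub_of_add_eq e]; abel
        rw [e2]
        exact S.add_mem (hy j (by omega)).2 hz
      · exact ⟨0, fun h => absurd h hj⟩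
    choose b hb using h2
    have hx' : G.Seq' S B m fun j => x j - G.d (k (j + 1)) - G.T (j + 1) (k j) - b j := by
      refine ⟨fun j hj => (hb j hj).2, fun j hj => ?_⟩
      have t2 : G.T (j + 1 + 1) = G.T j := G.T_add_even j even_two
      have t3 : G.T j (G.T (j + 1) (k j)) = 0 := by rw [← t2]; exact G.T_T _ _
      have e2 : G.d (x (j + 1) - G.d (k (j + 1 + 1)) - G.T (j + 1 + 1) (k (j + 1)) - b (j + 1)) -
          G.T j (x j - G.d (k (j + 1)) - G.T (j + 1) (k j) - b j) =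
          (G.d (x (j + 1)) - G.T j (x j)) - G.d (b (j + 1)) + G.T j (b j) := by
        simp only [map_sub, G.dd, G.d_T, t2, t3]; abel
      rw [e2]
      exact B.add_mem (B.sub_mem (hx.2 j (by omega)) (hB.1 _ (hb _ hj).1)) (hB.T j (hb _ hj.le).1)
    obtain ⟨a, ha, c, hc, h3⟩ := ih (fun i hi => hI i (by omega)) hx'
    refine ⟨a + k 1, Submodule.add_mem_sup ha (k1 1 (by omega)), c + k 0,
      Submodule.add_mem_sup hc (k1 0 (by omega)), ?_⟩
    have e2 : x 0 - G.d (a + k 1) - G.T 1 (c + k 0) =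
        (x 0 - G.d (k (0 + 1)) - G.T (0 + 1) (k 0) - b 0 - G.d a - G.T 1 c) + b 0 := by
      simp only [map_add, zero_add]; abel
    rw [e2]
    exact B.add_mem h3 (hb 0 (Nat.zero_le m)).1

end Pool.Agent.Fu
end

-- part Pool.Agent.P.MP_365c00_gt.ZV
section

/-! Reduction to the orientable case. -/

set_option linter.unusedSectionVars false
set_option linter.unusedVariables false

open Set Filter Topology Metric Function MeasureTheory
open scoped Manifold ContDiff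
open Pool.Agent.GeoN

namespace Pool.Agent.Fu

variable {E : Type} [NormedAddCommGroup E] [InnerProductSpace ℝ E] [FiniteDimensional ℝ E]
  {M : Type} [TopologicalSpace M] [ChartedSpace E M] [IsManifold 𝓘(ℝ, E) ∞ M]
  [T2Space M] [CompactSpace M] [Nonempty M] [Nontrivial E] {g : Met E M}

theorem per_lift {N : Type} [TopologicalSpace N] {f : N → M} (cov : IsCoveringMap f)
    (two : ∀ a b c, f a = f b → f a = f c → a = b ∨ a = c ∨ b = c) {u : ℝ → N}
    (hc : Continuous u) {P : ℝ} (p1 : ∀ s, f (u (s + P)) = f (u s)) : Periodic u (P + P) := by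
  have key : ∀ a b : ℝ, (∀ s, f (u (s + a)) = f (u (s + b))) → u a = u b →
      ∀ s, u (s + a) = u (s + b) := fun a b h1 h2 s =>
    congrFun (cov.eq_of_comp_eq (g₁ := fun s => u (s + a)) (g₂ := fun s => u (s + b))
      (by fun_prop) (by fun_prop) (funext h1) 0 (by simpa using h2)) s
  have p2 : ∀ s, f (u (s + (P + P))) = f (u s) := fun s => by rw [← add_assoc, p1, p1]
  intro s
  rcases two (u 0) (u P) (u (P + P)) (by simpa using (p1 0).symm) (by simpa using (p2 0).symm)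
    with h | h | h
  · have := key 0 P (fun s => by rw [p1, add_zero]) h
    rw [← add_assoc, ← this, add_zero, ← this, add_zero]
  · rw [← key 0 (P + P) (fun s => by rw [p2, add_zero]) h, add_zero]
  · have := key P (P + P) (fun s => by rw [p1, p2]) h
    rw [← this, show s + P = s - P + (P + P) by ring, ← this, sub_add_cancel]

theorem finU_up {N : Type} [TopologicalSpace N] [ChartedSpace E N] [IsManifold 𝓘(ℝ, E) ∞ N]
    {f : N → M} {g' : Met E N} (h : Pull E f)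
    (hg : ∀ q, (g'.inner q : E →L[ℝ] E →L[ℝ] ℝ) = g.inner (f q)) (cov : IsCoveringMap f)
    (two : ∀ a b c, f a = f b → f a = f c → a = b ∨ a = c ∨ b = c) {x y : N}
    (hF : FinU g (f x) (f y)) : FinU g' x y := by
  obtain ⟨L, U, h1, h2, h3⟩ := hF
  have hd : ∀ u : UG g', ∃ v : UG g, ⇑v.1 = f ∘ u.1 := fun u =>
    ⟨⟨⟨f ∘ u.1, h.cont.comp u.1.continuous⟩, (h.ug_iff hg u.1.continuous).1 u.2⟩, rfl⟩
  choose d hd using hd
  refine ⟨L, {u | u.1 0 = x ∧ d u ∈ U}, ?_, fun u hu => ?_, fun u l hl hL hx hy =>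
    ⟨hx, h3 (d u) l hl hL (by rw [hd, comp_apply, hx]) (by rw [hd, comp_apply, hy])⟩⟩
  · refine Finite.of_injOn (f := d) (fun u hu => hu.2) (fun u hu u' hu' e => ?_) h1
    exact Subtype.ext (ContinuousMap.ext (congrFun (cov.eq_of_comp_eq u.1.continuous
      u'.1.continuous (by rw [← hd, ← hd, e]) 0 (hu.1.trans hu'.1.symm))))
  · obtain ⟨P, hP, hp⟩ := h2 _ hu.2
    rw [hd] at hp
    exact ⟨P + P, add_pos hP hP, per_lift cov two u.1.continuous hp⟩

theorem besse_cover [ConnectedSpace M] [MeasurableSpace (E × E)] [BorelSpace (E × E)]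
    (μ : Measure (E × E)) [μ.IsAddHaarMeasure]
    (H : ∀ (M' : Type) [TopologicalSpace M'] [ChartedSpace E M'] [IsManifold 𝓘(ℝ, E) ∞ M']
      [T2Space M'] [CompactSpace M'] [ConnectedSpace M'] (g' : Met E M'), OriL E M' →
      NP E μ {z : M' × M' | ¬ FinU g' z.1 z.2} → Bes g')
    (hf : NP E μ {z : M × M | ¬ FinU g z.1 z.2}) : Bes g := by
  obtain ⟨N, _, _, _, f, s, cov, sur, two, hs⟩ := exists_dc E M
  by_cases hN : PreconnectedSpace N
  · obtain ⟨_, h⟩ := exists_pull E cov.isLocalHomeomorph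
    have := h.isManifold
    obtain ⟨g', hg⟩ := h.exists_met g
    have : ConnectedSpace N := ⟨(sur (Classical.arbitrary M)).nonempty⟩
    have h1 : OriL E N := by
      refine ⟨s, fun q => ?_⟩
      filter_upwards [hs q, (source_open (E := E) q).mem_nhds (mem_extChartAt_source q)]
        with p h1 h2
      rw [dt_eq, ← h.tcc p h2, tcc_eq] at h1
      exact h1
    have h2 : NP E μ {z : N × N | ¬ FinU g' z.1 z.2} := fun x y => by
      refine measure_mono_null ?_ (hf (f x) (f y))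
      rintro _ ⟨⟨a, b⟩, ⟨h1, h2, h3⟩, rfl⟩
      exact ⟨(f a, f b), ⟨fun hh => h1 (finU_up h hg cov two hh), h.src _ _ h2, h.src _ _ h3⟩,
        Prod.ext (h.app _ _).symm (h.app _ _).symm⟩
    obtain ⟨τ, hτ, hp⟩ := H N g' h1 h2
    refine ⟨τ, hτ, fun v => ?_⟩
    obtain ⟨e, he⟩ := sur (v.1 0)
    obtain ⟨F, ⟨-, hF⟩, -⟩ := cov.existsUnique_continuousMap_lifts v.1 0 e he
    have h3 := hp ⟨F, (h.ug_iff hg F.continuous).2 (hF ▸ v.2)⟩
    rw [← hF]
    exact h3.comp f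
  · obtain ⟨φ, hφ, x, y, hxy⟩ : ∃ φ : N → Bool, Continuous φ ∧ ∃ x y, φ x ≠ φ y := by
      by_contra hc
      refine hN (preconnectedSpace_of_forall_constant fun φ hφ x y => ?_)
      by_contra hxy
      exact hc ⟨φ, hφ, x, y, hxy⟩
    have ho := cov.isLocalHomeomorph.isOpenMap
    have key : ∀ (z : N) (p : M), ∃ q, φ q = φ z ∧ f q = p := fun z p => by
      have hc : IsClopen (φ ⁻¹' {φ z}) := (isClopen_discrete _).preimage hφ
      have h1 : IsClopen (f '' (φ ⁻¹' {φ z})) :=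
        ⟨(hc.1.isCompact.image cov.continuous).isClosed, ho _ hc.2⟩
      have h2 : p ∈ f '' (φ ⁻¹' {φ z}) := by
        rw [h1.eq_univ ⟨f z, z, rfl, rfl⟩]
        trivial
      exact h2
    choose σ hσ1 hσ2 using key
    have uq : ∀ q, φ q = φ x → σ x (f q) = q := fun q hq => by
      rcases two (σ x (f q)) q (σ y (f q)) (hσ2 _ _) ((hσ2 _ _).trans (hσ2 _ _).symm)
        with h | h | h
      · exact h
      · exact (hxy (by rw [← hσ1 x (f q), h, hσ1])).elim
      · exact (hxy (by rw [← hq, h, hσ1])).elim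
    refine H M g ⟨fun p => s (σ x p), fun p₀ => ?_⟩ hf
    have h1 : ∀ᶠ q in 𝓝 (σ x p₀), φ q = φ x :=
      ((isOpen_discrete {φ x}).preimage hφ).mem_nhds (hσ1 x p₀)
    have h2 := ho.image_mem_nhds ((hs (σ x p₀)).and h1)
    rw [hσ2] at h2
    filter_upwards [h2] with p hp
    obtain ⟨q, ⟨h3, h4⟩, rfl⟩ := hp
    rw [uq q h4]
    exact h3

end Pool.Agent.Fu
end

-- part Pool.Agent.P.MP_365c00_gt.Dense
section

/-!
Periodic geodesics are dense in almost every fibre (paper sec. 3).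
-/

open Set Filter Topology Metric

namespace Pool.Agent.GeoFin

variable {M Y : Type*} [TopologicalSpace M] [TopologicalSpace Y] [T2Space M] {S : Sys M Y}

namespace DenseX

omit [T2Space M] in
theorem ctr_N (A : Atl S) (w : Y) :
    w ∈ (A.box w).N ∧ (A.box w).ζ w = (0, A.η0 w) := by
  have h0 : |(0 : ℝ)| < (A.box w).c := by simpa using (A.box w).c_pos
  have h1 := (A.box w).mem_N _ (A.ctr_mem w) 0 h0
  have h2 := ((A.box w).τ_ζ (A.ctr_mem w) h0).2
  rw [S.φ_zero, A.ctr] at h1 h2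
  exact ⟨h1, h2⟩

omit [T2Space M] in
/-- a uniform radius for one step of the chain -/
theorem step (A : Atl S) (ρ : Y → ℝ) (T : Finset Y)
    (hT : ∀ u : Y, ∃ w ∈ T, u ∈ (A.box w).N ∧ (A.box w).ζ u ∈ ball (0, A.η0 w) (ρ w))
    (w : Y) (hK : closedBall (0, A.η0 w) (ρ w) ⊆ (A.box w).D) :
    ∃ δ > 0, ∀ x ∈ closedBall (0, A.η0 w) (ρ w), ∃ w' ∈ T,
      ball x δ ⊆ holDom (A.box w) (A.box w') 1 ∧
      MapsTo (hol (A.box w) (A.box w') 1) (ball x δ) (ball (0, A.η0 w') (ρ w')) ∧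
      InjOn (hol (A.box w) (A.box w') 1) (ball x δ) := by
  have loc : ∀ z : closedBall ((0 : ℝ), A.η0 w) (ρ w), ∃ V : Set (ℝ × ℝ), IsOpen V ∧ z.1 ∈ V ∧
      ∃ w' ∈ T, V ⊆ holDom (A.box w) (A.box w') 1 ∧
      MapsTo (hol (A.box w) (A.box w') 1) V (ball (0, A.η0 w') (ρ w')) ∧
      InjOn (hol (A.box w) (A.box w') 1) V := by
    rintro ⟨z, hz⟩
    obtain ⟨w', hw', h1, h2⟩ := hT (S.φ 1 ((A.box w).Z z))
    have hzd : z ∈ holDom (A.box w) (A.box w') 1 := ⟨hK hz, h1⟩
    have ho := holDom_open (A.box w) (A.box w') 1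
    have hdet := det_of_exact ho (A.hol_smooth w w' 1) (A.holT_smooth w w' 1) (A.exact w w' 1) hzd
    have hca : ContDiffAt ℝ 2 (hol (A.box w) (A.box w') 1) z :=
      (A.hol_smooth w w' 1).contDiffAt (ho.mem_nhds hzd)
    obtain ⟨V, hV, hi⟩ := injOn_nhds_of_det (hca.of_le (by norm_num)) (by rw [hdet]; norm_num)
    have h3 : hol (A.box w) (A.box w') 1 ⁻¹' ball (0, A.η0 w') (ρ w') ∈ 𝓝 z :=
      hca.continuousAt.preimage_mem_nhds (isOpen_ball.mem_nhds h2)
    obtain ⟨O, hO, hOo, hzO⟩ :=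
      _root_.mem_nhds_iff.1 (inter_mem (inter_mem hV h3) (ho.mem_nhds hzd))
    exact ⟨O, hOo, hzO, w', hw', fun y hy => (hO hy).2, fun y hy => (hO hy).1.2,
      hi.mono fun y hy => (hO hy).1.1⟩
  choose V hVo hzV hV using loc
  obtain ⟨δ, hδ, h⟩ := lebesgue_number_lemma_of_metric (isCompact_closedBall _ _) hVo
    (fun z hz => mem_iUnion.2 ⟨⟨z, hz⟩, hzV _⟩)
  refine ⟨δ, hδ, fun x hx => ?_⟩
  obtain ⟨i, hi⟩ := h x hx
  obtain ⟨w', hw', h1, h2, h3⟩ := hV i
  exact ⟨w', hw', hi.trans h1, h2.mono_left hi, h3.mono hi⟩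

end DenseX

/-- every point starts a chain of injective area preserving maps on balls of a fixed radius -/
theorem Atl.exists_chain [CompactSpace Y] (A : Atl S) (v : Y) :
    ∃ (C : Chain A.box) (d1 : ℝ), 0 < d1 ∧ v ∈ (A.box (C.w 0)).N ∧
      (∀ j, C.Ω j = ball (C.it j ((A.box (C.w 0)).ζ v)) d1) ∧
      (∀ j, DifferentiableOn ℝ (C.g j) (C.Ω j)) ∧ (∀ j, InjOn (C.g j) (C.Ω j)) ∧
      ∀ j, ∀ z ∈ C.Ω j, (fderiv ℝ (C.g j) z).det = 1 := by
  classical
  have hρ : ∀ w : Y, ∃ ρ > 0, closedBall ((0 : ℝ), A.η0 w) ρ ⊆ (A.box w).D := fun w =>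
    nhds_basis_closedBall.mem_iff.1 ((A.box w).D_open.mem_nhds (A.ctr_mem w))
  choose ρ hρ hK using hρ
  obtain ⟨T, hT⟩ := CompactSpace.elim_nhds_subcover
    (fun w => (A.box w).N ∩ (A.box w).ζ ⁻¹' ball (0, A.η0 w) (ρ w)) (fun w =>
      (((A.box w).ζ_cont.isOpen_inter_preimage (A.box w).N_open isOpen_ball).mem_nhds
        ⟨(DenseX.ctr_N A w).1, by
          rw [mem_preimage, (DenseX.ctr_N A w).2]; exact mem_ball_self (hρ w)⟩))
  have hT' : ∀ u : Y, ∃ w ∈ T, u ∈ (A.box w).N ∧ (A.box w).ζ u ∈ ball (0, A.η0 w) (ρ w) := by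
    intro u
    have : u ∈ ⋃ w ∈ T, (A.box w).N ∩ (A.box w).ζ ⁻¹' ball (0, A.η0 w) (ρ w) := by
      rw [hT]; trivial
    obtain ⟨w, hw, h⟩ := mem_iUnion₂.1 this
    exact ⟨w, hw, h.1, h.2⟩
  choose δ hδ hstep using fun w => DenseX.step A ρ T hT' w (hK w)
  obtain ⟨w0, hw0, hv1, hv2⟩ := hT' v
  obtain ⟨wm, -, hwm⟩ := T.exists_min_image δ ⟨w0, hw0⟩
  choose! nxt hnT hn1 hn2 hn3 using hstep
  let σ : ℕ → Y × (ℝ × ℝ) := fun j => Nat.rec (w0, (A.box w0).ζ v)
    (fun _ x => (nxt x.1 x.2, hol (A.box x.1) (A.box (nxt x.1 x.2)) 1 x.2)) j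
  have σs1 : ∀ j, (σ (j + 1)).1 = nxt (σ j).1 (σ j).2 := fun j => rfl
  have σs2 : ∀ j, (σ (j + 1)).2 = hol (A.box (σ j).1) (A.box (σ (j + 1)).1) 1 (σ j).2 :=
    fun j => rfl
  have inv : ∀ j, (σ j).1 ∈ T ∧ (σ j).2 ∈ closedBall (0, A.η0 (σ j).1) (ρ (σ j).1) := by
    intro j
    induction j with
    | zero => exact ⟨hw0, ball_subset_closedBall hv2⟩
    | succ j ih =>
      refine ⟨hnT _ _ ih.2, ball_subset_closedBall ?_⟩
      exact hn2 _ _ ih.2 (mem_ball_self (hδ _))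
  have hsub : ∀ j, ball (σ j).2 (δ wm) ⊆ ball (σ j).2 (δ (σ j).1) := fun j =>
    ball_subset_ball (hwm _ (inv j).1)
  have hdom : ∀ j, ball (σ j).2 (δ wm) ⊆ holDom (A.box (σ j).1) (A.box (σ (j + 1)).1) 1 :=
    fun j => (hsub j).trans (hn1 _ _ (inv j).2)
  let C : Chain A.box :=
    { w := fun j => (σ j).1
      fin := T.finite_toSet.subset (by rintro _ ⟨j, rfl⟩; exact (inv j).1)
      K := fun w => closedBall (0, A.η0 w) (ρ w)
      K_cpt := fun j => isCompact_closedBall _ _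
      K_sub := fun j => hK _
      Ω := fun j => ball (σ j).2 (δ wm)
      Ω_sub := fun j z hz => (hdom j hz).1
      g := fun j => hol (A.box (σ j).1) (A.box (σ (j + 1)).1) 1
      g_cont := fun j => (A.hol_smooth _ _ 1).continuousOn.mono (hdom j)
      g_maps := fun j z hz => ball_subset_closedBall (hn2 _ _ (inv j).2 (hsub j hz))
      a0 := 1 / 2
      a0_pos := by norm_num
      g_time := fun j z hz => ⟨holT (A.box (σ j).1) (A.box (σ (j + 1)).1) 1 z, by
        have h1 := abs_lt.1 ((A.box (σ (j + 1)).1).τ_lt _ (hdom j hz).2)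
        have h2 := A.c_le (σ (j + 1)).1
        rw [holT]; linarith [h1.1], Z_hol _ _ _ (hdom j hz)⟩ }
  have hit : ∀ j, C.it j ((A.box w0).ζ v) = (σ j).2 := by
    intro j
    induction j with
    | zero => rfl
    | succ j ih => rw [Chain.it_succ, ih, σs2]
  refine ⟨C, δ wm, hδ _, hv1, fun j => ?_, fun j => ?_, fun j => ?_, fun j z hz => ?_⟩
  · exact congrArg (fun x => ball x (δ wm)) (hit j).symm
  · exact ((A.hol_smooth _ _ 1).differentiableOn (by norm_num)).mono (hdom j)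
  · exact (hn3 _ _ (inv j).2).mono (hsub j)
  · exact det_of_exact (holDom_open _ _ 1) (A.hol_smooth _ _ 1) (A.holT_smooth _ _ 1)
      (A.exact _ _ 1) (hdom j hz)

namespace DenseX

/-- the arc of the fibre through `u` -/
def arc (A : Atl S) (u : Y) (s : ℝ) : Y := (A.box u).Z (0, A.η0 u + s)

omit [T2Space M] in
theorem arc_zero (A : Atl S) (u : Y) : arc A u 0 = u := by
  rw [arc, add_zero, A.ctr]

omit [T2Space M] in
theorem arc_cont (A : Atl S) (u : Y) {I : Set ℝ}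
    (hI : ∀ s ∈ I, ((0 : ℝ), A.η0 u + s) ∈ (A.box u).D) : ContinuousOn (arc A u) I :=
  (A.box u).Z_cont.comp (by fun_prop) hI

omit [T2Space M] in
theorem arc_inj (A : Atl S) (u : Y) {I : Set ℝ}
    (hI : ∀ s ∈ I, ((0 : ℝ), A.η0 u + s) ∈ (A.box u).D) : InjOn (arc A u) I := by
  intro s hs s' hs' h
  have h0 : |(0 : ℝ)| < 2 * (A.box u).c := by simpa using (A.box u).c_pos
  have := ((A.box u).uniq _ (hI s hs) _ (hI s' hs') 0 h0 (by rw [S.φ_zero]; exact h)).2
  simpa using this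

omit [T2Space M] in
theorem arc_base (A : Atl S) (u : Y) {s : ℝ} (hs : ((0 : ℝ), A.η0 u + s) ∈ (A.box u).D) :
    S.ev (arc A u s) 0 = S.ev u 0 :=
  (A.fib u _ hs).2 rfl

/-- points of the fibre near `u` are asymptotic to `u` along the chain -/
theorem arc_lemma (A : Atl S) (C : Chain A.box) {U : Set Y} (hU : IsOpen U) {u : Y} (huU : u ∈ U)
    (huN : u ∈ (A.box (C.w 0)).N) (hp : S.Good (S.ev u 0))
    (hc : {x | x ∈ U ∧ S.ev x 0 = S.ev u 0 ∧ S.Per x}.Countable) {d : ℝ} (hd : 0 < d)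
    (hb : ∀ j, ball (C.it j ((A.box (C.w 0)).ζ u)) d ⊆ C.Ω j) :
    ∃ η > 0, ∀ s, |s| < η → ((0 : ℝ), A.η0 u + s) ∈ (A.box u).D ∧
      arc A u s ∈ (A.box (C.w 0)).N ∧
      (∀ j, dist (C.it j ((A.box (C.w 0)).ζ (arc A u s))) (C.it j ((A.box (C.w 0)).ζ u)) < d) ∧
      Tendsto (fun j => dist (C.it j ((A.box (C.w 0)).ζ (arc A u s)))
        (C.it j ((A.box (C.w 0)).ζ u))) atTop (𝓝 0) := by
  have hl : Continuous fun s : ℝ => ((0 : ℝ), A.η0 u + s) := by fun_prop
  have h0 : ((0 : ℝ), A.η0 u + 0) ∈ (A.box u).D := by simpa using A.ctr_mem u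
  have e1 : ∀ᶠ s in 𝓝 (0 : ℝ), ((0 : ℝ), A.η0 u + s) ∈ (A.box u).D :=
    hl.continuousAt.eventually ((A.box u).D_open.mem_nhds h0)
  have hca : ContinuousAt (arc A u) 0 :=
    ContinuousAt.comp (f := fun s : ℝ => ((0 : ℝ), A.η0 u + s))
      ((A.box u).Z_cont.continuousAt ((A.box u).D_open.mem_nhds h0)) hl.continuousAt
  have e2 : ∀ᶠ s in 𝓝 (0 : ℝ), arc A u s ∈ U ∩ (A.box (C.w 0)).N :=
    hca.eventually ((hU.inter (A.box (C.w 0)).N_open).mem_nhds
      (by rw [arc_zero]; exact ⟨huU, huN⟩))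
  obtain ⟨r, hr, hI⟩ := nhds_basis_closedBall.mem_iff.1 (e1.and e2)
  rw [Real.closedBall_eq_Icc] at hI
  have hI1 : ∀ s ∈ Icc (0 - r) (0 + r), ((0 : ℝ), A.η0 u + s) ∈ (A.box u).D :=
    fun s hs => (hI hs).1
  have harc : C.Arc (S.ev u 0) (arc A u) (fun s => (A.box (C.w 0)).ζ (arc A u s)) 0 r d :=
    { r_pos := hr
      d_pos := hd
      inj := arc_inj A u hI1
      base := fun s hs => arc_base A u (hI1 s hs)
      cont := (A.box (C.w 0)).ζ_cont.comp (arc_cont A u hI1) fun s hs => (hI hs).2.2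
      maps := fun s hs => (A.box (C.w 0)).ζ_mem _ (hI hs).2.2
      time := ⟨(A.box (C.w 0)).c, fun s hs => ⟨_, ((A.box (C.w 0)).τ_lt _ (hI hs).2.2).le,
        ((A.box (C.w 0)).φ_τ _ (hI hs).2.2).symm⟩⟩
      ball_sub := by simpa only [arc_zero] using hb }
  have hc' : {s | s ∈ Icc (0 - r) (0 + r) ∧ S.Per (arc A u s)}.Countable :=
    MapsTo.countable_of_injOn (f := arc A u)
      (t := {x | x ∈ U ∧ S.ev x 0 = S.ev u 0 ∧ S.Per x})
      (fun s hs => ⟨(hI hs.1).2.1, arc_base A u (hI1 s hs.1), hs.2⟩)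
      ((arc_inj A u hI1).mono fun s hs => hs.1) hc
  obtain ⟨η, hη, hηr, h⟩ := harc.asymptotic hp hc'
  refine ⟨η, hη, fun s hs => ?_⟩
  have hs' : s ∈ Icc (0 - r) (0 + r) := by
    have := abs_lt.1 hs
    constructor <;> linarith [this.1, this.2]
  have h1 := h s (by simpa using hs)
  simp only [arc_zero] at h1
  exact ⟨hI1 s hs', (hI hs').2.2, h1.1, h1.2⟩

/-- the good points whose fibre meets `U` in countably many periodic elements are null -/
theorem bad_null [CompactSpace Y] (A : Atl S) {U : Set Y} (hU : IsOpen U) :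
    {p | S.Good p ∧ (∃ v ∈ U, S.ev v 0 = p) ∧
      {x | x ∈ U ∧ S.ev x 0 = p ∧ S.Per x}.Countable}ᶜ ∈ S.ae := by
  by_contra hB
  obtain ⟨p, ⟨hp, ⟨v, hvU, rfl⟩, hc⟩, hcone⟩ := S.cone _ hB
  obtain ⟨C, d1, hd1, hvN, hΩ, hdiff, hinj, hdet⟩ := A.exists_chain v
  have hW := null_of_chain C.g C.Ω (fun j => by rw [hΩ]; exact isOpen_ball) hdiff hinj hdet
    C.it C.it_zero C.it_succ (fun j => C.it j ((A.box (C.w 0)).ζ v))
  have hP := (A.box (C.w 0)).null_arc _ hW
  obtain ⟨η, hη, h1⟩ := arc_lemma A C hU hvU hvN hp hc (half_pos hd1)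
    (fun j => by rw [hΩ]; exact ball_subset_ball (half_le_self hd1.le))
  have e1 : ∀ᶠ x in 𝓝 v, x ∈ (A.box v).N ∧ |((A.box v).ζ x).2 - A.η0 v| < η := by
    have hn := (A.box v).N_open.mem_nhds (ctr_N A v).1
    have hc1 : ContinuousAt (fun x => |((A.box v).ζ x).2 - A.η0 v|) v :=
      (((A.box v).ζ_cont.continuousAt hn).snd.sub continuousAt_const).abs
    refine Eventually.and hn (hc1.eventually (gt_mem_nhds ?_))
    simpa [(ctr_N A v).2] using hη
  have e2 : ∀ᶠ y in 𝓝 ((0 : ℝ), v), S.φ y.1 y.2 ∈ U ∧ y.2 ∈ (A.box (C.w 0)).N ∧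
      |y.1 - (A.box (C.w 0)).τ y.2| < (A.box (C.w 0)).c := by
    have hn := (A.box (C.w 0)).N_open.mem_nhds hvN
    have hc1 : ContinuousAt (fun y : ℝ × Y => |y.1 - (A.box (C.w 0)).τ y.2|) (0, v) :=
      (continuousAt_fst.sub (ContinuousAt.comp (f := fun y : ℝ × Y => y.2)
        ((A.box (C.w 0)).τ_cont.continuousAt hn) continuousAt_snd)).abs
    refine (S.φ_cont.continuousAt.eventually (hU.mem_nhds ?_)).and
      (Eventually.and ((continuousAt_snd (p := ((0 : ℝ), v))).preimage_mem_nhds hn) (hc1.eventually (gt_mem_nhds ?_)))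
    · simpa [S.φ_zero] using hvU
    · simpa using (A.box (C.w 0)).τ_lt v hvN
  rw [nhds_prod_eq] at e2
  obtain ⟨I, hI, V, hV, hIV⟩ := mem_prod_iff.1 e2
  obtain ⟨ε, hε, hεI⟩ := Metric.mem_nhds_iff.1 hI
  refine hcone v rfl _ (inter_mem hV e1) ε hε (mem_of_superset hP (compl_subset_compl.2 ?_))
  rintro q ⟨⟨hq, -, hqc⟩, x, ⟨hxV, hxN, hxη⟩, hx0, a, ha, rfl⟩
  have hxa : arc A v (((A.box v).ζ x).2 - A.η0 v) = x := by
    have h2 := (A.box v).φ_τ x hxN
    rw [A.fib_τ v x hxN hx0, S.φ_zero] at h2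
    have h3 := (A.fib v _ ((A.box v).ζ_mem x hxN)).1 (by rw [← h2]; exact hx0)
    rw [arc, add_sub_cancel, ← h3]
    exact h2.symm
  obtain ⟨-, -, h3, h4⟩ := h1 _ hxη
  rw [hxa] at h3 h4
  obtain ⟨huU, hxN0, hτ⟩ := hIV (mk_mem_prod (hεI (by simpa using ha : a ∈ ball (0 : ℝ) ε)) hxV)
  have hu : S.φ a x = S.φ (a - (A.box (C.w 0)).τ x) ((A.box (C.w 0)).Z ((A.box (C.w 0)).ζ x)) := by
    rw [← (A.box (C.w 0)).φ_τ x hxN0, ← S.φ_add, sub_add_cancel]
  have huN : S.φ a x ∈ (A.box (C.w 0)).N := by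
    rw [hu]; exact (A.box (C.w 0)).mem_N _ ((A.box (C.w 0)).ζ_mem x hxN0) _ hτ
  have huζ : (A.box (C.w 0)).ζ (S.φ a x) = (A.box (C.w 0)).ζ x := by
    rw [hu]; exact ((A.box (C.w 0)).τ_ζ ((A.box (C.w 0)).ζ_mem x hxN0) hτ).2
  rw [← S.ev_φ_zero] at hq hqc ⊢
  obtain ⟨η', hη', h5⟩ := arc_lemma A C hU huU huN hq hqc (half_pos hd1) (fun j => by
    rw [hΩ, huζ]
    exact ball_subset_ball' (by linarith [h3 j]))
  have hI' : ∀ s ∈ Icc (0 : ℝ) (η' / 2), |s| < η' := fun s hs =>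
    abs_lt.2 ⟨by linarith [hs.1], by linarith [hs.2]⟩
  refine ⟨arc A (S.φ a x), η' / 2, half_pos hη', arc_cont A _ fun s hs => (h5 s (hI' s hs)).1,
    arc_inj A _ fun s hs => (h5 s (hI' s hs)).1, fun s hs => ?_⟩
  obtain ⟨h6, h7, h8, h9⟩ := h5 s (hI' s hs)
  rw [huζ] at h8 h9
  refine ⟨arc_base A _ h6, h7, fun j => ?_, ?_⟩
  · rw [hΩ, mem_ball]
    linarith [dist_triangle (C.it j ((A.box (C.w 0)).ζ (arc A (S.φ a x) s)))
      (C.it j ((A.box (C.w 0)).ζ x)) (C.it j ((A.box (C.w 0)).ζ v)), h8 j, h3 j]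
  · exact squeeze_zero (fun j => dist_nonneg) (fun j => dist_triangle _ _ _)
      (by simpa using h9.add h4)

end DenseX

theorem Atl.rich [CompactSpace Y] [SecondCountableTopology Y] (A : Atl S)
    (h : ∀ᶠ p in S.ae, S.Good p) : ∀ᶠ p in S.ae, S.Good p ∧ S.Rich p := by
  have h1 := (eventually_countable_ball (l := S.ae)
    (TopologicalSpace.countable_countableBasis Y)).2 fun U hU =>
      DenseX.bad_null A (TopologicalSpace.isOpen_of_mem_countableBasis hU)
  filter_upwards [h, h1] with p hp hb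
  refine ⟨hp, fun v hv U hU hc => ?_⟩
  obtain ⟨U', hU', hvU, hUU⟩ := (TopologicalSpace.isBasis_countableBasis Y).mem_nhds_iff.1 hU
  refine hb U' hU' ⟨hp, ⟨v, hvU, hv⟩, hc.mono ?_⟩
  exact fun x hx => ⟨hUU hx.1, hx.2⟩

end Pool.Agent.GeoFin
end

-- part Pool.Agent.P.MP_365c00_gt.Period
section

/-!
All geodesics through a good rich point have a common period (paper sec. 5, first half).
-/

open Set Filter Topology Metric

namespace Pool.Agent.GeoFin

variable {M Y : Type*} [TopologicalSpace M] [TopologicalSpace Y]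

namespace PeriodX

variable {S : Sys M Y}

theorem Z_mem (b : Box S) {z : ℝ × ℝ} (hz : z ∈ b.D) :
    b.Z z ∈ b.N ∧ b.τ (b.Z z) = 0 ∧ b.ζ (b.Z z) = z := by
  have h0 : |(0 : ℝ)| < b.c := by rw [abs_zero]; exact b.c_pos
  have h1 := b.mem_N z hz 0 h0
  have h2 := b.τ_ζ hz h0
  rw [S.φ_zero] at h1 h2
  exact ⟨h1, by rw [h2.1, neg_zero], h2.2⟩

theorem Z_inj (b : Box S) : InjOn b.Z b.D := fun z hz z' hz' h =>
  (b.uniq z hz z' hz' 0 (by rw [abs_zero]; linarith [b.c_pos]) (by rw [S.φ_zero, h])).2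

theorem nhds_coord (b : Box S) {z : ℝ × ℝ} (hz : z ∈ b.D) {V : Set ℝ} (hV : V ∈ 𝓝 z.2) :
    {u | u ∈ b.N ∧ (b.ζ u).2 ∈ V} ∈ 𝓝 (b.Z z) := by
  obtain ⟨h1, -, h3⟩ := Z_mem b hz
  have hN := b.N_open.mem_nhds h1
  have hc : ContinuousAt (fun u => (b.ζ u).2) (b.Z z) := (b.ζ_cont.continuousAt hN).snd
  refine inter_mem hN (hc.preimage_mem_nhds ?_)
  rwa [h3]

theorem fibre_coord (A : Atl S) (v : Y) {u : Y} (hu : u ∈ (A.box v).N)
    (h : S.ev u 0 = S.ev v 0) : (0, ((A.box v).ζ u).2) ∈ (A.box v).D ∧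
      (A.box v).Z (0, ((A.box v).ζ u).2) = u := by
  have h1 := (A.box v).φ_τ u hu
  rw [A.fib_τ v u hu h, S.φ_zero] at h1
  have h2 := (A.box v).ζ_mem u hu
  have h3 : ((A.box v).ζ u).1 = 0 := (A.fib v _ h2).1 (by rw [← h1, h])
  have h4 : ((0 : ℝ), ((A.box v).ζ u).2) = (A.box v).ζ u := Prod.ext h3.symm rfl
  rw [h4]
  exact ⟨h2, h1.symm⟩

theorem cancel_iter {α : Type*} {f : α → α} {Ω : Set α} (hf : InjOn f Ω) {z : α}
    (hz : ∀ j, f^[j] z ∈ Ω) {k : ℕ} : ∀ i, f^[i] z = f^[i + k] z → z = f^[k] z := by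
  intro i
  induction i with
  | zero => intro h; rwa [zero_add] at h
  | succ i ih =>
    intro h
    rw [add_right_comm, Function.iterate_succ_apply', Function.iterate_succ_apply'] at h
    exact ih (hf (hz _) (hz _) h)

theorem dist_vert (s s' : ℝ) : dist ((0 : ℝ), s) ((0 : ℝ), s') = |s - s'| := by
  rw [Prod.dist_eq, dist_self, Real.dist_eq, max_eq_right (abs_nonneg _)]

end PeriodX

open PeriodX

variable [T2Space M] [T2Space Y] {S : Sys M Y}

/-- (PropP) -/
theorem Atl.fix_nhds (A : Atl S) {p : M} (hg : S.Good p) (hr : S.Rich p) {v : Y}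
    (hv : S.ev v 0 = p) {τ : ℝ} (hτ : 0 < τ)
    (hacc : ∀ U ∈ 𝓝 v, ∀ ε > 0, ∃ u ∈ U, u ≠ v ∧ S.ev u 0 = p ∧ ∃ σ, |σ - τ| < ε ∧ S.φ σ u = u) :
    ∀ᶠ u in 𝓝 v, S.ev u 0 = p → S.φ τ u = u := by
  have hfix : S.φ τ v = v := by
    by_contra hne
    have ho : {x : ℝ × Y | S.φ x.1 x.2 ≠ x.2} ∈ 𝓝 (τ, v) :=
      (isOpen_ne_fun S.φ_cont continuous_snd).mem_nhds hne
    obtain ⟨V, hV, U, hU, hs⟩ := mem_nhds_prod_iff.1 ho
    obtain ⟨ε, hε, hb⟩ := Metric.mem_nhds_iff.1 hV
    obtain ⟨u, hu, -, -, σ, hσ, he⟩ := hacc U hU ε hε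
    exact hs (mk_mem_prod (hb (a := σ) hσ) hu) he
  have hD := A.ctr_mem v
  have hZ := A.ctr v
  have hsm := A.hol_smooth v v τ
  have hTsm := A.holT_smooth v v τ
  have hex := A.exact v v τ
  have hfib := A.fib v
  have hco := fun u => fibre_coord A v (u := u)
  rw [hv] at hfib hco
  set b := A.box v with hb
  set η0 := A.η0 v with hη0
  set f := hol b b τ with hf
  set T := holT b b τ with hT
  set U := holDom b b τ with hU
  have hUo : IsOpen U := holDom_open b b τ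
  obtain ⟨hN0, hτ0, hζ0⟩ := Z_mem b hD
  have hz0 : ((0 : ℝ), η0) ∈ U := ⟨hD, by rw [hZ, hfix, ← hZ]; exact hN0⟩
  have hf0 : f (0, η0) = (0, η0) := by
    show b.ζ (S.φ τ (b.Z (0, η0))) = _
    rw [hZ, hfix, ← hZ]; exact hζ0
  have hT0 : T (0, η0) = τ := by
    show τ + b.τ (S.φ τ (b.Z (0, η0))) = _
    rw [hZ, hfix, ← hZ, hτ0, add_zero]
  have hacc' : ∃ᶠ s in 𝓝[≠] η0, f (0, s) = (0, s) := by
    refine (accPt_iff_frequently_nhdsNE (C := {s | f (0, s) = (0, s)})).1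
      (accPt_iff_nhds.2 fun V hV => ?_)
    have h1 := nhds_coord b hD hV
    rw [hZ] at h1
    obtain ⟨u, ⟨hu, huV⟩, hne, hp, σ, hσ, he⟩ := hacc _ h1 b.c b.c_pos
    obtain ⟨h2, h3⟩ := hco u hu hp
    refine ⟨(b.ζ u).2, ⟨huV, ?_⟩, fun h => hne ?_⟩
    · show b.ζ (S.φ τ (b.Z (0, (b.ζ u).2))) = _
      have h4 : S.φ τ (b.Z (0, (b.ζ u).2)) = S.φ (τ - σ) (b.Z (0, (b.ζ u).2)) := by
        rw [h3]
        conv_rhs => rw [← he, ← S.φ_add, sub_add_cancel]
      rw [h4]
      exact (b.τ_ζ h2 (by rwa [abs_sub_comm])).2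
    · rw [← h3, h, hZ]
  obtain ⟨R, hR, hRD⟩ := nhds_basis_closedBall.mem_iff.1 (b.D_open.mem_nhds hD)
  have hUn := hUo.mem_nhds hz0
  obtain ⟨V, hV, hinj⟩ := injOn_nhds_of_det (g := f) (z := (0, η0))
    ((hsm.contDiffAt hUn).of_le (by norm_num))
    (by rw [det_of_exact hUo hsm hTsm hex hz0]; exact one_ne_zero)
  have h1 : f ⁻¹' closedBall (0, η0) R ∈ 𝓝 ((0 : ℝ), η0) :=
    (hsm.continuousOn.continuousAt hUn).preimage_mem_nhds
      (by rw [hf0]; exact closedBall_mem_nhds _ hR)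
  have h2 : T ⁻¹' Ici (τ / 2) ∈ 𝓝 ((0 : ℝ), η0) :=
    (hTsm.continuousOn.continuousAt hUn).preimage_mem_nhds
      (by rw [hT0]; exact Ici_mem_nhds (by linarith))
  obtain ⟨ρ, hρ, hρs⟩ := Metric.mem_nhds_iff.1 (inter_mem (inter_mem hUn hV) (inter_mem h1 h2))
  have hΩU : ball ((0 : ℝ), η0) ρ ⊆ U := fun z hz => (hρs hz).1.1
  have hΩD : ball ((0 : ℝ), η0) ρ ⊆ b.D := fun z hz => (hΩU hz).1
  let C : Chain A.box :=
    { w := fun _ => v
      fin := by simp
      K := fun _ => closedBall (0, η0) R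
      K_cpt := fun _ => isCompact_closedBall _ _
      K_sub := fun _ => hRD
      Ω := fun _ => ball (0, η0) ρ
      Ω_sub := fun _ => hΩD
      g := fun _ => f
      g_cont := fun _ => hsm.continuousOn.mono hΩU
      g_maps := fun _ z hz => (hρs hz).2.1
      a0 := τ / 2
      a0_pos := half_pos hτ
      g_time := fun _ z hz => ⟨T z, (hρs hz).2.2, Z_hol b b τ (hΩU hz)⟩ }
  have hit : ∀ j z, C.it j z = f^[j] z := by
    intro j z
    induction j with
    | zero => rfl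
    | succ j ih => rw [C.it_succ, ih, Function.iterate_succ_apply']
  have hst : ∀ s, |s - η0| < ρ / 2 → (∀ j, dist (f^[j] (0, s)) (0, η0) < ρ / 2) → ∀ d > 0,
      ∃ η > 0, η ≤ ρ / 2 ∧ ∀ s', |s' - s| < η → ∀ i, dist (f^[i] (0, s')) (f^[i] (0, s)) < d := by
    intro s hs ho d hd
    have hm : ∀ s' ∈ Icc (s - ρ / 2) (s + ρ / 2), ((0 : ℝ), s') ∈ b.D := by
      intro s' hs'
      refine hΩD ?_
      rw [mem_ball, dist_vert, abs_lt]
      rw [abs_lt] at hs
      constructor <;> linarith [hs'.1, hs'.2, hs.1, hs.2]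
    have arc : C.Arc p (fun s' => b.Z (0, s')) (fun s' => (0, s')) s (ρ / 2) (ρ / 2) :=
      { r_pos := half_pos hρ
        d_pos := half_pos hρ
        inj := fun a ha a' ha' h => (Prod.ext_iff.1 (Z_inj b (hm a ha) (hm a' ha') h)).2
        base := fun a ha => (hfib _ (hm a ha)).2 rfl
        cont := by fun_prop
        maps := hm
        time := ⟨0, fun a _ => ⟨0, by rw [abs_zero], (S.φ_zero _).symm⟩⟩
        ball_sub := fun j z hz => by
          rw [hit] at hz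
          show dist z (0, η0) < ρ
          linarith [dist_triangle z (f^[j] (0, s)) (0, η0), ho j, mem_ball.1 hz] }
    obtain ⟨η, hη, hle, h⟩ := arc.stable hg hd
    refine ⟨η, hη, hle, fun s' hs' i => ?_⟩
    have := h s' hs' i
    rwa [hit, hit] at this
  obtain ⟨r0, hr0, hr0le, horb⟩ := hst η0 (by rw [sub_self, abs_zero]; exact half_pos hρ)
    (fun j => by rw [Function.iterate_fixed hf0, dist_self]; exact half_pos hρ) _ (half_pos hρ)
  have horb' : ∀ s, |s - η0| < r0 → ∀ j, dist (f^[j] (0, s)) (0, η0) < ρ / 2 := by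
    intro s hs j
    have := horb s hs j
    rwa [Function.iterate_fixed hf0] at this
  have hΩo : ∀ s, |s - η0| < r0 → ∀ j, f^[j] (0, s) ∈ ball ((0 : ℝ), η0) ρ :=
    fun s hs j => mem_ball.2 ((horb' s hs j).trans (half_lt_self hρ))
  have hpl := planar (r0 := r0) hUo hz0 hsm hTsm hex hf0 hacc' hr0 ?_ ?_
  · have h3 : {s | ((0 : ℝ), s) ∈ U} ∈ 𝓝 η0 :=
      (by fun_prop : ContinuousAt (fun s : ℝ => ((0 : ℝ), s)) η0).preimage_mem_nhds hUn
    have h4 := nhds_coord b hD (inter_mem hpl h3)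
    rw [hZ] at h4
    filter_upwards [h4] with u hu hp
    obtain ⟨-, h5⟩ := hco u hu.1 hp
    obtain ⟨⟨h6, h7⟩, h8⟩ := hu.2
    have h9 : b.Z (f (0, (b.ζ u).2)) = S.φ (T (0, (b.ζ u).2)) (b.Z (0, (b.ζ u).2)) :=
      Z_hol b b τ h8
    rw [h6, h7, hT0, h5] at h9
    exact h9.symm
  · intro s hs d hd
    obtain ⟨η, hη, -, h⟩ := hst s (hs.trans_le hr0le) (horb' s hs) d hd
    exact ⟨η, hη, h⟩
  · intro s hs η hη
    have hsD : ((0 : ℝ), s) ∈ b.D := hΩD (hΩo s hs 0)
    have hV' : ball s η ∩ ball η0 r0 ∈ 𝓝 s :=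
      inter_mem (ball_mem_nhds _ hη) (isOpen_ball.mem_nhds hs)
    have hne := hr _ ((hfib _ hsD).2 rfl) _ (nhds_coord b hsD hV')
    obtain ⟨u, ⟨hu, hu1, hu2⟩, hp, hper⟩ : {u | u ∈ {u | u ∈ b.N ∧ (b.ζ u).2 ∈ ball s η ∩ ball η0 r0}
        ∧ S.ev u 0 = p ∧ S.Per u}.Nonempty := by
      rw [nonempty_iff_ne_empty]
      intro he
      rw [he] at hne
      exact hne countable_empty
    obtain ⟨-, h5⟩ := hco u hu hp
    have ho := hΩo _ hu2
    have hmem : ∀ j, f^[j] (0, (b.ζ u).2) ∈ {z | z ∈ b.D ∧ ∃ t, S.φ t u = b.Z z} := by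
      intro j
      refine ⟨hΩD (ho j), ?_⟩
      induction j with
      | zero => exact ⟨0, by rw [S.φ_zero]; exact h5.symm⟩
      | succ j ih =>
        obtain ⟨t, ht⟩ := ih
        refine ⟨T (f^[j] (0, (b.ζ u).2)) + t, ?_⟩
        rw [Function.iterate_succ_apply', S.φ_add, ht]
        exact (Z_hol b b τ (hΩU (ho j))).symm
    obtain ⟨i, j, hij, he⟩ := Finite.exists_lt_map_eq_of_forall_mem hmem (b.finite_of_per hper)
    obtain ⟨k, rfl⟩ := Nat.exists_eq_add_of_lt hij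
    rw [add_assoc] at he
    exact ⟨(b.ζ u).2, hu1, k + 1, k.succ_pos,
      (cancel_iter (hinj.mono fun z hz => (hρs hz).1.2) ho i he).symm⟩

theorem Atl.fix_fibre [CompactSpace Y] (A : Atl S) {p : M} (hg : S.Good p) (hr : S.Rich p)
    {τ : ℝ} (hτ : 0 < τ) (hinf : {u | S.ev u 0 = p ∧ S.φ τ u = u}.Infinite) :
    ∀ u, S.ev u 0 = p → S.φ τ u = u := by
  intro u hu
  by_contra hne
  set F := {u | S.ev u 0 = p ∧ S.φ τ u = u} with hF
  have hG : ∀ v, S.ev v 0 = p → v ∈ derivedSet F →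
      v ∈ {v | ∀ᶠ u in 𝓝 v, S.ev u 0 = p → S.φ τ u = u} := by
    intro v hv ha
    refine A.fix_nhds hg hr hv hτ fun U hU ε hε => ?_
    obtain ⟨y, ⟨hy, hy1, hy2⟩, hy3⟩ := accPt_iff_nhds.1 ha U hU
    exact ⟨y, hy, hy3, hy1, τ, by rwa [sub_self, abs_zero], hy2⟩
  obtain ⟨v, hv⟩ := hinf.exists_accPt_principal
  have hvp : S.ev v 0 = p := by
    have hc : IsClosed {u | S.ev u 0 = p} := isClosed_eq S.continuous_π continuous_const
    exact hc.closure_subset (closure_mono (fun y hy => hy.1) hv.clusterPt.mem_closure)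
  obtain ⟨w, hw, hw1, hw2⟩ := S.fib_conn p _ _ isOpen_setOfPred_eventually_nhds
    (isClosed_derivedSet F).isOpen_compl
    (fun y hy => (em (y ∈ derivedSet F)).imp (hG y hy) id) ⟨v, hvp, hG v hvp hv⟩
    ⟨u, hu, fun h => hne ((hG u hu h).self_of_nhds hu)⟩
  refine hw2 (accPt_iff_nhds.2 fun U hU => ?_)
  by_contra hc
  refine hr w hw _ (inter_mem hU hw1) ((countable_singleton w).mono fun y hy => ?_)
  by_contra hy'
  exact hc ⟨y, ⟨hy.1.1, hy.2.1, hy.1.2 hy.2.1⟩, hy'⟩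

theorem Atl.exists_period [CompactSpace Y] (A : Atl S) {p : M} (hg : S.Good p) (hr : S.Rich p) :
    ∃ τ > 0, ∀ u, S.ev u 0 = p → S.φ τ u = u := by
  obtain ⟨v0, hv0⟩ := S.fib_ne p
  obtain ⟨k, hk⟩ : ∃ k : ℕ,
      {u | S.ev u 0 = p ∧ ∃ σ ∈ Icc (1 : ℝ) k, S.φ σ u = u}.Infinite := by
    by_contra hc
    have hc' : ∀ k : ℕ, {u | S.ev u 0 = p ∧ ∃ σ ∈ Icc (1 : ℝ) k, S.φ σ u = u}.Countable :=
      fun k => (not_infinite.1 fun h => hc ⟨k, h⟩).countable
    refine hr v0 hv0 univ univ_mem ((countable_iUnion hc').mono ?_)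
    rintro u ⟨-, hu, σ, hσ, he⟩
    obtain ⟨m, hm⟩ := exists_nat_ge (1 / σ)
    obtain ⟨k, hk⟩ := exists_nat_ge (m * σ)
    exact mem_iUnion.2 ⟨k, hu, m * σ, ⟨(div_le_iff₀ hσ).1 hm, hk⟩, S.φ_nat_mul he m⟩
  obtain ⟨v, hv⟩ := hk.exists_accPt_principal
  have hvp : S.ev v 0 = p := by
    have hc : IsClosed {u | S.ev u 0 = p} := isClosed_eq S.continuous_π continuous_const
    exact hc.closure_subset (closure_mono (fun y hy => hy.1) hv.clusterPt.mem_closure)
  obtain ⟨τ, hτ, hacc⟩ : ∃ τ ∈ Icc (1 : ℝ) k, ∀ U ∈ 𝓝 v, ∀ ε > 0,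
      ∃ u ∈ U, u ≠ v ∧ S.ev u 0 = p ∧ ∃ σ, |σ - τ| < ε ∧ S.φ σ u = u := by
    by_contra hc
    have h1 : ∀ᶠ u in 𝓝 v, ∀ σ ∈ Icc (1 : ℝ) k, u ≠ v → S.ev u 0 = p → S.φ σ u ≠ u := by
      refine isCompact_Icc.eventually_forall_of_forall_eventually fun τ hτ => ?_
      by_contra h2
      refine hc ⟨τ, hτ, fun U hU ε hε => ?_⟩
      by_contra h3
      refine h2 ?_
      filter_upwards [prod_mem_nhds hU (ball_mem_nhds τ hε)] with z hz h4 h5 h6
      exact h3 ⟨z.1, hz.1, h4, h5, z.2, hz.2, h6⟩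
    obtain ⟨y, ⟨hy, hy1, σ, hσ, hy2⟩, hy3⟩ := accPt_iff_nhds.1 hv _ h1
    exact hy σ hσ hy3 hy1 hy2
  have hτ0 : 0 < τ := zero_lt_one.trans_le hτ.1
  have h1 := A.fix_nhds hg hr hvp hτ0 hacc
  refine ⟨τ, hτ0, A.fix_fibre hg hr hτ0 fun hfin => ?_⟩
  refine hr v hvp _ h1 (hfin.countable.mono ?_)
  exact fun y hy => ⟨hy.2.1, hy.1 hy.2.1⟩

end Pool.Agent.GeoFin
end

-- part Pool.Agent.P.MP_365c00_gt.Space
section

/-!
The compact space of unit speed geodesics.
-/

open Set Filter Topology Metric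
open scoped Manifold ContDiff

namespace Pool.Agent.GeoFin

variable {M : Type*} [TopologicalSpace M] [ChartedSpace E M] [IsManifold (𝓡 2) ∞ M]

/-- unit speed geodesics, with the compact-open topology -/
abbrev UG (g : Met M) := {u : C(ℝ, M) // IsGeodesic g u ∧ UnitSpeed g u}

theorem UG.geoAt {g : Met M} (u : UG g) (t : ℝ) : GeoAt g u.1 t :=
  (isGeodesic_iff g u.1).1 u.2.1 t

theorem UG.unit {g : Met M} (u : UG g) (t : ℝ) {x : M} (hx : u.1 t ∈ (κ x).source) :
    G g x (κ x (u.1 t)) (vel x u.1 t) (vel x u.1 t) = 1 :=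
  (energy_eq (u.geoAt t) hx).symm.trans (u.2.2 t)

theorem UG.vel_ne {g : Met M} (u : UG g) (t : ℝ) {x : M} (hx : u.1 t ∈ (κ x).source) :
    vel x u.1 t ≠ 0 := fun h => by simpa [h] using u.unit t hx

theorem energy_const {g : Met M} {γ : ℝ → M} (h : IsGeodesic g γ) (s t : ℝ) :
    energy g γ s = energy g γ t := by
  have hd : ∀ t, HasDerivAt (energy g γ) 0 t := fun t =>
    hasDerivAt_energy (Eventually.of_forall ((isGeodesic_iff g γ).1 h))
  exact is_const_of_deriv_eq_zero (fun t => (hd t).differentiableAt) (fun t => (hd t).deriv) s t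

theorem IsGeodesic.affine {g : Met M} {γ : ℝ → M} (h : IsGeodesic g γ) (l m : ℝ) :
    IsGeodesic g fun s => γ (l * s + m) := by
  exact (isGeodesic_iff g _).2 fun t => ((isGeodesic_iff g γ).1 h _).affine

theorem energy_affine {g : Met M} {γ : ℝ → M} (h : IsGeodesic g γ) (l m t : ℝ) :
    energy g (fun s => γ (l * s + m)) t = l ^ 2 * energy g γ (l * t + m) := by
  have h1 := (isGeodesic_iff g γ).1 h (l * t + m)
  have hx : γ (l * t + m) ∈ (κ (γ (l * t + m))).source := mem_extChartAt_source _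
  rw [energy_eq h1.affine hx, energy_eq h1 hx, vel_affine h1 hx]
  simp only [map_smul, smul_apply, smul_eq_mul]
  ring

/-- a nonconstant geodesic is a rescaled unit speed geodesic -/
theorem exists_unit {g : Met M} {γ : ℝ → M} (h : IsGeodesic g γ) {s : ℝ} (hs : γ s ≠ γ 0) :
    ∃ (u : UG g) (l : ℝ), 0 < l ∧ ∀ t, γ t = u.1 (l * t) := by
  have hg := (isGeodesic_iff g γ).1 h
  have hc : Continuous γ := h.1.continuous
  have hpos : 0 < energy g γ 0 := by
    by_contra hn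
    have hv : ∀ (t : ℝ) (x : M), γ t ∈ (κ x).source → vel x γ t = 0 := by
      intro t x hx
      by_contra hv
      have := G_pos g x ((κ x).map_source hx) hv
      rw [← energy_eq (hg t) hx, energy_const h t 0] at this
      exact hn this
    have hl : IsLocallyConstant γ := by
      refine (IsLocallyConstant.iff_eventually_eq γ).2 fun t => ?_
      have hO : γ ⁻¹' (κ (γ t)).source ∈ 𝓝 t :=
        hc.continuousAt.preimage_mem_nhds (extChartAt_source_mem_nhds _)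
      obtain ⟨ε, hε, hb⟩ := Metric.mem_nhds_iff.1 hO
      filter_upwards [ball_mem_nhds t hε] with y hy
      refine (κ (γ t)).injOn (hb hy) (hb (mem_ball_self hε)) ?_
      exact isOpen_ball.is_const_of_deriv_eq_zero (f := fun s => κ (γ t) (γ s))
        (convex_ball t ε).isPreconnected
        (fun s hs => ((hg s).hasDerivAt (hb hs)).differentiableAt.differentiableWithinAt)
        (fun s hs => ((hg s).hasDerivAt (hb hs)).deriv.trans (hv s _ (hb hs))) hy
        (mem_ball_self hε)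
    exact hs (hl.apply_eq_of_preconnectedSpace s 0)
  have hl : 0 < √(energy g γ 0) := Real.sqrt_pos.2 hpos
  have h2 := h.affine (√(energy g γ 0))⁻¹ 0
  refine ⟨⟨⟨_, h2.1.continuous⟩, h2, fun t => ?_⟩, √(energy g γ 0), hl, fun t => ?_⟩
  · have := energy_affine h (√(energy g γ 0))⁻¹ 0 t
    rw [energy_const h (_ * t + 0) 0, inv_pow, Real.sq_sqrt hpos.le,
      inv_mul_cancel₀ hpos.ne'] at this
    exact this
  · simp only [ContinuousMap.coe_mk]
    rw [inv_mul_cancel_left₀ hl.ne', add_zero]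

theorem exists_shift {g : Met M} (t : ℝ) (u : UG g) : ∃ v : UG g, ∀ s, v.1 s = u.1 (s + t) := by
  have h2 := u.2.1.affine 1 t
  refine ⟨⟨⟨_, h2.1.continuous⟩, h2, fun s => ?_⟩, fun s => by simp⟩
  have := energy_affine u.2.1 1 t s
  rw [one_pow, one_mul (energy _ _ _)] at this
  exact this.trans (u.2.2 _)

/-- the geodesic flow -/
noncomputable def shift {g : Met M} (t : ℝ) (u : UG g) : UG g := (exists_shift t u).choose

theorem shift_apply {g : Met M} (t : ℝ) (u : UG g) (s : ℝ) : (shift t u).1 s = u.1 (s + t) :=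
  (exists_shift t u).choose_spec s

theorem vel_shift {g : Met M} (t : ℝ) (u : UG g) (x : M) (s : ℝ) :
    vel x (shift t u).1 s = vel x u.1 (s + t) := by
  have e : κ x ∘ (shift t u).1 = fun s => (κ x ∘ u.1) (s + t) :=
    funext fun s => by simp only [Function.comp_apply, shift_apply]
  unfold vel
  rw [e, deriv_comp_add_const]

theorem ev_cont (g : Met M) : Continuous fun z : UG g × ℝ => z.1.1 z.2 := by
  exact (continuous_subtype_val.comp continuous_fst).eval continuous_snd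

theorem shift_cont (g : Met M) : Continuous fun z : ℝ × UG g => shift z.1 z.2 := by
  refine continuous_induced_rng.2 (ContinuousMap.continuous_of_continuous_uncurry _ ?_)
  have e : (Function.uncurry fun (z : ℝ × UG g) (s : ℝ) =>
      (Subtype.val ∘ fun z : ℝ × UG g => shift z.1 z.2) z s)
      = fun q : (ℝ × UG g) × ℝ => q.1.2.1 (q.2 + q.1.1) :=
    funext fun q => shift_apply _ _ _
  rw [e]
  exact (ev_cont g).comp (f := fun q : (ℝ × UG g) × ℝ => (q.1.2, q.2 + q.1.1)) (by fun_prop)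

theorem UG.locinj {g : Met M} (u : UG g) : ∃ ε > 0, InjOn u.1 (Ioo (-ε) ε) := by
  have hx : u.1 0 ∈ (κ (u.1 0)).source := mem_extChartAt_source _
  set x := u.1 0 with hx0
  set V := vel x u.1 0 with hV
  have hV0 : V ≠ 0 := u.vel_ne 0 hx
  have h1 : ∀ᶠ t in 𝓝 (0 : ℝ), u.1 t ∈ (κ x).source :=
    u.1.continuous.continuousAt.preimage_mem_nhds (extChartAt_source_mem_nhds _)
  have h2 : ∀ᶠ t in 𝓝 (0 : ℝ), 0 < inner ℝ V (vel x u.1 t) := by
    have hc : ContinuousAt (fun t => inner ℝ V (vel x u.1 t)) 0 :=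
      continuousAt_const.inner ((u.geoAt 0).2 x hx).continuousAt
    exact hc.eventually (lt_mem_nhds (real_inner_self_pos.2 hV0))
  obtain ⟨ε, hε, hb⟩ := Metric.eventually_nhds_iff_ball.1 (h1.and h2)
  rw [Real.ball_eq_Ioo, zero_sub, zero_add] at hb
  have hd : ∀ t ∈ Ioo (-ε) ε, HasDerivAt (fun s => inner ℝ V (κ x (u.1 s)))
      (inner ℝ V (vel x u.1 t)) t := fun t ht =>
    (innerSL ℝ V).hasFDerivAt.comp_hasDerivAt t ((u.geoAt t).hasDerivAt (hb t ht).1)
  have hm : StrictMonoOn (fun s => inner ℝ V (κ x (u.1 s))) (Ioo (-ε) ε) :=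
    strictMonoOn_of_deriv_pos (convex_Ioo _ _)
      (fun t ht => (hd t ht).continuousAt.continuousWithinAt) fun t ht => by
        rw [interior_Ioo] at ht
        rw [(hd t ht).deriv]
        exact (hb t ht).2
  exact ⟨ε, hε, fun s hs t ht e => hm.injOn hs ht (by simp only [e])⟩

variable [T2Space M]

theorem UG.dir {g : Met M} (u u' : UG g) (T ε : ℝ) (hε : 0 < ε)
    (h : u.1 '' Icc 0 ε ⊆ u'.1 '' Icc 0 T) :
    ∃ r ∈ Icc 0 T, (∀ s, u.1 s = u'.1 (r + s)) ∨ ∀ s, u.1 s = u'.1 (r - s) := by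
  have hex : ∀ t : ℝ, ∃ r, t ∈ Icc 0 ε → r ∈ Icc 0 T ∧ u'.1 r = u.1 t := by
    intro t
    by_cases ht : t ∈ Icc 0 ε
    · obtain ⟨r, hr, e⟩ := h ⟨t, ht, rfl⟩
      exact ⟨r, fun _ => ⟨hr, e⟩⟩
    · exact ⟨0, fun h => absurd h ht⟩
  choose ρ hρ using hex
  obtain ⟨F, hF⟩ := Ultrafilter.exists_le (𝓝[>] (0 : ℝ))
  have hF0 : (F : Filter ℝ) ≤ 𝓝 0 := hF.trans nhdsWithin_le_nhds
  have hI : ∀ᶠ t in (F : Filter ℝ), t ∈ Ioc 0 ε := hF (Ioc_mem_nhdsGT hε)
  obtain ⟨r, hr, hlim⟩ := isCompact_Icc.ultrafilter_le_nhds (F.map ρ)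
    (le_principal_iff.2 (hI.mono fun t ht => (hρ t (Ioc_subset_Icc_self ht)).1))
  have hlim' : Tendsto ρ F (𝓝 r) := hlim
  have h0 : u.1 0 = u'.1 r := by
    refine tendsto_nhds_unique_of_eventuallyEq (l := (F : Filter ℝ))
      ((u.1.continuous.tendsto 0).mono_left hF0) ((u'.1.continuous.tendsto r).comp hlim') ?_
    exact hI.mono fun t ht => (hρ t (Ioc_subset_Icc_self ht)).2.symm
  obtain ⟨x, hx⟩ : ∃ x : M, u.1 0 ∈ (κ x).source := ⟨_, mem_extChartAt_source _⟩
  have hx' : u'.1 r ∈ (κ x).source := h0 ▸ hx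
  set V := vel x u.1 0 with hV
  set V' := vel x u'.1 r with hV'
  have hV0 : V' ≠ 0 := u'.vel_ne r hx'
  have hd := (u.geoAt 0).hasDerivAt hx
  have hd' := (u'.geoAt r).hasDerivAt hx'
  have hQ : Tendsto (dslope (fun s => κ x (u.1 s)) 0) F (𝓝 V) := by
    have := (continuousAt_dslope_same.2 hd.differentiableAt).tendsto
    rw [dslope_same, hd.deriv] at this
    exact this.mono_left hF0
  have hQ' : Tendsto (fun t => dslope (fun s => κ x (u'.1 s)) r (ρ t)) F (𝓝 V') := by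
    have := (continuousAt_dslope_same.2 hd'.differentiableAt).tendsto
    rw [dslope_same, hd'.deriv] at this
    exact this.comp hlim'
  have hrel : ∀ᶠ t in (F : Filter ℝ), dslope (fun s => κ x (u.1 s)) 0 t
      = ((ρ t - r) / t) • dslope (fun s => κ x (u'.1 s)) r (ρ t) := by
    refine hI.mono fun t ht => ?_
    have e1 := sub_smul_dslope (fun s => κ x (u.1 s)) 0 t
    have e2 := sub_smul_dslope (fun s => κ x (u'.1 s)) r (ρ t)
    simp only [(hρ t (Ioc_subset_Icc_self ht)).2, ← h0] at e2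
    rw [sub_zero] at e1
    rw [div_eq_inv_mul, mul_smul, e2, ← e1, inv_smul_smul₀ ht.1.ne']
  have hVV : inner ℝ V' V' ≠ 0 := (real_inner_self_pos.2 hV0).ne'
  have hi : Tendsto (fun t => inner ℝ V' (dslope (fun s => κ x (u.1 s)) 0 t)) F
      (𝓝 (inner ℝ V' V)) := tendsto_const_nhds.inner hQ
  have hi' : Tendsto (fun t => inner ℝ V' (dslope (fun s => κ x (u'.1 s)) r (ρ t))) F
      (𝓝 (inner ℝ V' V')) := tendsto_const_nhds.inner hQ'
  set l : ℝ := inner ℝ V' V / inner ℝ V' V' with hl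
  have hlam : Tendsto (fun t => (ρ t - r) / t) F (𝓝 l) := by
    refine (hi.div hi' hVV).congr' ?_
    filter_upwards [hrel, hi'.eventually_ne hVV] with t h1 h2
    simp only [Pi.div_apply]
    rw [h1, real_inner_smul_right, mul_div_cancel_right₀ _ h2]
  have hVl : V = l • V' := tendsto_nhds_unique_of_eventuallyEq hQ (hlam.smul hQ') hrel
  have hsq : l * l = 1 := by
    have h1 := u.unit 0 hx
    have h2 := u'.unit r hx'
    rw [← hV, hVl, h0] at h1
    simp only [map_smul, smul_apply, smul_eq_mul] at h1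
    rw [← hV'] at h2
    rw [h2] at h1
    linarith
  have hxl : u'.1 (l * 0 + r) ∈ (κ x).source := by rwa [mul_zero, zero_add]
  have key := geo_unique u.2.1 (u'.2.1.affine l r) (t0 := 0) hx (by simpa using h0)
    (by rw [vel_affine (u'.geoAt _) hxl, mul_zero, zero_add]; exact hVl)
  refine ⟨r, hr, ?_⟩
  rcases mul_self_eq_one_iff.1 hsq with h1 | h1
  · exact Or.inl fun s => by rw [congrFun key s, h1, one_mul, add_comm]
  · exact Or.inr fun s => by rw [congrFun key s, h1, neg_one_mul, neg_add_eq_sub]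

variable [CompactSpace M] [Nonempty M]

omit [Nonempty M] in
theorem SpaceX.exists_mk' (g : Met M) (x : M) {y : E × E} (hy : y.1 ∈ (κ x).target)
    (hV : y.2 ≠ 0) :
    ∃ u : UG g, (u.1 : ℝ → M) = geo g x (y.1, (√(G g x y.1 y.2 y.2))⁻¹ • y.2) := by
  obtain ⟨h1, h2, h3⟩ := geo_spec g x (y := (y.1, (√(G g x y.1 y.2 y.2))⁻¹ • y.2)) hy
  refine ⟨⟨⟨_, h1.1.continuous⟩, h1, fun t => ?_⟩, rfl⟩
  have hpos := G_pos g x hy hV
  have hx : geo g x (y.1, (√(G g x y.1 y.2 y.2))⁻¹ • y.2) 0 ∈ (κ x).source := by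
    rw [h2]; exact (κ x).map_target hy
  have h4 := energy_eq ((isGeodesic_iff g _).1 h1 0) hx
  rw [h3, h2, (κ x).right_inv hy] at h4
  simp only [map_smul, smul_apply, smul_eq_mul] at h4
  rw [← mul_assoc, ← mul_inv, Real.mul_self_sqrt hpos.le, inv_mul_cancel₀ hpos.ne'] at h4
  exact (energy_const h1 t 0).trans h4

theorem exists_mk (g : Met M) (x : M) (y : E × E) : ∃ u : UG g, y.1 ∈ (κ x).target → y.2 ≠ 0 →
    (u.1 : ℝ → M) = geo g x (y.1, (√(G g x y.1 y.2 y.2))⁻¹ • y.2) := by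
  by_cases h : y.1 ∈ (κ x).target ∧ y.2 ≠ 0
  · obtain ⟨u, hu⟩ := SpaceX.exists_mk' g x h.1 h.2
    exact ⟨u, fun _ _ => hu⟩
  · obtain ⟨V, hV⟩ := exists_ne (0 : E)
    obtain ⟨u, -⟩ := SpaceX.exists_mk' g x (y := (κ x x, V)) (mem_extChartAt_target x) hV
    exact ⟨u, fun h1 h2 => absurd ⟨h1, h2⟩ h⟩

/-- the unit speed geodesic with initial point `y.1` and initial direction `y.2` in the chart at
`x` -/
noncomputable def mk (g : Met M) (x : M) (y : E × E) : UG g := (exists_mk g x y).choose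

theorem mk_eq (g : Met M) (x : M) {y : E × E} (hy : y.1 ∈ (κ x).target) (hV : y.2 ≠ 0) :
    ((mk g x y).1 : ℝ → M) = geo g x (y.1, (√(G g x y.1 y.2 y.2))⁻¹ • y.2) :=
  (exists_mk g x y).choose_spec hy hV

theorem mk_zero (g : Met M) (x : M) {y : E × E} (hy : y.1 ∈ (κ x).target) (hV : y.2 ≠ 0) :
    (mk g x y).1 0 = (κ x).symm y.1 := by
  rw [mk_eq g x hy hV]; exact (geo_spec g x (y := (y.1, (√(G g x y.1 y.2 y.2))⁻¹ • y.2)) hy).2.1

theorem vel_mk (g : Met M) (x : M) {y : E × E} (hy : y.1 ∈ (κ x).target) (hV : y.2 ≠ 0) :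
    vel x (mk g x y).1 0 = (√(G g x y.1 y.2 y.2))⁻¹ • y.2 := by
  rw [mk_eq g x hy hV]; exact (geo_spec g x (y := (y.1, (√(G g x y.1 y.2 y.2))⁻¹ • y.2)) hy).2.2

theorem mk_jet {g : Met M} (u : UG g) {x : M} (hx : u.1 0 ∈ (κ x).source) {l : ℝ} (hl : 0 < l) :
    mk g x (κ x (u.1 0), l • vel x u.1 0) = u := by
  have hy : κ x (u.1 0) ∈ (κ x).target := (κ x).map_source hx
  have hV : l • vel x u.1 0 ≠ 0 := smul_ne_zero hl.ne' (u.vel_ne 0 hx)
  have h0 : (mk g x (κ x (u.1 0), l • vel x u.1 0)).1 0 = u.1 0 := by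
    rw [mk_zero g x hy hV]; exact (κ x).left_inv hx
  refine Subtype.ext (DFunLike.coe_injective ?_)
  refine geo_unique (mk g x _).2.1 u.2.1 (t0 := 0) (x := x) (by rw [h0]; exact hx) h0 ?_
  rw [vel_mk g x hy hV]
  simp only [map_smul, smul_apply, smul_eq_mul]
  rw [u.unit 0 hx, mul_one, Real.sqrt_mul_self hl.le, inv_smul_smul₀ hl.ne']

theorem mk_smooth (g : Met M) (x : M) {y : E × E} (hy : y.1 ∈ (κ x).target) (hV : y.2 ≠ 0)
    (t : ℝ) :
    ContMDiffAt 𝓘(ℝ, (E × E) × ℝ) (𝓡 2) ∞ (fun z : (E × E) × ℝ => (mk g x z.1).1 z.2) (y, t) := by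
  have hO : ∀ᶠ z : (E × E) × ℝ in 𝓝 (y, t), z.1.1 ∈ (κ x).target ∧ z.1.2 ≠ 0 := by
    refine Eventually.and ?_ ?_
    · exact (continuous_fst.fst).continuousAt.preimage_mem_nhds ((target_open x).mem_nhds hy)
    · exact (continuous_fst.snd).continuousAt.eventually_ne hV
  have hG : ContDiffAt ℝ ∞ (fun z : (E × E) × ℝ => G g x z.1.1 z.1.2 z.1.2) (y, t) := by
    have h1 : ContDiffAt ℝ ∞ (fun z : (E × E) × ℝ => G g x z.1.1) (y, t) :=
      ((G_smooth g x).contDiffAt ((target_open x).mem_nhds hy)).comp (y, t) contDiffAt_fst.fst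
    exact (h1.clm_apply contDiffAt_fst.snd).clm_apply contDiffAt_fst.snd
  have hpos := G_pos g x hy hV
  have hN : ContDiffAt ℝ ∞ (fun z : (E × E) × ℝ =>
      ((z.1.1, (√(G g x z.1.1 z.1.2 z.1.2))⁻¹ • z.1.2), z.2)) (y, t) :=
    (contDiffAt_fst.fst.prodMk (((hG.sqrt hpos.ne').inv (Real.sqrt_pos.2 hpos).ne').smul
      contDiffAt_fst.snd)).prodMk contDiffAt_snd
  have h := (geo_smooth g x (y := (y.1, (√(G g x y.1 y.2 y.2))⁻¹ • y.2)) hy t).comp (y, t)
    hN.contMDiffAt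
  refine h.congr_of_eventuallyEq (hO.mono fun z hz => ?_)
  simp only [Function.comp_apply]
  rw [mk_eq g x hz.1 hz.2]

theorem mk_cont (g : Met M) (x : M) : ContinuousOn (mk g x) ((κ x).target ×ˢ {0}ᶜ) := by
  rw [continuousOn_iff_continuous_domRestrict]
  refine continuous_induced_rng.2 (ContinuousMap.continuous_of_continuous_uncurry _ ?_)
  refine continuous_iff_continuousAt.2 fun q => ?_
  exact ContinuousAt.comp (f := fun q : ((κ x).target ×ˢ ({0}ᶜ : Set E) : Set (E × E)) × ℝ =>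
    ((q.1 : E × E), q.2)) (mk_smooth g x q.1.2.1 q.1.2.2 q.2).continuousAt (by fun_prop)

omit [T2Space M] [CompactSpace M] [Nonempty M] in
theorem SpaceX.compact_sphere (g : Met M) (x : M) {K : Set E} (hK : IsCompact K)
    (hKt : K ⊆ (κ x).target) : IsCompact {y : E × E | y.1 ∈ K ∧ G g x y.1 y.2 y.2 = 1} := by
  obtain ⟨l, hl, h⟩ := G_coercive g x hK hKt
  have hc : ContinuousOn (fun y : E × E => G g x y.1 y.2 y.2) (K ×ˢ univ) := by
    have h1 : ContinuousOn (fun y : E × E => G g x y.1) (K ×ˢ univ) :=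
      (G_smooth g x).continuousOn.comp continuousOn_fst fun y hy => hKt hy.1
    exact (h1.clm_apply continuousOn_snd).clm_apply continuousOn_snd
  have hcl := hc.preimage_isClosed_of_isClosed (hK.isClosed.prod isClosed_univ)
    (isClosed_singleton (x := (1 : ℝ)))
  refine (hK.prod (isCompact_closedBall (0 : E) (l⁻¹ + 1))).of_isClosed_subset ?_ ?_
  · convert hcl using 1
    ext y
    simp
  · intro y hy
    refine ⟨hy.1, mem_closedBall_zero_iff.2 ?_⟩
    have h1 := h y.1 hy.1 y.2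
    rw [hy.2] at h1
    have h2 : ‖y.2‖ ^ 2 ≤ l⁻¹ := by
      rw [← one_div, le_div_iff₀ hl]; linarith
    nlinarith [sq_nonneg (‖y.2‖ - 1), inv_pos.2 hl]

theorem SpaceX.vel_cont_zero (g : Met M) (x : M) {u : UG g} (hu : u.1 0 ∈ (κ x).source) :
    ContinuousAt (fun v : UG g => vel x v.1 0) u := by
  obtain ⟨r, hr, hsub⟩ := nhds_basis_closedBall.mem_iff.1
    ((target_open x).mem_nhds ((κ x).map_source hu))
  have hev : Continuous fun v : UG g => v.1 0 :=
    (ev_cont g).comp (continuous_id.prodMk continuous_const)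
  have h1 : ∀ᶠ v : UG g in 𝓝 u, v.1 0 ∈ (κ x).source :=
    hev.continuousAt.preimage_mem_nhds ((source_open x).mem_nhds hu)
  have h2 : ∀ᶠ v : UG g in 𝓝 u, κ x (v.1 0) ∈ closedBall (κ x (u.1 0)) r :=
    (ContinuousAt.comp (f := fun v : UG g => v.1 0) (continuousAt_extChartAt' hu)
      hev.continuousAt).preimage_mem_nhds (closedBall_mem_nhds _ hr)
  have key : Tendsto (fun v : UG g => (κ x (v.1 0), vel x v.1 0)) (𝓝 u)
      (𝓝 (κ x (u.1 0), vel x u.1 0)) := by
    refine (SpaceX.compact_sphere g x (isCompact_closedBall _ r)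
      hsub).tendsto_nhds_of_unique_mapClusterPt ?_ fun y hy hcl => ?_
    · filter_upwards [h1, h2] with v hv1 hv2
      exact ⟨hv2, v.unit 0 hv1⟩
    · have hyt : y.1 ∈ (κ x).target := hsub hy.1
      have hy0 : y.2 ≠ 0 := fun h0 => by
        have h3 := hy.2
        rw [h0] at h3
        simp at h3
      have hc : ContinuousAt (mk g x) y := (mk_cont g x).continuousAt
        (((target_open x).prod isOpen_compl_singleton).mem_nhds ⟨hyt, hy0⟩)
      have h3 := hcl.continuousAt_comp hc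
      have h4 : (mk g x ∘ fun v : UG g => (κ x (v.1 0), vel x v.1 0)) =ᶠ[𝓝 u] id :=
        h1.mono fun v hv => by simpa using mk_jet v hv one_pos
      have h5 : mk g x y = u := by
        have h6 : ClusterPt (mk g x y) (𝓝 u) := by
          have h7 : ClusterPt (mk g x y) (map _ (𝓝 u)) := h3
          rwa [map_congr h4, map_id] at h7
        exact eq_of_nhds_neBot h6
      rw [← h5, mk_zero g x hyt hy0, vel_mk g x hyt hy0, (κ x).right_inv hyt, hy.2]
      simp
  exact key.snd_nhds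

/-- the velocity depends continuously on the geodesic and the time -/
theorem vel_cont (g : Met M) (x : M) :
    ContinuousOn (fun z : UG g × ℝ => vel x z.1.1 z.2) {z | z.1.1 z.2 ∈ (κ x).source} := by
  intro z hz
  have e : (fun z : UG g × ℝ => vel x z.1.1 z.2) = fun z => vel x (shift z.2 z.1).1 0 :=
    funext fun z => by rw [vel_shift, zero_add]
  rw [e]
  refine ContinuousAt.continuousWithinAt ?_
  refine ContinuousAt.comp (f := fun z : UG g × ℝ => shift z.2 z.1)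
    (SpaceX.vel_cont_zero g x (by rwa [shift_apply, zero_add])) ?_
  exact ((shift_cont g).comp continuous_swap).continuousAt

instance (g : Met M) : CompactSpace (UG g) := by
  have hex : ∀ p : M, ∃ r > 0, closedBall (κ p p) r ⊆ (κ p).target := fun p =>
    nhds_basis_closedBall.mem_iff.1 ((target_open p).mem_nhds (mem_extChartAt_target p))
  choose r hr hsub using hex
  obtain ⟨t, -, ht⟩ := isCompact_univ.elim_nhds_subcover
    (fun p : M => (κ p).source ∩ κ p ⁻¹' closedBall (κ p p) (r p)) fun p _ =>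
      inter_mem (extChartAt_source_mem_nhds p)
        ((continuousAt_extChartAt p).preimage_mem_nhds (closedBall_mem_nhds _ (hr p)))
  refine ⟨IsCompact.of_isClosed_subset (t.isCompact_biUnion (f := fun p => mk g p ''
    {y : E × E | y.1 ∈ closedBall (κ p p) (r p) ∧ G g p y.1 y.2 y.2 = 1}) fun p _ => ?_)
    isClosed_univ fun u _ => ?_⟩
  · refine (SpaceX.compact_sphere g p (isCompact_closedBall _ _) (hsub p)).image_of_continuousOn
      ((mk_cont g p).mono fun y hy => ⟨hsub p hy.1, fun h0 => ?_⟩)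
    have h1 := hy.2
    rw [mem_singleton_iff.1 h0] at h1
    simp at h1
  · obtain ⟨p, hp, h⟩ := mem_iUnion₂.1 (ht (mem_univ (u.1 0)))
    refine mem_iUnion₂.2 ⟨p, hp, (κ p (u.1 0), vel p u.1 0), ⟨h.2, u.unit 0 h.1⟩, ?_⟩
    simpa using mk_jet u h.1 one_pos

theorem fib_ne (g : Met M) (p : M) : ∃ u : UG g, u.1 0 = p := by
  obtain ⟨V, hV⟩ := exists_ne (0 : E)
  refine ⟨mk g p (κ p p, V), ?_⟩
  rw [mk_zero g p (mem_extChartAt_target p) hV]
  exact extChartAt_to_inv p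

theorem fib_conn (g : Met M) (p : M) : IsPreconnected {u : UG g | u.1 0 = p} := by
  have e : {u : UG g | u.1 0 = p} = (fun V : E => mk g p (κ p p, V)) '' {0}ᶜ := by
    ext u
    constructor
    · intro hu
      have hu' : u.1 0 = p := hu
      have hx : u.1 0 ∈ (κ p).source := hu' ▸ mem_extChartAt_source _
      refine ⟨vel p u.1 0, u.vel_ne 0 hx, ?_⟩
      have := mk_jet u hx one_pos
      rwa [one_smul, hu'] at this
    · rintro ⟨V, hV, rfl⟩
      exact (mk_zero g p (y := (κ p p, V)) (mem_extChartAt_target p) hV).trans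
        (extChartAt_to_inv p)
  rw [e]
  refine (isConnected_compl_singleton_of_one_lt_rank ?_ 0).isPreconnected.image _ ?_
  · rw [← Module.finrank_eq_rank, finrank_euclideanSpace_fin]
    norm_num
  · exact (mk_cont g p).comp (by fun_prop) fun V hV => ⟨mem_extChartAt_target p, hV⟩

theorem SpaceX.exists_orth (V : E) : ∃ W : E, W ≠ 0 ∧ inner ℝ V W = 0 := by
  by_cases hV : V = 0
  · obtain ⟨W, hW⟩ := exists_ne (0 : E)
    exact ⟨W, hW, by simp [hV]⟩
  · refine ⟨!₂[-V 1, V 0], fun h => hV ?_, ?_⟩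
    · have h0 := congrArg (fun W : E => W 0) h
      have h1 := congrArg (fun W : E => W 1) h
      simp at h0 h1
      ext i
      fin_cases i <;> simp [h0, h1]
    · simp [PiLp.inner_apply, Fin.sum_univ_two]
      ring

theorem exists_sec {g : Met M} (w : UG g) : ∃ O ∈ 𝓝 (w.1 0), ∃ r > 0, ∃ e : M → ℝ → UG g,
    ContinuousOn (fun x : M × ℝ => e x.1 x.2) (O ×ˢ Icc (-r) r) ∧
    (∀ q ∈ O, ∀ s ∈ Icc (-r) r, (e q s).1 0 = q) ∧ InjOn (e (w.1 0)) (Icc (-r) r) ∧
    e (w.1 0) 0 = w := by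
  have hx : w.1 0 ∈ (κ (w.1 0)).source := mem_extChartAt_source _
  set x := w.1 0 with hx0
  set V := vel x w.1 0 with hV
  have hV0 : V ≠ 0 := w.vel_ne 0 hx
  obtain ⟨W, hW, hVW⟩ := SpaceX.exists_orth V
  have hVV : inner ℝ V V ≠ 0 := (real_inner_self_pos.2 hV0).ne'
  have hin : ∀ s : ℝ, inner ℝ V (V + s • W) = inner ℝ V V := fun s => by
    rw [inner_add_right, real_inner_smul_right, hVW, mul_zero, add_zero]
  have hne : ∀ s : ℝ, V + s • W ≠ 0 := fun s h => hVV (by rw [← hin s, h, inner_zero_right])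
  refine ⟨(κ x).source, extChartAt_source_mem_nhds x, 1, one_pos,
    fun q s => mk g x (κ x q, V + s • W), ?_, fun q hq s _ => ?_, fun s _ s' _ e => ?_, ?_⟩
  · refine (mk_cont g x).comp (f := fun z : M × ℝ => (κ x z.1, V + z.2 • W)) ?_
      fun z hz => ⟨(κ x).map_source hz.1, hne _⟩
    refine ContinuousOn.prodMk ?_ (by fun_prop)
    exact (continuousOn_extChartAt x).comp continuousOn_fst fun z hz => hz.1
  · rw [mk_zero g x ((κ x).map_source hq) (hne s)]
    exact (κ x).left_inv hq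
  · have h1 := vel_mk g x (y := (κ x x, V + s • W)) (mem_extChartAt_target x) (hne s)
    have h2 := vel_mk g x (y := (κ x x, V + s' • W)) (mem_extChartAt_target x) (hne s')
    simp only at e h1 h2
    rw [e, h2] at h1
    have h3 := congrArg (inner ℝ V) h1
    rw [real_inner_smul_right, real_inner_smul_right, hin, hin] at h3
    have h4 := mul_right_cancel₀ hVV h3
    rw [h4] at h1
    have hc : (√(G g x (κ x x) (V + s • W) (V + s • W)))⁻¹ ≠ 0 :=
      inv_ne_zero (Real.sqrt_pos.2 (G_pos g x (mem_extChartAt_target x) (hne s))).ne'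
    have h5 := add_left_cancel (smul_right_injective E hc h1)
    exact (smul_left_injective ℝ hW h5).symm
  · have := mk_jet w hx one_pos
    rw [one_smul] at this
    simpa using this

end Pool.Agent.GeoFin
end

-- part Pool.Agent.P.MP_365c00_gt.ZA4b
section

/-! Null sets: push forward, pull back, reparametrisation. -/

set_option linter.unusedSectionVars false
set_option linter.unusedVariables false

open Set Filter Topology Metric Function MeasureTheory
open scoped Manifold ContDiff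
open Pool.Agent.GeoN

namespace Pool.Agent.Fu

variable {E : Type} [NormedAddCommGroup E] [InnerProductSpace ℝ E] [FiniteDimensional ℝ E]
  {M : Type} [TopologicalSpace M] [ChartedSpace E M] [IsManifold 𝓘(ℝ, E) ∞ M]
  [T2Space M] [CompactSpace M] [Nonempty M] [Nontrivial E] {g : Met E M}

variable [MeasurableSpace (E × E)] [BorelSpace (E × E)] {μ : Measure (E × E)}
  [μ.IsAddHaarMeasure]

theorem za4b_sub {A : Set (UG g × ℝ)} (x x' : M) :
    Prod.map (κ E x) (κ E x') '' ({z | ∃ w ∈ A, 0 < w.2 ∧ Psi w = z} ∩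
      (κ E x).source ×ˢ (κ E x').source) ⊆
      FF g x x' '' ({y | y ∈ TT E x ∧ arc g x y ∈ A} ∩ DD g x x' 1) := by
  rintro _ ⟨_, ⟨⟨w, hw, hl, rfl⟩, h1, h2⟩, rfl⟩
  have hy := jet_mem (x := x) h1 hl
  refine ⟨jet x w, ⟨⟨hy, ?_⟩, jet_DD h1 h2 hl⟩, ?_⟩
  · rw [arc_jet h1 hl]
    exact hw
  · rw [FF_arc hy, arc_jet h1 hl]

theorem za4b_diff {x x' : M} {y : E × E} (hy : y ∈ DD g x x' 1) :
    DifferentiableAt ℝ (FF g x x') y := (FF_smooth hy).differentiableAt (by simp)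

theorem za4b_R {x x' : M} {t : ℝ} (c : ℝ) {y : E × E} (hy : y ∈ DD g x' x t) :
    DifferentiableAt ℝ
      (fun y : E × E => (κ E x (geo g x' y t), c • vel E x (geo g x' y) t)) y := by
  have h0 : DifferentiableAt ℝ (fun y : E × E => (y, t)) y :=
    differentiableAt_id.prodMk (differentiableAt_const t)
  have h1 := ((geo_chart hy.1.1 hy.2).differentiableAt (by simp)).comp y h0
  have h2 := ((vel_chart hy.1.1 hy.2).differentiableAt (by simp)).comp y h0
  exact h1.prodMk (h2.const_smul c)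

theorem NT.push {A : Set (UG g × ℝ)} (hA : NT g μ A) :
    NP E μ {z | ∃ w ∈ A, 0 < w.2 ∧ Psi w = z} := by
  intro x x'
  exact measure_mono_null (za4b_sub x x') (null_push (fun y hy => za4b_diff hy.2)
    (measure_mono_null inter_subset_left (nt_iff.1 hA x)))

theorem NP.pull {A : Set (M × M)} (hA : NP E μ A) :
    NT g μ {w | NdJ g w.1 w.2 ∧ Psi w ∈ A} := by
  refine nt_iff.2 fun x => ?_
  obtain ⟨t, ht⟩ := za_cover E M
  have hs : {y | y ∈ TT E x ∧ arc g x y ∈ {w : UG g × ℝ | NdJ g w.1 w.2 ∧ Psi w ∈ A}} ⊆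
      ⋃ x' ∈ (t : Set M), ({y | y ∈ TT E x ∧
        arc g x y ∈ {w : UG g × ℝ | NdJ g w.1 w.2 ∧ Psi w ∈ A}} ∩ DD g x x' 1) := by
    intro y hy
    obtain ⟨x', hx', hp⟩ := ht (geo g x y 1)
    exact mem_biUnion hx' ⟨hy, hy.1, hp⟩
  refine measure_mono_null hs ((measure_biUnion_null_iff t.countable_toSet).2 fun x' _ => ?_)
  refine null_pull (F := FF g x x') (fun y hy => FF_smooth hy.2)
    (fun y hy => (nd_iff hy.2).2 hy.1.2.1) (hA x x') fun y hy => ?_
  rw [FF_arc hy.1.1]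
  exact mem_image_of_mem _ ⟨hy.1.2.2, Psi_src hy.2⟩

theorem np_sard : NP E μ {z | ∃ w : UG g × ℝ, 0 < w.2 ∧ ¬ NdJ g w.1 w.2 ∧ Psi w = z} := by
  intro x x'
  have h := za4b_sub (g := g) (A := {w | ¬ NdJ g w.1 w.2}) x x'
  refine measure_mono_null (Subset.trans (image_mono (inter_subset_inter_left _ ?_)) h)
    (null_sard (fun y hy => za4b_diff hy.2) fun y hy hi => hy.1.2 ((nd_iff hy.2).1 hi))
  rintro z ⟨w, h1, h2, h3⟩
  exact ⟨w, h2, h1, h3⟩

theorem NT.rep {A : Set (UG g × ℝ)} (hA : NT g μ A) (α : ℝ) {β : ℝ} (hβ : 0 < β) :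
    NT g μ {w | (shift (α * w.2) w.1, β * w.2) ∈ A} := by
  refine nt_iff.2 fun x => ?_
  obtain ⟨t, ht⟩ := za_cover E M
  have hs : {y | y ∈ TT E x ∧
      arc g x y ∈ {w : UG g × ℝ | (shift (α * w.2) w.1, β * w.2) ∈ A}} ⊆
      ⋃ x' ∈ (t : Set M), (fun y : E × E => (κ E x (geo g x' y (-(α / β))),
        β⁻¹ • vel E x (geo g x' y) (-(α / β)))) ''
          ({y | y ∈ TT E x' ∧ arc g x' y ∈ A} ∩ DD g x' x (-(α / β))) := by
    rintro y ⟨hy, hyA⟩
    have hl : 0 < (arc g x y).2 := ln_pos hy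
    have h0 := arc_src (g := g) hy
    have hj := jet_arc (g := g) hy
    generalize arc g x y = w at hyA hl h0 hj
    set w' : UG g × ℝ := (shift (α * w.2) w.1, β * w.2) with hw'
    obtain ⟨x', hx', hp⟩ := ht (w'.1.1 0)
    have hl' : 0 < w'.2 := mul_pos hβ hl
    have hy' := jet_mem (x := x') hp hl'
    have ha := arc_jet (x := x') hp hl'
    have hln : ln g x' (jet x' w') = β * w.2 := congrArg Prod.snd ha
    have ht0 : β * w.2 * -(α / β) + α * w.2 = 0 := by
      field_simp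
      ring
    have hg : geo g x' (jet x' w') (-(α / β)) = w.1.1 0 := by
      rw [geo_arc hy', ha, hln, hw', shift_apply, ht0]
    have hv : β⁻¹ • vel E x (geo g x' (jet x' w')) (-(α / β)) = w.2 • vel E x w.1.1 0 := by
      rw [vel_arc hy', ha, hln, hw', vel_shift, ht0, smul_smul, ← mul_assoc,
        inv_mul_cancel₀ hβ.ne', one_mul]
    refine mem_biUnion hx' ⟨jet x' w', ⟨⟨hy', ?_⟩, hy', ?_⟩, ?_⟩
    · rw [ha]
      exact hyA
    · rw [hg]
      exact h0
    · simp only [hg, hv]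
      exact hj
  refine measure_mono_null hs ((measure_biUnion_null_iff t.countable_toSet).2 fun x' _ => ?_)
  exact null_push (fun y hy => za4b_R _ hy.2)
    (measure_mono_null inter_subset_left (nt_iff.1 hA x'))

theorem nt_of_short {p : UG g → Prop} {r : ℝ} (hr : 0 < r)
    (hA : NT g μ {w | p w.1 ∧ w.2 < r}) : NT g μ {w | p w.1} := by
  have h := NT.iUnion fun n : ℕ => hA.rep 0 (β := 1 / ((n : ℝ) + 1)) (by positivity)
  refine h.mono fun w hw hl => ?_
  obtain ⟨n, hn⟩ := exists_nat_gt (w.2 / r)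
  refine mem_iUnion.2 ⟨n, ?_, ?_⟩
  · simp only [zero_mul, za_shift_zero]
    exact hw
  · have h1 : (0 : ℝ) < (n : ℝ) + 1 := by positivity
    rw [div_lt_iff₀ hr] at hn
    change 1 / ((n : ℝ) + 1) * w.2 < r
    rw [one_div, inv_mul_lt_iff₀ h1]
    nlinarith


end Pool.Agent.Fu
end

-- part Pool.Agent.P.MP_365c00_gt.ZA6
section

/-! Generic differences of lengths. -/

set_option linter.unusedSectionVars false
set_option linter.unusedVariables false

open Set Filter Topology Metric Function MeasureTheory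
open scoped Manifold ContDiff
open Pool.Agent.GeoN

namespace Pool.Agent.Fu

variable {E : Type} [NormedAddCommGroup E] [InnerProductSpace ℝ E] [FiniteDimensional ℝ E]
  {M : Type} [TopologicalSpace M] [ChartedSpace E M] [IsManifold 𝓘(ℝ, E) ∞ M]
  [T2Space M] [CompactSpace M] [Nonempty M] [Nontrivial E] {g : Met E M}

/-- the differential of the length in the end point coordinates -/
theorem za6_d {x x' : M} {b : E × E → E × E} {O : Set (E × E)} (hO : IsOpen O)
    (hb : ∀ z ∈ O, DifferentiableAt ℝ b z ∧ b z ∈ DD g x x' 1 ∧ FF g x x' (b z) = z)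
    {z : E × E} (hz : z ∈ O) :
    DifferentiableAt ℝ (fun z => ln g x (b z)) z ∧ ∀ ξ : E × E,
      fderiv ℝ (fun z => ln g x (b z)) z ξ =
        G g x' z.2 (vel E x' (arc g x (b z)).1.1 (ln g x (b z))) ξ.2 -
          G g x z.1 (vel E x (arc g x (b z)).1.1 0) ξ.1 := by
  obtain ⟨h1, h2, h3⟩ := hb z hz
  have hl : DifferentiableAt ℝ (ln g x) (b z) := (ln_smooth h2.1).differentiableAt (by simp)
  have hF : DifferentiableAt ℝ (FF g x x') (b z) := (FF_smooth h2).differentiableAt (by simp)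
  refine ⟨hl.comp z h1, fun ξ => ?_⟩
  have e1 : fderiv ℝ (fun z => ln g x (b z)) z ξ = fderiv ℝ (ln g x) (b z) (fderiv ℝ b z ξ) := by
    rw [fderiv_fun_comp z hl h1]
    rfl
  have e2 : fderiv ℝ (FF g x x') (b z) (fderiv ℝ b z ξ) = ξ := by
    have e : (fun z => FF g x x' (b z)) =ᶠ[𝓝 z] id := by
      filter_upwards [hO.mem_nhds hz] with v hv using (hb v hv).2.2
    have e' := e.fderiv_eq (𝕜 := ℝ)
    rw [fderiv_fun_comp z hF h1, fderiv_id] at e'
    exact congrArg (fun L : (E × E) →L[ℝ] (E × E) => L ξ) e'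
  have e3 : (fderiv ℝ b z ξ).1 = ξ.1 := by
    have := fderiv_FF h2 (fderiv ℝ b z ξ)
    rw [e2] at this
    exact (congrArg Prod.fst this).symm
  have e4 : (b z).1 = z.1 := (congrArg Prod.fst h3 : (FF g x x' (b z)).1 = z.1)
  rw [e1, dlen h2, e2, e3, h3, e4]

/-- equal velocities at both ends give one closed geodesic -/
theorem za6_key {x x' : M} {y y' z : E × E} (hy : y ∈ DD g x x' 1) (hy' : y' ∈ DD g x x' 1)
    (e : FF g x x' y = z) (e' : FF g x x' y' = z) {c : ℝ} (hc : ln g x y - ln g x y' = c)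
    (h : ∀ ξ : E × E, G g x' z.2 (vel E x' (arc g x y).1.1 (ln g x y)) ξ.2 -
        G g x z.1 (vel E x (arc g x y).1.1 0) ξ.1 =
      G g x' z.2 (vel E x' (arc g x y').1.1 (ln g x y')) ξ.2 -
        G g x z.1 (vel E x (arc g x y').1.1 0) ξ.1) :
    (arc g x y).1 = (arc g x y').1 ∧ Periodic (arc g x y).1.1 c := by
  have s := Psi_src hy
  have s' := Psi_src hy'
  rw [FF_arc hy.1] at e
  rw [FF_arc hy'.1] at e'
  have a1 : κ E x ((arc g x y).1.1 0) = z.1 := congrArg Prod.fst e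
  have a2 : κ E x' ((arc g x y).1.1 (ln g x y)) = z.2 := congrArg Prod.snd e
  have b1 : κ E x ((arc g x y').1.1 0) = z.1 := congrArg Prod.fst e'
  have b2 : κ E x' ((arc g x y').1.1 (ln g x y')) = z.2 := congrArg Prod.snd e'
  have s1 : (arc g x y).1.1 0 ∈ (κ E x).source := s.1
  have s2 : (arc g x y).1.1 (ln g x y) ∈ (κ E x').source := s.2
  have t1 : (arc g x y').1.1 0 ∈ (κ E x).source := s'.1
  have t2 : (arc g x y').1.1 (ln g x y') ∈ (κ E x').source := s'.2
  have p1 := (κ E x).injOn s1 t1 (a1.trans b1.symm)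
  have p2 := (κ E x').injOn s2 t2 (a2.trans b2.symm)
  have v1 : vel E x (arc g x y).1.1 0 = vel E x (arc g x y').1.1 0 := by
    refine ChartX.G_inj g x (a := z.1) (a1 ▸ (κ E x).map_source s1) fun w => ?_
    have := h (w, 0)
    simp only [map_zero, zero_sub, neg_inj] at this
    exact this
  have v2 : vel E x' (arc g x y).1.1 (ln g x y) = vel E x' (arc g x y').1.1 (ln g x y') := by
    refine ChartX.G_inj g x' (a := z.2) (a2 ▸ (κ E x').map_source s2) fun w => ?_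
    have := h (0, w)
    simp only [map_zero, sub_zero] at this
    exact this
  have hu : (arc g x y).1 = (arc g x y').1 := by
    refine Subtype.ext (ContinuousMap.ext fun r => ?_)
    have := za_ext s1 p1 v1 r
    rwa [add_zero] at this
  refine ⟨hu, fun r => ?_⟩
  have := za_ext s2 p2 v2 (r - ln g x y')
  rw [← hu, sub_add_cancel] at this
  rw [← this, ← hc]
  congr 1
  ring

variable [MeasurableSpace (E × E)] [BorelSpace (E × E)] {μ : Measure (E × E)}
  [μ.IsAddHaarMeasure]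

theorem np_gen (c : ℝ) : NP E μ {z | ∃ w v : UG g × ℝ, 0 < w.2 ∧ 0 < v.2 ∧ NdJ g w.1 w.2 ∧
    NdJ g v.1 v.2 ∧ Psi w = z ∧ Psi v = z ∧ w.2 - v.2 = c ∧
    ¬ (w.1 = v.1 ∧ Periodic w.1.1 c)} := by
  intro x x'
  let Q : Set ((E × E) × (E × E)) := {q | q.1 ∈ DD g x x' 1 ∧ q.2 ∈ DD g x x' 1 ∧
    Injective (fderiv ℝ (FF g x x') q.1) ∧ Injective (fderiv ℝ (FF g x x') q.2) ∧
    FF g x x' q.2 = FF g x x' q.1 ∧ ln g x q.1 - ln g x q.2 = c ∧
    ¬ ((arc g x q.1).1 = (arc g x q.2).1 ∧ Periodic (arc g x q.1).1.1 c)}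
  have hQ : μ ((fun q : (E × E) × (E × E) => FF g x x' q.1) '' Q) = 0 := by
    refine null_cover _ ?_
    rintro ⟨y0, y0'⟩ ⟨d1, d2, i1, i2, -, -, -⟩
    obtain ⟨b, O, hO, -, hb, hev⟩ := loc_inv (FF_smooth d1) i1 ((DD_open x x' 1).mem_nhds d1)
    obtain ⟨b', O', hO', -, hb', hev'⟩ := loc_inv (FF_smooth d2) i2 ((DD_open x x' 1).mem_nhds d2)
    refine ⟨_, prod_mem_nhds hev hev', measure_mono_null ?_
      (null_zero (μ := μ) (X := fun z => ln g x (b z) - ln g x (b' z) - c) (hO.inter hO')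
        fun z hz => ((za6_d hO hb hz.1).1.sub (za6_d hO' hb' hz.2).1).sub_const c)⟩
    rintro _ ⟨⟨y, y'⟩, ⟨⟨⟨m1, m2⟩, m3, m4⟩, e1, e2, -, -, e5, e6, e7⟩, rfl⟩
    simp only at m1 m2 m3 m4 e1 e2 e5 e6 e7 ⊢
    rw [e5] at m3 m4
    refine ⟨⟨m1, m3⟩, ?_, fun h0 => e7 (za6_key e1 e2 rfl e5 e6 fun ξ => ?_)⟩
    · show ln g x (b _) - ln g x (b' _) - c = 0
      rw [m2, m4, e6, sub_self]
    · obtain ⟨k1, k2⟩ := za6_d hO hb m1
      obtain ⟨k3, k4⟩ := za6_d hO' hb' m3
      rw [fderiv_sub_const, fderiv_fun_sub k1 k3] at h0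
      have h1 := congrArg (fun L : (E × E) →L[ℝ] ℝ => L ξ) h0
      simp only [sub_apply, zero_apply] at h1
      rw [k2, k4, m2, m4] at h1
      exact sub_eq_zero.1 h1
  refine measure_mono_null ?_ hQ
  rintro _ ⟨z, ⟨⟨w, v, w0, v0, nw, nv, pw, pv, hc, hn⟩, z1, z2⟩, rfl⟩
  have w1 : w.1.1 0 ∈ (κ E x).source := by rw [← pw] at z1; exact z1
  have w2 : w.1.1 w.2 ∈ (κ E x').source := by rw [← pw] at z2; exact z2
  have v1 : v.1.1 0 ∈ (κ E x).source := by rw [← pv] at z1; exact z1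
  have v2 : v.1.1 v.2 ∈ (κ E x').source := by rw [← pv] at z2; exact z2
  have dw := jet_DD w1 w2 w0
  have dv := jet_DD v1 v2 v0
  have aw := arc_jet w1 w0
  have av := arc_jet v1 v0
  have fw : FF g x x' (jet x w) = Prod.map (κ E x) (κ E x') z := by rw [FF_arc dw.1, aw, pw]
  have fv : FF g x x' (jet x v) = Prod.map (κ E x) (κ E x') z := by rw [FF_arc dv.1, av, pv]
  have lw : ln g x (jet x w) = w.2 := congrArg Prod.snd aw
  have lv : ln g x (jet x v) = v.2 := congrArg Prod.snd av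
  refine ⟨(jet x w, jet x v), ⟨dw, dv, (nd_iff dw).2 ?_, (nd_iff dv).2 ?_, fv.trans fw.symm, ?_, ?_⟩,
    fw⟩
  · rw [aw]
    exact nw
  · rw [av]
    exact nv
  · show ln g x (jet x w) - ln g x (jet x v) = c
    rw [lw, lv, hc]
  · show ¬ ((arc g x (jet x w)).1 = (arc g x (jet x v)).1 ∧ Periodic (arc g x (jet x w)).1.1 c)
    rw [aw, av]
    exact hn

end Pool.Agent.Fu
end

-- part Pool.Agent.P.MP_365c00_gt.ZA7
section

/-! Almost every closed geodesic is flat. -/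

set_option linter.unusedSectionVars false
set_option linter.unusedVariables false

open Set Filter Topology Metric Function MeasureTheory
open scoped Manifold ContDiff
open Pool.Agent.GeoN

namespace Pool.Agent.Fu

variable {E : Type} [NormedAddCommGroup E] [InnerProductSpace ℝ E] [FiniteDimensional ℝ E]
  {M : Type} [TopologicalSpace M] [ChartedSpace E M] [IsManifold 𝓘(ℝ, E) ∞ M]
  [T2Space M] [CompactSpace M] [Nonempty M] [Nontrivial E] {g : Met E M}

theorem za7_per {x : M} {y : E × E} (hy : y ∈ TT E x) {τ : ℝ} (hp : Periodic (geo g x y) τ) :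
    geo g x y τ ∈ (κ E x).source ∧ κ E x (geo g x y τ) = y.1 ∧ vel E x (geo g x y) τ = y.2 := by
  obtain ⟨-, h0, h1⟩ := geo_spec g x hy.1
  have pτ : geo g x y τ = (κ E x).symm y.1 := by
    rw [← h0]
    simpa using hp 0
  refine ⟨pτ ▸ (κ E x).map_target hy.1, by rw [pτ, (κ E x).right_inv hy.1], ?_⟩
  have h2 := ChartX.vel_aff (E := E) x (geo g x y) 1 τ 0
  have h3 : (fun s => geo g x y (1 * s + τ)) = geo g x y := funext fun s => by
    rw [one_mul, hp s]
  rw [h3, one_smul, mul_zero, zero_add] at h2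
  rw [← h2, h1]

theorem za7_loc {x : M} {y0 : E × E} (hy : y0 ∈ TT E x) {τ0 : ℝ}
    (hp : Periodic (geo g x y0) τ0) :
    ∃ N ∈ 𝓝 (y0, τ0), ∃ (O : Set (E × E)) (T : E × E → ℝ), IsOpen O ∧
      (∀ y ∈ O, y ∈ DD g x x (T y) ∧ DifferentiableAt ℝ T y) ∧
      ∀ z ∈ N, z.1 ∈ O ∧ (Periodic (geo g x z.1) z.2 → z.2 = T z.1) := by
  obtain ⟨a1, a2, a3⟩ := za7_per hy hp
  set l : E →L[ℝ] ℝ := innerSL ℝ y0.2 with hl
  have l0 : 0 < l (vel E x (geo g x y0) τ0) := by
    rw [a3, hl, innerSL_apply_apply]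
    exact real_inner_self_pos.2 hy.2
  have h1 : ∀ᶠ z : (E × E) × ℝ in 𝓝 (y0, τ0), z.1 ∈ TT E x :=
    continuousAt_fst.eventually ((TT_open x).mem_nhds hy)
  have h2 : ∀ᶠ z : (E × E) × ℝ in 𝓝 (y0, τ0), geo g x z.1 z.2 ∈ (κ E x).source :=
    (geo_smooth g x hy.1 τ0).continuousAt.eventually ((source_open x).mem_nhds a1)
  have h3 : ∀ᶠ z : (E × E) × ℝ in 𝓝 (y0, τ0), 0 < l (vel E x (geo g x z.1) z.2) :=
    (l.continuous.continuousAt.comp (vel_chart hy.1 a1).continuousAt).eventually (lt_mem_nhds l0)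
  obtain ⟨c, hc, h⟩ := Metric.eventually_nhds_iff_ball.1 (h1.and (h2.and h3))
  have g1 : ∀ w ∈ ball y0 c, ∀ s ∈ ball τ0 c, w ∈ TT E x ∧ geo g x w s ∈ (κ E x).source ∧
      0 < l (vel E x (geo g x w) s) := fun w hw s hs => h (w, s) (by
    rw [← ball_prod_same]
    exact ⟨hw, hs⟩)
  have der : ∀ w ∈ TT E x, ∀ s, geo g x w s ∈ (κ E x).source →
      HasDerivAt (fun s => l (κ E x (geo g x w s)) - l w.1) (l (vel E x (geo g x w) s)) s :=
    fun w hw s hs => (l.hasFDerivAt.comp_hasDerivAt s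
      (((isGeodesic_iff g _).1 (geo_spec g x hw.1).1 s).hasDerivAt hs)).sub_const (l w.1)
  obtain ⟨r, hr, hrc, T, hT, hT0, hT'⟩ := bbox_ift
    (Φ := fun z : (E × E) × ℝ => l (κ E x (geo g x z.1 z.2)) - l z.1.1)
    (Φ' := fun z => l (vel E x (geo g x z.1) z.2)) (w0 := y0) (τ := τ0) hc one_pos
    (by simp only [a2, sub_self]) fun w hw s hs => by
      obtain ⟨b1, b2, b3⟩ := g1 w hw s hs
      exact ⟨(l.contDiff.contDiffAt.comp _ (geo_chart b1.1 b2)).sub
        (l.contDiff.contDiffAt.comp _ (contDiffAt_fst.comp _ contDiffAt_fst)), der w b1 s b2, b3⟩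
  refine ⟨ball y0 r ×ˢ ball τ0 c, prod_mem_nhds (ball_mem_nhds _ hr) (ball_mem_nhds _ hc),
    ball y0 r, T, isOpen_ball, fun y hy' => ⟨?_, ?_⟩, fun z hz => ⟨hz.1, fun hq => ?_⟩⟩
  · obtain ⟨b1, b2, -⟩ := g1 y (ball_subset_ball hrc hy') _ (hT' y hy').2.1
    exact ⟨b1, b2⟩
  · exact (hT.contDiffAt (isOpen_ball.mem_nhds hy')).differentiableAt (by simp)
  · have hw := ball_subset_ball hrc hz.1
    have mono : StrictMonoOn (fun s => l (κ E x (geo g x z.1 s)) - l z.1.1) (ball τ0 c) :=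
      bbox_mono (f' := fun s => l (vel E x (geo g x z.1) s)) fun s hs => by
        obtain ⟨b1, b2, b3⟩ := g1 z.1 hw s hs
        exact ⟨der z.1 b1 s b2, b3⟩
    refine mono.injOn hz.2 (hT' z.1 hz.1).2.1 (Eq.trans ?_ (hT' z.1 hz.1).2.2.symm)
    simp only [(za7_per (g1 z.1 hw z.2 hz.2).1 hq).2.1, sub_self]

theorem za7_der {x : M} {y : E × E} {T : E × E → ℝ} (hy : y ∈ DD g x x (T y))
    (hT : DifferentiableAt ℝ T y) :
    HasFDerivAt (fun z : E × E => κ E x (geo g x z (T z)) - z.1)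
      ((fderiv ℝ (fun z : (E × E) × ℝ => κ E x (geo g x z.1 z.2)) (y, T y)).comp
        ((ContinuousLinearMap.id ℝ (E × E)).prod (fderiv ℝ T y)) -
          ContinuousLinearMap.fst ℝ E E) y := by
  have hc := ((geo_chart hy.1.1 hy.2).differentiableAt (by simp)).hasFDerivAt
  exact (HasFDerivAt.comp y (f := fun z : E × E => (z, T z)) hc
    ((hasFDerivAt_id y).prodMk hT.hasFDerivAt)).sub hasFDerivAt_fst

theorem za7_flat {x : M} {y : E × E} {T : E × E → ℝ} (hy : y ∈ DD g x x (T y))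
    (hT : DifferentiableAt ℝ T y)
    (h0 : fderiv ℝ (fun z : E × E => κ E x (geo g x z (T z)) - z.1) y = 0) :
    FlatJ g (arc g x y).1 (ln g x y * T y) := by
  refine flat_of_chart hy fun ξ => ⟨-fderiv ℝ T y (0, ξ), ?_⟩
  have hc := (geo_chart hy.1.1 hy.2).differentiableAt (by simp)
  have h1 := congrArg (fun L : (E × E) →L[ℝ] E => L (0, ξ)) ((za7_der hy hT).fderiv.symm.trans h0)
  have h2 : fderiv ℝ (fun z : (E × E) × ℝ => κ E x (geo g x z.1 z.2)) (y, T y) (0, 1) =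
      vel E x (geo g x y) (T y) := VarX.fderiv_snd hc
  have h3 : JC g x x y (T y) ξ =
      fderiv ℝ (fun z : (E × E) × ℝ => κ E x (geo g x z.1 z.2)) (y, T y) ((0, ξ), 0) := by
    have h4 := HasFDerivAt.comp y.2 (f := fun V : E => ((y.1, V), T y)) hc.hasFDerivAt
      (((hasFDerivAt_const y.1 y.2).prodMk (hasFDerivAt_id y.2)).prodMk
        (hasFDerivAt_const (T y) y.2))
    rw [JC, HasFDerivAt.fderiv (f := fun V => κ E x (geo g x (y.1, V) (T y))) h4]
    simp
  have h5 : (((0, ξ), fderiv ℝ T y (0, ξ)) : (E × E) × ℝ) =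
      ((0, ξ), 0) + fderiv ℝ T y (0, ξ) • ((0, 1) : (E × E) × ℝ) := by
    simp
  simp only [_root_.sub_apply, ContinuousLinearMap.comp_apply,
    ContinuousLinearMap.prod_apply, ContinuousLinearMap.id_apply, ContinuousLinearMap.coe_fst',
    sub_zero, _root_.zero_apply] at h1
  rw [h5, map_add, map_smul, h2, ← h3] at h1
  rw [neg_smul]
  exact eq_neg_of_add_eq_zero_left h1

variable [MeasurableSpace (E × E)] [BorelSpace (E × E)] {μ : Measure (E × E)}
  [μ.IsAddHaarMeasure]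

theorem nt_flat : NT g μ {w | ∃ P > 0, Periodic w.1.1 P ∧ ¬ FlatJ g w.1 P} := by
  intro x
  have key := null_cover (μ := μ) (Q := {z : (E × E) × ℝ | z.1 ∈ TT E x ∧
      Periodic (geo g x z.1) z.2 ∧ ¬ FlatJ g (arc g x z.1).1 (ln g x z.1 * z.2)}) Prod.fst
    fun z hz => by
      obtain ⟨N, hN, O, T, hO, h1, h2⟩ := za7_loc hz.1 hz.2.1
      refine ⟨N, hN, measure_mono_null ?_ (null_zero (μ := μ)
        (X := fun z : E × E => κ E x (geo g x z (T z)) - z.1) hO
        fun y hy => (za7_der (h1 y hy).1 (h1 y hy).2).differentiableAt)⟩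
      rintro _ ⟨w, ⟨hw, b1, b2, b3⟩, rfl⟩
      obtain ⟨c1, c2⟩ := h2 w hw
      have c3 := c2 b2
      refine ⟨c1, ?_, fun h0 => b3 ?_⟩
      · show κ E x (geo g x w.1 (T w.1)) - w.1.1 = 0
        rw [← c3, (za7_per b1 b2).2.1, sub_self]
      · rw [c3]
        exact za7_flat (h1 _ c1).1 (h1 _ c1).2 h0
  refine measure_mono_null ?_ key
  rintro y ⟨a1, a2, P, -, a3, a4⟩
  have hy : y ∈ TT E x := ⟨a1, a2⟩
  have hl := (ln_pos (g := g) hy).ne'
  have e : ln g x y * (P / ln g x y) = P := mul_div_cancel₀ P hl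
  refine ⟨(y, P / ln g x y), ⟨hy, fun s => ?_, ?_⟩, rfl⟩
  · show geo g x y (s + P / ln g x y) = geo g x y s
    rw [geo_arc hy, geo_arc hy, mul_add, e]
    exact a3 _
  · show ¬ FlatJ g (arc g x y).1 (ln g x y * (P / ln g x y))
    rw [e]
    exact a4

end Pool.Agent.Fu
end

-- part Pool.Agent.P.MP_365c00_gt.ZC3
section

/-! Identities between the basic operators. -/

set_option linter.unusedSectionVars false
set_option linter.unusedVariables false

open Set Topology unitInterval TensorProduct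

namespace Pool.Agent.Fu

variable {F : Type} [Field F] {X Y Z : Type} [TopologicalSpace X] [TopologicalSpace Y]
  [TopologicalSpace Z]

theorem bd_bd (c : Ch F X) : bd (bd c) = 0 := by
  induction X, c using ind with
  | h0 => simp
  | hadd X a b ha hb => simp [ha, hb]
  | hsm X r a ha => simp [ha]
  | hpt X x => simp
  | hunc X a ha =>
    rw [bd_unc, map_sub, map_sub, bd_map, bd_map, bd_unc, ha, map_zero]
    abel

theorem om_om (c : Ch F X) : om (om c) = c := by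
  induction X, c using ind with
  | h0 => simp
  | hadd X a b ha hb => simp [ha, hb]
  | hsm X r a ha => simp [ha]
  | hpt X x => simp
  | hunc X a ha => rw [om_unc, map_neg, om_unc, ha, neg_neg]

theorem om_bd (c : Ch F X) : om (bd c) = - bd (om c) := by
  induction X, c using ind with
  | h0 => simp
  | hadd X a b ha hb => simp only [map_add, ha, hb]; abel
  | hsm X r a ha => simp [ha]
  | hpt X x => simp
  | hunc X a ha =>
    rw [bd_unc, map_sub, map_sub, om_map, om_map, om_unc, ha, om_unc, map_neg, map_neg, bd_unc]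
    abel

theorem eps_bd (c : Ch F X) : eps (bd c) = 0 := by
  induction X, c using ind with
  | h0 => simp
  | hadd X a b ha hb => simp [ha, hb]
  | hsm X r a ha => simp [ha]
  | hpt X x => simp
  | hunc X a ha => rw [bd_unc]; simp

theorem eps_om (c : Ch F X) : eps (om c) = eps c := by
  induction X, c using ind with
  | h0 => simp
  | hadd X a b ha hb => simp [ha, hb]
  | hsm X r a ha => simp [ha]
  | hpt X x => simp
  | hunc X a ha => rw [om_unc]; simp

theorem dg_dg (j k : ℕ) (c : Ch F X) : dg j (dg k c) = if j = k then dg k c else 0 := by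
  induction X, c using ind generalizing j k with
  | h0 => simp
  | hadd X a b ha hb => rw [map_add, map_add, ha, hb]; split_ifs <;> simp
  | hsm X r a ha => rw [map_smul, map_smul, ha]; split_ifs <;> simp
  | hpt X x => cases j <;> cases k <;> simp
  | hunc X a ha =>
    cases k with
    | zero => simp
    | succ k =>
      cases j with
      | zero => rw [dg_succ_unc]; simp
      | succ j =>
        rw [dg_succ_unc, dg_succ_unc, ha]
        by_cases h : j = k <;> simp [h]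

theorem zc3_bd_dg_zero (c : Ch F X) : bd (dg 0 c) = 0 := by
  induction X, c using ind with
  | h0 => simp
  | hadd X a b ha hb => simp [ha, hb]
  | hsm X r a ha => simp [ha]
  | hpt X x => simp
  | hunc X a ha => simp

theorem dg_bd (k : ℕ) (c : Ch F X) : dg k (bd c) = bd (dg (k + 1) c) := by
  induction X, c using ind generalizing k with
  | h0 => simp
  | hadd X a b ha hb => simp [ha, hb]
  | hsm X r a ha => simp [ha]
  | hpt X x => simp
  | hunc X a ha =>
    rw [bd_unc, dg_succ_unc, bd_unc, map_sub, map_sub, dg_map, dg_map]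
    cases k with
    | zero => rw [dg_zero_unc, zc3_bd_dg_zero, map_zero]
    | succ k => rw [dg_succ_unc, ha]

theorem bd_dg_zero (c : Ch F X) : bd (dg 0 c) = 0 := zc3_bd_dg_zero c

theorem dg_om (k : ℕ) (c : Ch F X) : dg k (om c) = om (dg k c) := by
  induction X, c using ind generalizing k with
  | h0 => simp
  | hadd X a b ha hb => simp [ha, hb]
  | hsm X r a ha => simp [ha]
  | hpt X x => cases k <;> simp
  | hunc X a ha =>
    rw [om_unc, map_neg]
    cases k with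
    | zero => simp
    | succ k => rw [dg_succ_unc, dg_succ_unc, om_unc, ha]

theorem om_dg (k : ℕ) (c : Ch F X) : om (dg k c) = (-1 : F) ^ k • dg k c := by
  induction X, c using ind generalizing k with
  | h0 => simp
  | hadd X a b ha hb => simp [ha, hb]
  | hsm X r a ha => rw [map_smul, map_smul, ha, smul_comm]
  | hpt X x => cases k <;> simp
  | hunc X a ha =>
    cases k with
    | zero => simp
    | succ k => rw [dg_succ_unc, om_unc, ha, map_smul, pow_succ, mul_neg_one, neg_smul]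

theorem eps_dg_zero (c : Ch F X) : eps (dg 0 c) = eps c := by
  induction X, c using ind with
  | h0 => simp
  | hadd X a b ha hb => simp [ha, hb]
  | hsm X r a ha => simp [ha]
  | hpt X x => simp
  | hunc X a ha => simp

theorem eps_dg_succ (k : ℕ) (c : Ch F X) : eps (dg (k + 1) c) = 0 := by
  induction X, c using ind with
  | h0 => simp
  | hadd X a b ha hb => simp [ha, hb]
  | hsm X r a ha => simp [ha]
  | hpt X x => simp
  | hunc X a ha => rw [dg_succ_unc, eps_unc]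

theorem exists_sum_dg (c : Ch F X) :
    ∃ n, ∀ m, n ≤ m → ∑ k ∈ Finset.range m, dg k c = c := by
  induction X, c using ind with
  | h0 => exact ⟨0, fun m _ => by simp⟩
  | hadd X a b ha hb =>
    obtain ⟨n, hn⟩ := ha
    obtain ⟨n', hn'⟩ := hb
    refine ⟨max n n', fun m hm => ?_⟩
    simp only [map_add, Finset.sum_add_distrib]
    rw [hn m (le_trans (le_max_left _ _) hm), hn' m (le_trans (le_max_right _ _) hm)]
  | hsm X r a ha =>
    obtain ⟨n, hn⟩ := ha
    refine ⟨n, fun m hm => ?_⟩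
    simp only [map_smul]
    rw [← Finset.smul_sum, hn m hm]
  | hpt X x =>
    refine ⟨1, fun m hm => ?_⟩
    obtain ⟨m, rfl⟩ : ∃ m', m = m' + 1 := ⟨m - 1, by omega⟩
    rw [Finset.sum_range_succ']
    simp
  | hunc X a ha =>
    obtain ⟨n, hn⟩ := ha
    refine ⟨n + 1, fun m hm => ?_⟩
    obtain ⟨m, rfl⟩ : ∃ m', m = m' + 1 := ⟨m - 1, by omega⟩
    rw [Finset.sum_range_succ', dg_zero_unc, add_zero]
    simp only [dg_succ_unc]
    rw [← map_sum, hn m (by omega)]

theorem dg_sd (k : ℕ) (c : Ch F X) : dg k (sd c) = sd (dg k c) := by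
  induction X, c using ind generalizing k with
  | h0 => simp
  | hadd X a b ha hb => simp [ha, hb]
  | hsm X r a ha => simp [ha]
  | hpt X x => cases k <;> simp
  | hunc X a ha =>
    rw [sd_unc, map_add]
    cases k with
    | zero => simp
    | succ k => rw [dg_succ_unc, dg_succ_unc, dg_succ_unc, sd_unc, dg_map, dg_map, ha]

theorem map_const (y : Y) (c : Ch F X) : map (ContinuousMap.const X y) c = eps c • pt y := by
  refine ind (P := fun X _ c => ∀ (Y : Type) [TopologicalSpace Y] (y : Y),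
    map (ContinuousMap.const X y) c = eps c • pt y) ?_ ?_ ?_ ?_ ?_ X c Y y
  · intro X _ Y _ y; simp
  · intro X _ a b ha hb Y _ y; rw [map_add, map_add, ha, hb, add_smul]
  · intro X _ r a ha Y _ y; rw [map_smul, map_smul, ha, smul_smul, smul_eq_mul]
  · intro X _ x Y _ y; simp
  · intro X _ a ha Y _ y
    have e : post (ContinuousMap.const X y) =
        (cst Y).comp (ContinuousMap.const C(I, X) y) := by
      ext; rfl
    rw [map_unc, e, ← map_map, unc_cst, eps_unc, zero_smul]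


theorem mem_HD {k : ℕ} {c : Ch F X} : c ∈ HD F X k ↔ dg k c = c := Iff.rfl
theorem dg_mem_HD (k : ℕ) (c : Ch F X) : dg k c ∈ HD F X k := by
  rw [mem_HD, dg_dg, if_pos rfl]

theorem dg_of_ne {j k : ℕ} {c : Ch F X} (h : c ∈ HD F X k) (hjk : j ≠ k) : dg j c = 0 := by
  rw [← mem_HD.1 h, dg_dg, if_neg hjk]

theorem pt_mem_HD (x : X) : (pt x : Ch F X) ∈ HD F X 0 := mem_HD.2 (dg_zero_pt x)

theorem unc_mem_HD {k : ℕ} {c : Ch F C(I, X)} (h : c ∈ HD F _ k) : unc c ∈ HD F X (k + 1) := by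
  rw [mem_HD, dg_succ_unc, mem_HD.1 h]

theorem map_mem_HD {k : ℕ} (f : C(X, Y)) {c : Ch F X} (h : c ∈ HD F X k) :
    map f c ∈ HD F Y k := by
  rw [mem_HD, dg_map, mem_HD.1 h]

theorem bd_mem_HD {k : ℕ} {c : Ch F X} (h : c ∈ HD F X (k + 1)) : bd c ∈ HD F X k := by
  rw [mem_HD, dg_bd, mem_HD.1 h]

theorem bd_of_HD_zero {c : Ch F X} (h : c ∈ HD F X 0) : bd c = 0 := by
  rw [← mem_HD.1 h, bd_dg_zero]

theorem om_of_HD {k : ℕ} {c : Ch F X} (h : c ∈ HD F X k) : om c = (-1 : F) ^ k • c := by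
  have := om_dg k c
  rwa [mem_HD.1 h] at this

theorem om_of_even {k : ℕ} {c : Ch F X} (h : c ∈ HD F X k) (hk : Even k) : om c = c := by
  rw [om_of_HD h, hk.neg_one_pow, one_smul]

theorem sd_mem_HD {k : ℕ} {c : Ch F X} (h : c ∈ HD F X k) : sd c ∈ HD F X k := by
  rw [mem_HD, dg_sd, mem_HD.1 h]

theorem zc3_cube (n : ℕ) : ∀ (X : Type) [TopologicalSpace X] (c : Cb n X),
    (cube ⟨n, c⟩ : Ch F X) ∈ HD F X n := by
  induction n with
  | zero => intro X _ c; exact pt_mem_HD (X := X) c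
  | succ n ih =>
    intro X _ c
    rw [cube_succ n (X := X) c]
    exact unc_mem_HD (ih C(I, X) c)

theorem cube_mem_HD (c : Σ n, Cb n X) : (cube c : Ch F X) ∈ HD F X c.1 := zc3_cube c.1 X c.2

/-- a submodule that contains all homogeneous components of a chain contains the chain -/
theorem mem_of_dg {P : Type} [AddCommGroup P] [Module F P] (L : Ch F X →ₗ[F] P)
    (S : Submodule F P) {c : Ch F X} (h : ∀ k, L (dg k c) ∈ S) : L c ∈ S := by
  obtain ⟨n, hn⟩ := exists_sum_dg c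
  rw [← hn n le_rfl, map_sum]
  exact S.sum_mem fun k _ => h k

end Pool.Agent.Fu
end

-- part Pool.Agent.P.MP_365c00_gt.BoxC
section

/-!
Concrete boxes (paper sec. 0).
-/

open Set Filter Topology Metric
open scoped Manifold ContDiff

namespace Pool.Agent.GeoFin

variable {M : Type*} [TopologicalSpace M] [ChartedSpace E M] [IsManifold (𝓡 2) ∞ M]
  [T2Space M] [CompactSpace M] [Nonempty M]

/-- data of a box centred at `w`, in the chart at `w 0` -/
structure PreBox {g : Met M} (w : UG g) where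
  e1 : E
  e2 : E
  l1 : E →L[ℝ] ℝ
  l2 : E →L[ℝ] ℝ
  D : Set (ℝ × ℝ)
  c : ℝ
  V : ℝ × ℝ → E
  η0 : ℝ
  l1_e1 : l1 e1 = 1
  l1_e2 : l1 e2 = 0
  l2_e1 : l2 e1 = 0
  l2_e2 : l2 e2 = 1
  decomp : ∀ v : E, v = l1 v • e1 + l2 v • e2
  D_open : IsOpen D
  c_pos : 0 < c
  c_le : c ≤ 1 / 4
  pt_mem : ∀ z ∈ D, κ (w.1 0) (w.1 0) + z.1 • e2 ∈ (κ (w.1 0)).target
  V_smooth : ContDiffOn ℝ ∞ V D
  V_unit : ∀ z ∈ D, G g (w.1 0) (κ (w.1 0) (w.1 0) + z.1 • e2) (V z) (V z) = 1
  V_mom : ∀ z ∈ D, G g (w.1 0) (κ (w.1 0) (w.1 0) + z.1 • e2) (V z) e2 = z.2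
  V_uniq : ∀ z ∈ D, ∀ U : E, G g (w.1 0) (κ (w.1 0) (w.1 0) + z.1 • e2) U U = 1 →
    G g (w.1 0) (κ (w.1 0) (w.1 0) + z.1 • e2) U e2 = z.2 → 0 < l1 U → U = V z
  ctr_mem : (0, η0) ∈ D
  ctr : V (0, η0) = vel (w.1 0) w.1 0
  stay : ∀ z ∈ D, ∀ t, |t| ≤ 2 * c →
    (mk g (w.1 0) (κ (w.1 0) (w.1 0) + z.1 • e2, V z)).1 t ∈ (κ (w.1 0)).source ∧
      1 / 2 ≤ l1 (vel (w.1 0) (mk g (w.1 0) (κ (w.1 0) (w.1 0) + z.1 • e2, V z)).1 t)

namespace PreBox

variable {g : Met M} {w : UG g} (b : PreBox w)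

/-- base point of the transversal in the chart -/
noncomputable def pt (z : ℝ × ℝ) : E := κ (w.1 0) (w.1 0) + z.1 • b.e2

/-- the transversal -/
noncomputable def Z (z : ℝ × ℝ) : UG g := GeoFin.mk g (w.1 0) (b.pt z, b.V z)

/-- the box -/
def N : Set (UG g) := {u | ∃ y : ℝ × (ℝ × ℝ), y.2 ∈ b.D ∧ |y.1| < b.c ∧ shift y.1 u = b.Z y.2}

open Classical in
/-- time to the transversal and point hit -/
noncomputable def hit (u : UG g) : ℝ × (ℝ × ℝ) := if h : u ∈ b.N then h.choose else 0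

/-- time to the transversal -/
noncomputable def τ (u : UG g) : ℝ := (b.hit u).1

/-- point hit -/
noncomputable def ζ (u : UG g) : ℝ × ℝ := (b.hit u).2

theorem hit_spec {u : UG g} (h : u ∈ b.N) :
    b.ζ u ∈ b.D ∧ |b.τ u| < b.c ∧ shift (b.τ u) u = b.Z (b.ζ u) := by
  unfold τ ζ hit
  rw [dif_pos h]
  exact h.choose_spec

theorem V_ne {z : ℝ × ℝ} (hz : z ∈ b.D) : b.V z ≠ 0 := fun h => by
  simpa [h] using b.V_unit z hz

theorem Z_zero {z : ℝ × ℝ} (hz : z ∈ b.D) : (b.Z z).1 0 = (κ (w.1 0)).symm (b.pt z) :=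
  mk_zero g _ (y := (b.pt z, b.V z)) (b.pt_mem z hz) (b.V_ne hz)

theorem κ_Z_zero {z : ℝ × ℝ} (hz : z ∈ b.D) : κ (w.1 0) ((b.Z z).1 0) = b.pt z := by
  rw [b.Z_zero hz]; exact (κ (w.1 0)).right_inv (b.pt_mem z hz)

theorem vel_Z_zero {z : ℝ × ℝ} (hz : z ∈ b.D) : vel (w.1 0) (b.Z z).1 0 = b.V z := by
  have h := vel_mk g (w.1 0) (y := (b.pt z, b.V z)) (b.pt_mem z hz) (b.V_ne hz)
  have h1 : G g (w.1 0) (b.pt z) (b.V z) (b.V z) = 1 := b.V_unit z hz
  rw [h1, Real.sqrt_one, inv_one, one_smul] at h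
  exact h

theorem Z_stay {z : ℝ × ℝ} (hz : z ∈ b.D) {t : ℝ} (ht : |t| ≤ 2 * b.c) :
    (b.Z z).1 t ∈ (κ (w.1 0)).source ∧ 1 / 2 ≤ b.l1 (vel (w.1 0) (b.Z z).1 t) := b.stay z hz t ht

/-- the family of geodesics through the transversal is smooth -/
theorem Z_smooth {z : ℝ × ℝ} (hz : z ∈ b.D) (t : ℝ) :
    ContMDiffAt 𝓘(ℝ, (ℝ × ℝ) × ℝ) (𝓡 2) ∞ (fun y : (ℝ × ℝ) × ℝ => (b.Z y.1).1 y.2) (z, t) := by
  have h1 : ContDiffAt ℝ ∞ b.V z := b.V_smooth.contDiffAt (b.D_open.mem_nhds hz)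
  have h2 : ContDiffAt ℝ ∞ (fun y : (ℝ × ℝ) × ℝ => ((b.pt y.1, b.V y.1), y.2)) (z, t) := by
    refine ContDiffAt.prodMk (ContDiffAt.prodMk ?_ ?_) contDiffAt_snd
    · unfold pt
      fun_prop
    · exact ContDiffAt.comp (z, t) (g := b.V) h1 contDiffAt_fst
  exact (mk_smooth g (w.1 0) (y := (b.pt z, b.V z)) (b.pt_mem z hz) (b.V_ne hz) t).comp (z, t)
    h2.contMDiffAt

theorem Z_cont : ContinuousOn b.Z b.D := by
  have h1 : ContinuousOn (fun z => (b.pt z, b.V z)) b.D := by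
    refine ContinuousOn.prodMk ?_ b.V_smooth.continuousOn
    unfold pt
    fun_prop
  exact (mk_cont g (w.1 0)).comp h1 fun z hz => ⟨b.pt_mem z hz, b.V_ne hz⟩

theorem Z_ctr : b.Z (0, b.η0) = w := by
  have h := mk_jet w (x := w.1 0) (mem_extChartAt_source _) one_pos
  rw [one_smul] at h
  unfold Z pt
  rw [b.ctr, zero_smul, add_zero]
  exact h

end PreBox

namespace BoxCX

variable {g : Met M} {w : UG g} (b : PreBox w)

omit [T2Space M] [CompactSpace M] [Nonempty M] in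
theorem shift_shift (s t : ℝ) (u : UG g) : shift s (shift t u) = shift (s + t) u := by
  refine Subtype.ext (ContinuousMap.ext fun r => ?_)
  rw [shift_apply, shift_apply, shift_apply, add_assoc]

omit [T2Space M] [CompactSpace M] [Nonempty M] in
theorem shift_zero (u : UG g) : shift 0 u = u := by
  refine Subtype.ext (ContinuousMap.ext fun r => ?_)
  rw [shift_apply, add_zero]

/-- first coordinate -/
noncomputable def cx (q : M) : ℝ := b.l1 (κ (w.1 0) q - κ (w.1 0) (w.1 0))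

/-- second coordinate -/
noncomputable def cy (q : M) : ℝ := b.l2 (κ (w.1 0) q - κ (w.1 0) (w.1 0))

theorem chart_eq (q : M) :
    κ (w.1 0) q = κ (w.1 0) (w.1 0) + (cx b q • b.e1 + cy b q • b.e2) := by
  have h := b.decomp (κ (w.1 0) q - κ (w.1 0) (w.1 0))
  unfold cx cy
  rw [← h]
  abel

theorem eq_of_coord {q q' : M} (hq : q ∈ (κ (w.1 0)).source) (hq' : q' ∈ (κ (w.1 0)).source)
    (h1 : cx b q = cx b q') (h2 : cy b q = cy b q') : q = q' := by
  apply (κ (w.1 0)).injOn hq hq'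
  rw [chart_eq b q, chart_eq b q', h1, h2]

theorem cx_cont {q : M} (hq : q ∈ (κ (w.1 0)).source) : ContinuousAt (cx b) q :=
  b.l1.continuous.continuousAt.comp ((continuousAt_extChartAt' hq).sub continuousAt_const)

theorem cy_cont {q : M} (hq : q ∈ (κ (w.1 0)).source) : ContinuousAt (cy b) q :=
  b.l2.continuous.continuousAt.comp ((continuousAt_extChartAt' hq).sub continuousAt_const)

theorem cx_zero {z : ℝ × ℝ} (hz : z ∈ b.D) : cx b ((b.Z z).1 0) = 0 := by
  unfold cx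
  rw [b.κ_Z_zero hz, PreBox.pt, add_sub_cancel_left, map_smul, b.l1_e2, smul_zero]

theorem cy_zero {z : ℝ × ℝ} (hz : z ∈ b.D) : cy b ((b.Z z).1 0) = z.1 := by
  unfold cy
  rw [b.κ_Z_zero hz, PreBox.pt, add_sub_cancel_left, map_smul, b.l2_e2, smul_eq_mul, mul_one]

theorem cx_deriv (u : UG g) {t : ℝ} (ht : u.1 t ∈ (κ (w.1 0)).source) :
    HasDerivAt (fun s => cx b (u.1 s)) (b.l1 (vel (w.1 0) u.1 t)) t :=
  b.l1.hasFDerivAt.comp_hasDerivAt t (((u.geoAt t).hasDerivAt ht).sub_const _)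

theorem cx_grow {z : ℝ × ℝ} (hz : z ∈ b.D) {s t : ℝ} (hs : |s| ≤ 2 * b.c) (ht : |t| ≤ 2 * b.c)
    (hst : s ≤ t) : 1 / 2 * (t - s) ≤ cx b ((b.Z z).1 t) - cx b ((b.Z z).1 s) := by
  have hd : ∀ r ∈ Icc (-(2 * b.c)) (2 * b.c), HasDerivAt (fun s => cx b ((b.Z z).1 s))
      (b.l1 (vel (w.1 0) (b.Z z).1 r)) r := fun r hr =>
    cx_deriv b _ (b.Z_stay hz (abs_le.2 hr)).1
  refine (convex_Icc (-(2 * b.c)) (2 * b.c)).mul_sub_le_image_sub_of_le_deriv
    (f := fun s => cx b ((b.Z z).1 s))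
    (fun r hr => (hd r hr).continuousAt.continuousWithinAt)
    (fun r hr => (hd r (interior_subset hr)).differentiableAt.differentiableWithinAt)
    (fun r hr => ?_) s (abs_le.1 hs) t (abs_le.1 ht) hst
  rw [(hd r (interior_subset hr)).deriv]
  have hr' : r ∈ Icc (-(2 * b.c)) (2 * b.c) := interior_subset hr
  exact (b.Z_stay hz (abs_le.2 hr')).2

theorem cx_lt {z : ℝ × ℝ} (hz : z ∈ b.D) {s t : ℝ} (hs : |s| ≤ 2 * b.c) (ht : |t| ≤ 2 * b.c)
    (h : cx b ((b.Z z).1 s) < cx b ((b.Z z).1 t)) : s < t := by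
  by_contra hn
  have := cx_grow b hz ht hs (not_lt.1 hn)
  linarith [not_lt.1 hn]

theorem cx_le {z : ℝ × ℝ} (hz : z ∈ b.D) {s t : ℝ} (hs : |s| ≤ 2 * b.c) (ht : |t| ≤ 2 * b.c)
    (h : cx b ((b.Z z).1 s) ≤ cx b ((b.Z z).1 t)) : s ≤ t := by
  by_contra hn
  have := cx_grow b hz ht hs (not_le.1 hn).le
  linarith [not_le.1 hn]

theorem cx_inj {z : ℝ × ℝ} (hz : z ∈ b.D) {s t : ℝ} (hs : |s| ≤ 2 * b.c) (ht : |t| ≤ 2 * b.c)
    (h : cx b ((b.Z z).1 s) = cx b ((b.Z z).1 t)) : s = t :=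
  le_antisymm (cx_le b hz hs ht h.le) (cx_le b hz ht hs h.ge)

theorem abs_zero_le : |(0 : ℝ)| ≤ 2 * b.c := by
  rw [abs_zero]
  linarith [b.c_pos]

theorem uniq {z z' : ℝ × ℝ} (hz : z ∈ b.D) (hz' : z' ∈ b.D) {t : ℝ} (ht : |t| < 2 * b.c)
    (h : shift t (b.Z z) = b.Z z') : t = 0 ∧ z = z' := by
  have h1 : (b.Z z).1 t = (b.Z z').1 0 := by rw [← h, shift_apply, zero_add]
  have h2 : t = 0 := by
    refine cx_inj b hz ht.le (abs_zero_le b) ?_
    rw [h1, cx_zero b hz, cx_zero b hz']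
  refine ⟨h2, ?_⟩
  rw [h2, shift_zero] at h
  have h3 : z.1 = z'.1 := by rw [← cy_zero b hz, ← cy_zero b hz', h]
  have h4 : b.V z = b.V z' := by rw [← b.vel_Z_zero hz, ← b.vel_Z_zero hz', h]
  refine Prod.ext h3 ?_
  rw [← b.V_mom z hz, ← b.V_mom z' hz', h3, h4]

/-- coordinates of a geodesic crossing the transversal -/
noncomputable def psi (y : UG g × ℝ) : ℝ × ℝ :=
  (cy b (y.1.1 y.2), G g (w.1 0) (κ (w.1 0) (y.1.1 y.2)) (vel (w.1 0) y.1.1 y.2) b.e2)

omit [T2Space M] [CompactSpace M] [Nonempty M] in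
theorem src_open : IsOpen {y : UG g × ℝ | y.1.1 y.2 ∈ (κ (w.1 0)).source} :=
  (source_open (w.1 0)).preimage (ev_cont g)

theorem vel_contAt {y : UG g × ℝ} (hy : y.1.1 y.2 ∈ (κ (w.1 0)).source) :
    ContinuousAt (fun y : UG g × ℝ => vel (w.1 0) y.1.1 y.2) y :=
  (vel_cont g (w.1 0)).continuousAt (src_open.mem_nhds hy)

theorem psi_cont {y : UG g × ℝ} (hy : y.1.1 y.2 ∈ (κ (w.1 0)).source) :
    ContinuousAt (psi b) y := by
  have h0 : ContinuousAt (fun y : UG g × ℝ => y.1.1 y.2) y := (ev_cont g).continuousAt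
  refine ContinuousAt.prodMk
    (ContinuousAt.comp (f := fun y : UG g × ℝ => y.1.1 y.2) (cy_cont b hy) h0) ?_
  have h1 : ContinuousAt (fun y : UG g × ℝ => κ (w.1 0) (y.1.1 y.2)) y :=
    ContinuousAt.comp (f := fun y : UG g × ℝ => y.1.1 y.2) (continuousAt_extChartAt' hy) h0
  have h2 : ContinuousAt (G g (w.1 0)) (κ (w.1 0) (y.1.1 y.2)) :=
    (G_smooth g (w.1 0)).continuousOn.continuousAt
      ((target_open _).mem_nhds ((κ (w.1 0)).map_source hy))
  have h3 : ContinuousAt (fun y : UG g × ℝ => G g (w.1 0) (κ (w.1 0) (y.1.1 y.2))) y :=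
    ContinuousAt.comp (f := fun y : UG g × ℝ => κ (w.1 0) (y.1.1 y.2)) h2 h1
  exact (h3.clm_apply (vel_contAt hy)).clm_apply continuousAt_const

theorem cross {u : UG g} {t : ℝ} (hs : u.1 t ∈ (κ (w.1 0)).source) (hD : psi b (u, t) ∈ b.D)
    (hl : 0 < b.l1 (vel (w.1 0) u.1 t)) (h0 : cx b (u.1 t) = 0) :
    shift t u = b.Z (psi b (u, t)) := by
  have h1 : κ (w.1 0) (u.1 t) = b.pt (psi b (u, t)) := by
    rw [chart_eq b (u.1 t), h0, zero_smul, zero_add]
    rfl
  have h2 : vel (w.1 0) u.1 t = b.V (psi b (u, t)) := by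
    refine b.V_uniq _ hD _ ?_ ?_ hl
    · have := u.unit t hs
      rwa [h1] at this
    · have : G g (w.1 0) (κ (w.1 0) (u.1 t)) (vel (w.1 0) u.1 t) b.e2 = (psi b (u, t)).2 := rfl
      rwa [h1] at this
  have h3 : (shift t u).1 0 = u.1 t := by rw [shift_apply, zero_add]
  have h4 := mk_jet (shift t u) (x := w.1 0) (by rwa [h3]) one_pos
  rw [one_smul, h3, vel_shift, zero_add, h1, h2] at h4
  exact h4.symm

theorem near {u0 : UG g} (hu : u0 ∈ b.N) {ε : ℝ} (hε : 0 < ε) {W : Set (ℝ × ℝ)}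
    (hW : W ∈ 𝓝 (b.ζ u0)) :
    ∀ᶠ u in 𝓝 u0, u ∈ b.N ∧ |b.τ u - b.τ u0| < ε ∧ b.ζ u ∈ W := by
  obtain ⟨hD, hτ, hs⟩ := b.hit_spec hu
  set t0 := b.τ u0 with ht0
  set z0 := b.ζ u0 with hz0
  have hev : ∀ s, u0.1 (s + t0) = (b.Z z0).1 s := fun s => by rw [← hs, shift_apply]
  have e0 : u0.1 t0 = (b.Z z0).1 0 := by rw [← hev, zero_add]
  have ev0 : vel (w.1 0) u0.1 t0 = b.V z0 := by
    rw [← b.vel_Z_zero hD, ← hs, vel_shift, zero_add]
  have hsrc : u0.1 t0 ∈ (κ (w.1 0)).source := by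
    rw [e0]
    exact (b.Z_stay hD (abs_zero_le b)).1
  have hpsi : psi b (u0, t0) = z0 := by
    refine Prod.ext ?_ ?_
    · change cy b (u0.1 t0) = z0.1
      rw [e0, cy_zero b hD]
    · change G g (w.1 0) (κ (w.1 0) (u0.1 t0)) (vel (w.1 0) u0.1 t0) b.e2 = z0.2
      rw [ev0, e0, b.κ_Z_zero hD]
      exact b.V_mom z0 hD
  have hl0 : 0 < b.l1 (vel (w.1 0) u0.1 t0) := by
    have := (b.Z_stay hD (abs_zero_le b)).2
    rw [b.vel_Z_zero hD] at this
    rw [ev0]
    linarith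
  have E1 : ∀ᶠ y : UG g × ℝ in 𝓝 (u0, t0), y.1.1 y.2 ∈ (κ (w.1 0)).source :=
    src_open.mem_nhds hsrc
  have E2 : ∀ᶠ y : UG g × ℝ in 𝓝 (u0, t0), psi b y ∈ W ∩ b.D :=
    psi_cont b (y := (u0, t0)) hsrc (by
      rw [hpsi]
      exact inter_mem hW (b.D_open.mem_nhds hD))
  have E3 : ∀ᶠ y : UG g × ℝ in 𝓝 (u0, t0), 0 < b.l1 (vel (w.1 0) y.1.1 y.2) :=
    (b.l1.continuous.continuousAt.comp (vel_contAt (y := (u0, t0)) hsrc)).eventually
      (lt_mem_nhds hl0)
  have E4 := E1.and (E2.and E3)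
  rw [nhds_prod_eq, eventually_prod_iff] at E4
  obtain ⟨pa, hpa, pb, hpb, hab⟩ := E4
  obtain ⟨δ0, hδ0, hball⟩ := Metric.eventually_nhds_iff.1 hpb
  obtain ⟨δ, hδ, hδ1, hδ2, hδ3⟩ : ∃ δ > 0, δ < δ0 ∧ δ < ε ∧ δ < b.c - |t0| :=
    ⟨min δ0 (min ε (b.c - |t0|)) / 2, by
      have : 0 < min δ0 (min ε (b.c - |t0|)) := lt_min hδ0 (lt_min hε (by linarith))
      have h1 := min_le_left δ0 (min ε (b.c - |t0|))
      have h2 := min_le_right δ0 (min ε (b.c - |t0|))
      have h3 := min_le_left ε (b.c - |t0|)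
      have h4 := min_le_right ε (b.c - |t0|)
      refine ⟨by linarith, by linarith, by linarith, by linarith⟩⟩
  have hδc : δ ≤ 2 * b.c := by linarith [abs_nonneg t0, b.c_pos]
  have a1 : |δ| ≤ 2 * b.c := by rwa [abs_of_pos hδ]
  have a2 : |-δ| ≤ 2 * b.c := by rwa [abs_neg]
  have hc : ∀ s, |s| ≤ 2 * b.c → ContinuousAt (fun u : UG g => cx b (u.1 (s + t0))) u0 := by
    intro s hs'
    refine ContinuousAt.comp (f := fun u : UG g => u.1 (s + t0)) (cx_cont b ?_) ?_
    · rw [hev]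
      exact (b.Z_stay hD hs').1
    · exact ((ev_cont g).comp (continuous_id.prodMk continuous_const)).continuousAt
  have F1 : ∀ᶠ u : UG g in 𝓝 u0, 0 < cx b (u.1 (δ + t0)) := by
    refine (hc δ a1).eventually (lt_mem_nhds ?_)
    have := cx_grow b hD (abs_zero_le b) a1 hδ.le
    rw [cx_zero b hD] at this
    simp only [hev]
    linarith
  have F2 : ∀ᶠ u : UG g in 𝓝 u0, cx b (u.1 (-δ + t0)) < 0 := by
    refine (hc (-δ) a2).eventually (gt_mem_nhds ?_)
    have := cx_grow b hD a2 (abs_zero_le b) (by linarith)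
    rw [cx_zero b hD] at this
    simp only [hev]
    linarith
  filter_upwards [hpa, F1, F2] with u h1 h2 h3
  have hI : ∀ t ∈ Icc (-δ + t0) (δ + t0), |t - t0| ≤ δ := fun t ht =>
    abs_le.2 ⟨by linarith [ht.1], by linarith [ht.2]⟩
  have hgood : ∀ t ∈ Icc (-δ + t0) (δ + t0), u.1 t ∈ (κ (w.1 0)).source ∧
      psi b (u, t) ∈ W ∩ b.D ∧ 0 < b.l1 (vel (w.1 0) u.1 t) := fun t ht =>
    hab h1 (hball (by rw [Real.dist_eq]; linarith [hI t ht]))
  have hcont : ContinuousOn (fun t => cx b (u.1 t)) (Icc (-δ + t0) (δ + t0)) := fun t ht =>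
    (cx_deriv b u (hgood t ht).1).continuousAt.continuousWithinAt
  obtain ⟨t, ht, h0⟩ := intermediate_value_Icc (by linarith) hcont ⟨h3.le, h2.le⟩
  obtain ⟨g1, ⟨g2, g3⟩, g4⟩ := hgood t ht
  have hx := cross b g1 g3 g4 h0
  have htc : |t| < b.c := by
    have := abs_add_le (t - t0) t0
    rw [sub_add_cancel] at this
    linarith [hI t ht]
  have hN : u ∈ b.N := ⟨(t, psi b (u, t)), g3, htc, hx⟩
  obtain ⟨k1, k2, k3⟩ := b.hit_spec hN
  have hu2 := uniq b g3 k1 (t := b.τ u - t) (by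
    have := abs_sub (b.τ u) t
    linarith) (by rw [← hx, shift_shift, sub_add_cancel, k3])
  refine ⟨hN, ?_, hu2.2 ▸ g2⟩
  have : b.τ u = t := by linarith [hu2.1]
  rw [this]
  linarith [hI t ht]

theorem exists_root (y : (ℝ × ℝ) × ℝ) : ∃ t : ℝ, y ∈ b.D ×ˢ Ioo (-(b.c / 2)) (b.c / 2) →
    |t| < b.c ∧ cx b ((b.Z y.1).1 t) = y.2 := by
  by_cases hy : y ∈ b.D ×ˢ Ioo (-(b.c / 2)) (b.c / 2)
  swap
  · exact ⟨0, fun h => absurd h hy⟩
  obtain ⟨hz, h1, h2⟩ := hy
  have hc := b.c_pos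
  have a1 : |b.c| ≤ 2 * b.c := by rw [abs_of_pos hc]; linarith
  have a2 : |-b.c| ≤ 2 * b.c := by rwa [abs_neg]
  have g1 := cx_grow b hz (abs_zero_le b) a1 hc.le
  have g2 := cx_grow b hz a2 (abs_zero_le b) (by linarith)
  rw [cx_zero b hz] at g1 g2
  have hcont : ContinuousOn (fun t => cx b ((b.Z y.1).1 t)) (Icc (-b.c) b.c) := fun t ht =>
    (cx_deriv b _ (b.Z_stay hz (abs_le.2 ⟨by linarith [ht.1], by linarith [ht.2]⟩)).1
      ).continuousAt.continuousWithinAt
  obtain ⟨t, ht, h0⟩ := intermediate_value_Ioo (by linarith) hcont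
    (show y.2 ∈ Ioo (cx b ((b.Z y.1).1 (-b.c))) (cx b ((b.Z y.1).1 b.c)) from
      ⟨by linarith, by linarith⟩)
  exact ⟨t, fun _ => ⟨abs_lt.2 ht, h0⟩⟩

/-- the time at which the first coordinate takes a given value -/
noncomputable def rt (y : (ℝ × ℝ) × ℝ) : ℝ := (exists_root b y).choose

theorem rt_spec {y : (ℝ × ℝ) × ℝ} (hy : y ∈ b.D ×ˢ Ioo (-(b.c / 2)) (b.c / 2)) :
    |rt b y| < b.c ∧ cx b ((b.Z y.1).1 (rt b y)) = y.2 := (exists_root b y).choose_spec hy

theorem rt_le {y : (ℝ × ℝ) × ℝ} (hy : y ∈ b.D ×ˢ Ioo (-(b.c / 2)) (b.c / 2)) :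
    |rt b y| ≤ 2 * b.c := by
  linarith [(rt_spec b hy).1, b.c_pos]

theorem S_open : IsOpen (b.D ×ˢ Ioo (-(b.c / 2)) (b.c / 2)) := b.D_open.prod isOpen_Ioo

theorem rt_cont {y0 : (ℝ × ℝ) × ℝ} (hy : y0 ∈ b.D ×ˢ Ioo (-(b.c / 2)) (b.c / 2)) :
    ContinuousAt (rt b) y0 := by
  have hc := b.c_pos
  have hZ : ContinuousAt (fun y : (ℝ × ℝ) × ℝ => b.Z y.1) y0 :=
    ContinuousAt.comp (f := Prod.fst) (b.Z_cont.continuousAt (b.D_open.mem_nhds hy.1))
      continuousAt_fst
  have hf : ∀ s, |s| ≤ 2 * b.c →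
      ContinuousAt (fun y : (ℝ × ℝ) × ℝ => cx b ((b.Z y.1).1 s) - y.2) y0 := by
    intro s hs
    refine ContinuousAt.sub ?_ continuousAt_snd
    refine ContinuousAt.comp (f := fun y : (ℝ × ℝ) × ℝ => (b.Z y.1).1 s)
      (cx_cont b (b.Z_stay hy.1 hs).1) ?_
    exact ContinuousAt.comp (f := fun y : (ℝ × ℝ) × ℝ => (b.Z y.1, s)) (ev_cont g).continuousAt
      (hZ.prodMk continuousAt_const)
  obtain ⟨h1, h2⟩ := rt_spec b hy
  rw [ContinuousAt, Metric.tendsto_nhds]
  intro ε hε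
  set δ := min ε b.c / 2 with hδ
  have d0 : 0 < min ε b.c := lt_min hε hc
  have d1 : δ < ε := by linarith [min_le_left ε b.c]
  have d2 : δ < b.c := by linarith [min_le_right ε b.c]
  have d3 : 0 < δ := by linarith
  have hr := abs_lt.1 h1
  have a1 : |rt b y0 + δ| ≤ 2 * b.c := abs_le.2 ⟨by linarith, by linarith⟩
  have a2 : |rt b y0 - δ| ≤ 2 * b.c := abs_le.2 ⟨by linarith, by linarith⟩
  have F1 : ∀ᶠ y : (ℝ × ℝ) × ℝ in 𝓝 y0, 0 < cx b ((b.Z y.1).1 (rt b y0 + δ)) - y.2 := by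
    refine (hf _ a1).eventually (lt_mem_nhds ?_)
    have := cx_grow b hy.1 (rt_le b hy) a1 (by linarith)
    linarith
  have F2 : ∀ᶠ y : (ℝ × ℝ) × ℝ in 𝓝 y0, cx b ((b.Z y.1).1 (rt b y0 - δ)) - y.2 < 0 := by
    refine (hf _ a2).eventually (gt_mem_nhds ?_)
    have := cx_grow b hy.1 a2 (rt_le b hy) (by linarith)
    linarith
  filter_upwards [F1, F2, (S_open b).mem_nhds hy] with y k1 k2 k3
  have k4 := (rt_spec b k3).2
  have k5 := cx_lt b k3.1 (rt_le b k3) a1 (by linarith)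
  have k6 := cx_lt b k3.1 a2 (rt_le b k3) (by linarith)
  rw [Real.dist_eq, abs_lt]
  constructor <;> linarith

/-- the second coordinate as a function of the first -/
noncomputable def yg (y : (ℝ × ℝ) × ℝ) : ℝ := cy b ((b.Z y.1).1 (rt b y))

theorem yg_cont {y0 : (ℝ × ℝ) × ℝ} (hy : y0 ∈ b.D ×ˢ Ioo (-(b.c / 2)) (b.c / 2)) :
    ContinuousAt (yg b) y0 := by
  have hZ : ContinuousAt (fun y : (ℝ × ℝ) × ℝ => b.Z y.1) y0 :=
    ContinuousAt.comp (f := Prod.fst) (b.Z_cont.continuousAt (b.D_open.mem_nhds hy.1))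
      continuousAt_fst
  refine ContinuousAt.comp (f := fun y : (ℝ × ℝ) × ℝ => (b.Z y.1).1 (rt b y))
    (cy_cont b (b.Z_stay hy.1 (rt_le b hy)).1) ?_
  exact ContinuousAt.comp (f := fun y : (ℝ × ℝ) × ℝ => (b.Z y.1, rt b y))
    (ev_cont g).continuousAt (hZ.prodMk (rt_cont b hy))

theorem yg_ne {z z' : ℝ × ℝ} (hz : z ∈ b.D) (hz' : z' ∈ b.D) (hne : z ≠ z') :
    ∃ ξ ∈ Ioo (-(b.c / 2)) (b.c / 2), yg b (z, ξ) ≠ yg b (z', ξ) := by
  by_contra hn
  push Not at hn
  have hc := b.c_pos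
  have m4 : b.c / 4 ∈ Ioo (-(b.c / 2)) (b.c / 2) := ⟨by linarith, by linarith⟩
  have s4 := rt_spec b (y := (z, b.c / 4)) ⟨hz, m4⟩
  have l4 := rt_le b (y := (z, b.c / 4)) ⟨hz, m4⟩
  set ε := rt b (z, b.c / 4) with hεd
  have hε : 0 < ε := by
    refine cx_lt b hz (abs_zero_le b) l4 ?_
    rw [cx_zero b hz, s4.2]
    linarith
  have hsub : (b.Z z).1 '' Icc 0 ε ⊆ (b.Z z').1 '' Icc 0 b.c := by
    rintro _ ⟨s, hs, rfl⟩
    have a1 : |s| ≤ 2 * b.c := by
      rw [abs_of_nonneg hs.1]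
      exact hs.2.trans ((le_abs_self _).trans l4)
    have g1 := cx_grow b hz (abs_zero_le b) a1 hs.1
    have g2 := cx_grow b hz a1 l4 hs.2
    rw [cx_zero b hz] at g1
    rw [s4.2] at g2
    set ξ := cx b ((b.Z z).1 s) with hξ
    have mξ : ξ ∈ Ioo (-(b.c / 2)) (b.c / 2) :=
      ⟨by linarith [hs.1], by simp only at g2; linarith [hs.2]⟩
    have r1 := rt_spec b (y := (z, ξ)) ⟨hz, mξ⟩
    have r2 := rt_spec b (y := (z', ξ)) ⟨hz', mξ⟩
    have l2 := rt_le b (y := (z', ξ)) ⟨hz', mξ⟩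
    have e1 : rt b (z, ξ) = s := cx_inj b hz (rt_le b (y := (z, ξ)) ⟨hz, mξ⟩) a1 r1.2
    refine ⟨rt b (z', ξ), ⟨?_, (le_abs_self _).trans r2.1.le⟩, ?_⟩
    · refine cx_le b hz' (abs_zero_le b) l2 ?_
      rw [cx_zero b hz', r2.2]
      linarith [hs.1]
    · refine eq_of_coord b (b.Z_stay hz' l2).1 (b.Z_stay hz a1).1 r2.2 ?_
      have := hn ξ mξ
      unfold yg at this
      rw [e1] at this
      exact this.symm
  obtain ⟨r, hr, h | h⟩ := UG.dir (b.Z z) (b.Z z') b.c ε hε hsub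
  · have h1 : shift r (b.Z z') = b.Z z := by
      refine Subtype.ext (ContinuousMap.ext fun s => ?_)
      rw [shift_apply, h, add_comm]
    have := uniq b hz' hz (t := r) (by rw [abs_of_nonneg hr.1]; linarith [hr.2]) h1
    exact hne this.2.symm
  · have a1 : |r| ≤ 2 * b.c := by rw [abs_of_nonneg hr.1]; linarith [hr.2]
    have h1 : r = 0 := by
      refine cx_inj b hz' a1 (abs_zero_le b) ?_
      have := h 0
      rw [sub_zero] at this
      rw [← this, cx_zero b hz, cx_zero b hz']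
    have a2 : |b.c| ≤ 2 * b.c := by rw [abs_of_pos hc]; linarith
    have a3 : |-b.c| ≤ 2 * b.c := by rwa [abs_neg]
    have g1 := cx_grow b hz (abs_zero_le b) a2 hc.le
    have g2 := cx_grow b hz' a3 (abs_zero_le b) (by linarith)
    have h2 := h b.c
    rw [h1, zero_sub] at h2
    rw [cx_zero b hz, h2] at g1
    rw [cx_zero b hz'] at g2
    linarith

end BoxCX

namespace PreBox

variable {g : Met M} {w : UG g} (b : PreBox w)

theorem mem_N {z : ℝ × ℝ} (hz : z ∈ b.D) {t : ℝ} (ht : |t| < b.c) : shift t (b.Z z) ∈ b.N :=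
  ⟨(-t, z), hz, by rwa [abs_neg], by
    rw [BoxCX.shift_shift, neg_add_cancel, BoxCX.shift_zero]⟩

theorem uniq {z z' : ℝ × ℝ} (hz : z ∈ b.D) (hz' : z' ∈ b.D) {t : ℝ} (ht : |t| < 2 * b.c)
    (h : shift t (b.Z z) = b.Z z') : t = 0 ∧ z = z' :=
  BoxCX.uniq b hz hz' ht h

theorem N_open : IsOpen b.N :=
  isOpen_iff_mem_nhds.2 fun _ hu => (BoxCX.near b hu one_pos univ_mem).mono fun _ h => h.1

theorem τ_cont : ContinuousOn b.τ b.N := by
  intro u hu
  refine ContinuousAt.continuousWithinAt ?_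
  rw [ContinuousAt, Metric.tendsto_nhds]
  intro ε hε
  exact (BoxCX.near b hu hε univ_mem).mono fun _ h => by rw [Real.dist_eq]; exact h.2.1

theorem ζ_cont : ContinuousOn b.ζ b.N := by
  intro u hu
  refine ContinuousAt.continuousWithinAt ?_
  intro W hW
  exact (BoxCX.near b hu one_pos hW).mono fun _ h => h.2.2

theorem fib {z : ℝ × ℝ} (hz : z ∈ b.D) : (b.Z z).1 0 = w.1 0 ↔ z.1 = 0 := by
  constructor
  · intro h
    rw [← BoxCX.cy_zero b hz, h]
    simp [BoxCX.cy]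
  · intro h
    rw [b.Z_zero hz, pt, h, zero_smul, add_zero]
    exact (κ (w.1 0)).left_inv (mem_extChartAt_source _)

theorem fib_τ {u : UG g} (hu : u ∈ b.N) (h : u.1 0 = w.1 0) : b.τ u = 0 := by
  obtain ⟨h1, h2, h3⟩ := b.hit_spec hu
  have h4 : (b.Z (b.ζ u)).1 (-b.τ u) = w.1 0 := by
    rw [← h3, shift_apply, neg_add_cancel, h]
  have h5 : -b.τ u = 0 := by
    refine BoxCX.cx_inj b h1 (by rw [abs_neg]; linarith [b.c_pos]) (BoxCX.abs_zero_le b) ?_
    rw [h4, BoxCX.cx_zero b h1]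
    simp [BoxCX.cx]
  linarith

theorem sweep {z z' : ℝ × ℝ} (hz : z ∈ b.D) (hz' : z' ∈ b.D) (hne : z ≠ z') :
    ∃ V ∈ 𝓝 z, ∃ V' ∈ 𝓝 z', ∃ O : Set M, IsOpen O ∧ O.Nonempty ∧
      ∀ (β : ℝ → ℝ × ℝ) (a a' : ℝ), a ≤ a' → ContinuousOn β (Icc a a') →
        MapsTo β (Icc a a') b.D → β a ∈ V → β a' ∈ V' →
        ∀ q ∈ O, ∃ s ∈ Ioo a a', ∃ t, |t| < b.c ∧ (b.Z (β s)).1 t = q := by
  obtain ⟨ξ0, hξ0, hY⟩ := BoxCX.yg_ne b hz hz' hne
  set σ := BoxCX.yg b (z', ξ0) - BoxCX.yg b (z, ξ0) with hσ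
  have hσ0 : σ ≠ 0 := sub_ne_zero.2 hY.symm
  have hσ2 : 0 < σ * σ := mul_self_pos.2 hσ0
  have r0 := BoxCX.rt_spec b (y := (z, ξ0)) ⟨hz, hξ0⟩
  set p0 := (b.Z z).1 (BoxCX.rt b (z, ξ0)) with hp0
  have hp0s : p0 ∈ (κ (w.1 0)).source :=
    (b.Z_stay hz (BoxCX.rt_le b (y := (z, ξ0)) ⟨hz, hξ0⟩)).1
  have hev : ∀ᶠ s : ℝ in 𝓝[>] 0, κ (w.1 0) p0 + (s * σ) • b.e2 ∈ (κ (w.1 0)).target := by
    have hc : ContinuousAt (fun s : ℝ => κ (w.1 0) p0 + (s * σ) • b.e2) 0 := by fun_prop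
    refine (hc.eventually ((target_open (w.1 0)).mem_nhds ?_)).filter_mono nhdsWithin_le_nhds
    simpa using (κ (w.1 0)).map_source hp0s
  obtain ⟨s0, hs0t, hs0⟩ := (hev.and (Ioo_mem_nhdsGT (zero_lt_one' ℝ))).exists
  set q0 := (κ (w.1 0)).symm (κ (w.1 0) p0 + (s0 * σ) • b.e2) with hq0
  have hq0s : q0 ∈ (κ (w.1 0)).source := (κ (w.1 0)).map_target hs0t
  have hκq : κ (w.1 0) q0 = κ (w.1 0) p0 + (s0 * σ) • b.e2 := (κ (w.1 0)).right_inv hs0t
  have hx0 : BoxCX.cx b q0 = ξ0 := by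
    have : BoxCX.cx b p0 = ξ0 := r0.2
    rw [← this]
    unfold BoxCX.cx
    rw [hκq, add_sub_right_comm, map_add, map_smul, b.l1_e2, smul_zero, add_zero]
  have hy0 : BoxCX.cy b q0 = BoxCX.yg b (z, ξ0) + s0 * σ := by
    have : BoxCX.yg b (z, ξ0) = BoxCX.cy b p0 := rfl
    rw [this]
    unfold BoxCX.cy
    rw [hκq, add_sub_right_comm, map_add, map_smul, b.l2_e2, smul_eq_mul, mul_one]
  have hΦ : ∀ z1 ∈ b.D, ContinuousAt (fun y : (ℝ × ℝ) × M =>
      (BoxCX.yg b (y.1, BoxCX.cx b y.2) - BoxCX.cy b y.2) * σ) (z1, q0) := by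
    intro z1 hz1
    refine ContinuousAt.mul (ContinuousAt.sub ?_ ?_) continuousAt_const
    · refine ContinuousAt.comp (f := fun y : (ℝ × ℝ) × M => (y.1, BoxCX.cx b y.2))
        (BoxCX.yg_cont b ⟨hz1, by simp only [hx0]; exact hξ0⟩) ?_
      exact continuousAt_fst.prodMk
        (ContinuousAt.comp (f := Prod.snd) (BoxCX.cx_cont b hq0s) continuousAt_snd)
    · exact ContinuousAt.comp (f := Prod.snd) (BoxCX.cy_cont b hq0s) continuousAt_snd
  have E1 := (hΦ z hz).eventually (gt_mem_nhds (show (BoxCX.yg b (z, BoxCX.cx b q0)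
      - BoxCX.cy b q0) * σ < 0 by
    rw [hx0, hy0]
    nlinarith [hs0.1]))
  have E2 := (hΦ z' hz').eventually (lt_mem_nhds (show 0 < (BoxCX.yg b (z', BoxCX.cx b q0)
      - BoxCX.cy b q0) * σ by
    rw [hx0, hy0, ← sub_sub, ← hσ]
    nlinarith [hs0.2]))
  rw [nhds_prod_eq, eventually_prod_iff] at E1 E2
  obtain ⟨V, hV, O1, hO1, k1⟩ := E1
  obtain ⟨V', hV', O2, hO2, k2⟩ := E2
  have E3 : ∀ᶠ q in 𝓝 q0, q ∈ (κ (w.1 0)).source := (source_open _).mem_nhds hq0s
  have E4 : ∀ᶠ q in 𝓝 q0, BoxCX.cx b q ∈ Ioo (-(b.c / 2)) (b.c / 2) :=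
    BoxCX.cx_cont b hq0s (isOpen_Ioo.mem_nhds (by rwa [hx0]))
  obtain ⟨O, hO, hOo, hOq⟩ := _root_.eventually_nhds_iff.1 (hO1.and (hO2.and (E3.and E4)))
  refine ⟨{x | V x}, hV, {x | V' x}, hV', O, hOo, ⟨q0, hOq⟩, ?_⟩
  intro β a a' haa hβ hmap ha ha' q hq
  obtain ⟨m1, m2, m3, m4⟩ := hO q hq
  have hcont : ContinuousOn
      (fun s => (BoxCX.yg b (β s, BoxCX.cx b q) - BoxCX.cy b q) * σ) (Icc a a') := by
    intro s hs
    refine ContinuousWithinAt.mul (ContinuousWithinAt.sub ?_ continuousWithinAt_const)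
      continuousWithinAt_const
    exact ContinuousAt.comp_continuousWithinAt (f := fun s => (β s, BoxCX.cx b q))
      (BoxCX.yg_cont b ⟨hmap hs, m4⟩) ((hβ s hs).prodMk continuousWithinAt_const)
  obtain ⟨s, hs, h0⟩ := intermediate_value_Ioo haa hcont ⟨k1 ha m1, k2 ha' m2⟩
  have hsD : β s ∈ b.D := hmap (Ioo_subset_Icc_self hs)
  have r1 := BoxCX.rt_spec b (y := (β s, BoxCX.cx b q)) ⟨hsD, m4⟩
  refine ⟨s, hs, _, r1.1, BoxCX.eq_of_coord b
    (b.Z_stay hsD (BoxCX.rt_le b (y := (β s, BoxCX.cx b q)) ⟨hsD, m4⟩)).1 m3 r1.2 ?_⟩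
  exact sub_eq_zero.1 ((mul_eq_zero.1 h0).resolve_right hσ0)

end PreBox

end Pool.Agent.GeoFin
end

-- part Pool.Agent.P.MP_365c00_gt.Glob
section

/-!
The common period (paper sec. 5, second half).
-/

open Set Filter Topology Metric

namespace Pool.Agent.GeoFin

variable {M Y : Type*} [TopologicalSpace M] [TopologicalSpace Y] [T2Space M] [T2Space Y]
  {S : Sys M Y}

/-- (J) -/
theorem Atl.join (A : Atl S) (x : M) : ∃ O ∈ 𝓝 x, ∃ Q : Set M, IsOpen Q ∧ Q.Nonempty ∧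
    ∀ p ∈ O, ∀ q ∈ Q, ∃ u t, S.ev u 0 = p ∧ S.ev u t = q := by
  obtain ⟨w, rfl⟩ := S.fib_ne x
  obtain ⟨O, hO, r, hr, e, hc, hb, hi, h0⟩ := S.sec w
  have hD := A.ctr_mem w
  have hZ := A.ctr w
  have hco := fun u => PeriodX.fibre_coord A w (u := u)
  have hτ := A.fib_τ w
  set b := A.box w with hb'
  obtain ⟨hN, -, -⟩ := PeriodX.Z_mem b hD
  rw [hZ] at hN
  have hca : ∀ s ∈ Ioo (-r) r, ContinuousAt (fun y : M × ℝ => e y.1 y.2) (S.ev w 0, s) :=
    fun s hs => hc.continuousAt (prod_mem_nhds hO (Icc_mem_nhds hs.1 hs.2))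
  have h1 : {s | e (S.ev w 0) s ∈ b.N} ∈ 𝓝 (0 : ℝ) := by
    have h2 : ContinuousAt (fun s : ℝ => e (S.ev w 0) s) 0 :=
      (hca 0 ⟨by linarith, hr⟩).comp (f := fun s : ℝ => (S.ev w 0, s)) (by fun_prop)
    exact h2.preimage_mem_nhds (by rw [h0]; exact b.N_open.mem_nhds hN)
  obtain ⟨r1, hr1, hs1⟩ := nhds_basis_closedBall.mem_iff.1
    (inter_mem h1 (Ioo_mem_nhds (by linarith : -r < 0) hr))
  have hs2 : ∀ s ∈ Icc 0 r1, e (S.ev w 0) s ∈ b.N ∧ s ∈ Ioo (-r) r := fun s hs =>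
    hs1 (by rw [mem_closedBall, Real.dist_eq, sub_zero, abs_of_nonneg hs.1]; exact hs.2)
  have hl : (0 : ℝ) ∈ Icc 0 r1 := ⟨le_rfl, hr1.le⟩
  have hrr : r1 ∈ Icc 0 r1 := ⟨hr1.le, le_rfl⟩
  have hx := mem_of_mem_nhds hO
  have hZe : ∀ s ∈ Icc 0 r1, b.Z (b.ζ (e (S.ev w 0) s)) = e (S.ev w 0) s := by
    intro s hs
    rw [← b.φ_τ _ (hs2 s hs).1,
      hτ _ (hs2 s hs).1 (hb _ hx s (Ioo_subset_Icc_self (hs2 s hs).2)), S.φ_zero]
  obtain ⟨V, hV, V', hV', Q, hQ, hQn, hsw⟩ := b.sweep _ (b.ζ_mem _ (hs2 0 hl).1) _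
    (b.ζ_mem _ (hs2 r1 hrr).1) (fun h => hr1.ne (hi (Ioo_subset_Icc_self (hs2 0 hl).2)
      (Ioo_subset_Icc_self (hs2 r1 hrr).2) (by rw [← hZe 0 hl, ← hZe r1 hrr, h])))
  have hζ : ∀ s ∈ Icc 0 r1, ContinuousAt (fun q => b.ζ (e q s)) (S.ev w 0) := by
    intro s hs
    have h2 : ContinuousAt (fun q : M => e q s) (S.ev w 0) :=
      (hca s (hs2 s hs).2).comp (f := fun q : M => (q, s)) (by fun_prop)
    exact (b.ζ_cont.continuousAt (b.N_open.mem_nhds (hs2 s hs).1)).comp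
      (f := fun q : M => e q s) h2
  have h3 : ∀ᶠ q in 𝓝 (S.ev w 0), ∀ s ∈ Icc 0 r1, e q s ∈ b.N :=
    isCompact_Icc.eventually_forall_of_forall_eventually fun s hs =>
      (hca s (hs2 s hs).2).preimage_mem_nhds (b.N_open.mem_nhds (hs2 s hs).1)
  refine ⟨_, inter_mem (inter_mem hO h3) (inter_mem ((hζ 0 hl).preimage_mem_nhds hV)
    ((hζ r1 hrr).preimage_mem_nhds hV')), Q, hQ, hQn, fun p hp q hq => ?_⟩
  obtain ⟨⟨hpO, hpN⟩, hpV, hpV'⟩ := hp
  have h4 : ContinuousOn (fun s => e p s) (Icc 0 r1) :=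
    hc.comp (f := fun s : ℝ => (p, s)) (by fun_prop)
      fun s hs => mk_mem_prod hpO (Ioo_subset_Icc_self (hs2 s hs).2)
  obtain ⟨s, hs, t, -, he⟩ := hsw (fun s => b.ζ (e p s)) 0 r1 hr1.le
    (b.ζ_cont.comp h4 hpN) (fun s hs => b.ζ_mem _ (hpN s hs)) hpV hpV' q hq
  have hs' := Ioo_subset_Icc_self hs
  rw [← b.φ_τ _ (hpN s hs'), S.ev_φ] at he
  exact ⟨e p s, _, hb p hpO s (Ioo_subset_Icc_self (hs2 s hs').2), he⟩

theorem Sys.isClosed_fixed (S : Sys M Y) (τ : ℝ) :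
    IsClosed {q | ∀ u, S.ev u 0 = q → S.φ τ u = u} := by
  refine isClosed_of_closure_subset fun q hq u hu => ?_
  by_contra hne
  subst hu
  obtain ⟨O, hO, r, hr, e, hc, hb, -, h0⟩ := S.sec u
  have h1 : ContinuousAt (fun q : M => e q 0) (S.ev u 0) :=
    (hc.continuousAt (prod_mem_nhds hO (Icc_mem_nhds (by linarith) hr))).comp
      (f := fun q : M => (q, (0 : ℝ))) (by fun_prop)
  have h2 : {y | S.φ τ y ≠ y} ∈ 𝓝 (e (S.ev u 0) 0) := by
    rw [h0]
    exact (isOpen_ne_fun (S.continuous_φ τ) continuous_id).mem_nhds hne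
  obtain ⟨q, ⟨hq1, hq2⟩, hq3⟩ := mem_closure_iff_nhds.1 hq _
    (inter_mem hO (h1.preimage_mem_nhds h2))
  exact hq2 (hq3 _ (hb q hq1 0 ⟨by linarith, hr.le⟩))

namespace GlobX

omit [T2Space M] [T2Space Y] in
theorem fix_φ {τ : ℝ} {u : Y} (h : S.φ τ u = u) (t : ℝ) : S.φ τ (S.φ t u) = S.φ t u := by
  rw [← S.φ_add, add_comm, S.φ_add, h]

omit [T2Space M] [T2Space Y] in
theorem meets {G O : Set M} (hG : G ∈ S.ae) (hO : IsOpen O) (hn : O.Nonempty) :
    (O ∩ G)ᶜ ∉ S.ae := fun h =>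
  S.open_pos O hO hn (mem_of_superset (inter_mem h hG) fun _ hx hx' => hx.1 ⟨hx', hx.2⟩)

omit [T2Space M] [T2Space Y] in
theorem nonempty_of {B : Set M} (h : Bᶜ ∉ S.ae) : B.Nonempty := by
  rw [nonempty_iff_ne_empty]
  rintro rfl
  exact h (by rw [compl_empty]; exact univ_mem)

omit [T2Space M] [T2Space Y] in
theorem sub_of_dense {G O C : Set M} (hG : G ∈ S.ae) (hO : IsOpen O) (hC : IsClosed C)
    (h : ∀ x ∈ O, x ∈ G → x ∈ C) : O ⊆ C := by
  intro x hx
  by_contra hc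
  obtain ⟨y, hy, hy'⟩ := nonempty_of (meets hG (hO.inter hC.isOpen_compl) ⟨x, hx, hc⟩)
  exact hy.2 (h y hy.1 hy')

theorem mem_of_nonnull [CompactSpace Y] (A : Atl S) {q : M} (hg : S.Good q) (hr : S.Rich q)
    {τ : ℝ} (hτ : 0 < τ) {B : Set M} (hB : Bᶜ ∉ S.ae)
    (h : ∀ p ∈ B, ∃ u, S.ev u 0 = q ∧ S.φ τ u = u ∧ p ∈ range (S.ev u)) :
    ∀ u, S.ev u 0 = q → S.φ τ u = u := by
  refine A.fix_fibre hg hr hτ fun hfin => hB ?_
  refine mem_of_superset ((biInter_mem hfin).2 fun u _ => S.null_range u) fun p hp hpB => ?_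
  obtain ⟨u, h1, h2, h3⟩ := h p hpB
  exact mem_iInter₂.1 hp u ⟨h1, h2⟩ h3

end GlobX

open GlobX in
theorem Atl.common_period [CompactSpace M] [ConnectedSpace M] [CompactSpace Y]
    [SecondCountableTopology Y] (A : Atl S) (h : ∀ᶠ p in S.ae, S.Good p) :
    ∃ τ > 0, ∀ u, S.φ τ u = u := by
  have hG : {p | S.Good p ∧ S.Rich p} ∈ S.ae := A.rich h
  obtain ⟨p0, -, hg0, hr0⟩ := nonempty_of (meets hG isOpen_univ univ_nonempty)
  obtain ⟨t0, ht0, hp0⟩ := A.exists_period hg0 hr0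
  obtain ⟨τ, hτ, hC⟩ : ∃ τ > 0, {q | ∀ u, S.ev u 0 = q → S.φ τ u = u}ᶜ ∉ S.ae := by
    by_contra hc
    have hc' : ∀ m : ℕ, {q | ∀ u, S.ev u 0 = q → S.φ ((m + 1 : ℕ) * t0) u = u}ᶜ ∈ S.ae := by
      intro m
      by_contra h1
      exact hc ⟨_, by positivity, h1⟩
    obtain ⟨O, hO, Q, hQ, hQn, hj⟩ := A.join p0
    refine meets hG hQ hQn (mem_of_superset (countable_iInter_mem.2 hc') fun q hq hq' => ?_)
    obtain ⟨u, t, hu, hut⟩ := hj p0 (mem_of_mem_nhds hO) q hq'.1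
    obtain ⟨tq, htq, hpq⟩ := A.exists_period hq'.2.1 hq'.2.2
    obtain ⟨m, n, hm, -, hmn⟩ := S.period_ratio ht0 htq (fix_φ (hp0 u hu) t)
      (hpq _ (by rw [S.ev_φ_zero, hut]))
    obtain ⟨k, rfl⟩ := Nat.exists_eq_succ_of_ne_zero hm.ne'
    refine mem_iInter.1 hq k fun y hy => ?_
    rw [hmn]
    exact S.φ_nat_mul (hpq y hy) n
  have hCc := S.isClosed_fixed τ
  set C := {q | ∀ u, S.ev u 0 = q → S.φ τ u = u} with hCd
  let W : Set M := {x | ∀ V ∈ 𝓝 x, (C ∩ V)ᶜ ∉ S.ae}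
  have hWn : W.Nonempty := by
    by_contra hc
    have h1 : (C ∩ univ)ᶜ ∈ S.ae := by
      refine isCompact_univ.induction_on (p := fun V => (C ∩ V)ᶜ ∈ S.ae) ?_ ?_ ?_ ?_
      · rw [inter_empty, compl_empty]; exact univ_mem
      · exact fun s t hst ht => mem_of_superset ht fun x hx hx' => hx ⟨hx'.1, hst hx'.2⟩
      · exact fun s t hs ht => mem_of_superset (inter_mem hs ht) fun x hx hx' =>
          hx'.2.elim (fun h => hx.1 ⟨hx'.1, h⟩) fun h => hx.2 ⟨hx'.1, h⟩
      · intro x _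
        by_contra h2
        exact hc ⟨x, fun V hV h3 => h2 ⟨V, mem_nhdsWithin_of_mem_nhds hV, h3⟩⟩
    rw [inter_univ] at h1
    exact hC h1
  have hWc : IsClosed W := by
    refine isClosed_of_closure_subset fun x hx V hV => ?_
    obtain ⟨y, hy, hy'⟩ := mem_closure_iff_nhds.1 hx _ (interior_mem_nhds.2 hV)
    exact hy' V (mem_interior_iff_mem_nhds.1 hy)
  have hWC : ∀ x ∈ W, C ∈ 𝓝 x := by
    intro x hx
    obtain ⟨O, hO, Q, hQ, hQn, hj⟩ := A.join x
    have h1 : Q ⊆ C := by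
      refine sub_of_dense hG hQ hCc fun q hq hq' => ?_
      refine mem_of_nonnull A hq'.1 hq'.2 hτ (hx O hO) fun p hp => ?_
      obtain ⟨u, t, hu, hut⟩ := hj p hp.2 q hq
      exact ⟨S.φ t u, by rw [S.ev_φ_zero, hut], fix_φ (hp.1 u hu) t,
        -t, by rw [S.ev_φ, neg_add_cancel, hu]⟩
    have h2 : interior O ⊆ C := by
      refine sub_of_dense hG isOpen_interior hCc fun p hp hp' => ?_
      refine mem_of_nonnull A hp'.1 hp'.2 hτ (S.open_pos Q hQ hQn) fun q hq => ?_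
      obtain ⟨u, t, hu, hut⟩ := hj p (interior_subset hp) q hq
      refine ⟨u, hu, ?_, t, hut⟩
      have h3 := fix_φ (h1 hq (S.φ t u) (by rw [S.ev_φ_zero, hut])) (-t)
      rwa [← S.φ_add (-t) t u, neg_add_cancel, S.φ_zero] at h3
    exact mem_of_superset (interior_mem_nhds.2 hO) h2
  have hWo : IsOpen W := by
    refine isOpen_iff_mem_nhds.2 fun x hx => ?_
    refine mem_of_superset (interior_mem_nhds.2 (hWC x hx)) fun y hy V hV h1 => ?_
    refine S.open_pos (interior C ∩ interior V) (isOpen_interior.inter isOpen_interior)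
      ⟨y, hy, mem_interior_iff_mem_nhds.2 hV⟩ (mem_of_superset h1 fun z hz hz' => ?_)
    exact hz ⟨interior_subset hz'.1, interior_subset hz'.2⟩
  have hW : W = univ := IsClopen.eq_univ ⟨hWc, hWo⟩ hWn
  exact ⟨τ, hτ, fun u => mem_of_mem_nhds (hWC (S.ev u 0) (hW ▸ mem_univ _)) u rfl⟩

end Pool.Agent.GeoFin
end

-- part Pool.Agent.P.MP_365c00_gt.Null
section

/-!
Null sets of the surface.
-/

open Set Filter Topology Metric MeasureTheory
open scoped Manifold ContDiff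

namespace Pool.Agent.GeoFin

/-- sets whose complement is Lebesgue null in every chart -/
def aeM (M : Type*) [TopologicalSpace M] [ChartedSpace E M] : Filter M where
  sets := {S | ∀ x : M, volume (κ x '' (Sᶜ ∩ (κ x).source)) = 0}
  univ_sets := fun x => by simp
  sets_of_superset := fun h hs x => measure_mono_null
    (image_mono (inter_subset_inter_left _ (compl_subset_compl.2 hs))) (h x)
  inter_sets := fun h h' x => by
    rw [compl_inter, union_inter_distrib_right, image_union]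
    exact measure_union_null (h x) (h' x)

variable {M : Type*} [TopologicalSpace M] [ChartedSpace E M]

theorem compl_mem_aeM {A : Set M} :
    Aᶜ ∈ aeM M ↔ ∀ x : M, volume (κ x '' (A ∩ (κ x).source)) = 0 := by
  show (∀ x : M, volume (κ x '' (Aᶜᶜ ∩ (κ x).source)) = 0) ↔ _
  rw [compl_compl]

theorem aeM_cif : CountableInterFilter (aeM M) := by
  refine ⟨fun S hS h => ?_⟩
  intro x
  have h0 : volume (⋃ s ∈ S, κ x '' (sᶜ ∩ (κ x).source)) = 0 :=
    (measure_biUnion_null_iff hS).2 fun s hs => h s hs x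
  refine measure_mono_null ?_ h0
  rintro _ ⟨q, ⟨hq, hx⟩, rfl⟩
  rw [mem_compl_iff, mem_sInter] at hq
  push Not at hq
  obtain ⟨s, hs, hq⟩ := hq
  exact mem_biUnion hs ⟨q, ⟨hq, hx⟩, rfl⟩

theorem aeM_open_pos (O : Set M) (hO : IsOpen O) (hne : O.Nonempty) : Oᶜ ∉ aeM M := by
  obtain ⟨p, hp⟩ := hne
  rw [compl_mem_aeM]
  intro h
  have h1 := h p
  have h2 : (κ p '' (O ∩ (κ p).source)).Nonempty := ⟨_, p, ⟨hp, mem_extChartAt_source p⟩, rfl⟩
  rw [inter_comm, PartialEquiv.image_source_inter_eq'] at h1 h2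
  exact ((continuousOn_extChartAt_symm p).isOpen_inter_preimage (target_open p) hO).measure_ne_zero
    volume h2 h1

variable [IsManifold (𝓡 2) ∞ M]

/-- a set inside one chart which is null there is null in every chart -/
theorem compl_mem_aeM_of_chart {A : Set M} {x : M} (hA : A ⊆ (κ x).source)
    (h : volume (κ x '' A) = 0) : Aᶜ ∈ aeM M := by
  rw [compl_mem_aeM]
  intro x'
  have hd : DifferentiableOn ℝ (κ x' ∘ (κ x).symm) (κ x '' (A ∩ (κ x').source)) := by
    rintro _ ⟨q, ⟨hq, hq'⟩, rfl⟩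
    refine ((contDiffAt_trans ((κ x).map_source (hA hq)) ?_).differentiableAt
      (by simp)).differentiableWithinAt
    rwa [(κ x).left_inv (hA hq)]
  refine measure_mono_null ?_ (addHaar_image_eq_zero_of_differentiableOn_of_addHaar_eq_zero volume
    hd (measure_mono_null (image_mono inter_subset_left) h))
  rintro _ ⟨q, hq, rfl⟩
  exact ⟨_, ⟨q, hq, rfl⟩, by rw [Function.comp_apply, (κ x).left_inv (hA hq.1)]⟩

theorem aeM_null_range {γ : ℝ → M} (h : ContMDiff 𝓘(ℝ, ℝ) (𝓡 2) ∞ γ) : (range γ)ᶜ ∈ aeM M := by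
  rw [compl_mem_aeM]
  intro x
  have hd : DifferentiableOn ℝ (fun a : E => (κ x ∘ γ) (a 0))
      {a : E | a 1 = 0 ∧ γ (a 0) ∈ (κ x).source} := by
    intro a ha
    have h1 : DifferentiableAt ℝ (κ x ∘ γ) (a 0) :=
      (contDiffAt_chart (n := ⊤) (h (a 0)) ha.2).differentiableAt (by simp)
    have h2 : DifferentiableAt ℝ (fun a : E => a 0) a := by fun_prop
    exact (h1.comp a h2).differentiableWithinAt
  have h0 : volume {a : E | a 1 = 0 ∧ γ (a 0) ∈ (κ x).source} = 0 := by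
    refine measure_mono_null (fun a ha => ?_) (Measure.addHaar_submodule volume
      (LinearMap.ker (EuclideanSpace.projₗ (𝕜 := ℝ) (1 : Fin 2))) fun ht => ?_)
    · exact ha.1
    · have : (EuclideanSpace.single 1 1 : E) ∈
          LinearMap.ker (EuclideanSpace.projₗ (𝕜 := ℝ) (1 : Fin 2)) := by
        rw [ht]
        trivial
      simp at this
  refine measure_mono_null ?_
    (addHaar_image_eq_zero_of_differentiableOn_of_addHaar_eq_zero volume hd h0)
  rintro _ ⟨_, ⟨⟨t, rfl⟩, hx⟩, rfl⟩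
  exact ⟨EuclideanSpace.single 0 t, ⟨by simp, by simpa using hx⟩, by simp⟩

/-- Fubini -/
theorem eventually_of_nullPairs [CompactSpace M] {S : Set (M × M)} (h : NullPairs Sᶜ) :
    ∀ᶠ p in aeM M, ∀ᶠ q in aeM M, (p, q) ∈ S := by
  obtain ⟨t, ht⟩ := isCompact_univ.elim_finite_subcover (fun y : M => (κ y).source) source_open
    fun y _ => mem_iUnion.2 ⟨y, mem_extChartAt_source y⟩
  intro x
  have h1 : ∀ᵐ a : E, ∀ y ∈ t, volume (Prod.mk a ⁻¹'
      (Prod.map (κ x) (κ y) '' (Sᶜ ∩ (κ x).source ×ˢ (κ y).source))) = 0 := by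
    rw [eventually_all_finset]
    intro y _
    exact Measure.measure_ae_null_of_prod_null (h x y)
  refine measure_mono_null ?_ (ae_iff.1 h1)
  rintro _ ⟨p, ⟨hp, hx⟩, rfl⟩ hall
  refine hp ?_
  have h2 : ∀ᶠ q in aeM M, ∀ y ∈ t, q ∉ {q | q ∈ (κ y).source ∧ (p, q) ∉ S} := by
    rw [eventually_all_finset]
    intro y hy
    refine compl_mem_aeM_of_chart (x := y) (fun q hq => hq.1) (measure_mono_null ?_ (hall y hy))
    rintro _ ⟨q, hq, rfl⟩
    exact ⟨(p, q), ⟨hq.2, hx, hq.1⟩, rfl⟩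
  refine h2.mono fun q hq => ?_
  obtain ⟨y, hy, hqy⟩ := mem_iUnion₂.1 (ht (mem_univ q))
  by_contra hS
  exact hq y hy ⟨hqy, hS⟩

namespace NullX

/-- a set which is not null has a point at which it is dense in every cone -/
theorem exists_density {B : Set E} (hB : volume B ≠ 0) : ∃ a ∈ B, ∀ (V : E) (ρ : ℝ), 0 < ρ →
    ∀ᶠ s in 𝓝[>] (0 : ℝ), volume (B ∩ closedBall (a + s • V) (s * ρ)) ≠ 0 := by
  obtain ⟨a, ha, h⟩ := Measure.exists_mem_of_measure_ne_zero_of_ae hB (ae_all_iff.2 fun K : ℕ =>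
    IsUnifLocDoublingMeasure.ae_tendsto_measure_inter_div.{0, 0} (volume : Measure E) B K)
  refine ⟨a, ha, fun V ρ hρ => ?_⟩
  obtain ⟨K, hK⟩ := exists_nat_ge (‖V‖ / ρ)
  have h1 : Tendsto (fun s : ℝ => s * ρ) (𝓝[>] 0) (𝓝[>] 0) := by
    refine tendsto_nhdsWithin_iff.2 ⟨?_, ?_⟩
    · have : Tendsto (fun s : ℝ => s * ρ) (𝓝 0) (𝓝 (0 * ρ)) :=
        (continuous_id.mul continuous_const).tendsto 0
      rw [zero_mul] at this
      exact this.mono_left nhdsWithin_le_nhds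
    · exact eventually_mem_nhdsWithin.mono fun s hs => mul_pos hs hρ
  have h2 := h K (fun s : ℝ => a + s • V) (fun s => s * ρ) h1
    (eventually_mem_nhdsWithin.mono fun s hs => by
      have hs' : 0 < s := hs
      rw [mem_closedBall, dist_self_add_right, norm_smul, Real.norm_of_nonneg hs'.le]
      rw [div_le_iff₀ hρ] at hK
      nlinarith)
  refine (h2.eventually_ne one_ne_zero).mono fun s hs h0 => hs ?_
  rw [h0, ENNReal.zero_div]

/-- a map tangent to a translation covers cones -/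
theorem cone_onto {f : E → E} {a : E} (h0 : f 0 = a)
    (hf : HasStrictFDerivAt f (ContinuousLinearMap.id ℝ E) 0) {N : Set E} (hN : N ∈ 𝓝 0)
    (V : E) {ρ : ℝ} (hρ : 0 < ρ) : ∀ᶠ s in 𝓝[>] (0 : ℝ),
      ∀ b ∈ closedBall (a + s • V) (s * (ρ / 2)), ∃ V' ∈ ball V ρ, s • V' ∈ N ∧ f (s • V') = b := by
  have hV := norm_nonneg V
  set η : ℝ := ρ / (8 * (‖V‖ + ρ)) with hη
  have hη0 : 0 < η := by positivity
  have hη1 : η * (‖V‖ + ρ) = ρ / 8 := by
    rw [hη]
    field_simp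
  have hη2 : η ≤ 1 / 2 := by nlinarith
  have h1 := hf.hasFDerivAt.isLittleO.bound hη0
  have h2 : f '' (N ∩ {W | ‖f W - f 0 - ContinuousLinearMap.id ℝ E (W - 0)‖ ≤ η * ‖W - 0‖}) ∈
      𝓝 a := by
    rw [← h0, ← hf.map_nhds_eq_of_surj (by simp)]
    exact image_mem_map (inter_mem hN h1)
  obtain ⟨δ, hδ, h3⟩ := Metric.mem_nhds_iff.1 h2
  have h4 : ∀ᶠ s in 𝓝[>] (0 : ℝ), s < δ / (‖V‖ + ρ) :=
    nhdsWithin_le_nhds (gt_mem_nhds (by positivity))
  filter_upwards [h4, self_mem_nhdsWithin] with s hs hs0 b hb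
  have hs' : 0 < s := hs0
  rw [lt_div_iff₀ (by positivity)] at hs
  rw [mem_closedBall, dist_eq_norm] at hb
  have hb2 : ‖b - a‖ ≤ s * (‖V‖ + ρ) := by
    have : b - a = (b - (a + s • V)) + s • V := by abel
    rw [this]
    refine (norm_add_le _ _).trans ?_
    rw [norm_smul, Real.norm_of_nonneg hs'.le]
    nlinarith
  obtain ⟨W, ⟨hW, hW'⟩, rfl⟩ := h3 (show b ∈ ball a δ by rw [mem_ball, dist_eq_norm]; linarith)
  simp only [mem_ofPred_eq, sub_zero, ContinuousLinearMap.id_apply, h0] at hW'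
  have e : s • s⁻¹ • W = W := by rw [smul_smul, mul_inv_cancel₀ hs'.ne', one_smul]
  refine ⟨s⁻¹ • W, ?_, by rwa [e], by rw [e]⟩
  have h5 : ‖W‖ ≤ ‖f W - a‖ + ‖f W - a - W‖ := by
    have := norm_sub_le (f W - a) (f W - a - W)
    rwa [sub_sub_cancel] at this
  have h6 : ‖W - s • V‖ ≤ ‖f W - (a + s • V)‖ + ‖f W - a - W‖ := by
    have := norm_sub_le (f W - (a + s • V)) (f W - a - W)
    rwa [show f W - (a + s • V) - (f W - a - W) = W - s • V by abel] at this
  have h7 : ‖W‖ ≤ 2 * (s * (‖V‖ + ρ)) := by nlinarith [norm_nonneg W]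
  have h8 : η * ‖W‖ ≤ s * (ρ / 4) := by
    have := mul_le_mul_of_nonneg_left h7 hη0.le
    nlinarith
  rw [mem_ball, dist_eq_norm, show s⁻¹ • W - V = s⁻¹ • (W - s • V) by
    rw [smul_sub, smul_smul, inv_mul_cancel₀ hs'.ne', one_smul], norm_smul,
    Real.norm_of_nonneg (inv_pos.2 hs').le, inv_mul_lt_iff₀ hs']
  nlinarith

variable [T2Space M] [CompactSpace M]

/-- homogeneity of geodesics -/
theorem geo_smul (g : Met M) (x : M) {a : E} (ha : a ∈ (κ x).target) (l : ℝ) (V : E) (s : ℝ) :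
    geo g x (a, l • V) s = geo g x (a, V) (l * s) := by
  obtain ⟨h1, h2, h3⟩ := geo_spec g x (y := (a, l • V)) ha
  obtain ⟨k1, k2, k3⟩ := geo_spec g x (y := (a, V)) ha
  have hs : (κ x).symm a ∈ (κ x).source := (κ x).map_target ha
  have e : l * 0 + 0 = (0 : ℝ) := by ring
  have := geo_unique h1 (k1.affine l 0) (t0 := 0) (x := x) (by rwa [h2])
    (by rw [h2, e, k2]) (by
      rw [h3, vel_affine ((isGeodesic_iff g _).1 k1 _) (by rwa [e, k2]), e, k3])
  rw [this]
  dsimp only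
  rw [add_zero]

/-- the exponential map is tangent to the translation -/
theorem exp_strict (g : Met M) (x : M) {a : E} (ha : a ∈ (κ x).target) :
    κ x (geo g x (a, 0) 1) = a ∧ (∀ᶠ W in 𝓝 (0 : E), geo g x (a, W) 1 ∈ (κ x).source) ∧
      HasStrictFDerivAt (fun W : E => κ x (geo g x (a, W) 1)) (ContinuousLinearMap.id ℝ E) 0 := by
  have hs : (κ x).symm a ∈ (κ x).source := (κ x).map_target ha
  have h0 : geo g x (a, 0) 1 = (κ x).symm a := by
    have := geo_smul g x ha 0 0 1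
    rw [zero_smul, zero_mul] at this
    rw [this]
    exact (geo_spec g x (y := (a, 0)) ha).2.1
  have hsm := geo_smooth g x (y := (a, 0)) ha 1
  have hin : ContDiff ℝ ∞ fun W : E => (((a, W), 1) : (E × E) × ℝ) := by fun_prop
  have hc : ContDiffAt ℝ ∞ (fun W : E => κ x (geo g x (a, W) 1)) 0 := by
    have := ContDiffAt.comp (f := fun W : E => (((a, W), 1) : (E × E) × ℝ)) (0 : E)
      (contDiffAt_chart (n := ⊤) (x := x) hsm (by rwa [h0])) hin.contDiffAt
    exact this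
  refine ⟨by rw [h0, (κ x).right_inv ha], ?_, ?_⟩
  · have : ContinuousAt (fun W : E => geo g x (a, W) 1) 0 :=
      hsm.continuousAt.comp_of_eq hin.continuous.continuousAt rfl
    exact this.eventually ((source_open x).mem_nhds (by dsimp only; rwa [h0]))
  · have h1 := hc.hasStrictFDerivAt (by simp)
    suffices e : ContinuousLinearMap.id ℝ E = fderiv ℝ (fun W : E => κ x (geo g x (a, W) 1)) 0 by
      rw [e]
      exact h1
    refine ContinuousLinearMap.ext fun V => ?_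
    obtain ⟨k1, k2, k3⟩ := geo_spec g x (y := (a, V)) ha
    have h2 := ((isGeodesic_iff g _).1 k1 0).hasDerivAt (x := x) (by rwa [k2])
    rw [k3] at h2
    have h3 : HasDerivAt (fun t : ℝ => t • V) V 0 := by
      simpa using (hasDerivAt_id (0 : ℝ)).smul_const V
    have h4 := h1.hasFDerivAt.comp_hasDerivAt_of_eq 0 h3 (by simp)
    have e : ((fun W : E => κ x (geo g x (a, W) 1)) ∘ fun t : ℝ => t • V) =
        fun t => κ x (geo g x (a, V) t) := by
      funext t
      rw [Function.comp_apply, geo_smul g x ha, mul_one]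
    rw [e] at h4
    exact h2.unique h4

end NullX

variable [T2Space M] [CompactSpace M] [Nonempty M]

/-- (cone) of paper sec. 3 -/
theorem aeM_cone (g : Met M) (A : Set M) (hA : Aᶜ ∉ aeM M) : ∃ p ∈ A, ∀ v : UG g, v.1 0 = p →
    ∀ U ∈ 𝓝 v, ∀ ε > 0,
      (A ∩ {q | ∃ x ∈ U, x.1 0 = p ∧ ∃ a, |a| < ε ∧ x.1 a = q})ᶜ ∉ aeM M := by
  rw [compl_mem_aeM] at hA
  push Not at hA
  obtain ⟨x, hx⟩ := hA
  obtain ⟨_, ⟨p, ⟨hpA, hp⟩, rfl⟩, hd⟩ := NullX.exists_density hx
  refine ⟨p, hpA, fun v hv U hU ε hε hn => ?_⟩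
  have ha : κ x p ∈ (κ x).target := (κ x).map_source hp
  have hv0 : v.1 0 ∈ (κ x).source := by rwa [hv]
  have hV : vel x v.1 0 ≠ 0 := v.vel_ne 0 hv0
  have hG : G g x (κ x p) (vel x v.1 0) (vel x v.1 0) = 1 := by
    have := v.unit 0 hv0
    rwa [hv] at this
  have hm : mk g x (κ x p, vel x v.1 0) = v := by
    have := mk_jet v hv0 one_pos
    rwa [hv, one_smul] at this
  have c1 : ContinuousAt (fun V : E => mk g x (κ x p, V)) (vel x v.1 0) :=
    ((mk_cont g x).continuousAt (x := (κ x p, vel x v.1 0))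
      (((target_open x).prod isOpen_compl_singleton).mem_nhds ⟨ha, hV⟩)).comp_of_eq
      (by fun_prop) rfl
  have c2 : ContinuousAt (fun V : E => G g x (κ x p) V V) (vel x v.1 0) := by fun_prop
  have e1 : ∀ᶠ V in 𝓝 (vel x v.1 0), mk g x (κ x p, V) ∈ U := 
    c1.eventually (by dsimp only; rwa [hm])
  have e2 : ∀ᶠ V in 𝓝 (vel x v.1 0), G g x (κ x p) V V < 4 :=
    c2.eventually (gt_mem_nhds (by dsimp only; rw [hG]; norm_num))
  have e3 : ∀ᶠ V in 𝓝 (vel x v.1 0), V ≠ 0 := isOpen_compl_singleton.mem_nhds hV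
  obtain ⟨ρ, hρ, hb⟩ := Metric.eventually_nhds_iff_ball.1 (e1.and (e2.and e3))
  obtain ⟨f0, fN, fd⟩ := NullX.exp_strict g x ha
  have e4 : ∀ᶠ s in 𝓝[>] (0 : ℝ), s < ε / 2 := nhdsWithin_le_nhds (gt_mem_nhds (by positivity))
  obtain ⟨s, ⟨h1, h2⟩, h3, h4⟩ := (((hd (vel x v.1 0) (ρ / 2) (by positivity)).and
    (NullX.cone_onto f0 fd fN (vel x v.1 0) hρ)).and (e4.and self_mem_nhdsWithin)).exists
  have hs : 0 < s := h4
  refine h1 (measure_mono_null ?_ (compl_mem_aeM.1 hn x))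
  rintro _ ⟨⟨q, ⟨hqA, hq⟩, rfl⟩, hqb⟩
  obtain ⟨V, hVb, hN, hf⟩ := h2 _ hqb
  obtain ⟨b1, b2, b3⟩ := hb V hVb
  have hr : 0 < √(G g x (κ x p) V V) := Real.sqrt_pos.2 (G_pos g x ha b3)
  have hr2 : √(G g x (κ x p) V V) < 2 := Real.sqrt_lt' two_pos |>.2 (by linarith)
  refine ⟨q, ⟨⟨hqA, mk g x (κ x p, V), b1, ?_, s * √(G g x (κ x p) V V), ?_, ?_⟩, hq⟩, rfl⟩
  · rw [mk_zero g x (y := (κ x p, V)) ha b3]
    exact (κ x).left_inv hp
  · rw [abs_of_pos (mul_pos hs hr)]
    nlinarith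
  · rw [mk_eq g x (y := (κ x p, V)) ha b3, NullX.geo_smul g x ha, ← (κ x).injOn hN hq hf,
      NullX.geo_smul g x ha]
    congr 1
    dsimp only
    field_simp

end Pool.Agent.GeoFin
end

-- part Pool.Agent.P.MP_365c00_gt.ZC4
section

/-! Supports of chains. -/

set_option linter.unusedSectionVars false
set_option linter.unusedVariables false

open Set Topology unitInterval TensorProduct

namespace Pool.Agent.Fu

variable {F : Type} [Field F] {X Y Z : Type} [TopologicalSpace X] [TopologicalSpace Y]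
  [TopologicalSpace Z]

theorem zc4_hat_inter (A B : Set X) : hat (A ∩ B) = hat A ∩ hat B := by
  ext g
  exact ⟨fun h => ⟨fun s => (h s).1, fun s => (h s).2⟩, fun h s => ⟨h.1 s, h.2 s⟩⟩

theorem zc4_hat_univ : hat (univ : Set X) = univ := by
  ext g
  exact ⟨fun _ => trivial, fun _ _ => trivial⟩

theorem zc4_hat_empty : hat (∅ : Set X) = ∅ := by
  ext g
  exact ⟨fun h => h 0, fun h => h.elim⟩

theorem mem_CC {A : Set X} {c : Ch F X} : c ∈ CC F A ↔ prj A c = c := Iff.rfl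

theorem prj_prj (A B : Set X) (c : Ch F X) : prj A (prj B c) = prj (A ∩ B) c := by
  refine ind (F := F) (P := fun X _ c => ∀ A B : Set X, prj A (prj B c) = prj (A ∩ B) c)
    ?_ ?_ ?_ ?_ ?_ X c A B
  · intro X _ A B
    simp only [map_zero]
  · intro X _ a b ha hb A B
    simp only [map_add, ha, hb]
  · intro X _ r a ha A B
    simp only [map_smul, ha]
  · intro X _ x A B
    by_cases hB : x ∈ B
    · rw [prj_pt_mem hB]
      by_cases hA : x ∈ A
      · rw [prj_pt_mem hA, prj_pt_mem (A := A ∩ B) ⟨hA, hB⟩]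
      · rw [prj_pt_not hA, prj_pt_not (A := A ∩ B) fun h => hA h.1]
    · rw [prj_pt_not hB, map_zero, prj_pt_not (A := A ∩ B) fun h => hB h.2]
  · intro X _ a ha A B
    rw [prj_unc, prj_unc, prj_unc, ha, zc4_hat_inter]

theorem prj_univ (c : Ch F X) : prj univ c = c := by
  refine ind (F := F) (P := fun X _ c => prj univ c = c) ?_ ?_ ?_ ?_ ?_ X c
  · intro X _
    exact map_zero _
  · intro X _ a b ha hb
    rw [map_add, ha, hb]
  · intro X _ r a ha
    rw [map_smul, ha]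
  · intro X _ x
    exact prj_pt_mem (mem_univ x)
  · intro X _ a ha
    rw [prj_unc, zc4_hat_univ, ha]

theorem prj_empty (c : Ch F X) : prj ∅ c = 0 := by
  refine ind (F := F) (P := fun X _ c => prj ∅ c = 0) ?_ ?_ ?_ ?_ ?_ X c
  · intro X _
    exact map_zero _
  · intro X _ a b ha hb
    rw [map_add, ha, hb, add_zero]
  · intro X _ r a ha
    rw [map_smul, ha, smul_zero]
  · intro X _ x
    exact prj_pt_not (notMem_empty x)
  · intro X _ a ha
    rw [prj_unc, zc4_hat_empty, ha, map_zero]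

theorem prj_mem_CC (A : Set X) (c : Ch F X) : prj A c ∈ CC F A := by
  rw [mem_CC, prj_prj, inter_self]

theorem CC_mono {A B : Set X} (h : A ⊆ B) : CC F A ≤ CC F B := by
  intro c hc
  rw [mem_CC] at hc ⊢
  rw [← hc, prj_prj, inter_eq_self_of_subset_right h]

theorem CC_inter (A B : Set X) : CC F (A ∩ B) = CC F A ⊓ CC F B := by
  refine le_antisymm (le_inf (CC_mono inter_subset_left) (CC_mono inter_subset_right)) ?_
  intro c hc
  have h1 : prj A c = c := hc.1
  have h2 : prj B c = c := hc.2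
  rw [mem_CC, ← prj_prj, h2, h1]

theorem CC_univ : CC F (univ : Set X) = ⊤ :=
  eq_top_iff.2 fun c _ => mem_CC.2 (prj_univ c)

theorem CC_empty : CC F (∅ : Set X) = ⊥ :=
  eq_bot_iff.2 fun c hc => by
    have h : prj ∅ c = c := hc
    rw [prj_empty] at h
    rw [← h]
    exact Submodule.zero_mem _

theorem mem_CC_univ (c : Ch F X) : c ∈ CC F univ := mem_CC.2 (prj_univ c)

theorem prj_mem_inter (A : Set X) {B : Set X} {c : Ch F X} (h : c ∈ CC F B) :
    prj A c ∈ CC F (A ∩ B) := by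
  have h' : prj B c = c := h
  rw [← h', prj_prj]
  exact prj_mem_CC _ _

theorem prj_dg (A : Set X) (k : ℕ) (c : Ch F X) : prj A (dg k c) = dg k (prj A c) := by
  refine ind (F := F) (P := fun X _ c => ∀ (A : Set X) (k : ℕ), prj A (dg k c) = dg k (prj A c))
    ?_ ?_ ?_ ?_ ?_ X c A k
  · intro X _ A k
    simp only [map_zero]
  · intro X _ a b ha hb A k
    simp only [map_add, ha, hb]
  · intro X _ r a ha A k
    simp only [map_smul, ha]
  · intro X _ x A k
    by_cases hA : x ∈ A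
    · rw [prj_pt_mem hA]
      cases k with
      | zero => rw [dg_zero_pt, prj_pt_mem hA]
      | succ k => rw [dg_succ_pt, map_zero]
    · rw [prj_pt_not hA, map_zero]
      cases k with
      | zero => rw [dg_zero_pt, prj_pt_not hA]
      | succ k => rw [dg_succ_pt, map_zero]
  · intro X _ a ha A k
    rw [prj_unc]
    cases k with
    | zero => rw [dg_zero_unc, dg_zero_unc, map_zero]
    | succ k => rw [dg_succ_unc, dg_succ_unc, prj_unc, ha]

theorem prj_om (A : Set X) (c : Ch F X) : prj A (om c) = om (prj A c) := by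
  refine ind (F := F) (P := fun X _ c => ∀ A : Set X, prj A (om c) = om (prj A c))
    ?_ ?_ ?_ ?_ ?_ X c A
  · intro X _ A
    simp only [map_zero]
  · intro X _ a b ha hb A
    simp only [map_add, ha, hb]
  · intro X _ r a ha A
    simp only [map_smul, ha]
  · intro X _ x A
    rw [om_pt]
    by_cases hA : x ∈ A
    · rw [prj_pt_mem hA, om_pt]
    · rw [prj_pt_not hA, map_zero]
  · intro X _ a ha A
    rw [om_unc, map_neg, prj_unc, prj_unc, om_unc, ha]

theorem zc4_rg_succ (n : ℕ) (A : Set X) (c : Cb n C(I, X)) :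
    rg (n + 1) (X := X) c ⊆ A ↔ rg n c ⊆ hat A := by
  show (⋃ g ∈ rg n (X := C(I, X)) c, range g) ⊆ A ↔ _
  constructor
  · intro h g hg s
    exact h (mem_iUnion₂.2 ⟨g, hg, s, rfl⟩)
  · intro h x hx
    obtain ⟨g, hg, s, rfl⟩ := mem_iUnion₂.1 hx
    exact h hg s

theorem zc4_prj_cube_pos (n : ℕ) : ∀ (X : Type) [TopologicalSpace X] (A : Set X) (c : Cb n X),
    rg n c ⊆ A → prj A (cube ⟨n, c⟩ : Ch F X) = cube ⟨n, c⟩ := by
  induction n with
  | zero =>
    intro X _ A c h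
    exact prj_pt_mem (X := X) (A := A) (x := c) (h rfl)
  | succ n ih =>
    intro X _ A c h
    rw [cube_succ n c, prj_unc, ih _ _ c ((zc4_rg_succ n A c).1 h)]

theorem zc4_prj_cube_neg (n : ℕ) : ∀ (X : Type) [TopologicalSpace X] (A : Set X) (c : Cb n X),
    ¬ rg n c ⊆ A → prj A (cube ⟨n, c⟩ : Ch F X) = 0 := by
  induction n with
  | zero =>
    intro X _ A c h
    refine prj_pt_not (X := X) (A := A) (x := c) fun hc => h ?_
    intro y hy
    have e : y = c := hy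
    rw [e]
    exact hc
  | succ n ih =>
    intro X _ A c h
    rw [cube_succ n c, prj_unc, ih _ _ c fun h' => h ((zc4_rg_succ n A c).2 h'), map_zero]

open Classical in
theorem prj_cube (A : Set X) (c : Σ n, Cb n X) :
    prj A (cube c : Ch F X) = if rg c.1 c.2 ⊆ A then cube c else 0 := by
  by_cases h : rg c.1 c.2 ⊆ A
  · rw [if_pos h]
    exact zc4_prj_cube_pos c.1 X A c.2 h
  · rw [if_neg h]
    exact zc4_prj_cube_neg c.1 X A c.2 h

theorem pt_mem_CC {A : Set X} {x : X} (h : x ∈ A) : (pt x : Ch F X) ∈ CC F A :=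
  mem_CC.2 (prj_pt_mem h)

theorem unc_mem_CC {A : Set X} {c : Ch F C(I, X)} (h : c ∈ CC F (hat A)) : unc c ∈ CC F A := by
  have h' : prj (hat A) c = c := h
  rw [mem_CC, prj_unc, h']

theorem map_mem_CC {f : C(X, Y)} {A : Set X} {B : Set Y} (hf : MapsTo f A B) {c : Ch F X}
    (h : c ∈ CC F A) : map f c ∈ CC F B := by
  have h' : prj (f ⁻¹' B) c = c := CC_mono (F := F) (A := A) (B := f ⁻¹' B) hf h
  rw [mem_CC, prj_map, h']

/-- induction on chains with support -/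
theorem CC_ind {P : (X : Type) → [TopologicalSpace X] → Set X → Ch F X → Prop}
    (h0 : ∀ (X : Type) [TopologicalSpace X] A, P X A 0)
    (hadd : ∀ (X : Type) [TopologicalSpace X] A a b, P X A a → P X A b → P X A (a + b))
    (hsm : ∀ (X : Type) [TopologicalSpace X] A (r : F) a, P X A a → P X A (r • a))
    (hpt : ∀ (X : Type) [TopologicalSpace X] A x, x ∈ A → P X A (pt x))
    (hunc : ∀ (X : Type) [TopologicalSpace X] A a, a ∈ CC F (hat A) → P C(I, X) (hat A) a →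
      P X A (unc a))
    (X : Type) [TopologicalSpace X] (A : Set X) (c : Ch F X) (hc : c ∈ CC F A) : P X A c := by
  have key : ∀ A : Set X, P X A (prj A c) := by
    refine ind (F := F) (P := fun X _ c => ∀ A : Set X, P X A (prj A c)) ?_ ?_ ?_ ?_ ?_ X c
    · intro X _ A
      rw [map_zero]
      exact h0 X A
    · intro X _ a b ha hb A
      rw [map_add]
      exact hadd X A _ _ (ha A) (hb A)
    · intro X _ r a ha A
      rw [map_smul]
      exact hsm X A r _ (ha A)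
    · intro X _ x A
      by_cases hA : x ∈ A
      · rw [prj_pt_mem hA]
        exact hpt X A x hA
      · rw [prj_pt_not hA]
        exact h0 X A
    · intro X _ a ha A
      rw [prj_unc]
      exact hunc X A _ (prj_mem_CC _ _) (ha _)
  have h' : prj A c = c := hc
  rw [← h']
  exact key A

/-- chains in `A` are spanned by cubes in `A` -/
theorem CC_span {A : Set X} {P : Ch F X → Prop} (h0 : P 0)
    (hadd : ∀ a b, P a → P b → P (a + b)) (hsm : ∀ (r : F) a, P a → P (r • a))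
    (hc : ∀ c : Σ n, Cb n X, rg c.1 c.2 ⊆ A → P (cube c)) {c : Ch F X} (h : c ∈ CC F A) : P c := by
  have key : P (prj A c) := by
    refine span_ind (F := F) (P := fun c => P (prj A c)) ?_ ?_ ?_ ?_ c
    · rw [map_zero]
      exact h0
    · intro a b ha hb
      rw [map_add]
      exact hadd _ _ ha hb
    · intro r a ha
      rw [map_smul]
      exact hsm r _ ha
    · intro d
      by_cases hd : rg d.1 d.2 ⊆ A
      · have e : prj A (cube d : Ch F X) = cube d := zc4_prj_cube_pos d.1 X A d.2 hd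
        rw [e]
        exact hc d hd
      · have e : prj A (cube d : Ch F X) = 0 := zc4_prj_cube_neg d.1 X A d.2 hd
        rw [e]
        exact h0
  have h' : prj A c = c := h
  rw [← h']
  exact key

theorem cube_mem_CC (c : Σ n, Cb n X) : (cube c : Ch F X) ∈ CC F (rg c.1 c.2) :=
  mem_CC.2 (zc4_prj_cube_pos c.1 X _ c.2 subset_rfl)

theorem map_incl_res (A : Set X) (c : Ch F X) : map (incl A) (res A c) = prj A c := by
  refine ind (F := F) (P := fun X _ c => ∀ A : Set X, map (incl A) (res A c) = prj A c)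
    ?_ ?_ ?_ ?_ ?_ X c A
  · intro X _ A
    simp only [map_zero]
  · intro X _ a b ha hb A
    simp only [map_add, ha, hb]
  · intro X _ r a ha A
    simp only [map_smul, ha]
  · intro X _ x A
    by_cases hA : x ∈ A
    · rw [res_pt_mem hA, prj_pt_mem hA, map_pt]
      rfl
    · rw [res_pt_not hA, prj_pt_not hA, map_zero]
  · intro X _ a ha A
    have e : (post (incl A)).comp (toSub A) = incl (hat A) := rfl
    rw [res_unc, prj_unc, map_unc, map_map, e, ha]

theorem res_map_incl (A : Set X) (c : Ch F A) : res A (map (incl A) c) = c := by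
  have e : subMap (incl A) A = incl (incl A ⁻¹' A) := rfl
  have e2 : (incl A ⁻¹' A : Set A) = univ := eq_univ_of_forall fun x => x.2
  rw [res_map, e, map_incl_res, e2, prj_univ]

theorem mem_CC_iff {A : Set X} {c : Ch F X} : c ∈ CC F A ↔ ∃ b : Ch F A, map (incl A) b = c := by
  constructor
  · intro h
    exact ⟨res A c, (map_incl_res A c).trans h⟩
  · rintro ⟨b, rfl⟩
    exact map_mem_CC (A := univ) (fun x _ => x.2) (mem_CC_univ b)

theorem bd_mem_CC {A : Set X} {c : Ch F X} (h : c ∈ CC F A) : bd c ∈ CC F A := by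
  obtain ⟨b, rfl⟩ := mem_CC_iff.1 h
  exact mem_CC_iff.2 ⟨bd b, (bd_map _ b).symm⟩

theorem om_mem_CC {A : Set X} {c : Ch F X} (h : c ∈ CC F A) : om c ∈ CC F A := by
  obtain ⟨b, rfl⟩ := mem_CC_iff.1 h
  exact mem_CC_iff.2 ⟨om b, (om_map _ b).symm⟩

theorem dg_mem_CC {A : Set X} (k : ℕ) {c : Ch F X} (h : c ∈ CC F A) : dg k c ∈ CC F A := by
  obtain ⟨b, rfl⟩ := mem_CC_iff.1 h
  exact mem_CC_iff.2 ⟨dg k b, (dg_map k _ b).symm⟩

theorem sd_mem_CC {A : Set X} {c : Ch F X} (h : c ∈ CC F A) : sd c ∈ CC F A := by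
  obtain ⟨b, rfl⟩ := mem_CC_iff.1 h
  exact mem_CC_iff.2 ⟨sd b, (sd_map _ b).symm⟩

theorem CC_inf_sup (A B B' : Set X) :
    CC F A ⊓ (CC F B ⊔ CC F B') = CC F (A ∩ B) ⊔ CC F (A ∩ B') := by
  refine le_antisymm ?_ ?_
  · intro c hc
    have h1 : prj A c = c := hc.1
    obtain ⟨a, ha, b, hb, rfl⟩ := Submodule.mem_sup.1 hc.2
    rw [← h1, map_add]
    exact Submodule.add_mem_sup (prj_mem_inter A ha) (prj_mem_inter A hb)
  · refine sup_le (le_inf (CC_mono inter_subset_left) ?_) (le_inf (CC_mono inter_subset_left) ?_)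
    · exact (CC_mono inter_subset_right).trans le_sup_left
    · exact (CC_mono inter_subset_right).trans le_sup_right

theorem prj_mem_iSup {ι : Type} (A : Set X) (U : ι → Set X) {c : Ch F X}
    (h : c ∈ ⨆ i, CC F (U i)) : prj A c ∈ ⨆ i, CC F (A ∩ U i) := by
  have key : (⨆ i, CC F (U i)) ≤ (⨆ i, CC F (A ∩ U i)).comap (prj A) :=
    iSup_le fun i d hd => Submodule.mem_iSup_of_mem i (prj_mem_inter A hd)
  exact key h

end Pool.Agent.Fu
end

-- part Pool.Agent.P.MP_365c00_gt.Exact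
section

/-!
First variation formula; holonomy maps are smooth and exact (paper sec. 0, (exact)).
-/

open Set Filter Topology Metric
open scoped Manifold ContDiff

namespace Pool.Agent.GeoFin

namespace ExactX

section calc_lemmas

variable {P : Type*} [NormedAddCommGroup P] [NormedSpace ℝ P]

theorem deriv_fderiv {c : P → E} {y : P} (hc : ContDiffAt ℝ 2 c y) {σ : ℝ → P} {v : P} {s : ℝ}
    (hσ : HasDerivAt σ v s) (h0 : σ s = y) (e : P) :
    HasDerivAt (fun r => fderiv ℝ c (σ r) e) (fderiv ℝ (fderiv ℝ c) y v e) s := by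
  subst h0
  have hD : HasFDerivAt (fderiv ℝ c) (fderiv ℝ (fderiv ℝ c) (σ s)) (σ s) :=
    ((hc.fderiv_right (m := 1) (by norm_num)).differentiableAt one_ne_zero).hasFDerivAt
  simpa using (hD.comp_hasDerivAt s hσ).clm_apply (hasDerivAt_const s e)

theorem deriv_form {c : P → E} {y : P} (hc : ContDiffAt ℝ 2 c y) {B : E → E →L[ℝ] E →L[ℝ] ℝ}
    (hB : DifferentiableAt ℝ B (c y)) {σ : ℝ → P} {v : P} {s : ℝ}
    (hσ : HasDerivAt σ v s) (h0 : σ s = y) (e e' : P) :
    HasDerivAt (fun r => B (c (σ r)) (fderiv ℝ c (σ r) e) (fderiv ℝ c (σ r) e'))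
      (fderiv ℝ B (c y) (fderiv ℝ c y v) (fderiv ℝ c y e) (fderiv ℝ c y e')
        + B (c y) (fderiv ℝ (fderiv ℝ c) y v e) (fderiv ℝ c y e')
        + B (c y) (fderiv ℝ c y e) (fderiv ℝ (fderiv ℝ c) y v e')) s := by
  have h1 := deriv_fderiv hc hσ h0 e
  have h2 := deriv_fderiv hc hσ h0 e'
  subst h0
  have h3 : HasDerivAt (fun r => c (σ r)) (fderiv ℝ c (σ s) v) s :=
    (hc.differentiableAt two_ne_zero).hasFDerivAt.comp_hasDerivAt s hσ
  have h4 : HasDerivAt (fun r => B (c (σ r))) (fderiv ℝ B (c (σ s)) (fderiv ℝ c (σ s) v)) s :=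
    HasFDerivAt.comp_hasDerivAt (F := E) (E := E →L[ℝ] E →L[ℝ] ℝ) (f := fun r => c (σ r)) s
      hB.hasFDerivAt h3
  simpa using (h4.clm_apply h1).clm_apply h2

theorem fderiv_snd {c : P × ℝ → E} {z : P} {t : ℝ} (hc : DifferentiableAt ℝ c (z, t)) :
    fderiv ℝ c (z, t) (0, 1) = deriv (fun s => c (z, s)) t :=
  (hc.hasFDerivAt.comp_hasDerivAt t ((hasDerivAt_const t z).prodMk (hasDerivAt_id t))).deriv.symm

theorem fderiv_fst {c : P × ℝ → E} {z : P} {t : ℝ} (hc : DifferentiableAt ℝ c (z, t)) (ξ : P) :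
    fderiv ℝ c (z, t) (ξ, 0) = fderiv ℝ (fun y => c (y, t)) z ξ := by
  have h := HasFDerivAt.comp z (f := fun y => (y, t)) hc.hasFDerivAt
    ((hasFDerivAt_id z).prodMk (hasFDerivAt_const t z))
  rw [HasFDerivAt.fderiv (f := fun y => c (y, t)) h]
  simp

theorem implicit [CompleteSpace P] {Φ : P × ℝ → ℝ} {T : P → ℝ} {z : P} {k : ℝ} {n : ℕ∞ω}
    (hn : n ≠ 0) (hΦ : ContDiffAt ℝ n Φ (z, T z)) (hd : fderiv ℝ Φ (z, T z) (0, 1) ≠ 0)
    (hT : ContinuousAt T z) (hk : ∀ᶠ y in 𝓝 z, Φ (y, T y) = k) : ContDiffAt ℝ n T z := by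
  have hinv : (fderiv ℝ Φ (z, T z) ∘L ContinuousLinearMap.inr ℝ P ℝ).IsInvertible := by
    refine ⟨ContinuousLinearEquiv.unitsEquivAut ℝ (Units.mk0 _ hd), ?_⟩
    ext
    simp
  have h1 := hΦ.eventually_apply_eq_iff_implicitFunction hn hinv
  have h2 : ContinuousAt (fun y => (y, T y)) z := continuousAt_id.prodMk hT
  refine (hΦ.contDiffAt_implicitFunction hn hinv).congr_of_eventuallyEq ?_
  filter_upwards [h2.eventually h1, hk] with y hy hy'
  exact (hy.1 (hy'.trans hk.self_of_nhds.symm)).symm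

end calc_lemmas

variable {M : Type*} [TopologicalSpace M] [ChartedSpace E M] [IsManifold (𝓡 2) ∞ M]

/-- the family of curves as a map of all the variables -/
def fam {g : Met M} (Z : ℝ × ℝ → UG g) (y : (ℝ × ℝ) × ℝ) : M := (Z y.1).1 y.2

variable {g : Met M} {Z : ℝ × ℝ → UG g}

theorem fam_vel {y : (ℝ × ℝ) × ℝ} {x : M} (h : DifferentiableAt ℝ (κ x ∘ fam Z) y) :
    fderiv ℝ (κ x ∘ fam Z) y (0, 1) = vel x (Z y.1).1 y.2 := fderiv_snd (z := y.1) (t := y.2) h

theorem fam_ev {D : Set (ℝ × ℝ)} (hD : IsOpen D)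
    (hZ : ∀ z ∈ D, ∀ t, ContMDiffAt 𝓘(ℝ, (ℝ × ℝ) × ℝ) (𝓡 2) ∞ (fam Z) (z, t))
    {z : ℝ × ℝ} (hz : z ∈ D) {t : ℝ} {x : M} (hx : fam Z (z, t) ∈ (κ x).source) :
    ∀ᶠ y in 𝓝 (z, t), fam Z y ∈ (κ x).source ∧ ContMDiffAt 𝓘(ℝ, (ℝ × ℝ) × ℝ) (𝓡 2) ∞ (fam Z) y ∧
      ContDiffAt ℝ ∞ (κ x ∘ fam Z) y := by
  have h1 : ∀ᶠ y in 𝓝 (z, t), fam Z y ∈ (κ x).source :=
    (hZ z hz t).continuousAt.preimage_mem_nhds ((source_open x).mem_nhds hx)
  have h2 : ∀ᶠ y : (ℝ × ℝ) × ℝ in 𝓝 (z, t), y.1 ∈ D :=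
    continuousAt_fst.preimage_mem_nhds (hD.mem_nhds hz)
  filter_upwards [h1, h2] with y hy hy'
  exact ⟨hy, hZ y.1 hy' y.2, contDiffAt_chart (n := ⊤) (hZ y.1 hy' y.2) hy⟩

theorem two_le : (2 : ℕ∞ω) ≤ ∞ := by
  exact WithTop.coe_le_coe.2 (le_top : (2 : ℕ∞) ≤ ⊤)

theorem hasDerivAt_var {D : Set (ℝ × ℝ)} (hD : IsOpen D)
    (hZ : ∀ z ∈ D, ∀ t, ContMDiffAt 𝓘(ℝ, (ℝ × ℝ) × ℝ) (𝓡 2) ∞ (fam Z) (z, t))
    {z : ℝ × ℝ} (hz : z ∈ D) (ξ : ℝ × ℝ) (t : ℝ) :
    HasDerivAt (fun s => g.inner (fam Z (z, s))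
      (mfderiv 𝓘(ℝ, (ℝ × ℝ) × ℝ) (𝓡 2) (fam Z) (z, s) ((0, 1) : (ℝ × ℝ) × ℝ))
      (mfderiv 𝓘(ℝ, (ℝ × ℝ) × ℝ) (𝓡 2) (fam Z) (z, s) ((ξ, 0) : (ℝ × ℝ) × ℝ))) 0 t := by
  set x := fam Z (z, t) with hxdef
  have hx : fam Z (z, t) ∈ (κ x).source := mem_extChartAt_source x
  have hev := fam_ev hD hZ hz hx
  set c := κ x ∘ fam Z with hcdef
  have hc : ContDiffAt ℝ 2 c (z, t) := hev.self_of_nhds.2.2.of_le two_le
  have ha : c (z, t) ∈ (κ x).target := (κ x).map_source hx
  have hB : DifferentiableAt ℝ (G g x) (c (z, t)) :=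
    ((G_smooth g x).contDiffAt ((target_open x).mem_nhds ha)).differentiableAt (by simp)
  have hσ : HasDerivAt (fun s : ℝ => (z, s)) ((0, 1) : (ℝ × ℝ) × ℝ) t :=
    (hasDerivAt_const t z).prodMk (hasDerivAt_id t)
  have hσ' : HasDerivAt (fun s : ℝ => (z + s • ξ, t)) ((ξ, 0) : (ℝ × ℝ) × ℝ) 0 := by
    simpa using (((hasDerivAt_id (0 : ℝ)).smul_const ξ).const_add z).prodMk
      (hasDerivAt_const (0 : ℝ) t)
  have h0' : (z + (0 : ℝ) • ξ, t) = (z, t) := by simp
  have hev1 : ∀ᶠ s in 𝓝 t, fam Z (z, s) ∈ (κ x).source ∧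
      ContMDiffAt 𝓘(ℝ, (ℝ × ℝ) × ℝ) (𝓡 2) ∞ (fam Z) (z, s) ∧ ContDiffAt ℝ ∞ c (z, s) :=
    hσ.continuousAt.eventually hev
  have hev2 : ∀ᶠ s in 𝓝 (0 : ℝ), fam Z (z + s • ξ, t) ∈ (κ x).source ∧
      ContMDiffAt 𝓘(ℝ, (ℝ × ℝ) × ℝ) (𝓡 2) ∞ (fam Z) (z + s • ξ, t) ∧
      ContDiffAt ℝ ∞ c (z + s • ξ, t) := by
    have := hσ'.continuousAt
    rw [ContinuousAt, h0'] at this
    exact this.eventually hev
  -- the acceleration
  have hacc : fderiv ℝ (fderiv ℝ c) (z, t) (0, 1) (0, 1)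
      = acc g x (c (z, t), fderiv ℝ c (z, t) (0, 1)) := by
    have h1 := deriv_fderiv hc hσ rfl (0, 1)
    have h2 := ((Z z).geoAt t).2 x hx
    rw [fam_vel (hc.differentiableAt two_ne_zero)]
    refine h1.unique (h2.congr_of_eventuallyEq ?_)
    filter_upwards [hev1] with s hs
    exact fam_vel (hs.2.2.differentiableAt (by simp))
  -- unit speed
  have hunit := deriv_form hc hB hσ' h0' (0, 1) (0, 1)
  have hone : HasDerivAt (fun r : ℝ => G g x (c (z + r • ξ, t)) (fderiv ℝ c (z + r • ξ, t) (0, 1))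
      (fderiv ℝ c (z + r • ξ, t) (0, 1))) 0 0 := by
    refine (hasDerivAt_const (0 : ℝ) (1 : ℝ)).congr_of_eventuallyEq ?_
    filter_upwards [hev2] with s hs
    rw [fam_vel (hs.2.2.differentiableAt (by simp))]
    exact (Z (z + s • ξ)).unit t hs.1
  have hu := hunit.unique hone
  have hmain := deriv_form hc hB hσ rfl (0, 1) (ξ, 0)
  rw [hacc, acc_spec g x ha, (hc.isSymmSndFDerivAt (by simp)).eq (0, 1) (ξ, 0)] at hmain
  rw [G_symm g x _ (fderiv ℝ (fderiv ℝ c) (z, t) (ξ, 0) (0, 1))] at hu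
  refine (hmain.congr_deriv (by linarith)).congr_of_eventuallyEq ?_
  filter_upwards [hev1] with s hs
  exact inner_eq g (hs.2.1.mdifferentiableAt (by simp)) hs.1 _ _

end ExactX

variable {M : Type*} [TopologicalSpace M] [ChartedSpace E M] [IsManifold (𝓡 2) ∞ M]

/-- first variation for a smooth family of unit speed geodesics -/
theorem first_variation {g : Met M} {Z : ℝ × ℝ → UG g} {D : Set (ℝ × ℝ)} (hD : IsOpen D)
    (hZ : ∀ z ∈ D, ∀ t, ContMDiffAt 𝓘(ℝ, (ℝ × ℝ) × ℝ) (𝓡 2) ∞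
      (fun y : (ℝ × ℝ) × ℝ => (Z y.1).1 y.2) (z, t))
    {z : ℝ × ℝ} (hz : z ∈ D) (ξ : ℝ × ℝ) {t t' : ℝ} {x x' : M} (hx : (Z z).1 t ∈ (κ x).source)
    (hx' : (Z z).1 t' ∈ (κ x').source) :
    G g x (κ x ((Z z).1 t)) (vel x (Z z).1 t) (fderiv ℝ (fun y => κ x ((Z y).1 t)) z ξ) =
      G g x' (κ x' ((Z z).1 t')) (vel x' (Z z).1 t')
        (fderiv ℝ (fun y => κ x' ((Z y).1 t')) z ξ) := by
  have key : ∀ (s : ℝ) (p : M), (Z z).1 s ∈ (κ p).source →
      g.inner (ExactX.fam Z (z, s))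
        (mfderiv 𝓘(ℝ, (ℝ × ℝ) × ℝ) (𝓡 2) (ExactX.fam Z) (z, s) ((0, 1) : (ℝ × ℝ) × ℝ))
        (mfderiv 𝓘(ℝ, (ℝ × ℝ) × ℝ) (𝓡 2) (ExactX.fam Z) (z, s) ((ξ, 0) : (ℝ × ℝ) × ℝ)) =
      G g p (κ p ((Z z).1 s)) (vel p (Z z).1 s) (fderiv ℝ (fun y => κ p ((Z y).1 s)) z ξ) := by
    intro s p hp
    have h1 : ContMDiffAt 𝓘(ℝ, (ℝ × ℝ) × ℝ) (𝓡 2) ∞ (ExactX.fam Z) (z, s) := hZ z hz s
    have h2 : DifferentiableAt ℝ (κ p ∘ ExactX.fam Z) (z, s) :=
      (contDiffAt_chart (n := ⊤) h1 hp).differentiableAt (by simp)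
    refine (inner_eq g (h1.mdifferentiableAt (by simp)) hp _ _).trans ?_
    rw [ExactX.fam_vel h2, ExactX.fderiv_fst h2]
    rfl
  rw [← key t x hx, ← key t' x' hx']
  exact is_const_of_deriv_eq_zero
    (fun s => (ExactX.hasDerivAt_var hD hZ hz ξ s).differentiableAt)
    (fun s => (ExactX.hasDerivAt_var hD hZ hz ξ s).deriv) t t'

variable [T2Space M] [CompactSpace M] [Nonempty M] {g : Met M} {w w' : UG g}

namespace ExactX

variable (b : PreBox w) (b' : PreBox w') (a : ℝ)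

/-- the hitting time -/
noncomputable def TT (z : ℝ × ℝ) : ℝ := a + b'.τ (shift a (b.Z z))

/-- the point hit -/
noncomputable def ZZ (z : ℝ × ℝ) : ℝ × ℝ := b'.ζ (shift a (b.Z z))

/-- the domain of the holonomy -/
def Om : Set (ℝ × ℝ) := {z | z ∈ b.D ∧ shift a (b.Z z) ∈ b'.N}

theorem cont_shift : ContinuousOn (fun z => shift a (b.Z z)) b.D :=
  (shift_cont g).comp_continuousOn (continuousOn_const.prodMk b.Z_cont)

theorem Om_open : IsOpen (Om b b' a) :=
  (cont_shift b a).isOpen_inter_preimage b.D_open b'.N_open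

theorem TT_cont : ContinuousOn (TT b b' a) (Om b b' a) :=
  continuousOn_const.add
    (b'.τ_cont.comp ((cont_shift b a).mono fun _ h => h.1) fun _ h => h.2)

variable {b b' a}

theorem hit_pt {z : ℝ × ℝ} (hz : z ∈ Om b b' a) :
    fam b.Z (z, TT b b' a z) = (b'.Z (ZZ b b' a z)).1 0 := by
  have h := (b'.hit_spec hz.2).2.2
  unfold ZZ
  rw [← h, shift_apply, shift_apply, zero_add, add_comm]
  rfl

theorem hit_vel {z : ℝ × ℝ} (hz : z ∈ Om b b' a) :
    vel (w'.1 0) (b.Z z).1 (TT b b' a z) = b'.V (ZZ b b' a z) := by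
  have h := b'.hit_spec hz.2
  unfold ZZ
  rw [← b'.vel_Z_zero h.1, ← h.2.2, vel_shift, vel_shift, zero_add, add_comm]
  rfl

theorem hit_src {z : ℝ × ℝ} (hz : z ∈ Om b b' a) :
    fam b.Z (z, TT b b' a z) ∈ (κ (w'.1 0)).source := by
  rw [hit_pt hz]
  exact (b'.Z_stay (b'.hit_spec hz.2).1 (by simpa using b'.c_pos.le)).1

theorem hit_κ {z : ℝ × ℝ} (hz : z ∈ Om b b' a) :
    (κ (w'.1 0) ∘ fam b.Z) (z, TT b b' a z)
      = κ (w'.1 0) (w'.1 0) + (ZZ b b' a z).1 • b'.e2 := by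
  rw [Function.comp_apply, hit_pt hz]
  exact b'.κ_Z_zero (b'.hit_spec hz.2).1

theorem hit_smooth {z : ℝ × ℝ} (hz : z ∈ Om b b' a) :
    ContDiffAt ℝ ∞ (κ (w'.1 0) ∘ fam b.Z) (z, TT b b' a z) :=
  contDiffAt_chart (n := ⊤) (b.Z_smooth hz.1 _) (hit_src hz)

theorem hit_fderiv {z : ℝ × ℝ} (hz : z ∈ Om b b' a) :
    fderiv ℝ (κ (w'.1 0) ∘ fam b.Z) (z, TT b b' a z) (0, 1) = b'.V (ZZ b b' a z) := by
  rw [fam_vel ((hit_smooth hz).differentiableAt (by simp))]
  exact hit_vel hz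

theorem TT_smooth {z : ℝ × ℝ} (hz : z ∈ Om b b' a) : ContDiffAt ℝ ∞ (TT b b' a) z := by
  have hO := (Om_open b b' a).mem_nhds hz
  refine implicit (Φ := fun y => b'.l1 ((κ (w'.1 0) ∘ fam b.Z) y))
    (k := b'.l1 (κ (w'.1 0) (w'.1 0))) (by simp)
    (b'.l1.contDiff.contDiffAt.comp _ (hit_smooth hz)) ?_
    ((TT_cont b b' a).continuousAt hO) ?_
  · have h := b'.l1.hasFDerivAt.comp _
      ((hit_smooth hz).differentiableAt (by simp)).hasFDerivAt
    rw [HasFDerivAt.fderiv (f := fun y => b'.l1 ((κ (w'.1 0) ∘ fam b.Z) y)) h,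
      ContinuousLinearMap.comp_apply, hit_fderiv hz]
    have h1 := (b'.hit_spec hz.2).1
    have h2 := (b'.Z_stay h1 (t := 0) (by simpa using b'.c_pos.le)).2
    rw [b'.vel_Z_zero h1] at h2
    exact (lt_of_lt_of_le (by norm_num) h2).ne'
  · filter_upwards [hO] with y hy
    rw [hit_κ hy, map_add, map_smul, b'.l1_e2, smul_zero, add_zero]

theorem comp_smooth {z : ℝ × ℝ} (hz : z ∈ Om b b' a) :
    ContDiffAt ℝ ∞ (fun y => (κ (w'.1 0) ∘ fam b.Z) (y, TT b b' a y)) z :=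
  ContDiffAt.comp z (f := fun y => (y, TT b b' a y)) (hit_smooth hz)
    (contDiffAt_id.prodMk (TT_smooth hz))

theorem ZZ_smooth {z : ℝ × ℝ} (hz : z ∈ Om b b' a) : ContDiffAt ℝ ∞ (ZZ b b' a) z := by
  have hO := (Om_open b b' a).mem_nhds hz
  have h1 : ContDiffAt ℝ ∞ (fun y => b'.l2 ((κ (w'.1 0) ∘ fam b.Z) (y, TT b b' a y)
      - κ (w'.1 0) (w'.1 0))) z :=
    b'.l2.contDiff.contDiffAt.comp _ ((comp_smooth hz).sub contDiffAt_const)
  have h2 : ContDiffAt ℝ ∞
      (fun y => fderiv ℝ (κ (w'.1 0) ∘ fam b.Z) (y, TT b b' a y) (0, 1)) z :=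
    (ContDiffAt.comp z (f := fun y => (y, TT b b' a y))
      ((hit_smooth hz).fderiv_right (m := ∞) (by simp))
      (contDiffAt_id.prodMk (TT_smooth hz))).clm_apply contDiffAt_const
  have h3 : ContDiffAt ℝ ∞
      (fun y => G g (w'.1 0) ((κ (w'.1 0) ∘ fam b.Z) (y, TT b b' a y))) z :=
    ContDiffAt.comp z (f := fun y => (κ (w'.1 0) ∘ fam b.Z) (y, TT b b' a y))
      ((G_smooth g (w'.1 0)).contDiffAt ((target_open _).mem_nhds
        ((κ (w'.1 0)).map_source (hit_src hz)))) (comp_smooth hz)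
  refine (h1.prodMk ((h3.clm_apply h2).clm_apply (contDiffAt_const (c := b'.e2)))
    ).congr_of_eventuallyEq ?_
  filter_upwards [hO] with y hy
  rw [hit_κ hy, hit_fderiv hy, b'.V_mom (ZZ b b' a y) (b'.hit_spec hy.2).1, add_sub_cancel_left,
    map_smul, b'.l2_e2, smul_eq_mul, mul_one]

end ExactX

theorem PreBox.time_smooth (b : PreBox w) (b' : PreBox w') (a : ℝ) :
    ContDiffOn ℝ 2 (fun z => a + b'.τ (shift a (b.Z z))) {z | z ∈ b.D ∧ shift a (b.Z z) ∈ b'.N} := by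
  intro z hz
  exact ((ExactX.TT_smooth (b := b) (b' := b') (a := a) hz).of_le ExactX.two_le).contDiffWithinAt

theorem PreBox.hol_smooth (b : PreBox w) (b' : PreBox w') (a : ℝ) :
    ContDiffOn ℝ 2 (fun z => b'.ζ (shift a (b.Z z))) {z | z ∈ b.D ∧ shift a (b.Z z) ∈ b'.N} := by
  intro z hz
  exact ((ExactX.ZZ_smooth (b := b) (b' := b') (a := a) hz).of_le ExactX.two_le).contDiffWithinAt

theorem PreBox.exact (b : PreBox w) (b' : PreBox w') (a : ℝ) {z : ℝ × ℝ} (hz : z ∈ b.D)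
    (hN : shift a (b.Z z) ∈ b'.N) (ξ : ℝ × ℝ) :
    fderiv ℝ (fun z => a + b'.τ (shift a (b.Z z))) z ξ =
      (b'.ζ (shift a (b.Z z))).2 * (fderiv ℝ (fun z => b'.ζ (shift a (b.Z z))) z ξ).1 -
        z.2 * ξ.1 := by
  have hz' : z ∈ ExactX.Om b b' a := ⟨hz, hN⟩
  change fderiv ℝ (ExactX.TT b b' a) z ξ = (ExactX.ZZ b b' a z).2 *
    (fderiv ℝ (ExactX.ZZ b b' a) z ξ).1 - z.2 * ξ.1
  have hO := (ExactX.Om_open b b' a).mem_nhds hz'
  have hT := ((ExactX.TT_smooth hz').differentiableAt (by simp)).hasFDerivAt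
  have hZ := ((ExactX.ZZ_smooth hz').differentiableAt (by simp)).hasFDerivAt
  have hc := (ExactX.hit_smooth hz').differentiableAt (by simp)
  have h1 := HasFDerivAt.comp z (f := fun y => (y, ExactX.TT b b' a y)) hc.hasFDerivAt
    ((hasFDerivAt_id z).prodMk hT)
  have h2 : HasFDerivAt (fun y => κ (w'.1 0) (w'.1 0) + (ExactX.ZZ b b' a y).1 • b'.e2) _ z :=
    (hZ.fst.smul_const b'.e2).const_add _
  have h3 := congrArg (fun L => L ξ) (h1.unique (h2.congr_of_eventuallyEq (by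
    filter_upwards [hO] with y hy using ExactX.hit_κ hy)))
  simp only [ContinuousLinearMap.comp_apply, ContinuousLinearMap.prod_apply,
    ContinuousLinearMap.id_apply, ContinuousLinearMap.smulRight_apply,
    ContinuousLinearMap.coe_fst'] at h3
  have h4 : ((ξ, fderiv ℝ (ExactX.TT b b' a) z ξ) : (ℝ × ℝ) × ℝ)
      = (ξ, 0) + fderiv ℝ (ExactX.TT b b' a) z ξ • ((0, 1) : (ℝ × ℝ) × ℝ) := by simp
  rw [h4, map_add, map_smul, ExactX.hit_fderiv hz', ExactX.fderiv_fst hc] at h3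
  have hD' : ExactX.ZZ b b' a z ∈ b'.D := (b'.hit_spec hN).1
  have h5 := congrArg (G g (w'.1 0) (κ (w'.1 0) (w'.1 0) + (ExactX.ZZ b b' a z).1 • b'.e2)
    (b'.V (ExactX.ZZ b b' a z))) h3
  rw [map_add, map_smul, map_smul, b'.V_unit _ hD', b'.V_mom _ hD'] at h5
  have h6 := first_variation b.D_open (fun y hy t => b.Z_smooth hy t) hz ξ
    (b.Z_stay hz (t := 0) (by simpa using b.c_pos.le)).1 (ExactX.hit_src hz')
  have h7 : HasFDerivAt (fun y => κ (w.1 0) ((b.Z y).1 0))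
      ((ContinuousLinearMap.fst ℝ ℝ ℝ).smulRight b.e2) z := by
    refine ((hasFDerivAt_fst.smul_const b.e2).const_add
      (κ (w.1 0) (w.1 0))).congr_of_eventuallyEq ?_
    filter_upwards [b.D_open.mem_nhds hz] with y hy using b.κ_Z_zero hy
  have h8 : κ (w'.1 0) ((b.Z z).1 (ExactX.TT b b' a z))
      = κ (w'.1 0) (w'.1 0) + (ExactX.ZZ b b' a z).1 • b'.e2 := ExactX.hit_κ hz'
  rw [h7.fderiv, b.κ_Z_zero hz, b.vel_Z_zero hz, ExactX.hit_vel hz', h8,
    ContinuousLinearMap.smulRight_apply, map_smul, PreBox.pt, b.V_mom z hz] at h6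
  have h9 : (fun y => (κ (w'.1 0) ∘ ExactX.fam b.Z) (y, ExactX.TT b b' a z))
      = fun y => κ (w'.1 0) ((b.Z y).1 (ExactX.TT b b' a z)) := rfl
  rw [h9, ← h6] at h5
  simp only [smul_eq_mul, ContinuousLinearMap.coe_fst'] at h5
  linarith

end Pool.Agent.GeoFin
end

-- part Pool.Agent.P.MP_365c00_gt.PreEx
section

/-!
Existence of boxes.
-/

open Set Filter Topology Metric
open scoped Manifold ContDiff

namespace Pool.Agent.GeoFin

namespace PreExX

theorem frame {V0 : E} (h : V0 ≠ 0) : ∃ (e2 : E) (l1 l2 : E →L[ℝ] ℝ), l1 V0 = 1 ∧ l1 e2 = 0 ∧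
    l2 V0 = 0 ∧ l2 e2 = 1 ∧ ∀ v : E, v = l1 v • V0 + l2 v • e2 := by
  have hn : V0 0 ^ 2 + V0 1 ^ 2 ≠ 0 := fun h0 => h (by
    ext i
    fin_cases i
    · show V0 0 = 0
      nlinarith [sq_nonneg (V0 0), sq_nonneg (V0 1)]
    · show V0 1 = 0
      nlinarith [sq_nonneg (V0 0), sq_nonneg (V0 1)])
  refine ⟨!₂[-V0 1, V0 0],
    (V0 0 / (V0 0 ^ 2 + V0 1 ^ 2)) • EuclideanSpace.proj 0 +
      (V0 1 / (V0 0 ^ 2 + V0 1 ^ 2)) • EuclideanSpace.proj 1,
    (-V0 1 / (V0 0 ^ 2 + V0 1 ^ 2)) • EuclideanSpace.proj 0 +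
      (V0 0 / (V0 0 ^ 2 + V0 1 ^ 2)) • EuclideanSpace.proj 1, ?_, ?_, ?_, ?_, fun v => ?_⟩
  · simp; field_simp
  · simp; field_simp; ring
  · simp; field_simp; ring
  · simp; field_simp; ring
  · ext i
    fin_cases i
    · simp; field_simp; ring
    · simp; field_simp; ring

theorem expand (B : E →L[ℝ] E →L[ℝ] ℝ) (hB : ∀ u w, B u w = B w u) (e1 e2 : E) (a b : ℝ) :
    B (a • e1 + b • e2) (a • e1 + b • e2) =
      a ^ 2 * B e1 e1 + 2 * a * b * B e1 e2 + b ^ 2 * B e2 e2 ∧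
    B (a • e1 + b • e2) e2 = a * B e1 e2 + b * B e2 e2 := by
  simp only [map_add, map_smul, add_apply, smul_apply, smul_eq_mul, hB e2 e1, and_true]
  ring

end PreExX

open PreExX

variable {M : Type*} [TopologicalSpace M] [ChartedSpace E M] [IsManifold (𝓡 2) ∞ M]
  [T2Space M] [CompactSpace M] [Nonempty M]

theorem exists_preBox {g : Met M} (w : UG g) : Nonempty (PreBox w) := by
  set x : M := w.1 0 with hxd
  have hx : w.1 0 ∈ (κ x).source := mem_extChartAt_source x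
  set a0 : E := κ x x with ha0
  have ha0t : a0 ∈ (κ x).target := (κ x).map_source hx
  set e1 : E := vel x w.1 0 with he1
  obtain ⟨e2, l1, l2, h11, h12, h21, h22, hdec⟩ := frame (V0 := e1) (w.vel_ne 0 hx)
  have he2 : e2 ≠ 0 := fun h => by simp [h] at h22
  let pt : ℝ × ℝ → E := fun z => a0 + z.1 • e2
  have hpt : ContDiff ℝ ∞ pt := contDiff_const.add (contDiff_fst.smul contDiff_const)
  let p : ℝ × ℝ → ℝ := fun z => G g x (pt z) e1 e1
  let q : ℝ × ℝ → ℝ := fun z => G g x (pt z) e1 e2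
  let r : ℝ × ℝ → ℝ := fun z => G g x (pt z) e2 e2
  let D1 : Set (ℝ × ℝ) := pt ⁻¹' (κ x).target
  have hD1 : IsOpen D1 := (target_open x).preimage hpt.continuous
  have hG : ∀ u v : E, ContDiffOn ℝ ∞ (fun z => G g x (pt z) u v) D1 := fun u v =>
    (((G_smooth g x).comp hpt.contDiffOn fun _ h => h).clm_apply contDiffOn_const).clm_apply
      contDiffOn_const
  have hr : ∀ z ∈ D1, 0 < r z := fun z hz => G_pos g x hz he2
  have hΔ : ∀ z ∈ D1, 0 < p z * r z - q z ^ 2 := fun z hz => by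
    have h1 : r z • e1 + (-q z) • e2 ≠ 0 := fun h => by
      have := congrArg l1 h
      simp only [map_add, map_smul, h11, h12, smul_eq_mul, map_zero] at this
      linarith [hr z hz]
    have h2 := G_pos g x hz h1
    rw [(expand _ (G_symm g x _) e1 e2 _ _).1] at h2
    have h3 : 0 < r z * (p z * r z - q z ^ 2) := by
      convert h2 using 1
      simp only [p, q, r]
      ring
    exact (mul_pos_iff_of_pos_left (hr z hz)).1 h3
  let D0 : Set (ℝ × ℝ) := D1 ∩ (fun z => r z - z.2 ^ 2) ⁻¹' Ioi 0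
  have hrs : ContDiffOn ℝ ∞ (fun z : ℝ × ℝ => r z - z.2 ^ 2) D1 :=
    (hG e2 e2).sub (contDiff_snd.pow 2).contDiffOn
  have hD0 : IsOpen D0 := hrs.continuousOn.isOpen_inter_preimage hD1 isOpen_Ioi
  let al : ℝ × ℝ → ℝ := fun z => √((r z - z.2 ^ 2) / (p z * r z - q z ^ 2))
  let be : ℝ × ℝ → ℝ := fun z => (z.2 - al z * q z) / r z
  let V : ℝ × ℝ → E := fun z => al z • e1 + be z • e2
  have hal0 : ∀ z ∈ D0, 0 < (r z - z.2 ^ 2) / (p z * r z - q z ^ 2) := fun z hz =>
    div_pos hz.2 (hΔ z hz.1)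
  have hal : ContDiffOn ℝ ∞ al D0 :=
    ((hrs.mono inter_subset_left).div ((((hG e1 e1).mul (hG e2 e2)).sub
      ((hG e1 e2).pow 2)).mono inter_subset_left) fun z hz => (hΔ z hz.1).ne').sqrt
      fun z hz => (hal0 z hz).ne'
  have hbe : ContDiffOn ℝ ∞ be D0 :=
    (contDiff_snd.contDiffOn.sub (hal.mul ((hG e1 e2).mono inter_subset_left))).div
      ((hG e2 e2).mono inter_subset_left) fun z hz => (hr z hz.1).ne'
  have hV : ContDiffOn ℝ ∞ V D0 := (hal.smul contDiffOn_const).add (hbe.smul contDiffOn_const)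
  have hal2 : ∀ z ∈ D0, al z ^ 2 * (p z * r z - q z ^ 2) = r z - z.2 ^ 2 := fun z hz => by
    rw [Real.sq_sqrt (hal0 z hz).le, div_mul_cancel₀ _ (hΔ z hz.1).ne']
  have hbe1 : ∀ z ∈ D0, al z * q z + be z * r z = z.2 := fun z hz => by
    simp only [be]
    rw [div_mul_cancel₀ _ (hr z hz.1).ne']
    ring
  have hmom : ∀ z ∈ D0, G g x (pt z) (V z) e2 = z.2 := fun z hz =>
    ((expand _ (G_symm g x _) e1 e2 _ _).2).trans (hbe1 z hz)
  have hunit : ∀ z ∈ D0, G g x (pt z) (V z) (V z) = 1 := fun z hz => by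
    rw [(expand _ (G_symm g x _) e1 e2 _ _).1]
    apply mul_left_cancel₀ (hr z hz.1).ne'
    have h1 := hal2 z hz
    have h2 := hbe1 z hz
    show r z * (al z ^ 2 * p z + 2 * al z * be z * q z + be z ^ 2 * r z) = r z * 1
    rw [← h2] at h1
    linear_combination h1
  have huniq : ∀ z ∈ D0, ∀ U : E, G g x (pt z) U U = 1 → G g x (pt z) U e2 = z.2 → 0 < l1 U →
      U = V z := fun z hz U h1 h2 h3 => by
    rw [hdec U, (expand _ (G_symm g x _) e1 e2 _ _).1] at h1
    rw [hdec U, (expand _ (G_symm g x _) e1 e2 _ _).2] at h2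
    change l1 U ^ 2 * p z + 2 * l1 U * l2 U * q z + l2 U ^ 2 * r z = 1 at h1
    change l1 U * q z + l2 U * r z = z.2 at h2
    have h4 : l1 U ^ 2 * (p z * r z - q z ^ 2) = r z - z.2 ^ 2 := by
      rw [← h2]
      linear_combination r z * h1
    have h5 : l1 U = al z := by
      have h6 : l1 U ^ 2 = al z ^ 2 := mul_right_cancel₀ (hΔ z hz.1).ne' (h4.trans (hal2 z hz).symm)
      exact (pow_left_inj₀ h3.le (Real.sqrt_nonneg _) two_ne_zero).1 h6
    have h7 : l2 U = be z := by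
      apply mul_right_cancel₀ (hr z hz.1).ne'
      have := hbe1 z hz
      rw [h5] at h2
      linarith
    rw [hdec U, h5, h7]
  set η0 : ℝ := G g x a0 e1 e2 with hη0
  have hpt0 : pt (0, η0) = a0 := by simp [pt]
  have hu0 : G g x a0 e1 e1 = 1 := w.unit 0 hx
  have hz1 : ((0, η0) : ℝ × ℝ) ∈ D1 := by
    show pt (0, η0) ∈ (κ x).target
    rw [hpt0]
    exact ha0t
  have hz0 : ((0, η0) : ℝ × ℝ) ∈ D0 := by
    refine ⟨hz1, ?_⟩
    have := hΔ _ hz1
    simp only [p, q, r, hpt0, hu0, one_mul] at this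
    show 0 < G g x (pt (0, η0)) e2 e2 - η0 ^ 2
    rw [hpt0]
    exact this
  have hV0 : V (0, η0) = e1 :=
    (huniq _ hz0 e1 (by rw [hpt0]; exact hu0) (by rw [hpt0]) (by rw [h11]; exact one_pos)).symm
  have hVne : ∀ z ∈ D0, V z ≠ 0 := fun z hz h => by simpa [h] using hunit z hz
  let Z : ℝ × ℝ → UG g := fun z => mk g x (pt z, V z)
  have hZ : ContinuousOn Z D0 := (mk_cont g x).comp
    (hpt.continuous.continuousOn.prodMk hV.continuousOn) fun z hz => ⟨hz.1, hVne z hz⟩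
  have hZ0 : Z (0, η0) = w := by
    have := mk_jet w hx one_pos
    rw [one_smul] at this
    simp only [Z, hpt0, hV0]
    exact this
  have hc : ContinuousAt (fun y : (ℝ × ℝ) × ℝ => (Z y.1, y.2)) ((0, η0), 0) :=
    ((hZ.continuousAt (hD0.mem_nhds hz0)).comp_of_eq continuousAt_fst rfl).prodMk continuousAt_snd
  have hS : IsOpen {z : UG g × ℝ | z.1.1 z.2 ∈ (κ x).source} :=
    (source_open x).preimage (ev_cont g)
  have hS' : IsOpen ({z : UG g × ℝ | z.1.1 z.2 ∈ (κ x).source} ∩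
      (fun z : UG g × ℝ => l1 (vel x z.1.1 z.2)) ⁻¹' Ioi (1 / 2)) :=
    (l1.continuous.comp_continuousOn (vel_cont g x)).isOpen_inter_preimage hS isOpen_Ioi
  have hn := hc.preimage_mem_nhds (hS'.mem_nhds (by
    simp only [hZ0]
    refine ⟨hx, ?_⟩
    show 1 / 2 < l1 e1
    rw [h11]
    norm_num))
  obtain ⟨A, hA, B, hB, hAB⟩ := mem_nhds_prod_iff.1 hn
  obtain ⟨ρ, hρ, hρB⟩ := Metric.mem_nhds_iff.1 hB
  have hm := min_le_right (1 / 4) (ρ / 3)
  refine ⟨{
    e1 := e1, e2 := e2, l1 := l1, l2 := l2, D := D0 ∩ interior A, c := min (1 / 4) (ρ / 3),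
    V := V, η0 := η0, l1_e1 := h11, l1_e2 := h12, l2_e1 := h21, l2_e2 := h22, decomp := hdec,
    D_open := hD0.inter isOpen_interior, c_pos := by positivity, c_le := min_le_left _ _,
    pt_mem := fun z hz => hz.1.1, V_smooth := hV.mono inter_subset_left,
    V_unit := fun z hz => hunit z hz.1, V_mom := fun z hz => hmom z hz.1,
    V_uniq := fun z hz => huniq z hz.1, ctr_mem := ⟨hz0, mem_interior_iff_mem_nhds.2 hA⟩,
    ctr := hV0, stay := fun z hz t ht => ?_ }⟩
  have := hAB (mk_mem_prod (interior_subset hz.2) (hρB (mem_ball_zero_iff.2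
    (show ‖t‖ < ρ by rw [Real.norm_eq_abs]; linarith))))
  exact ⟨this.1, le_of_lt this.2⟩

end Pool.Agent.GeoFin
end
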