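import Mathlib
import Pool.Agent.K.MP_365c00_gt.C5
import Pool.Agent.K.MP_365c00_gt.C3

-- part Pool.Agent.P.MP_365c00_gt.Sard
section

/-!
Two measure statements: (b7) of paper sec. 3 and Sard in paper sec. 6.
-/

open Set Filter Topology Metric MeasureTheory
open scoped Manifold ContDiff

namespace Pool.Agent.GeoFin

variable {M : Type*} [TopologicalSpace M] [ChartedSpace E M] [IsManifold (𝓡 2) ∞ M]
  [T2Space M] [CompactSpace M] [Nonempty M]

namespace SardX

/-- slope of the initial velocity -/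
noncomputable def slp {g : Met M} (x : M) (m1 m2 : E →L[ℝ] ℝ) (u : UG g) : ℝ :=
  m2 (vel x u.1 0) / m1 (vel x u.1 0)

theorem mk_slp {g : Met M} {x : M} {e f : E} {m1 m2 : E →L[ℝ] ℝ}
    (hd : ∀ v, v = m1 v • e + m2 v • f) (u : UG g) (hx : u.1 0 ∈ (κ x).source)
    (h : 0 < m1 (vel x u.1 0)) : mk g x (κ x (u.1 0), e + slp x m1 m2 u • f) = u := by
  have := mk_jet u hx (inv_pos.2 h)
  rwa [hd (vel x u.1 0), ← hd (vel x u.1 0), show (m1 (vel x u.1 0))⁻¹ • vel x u.1 0 =
    e + slp x m1 m2 u • f by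
      nth_rewrite 2 [hd (vel x u.1 0)]
      rw [smul_add, smul_smul, smul_smul, inv_mul_cancel₀ h.ne', one_smul, slp,
        div_eq_inv_mul]] at this

omit [T2Space M] [CompactSpace M] [Nonempty M] in
theorem ev0_cont (g : Met M) : Continuous fun u : UG g => u.1 0 :=
  (ev_cont g).comp (continuous_id.prodMk continuous_const)

theorem vel0_cont {g : Met M} {x : M} {u : UG g} (hx : u.1 0 ∈ (κ x).source) :
    ContinuousAt (fun u : UG g => vel x u.1 0) u :=
  ContinuousAt.comp (f := fun u : UG g => (u, (0 : ℝ)))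
    ((vel_cont g x).continuousAt (((source_open x).preimage (ev_cont g)).mem_nhds hx))
    (continuous_id.prodMk continuous_const).continuousAt

theorem slp_cont {g : Met M} {x : M} (m1 m2 : E →L[ℝ] ℝ) {u : UG g} (hx : u.1 0 ∈ (κ x).source)
    (h : 0 < m1 (vel x u.1 0)) : ContinuousAt (slp x m1 m2) u :=
  (m2.continuous.continuousAt.comp (vel0_cont hx)).div
    (m1.continuous.continuousAt.comp (vel0_cont hx)) h.ne'

theorem null_preimage (L : E ≃L[ℝ] ℝ × ℝ) {T : Set (ℝ × ℝ)} (h : volume T = 0) :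
    volume (L ⁻¹' T) = 0 := by
  have := L.isAddHaarMeasure_map (volume : Measure E)
  exact le_zero_iff.1 ((Measure.le_map_apply L.continuous.measurable.aemeasurable T).trans
    (Measure.absolutelyContinuous_isAddHaarMeasure (Measure.map L volume) volume h).le)

/-- endpoints of the geodesic arc with initial point, slope and time -/
noncomputable def ends (g : Met M) (x y : M) (e f : E) (p : E × E) : E × E :=
  (p.1, κ y ((mk g x (p.1, e + p.2 0 • f)).1 (p.2 1)))

theorem ends_smooth (g : Met M) (x y : M) {e f : E} (hne : ∀ s : ℝ, e + s • f ≠ 0) {p : E × E}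
    (h1 : p.1 ∈ (κ x).target) (h2 : (mk g x (p.1, e + p.2 0 • f)).1 (p.2 1) ∈ (κ y).source) :
    ContDiffAt ℝ ∞ (ends g x y e f) p := by
  have a1 := contDiffAt_chart (mk_smooth g x (y := (p.1, e + p.2 0 • f)) h1 (hne _) (p.2 1)) h2
  have a2 : ContDiff ℝ ∞ fun p : E × E => ((p.1, e + p.2 0 • f), p.2 1) := by fun_prop
  exact contDiffAt_fst.prodMk (ContDiffAt.comp (f := fun p : E × E => ((p.1, e + p.2 0 • f), p.2 1))
    p a1 a2.contDiffAt)

theorem null_dir (g : Met M) (x y : M) {e f : E} {m1 m2 : E →L[ℝ] ℝ}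
    (hd : ∀ v, v = m1 v • e + m2 v • f) (he : m1 e = 1) (hf : m1 f = 0) :
    volume (Prod.map (κ x) (κ y) '' {z : M × M | z ∈ (κ x).source ×ˢ (κ y).source ∧
      ∃ (u : UG g) (t : ℝ), u.1 0 = z.1 ∧ u.1 t = z.2 ∧ 0 < m1 (vel x u.1 0) ∧
      ¬ ∀ᶠ x in 𝓝 (u, t), x.1.1 0 = z.1 → x.1.1 x.2 = z.2 → x = (u, t)}) = 0 := by
  have hne : ∀ s : ℝ, e + s • f ≠ 0 := fun s h => by simpa [he, hf] using congrArg m1 h
  have : (volume : Measure (E × E)).IsAddHaarMeasure := Measure.prod.instIsAddHaarMeasure _ _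
  refine measure_mono_null ?_ (addHaar_image_eq_zero_of_det_fderivWithin_eq_zero volume
    (s := {p | (p.1 ∈ (κ x).target ∧ (mk g x (p.1, e + p.2 0 • f)).1 (p.2 1) ∈ (κ y).source) ∧
      (fderiv ℝ (ends g x y e f) p).det = 0}) (f := ends g x y e f)
    (f' := fderiv ℝ (ends g x y e f))
    (fun p hp => ((ends_smooth g x y hne hp.1.1 hp.1.2).differentiableAt
      (by simp)).hasFDerivAt.hasFDerivWithinAt) fun p hp => hp.2)
  rintro _ ⟨⟨p, q⟩, ⟨⟨hp, hq⟩, u, t, rfl, rfl, hu, hn⟩, rfl⟩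
  let P : UG g × ℝ → E × E := fun v => (κ x (v.1.1 0), !₂[slp x m1 m2 v.1, v.2])
  have hP : ∀ v : UG g × ℝ, v.1.1 0 ∈ (κ x).source → 0 < m1 (vel x v.1.1 0) →
      mk g x ((P v).1, e + (P v).2 0 • f) = v.1 := fun v h1 h2 => mk_slp hd v.1 h1 h2
  have hE : ∀ v : UG g × ℝ, v.1.1 0 ∈ (κ x).source → 0 < m1 (vel x v.1.1 0) →
      ends g x y e f (P v) = (κ x (v.1.1 0), κ y (v.1.1 v.2)) := fun v h1 h2 => by
    rw [ends, hP v h1 h2]; rfl
  have hU : (P (u, t)).1 ∈ (κ x).target ∧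
      (mk g x ((P (u, t)).1, e + (P (u, t)).2 0 • f)).1 ((P (u, t)).2 1) ∈ (κ y).source :=
    ⟨(κ x).map_source hp, by rw [hP _ hp hu]; exact hq⟩
  refine ⟨P (u, t), ⟨hU, by_contra fun hdet => hn ?_⟩, hE _ hp hu⟩
  have hs := (ends_smooth g x y hne hU.1 hU.2).hasStrictFDerivAt (by simp)
  rw [← ContinuousLinearMap.coe_toContinuousLinearEquivOfDetNeZero _ hdet] at hs
  have c0 : ContinuousAt (fun v : UG g × ℝ => v.1.1 0) (u, t) :=
    ((ev0_cont g).comp continuous_fst).continuousAt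
  have c1 : ContinuousAt P (u, t) := by
    refine (ContinuousAt.comp (f := fun v : UG g × ℝ => v.1.1 0) (continuousAt_extChartAt' hp)
      c0).prodMk ?_
    have c2 : ContinuousAt (fun v : UG g × ℝ => (slp x m1 m2 v.1, v.2)) (u, t) :=
      (ContinuousAt.comp (f := Prod.fst) (slp_cont m1 m2 hp hu) continuousAt_fst).prodMk
        continuousAt_snd
    exact ContinuousAt.comp (g := fun a : ℝ × ℝ => (!₂[a.1, a.2] : E)) (by fun_prop) c2
  have c3 : ContinuousAt (fun v : UG g × ℝ => m1 (vel x v.1.1 0)) (u, t) :=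
    m1.continuous.continuousAt.comp
      (ContinuousAt.comp (f := Prod.fst) (vel0_cont hp) continuousAt_fst)
  filter_upwards [c1.eventually hs.eventually_left_inverse, c3.eventually (lt_mem_nhds hu)]
    with v h1 h2 h3 h4
  have h5 : v.1.1 0 ∈ (κ x).source := h3 ▸ hp
  rw [hE v h5 h2, h3, h4, ← hE (u, t) hp hu, hs.localInverse_apply_image] at h1
  refine Prod.ext ?_ ?_
  · rw [← hP v h5 h2, ← h1, hP _ hp hu]
  · exact (congrArg (fun p : E × E => p.2 1) h1).symm

end SardX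

open SardX

theorem PreBox.null_arc {g : Met M} {w : UG g} (b : PreBox w) (A : Set (ℝ × ℝ))
    (hA : volume A = 0) :
    {p | ∃ (e : ℝ → UG g) (r : ℝ), 0 < r ∧ ContinuousOn e (Icc 0 r) ∧ InjOn e (Icc 0 r) ∧
      ∀ s ∈ Icc 0 r, (e s).1 0 = p ∧ e s ∈ b.N ∧ b.ζ (e s) ∈ A}ᶜ ∈ aeM M := by
  have hN : ∀ u ∈ b.N, (b.Z (b.ζ u)).1 (-b.τ u) = u.1 0 ∧
      vel (w.1 0) (b.Z (b.ζ u)).1 (-b.τ u) = vel (w.1 0) u.1 0 := fun u hu => by
    rw [← (b.hit_spec hu).2.2, shift_apply, vel_shift, neg_add_cancel]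
    exact ⟨rfl, rfl⟩
  have hS : ∀ u ∈ b.N, u.1 0 ∈ (κ (w.1 0)).source ∧ 0 < b.l1 (vel (w.1 0) u.1 0) := fun u hu => by
    have := b.Z_stay (b.hit_spec hu).1 (t := -b.τ u)
      (by rw [abs_neg]; linarith [(b.hit_spec hu).2.1, b.c_pos])
    rw [(hN u hu).1, (hN u hu).2] at this
    exact ⟨this.1, by linarith [this.2]⟩
  let Γ : (ℝ × ℝ) × ℝ → E := κ (w.1 0) ∘ fun y => (b.Z y.1).1 y.2
  have hΓ : ∀ y ∈ b.D ×ˢ Ioo (-b.c) b.c, ContDiffAt ℝ ∞ Γ y ∧
      fderiv ℝ Γ y (0, 1) = vel (w.1 0) (b.Z y.1).1 y.2 ∧ 0 < b.l1 (fderiv ℝ Γ y (0, 1)) :=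
    fun y hy => by
    have h1 := b.Z_stay hy.1 (t := y.2) (abs_le.2 ⟨by linarith [hy.2.1, b.c_pos],
      by linarith [hy.2.2, b.c_pos]⟩)
    have h2 : ContDiffAt ℝ ∞ Γ y := contDiffAt_chart (b.Z_smooth hy.1 y.2) h1.1
    have h3 : HasDerivAt (fun t : ℝ => (y.1, t)) (0, 1) y.2 :=
      (hasDerivAt_const _ _).prodMk (hasDerivAt_id _)
    have h4 := ((h2.differentiableAt (by simp)).hasFDerivAt.comp_hasDerivAt y.2 h3).deriv
    have h5 : fderiv ℝ Γ y (0, 1) = vel (w.1 0) (b.Z y.1).1 y.2 := h4.symm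
    exact ⟨h2, h5, by rw [h5]; linarith [h1.2]⟩
  let Ψ : (ℝ × ℝ) × ℝ → (ℝ × ℝ) × ℝ := fun y =>
    ((b.l1 (Γ y), b.l2 (Γ y)), b.l2 (fderiv ℝ Γ y (0, 1)) / b.l1 (fderiv ℝ Γ y (0, 1)))
  have hΨ : volume (Ψ '' ((A ∩ b.D) ×ˢ Ioo (-b.c) b.c)) = 0 := by
    have : (volume : Measure (ℝ × ℝ)).IsAddHaarMeasure := Measure.prod.instIsAddHaarMeasure _ _
    have : (volume : Measure ((ℝ × ℝ) × ℝ)).IsAddHaarMeasure :=
      Measure.prod.instIsAddHaarMeasure _ _
    refine addHaar_image_eq_zero_of_differentiableOn_of_addHaar_eq_zero volume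
      (fun y hy => DifferentiableAt.differentiableWithinAt ?_) ?_
    · obtain ⟨h1, -, h3⟩ := hΓ y ⟨hy.1.2, hy.2⟩
      have d1 := h1.differentiableAt (by simp)
      have d2 : DifferentiableAt ℝ (fun y => fderiv ℝ Γ y (0, 1)) y :=
        ((h1.fderiv_right (m := 1) (by norm_cast)).differentiableAt (by simp)).clm_apply
          (differentiableAt_const _)
      simp only [Ψ, div_eq_mul_inv]
      exact ((b.l1.differentiableAt.comp y d1).prodMk (b.l2.differentiableAt.comp y d1)).prodMk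
        ((b.l2.differentiableAt.comp y d2).mul ((differentiableAt_inv h3.ne').comp y
          (b.l1.differentiableAt.comp y d2)))
    · rw [Measure.volume_eq_prod, Measure.prod_prod, measure_mono_null inter_subset_left hA,
        zero_mul]
  let L : E ≃L[ℝ] ℝ × ℝ := ContinuousLinearEquiv.equivOfInverse (b.l1.prod b.l2)
    ((ContinuousLinearMap.fst ℝ ℝ ℝ).smulRight b.e1 + (ContinuousLinearMap.snd ℝ ℝ ℝ).smulRight b.e2)
    (fun v => by simpa using (b.decomp v).symm)
    (fun a => by simp [b.l1_e1, b.l1_e2, b.l2_e1, b.l2_e2])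
  refine compl_mem_aeM_of_chart (x := w.1 0) ?_ (measure_mono_null ?_
    (null_preimage L (Measure.measure_ae_null_of_prod_null hΨ)))
  · rintro p ⟨e, r, hr, -, -, he⟩
    obtain ⟨rfl, h, -⟩ := he 0 ⟨le_rfl, hr.le⟩
    exact (hS _ h).1
  rintro _ ⟨p, ⟨e, r, hr, hc, hi, he⟩, rfl⟩ h0
  have h1 : ContinuousOn (fun s => slp (w.1 0) b.l1 b.l2 (e s)) (uIcc 0 r) := by
    rw [uIcc_of_le hr.le]
    exact fun s hs => (slp_cont _ _ (hS _ (he s hs).2.1).1
      (hS _ (he s hs).2.1).2).comp_continuousWithinAt (hc s hs)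
  have h2 : slp (w.1 0) b.l1 b.l2 (e 0) ≠ slp (w.1 0) b.l1 b.l2 (e r) := fun h => by
    have a0 := he 0 ⟨le_rfl, hr.le⟩
    have a1 := he r ⟨hr.le, le_rfl⟩
    refine hr.ne (hi ⟨le_rfl, hr.le⟩ ⟨hr.le, le_rfl⟩ ?_)
    rw [← mk_slp b.decomp (e 0) (hS _ a0.2.1).1 (hS _ a0.2.1).2, h, a0.1, ← a1.1,
      mk_slp b.decomp (e r) (hS _ a1.2.1).1 (hS _ a1.2.1).2]
  have h3 := measure_mono_null ((intermediate_value_uIcc h1).trans ?_) h0
  · rw [Real.volume_interval, ENNReal.ofReal_eq_zero, abs_nonpos_iff, sub_eq_zero] at h3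
    exact h2 h3.symm
  rintro _ ⟨s, hs, rfl⟩
  rw [uIcc_of_le hr.le] at hs
  obtain ⟨a1, a2, a3⟩ := he s hs
  have a4 := b.hit_spec a2
  have a5 : -b.τ (e s) ∈ Ioo (-b.c) b.c :=
    ⟨by linarith [(abs_lt.1 a4.2.1).2], by linarith [(abs_lt.1 a4.2.1).1]⟩
  refine ⟨(b.ζ (e s), -b.τ (e s)), ⟨⟨a3, a4.1⟩, a5⟩, ?_⟩
  simp only [Ψ, (hΓ (b.ζ (e s), -b.τ (e s)) ⟨a4.1, a5⟩).2.1, (hN _ a2).2]
  simp only [Γ, Function.comp, (hN _ a2).1, a1]
  rfl

/-- for almost every pair of points the geodesic arcs joining them are isolated -/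
theorem nullPairs_not_isolated (g : Met M) :
    NullPairs {z : M × M | ∃ (u : UG g) (t : ℝ), u.1 0 = z.1 ∧ u.1 t = z.2 ∧
      ¬ ∀ᶠ x in 𝓝 (u, t), x.1.1 0 = z.1 → x.1.1 x.2 = z.2 → x = (u, t)} := by
  intro x y
  have key : ∀ (i : Fin 2) (σ : ℝ), σ * σ = 1 → _ := fun i σ hσ =>
    null_dir g x y (e := EuclideanSpace.single i σ) (f := EuclideanSpace.single (i + 1) 1)
      (m1 := σ • EuclideanSpace.proj i) (m2 := EuclideanSpace.proj (i + 1))
      (fun v => by
        ext j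
        fin_cases i <;> fin_cases j <;> simp <;> linear_combination (-v _) * hσ)
      (by simp [hσ]) (by fin_cases i <;> simp)
  refine measure_mono_null ?_ (measure_union_null
    (measure_union_null (key 0 1 (by norm_num)) (key 0 (-1) (by norm_num)))
    (measure_union_null (key 1 1 (by norm_num)) (key 1 (-1) (by norm_num))))
  rintro _ ⟨z, ⟨⟨u, t, h0, h1, hn⟩, hz⟩, rfl⟩
  have hv := u.vel_ne 0 (x := x) (h0 ▸ hz.1)
  rcases lt_trichotomy (vel x u.1 0 0) 0 with h | h | h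
  · exact Or.inl (Or.inr ⟨z, ⟨hz, u, t, h0, h1, by simpa using h, hn⟩, rfl⟩)
  · rcases lt_trichotomy (vel x u.1 0 1) 0 with h' | h' | h'
    · exact Or.inr (Or.inr ⟨z, ⟨hz, u, t, h0, h1, by simpa using h', hn⟩, rfl⟩)
    · exact absurd (by ext j; fin_cases j; exacts [h, h']) hv
    · exact Or.inr (Or.inl ⟨z, ⟨hz, u, t, h0, h1, by simpa using h', hn⟩, rfl⟩)
  · exact Or.inl (Or.inl ⟨z, ⟨hz, u, t, h0, h1, by simpa using h, hn⟩, rfl⟩)

end Pool.Agent.GeoFin
end

-- part Pool.Agent.P.MP_365c00_gt.ZC5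
section

/-! Compact supports, disjoint open sets, relative cycles and boundaries. -/

set_option linter.unusedSectionVars false
set_option linter.unusedVariables false

open Set Topology unitInterval TensorProduct

namespace Pool.Agent.Fu

variable {F : Type} [Field F] {X Y Z : Type} [TopologicalSpace X] [TopologicalSpace Y]
  [TopologicalSpace Z]

theorem zc5_rg (n : ℕ) : ∀ (X : Type) [TopologicalSpace X] (c : Cb n X),
    IsCompact (rg n c) ∧ (rg n c).Nonempty ∧ IsPreconnected (rg n c) := by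
  induction n with
  | zero =>
    intro X _ c
    exact ⟨isCompact_singleton (X := X) (x := c), singleton_nonempty (α := X) c,
      isPreconnected_singleton (α := X) (x := c)⟩
  | succ n ih =>
    intro X _ c
    obtain ⟨h1, h2, h3⟩ := ih C(I, X) c
    have e : rg (n + 1) c =
        (fun p : C(I, X) × I => p.1 p.2) '' (rg n (X := C(I, X)) c ×ˢ (univ : Set I)) := by
      show (⋃ g ∈ rg n (X := C(I, X)) c, range g) = _
      ext x
      simp only [mem_iUnion, mem_range, mem_image, mem_prod, mem_univ, and_true, exists_prop,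
        Prod.exists]
      constructor
      · rintro ⟨g, hg, s, rfl⟩
        exact ⟨g, s, hg, rfl⟩
      · rintro ⟨g, s, hg, rfl⟩
        exact ⟨g, hg, s, rfl⟩
    have hc : Continuous fun p : C(I, X) × I => p.1 p.2 := continuous_eval
    rw [e]
    exact ⟨(h1.prod isCompact_univ).image hc, (h2.prod univ_nonempty).image _,
      (h3.prod isPreconnected_univ).image _ hc.continuousOn⟩

theorem zc5_cube_in {A : Set X} {c : Σ n, Cb n X} (h : rg c.1 c.2 ⊆ A) :
    prj A (cube c : Ch F X) = cube c := by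
  rw [prj_cube, if_pos h]

theorem zc5_cube_out {A B : Set X} (hd : Disjoint A B) {c : Σ n, Cb n X} (h : rg c.1 c.2 ⊆ A) :
    prj B (cube c : Ch F X) = 0 := by
  rw [prj_cube, if_neg]
  intro h'
  obtain ⟨x, hx⟩ := (zc5_rg c.1 X c.2).2.1
  exact Set.disjoint_left.1 hd (h hx) (h' hx)

theorem zc5_rest {ι : Type} {U : ι → Set X} (hU : ∀ i, IsOpen (U i))
    (hd : Pairwise (Function.onFun Disjoint U)) (i : ι) :
    ∃ V, IsOpen V ∧ Disjoint (U i) V ∧ ⋃ j, U j ⊆ U i ∪ V := by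
  refine ⟨⋃ j ∈ {j | j ≠ i}, U j, isOpen_biUnion fun j _ => hU j, ?_, ?_⟩
  · rw [disjoint_iUnion₂_right]
    exact fun j hj => hd (Ne.symm hj)
  · refine iUnion_subset fun j => ?_
    by_cases hj : j = i
    · rw [hj]
      exact subset_union_left
    · exact (subset_biUnion_of_mem (u := U) (show j ∈ {j | j ≠ i} from hj)).trans
        subset_union_right

theorem exists_compact {A : Set X} {c : Ch F X} (h : c ∈ CC F A) :
    ∃ K, IsCompact K ∧ K ⊆ A ∧ c ∈ CC F K := by
  refine CC_span (P := fun c => ∃ K, IsCompact K ∧ K ⊆ A ∧ c ∈ CC F K)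
    ⟨∅, isCompact_empty, empty_subset _, zero_mem _⟩ ?_ ?_ ?_ h
  · rintro a b ⟨K, h1, h2, h3⟩ ⟨L, h4, h5, h6⟩
    exact ⟨K ∪ L, h1.union h4, union_subset h2 h5,
      add_mem (CC_mono subset_union_left h3) (CC_mono subset_union_right h6)⟩
  · rintro r a ⟨K, h1, h2, h3⟩
    exact ⟨K, h1, h2, Submodule.smul_mem _ r h3⟩
  · intro c hc
    exact ⟨_, (zc5_rg c.1 X c.2).1, hc, cube_mem_CC c⟩

/-- a chain on which a continuous function is below `t` stays below a smaller level -/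
theorem exists_level {A : Set X} {f : X → ℝ} (hf : ContinuousOn f A) {t : ℝ} {c : Ch F X}
    (h : c ∈ CC F {x | x ∈ A ∧ f x < t}) : ∃ s < t, c ∈ CC F {x | x ∈ A ∧ f x < s} := by
  obtain ⟨K, h1, h2, h3⟩ := exists_compact h
  rcases K.eq_empty_or_nonempty with rfl | hK
  · exact ⟨t - 1, by linarith, CC_mono (empty_subset _) h3⟩
  · obtain ⟨x₀, hx₀, hm⟩ := h1.exists_isMaxOn hK (hf.mono fun x hx => (h2 hx).1)
    have h4 : f x₀ < t := (h2 hx₀).2
    refine ⟨(f x₀ + t) / 2, by linarith, CC_mono (fun x hx => ?_) h3⟩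
    have h5 : f x ≤ f x₀ := hm hx
    exact ⟨(h2 hx).1, by linarith⟩

theorem exists_level_top {A : Set X} {f : X → ℝ} (hf : ContinuousOn f A) {c : Ch F X}
    (h : c ∈ CC F A) : ∃ s, c ∈ CC F {x | x ∈ A ∧ f x < s} := by
  obtain ⟨K, h1, h2, h3⟩ := exists_compact h
  obtain ⟨M, hM⟩ := h1.bddAbove_image (hf.mono h2)
  refine ⟨M + 1, CC_mono (fun x hx => ?_) h3⟩
  have h5 : f x ≤ M := hM (mem_image_of_mem f hx)
  exact ⟨h2 hx, by linarith⟩

theorem prj_disj {U V : Set X} (hU : IsOpen U) (hV : IsOpen V) (hd : Disjoint U V) {c : Ch F X}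
    (h : c ∈ CC F (U ∪ V)) : prj U c + prj V c = c := by
  refine CC_span (P := fun c => prj U c + prj V c = c) (by simp) ?_ ?_ ?_ h
  · intro a b ha hb
    rw [map_add, map_add, add_add_add_comm, ha, hb]
  · intro r a ha
    rw [map_smul, map_smul, ← smul_add, ha]
  · intro c hc
    rcases (zc5_rg c.1 X c.2).2.2.subset_or_subset hU hV hd hc with h1 | h1
    · rw [zc5_cube_in h1, zc5_cube_out hd h1, add_zero]
    · rw [zc5_cube_in h1, zc5_cube_out hd.symm h1, zero_add]

theorem bd_prj_disj {U V : Set X} (hU : IsOpen U) (hV : IsOpen V) (hd : Disjoint U V)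
    {c : Ch F X} (h : c ∈ CC F (U ∪ V)) : bd (prj U c) = prj U (bd c) := by
  have h1 : prj U (bd (prj U c)) = bd (prj U c) := bd_mem_CC (prj_mem_CC U c)
  have h2 : prj U (bd (prj V c)) = 0 := by
    have h3 := prj_mem_inter U (bd_mem_CC (prj_mem_CC V c))
    rwa [Set.disjoint_iff_inter_eq_empty.1 hd, CC_empty, Submodule.mem_bot] at h3
  calc bd (prj U c) = prj U (bd (prj U c + prj V c)) := by rw [map_add, map_add, h1, h2, add_zero]
    _ = prj U (bd c) := by rw [prj_disj hU hV hd h]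

theorem sum_prj_disj {ι : Type} [Fintype ι] {U : ι → Set X} (hU : ∀ i, IsOpen (U i))
    (hd : Pairwise (Function.onFun Disjoint U)) {c : Ch F X} (h : c ∈ CC F (⋃ i, U i)) :
    ∑ i, prj (U i) c = c ∧ ∀ i, bd (prj (U i) c) = prj (U i) (bd c) := by
  refine ⟨?_, fun i => ?_⟩
  · refine CC_span (P := fun c => ∑ i, prj (U i) c = c) (by simp) ?_ ?_ ?_ h
    · intro a b ha hb
      simp only [map_add, Finset.sum_add_distrib, ha, hb]
    · intro r a ha
      simp only [map_smul, ← Finset.smul_sum, ha]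
    · intro c hc
      obtain ⟨x, hx⟩ := (zc5_rg c.1 X c.2).2.1
      obtain ⟨i, hi⟩ := mem_iUnion.1 (hc hx)
      obtain ⟨V, hV, hdV, hs⟩ := zc5_rest hU hd i
      have h1 : rg c.1 c.2 ⊆ U i :=
        ((zc5_rg c.1 X c.2).2.2.subset_or_subset (hU i) hV hdV (hc.trans hs)).resolve_right
          fun h2 => Set.disjoint_left.1 hdV hi (h2 hx)
      rw [Finset.sum_eq_single i, zc5_cube_in h1]
      · exact fun j _ hj => zc5_cube_out (hd (Ne.symm hj)) h1
      · exact fun hi => absurd (Finset.mem_univ i) hi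
  · obtain ⟨V, hV, hdV, hs⟩ := zc5_rest hU hd i
    exact bd_prj_disj (hU i) hV hdV (CC_mono hs h)

theorem mem_ZZ {A B : Set X} {c : Ch F X} : c ∈ ZZ F A B ↔ c ∈ CC F A ∧ bd c ∈ CC F B := Iff.rfl
theorem mem_BB {A : Set X} {c : Ch F X} : c ∈ BB F A ↔ ∃ h ∈ CC F A, bd h = c := Iff.rfl
theorem mem_NN {A B : Set X} {c : Ch F X} :
    c ∈ NN F A B ↔ ∃ h ∈ CC F A, c - bd h ∈ CC F B := by
  constructor
  · intro hc
    obtain ⟨y, ⟨h, hh, rfl⟩, z, hz, rfl⟩ := Submodule.mem_sup.1 hc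
    exact ⟨h, hh, by rwa [add_sub_cancel_left]⟩
  · rintro ⟨h, hh, hz⟩
    exact Submodule.mem_sup.2 ⟨bd h, ⟨h, hh, rfl⟩, _, hz, add_sub_cancel _ _⟩
theorem BB_mono {A A' : Set X} (h : A ⊆ A') : BB F A ≤ BB F A' := Submodule.map_mono (CC_mono h)
theorem ZZ_mono {A A' B B' : Set X} (h : A ⊆ A') (h' : B ⊆ B') : ZZ F A B ≤ ZZ F A' B' := fun _ hc =>
  ⟨CC_mono h hc.1, CC_mono h' hc.2⟩
theorem NN_mono {A A' B B' : Set X} (h : A ⊆ A') (h' : B ⊆ B') : NN F A B ≤ NN F A' B' :=
  sup_le_sup (BB_mono h) (CC_mono h')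
theorem NN_empty (A : Set X) : NN F A ∅ = BB F A := by
  rw [NN, CC_empty, sup_bot_eq]
theorem mem_ZZ_empty {A : Set X} {c : Ch F X} : c ∈ ZZ F A ∅ ↔ c ∈ CC F A ∧ bd c = 0 := by
  rw [mem_ZZ, CC_empty, Submodule.mem_bot]
theorem BB_le_NN (A B : Set X) : BB F A ≤ NN F A B := le_sup_left
theorem CC_le_NN (A B : Set X) : CC F B ≤ NN F A B := le_sup_right
theorem NN_le_ZZ {A B : Set X} (h : B ⊆ A) : NN F A B ≤ ZZ F A B := by
  refine sup_le ?_ fun c hc => ⟨CC_mono h hc, bd_mem_CC hc⟩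
  rintro _ ⟨y, hy, rfl⟩
  refine mem_ZZ.2 ⟨bd_mem_CC hy, ?_⟩
  rw [bd_bd]
  exact zero_mem _
theorem dg_mem_BB {A : Set X} (k : ℕ) {c : Ch F X} (h : c ∈ BB F A) : dg k c ∈ BB F A := by
  obtain ⟨y, hy, rfl⟩ := h
  exact ⟨dg (k + 1) y, dg_mem_CC _ hy, (dg_bd k y).symm⟩
theorem dg_mem_ZZ {A B : Set X} (k : ℕ) {c : Ch F X} (h : c ∈ ZZ F A B) : dg k c ∈ ZZ F A B := by
  refine mem_ZZ.2 ⟨dg_mem_CC k h.1, ?_⟩
  cases k with
  | zero =>
    rw [bd_dg_zero]
    exact zero_mem _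
  | succ k =>
    rw [← dg_bd]
    exact dg_mem_CC k (mem_ZZ.1 h).2
theorem dg_mem_NN {A B : Set X} (k : ℕ) {c : Ch F X} (h : c ∈ NN F A B) : dg k c ∈ NN F A B := by
  obtain ⟨y, hy, hz⟩ := mem_NN.1 h
  refine mem_NN.2 ⟨dg (k + 1) y, dg_mem_CC _ hy, ?_⟩
  rw [← dg_bd, ← map_sub]
  exact dg_mem_CC k hz
theorem om_mem_NN {A B : Set X} {c : Ch F X} (h : c ∈ NN F A B) : om c ∈ NN F A B := by
  obtain ⟨y, hy, hz⟩ := mem_NN.1 h
  refine mem_NN.2 ⟨-om y, neg_mem (om_mem_CC hy), ?_⟩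
  rw [map_neg, ← om_bd, ← map_sub]
  exact om_mem_CC hz
theorem om_mem_ZZ {A B : Set X} {c : Ch F X} (h : c ∈ ZZ F A B) : om c ∈ ZZ F A B := by
  refine mem_ZZ.2 ⟨om_mem_CC h.1, ?_⟩
  have h1 : bd (om c) = -om (bd c) := by rw [om_bd, neg_neg]
  rw [h1]
  exact neg_mem (om_mem_CC (mem_ZZ.1 h).2)
/-- homogeneous primitives -/
theorem NN_HD {A B : Set X} {k : ℕ} {c : Ch F X} (hk : c ∈ HD F X k) (h : c ∈ NN F A B) :
    ∃ h ∈ CC F A, h ∈ HD F X (k + 1) ∧ c - bd h ∈ CC F B := by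
  obtain ⟨y, hy, hz⟩ := mem_NN.1 h
  refine ⟨dg (k + 1) y, dg_mem_CC _ hy, dg_mem_HD _ y, ?_⟩
  have h1 := dg_mem_CC k hz
  rwa [map_sub, mem_HD.1 hk, dg_bd] at h1
/-- if all relative cycles of all degrees are null, every relative cycle is -/
theorem NN_of_dg {A B A' B' : Set X} {c : Ch F X} (h : c ∈ ZZ F A B)
    (H : ∀ k, ∀ z ∈ ZZ F A B, z ∈ HD F X k → z ∈ NN F A' B') : c ∈ NN F A' B' :=
  mem_of_dg LinearMap.id (NN F A' B') fun k => H k _ (dg_mem_ZZ k h) (dg_mem_HD k c)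
/-- exact sequence of a triple, in the form used for vanishing -/
theorem NN_trans {A B C A' C' : Set X} (hA : A ⊆ A') (hB : B ⊆ A') {k : ℕ} {c : Ch F X}
    (hc : c ∈ ZZ F A C) (hk : c ∈ HD F X k) (h1 : c ∈ NN F A' B)
    (h2 : ∀ z ∈ ZZ F B C, z ∈ HD F X k → z ∈ NN F A' C') : c ∈ NN F A' C' := by
  obtain ⟨y, hy, hyk, hz⟩ := NN_HD hk h1
  have h3 : c - bd y ∈ ZZ F B C := by
    refine mem_ZZ.2 ⟨hz, ?_⟩
    rw [map_sub, bd_bd, sub_zero]
    exact (mem_ZZ.1 hc).2
  have h4 := add_mem (h2 _ h3 (sub_mem hk (bd_mem_HD hyk))) (BB_le_NN A' C' ⟨y, hy, rfl⟩)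
  rwa [sub_add_cancel] at h4
theorem pt_not_mem_BB (A : Set X) (x : X) : (pt x : Ch F X) ∉ BB F A := by
  rintro ⟨y, -, hy⟩
  have h1 := eps_bd y
  rw [hy, eps_pt] at h1
  exact one_ne_zero h1
/-- a cocycle that detects a given chain -/
theorem exists_dual {P : Type} [AddCommGroup P] [Module F P] {S : Submodule F P} {c : P}
    (h : c ∉ S) : ∃ l : P →ₗ[F] F, l c = 1 ∧ ∀ z ∈ S, l z = 0 := by
  obtain ⟨l, h1, h2⟩ := Submodule.exists_dual_map_eq_bot_of_notMem h inferInstance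
  refine ⟨(l c)⁻¹ • l, ?_, fun z hz => ?_⟩
  · rw [LinearMap.smul_apply, smul_eq_mul, inv_mul_cancel₀ h1]
  · have h3 : l z ∈ S.map l := Submodule.mem_map_of_mem hz
    rw [h2, Submodule.mem_bot] at h3
    rw [LinearMap.smul_apply, h3, smul_zero]

end Pool.Agent.Fu
end

-- part Pool.Agent.P.MP_365c00_gt.Main
section

/-!
Assembly.
-/

open Set Filter Topology Metric MeasureTheory
open scoped Manifold ContDiff

namespace Pool.Agent.GeoFin

variable {M : Type*} [TopologicalSpace M] [ChartedSpace E M] [IsManifold (𝓡 2) ∞ M]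
  [T2Space M] [CompactSpace M] [Nonempty M]

/-- the geodesic system of a Riemannian surface -/
noncomputable def sys (g : Met M) : Sys M (UG g) where
  ev u := u.1
  φ := shift
  ae := aeM M
  cif := aeM_cif
  ev_cont := ev_cont g
  φ_cont := shift_cont g
  ev_φ := shift_apply
  ev_inj := fun _ _ h => Subtype.ext (DFunLike.coe_injective h)
  locinj := UG.locinj
  dir := fun u u' T ε hε h => u.dir u' T ε hε h
  open_pos := aeM_open_pos
  null_range := fun u => aeM_null_range u.2.1.1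
  fib_conn := fib_conn g
  fib_ne := fib_ne g
  sec := exists_sec
  cone := aeM_cone g

/-- the box of a prebox -/
noncomputable def PreBox.box {g : Met M} {w : UG g} (b : PreBox w) : Box (sys g) where
  D := b.D
  Z := b.Z
  N := b.N
  τ := b.τ
  ζ := b.ζ
  c := b.c
  c_pos := b.c_pos
  D_open := b.D_open
  N_open := b.N_open
  Z_cont := b.Z_cont
  τ_cont := b.τ_cont
  ζ_cont := b.ζ_cont
  ζ_mem := fun _ h => (b.hit_spec h).1
  τ_lt := fun _ h => (b.hit_spec h).2.1
  φ_τ := fun _ h => (b.hit_spec h).2.2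
  mem_N := fun _ hz _ ht => b.mem_N hz ht
  uniq := fun _ hz _ hz' _ ht h => b.uniq hz hz' ht h
  sweep := fun _ hz _ hz' h => b.sweep hz hz' h
  null_arc := b.null_arc

/-- the atlas of boxes -/
noncomputable def atl (g : Met M) : Atl (sys g) where
  box w := (exists_preBox w).some.box
  η0 w := (exists_preBox w).some.η0
  c_le w := (exists_preBox w).some.c_le
  ctr_mem w := (exists_preBox w).some.ctr_mem
  ctr w := (exists_preBox w).some.Z_ctr
  fib w _ hz := (exists_preBox w).some.fib hz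
  fib_τ w _ hu h := (exists_preBox w).some.fib_τ hu h
  hol_smooth w w' a := (exists_preBox w).some.hol_smooth (exists_preBox w').some a
  holT_smooth w w' a := (exists_preBox w).some.time_smooth (exists_preBox w').some a
  exact w w' a _ hz ξ := (exists_preBox w).some.exact (exists_preBox w').some a hz.1 hz.2 ξ

theorem mem_finPairs (g : Met M) (p q : M) : (p, q) ∈ finPairs g ↔ (sys g).Fin p q := by
  have key : ∀ (u : UG g) {t : ℝ}, 0 < t →
      (fun s => u.1 (t * s + 0)) '' Icc 0 1 = u.1 '' Icc 0 t := by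
    intro u t ht
    ext y
    constructor
    · rintro ⟨s, hs, rfl⟩
      exact ⟨t * s + 0, ⟨by nlinarith [hs.1], by nlinarith [hs.2]⟩, rfl⟩
    · rintro ⟨s, hs, rfl⟩
      refine ⟨s / t, ⟨div_nonneg hs.1 ht.le, (div_le_one ht).2 hs.2⟩, ?_⟩
      simp only [add_zero]
      rw [mul_div_cancel₀ _ ht.ne']
  refine iff_of_eq (congrArg Set.Finite (Set.ext fun S => ⟨?_, ?_⟩))
  · rintro ⟨γ, hγ, ⟨s, -, hs⟩, h0, h1, rfl⟩
    obtain ⟨u, l, hl, hu⟩ := exists_unit hγ hs
    refine ⟨u, l, hl, ?_, ?_, ?_⟩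
    · exact (by simpa using (hu 0).symm : u.1 0 = γ 0).trans h0
    · exact (by simpa using (hu 1).symm : u.1 l = γ 1).trans h1
    · rw [show γ = fun s => u.1 (l * s + 0) from funext fun s => by rw [hu, add_zero]]
      exact key u hl
  · rintro ⟨u, t, ht, h0, h1, rfl⟩
    change u.1 0 = p at h0
    change u.1 t = q at h1
    refine ⟨fun s => u.1 (t * s + 0), u.2.1.affine t 0, ?_, by simpa using h0, by simpa using h1,
      (key u ht).symm⟩
    obtain ⟨ε, hε, hi⟩ := u.locinj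
    have hm : 0 < min (ε / 2) t := lt_min (by linarith) ht
    have hm1 := min_le_left (ε / 2) t
    refine ⟨min (ε / 2) t / t, ⟨by positivity, (div_le_one ht).2 (min_le_right _ _)⟩, fun h => ?_⟩
    simp only [add_zero, mul_zero] at h
    rw [mul_div_cancel₀ _ ht.ne'] at h
    exact hm.ne' (hi ⟨by linarith, by linarith⟩ ⟨by linarith, hε⟩ h)

omit [Nonempty M] in
theorem main [ConnectedSpace M] (g : Met M) : NullPairs (finPairs g)ᶜ ↔
    ∃ τ > 0, ∀ γ : ℝ → M, IsGeodesic g γ → UnitSpeed g γ → Function.Periodic γ τ := by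
  have : SecondCountableTopology M := ChartedSpace.secondCountable_of_sigmaCompact E M
  have : SecondCountableTopology C(ℝ, M) := inferInstance
  have : SecondCountableTopology (UG g) := TopologicalSpace.Subtype.secondCountableTopology _
  constructor
  · intro h
    have h1 : ∀ᶠ p in (sys g).ae, (sys g).Good p :=
      (eventually_of_nullPairs h).mono fun p hp => hp.mono fun q hq => (mem_finPairs g p q).1 hq
    obtain ⟨τ, hτ, hp⟩ := (atl g).common_period h1
    refine ⟨τ, hτ, fun γ hγ hu s => ?_⟩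
    have := shift_apply τ (⟨⟨γ, hγ.1.continuous⟩, hγ, hu⟩ : UG g) s
    rw [show shift τ (⟨⟨γ, hγ.1.continuous⟩, hγ, hu⟩ : UG g) = _ from hp _] at this
    exact this.symm
  · rintro ⟨τ, hτ, hp⟩ x y
    refine measure_mono_null (image_mono (inter_subset_inter_left _ fun z hz => ?_))
      (nullPairs_not_isolated g x y)
    by_contra hn
    refine hz ((mem_finPairs g z.1 z.2).2 ((sys g).fin_of_discrete hτ (fun u => ?_)
      fun u t h0 h1 => ?_))
    · exact (sys g).ev_inj (funext fun s => (shift_apply τ u s).trans (hp _ u.2.1 u.2.2 s))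
    · by_contra hc
      exact hn ⟨u, t, h0, h1, hc⟩

end Pool.Agent.GeoFin
end

-- part Pool.Agent.P.MP_365c00_gt.ZC6
section

/-! Maps that are continuous on a subset. -/

set_option linter.unusedSectionVars false
set_option linter.unusedVariables false

open Set Topology unitInterval TensorProduct

namespace Pool.Agent.Fu

variable {F : Type} [Field F] {X Y Z : Type} [TopologicalSpace X] [TopologicalSpace Y]
  [TopologicalSpace Z]

theorem zc6_pm_pos {f : X → Y} {A : Set X} (hf : ContinuousOn f A) (c : Ch F X) :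
    pm A f c = map ⟨A.domRestrict f, hf.domRestrict⟩ (res A c) := by
  unfold pm
  rw [dif_pos hf]
  rfl

theorem zc6_pm_neg {f : X → Y} {A : Set X} (hf : ¬ ContinuousOn f A) (c : Ch F X) :
    pm A f c = 0 := by
  unfold pm
  rw [dif_neg hf]
  rfl

theorem mp_eq {f : X → Y} {A : Set X} (hf : ContinuousOn f A) {c : Ch F X} (h : c ∈ CC F A) :
    mp f c = map ⟨A.domRestrict f, hf.domRestrict⟩ (res A c) := by
  refine CC_span (P := fun c => mp f c = map ⟨A.domRestrict f, hf.domRestrict⟩ (res A c))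
    ?_ ?_ ?_ ?_ h
  · simp
  · intro a b ha hb
    simp only [map_add, ha, hb]
  · intro r a ha
    simp only [map_smul, ha]
  · intro c hc
    rw [mp_cube, zc6_pm_pos (hf.mono hc)]
    obtain ⟨b, hb⟩ := mem_CC_iff.1 (cube_mem_CC (F := F) c)
    rw [← hb, res_map_incl]
    have e : incl (rg c.1 c.2) = (incl A).comp ⟨Set.inclusion hc, continuous_inclusion hc⟩ := rfl
    rw [e, ← map_map, res_map_incl, map_map]
    rfl

theorem zc6_incl {f : X → Y} {A : Set X} (hf : ContinuousOn f A) (b : Ch F A) :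
    mp f (map (incl A) b) = map ⟨A.domRestrict f, hf.domRestrict⟩ b := by
  rw [mp_eq hf (mem_CC_iff.2 ⟨b, rfl⟩), res_map_incl]

theorem zc6_res_dg (X : Type) [TopologicalSpace X] (c : Ch F X) :
    ∀ (A : Set X) (k : ℕ), dg k (res A c) = res A (dg k c) := by
  induction X, c using ind with
  | h0 => intro A k; simp
  | hadd X a b ha hb => intro A k; simp only [map_add, ha, hb]
  | hsm X r a ha => intro A k; simp only [map_smul, ha]
  | hpt X x =>
    intro A k
    by_cases hx : x ∈ A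
    · cases k with
      | zero => rw [res_pt_mem hx, dg_zero_pt, dg_zero_pt, res_pt_mem hx]
      | succ k => rw [res_pt_mem hx, dg_succ_pt, dg_succ_pt, map_zero]
    · cases k with
      | zero => rw [dg_zero_pt, res_pt_not hx, map_zero]
      | succ k => rw [res_pt_not hx, dg_succ_pt, map_zero, map_zero]
  | hunc X a ha =>
    intro A k
    cases k with
    | zero => rw [res_unc, dg_zero_unc, dg_zero_unc, map_zero]
    | succ k => rw [res_unc, dg_succ_unc, dg_succ_unc, res_unc, dg_map, ha]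

theorem zc6_cube_HD (f : X → Y) (c : Σ n, Cb n X) : mp f (cube c : Ch F X) ∈ HD F Y c.1 := by
  rw [mp_cube]
  by_cases hf : ContinuousOn f (rg c.1 c.2)
  · rw [zc6_pm_pos hf]
    refine map_mem_HD _ (mem_HD.2 ?_)
    rw [zc6_res_dg, mem_HD.1 (cube_mem_HD c)]
  · rw [zc6_pm_neg hf]
    exact zero_mem _

theorem mp_coe (f : C(X, Y)) (c : Ch F X) : mp f c = map f c := by
  obtain ⟨b, rfl⟩ := mem_CC_iff.1 (mem_CC_univ c)
  rw [zc6_incl f.continuous.continuousOn, map_map]
  rfl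
theorem mp_of_cont {f : X → Y} (hf : Continuous f) (c : Ch F X) : mp f c = map ⟨f, hf⟩ c :=
  mp_coe ⟨f, hf⟩ c
theorem mp_id (c : Ch F X) : mp id c = c :=
  (mp_coe (ContinuousMap.id X) c).trans (map_id' c)
@[simp] theorem mp_pt (f : X → Y) (x : X) : mp f (pt x : Ch F X) = pt (f x) := by
  have hx : x ∈ ({x} : Set X) := rfl
  rw [mp_eq (continuousOn_singleton f x) (pt_mem_CC hx), res_pt_mem hx, map_pt]
  rfl
theorem mp_congr {f g : X → Y} {A : Set X} (hfg : EqOn f g A) {c : Ch F X} (h : c ∈ CC F A) :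
    mp f c = mp g c := by
  refine CC_span (P := fun c => mp f c = mp g c) ?_ ?_ ?_ ?_ h
  · simp
  · intro a b ha hb
    simp only [map_add, ha, hb]
  · intro r a ha
    simp only [map_smul, ha]
  · intro c hc
    rw [mp_cube, mp_cube]
    have he : EqOn f g (rg c.1 c.2) := hfg.mono hc
    by_cases hf : ContinuousOn f (rg c.1 c.2)
    · have hg : ContinuousOn g (rg c.1 c.2) := hf.congr he.symm
      rw [zc6_pm_pos hf, zc6_pm_pos hg]
      have e : (⟨(rg c.1 c.2).domRestrict f, hf.domRestrict⟩ : C(rg c.1 c.2, Y)) =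
          ⟨(rg c.1 c.2).domRestrict g, hg.domRestrict⟩ := ContinuousMap.ext fun x => he x.2
      rw [e]
    · rw [zc6_pm_neg hf, zc6_pm_neg fun hg => hf (hg.congr he)]
theorem mp_eq_self {f : X → X} {A : Set X} (hf : ∀ x ∈ A, f x = x) {c : Ch F X}
    (h : c ∈ CC F A) : mp f c = c :=
  (mp_congr (g := id) hf h).trans (mp_id c)
theorem mp_mem_CC {f : X → Y} {A : Set X} {B : Set Y} (hf : MapsTo f A B) {c : Ch F X}
    (h : c ∈ CC F A) : mp f c ∈ CC F B := by
  refine CC_span (P := fun c => mp f c ∈ CC F B) ?_ ?_ ?_ ?_ h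
  · simp
  · intro a b ha hb
    rw [map_add]
    exact add_mem ha hb
  · intro r a ha
    rw [map_smul]
    exact Submodule.smul_mem _ r ha
  · intro c hc
    rw [mp_cube]
    by_cases hf' : ContinuousOn f (rg c.1 c.2)
    · rw [zc6_pm_pos hf']
      exact map_mem_CC (A := univ) (fun x _ => hf (hc x.2)) (mem_CC_univ _)
    · rw [zc6_pm_neg hf']
      exact zero_mem _
theorem dg_mp (k : ℕ) (f : X → Y) (c : Ch F X) : dg k (mp f c) = mp f (dg k c) := by
  refine span_ind (P := fun c => dg k (mp f c) = mp f (dg k c)) ?_ ?_ ?_ ?_ c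
  · simp
  · intro a b ha hb
    simp only [map_add, ha, hb]
  · intro r a ha
    simp only [map_smul, ha]
  · intro c
    by_cases hk : k = c.1
    · rw [hk, mem_HD.1 (zc6_cube_HD f c), mem_HD.1 (cube_mem_HD c)]
    · rw [dg_of_ne (zc6_cube_HD f c) hk, dg_of_ne (cube_mem_HD c) hk, map_zero]
theorem mp_mem_HD {k : ℕ} (f : X → Y) {c : Ch F X} (h : c ∈ HD F X k) : mp f c ∈ HD F Y k := by
  rw [mem_HD, dg_mp, mem_HD.1 h]
theorem om_mp (f : X → Y) (c : Ch F X) : om (mp f c) = mp f (om c) := by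
  refine span_ind (P := fun c => om (mp f c) = mp f (om c)) ?_ ?_ ?_ ?_ c
  · simp
  · intro a b ha hb
    simp only [map_add, ha, hb]
  · intro r a ha
    simp only [map_smul, ha]
  · intro c
    rw [om_of_HD (zc6_cube_HD f c), om_of_HD (cube_mem_HD c), map_smul]
theorem bd_mp {f : X → Y} {A : Set X} (hf : ContinuousOn f A) {c : Ch F X} (h : c ∈ CC F A) :
    bd (mp f c) = mp f (bd c) := by
  obtain ⟨b, rfl⟩ := mem_CC_iff.1 h
  rw [zc6_incl hf, bd_map, bd_map, zc6_incl hf]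
theorem eps_mp {f : X → Y} {A : Set X} (hf : ContinuousOn f A) {c : Ch F X} (h : c ∈ CC F A) :
    eps (mp f c) = eps c := by
  obtain ⟨b, rfl⟩ := mem_CC_iff.1 h
  rw [zc6_incl hf, eps_map, eps_map]
theorem sd_mp {f : X → Y} {A : Set X} (hf : ContinuousOn f A) {c : Ch F X} (h : c ∈ CC F A) :
    sd (mp f c) = mp f (sd c) := by
  obtain ⟨b, rfl⟩ := mem_CC_iff.1 h
  rw [zc6_incl hf, sd_map, sd_map, zc6_incl hf]
theorem mp_mp {f : X → Y} {g : Y → Z} {A : Set X} {B : Set Y} (hf : ContinuousOn f A)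
    (hg : ContinuousOn g B) (hAB : MapsTo f A B) {c : Ch F X} (h : c ∈ CC F A) :
    mp g (mp f c) = mp (g ∘ f) c := by
  obtain ⟨b, rfl⟩ := mem_CC_iff.1 h
  rw [zc6_incl hf, zc6_incl (hg.comp hf hAB)]
  have e : (⟨A.domRestrict f, hf.domRestrict⟩ : C(A, Y)) = (incl B).comp
      ⟨fun x => ⟨f x.1, hAB x.2⟩, hf.domRestrict.subtype_mk _⟩ := rfl
  rw [e, ← map_map, zc6_incl hg, map_map]
  rfl
theorem mp_map (f : C(X, Y)) (g : Y → Z) {B : Set Y} (hg : ContinuousOn g B) {c : Ch F X}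
    (h : c ∈ CC F (f ⁻¹' B)) : mp g (map f c) = mp (g ∘ f) c := by
  rw [← mp_coe]
  exact mp_mp f.continuous.continuousOn hg (fun x hx => hx) h
theorem map_mp {f : X → Y} (g : C(Y, Z)) {A : Set X} (hf : ContinuousOn f A) {c : Ch F X}
    (h : c ∈ CC F A) : map g (mp f c) = mp (g ∘ f) c := by
  rw [← mp_coe]
  exact mp_mp (B := univ) hf g.continuous.continuousOn (fun x _ => mem_univ _) h
theorem mp_mem_BB {f : X → Y} {A : Set X} {A' : Set Y} (hf : ContinuousOn f A)
    (hA : MapsTo f A A') {c : Ch F X} (h : c ∈ BB F A) : mp f c ∈ BB F A' := by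
  obtain ⟨b, hb, rfl⟩ := mem_BB.1 h
  exact mem_BB.2 ⟨mp f b, mp_mem_CC hA hb, bd_mp hf hb⟩
theorem mp_mem_ZZ {f : X → Y} {A B : Set X} {A' B' : Set Y} (hf : ContinuousOn f A)
    (hA : MapsTo f A A') (hB : MapsTo f (A ∩ B) B') {c : Ch F X} (h : c ∈ ZZ F A B) :
    mp f c ∈ ZZ F A' B' := by
  obtain ⟨h1, h2⟩ := mem_ZZ.1 h
  refine mem_ZZ.2 ⟨mp_mem_CC hA h1, ?_⟩
  rw [bd_mp hf h1]
  refine mp_mem_CC hB ?_
  rw [CC_inter]
  exact ⟨bd_mem_CC h1, h2⟩
theorem mp_mem_NN {f : X → Y} {A B : Set X} {A' B' : Set Y} (hf : ContinuousOn f A)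
    (hA : MapsTo f A A') (hB : MapsTo f B B') {c : Ch F X} (h : c ∈ NN F A B) :
    mp f c ∈ NN F A' B' := by
  obtain ⟨a, ha, b, hb, rfl⟩ := Submodule.mem_sup.1 h
  rw [map_add]
  exact Submodule.add_mem_sup (mp_mem_BB hf hA ha) (mp_mem_CC hB hb)
theorem mp_const (y : Y) (c : Ch F X) : mp (fun _ => y) c = eps c • pt y :=
  (mp_coe (ContinuousMap.const X y) c).trans (map_const y c)

end Pool.Agent.Fu
end

-- part Pool.Agent.P.MP_365c00_gt.ZC7
section

/-! The cross product and homotopies. -/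

set_option linter.unusedSectionVars false
set_option linter.unusedVariables false

open Set Topology unitInterval TensorProduct

namespace Pool.Agent.Fu

variable {F : Type} [Field F] {X Y Z : Type} [TopologicalSpace X] [TopologicalSpace Y]
  [TopologicalSpace Z]

theorem cross_map_right (g : C(Y, Z)) (a : Ch F X) (b : Ch F Y) :
    cross a (map g b) = map ((ContinuousMap.id X).prodMap g) (cross a b) := by
  induction X, a using ind with
  | h0 => simp
  | hadd X a a' ha ha' => simp only [map_add, LinearMap.add_apply, ha, ha']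
  | hsm X r a ha => simp only [map_smul, LinearMap.smul_apply, ha]
  | hpt X x => simp only [cross_pt, map_map]; rfl
  | hunc X a ha => simp only [cross_unc, ha, map_unc, map_map]; rfl

theorem cross_map {X' Y' : Type} [TopologicalSpace X'] [TopologicalSpace Y'] (f : C(X, X'))
    (g : C(Y, Y')) (a : Ch F X) (b : Ch F Y) :
    cross (map f a) (map g b) = map (f.prodMap g) (cross a b) := by
  rw [cross_map_left, cross_map_right, map_map]; rfl

theorem bd_cross (a : Ch F X) (b : Ch F Y) :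
    bd (cross a b) = cross (bd a) b + cross (om a) (bd b) := by
  induction X, a using ind with
  | h0 => simp
  | hadd X a a' ha ha' => simp only [map_add, LinearMap.add_apply, ha, ha']; abel
  | hsm X r a ha => simp only [map_smul, LinearMap.smul_apply, ha]; rw [smul_add]
  | hpt X x => simp only [cross_pt, bd_map, bd_pt, om_pt, map_zero, LinearMap.zero_apply, zero_add]
  | hunc X a ha =>
    have e : ∀ s : I, (ev (X × Y) s).comp (prL X Y) = (ev X s).prodMap (ContinuousMap.id Y) :=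
      fun s => rfl
    simp only [cross_unc, bd_unc, bd_map, ha, om_unc, map_map, e, map_sub, map_add, map_neg,
      LinearMap.sub_apply, LinearMap.neg_apply, cross_map_left]
    abel

theorem om_cross (a : Ch F X) (b : Ch F Y) : om (cross a b) = cross (om a) (om b) := by
  induction X, a using ind with
  | h0 => simp
  | hadd X a a' ha ha' => simp only [map_add, LinearMap.add_apply, ha, ha']
  | hsm X r a ha => simp only [map_smul, LinearMap.smul_apply, ha]
  | hpt X x => simp only [cross_pt, om_map, om_pt]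
  | hunc X a ha => simp only [cross_unc, om_unc, om_map, ha, map_neg, LinearMap.neg_apply]

theorem eps_cross (a : Ch F X) (b : Ch F Y) : eps (cross a b) = eps a * eps b := by
  induction X, a using ind with
  | h0 => simp
  | hadd X a a' ha ha' => simp only [map_add, LinearMap.add_apply, ha, ha']; ring
  | hsm X r a ha => simp only [map_smul, LinearMap.smul_apply, ha]; simp only [smul_eq_mul, mul_assoc]
  | hpt X x => simp only [cross_pt, eps_map, eps_pt, one_mul]
  | hunc X a ha => simp only [cross_unc, eps_unc, zero_mul]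

theorem cross_pt_right (a : Ch F X) (y : Y) :
    cross a (pt y : Ch F Y) = map ⟨fun x => (x, y), by fun_prop⟩ a := by
  induction X, a using ind with
  | h0 => simp
  | hadd X a a' ha ha' => simp only [map_add, LinearMap.add_apply, ha, ha']
  | hsm X r a ha => simp only [map_smul, LinearMap.smul_apply, ha]
  | hpt X x => simp only [cross_pt, map_pt]; rfl
  | hunc X a ha => simp only [cross_unc, ha, map_unc, map_map]; rfl

theorem cross_unc_right (a : Ch F X) (b : Ch F C(I, Y)) :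
    cross a (unc b) = unc (map (prR X Y) (cross (om a) b)) := by
  induction X, a using ind with
  | h0 => simp
  | hadd X a a' ha ha' => simp only [map_add, LinearMap.add_apply, ha, ha']
  | hsm X r a ha => simp only [map_smul, LinearMap.smul_apply, ha]
  | hpt X x => simp only [cross_pt, om_pt, map_unc, map_map]; rfl
  | hunc X a ha =>
    have e : (post (prL X Y)).comp (prR C(I, X) Y) =
        (flp (X × Y)).comp ((post (prR X Y)).comp (prL X C(I, Y))) := rfl
    simp only [cross_unc, ha, om_unc, map_unc, map_map, map_neg, LinearMap.neg_apply, e]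
    rw [← map_map (flp _), unc_flp]

theorem cross_assoc (a : Ch F X) (b : Ch F Y) (c : Ch F Z) :
    map ⟨Homeomorph.prodAssoc X Y Z, (Homeomorph.prodAssoc X Y Z).continuous⟩
      (cross (cross a b) c) = cross a (cross b c) := by
  induction X, a using ind with
  | h0 => simp
  | hadd X a a' ha ha' => simp only [map_add, LinearMap.add_apply, ha, ha']
  | hsm X r a ha => simp only [map_smul, LinearMap.smul_apply, ha]
  | hpt X x => simp only [cross_pt, cross_map_left, map_map]; rfl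
  | hunc X a ha => simp only [cross_unc, cross_map_left, ← ha, map_unc, map_map]; rfl

theorem cross_swap {j k : ℕ} {a : Ch F X} {b : Ch F Y} (ha : a ∈ HD F X j) (hb : b ∈ HD F Y k) :
    map ⟨Prod.swap, continuous_swap⟩ (cross a b) = (-1 : F) ^ (j * k) • cross b a := by
  have key : ∀ j, map ⟨Prod.swap, continuous_swap⟩ (cross (dg j a) b) =
      (-1 : F) ^ (j * k) • cross b (dg j a) := by
    clear ha
    induction X, a using ind with
    | h0 => simp
    | hadd X a a' ha ha' => intro j; simp only [map_add, LinearMap.add_apply, ha, ha', smul_add]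
    | hsm X r a ha => intro j; simp only [map_smul, LinearMap.smul_apply, ha]; rw [smul_comm]
    | hpt X x =>
      intro j
      cases j with
      | zero =>
        simp only [dg_zero_pt, cross_pt, cross_pt_right, map_map, zero_mul, pow_zero, one_smul]
        rfl
      | succ j => simp
    | hunc X a ha =>
      intro j
      cases j with
      | zero => simp
      | succ j =>
        have e : (post ⟨Prod.swap, continuous_swap⟩).comp (prL X Y) =
          (prR Y X).comp ⟨Prod.swap, continuous_swap⟩ := rfl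
        rw [dg_succ_unc, cross_unc, cross_unc_right, map_unc, map_map, e, ← map_map, ha,
          om_of_HD hb]
        simp only [map_smul, LinearMap.smul_apply, smul_smul]
        congr 1
        rw [add_mul, one_mul, pow_add, mul_assoc, ← mul_pow]
        simp
  have := key j
  rwa [mem_HD.1 ha] at this

theorem cross_mem_HD {j k : ℕ} {a : Ch F X} {b : Ch F Y} (ha : a ∈ HD F X j)
    (hb : b ∈ HD F Y k) : cross a b ∈ HD F (X × Y) (j + k) := by
  have key : ∀ j, cross (dg j a) b ∈ HD F (X × Y) (j + k) := by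
    clear ha
    induction X, a using ind with
    | h0 => simp
    | hadd X a a' ha ha' =>
      intro j; simp only [map_add, LinearMap.add_apply]; exact add_mem (ha j) (ha' j)
    | hsm X r a ha =>
      intro j; simp only [map_smul, LinearMap.smul_apply]; exact Submodule.smul_mem _ r (ha j)
    | hpt X x =>
      intro j
      cases j with
      | zero => rw [dg_zero_pt, cross_pt, zero_add]; exact map_mem_HD _ hb
      | succ j => simp
    | hunc X a ha =>
      intro j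
      cases j with
      | zero => simp
      | succ j =>
        rw [dg_succ_unc, cross_unc, add_right_comm]
        exact unc_mem_HD (map_mem_HD _ (ha j))
  have := key j
  rwa [mem_HD.1 ha] at this

theorem cross_mem_CC {A : Set X} {B : Set Y} {a : Ch F X} {b : Ch F Y} (ha : a ∈ CC F A)
    (hb : b ∈ CC F B) : cross a b ∈ CC F (A ×ˢ B) := by
  obtain ⟨a, rfl⟩ := mem_CC_iff.1 ha
  obtain ⟨b, rfl⟩ := mem_CC_iff.1 hb
  rw [cross_map]
  exact map_mem_CC (A := univ) (fun z _ => mk_mem_prod z.1.2 z.2.2) (mem_CC_univ _)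

theorem cross_mp {X' Y' : Type} [TopologicalSpace X'] [TopologicalSpace Y'] {f : X → X'}
    {g : Y → Y'} {A : Set X} {B : Set Y} (hf : ContinuousOn f A) (hg : ContinuousOn g B)
    {a : Ch F X} {b : Ch F Y} (ha : a ∈ CC F A) (hb : b ∈ CC F B) :
    cross (mp f a) (mp g b) = mp (Prod.map f g) (cross a b) := by
  rw [mp_eq hf ha, mp_eq hg hb, cross_map]
  obtain ⟨a, rfl⟩ := mem_CC_iff.1 ha
  obtain ⟨b, rfl⟩ := mem_CC_iff.1 hb
  have hsub : (univ : Set (A × B)) ⊆ (incl A).prodMap (incl B) ⁻¹' (A ×ˢ B) :=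
    fun z _ => mk_mem_prod z.1.2 z.2.2
  rw [res_map_incl, res_map_incl, cross_map, mp_map _ _ (hf.prodMap hg)
    (CC_mono hsub (mem_CC_univ _)), ← mp_coe]
  rfl

theorem cross_mem_ZZ {A A' : Set X} {B B' : Set Y} {a : Ch F X} {b : Ch F Y}
    (ha : a ∈ ZZ F A A') (hb : b ∈ ZZ F B B') :
    cross a b ∈ ZZ F (A ×ˢ B) (A' ×ˢ B ∪ A ×ˢ B') := by
  refine mem_ZZ.2 ⟨cross_mem_CC ha.1 hb.1, ?_⟩
  rw [bd_cross]
  exact add_mem (CC_mono subset_union_left (cross_mem_CC (mem_ZZ.1 ha).2 hb.1))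
    (CC_mono subset_union_right (cross_mem_CC (om_mem_CC ha.1) (mem_ZZ.1 hb).2))

theorem cross_NN_left {A A' : Set X} {B B' : Set Y} {a : Ch F X} {b : Ch F Y}
    (ha : a ∈ NN F A A') (hb : b ∈ ZZ F B B') :
    cross a b ∈ NN F (A ×ˢ B) (A' ×ˢ B ∪ A ×ˢ B') := by
  obtain ⟨h, hh, hc⟩ := mem_NN.1 ha
  refine mem_NN.2 ⟨cross h b, cross_mem_CC hh hb.1, ?_⟩
  have e : cross a b - bd (cross h b) = cross (a - bd h) b - cross (om h) (bd b) := by
    rw [bd_cross, map_sub, LinearMap.sub_apply]; abel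
  rw [e]
  exact sub_mem (CC_mono subset_union_left (cross_mem_CC hc hb.1))
    (CC_mono subset_union_right (cross_mem_CC (om_mem_CC hh) (mem_ZZ.1 hb).2))

theorem cross_NN_right {A A' : Set X} {B B' : Set Y} {a : Ch F X} {b : Ch F Y}
    (ha : a ∈ ZZ F A A') (hb : b ∈ NN F B B') :
    cross a b ∈ NN F (A ×ˢ B) (A' ×ˢ B ∪ A ×ˢ B') := by
  obtain ⟨h, hh, hc⟩ := mem_NN.1 hb
  refine mem_NN.2 ⟨cross (om a) h, cross_mem_CC (om_mem_CC ha.1) hh, ?_⟩
  have e : cross a b - bd (cross (om a) h) = cross a (b - bd h) - cross (bd (om a)) h := by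
    rw [bd_cross, om_om, map_sub]; abel
  rw [e]
  exact sub_mem (CC_mono subset_union_right (cross_mem_CC ha.1 hc))
    (CC_mono subset_union_left (cross_mem_CC (mem_ZZ.1 (om_mem_ZZ ha)).2 hh))


end Pool.Agent.Fu
end

-- part Pool.Agent.P.MP_365c00_gt.ZC8
section

/-! Prisms. -/

set_option linter.unusedSectionVars false
set_option linter.unusedVariables false

open Set Topology unitInterval TensorProduct

namespace Pool.Agent.Fu

variable {F : Type} [Field F] {X Y Z : Type} [TopologicalSpace X] [TopologicalSpace Y]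
  [TopologicalSpace Z]

variable (F) in
/-- the unit interval as a chain -/
noncomputable def iota : Ch F ℝ := unc (pt (⟨Subtype.val, continuous_subtype_val⟩ : C(I, ℝ)))

/-- the prism of a homotopy -/
noncomputable def prism (H : ℝ × X → Y) : Ch F X →ₗ[F] Ch F Y := mp H ∘ₗ cross (iota F)

theorem bd_iota : bd (iota F) = pt 1 - pt 0 := by
  unfold iota
  rw [bd_unc, map_pt, map_pt, bd_pt, map_zero, sub_zero]
  rfl
theorem iota_mem_CC : iota F ∈ CC F (Icc (0 : ℝ) 1) :=
  unc_mem_CC (pt_mem_CC fun s => s.2)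
theorem iota_mem_HD : iota F ∈ HD F ℝ 1 := unc_mem_HD (pt_mem_HD _)

theorem om_iota : om (iota F) = - iota F := by
  unfold iota
  rw [om_unc, om_pt]

theorem mp_cross_pt {H : ℝ × X → Y} {A : Set X} (hH : ContinuousOn H (Icc 0 1 ×ˢ A)) {u : ℝ}
    (hu : u ∈ Icc (0 : ℝ) 1) {c : Ch F X} (h : c ∈ CC F A) :
    mp H (cross (pt u : Ch F ℝ) c) = mp (fun x => H (u, x)) c := by
  have hs : A ⊆ (⟨fun y => (u, y), by fun_prop⟩ : C(X, ℝ × X)) ⁻¹' (Icc (0 : ℝ) 1 ×ˢ A) :=
    fun x hx => ⟨hu, hx⟩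
  rw [cross_pt, mp_map _ H hH (CC_mono hs h)]
  rfl

theorem prism_apply (H : ℝ × X → Y) (c : Ch F X) : prism H c = mp H (cross (iota F) c) := rfl

theorem bd_prism {H : ℝ × X → Y} {A : Set X} (hH : ContinuousOn H (Icc 0 1 ×ˢ A)) {c : Ch F X}
    (h : c ∈ CC F A) :
    bd (prism H c) + prism H (bd c) = mp (fun x => H (1, x)) c - mp (fun x => H (0, x)) c := by
  rw [prism_apply, prism_apply, bd_mp hH (cross_mem_CC iota_mem_CC h), bd_cross, bd_iota, om_iota,
    map_sub, map_neg, LinearMap.sub_apply, LinearMap.neg_apply, map_add, map_neg, map_sub,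
    mp_cross_pt hH ⟨zero_le_one, le_rfl⟩ h, mp_cross_pt hH ⟨le_rfl, zero_le_one⟩ h]
  abel
theorem prism_mem_CC {H : ℝ × X → Y} {A : Set X} {B : Set Y} (hH : MapsTo H (Icc 0 1 ×ˢ A) B)
    {c : Ch F X} (h : c ∈ CC F A) : prism H c ∈ CC F B :=
  mp_mem_CC hH (cross_mem_CC iota_mem_CC h)
theorem prism_mem_HD (H : ℝ × X → Y) {k : ℕ} {c : Ch F X} (h : c ∈ HD F X k) :
    prism H c ∈ HD F Y (k + 1) := by
  rw [add_comm k 1]
  exact mp_mem_HD H (cross_mem_HD iota_mem_HD h)
/-- the prism of an equivariant homotopy is equivariant -/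
theorem prism_equiv {H : ℝ × X → Y} {A : Set X} (hH : ContinuousOn H (Icc 0 1 ×ˢ A))
    (s : C(X, X)) (s' : C(Y, Y)) (hs : MapsTo s A A)
    (he : ∀ u ∈ Icc (0 : ℝ) 1, ∀ x ∈ A, H (u, s x) = s' (H (u, x))) {c : Ch F X}
    (h : c ∈ CC F A) : prism H (map s c) = map s' (prism H c) := by
  have hc := cross_mem_CC (iota_mem_CC (F := F)) h
  have hm : Icc (0 : ℝ) 1 ×ˢ A ⊆ ((ContinuousMap.id ℝ).prodMap s) ⁻¹' (Icc (0 : ℝ) 1 ×ˢ A) :=
    fun w hw => ⟨hw.1, hs hw.2⟩
  rw [prism_apply, prism_apply, cross_map_right, map_mp s' hH hc, mp_map _ H hH (CC_mono hm hc)]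
  exact mp_congr (fun w hw => he w.1 hw.1 w.2 hw.2) hc

/-- homotopic maps of pairs -/
theorem htp_NN {H : ℝ × X → Y} {A B : Set X} {A' B' : Set Y} {f g : X → Y}
    (hH : ContinuousOn H (Icc 0 1 ×ˢ A)) (hA : MapsTo H (Icc 0 1 ×ˢ A) A')
    (hB : MapsTo H (Icc 0 1 ×ˢ (A ∩ B)) B') (h0 : ∀ x ∈ A, H (0, x) = f x)
    (h1 : ∀ x ∈ A, H (1, x) = g x) {c : Ch F X} (h : c ∈ ZZ F A B) :
    mp g c - mp f c ∈ NN F A' B' := by
  obtain ⟨hc, hb⟩ := mem_ZZ.1 h
  have hb' : bd c ∈ CC F (A ∩ B) := by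
    rw [CC_inter]
    exact ⟨bd_mem_CC hc, hb⟩
  rw [← mp_congr (f := fun x => H (1, x)) h1 hc, ← mp_congr (f := fun x => H (0, x)) h0 hc,
    ← bd_prism hH hc]
  exact add_mem (BB_le_NN _ _ (mem_BB.2 ⟨_, prism_mem_CC hA hc, rfl⟩))
    (CC_le_NN _ _ (prism_mem_CC hB hb'))

/-- a map homotopic to the identity -/
theorem htp_id_NN {H : ℝ × X → X} {A B A' B' : Set X} {g : X → X}
    (hH : ContinuousOn H (Icc 0 1 ×ˢ A)) (hA : MapsTo H (Icc 0 1 ×ˢ A) A')
    (hB : MapsTo H (Icc 0 1 ×ˢ (A ∩ B)) B') (h0 : ∀ x ∈ A, H (0, x) = x)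
    (h1 : ∀ x ∈ A, H (1, x) = g x) {c : Ch F X} (h : c ∈ ZZ F A B) :
    mp g c - c ∈ NN F A' B' := by
  have := htp_NN (f := id) hH hA hB h0 h1 h
  rwa [mp_id] at this

/-- cycles in a star shaped set -/
theorem star_BB {W : Type} [NormedAddCommGroup W] [NormedSpace ℝ W] {A : Set W} {a : W}
    (hA : StarConvex ℝ a A) {c : Ch F W} (h : c ∈ CC F A) (hc : bd c = 0) :
    c - eps c • pt a ∈ BB F A := by
  have := htp_NN (F := F) (H := fun w : ℝ × W => (1 - w.1) • a + w.1 • w.2) (A := A) (B := ∅)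
    (A' := A) (B' := ∅) (f := fun _ => a) (g := id) (by fun_prop)
    (fun w hw => hA hw.2 (sub_nonneg.2 hw.1.2) hw.1.1 (sub_add_cancel _ _))
    (fun w hw => hw.2.2.elim) (fun x _ => by simp) (fun x _ => by simp) (mem_ZZ_empty.2 ⟨h, hc⟩)
  rwa [mp_id, mp_const, NN_empty] at this

/-- homotopies can be composed: the relation used for path spaces.  `R x y` is what is known
about the track of the point `x` -/
def Htp (A : Set X) (R : X → Y → Prop) (f g : X → Y) : Prop :=
  ∃ H : ℝ × X → Y, ContinuousOn H (Icc 0 1 ×ˢ A) ∧ (∀ x ∈ A, H (0, x) = f x) ∧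
    (∀ x ∈ A, H (1, x) = g x) ∧ ∀ u ∈ Icc (0 : ℝ) 1, ∀ x ∈ A, R x (H (u, x))

theorem Htp.refl {A : Set X} {R : X → Y → Prop} {f : X → Y} (hf : ContinuousOn f A)
    (h : ∀ x ∈ A, R x (f x)) : Htp A R f f :=
  ⟨fun w => f w.2, hf.comp continuous_snd.continuousOn fun w hw => hw.2, fun _ _ => rfl,
    fun _ _ => rfl, fun _ _ x hx => h x hx⟩
theorem Htp.symm {A : Set X} {R : X → Y → Prop} {f g : X → Y} (h : Htp A R f g) : Htp A R g f := by
  obtain ⟨H, hH, h0, h1, hR⟩ := h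
  have hm : ∀ u ∈ Icc (0 : ℝ) 1, 1 - u ∈ Icc (0 : ℝ) 1 := fun u hu =>
    ⟨by linarith [hu.2], by linarith [hu.1]⟩
  refine ⟨fun w => H (1 - w.1, w.2), hH.comp (by fun_prop) fun w hw => ⟨hm _ hw.1, hw.2⟩,
    fun x hx => ?_, fun x hx => ?_, fun u hu x hx => hR _ (hm u hu) x hx⟩
  · simpa using h1 x hx
  · simpa using h0 x hx
theorem Htp.trans {A : Set X} {R : X → Y → Prop} {f g k : X → Y} (h : Htp A R f g)
    (h' : Htp A R g k) : Htp A R f k := by
  obtain ⟨H, hH, h0, h1, hR⟩ := h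
  obtain ⟨G, hG, g0, g1, gR⟩ := h'
  have ha : ∀ u ∈ Icc (0 : ℝ) 1, min (2 * u) 1 ∈ Icc (0 : ℝ) 1 := fun u hu =>
    ⟨le_min (by linarith [hu.1]) zero_le_one, min_le_right _ _⟩
  have hb : ∀ u ∈ Icc (0 : ℝ) 1, max (2 * u - 1) 0 ∈ Icc (0 : ℝ) 1 := fun u hu =>
    ⟨le_max_right _ _, max_le (by linarith [hu.2]) zero_le_one⟩
  have c1 : ContinuousOn (fun w : ℝ × X => H (min (2 * w.1) 1, w.2)) (Icc 0 1 ×ˢ A) :=
    hH.comp (by fun_prop) fun w hw => ⟨ha _ hw.1, hw.2⟩
  have c2 : ContinuousOn (fun w : ℝ × X => G (max (2 * w.1 - 1) 0, w.2)) (Icc 0 1 ×ˢ A) :=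
    hG.comp (by fun_prop) fun w hw => ⟨hb _ hw.1, hw.2⟩
  refine ⟨fun w => if w.1 ≤ 1 / 2 then H (min (2 * w.1) 1, w.2) else G (max (2 * w.1 - 1) 0, w.2),
    ?_, fun x hx => ?_, fun x hx => ?_, fun u hu x hx => ?_⟩
  · rw [continuousOn_iff_continuous_domRestrict] at c1 c2 ⊢
    refine Continuous.if_le (f := fun w : (Icc (0 : ℝ) 1 ×ˢ A : Set (ℝ × X)) => w.1.1)
      (g := fun _ => (1 / 2 : ℝ)) c1 c2 (by fun_prop) continuous_const fun w hw => ?_
    have e1 : min (2 * w.1.1) 1 = 1 := by rw [hw]; norm_num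
    have e2 : max (2 * w.1.1 - 1) 0 = 0 := by rw [hw]; norm_num
    show H (min (2 * w.1.1) 1, w.1.2) = G (max (2 * w.1.1 - 1) 0, w.1.2)
    rw [e1, e2, h1 _ w.2.2, g0 _ w.2.2]
  · have e1 : min (2 * (0 : ℝ)) 1 = 0 := by norm_num
    show (if (0 : ℝ) ≤ 1 / 2 then H (min (2 * 0) 1, x) else G (max (2 * 0 - 1) 0, x)) = f x
    rw [if_pos (by norm_num), e1, h0 x hx]
  · have e2 : max (2 * (1 : ℝ) - 1) 0 = 1 := by norm_num
    show (if (1 : ℝ) ≤ 1 / 2 then H (min (2 * 1) 1, x) else G (max (2 * 1 - 1) 0, x)) = k x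
    rw [if_neg (by norm_num), e2, g1 x hx]
  · show R x (if u ≤ 1 / 2 then H (min (2 * u) 1, x) else G (max (2 * u - 1) 0, x))
    split_ifs
    · exact hR _ (ha u hu) x hx
    · exact gR _ (hb u hu) x hx
theorem Htp.mono {A A' : Set X} {R R' : X → Y → Prop} {f g : X → Y} (h : Htp A R f g)
    (hA : A' ⊆ A) (hR : ∀ x ∈ A', ∀ y, R x y → R' x y) : Htp A' R' f g := by
  obtain ⟨H, hH, h0, h1, hT⟩ := h
  exact ⟨H, hH.mono (prod_mono subset_rfl hA), fun x hx => h0 x (hA hx), fun x hx => h1 x (hA hx),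
    fun u hu x hx => hR x hx _ (hT u hu x (hA hx))⟩
theorem Htp.congr {A : Set X} {R : X → Y → Prop} {f g f' g' : X → Y} (h : Htp A R f g)
    (hf : EqOn f f' A) (hg : EqOn g g' A) : Htp A R f' g' := by
  obtain ⟨H, hH, h0, h1, hT⟩ := h
  exact ⟨H, hH, fun x hx => (h0 x hx).trans (hf hx), fun x hx => (h1 x hx).trans (hg hx), hT⟩
theorem Htp.cont_left {A : Set X} {R : X → Y → Prop} {f g : X → Y} (h : Htp A R f g) :
    ContinuousOn f A ∧ ∀ x ∈ A, R x (f x) := by
  obtain ⟨H, hH, h0, h1, hT⟩ := h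
  have hu : (0 : ℝ) ∈ Icc (0 : ℝ) 1 := ⟨le_rfl, zero_le_one⟩
  have c : ContinuousOn (fun x : X => H (0, x)) A :=
    hH.comp (by fun_prop) fun x hx => ⟨hu, hx⟩
  exact ⟨c.congr fun x hx => (h0 x hx).symm, fun x hx => h0 x hx ▸ hT 0 hu x hx⟩
theorem Htp.cont_right {A : Set X} {R : X → Y → Prop} {f g : X → Y} (h : Htp A R f g) :
    ContinuousOn g A ∧ ∀ x ∈ A, R x (g x) := h.symm.cont_left
/-- precomposition -/
theorem Htp.comp {A : Set X} {R : X → Y → Prop} {f g : X → Y} (h : Htp A R f g) {B : Set Z}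
    {k : Z → X} (hk : ContinuousOn k B) (hB : MapsTo k B A) :
    Htp B (fun z y => R (k z) y) (f ∘ k) (g ∘ k) := by
  obtain ⟨H, hH, h0, h1, hT⟩ := h
  exact ⟨fun w => H (w.1, k w.2), hH.comp (continuous_fst.continuousOn.prodMk
      (hk.comp continuous_snd.continuousOn fun w hw => hw.2)) fun w hw => ⟨hw.1, hB hw.2⟩,
    fun z hz => h0 _ (hB hz), fun z hz => h1 _ (hB hz), fun u hu z hz => hT u hu _ (hB hz)⟩
/-- postcomposition with a map that may depend on the point -/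
theorem Htp.post {A : Set X} {R : X → Y → Prop} {f g : X → Y} (h : Htp A R f g)
    {k : X × Y → Z} (hk : ContinuousOn k {w | w.1 ∈ A ∧ R w.1 w.2}) {R' : X → Z → Prop}
    (hR : ∀ x ∈ A, ∀ y, R x y → R' x (k (x, y))) :
    Htp A R' (fun x => k (x, f x)) (fun x => k (x, g x)) := by
  obtain ⟨H, hH, h0, h1, hT⟩ := h
  refine ⟨fun w => k (w.2, H w), hk.comp (continuous_snd.continuousOn.prodMk hH)
      fun w hw => ⟨hw.2, hT w.1 hw.1 w.2 hw.2⟩, fun x hx => ?_, fun x hx => ?_,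
    fun u hu x hx => hR x hx _ (hT u hu x hx)⟩
  · show k (x, H (0, x)) = k (x, f x)
    rw [h0 x hx]
  · show k (x, H (1, x)) = k (x, g x)
    rw [h1 x hx]
theorem Htp.NN {A : Set X} {R : X → Y → Prop} {f g : X → Y} (h : Htp A R f g) {A0 B0 : Set X}
    {A' B' : Set Y} (hA0 : A0 ⊆ A) (hA : ∀ x ∈ A0, ∀ y, R x y → y ∈ A')
    (hB : ∀ x ∈ A0 ∩ B0, ∀ y, R x y → y ∈ B') {c : Ch F X} (hc : c ∈ ZZ F A0 B0) :
    mp g c - mp f c ∈ NN F A' B' := by
  obtain ⟨H, hH, h0, h1, hT⟩ := h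
  exact htp_NN (hH.mono (prod_mono subset_rfl hA0))
    (fun w hw => hA _ hw.2 _ (hT w.1 hw.1 w.2 (hA0 hw.2)))
    (fun w hw => hB _ hw.2 _ (hT w.1 hw.1 w.2 (hA0 hw.2.1)))
    (fun x hx => h0 x (hA0 hx)) (fun x hx => h1 x (hA0 hx)) hc

end Pool.Agent.Fu
end

-- part Pool.Agent.P.MP_365c00_gt.ZC9
section

/-! Splitting of chains of a product, slant products. -/

set_option linter.unusedSectionVars false
set_option linter.unusedVariables false

open Set Topology unitInterval TensorProduct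

namespace Pool.Agent.Fu

variable {F : Type} [Field F] {X Y Z : Type} [TopologicalSpace X] [TopologicalSpace Y]
  [TopologicalSpace Z]

theorem tbd_tmul (a : Ch F X) (b : Ch F Y) : tbd (a ⊗ₜ[F] b) = bd a ⊗ₜ b + om a ⊗ₜ bd b := by
  simp only [tbd, LinearMap.add_apply, TensorProduct.map_tmul, LinearMap.id_apply]
theorem zc9_tbd_U (w : Ch F C(I, X) ⊗[F] Ch F C(I, X)) :
    tbd (TensorProduct.map unc (map (ev X 0)) w + TensorProduct.map (om ∘ₗ map (ev X 1)) unc w) =
      TensorProduct.map (map (ev X 1)) (map (ev X 1)) w -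
        TensorProduct.map (map (ev X 0)) (map (ev X 0)) w -
        (TensorProduct.map unc (map (ev X 0)) (tbd w) +
          TensorProduct.map (om ∘ₗ map (ev X 1)) unc (tbd w)) := by
  induction w using TensorProduct.induction_on with
  | zero => simp
  | add a b ha hb =>
    simp only [map_add] at ha hb ⊢
    rw [add_add_add_comm, ha, hb]
    abel
  | tmul a b =>
    simp only [map_add, TensorProduct.map_tmul, tbd_tmul, LinearMap.comp_apply, bd_unc, om_unc,
      bd_map, om_map, om_om, om_bd, map_neg, neg_tmul, sub_tmul, tmul_sub]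
    abel
theorem tbd_diagC (c : Ch F X) : tbd (diagC c) = diagC (bd c) := by
  induction X, c using ind with
  | h0 => simp
  | hadd X a b ha hb => simp only [map_add, ha, hb]
  | hsm X r a ha => simp only [map_smul, ha]
  | hpt X x => simp [diagC_pt, tbd_tmul]
  | hunc X a ha =>
    rw [diagC_unc, zc9_tbd_U, bd_unc, map_sub, map_sub, diagC_map, diagC_map, diagC_unc, ha]
theorem zc9_tbd_map {X' Y' : Type} [TopologicalSpace X'] [TopologicalSpace Y'] (f : C(X, X'))
    (g : C(Y, Y')) (w : Ch F X ⊗[F] Ch F Y) :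
    tbd (TensorProduct.map (map f) (map g) w) = TensorProduct.map (map f) (map g) (tbd w) := by
  induction w using TensorProduct.induction_on with
  | zero => simp
  | add a b ha hb => simp only [map_add, ha, hb]
  | tmul a b => simp only [map_add, TensorProduct.map_tmul, tbd_tmul, bd_map, om_map]
theorem zc9_cop (c : Ch F (X × Y)) :
    cop c = TensorProduct.map (map ContinuousMap.fst) (map ContinuousMap.snd) (diagC c) := rfl
theorem tbd_cop (c : Ch F (X × Y)) : tbd (cop c) = cop (bd c) := by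
  rw [zc9_cop, zc9_tbd_map, tbd_diagC, zc9_cop]
theorem kap_tmul (a : Ch F X) (b : Ch F Y) : kap (a ⊗ₜ[F] b) = cross a b :=
  TensorProduct.lift.tmul a b
theorem bd_kap (w : Ch F X ⊗[F] Ch F Y) : bd (kap w) = kap (tbd w) := by
  induction w using TensorProduct.induction_on with
  | zero => simp
  | add a b ha hb => simp only [map_add, ha, hb]
  | tmul a b => simp only [map_add, tbd_tmul, kap_tmul, bd_cross]
theorem cop_map {X' Y' : Type} [TopologicalSpace X'] [TopologicalSpace Y'] (f : C(X, X'))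
    (g : C(Y, Y')) (c : Ch F (X × Y)) :
    cop (map (f.prodMap g) c) = TensorProduct.map (map f) (map g) (cop c) := by
  rw [zc9_cop, zc9_cop, diagC_map]
  induction diagC c using TensorProduct.induction_on with
  | zero => simp
  | add a b ha hb => simp only [map_add, ha, hb]
  | tmul a b =>
    simp only [TensorProduct.map_tmul, map_map]
    rfl
theorem counit_left (c : Ch F X) :
    TensorProduct.lid F _ (TensorProduct.map eps LinearMap.id (diagC c)) = c := by
  induction X, c using ind with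
  | h0 => simp
  | hadd X a b ha hb => simp only [map_add, ha, hb]
  | hsm X r a ha => simp only [map_smul, ha]
  | hpt X x => simp [diagC_pt]
  | hunc X a ha =>
    have key : ∀ w : Ch F C(I, X) ⊗[F] Ch F C(I, X),
        TensorProduct.lid F _ (TensorProduct.map eps LinearMap.id
          (TensorProduct.map unc (map (ev X 0)) w +
            TensorProduct.map (om ∘ₗ map (ev X 1)) unc w)) =
          unc (TensorProduct.lid F _ (TensorProduct.map eps LinearMap.id w)) := by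
      intro w
      induction w using TensorProduct.induction_on with
      | zero => simp
      | add a b ha hb =>
        simp only [map_add] at ha hb ⊢
        rw [add_add_add_comm, ha, hb]
      | tmul a b => simp [eps_om]
    rw [diagC_unc, key, ha]
theorem zc9_cop_unc (z : Ch F (C(I, X) × Y)) :
    cop (unc (map (prL X Y) z)) = TensorProduct.map unc LinearMap.id (cop z) := by
  rw [zc9_cop, zc9_cop, diagC_unc, diagC_map]
  induction diagC z using TensorProduct.induction_on with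
  | zero => simp
  | add a b ha hb =>
    simp only [map_add] at ha hb ⊢
    rw [add_add_add_comm, ha, hb]
  | tmul a b =>
    have e1 : (post (ContinuousMap.fst : C(X × Y, X))).comp (prL X Y) = ContinuousMap.fst := rfl
    have e2 : (ContinuousMap.snd : C(X × Y, Y)).comp ((ev (X × Y) 0).comp (prL X Y)) =
        ContinuousMap.snd := rfl
    have e3 : (post (ContinuousMap.snd : C(X × Y, Y))).comp (prL X Y) =
        (cst Y).comp ContinuousMap.snd := rfl
    simp only [map_add, TensorProduct.map_tmul, LinearMap.comp_apply, map_unc, map_map, e1, e2, e3,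
      LinearMap.id_apply]
    rw [← map_map (cst Y), unc_cst, tmul_zero, add_zero]
theorem cop_cross (a : Ch F X) (b : Ch F Y) : cop (cross a b) = a ⊗ₜ b := by
  induction X, a using ind with
  | h0 => simp
  | hadd X a a' ha ha' => simp only [map_add, LinearMap.add_apply, ha, ha', add_tmul]
  | hsm X r a ha => simp only [map_smul, LinearMap.smul_apply, ha, smul_tmul']
  | hpt X x =>
    rw [cross_pt, zc9_cop, diagC_map]
    conv_rhs => rw [← counit_left b]
    induction diagC b using TensorProduct.induction_on with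
    | zero => simp
    | add a b ha hb => simp only [map_add, ha, hb, tmul_add]
    | tmul u v =>
      have e1 : (ContinuousMap.fst : C(X × Y, X)).comp ⟨fun y => (x, y), by fun_prop⟩ =
          ContinuousMap.const Y x := rfl
      have e2 : (ContinuousMap.snd : C(X × Y, Y)).comp ⟨fun y => (x, y), by fun_prop⟩ =
          ContinuousMap.id Y := rfl
      simp only [TensorProduct.map_tmul, map_map, e1, e2, map_const, map_id', LinearMap.id_apply,
        TensorProduct.lid_tmul, smul_tmul]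
  | hunc X a ha => rw [cross_unc, zc9_cop_unc, ha, TensorProduct.map_tmul, LinearMap.id_apply]
theorem cop_kap (w : Ch F X ⊗[F] Ch F Y) : cop (kap w) = w := by
  induction w using TensorProduct.induction_on with
  | zero => simp
  | add a b ha hb => simp only [map_add, ha, hb]
  | tmul a b => rw [kap_tmul, cop_cross]
theorem cop_mem {A : Set X} {B : Set Y} {c : Ch F (X × Y)} (h : c ∈ CC F (A ×ˢ B)) :
    cop c ∈ TS (CC F A) (CC F B) := by
  obtain ⟨b, rfl⟩ := mem_CC_iff.1 h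
  let e : C((A ×ˢ B : Set (X × Y)), A × B) :=
    ⟨fun z => (⟨z.1.1, z.2.1⟩, ⟨z.1.2, z.2.2⟩), by fun_prop⟩
  have he : incl (A ×ˢ B) = ((incl A).prodMap (incl B)).comp e := rfl
  rw [he, ← map_map, cop_map]
  induction cop (map e b) using TensorProduct.induction_on with
  | zero => simp
  | add a b ha hb => rw [map_add]; exact add_mem ha hb
  | tmul u v =>
    exact Submodule.subset_span ⟨_, mem_CC_iff.2 ⟨u, rfl⟩, _, mem_CC_iff.2 ⟨v, rfl⟩,
      TensorProduct.map_tmul _ _ _ _⟩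
theorem zc9_TS {P Q R : Type} [AddCommGroup P] [Module F P] [AddCommGroup Q] [Module F Q]
    [AddCommGroup R] [Module F R] {A : Submodule F P} {B : Submodule F Q} (L : P ⊗[F] Q →ₗ[F] R)
    (S : Submodule F R) (hL : ∀ a ∈ A, ∀ b ∈ B, L (a ⊗ₜ b) ∈ S) {w : P ⊗[F] Q}
    (h : w ∈ TS A B) : L w ∈ S := by
  have : TS A B ≤ S.comap L := by
    refine Submodule.span_le.2 ?_
    rintro _ ⟨a, ha, b, hb, rfl⟩
    exact hL a ha b hb
  exact this h
theorem kap_mem {A : Set X} {B : Set Y} {w : Ch F X ⊗[F] Ch F Y} (h : w ∈ TS (CC F A) (CC F B)) :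
    kap w ∈ CC F (A ×ˢ B) :=
  zc9_TS kap _ (fun a ha b hb => by rw [kap_tmul]; exact cross_mem_CC ha hb) h
theorem zc9_diag_dg (c : Ch F X) : ∀ k i j : ℕ, i + j ≠ k →
    TensorProduct.map (dg i) (dg j) (diagC (dg k c)) = 0 := by
  induction X, c using ind with
  | h0 => simp
  | hadd X a b ha hb => intro k i j h; simp only [map_add, ha k i j h, hb k i j h, add_zero]
  | hsm X r a ha => intro k i j h; simp only [map_smul, ha k i j h, smul_zero]
  | hpt X x =>
    intro k i j h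
    cases k with
    | succ k => simp
    | zero =>
      rw [dg_zero_pt, diagC_pt, TensorProduct.map_tmul]
      cases i with
      | succ i => simp
      | zero =>
        cases j with
        | succ j => simp
        | zero => exact absurd rfl h
  | hunc X a ha =>
    intro k i j h
    cases k with
    | zero => simp
    | succ k =>
      rw [dg_succ_unc, diagC_unc, map_add]
      have h1 : TensorProduct.map (dg i) (dg j)
          (TensorProduct.map unc (map (ev X 0)) (diagC (dg k a))) = 0 := by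
        cases i with
        | zero =>
          induction diagC (dg k a) using TensorProduct.induction_on with
          | zero => simp
          | add u v hu hv => simp only [map_add, hu, hv, add_zero]
          | tmul u v => simp
        | succ i =>
          have : ∀ w : Ch F C(I, X) ⊗[F] Ch F C(I, X), TensorProduct.map (dg (i + 1)) (dg j)
              (TensorProduct.map unc (map (ev X 0)) w) =
              TensorProduct.map unc (map (ev X 0)) (TensorProduct.map (dg i) (dg j) w) := by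
            intro w
            induction w using TensorProduct.induction_on with
            | zero => simp
            | add u v hu hv => simp only [map_add, hu, hv]
            | tmul u v => simp only [TensorProduct.map_tmul, dg_succ_unc, dg_map]
          rw [this, ha k i j (by omega), map_zero]
      have h2 : TensorProduct.map (dg i) (dg j)
          (TensorProduct.map (om ∘ₗ map (ev X 1)) unc (diagC (dg k a))) = 0 := by
        cases j with
        | zero =>
          induction diagC (dg k a) using TensorProduct.induction_on with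
          | zero => simp
          | add u v hu hv => simp only [map_add, hu, hv, add_zero]
          | tmul u v => simp
        | succ j =>
          have : ∀ w : Ch F C(I, X) ⊗[F] Ch F C(I, X), TensorProduct.map (dg i) (dg (j + 1))
              (TensorProduct.map (om ∘ₗ map (ev X 1)) unc w) =
              TensorProduct.map (om ∘ₗ map (ev X 1)) unc (TensorProduct.map (dg i) (dg j) w) := by
            intro w
            induction w using TensorProduct.induction_on with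
            | zero => simp
            | add u v hu hv => simp only [map_add, hu, hv]
            | tmul u v =>
              simp only [TensorProduct.map_tmul, LinearMap.comp_apply, dg_succ_unc, dg_om, dg_map]
          rw [this, ha k i j (by omega), map_zero]
      rw [h1, h2, add_zero]
/-- the splitting respects the total degree -/
theorem cop_dg {k i j : ℕ} {c : Ch F (X × Y)} (h : c ∈ HD F _ k) (hij : i + j ≠ k) :
    TensorProduct.map (dg i) (dg j) (cop c) = 0 := by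
  have : ∀ w : Ch F (X × Y) ⊗[F] Ch F (X × Y), TensorProduct.map (dg i) (dg j)
      (TensorProduct.map (map ContinuousMap.fst) (map ContinuousMap.snd) w) =
      TensorProduct.map (map ContinuousMap.fst) (map ContinuousMap.snd)
        (TensorProduct.map (dg i) (dg j) w) := by
    intro w
    induction w using TensorProduct.induction_on with
    | zero => simp
    | add u v hu hv => simp only [map_add, hu, hv]
    | tmul u v => simp only [TensorProduct.map_tmul, dg_map]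
  rw [zc9_cop, this, ← mem_HD.1 h, zc9_diag_dg c k i j hij, map_zero]

/-- slant product with a functional on the first factor -/
noncomputable def sl (l : Ch F X →ₗ[F] F) : Ch F (X × Y) →ₗ[F] Ch F Y :=
  (TensorProduct.lid F _).toLinearMap ∘ₗ TensorProduct.map l LinearMap.id ∘ₗ cop

/-- slant product with a functional on the second factor -/
noncomputable def sr (l : Ch F Y →ₗ[F] F) : Ch F (X × Y) →ₗ[F] Ch F X :=
  (TensorProduct.rid F _).toLinearMap ∘ₗ TensorProduct.map LinearMap.id l ∘ₗ cop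

theorem zc9_sl (l : Ch F X →ₗ[F] F) (c : Ch F (X × Y)) :
    sl l c = TensorProduct.lid F _ (TensorProduct.map l LinearMap.id (cop c)) := rfl
theorem zc9_sr (l : Ch F Y →ₗ[F] F) (c : Ch F (X × Y)) :
    sr l c = TensorProduct.rid F _ (TensorProduct.map LinearMap.id l (cop c)) := rfl

theorem sl_cross (l : Ch F X →ₗ[F] F) (a : Ch F X) (b : Ch F Y) : sl l (cross a b) = l a • b := by
  simp [zc9_sl, cop_cross]
theorem sr_cross (l : Ch F Y →ₗ[F] F) (a : Ch F X) (b : Ch F Y) : sr l (cross a b) = l b • a := by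
  simp [zc9_sr, cop_cross]
theorem sl_sr (l : Ch F X →ₗ[F] F) (m : Ch F Y →ₗ[F] F) (c : Ch F (X × Y)) :
    m (sl l c) = l (sr m c) := by
  rw [zc9_sl, zc9_sr]
  induction cop c using TensorProduct.induction_on with
  | zero => simp
  | add u v hu hv => simp only [map_add, hu, hv]
  | tmul u v => simp [mul_comm]
theorem sl_mem (l : Ch F X →ₗ[F] F) {A : Set X} {B : Set Y} {c : Ch F (X × Y)}
    (h : c ∈ CC F (A ×ˢ B)) : sl l c ∈ CC F B :=
  zc9_TS ((TensorProduct.lid F _).toLinearMap ∘ₗ TensorProduct.map l LinearMap.id) _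
    (fun a ha b hb => by simpa using Submodule.smul_mem _ (l a) hb) (cop_mem h)
theorem sr_mem (l : Ch F Y →ₗ[F] F) {A : Set X} {B : Set Y} {c : Ch F (X × Y)}
    (h : c ∈ CC F (A ×ˢ B)) : sr l c ∈ CC F A :=
  zc9_TS ((TensorProduct.rid F _).toLinearMap ∘ₗ TensorProduct.map LinearMap.id l) _
    (fun a ha b hb => by simpa using Submodule.smul_mem _ (l b) ha) (cop_mem h)
theorem sl_zero {l : Ch F X →ₗ[F] F} {A : Set X} {B : Set Y} (hl : ∀ a ∈ CC F A, l a = 0)
    {c : Ch F (X × Y)} (h : c ∈ CC F (A ×ˢ B)) : sl l c = 0 :=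
  (Submodule.mem_bot F).1 <|
    zc9_TS ((TensorProduct.lid F _).toLinearMap ∘ₗ TensorProduct.map l LinearMap.id) ⊥
      (fun a ha b hb => by simp [hl a ha]) (cop_mem h)
theorem sr_zero {l : Ch F Y →ₗ[F] F} {A : Set X} {B : Set Y} (hl : ∀ b ∈ CC F B, l b = 0)
    {c : Ch F (X × Y)} (h : c ∈ CC F (A ×ˢ B)) : sr l c = 0 :=
  (Submodule.mem_bot F).1 <|
    zc9_TS ((TensorProduct.rid F _).toLinearMap ∘ₗ TensorProduct.map LinearMap.id l) ⊥
      (fun a ha b hb => by simp [hl b hb]) (cop_mem h)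
theorem sl_bd (l : Ch F X →ₗ[F] F) (c : Ch F (X × Y)) :
    sl l (bd c) = sl (l ∘ₗ bd) c + bd (sl (l ∘ₗ om) c) := by
  rw [zc9_sl, zc9_sl, zc9_sl, ← tbd_cop]
  induction cop c using TensorProduct.induction_on with
  | zero => simp
  | add u v hu hv => simp only [map_add, hu, hv]; abel
  | tmul u v => simp [tbd_tmul]
theorem sr_bd {l : Ch F Y →ₗ[F] F} {A : Set X} {B : Set Y} (hl : ∀ b ∈ CC F B, l (bd b) = 0)
    {c : Ch F (X × Y)} (h : c ∈ CC F (A ×ˢ B)) : sr l (bd c) = bd (sr l c) := by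
  rw [zc9_sr, zc9_sr, ← tbd_cop, ← sub_eq_zero]
  exact (Submodule.mem_bot F).1 <|
    zc9_TS (((TensorProduct.rid F _).toLinearMap ∘ₗ TensorProduct.map LinearMap.id l) ∘ₗ tbd -
      bd ∘ₗ ((TensorProduct.rid F _).toLinearMap ∘ₗ TensorProduct.map LinearMap.id l)) ⊥
      (fun a ha b hb => by simp [tbd_tmul, hl b hb]) (cop_mem h)
theorem zc9_HD {j : ℕ} {x : Ch F X} (h : ∀ m, m ≠ j → dg m x = 0) : x ∈ HD F X j := by
  obtain ⟨n, hn⟩ := exists_sum_dg x
  have := hn (max n (j + 1)) (le_max_left _ _)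
  rw [Finset.sum_eq_single j (fun m _ hm => h m hm)
    (fun hj => absurd (Finset.mem_range.2 (lt_max_of_lt_right j.lt_succ_self)) hj)] at this
  exact this
theorem zc9_dg_sl (l : Ch F X →ₗ[F] F) (i m : ℕ) (c : Ch F (X × Y)) :
    dg m (sl (l ∘ₗ dg i) c) = TensorProduct.lid F _ (TensorProduct.map l LinearMap.id
      (TensorProduct.map (dg i) (dg m) (cop c))) := by
  rw [zc9_sl]
  induction cop c using TensorProduct.induction_on with
  | zero => simp
  | add u v hu hv => simp only [map_add, hu, hv]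
  | tmul u v => simp
theorem zc9_dg_sr (l : Ch F Y →ₗ[F] F) (j m : ℕ) (c : Ch F (X × Y)) :
    dg m (sr (l ∘ₗ dg j) c) = TensorProduct.rid F _ (TensorProduct.map LinearMap.id l
      (TensorProduct.map (dg m) (dg j) (cop c))) := by
  rw [zc9_sr]
  induction cop c using TensorProduct.induction_on with
  | zero => simp
  | add u v hu hv => simp only [map_add, hu, hv]
  | tmul u v => simp
theorem sl_HD (l : Ch F X →ₗ[F] F) {i j : ℕ} {c : Ch F (X × Y)} (h : c ∈ HD F _ (i + j)) :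
    sl (l ∘ₗ dg i) c ∈ HD F Y j :=
  zc9_HD fun m hm => by rw [zc9_dg_sl, cop_dg h (by omega), map_zero, map_zero]
theorem sl_HD_lt (l : Ch F X →ₗ[F] F) {i k : ℕ} {c : Ch F (X × Y)} (h : c ∈ HD F _ k)
    (hik : k < i) : sl (l ∘ₗ dg i) c = 0 := by
  have h0 : ∀ m, dg m (sl (l ∘ₗ dg i) c) = 0 := fun m => by
    rw [zc9_dg_sl, cop_dg h (by omega), map_zero, map_zero]
  rw [← mem_HD.1 (zc9_HD (j := 0) fun m _ => h0 m), h0]
theorem sr_HD (l : Ch F Y →ₗ[F] F) {i j : ℕ} {c : Ch F (X × Y)} (h : c ∈ HD F _ (i + j)) :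
    sr (l ∘ₗ dg j) c ∈ HD F X i :=
  zc9_HD fun m hm => by rw [zc9_dg_sr, cop_dg h (by omega), map_zero, map_zero]
theorem sl_sum (l : Ch F X →ₗ[F] F) (c : Ch F (X × Y)) :
    ∃ n, sl l c = ∑ i ∈ Finset.range n, sl (l ∘ₗ dg i) c := by
  have key : ∀ w : Ch F X ⊗[F] Ch F Y, ∃ n, ∀ m, n ≤ m →
      TensorProduct.lid F _ (TensorProduct.map l LinearMap.id w) =
        ∑ i ∈ Finset.range m,
          TensorProduct.lid F _ (TensorProduct.map (l ∘ₗ dg i) LinearMap.id w) := by
    intro w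
    induction w using TensorProduct.induction_on with
    | zero => exact ⟨0, fun m _ => by simp⟩
    | add u v hu hv =>
      obtain ⟨n, hn⟩ := hu
      obtain ⟨n', hn'⟩ := hv
      refine ⟨max n n', fun m hm => ?_⟩
      simp only [map_add, Finset.sum_add_distrib]
      rw [hn m (le_of_max_le_left hm), hn' m (le_of_max_le_right hm)]
    | tmul u v =>
      obtain ⟨n, hn⟩ := exists_sum_dg u
      refine ⟨n, fun m hm => ?_⟩
      simp only [TensorProduct.map_tmul, LinearMap.comp_apply, LinearMap.id_apply,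
        TensorProduct.lid_tmul]
      rw [← Finset.sum_smul, ← map_sum, hn m hm]
  obtain ⟨n, hn⟩ := key (cop c)
  exact ⟨n, hn n le_rfl⟩

end Pool.Agent.Fu
end

-- part Pool.Agent.P.MP_365c00_gt.ZC10
section

/-! The two natural homotopies: Eilenberg-Zilber and subdivision. -/

set_option linter.unusedSectionVars false
set_option linter.unusedVariables false

open Set Topology unitInterval TensorProduct

namespace Pool.Agent.Fu

variable {F : Type} [Field F] {X Y Z : Type} [TopologicalSpace X] [TopologicalSpace Y]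
  [TopologicalSpace Z]

/-- the two paths join from corner to corner -/
def Glue (a b : Pc) : Prop :=
  ∀ u, a (u, 0) = (0, 0) ∧ a (u, 1) = b (u, 0) ∧ b (u, 1) = (1, 1)

theorem bd_opr {a b : Pc} (h : Glue a b) (c : Ch F X) : bd (opr a b c) = opr a b (bd c) := by
  induction X, c using ind with
  | h0 => simp
  | hadd X x y hx hy => simp only [map_add, hx, hy]
  | hsm X r x hx => simp only [map_smul, hx]
  | hpt X x => rw [opr_pt, bd_pt, bd_pt, map_zero]
  | hunc X x hx =>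
    have e1 : (ev _ 1).comp (opM a X) = (ev _ 0).comp (opM b X) := by
      ext1 g
      ext1 u
      show ((g u).1 (a (u, 1)).1, (g u).2 (a (u, 1)).2) =
        ((g u).1 (b (u, 0)).1, (g u).2 (b (u, 0)).2)
      rw [(h u).2.1]
    have e2 : (ev _ 0).comp (opM a X) = post ((ev X 0).prodMap (ev X 0)) := by
      ext1 g
      ext1 u
      show ((g u).1 (a (u, 0)).1, (g u).2 (a (u, 0)).2) = ((g u).1 0, (g u).2 0)
      rw [(h u).1]
    have e3 : (ev _ 1).comp (opM b X) = post ((ev X 1).prodMap (ev X 1)) := by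
      ext1 g
      ext1 u
      show ((g u).1 (b (u, 1)).1, (g u).2 (b (u, 1)).2) = ((g u).1 1, (g u).2 1)
      rw [(h u).2.2]
    rw [opr_unc, map_add, bd_unc, bd_unc, bd_unc, map_sub, map_sub, opr_unc, opr_map, opr_map,
      bd_map, bd_map, hx, map_map, map_map, map_map, map_map, e1, e2, e3]
    abel

theorem ZC10_dg_opr (a b : Pc) (c : Ch F X) : ∀ k, dg k (opr a b c) = opr a b (dg k c) := by
  induction X, c using ind with
  | h0 => simp
  | hadd X x y hx hy => intro k; simp only [map_add, hx, hy]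
  | hsm X r x hx => intro k; simp only [map_smul, hx]
  | hpt X x =>
    intro k
    cases k with
    | zero => rw [dg_zero_pt, opr_pt, dg_zero_pt]
    | succ k => rw [dg_succ_pt, opr_pt, dg_succ_pt, map_zero]
  | hunc X x hx =>
    intro k
    cases k with
    | zero => rw [dg_zero_unc, opr_unc, map_add, dg_zero_unc, dg_zero_unc, map_zero, add_zero]
    | succ k =>
      rw [dg_succ_unc, opr_unc, opr_unc, map_add, dg_succ_unc, dg_succ_unc, dg_map, dg_map, hx]

theorem opr_mem_HD (a b : Pc) {k : ℕ} {c : Ch F X} (h : c ∈ HD F X k) : opr a b c ∈ HD F _ k := by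
  rw [mem_HD, ZC10_dg_opr, mem_HD.1 h]

theorem opr_mem_CC (a b : Pc) {A : Set X} {c : Ch F X} (h : c ∈ CC F A) :
    opr a b c ∈ CC F (hat (A ×ˢ A)) := by
  refine CC_ind (F := F) (P := fun X _ A c => opr a b c ∈ CC F (hat (A ×ˢ A)))
    ?_ ?_ ?_ ?_ ?_ X A c h
  · intro X _ A
    rw [map_zero]
    exact zero_mem _
  · intro X _ A x y hx hy
    rw [map_add]
    exact add_mem hx hy
  · intro X _ A r x hx
    rw [map_smul]
    exact Submodule.smul_mem _ r hx
  · intro X _ A x hx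
    rw [opr_pt]
    exact pt_mem_CC fun _ => ⟨hx, hx⟩
  · intro X _ A x _ hx
    have e : ∀ a : Pc, MapsTo (opM a X) (hat (hat A ×ˢ hat A)) (hat (hat (A ×ˢ A))) :=
      fun a g hg s u => ⟨(hg u).1 _, (hg u).2 _⟩
    rw [opr_unc]
    exact add_mem (unc_mem_CC (map_mem_CC (e a) hx)) (unc_mem_CC (map_mem_CC (e b) hx))

/-- a pair of paths, read along the path of the family `a` at the parameter `u` -/
def ZC10_pair (a : Pc) (u : I) (X : Type) [TopologicalSpace X] :
    C(C(I, X) × C(I, X), C(I, X × X)) :=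
  ContinuousMap.curry ⟨fun w : (C(I, X) × C(I, X)) × I =>
    (w.1.1 (a (u, w.2)).1, w.1.2 (a (u, w.2)).2), by fun_prop⟩

theorem ZC10_ev_unc (a b : Pc) (u : I) (c : Ch F C(I, X)) :
    map (ev _ u) (opr a b (unc c)) =
      unc (map (ZC10_pair a u X) (map (ev _ u) (opr a b c))) +
        unc (map (ZC10_pair b u X) (map (ev _ u) (opr a b c))) := by
  have e : ∀ a : Pc, (post (ev _ u)).comp (opM a X) = (ZC10_pair a u X).comp (ev _ u) :=
    fun a => rfl
  rw [opr_unc, map_add, map_unc, map_unc, map_map, map_map, map_map, map_map, e, e]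

/-- at a parameter where the first path is the diagonal and the second is constant -/
theorem ev_opr_diag {a b : Pc} {u : I} (ha : ∀ s, a (u, s) = (s, s)) (hb : ∀ s, b (u, s) = (1, 1))
    (c : Ch F X) : map (ev _ u) (opr a b c) = map ⟨fun x => (x, x), by fun_prop⟩ c := by
  induction X, c using ind with
  | h0 => simp
  | hadd X x y hx hy => simp only [map_add, hx, hy]
  | hsm X r x hx => simp only [map_smul, hx]
  | hpt X x => rw [opr_pt, map_pt, map_pt]; rfl
  | hunc X x hx =>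
    have e1 : (ZC10_pair a u X).comp ⟨fun x => (x, x), by fun_prop⟩ =
        post ⟨fun x => (x, x), by fun_prop⟩ := by
      ext1 g
      ext1 s
      show (g (a (u, s)).1, g (a (u, s)).2) = (g s, g s)
      rw [ha]
    have e2 : (ZC10_pair b u X).comp ⟨fun x => (x, x), by fun_prop⟩ =
        (cst _).comp ⟨fun g => (g 1, g 1), by fun_prop⟩ := by
      ext1 g
      ext1 s
      show (g (b (u, s)).1, g (b (u, s)).2) = (g 1, g 1)
      rw [hb]
    rw [ZC10_ev_unc, hx, map_map, map_map, e1, e2, ← map_map (cst _), unc_cst, add_zero, map_unc]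

theorem ev_opr_ez {a b : Pc} {u : I} (ha : ∀ s, a (u, s) = (s, 0)) (hb : ∀ s, b (u, s) = (1, s))
    (c : Ch F X) : map (ev _ u) (opr a b c) = kap (diagC c) := by
  induction X, c using ind with
  | h0 => simp
  | hadd X x y hx hy => simp only [map_add, hx, hy]
  | hsm X r x hx => simp only [map_smul, hx]
  | hpt X x => rw [opr_pt, map_pt, diagC_pt, kap_tmul, cross_pt, map_pt]; rfl
  | hunc X x hx =>
    have e1 : ZC10_pair a u X = (prL X X).comp ((ContinuousMap.id _).prodMap (ev X 0)) := by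
      ext1 g
      ext1 s
      show (g.1 (a (u, s)).1, g.2 (a (u, s)).2) = (g.1 s, g.2 0)
      rw [ha]
    have e2 : ZC10_pair b u X = (prR X X).comp ((ev X 1).prodMap (ContinuousMap.id _)) := by
      ext1 g
      ext1 s
      show (g.1 (b (u, s)).1, g.2 (b (u, s)).2) = (g.1 1, g.2 s)
      rw [hb]
    rw [ZC10_ev_unc, hx, diagC_unc, e1, e2]
    generalize diagC x = w
    induction w using TensorProduct.induction_on with
    | zero => simp
    | add p q hp hq =>
      simp only [map_add] at hp hq ⊢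
      rw [add_add_add_comm, hp, hq, add_add_add_comm]
    | tmul p q =>
      rw [TensorProduct.map_tmul, TensorProduct.map_tmul, map_add, kap_tmul, kap_tmul, kap_tmul,
        cross_unc, cross_unc_right, LinearMap.comp_apply, om_om, cross_map_right, cross_map_left,
        map_map, map_map]

theorem ev_opr_sd {a b : Pc} {u : I} (ha : ∀ s, (a (u, s)).1 = hl s) (hb : ∀ s, (b (u, s)).1 = hr s)
    (c : Ch F X) : map ContinuousMap.fst (map (ev _ u) (opr a b c)) = sd c := by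
  induction X, c using ind with
  | h0 => simp
  | hadd X x y hx hy => simp only [map_add, hx, hy]
  | hsm X r x hx => simp only [map_smul, hx]
  | hpt X x => rw [opr_pt, map_pt, map_pt, sd_pt]; rfl
  | hunc X x hx =>
    have e1 : (post ContinuousMap.fst).comp (ZC10_pair a u X) =
        (prec hl X).comp ContinuousMap.fst := by
      ext1 g
      ext1 s
      show g.1 (a (u, s)).1 = g.1 (hl s)
      rw [ha]
    have e2 : (post ContinuousMap.fst).comp (ZC10_pair b u X) =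
        (prec hr X).comp ContinuousMap.fst := by
      ext1 g
      ext1 s
      show g.1 (b (u, s)).1 = g.1 (hr s)
      rw [hb]
    rw [ZC10_ev_unc, map_add, map_unc, map_unc, map_map (post _), map_map (post _), e1, e2,
      ← map_map (prec hl X), ← map_map (prec hr X), hx, sd_unc]

/-- the product on the interval -/
def ZC10_mu : C(I × I, I) :=
  ⟨fun w => w.1 * w.2, Continuous.subtype_mk
    ((continuous_subtype_val.comp continuous_fst).mul
      (continuous_subtype_val.comp continuous_snd)) _⟩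

/-- the reflected product on the interval -/
def ZC10_nu : C(I × I, I) :=
  ⟨fun w => σ (ZC10_mu (σ w.1, σ w.2)), continuous_symm.comp (ZC10_mu.continuous.comp
    ((continuous_symm.comp continuous_fst).prodMk (continuous_symm.comp continuous_snd)))⟩

theorem ZC10_mu_apply (u s : I) : ZC10_mu (u, s) = u * s := rfl
theorem ZC10_nu_apply (u s : I) : ZC10_nu (u, s) = σ (σ u * σ s) := rfl

theorem ZC10_kap_map {X' Y' : Type} [TopologicalSpace X'] [TopologicalSpace Y'] (f : C(X, X'))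
    (g : C(Y, Y')) (w : Ch F X ⊗[F] Ch F Y) :
    kap (TensorProduct.map (map f) (map g) w) = map (f.prodMap g) (kap w) := by
  induction w using TensorProduct.induction_on with
  | zero => simp
  | add p q hp hq => simp only [map_add, hp, hq]
  | tmul p q => rw [TensorProduct.map_tmul, kap_tmul, kap_tmul, cross_map]

theorem ZC10_htp {a b : Pc} (h : Glue a b) (q : C(X × X, Y)) (c : Ch F X) :
    map q (map (ev _ 1) (opr a b c)) - map q (map (ev _ 0) (opr a b c)) =
      bd (map q (unc (opr a b c))) + map q (unc (opr a b (bd c))) := by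
  rw [bd_map, bd_unc, bd_opr h, map_sub, map_sub, sub_add_cancel]

/-- the family of paths for the subdivision -/
theorem ZC10_sd_paths : ∃ a b : Pc, Glue a b ∧ (∀ s, a (1, s) = (s, s)) ∧
    (∀ s, b (1, s) = (1, 1)) ∧ (∀ s, (a (0, s)).1 = hl s) ∧ ∀ s, (b (0, s)).1 = hr s := by
  have h1 : hr 1 = 1 := Subtype.ext (by show (1 + ((1 : I) : ℝ)) / 2 = 1; norm_num)
  let m : C(I × I, I × I) := hr.prodMap (ContinuousMap.id I)
  refine ⟨(ZC10_mu.comp m).prodMk (ZC10_mu.comp m), (ZC10_nu.comp m).prodMk (ZC10_nu.comp m),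
    fun u => ⟨?_, ?_, ?_⟩, fun s => ?_, fun s => ?_, fun s => ?_, fun s => ?_⟩
  · show (hr u * 0, hr u * 0) = ((0 : I), (0 : I))
    rw [mul_zero]
  · show (hr u * 1, hr u * 1) = (σ (σ (hr u) * σ 0), σ (σ (hr u) * σ 0))
    rw [symm_zero, mul_one, mul_one, symm_symm]
  · show (σ (σ (hr u) * σ 1), σ (σ (hr u) * σ 1)) = ((1 : I), (1 : I))
    rw [symm_one, mul_zero, symm_zero]
  · show (hr 1 * s, hr 1 * s) = (s, s)
    rw [h1, one_mul]
  · show (σ (σ (hr 1) * σ s), σ (σ (hr 1) * σ s)) = ((1 : I), (1 : I))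
    rw [h1, symm_one, zero_mul, symm_zero]
  · refine Subtype.ext ?_
    show (1 + ((0 : I) : ℝ)) / 2 * (s : ℝ) = s / 2
    rw [Set.Icc.coe_zero]
    ring
  · refine Subtype.ext ?_
    show 1 - (1 - (1 + ((0 : I) : ℝ)) / 2) * (1 - (s : ℝ)) = (1 + s) / 2
    rw [Set.Icc.coe_zero]
    ring


/-- the Eilenberg-Zilber homotopy -/
theorem exists_ez (F : Type) [Field F] (X Y : Type) [TopologicalSpace X] [TopologicalSpace Y] :
    ∃ K : Ch F (X × Y) →ₗ[F] Ch F (X × Y), (∀ c, c - kap (cop c) = bd (K c) + K (bd c)) ∧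
      ∀ (A : Set X) (B : Set Y), ∀ c ∈ CC F (A ×ˢ B), K c ∈ CC F (A ×ˢ B) := by
  let a : Pc := ContinuousMap.snd.prodMk ZC10_mu
  let b : Pc := (ContinuousMap.const _ 1).prodMk ZC10_nu
  have h : Glue a b := by
    refine fun u => ⟨?_, ?_, ?_⟩
    · show ((0 : I), u * 0) = ((0 : I), (0 : I))
      rw [mul_zero]
    · show ((1 : I), u * 1) = ((1 : I), σ (σ u * σ 0))
      rw [symm_zero, mul_one, mul_one, symm_symm]
    · show ((1 : I), σ (σ u * σ 1)) = ((1 : I), (1 : I))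
      rw [symm_one, mul_zero, symm_zero]
  have a1 : ∀ s, a (1, s) = (s, s) := fun s => by
    show (s, 1 * s) = (s, s)
    rw [one_mul]
  have b1 : ∀ s, b (1, s) = (1, 1) := fun s => by
    show ((1 : I), σ (σ 1 * σ s)) = ((1 : I), (1 : I))
    rw [symm_one, zero_mul, symm_zero]
  have a0 : ∀ s, a (0, s) = (s, 0) := fun s => by
    show (s, 0 * s) = (s, (0 : I))
    rw [zero_mul]
  have b0 : ∀ s, b (0, s) = (1, s) := fun s => by
    show ((1 : I), σ (σ 0 * σ s)) = ((1 : I), s)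
    rw [symm_zero, one_mul, symm_symm]
  let q : C((X × Y) × (X × Y), X × Y) := ContinuousMap.fst.prodMap ContinuousMap.snd
  refine ⟨map q ∘ₗ unc ∘ₗ opr a b, fun c => ?_, fun A B c hc => ?_⟩
  · have e : q.comp ⟨fun x => (x, x), by fun_prop⟩ = ContinuousMap.id _ := rfl
    have h1 := ZC10_htp h q c
    rw [ev_opr_diag a1 b1, ev_opr_ez a0 b0, map_map, e, map_id', ← ZC10_kap_map] at h1
    exact h1
  · exact map_mem_CC (A := (A ×ˢ B) ×ˢ (A ×ˢ B)) (B := A ×ˢ B)
      (fun w hw => mem_prod.2 ⟨hw.1.1, hw.2.2⟩)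
      (unc_mem_CC (opr_mem_CC a b hc))

theorem bd_sd (c : Ch F X) : bd (sd c) = sd (bd c) := by
  obtain ⟨a, b, h, -, -, a0, b0⟩ := ZC10_sd_paths
  rw [← ev_opr_sd a0 b0, ← ev_opr_sd a0 b0, bd_map, bd_map, bd_opr h]

theorem exists_sd_htp (F : Type) [Field F] (X : Type) [TopologicalSpace X] :
    ∃ K : Ch F X →ₗ[F] Ch F X, (∀ c, c - sd c = bd (K c) + K (bd c)) ∧
      (∀ (A : Set X), ∀ c ∈ CC F A, K c ∈ CC F A) ∧
      ∀ k, ∀ c ∈ HD F X k, K c ∈ HD F X (k + 1) := by
  obtain ⟨a, b, h, a1, b1, a0, b0⟩ := ZC10_sd_paths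
  refine ⟨map ContinuousMap.fst ∘ₗ unc ∘ₗ opr a b, fun c => ?_, fun A c hc => ?_,
    fun k c hc => ?_⟩
  · have e : (ContinuousMap.fst : C(X × X, X)).comp ⟨fun x => (x, x), by fun_prop⟩ =
        ContinuousMap.id _ := rfl
    have h1 := ZC10_htp h ContinuousMap.fst c
    rw [ev_opr_diag a1 b1, ev_opr_sd a0 b0, map_map, e, map_id'] at h1
    exact h1
  · exact map_mem_CC (A := A ×ˢ A) (fun w hw => hw.1) (unc_mem_CC (opr_mem_CC a b hc))
  · exact map_mem_HD _ (unc_mem_HD (opr_mem_HD a b hc))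

end Pool.Agent.Fu
end

-- part Pool.Agent.P.MP_365c00_gt.ZC11
section

/-! Small chains. -/

set_option linter.unusedSectionVars false
set_option linter.unusedVariables false

open Set Topology unitInterval TensorProduct

namespace Pool.Agent.Fu

variable {F : Type} [Field F] {X Y Z : Type} [TopologicalSpace X] [TopologicalSpace Y]
  [TopologicalSpace Z]

theorem sd_pow_succ (m : ℕ) (c : Ch F X) :
    (sd ^ (m + 1) : Module.End F (Ch F X)) c = sd ((sd ^ m : Module.End F (Ch F X)) c) := by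
  rw [pow_succ']; rfl

theorem sd_pow_succ' (m : ℕ) (c : Ch F X) :
    (sd ^ (m + 1) : Module.End F (Ch F X)) c = (sd ^ m : Module.End F (Ch F X)) (sd c) := by
  rw [pow_succ]; rfl

theorem bd_sd_pow (m : ℕ) (c : Ch F X) :
    bd ((sd ^ m : Module.End F (Ch F X)) c) = (sd ^ m : Module.End F (Ch F X)) (bd c) := by
  induction m with
  | zero => rfl
  | succ m ih => rw [sd_pow_succ, sd_pow_succ, bd_sd, ih]
theorem sd_pow_map (m : ℕ) (f : C(X, Y)) (c : Ch F X) :
    (sd ^ m : Module.End F (Ch F Y)) (map f c) = map f ((sd ^ m : Module.End F (Ch F X)) c) := by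
  induction m with
  | zero => rfl
  | succ m ih => rw [sd_pow_succ, sd_pow_succ, ih, sd_map]
theorem sd_pow_mem_CC (m : ℕ) {A : Set X} {c : Ch F X} (h : c ∈ CC F A) :
    (sd ^ m : Module.End F (Ch F X)) c ∈ CC F A := by
  induction m with
  | zero => exact h
  | succ m ih => rw [sd_pow_succ]; exact sd_mem_CC ih
theorem sd_pow_mem_HD (m : ℕ) {k : ℕ} {c : Ch F X} (h : c ∈ HD F X k) :
    (sd ^ m : Module.End F (Ch F X)) c ∈ HD F X k := by
  induction m with
  | zero => exact h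
  | succ m ih => rw [sd_pow_succ]; exact sd_mem_HD ih

theorem exists_sd_pow_htp (F : Type) [Field F] (X : Type) [TopologicalSpace X] (m : ℕ) :
    ∃ K : Ch F X →ₗ[F] Ch F X,
      (∀ c, c - (sd ^ m : Module.End F (Ch F X)) c = bd (K c) + K (bd c)) ∧
      (∀ (A : Set X), ∀ c ∈ CC F A, K c ∈ CC F A) ∧
      ∀ k, ∀ c ∈ HD F X k, K c ∈ HD F X (k + 1) := by
  obtain ⟨K, h1, h2, h3⟩ := exists_sd_htp F X
  induction m with
  | zero => exact ⟨0, fun c => by simp, fun A c _ => zero_mem _, fun k c _ => zero_mem _⟩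
  | succ m ih =>
    obtain ⟨L, l1, l2, l3⟩ := ih
    refine ⟨L + K ∘ₗ (sd ^ m : Module.End F (Ch F X)), fun c => ?_,
      fun A c hc => add_mem (l2 A c hc) (h2 A _ (sd_pow_mem_CC m hc)),
      fun k c hc => add_mem (l3 k c hc) (h3 k _ (sd_pow_mem_HD m hc))⟩
    have e1 := l1 c
    have e2 := h1 ((sd ^ m : Module.End F (Ch F X)) c)
    rw [bd_sd_pow] at e2
    simp only [LinearMap.add_apply, LinearMap.comp_apply, map_add]
    rw [sd_pow_succ, add_add_add_comm, ← e1, ← e2, sub_add_sub_cancel]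

theorem sd_pow_pt (m : ℕ) (x : X) : (sd ^ m : Module.End F (Ch F X)) (pt x) = pt x := by
  induction m with
  | zero => rfl
  | succ m ih => rw [sd_pow_succ, ih, sd_pt]

theorem dist_hl (s t : I) : dist (hl s) (hl t) = dist s t / 2 := by
  show dist ((s : ℝ) / 2) ((t : ℝ) / 2) = dist (s : ℝ) (t : ℝ) / 2
  rw [Real.dist_eq, Real.dist_eq, ← sub_div, abs_div, abs_two]

theorem dist_hr (s t : I) : dist (hr s) (hr t) = dist s t / 2 := by
  show dist ((1 + s : ℝ) / 2) ((1 + t : ℝ) / 2) = dist (s : ℝ) (t : ℝ) / 2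
  rw [Real.dist_eq, Real.dist_eq, ← sub_div, abs_div, abs_two, add_sub_add_left_eq_sub]

theorem sd_pow_unc (S : Submodule F (Ch F X)) (m : ℕ) : ∀ c : Ch F C(I, X),
    (∀ φ : C(I, I), (∀ s t, dist (φ s) (φ t) ≤ (1 / 2 : ℝ) ^ m) →
      unc (map (prec φ X) ((sd ^ m : Module.End F (Ch F C(I, X))) c)) ∈ S) →
    (sd ^ m : Module.End F (Ch F X)) (unc c) ∈ S := by
  induction m with
  | zero =>
    intro c h
    have := h (ContinuousMap.id I) fun s t => by
      show dist (s : ℝ) (t : ℝ) ≤ _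
      rw [pow_zero, Real.dist_eq, abs_le]
      constructor <;> linarith [s.2.1, s.2.2, t.2.1, t.2.2]
    have e : prec (ContinuousMap.id I) X = ContinuousMap.id _ := rfl
    rw [e, map_id'] at this
    exact this
  | succ m ih =>
    intro c h
    have key : ∀ ψ : C(I, I), (∀ s t, dist (ψ s) (ψ t) = dist s t / 2) →
        (sd ^ m : Module.End F (Ch F X)) (unc (map (prec ψ X) (sd c))) ∈ S := by
      intro ψ hψ
      refine ih _ fun φ hφ => ?_
      have e : (prec φ X).comp (prec ψ X) = prec (ψ.comp φ) X := rfl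
      rw [sd_pow_map, map_map, e, ← sd_pow_succ']
      refine h _ fun s t => ?_
      rw [ContinuousMap.comp_apply, ContinuousMap.comp_apply, hψ, pow_succ]
      linarith [hφ s t]
    rw [sd_pow_succ', sd_unc, map_add]
    exact add_mem (key _ dist_hl) (key _ dist_hr)

/-- near a path in the union of the open sets, short pieces of all paths lie in one of the sets -/
theorem exists_tube {ι : Type} {U : ι → Set X} (hU : ∀ i, IsOpen (U i)) (g : C(I, X))
    (hg : ∀ s, g s ∈ ⋃ i, U i) :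
    ∃ (n : ℕ) (W : Set C(I, X)), IsOpen W ∧ g ∈ W ∧
      ∀ s, ∃ i, ∀ k ∈ W, MapsTo k (Metric.closedBall s ((1 / 2 : ℝ) ^ n)) (U i) := by
  obtain ⟨δ, hδ, h⟩ := lebesgue_number_lemma_of_metric (s := (univ : Set I))
    (c := fun i => g ⁻¹' U i) isCompact_univ (fun i => (hU i).preimage g.continuous)
    (fun s _ => by simpa using hg s)
  obtain ⟨n, hn⟩ := exists_pow_lt_of_lt_one (show 0 < δ / 2 by positivity)
    (show (1 / 2 : ℝ) < 1 by norm_num)
  have hr : (0 : ℝ) < (1 / 2) ^ n := by positivity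
  obtain ⟨t, -, ht, hc⟩ := finite_cover_balls_of_compact (isCompact_univ (X := I)) hr
  choose j hj using fun s => h s (mem_univ s)
  refine ⟨n, ⋂ s ∈ t, {k : C(I, X) | MapsTo k (Metric.closedBall s (2 * (1 / 2 : ℝ) ^ n)) (U (j s))},
    ht.isOpen_biInter fun s _ => ContinuousMap.isOpen_setOfPred_mapsTo
      Metric.isClosed_closedBall.isCompact (hU _), ?_, fun s => ?_⟩
  · exact mem_iInter₂.2 fun s _ x hx => hj s (Metric.closedBall_subset_ball (by linarith) hx)
  · obtain ⟨s0, h0, hs⟩ := mem_iUnion₂.1 (hc (mem_univ s))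
    refine ⟨j s0, fun k hk x hx => mem_iInter₂.1 hk s0 h0 ?_⟩
    rw [Metric.mem_closedBall] at hx ⊢
    rw [Metric.mem_ball] at hs
    linarith [dist_triangle x s s0]

theorem small_aux (X : Type) [TopologicalSpace X] (c : Ch F X) :
    ∀ (ι : Type) (U : ι → Set X) (A : Set X), (∀ i, IsOpen (U i)) → A ⊆ ⋃ i, U i →
      ∃ m0, ∀ m, m0 ≤ m → (sd ^ m : Module.End F (Ch F X)) (prj A c) ∈ ⨆ i, CC F (A ∩ U i) := by
  induction X, c using ind with
  | h0 => exact fun ι U A _ _ => ⟨0, fun m _ => by simp⟩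
  | hadd X a b ha hb =>
    intro ι U A hU hA
    obtain ⟨m1, h1⟩ := ha ι U A hU hA
    obtain ⟨m2, h2⟩ := hb ι U A hU hA
    refine ⟨max m1 m2, fun m hm => ?_⟩
    rw [map_add, map_add]
    exact add_mem (h1 m (le_of_max_le_left hm)) (h2 m (le_of_max_le_right hm))
  | hsm X r a ha =>
    intro ι U A hU hA
    obtain ⟨m1, h1⟩ := ha ι U A hU hA
    refine ⟨m1, fun m hm => ?_⟩
    rw [map_smul, map_smul]
    exact Submodule.smul_mem _ r (h1 m hm)
  | hpt X x =>
    intro ι U A hU hA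
    refine ⟨0, fun m _ => ?_⟩
    by_cases hx : x ∈ A
    · obtain ⟨i, hi⟩ := mem_iUnion.1 (hA hx)
      rw [prj_pt_mem hx, sd_pow_pt]
      exact Submodule.mem_iSup_of_mem i (pt_mem_CC ⟨hx, hi⟩)
    · rw [prj_pt_not hx, map_zero]
      exact zero_mem _
  | hunc X a ha =>
    intro ι U A hU hA
    obtain ⟨K, hK, hKA, hc⟩ := exists_compact (prj_mem_CC (hat A) a)
    have e : prj (hat A) a = prj K a := by
      rw [← mem_CC.1 hc, prj_prj, inter_eq_left.2 hKA]
    let J : ℕ → Type := fun n => {W : Set C(I, X) // IsOpen W ∧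
      ∀ s, ∃ i, ∀ k ∈ W, MapsTo k (Metric.closedBall s ((1 / 2 : ℝ) ^ n)) (U i)}
    have hmono : Monotone fun n => ⋃ W : J n, W.1 := by
      intro n n' hn g hg
      obtain ⟨W, hW⟩ := mem_iUnion.1 hg
      refine mem_iUnion.2 ⟨⟨W.1, W.2.1, fun s => ?_⟩, hW⟩
      obtain ⟨i, hi⟩ := W.2.2 s
      exact ⟨i, fun k hk => (hi k hk).mono_left (Metric.closedBall_subset_closedBall
        (pow_le_pow_of_le_one (by norm_num) (by norm_num) hn))⟩
    obtain ⟨N, hN⟩ := hK.elim_directed_cover (fun n => ⋃ W : J n, W.1)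
      (fun n => isOpen_iUnion fun W => W.2.1)
      (fun g hg => by
        obtain ⟨n, W, h1, h2, h3⟩ := exists_tube hU g fun s => hA (hKA hg s)
        exact mem_iUnion.2 ⟨n, mem_iUnion.2 ⟨⟨W, h1, h3⟩, h2⟩⟩) hmono.directed_le
    obtain ⟨m0, h0⟩ := ha (J N) (fun W => W.1) K (fun W => W.2.1) hN
    refine ⟨max m0 N, fun m hm => ?_⟩
    rw [prj_unc, e]
    refine sd_pow_unc _ m _ fun φ hφ => ?_
    have hle : (⨆ W : J N, CC F (K ∩ W.1)) ≤
        (⨆ i, CC F (A ∩ U i)).comap (unc ∘ₗ map (prec φ X)) := by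
      refine iSup_le fun W b hb => ?_
      obtain ⟨i, hi⟩ := W.2.2 (φ 0)
      refine Submodule.mem_iSup_of_mem i (unc_mem_CC (map_mem_CC (fun g hg t => ?_) hb))
      exact ⟨hKA hg.1 (φ t), hi g hg.2 ((hφ t 0).trans
        (pow_le_pow_of_le_one (by norm_num) (by norm_num) (le_of_max_le_right hm)))⟩
    exact hle (h0 m (le_of_max_le_left hm))

/-- iterated subdivision makes a chain small -/
theorem small {ι : Type} {U : ι → Set X} (hU : ∀ i, IsOpen (U i)) {A : Set X}
    (hA : A ⊆ ⋃ i, U i) {c : Ch F X} (h : c ∈ CC F A) :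
    ∃ m0, ∀ m, m0 ≤ m → (sd ^ m : Module.End F (Ch F X)) c ∈ ⨆ i, CC F (A ∩ U i) := by
  have := small_aux X c ι U A hU hA
  rwa [mem_CC.1 h] at this

theorem small_two {U V : Set X} (hU : IsOpen U) (hV : IsOpen V) {A : Set X} (hA : A ⊆ U ∪ V)
    {c : Ch F X} (h : c ∈ CC F A) :
    ∃ m0, ∀ m, m0 ≤ m → (sd ^ m : Module.End F (Ch F X)) c ∈ CC F (A ∩ U) ⊔ CC F (A ∩ V) := by
  obtain ⟨m0, h0⟩ := small (U := fun b : Bool => cond b U V) (by rintro (_ | _) <;> assumption)
    (fun x hx => (hA hx).elim (fun h => mem_iUnion.2 ⟨true, h⟩) fun h => mem_iUnion.2 ⟨false, h⟩) h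
  refine ⟨m0, fun m hm => ?_⟩
  have := h0 m hm
  rwa [iSup_bool_eq] at this

end Pool.Agent.Fu
end

-- part Pool.Agent.P.MP_365c00_gt.ZC12
section

/-! Excision and the Mayer-Vietoris step. -/

set_option linter.unusedSectionVars false
set_option linter.unusedVariables false

open Set Topology unitInterval TensorProduct

namespace Pool.Agent.Fu

variable {F : Type} [Field F] {X Y Z : Type} [TopologicalSpace X] [TopologicalSpace Y]
  [TopologicalSpace Z]

/-- the Mayer-Vietoris step -/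
theorem mv {A U V : Set X} (hU : IsOpen U) (hV : IsOpen V) {m n1 n2 : Ch F X}
    (hm : m ∈ CC F (A ∩ (U ∪ V))) (h1 : n1 ∈ CC F (A ∩ U)) (h2 : n2 ∈ CC F (A ∩ V))
    (hd : bd m = n2 - n1) :
    ∃ m1 ∈ CC F (A ∩ U), ∃ m2 ∈ CC F (A ∩ V), ∃ c ∈ CC F (A ∩ (U ∪ V)), m = m1 + m2 + bd c := by
  obtain ⟨k, hk⟩ := small_two hU hV (A := A ∩ (U ∪ V)) inter_subset_right hm
  obtain ⟨a, ha, b, hb, hab⟩ := Submodule.mem_sup.1 (hk k le_rfl)
  obtain ⟨K, hK, hKC, -⟩ := exists_sd_pow_htp F X k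
  have ha' : a ∈ CC F (A ∩ U) := CC_mono (inter_subset_inter_left U inter_subset_left) ha
  have hb' : b ∈ CC F (A ∩ V) := CC_mono (inter_subset_inter_left V inter_subset_left) hb
  refine ⟨a - K n1, Submodule.sub_mem _ ha' (hKC _ _ h1), b + K n2,
    Submodule.add_mem _ hb' (hKC _ _ h2), K m, hKC _ _ hm, ?_⟩
  have e := hK m
  rw [← hab, hd, map_sub, sub_eq_iff_eq_add] at e
  calc m = bd (K m) + (K n2 - K n1) + (a + b) := e
    _ = _ := by abel

theorem exc_surj {A B U V : Set X} (hU : IsOpen U) (hV : IsOpen V) (hA : A ⊆ U ∪ V)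
    (hB : A ∩ V ⊆ B) {c : Ch F X} (h : c ∈ ZZ F A B) :
    ∃ c' ∈ ZZ F (A ∩ U) (B ∩ U), c - c' ∈ NN F A (A ∩ B) ∧
      ∀ k, c ∈ HD F X k → c' ∈ HD F X k := by
  obtain ⟨hc, hdc⟩ := mem_ZZ.1 h
  obtain ⟨k, hk⟩ := small_two hU hV hA hc
  obtain ⟨a, ha, b, hb, hab⟩ := Submodule.mem_sup.1 (hk k le_rfl)
  obtain ⟨K, hK, hKC, -⟩ := exists_sd_pow_htp F X k
  set z := (sd ^ k : Module.End F (Ch F X)) c with hz
  have h1 : z - prj (A ∩ U) z ∈ CC F (A ∩ V) := by
    have e : z - prj (A ∩ U) z = b - prj (A ∩ U) b := by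
      rw [← hab, map_add, mem_CC.1 ha]; abel
    rw [e]
    exact Submodule.sub_mem _ hb (CC_mono inter_subset_right (prj_mem_inter _ hb))
  have h2 : prj (A ∩ U) z ∈ CC F (A ∩ U) := prj_mem_CC _ _
  have h3 : bd (prj (A ∩ U) z) ∈ CC F B := by
    have e : bd (prj (A ∩ U) z) = bd z - bd (z - prj (A ∩ U) z) := by
      rw [map_sub]; abel
    rw [e]
    refine Submodule.sub_mem _ ?_ (CC_mono hB (bd_mem_CC h1))
    rw [hz, bd_sd_pow]
    exact sd_pow_mem_CC k hdc
  have h4 : bd c ∈ CC F (A ∩ B) := by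
    rw [CC_inter]; exact ⟨bd_mem_CC hc, hdc⟩
  refine ⟨prj (A ∩ U) z, mem_ZZ.2 ⟨h2, ?_⟩, mem_NN.2 ⟨K c, hKC _ _ hc, ?_⟩, fun j hj => ?_⟩
  · rw [CC_inter]
    exact ⟨h3, CC_mono inter_subset_right (bd_mem_CC h2)⟩
  · have e : c - prj (A ∩ U) z - bd (K c) = K (bd c) + (z - prj (A ∩ U) z) := by
      have e1 := hK c
      rw [← hz] at e1
      calc c - prj (A ∩ U) z - bd (K c) = (c - z) - bd (K c) + (z - prj (A ∩ U) z) := by abel
        _ = _ := by rw [e1]; abel
    rw [e]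
    exact Submodule.add_mem _ (hKC _ _ h4) (CC_mono (subset_inter inter_subset_left hB) h1)
  · have e : dg j z = z := mem_HD.1 (sd_pow_mem_HD k hj)
    rw [mem_HD, ← prj_dg, e]

theorem exc_inj {A B U V : Set X} (hU : IsOpen U) (hV : IsOpen V) (hA : A ⊆ U ∪ V)
    (hB : A ∩ V ⊆ B) {c : Ch F X} (h : c ∈ ZZ F (A ∩ U) B) (hn : c ∈ NN F A B) :
    c ∈ NN F (A ∩ U) (B ∩ U) := by
  obtain ⟨hc, hdc⟩ := mem_ZZ.1 h
  obtain ⟨g, hg, hb⟩ := mem_NN.1 hn
  obtain ⟨k, hk⟩ := small_two hU hV hA hg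
  obtain ⟨g1, h1, g2, h2, h12⟩ := Submodule.mem_sup.1 (hk k le_rfl)
  obtain ⟨K, hK, hKC, -⟩ := exists_sd_pow_htp F X k
  have h3 : K c + g1 ∈ CC F (A ∩ U) := Submodule.add_mem _ (hKC _ _ hc) h1
  refine mem_NN.2 ⟨K c + g1, h3, ?_⟩
  rw [CC_inter]
  refine ⟨?_, CC_mono inter_subset_right (Submodule.sub_mem _ hc (bd_mem_CC h3))⟩
  have e : c - bd (K c + g1) =
      K (bd c) + bd g2 + (sd ^ k : Module.End F (Ch F X)) (c - bd g) := by
    have e1 := hK c
    rw [sub_eq_iff_eq_add] at e1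
    rw [map_sub, ← bd_sd_pow, ← h12, map_add, map_add]
    calc c - (bd (K c) + bd g1) =
        bd (K c) + K (bd c) + (sd ^ k : Module.End F (Ch F X)) c - (bd (K c) + bd g1) := by
          rw [← e1]
      _ = _ := by abel
  show c - bd (K c + g1) ∈ CC F B
  rw [e]
  exact Submodule.add_mem _ (Submodule.add_mem _ (hKC _ _ hdc) (CC_mono hB (bd_mem_CC h2)))
    (sd_pow_mem_CC k hb)

theorem QI_exc {A B U V : Set X} (hU : IsOpen U) (hV : IsOpen V) (hA : A ⊆ U ∪ V)
    (hB : A ∩ V ⊆ B) (hBA : B ⊆ A) :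
    QI bd bd LinearMap.id (CC F (A ∩ U)) (CC F (B ∩ U)) (CC F A) (CC F B) := by
  refine ⟨fun c hc hd hn => ?_, fun c hc hd => ?_⟩
  · exact exc_inj hU hV hA hB (mem_ZZ.2 ⟨hc, CC_mono inter_subset_left hd⟩) hn
  · obtain ⟨c', h1, h2, -⟩ := exc_surj hU hV hA hB (mem_ZZ.2 ⟨hc, hd⟩)
    refine ⟨c', (mem_ZZ.1 h1).1, (mem_ZZ.1 h1).2, ?_⟩
    have h3 : c - c' ∈ NN F A B := NN_mono Subset.rfl inter_subset_right h2
    have h4 := Submodule.neg_mem _ h3
    rw [neg_sub] at h4
    exact h4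

/-- a relative boundary whose boundary is small is a boundary up to a small chain -/
theorem NN_small_gen {A B : Set X} (hBA : B ⊆ A) {S : Submodule F (Ch F X)}
    (hS : ∀ K : Ch F X →ₗ[F] Ch F X, (∀ (A : Set X), ∀ c ∈ CC F A, K c ∈ CC F A) →
      ∀ c ∈ S, K c ∈ S)
    (hsm : ∀ b ∈ CC F B, ∃ m, (sd ^ m : Module.End F (Ch F X)) b ∈ S)
    {c : Ch F X} (hc : bd c ∈ S) (hn : c ∈ NN F A B) : c ∈ BB F A ⊔ S := by
  obtain ⟨g, hg, hb⟩ := mem_NN.1 hn
  obtain ⟨k, hk⟩ := hsm _ hb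
  obtain ⟨K, hK, hKC, -⟩ := exists_sd_pow_htp F X k
  have e0 : bd (c - bd g) = bd c := by rw [map_sub, bd_bd, sub_zero]
  have e1 := hK (c - bd g)
  rw [e0, sub_eq_iff_eq_add] at e1
  have e : c = bd (g + K (c - bd g)) +
      (K (bd c) + (sd ^ k : Module.End F (Ch F X)) (c - bd g)) := by
    rw [map_add]
    calc c = bd g + (c - bd g) := by abel
      _ = bd g + (bd (K (c - bd g)) + K (bd c) +
          (sd ^ k : Module.End F (Ch F X)) (c - bd g)) := by rw [← e1]
      _ = _ := by abel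
  rw [e]
  exact Submodule.add_mem_sup
    (mem_BB.2 ⟨_, Submodule.add_mem _ hg (CC_mono hBA (hKC _ _ hb)), rfl⟩)
    (Submodule.add_mem _ (hS K hKC _ hc) hk)

/-- a relative cycle is homologous to one with small boundary -/
theorem ZZ_small_gen {A B : Set X} {S : Submodule F (Ch F X)}
    (hsm : ∀ b ∈ CC F B, ∃ m, (sd ^ m : Module.End F (Ch F X)) b ∈ S)
    {c : Ch F X} (hc : c ∈ ZZ F A B) :
    ∃ c' ∈ CC F A, bd c' ∈ S ∧ c - c' ∈ NN F A (A ∩ B) ∧ ∀ k, c ∈ HD F X k → c' ∈ HD F X k := by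
  obtain ⟨h1, h2⟩ := mem_ZZ.1 hc
  obtain ⟨k, hk⟩ := hsm _ h2
  obtain ⟨K, hK, hKC, -⟩ := exists_sd_pow_htp F X k
  have h4 : bd c ∈ CC F (A ∩ B) := by
    rw [CC_inter]; exact ⟨bd_mem_CC h1, h2⟩
  refine ⟨_, sd_pow_mem_CC k h1, by rw [bd_sd_pow]; exact hk,
    mem_NN.2 ⟨K c, hKC _ _ h1, ?_⟩, fun j hj => sd_pow_mem_HD k hj⟩
  rw [hK c, add_sub_cancel_left]
  exact hKC _ _ h4

/-- the chains of a union of relatively open sets may be replaced by sums -/
theorem QI_small {ι : Type} {U : ι → Set X} (hU : ∀ i, IsOpen (U i)) {A B : Set X} (hBA : B ⊆ A)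
    (hB : B ⊆ ⋃ i, U i) :
    QI bd bd LinearMap.id (CC F A) (⨆ i, CC F (B ∩ U i)) (CC F A) (CC F B) := by
  have hsm : ∀ b ∈ CC F B, ∃ m, (sd ^ m : Module.End F (Ch F X)) b ∈ ⨆ i, CC F (B ∩ U i) :=
    fun b hb => by
      obtain ⟨m, hm⟩ := small hU hB hb
      exact ⟨m, hm m le_rfl⟩
  refine ⟨fun c hc hd hn => ?_, fun c hc hd => ?_⟩
  · refine NN_small_gen hBA (fun K hK => ?_) hsm hd hn
    exact iSup_le (a := Submodule.comap K (⨆ i, CC F (B ∩ U i))) fun i c hc =>
      Submodule.mem_iSup_of_mem i (hK _ _ hc)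
  · obtain ⟨c', h0, h1, h2, -⟩ := ZZ_small_gen hsm (mem_ZZ.2 ⟨hc, hd⟩)
    refine ⟨c', h0, h1, ?_⟩
    have h3 : c - c' ∈ NN F A B := NN_mono Subset.rfl inter_subset_right h2
    have h4 := Submodule.neg_mem _ h3
    rw [neg_sub] at h4
    exact h4

theorem NN_small_two {A B U V : Set X} (hU : IsOpen U) (hV : IsOpen V) (hBA : B ⊆ A)
    (hB : B ⊆ U ∪ V) {c : Ch F X} (hc : bd c ∈ CC F (B ∩ U) ⊔ CC F (B ∩ V)) (hn : c ∈ NN F A B) :
    c ∈ BB F A ⊔ (CC F (B ∩ U) ⊔ CC F (B ∩ V)) := by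
  refine NN_small_gen hBA (fun K hK c hc => ?_) (fun b hb => ?_) hc hn
  · obtain ⟨a, ha, b, hb, rfl⟩ := Submodule.mem_sup.1 hc
    rw [map_add]
    exact Submodule.add_mem_sup (hK _ _ ha) (hK _ _ hb)
  · obtain ⟨m, hm⟩ := small_two hU hV hB hb
    exact ⟨m, hm m le_rfl⟩

theorem ZZ_small_two {A B U V : Set X} (hU : IsOpen U) (hV : IsOpen V) (hB : B ⊆ U ∪ V)
    {c : Ch F X} (hc : c ∈ ZZ F A B) :
    ∃ c' ∈ CC F A, bd c' ∈ CC F (B ∩ U) ⊔ CC F (B ∩ V) ∧ c - c' ∈ NN F A (A ∩ B) ∧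
      ∀ k, c ∈ HD F X k → c' ∈ HD F X k := by
  refine ZZ_small_gen (fun b hb => ?_) hc
  obtain ⟨m, hm⟩ := small_two hU hV hB hb
  exact ⟨m, hm m le_rfl⟩

theorem map_pow_iterate (s : C(X, X)) (n : ℕ) (c : Ch F X) :
    ((map s : Module.End F (Ch F X)) ^ n) c = map ⟨s^[n], s.continuous.iterate n⟩ c := by
  induction n generalizing c with
  | zero => exact (map_id' c).symm
  | succ n ih => rw [pow_succ, Module.End.mul_apply, ih, map_map]; rfl

/-- the complex of chains with the action of a periodic map -/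
noncomputable def gc (F : Type) [Field F] {q : ℕ} (s : C(X, X)) (hs : ∀ x, s^[q] x = x) :
    GC F q (Ch F X) where
  d := bd
  s := map s
  dd := bd_bd
  ds := bd_map s
  pow := by
    refine LinearMap.ext fun c => ?_
    have e : (⟨s^[q], s.continuous.iterate q⟩ : C(X, X)) = ContinuousMap.id X :=
      ContinuousMap.ext hs
    rw [map_pow_iterate, e, map_id']
    rfl

theorem gc_st {q : ℕ} {s : C(X, X)} (hs : ∀ x, s^[q] x = x) {A : Set X} (hA : MapsTo s A A) :
    (gc F s hs).St (CC F A) :=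
  ⟨fun _ hc => bd_mem_CC hc, fun _ hc => map_mem_CC hA hc⟩
theorem gc_gr {q : ℕ} {s : C(X, X)} (hs : ∀ x, s^[q] x = x) : (gc F s hs).Gr (HD F X) :=
  ⟨fun _ _ hc => bd_mem_HD hc, fun _ _ hc => map_mem_HD s hc⟩
theorem gc_eqMap {q : ℕ} {s : C(X, X)} (hs : ∀ x, s^[q] x = x) {s' : C(Y, Y)}
    (hs' : ∀ x, s'^[q] x = x) {f : X → Y} {A B : Set X} {A' B' : Set Y} (hf : ContinuousOn f A)
    (hA : MapsTo s A A) (he : ∀ x ∈ A, f (s x) = s' (f x)) (h1 : MapsTo f A A')
    (h2 : MapsTo f B B') :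
    EqMap (gc F s hs) (gc F s' hs') (mp f) (CC F A) (CC F B) (CC F A') (CC F B') where
  d c hc := bd_mp hf hc
  s c hc := by
    show map s' (mp f c) = mp f (map s c)
    rw [map_mp s' hf hc, mp_map s f hf (CC_mono (fun x hx => hA hx) hc)]
    exact mp_congr (fun x hx => (he x hx).symm) hc
  A c hc := mp_mem_CC h1 hc
  B c hc := mp_mem_CC h2 hc
theorem van_of_NN {A B A' B' : Set X} {k : ℕ}
    (h : ∀ c ∈ ZZ F A B, c ∈ HD F X k → c ∈ NN F A' B') :
    Van bd (HD F X) k (CC F A) (CC F B) (CC F A') (CC F B') :=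
  fun c hc hk hd => NN_HD hk (h c (mem_ZZ.2 ⟨hc, hd⟩) hk)

end Pool.Agent.Fu
end

-- part Pool.Agent.P.MP_365c00_gt.ZK
section

/-! The theorem of Kuenneth over a field, in the form of a detection principle. -/

set_option linter.unusedSectionVars false
set_option linter.unusedVariables false

open Set Topology unitInterval TensorProduct

namespace Pool.Agent.Fu

variable {F : Type} [Field F] {X Y Z : Type} [TopologicalSpace X] [TopologicalSpace Y]
  [TopologicalSpace Z]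

section Alg

variable {P Q : Type} [AddCommGroup P] [Module F P] [AddCommGroup Q] [Module F Q]

theorem zk_ginv (φ : P →ₗ[F] Q) : ∃ g : Q →ₗ[F] P, ∀ u, φ (g (φ u)) = φ u := by
  obtain ⟨r, hr⟩ := φ.rangeRestrict.exists_rightInverse_of_surjective φ.range_rangeRestrict
  obtain ⟨g, hg⟩ := LinearMap.exists_extend r
  refine ⟨g, fun u => ?_⟩
  have h1 : g (φ u) = r ⟨φ u, LinearMap.mem_range_self φ u⟩ :=
    LinearMap.congr_fun hg ⟨φ u, LinearMap.mem_range_self φ u⟩
  rw [h1]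
  exact congrArg Subtype.val (LinearMap.congr_fun hr ⟨φ u, LinearMap.mem_range_self φ u⟩)

theorem zk_tmul {A : Submodule F P} {B : Submodule F Q} {a : P} {b : Q} (ha : a ∈ A) (hb : b ∈ B) :
    a ⊗ₜ[F] b ∈ TS A B :=
  Submodule.subset_span ⟨a, ha, b, hb, rfl⟩

theorem zk_TS_ind {R : Type} [AddCommGroup R] [Module F R] {A : Submodule F P} {B : Submodule F Q}
    (L : P ⊗[F] Q →ₗ[F] R) (T : Submodule F R) (h : ∀ a ∈ A, ∀ b ∈ B, L (a ⊗ₜ b) ∈ T)
    {z : P ⊗[F] Q} (hz : z ∈ TS A B) : L z ∈ T := by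
  have : TS A B ≤ T.comap L := by
    refine Submodule.span_le.2 ?_
    rintro _ ⟨a, ha, b, hb, rfl⟩
    exact h a ha b hb
  exact this hz

theorem zk_detect (R : Submodule F Q) (y : P ⊗[F] Q)
    (h : ∀ l : P →ₗ[F] F, TensorProduct.lid F Q (TensorProduct.map l LinearMap.id y) ∈ R) :
    y ∈ TS (⊤ : Submodule F P) R := by
  classical
  let b := Module.Basis.ofVectorSpace F P
  have hc : ∀ (y : P ⊗[F] Q) i, TensorProduct.equivFinsuppOfBasisLeft b y i =
      TensorProduct.lid F Q (TensorProduct.map (b.coord i) LinearMap.id y) := by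
    intro y i
    induction y using TensorProduct.induction_on with
    | zero => simp
    | tmul a q => simp
    | add x y hx hy => simp only [map_add, Finsupp.add_apply, hx, hy]
  rw [← (TensorProduct.equivFinsuppOfBasisLeft b).symm_apply_apply y,
    TensorProduct.equivFinsuppOfBasisLeft_symm_apply]
  refine Submodule.sum_mem _ fun i _ => zk_tmul Submodule.mem_top ?_
  rw [hc]
  exact h _

/-- a contraction that anticommutes with the sign -/
theorem zk_contr (h2 : (2 : F) ≠ 0) (d w : P →ₗ[F] P) (hww : ∀ a, w (w a) = a)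
    (hwd : ∀ a, w (d a) = - d (w a)) {A A' : Submodule F P} (sA : ∀ a ∈ A, d a ∈ A ∧ w a ∈ A)
    (sA' : ∀ a ∈ A', d a ∈ A' ∧ w a ∈ A') :
    ∃ s : P →ₗ[F] P, (∀ x, s x ∈ A) ∧ (∀ x ∈ A', s x = 0) ∧ (∀ x, w (s x) = - s (w x)) ∧
      ∀ a ∈ A, d a - d (s (d a)) ∈ A' := by
  obtain ⟨g, hg⟩ := zk_ginv (A'.mkQ ∘ₗ d ∘ₗ A.subtype)
  let s : P →ₗ[F] P := A.subtype ∘ₗ g ∘ₗ A'.mkQ
  have s1 : ∀ x, s x ∈ A := fun x => (g (A'.mkQ x)).2
  have s2 : ∀ x ∈ A', s x = 0 := fun x hx => by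
    have : A'.mkQ x = 0 := (Submodule.Quotient.mk_eq_zero _).2 hx
    simp only [s, LinearMap.comp_apply, this, map_zero]
  have s3 : ∀ a ∈ A, d a - d (s (d a)) ∈ A' := fun a ha =>
    (Submodule.Quotient.eq _).1 (hg ⟨a, ha⟩).symm
  have hh : (2 : F)⁻¹ + (2 : F)⁻¹ = 1 := by field_simp; norm_num
  refine ⟨(2 : F)⁻¹ • (s - w ∘ₗ s ∘ₗ w), fun x => ?_, fun x hx => ?_, fun x => ?_, fun a ha => ?_⟩
  · exact A.smul_mem _ (A.sub_mem (s1 x) (sA _ (s1 _)).2)
  · simp only [LinearMap.smul_apply, LinearMap.sub_apply, LinearMap.comp_apply, s2 x hx,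
      s2 _ (sA' x hx).2, map_zero, sub_zero, smul_zero]
  · simp only [LinearMap.smul_apply, LinearMap.sub_apply, LinearMap.comp_apply, map_smul, map_sub,
      hww]
    rw [← smul_neg, neg_sub]
  · have e1 := s3 a ha
    have e2 := (sA' _ (s3 _ (sA a ha).2)).2
    have e3 : d a - d (((2 : F)⁻¹ • (s - w ∘ₗ s ∘ₗ w)) (d a)) =
        (2 : F)⁻¹ • ((d a - d (s (d a))) - w (d (w a) - d (s (d (w a))))) := by
      simp only [LinearMap.smul_apply, LinearMap.sub_apply, LinearMap.comp_apply, map_smul, map_sub,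
        hwd, hww, map_neg]
      have e4 : d a = (2 : F)⁻¹ • (d a + d a) := by rw [smul_add, ← add_smul, hh, one_smul]
      nth_rewrite 1 [e4]
      rw [← smul_sub]
      congr 1
      abel
    rw [e3]
    exact A'.smul_mem _ (A'.sub_mem e1 e2)

end Alg

/-- the algebraic statement -/
theorem ku_alg (h2 : (2 : F) ≠ 0) {P Q : Type} [AddCommGroup P] [Module F P] [AddCommGroup Q]
    [Module F Q] (d w : P →ₗ[F] P) (e : Q →ₗ[F] Q) (hdd : ∀ a, d (d a) = 0)
    (hww : ∀ a, w (w a) = a) (hwd : ∀ a, w (d a) = - d (w a)) {A A' : Submodule F P}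
    {B0 B0' B1 B1' : Submodule F Q} (hA' : A' ≤ A) (sA : ∀ a ∈ A, d a ∈ A ∧ w a ∈ A)
    (sA' : ∀ a ∈ A', d a ∈ A' ∧ w a ∈ A') (h01 : B0 ≤ B1) (h01' : B0' ≤ B1')
    (sB : ∀ b ∈ B0, e b ∈ B0) {z : P ⊗[F] Q} (hz : z ∈ TS A B0)
    (hd : (TensorProduct.map d LinearMap.id + TensorProduct.map w e :
      P ⊗[F] Q →ₗ[F] P ⊗[F] Q) z ∈ TS A' B0 ⊔ TS A B0')
    (hl : ∀ l : P →ₗ[F] F, (∀ a ∈ A, l (d a) = 0) → (∀ a ∈ A', l a = 0) →
      TensorProduct.lid F Q (TensorProduct.map l LinearMap.id z) ∈ B1.map e ⊔ B1') :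
    z ∈ (TS A B1).map (TensorProduct.map d LinearMap.id + TensorProduct.map w e :
      P ⊗[F] Q →ₗ[F] P ⊗[F] Q) ⊔
      (TS A' B1 ⊔ TS A B1') := by
  obtain ⟨s, s1, s2, s3, s4⟩ := zk_contr h2 d w hww hwd sA sA'
  set D : P ⊗[F] Q →ₗ[F] P ⊗[F] Q := TensorProduct.map d LinearMap.id + TensorProduct.map w e
    with hD
  set T := (TS A B1).map D ⊔ (TS A' B1 ⊔ TS A B1') with hT
  have T1 : ∀ x ∈ TS A B1, D x ∈ T := fun x hx =>
    Submodule.mem_sup_left (Submodule.mem_map_of_mem hx)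
  have T2 : ∀ x ∈ TS A' B1, x ∈ T := fun x hx => Submodule.mem_sup_right (Submodule.mem_sup_left hx)
  have T3 : ∀ x ∈ TS A B1', x ∈ T := fun x hx =>
    Submodule.mem_sup_right (Submodule.mem_sup_right hx)
  let S : P ⊗[F] Q →ₗ[F] P ⊗[F] Q := TensorProduct.map s LinearMap.id
  let π : P →ₗ[F] P := LinearMap.id - d ∘ₗ s - s ∘ₗ d
  have hπ : ∀ x, π x = x - d (s x) - s (d x) := fun x => rfl
  have dec : ∀ y : P ⊗[F] Q, y = TensorProduct.map π LinearMap.id y + D (S y) + S (D y) := by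
    intro y
    induction y using TensorProduct.induction_on with
    | zero => simp
    | tmul a q =>
      simp only [hD, S, LinearMap.add_apply, TensorProduct.map_tmul, LinearMap.id_apply, map_add,
        hπ, s3, TensorProduct.sub_tmul, TensorProduct.neg_tmul]
      abel
    | add x y hx hy =>
      simp only [map_add]
      nth_rewrite 1 [hx, hy]
      abel
  let Zs : Submodule F P := A ⊓ A'.comap d
  have p1 : ∀ a ∈ A, π a ∈ Zs := fun a ha => by
    refine ⟨A.sub_mem (A.sub_mem ha (sA _ (s1 a)).1) (s1 _), ?_⟩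
    show d (π a) ∈ A'
    rw [hπ, map_sub, map_sub, hdd, sub_zero]
    exact s4 a ha
  have p2 : ∀ a ∈ A, π (d a) ∈ A' := fun a ha => by
    rw [hπ, hdd, map_zero, sub_zero]
    exact s4 a ha
  have p3 : ∀ a ∈ A', π a ∈ A' := fun a ha => by
    rw [hπ, s2 a ha, s2 _ (sA' a ha).1, map_zero, sub_zero, sub_zero]
    exact ha
  obtain ⟨g, hg⟩ := zk_ginv (A'.mkQ ∘ₗ Zs.subtype)
  let sg : (P ⧸ A') →ₗ[F] P := Zs.subtype ∘ₗ g
  let y : (P ⧸ A') ⊗[F] Q := TensorProduct.map (A'.mkQ ∘ₗ π) LinearMap.id z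
  have hy : y ∈ TS (⊤ : Submodule F (P ⧸ A')) (B1.map e ⊔ B1') := by
    refine zk_detect _ y fun l => ?_
    have := hl (l ∘ₗ A'.mkQ ∘ₗ π) (fun a ha => by
      have : A'.mkQ (π (d a)) = 0 := (Submodule.Quotient.mk_eq_zero _).2 (p2 a ha)
      simp only [LinearMap.comp_apply, this, map_zero]) (fun a ha => by
      have : A'.mkQ (π a) = 0 := (Submodule.Quotient.mk_eq_zero _).2 (p3 a ha)
      simp only [LinearMap.comp_apply, this, map_zero])
    have e1 : TensorProduct.map l LinearMap.id y =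
        TensorProduct.map (l ∘ₗ A'.mkQ ∘ₗ π) LinearMap.id z := by
      simp only [y]
      rw [← LinearMap.comp_apply, ← TensorProduct.map_comp, LinearMap.id_comp]
    rw [e1]
    exact this
  have q1 : TensorProduct.map sg LinearMap.id y ∈ T := by
    refine zk_TS_ind _ T (fun v _ b hb => ?_) hy
    obtain ⟨_, ⟨b1, hb1, rfl⟩, b', hb', rfl⟩ := Submodule.mem_sup.1 hb
    have hZ : sg v ∈ Zs := (g v).2
    rw [TensorProduct.map_tmul, LinearMap.id_apply, TensorProduct.tmul_add]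
    refine T.add_mem ?_ (T3 _ (zk_tmul hZ.1 hb'))
    have e1 : sg v ⊗ₜ[F] e b1 = D (w (sg v) ⊗ₜ b1) + w (d (sg v)) ⊗ₜ b1 := by
      simp only [hD, LinearMap.add_apply, TensorProduct.map_tmul, LinearMap.id_apply, hww, hwd,
        TensorProduct.neg_tmul]
      abel
    rw [e1]
    exact T.add_mem (T1 _ (zk_tmul (sA _ hZ.1).2 hb1)) (T2 _ (zk_tmul (sA' _ hZ.2).2 hb1))
  have q2 : (TensorProduct.map π LinearMap.id -
      TensorProduct.map sg LinearMap.id ∘ₗ TensorProduct.map (A'.mkQ ∘ₗ π) LinearMap.id :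
        P ⊗[F] Q →ₗ[F] P ⊗[F] Q) z ∈ T := by
    refine zk_TS_ind _ T (fun a ha b hb => ?_) hz
    simp only [LinearMap.sub_apply, LinearMap.comp_apply, TensorProduct.map_tmul,
      LinearMap.id_apply]
    rw [← TensorProduct.sub_tmul]
    refine T2 _ (zk_tmul ?_ (h01 hb))
    exact (Submodule.Quotient.eq _).1 (hg ⟨π a, p1 a ha⟩).symm
  have q3 : TensorProduct.map π LinearMap.id z ∈ T := by
    have := T.add_mem q2 q1
    simp only [LinearMap.sub_apply, LinearMap.comp_apply, y, sub_add_cancel] at this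
    exact this
  have q4 : D (S z) ∈ T :=
    T1 _ (zk_TS_ind S _ (fun a ha b hb => zk_tmul (s1 a) (h01 hb)) hz)
  have q5 : S (D z) ∈ T := by
    obtain ⟨x, hx, x', hx', h⟩ := Submodule.mem_sup.1 hd
    rw [← h, map_add]
    refine T.add_mem (zk_TS_ind S _ (fun a ha b hb => ?_) hx)
      (zk_TS_ind S _ (fun a ha b hb => T3 _ (zk_tmul (s1 a) (h01' hb))) hx')
    simp only [S, TensorProduct.map_tmul, s2 a ha, TensorProduct.zero_tmul]
    exact T.zero_mem
  rw [dec z]
  exact T.add_mem (T.add_mem q3 q4) q5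

/-- a relative cycle of a product is null if all its slant products are -/
theorem ku (h2 : (2 : F) ≠ 0) {A A' : Set X} {B0 B0' B1 B1' : Set Y} (hA : A' ⊆ A)
    (h0 : B0' ⊆ B0) (h01 : B0 ⊆ B1) (h01' : B0' ⊆ B1') {c : Ch F (X × Y)}
    (hc : c ∈ CC F (A ×ˢ B0)) (hd : bd c ∈ CC F (A' ×ˢ B0) ⊔ CC F (A ×ˢ B0'))
    (hl : ∀ l : Ch F X →ₗ[F] F, (∀ a ∈ NN F A A', l a = 0) → sl l c ∈ NN F B1 B1') :
    c ∈ BB F (A ×ˢ B1) ⊔ (CC F (A' ×ˢ B1) ⊔ CC F (A ×ˢ B1')) := by
  have h1 := ku_alg h2 (bd : Ch F X →ₗ[F] Ch F X) om (bd : Ch F Y →ₗ[F] Ch F Y) bd_bd om_om om_bd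
    (A := CC F A) (A' := CC F A') (B0 := CC F B0) (B0' := CC F B0') (B1 := CC F B1)
    (B1' := CC F B1') (CC_mono hA) (fun a ha => ⟨bd_mem_CC ha, om_mem_CC ha⟩)
    (fun a ha => ⟨bd_mem_CC ha, om_mem_CC ha⟩) (CC_mono h01) (CC_mono h01')
    (fun b hb => bd_mem_CC hb) (cop_mem hc) (by
      change tbd (cop c) ∈ _
      rw [tbd_cop]
      obtain ⟨x, hx, x', hx', h⟩ := Submodule.mem_sup.1 hd
      rw [← h, map_add]
      exact Submodule.add_mem_sup (cop_mem hx) (cop_mem hx')) (fun l l1 l2 => by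
      refine hl l fun a ha => ?_
      obtain ⟨_, ⟨u, hu, rfl⟩, v, hv, rfl⟩ := Submodule.mem_sup.1 ha
      rw [map_add, l1 u hu, l2 v hv, add_zero])
  obtain ⟨K, K1, K2⟩ := exists_ez F X Y
  have e1 : c = kap (cop c) + (bd (K c) + K (bd c)) := by rw [← K1, add_sub_cancel]
  rw [e1]
  refine Submodule.add_mem _ ?_ (Submodule.add_mem_sup ?_ ?_)
  · obtain ⟨_, ⟨u, hu, rfl⟩, v, hv, h⟩ := Submodule.mem_sup.1 h1
    obtain ⟨v1, hv1, v2, hv2, rfl⟩ := Submodule.mem_sup.1 hv
    rw [← h, map_add, map_add]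
    refine Submodule.add_mem_sup ?_ (Submodule.add_mem_sup (kap_mem hv1) (kap_mem hv2))
    exact ⟨kap u, kap_mem hu, bd_kap u⟩
  · exact ⟨K c, CC_mono (prod_mono subset_rfl h01) (K2 _ _ c hc), rfl⟩
  · obtain ⟨x, hx, x', hx', h⟩ := Submodule.mem_sup.1 hd
    rw [← h, map_add]
    exact Submodule.add_mem_sup (CC_mono (prod_mono subset_rfl h01) (K2 _ _ x hx))
      (CC_mono (prod_mono subset_rfl h01') (K2 _ _ x' hx'))

theorem zk_sl_rel {A A' : Set X} {B B' : Set Y} {c : Ch F (X × Y)}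
    (hc : c ∈ CC F (A' ×ˢ B) ⊔ CC F (A ×ˢ B')) {l : Ch F X →ₗ[F] F}
    (hl : ∀ a ∈ CC F A', l a = 0) : sl l c ∈ CC F B' := by
  obtain ⟨x, hx, x', hx', rfl⟩ := Submodule.mem_sup.1 hc
  rw [map_add, sl_zero hl hx, zero_add]
  exact sl_mem l hx'

theorem zk_sl_congr {A : Set X} {B : Set Y} {c : Ch F (X × Y)} (hc : c ∈ CC F (A ×ˢ B))
    {l m : Ch F X →ₗ[F] F} (h : ∀ a ∈ CC F A, l a = m a) : sl l c = sl m c := by
  have e1 : sl ((l - m) + m) c = sl (l - m) c + sl m c := by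
    simp only [sl, LinearMap.comp_apply, TensorProduct.map_add_left, LinearMap.add_apply, map_add]
  rw [sub_add_cancel, sl_zero (l := l - m) (A := A) (B := B) (fun a ha => by
    rw [LinearMap.sub_apply, h a ha, sub_self]) hc, zero_add] at e1
  exact e1

theorem sl_mem_ZZ {A A' : Set X} {B B' : Set Y} {c : Ch F (X × Y)}
    (hc : c ∈ CC F (A ×ˢ B)) (hd : bd c ∈ CC F (A' ×ˢ B) ⊔ CC F (A ×ˢ B'))
    {l : Ch F X →ₗ[F] F} (hl : ∀ a ∈ NN F A A', l a = 0) : sl l c ∈ ZZ F B B' := by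
  refine mem_ZZ.2 ⟨sl_mem l hc, ?_⟩
  have e1 := sl_bd (l ∘ₗ om) c
  have e2 : (l ∘ₗ om) ∘ₗ om = l := LinearMap.ext fun a => congrArg l (om_om a)
  have e3 : sl ((l ∘ₗ om) ∘ₗ bd) c = 0 := by
    refine sl_zero (fun a ha => ?_) hc
    rw [LinearMap.comp_apply, LinearMap.comp_apply, om_bd, map_neg,
      hl _ (BB_le_NN A A' ⟨om a, om_mem_CC ha, rfl⟩), neg_zero]
  rw [e2, e3, zero_add] at e1
  rw [← e1]
  exact zk_sl_rel hd fun a ha => hl _ (CC_le_NN A A' (om_mem_CC ha))

/-- a functional that vanishes on relative cycles has null slant products -/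
theorem sl_mem_NN {A A' : Set X} {B B' : Set Y} (hA : A' ⊆ A) {c : Ch F (X × Y)}
    (hc : c ∈ CC F (A ×ˢ B)) (hd : bd c ∈ CC F (A' ×ˢ B) ⊔ CC F (A ×ˢ B'))
    {l : Ch F X →ₗ[F] F} (hl : ∀ a ∈ ZZ F A A', l a = 0) : sl l c ∈ NN F B B' := by
  obtain ⟨g, hg⟩ := zk_ginv ((CC F A').mkQ ∘ₗ bd ∘ₗ (CC F A).subtype)
  let m : Ch F X →ₗ[F] F := l ∘ₗ (CC F A).subtype ∘ₗ g ∘ₗ (CC F A').mkQ
  have m1 : ∀ a ∈ CC F A', m a = 0 := fun a ha => by
    have : (CC F A').mkQ a = 0 := (Submodule.Quotient.mk_eq_zero _).2 ha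
    simp only [m, LinearMap.comp_apply, this, map_zero]
  have m2 : ∀ a ∈ CC F A, l a = (m ∘ₗ bd) a := fun a ha => by
    have h1 : bd a - bd ((g ((CC F A').mkQ (bd a)) : CC F A) : Ch F X) ∈ CC F A' :=
      (Submodule.Quotient.eq _).1 (hg ⟨a, ha⟩).symm
    rw [← map_sub] at h1
    have h2 := hl _ (mem_ZZ.2 ⟨(CC F A).sub_mem ha (g ((CC F A').mkQ (bd a))).2, h1⟩)
    rw [map_sub, sub_eq_zero] at h2
    exact h2
  have e1 := sl_bd m c
  rw [← zk_sl_congr hc m2] at e1
  rw [← sub_eq_iff_eq_add.2 e1]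
  exact Submodule.sub_mem _ (CC_le_NN B B' (zk_sl_rel hd m1))
    (BB_le_NN B B' ⟨_, sl_mem _ hc, rfl⟩)

/-- slant products of null chains are null -/
theorem sl_NN_of_null {A A' : Set X} {B B' : Set Y} {c : Ch F (X × Y)}
    (hc : c ∈ BB F (A ×ˢ B) ⊔ (CC F (A' ×ˢ B) ⊔ CC F (A ×ˢ B')))
    {l : Ch F X →ₗ[F] F} (hl : ∀ a ∈ NN F A A', l a = 0) : sl l c ∈ NN F B B' := by
  obtain ⟨_, ⟨h, hh, rfl⟩, v, hv, rfl⟩ := Submodule.mem_sup.1 hc
  rw [map_add, sl_bd, sl_zero (l := l ∘ₗ bd)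
    (fun a ha => hl _ (BB_le_NN A A' ⟨a, ha, rfl⟩)) hh, zero_add]
  exact Submodule.add_mem_sup ⟨_, sl_mem _ hh, rfl⟩
    (zk_sl_rel hv fun a ha => hl _ (CC_le_NN A A' ha))

theorem sr_mem_ZZ {A A' : Set X} {B : Set Y} {c : Ch F (X × Y)} (hc : c ∈ ZZ F (A ×ˢ B) (A' ×ˢ B))
    {l : Ch F Y →ₗ[F] F} (hl : ∀ b ∈ BB F B, l b = 0) : sr l c ∈ ZZ F A A' := by
  obtain ⟨h1, h2⟩ := mem_ZZ.1 hc
  refine mem_ZZ.2 ⟨sr_mem l h1, ?_⟩
  rw [← sr_bd (fun b hb => hl _ ⟨b, hb, rfl⟩) h1]
  exact sr_mem l h2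

theorem sr_mem_NN {A A' : Set X} {B : Set Y} {c : Ch F (X × Y)} (hc : c ∈ NN F (A ×ˢ B) (A' ×ˢ B))
    {l : Ch F Y →ₗ[F] F} (hl : ∀ b ∈ BB F B, l b = 0) : sr l c ∈ NN F A A' := by
  obtain ⟨_, ⟨h, hh, rfl⟩, v, hv, rfl⟩ := Submodule.mem_sup.1 hc
  rw [map_add, sr_bd (fun b hb => hl _ ⟨b, hb, rfl⟩) hh]
  exact Submodule.add_mem_sup ⟨_, sr_mem l hh, rfl⟩ (sr_mem l hv)

end Pool.Agent.Fu
end

-- part Pool.Agent.P.MP_365c00_gt.ZE0
section

/-! Local homology of Euclidean spaces, orientations: definitions. -/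

set_option linter.unusedSectionVars false
set_option linter.unusedVariables false

open Set Topology unitInterval TensorProduct

namespace Pool.Agent.Fu

variable {F : Type} [Field F] {X Y Z : Type} [TopologicalSpace X] [TopologicalSpace Y]
  [TopologicalSpace Z]

/-- `o` generates the local homology of `B` at `c`, which is concentrated in degree `k` -/
structure Gen (F : Type) [Field F] (k : ℕ) (B : Set X) (c : X) (o : Ch F X) : Prop where
  zz : o ∈ ZZ F B (B \ {c})
  hd : o ∈ HD F X k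
  ne : o ∉ NN F B (B \ {c})
  span : ∀ z ∈ ZZ F B (B \ {c}), ∃ r : F, z - r • o ∈ NN F B (B \ {c})

/-- `B` is homeomorphic to an open subset of the Euclidean space of dimension `e` -/
def Euc (e : ℕ) (B : Set X) : Prop :=
  ∃ (φ : X → Fin e → ℝ) (ψ : (Fin e → ℝ) → X) (V : Set (Fin e → ℝ)), IsOpen V ∧
    ContinuousOn φ B ∧ ContinuousOn ψ V ∧ MapsTo φ B V ∧ MapsTo ψ V B ∧
    (∀ x ∈ B, ψ (φ x) = x) ∧ ∀ v ∈ V, φ (ψ v) = v

/-- the homology of `B` along compact sets is that of a manifold of dimension `e` -/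
def EH (F : Type) [Field F] (e : ℕ) (B : Set X) : Prop :=
  ∀ K, IsCompact K → K ⊆ B → ∀ k, ∀ z ∈ ZZ F B (B \ K), z ∈ HD F X k →
    (e < k ∨ (k = e ∧ ∀ c ∈ K, z ∈ NN F B (B \ {c}))) → z ∈ NN F B (B \ K)

/-- an orientation -/
structure OR (F : Type) [Field F] (e : ℕ) (X : Type) [TopologicalSpace X] where
  o : X → Ch F X
  gen : ∀ c, Gen F e univ c (o c)
  loc : ∀ c0, ∃ U ∈ nhds c0, ∃ z ∈ ZZ F univ Uᶜ, z ∈ HD F X e ∧
    ∀ c ∈ U, z - o c ∈ NN F univ (univ \ {c})

/-- finite disjoint unions of small compact sets -/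
def Elem (Sm : Set X → Prop) (K : Set X) : Prop :=
  ∃ (n : ℕ) (P : ℕ → Set X), (∀ i, IsCompact (P i) ∧ Sm (P i)) ∧
    (∀ i j, i ≠ j → Disjoint (P i) (P j)) ∧ K = ⋃ i < n, P i

/-- unions of `J` elementary sets -/
def Cov (Sm : Set X → Prop) (J : ℕ) (C : Set X) : Prop :=
  ∃ K : ℕ → Set X, (∀ j, Elem Sm (K j)) ∧ C = ⋃ j < J, K j

end Pool.Agent.Fu
end
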