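import Mathlib
import Pool.Agent.K.MP_365c00_gt.C6
import Pool.Agent.K.MP_365c00_gt.C5

/-! Moore paths in a metric space with short geodesics: definitions. -/

set_option linter.unusedSectionVars false
set_option linter.unusedVariables false

open Set Topology Filter Metric

namespace Pool.Agent.Fu

variable {F : Type} [Field F] {M : Type} [MetricSpace M] {Z : Type} [TopologicalSpace Z]

/-- Moore paths: a map on the line and a duration -/
abbrev Mo (M : Type) [TopologicalSpace M] : Type := C(ℝ, M) × ℝ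

/-- the point of `[0, b]` nearest to `s` -/
def cl (b s : ℝ) : ℝ := max 0 (min s b)

/-- a function as a continuous map, if it is one -/
noncomputable def mkc (f : ℝ → M) : C(ℝ, M) := by
  classical exact if h : Continuous f then ⟨f, h⟩ else ContinuousMap.const ℝ (f 0)

/-- paths of speed at most one, constant outside `[0, duration]` -/
def IsP (γ : Mo M) : Prop :=
  0 ≤ γ.2 ∧ (∀ s t, dist (γ.1 s) (γ.1 t) ≤ |s - t|) ∧ ∀ s, γ.1 s = γ.1 (cl γ.2 s)

/-- start point -/
def st (γ : Mo M) : M := γ.1 0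
/-- end point -/
def en (γ : Mo M) : M := γ.1 γ.2
/-- the path of duration zero -/
def triv (x : M) : Mo M := (ContinuousMap.const ℝ x, 0)

/-- the part of a path between the times `a` and `b` -/
def seg (γ : Mo M) (a b : ℝ) : Mo M :=
  (⟨fun s => γ.1 (a + cl (b - a) s), by unfold cl; fun_prop⟩, b - a)

/-- concatenation -/
noncomputable def cat (γ γ' : Mo M) : Mo M :=
  (mkc fun s => if s ≤ γ.2 then γ.1 s else γ'.1 (s - γ.2), γ.2 + γ'.2)

/-- paths from `x` to `y` -/
def Pa (x y : M) : Set (Mo M) := {γ | IsP γ ∧ st γ = x ∧ en γ = y}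
/-- paths from `x` to `y` of duration less than `t` -/
def Om (x y : M) (t : ℝ) : Set (Mo M) := {γ | γ ∈ Pa x y ∧ γ.2 < t}
/-- paths from `x` to `y` of duration at most `t` -/
def Omc (x y : M) (t : ℝ) : Set (Mo M) := {γ | γ ∈ Pa x y ∧ γ.2 ≤ t}

/-- the product of chains of paths -/
noncomputable def mul : Ch F (Mo M) →ₗ[F] Ch F (Mo M) →ₗ[F] Ch F (Mo M) :=
  (cross (F := F) (X := Mo M) (Y := Mo M)).compr₂ (mp fun z : Mo M × Mo M => cat z.1 z.2)

/-- the power with `n + 1` factors -/
noncomputable def pwr : ℕ → Ch F (Mo M) → Ch F (Mo M)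
  | 0, x => x
  | n + 1, x => mul (pwr n x) x

/-- homotopies of families of paths with given end points and bounded duration -/
def HP (A : Set Z) (x y : Z → M) (t : Z → ℝ) (f g : Z → Mo M) : Prop :=
  Htp A (fun z ω => ω ∈ Pa (x z) (y z) ∧ ω.2 ≤ t z) f g

/-- short geodesics -/
structure GS (M : Type) [MetricSpace M] where
  a : ℝ
  a_pos : 0 < a
  sg : M → M → Mo M
  cont : ContinuousOn (fun z : M × M => sg z.1 z.2) {z | dist z.1 z.2 < a}
  mem : ∀ x y, dist x y < a → sg x y ∈ Pa x y
  dur : ∀ x y, dist x y < a → (sg x y).2 = dist x y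

namespace GS
variable (S : GS M)

/-- moving the end points along short geodesics -/
noncomputable def wh (x y : M) (γ : Mo M) : Mo M := cat (cat (S.sg x (st γ)) γ) (S.sg (en γ) y)

/-- joining `n + 1` paths by short geodesics -/
noncomputable def fill : ℕ → (ℕ → Mo M) → Mo M
  | 0, γ => γ 0
  | n + 1, γ => cat (cat (fill n γ) (S.sg (en (γ n)) (st (γ (n + 1))))) (γ (n + 1))

/-- the broken geodesic with the corners `y 0, ..., y k` -/
noncomputable def brk : ℕ → (ℕ → M) → Mo M
  | 0, y => triv (y 0)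
  | k + 1, y => cat (brk k y) (S.sg (y k) (y (k + 1)))

end GS

/-- cutting a path into `n + 1` pieces of equal duration -/
noncomputable def cut (n : ℕ) (ω : Mo M) (i : ℕ) : Mo M :=
  seg ω (i * (ω.2 / (n + 1))) ((i + 1) * (ω.2 / (n + 1)))

/-- joining two sequences: the first `k` terms come from the first one -/
def app {P : Type} (k : ℕ) (z : (ℕ → P) × (ℕ → P)) (i : ℕ) : P :=
  if i < k then z.1 i else z.2 (i - k)

/-- `n + 1` paths from `x` to a point near `e`, with small jumps -/
def Tup (n : ℕ) (δ η : ℝ) (x e : M) : Set (ℕ → Mo M) :=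
  {γ | (∀ i ≤ n, IsP (γ i)) ∧ st (γ 0) = x ∧
    (∀ i < n, dist (en (γ i)) (st (γ (i + 1))) < 2 * δ) ∧ dist (en (γ n)) e < η}

/-- the total duration -/
def tot (n : ℕ) (γ : ℕ → Mo M) : ℝ := ∑ i ∈ Finset.range (n + 1), (γ i).2

end Pool.Agent.Fu
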