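import Mathlib
import Pool.Agent.K.MP_365c00_gt.C7

/-! Moore paths: exact identities. -/

set_option linter.unusedSectionVars false
set_option linter.unusedVariables false

open Set Topology Filter Metric

namespace Pool.Agent.Fu

variable {F : Type} [Field F] {M : Type} [MetricSpace M] {Z : Type} [TopologicalSpace Z]

theorem cl_of_mem {b s : ℝ} (h : s ∈ Icc 0 b) : cl b s = s := by
  rw [cl, min_eq_left h.2, max_eq_right h.1]
theorem cl_of_le {b s : ℝ} (hs : s ≤ 0) : cl b s = 0 := max_eq_left ((min_le_left _ _).trans hs)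
theorem cl_of_ge {b s : ℝ} (hb : 0 ≤ b) (hs : b ≤ s) : cl b s = b := by
  rw [cl, min_eq_right hs, max_eq_right hb]
theorem cl_mem {b : ℝ} (hb : 0 ≤ b) (s : ℝ) : cl b s ∈ Icc 0 b :=
  ⟨le_max_left _ _, max_le hb (min_le_right _ _)⟩
theorem cl_lip (b s t : ℝ) : |cl b s - cl b t| ≤ |s - t| := by
  have h1 := le_abs_self (s - t)
  have h2 := neg_abs_le (s - t)
  rw [abs_le]
  simp only [cl, max_def, min_def]
  constructor <;> split_ifs <;> linarith

theorem mkc_apply {f : ℝ → M} (h : Continuous f) (s : ℝ) : mkc f s = f s := by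
  rw [mkc, dif_pos h]
  rfl
theorem Mo.ext' {γ γ' : Mo M} (h1 : ∀ s, γ.1 s = γ'.1 s) (h2 : γ.2 = γ'.2) : γ = γ' :=
  Prod.ext (ContinuousMap.ext h1) h2
/-- paths are determined on `[0, duration]` -/
theorem IsP.ext {γ γ' : Mo M} (h : IsP γ) (h' : IsP γ') (h2 : γ.2 = γ'.2)
    (h1 : ∀ s ∈ Icc 0 γ.2, γ.1 s = γ'.1 s) : γ = γ' :=
  Mo.ext' (fun s => by rw [h.2.2 s, h'.2.2 s, ← h2, h1 _ (cl_mem h.1 s)]) h2
theorem IsP.of_le {γ : Mo M} (h : IsP γ) {s : ℝ} (hs : s ≤ 0) : γ.1 s = st γ := by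
  rw [h.2.2 s, cl_of_le hs, st]
theorem IsP.of_ge {γ : Mo M} (h : IsP γ) {s : ℝ} (hs : γ.2 ≤ s) : γ.1 s = en γ := by
  rw [h.2.2 s, cl_of_ge h.1 hs, en]
theorem IsP.dist_le {γ : Mo M} (h : IsP γ) : dist (st γ) (en γ) ≤ γ.2 :=
  (h.2.1 0 γ.2).trans (by rw [zero_sub, abs_neg, abs_of_nonneg h.1])
theorem IsP.eq_triv {γ : Mo M} (h : IsP γ) (h0 : γ.2 = 0) : γ = triv (st γ) :=
  Mo.ext' (fun s => by
    rw [h.2.2 s, h0, le_antisymm (cl_mem le_rfl s).2 (cl_mem le_rfl s).1]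
    rfl) h0
theorem triv_mem (x : M) : triv x ∈ Pa x x :=
  ⟨⟨le_rfl, fun s t => (dist_self x).le.trans (abs_nonneg _), fun _ => rfl⟩, rfl, rfl⟩
@[simp] theorem triv_dur (x : M) : (triv x).2 = 0 := rfl
@[simp] theorem cat_dur (γ γ' : Mo M) : (cat γ γ').2 = γ.2 + γ'.2 := rfl
@[simp] theorem seg_dur (γ : Mo M) (a b : ℝ) : (seg γ a b).2 = b - a := rfl
theorem cat_apply {x y z : M} {γ γ' : Mo M} (h : γ ∈ Pa x y) (h' : γ' ∈ Pa y z) (s : ℝ) :
    (cat γ γ').1 s = if s ≤ γ.2 then γ.1 s else γ'.1 (s - γ.2) :=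
  mkc_apply (Continuous.if_le γ.1.continuous (γ'.1.continuous.comp (continuous_sub_right _))
    continuous_id continuous_const fun s hs => by
      rw [show s = γ.2 from hs, Function.comp_apply, sub_self]
      exact h.2.2.trans h'.2.1.symm) s
theorem cat_left {x y z : M} {γ γ' : Mo M} (h : γ ∈ Pa x y) (h' : γ' ∈ Pa y z) {s : ℝ}
    (hs : s ≤ γ.2) : (cat γ γ').1 s = γ.1 s := by
  rw [cat_apply h h', if_pos hs]
theorem cat_right {x y z : M} {γ γ' : Mo M} (h : γ ∈ Pa x y) (h' : γ' ∈ Pa y z) {s : ℝ}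
    (hs : γ.2 ≤ s) : (cat γ γ').1 s = γ'.1 (s - γ.2) := by
  rcases hs.eq_or_lt with e | e
  · rw [cat_left h h' e.ge, ← e, sub_self]
    exact h.2.2.trans h'.2.1.symm
  · rw [cat_apply h h', if_neg e.not_ge]
theorem cat_mem {x y z : M} {γ γ' : Mo M} (h : γ ∈ Pa x y) (h' : γ' ∈ Pa y z) :
    cat γ γ' ∈ Pa x z := by
  have a := h.1.1
  have a' := h'.1.1
  have key : ∀ s t, s ≤ γ.2 → γ.2 ≤ t → dist ((cat γ γ').1 s) ((cat γ γ').1 t) ≤ |s - t| := by
    intro s t hs ht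
    have h1 := h.1.2.1 s γ.2
    have h2 := h'.1.2.1 0 (t - γ.2)
    rw [abs_of_nonpos (by linarith)] at h1 h2 ⊢
    rw [cat_left h h' hs, cat_right h h' ht]
    have e : γ'.1 0 = γ.1 γ.2 := h'.2.1.trans h.2.2.symm
    rw [e] at h2
    linarith [dist_triangle (γ.1 s) (γ.1 γ.2) (γ'.1 (t - γ.2))]
  have e0 : (cat γ γ').1 0 = x := (cat_left h h' a).trans h.2.1
  have e1 : (cat γ γ').1 (γ.2 + γ'.2) = z := by
    rw [cat_right h h' (by linarith), add_sub_cancel_left]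
    exact h'.2.2
  refine ⟨⟨add_nonneg a a', fun s t => ?_, fun s => ?_⟩, e0, e1⟩
  · rcases le_total s γ.2 with hs | hs <;> rcases le_total t γ.2 with ht | ht
    · rw [cat_left h h' hs, cat_left h h' ht]
      exact h.1.2.1 s t
    · exact key s t hs ht
    · rw [dist_comm, abs_sub_comm]
      exact key t s ht hs
    · rw [cat_right h h' hs, cat_right h h' ht]
      exact (h'.1.2.1 _ _).trans (by rw [sub_sub_sub_cancel_right])
  · rw [cat_dur]
    rcases le_total s 0 with hs | hs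
    · rw [cl_of_le hs, e0, cat_left h h' (hs.trans a), h.1.of_le hs, h.2.1]
    · rcases le_total s (γ.2 + γ'.2) with ht | ht
      · rw [cl_of_mem ⟨hs, ht⟩]
      · rw [cl_of_ge (add_nonneg a a') ht, e1, cat_right h h' (by linarith),
          h'.1.of_ge (by linarith), h'.2.2]
theorem cat_assoc {x y z w : M} {α β γ : Mo M} (h1 : α ∈ Pa x y) (h2 : β ∈ Pa y z)
    (h3 : γ ∈ Pa z w) : cat (cat α β) γ = cat α (cat β γ) := by
  have b := h2.1.1
  refine Mo.ext' (fun s => ?_) (add_assoc _ _ _)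
  rcases le_total s α.2 with hs | hs
  · rw [cat_left (cat_mem h1 h2) h3 (by rw [cat_dur]; linarith), cat_left h1 h2 hs,
      cat_left h1 (cat_mem h2 h3) hs]
  · rw [cat_right h1 (cat_mem h2 h3) hs]
    rcases le_total s (α.2 + β.2) with ht | ht
    · rw [cat_left (cat_mem h1 h2) h3 ht, cat_right h1 h2 hs, cat_left h2 h3 (by linarith)]
    · rw [cat_right (cat_mem h1 h2) h3 ht, cat_right h2 h3 (by linarith), cat_dur, sub_sub]
theorem triv_cat {x y : M} {γ : Mo M} (h : γ ∈ Pa x y) : cat (triv x) γ = γ := by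
  refine Mo.ext' (fun s => ?_) (zero_add _)
  rcases le_total s 0 with hs | hs
  · rw [cat_left (triv_mem x) h hs, h.1.of_le hs, h.2.1]
    rfl
  · rw [cat_right (triv_mem x) h hs, triv_dur, sub_zero]
theorem cat_triv {x y : M} {γ : Mo M} (h : γ ∈ Pa x y) : cat γ (triv y) = γ := by
  refine Mo.ext' (fun s => ?_) (add_zero _)
  rcases le_total s γ.2 with hs | hs
  · rw [cat_left h (triv_mem y) hs]
  · rw [cat_right h (triv_mem y) hs, h.1.of_ge hs, h.2.2]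
    rfl
theorem IsP.mem {γ : Mo M} (h : IsP γ) : γ ∈ Pa (st γ) (en γ) := ⟨h, rfl, rfl⟩
theorem seg_def (γ : Mo M) (a b s : ℝ) : (seg γ a b).1 s = γ.1 (a + cl (b - a) s) := rfl
theorem seg_apply (γ : Mo M) {a b s : ℝ} (hs : s ∈ Icc 0 (b - a)) : (seg γ a b).1 s = γ.1 (a + s) :=
  by rw [seg_def, cl_of_mem hs]
theorem seg_mem {γ : Mo M} (h : IsP γ) {a b : ℝ} (hab : a ≤ b) :
    seg γ a b ∈ Pa (γ.1 a) (γ.1 b) := by
  have h0 := sub_nonneg.2 hab
  refine ⟨⟨h0, fun s t => ?_, fun s => ?_⟩, ?_, ?_⟩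
  · refine (h.2.1 _ _).trans ?_
    rw [add_sub_add_left_eq_sub]
    exact cl_lip _ s t
  · rw [seg_dur, seg_apply γ (cl_mem h0 s), seg_def]
  · rw [st, seg_apply γ ⟨le_rfl, h0⟩, add_zero]
  · rw [en, seg_dur, seg_apply γ ⟨h0, le_rfl⟩, add_sub_cancel]
theorem seg_full {γ : Mo M} (h : IsP γ) : seg γ 0 γ.2 = γ :=
  Mo.ext' (fun s => by rw [seg_def, zero_add, sub_zero, ← h.2.2 s]) (sub_zero _)
theorem seg_self (γ : Mo M) (a : ℝ) : seg γ a a = triv (γ.1 a) :=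
  Mo.ext' (fun s => by
    rw [seg_def, sub_self, le_antisymm (cl_mem le_rfl s).2 (cl_mem le_rfl s).1, add_zero]
    rfl) (sub_self _)
theorem cat_seg {γ : Mo M} (h : IsP γ) {a b c : ℝ} (hab : a ≤ b) (hbc : b ≤ c) :
    cat (seg γ a b) (seg γ b c) = seg γ a c := by
  have h1 := seg_mem h hab
  have h2 := seg_mem h hbc
  have e : (cat (seg γ a b) (seg γ b c)).2 = c - a := by
    rw [cat_dur, seg_dur, seg_dur]
    ring
  refine (cat_mem h1 h2).1.ext (seg_mem h (hab.trans hbc)).1 e fun s hs => ?_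
  rw [e] at hs
  rw [seg_apply γ hs]
  rcases le_total s (b - a) with ht | ht
  · rw [cat_left h1 h2 ht, seg_apply γ ⟨hs.1, ht⟩]
  · rw [cat_right h1 h2 ht, seg_dur, seg_apply γ ⟨by linarith, by linarith [hs.2]⟩]
    congr 1
    ring
theorem seg_seg (γ : Mo M) {a b c d : ℝ} (h0 : 0 ≤ c) (hcd : c ≤ d) (h1 : d ≤ b - a) :
    seg (seg γ a b) c d = seg γ (a + c) (a + d) := by
  refine Mo.ext' (fun s => ?_) (add_sub_add_left_eq_sub _ _ _).symm
  have h := cl_mem (sub_nonneg.2 hcd) s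
  rw [seg_def, seg_apply γ ⟨by linarith [h.1], by linarith [h.2]⟩, seg_def,
    add_sub_add_left_eq_sub, add_assoc]
theorem seg_cat_left {x y z : M} {γ γ' : Mo M} (h : γ ∈ Pa x y) (h' : γ' ∈ Pa y z) {a b : ℝ}
    (hab : a ≤ b) (hb : b ≤ γ.2) : seg (cat γ γ') a b = seg γ a b := by
  refine Mo.ext' (fun s => ?_) rfl
  rw [seg_def, seg_def, cat_left h h' (by linarith [(cl_mem (sub_nonneg.2 hab) s).2])]
theorem seg_cat_right {x y z : M} {γ γ' : Mo M} (h : γ ∈ Pa x y) (h' : γ' ∈ Pa y z) {a b : ℝ}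
    (hab : a ≤ b) (ha : γ.2 ≤ a) : seg (cat γ γ') a b = seg γ' (a - γ.2) (b - γ.2) := by
  refine Mo.ext' (fun s => ?_) (sub_sub_sub_cancel_right _ _ _).symm
  rw [seg_def, seg_def, cat_right h h' (by linarith [(cl_mem (sub_nonneg.2 hab) s).1]),
    sub_sub_sub_cancel_right, add_sub_right_comm]

theorem Om_sub (x y : M) (t : ℝ) : Om x y t ⊆ Pa x y := fun _ h => h.1
theorem Omc_sub (x y : M) (t : ℝ) : Omc x y t ⊆ Pa x y := fun _ h => h.1
theorem Om_mono (x y : M) {t t' : ℝ} (h : t ≤ t') : Om x y t ⊆ Om x y t' :=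
  fun _ g => ⟨g.1, g.2.trans_le h⟩
theorem Om_sub_Omc (x y : M) (t : ℝ) : Om x y t ⊆ Omc x y t := fun _ g => ⟨g.1, g.2.le⟩
theorem Omc_sub_Om (x y : M) {t t' : ℝ} (h : t < t') : Omc x y t ⊆ Om x y t' :=
  fun _ g => ⟨g.1, g.2.trans_lt h⟩
theorem Om_empty {x y : M} {t : ℝ} (h : t ≤ dist x y) : Om x y t = ∅ :=
  eq_empty_of_forall_notMem fun γ g => by
    have h1 := g.1.1.dist_le
    rw [g.1.2.1, g.1.2.2] at h1
    linarith [g.2]

namespace GS
variable (S : GS M)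

theorem sg_self (x : M) : S.sg x x = triv x := by
  have h : dist x x < S.a := by
    rw [dist_self]
    exact S.a_pos
  have h1 := (S.mem x x h).1.eq_triv ((S.dur x x h).trans (dist_self x))
  rwa [(S.mem x x h).2.1] at h1
theorem wh_mem {x y x' y' : M} {γ : Mo M} (h : γ ∈ Pa x y) (hx : dist x' x < S.a)
    (hy : dist y y' < S.a) :
    S.wh x' y' γ ∈ Pa x' y' ∧ (S.wh x' y' γ).2 = γ.2 + (dist x' x + dist y y') := by
  rw [wh, h.2.1, h.2.2]
  refine ⟨cat_mem (cat_mem (S.mem _ _ hx) h) (S.mem _ _ hy), ?_⟩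
  rw [cat_dur, cat_dur, S.dur _ _ hx, S.dur _ _ hy]
  ring
theorem wh_self {x y : M} {γ : Mo M} (h : γ ∈ Pa x y) : S.wh x y γ = γ := by
  rw [wh, h.2.1, h.2.2, sg_self, sg_self, triv_cat h, cat_triv h]
theorem wh_left {x y x' : M} {γ : Mo M} (h : γ ∈ Pa x y) (hx : dist x' x < S.a) :
    S.wh x' y γ = cat (S.sg x' x) γ := by
  rw [wh, h.2.1, h.2.2, sg_self, cat_triv (cat_mem (S.mem _ _ hx) h)]
theorem wh_right {x y y' : M} {γ : Mo M} (h : γ ∈ Pa x y) (hy : dist y y' < S.a) :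
    S.wh x y' γ = cat γ (S.sg y y') := by
  rw [wh, h.2.1, h.2.2, sg_self, triv_cat h]
theorem brk_mem (k : ℕ) {y : ℕ → M} (h : ∀ j < k, dist (y j) (y (j + 1)) < S.a) :
    S.brk k y ∈ Pa (y 0) (y k) ∧
      (S.brk k y).2 = ∑ j ∈ Finset.range k, dist (y j) (y (j + 1)) := by
  induction k with
  | zero => exact ⟨triv_mem _, rfl⟩
  | succ k ih =>
    obtain ⟨h1, h2⟩ := ih fun j hj => h j (Nat.lt_succ_of_lt hj)
    have h3 := h k (Nat.lt_succ_self k)
    refine ⟨cat_mem h1 (S.mem _ _ h3), ?_⟩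
    rw [brk, cat_dur, h2, S.dur _ _ h3, Finset.sum_range_succ]
theorem brk_congr (k : ℕ) {y y' : ℕ → M} (h : ∀ j ≤ k, y j = y' j) : S.brk k y = S.brk k y' := by
  induction k with
  | zero => rw [brk, brk, h 0 le_rfl]
  | succ k ih =>
    rw [brk, brk, ih fun j hj => h j (Nat.le_succ_of_le hj), h k (Nat.le_succ k), h _ le_rfl]
theorem brk_add (k k' : ℕ) {y : ℕ → M} (h : ∀ j < k + k', dist (y j) (y (j + 1)) < S.a) :
    S.brk (k + k') y = cat (S.brk k y) (S.brk k' fun j => y (k + j)) := by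
  have h1 := (S.brk_mem k fun j hj => h j (hj.trans_le (Nat.le_add_right k k'))).1
  induction k' with
  | zero => exact (cat_triv h1).symm
  | succ k' ih =>
    have h2 := (S.brk_mem k' (y := fun j => y (k + j)) fun j hj => h (k + j) (by omega)).1
    have h3 := S.mem _ _ (h (k + k') (by omega))
    rw [← add_assoc, brk, ih fun j hj => h j (by omega)]
    exact cat_assoc h1 h2 h3
/-- the corners of a broken geodesic -/
theorem brk_corner (k : ℕ) {y : ℕ → M} (h : ∀ j < k, dist (y j) (y (j + 1)) < S.a) {i : ℕ}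
    (hi : i ≤ k) : (S.brk k y).1 (∑ j ∈ Finset.range i, dist (y j) (y (j + 1))) = y i := by
  obtain ⟨k', rfl⟩ := Nat.exists_eq_add_of_le hi
  obtain ⟨h1, h2⟩ := S.brk_mem i fun j hj => h j (hj.trans_le hi)
  have h3 := (S.brk_mem k' (y := fun j => y (i + j)) fun j hj => h (i + j) (by omega)).1
  rw [S.brk_add i k' h, ← h2, cat_left h1 h3 le_rfl]
  exact h1.2.2

end GS

end Pool.Agent.Fu
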