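import Mathlib
import Pool.Agent.K.MP_365c00_gt.C3
import Pool.Agent.K.MP_365c00_gt.C11

/-! Finitely many nice geodesics give a class. -/

set_option linter.unusedSectionVars false
set_option linter.unusedVariables false

open Set Filter Topology Metric Function MeasureTheory
open scoped Manifold ContDiff
open Pool.Agent.GeoN

namespace Pool.Agent.Fu

variable {M : Type} [MetricSpace M]

theorem za8a_step (D : GD M) {x y : M} (hR : D.Reg x y) {u : D.G} {P l : ℝ} {m : ℕ}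
    (hP : D.FP u P m) (hl : (u, l) ∈ D.J x y) (j : ℕ) :
    (u, l + j * P) ∈ D.J x y ∧ D.ind u (l + j * P) = D.ind u l + j * m := by
  induction j with
  | zero => simpa using hl
  | succ j ih =>
    obtain ⟨⟨h1, h2, h3⟩, h4⟩ := ih
    have e : l + ((j + 1 : ℕ) : ℝ) * P = l + j * P + P := by
      push_cast
      ring
    have hJ : (u, l + j * P + P) ∈ D.J x y :=
      ⟨add_pos h1 hP.1, h2, (hP.2.1 (l + j * P)).trans h3⟩
    rw [e]
    refine ⟨hJ, ?_⟩
    rw [hP.2.2.1 _ h1 (hR.2.1 _ hJ), h4]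
    ring

theorem za8a_mul (D : GD M) {x y : M} (hR : D.Reg x y) {u : D.G} {P l : ℝ} {m k : ℕ}
    (hP : D.FP u P m) (hl : (u, l) ∈ D.J x y) (hk : l < k * P) : D.ind u l + 2 ≤ k * m := by
  have P0 := hP.1
  have l0 : 0 < l := hl.1
  obtain ⟨j, j1, j2⟩ : ∃ j : ℕ, j * P ≤ l ∧ l < (j + 1) * P :=
    ⟨⌊l / P⌋₊, (le_div_iff₀ P0).1 (Nat.floor_le (div_pos l0 P0).le),
      (div_lt_iff₀ P0).1 (Nat.lt_floor_add_one _)⟩
  have jk : j < k := by
    have : (j : ℝ) < k := lt_of_mul_lt_mul_right (j1.trans_lt hk) P0.le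
    exact_mod_cast this
  have e : l - j * P + j * P = l := sub_add_cancel _ _
  have hy : D.ev u (l - j * P) = y := by
    have h1 := hP.2.1.nat_mul j (l - j * P)
    rw [e] at h1
    exact h1.symm.trans hl.2.2
  have r0 : 0 < l - j * P := by
    refine lt_of_le_of_ne (sub_nonneg.2 j1) fun h => hR.1 ?_
    rw [← h] at hy
    exact hl.2.1.symm.trans hy
  have h2 := (za8a_step D hR hP (l := l - j * P) ⟨r0, hl.2.1, hy⟩ j).2
  rw [e] at h2
  have h3 := hP.2.2.2 (l - j * P) r0 (by linarith)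
  have h4 : (j + 1) * m ≤ k * m := Nat.mul_le_mul_right m jk
  rw [h2]
  nlinarith

theorem GD.pers_of_nice (D : GD M) {τ : ℝ} (hτ : 0 < τ) {x y : M}
    (hF : D.Fin0 x y) (hN : ∀ w ∈ D.J x y, ∃ m : ℕ, D.FP w.1 (m * τ) m) : D.PerS τ x y := by
  classical
  obtain ⟨hR, L, U, hU, -, hL⟩ := hF
  have hfin : {u : D.G | ∃ l, (u, l) ∈ D.J x y}.Finite := by
    refine (hU.union ((hR.2.2.2 L).image Prod.fst)).subset ?_
    rintro u ⟨l, hl⟩
    rcases lt_or_ge L l with h | h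
    · exact Or.inl (hL _ hl h)
    · exact Or.inr ⟨(u, l), ⟨hl, h⟩, rfl⟩
  have hm : ∀ u : D.G, ∃ m : ℕ, 0 < m ∧ ((∃ l, (u, l) ∈ D.J x y) → D.FP u (m * τ) m) := by
    intro u
    by_cases h : ∃ l, (u, l) ∈ D.J x y
    · obtain ⟨l, hl⟩ := h
      obtain ⟨m, hm⟩ := hN _ hl
      refine ⟨m, Nat.pos_of_ne_zero ?_, fun _ => hm⟩
      rintro rfl
      have := hm.1
      simp at this
    · exact ⟨1, one_pos, fun h' => absurd h' h⟩
  choose μ μ0 hμ using hm
  refine ⟨∏ u ∈ hfin.toFinset, μ u, Finset.prod_pos fun u _ => μ0 u, hR, ?_⟩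
  rintro ⟨u, l⟩ hl
  have hu : u ∈ hfin.toFinset := hfin.mem_toFinset.2 ⟨l, hl⟩
  obtain ⟨k, hk⟩ := Finset.dvd_prod_of_mem μ hu
  have hP := hμ u ⟨l, hl⟩
  have e : ((μ u * k : ℕ) : ℝ) * τ = k * (μ u * τ) := by
    push_cast
    ring
  rw [hk, e, mul_comm (μ u) k]
  exact ⟨hP.2.1.nat_mul k, (za8a_step D hR hP hl k).2, za8a_mul D hR hP hl⟩

end Pool.Agent.Fu
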