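import Mathlib
import Pool.Agent.K.MP_365c00_gt.C6

-- part Pool.Agent.P.MP_365c00_gt.ZE1
section

/-! Generators of local homology. -/

set_option linter.unusedSectionVars false
set_option linter.unusedVariables false

open Set Topology unitInterval TensorProduct

namespace Pool.Agent.Fu

variable {F : Type} [Field F] {X Y Z : Type} [TopologicalSpace X] [TopologicalSpace Y]
  [TopologicalSpace Z]

variable {k k' : ℕ} {A : Set X} {B : Set Y} {c : X} {o o' : Ch F X}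

theorem Gen.van (h : Gen F k A c o) {j : ℕ} (hj : j ≠ k) {z : Ch F X} (hz : z ∈ ZZ F A (A \ {c}))
    (hd : z ∈ HD F X j) : z ∈ NN F A (A \ {c}) := by
  obtain ⟨r, hr⟩ := h.span z hz
  have h1 := dg_mem_NN j hr
  rwa [map_sub, map_smul, mem_HD.1 hd, dg_of_ne h.hd hj, smul_zero, sub_zero] at h1

theorem Gen.congr (h : Gen F k A c o) (h1 : o' ∈ ZZ F A (A \ {c})) (h2 : o' ∈ HD F X k)
    (h3 : o - o' ∈ NN F A (A \ {c})) : Gen F k A c o' := by
  refine ⟨h1, h2, fun hn => h.ne ?_, fun z hz => ?_⟩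
  · have h4 := add_mem h3 hn
    rwa [sub_add_cancel] at h4
  · obtain ⟨r, hr⟩ := h.span z hz
    refine ⟨r, ?_⟩
    have h4 := add_mem hr (Submodule.smul_mem _ r h3)
    rwa [smul_sub, sub_add_sub_cancel] at h4

theorem Gen.smul (h : Gen F k A c o) {r : F} (hr : r ≠ 0) : Gen F k A c (r • o) := by
  refine ⟨Submodule.smul_mem _ r h.zz, Submodule.smul_mem _ r h.hd, fun hn => h.ne ?_,
    fun z hz => ?_⟩
  · have h4 := Submodule.smul_mem _ r⁻¹ hn
    rwa [smul_smul, inv_mul_cancel₀ hr, one_smul] at h4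
  · obtain ⟨s, hs⟩ := h.span z hz
    refine ⟨s * r⁻¹, ?_⟩
    rwa [smul_smul, mul_assoc, inv_mul_cancel₀ hr, mul_one]

theorem Gen.of_ne (h : Gen F k A c o) (h1 : o' ∈ ZZ F A (A \ {c})) (h2 : o' ∈ HD F X k)
    (h3 : o' ∉ NN F A (A \ {c})) : Gen F k A c o' := by
  obtain ⟨r, hr⟩ := h.span o' h1
  have hr0 : r ≠ 0 := by
    rintro rfl
    rw [zero_smul, sub_zero] at hr
    exact h3 hr
  refine (h.smul hr0).congr h1 h2 ?_
  have h4 := neg_mem hr
  rwa [neg_sub] at h4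

theorem ze1_cover {U : Set X} (hc : c ∈ U) : A ⊆ U ∪ {c}ᶜ := by
  intro x _
  by_cases hx : x = c
  · exact Or.inl (hx ▸ hc)
  · exact Or.inr hx

theorem Gen.small [T1Space X] (h : Gen F k A c o) {U : Set X} (hU : IsOpen U) (hc : c ∈ U) :
    ∃ o' ∈ CC F (A ∩ U), Gen F k A c o' ∧ o - o' ∈ NN F A (A \ {c}) := by
  obtain ⟨o', h1, h2, h3⟩ := exc_surj hU isOpen_compl_singleton (ze1_cover hc)
    (fun x hx => hx) h.zz
  have h4 : o - o' ∈ NN F A (A \ {c}) := NN_mono subset_rfl inter_subset_right h2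
  exact ⟨o', (mem_ZZ.1 h1).1,
    h.congr (ZZ_mono inter_subset_left inter_subset_left h1) (h3 k h.hd) h4, h4⟩

theorem Gen.restrict [T1Space X] {U : Set X} (hU : IsOpen U) (hc : c ∈ U) (ho : o ∈ CC F (A ∩ U)) :
    Gen F k A c o ↔ Gen F k (A ∩ U) c o := by
  have e1 : (A ∩ U) \ {c} ⊆ A \ {c} := fun x hx => ⟨hx.1.1, hx.2⟩
  have e2 : (A \ {c}) ∩ U ⊆ (A ∩ U) \ {c} := fun x hx => ⟨⟨hx.1.1, hx.2⟩, hx.1.2⟩
  constructor
  · intro h
    refine ⟨mem_ZZ.2 ⟨ho, ?_⟩, h.hd, fun hn => h.ne (NN_mono inter_subset_left e1 hn),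
      fun z hz => ?_⟩
    · have h1 : bd o ∈ CC F ((A ∩ U) ∩ (A \ {c})) := by
        rw [CC_inter]
        exact ⟨bd_mem_CC ho, (mem_ZZ.1 h.zz).2⟩
      have e3 : (A ∩ U) ∩ (A \ {c}) ⊆ (A ∩ U) \ {c} := fun x hx => ⟨hx.1, hx.2.2⟩
      exact CC_mono e3 h1
    · obtain ⟨r, hr⟩ := h.span z (ZZ_mono inter_subset_left e1 hz)
      refine ⟨r, NN_mono subset_rfl e2 (exc_inj hU isOpen_compl_singleton (ze1_cover hc)
        (fun x hx => hx) ?_ hr)⟩
      exact sub_mem (ZZ_mono subset_rfl e1 hz)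
        (Submodule.smul_mem _ r (mem_ZZ.2 ⟨ho, (mem_ZZ.1 h.zz).2⟩))
  · intro h
    refine ⟨ZZ_mono inter_subset_left e1 h.zz, h.hd, fun hn => h.ne ?_, fun z hz => ?_⟩
    · exact NN_mono subset_rfl e2 (exc_inj hU isOpen_compl_singleton (ze1_cover hc)
        (fun x hx => hx) (ZZ_mono subset_rfl e1 h.zz) hn)
    · obtain ⟨z', h1, h2, -⟩ := exc_surj hU isOpen_compl_singleton (ze1_cover hc)
        (fun x hx => hx) hz
      obtain ⟨r, hr⟩ := h.span z' (ZZ_mono subset_rfl e2 h1)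
      refine ⟨r, ?_⟩
      have h4 := add_mem (NN_mono subset_rfl inter_subset_right h2)
        (NN_mono inter_subset_left e1 hr)
      rwa [sub_add_sub_cancel] at h4

/-- homeomorphisms of subsets -/
theorem Gen.equiv (h : Gen F k A c o) (hc : c ∈ A) {φ : X → Y} {ψ : Y → X} (hφ : ContinuousOn φ A)
    (hψ : ContinuousOn ψ B) (h1 : MapsTo φ A B) (h2 : MapsTo ψ B A) (h3 : ∀ x ∈ A, ψ (φ x) = x)
    (h4 : ∀ y ∈ B, φ (ψ y) = y) : Gen F k B (φ c) (mp φ o) := by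
  have e1 : MapsTo φ (A \ {c}) (B \ {φ c}) := by
    intro x hx
    refine ⟨h1 hx.1, fun he => hx.2 ?_⟩
    have he' : φ x = φ c := he
    show x = c
    rw [← h3 x hx.1, he', h3 c hc]
  have e2 : MapsTo ψ (B \ {φ c}) (A \ {c}) := by
    intro y hy
    refine ⟨h2 hy.1, fun he => hy.2 ?_⟩
    have he' : ψ y = c := he
    show y = φ c
    rw [← h4 y hy.1, he']
  have ho : o ∈ CC F A := (mem_ZZ.1 h.zz).1
  refine ⟨mp_mem_ZZ hφ h1 (e1.mono_left inter_subset_right) h.zz, mp_mem_HD φ h.hd,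
    fun hn => h.ne ?_, fun z hz => ?_⟩
  · have h5 := mp_mem_NN hψ h2 e2 hn
    rwa [mp_mp hφ hψ h1 ho, mp_eq_self (f := ψ ∘ φ) h3 ho] at h5
  · obtain ⟨r, hr⟩ := h.span _ (mp_mem_ZZ hψ h2 (e2.mono_left inter_subset_right) hz)
    refine ⟨r, ?_⟩
    have h5 := mp_mem_NN hφ h1 e1 hr
    have hz' : z ∈ CC F B := (mem_ZZ.1 hz).1
    rwa [map_sub, map_smul, mp_mp hψ hφ h2 hz', mp_eq_self (f := φ ∘ ψ) h4 hz'] at h5

/-- local homeomorphisms -/
theorem Gen.transfer [T1Space X] [T1Space Y] (h : Gen F k A c o) {U : Set X} {V : Set Y}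
    (hU : IsOpen U) (hV : IsOpen V) (hc : c ∈ A ∩ U) (ho : o ∈ CC F (A ∩ U)) {φ : X → Y} {ψ : Y → X}
    (hφ : ContinuousOn φ (A ∩ U)) (hψ : ContinuousOn ψ (B ∩ V)) (h1 : MapsTo φ (A ∩ U) (B ∩ V))
    (h2 : MapsTo ψ (B ∩ V) (A ∩ U)) (h3 : ∀ x ∈ A ∩ U, ψ (φ x) = x)
    (h4 : ∀ y ∈ B ∩ V, φ (ψ y) = y) : Gen F k B (φ c) (mp φ o) :=
  (Gen.restrict hV (h1 hc).2 (mp_mem_CC h1 ho)).2
    (((Gen.restrict hU hc.2 ho).1 h).equiv hc hφ hψ h1 h2 h3 h4)

theorem gen_point (c : X) : Gen F 0 {c} c (pt c) := by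
  refine ⟨mem_ZZ.2 ⟨pt_mem_CC rfl, by rw [bd_pt]; exact zero_mem _⟩, pt_mem_HD c, ?_,
    fun z hz => ⟨eps z, ?_⟩⟩
  · rw [Set.sdiff_self, NN_empty]
    exact pt_not_mem_BB _ _
  · have h1 : mp (fun _ => c) z = z :=
      mp_eq_self (A := {c}) (fun x hx => (mem_singleton_iff.1 hx).symm) (mem_ZZ.1 hz).1
    rw [← mp_const, h1, sub_self]
    exact zero_mem _

theorem gen_real : ∃ o, Gen F 1 (univ : Set ℝ) 0 o := by
  let f : C(ℝ, ℝ) := ⟨fun x => 2 * x - 1, by fun_prop⟩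
  have hb : bd (map f (iota F)) = pt 1 - pt (-1) := by
    rw [bd_map, bd_iota, map_sub, map_pt, map_pt]
    have e1 : f 1 = 1 := by show (2 : ℝ) * 1 - 1 = 1; norm_num
    have e2 : f 0 = -1 := by show (2 : ℝ) * 0 - 1 = -1; norm_num
    rw [e1, e2]
  have hs : (univ : Set ℝ) \ {0} = Ioi 0 ∪ Iio 0 := by
    ext x
    simp only [mem_sdiff, mem_univ, mem_singleton_iff, true_and, mem_union, mem_Ioi, mem_Iio]
    exact ⟨fun h => (lt_or_gt_of_ne h).symm, fun h => h.elim ne_of_gt ne_of_lt⟩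
  have hd : Disjoint (Ioi (0 : ℝ)) (Iio 0) := by
    rw [Set.disjoint_left]
    intro x h1 h2
    exact lt_asymm (mem_Ioi.1 h1) (mem_Iio.1 h2)
  have p1 : (1 : ℝ) ∈ Ioi (0 : ℝ) := by norm_num
  have p2 : (-1 : ℝ) ∈ Iio (0 : ℝ) := by norm_num
  have p3 : (-1 : ℝ) ∉ Ioi (0 : ℝ) := by norm_num
  refine ⟨map f (iota F), mem_ZZ.2 ⟨mem_CC_univ _, ?_⟩, map_mem_HD f iota_mem_HD,
    fun hn => ?_, fun z hz => ?_⟩
  · rw [hb, hs]
    exact sub_mem (pt_mem_CC (Or.inl p1)) (pt_mem_CC (Or.inr p2))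
  · obtain ⟨g, -, hg⟩ := mem_NN.1 hn
    rw [hs] at hg
    have h1 := bd_prj_disj isOpen_Ioi isOpen_Iio hd hg
    rw [map_sub bd, bd_bd, sub_zero, hb, map_sub _ (pt (1 : ℝ)), prj_pt_mem p1, prj_pt_not p3,
      sub_zero] at h1
    exact pt_not_mem_BB univ (1 : ℝ) (mem_BB.2 ⟨_, mem_CC_univ _, h1⟩)
  · have hw := (mem_ZZ.1 hz).2
    rw [hs] at hw
    have h1 := prj_disj isOpen_Ioi isOpen_Iio hd hw
    have h2 := bd_prj_disj isOpen_Ioi isOpen_Iio hd hw
    have h3 := bd_prj_disj isOpen_Iio isOpen_Ioi hd.symm (by rwa [union_comm] at hw)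
    rw [bd_bd, map_zero] at h2 h3
    obtain ⟨a1, ha1, hb1⟩ := mem_BB.1
      (star_BB ((convex_Ioi (0 : ℝ)).starConvex p1) (prj_mem_CC _ (bd z)) h2)
    obtain ⟨a2, ha2, hb2⟩ := mem_BB.1
      (star_BB ((convex_Iio (0 : ℝ)).starConvex p2) (prj_mem_CC _ (bd z)) h3)
    have h4 : eps (prj (Iio (0 : ℝ)) (bd z)) = - eps (prj (Ioi (0 : ℝ)) (bd z)) := by
      rw [eq_neg_iff_add_eq_zero, add_comm, ← map_add, h1, eps_bd]
    rw [h4] at hb2
    generalize eps (prj (Ioi (0 : ℝ)) (bd z)) = r at hb1 hb2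
    refine ⟨r, ?_⟩
    have h5 : bd (z - r • map f (iota F) - a1 - a2) = 0 := by
      rw [map_sub, map_sub, map_sub, map_smul, hb, hb1, hb2]
      generalize prj (Ioi (0 : ℝ)) (bd z) = w1 at h1 ⊢
      generalize prj (Iio (0 : ℝ)) (bd z) = w2 at h1 ⊢
      rw [← h1, smul_sub, neg_smul]
      abel
    have h6 := star_BB (starConvex_univ (1 : ℝ)) (mem_CC_univ _) h5
    generalize eps (z - r • map f (iota F) - a1 - a2) = s at h6
    have h7 : s • pt (1 : ℝ) + a1 + a2 ∈ CC F ((univ : Set ℝ) \ {0}) := by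
      rw [hs]
      exact add_mem (add_mem (Submodule.smul_mem _ _ (pt_mem_CC (Or.inl p1)))
        (CC_mono subset_union_left ha1)) (CC_mono subset_union_right ha2)
    have h8 := add_mem (BB_le_NN _ _ h6) (CC_le_NN univ _ h7)
    have h9 : z - r • map f (iota F) - a1 - a2 - s • pt (1 : ℝ) + (s • pt (1 : ℝ) + a1 + a2) =
        z - r • map f (iota F) := by abel
    rwa [h9] at h8

theorem ze1_sl_lin (l m : Ch F X →ₗ[F] F) (r : F) (w : Ch F (X × Y)) :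
    sl (l + r • m) w = sl l w + r • sl m w := by
  rw [zc9_sl, zc9_sl, zc9_sl, TensorProduct.map_add_left, TensorProduct.map_smul_left,
    LinearMap.add_apply, LinearMap.smul_apply, map_add, map_smul]

theorem Gen.prod [T1Space X] [T1Space Y] (h2 : (2 : F) ≠ 0) (h : Gen F k A c o) {c' : Y}
    {p : Ch F Y} (h' : Gen F k' B c' p) : Gen F (k + k') (A ×ˢ B) (c, c') (cross o p) := by
  have hU : IsOpen (({c}ᶜ : Set X) ×ˢ (univ : Set Y)) := isOpen_compl_singleton.prod isOpen_univ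
  have hV : IsOpen ((univ : Set X) ×ˢ ({c'}ᶜ : Set Y)) := isOpen_univ.prod isOpen_compl_singleton
  have e0 : (A ×ˢ B) \ {(c, c')} ⊆ ({c}ᶜ : Set X) ×ˢ (univ : Set Y) ∪ univ ×ˢ ({c'}ᶜ : Set Y) := by
    rintro ⟨x, y⟩ hx
    by_cases h1 : x = c
    · refine Or.inr ⟨trivial, fun h3 => hx.2 ?_⟩
      have h3' : y = c' := h3
      rw [h1, h3']
      rfl
    · exact Or.inl ⟨h1, trivial⟩
  have e1 : ((A ×ˢ B) \ {(c, c')}) ∩ ({c}ᶜ : Set X) ×ˢ (univ : Set Y) = (A \ {c}) ×ˢ B := by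
    ext ⟨x, y⟩
    constructor
    · intro hx
      exact ⟨⟨hx.1.1.1, hx.2.1⟩, hx.1.1.2⟩
    · intro hx
      exact ⟨⟨⟨hx.1.1, hx.2⟩, fun h3 => hx.1.2 (congrArg Prod.fst h3)⟩, hx.1.2, trivial⟩
  have e2 : ((A ×ˢ B) \ {(c, c')}) ∩ (univ : Set X) ×ˢ ({c'}ᶜ : Set Y) = A ×ˢ (B \ {c'}) := by
    ext ⟨x, y⟩
    constructor
    · intro hx
      exact ⟨hx.1.1.1, hx.1.1.2, hx.2.2⟩
    · intro hx
      exact ⟨⟨⟨hx.1, hx.2.1⟩, fun h3 => hx.2.2 (congrArg Prod.snd h3)⟩, trivial, hx.2.2⟩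
  have e3 : (A \ {c}) ×ˢ B ⊆ (A ×ˢ B) \ {(c, c')} := e1 ▸ inter_subset_left
  have e4 : A ×ˢ (B \ {c'}) ⊆ (A ×ˢ B) \ {(c, c')} := e2 ▸ inter_subset_left
  obtain ⟨l0, hl1, hl0⟩ := exists_dual h.ne
  obtain ⟨ho1, ho2⟩ := mem_ZZ.1 h.zz
  obtain ⟨hp1, hp2⟩ := mem_ZZ.1 h'.zz
  have hbd : bd (cross o p) ∈ CC F ((A \ {c}) ×ˢ B) ⊔ CC F (A ×ˢ (B \ {c'})) := by
    rw [bd_cross]
    exact Submodule.add_mem_sup (cross_mem_CC ho2 hp1) (cross_mem_CC (om_mem_CC ho1) hp2)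
  refine ⟨ZZ_mono subset_rfl (union_subset e3 e4) (cross_mem_ZZ h.zz h'.zz),
    cross_mem_HD h.hd h'.hd, fun hn => h'.ne ?_, fun z hz => ?_⟩
  · have h3 := NN_small_two hU hV Set.sdiff_subset e0 (by rwa [e1, e2]) hn
    rw [e1, e2] at h3
    have h4 := sl_NN_of_null h3 hl0
    rwa [sl_cross, hl1, one_smul] at h4
  · obtain ⟨z', hz1, hz2, hz3, -⟩ := ZZ_small_two hU hV e0 hz
    rw [e1, e2] at hz2
    obtain ⟨r, hr⟩ := h'.span _ (sl_mem_ZZ hz1 hz2 hl0)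
    refine ⟨r, ?_⟩
    have hw1 : z' - r • cross o p ∈ CC F (A ×ˢ B) :=
      sub_mem hz1 (Submodule.smul_mem _ r (cross_mem_CC ho1 hp1))
    have hw2 : bd (z' - r • cross o p) ∈ CC F ((A \ {c}) ×ˢ B) ⊔ CC F (A ×ˢ (B \ {c'})) := by
      rw [map_sub, map_smul]
      exact sub_mem hz2 (Submodule.smul_mem _ r hbd)
    have h5 := ku h2 Set.sdiff_subset Set.sdiff_subset subset_rfl subset_rfl hw1 hw2 (fun l hl => by
      have h6 : l = (l - l o • l0) + l o • l0 := (sub_add_cancel _ _).symm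
      rw [h6, ze1_sl_lin]
      refine add_mem (sl_mem_NN Set.sdiff_subset hw1 hw2 fun a ha => ?_)
        (Submodule.smul_mem _ _ ?_)
      · obtain ⟨s, hs⟩ := h.span a ha
        have h7 := hl _ hs
        have h8 := hl0 _ hs
        rw [map_sub, map_smul, sub_eq_zero] at h7 h8
        rw [LinearMap.sub_apply, LinearMap.smul_apply, h7, h8, hl1]
        simp [mul_comm]
      · rwa [map_sub, map_smul, sl_cross, hl1, one_smul])
    have h8 : BB F (A ×ˢ B) ⊔ (CC F ((A \ {c}) ×ˢ B) ⊔ CC F (A ×ˢ (B \ {c'}))) ≤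
        NN F (A ×ˢ B) ((A ×ˢ B) \ {(c, c')}) :=
      sup_le (BB_le_NN _ _) (sup_le ((CC_mono e3).trans (CC_le_NN _ _))
        ((CC_mono e4).trans (CC_le_NN _ _)))
    have h6 := h8 h5
    have h7 := add_mem (NN_mono subset_rfl inter_subset_right hz3) h6
    rwa [sub_add_sub_cancel] at h7

theorem ze1_homeo (e : X ≃ₜ Y) (h : Gen F k univ c o) : Gen F k univ (e c) (mp e o) :=
  h.equiv (mem_univ _) (ψ := e.symm) e.continuous.continuousOn e.symm.continuous.continuousOn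
    (mapsTo_univ _ _) (mapsTo_univ _ _) (fun x _ => e.symm_apply_apply x)
    (fun y _ => e.apply_symm_apply y)

theorem ze1_pi (h2 : (2 : F) ≠ 0) (n : ℕ) : ∃ o, Gen F n (univ : Set (Fin n → ℝ)) 0 o := by
  induction n with
  | zero =>
    have e : (univ : Set (Fin 0 → ℝ)) = {0} := by
      ext x
      simp [Subsingleton.elim x 0]
    exact ⟨_, e ▸ gen_point 0⟩
  | succ n ih =>
    obtain ⟨p, hp⟩ := ih
    obtain ⟨o, ho⟩ := gen_real (F := F)
    have h3 := ho.prod h2 hp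
    rw [univ_prod_univ, add_comm] at h3
    have h4 := h3.equiv (B := (univ : Set (Fin (n + 1) → ℝ))) (mem_univ _)
      (φ := fun w => Fin.cons w.1 w.2) (ψ := fun v => (v 0, Fin.tail v))
      (Continuous.continuousOn (by fun_prop)) (Continuous.continuousOn (by unfold Fin.tail; fun_prop))
      (mapsTo_univ _ _) (mapsTo_univ _ _) (fun x _ => by simp) (fun y _ => by simp)
    have e : (Fin.cons (0 : ℝ) (0 : Fin n → ℝ) : Fin (n + 1) → ℝ) = 0 := by
      funext i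
      refine Fin.cases ?_ (fun j => ?_) i <;> simp
    exact ⟨_, e ▸ h4⟩

theorem exists_gen (h2 : (2 : F) ≠ 0) (W : Type) [NormedAddCommGroup W] [NormedSpace ℝ W]
    [FiniteDimensional ℝ W] : ∃ o, Gen F (Module.finrank ℝ W) (univ : Set W) 0 o := by
  obtain ⟨o, ho⟩ := ze1_pi h2 (Module.finrank ℝ W)
  let e : (Fin (Module.finrank ℝ W) → ℝ) ≃L[ℝ] W :=
    ContinuousLinearEquiv.ofFinrankEq (by simp)
  have h3 := ze1_homeo e.toHomeomorph ho
  have e0 : e.toHomeomorph 0 = 0 := map_zero e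
  exact ⟨_, e0 ▸ h3⟩

end Pool.Agent.Fu
end

-- part Pool.Agent.P.MP_365c00_gt.ZE3
section

/-! Sets that are homeomorphic to open subsets of Euclidean space; colourings. -/

set_option linter.unusedSectionVars false
set_option linter.unusedVariables false

open Set Topology unitInterval TensorProduct

namespace Pool.Agent.Fu

variable {F : Type} [Field F] {X Y Z : Type} [TopologicalSpace X] [TopologicalSpace Y]
  [TopologicalSpace Z]

variable {e e' : ℕ} {A : Set X} {B : Set Y}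

theorem euc_of_ZE3 {E : Type} [NormedAddCommGroup E] [NormedSpace ℝ E] [FiniteDimensional ℝ E]
    (hE : Module.finrank ℝ E = e) (φ : X → E) (ψ : E → X) (V : Set E) (hV : IsOpen V)
    (hφ : ContinuousOn φ A) (hψ : ContinuousOn ψ V) (h1 : MapsTo φ A V) (h2 : MapsTo ψ V A)
    (h3 : ∀ x ∈ A, ψ (φ x) = x) (h4 : ∀ v ∈ V, φ (ψ v) = v) : Euc e A := by
  have hr : Module.finrank ℝ E = Module.finrank ℝ (Fin e → ℝ) := by
    rw [hE, Module.finrank_fin_fun]
  let η : E ≃L[ℝ] (Fin e → ℝ) := ContinuousLinearEquiv.ofFinrankEq hr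
  refine ⟨η ∘ φ, ψ ∘ η.symm, η.symm ⁻¹' V, hV.preimage η.symm.continuous,
    η.continuous.comp_continuousOn hφ,
    hψ.comp η.symm.continuous.continuousOn fun v hv => hv, fun x hx => ?_, fun v hv => h2 hv,
    fun x hx => ?_, fun v hv => ?_⟩
  · show η.symm (η (φ x)) ∈ V
    rw [η.symm_apply_apply]
    exact h1 hx
  · show ψ (η.symm (η (φ x))) = x
    rw [η.symm_apply_apply]
    exact h3 x hx
  · show η (φ (ψ (η.symm v))) = v
    rw [h4 _ hv, η.apply_symm_apply]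

theorem euc_univ (e : ℕ) : Euc e (univ : Set (Fin e → ℝ)) :=
  ⟨id, id, univ, isOpen_univ, continuousOn_id, continuousOn_id, mapsTo_univ _ _, mapsTo_univ _ _,
    fun _ _ => rfl, fun _ _ => rfl⟩
theorem euc_point (x : X) : Euc 0 ({x} : Set X) :=
  ⟨fun _ => 0, fun _ => x, univ, isOpen_univ, continuousOn_const, continuousOn_const,
    mapsTo_univ _ _, fun _ _ => rfl, fun _ hy => (mem_singleton_iff.1 hy).symm,
    fun _ _ => Subsingleton.elim _ _⟩
theorem Euc.inter (h : Euc e A) {U : Set X} (hU : IsOpen U) : Euc e (A ∩ U) := by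
  obtain ⟨φ, ψ, V, hV, hφ, hψ, h1, h2, h3, h4⟩ := h
  refine ⟨φ, ψ, V ∩ ψ ⁻¹' U, hψ.isOpen_inter_preimage hV hU, hφ.mono inter_subset_left,
    hψ.mono inter_subset_left, fun x hx => ⟨h1 hx.1, ?_⟩, fun v hv => ⟨h2 hv.1, hv.2⟩,
    fun x hx => h3 x hx.1, fun v hv => h4 v hv.1⟩
  show ψ (φ x) ∈ U
  rw [h3 x hx.1]
  exact hx.2
theorem Euc.equiv (h : Euc e A) {φ : X → Y} {ψ : Y → X} (hφ : ContinuousOn φ A)
    (hψ : ContinuousOn ψ B) (h1 : MapsTo φ A B) (h2 : MapsTo ψ B A) (h3 : ∀ x ∈ A, ψ (φ x) = x)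
    (h4 : ∀ y ∈ B, φ (ψ y) = y) : Euc e B := by
  obtain ⟨φ0, ψ0, V, hV, hφ0, hψ0, k1, k2, k3, k4⟩ := h
  refine ⟨φ0 ∘ ψ, φ ∘ ψ0, V, hV, hφ0.comp hψ h2, hφ.comp hψ0 k2, k1.comp h2, h1.comp k2,
    fun y hy => ?_, fun v hv => ?_⟩
  · show φ (ψ0 (φ0 (ψ y))) = y
    rw [k3 _ (h2 hy), h4 y hy]
  · show φ0 (ψ (φ (ψ0 v))) = v
    rw [h3 _ (k2 hv), k4 v hv]
theorem Euc.prod (h : Euc e A) (h' : Euc e' B) : Euc (e + e') (A ×ˢ B) := by
  obtain ⟨φ, ψ, V, hV, hφ, hψ, h1, h2, h3, h4⟩ := h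
  obtain ⟨φ', ψ', V', hV', hφ', hψ', k1, k2, k3, k4⟩ := h'
  refine euc_of_ZE3 (E := (Fin e → ℝ) × (Fin e' → ℝ)) (by simp) (Prod.map φ φ') (Prod.map ψ ψ')
    (V ×ˢ V') (hV.prod hV') (hφ.prodMap hφ') (hψ.prodMap hψ') (h1.prodMap k1) (h2.prodMap k2)
    (fun x hx => ?_) (fun v hv => ?_)
  · exact Prod.ext (h3 _ hx.1) (k3 _ hx.2)
  · exact Prod.ext (h4 _ hv.1) (k4 _ hv.2)
theorem Euc.pi (h : Euc e A) (ι : Type) [Fintype ι] :
    Euc (Fintype.card ι * e) (Set.pi univ fun _ : ι => A) := by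
  obtain ⟨φ, ψ, V, hV, hφ, hψ, h1, h2, h3, h4⟩ := h
  refine euc_of_ZE3 (E := ι → Fin e → ℝ) (by simp [Module.finrank_pi_fintype])
    (fun x i => φ (x i)) (fun v i => ψ (v i)) (Set.pi univ fun _ : ι => V)
    (isOpen_set_pi finite_univ fun _ _ => hV) (continuousOn_pi.2 fun i => ?_)
    (continuousOn_pi.2 fun i => ?_) (fun x hx i hi => h1 (hx i hi)) (fun v hv i hi => h2 (hv i hi))
    (fun x hx => funext fun i => h3 _ (hx i (mem_univ i)))
    (fun v hv => funext fun i => h4 _ (hv i (mem_univ i)))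
  · exact hφ.comp (continuous_apply i).continuousOn fun x hx => hx i (mem_univ i)
  · exact hψ.comp (continuous_apply i).continuousOn fun v hv => hv i (mem_univ i)
/-- sequences with `n + 1` free terms -/
theorem Euc.seq (h : Euc e A) (n : ℕ) (x0 : X) :
    Euc ((n + 1) * e) {y : ℕ → X | (∀ i ≤ n, y i ∈ A) ∧ ∀ i, n < i → y i = x0} := by
  have hp := h.pi (Fin (n + 1))
  rw [Fintype.card_fin] at hp
  refine hp.equiv (φ := fun x i => if hi : i < n + 1 then x ⟨i, hi⟩ else x0)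
    (ψ := fun y i => y i.val) (Continuous.continuousOn (continuous_pi fun i => ?_))
    (Continuous.continuousOn (continuous_pi fun i => continuous_apply _))
    (fun x hx => ⟨fun i hi => ?_, fun i hi => ?_⟩)
    (fun y hy i _ => hy.1 i.val (Nat.lt_succ_iff.1 i.2)) (fun x _ => funext fun i => ?_)
    (fun y hy => funext fun i => ?_)
  · by_cases hi : i < n + 1
    · simp only [dif_pos hi]
      exact continuous_apply _
    · simp only [dif_neg hi]
      exact continuous_const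
  · have hi' : i < n + 1 := Nat.lt_succ_iff.2 hi
    simp only [dif_pos hi']
    exact hx _ (mem_univ _)
  · have hi' : ¬ i < n + 1 := by omega
    simp only [dif_neg hi']
  · simp only [dif_pos i.2]
  · by_cases hi : i < n + 1
    · simp only [dif_pos hi]
    · simp only [dif_neg hi]
      exact (hy.2 i (by omega)).symm
theorem euc_radius {M : Type} [MetricSpace M] [CompactSpace M] {d : ℕ}
    (h : ∀ p : M, ∃ U : Set M, IsOpen U ∧ p ∈ U ∧ Euc d U) :
    ∃ r0 > 0, ∀ p : M, ∀ r ≤ r0, Euc d (Metric.ball p r) := by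
  choose U hU hp hE using h
  obtain ⟨δ, hδ, hb⟩ := lebesgue_number_lemma_of_metric (s := (univ : Set M)) (c := U)
    isCompact_univ hU fun p _ => mem_iUnion.2 ⟨p, hp p⟩
  refine ⟨δ, hδ, fun p r hr => ?_⟩
  obtain ⟨q, hq⟩ := hb p (mem_univ p)
  have e1 : U q ∩ Metric.ball p r = Metric.ball p r :=
    inter_eq_right.2 ((Metric.ball_subset_ball hr).trans hq)
  rw [← e1]
  exact (hE q).inter Metric.isOpen_ball

theorem elem_of_ZE3 {Sm : Set X → Prop} (h0 : Sm ∅) {κ : Type} (s : Finset κ) (Q : κ → Set X)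
    (hQ : ∀ a ∈ s, IsCompact (Q a) ∧ Sm (Q a))
    (hd : ∀ a ∈ s, ∀ b ∈ s, a ≠ b → Disjoint (Q a) (Q b)) : Elem Sm (⋃ a ∈ s, Q a) := by
  let ε := s.equivFin
  refine ⟨s.card, fun i => if hi : i < s.card then Q (ε.symm ⟨i, hi⟩) else ∅, fun i => ?_,
    fun i j hij => ?_, ?_⟩
  · by_cases hi : i < s.card
    · simp only [dif_pos hi]
      exact hQ _ (ε.symm ⟨i, hi⟩).2
    · simp only [dif_neg hi]
      exact ⟨isCompact_empty, h0⟩
  · by_cases hi : i < s.card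
    · by_cases hj : j < s.card
      · simp only [dif_pos hi, dif_pos hj]
        refine hd _ (ε.symm ⟨i, hi⟩).2 _ (ε.symm ⟨j, hj⟩).2 fun hh => hij ?_
        exact congrArg Fin.val (ε.symm.injective (Subtype.ext hh))
      · simp only [dif_neg hj]
        exact disjoint_empty _
    · simp only [dif_neg hi]
      exact empty_disjoint _
  · ext x
    simp only [mem_iUnion]
    constructor
    · rintro ⟨a, ha, hx⟩
      refine ⟨(ε ⟨a, ha⟩).val, (ε ⟨a, ha⟩).2, ?_⟩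
      simp only [dif_pos (ε ⟨a, ha⟩).2, Fin.eta, Equiv.symm_apply_apply]
      exact hx
    · rintro ⟨i, hi, hx⟩
      simp only [dif_pos hi] at hx
      exact ⟨_, (ε.symm ⟨i, hi⟩).2, hx⟩

theorem cov_of_ZE3 {Sm : Set X → Prop} (h0 : Sm ∅) {κ : Type} [Fintype κ] {J : ℕ}
    (hJ : Fintype.card κ = J) (K : κ → Set X) (hK : ∀ a, Elem Sm (K a)) :
    Cov Sm J (⋃ a, K a) := by
  let ε := Fintype.equivFinOfCardEq hJ
  refine ⟨fun i => if hi : i < J then K (ε.symm ⟨i, hi⟩) else ∅, fun i => ?_, ?_⟩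
  · by_cases hi : i < J
    · simp only [dif_pos hi]
      exact hK _
    · simp only [dif_neg hi]
      exact ⟨0, fun _ => ∅, fun _ => ⟨isCompact_empty, h0⟩, fun _ _ _ => disjoint_empty _, by simp⟩
  · ext x
    simp only [mem_iUnion]
    constructor
    · rintro ⟨a, hx⟩
      refine ⟨(ε a).val, (ε a).2, ?_⟩
      simp only [dif_pos (ε a).2, Fin.eta, Equiv.symm_apply_apply]
      exact hx
    · rintro ⟨i, hi, hx⟩
      simp only [dif_pos hi] at hx
      exact ⟨_, hx⟩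

theorem Elem.sub [T2Space X] {Sm : Set X → Prop} (hS : ∀ K K', Sm K → K' ⊆ K → Sm K') {K L : Set X}
    (h : Elem Sm K) (hL : IsCompact L) (hLK : L ⊆ K) : Elem Sm L := by
  obtain ⟨n, P, hP, hd, rfl⟩ := h
  refine ⟨n, fun i => P i ∩ L, fun i => ⟨(hP i).1.inter_right hL.isClosed,
    hS _ _ (hP i).2 inter_subset_left⟩,
    fun i j hij => (hd i j hij).mono inter_subset_left inter_subset_left, ?_⟩
  ext x
  simp only [mem_iUnion]
  constructor
  · intro hx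
    obtain ⟨i, hi, hxi⟩ := mem_iUnion₂.1 (hLK hx)
    exact ⟨i, hi, hxi, hx⟩
  · rintro ⟨i, _, hx⟩
    exact hx.2
theorem Elem.compact {Sm : Set X → Prop} {K : Set X} (h : Elem Sm K) : IsCompact K := by
  obtain ⟨n, P, hP, _, rfl⟩ := h
  exact (Set.finite_lt_nat n).isCompact_biUnion fun i _ => (hP i).1
/-- colouring by the parities of a grid -/
theorem exists_cov {M : Type} [MetricSpace M] [CompactSpace M] {N : ℕ} (ι : C(M, Fin N → ℝ))
    (hι : Function.Injective ι) {r : ℝ} (hr : 0 < r) :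
    Cov (fun K : Set M => ∀ x ∈ K, ∀ y ∈ K, dist x y < r) (2 ^ N) univ := by
  classical
  have hD : IsCompact {p : M × M | r ≤ dist p.1 p.2} :=
    (isClosed_le continuous_const (continuous_fst.dist continuous_snd)).isCompact
  obtain ⟨a, ha, hle⟩ := hD.exists_forall_le' (f := fun p : M × M => dist (ι p.1) (ι p.2))
    ((ι.continuous.comp continuous_fst).dist (ι.continuous.comp continuous_snd)).continuousOn
    (a := 0) fun p hp => dist_pos.2 fun hh => by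
      have h1 : r ≤ dist p.1 p.2 := hp
      rw [hι hh, dist_self] at h1
      exact absurd hr (not_lt.2 h1)
  obtain ⟨ε, hε, hεa⟩ := exists_between ha
  obtain ⟨R, hR⟩ := (isCompact_range ι.continuous).isBounded.exists_norm_le
  let Q : (Fin N → ℤ) → Set M := fun m =>
    {x | ∀ i, (m i : ℝ) * ε ≤ ι x i ∧ ι x i ≤ ((m i : ℝ) + 1) * ε}
  let s : Finset (Fin N → ℤ) := Fintype.piFinset fun _ => Finset.Icc ⌊-R / ε⌋ ⌊R / ε⌋
  let col : (Fin N → ℤ) → Fin N → Bool := fun m i => decide (m i % 2 = 0)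
  have hc : ∀ i, Continuous fun x => ι x i := fun i => (continuous_apply i).comp ι.continuous
  have h0 : ∀ x ∈ (∅ : Set M), ∀ y ∈ (∅ : Set M), dist x y < r := fun x hx => hx.elim
  have hcov := cov_of_ZE3 (Sm := fun K : Set M => ∀ x ∈ K, ∀ y ∈ K, dist x y < r) h0
    (κ := Fin N → Bool) (J := 2 ^ N) (by simp)
    (fun b => ⋃ m ∈ s.filter (fun m => col m = b), Q m) fun b => by
      refine elem_of_ZE3 (Sm := fun K : Set M => ∀ x ∈ K, ∀ y ∈ K, dist x y < r) h0 _ Q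
        (fun m _ => ⟨?_, fun x hx y hy => ?_⟩) fun m hm m' hm' hne => ?_
      · refine IsClosed.isCompact ?_
        simp only [Q, ofPred_forall, ofPred_and]
        exact isClosed_iInter fun i =>
          (isClosed_le continuous_const (hc i)).inter (isClosed_le (hc i) continuous_const)
      · by_contra hn
        have h1 := hle (x, y) (not_lt.1 hn)
        have h2 : dist (ι x) (ι y) ≤ ε := by
          refine (dist_pi_le_iff hε.le).2 fun i => ?_
          have e1 := hx i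
          have e2 := hy i
          rw [Real.dist_eq, abs_le]
          constructor <;> linarith [e1.1, e1.2, e2.1, e2.2]
        exact absurd (h1.trans h2) (not_le.2 hεa)
      · obtain ⟨i, hi⟩ := Function.ne_iff.1 hne
        have e0 : col m i = col m' i := by
          rw [(Finset.mem_filter.1 hm).2, (Finset.mem_filter.1 hm').2]
        have e1 : m i % 2 = 0 ↔ m' i % 2 = 0 := decide_eq_decide.1 e0
        have e2 : m i + 2 ≤ m' i ∨ m' i + 2 ≤ m i := by omega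
        refine disjoint_left.2 fun x hx hx' => ?_
        have f1 := hx i
        have f2 := hx' i
        rcases e2 with e2 | e2
        · have e3 : (m i : ℝ) + 2 ≤ (m' i : ℝ) := by exact_mod_cast e2
          nlinarith [f1.2, f2.1]
        · have e3 : (m' i : ℝ) + 2 ≤ (m i : ℝ) := by exact_mod_cast e2
          nlinarith [f1.1, f2.2]
  have hu : (⋃ b : Fin N → Bool, ⋃ m ∈ s.filter (fun m => col m = b), Q m) = univ := by
    refine eq_univ_of_forall fun x => ?_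
    refine mem_iUnion.2 ⟨col fun i => ⌊ι x i / ε⌋, mem_iUnion₂.2 ⟨fun i => ⌊ι x i / ε⌋,
      Finset.mem_filter.2 ⟨Fintype.mem_piFinset.2 fun i => ?_, rfl⟩, fun i => ⟨?_, ?_⟩⟩⟩
    · have h1 : |ι x i| ≤ R := (norm_le_pi_norm (ι x) i).trans (hR _ (mem_range_self x))
      rw [abs_le] at h1
      exact Finset.mem_Icc.2 ⟨Int.floor_mono (div_le_div_of_nonneg_right h1.1 hε.le),
        Int.floor_mono (div_le_div_of_nonneg_right h1.2 hε.le)⟩
    · exact (le_div_iff₀ hε).1 (Int.floor_le _)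
    · exact (div_le_iff₀ hε).1 (Int.lt_floor_add_one _).le
  rwa [hu] at hcov
theorem Cov.prod {S : Set X → Prop} {T : Set Y → Prop} {J J' : ℕ} (h : Cov S J univ)
    (h' : Cov T J' univ) :
    Cov (fun K : Set (X × Y) => ∃ P Q, S P ∧ T Q ∧ K ⊆ P ×ˢ Q) (J * J') univ := by
  obtain ⟨K, hK, hu⟩ := h
  obtain ⟨K', hK', hu'⟩ := h'
  have h0 : ∃ P Q, S P ∧ T Q ∧ (∅ : Set (X × Y)) ⊆ P ×ˢ Q := by
    obtain ⟨_, P, hP, _⟩ := hK 0
    obtain ⟨_, Q, hQ, _⟩ := hK' 0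
    exact ⟨P 0, Q 0, (hP 0).2, (hQ 0).2, empty_subset _⟩
  have hcov := cov_of_ZE3 (Sm := fun K : Set (X × Y) => ∃ P Q, S P ∧ T Q ∧ K ⊆ P ×ˢ Q) h0
    (κ := Fin J × Fin J') (J := J * J') (by simp)
    (fun a => K a.1.val ×ˢ K' a.2.val) fun a => by
      obtain ⟨n, P, hP, hd, e1⟩ := hK a.1.val
      obtain ⟨n', Q, hQ, hd', e2⟩ := hK' a.2.val
      have he := elem_of_ZE3 (Sm := fun K : Set (X × Y) => ∃ P Q, S P ∧ T Q ∧ K ⊆ P ×ˢ Q) h0
        (Finset.range n ×ˢ Finset.range n') (fun b => P b.1 ×ˢ Q b.2)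
        (fun b _ => ⟨(hP b.1).1.prod (hQ b.2).1, P b.1, Q b.2, (hP b.1).2, (hQ b.2).2, Subset.rfl⟩)
        fun b _ b' _ hne => by
          refine disjoint_left.2 fun x hx hx' => hne (Prod.ext ?_ ?_)
          · by_contra hn
            exact disjoint_left.1 (hd _ _ hn) hx.1 hx'.1
          · by_contra hn
            exact disjoint_left.1 (hd' _ _ hn) hx.2 hx'.2
      have e3 : (⋃ b ∈ Finset.range n ×ˢ Finset.range n', P b.1 ×ˢ Q b.2) =
          K a.1.val ×ˢ K' a.2.val := by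
        rw [e1, e2]
        ext x
        simp only [mem_iUnion, mem_prod, Finset.mem_product, Finset.mem_range]
        constructor
        · rintro ⟨b, hb, hx⟩
          exact ⟨⟨b.1, hb.1, hx.1⟩, b.2, hb.2, hx.2⟩
        · rintro ⟨⟨i, hi, hx⟩, j, hj, hy⟩
          exact ⟨(i, j), ⟨hi, hj⟩, hx, hy⟩
      rwa [e3] at he
  have e4 : (⋃ a : Fin J × Fin J', K a.1.val ×ˢ K' a.2.val) = univ := by
    refine eq_univ_of_forall fun x => ?_
    obtain ⟨i, hi, hx⟩ := mem_iUnion₂.1 (hu ▸ mem_univ x.1 : x.1 ∈ ⋃ j < J, K j)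
    obtain ⟨j, hj, hy⟩ := mem_iUnion₂.1 (hu' ▸ mem_univ x.2 : x.2 ∈ ⋃ j < J', K' j)
    exact mem_iUnion.2 ⟨(⟨i, hi⟩, ⟨j, hj⟩), hx, hy⟩
  rwa [e4] at hcov
theorem Cov.pull [T2Space Y] {T : Set Y → Prop} {J : ℕ} (h : Cov T J univ) (π : C(X, Y)) {C : Set X}
    (hC : IsCompact C) : Cov (fun K : Set X => K ⊆ C ∧ ∃ Q, T Q ∧ MapsTo π K Q) J C := by
  obtain ⟨K, hK, hu⟩ := h
  refine ⟨fun j => C ∩ π ⁻¹' K j, fun j => ?_, ?_⟩
  · obtain ⟨n, P, hP, hd, e1⟩ := hK j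
    refine ⟨n, fun i => C ∩ π ⁻¹' P i, fun i => ⟨hC.inter_right
      ((hP i).1.isClosed.preimage π.continuous), inter_subset_left, P i, (hP i).2,
      fun x hx => hx.2⟩, fun i k hik => disjoint_left.2 fun x hx hx' =>
        disjoint_left.1 (hd i k hik) hx.2 hx'.2, ?_⟩
    ext x
    simp only [e1, mem_iUnion, mem_inter_iff, mem_preimage]
    constructor
    · rintro ⟨hx, i, hi, hxi⟩
      exact ⟨i, hi, hx, hxi⟩
    · rintro ⟨i, hi, hx, hxi⟩
      exact ⟨hx, i, hi, hxi⟩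
  · ext x
    simp only [mem_iUnion, mem_inter_iff, mem_preimage]
    constructor
    · intro hx
      obtain ⟨j, hj, hy⟩ := mem_iUnion₂.1 (hu ▸ mem_univ (π x) : π x ∈ ⋃ j < J, K j)
      exact ⟨j, hj, hx, hy⟩
    · rintro ⟨_, _, hx, _⟩
      exact hx

end Pool.Agent.Fu
end
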