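import Mathlib
import Pool.Agent.K.MP_365c00_gt.C8

/-! Homology of open subsets of Euclidean space along compact sets. -/

set_option linter.unusedSectionVars false
set_option linter.unusedVariables false

open Set Topology unitInterval TensorProduct

namespace Pool.Agent.Fu

variable {F : Type} [Field F] {X Y Z : Type} [TopologicalSpace X] [TopologicalSpace Y]
  [TopologicalSpace Z]

variable {W : Type} [NormedAddCommGroup W] [NormedSpace ℝ W]

theorem ze2_dil_mem {K : Set W} (hc : Convex ℝ K) {c : W} (hcK : c ∈ K) {μ : ℝ} (hμ : 1 ≤ μ)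
    {x : W} (hx : x ∉ K) : c + μ • (x - c) ∉ K := by
  intro h
  have h0 : 0 < μ := by linarith
  have := hc.add_smul_sub_mem hcK h (t := μ⁻¹) ⟨by positivity, inv_le_one_of_one_le₀ hμ⟩
  rw [add_sub_cancel_left, smul_smul, inv_mul_cancel₀ h0.ne', one_smul, add_sub_cancel] at this
  exact hx this

theorem ze2_dil_htp {K : Set W} (hc : Convex ℝ K) {c : W} (hcK : c ∈ K) {l : ℝ} (hl : 1 ≤ l)
    {z : Ch F W} (hz : z ∈ ZZ F univ Kᶜ) :
    mp (fun x => c + l • (x - c)) z - z ∈ NN F univ Kᶜ := by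
  refine htp_id_NN (H := fun w : ℝ × W => c + (1 + w.1 * (l - 1)) • (w.2 - c))
    (Continuous.continuousOn (by fun_prop)) (mapsTo_univ _ _) ?_ ?_ ?_ hz
  · rintro ⟨u, x⟩ ⟨hu, -, hx⟩
    refine ze2_dil_mem hc hcK ?_ hx
    have : 0 ≤ u * (l - 1) := mul_nonneg hu.1 (by linarith)
    linarith
  · intro x _
    simp
  · intro x _
    simp

theorem ze2_far {K C : Set W} (hK : IsCompact K) (hC : IsCompact C) {c : W} (hc : C ⊆ {c}ᶜ) :
    ∃ l : ℝ, 1 ≤ l ∧ MapsTo (fun x => c + l • (x - c)) C Kᶜ := by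
  obtain ⟨R, hR0, hR⟩ := hK.isBounded.subset_ball_lt 0 c
  obtain ⟨δ, hδ, hb⟩ := Metric.isOpen_iff.1 hC.isClosed.isOpen_compl c fun h => hc h rfl
  have hq : 0 < R / δ := div_pos hR0 hδ
  refine ⟨1 + R / δ, by linarith, fun x hx h => ?_⟩
  have h1 := hR h
  rw [Metric.mem_ball, dist_eq_norm, add_sub_cancel_left, norm_smul,
    Real.norm_of_nonneg (by linarith)] at h1
  have h2 : δ ≤ ‖x - c‖ := by
    by_contra h3
    exact hb (by rw [Metric.mem_ball, dist_eq_norm]; exact not_le.1 h3) hx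
  have h3 : (1 + R / δ) * δ ≤ (1 + R / δ) * ‖x - c‖ := mul_le_mul_of_nonneg_left h2 (by linarith)
  rw [add_mul, div_mul_cancel₀ _ hδ.ne'] at h3
  linarith

/-- along a compact convex set the homology is that along any of its points -/
theorem conv_inj {K : Set W} (hK : IsCompact K) (hc : Convex ℝ K) {c : W} (hcK : c ∈ K) {z : Ch F W}
    (hz : z ∈ ZZ F univ Kᶜ) (h : z ∈ NN F univ {c}ᶜ) : z ∈ NN F univ Kᶜ := by
  obtain ⟨g, hg, hn⟩ := mem_NN.1 h
  obtain ⟨C, hC, hCc, hn'⟩ := exists_compact hn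
  obtain ⟨l, hl, hm⟩ := ze2_far hK hC hCc
  have h1 : mp (fun x => c + l • (x - c)) z ∈ NN F univ Kᶜ :=
    mp_mem_NN (A := univ) (Continuous.continuousOn (by fun_prop)) (mapsTo_univ _ _) hm
      (mem_NN.2 ⟨g, hg, hn'⟩)
  have := sub_mem h1 (ze2_dil_htp hc hcK hl hz)
  rwa [sub_sub_cancel] at this
theorem conv_surj {K : Set W} (hK : IsCompact K) (hc : Convex ℝ K) {c : W} (hcK : c ∈ K)
    {z : Ch F W} (hz : z ∈ ZZ F univ {c}ᶜ) :
    ∃ z' ∈ ZZ F univ Kᶜ, z' - z ∈ NN F univ {c}ᶜ ∧ ∀ k, z ∈ HD F W k → z' ∈ HD F W k := by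
  obtain ⟨C, hC, hCc, hn'⟩ := exists_compact (mem_ZZ.1 hz).2
  obtain ⟨l, hl, hm⟩ := ze2_far hK hC hCc
  refine ⟨mp (fun x => c + l • (x - c)) z, ?_,
    ze2_dil_htp (convex_singleton c) (mem_singleton c) hl hz, fun k hk => mp_mem_HD _ hk⟩
  exact mp_mem_ZZ (A := univ) (B := C) (Continuous.continuousOn (by fun_prop)) (mapsTo_univ _ _)
    (fun x hx => hm hx.2) (mem_ZZ.2 ⟨mem_CC_univ z, hn'⟩)

/-- a class along `K` of degree at least `e` that vanishes at all points of `K` vanishes -/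
def ze2V (F : Type) [Field F] (e : ℕ) (K : Set X) : Prop :=
  ∀ k, e ≤ k → ∀ z ∈ ZZ F univ Kᶜ, z ∈ HD F X k → (∀ c ∈ K, z ∈ NN F univ {c}ᶜ) →
    z ∈ NN F univ Kᶜ

theorem ze2_conv (e : ℕ) {K : Set W} (hK : IsCompact K) (hc : Convex ℝ K) : ze2V F e K := by
  intro k _ z hz _ hp
  rcases K.eq_empty_or_nonempty with rfl | ⟨c, hcK⟩
  · rw [compl_empty]
    exact CC_le_NN _ _ (mem_CC_univ z)
  · exact conv_inj hK hc hcK hz (hp c hcK)

theorem ze2_step {e : ℕ}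
    (hv : ∀ (c : X) (j : ℕ), e < j → ∀ z ∈ ZZ F univ {c}ᶜ, z ∈ HD F X j → z ∈ NN F univ {c}ᶜ)
    {K L : Set X} (hK : IsClosed K) (hL : IsClosed L) (h1 : ze2V F e K) (h2 : ze2V F e L)
    (h3 : ze2V F e (K ∩ L)) : ze2V F e (K ∪ L) := by
  intro k hk z hz hd hp
  obtain ⟨g1, -, d1, n1⟩ := NN_HD hd (h1 k hk z
    (ZZ_mono subset_rfl (compl_subset_compl.2 subset_union_left) hz) hd fun c hc => hp c (Or.inl hc))
  obtain ⟨g2, -, d2, n2⟩ := NN_HD hd (h2 k hk z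
    (ZZ_mono subset_rfl (compl_subset_compl.2 subset_union_right) hz) hd fun c hc => hp c (Or.inr hc))
  have eb : bd (g1 - g2) = (z - bd g2) - (z - bd g1) := by
    rw [map_sub]
    abel
  have hm : g1 - g2 ∈ ZZ F univ (K ∩ L)ᶜ := by
    refine mem_ZZ.2 ⟨mem_CC_univ _, ?_⟩
    rw [eb]
    exact sub_mem (CC_mono (compl_subset_compl.2 inter_subset_right) n2)
      (CC_mono (compl_subset_compl.2 inter_subset_left) n1)
  have hmd := sub_mem d1 d2
  obtain ⟨c, -, hc⟩ := mem_NN.1 (h3 (k + 1) (by omega) _ hm hmd fun x hx =>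
    hv x (k + 1) (by omega) _
      (ZZ_mono subset_rfl (compl_subset_compl.2 (singleton_subset_iff.2 hx)) hm) hmd)
  have eb' : bd (g1 - g2 - bd c) = (z - bd g2) - (z - bd g1) := by
    rw [map_sub, bd_bd, sub_zero, eb]
  obtain ⟨m1, hm1, m2, hm2, c', -, em⟩ := mv (A := univ) hK.isOpen_compl hL.isOpen_compl
    (m := g1 - g2 - bd c) (n1 := z - bd g1) (n2 := z - bd g2)
    (by rwa [univ_inter, ← compl_inter]) (by rwa [univ_inter]) (by rwa [univ_inter]) eb'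
  rw [univ_inter] at hm1 hm2
  rw [em, map_add, map_add, bd_bd, add_zero] at eb'
  refine mem_NN.2 ⟨g1 - m1, mem_CC_univ _, ?_⟩
  rw [compl_union, CC_inter]
  have e1 : z - bd (g1 - m1) = (z - bd g1) + bd m1 := by
    rw [map_sub]
    abel
  have e2 : z - bd (g1 - m1) = (z - bd g2) - bd m2 := by
    rw [e1, eq_sub_iff_add_eq, add_assoc, eb']
    abel
  exact ⟨e1 ▸ add_mem n1 (bd_mem_CC hm1), e2 ▸ sub_mem n2 (bd_mem_CC hm2)⟩

theorem ze2_fin {e : ℕ}
    (hv : ∀ (c : W) (j : ℕ), e < j → ∀ z ∈ ZZ F univ {c}ᶜ, z ∈ HD F W j → z ∈ NN F univ {c}ᶜ)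
    {t : Set W} (ht : t.Finite) : ∀ P : W → Set W, (∀ x, IsCompact (P x)) →
      (∀ x, Convex ℝ (P x)) → ze2V F e (⋃ x ∈ t, P x) := by
  induction t, ht using Set.Finite.induction_on with
  | empty =>
    intro P _ _
    rw [biUnion_empty]
    exact ze2_conv e isCompact_empty convex_empty
  | @insert a t _ ht ih =>
    intro P h1 h2
    rw [biUnion_insert]
    refine ze2_step hv (h1 a).isClosed (ht.isClosed_biUnion fun x _ => (h1 x).isClosed)
      (ze2_conv e (h1 a) (h2 a)) (ih P h1 h2) ?_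
    rw [inter_iUnion₂]
    exact ih (fun x => P a ∩ P x) (fun x => (h1 a).inter (h1 x)) fun x => (h2 a).inter (h2 x)

theorem ze2_all [ProperSpace W] {e : ℕ}
    (hv : ∀ (c : W) (j : ℕ), e < j → ∀ z ∈ ZZ F univ {c}ᶜ, z ∈ HD F W j → z ∈ NN F univ {c}ᶜ)
    {K : Set W} (hK : IsCompact K) : ze2V F e K := by
  intro k hk z hz hd hp
  obtain ⟨C, hC, hCK, hb⟩ := exists_compact (mem_ZZ.1 hz).2
  obtain ⟨δ, hδ, hth⟩ := hK.exists_cthickening_subset_open hC.isClosed.isOpen_compl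
    (subset_compl_comm.1 hCK)
  obtain ⟨t, htK, ht, hcov⟩ := finite_cover_balls_of_compact hK hδ
  have hball : ∀ x ∈ K, C ⊆ (Metric.closedBall x δ)ᶜ := fun x hx =>
    subset_compl_comm.1 ((Metric.closedBall_subset_cthickening hx δ).trans hth)
  have hzC : z ∈ ZZ F univ C := mem_ZZ.2 ⟨mem_CC_univ z, hb⟩
  have := ze2_fin hv ht (fun x => Metric.closedBall x δ) (fun x => isCompact_closedBall x δ)
    (fun x => convex_closedBall x δ) k hk z (ZZ_mono subset_rfl ?_ hzC) hd ?_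
  · refine NN_mono subset_rfl (compl_subset_compl.2 (hcov.trans ?_)) this
    exact iUnion₂_mono fun x _ => Metric.ball_subset_closedBall
  · rw [compl_iUnion₂]
    exact subset_iInter₂ fun x hx => hball x (htK hx)
  · intro y hy
    obtain ⟨x, hx, hy⟩ := mem_iUnion₂.1 hy
    exact NN_mono subset_rfl (compl_subset_compl.2 (singleton_subset_iff.2 hy))
      (conv_inj (isCompact_closedBall x δ) (convex_closedBall x δ) (Metric.mem_closedBall_self hδ.le)
        (ZZ_mono subset_rfl (hball x (htK hx)) hzC) (hp x (htK hx)))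

theorem eh_univ (h2 : (2 : F) ≠ 0) (e : ℕ) : EH F e (univ : Set (Fin e → ℝ)) := by
  have hv : ∀ (c : Fin e → ℝ) (j : ℕ), e < j → ∀ z ∈ ZZ F univ {c}ᶜ, z ∈ HD F _ j →
      z ∈ NN F univ {c}ᶜ := by
    intro c j hj z hz hd
    obtain ⟨o, ho⟩ := exists_gen h2 (Fin e → ℝ)
    rw [Module.finrank_fin_fun] at ho
    have h1 := ho.equiv (B := univ) (mem_univ _) (φ := fun x => x + c) (ψ := fun x => x - c)
      (Continuous.continuousOn (by fun_prop)) (Continuous.continuousOn (by fun_prop))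
      (mapsTo_univ _ _) (mapsTo_univ _ _) (fun x _ => add_sub_cancel_right x c)
      fun x _ => sub_add_cancel x c
    simp only [zero_add] at h1
    rw [compl_eq_univ_sdiff] at hz ⊢
    exact h1.van hj.ne' hz hd
  intro K hK _ k z hz hd h
  rw [← compl_eq_univ_sdiff] at hz ⊢
  refine ze2_all hv hK k (h.elim le_of_lt fun h => h.1.ge) z hz hd fun c hc => ?_
  rcases h with h | h
  · exact hv c k h z (ZZ_mono subset_rfl (compl_subset_compl.2 (singleton_subset_iff.2 hc)) hz) hd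
  · rw [compl_eq_univ_sdiff]
    exact h.2 c hc
theorem EH.inter [T2Space X] {e : ℕ} {B U : Set X} (h : EH F e B) (hU : IsOpen U) :
    EH F e (B ∩ U) := by
  intro K hK hKB k z hz hd hp
  have h1 := h K hK (hKB.trans inter_subset_left) k z
    (ZZ_mono inter_subset_left (sdiff_subset_sdiff_left inter_subset_left) hz) hd
    (hp.imp id fun h => ⟨h.1, fun c hc =>
      NN_mono inter_subset_left (sdiff_subset_sdiff_left inter_subset_left) (h.2 c hc)⟩)
  have hs : (B \ K) ∩ U ⊆ (B ∩ U) \ K := fun x hx => ⟨⟨hx.1.1, hx.2⟩, hx.1.2⟩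
  refine NN_mono subset_rfl hs
    (exc_inj hU hK.isClosed.isOpen_compl (fun x _ => ?_) (fun x hx => hx)
      (ZZ_mono subset_rfl (sdiff_subset_sdiff_left inter_subset_left) hz) h1)
  by_cases hx : x ∈ K
  · exact Or.inl (hKB hx).2
  · exact Or.inr hx
theorem Euc.eh [T2Space X] (h2 : (2 : F) ≠ 0) {e : ℕ} {B : Set X} (h : Euc e B) : EH F e B := by
  obtain ⟨φ, ψ, V, hV, hφ, hψ, m1, m2, l1, l2⟩ := h
  have hE := (eh_univ (F := F) h2 e).inter hV
  rw [univ_inter] at hE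
  intro K hK hKB k z hz hd hp
  have h1 := hE (φ '' K) (hK.image_of_continuousOn (hφ.mono hKB))
    (by rintro _ ⟨x, hx, rfl⟩; exact m1 (hKB hx)) k (mp φ z) (mp_mem_ZZ hφ m1 ?_ hz)
    (mp_mem_HD φ hd) (hp.imp id fun h => ⟨h.1, ?_⟩)
  · have h3 := mp_mem_NN (B' := B \ K) hψ m2
      (fun v hv => ⟨m2 hv.1, fun hK => hv.2 ⟨_, hK, l2 v hv.1⟩⟩) h1
    rwa [mp_mp hφ hψ m1 (mem_ZZ.1 hz).1, mp_eq_self (f := ψ ∘ φ) l1 (mem_ZZ.1 hz).1] at h3
  · rintro x ⟨hx, -, hxK⟩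
    refine ⟨m1 hx, ?_⟩
    rintro ⟨y, hy, e⟩
    rw [← l1 x hx, ← e, l1 y (hKB hy)] at hxK
    exact hxK hy
  · rintro _ ⟨c, hc, rfl⟩
    refine mp_mem_NN hφ m1 ?_ (h.2 c hc)
    intro x hx
    refine ⟨m1 hx.1, fun e => hx.2 ?_⟩
    rw [mem_singleton_iff] at e ⊢
    rw [← l1 x hx.1, e, l1 c (hKB hc)]

end Pool.Agent.Fu
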