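import Mathlib
import Pool.Agent.K.MP_365c00_gt.C3
import Pool.Agent.K.MP_365c00_gt.C7

/-! Short geodesics as Moore paths. -/

set_option linter.unusedSectionVars false
set_option linter.unusedVariables false

open Set Filter Topology Metric Function MeasureTheory
open scoped Manifold ContDiff
open Pool.Agent.GeoN

namespace Pool.Agent.Fu

variable {E : Type} [NormedAddCommGroup E] [InnerProductSpace ℝ E] [FiniteDimensional ℝ E]
  {M : Type} [MetricSpace M] [ChartedSpace E M] [IsManifold 𝓘(ℝ, E) ∞ M]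
  [CompactSpace M] [Nonempty M] [Nontrivial E] {g : Met E M}

variable {sh : Short g} {a : ℝ}

theorem SMd.core_ZM2 (h : SMd sh dist a) (u : UG g) {s t : ℝ} (hst : |s - t| < a) :
    (u.1 s, u.1 t) ∈ sh.D ∧ sh.σ (u.1 s, u.1 t) = (fun r => u.1 ((t - s) * r + s)) ∧
      sh.S (u.1 s, u.1 t) = (t - s) ^ 2 := by
  obtain ⟨h1, h2⟩ := UG.energy_scale u (t - s) s
  have hlt : (t - s) ^ 2 < a ^ 2 := by
    rw [← sq_abs, abs_sub_comm]
    exact pow_lt_pow_left₀ hst (abs_nonneg _) two_ne_zero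
  have h3 := sh.uniq _ h1 (by rw [h2]; exact hlt.trans_le h.le)
  simp only [mul_zero, zero_add, mul_one, sub_add_cancel] at h3
  refine ⟨h3.1, h3.2, ?_⟩
  rw [Short.S, h3.2, h2]

theorem SMd.dist_ug (h : SMd sh dist a) (u : UG g) {s t : ℝ} (hst : |s - t| < a) :
    dist (u.1 s) (u.1 t) = |s - t| := by
  obtain ⟨h1, -, h3⟩ := h.core_ZM2 u hst
  have hlt : (t - s) ^ 2 < a ^ 2 := by
    rw [← sq_abs, abs_sub_comm]
    exact pow_lt_pow_left₀ hst (abs_nonneg _) two_ne_zero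
  have h4 := (h.mem _ _ (h.near _ h1 (h3 ▸ hlt))).2
  rw [h3, ← sq_abs, abs_sub_comm] at h4
  exact ((pow_left_inj₀ (abs_nonneg _) dist_nonneg two_ne_zero).1 h4).symm

theorem SMd.lip (h : SMd sh dist a) (u : UG g) (s t : ℝ) : dist (u.1 s) (u.1 t) ≤ |s - t| := by
  have key : ∀ n : ℕ, ∀ s t : ℝ, |s - t| < 2 ^ n * a → dist (u.1 s) (u.1 t) ≤ |s - t| := by
    intro n
    induction n with
    | zero => exact fun s t hst => (h.dist_ug u (by simpa using hst)).le
    | succ n ih =>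
      intro s t hst
      have e1 : |s - (s + t) / 2| = |s - t| / 2 := by
        rw [show s - (s + t) / 2 = (s - t) / 2 by ring, abs_div, abs_two]
      have e2 : |(s + t) / 2 - t| = |s - t| / 2 := by
        rw [show (s + t) / 2 - t = (s - t) / 2 by ring, abs_div, abs_two]
      rw [pow_succ] at hst
      have h1 := ih s ((s + t) / 2) (by rw [e1]; linarith)
      have h2 := ih ((s + t) / 2) t (by rw [e2]; linarith)
      have h3 := dist_triangle (u.1 s) (u.1 ((s + t) / 2)) (u.1 t)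
      rw [e1] at h1
      rw [e2] at h2
      linarith
  obtain ⟨n, hn⟩ := pow_unbounded_of_one_lt (|s - t| / a) (one_lt_two (α := ℝ))
  exact key n s t ((div_lt_iff₀ h.pos).1 hn)

/-- the short geodesic between two points of `u` -/
theorem SMd.sigma_ug (h : SMd sh dist a) (u : UG g) {s t : ℝ} (hst : |s - t| < a) (r : ℝ) :
    sh.σ (u.1 s, u.1 t) r = u.1 (s + r * (t - s)) := by
  rw [(h.core_ZM2 u hst).2.1]
  exact congrArg u.1 (by ring)

theorem SMd.uniq_ug (h : SMd sh dist a) {u v : UG g} {l : ℝ} (h0 : 0 < l) (hl : l < a)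
    (e0 : u.1 0 = v.1 0) (e1 : u.1 l = v.1 l) : u = v := by
  have hst : |0 - l| < a := by rwa [zero_sub, abs_neg, abs_of_pos h0]
  refine Subtype.ext (ContinuousMap.ext fun x => ?_)
  have h1 := h.sigma_ug u hst (x / l)
  have h2 := h.sigma_ug v hst (x / l)
  have e : 0 + x / l * (l - 0) = x := by field_simp; ring
  rw [e] at h1 h2
  rw [← h1, ← h2, e0, e1]

theorem SMd.ex_ug (h : SMd sh dist a) {x y : M} (hne : x ≠ y) (hd : dist x y < a) :
    ∃ u : UG g, u.1 0 = x ∧ u.1 (dist x y) = y := by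
  obtain ⟨h1, h2⟩ := h.mem x y hd
  have h3 : energy g (sh.σ (x, y)) 0 = dist x y ^ 2 := h2
  obtain ⟨u, hu⟩ := exists_unit_sqrt (sh.geo _ h1) (by rw [h3]; exact pow_pos (dist_pos.2 hne) 2)
  rw [h3, Real.sqrt_sq dist_nonneg] at hu
  refine ⟨u, ?_, ?_⟩
  · have := hu 0
    rw [mul_zero, sh.zero _ h1] at this
    exact this.symm
  · have := hu 1
    rw [mul_one, sh.one _ h1] at this
    exact this.symm

theorem cl_lip_ZM2 (b s t : ℝ) : |cl b s - cl b t| ≤ |s - t| := by
  unfold cl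
  rw [max_comm 0, max_comm 0]
  refine (abs_max_sub_max_le_abs _ _ _).trans ?_
  simpa using abs_min_sub_min_le_max s b t b

theorem cl_mem_ZM2 {b : ℝ} (hb : 0 ≤ b) (s : ℝ) : 0 ≤ cl b s ∧ cl b s ≤ b :=
  ⟨le_max_left _ _, max_le hb (min_le_right _ _)⟩

theorem cl_of_mem_ZM2 {b s : ℝ} (h0 : 0 ≤ s) (h1 : s ≤ b) : cl b s = s := by
  rw [cl, min_eq_left h1, max_eq_right h0]

theorem mkc_apply_ZM2 {f : ℝ → M} (h : Continuous f) (s : ℝ) : mkc f s = f s := by
  simp [mkc, h]

/-- the short geodesic, parametrised by arc length -/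
theorem SMd.rep_ZM2 (h : SMd sh dist a) {x y : M} (hd : dist x y < a) :
    ∃ f : ℝ → M, (∀ s t, dist (f s) (f t) ≤ |s - t|) ∧ f 0 = x ∧ f (dist x y) = y ∧
      ∀ s, sh.σ (x, y) (cl (dist x y) s / dist x y) = f (cl (dist x y) s) := by
  by_cases hne : x = y
  · subst hne
    exact ⟨fun _ => x, fun s t => by simp, rfl, rfl, fun s => sh.const x _⟩
  · obtain ⟨u, h0, h1⟩ := h.ex_ug hne hd
    refine ⟨u.1, h.lip u, h0, h1, fun s => ?_⟩
    have hst : |0 - dist x y| < a := by rwa [zero_sub, abs_neg, abs_of_nonneg dist_nonneg]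
    have := h.sigma_ug u hst (cl (dist x y) s / dist x y)
    rw [h0, h1, zero_add, sub_zero, div_mul_cancel₀ _ (dist_pos.2 hne).ne'] at this
    exact this

theorem SMd.cont_ZM2 (h : SMd sh dist a) {p : (M × M) × ℝ} (hp : dist p.1.1 p.1.2 < a) :
    ContinuousAt (fun q : (M × M) × ℝ =>
      sh.σ q.1 (cl (dist q.1.1 q.1.2) q.2 / dist q.1.1 q.1.2)) p := by
  obtain ⟨⟨x, y⟩, s⟩ := p
  by_cases hne : x = y
  · subst hne
    have hc : Continuous fun q : (M × M) × ℝ => dist q.1.1 q.1.2 := by fun_prop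
    have hc2 : Continuous fun q : (M × M) × ℝ => dist q.1.1 q.1.2 + dist q.1.1 x := by fun_prop
    have h0 := hc2.tendsto ((x, x), s)
    simp only [dist_self, add_zero] at h0
    unfold ContinuousAt
    simp only [sh.const]
    rw [tendsto_iff_dist_tendsto_zero]
    refine squeeze_zero' (Eventually.of_forall fun _ => dist_nonneg) ?_ h0
    filter_upwards [(isOpen_lt hc continuous_const).mem_nhds hp] with q hq
    obtain ⟨f, hf, hf0, -, hfs⟩ := h.rep_ZM2 hq
    have h1 := hf (cl (dist q.1.1 q.1.2) q.2) 0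
    have h2 := cl_mem_ZM2 (dist_nonneg (x := q.1.1) (y := q.1.2)) q.2
    rw [hf0, sub_zero, abs_of_nonneg h2.1, ← hfs] at h1
    exact (dist_triangle _ q.1.1 _).trans (add_le_add (h1.trans h2.2) le_rfl)
  · have h1 : ContinuousAt (fun q : (M × M) × ℝ =>
        (q.1, cl (dist q.1.1 q.1.2) q.2 / dist q.1.1 q.1.2)) ((x, y), s) := by
      refine continuousAt_fst.prodMk (ContinuousAt.div ?_ (by fun_prop) (dist_pos.2 hne).ne')
      unfold cl
      fun_prop
    have h2 := sh.cont.continuousAt (x := ((x, y), cl (dist x y) s / dist x y))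
      ((sh.D_open.prod isOpen_univ).mem_nhds ⟨(h.mem x y hp).1, trivial⟩)
    exact ContinuousAt.comp (f := fun q : (M × M) × ℝ =>
      (q.1, cl (dist q.1.1 q.1.2) q.2 / dist q.1.1 q.1.2)) h2 h1

theorem SMd.exists_gs (h : SMd sh dist a) {b : ℝ} (hb : 0 < b) (hba : b ≤ a) :
    ∃ S : GS M, S.a = b := by
  have hc : ∀ x y : M, dist x y < b →
      Continuous fun s => sh.σ (x, y) (cl (dist x y) s / dist x y) := fun x y hd =>
    continuous_iff_continuousAt.2 fun s =>
      ContinuousAt.comp (f := fun s : ℝ => ((x, y), s))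
        (h.cont_ZM2 (p := ((x, y), s)) (hd.trans_le hba)) (by fun_prop)
  refine ⟨⟨b, hb, fun x y => (mkc fun s => sh.σ (x, y) (cl (dist x y) s / dist x y), dist x y),
    ContinuousOn.prodMk ?_ (by fun_prop), fun x y hd => ?_, fun _ _ _ => rfl⟩, rfl⟩
  · rw [continuousOn_iff_continuous_domRestrict]
    refine ContinuousMap.continuous_of_continuous_uncurry _ ?_
    have : Continuous fun q : {z : M × M | dist z.1 z.2 < b} × ℝ =>
        sh.σ q.1.1 (cl (dist q.1.1.1 q.1.1.2) q.2 / dist q.1.1.1 q.1.1.2) :=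
      continuous_iff_continuousAt.2 fun q =>
        ContinuousAt.comp (f := fun q : {z : M × M | dist z.1 z.2 < b} × ℝ => (q.1.1, q.2))
          (h.cont_ZM2 (p := (q.1.1, q.2)) (lt_of_lt_of_le q.1.2 hba)) (by fun_prop)
    refine this.congr fun q => ?_
    exact (mkc_apply_ZM2 (hc _ _ q.1.2) q.2).symm
  · obtain ⟨f, hf, hf0, hf1, hfs⟩ := h.rep_ZM2 (hd.trans_le hba)
    have e : ∀ s, mkc (fun s => sh.σ (x, y) (cl (dist x y) s / dist x y)) s = f (cl (dist x y) s) :=
      fun s => (mkc_apply_ZM2 (hc x y hd) s).trans (hfs s)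
    refine ⟨⟨dist_nonneg, fun s t => ?_, fun s => ?_⟩, ?_, ?_⟩
    · simp only [e]
      exact (hf _ _).trans (cl_lip_ZM2 _ _ _)
    · simp only [e]
      rw [cl_of_mem_ZM2 (cl_mem_ZM2 dist_nonneg s).1 (cl_mem_ZM2 dist_nonneg s).2]
    · simp only [st, e]
      rw [cl_of_mem_ZM2 le_rfl dist_nonneg, hf0]
    · simp only [en, e]
      rw [cl_of_mem_ZM2 dist_nonneg le_rfl, hf1]

theorem SMd.conn [ConnectedSpace M] (h : SMd sh dist a) (hE : 2 ≤ Module.finrank ℝ E) {r : ℝ}
    (hr : r ≤ a) : IsPreconnected {z : M × M | 0 < dist z.1 z.2 ∧ dist z.1 z.2 < r} := by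
  have := ug_conn hE g
  have hc : Continuous fun z : UG g × ℝ => (z.1.1 0, z.1.1 z.2) :=
    ((ev_cont g).comp (continuous_fst.prodMk continuous_const)).prodMk (ev_cont g)
  have h1 := ((isPreconnected_univ (α := UG g)).prod (isPreconnected_Ioo (a := (0 : ℝ)) (b := r))).image
    _ hc.continuousOn
  have e : {z : M × M | 0 < dist z.1 z.2 ∧ dist z.1 z.2 < r} =
      (fun z : UG g × ℝ => (z.1.1 0, z.1.1 z.2)) '' (univ ×ˢ Ioo 0 r) := by
    ext ⟨x, y⟩
    constructor
    · rintro ⟨h2, h3⟩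
      obtain ⟨u, h0, h1⟩ := h.ex_ug (dist_pos.1 h2) (h3.trans_le hr)
      exact ⟨(u, dist x y), ⟨trivial, h2, h3⟩, Prod.ext h0 h1⟩
    · rintro ⟨⟨u, l⟩, ⟨-, h2, h3⟩, e⟩
      have e2 : |0 - l| = l := by rw [zero_sub, abs_neg, abs_of_pos h2]
      have h4 := h.dist_ug u (s := 0) (t := l) (by rw [e2]; exact h3.trans_le hr)
      rw [e2] at h4
      rw [← e]
      exact ⟨h4.symm ▸ h2, h4.symm ▸ h3⟩
  rw [e]
  exact h1

end Pool.Agent.Fu
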