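import Mathlib
import Pool.Agent.K.MP_365c00_gt.C20
import Pool.Agent.K.MP_365c00_gt.C14

/-! Products of several chains. -/

set_option linter.unusedSectionVars false
set_option linter.unusedVariables false

open Set Topology

namespace Pool.Agent.Fu

variable {F : Type} [Field F] {X Y : Type} [TopologicalSpace X] [TopologicalSpace Y] {q : ℕ}

variable {n : ℕ} {b b' : ℕ → Ch F X}

theorem zd1_zero (b : ℕ → Ch F X) : tpr 0 b = map (csC X) (b 0) := rfl

theorem zd1_succ (n : ℕ) (b : ℕ → Ch F X) :
    tpr (n + 1) b = mu 1 (map (csC X) (b 0)) (tpr n fun i => b (i + 1)) := rfl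

theorem zd1_upd0 (b : ℕ → Ch F X) (x : Ch F X) :
    (fun j => Function.update b 0 x (j + 1)) = fun j => b (j + 1) := by
  funext j
  simp

theorem zd1_upd1 (b : ℕ → Ch F X) (i : ℕ) (x : Ch F X) :
    (fun j => Function.update b (i + 1) x (j + 1)) = Function.update (fun j => b (j + 1)) i x := by
  funext j
  simp [Function.update_apply]

theorem tpr_congr (h : ∀ i ≤ n, b i = b' i) : tpr n b = tpr n b' := by
  induction n generalizing b b' with
  | zero => rw [zd1_zero, zd1_zero, h 0 le_rfl]
  | succ n ih =>
    rw [zd1_succ, zd1_succ, h 0 (Nat.zero_le _), ih fun i hi => h (i + 1) (by omega)]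

theorem tpr_update_add (n i : ℕ) (b : ℕ → Ch F X) (hi : i ≤ n) (x y : Ch F X) :
    tpr n (Function.update b i (x + y)) =
      tpr n (Function.update b i x) + tpr n (Function.update b i y) := by
  induction n generalizing b i with
  | zero =>
    obtain rfl : i = 0 := by omega
    simp only [zd1_zero, Function.update_self, map_add]
  | succ n ih =>
    cases i with
    | zero =>
      simp only [zd1_succ, zd1_upd0, Function.update_self, map_add, LinearMap.add_apply]
    | succ i =>
      simp only [zd1_succ, zd1_upd1]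
      rw [ih i _ (by omega), map_add]
      simp

theorem tpr_update_smul (n i : ℕ) (b : ℕ → Ch F X) (hi : i ≤ n) (r : F) (x : Ch F X) :
    tpr n (Function.update b i (r • x)) = r • tpr n (Function.update b i x) := by
  induction n generalizing b i with
  | zero =>
    obtain rfl : i = 0 := by omega
    simp only [zd1_zero, Function.update_self, map_smul]
  | succ n ih =>
    cases i with
    | zero =>
      simp only [zd1_succ, zd1_upd0, Function.update_self, map_smul, LinearMap.smul_apply]
    | succ i =>
      simp only [zd1_succ, zd1_upd1]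
      rw [ih i _ (by omega), map_smul]
      simp

theorem tpr_CC {A : ℕ → Set X} (h : ∀ i ≤ n, b i ∈ CC F (A i)) :
    tpr n b ∈ CC F {y : ℕ → X | (∀ i ≤ n, y i ∈ A i) ∧ ∀ i, n ≤ i → y i = y n} := by
  induction n generalizing b A with
  | zero =>
    have h0 : MapsTo (csC X) (A 0)
        {y : ℕ → X | (∀ i ≤ 0, y i ∈ A i) ∧ ∀ i, 0 ≤ i → y i = y 0} := by
      intro x hx
      refine ⟨fun i hi => ?_, fun i _ => rfl⟩
      obtain rfl : i = 0 := by omega
      exact hx
    rw [zd1_zero]
    exact map_mem_CC h0 (h 0 le_rfl)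
  | succ n ih =>
    have h1 : map (csC X) (b 0) ∈ CC F {y : ℕ → X | y 0 ∈ A 0} :=
      map_mem_CC (fun x hx => hx) (h 0 (Nat.zero_le _))
    refine mu_CC ?_ h1 (ih (A := fun i => A (i + 1)) fun i hi => h (i + 1) (by omega))
    rintro x hx y ⟨hy1, hy2⟩
    refine ⟨fun i hi => ?_, fun i hi => ?_⟩
    · cases i with
      | zero => simpa [app] using hx
      | succ i => simpa [app] using hy1 i (by omega)
    · obtain ⟨j, rfl⟩ : ∃ j, i = j + 1 := ⟨i - 1, by omega⟩
      simpa [app] using hy2 j (by omega)

theorem tpr_HD {k : ℕ → ℕ} (h : ∀ i ≤ n, b i ∈ HD F X (k i)) :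
    tpr n b ∈ HD F _ (∑ i ∈ Finset.range (n + 1), k i) := by
  induction n generalizing b k with
  | zero => simpa [zd1_zero] using map_mem_HD (csC X) (h 0 le_rfl)
  | succ n ih =>
    rw [Finset.sum_range_succ', add_comm]
    exact mu_HD (map_mem_HD _ (h 0 (Nat.zero_le _)))
      (ih (k := fun i => k (i + 1)) fun i hi => h (i + 1) (by omega))

theorem bd_tpr (n : ℕ) (b : ℕ → Ch F X) : bd (tpr n b) = ∑ i ∈ Finset.range (n + 1),
    tpr n fun j => if j < i then om (b j) else if j = i then bd (b j) else b j := by
  induction n generalizing b with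
  | zero => simp [zd1_zero, bd_map]
  | succ n ih =>
    rw [Finset.sum_range_succ', zd1_succ, bd_mu, ih, map_sum, add_comm, bd_map, om_map]
    congr 1
    refine Finset.sum_congr rfl fun i _ => ?_
    simp [zd1_succ]

theorem tpr_sub (n : ℕ) (b b' : ℕ → Ch F X) : tpr n b - tpr n b' = ∑ i ∈ Finset.range (n + 1),
    tpr n fun j => if j < i then b' j else if j = i then b j - b' j else b j := by
  induction n generalizing b b' with
  | zero => simp [zd1_zero]
  | succ n ih =>
    have e : tpr (n + 1) b - tpr (n + 1) b' =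
        mu 1 (map (csC X) (b' 0)) (tpr n (fun i => b (i + 1)) - tpr n fun i => b' (i + 1)) +
          mu 1 (map (csC X) (b 0 - b' 0)) (tpr n fun i => b (i + 1)) := by
      simp only [zd1_succ, map_sub, LinearMap.sub_apply]
      abel
    rw [Finset.sum_range_succ', e, ih, map_sum]
    congr 1
    refine Finset.sum_congr rfl fun i _ => ?_
    simp [zd1_succ]

theorem tpr_map (f : C(X, Y)) (n : ℕ) (b : ℕ → Ch F X) :
    map (⟨fun y i => f (y i), by fun_prop⟩ : C(ℕ → X, ℕ → Y)) (tpr n b) =
      tpr n fun i => map f (b i) := by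
  induction n generalizing b with
  | zero =>
    rw [zd1_zero, zd1_zero, map_map, map_map]
    rfl
  | succ n ih =>
    rw [zd1_succ, zd1_succ, ← ih, mu_apply, mu_apply, map_map (csC Y) f]
    have e : map ((csC Y).comp f) (b 0) =
        map (⟨fun y i => f (y i), by fun_prop⟩ : C(ℕ → X, ℕ → Y)) (map (csC X) (b 0)) := by
      rw [map_map]
      rfl
    rw [e, cross_map (⟨fun y i => f (y i), by fun_prop⟩ : C(ℕ → X, ℕ → Y))
      (⟨fun y i => f (y i), by fun_prop⟩ : C(ℕ → X, ℕ → Y)), map_map, map_map]
    congr 2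
    ext z i
    show f (app 1 z i) = app 1 (fun i => f (z.1 i), fun i => f (z.2 i)) i
    unfold app
    split_ifs <;> rfl

end Pool.Agent.Fu
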