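import Mathlib
import Pool.Agent.K.MP_365c00_gt.C15

/-! Orientations; the degree of a local diffeomorphism. -/

set_option linter.unusedSectionVars false
set_option linter.unusedVariables false

open Set Topology unitInterval TensorProduct

namespace Pool.Agent.Fu

variable {F : Type} [Field F] {X Y Z : Type} [TopologicalSpace X] [TopologicalSpace Y]
  [TopologicalSpace Z]

theorem ze4_comp {f : X → Y} {g : Y → Z} (hf : Continuous f) (hg : Continuous g) (c : Ch F X) :
    mp g (mp f c) = mp (g ∘ f) c :=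
  mp_mp hf.continuousOn hg.continuousOn (mapsTo_univ _ _) (mem_CC_univ c)

theorem ze4_NN {f : X → Y} (hf : Continuous f) {a : X} {b : Y} (h : ∀ x, x ≠ a → f x ≠ b)
    {c : Ch F X} (hc : c ∈ NN F univ (univ \ {a})) : mp f c ∈ NN F univ (univ \ {b}) :=
  mp_mem_NN hf.continuousOn (mapsTo_univ _ _)
    (fun x hx => And.intro (mem_univ _) (h x hx.2)) hc

section deg
variable [Zero X] {k : ℕ} {o : Ch F X} {f g : X → X} {r s : F}

/-- `f` has degree `r` at the origin -/
def ze4D (o : Ch F X) (f : X → X) (r : F) : Prop :=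
  Continuous f ∧ (∀ x, x ≠ 0 → f x ≠ 0) ∧ mp f o - r • o ∈ NN F univ (univ \ {0})

theorem ze4D.mul (h : ze4D o f r) (h' : ze4D o g s) : ze4D o (f ∘ g) (r * s) := by
  refine ⟨h.1.comp h'.1, fun x hx => h.2.1 _ (h'.2.1 x hx), ?_⟩
  have h1 := add_mem (ze4_NN h.1 h.2.1 h'.2.2) (Submodule.smul_mem _ s h.2.2)
  rw [map_sub, map_smul, ze4_comp h'.1 h.1, smul_sub, sub_add_sub_cancel, smul_smul,
    mul_comm s r] at h1
  exact h1

theorem ze4D.uniq (ho : Gen F k univ 0 o) (h : ze4D o f r) (h' : ze4D o f s) : r = s := by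
  by_contra hne
  have h1 := Submodule.smul_mem _ (r - s)⁻¹ (sub_mem h'.2.2 h.2.2)
  rw [sub_sub_sub_cancel_left, ← sub_smul, smul_smul, inv_mul_cancel₀ (sub_ne_zero.2 hne),
    one_smul] at h1
  exact ho.ne h1

theorem ze4D_ex (ho : Gen F k univ 0 o) (hf : Continuous f) (h0 : ∀ x, x ≠ 0 → f x ≠ 0) :
    ∃ r, ze4D o f r := by
  obtain ⟨r, hr⟩ := ho.span (mp f o) (mp_mem_ZZ hf.continuousOn (mapsTo_univ _ _)
    (fun x hx => And.intro (mem_univ _) (h0 x hx.2.2)) ho.zz)
  exact ⟨r, hf, h0, hr⟩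

theorem ze4D_id (o : Ch F X) : ze4D o id 1 :=
  ⟨continuous_id, fun _ hx => hx, by rw [mp_id, one_smul, sub_self]; exact zero_mem _⟩

theorem ze4D_inv (ho : Gen F k univ 0 o) (hf : Continuous f) (h0 : f 0 = 0)
    (hi : ∀ x, f (f x) = x) : ∃ r, r * r = 1 ∧ ze4D o f r := by
  obtain ⟨r, hr⟩ := ze4D_ex ho hf fun x hx h => hx (by rw [← hi x, h, h0])
  refine ⟨r, (hr.mul hr).uniq ho ?_, hr⟩
  rw [show f ∘ f = id from funext hi]
  exact ze4D_id o

theorem ze4D.htp (ho : Gen F k univ 0 o) (h : ze4D o f r) {H : ℝ × X → X} (hH : Continuous H)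
    (h0 : ∀ x, H (0, x) = f x) (h1 : ∀ x, H (1, x) = g x)
    (hn : ∀ u ∈ Icc (0 : ℝ) 1, ∀ x, x ≠ 0 → H (u, x) ≠ 0) : ze4D o g r := by
  refine ⟨?_, fun x hx => h1 x ▸ hn 1 ⟨zero_le_one, le_rfl⟩ x hx, ?_⟩
  · rw [← funext h1]
    fun_prop
  · have h2 := htp_NN (B' := univ \ {0}) hH.continuousOn (mapsTo_univ _ _)
      (fun w hw => ⟨trivial, hn w.1 hw.1 w.2 hw.2.2.2⟩) (fun x _ => h0 x) (fun x _ => h1 x) ho.zz
    have h3 := add_mem h2 h.2.2
    rwa [sub_add_sub_cancel] at h3

end deg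

section mat
variable {n : Type} [Fintype n] [DecidableEq n] {k : ℕ} {o : Ch F (n → ℝ)}

/-- signs -/
def ze4e (S : Finset n) : n → ℝ := fun i => if i ∈ S then -1 else 1

theorem ze4_refl (ho : Gen F k univ 0 o) :
    ∃ ρ : F, ρ * ρ = 1 ∧ ∀ i, ze4D o (fun v => ze4e {i} * v) ρ := by
  have hr : ∀ i : n, ∃ r : F, r * r = 1 ∧ ze4D o (fun v => ze4e {i} * v) r := fun i =>
    ze4D_inv ho (by fun_prop) (mul_zero _) fun v => by
      funext j
      by_cases h : j = i <;> simp [ze4e, h]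
  rcases isEmpty_or_nonempty n with hn | ⟨⟨i0⟩⟩
  · exact ⟨1, mul_one _, fun i => isEmptyElim i⟩
  obtain ⟨ρ, h1, h2⟩ := hr i0
  refine ⟨ρ, h1, fun i => ?_⟩
  obtain ⟨t, h3, h4⟩ := ze4D_inv (f := fun v : n → ℝ => v ∘ Equiv.swap i0 i) ho (by fun_prop) rfl
    fun v => by
      funext j
      simp
  have h5 := (h4.mul h2).mul h4
  rw [mul_comm t ρ, mul_assoc, h3, mul_one] at h5
  have h6 : (((fun v : n → ℝ => v ∘ Equiv.swap i0 i) ∘ fun v => ze4e {i0} * v) ∘
      fun v : n → ℝ => v ∘ Equiv.swap i0 i) = fun v => ze4e {i} * v := by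
    funext v j
    simp only [Function.comp_apply, Pi.mul_apply, Equiv.swap_apply_self, ze4e, Finset.mem_singleton,
      Equiv.swap_apply_eq_iff, Equiv.swap_apply_left]
  rwa [h6] at h5

theorem ze4_sign (ho : Gen F k univ 0 o) {S : Finset n} (hS : Even S.card) :
    ze4D o (fun v => ze4e S * v) 1 := by
  obtain ⟨ρ, h1, h2⟩ := ze4_refl ho
  have key : ∀ T : Finset n, ze4D o (fun v => ze4e T * v) (ρ ^ T.card) := by
    intro T
    induction T using Finset.induction_on with
    | empty =>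
      have h3 : (fun v : n → ℝ => ze4e ∅ * v) = id := by
        funext v j
        simp [ze4e]
      rw [h3, Finset.card_empty, pow_zero]
      exact ze4D_id o
    | insert i T hi ih =>
      have h3 : (fun v : n → ℝ => ze4e (insert i T) * v) =
          (fun v => ze4e {i} * v) ∘ fun v => ze4e T * v := by
        funext v j
        by_cases h : j = i
        · simp [ze4e, h, hi]
        · simp [ze4e, h]
      rw [h3, Finset.card_insert_of_notMem hi, pow_succ']
      exact (h2 i).mul ih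
  obtain ⟨m, hm⟩ := hS
  have h4 := key S
  rwa [hm, pow_add, ← mul_pow, h1, one_pow] at h4

theorem ze4_diag (ho : Gen F k univ 0 o) {D : n → ℝ} (hD : 0 < ∏ i, D i) :
    ze4D o (fun v => D * v) 1 := by
  have h0 : ∀ i, D i ≠ 0 := fun i => Finset.prod_ne_zero_iff.1 hD.ne' i (Finset.mem_univ i)
  have h1 : ∀ i, 0 < ze4e (Finset.univ.filter fun i => D i < 0) i * D i := by
    intro i
    by_cases h : D i < 0
    · simp [ze4e, h]
    · simp [ze4e, h, lt_of_le_of_ne (not_lt.1 h) (h0 i).symm]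
  have h2 : Even (Finset.univ.filter fun i => D i < 0).card := by
    have h3 := Finset.prod_pos fun i (_ : i ∈ Finset.univ) => h1 i
    rw [Finset.prod_mul_distrib, mul_pos_iff_of_pos_right hD] at h3
    simp only [ze4e, Finset.prod_ite_mem, Finset.univ_inter, Finset.prod_const] at h3
    by_contra h4
    rw [(Nat.not_even_iff_odd.1 h4).neg_one_pow] at h3
    linarith
  generalize (Finset.univ.filter fun i => D i < 0) = S at h1 h2
  refine (ze4_sign ho h2).htp ho (H := fun w => ((1 - w.1) • ze4e S + w.1 • D) * w.2) (by fun_prop)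
    (fun x => by simp) (fun x => by simp) fun u hu x hx h => hx (funext fun i => ?_)
  have h3 := congrFun h i
  simp only [Pi.mul_apply, Pi.add_apply, Pi.smul_apply, smul_eq_mul, Pi.zero_apply,
    mul_eq_zero] at h3
  refine h3.resolve_left fun h4 => ?_
  have h5 : ze4e S i * ze4e S i = 1 := by
    unfold ze4e
    split_ifs <;> norm_num
  have h6 : (1 - u) + u * (ze4e S i * D i) = 0 := by
    linear_combination ze4e S i * h4 - (1 - u) * h5
  have h7 := h1 i
  rcases eq_or_lt_of_le hu.1 with h8 | h8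
  · rw [← h8] at h6
    norm_num at h6
  · have h9 := mul_pos h8 h7
    linarith [hu.2]

theorem ze4_mat (ho : Gen F k univ 0 o) (M : Matrix n n ℝ) (hM : 0 < M.det) :
    ze4D o M.mulVec 1 := by
  refine Matrix.diagonal_transvection_induction (fun N => ze4D o N.mulVec 1) M
    (fun D hD => ?_) (fun t => ?_) fun A B hA hB => ?_
  · have h1 : (Matrix.diagonal D).mulVec = fun v => D * v := by
      funext v i
      rw [Matrix.mulVec_diagonal, Pi.mul_apply]
    rw [h1]
    refine ze4_diag ho ?_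
    rwa [← Matrix.det_diagonal, hD]
  · have h1 : ∀ (u : ℝ) (x : n → ℝ), (Matrix.transvection t.i t.j (u * t.c)).mulVec x =
        x + (u * t.c * x t.j) • Pi.single t.i 1 := by
      intro u x
      rw [Matrix.transvection, Matrix.add_mulVec, Matrix.one_mulVec, Matrix.single_mulVec]
      refine congrArg (x + ·) (funext fun l => ?_)
      by_cases h : l = t.i
      · simp [h]
      · simp [h]
    refine (ze4D_id o).htp ho (H := fun w => w.2 + (w.1 * t.c * w.2 t.j) • Pi.single t.i 1)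
      (by fun_prop) (fun x => by simp) (fun x => ?_) fun u _ x hx h => hx ?_
    · rw [← h1, one_mul]
      rfl
    · refine Matrix.eq_zero_of_mulVec_eq_zero (M := Matrix.transvection t.i t.j (u * t.c)) ?_
        ((h1 u x).trans h)
      rw [Matrix.det_transvection_of_ne _ _ t.hij]
      exact one_ne_zero
  · have h1 := hA.mul hB
    rw [mul_one] at h1
    have h2 : (A * B).mulVec = A.mulVec ∘ B.mulVec := by
      funext v
      rw [Function.comp_apply, Matrix.mulVec_mulVec]
    rw [h2]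
    exact h1

end mat

variable {W : Type} [NormedAddCommGroup W] [NormedSpace ℝ W] [FiniteDimensional ℝ W]

/-- translation -/
def tr (c : W) : C(W, W) := ⟨fun x => x + c, by fun_prop⟩

theorem ze4_tr (c : W) {z : Ch F W} (h : z ∈ NN F univ (univ \ {0})) :
    map (tr c) z ∈ NN F univ (univ \ {c}) := by
  rw [← mp_coe]
  exact ze4_NN (tr c).continuous (fun x hx h => hx (add_eq_right.1 h)) h

theorem Gen.tr {k : ℕ} {o : Ch F W} (h : Gen F k univ 0 o) (c : W) : Gen F k univ c (map (tr c) o) := by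
  have h1 := h.equiv (B := univ) (mem_univ _) (φ := Fu.tr c) (ψ := fun x => x - c)
    (Fu.tr c).continuous.continuousOn (by fun_prop) (mapsTo_univ _ _) (mapsTo_univ _ _)
    (fun x _ => add_sub_cancel_right x c) fun x _ => sub_add_cancel x c
  rwa [mp_coe, show Fu.tr c 0 = c from zero_add c] at h1
/-- the translates of a generator are locally consistent -/
theorem tr_loc {k : ℕ} {o : Ch F W} (h : Gen F k univ 0 o) {K : Set W} (hK : IsCompact K)
    (hc : Convex ℝ K) : ∃ z ∈ ZZ F univ Kᶜ, z ∈ HD F W k ∧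
      ∀ c ∈ K, z - map (tr c) o ∈ NN F univ (univ \ {c}) := by
  obtain ⟨R, hR, hKR⟩ := hK.isBounded.subset_closedBall_lt 0 (0 : W)
  obtain ⟨z, hz, h1, h2⟩ := conv_surj (isCompact_closedBall (0 : W) R) (convex_closedBall 0 R)
    (Metric.mem_closedBall_self hR.le) (z := o) (by rw [compl_eq_univ_sdiff]; exact h.zz)
  refine ⟨z, ZZ_mono subset_rfl (compl_subset_compl.2 hKR) hz, h2 k h.hd, fun c hcK => ?_⟩
  rw [compl_eq_univ_sdiff] at h1
  have h3 := htp_id_NN (H := fun w : ℝ × W => w.2 + w.1 • c) (g := tr c) (A' := univ)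
    (B' := univ \ {c}) (by fun_prop) (mapsTo_univ _ _) (fun w hw => ⟨trivial, fun h4 => ?_⟩)
    (fun x _ => by simp) (fun x _ => by rw [one_smul]; rfl) hz
  · have h5 := sub_mem (ze4_tr c h1) h3
    rwa [mp_coe, map_sub, sub_sub_sub_cancel_left] at h5
  · refine hw.2.2 (mem_closedBall_zero_iff.2 ?_)
    have h5 : w.2 = (1 - w.1) • c := by
      rw [sub_smul, one_smul]
      exact eq_sub_of_add_eq h4
    have h6 := mem_closedBall_zero_iff.1 (hKR hcK)
    rw [h5, norm_smul, Real.norm_of_nonneg (sub_nonneg.2 hw.1.2)]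
    nlinarith [hw.1.1, hw.1.2, norm_nonneg c]
theorem or_model (h2 : (2 : F) ≠ 0) : Nonempty (OR F (Module.finrank ℝ W) W) := by
  obtain ⟨o, ho⟩ := exists_gen h2 W
  exact ⟨⟨fun c => map (tr c) o, ho.tr, fun c0 => ⟨Metric.closedBall c0 1,
    Metric.closedBall_mem_nhds c0 one_pos,
    tr_loc ho (isCompact_closedBall c0 1) (convex_closedBall c0 1)⟩⟩⟩
theorem OR.prod [T1Space X] [T1Space Y] (h2 : (2 : F) ≠ 0) {e e' : ℕ} (O : OR F e X)
    (O' : OR F e' Y) : Nonempty (OR F (e + e') (X × Y)) := by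
  refine ⟨⟨fun c => cross (O.o c.1) (O'.o c.2), fun c => ?_, fun c0 => ?_⟩⟩
  · have h := (O.gen c.1).prod h2 (O'.gen c.2)
    rwa [univ_prod_univ] at h
  · obtain ⟨U, hU, z, hz, hd, h⟩ := O.loc c0.1
    obtain ⟨U', hU', z', hz', hd', h'⟩ := O'.loc c0.2
    refine ⟨U ×ˢ U', prod_mem_nhds hU hU', cross z z', ZZ_mono (subset_univ _) ?_
      (cross_mem_ZZ hz hz'), cross_mem_HD hd hd', fun c hc => ?_⟩
    · rintro w (hw | hw) h1
      · exact hw.1 h1.1
      · exact hw.2 h1.2
    · have h1 := NN_mono (A' := univ) (B' := univ \ {c}) (subset_univ _) ?_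
        (cross_NN_left (h c.1 hc.1) hz')
      · have h3 := NN_mono (A' := univ) (B' := univ \ {c}) (subset_univ _) ?_
          (cross_NN_right (O.gen c.1).zz (h' c.2 hc.2))
        · have h4 := add_mem h1 h3
          rwa [map_sub, map_sub, LinearMap.sub_apply, sub_add_sub_cancel] at h4
        · rintro w (hw | hw)
          · exact ⟨trivial, fun h4 => hw.1.2 (congrArg Prod.fst h4)⟩
          · exact ⟨trivial, fun h4 => hw.2.2 (congrArg Prod.snd h4)⟩
      · rintro w (hw | hw)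
        · exact ⟨trivial, fun h4 => hw.1.2 (congrArg Prod.fst h4)⟩
        · exact ⟨trivial, fun h4 => hw.2 (by rw [show w = c from h4]; exact hc.2)⟩
/-- a uniform radius along a compact set -/
theorem OR.radius {B : Type} [MetricSpace B] {e : ℕ} (O : OR F e B) {C : Set B} (hC : IsCompact C) :
    ∃ r0 > 0, ∀ c0 ∈ C, ∃ z ∈ ZZ F univ (Metric.ball c0 r0)ᶜ, z ∈ HD F B e ∧
      ∀ c ∈ Metric.ball c0 r0, z - O.o c ∈ NN F univ (univ \ {c}) := by
  choose U hU z hz hd h using O.loc
  obtain ⟨δ, hδ, h1⟩ := lebesgue_number_lemma_of_metric (c := fun i => interior (U i)) hC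
    (fun _ => isOpen_interior) fun x _ => mem_iUnion.2 ⟨x, mem_interior_iff_mem_nhds.2 (hU x)⟩
  refine ⟨δ, hδ, fun c0 hc0 => ?_⟩
  obtain ⟨i, hi⟩ := h1 c0 hc0
  have h2 := hi.trans interior_subset
  exact ⟨z i, ZZ_mono subset_rfl (compl_subset_compl.2 h2) (hz i), hd i, fun c hc => h i c (h2 hc)⟩
/-- linear maps of positive determinant have degree one -/
theorem deg_lin {k : ℕ} {o : Ch F W} (h : Gen F k univ 0 o) (A : W →L[ℝ] W) (hA : 0 < A.det) :
    mp A o - o ∈ NN F univ (univ \ {0}) := by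
  let b := Module.finBasis ℝ W
  let e := b.equivFunL
  have h1 := h.equiv (B := univ) (mem_univ _) (φ := e) (ψ := e.symm) e.continuous.continuousOn
    e.symm.continuous.continuousOn (mapsTo_univ _ _) (mapsTo_univ _ _)
    (fun x _ => e.symm_apply_apply x) fun x _ => e.apply_symm_apply x
  rw [map_zero] at h1
  have h2 := ze4_mat h1 (LinearMap.toMatrix b b (A : W →ₗ[ℝ] W)) (by
    rw [LinearMap.det_toMatrix]; exact hA)
  have h3 := ze4_NN (b := 0) e.symm.continuous
    (fun x hx h => hx (e.symm.map_eq_zero_iff.1 h)) h2.2.2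
  have h4 : e.symm ∘ (LinearMap.toMatrix b b (A : W →ₗ[ℝ] W)).mulVec ∘ e = A := by
    funext x
    rw [Function.comp_apply, ContinuousLinearEquiv.symm_apply_eq]
    exact LinearMap.toMatrix_mulVec_repr b b _ x
  rwa [one_smul, map_sub, ze4_comp e.continuous h2.1,
    ze4_comp (h2.1.comp e.continuous) e.symm.continuous, ze4_comp e.continuous e.symm.continuous,
    h4, e.symm_comp_self, mp_id] at h3
theorem deg_loc {k : ℕ} {o : Ch F W} (h : Gen F k univ 0 o) {φ : W → W} {A : W →L[ℝ] W} {c : W}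
    (hA : 0 < A.det) (hφ : HasFDerivAt φ A c) {U : Set W} (hU : U ∈ nhds c)
    (hc : ContinuousOn φ U) : ∃ V ∈ nhds c, V ⊆ U ∧ ∀ z ∈ ZZ F V (V \ {c}),
      z - map (tr c) o ∈ NN F univ (univ \ {c}) →
      mp φ z - map (tr (φ c)) o ∈ NN F univ (univ \ {φ c}) := by
  have hk : LinearMap.ker (A : W →ₗ[ℝ] W) = ⊥ := by
    by_contra h1
    exact hA.ne' (LinearMap.det_eq_zero_iff_ker_ne_bot.2 h1)
  obtain ⟨K, hK, hK'⟩ := LinearMap.exists_antilipschitzWith _ hk
  have hK0 : (0 : ℝ) < K := hK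
  have hm : ∀ v, ‖v‖ ≤ K * ‖A v‖ := fun v => hK'.le_mul_norm (map_zero _) v
  have hev := hφ.isLittleO.def (c := 1 / (2 * K)) (by positivity)
  refine ⟨U ∩ {x | ‖φ x - φ c - A (x - c)‖ ≤ 1 / (2 * K) * ‖x - c‖}, Filter.inter_mem hU hev,
    inter_subset_left, fun z hz hzo => ?_⟩
  have hα : Continuous fun x => A (x - c) + φ c := by fun_prop
  have hβ : Continuous fun w : ℝ × W => A (w.2 - c) := by fun_prop
  have hφ2 : ContinuousOn (fun w : ℝ × W => φ w.2) (Icc 0 1 ×ˢ
      (U ∩ {x | ‖φ x - φ c - A (x - c)‖ ≤ 1 / (2 * K) * ‖x - c‖})) :=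
    hc.comp continuous_snd.continuousOn fun w hw => hw.2.1
  have hne : ∀ u ∈ Icc (0 : ℝ) 1, ∀ x, ‖φ x - φ c - A (x - c)‖ ≤ 1 / (2 * K) * ‖x - c‖ →
      A (x - c) + φ c + u • (φ x - φ c - A (x - c)) = φ c → x = c := by
    intro u hu x hx h2
    rw [add_right_comm, add_eq_right] at h2
    have h3 := congrArg norm (eq_neg_of_add_eq_zero_left h2)
    rw [norm_neg, norm_smul, Real.norm_of_nonneg hu.1] at h3
    have h4 : ‖A (x - c)‖ ≤ 1 / (2 * K) * ‖x - c‖ :=
      (h3.le.trans (mul_le_of_le_one_left (norm_nonneg _) hu.2)).trans hx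
    have h5 := (hm (x - c)).trans (mul_le_mul_of_nonneg_left h4 hK0.le)
    have h6 : K * (1 / (2 * K) * ‖x - c‖) = ‖x - c‖ / 2 := by field_simp
    rw [h6] at h5
    exact sub_eq_zero.1 (norm_le_zero_iff.1 (by linarith))
  have h1 := htp_NN (H := fun w : ℝ × W => A (w.2 - c) + φ c + w.1 • (φ w.2 - φ c - A (w.2 - c)))
    (f := fun x => A (x - c) + φ c) (g := φ) (A' := univ) (B' := univ \ {φ c})
    ((hβ.continuousOn.add continuousOn_const).add (continuous_fst.continuousOn.smul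
      ((hφ2.sub continuousOn_const).sub hβ.continuousOn)))
    (mapsTo_univ _ _)
    (fun w hw => ⟨trivial, fun h2 => hw.2.2.2 (hne w.1 hw.1 w.2 hw.2.1.2 h2)⟩)
    (fun x _ => by simp) (fun x _ => by simp only [one_smul]; abel) hz
  have h2 := ze4_NN (b := φ c) hα (fun x hx h3 => hx (by
    have h4 := hm (x - c)
    rw [add_eq_right.1 h3, norm_zero, mul_zero] at h4
    exact sub_eq_zero.1 (norm_le_zero_iff.1 h4))) hzo
  have h3 := ze4_tr (φ c) (deg_lin h A hA)
  have h4 : mp (fun x => A (x - c) + φ c) (map (tr c) o) = map (tr (φ c)) (mp A o) := by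
    rw [← mp_coe, ← mp_coe, ze4_comp (tr c).continuous hα,
      ze4_comp A.continuous (tr (φ c)).continuous]
    refine congrArg (fun f => mp f o) (funext fun x => ?_)
    exact congrArg (fun v => A v + φ c) (add_sub_cancel_right x c)
  rw [map_sub, h4] at h2
  have h5 := add_mem (add_mem h1 h2) h3
  rwa [map_sub, sub_add_sub_cancel, sub_add_sub_cancel] at h5

end Pool.Agent.Fu
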