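import Mathlib
import Pool.Agent.K.MP_365c00_gt.C16
import Pool.Agent.K.MP_365c00_gt.C17
import Pool.Agent.K.MP_365c00_gt.C15
import Pool.Agent.K.MP_365c00_gt.C18
import Pool.Agent.K.MP_365c00_gt.C6
import Pool.Agent.K.MP_365c00_gt.C19
import Pool.Agent.K.MP_365c00_gt.C20
import Pool.Agent.K.MP_365c00_gt.C12
import Pool.Agent.K.MP_365c00_gt.C11
import Pool.Agent.K.MP_365c00_gt.C21
import Pool.Agent.K.MP_365c00_gt.C22
import Pool.Agent.K.MP_365c00_gt.C3
import Pool.Agent.K.MP_365c00_gt.C8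
import Pool.Agent.K.MP_365c00_gt.C23

-- part Pool.Agent.P.MP_365c00_gt.ZI1
section

/-! Index theory: linear algebra. -/

set_option linter.unusedSectionVars false
set_option linter.unusedVariables false

open Set Filter Topology Metric Function MeasureTheory
open scoped Manifold ContDiff
open Pool.Agent.GeoN

namespace Pool.Agent.Fu

variable {E : Type} [NormedAddCommGroup E] [InnerProductSpace ℝ E] [FiniteDimensional ℝ E]
  {M : Type} [MetricSpace M] [ChartedSpace E M] [IsManifold 𝓘(ℝ, E) ∞ M]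
  [CompactSpace M] [Nonempty M] [Nontrivial E] {g : Met E M}

variable {sh : Short g} {a : ℝ}

section alg
variable {W W' : Type} [AddCommGroup W] [Module ℝ W] [AddCommGroup W'] [Module ℝ W']

theorem zi1_bdd (Q : W → W → ℝ) (V : Submodule ℝ W) [FiniteDimensional ℝ V] :
    BddAbove {r | ∃ N : Submodule ℝ W, N ≤ V ∧ Module.finrank ℝ N = r ∧
      ∀ v ∈ N, v ≠ 0 → Q v v < 0} := by
  refine ⟨Module.finrank ℝ V, ?_⟩
  rintro r ⟨N, hN, rfl, -⟩
  exact Submodule.finrank_mono hN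

theorem zi1_inj (L : W →ₗ[ℝ] W') {N : Submodule ℝ W} (h : ∀ v ∈ N, L v = 0 → v = 0) :
    Module.finrank ℝ (N.map L) = Module.finrank ℝ N := by
  have h1 : Injective (L.domRestrict N) := by
    rw [injective_iff_map_eq_zero]
    exact fun v hv => Subtype.ext (h v v.2 hv)
  rw [← LinearMap.finrank_range_of_inj h1, LinearMap.range_domRestrict]

theorem nI_spec (Q : W → W → ℝ) (V : Submodule ℝ W) [FiniteDimensional ℝ V] :
    ∃ N : Submodule ℝ W, N ≤ V ∧ Module.finrank ℝ N = nI Q V ∧ ∀ v ∈ N, v ≠ 0 → Q v v < 0 :=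
  Nat.sSup_mem (s := {r | ∃ N : Submodule ℝ W, N ≤ V ∧ Module.finrank ℝ N = r ∧
      ∀ v ∈ N, v ≠ 0 → Q v v < 0})
    ⟨0, ⊥, bot_le, finrank_bot ℝ W, fun v hv h0 => absurd ((Submodule.mem_bot ℝ).1 hv) h0⟩
    (zi1_bdd Q V)

theorem le_nI {Q : W → W → ℝ} {V N : Submodule ℝ W} [FiniteDimensional ℝ V] (h : N ≤ V)
    (hn : ∀ v ∈ N, v ≠ 0 → Q v v < 0) : Module.finrank ℝ N ≤ nI Q V :=
  le_csSup (zi1_bdd Q V) ⟨N, h, rfl, hn⟩

theorem nI_le (Q : W → W → ℝ) (V : Submodule ℝ W) [FiniteDimensional ℝ V] :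
    nI Q V ≤ Module.finrank ℝ V := by
  obtain ⟨N, hN, hr, -⟩ := nI_spec Q V
  rw [← hr]
  exact Submodule.finrank_mono hN

theorem nI_map {Q : W → W → ℝ} {Q' : W' → W' → ℝ} {V : Submodule ℝ W} {V' : Submodule ℝ W'}
    [FiniteDimensional ℝ V] [FiniteDimensional ℝ V'] (L : W →ₗ[ℝ] W') (h0 : 0 ≤ Q' 0 0)
    (hL : ∀ v ∈ V, L v ∈ V') (h : ∀ v ∈ V, Q' (L v) (L v) ≤ Q v v) : nI Q V ≤ nI Q' V' := by
  obtain ⟨N, hN, hr, hneg⟩ := nI_spec Q V
  have hinj : ∀ v ∈ N, L v = 0 → v = 0 := by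
    intro v hv h1
    by_contra h2
    have h3 := h v (hN hv)
    rw [h1] at h3
    linarith [hneg v hv h2]
  rw [← hr, ← zi1_inj L hinj]
  refine le_nI ?_ ?_
  · rintro _ ⟨v, hv, rfl⟩
    exact hL v (hN hv)
  · rintro _ ⟨v, hv, rfl⟩ h1
    refine (h v (hN hv)).trans_lt (hneg v hv ?_)
    rintro rfl
    exact h1 (map_zero L)

theorem zi1_perp {B : W →ₗ[ℝ] W →ₗ[ℝ] ℝ} {V N : Submodule ℝ W} [FiniteDimensional ℝ V]
    (hs : ∀ v w, B v w = B w v) (hN : N ≤ V)
    (hr : Module.finrank ℝ N = nI (fun v w => B v w) V) (h : ∀ v ∈ N, v ≠ 0 → B v v < 0)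
    {v : W} (hv : v ∈ V) (hp : ∀ n ∈ N, B n v = 0) : 0 ≤ B v v := by
  by_contra hc
  have hc : B v v < 0 := not_le.1 hc
  have hvN : v ∉ N := fun hm => hc.ne (hp v hm)
  have hle : N ⊔ Submodule.span ℝ {v} ≤ V :=
    sup_le hN ((Submodule.span_singleton_le_iff_mem v V).2 hv)
  have : FiniteDimensional ℝ (N ⊔ Submodule.span ℝ {v} : Submodule ℝ W) :=
    Submodule.finiteDimensional_of_le hle
  have hlt : N < N ⊔ Submodule.span ℝ {v} := by
    refine lt_of_le_of_ne le_sup_left fun e => hvN ?_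
    rw [e]
    exact Submodule.mem_sup_right (Submodule.mem_span_singleton_self v)
  have h1 := Submodule.finrank_lt_finrank_of_lt hlt
  have h2 : Module.finrank ℝ (N ⊔ Submodule.span ℝ {v} : Submodule ℝ W) ≤
      nI (fun v w => B v w) V := by
    refine le_nI hle fun x hx hx0 => ?_
    obtain ⟨n, hn, y, hy, rfl⟩ := Submodule.mem_sup.1 hx
    obtain ⟨c, rfl⟩ := Submodule.mem_span_singleton.1 hy
    have e : B (n + c • v) (n + c • v) = B n n + c ^ 2 * B v v := by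
      simp only [map_add, map_smul, LinearMap.add_apply, LinearMap.smul_apply, smul_eq_mul,
        hs v n, hp n hn]
      ring
    show B (n + c • v) (n + c • v) < 0
    rw [e]
    by_cases hn0 : n = 0
    · have hc0 : c ≠ 0 := by
        rintro rfl
        exact hx0 (by simp [hn0])
      have : c ^ 2 * B v v < 0 := mul_neg_of_pos_of_neg (by positivity) hc
      simpa [hn0] using this
    · have : c ^ 2 * B v v ≤ 0 := mul_nonpos_of_nonneg_of_nonpos (sq_nonneg c) hc.le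
      linarith [h n hn hn0]
  omega

/-- the form is nonnegative on a subspace of codimension at most the index -/
theorem nI_fun (B : W →ₗ[ℝ] W →ₗ[ℝ] ℝ) (V : Submodule ℝ W) [FiniteDimensional ℝ V]
    (hs : ∀ v w, B v w = B w v) :
    ∃ φ : W →ₗ[ℝ] (Fin (nI (fun v w => B v w) V) → ℝ), ∀ v ∈ V, φ v = 0 → 0 ≤ B v v := by
  obtain ⟨N, hN, hr, hneg⟩ := nI_spec (fun v w => B v w) V
  have : FiniteDimensional ℝ N := Submodule.finiteDimensional_of_le hN
  let e := Module.finBasisOfFinrankEq ℝ N hr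
  refine ⟨LinearMap.pi fun i => B (e i), fun v hv h0 => zi1_perp hs hN hr hneg hv fun n hn => ?_⟩
  have h1 : (B.flip v).domRestrict N = 0 := by
    refine e.ext fun i => ?_
    simpa using congrFun h0 i
  simpa using LinearMap.congr_fun h1 ⟨n, hn⟩

/-- the orthogonal complement of a maximal negative subspace of a nondegenerate form -/
theorem nI_compl {B : W →ₗ[ℝ] W →ₗ[ℝ] ℝ} {V N : Submodule ℝ W} [FiniteDimensional ℝ V]
    (hs : ∀ v w, B v w = B w v) (hn : ∀ v ∈ V, (∀ w ∈ V, B v w = 0) → v = 0) (hN : N ≤ V)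
    (hr : Module.finrank ℝ N = nI (fun v w => B v w) V) (h : ∀ v ∈ N, v ≠ 0 → B v v < 0) :
    ∃ N' : Submodule ℝ W, N' ≤ V ∧ N ⊓ N' = ⊥ ∧ N ⊔ N' = V ∧ (∀ v ∈ N', v ≠ 0 → 0 < B v v) ∧
      ∀ v ∈ N, ∀ w ∈ N', B v w = 0 := by
  have : FiniteDimensional ℝ N := Submodule.finiteDimensional_of_le hN
  let ψ : W →ₗ[ℝ] Module.Dual ℝ N := (B.domRestrict N).flip
  have hψ : ∀ (w : W) (n : N), ψ w n = B n w := fun w n => rfl
  have hmem : ∀ w, w ∈ V ⊓ LinearMap.ker ψ ↔ w ∈ V ∧ ∀ n ∈ N, B n w = 0 := by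
    intro w
    rw [Submodule.mem_inf, LinearMap.mem_ker]
    refine and_congr_right fun _ => ⟨fun h1 n hn => ?_, fun h1 => ?_⟩
    · rw [← hψ w ⟨n, hn⟩, h1]
      rfl
    · exact LinearMap.ext fun n => h1 n n.2
  have hinj : Injective (ψ.domRestrict N) := by
    rw [injective_iff_map_eq_zero]
    intro n h1
    by_contra h2
    have h3 : B n n = 0 := LinearMap.congr_fun h1 n
    exact (h n n.2 fun e => h2 (Subtype.ext e)).ne h3
  have hsurj : Surjective (ψ.domRestrict N) :=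
    (LinearMap.injective_iff_surjective_of_finrank_eq_finrank
      (Subspace.dual_finrank_eq (K := ℝ) (V := N)).symm).1 hinj
  have hdec : ∀ w ∈ V, ∃ n ∈ N, w - n ∈ V ⊓ LinearMap.ker ψ := by
    intro w hw
    obtain ⟨n, hn⟩ := hsurj (ψ w)
    refine ⟨n, n.2, V.sub_mem hw (hN n.2), ?_⟩
    have hn' : ψ n = ψ w := hn
    show ψ (w - n) = 0
    rw [map_sub, hn', sub_self]
  have hnn : ∀ w ∈ V ⊓ LinearMap.ker ψ, 0 ≤ B w w := fun w hw =>
    zi1_perp hs hN hr h ((hmem w).1 hw).1 ((hmem w).1 hw).2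
  refine ⟨V ⊓ LinearMap.ker ψ, inf_le_left, ?_, ?_, ?_, fun v hv w hw => ((hmem w).1 hw).2 v hv⟩
  · rw [eq_bot_iff]
    rintro v ⟨hv, hv'⟩
    by_contra h0
    exact (h v hv fun e => h0 ((Submodule.mem_bot ℝ).2 e)).ne (((hmem v).1 hv').2 v hv)
  · refine le_antisymm (sup_le hN inf_le_left) fun w hw => ?_
    obtain ⟨n, hn, h1⟩ := hdec w hw
    exact Submodule.mem_sup.2 ⟨n, hn, w - n, h1, by abel⟩
  · intro v hv h0
    refine (hnn v hv).lt_of_ne fun e => h0 (hn v ((hmem v).1 hv).1 fun w hw => ?_)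
    obtain ⟨n, hn, h1⟩ := hdec w hw
    have h2 : B v (w - n) = 0 := by
      by_contra h3
      have h4 := hnn ((-(B (w - n) (w - n) + 1) / (2 * B v (w - n))) • v + (w - n))
        (Submodule.add_mem _ (Submodule.smul_mem _ _ hv) h1)
      have h5 : (-(B (w - n) (w - n) + 1) / (2 * B v (w - n))) * (2 * B v (w - n)) =
          -(B (w - n) (w - n) + 1) := div_mul_cancel₀ _ (mul_ne_zero two_ne_zero h3)
      generalize -(B (w - n) (w - n) + 1) / (2 * B v (w - n)) = r at h4 h5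
      generalize w - n = x at h4 h5
      simp only [map_add, map_smul, LinearMap.add_apply, LinearMap.smul_apply, smul_eq_mul,
        hs x v, ← e] at h4
      linarith
    have h3 : B v n = 0 := by
      rw [hs]
      exact ((hmem v).1 hv).2 n hn
    rw [map_sub, h3, sub_zero] at h2
    exact h2

/-- negative semidefinite subspaces of a nondegenerate form -/
theorem nI_semi {B : W →ₗ[ℝ] W →ₗ[ℝ] ℝ} {V S : Submodule ℝ W} [FiniteDimensional ℝ V]
    (hs : ∀ v w, B v w = B w v) (hn : ∀ v ∈ V, (∀ w ∈ V, B v w = 0) → v = 0) (hS : S ≤ V)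
    (h : ∀ v ∈ S, B v v ≤ 0) : Module.finrank ℝ S ≤ nI (fun v w => B v w) V := by
  obtain ⟨N, hN, hr, hneg⟩ := nI_spec (fun v w => B v w) V
  obtain ⟨N', h1, h2, h3, h4, -⟩ := nI_compl hs hn hN hr hneg
  have : FiniteDimensional ℝ N := Submodule.finiteDimensional_of_le hN
  have : FiniteDimensional ℝ N' := Submodule.finiteDimensional_of_le h1
  have : FiniteDimensional ℝ S := Submodule.finiteDimensional_of_le hS
  have h5 : S ⊓ N' = ⊥ := by
    rw [eq_bot_iff]
    rintro v ⟨hv, hv'⟩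
    by_contra h0
    exact absurd (h4 v hv' fun e => h0 ((Submodule.mem_bot ℝ).2 e)) (not_lt.2 (h v hv))
  have h6 := Submodule.finrank_sup_add_finrank_inf_eq S N'
  have h7 := Submodule.finrank_sup_add_finrank_inf_eq N N'
  rw [h5, finrank_bot] at h6
  rw [h2, h3, finrank_bot] at h7
  have h8 : Module.finrank ℝ (S ⊔ N' : Submodule ℝ W) ≤ Module.finrank ℝ V :=
    Submodule.finrank_mono (sup_le hS h1)
  omega

/-- the same for the image of an injective linear map -/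
theorem nI_semi_map {B : W →ₗ[ℝ] W →ₗ[ℝ] ℝ} {V : Submodule ℝ W} [FiniteDimensional ℝ V]
    (hs : ∀ v w, B v w = B w v) (hn : ∀ v ∈ V, (∀ w ∈ V, B v w = 0) → v = 0) (L : W' →ₗ[ℝ] W)
    (hL : Injective L) (hV : ∀ x, L x ∈ V) (h : ∀ x, B (L x) (L x) ≤ 0) :
    Module.finrank ℝ W' ≤ nI (fun v w => B v w) V := by
  rw [← LinearMap.finrank_range_of_inj hL]
  refine nI_semi hs hn ?_ ?_
  · rintro _ ⟨x, rfl⟩
    exact hV x
  · rintro _ ⟨x, rfl⟩
    exact h x

/-- a bound for the index by a linear map whose kernel carries no negative vector -/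
theorem nI_le_of_fun {Q : W → W → ℝ} {V : Submodule ℝ W} [FiniteDimensional ℝ V]
    [FiniteDimensional ℝ W'] (φ : W →ₗ[ℝ] W') (h : ∀ v ∈ V, φ v = 0 → 0 ≤ Q v v) :
    nI Q V ≤ Module.finrank ℝ W' := by
  obtain ⟨N, hN, hr, hneg⟩ := nI_spec Q V
  have hinj : ∀ v ∈ N, φ v = 0 → v = 0 := by
    intro v hv h1
    by_contra h2
    exact absurd (hneg v hv h2) (not_lt.2 (h v (hN hv) h1))
  rw [← hr, ← zi1_inj φ hinj]
  exact Submodule.finrank_le _

end alg

/-- the inner corners -/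
def zi1_emb (k : ℕ) : Vk E k →ₗ[ℝ] (Fin (k - 1) → E) where
  toFun v i := v.1 (i + 1)
  map_add' _ _ := rfl
  map_smul' _ _ := rfl

theorem zi1_emb_inj (k : ℕ) : Injective (zi1_emb (E := E) k) := by
  rw [injective_iff_map_eq_zero]
  intro v hv
  refine Subtype.ext (funext fun j => ?_)
  rcases j with _ | j
  · exact v.2.1
  · by_cases hj : j < k - 1
    · exact congrFun hv ⟨j, hj⟩
    · exact v.2.2 _ (by omega)

instance Vk_fd (k : ℕ) : FiniteDimensional ℝ (Vk E k) :=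
  Module.Finite.of_injective _ (zi1_emb_inj k)

theorem Vk_rank (k : ℕ) : Module.finrank ℝ (Vk E k) ≤ (k - 1) * Module.finrank ℝ E := by
  have h := LinearMap.finrank_le_finrank_of_injective (zi1_emb_inj (E := E) k)
  rw [Module.finrank_pi_fintype] at h
  simpa using h

theorem part_std {a l : ℝ} (ha : 0 < a) (hl : 0 < l) :
    Part a l (⌊2 * l / a⌋₊ + 1) fun j => j * (l / (⌊2 * l / a⌋₊ + 1 : ℕ)) := by
  have hk : (0 : ℝ) < (⌊2 * l / a⌋₊ + 1 : ℕ) := by positivity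
  have h1 : 2 * l / a < (⌊2 * l / a⌋₊ + 1 : ℕ) := by
    push_cast
    exact Nat.lt_floor_add_one _
  have h2 : 0 < l / (⌊2 * l / a⌋₊ + 1 : ℕ) := div_pos hl hk
  have h3 : l / (⌊2 * l / a⌋₊ + 1 : ℕ) < a := by
    rw [div_lt_iff₀ ha] at h1
    rw [div_lt_iff₀ hk]
    linarith
  refine ⟨Nat.succ_pos _, by simp, mul_div_cancel₀ l hk.ne', fun j _ => ?_⟩
  generalize l / (⌊2 * l / a⌋₊ + 1 : ℕ) = x at h2 h3
  simp only [Nat.cast_add, Nat.cast_one]
  constructor <;> linarith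

theorem Part.lt {l : ℝ} {k : ℕ} {t : ℕ → ℝ} (ht : Part a l k t) {i j : ℕ} (hij : i < j)
    (hj : j ≤ k) : t i < t j := by
  induction j, hij using Nat.le_induction with
  | base => exact (ht.2.2.2 i hj).1
  | succ j hij ih => exact (ih (by omega)).trans (ht.2.2.2 j hj).1

theorem Part.pos {l : ℝ} {k : ℕ} {t : ℕ → ℝ} (ht : Part a l k t) : 0 < l := by
  have h := ht.lt ht.1 le_rfl
  rwa [ht.2.1, ht.2.2.1] at h

theorem idx_le' (h : SMd sh dist a) (u : UG g) {l : ℝ} (hl : 0 < l) :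
    (idx sh a u l : ℝ) ≤ 2 * Module.finrank ℝ E / a * l := by
  have h1 : idx sh a u l ≤ ⌊2 * l / a⌋₊ * Module.finrank ℝ E :=
    (nI_le _ _).trans (by simpa using Vk_rank (E := E) (⌊2 * l / a⌋₊ + 1))
  have h2 : (⌊2 * l / a⌋₊ : ℝ) ≤ 2 * l / a := Nat.floor_le (by have := h.pos; positivity)
  calc (idx sh a u l : ℝ) ≤ (⌊2 * l / a⌋₊ : ℝ) * Module.finrank ℝ E := by exact_mod_cast h1
    _ ≤ 2 * l / a * Module.finrank ℝ E := mul_le_mul_of_nonneg_right h2 (Nat.cast_nonneg _)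
    _ = 2 * Module.finrank ℝ E / a * l := by ring

end Pool.Agent.Fu
end

-- part Pool.Agent.P.MP_365c00_gt.ZI2
section

/-! Index theory: first and second derivatives of the energy of short geodesics. -/

set_option linter.unusedSectionVars false
set_option linter.unusedVariables false

open Set Filter Topology Metric Function MeasureTheory
open scoped Manifold ContDiff
open Pool.Agent.GeoN

namespace Pool.Agent.Fu

variable {E : Type} [NormedAddCommGroup E] [InnerProductSpace ℝ E] [FiniteDimensional ℝ E]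
  {M : Type} [MetricSpace M] [ChartedSpace E M] [IsManifold 𝓘(ℝ, E) ∞ M]
  [CompactSpace M] [Nonempty M] [Nontrivial E] {g : Met E M}

variable {sh : Short g} {a : ℝ}

theorem Dc_open (sh : Short g) (x y : M) : IsOpen (Dc sh x y) := by
  have := (((continuousOn_extChartAt_symm (I := 𝓘(ℝ, E)) x).prodMap
    (continuousOn_extChartAt_symm (I := 𝓘(ℝ, E)) y)).isOpen_inter_preimage
    ((target_open x).prod (target_open y)) sh.D_open)
  exact (bm_open (Set.ext fun w => and_assoc.symm)).2 this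

theorem Sc_smooth {x y : M} {w : E × E} (hw : w ∈ Dc sh x y) : ContDiffAt ℝ ∞ (Sc sh x y) w := by
  exact energy_smooth (Dc_open sh x y) (fun w hw => sh.geo _ hw.2.2)
    (fun w hw => sh.smooth x y w hw.1 hw.2.1 hw.2.2) hw

theorem Sc_fderiv {x y : M} {w : E × E} (hw : w ∈ Dc sh x y) (ξ : E × E) :
    fderiv ℝ (Sc sh x y) w ξ =
      2 * G g y w.2 (vel E y (sh.σ ((κ E x).symm w.1, (κ E y).symm w.2)) 1) ξ.2 -
        2 * G g x w.1 (vel E x (sh.σ ((κ E x).symm w.1, (κ E y).symm w.2)) 0) ξ.1 := by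
  have ho := Dc_open sh x y
  have := first_variation ho (fun w hw => sh.geo _ hw.2.2)
    (fun w hw => sh.smooth x y w hw.1 hw.2.1 hw.2.2) hw ξ (t := 0) (t' := 1) (x := x) (x' := y)
    (by simp only [sh.zero _ hw.2.2]; exact (κ E x).map_target hw.1)
    (by simp only [sh.one _ hw.2.2]; exact (κ E y).map_target hw.2.1)
  have e0 : (fun w : E × E => κ E x (sh.σ ((κ E x).symm w.1, (κ E y).symm w.2) 0)) =ᶠ[𝓝 w]
      Prod.fst := by
    filter_upwards [ho.mem_nhds hw] with w hw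
    rw [sh.zero _ hw.2.2, (κ E x).right_inv hw.1]
  have e1 : (fun w : E × E => κ E y (sh.σ ((κ E x).symm w.1, (κ E y).symm w.2) 1)) =ᶠ[𝓝 w]
      Prod.snd := by
    filter_upwards [ho.mem_nhds hw] with w hw
    rw [sh.one _ hw.2.2, (κ E y).right_inv hw.2.1]
  rw [e0.fderiv_eq, e1.fderiv_eq, fderiv_fst, fderiv_snd, sh.zero _ hw.2.2, sh.one _ hw.2.2,
    (κ E x).right_inv hw.1, (κ E y).right_inv hw.2.1] at this
  simp only [ContinuousLinearMap.coe_fst', ContinuousLinearMap.coe_snd'] at this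
  unfold Sc Short.S
  linarith

/-- the short geodesic between two near points of a geodesic -/
theorem sigma_geo {γ : ℝ → M} (hγ : IsGeodesic g γ) {s t : ℝ}
    (he : (t - s) ^ 2 * energy g γ 0 < sh.ε) :
    (γ s, γ t) ∈ sh.D ∧ sh.σ (γ s, γ t) = (fun r => γ ((t - s) * r + s)) ∧
      sh.S (γ s, γ t) = (t - s) ^ 2 * energy g γ 0 := by
  have e : energy g (fun r => γ ((t - s) * r + s)) 0 = (t - s) ^ 2 * energy g γ 0 := by
    rw [energy_affine hγ, energy_const hγ _ 0]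
  have h := sh.uniq _ (hγ.affine (t - s) s) (e ▸ he)
  simp only [mul_zero, zero_add, mul_one, sub_add_cancel] at h
  exact ⟨h.1, h.2, by rw [Short.S, h.2, e]⟩

theorem Sc_geo {γ : ℝ → M} (hγ : IsGeodesic g γ) {s t : ℝ}
    (he : (t - s) ^ 2 * energy g γ 0 < sh.ε) {x y : M} (hx : γ s ∈ (κ E x).source)
    (hy : γ t ∈ (κ E y).source) :
    (κ E x (γ s), κ E y (γ t)) ∈ Dc sh x y ∧ ∀ ξ : E × E,
      fderiv ℝ (Sc sh x y) (κ E x (γ s), κ E y (γ t)) ξ =
        2 * (t - s) * (G g y (κ E y (γ t)) (vel E y γ t) ξ.2 -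
          G g x (κ E x (γ s)) (vel E x γ s) ξ.1) := by
  obtain ⟨h1, h2, -⟩ := sigma_geo hγ he
  have hw : (κ E x (γ s), κ E y (γ t)) ∈ Dc sh x y :=
    ⟨(κ E x).map_source hx, (κ E y).map_source hy, by
      simpa only [(κ E x).left_inv hx, (κ E y).left_inv hy] using h1⟩
  refine ⟨hw, fun ξ => ?_⟩
  rw [Sc_fderiv hw]
  simp only [(κ E x).left_inv hx, (κ E y).left_inv hy, h2, ChartX.vel_aff, mul_zero, zero_add,
    mul_one, sub_add_cancel, map_smul, smul_apply, smul_eq_mul]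
  ring

theorem zi2_en (h : SMd sh dist a) (u : UG g) {s t : ℝ} (hst : |t - s| < a) :
    (t - s) ^ 2 * energy g u.1 0 < sh.ε := by
  rw [show energy g u.1 0 = 1 from u.2.2 0, mul_one]
  exact (sq_lt_sq' (abs_lt.1 hst).1 (abs_lt.1 hst).2).trans_le h.le

theorem bp_mem (h : SMd sh dist a) (u : UG g) {s t : ℝ} (hst : |t - s| < a) :
    (bp u s, bp u t) ∈ Dc sh (u.1 s) (u.1 t) := by
  exact (Sc_geo u.2.1 (zi2_en h u hst) (mem_extChartAt_source _) (mem_extChartAt_source _)).1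

theorem Sq_smooth (h : SMd sh dist a) (u : UG g) {s t : ℝ} (hst : |t - s| < a) :
    ContDiffAt ℝ ∞ (Sq sh u s t) (bp u s, bp u t) := by
  exact (Sc_smooth (bp_mem h u hst)).div_const _

theorem Sq_fderiv (u : UG g) {s t : ℝ} {w : E × E} (hw : w ∈ Dc sh (u.1 s) (u.1 t)) (ξ : E × E) :
    fderiv ℝ (Sq sh u s t) w ξ = fderiv ℝ (Sc sh (u.1 s) (u.1 t)) w ξ / (t - s) := by
  have := ((Sc_smooth hw).differentiableAt (by simp)).hasFDerivAt.mul_const (t - s)⁻¹
  rw [Sq_eq]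
  simp only [div_eq_mul_inv]
  rw [this.fderiv, smul_apply, smul_eq_mul, mul_comm]

/-- the first derivative at the base point -/
theorem Sq_fderiv_bp (h : SMd sh dist a) (u : UG g) {s t : ℝ} (h0 : s < t) (hst : t - s < a)
    (ξ : E × E) : fderiv ℝ (Sq sh u s t) (bp u s, bp u t) ξ =
      2 * (gt u t (tv u t) ξ.2 - gt u s (tv u s) ξ.1) := by
  have h1 : |t - s| < a := by rwa [abs_of_pos (sub_pos.2 h0)]
  rw [Sq_fderiv u (bp_mem h u h1)]
  have := (Sc_geo u.2.1 (zi2_en h u h1) (mem_extChartAt_source (I := 𝓘(ℝ, E)) _)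
    (mem_extChartAt_source (I := 𝓘(ℝ, E)) _)).2 ξ
  rw [div_eq_iff (sub_pos.2 h0).ne']
  exact this.trans (by unfold gt tv bp; ring)

theorem Sq_bp (h : SMd sh dist a) (u : UG g) {s t : ℝ} (h0 : s < t) (hst : t - s < a) :
    Sq sh u s t (bp u s, bp u t) = t - s := by
  have h1 : |t - s| < a := by rwa [abs_of_pos (sub_pos.2 h0)]
  have := (sigma_geo u.2.1 (zi2_en h u h1)).2.2
  rw [show energy g u.1 0 = 1 from u.2.2 0, mul_one] at this
  unfold Sq bp
  rw [extChartAt_to_inv, extChartAt_to_inv, this, pow_two, mul_div_assoc, div_self (sub_pos.2 h0).ne',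
    mul_one]

theorem Bq_symm (h : SMd sh dist a) (u : UG g) {s t : ℝ} (hst : |t - s| < a) (v w : E × E) :
    Bq sh u s t v w = Bq sh u s t w v := by
  exact ((Sq_smooth h u hst).isSymmSndFDerivAt (by simpa using ChartX.two_le)).eq v w

/-- differentiating the first derivative along a family -/
theorem Bq_has (h : SMd sh dist a) (u : UG g) {s t : ℝ} (hst : |t - s| < a) {c : ℝ → E × E}
    {c' : E × E} (hc : HasDerivAt c c' 0) (h0 : c 0 = (bp u s, bp u t)) (ξ : E × E) :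
    HasDerivAt (fun r => fderiv ℝ (Sq sh u s t) (c r) ξ) (Bq sh u s t c' ξ) 0 := by
  have h1 : ContDiffAt ℝ 1 (fderiv ℝ (Sq sh u s t)) (c 0) :=
    h0 ▸ (Sq_smooth h u hst).fderiv_right ChartX.one_add_one_le
  have h2 := ((h1.differentiableAt (by norm_num)).hasFDerivAt.comp_hasDerivAt 0 hc).clm_apply
    (hasDerivAt_const 0 ξ)
  rw [map_zero, add_zero, h0] at h2
  exact h2

theorem Qf_symm' (h : SMd sh dist a) (u : UG g) {l : ℝ} {k : ℕ} {t : ℕ → ℝ} (ht : Part a l k t)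
    (v w : ℕ → E) : Qf sh u k t v w = Qf sh u k t w v := by
  refine Finset.sum_congr rfl fun j hj => Bq_symm h u ?_ _ _
  have := ht.2.2.2 j (Finset.mem_range.1 hj)
  rw [abs_of_pos (sub_pos.2 this.1)]
  exact this.2

end Pool.Agent.Fu
end

-- part Pool.Agent.P.MP_365c00_gt.ZL2
section

/-! Local product models. -/

set_option linter.unusedSectionVars false
set_option linter.unusedVariables false

open Set Topology unitInterval TensorProduct

namespace Pool.Agent.Fu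

variable {F : Type} [Field F] {X Y Z : Type} [TopologicalSpace X] [TopologicalSpace Y]
  [TopologicalSpace Z]

/-- over the open set `U` of the base, the filtered space `A` is dominated by the product of `B`
with the filtered space `O`, with a loss `β` -/
structure FM (A : ℝ → Set X) (At : Set X) (ξ : C(X, Y)) (U B : Set Y) (O : ℝ → Set Z) (Ot : Set Z)
    (f : X → Z) (g : Y × Z → X) (β : ℝ) : Prop where
  monoA : Monotone A
  monoO : Monotone O
  subA : ∀ t, A t ⊆ At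
  subO : ∀ t, O t ⊆ Ot
  op : IsOpen U
  base : MapsTo ξ (At ∩ ξ ⁻¹' U) B
  fc : ContinuousOn f (At ∩ ξ ⁻¹' U)
  ft : MapsTo f (At ∩ ξ ⁻¹' U) Ot
  fl : ∀ t, MapsTo f (A t ∩ ξ ⁻¹' U) (O (t + β))
  gc : ContinuousOn g (B ×ˢ Ot)
  gb : ∀ b ∈ B, ∀ ω ∈ Ot, ξ (g (b, ω)) = b
  gl : ∀ t, MapsTo g (B ×ˢ O t) (A (t + β))
  htp : ∀ t, Htp (A t ∩ ξ ⁻¹' U) (fun x x' => x' ∈ A (t + 2 * β) ∧ ξ x' = ξ x)
    (fun x => g (ξ x, f x)) id

/-- vanishing in a product -/
theorem prod_null [T2Space Y] (h2 : (2 : F) ≠ 0) {e k : ℕ} {B K : Set Y} (hB : EH F e B)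
    (hK : IsCompact K) (hKB : K ⊆ B) {O O' Ot : Set Z} (hO : O ⊆ O') (hOt : O ⊆ Ot)
    {z : Ch F (Y × Z)} (hz : z ∈ ZZ F (B ×ˢ O) ((B \ K) ×ˢ O)) (hd : z ∈ HD F _ k) {P : Prop}
    (hP : P → ∀ c ∈ K, z ∈ NN F (B ×ˢ Ot) ((B \ {c}) ×ˢ Ot))
    (hv : ∀ j, ∀ w ∈ ZZ F O ∅, w ∈ HD F Z j → k ≤ j + e →
      (k = j + e → P → w ∈ BB F Ot) → w ∈ BB F O') :
    z ∈ NN F (B ×ˢ O') ((B \ K) ×ˢ O') := by
  have hbd : bd z ∈ CC F ((B \ K) ×ˢ O) ⊔ CC F (B ×ˢ (∅ : Set Z)) := Submodule.mem_sup_left hz.2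
  have key := ku h2 (A := B) (A' := B \ K) (B0 := O) (B0' := ∅) (B1 := O') (B1' := ∅) sdiff_subset
    (empty_subset _) hO subset_rfl hz.1 hbd ?_
  · rw [prod_empty, CC_empty, sup_bot_eq] at key
    exact key
  intro l hl
  obtain ⟨n, hn⟩ := sl_sum l z
  rw [hn]
  refine Submodule.sum_mem _ fun i _ => ?_
  have hli : ∀ a ∈ NN F B (B \ K), (l ∘ₗ dg i) a = 0 := fun a ha => hl _ (dg_mem_NN i ha)
  rcases lt_or_ge e i with hi | hi
  · refine NN_mono hO subset_rfl (sl_mem_NN sdiff_subset hz.1 hbd fun a ha => ?_)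
    exact hl _ (hB K hK hKB i _ (dg_mem_ZZ i ha) (dg_mem_HD i a) (Or.inl hi))
  rcases lt_or_ge k i with hk | hk
  · rw [sl_HD_lt l hd hk]
    exact Submodule.zero_mem _
  obtain ⟨j, rfl⟩ := Nat.exists_eq_add_of_le hk
  rw [NN_empty]
  refine hv j _ (sl_mem_ZZ hz.1 hbd hli) (sl_HD l hd) (by omega) fun hj hp => ?_
  obtain rfl : i = e := by omega
  by_contra hc
  obtain ⟨m, hm1, hm⟩ := exists_dual hc
  rw [sl_sr] at hm1
  have h1 : sr m z ∈ ZZ F B (B \ K) := sr_mem_ZZ hz fun b hb => hm b (BB_mono hOt hb)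
  have h3 : dg i (sr m z) ∈ NN F B (B \ K) :=
    hB K hK hKB i _ (dg_mem_ZZ i h1) (dg_mem_HD i _)
      (Or.inr ⟨rfl, fun c hc => dg_mem_NN i (sr_mem_NN (hP hp c hc) hm)⟩)
  rw [LinearMap.comp_apply, hl _ h3] at hm1
  exact zero_ne_one hm1

variable [T2Space Y] {A : ℝ → Set X} {At : Set X} {ξ : C(X, Y)} {U B : Set Y} {O : ℝ → Set Z}
  {Ot : Set Z} {f : X → Z} {g : Y × Z → X} {β : ℝ}

theorem FM.null (h : FM A At ξ U B O Ot f g β) (hβ : 0 ≤ β) (h2 : (2 : F) ≠ 0) {e k : ℕ}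
    (hB : EH F e B) {K : Set Y} (hK : IsCompact K) (hKB : K ⊆ B ∩ U) {t β' : ℝ} (hβ' : 0 ≤ β')
    {z : Ch F X} (hz : z ∈ ZZ F (A t) (off (A t) ξ K)) (hd : z ∈ HD F X k) {P : Prop}
    (hP : P → ∀ c ∈ K, z ∈ NN F At (off At ξ {c}))
    (hv : ∀ j, ∀ w ∈ ZZ F (O (t + β)) ∅, w ∈ HD F Z j → k ≤ j + e →
      (k = j + e → P → w ∈ BB F Ot) → w ∈ BB F (O (t + β + β'))) :
    z ∈ NN F (A (t + 2 * β + β')) (off (A (t + 2 * β + β')) ξ K) := by
  have hU : IsOpen (ξ ⁻¹' U) := h.op.preimage ξ.continuous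
  have cov : ∀ {S : Set X} {L : Set Y}, L ⊆ K → S ⊆ ξ ⁻¹' U ∪ ξ ⁻¹' Lᶜ := fun {S L} hL x _ => by
    by_cases hx : ξ x ∈ L
    · exact Or.inl (hKB (hL hx)).2
    · exact Or.inr hx
  obtain ⟨z', hz', hzz, hd'⟩ := exc_surj (V := ξ ⁻¹' Kᶜ) hU
    (hK.isClosed.isOpen_compl.preimage ξ.continuous) (cov subset_rfl) subset_rfl hz
  have sub : A t ∩ ξ ⁻¹' U ⊆ At ∩ ξ ⁻¹' U := inter_subset_inter_left _ (h.subA t)
  have hφ : ContinuousOn (fun x => (ξ x, f x)) (At ∩ ξ ⁻¹' U) :=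
    ξ.continuous.continuousOn.prodMk h.fc
  have m1 : MapsTo (fun x => (ξ x, f x)) (A t ∩ ξ ⁻¹' U) (B ×ˢ O (t + β)) := fun x hx =>
    ⟨h.base (sub hx), h.fl t hx⟩
  have l1 : t ≤ t + 2 * β + β' := by linarith
  have l2 : t + 2 * β ≤ t + 2 * β + β' := by linarith
  have offm : ∀ {s s' : ℝ}, s ≤ s' → off (A s) ξ K ⊆ off (A s') ξ K := fun hs =>
    inter_subset_inter_left _ (h.monoA hs)
  have p1 : mp (fun x => (ξ x, f x)) z' ∈
      NN F (B ×ˢ O (t + β + β')) ((B \ K) ×ˢ O (t + β + β')) := by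
    have m2 : MapsTo (fun x => (ξ x, f x)) ((A t ∩ ξ ⁻¹' U) ∩ (off (A t) ξ K ∩ ξ ⁻¹' U))
        ((B \ K) ×ˢ O (t + β)) := fun x hx => ⟨⟨(m1 hx.1).1, hx.2.1.2⟩, (m1 hx.1).2⟩
    refine prod_null h2 hB hK (hKB.trans inter_subset_left) (h.monoO (by linarith)) (h.subO _)
      (mp_mem_ZZ (hφ.mono sub) m1 m2 hz')
      (mp_mem_HD _ (hd' k hd)) (P := P) (fun hp c hc => ?_) hv
    have hc' : ({c} : Set Y) ⊆ K := singleton_subset_iff.2 hc
    have s1 : off (A t) ξ K ⊆ off At ξ {c} := fun x hx => ⟨h.subA t hx.1, fun hh => hx.2 (hc' hh)⟩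
    have n1 : z' ∈ NN F At (off At ξ {c}) := by
      have := Submodule.sub_mem _ (hP hp c hc)
        (NN_mono (h.subA t) (inter_subset_right.trans s1) hzz)
      rwa [sub_sub_cancel] at this
    have n2 := exc_inj (V := ξ ⁻¹' {c}ᶜ) hU
      (isClosed_singleton.isOpen_compl.preimage ξ.continuous) (cov hc') subset_rfl
      (ZZ_mono sub (inter_subset_left.trans s1) hz') n1
    have m3 : MapsTo (fun x => (ξ x, f x)) (At ∩ ξ ⁻¹' U) (B ×ˢ Ot) := fun x hx =>
      ⟨h.base hx, h.ft hx⟩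
    have m4 : MapsTo (fun x => (ξ x, f x)) (off At ξ {c} ∩ ξ ⁻¹' U) ((B \ {c}) ×ˢ Ot) :=
      fun x hx => ⟨⟨h.base ⟨hx.1.1, hx.2⟩, hx.1.2⟩, h.ft ⟨hx.1.1, hx.2⟩⟩
    exact mp_mem_NN hφ m3 m4 n2
  have e1 : t + β + β' + β = t + 2 * β + β' := by ring
  have gl := h.gl (t + β + β')
  rw [e1] at gl
  have p2 : mp g (mp (fun x => (ξ x, f x)) z') ∈
      NN F (A (t + 2 * β + β')) (off (A (t + 2 * β + β')) ξ K) := by
    refine mp_mem_NN (h.gc.mono (prod_mono subset_rfl (h.subO _))) gl ?_ p1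
    rintro ⟨b, ω⟩ ⟨hb, hω⟩
    refine ⟨gl ⟨hb.1, hω⟩, ?_⟩
    show ξ (g (b, ω)) ∉ K
    rw [h.gb b hb.1 ω (h.subO _ hω)]
    exact hb.2
  rw [mp_mp (hφ.mono sub) (h.gc.mono (prod_mono subset_rfl (h.subO _))) m1 hz'.1] at p2
  have p3 : mp id z' - mp (fun x => g (ξ x, f x)) z' ∈
      NN F (A (t + 2 * β)) (off (A (t + 2 * β)) ξ K) := by
    refine (h.htp t).NN subset_rfl (fun x _ y hy => hy.1) (fun x hx y hy => ?_) hz'
    refine ⟨hy.1, ?_⟩
    show ξ y ∉ K
    rw [hy.2]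
    exact hx.2.1.2
  rw [mp_id] at p3
  have p4 := Submodule.add_mem _ (Submodule.add_mem _
    (NN_mono (h.monoA l1) (inter_subset_right.trans (offm l1)) hzz)
    (NN_mono (h.monoA l2) (offm l2) p3)) p2
  have e2 : z - z' + (z' - mp (fun x => g (ξ x, f x)) z') + mp (g ∘ fun x => (ξ x, f x)) z' = z := by
    have : (g ∘ fun x => (ξ x, f x)) = fun x => g (ξ x, f x) := rfl
    rw [this]
    abel
  rwa [e2] at p4

end Pool.Agent.Fu
end

-- part Pool.Agent.P.MP_365c00_gt.ZP3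
section

/-! Products and change of end points on chains. -/

set_option linter.unusedSectionVars false
set_option linter.unusedVariables false

open Set Topology Filter Metric

namespace Pool.Agent.Fu

variable {F : Type} [Field F] {M : Type} [MetricSpace M] {Z : Type} [TopologicalSpace Z]

variable {x y z w x' y' z' : M} {A A' B B' C C' : Set (Mo M)} {a b c : Ch F (Mo M)}

theorem mul_apply (a b : Ch F (Mo M)) :
    mul a b = mp (fun z : Mo M × Mo M => cat z.1 z.2) (cross a b) := rfl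
theorem cat_contOn (hA : A ⊆ Pa x y) (hB : B ⊆ Pa y z) :
    ContinuousOn (fun z : Mo M × Mo M => cat z.1 z.2) (A ×ˢ B) := by
  refine cat_cont.mono fun q hq => ?_
  obtain ⟨h1, -, h2⟩ := hA hq.1
  obtain ⟨h3, h4, -⟩ := hB hq.2
  exact ⟨h1, h3, h2.trans h4.symm⟩
theorem mul_mem_HD {j k : ℕ} (ha : a ∈ HD F _ j) (hb : b ∈ HD F _ k) : mul a b ∈ HD F _ (j + k) := by
  exact mp_mem_HD _ (cross_mem_HD ha hb)
theorem mul_mem_CC (h : ∀ α ∈ A, ∀ β ∈ B, cat α β ∈ C) (ha : a ∈ CC F A) (hb : b ∈ CC F B) :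
    mul a b ∈ CC F C := by
  exact mp_mem_CC (fun q hq => h q.1 hq.1 q.2 hq.2) (cross_mem_CC ha hb)
theorem bd_mul (ha : a ∈ CC F (Pa x y)) (hb : b ∈ CC F (Pa y z)) :
    bd (mul a b) = mul (bd a) b + mul (om a) (bd b) := by
  rw [mul_apply, bd_mp (cat_contOn subset_rfl subset_rfl) (cross_mem_CC ha hb), bd_cross, map_add]
  rfl
theorem mul_assoc' (ha : a ∈ CC F (Pa x y)) (hb : b ∈ CC F (Pa y z)) (hc : c ∈ CC F (Pa z w)) :
    mul (mul a b) c = mul a (mul b c) := by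
  have h1 := cat_contOn (subset_refl (Pa x y)) (subset_refl (Pa y z))
  have h2 := cat_contOn (subset_refl (Pa y z)) (subset_refl (Pa z w))
  have h3 := cat_contOn (subset_refl (Pa x z)) (subset_refl (Pa z w))
  have h4 := cat_contOn (subset_refl (Pa x y)) (subset_refl (Pa y w))
  have e1 := cross_mp h1 continuousOn_id (cross_mem_CC ha hb) hc
  have e2 := cross_mp continuousOn_id h2 ha (cross_mem_CC hb hc)
  rw [mp_id] at e1 e2
  have hm := cross_mem_CC (cross_mem_CC ha hb) hc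
  have h5 : ContinuousOn ((fun z : Mo M × Mo M => cat z.1 z.2) ∘
      Prod.map id fun z : Mo M × Mo M => cat z.1 z.2) (Pa x y ×ˢ Pa y z ×ˢ Pa z w) :=
    h4.comp (continuousOn_id.prodMap h2) fun q hq => ⟨hq.1, cat_mem hq.2.1 hq.2.2⟩
  rw [mul_apply (mul a b), mul_apply a (mul b c), mul_apply a b, mul_apply b c, e1, e2,
    mp_mp (h1.prodMap continuousOn_id) h3 (fun q hq => ⟨cat_mem hq.1.1 hq.1.2, hq.2⟩) hm,
    mp_mp (continuousOn_id.prodMap h2) h4 (fun q hq => ⟨hq.1, cat_mem hq.2.1 hq.2.2⟩)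
      (cross_mem_CC ha (cross_mem_CC hb hc)), ← cross_assoc,
    mp_map _ _ h5]
  · exact mp_congr (fun q hq => cat_assoc hq.1.1 hq.1.2 hq.2) hm
  · refine CC_mono ?_ hm
    exact fun q hq => ⟨hq.1.1, hq.1.2, hq.2⟩
theorem mul_pt_left {γ : Mo M} (hγ : γ ∈ Pa x y) (hb : b ∈ CC F (Pa y z)) :
    mul (pt γ) b = mp (cat γ) b := by
  rw [mul_apply, cross_pt, mp_map _ _ (cat_contOn (subset_refl (Pa x y)) (subset_refl (Pa y z)))]
  · rfl
  · refine CC_mono ?_ hb
    exact fun q hq => ⟨hγ, hq⟩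
theorem mul_pt_right {γ : Mo M} (ha : a ∈ CC F (Pa x y)) (hγ : γ ∈ Pa y z) :
    mul a (pt γ) = mp (fun α => cat α γ) a := by
  rw [mul_apply, cross_pt_right,
    mp_map _ _ (cat_contOn (subset_refl (Pa x y)) (subset_refl (Pa y z)))]
  · rfl
  · refine CC_mono ?_ ha
    exact fun q hq => ⟨hq, hγ⟩
theorem mul_mem_ZZ (hA : A ⊆ Pa x y) (hB : B ⊆ Pa y z) (h : ∀ α ∈ A, ∀ β ∈ B, cat α β ∈ C)
    (h1 : ∀ α ∈ A ∩ A', ∀ β ∈ B, cat α β ∈ C') (h2 : ∀ α ∈ A, ∀ β ∈ B ∩ B', cat α β ∈ C')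
    (ha : a ∈ ZZ F A A') (hb : b ∈ ZZ F B B') : mul a b ∈ ZZ F C C' := by
  refine mp_mem_ZZ (cat_contOn hA hB) (fun q hq => h q.1 hq.1 q.2 hq.2) ?_ (cross_mem_ZZ ha hb)
  rintro q ⟨hq, hq' | hq'⟩
  · exact h1 q.1 ⟨hq.1, hq'.1⟩ q.2 hq.2
  · exact h2 q.1 hq.1 q.2 ⟨hq.2, hq'.2⟩
theorem zp3_ZZ (hb : b ∈ ZZ F B B') : b ∈ ZZ F B (B ∩ B') := by
  refine ⟨hb.1, ?_⟩
  show bd b ∈ CC F (B ∩ B')
  rw [CC_inter]
  exact ⟨bd_mem_CC hb.1, hb.2⟩
theorem mul_NN_left (hA : A ⊆ Pa x y) (hB : B ⊆ Pa y z) (hA' : A' ⊆ A)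
    (h : ∀ α ∈ A, ∀ β ∈ B, cat α β ∈ C)
    (h1 : ∀ α ∈ A', ∀ β ∈ B, cat α β ∈ C') (h2 : ∀ α ∈ A, ∀ β ∈ B ∩ B', cat α β ∈ C')
    (ha : a ∈ NN F A A') (hb : b ∈ ZZ F B B') : mul a b ∈ NN F C C' := by
  refine mp_mem_NN (cat_contOn hA hB) (fun q hq => h q.1 hq.1 q.2 hq.2) ?_
    (cross_NN_left ha (zp3_ZZ hb))
  rintro q (hq | hq)
  · exact h1 q.1 hq.1 q.2 hq.2
  · exact h2 q.1 hq.1 q.2 hq.2
theorem mul_NN_right (hA : A ⊆ Pa x y) (hB : B ⊆ Pa y z) (hB' : B' ⊆ B)
    (h : ∀ α ∈ A, ∀ β ∈ B, cat α β ∈ C)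
    (h1 : ∀ α ∈ A ∩ A', ∀ β ∈ B, cat α β ∈ C') (h2 : ∀ α ∈ A, ∀ β ∈ B', cat α β ∈ C')
    (ha : a ∈ ZZ F A A') (hb : b ∈ NN F B B') : mul a b ∈ NN F C C' := by
  refine mp_mem_NN (cat_contOn hA hB) (fun q hq => h q.1 hq.1 q.2 hq.2) ?_
    (cross_NN_right (zp3_ZZ ha) hb)
  rintro q (hq | hq)
  · exact h1 q.1 hq.1 q.2 hq.2
  · exact h2 q.1 hq.1 q.2 hq.2

theorem zp3_Om {s t r : ℝ} {α β : Mo M} (hα : α ∈ Om x y s) (hβ : β ∈ Om y z t) (h : s + t ≤ r) :
    cat α β ∈ Om x z r :=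
  ⟨cat_mem hα.1 hβ.1, (add_lt_add hα.2 hβ.2).trans_le h⟩
/-- the versions with levels -/
theorem mul_Om_ZZ {s s' t t' r r' : ℝ} (ha : a ∈ ZZ F (Om x y s) (Om x y s'))
    (hb : b ∈ ZZ F (Om y z t) (Om y z t')) (h : s + t ≤ r) (h1 : s' + t ≤ r') (h2 : s + t' ≤ r') :
    mul a b ∈ ZZ F (Om x z r) (Om x z r') := by
  exact mul_mem_ZZ (Om_sub _ _ _) (Om_sub _ _ _) (fun _ p _ q => zp3_Om p q h)
    (fun _ p _ q => zp3_Om p.2 q h1) (fun _ p _ q => zp3_Om p q.2 h2) ha hb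
theorem mul_Om_left {s s' t t' r r' : ℝ} (hs : s' ≤ s) (ha : a ∈ NN F (Om x y s) (Om x y s'))
    (hb : b ∈ ZZ F (Om y z t) (Om y z t')) (h : s + t ≤ r) (h1 : s' + t ≤ r') (h2 : s + t' ≤ r') :
    mul a b ∈ NN F (Om x z r) (Om x z r') := by
  exact mul_NN_left (Om_sub _ _ _) (Om_sub _ _ _) (Om_mono _ _ hs) (fun _ p _ q => zp3_Om p q h)
    (fun _ p _ q => zp3_Om p q h1) (fun _ p _ q => zp3_Om p q.2 h2) ha hb
theorem mul_Om_right {s s' t t' r r' : ℝ} (ht : t' ≤ t) (ha : a ∈ ZZ F (Om x y s) (Om x y s'))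
    (hb : b ∈ NN F (Om y z t) (Om y z t')) (h : s + t ≤ r) (h1 : s' + t ≤ r') (h2 : s + t' ≤ r') :
    mul a b ∈ NN F (Om x z r) (Om x z r') := by
  exact mul_NN_right (Om_sub _ _ _) (Om_sub _ _ _) (Om_mono _ _ ht) (fun _ p _ q => zp3_Om p q h)
    (fun _ p _ q => zp3_Om p.2 q h1) (fun _ p _ q => zp3_Om p q h2) ha hb
/-- cycles -/
theorem mul_cyc {s t : ℝ} (ha : a ∈ ZZ F (Om x y s) ∅) (hb : b ∈ ZZ F (Om y z t) ∅) :
    mul a b ∈ ZZ F (Om x z (s + t)) ∅ := by
  exact mul_mem_ZZ (Om_sub _ _ _) (Om_sub _ _ _) (fun _ p _ q => zp3_Om p q le_rfl)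
    (fun _ p _ _ => p.2.elim) (fun _ _ _ q => q.2.elim) ha hb
theorem mul_BB_left {s t : ℝ} (ha : a ∈ BB F (Om x y s)) (hb : b ∈ ZZ F (Om y z t) ∅) :
    mul a b ∈ BB F (Om x z (s + t)) := by
  rw [← NN_empty] at ha ⊢
  exact mul_NN_left (Om_sub _ _ _) (Om_sub _ _ _) (empty_subset _)
    (fun _ p _ q => zp3_Om p q le_rfl) (fun _ p _ _ => p.elim) (fun _ _ _ q => q.2.elim) ha hb
theorem mul_BB_right {s t : ℝ} (ha : a ∈ ZZ F (Om x y s) ∅) (hb : b ∈ BB F (Om y z t)) :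
    mul a b ∈ BB F (Om x z (s + t)) := by
  rw [← NN_empty] at hb ⊢
  exact mul_NN_right (Om_sub _ _ _) (Om_sub _ _ _) (empty_subset _)
    (fun _ p _ q => zp3_Om p q le_rfl) (fun _ p _ _ => p.2.elim) (fun _ _ _ q => q.elim) ha hb
/-- a cycle times a relative cycle -/
theorem mul_cyc_ZZ {s t t' : ℝ} (ha : a ∈ ZZ F (Om x y s) ∅)
    (hb : b ∈ ZZ F (Om y z t) (Om y z t')) : mul a b ∈ ZZ F (Om x z (s + t)) (Om x z (s + t')) := by
  exact mul_mem_ZZ (Om_sub _ _ _) (Om_sub _ _ _) (fun _ p _ q => zp3_Om p q le_rfl)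
    (fun _ p _ _ => p.2.elim) (fun _ p _ q => zp3_Om p q.2 le_rfl) ha hb
theorem mul_cyc_NN {s t t' : ℝ} (ht : t' ≤ t) (ha : a ∈ ZZ F (Om x y s) ∅)
    (hb : b ∈ NN F (Om y z t) (Om y z t')) : mul a b ∈ NN F (Om x z (s + t)) (Om x z (s + t')) := by
  exact mul_NN_right (Om_sub _ _ _) (Om_sub _ _ _) (Om_mono _ _ ht)
    (fun _ p _ q => zp3_Om p q le_rfl) (fun _ p _ _ => p.2.elim)
    (fun _ p _ q => zp3_Om p q le_rfl) ha hb
theorem mul_BB_ZZ {s t t' : ℝ} (ha : a ∈ BB F (Om x y s))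
    (hb : b ∈ ZZ F (Om y z t) (Om y z t')) : mul a b ∈ NN F (Om x z (s + t)) (Om x z (s + t')) := by
  rw [← NN_empty] at ha
  exact mul_NN_left (Om_sub _ _ _) (Om_sub _ _ _) (empty_subset _)
    (fun _ p _ q => zp3_Om p q le_rfl) (fun _ p _ _ => p.elim)
    (fun _ p _ q => zp3_Om p q.2 le_rfl) ha hb
theorem mul_Pa (ha : a ∈ ZZ F (Pa x y) ∅) (hb : b ∈ ZZ F (Pa y z) ∅) : mul a b ∈ ZZ F (Pa x z) ∅ := by
  exact mul_mem_ZZ subset_rfl subset_rfl (fun _ p _ q => cat_mem p q)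
    (fun _ p _ _ => p.2.elim) (fun _ _ _ q => q.2.elim) ha hb
theorem mul_Pa_left (ha : a ∈ BB F (Pa x y)) (hb : b ∈ ZZ F (Pa y z) ∅) : mul a b ∈ BB F (Pa x z) := by
  rw [← NN_empty] at ha ⊢
  exact mul_NN_left subset_rfl subset_rfl (empty_subset _) (fun _ p _ q => cat_mem p q)
    (fun _ p _ _ => p.elim) (fun _ _ _ q => q.2.elim) ha hb
theorem mul_Pa_right (ha : a ∈ ZZ F (Pa x y) ∅) (hb : b ∈ BB F (Pa y z)) :
    mul a b ∈ BB F (Pa x z) := by
  rw [← NN_empty] at hb ⊢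
  exact mul_NN_right subset_rfl subset_rfl (empty_subset _) (fun _ p _ q => cat_mem p q)
    (fun _ p _ _ => p.2.elim) (fun _ _ _ q => q.elim) ha hb
theorem exists_Om (ha : a ∈ CC F (Pa x y)) : ∃ t, a ∈ CC F (Om x y t) := by
  exact exists_level_top continuous_snd.continuousOn ha
theorem exists_Om_lt {t : ℝ} (ha : a ∈ CC F (Om x y t)) : ∃ s < t, a ∈ CC F (Om x y s) := by
  exact exists_level (A := Pa x y) continuous_snd.continuousOn ha
theorem BB_Pa_iff : a ∈ BB F (Pa x y) ↔ ∃ t, a ∈ BB F (Om x y t) := by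
  constructor
  · rintro ⟨h, hh, rfl⟩
    obtain ⟨t, ht⟩ := exists_Om hh
    exact ⟨t, h, ht, rfl⟩
  · rintro ⟨t, ht⟩
    exact BB_mono (Om_sub _ _ _) ht

theorem pwr_mem (n : ℕ) (ha : a ∈ ZZ F (Pa x x) ∅) : pwr n a ∈ ZZ F (Pa x x) ∅ := by
  induction n with
  | zero => exact ha
  | succ n ih => exact mul_Pa ih ha
theorem pwr_HD (n : ℕ) {k : ℕ} (ha : a ∈ HD F _ k) : pwr n a ∈ HD F _ ((n + 1) * k) := by
  induction n with
  | zero =>
    rw [zero_add, one_mul]
    exact ha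
  | succ n ih =>
    rw [add_mul (n + 1), one_mul]
    exact mul_mem_HD ih ha
theorem pwr_add (m n : ℕ) (ha : a ∈ ZZ F (Pa x x) ∅) :
    pwr (m + n + 1) a = mul (pwr m a) (pwr n a) := by
  induction n with
  | zero => rfl
  | succ n ih =>
    show mul (pwr (m + n + 1) a) a = mul (pwr m a) (mul (pwr n a) a)
    rw [ih, mul_assoc' (pwr_mem m ha).1 (pwr_mem n ha).1 ha.1]
theorem pwr_pwr (m n : ℕ) (ha : a ∈ ZZ F (Pa x x) ∅) :
    pwr m (pwr n a) = pwr (m * (n + 1) + n) a := by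
  induction m with
  | zero =>
    rw [zero_mul, zero_add]
    rfl
  | succ m ih =>
    have e : (m + 1) * (n + 1) + n = m * (n + 1) + n + n + 1 := by ring
    rw [e, pwr_add _ _ ha, ← ih]
    rfl
theorem pwr_smul (n : ℕ) (r : F) (a : Ch F (Mo M)) : pwr n (r • a) = r ^ (n + 1) • pwr n a := by
  induction n with
  | zero =>
    rw [zero_add, pow_one]
    rfl
  | succ n ih =>
    show mul (pwr n (r • a)) (r • a) = r ^ (n + 1 + 1) • mul (pwr n a) a
    rw [ih, map_smul, map_smul, LinearMap.smul_apply, smul_smul, ← pow_succ']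
theorem pwr_congr (n : ℕ) (ha : a ∈ ZZ F (Pa x x) ∅) (hb : b ∈ ZZ F (Pa x x) ∅)
    (h : a - b ∈ BB F (Pa x x)) : pwr n a - pwr n b ∈ BB F (Pa x x) := by
  induction n with
  | zero => exact h
  | succ n ih =>
    have e : pwr (n + 1) a - pwr (n + 1) b =
        mul (pwr n a - pwr n b) a + mul (pwr n b) (a - b) := by
      show mul (pwr n a) a - mul (pwr n b) b = _
      rw [map_sub, map_sub, LinearMap.sub_apply]
      abel
    rw [e]
    exact Submodule.add_mem _ (mul_Pa_left ih ha) (mul_Pa_right (pwr_mem n hb) h)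

end Pool.Agent.Fu
end

-- part Pool.Agent.P.MP_365c00_gt.ZP5
section

/-! Tuples of paths with small jumps. -/

set_option linter.unusedSectionVars false
set_option linter.unusedVariables false

open Set Topology Filter Metric

namespace Pool.Agent.Fu

variable {F : Type} [Field F] {M : Type} [MetricSpace M] {Z : Type} [TopologicalSpace Z]

variable {n : ℕ} {δ η : ℝ} {x e : M} {γ γ' : ℕ → Mo M}

theorem zp5_le {ω : Mo M} (h : IsP ω) (n i : ℕ) :
    (i : ℝ) * (ω.2 / (n + 1)) ≤ (i + 1) * (ω.2 / (n + 1)) := by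
  have h1 : 0 ≤ ω.2 / (n + 1) := div_nonneg h.1 (by positivity)
  nlinarith

theorem zp5_cut {ω : Mo M} (h : IsP ω) (n i : ℕ) :
    cut n ω i ∈ Pa (ω.1 (i * (ω.2 / (n + 1)))) (ω.1 ((i + 1) * (ω.2 / (n + 1)))) :=
  seg_mem h (zp5_le h n i)

theorem zp5_full (n : ℕ) (L : ℝ) : ((n : ℝ) + 1) * (L / (n + 1)) = L :=
  mul_div_cancel₀ _ (by positivity)

theorem cut_mem {ω : Mo M} (h : ω ∈ Pa x e) (hδ : 0 < δ) (hη : 0 < η) (n : ℕ) :
    cut n ω ∈ Tup n δ η x e ∧ tot n (cut n ω) = ω.2 := by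
  refine ⟨⟨fun i _ => (zp5_cut h.1 n i).1, ?_, fun i _ => ?_, ?_⟩, ?_⟩
  · rw [(zp5_cut h.1 n 0).2.1, Nat.cast_zero, zero_mul]
    exact h.2.1
  · rw [(zp5_cut h.1 n i).2.2, (zp5_cut h.1 n (i + 1)).2.1, Nat.cast_succ, dist_self]
    linarith
  · rw [(zp5_cut h.1 n n).2.2, zp5_full]
    have : ω.1 ω.2 = e := h.2.2
    rw [this, dist_self]
    exact hη
  · have e1 : ∀ i ∈ Finset.range (n + 1), (cut n ω i).2 = ω.2 / (n + 1) := fun i _ => by
      show ((i : ℝ) + 1) * (ω.2 / (n + 1)) - i * (ω.2 / (n + 1)) = _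
      ring
    rw [tot, Finset.sum_congr rfl e1, Finset.sum_const, Finset.card_range, nsmul_eq_mul,
      Nat.cast_succ, zp5_full]
theorem cut_zero {ω : Mo M} (h : IsP ω) : cut 0 ω 0 = ω := by
  have := seg_full h
  simpa [cut] using this
theorem Tup.congr (h : γ ∈ Tup n δ η x e) (he : ∀ i ≤ n, γ' i = γ i) :
    γ' ∈ Tup n δ η x e ∧ tot n γ' = tot n γ := by
  refine ⟨⟨fun i hi => ?_, ?_, fun i hi => ?_, ?_⟩, ?_⟩
  · rw [he i hi]; exact h.1 i hi
  · rw [he 0 (Nat.zero_le n)]; exact h.2.1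
  · rw [he i hi.le, he (i + 1) hi]; exact h.2.2.1 i hi
  · rw [he n le_rfl]; exact h.2.2.2
  · exact Finset.sum_congr rfl fun i hi => by rw [he i (Nat.lt_succ_iff.1 (Finset.mem_range.1 hi))]
theorem tot_cont (n : ℕ) : Continuous (tot n : (ℕ → Mo M) → ℝ) :=
  continuous_finsetSum _ fun i _ => (continuous_apply i).snd

/-- the time at which the piece `i` ends -/
noncomputable def zp5_b (i : ℕ) (γ : ℕ → Mo M) : ℝ :=
  tot i γ + ∑ j ∈ Finset.range i, dist (en (γ j)) (st (γ (j + 1)))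

theorem zp5_b_zero (γ : ℕ → Mo M) : zp5_b 0 γ = (γ 0).2 := by simp [zp5_b, tot]

theorem zp5_b_succ (i : ℕ) (γ : ℕ → Mo M) :
    zp5_b (i + 1) γ = zp5_b i γ + dist (en (γ i)) (st (γ (i + 1))) + (γ (i + 1)).2 := by
  simp only [zp5_b, tot, Finset.sum_range_succ]
  ring

theorem zp5_b_cont (i : ℕ) : Continuous (zp5_b i : (ℕ → Mo M) → ℝ) :=
  (tot_cont i).add (continuous_finsetSum _ fun j _ =>
    (en_cont.comp (continuous_apply j)).dist (st_cont.comp (continuous_apply (j + 1))))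

theorem zp5_b_mono {i : ℕ} : ∀ n, (∀ j ≤ n, IsP (γ j)) → i ≤ n → zp5_b i γ ≤ zp5_b n γ := by
  intro n
  induction n with
  | zero => intro _ hi; rw [Nat.le_zero.1 hi]
  | succ n ih =>
    intro h hi
    rcases Nat.le_succ_iff.1 hi with h1 | rfl
    · have h2 := ih (fun j hj => h j (hj.trans (Nat.le_succ n))) h1
      have h3 := (h (n + 1) le_rfl).1
      have h4 := dist_nonneg (x := en (γ n)) (y := st (γ (n + 1)))
      rw [zp5_b_succ]
      linarith
    · exact le_rfl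

theorem zp5_b_bound (h : ∀ i < n, dist (en (γ i)) (st (γ (i + 1))) < 2 * δ) :
    tot n γ ≤ zp5_b n γ ∧ zp5_b n γ ≤ tot n γ + 2 * δ * n := by
  have h1 : ∑ j ∈ Finset.range n, dist (en (γ j)) (st (γ (j + 1))) ≤
      ∑ _j ∈ Finset.range n, 2 * δ :=
    Finset.sum_le_sum fun j hj => (h j (Finset.mem_range.1 hj)).le
  rw [Finset.sum_const, Finset.card_range, nsmul_eq_mul] at h1
  have h2 : 0 ≤ ∑ j ∈ Finset.range n, dist (en (γ j)) (st (γ (j + 1))) :=
    Finset.sum_nonneg fun _ _ => dist_nonneg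
  unfold zp5_b
  constructor <;> linarith

namespace GS
variable (S : GS M)

theorem fill_congr (he : ∀ i ≤ n, γ' i = γ i) : S.fill n γ' = S.fill n γ := by
  induction n with
  | zero => exact he 0 le_rfl
  | succ n ih =>
    simp only [fill]
    rw [ih fun i hi => he i (hi.trans (Nat.le_succ n)), he n (Nat.le_succ n), he (n + 1) le_rfl]

theorem zp5_fill (hδ : 2 * δ ≤ S.a) : ∀ n, (∀ i ≤ n, IsP (γ i)) →
    (∀ i < n, dist (en (γ i)) (st (γ (i + 1))) < 2 * δ) →
    S.fill n γ ∈ Pa (st (γ 0)) (en (γ n)) ∧ (S.fill n γ).2 = zp5_b n γ ∧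
      ∀ i ≤ n, seg (S.fill n γ) (zp5_b i γ - (γ i).2) (zp5_b i γ) = γ i := by
  intro n
  induction n with
  | zero =>
    intro h _
    refine ⟨(h 0 le_rfl).mem, (zp5_b_zero γ).symm, fun i hi => ?_⟩
    rw [Nat.le_zero.1 hi, zp5_b_zero, sub_self]
    exact seg_full (h 0 le_rfl)
  | succ n ih =>
    intro h h'
    have h0 : ∀ i ≤ n, IsP (γ i) := fun i hi => h i (hi.trans (Nat.le_succ n))
    obtain ⟨h1, h2, h3⟩ := ih h0 fun i hi => h' i (hi.trans (Nat.lt_succ_self n))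
    have hd : dist (en (γ n)) (st (γ (n + 1))) < S.a := (h' n (Nat.lt_succ_self n)).trans_le hδ
    have h4 := S.mem _ _ hd
    have h5 := cat_mem h1 h4
    have h6 := (h (n + 1) le_rfl).mem
    have h7 : (cat (S.fill n γ) (S.sg (en (γ n)) (st (γ (n + 1))))).2 =
        zp5_b n γ + dist (en (γ n)) (st (γ (n + 1))) := by rw [cat_dur, h2, S.dur _ _ hd]
    have e0 : S.fill (n + 1) γ =
        cat (cat (S.fill n γ) (S.sg (en (γ n)) (st (γ (n + 1))))) (γ (n + 1)) := rfl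
    rw [e0]
    refine ⟨cat_mem h5 h6, by rw [cat_dur, h7, zp5_b_succ], fun i hi => ?_⟩
    have h8 : zp5_b i γ - (γ i).2 ≤ zp5_b i γ := sub_le_self _ (h i hi).1
    rcases Nat.le_succ_iff.1 hi with hi' | rfl
    · have h9 := zp5_b_mono n h0 hi'
      rw [seg_cat_left h5 h6 h8 (by rw [h7]; exact h9.trans (le_add_of_nonneg_right dist_nonneg)),
        seg_cat_left h1 h4 h8 (by rw [h2]; exact h9), h3 i hi']
    · rw [seg_cat_right h5 h6 h8 (by rw [h7, zp5_b_succ, add_sub_cancel_right]), h7, zp5_b_succ,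
        add_sub_cancel_right, sub_self, add_sub_cancel_left]
      exact seg_full (h _ le_rfl)

theorem fill_mem (hδ : 2 * δ ≤ S.a) (h : γ ∈ Tup n δ η x e) :
    S.fill n γ ∈ Pa x (en (γ n)) ∧ (S.fill n γ).2 ≤ tot n γ + 2 * δ * n := by
  obtain ⟨h1, h2, -⟩ := S.zp5_fill hδ n h.1 h.2.2.1
  rw [h.2.1] at h1
  exact ⟨h1, h2.trans_le (zp5_b_bound h.2.2.1).2⟩
theorem fill_cut {ω : Mo M} (h : IsP ω) (n : ℕ) : S.fill n (cut n ω) = ω := by
  have h0 : 0 ≤ ω.2 / (n + 1) := div_nonneg h.1 (by positivity)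
  have key : ∀ m : ℕ, S.fill m (cut n ω) = seg ω 0 ((m + 1) * (ω.2 / (n + 1))) := by
    intro m
    induction m with
    | zero =>
      show seg ω (((0 : ℕ) : ℝ) * (ω.2 / (n + 1))) _ = _
      rw [Nat.cast_zero, zero_mul]
    | succ m ih =>
      have h1 : (0 : ℝ) ≤ (m + 1) * (ω.2 / (n + 1)) := mul_nonneg (by positivity) h0
      have h2 := zp5_le h n (m + 1)
      simp only [fill]
      rw [ih, (zp5_cut h n m).2.2, (zp5_cut h n (m + 1)).2.1, cut]
      rw [Nat.cast_succ] at h2 ⊢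
      rw [S.sg_self, cat_triv (seg_mem h h1), cat_seg h h1 h2]
  rw [key, zp5_full, seg_full h]

theorem zp5_fill_cont (hδ : 2 * δ ≤ S.a) {A : Set Z} {c : Z → ℕ → Mo M} (hc : ContinuousOn c A) :
    ∀ n, (∀ z ∈ A, (∀ i ≤ n, IsP (c z i)) ∧
      ∀ i < n, dist (en (c z i)) (st (c z (i + 1))) < 2 * δ) →
    ContinuousOn (fun z => S.fill n (c z)) A := by
  have hci : ∀ i, ContinuousOn (fun z => c z i) A := continuousOn_pi.1 hc
  intro n
  induction n with
  | zero => exact fun _ => hci 0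
  | succ n ih =>
    intro h
    have h0 : ∀ z ∈ A, (∀ i ≤ n, IsP (c z i)) ∧
        ∀ i < n, dist (en (c z i)) (st (c z (i + 1))) < 2 * δ := fun z hz =>
      ⟨fun i hi => (h z hz).1 i (hi.trans (Nat.le_succ n)),
        fun i hi => (h z hz).2 i (hi.trans (Nat.lt_succ_self n))⟩
    have hd : ∀ z ∈ A, dist (en (c z n)) (st (c z (n + 1))) < S.a := fun z hz =>
      ((h z hz).2 n (Nat.lt_succ_self n)).trans_le hδ
    have h1 : ∀ z ∈ A, S.fill n (c z) ∈ Pa (st (c z 0)) (en (c z n)) := fun z hz =>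
      (S.zp5_fill hδ n (h0 z hz).1 (h0 z hz).2).1
    have h2 : ∀ z ∈ A, S.sg (en (c z n)) (st (c z (n + 1))) ∈
        Pa (en (c z n)) (st (c z (n + 1))) := fun z hz => S.mem _ _ (hd z hz)
    have h3 := S.sg_cont (en_cont.comp_continuousOn (hci n))
      (st_cont.comp_continuousOn (hci (n + 1))) hd
    exact ContinuousOn.cat' (ContinuousOn.cat' (ih h0) h3 h1 h2) (hci (n + 1))
      (fun z hz => cat_mem (h1 z hz) (h2 z hz)) fun z hz => ((h z hz).1 (n + 1) le_rfl).mem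

theorem fill_cont (hδ : 2 * δ ≤ S.a) {A : Set Z} {c : Z → ℕ → Mo M} {x e : Z → M}
    (hc : ContinuousOn c A) (h : ∀ z ∈ A, c z ∈ Tup n δ η (x z) (e z)) :
    ContinuousOn (fun z => S.fill n (c z)) A :=
  S.zp5_fill_cont hδ hc n fun z hz => ⟨(h z hz).1, (h z hz).2.2.1⟩

/-- one point of the homotopy -/
theorem zp5_track (hδ : 2 * δ ≤ S.a) (hη : η ≤ S.a) (h : γ ∈ Tup n δ η x e) {Q : Mo M}
    (hQ : Q = S.wh x e (S.fill n γ)) {u : ℝ} (hu : u ∈ Icc (0 : ℝ) 1) {γ' : ℕ → Mo M}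
    (h' : ∀ i ≤ n, γ' i = seg Q ((1 - u) * (i * (Q.2 / (n + 1))) + u * (zp5_b i γ - (γ i).2))
      ((1 - u) * ((i + 1) * (Q.2 / (n + 1))) + u * zp5_b i γ)) :
    γ' ∈ Tup n δ η x e ∧ tot n γ' ≤ tot n γ + (2 * δ * n + η) := by
  obtain ⟨h1, h2, -⟩ := S.zp5_fill hδ n h.1 h.2.2.1
  rw [h.2.1] at h1
  obtain ⟨h3, h4⟩ := S.wh_mem (x' := x) (y' := e) h1 (by rw [dist_self]; exact S.a_pos)
    (h.2.2.2.trans_le hη)
  rw [← hQ] at h3 h4
  rw [dist_self, zero_add, h2] at h4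
  obtain ⟨hu0, hu1⟩ := hu
  have hm : ∀ i ≤ n, γ' i ∈
      Pa (Q.1 ((1 - u) * (i * (Q.2 / (n + 1))) + u * (zp5_b i γ - (γ i).2)))
        (Q.1 ((1 - u) * ((i + 1) * (Q.2 / (n + 1))) + u * zp5_b i γ)) := fun i hi => by
    rw [h' i hi]
    exact seg_mem h3.1 (add_le_add (mul_le_mul_of_nonneg_left (zp5_le h3.1 n i) (by linarith))
      (mul_le_mul_of_nonneg_left (sub_le_self _ (h.1 i hi).1) hu0))
  have hs : ∀ d : ℝ, 0 ≤ d → |-(u * d)| ≤ d := fun d hd => by
    rw [abs_neg, abs_of_nonneg (mul_nonneg hu0 hd)]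
    exact mul_le_of_le_one_left hd hu1
  refine ⟨⟨fun i hi => (hm i hi).1, ?_, fun i hi => ?_, ?_⟩, ?_⟩
  · rw [(hm 0 (Nat.zero_le n)).2.1, zp5_b_zero, Nat.cast_zero, sub_self, zero_mul, mul_zero,
      mul_zero, add_zero]
    exact h3.2.1
  · rw [(hm i hi.le).2.2, (hm (i + 1) hi).2.1]
    refine lt_of_le_of_lt ((h3.1.2.1 _ _).trans ?_) (h.2.2.1 i hi)
    refine le_of_eq_of_le (congrArg abs ?_) (hs _ dist_nonneg)
    rw [zp5_b_succ, Nat.cast_succ]
    ring
  · have e1 : e = Q.1 Q.2 := h3.2.2.symm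
    rw [(hm n le_rfl).2.2, zp5_full]
    refine lt_of_le_of_lt ?_ h.2.2.2
    refine le_of_eq_of_le (congrArg (dist _) e1) ((h3.1.2.1 _ _).trans ?_)
    refine le_of_eq_of_le (congrArg abs ?_) (hs _ dist_nonneg)
    rw [h4]
    ring
  · have e1 : ∀ i ∈ Finset.range (n + 1), (γ' i).2 =
        (1 - u) * (Q.2 / (n + 1)) + u * (γ i).2 := fun i hi => by
      rw [h' i (Nat.lt_succ_iff.1 (Finset.mem_range.1 hi)), seg_dur]
      ring
    have e2 : tot n γ' = (1 - u) * Q.2 + u * tot n γ := by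
      rw [tot, Finset.sum_congr rfl e1, Finset.sum_add_distrib, ← Finset.mul_sum, ← Finset.mul_sum,
        Finset.sum_const, Finset.card_range, nsmul_eq_mul, Nat.cast_succ, zp5_full, tot]
    obtain ⟨h5, h6⟩ := zp5_b_bound h.2.2.1
    have h7 := h.2.2.2
    have h8 := dist_nonneg (x := en (γ n)) (y := e)
    have h9 : u * tot n γ ≤ u * Q.2 := mul_le_mul_of_nonneg_left (by linarith) hu0
    rw [e2]
    linarith

/-- joining the pieces, closing up and cutting again is homotopic to the identity -/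
theorem tup_one (hδ : 2 * δ ≤ S.a) (hη : η ≤ S.a) {A : Set Z} {c : Z → ℕ → Mo M} {x e : Z → M}
    (hc : ContinuousOn c A) (he : ContinuousOn e A)
    (h : ∀ z ∈ A, c z ∈ Tup n δ η (x z) (e z)) :
    Htp A (fun z γ => γ ∈ Tup n δ η (x z) (e z) ∧ tot n γ ≤ tot n (c z) + (2 * δ * n + η) ∧
        ∀ i, n < i → γ i = c z i)
      (fun z i => if i ≤ n then cut n (S.wh (x z) (e z) (S.fill n (c z))) i else c z i) c := by
  have hci : ∀ i, ContinuousOn (fun z => c z i) A := continuousOn_pi.1 hc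
  have hx : ContinuousOn x A :=
    (st_cont.comp_continuousOn (hci 0)).congr fun z hz => (h z hz).2.1.symm
  have hm : ∀ z ∈ A, S.fill n (c z) ∈ Pa (x z) (en (c z n)) := fun z hz =>
    (S.fill_mem hδ (h z hz)).1
  have hQ : ContinuousOn (fun z => S.wh (x z) (e z) (S.fill n (c z))) A := by
    refine S.wh_cont hx he (S.fill_cont hδ hc h) fun z hz => ⟨(hm z hz).1, ?_, ?_⟩
    · rw [(hm z hz).2.1, dist_self]; exact S.a_pos
    · rw [(hm z hz).2.2]; exact (h z hz).2.2.2.trans_le hη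
  generalize hQd : (fun z => S.wh (x z) (e z) (S.fill n (c z))) = Q at hQ
  have hQe : ∀ z, Q z = S.wh (x z) (e z) (S.fill n (c z)) := fun z => (congrFun hQd z).symm
  refine ⟨fun w i => if i ≤ n then seg (Q w.2)
      ((1 - w.1) * (i * ((Q w.2).2 / (n + 1))) + w.1 * (zp5_b i (c w.2) - (c w.2 i).2))
      ((1 - w.1) * ((i + 1) * ((Q w.2).2 / (n + 1))) + w.1 * zp5_b i (c w.2)) else c w.2 i,
    continuousOn_pi.2 fun i => ?_, fun z hz => funext fun i => ?_, fun z hz => funext fun i => ?_,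
    fun u hu z hz => ?_⟩
  · have hsnd : MapsTo Prod.snd (Icc (0 : ℝ) 1 ×ˢ A) A := fun w hw => hw.2
    have a1 : ContinuousOn (fun w : ℝ × Z => Q w.2) (Icc 0 1 ×ˢ A) :=
      hQ.comp continuousOn_snd hsnd
    have a2 : ContinuousOn (fun w : ℝ × Z => c w.2 i) (Icc 0 1 ×ˢ A) :=
      (hci i).comp continuousOn_snd hsnd
    have a3 : ContinuousOn (fun w : ℝ × Z => zp5_b i (c w.2)) (Icc 0 1 ×ˢ A) :=
      (zp5_b_cont i).comp_continuousOn (hc.comp continuousOn_snd hsnd)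
    have a4 : ContinuousOn (fun w : ℝ × Z => (Q w.2).2 / (n + 1)) (Icc 0 1 ×ˢ A) :=
      a1.snd.div_const _
    have a5 : ContinuousOn (fun w : ℝ × Z => 1 - w.1) (Icc 0 1 ×ˢ A) :=
      continuousOn_const.sub continuousOn_fst
    by_cases hi : i ≤ n
    · simp only [if_pos hi]
      exact ContinuousOn.seg' a1
        ((a5.mul (continuousOn_const.mul a4)).add (continuousOn_fst.mul (a3.sub a2.snd)))
        ((a5.mul (continuousOn_const.mul a4)).add (continuousOn_fst.mul a3))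
    · simp only [if_neg hi]
      exact a2
  · simp only [sub_zero, one_mul, zero_mul, add_zero, hQe, cut]
  · by_cases hi : i ≤ n
    · simp only [if_pos hi, sub_self, one_mul, zero_mul, zero_add]
      obtain ⟨-, h2, h3⟩ := S.zp5_fill hδ n (h z hz).1 (h z hz).2.2.1
      have hd := (h z hz).2.2.2.trans_le hη
      rw [hQe, S.wh_right (hm z hz) hd, seg_cat_left (hm z hz) (S.mem _ _ hd)
        (sub_le_self _ ((h z hz).1 i hi).1) (by rw [h2]; exact zp5_b_mono n (h z hz).1 hi),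
        h3 i hi]
    · exact if_neg hi
  · obtain ⟨h1, h2⟩ := S.zp5_track hδ hη (h z hz) (hQe z) hu (γ' := fun i => if i ≤ n then
      seg (Q z) ((1 - u) * (i * ((Q z).2 / (n + 1))) + u * (zp5_b i (c z) - (c z i).2))
        ((1 - u) * ((i + 1) * ((Q z).2 / (n + 1))) + u * zp5_b i (c z)) else c z i)
      fun i hi => if_pos hi
    exact ⟨h1, h2, fun i hi => if_neg (not_le.2 hi)⟩

/-- the same through a base point `p` -/
theorem tup_htp (hδ0 : 0 < δ) (hδ : 2 * δ ≤ S.a) {r : ℝ} (hη : 2 * r + η ≤ S.a) {A : Set Z}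
    {c : Z → ℕ → Mo M} {x e : Z → M} (p : M) (hc : ContinuousOn c A) (he : ContinuousOn e A)
    (h : ∀ z ∈ A, c z ∈ Tup n δ η (x z) (e z) ∧ dist (x z) p < r ∧ dist (e z) p < r) :
    Htp A (fun z γ => γ ∈ Tup n δ η (x z) (e z) ∧ tot n γ ≤ tot n (c z) + (2 * δ * n + η + 4 * r) ∧
        ∀ i, n < i → γ i = c z i)
      (fun z i => if i ≤ n then cut n (S.wh (x z) (e z) (S.wh p p (S.fill n (c z)))) i else c z i)
      c := by
  rcases A.eq_empty_or_nonempty with rfl | ⟨z0, hz0⟩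
  · exact ⟨fun w => c w.2, fun w hw => absurd hw.2 (notMem_empty _),
      fun z hz => absurd hz (notMem_empty _), fun z hz => absurd hz (notMem_empty _),
      fun _ _ z hz => absurd hz (notMem_empty _)⟩
  have hr : 0 < r := dist_nonneg.trans_lt (h z0 hz0).2.1
  have hη0 : 0 < η := dist_nonneg.trans_lt (h z0 hz0).1.2.2.2
  have hci : ∀ i, ContinuousOn (fun z => c z i) A := continuousOn_pi.1 hc
  have hx : ContinuousOn x A :=
    (st_cont.comp_continuousOn (hci 0)).congr fun z hz => (h z hz).1.2.1.symm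
  have hm := fun z hz => S.fill_mem hδ (h z hz).1
  have hb : ∀ z ∈ A, dist (x z) p + dist p (st (S.fill n (c z))) < 2 * r ∧
      dist (en (S.fill n (c z))) p + dist p (e z) < 2 * r + η := fun z hz => by
    obtain ⟨h1, h2, h3⟩ := h z hz
    have h4 := dist_triangle (en (c z n)) (e z) p
    have h5 := h1.2.2.2
    rw [(hm z hz).1.2.1, (hm z hz).1.2.2, dist_comm p, dist_comm p]
    constructor <;> linarith
  have h1 := S.hp_wh_wh (x := fun _ => p) (y := fun _ => p) continuousOn_const continuousOn_const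
    hx he (S.fill_cont hδ hc fun z hz => (h z hz).1) fun z hz =>
      ⟨(hm z hz).1.1, by linarith [(hb z hz).1], (hb z hz).2.trans_le hη⟩
  have h2 := Htp.post h1 (k := fun w i => if i ≤ n then cut n w.2 i else c w.1 i)
    (continuousOn_pi.2 fun i => by
      by_cases hi : i ≤ n
      · simp only [if_pos hi]
        exact ((cut_cont n i).comp continuous_snd).continuousOn
      · simp only [if_neg hi]
        exact (hci i).comp continuousOn_fst fun w hw => hw.1)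
    (R' := fun z γ => γ ∈ Tup n δ η (x z) (e z) ∧
      tot n γ ≤ tot n (c z) + (2 * δ * n + η + 4 * r) ∧ ∀ i, n < i → γ i = c z i)
    fun z hz ω hω => by
      obtain ⟨h3, h4⟩ := cut_mem hω.1 hδ0 hη0 n
      obtain ⟨h5, h6⟩ := Tup.congr (γ' := fun i => if i ≤ n then cut n ω i else c z i) h3
        fun i hi => if_pos hi
      refine ⟨h5, ?_, fun i hi => if_neg (not_le.2 hi)⟩
      have h7 := hω.2
      have h8 := (hm z hz).2
      obtain ⟨h9, h10⟩ := hb z hz
      refine (h6.trans h4).trans_le ?_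
      linarith
  refine h2.trans ((S.tup_one hδ (by linarith) hc he fun z hz => (h z hz).1).mono Subset.rfl ?_)
  exact fun z _ γ hγ => ⟨hγ.1, by linarith [hγ.2.1], hγ.2.2⟩

end GS

end Pool.Agent.Fu
end

-- part Pool.Agent.P.MP_365c00_gt.ZR0
section

/-! Morse theory: definitions. -/

set_option linter.unusedSectionVars false
set_option linter.unusedVariables false

open Set Filter Topology Metric Function
open scoped Manifold ContDiff
open Pool.Agent.GeoN

namespace Pool.Agent.Fu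

section abstract
variable {X : Type} [TopologicalSpace X]

/-- the part of `W` below the level `b` -/
def Sub (W : Set X) (f : X → ℝ) (b : ℝ) : Set X := {x | x ∈ W ∧ f x < b}

/-- near `z` the points of `W` can be moved so that `f` decreases -/
def Mv (W : Set X) (f : X → ℝ) (z : X) : Prop :=
  ∃ N ∈ 𝓝 z, ∃ m : X × ℝ → X, ContinuousOn m ((N ∩ W) ×ˢ Icc 0 1) ∧
    ∀ y ∈ N ∩ W, m (y, 0) = y ∧ ∀ s ∈ Ioc (0 : ℝ) 1, m (y, s) ∈ W ∧ f (m (y, s)) < f y

/-- `y'` is `y` or lies lower -/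
def Dn (W : Set X) (f : X → ℝ) (y y' : X) : Prop := y' ∈ W ∧ (y' = y ∨ f y' < f y)

/-- `g` generates the relative homology of `(A, B)` -/
def GnR (F : Type) [Field F] (A B : Set X) (g : Ch F X) : Prop :=
  g ∈ ZZ F A B ∧ g ∉ NN F A B ∧ ∀ z ∈ ZZ F A B, ∃ r : F, z - r • g ∈ NN F A B

end abstract

section metric
variable {M : Type} [MetricSpace M]

/-- sequences of corners -/
def Wk (x y : M) (k : ℕ) : Set (ℕ → M) := {c | c 0 = x ∧ ∀ j, k ≤ j → c j = y}

/-- the energy of a broken geodesic -/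
noncomputable def Eb (k : ℕ) (t : ℕ → ℝ) (c : ℕ → M) : ℝ :=
  ∑ j ∈ Finset.range k, dist (c j) (c (j + 1)) ^ 2 / (t (j + 1) - t j)

/-- the energy on the scale of lengths -/
noncomputable def fE (k : ℕ) (t : ℕ → ℝ) (c : ℕ → M) : ℝ := √(t k * Eb k t c)

/-- sampling a path -/
noncomputable def nod (k : ℕ) (t : ℕ → ℝ) (γ : Mo M) (j : ℕ) : M :=
  γ.1 (γ.2 * (t (min j k) / t k))

end metric

variable {E : Type} [NormedAddCommGroup E] [InnerProductSpace ℝ E] [FiniteDimensional ℝ E]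
  {M : Type} [MetricSpace M] [ChartedSpace E M] [IsManifold 𝓘(ℝ, E) ∞ M]
  [CompactSpace M] [Nonempty M] [Nontrivial E] {g : Met E M}

/-- the corners on a geodesic -/
def nds (u : UG g) (k : ℕ) (t : ℕ → ℝ) (j : ℕ) : M := u.1 (t (min j k))

/-- the chart of the space of corners at `y` -/
noncomputable def Th (y : ℕ → M) (v : ℕ → E) (j : ℕ) : M :=
  (κ E (y j)).symm (κ E (y j) (y j) + v j)

variable (E) in
/-- its inverse -/
noncomputable def Xi (k : ℕ) (y c : ℕ → M) (j : ℕ) : E :=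
  if j < k then κ E (y j) (c j) - κ E (y j) (y j) else 0

variable (E) in
/-- the domain of the inverse -/
def Xd (k : ℕ) (y : ℕ → M) : Set (ℕ → M) := {c | ∀ j < k, c j ∈ (κ E (y j)).source}

variable (E) in
/-- the domain of the chart -/
def Td (k : ℕ) (y : ℕ → M) : Set (ℕ → E) :=
  {v | ∀ j < k, κ E (y j) (y j) + v j ∈ (κ E (y j)).target}

end Pool.Agent.Fu
end

-- part Pool.Agent.P.MP_365c00_gt.ZW1b
section

/-! Rotation of formal words. -/

set_option linter.unusedSectionVars false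
set_option linter.unusedVariables false

open Set Topology

namespace Pool.Agent.Fu

variable {F : Type} [Field F] {X Y : Type} [TopologicalSpace X] [TopologicalSpace Y] {q : ℕ}

theorem zw1b_cns (x : Lt) (w : List Lt) : cns x (wd (F := F) w) = wd (x :: w) := by
  unfold cns wd
  rw [Finsupp.lmapDomain_apply, Finsupp.mapDomain_single]

theorem zw1b_pw (u v : List Lt) : pw (F := F) u.length (u ++ Lt.O :: v) =
    (-1 : F) ^ u.count Lt.S • wd (u ++ Lt.S :: v) := by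
  induction u with
  | nil => simp [pw]
  | cons x u ih =>
    cases x
    · rw [List.length_cons, List.cons_append, pw, ih, map_smul, zw1b_cns,
        List.count_cons_of_ne (by decide), List.cons_append]
    · rw [List.length_cons, List.cons_append, pw, ih, map_smul, zw1b_cns,
        List.count_cons_of_ne (by decide), List.cons_append]
    · rw [List.length_cons, List.cons_append, pw, ih, map_smul, zw1b_cns,
        List.count_cons_self, pow_succ, mul_neg_one, neg_smul, List.cons_append]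

theorem zw1b_zero (w : List Lt) : ∀ i : ℕ, w[i]? ≠ some Lt.O → pw (F := F) i w = 0 := by
  induction w with
  | nil => intro i _; rw [pw]
  | cons x w ih =>
    intro i h
    cases i with
    | zero =>
      cases x
      · exact (h rfl).elim
      · rw [pw]
      · rw [pw]
    | succ i =>
      have := ih i (by simpa using h)
      cases x
      · rw [pw, this, map_zero]
      · rw [pw, this, map_zero]
      · rw [pw, this, map_zero, neg_zero]

theorem zw1b_rot (u v : List Lt) : rot (F := F) u.length (u ++ Lt.I :: v) =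
    (-1 : F) ^ (u.count Lt.S * v.count Lt.S) • wd (v ++ Lt.I :: u) := by
  unfold rot
  simp

theorem zw1b_split {w : List Lt} {i : ℕ} {x : Lt} (h : w[i]? = some x) :
    ∃ u v, w = u ++ x :: v ∧ u.length = i := by
  obtain ⟨hi, e⟩ := List.getElem?_eq_some_iff.1 h
  refine ⟨w.take i, w.drop (i + 1), ?_, by simp [hi.le]⟩
  rw [← e, List.getElem_cons_drop, List.take_append_drop]

theorem rot_pw {k i i' : ℕ} {w : List Lt} (hk : w[k]? = some Lt.I)
    (h : (i < k ∧ i' = i + (w.length - k)) ∨ (k < i ∧ i < w.length ∧ i' = i - k - 1) ∨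
      (i = k ∧ w.length ≤ i') ∨ (w.length ≤ i ∧ i' = w.length - k - 1)) :
    lin (rot (F := F) k) (pw (F := F) i w) = lin (pw (F := F) i') (rot (F := F) k w) := by
  obtain ⟨u, v, rfl, rfl⟩ := zw1b_split hk
  have hl : (u ++ Lt.I :: v).length = u.length + (v.length + 1) := by simp
  rw [zw1b_rot, map_smul, lin_wd]
  rcases h with ⟨h1, h2⟩ | ⟨h1, h2, h3⟩ | ⟨h1, h2⟩ | ⟨h1, h2⟩
  · have e : i' = v.length + 1 + i := by omega
    by_cases hO : u[i]? = some Lt.O
    · obtain ⟨a, b, rfl, rfl⟩ := zw1b_split hO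
      have e1 : a ++ Lt.O :: b ++ Lt.I :: v = a ++ Lt.O :: (b ++ Lt.I :: v) := by simp
      have e2 : a ++ Lt.S :: (b ++ Lt.I :: v) = (a ++ Lt.S :: b) ++ Lt.I :: v := by simp
      have e3 : (a ++ Lt.O :: b).length = (a ++ Lt.S :: b).length := by simp
      have e4 : v ++ Lt.I :: (a ++ Lt.O :: b) = (v ++ Lt.I :: a) ++ Lt.O :: b := by simp
      have e5 : i' = (v ++ Lt.I :: a).length := by
        rw [e, List.length_append, List.length_cons]
        omega
      have e6 : (v ++ Lt.I :: a) ++ Lt.S :: b = v ++ Lt.I :: (a ++ Lt.S :: b) := by simp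
      rw [e1, zw1b_pw, map_smul, lin_wd, e2, e3, zw1b_rot, e4, e5, zw1b_pw, e6, smul_smul,
        smul_smul, ← pow_add, ← pow_add]
      congr 2
      simp only [List.count_append, List.count_cons_self, List.count_cons_of_ne
        (show Lt.O ≠ Lt.S by decide), List.count_cons_of_ne (show Lt.I ≠ Lt.S by decide)]
      ring
    · rw [zw1b_zero _ i (by rwa [List.getElem?_append_left h1]), map_zero, zw1b_zero _ i' (by
        rw [List.getElem?_append_right (by omega), show i' - v.length = i + 1 by omega]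
        simpa using hO), smul_zero]
  · have e : i = u.length + 1 + i' := by omega
    by_cases hO : v[i']? = some Lt.O
    · obtain ⟨a, b, rfl, rfl⟩ := zw1b_split hO
      have e1 : u ++ Lt.I :: (a ++ Lt.O :: b) = (u ++ Lt.I :: a) ++ Lt.O :: b := by simp
      have e2 : i = (u ++ Lt.I :: a).length := by
        rw [e, List.length_append, List.length_cons]
        omega
      have e3 : (u ++ Lt.I :: a) ++ Lt.S :: b = u ++ Lt.I :: (a ++ Lt.S :: b) := by simp
      have e4 : a ++ Lt.O :: b ++ Lt.I :: u = a ++ Lt.O :: (b ++ Lt.I :: u) := by simp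
      have e5 : a ++ Lt.S :: (b ++ Lt.I :: u) = a ++ Lt.S :: b ++ Lt.I :: u := by simp
      rw [e1, e2, zw1b_pw, map_smul, lin_wd, e3, zw1b_rot, e4, zw1b_pw, e5, smul_smul,
        smul_smul, ← pow_add, ← pow_add]
      congr 1
      simp only [List.count_append, List.count_cons_self, List.count_cons_of_ne
        (show Lt.O ≠ Lt.S by decide), List.count_cons_of_ne (show Lt.I ≠ Lt.S by decide)]
      rw [show u.count Lt.S + a.count Lt.S + u.count Lt.S * (a.count Lt.S + (b.count Lt.S + 1)) =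
        u.count Lt.S * (a.count Lt.S + b.count Lt.S) + a.count Lt.S + 2 * u.count Lt.S by ring,
        pow_add _ _ (2 * _), pow_mul, neg_one_sq, one_pow, mul_one]
    · rw [zw1b_zero _ i (by
        rw [List.getElem?_append_right (by omega), show i - u.length = i' + 1 by omega]
        simpa using hO), map_zero,
        zw1b_zero _ i' (by rwa [List.getElem?_append_left (by omega)]), smul_zero]
  · rw [pw_of_I (h1 ▸ hk), map_zero, pw_of_le (by
      rw [List.length_append, List.length_cons]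
      omega), smul_zero]
  · rw [pw_of_le h1, map_zero, pw_of_I (by
      rw [List.getElem?_append_right (by omega), show i' - v.length = 0 by omega]
      rfl), smul_zero]

end Pool.Agent.Fu
end

-- part Pool.Agent.P.MP_365c00_gt.ZW3
section

/-! Construction of the chains of words. -/

set_option linter.unusedSectionVars false
set_option linter.unusedVariables false

open Set Topology

namespace Pool.Agent.Fu

variable {F : Type} [Field F] {X Y : Type} [TopologicalSpace X] [TopologicalSpace Y] {q : ℕ}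

variable {Y' : ℕ → ℝ → Set (ℕ → X)} {far : ℕ → Set (ℕ → X)} {R : ℕ → Ch F (ℕ → X) → Prop}
  {T c1 c3 : ℝ} {e : ℕ}

theorem lev_append (w w' : List Lt) :
    lev T c1 c3 (w ++ Lt.I :: w') = lev T c1 c3 w + lev T c1 c3 w' := by
  simp only [lev, List.length_append, List.length_cons, List.count_append, List.count_cons_self,
    List.count_cons_of_ne (show Lt.I ≠ Lt.S by decide)]
  push_cast
  ring

theorem WP.append (h : WS F Y' far R T c1 c3 e q) {a : List Lt → Ch F (ℕ → X)} {w w' : List Lt}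
    (hw : WP Y' far T c1 c3 e a w) (hw' : WP Y' far T c1 c3 e a w') :
    WP Y' far T c1 c3 e a (w ++ Lt.I :: w') := by
  obtain ⟨h1, h2, h3⟩ := hw
  obtain ⟨k1, k2, k3⟩ := hw'
  have hl : (w ++ Lt.I :: w').length = w.length + w'.length + 1 := by
    rw [List.length_append, List.length_cons, add_assoc]
  have hs : (w ++ Lt.I :: w').count Lt.S = w.count Lt.S + w'.count Lt.S := by
    rw [List.count_append, List.count_cons_of_ne (show Lt.I ≠ Lt.S by decide)]
  unfold WP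
  rw [hl, hs, lev_append, Zw_append]
  refine ⟨mu_CC (fun x hx y hy => h.app _ _ _ _ x hx y hy) h1 k1, ?_, ?_⟩
  · have h4 := mu_HD (k := w.length + 1) h2 k2
    rwa [show (w.length + 1) * e + w.count Lt.S + ((w'.length + 1) * e + w'.count Lt.S) =
      (w.length + w'.length + 1 + 1) * e + (w.count Lt.S + w'.count Lt.S) by ring] at h4
  · have e1 : lin (Zw a) (lin (fun v => wd (F := F) (v ++ Lt.I :: w')) (dw (F := F) w)) =
        mu (w.length + 1) (lin (Zw a) (dw (F := F) w)) (Zw a w') := by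
      rw [map_lin]
      refine (lin_congr (fun v hv => ?_) (dw_supp w)).trans
        (map_lin ((mu (w.length + 1)).flip (Zw a w')) (Zw a) _).symm
      rw [lin_wd, Zw_append, hv.1]
      rfl
    have e2 : lin (Zw a) (lin (fun v => wd (F := F) (w ++ Lt.I :: v)) (dw (F := F) w')) =
        mu (w.length + 1) (Zw a w) (lin (Zw a) (dw (F := F) w')) := by
      rw [map_lin, map_lin (mu (w.length + 1) (Zw a w))]
      simp only [lin_wd, Zw_append]
    have e3 : om (Zw a w) = (-1 : F) ^ w.count Lt.S • Zw a w := by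
      rw [om_of_HD h2, pow_add, Even.neg_one_pow (h.even.mul_left _), one_mul]
    have e4 : bd (mu (w.length + 1) (Zw a w) (Zw a w')) -
        lin (Zw a) (dw (F := F) (w ++ Lt.I :: w')) =
        mu (w.length + 1) (bd (Zw a w) - lin (Zw a) (dw (F := F) w)) (Zw a w') +
          (-1 : F) ^ w.count Lt.S •
            mu (w.length + 1) (Zw a w) (bd (Zw a w') - lin (Zw a) (dw (F := F) w')) := by
      rw [bd_mu, dw_append, map_add, map_smul, e1, e2, e3]
      simp only [map_sub, map_smul, LinearMap.sub_apply, LinearMap.smul_apply, smul_sub]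
      abel
    rw [e4]
    refine add_mem (mu_CC (fun x hx y hy => ?_) h3 k1)
      (Submodule.smul_mem _ _ (mu_CC (fun x hx y hy => ?_) h1 k3))
    · exact ⟨h.app _ _ _ _ x hx.1 y hy, h.farl _ _ x y hx.2⟩
    · exact ⟨h.app _ _ _ _ x hx y hy.1, h.farr _ _ x y hy.2⟩

theorem WP.of_atoms (h : WS F Y' far R T c1 c3 e q) {a : List Lt → Ch F (ℕ → X)} {m : ℕ}
    (ha : ∀ u : List Lt, Lt.I ∉ u → u.length < q → u.count Lt.S ≤ m → WP Y' far T c1 c3 e a u)
    (w : List Lt) (hl : w.length < q) (hw : w.count Lt.S ≤ m) : WP Y' far T c1 c3 e a w := by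
  induction hn : w.length using Nat.strong_induction_on generalizing w with
  | _ n ih =>
    by_cases hI : Lt.I ∈ w
    · obtain ⟨s, t, rfl⟩ := List.append_of_mem hI
      rw [List.length_append, List.length_cons] at hn hl
      rw [List.count_append, List.count_cons_of_ne (show Lt.I ≠ Lt.S by decide)] at hw
      exact WP.append h (ih s.length (by omega) s (by omega) (by omega) rfl)
        (ih t.length (by omega) t (by omega) (by omega) rfl)
    · exact ha w hI hl hw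

theorem zw3_ZZ {a : List Lt → Ch F (ℕ → X)} {w : List Lt} (hw : WP Y' far T c1 c3 e a w)
    (hS : Lt.S ∉ w) : Zw a w ∈ ZZ F (Y' w.length (lev T c1 c3 w))
      (Y' w.length (lev T c1 c3 w) ∩ far w.length) := by
  have h3 := hw.2.2
  rw [dw_of_noS hS, map_zero, sub_zero] at h3
  exact mem_ZZ.2 ⟨hw.1, h3⟩

theorem zw3_mono (h : WS F Y' far R T c1 c3 e q) (n : ℕ) {t t' : ℝ} (ht : t ≤ t') :
    ZZ F (Y' n t) (Y' n t ∩ far n) ≤ ZZ F (Y' n t') (Y' n t' ∩ far n) :=
  ZZ_mono (h.mono n ht) (inter_subset_inter_left _ (h.mono n ht))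

theorem zw3_rep (x : Lt) (hx : x ≠ Lt.O) (n : ℕ) : x ∉ List.replicate n Lt.O := fun h =>
  hx (List.eq_of_mem_replicate h)

/-- the boundary of an atom is a relative cycle -/
theorem zw3_cyc (h : WS F Y' far R T c1 c3 e q) {a : List Lt → Ch F (ℕ → X)} {m : ℕ}
    (ha : ∀ w : List Lt, w.length < q → w.count Lt.S ≤ m → WP Y' far T c1 c3 e a w)
    {u : List Lt} (hI : Lt.I ∉ u) (hl : u.length < q) (hu : u.count Lt.S = m + 1) :
    lin (Zw a) (dw (F := F) u) ∈ ZZ F (Y' u.length ((u.length + 1) * T + 2 * c1 + c3 * m))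
      (Y' u.length ((u.length + 1) * T + 2 * c1 + c3 * m) ∩ far u.length) ∧
    lin (Zw a) (dw (F := F) u) ∈ HD F _ ((u.length + 1) * e + m) := by
  have key : ∀ v ∈ {v : List Lt | v.length = u.length ∧ v.count Lt.S + 1 = u.count Lt.S ∧
      v.count Lt.I ≤ u.count Lt.I + 1},
      Zw a v ∈ CC F (Y' u.length ((u.length + 1) * T + 2 * c1 + c3 * m)) ∧
      Zw a v ∈ HD F _ ((u.length + 1) * e + m) ∧
      bd (Zw a v) - lin (Zw a) (dw (F := F) v) ∈
        CC F (Y' u.length ((u.length + 1) * T + 2 * c1 + c3 * m) ∩ far u.length) := by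
    rintro v ⟨v1, v2, v3⟩
    have v4 : v.count Lt.S = m := by omega
    rw [List.count_eq_zero_of_not_mem hI] at v3
    obtain ⟨k1, k2, k3⟩ := ha v (by omega) v4.le
    have hle : lev T c1 c3 v ≤ (u.length + 1) * T + 2 * c1 + c3 * m := by
      have v5 : (v.count Lt.I : ℝ) ≤ 1 := by exact_mod_cast v3
      have v6 := mul_le_mul_of_nonneg_left v5 h.c1_nonneg
      rw [lev, v1, v4]
      linarith
    rw [v1] at k1 k2 k3
    rw [v4] at k2
    exact ⟨CC_mono (h.mono _ hle) k1, k2,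
      CC_mono (inter_subset_inter_left _ (h.mono _ hle)) k3⟩
  refine ⟨mem_ZZ.2 ⟨lin_mem (fun v hv => (key v hv).1) (dw_supp u), ?_⟩,
    lin_mem (fun v hv => (key v hv).2.1) (dw_supp u)⟩
  have h1 := lin_mem (fun v hv => (key v hv).2.2) (dw_supp (F := F) u)
  rw [lin_sub, ← map_lin (lin (Zw a)) (dw (F := F)), dw_dw, map_zero, sub_zero,
    ← map_lin bd] at h1
  exact h1

/-- the boundary of an atom is null -/
theorem zw3_nul (h : WS F Y' far R T c1 c3 e q) {a : List Lt → Ch F (ℕ → X)} {m : ℕ}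
    (hR : ∀ n < q, R n (a (List.replicate n Lt.O)))
    (ha : ∀ w : List Lt, w.length < q → w.count Lt.S ≤ m → WP Y' far T c1 c3 e a w)
    {u : List Lt} (hI : Lt.I ∉ u) (hl : u.length < q) (hu : u.count Lt.S = m + 1) :
    lin (Zw a) (dw (F := F) u) ∈ NN F (Y' u.length (lev T c1 c3 u))
      (Y' u.length (lev T c1 c3 u) ∩ far u.length) := by
  have hlev : lev T c1 c3 u = (u.length + 1) * T + c1 + c3 * (m + 1) := by
    rw [lev, hu, List.count_eq_zero_of_not_mem hI]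
    push_cast
    ring
  rw [hlev]
  rcases Nat.eq_zero_or_pos m with rfl | hm
  · obtain ⟨i, j, rfl⟩ := atom_one hI hu
    have hS : ∀ n, Lt.S ∉ List.replicate n Lt.O := zw3_rep _ (by decide)
    have hI' : ∀ n, Lt.I ∉ List.replicate n Lt.O := zw3_rep _ (by decide)
    have hn : (List.replicate i Lt.O ++ Lt.S :: List.replicate j Lt.O).length = i + j + 1 := by
      simp [add_assoc]
    rw [hn] at hl ⊢
    have hw : ∀ n < q, WP Y' far T c1 c3 e a (List.replicate n Lt.O) := fun n hn =>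
      ha _ (by rwa [List.length_replicate]) (List.count_eq_zero_of_not_mem (hS n)).le
    have hz : ∀ n < q, a (List.replicate n Lt.O) ∈
        ZZ F (Y' n ((n + 1) * T + c1)) (Y' n ((n + 1) * T + c1) ∩ far n) ∧
        a (List.replicate n Lt.O) ∈ HD F _ ((n + 1) * e) := fun n hn => by
      have h1 := zw3_ZZ (hw n hn) (hS n)
      have h2 := (hw n hn).2.1
      rw [Zw_atom a (hI' n)] at h1 h2
      rw [lev, List.count_eq_zero_of_not_mem (hS n), List.count_eq_zero_of_not_mem (hI' n),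
        List.length_replicate] at h1
      rw [List.count_eq_zero_of_not_mem (hS n), List.length_replicate] at h2
      exact ⟨by simpa using h1, h2⟩
    have hi := hz i (by omega)
    have hj := hz j (by omega)
    rw [dw_one, map_sub, lin_wd, lin_wd, Zw_append, Zw_atom a (hI' _), Zw_atom a (hI' _),
      Zw_atom a (hI' _), List.length_replicate]
    have h5 := h.inj (i + j + 1) hl _ (zw3_mono h _ (by linarith [h.c1_nonneg]) (hz _ hl).1)
      (mu (i + 1) (a (List.replicate i Lt.O)) (a (List.replicate j Lt.O)))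
      (zw3_mono h _ (t := (i + 1) * T + c1 + ((j + 1) * T + c1)) (by push_cast; linarith)
        (mu_ZZ (fun x hx y hy => h.app _ _ _ _ x hx y hy)
          (fun x hx y hy => ⟨h.app _ _ _ _ x hx.1 y hy, h.farl _ _ x y hx.2.2⟩)
          (fun x hx y hy => ⟨h.app _ _ _ _ x hx y hy.1, h.farr _ _ x y hy.2.2⟩) hi.1 hj.1))
      (hz _ hl).2
      (by
        have h6 := mu_HD (k := i + 1) hi.2 hj.2
        rwa [show (i + 1) * e + (j + 1) * e = (i + j + 1 + 1) * e by ring] at h6)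
      (hR _ hl) (h.mul _ _ _ _ _ hi.1 _ hj.1 (hR i (by omega)) (hR j (by omega)))
    simpa using h5
  · obtain ⟨h1, h2⟩ := zw3_cyc h ha hI hl hu
    exact h.van _ hl m hm _ h1 h2

theorem exists_Z (h : WS F Y' far R T c1 c3 e q) {z0 : Ch F (ℕ → X)}
    (h1 : z0 ∈ ZZ F (Y' 0 (T + c1)) (Y' 0 (T + c1) ∩ far 0)) (h2 : z0 ∈ HD F _ e) (h3 : R 0 z0) :
    ∃ a : List Lt → Ch F (ℕ → X), a [] = z0 ∧
      ∀ w : List Lt, w.length < q → WP Y' far T c1 c3 e a w := by
  have key : ∀ m : ℕ, ∃ a : List Lt → Ch F (ℕ → X), a [] = z0 ∧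
      (∀ n < q, R n (a (List.replicate n Lt.O))) ∧
      ∀ u : List Lt, Lt.I ∉ u → u.length < q → u.count Lt.S ≤ m → WP Y' far T c1 c3 e a u := by
    intro m
    induction m with
    | zero =>
      have h4 : ∀ n : ℕ, ∃ z : Ch F (ℕ → X), (n = 0 → z = z0) ∧ (n < q →
          z ∈ ZZ F (Y' n ((n + 1) * T + c1)) (Y' n ((n + 1) * T + c1) ∩ far n) ∧
          z ∈ HD F _ ((n + 1) * e) ∧ R n z) := by
        intro n
        rcases Nat.eq_zero_or_pos n with rfl | hn
        · exact ⟨z0, fun _ => rfl, fun _ => ⟨by simpa using h1, by simpa using h2, h3⟩⟩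
        · by_cases hq : n < q
          · obtain ⟨z, k1, k2, k3⟩ := h.ex n hq
            exact ⟨z, fun h0 => absurd h0 hn.ne', fun _ => ⟨k1, k2, k3⟩⟩
          · exact ⟨0, fun h0 => absurd h0 hn.ne', fun h0 => absurd h0 hq⟩
      choose z hz0 hz using h4
      refine ⟨fun u => z u.length, hz0 0 rfl, fun n hn => ?_, fun u hI hl hu => ?_⟩
      · simp only [List.length_replicate]
        exact (hz n hn).2.2
      · have hu0 : u.count Lt.S = 0 := Nat.le_zero.1 hu
        have hlev : lev T c1 c3 u = (u.length + 1) * T + c1 := by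
          rw [lev, hu0, List.count_eq_zero_of_not_mem hI]
          push_cast
          ring
        obtain ⟨k1, k2, -⟩ := hz _ hl
        unfold WP
        rw [hlev, Zw_atom _ hI, hu0, dw_of_noS (List.count_eq_zero.1 hu0), map_zero, sub_zero]
        exact ⟨(mem_ZZ.1 k1).1, k2, (mem_ZZ.1 k1).2⟩
    | succ m ih =>
      obtain ⟨a, a0, hR, ha⟩ := ih
      have ha' := WP.of_atoms h ha
      have h4 : ∀ u : List Lt, ∃ k : Ch F (ℕ → X), (u.count Lt.S ≤ m → k = a u) ∧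
          (Lt.I ∉ u → u.length < q → u.count Lt.S = m + 1 →
            k ∈ CC F (Y' u.length (lev T c1 c3 u)) ∧ k ∈ HD F _ ((u.length + 1) * e + m + 1) ∧
            lin (Zw a) (dw (F := F) u) - bd k ∈
              CC F (Y' u.length (lev T c1 c3 u) ∩ far u.length)) := by
        intro u
        by_cases hc : Lt.I ∉ u ∧ u.length < q ∧ u.count Lt.S = m + 1
        · obtain ⟨k, k1, k2, k3⟩ := NN_HD (zw3_cyc h ha' hc.1 hc.2.1 hc.2.2).2
            (zw3_nul h hR ha' hc.1 hc.2.1 hc.2.2)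
          exact ⟨k, fun h5 => by omega, fun _ _ _ => ⟨k1, k2, k3⟩⟩
        · exact ⟨a u, fun _ => rfl, fun k1 k2 k3 => absurd ⟨k1, k2, k3⟩ hc⟩
      choose a' hk0 hk using h4
      have hd : ∀ u : List Lt, u.count Lt.S ≤ m + 1 →
          lin (Zw a') (dw (F := F) u) = lin (Zw a) (dw (F := F) u) := fun u hu =>
        lin_congr (fun v hv => Zw_congr hk0 (by have := hv.2.1; omega)) (dw_supp u)
      refine ⟨a', (hk0 [] (Nat.zero_le m)).trans a0, fun n hn => ?_, fun u hI hl hu => ?_⟩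
      · rw [hk0 _ ((List.count_eq_zero_of_not_mem (zw3_rep _ (by decide) n)).le.trans
          (Nat.zero_le m))]
        exact hR n hn
      · unfold WP
        rw [hd u hu]
        rcases hu.lt_or_eq with h5 | h5
        · rw [Zw_congr hk0 (Nat.lt_succ_iff.1 h5)]
          exact ha u hI hl (Nat.lt_succ_iff.1 h5)
        · obtain ⟨k1, k2, k3⟩ := hk u hI hl h5
          rw [Zw_atom _ hI, h5, ← neg_sub]
          exact ⟨k1, k2, neg_mem k3⟩
  obtain ⟨a, a0, -, ha⟩ := key q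
  exact ⟨a, a0, fun w hw => WP.of_atoms h ha w hw (List.count_le_length.trans hw.le)⟩

end Pool.Agent.Fu
end

-- part Pool.Agent.P.MP_365c00_gt.ZW4
section

/-! The complex of formal cyclic words. -/

set_option linter.unusedSectionVars false
set_option linter.unusedVariables false

open Set Topology

namespace Pool.Agent.Fu

variable {F : Type} [Field F] {X Y : Type} [TopologicalSpace X] [TopologicalSpace Y] {q : ℕ}

theorem zw4_eq {P : Type} [AddCommGroup P] [Module F P] (L L' : FC F q →ₗ[F] P)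
    {s : Set (Finset (ZMod q) × List (ZMod q))}
    (h : ∀ I l, (I, l) ∈ s → L (Finsupp.single (I, l) 1) = L' (Finsupp.single (I, l) 1))
    {z : FC F q} (hz : z ∈ Finsupp.supported F F s) : L z = L' z := by
  rw [Finsupp.supported_eq_span_single] at hz
  refine LinearMap.eqOn_span ?_ hz
  rintro _ ⟨⟨I, l⟩, hs, rfl⟩
  exact h I l hs

theorem zw4_ext {P : Type} [AddCommGroup P] [Module F P] (L L' : FC F q →ₗ[F] P)
    (h : ∀ I l, L (Finsupp.single (I, l) 1) = L' (Finsupp.single (I, l) 1)) (z : FC F q) :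
    L z = L' z :=
  zw4_eq L L' (s := univ) (fun I l _ => h I l) (by rw [Finsupp.supported_univ]; trivial)

theorem zw4_mem {P : Type} [AddCommGroup P] [Module F P] (L : FC F q →ₗ[F] P)
    {s : Set (Finset (ZMod q) × List (ZMod q))} {N : Submodule F P}
    (h : ∀ I l, (I, l) ∈ s → L (Finsupp.single (I, l) 1) ∈ N)
    {z : FC F q} (hz : z ∈ Finsupp.supported F F s) : L z ∈ N := by
  have h1 : Finsupp.supported F F s ≤ N.comap L := by
    rw [Finsupp.supported_eq_span_single, Submodule.span_le]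
    rintro _ ⟨⟨I, l⟩, hs, rfl⟩
    exact h I l hs
  exact h1 hz

theorem zw4_pre (a : ZMod q) (I : Finset (ZMod q)) (l : List (ZMod q)) :
    pre a (Finsupp.single (I, l) (1 : F)) = Finsupp.single (I, a :: l) 1 :=
  Finsupp.mapDomain_single

theorem zw4_ins (a : ZMod q) (I : Finset (ZMod q)) (l : List (ZMod q)) :
    ins a (Finsupp.single (I, l) (1 : F)) = Finsupp.single (insert a I, l) 1 :=
  Finsupp.mapDomain_single

theorem zw4_sF (I : Finset (ZMod q)) (l : List (ZMod q)) :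
    sF (Finsupp.single (I, l) (1 : F)) = Finsupp.single (I.image (· + 1), l.map (· + 1)) 1 :=
  Finsupp.mapDomain_single

theorem zw4_lin {P : Type} [AddCommGroup P] [Module F P]
    (f : Finset (ZMod q) × List (ZMod q) → P) (z : Finset (ZMod q) × List (ZMod q)) :
    lin f (Finsupp.single z (1 : F)) = f z := by
  rw [lin, Finsupp.linearCombination_single, one_smul]

theorem dF_single (I : Finset (ZMod q)) (l : List (ZMod q)) :
    dF (Finsupp.single (I, l) (1 : F)) = df I l := zw4_lin _ _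

theorem dF_pre (a : ZMod q) (z : FC F q) : dF (pre a z) = z - ins a z - pre a (dF z) :=
  zw4_ext (dF ∘ₗ pre a) (LinearMap.id - ins a - pre a ∘ₗ dF) (fun I l => by
    simp only [LinearMap.comp_apply, LinearMap.sub_apply, LinearMap.id_apply, zw4_pre, zw4_ins,
      dF_single, df]) z

theorem zw4_ins_pre (a b : ZMod q) (z : FC F q) : ins a (pre b z) = pre b (ins a z) :=
  zw4_ext (ins a ∘ₗ pre b) (pre b ∘ₗ ins a) (fun I l => by
    simp only [LinearMap.comp_apply, zw4_pre, zw4_ins]) z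

theorem zw4_sF_pre (a : ZMod q) (z : FC F q) : sF (pre a z) = pre (a + 1) (sF z) :=
  zw4_ext (sF ∘ₗ pre a) (pre (a + 1) ∘ₗ sF) (fun I l => by
    simp only [LinearMap.comp_apply, zw4_pre, zw4_sF, List.map_cons]) z

theorem zw4_df_ins (a : ZMod q) (I : Finset (ZMod q)) (l : List (ZMod q)) :
    df (F := F) (insert a I) l = ins a (df I l) := by
  induction l with
  | nil => simp only [df, map_zero]
  | cons b l ih => simp only [df, map_sub, zw4_ins, zw4_ins_pre, ih, Finset.insert_comm a b]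

theorem dF_ins (a : ZMod q) (z : FC F q) : dF (ins a z) = ins a (dF z) :=
  zw4_ext (dF ∘ₗ ins a) (ins a ∘ₗ dF) (fun I l => by
    simp only [LinearMap.comp_apply, zw4_ins, dF_single, zw4_df_ins]) z

theorem df_supp (I : Finset (ZMod q)) (l : List (ZMod q)) :
    df (F := F) I l ∈ Finsupp.supported F F {z | I ⊆ z.1 ∧ z.2.length + 1 = l.length} := by
  induction l with
  | nil => exact Submodule.zero_mem _
  | cons a l ih =>
    refine Submodule.sub_mem _ (Submodule.sub_mem _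
      (Finsupp.single_mem_supported F _ ⟨Finset.Subset.refl _, rfl⟩)
      (Finsupp.single_mem_supported F _ ⟨Finset.subset_insert _ _, rfl⟩))
      (zw4_mem (pre a) (fun J m h => ?_) ih)
    rw [zw4_pre]
    exact Finsupp.single_mem_supported F _ ⟨h.1, congrArg (· + 1) h.2⟩

theorem zw4_dd (z : FC F q) : dF (dF z) = 0 := by
  refine zw4_ext (dF ∘ₗ dF) 0 (fun I l => ?_) z
  rw [LinearMap.comp_apply, dF_single, LinearMap.zero_apply]
  induction l with
  | nil => exact map_zero _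
  | cons a l ih =>
    rw [df, map_sub, map_sub, dF_single, dF_single, dF_pre, ih, map_zero, zw4_df_ins]
    abel

theorem zw4_ds (z : FC F q) : dF (sF z) = sF (dF z) := by
  refine zw4_ext (dF ∘ₗ sF) (sF ∘ₗ dF) (fun I l => ?_) z
  rw [LinearMap.comp_apply, LinearMap.comp_apply, zw4_sF, dF_single, dF_single]
  induction l with
  | nil => exact (map_zero _).symm
  | cons a l ih =>
    simp only [List.map_cons, df, map_sub, zw4_sF, zw4_sF_pre, ih, Finset.image_insert]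

theorem zw4_pow (k : ℕ) (I : Finset (ZMod q)) (l : List (ZMod q)) :
    ((sF : Module.End F (FC F q)) ^ k) (Finsupp.single (I, l) 1) =
      Finsupp.single (I.image (· + (k : ZMod q)), l.map (· + (k : ZMod q))) 1 := by
  induction k with
  | zero => simp
  | succ k ih =>
    rw [pow_succ', Module.End.mul_apply, ih, zw4_sF, Finset.image_image, List.map_map]
    have e : ((fun x : ZMod q => x + 1) ∘ fun x => x + (k : ZMod q)) =
        fun x => x + ((k + 1 : ℕ) : ZMod q) := by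
      funext x
      simp only [Function.comp_apply, Nat.cast_succ, add_assoc]
    rw [e]

variable (F q) in
/-- the complex of formal cyclic words -/
noncomputable def GF : GC F q (FC F q) where
  d := dF
  s := sF
  dd := zw4_dd
  ds := zw4_ds
  pow := LinearMap.ext (zw4_ext _ _ fun I l => by rw [zw4_pow]; simp)

variable [NeZero q]

variable (F q) in
/-- words with a cut -/
noncomputable def AF : Submodule F (FC F q) := Finsupp.supported F F {z | z.1.Nonempty}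

variable (F q) in
/-- degenerate words -/
noncomputable def BF : Submodule F (FC F q) :=
  Finsupp.supported F F {z | z.1 = Finset.univ ∧ z.2 ≠ []}

theorem AF_st : (GF F q).St (AF F q) := by
  refine ⟨fun c hc => zw4_mem dF (fun I l h => ?_) hc, fun c hc => zw4_mem sF (fun I l h => ?_) hc⟩
  · rw [dF_single]
    exact Finsupp.supported_mono (fun z hz => Finset.Nonempty.mono hz.1 h) (df_supp I l)
  · rw [zw4_sF]
    exact Finsupp.single_mem_supported F _ (Finset.Nonempty.image h _)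

theorem zw4_df_univ (l : List (ZMod q)) : df (F := F) Finset.univ l = 0 := by
  induction l with
  | nil => rfl
  | cons a l ih =>
    rw [df, ih, map_zero, Finset.insert_eq_of_mem (Finset.mem_univ a), sub_self, sub_zero]

theorem zw4_image : (Finset.univ : Finset (ZMod q)).image (· + 1) = Finset.univ :=
  Finset.image_univ_of_surjective (add_right_surjective 1)

theorem zw4_BF_st : (GF F q).St (BF F q) := by
  refine ⟨fun c hc => zw4_mem dF (fun I l h => ?_) hc, fun c hc => zw4_mem sF (fun I l h => ?_) hc⟩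
  · obtain rfl : I = Finset.univ := h.1
    rw [dF_single, zw4_df_univ]
    exact Submodule.zero_mem _
  · obtain rfl : I = Finset.univ := h.1
    rw [zw4_sF]
    exact Finsupp.single_mem_supported F _ ⟨zw4_image, fun e => h.2 (List.map_eq_nil_iff.mp e)⟩

/-- the bar boundary on lists -/
noncomputable def zw4_b : List (ZMod q) → FC F q
  | [] => 0
  | a :: l => Finsupp.single (∅, l) 1 - pre a (zw4_b l)

/-- replacing one letter by a cut -/
noncomputable def zw4_u : List (ZMod q) → FC F q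
  | [] => 0
  | a :: l => Finsupp.single ({a}, l) 1 - pre a (zw4_u l)

/-- the bar boundary -/
noncomputable def zw4_B : FC F q →ₗ[F] FC F q := lin fun z => zw4_b z.2

/-- the map to words with one cut -/
noncomputable def zw4_U : FC F q →ₗ[F] FC F q := lin fun z => zw4_u z.2

theorem zw4_B_single (I : Finset (ZMod q)) (l : List (ZMod q)) :
    zw4_B (Finsupp.single (I, l) (1 : F)) = zw4_b l := zw4_lin _ _

theorem zw4_U_single (I : Finset (ZMod q)) (l : List (ZMod q)) :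
    zw4_U (Finsupp.single (I, l) (1 : F)) = zw4_u l := zw4_lin _ _

theorem zw4_b_supp (l : List (ZMod q)) :
    zw4_b (F := F) l ∈ Finsupp.supported F F {z | z.1 = ∅} := by
  induction l with
  | nil => exact Submodule.zero_mem _
  | cons a l ih =>
    refine Submodule.sub_mem _ (Finsupp.single_mem_supported F _ rfl)
      (zw4_mem (pre a) (fun J m h => ?_) ih)
    rw [zw4_pre]
    exact Finsupp.single_mem_supported F _ h

theorem zw4_u_supp (l : List (ZMod q)) :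
    zw4_u (F := F) l ∈ Finsupp.supported F F {z | z.1.card = 1 ∧ z.2.length + 1 = l.length} := by
  induction l with
  | nil => exact Submodule.zero_mem _
  | cons a l ih =>
    refine Submodule.sub_mem _ (Finsupp.single_mem_supported F _ ⟨Finset.card_singleton a, rfl⟩)
      (zw4_mem (pre a) (fun J m h => ?_) ih)
    rw [zw4_pre]
    exact Finsupp.single_mem_supported F _ ⟨h.1, congrArg (· + 1) h.2⟩

theorem zw4_B_pre (a : ZMod q) {z : FC F q} (hz : z ∈ Finsupp.supported F F {z | z.1 = ∅}) :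
    zw4_B (pre a z) = z - pre a (zw4_B z) :=
  zw4_eq (zw4_B ∘ₗ pre a) (LinearMap.id - pre a ∘ₗ zw4_B) (fun I l h => by
    obtain rfl : I = ∅ := h
    simp only [LinearMap.comp_apply, LinearMap.sub_apply, LinearMap.id_apply, zw4_pre,
      zw4_B_single, zw4_b]) hz

theorem zw4_B_mem (z : FC F q) : zw4_B z ∈ Finsupp.supported F F {z | z.1 = ∅} := by
  refine zw4_mem (P := FC F q) (zw4_B (F := F) (q := q)) (s := univ) (fun I l _ => ?_) ?_
  · rw [zw4_B_single]
    exact zw4_b_supp l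
  · rw [Finsupp.supported_univ]
    trivial

theorem zw4_BB (z : FC F q) : zw4_B (zw4_B z) = 0 := by
  refine zw4_ext (zw4_B ∘ₗ zw4_B) 0 (fun I l => ?_) z
  rw [LinearMap.comp_apply, zw4_B_single, LinearMap.zero_apply]
  induction l with
  | nil => exact map_zero _
  | cons a l ih =>
    rw [zw4_b, map_sub, zw4_B_single, zw4_B_pre a (zw4_b_supp l), ih, map_zero, sub_zero, sub_self]

theorem zw4_U_eq {z : FC F q} (hz : z ∈ Finsupp.supported F F {z | z.1 = ∅}) :
    zw4_U z = zw4_B z - dF z := by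
  refine zw4_eq zw4_U (zw4_B - dF) (fun I l h => ?_) hz
  obtain rfl : I = ∅ := h
  rw [LinearMap.sub_apply, zw4_U_single, zw4_B_single, dF_single]
  induction l with
  | nil => exact (sub_self _).symm
  | cons a l ih =>
    rw [zw4_u, zw4_b, df, ih, map_sub, LawfulSingleton.insert_empty_eq]
    abel

theorem zw4_dU {z : FC F q} (hz : z ∈ Finsupp.supported F F {z | z.1 = ∅}) :
    dF (zw4_U z) = -zw4_U (zw4_B z) := by
  rw [zw4_U_eq hz, zw4_U_eq (zw4_B_mem z), map_sub, zw4_dd, zw4_BB]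
  abel

theorem zw4_B_sF (z : FC F q) : zw4_B (sF z) = sF (zw4_B z) := by
  refine zw4_ext (zw4_B ∘ₗ sF) (sF ∘ₗ zw4_B) (fun I l => ?_) z
  rw [LinearMap.comp_apply, LinearMap.comp_apply, zw4_sF, zw4_B_single, zw4_B_single]
  induction l with
  | nil => exact (map_zero _).symm
  | cons a l ih =>
    simp only [List.map_cons, zw4_b, map_sub, zw4_sF, zw4_sF_pre, ih, Finset.image_empty]

theorem zw4_U_sF (z : FC F q) : zw4_U (sF z) = sF (zw4_U z) := by
  refine zw4_ext (zw4_U ∘ₗ sF) (sF ∘ₗ zw4_U) (fun I l => ?_) z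
  rw [LinearMap.comp_apply, LinearMap.comp_apply, zw4_sF, zw4_U_single, zw4_U_single]
  induction l with
  | nil => exact (map_zero _).symm
  | cons a l ih =>
    simp only [List.map_cons, zw4_u, map_sub, zw4_sF, zw4_sF_pre, ih, Finset.image_singleton]

theorem zw4_T (L : FC F q →ₗ[F] FC F q) (h : ∀ z, L (sF z) = sF (L z)) (j : ℕ) (z : FC F q) :
    L ((GF F q).T j z) = (GF F q).T j (L z) := by
  by_cases hj : Even j
  · rw [zg1_even _ hj, zg1_even _ hj, map_sub]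
    exact congrArg (· - L z) (h z)
  · rw [zg1_odd _ hj, zg1_odd _ hj, map_sum]
    have key : ∀ k : ℕ, L (((GF F q).s ^ k) z) = ((GF F q).s ^ k) (L z) := fun k => by
      induction k with
      | zero => rfl
      | succ k ih =>
        rw [pow_succ', Module.End.mul_apply, Module.End.mul_apply, ← ih]
        exact h _
    exact Finset.sum_congr rfl fun i _ => key i

/-- the standard cycles of the bar complex -/
noncomputable def zw4_t : ℕ → FC F q
  | 0 => Finsupp.single (∅, [0]) 1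
  | j + 1 => pre 0 ((GF F q).T j (zw4_t j))

theorem zw4_T_supp (j k : ℕ) {z : FC F q}
    (hz : z ∈ Finsupp.supported F F {z | z.1 = ∅ ∧ z.2.length = k}) :
    (GF F q).T j z ∈ Finsupp.supported F F {z | z.1 = ∅ ∧ z.2.length = k} := by
  refine zg1_T_mem _ (fun c hc => zw4_mem sF (fun I l h => ?_) hc) j hz
  obtain rfl : I = ∅ := h.1
  rw [zw4_sF]
  exact Finsupp.single_mem_supported F _ ⟨Finset.image_empty _, (List.length_map _).trans h.2⟩

theorem zw4_t_supp (j : ℕ) :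
    zw4_t (F := F) (q := q) j ∈ Finsupp.supported F F {z | z.1 = ∅ ∧ z.2.length = j + 1} := by
  induction j with
  | zero => exact Finsupp.single_mem_supported F _ ⟨rfl, rfl⟩
  | succ j ih =>
    refine zw4_mem (pre 0) (fun I l h => ?_) (zw4_T_supp j _ ih)
    rw [zw4_pre]
    exact Finsupp.single_mem_supported F _ ⟨h.1, congrArg (· + 1) h.2⟩

theorem zw4_B_t' (j : ℕ) (h : (GF F q).T j (zw4_B (zw4_t j)) = 0) :
    zw4_B (zw4_t (j + 1)) = (GF F q).T j (zw4_t j) := by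
  rw [zw4_t, zw4_B_pre 0 (Finsupp.supported_mono (fun z hz => hz.1)
    (zw4_T_supp j _ (zw4_t_supp j))), zw4_T _ zw4_B_sF, h, map_zero, sub_zero]

theorem zw4_B_t (j : ℕ) : zw4_B (zw4_t (j + 1)) = (GF F q).T j (zw4_t j) := by
  refine zw4_B_t' j ?_
  induction j with
  | zero =>
    rw [zw4_t, zw4_B_single, zw4_b, zw4_b, map_zero, sub_zero, zg1_even _ Even.zero]
    exact sub_eq_zero.mpr (zw4_sF _ _)
  | succ j ih => rw [zw4_B_t' j ih, GC.T_T]

theorem exists_low0 : ∃ l : ℕ → FC F q, l 0 = Finsupp.single ({0}, []) 1 ∧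
    (∀ j, l j ∈ Finsupp.supported F F {z | z.1.card = 1 ∧ z.2.length = j}) ∧
    ∀ j, dF (l (j + 1)) = (GF F q).T j (l j) := by
  refine ⟨fun j => (-1 : F) ^ j • zw4_U (zw4_t j), ?_, fun j => Submodule.smul_mem _ _ ?_,
    fun j => ?_⟩
  · show (-1 : F) ^ 0 • zw4_U (zw4_t 0) = _
    rw [pow_zero, one_smul, zw4_t, zw4_U_single, zw4_u, zw4_u, map_zero, sub_zero]
  · refine zw4_mem (P := FC F q) (zw4_U (F := F) (q := q)) (fun I l h => ?_) (zw4_t_supp j)
    rw [zw4_U_single]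
    refine Finsupp.supported_mono ?_ (zw4_u_supp (F := F) l)
    exact fun z hz => And.intro hz.1 (Nat.succ_injective (hz.2.trans h.2))
  · show dF ((-1 : F) ^ (j + 1) • zw4_U (zw4_t (j + 1))) =
      (GF F q).T j ((-1 : F) ^ j • zw4_U (zw4_t j))
    rw [map_smul, map_smul,
      zw4_dU (Finsupp.supported_mono (fun z hz => hz.1) (zw4_t_supp (j + 1))), zw4_B_t,
      zw4_T _ zw4_U_sF, pow_succ, mul_neg_one, neg_smul_neg]

/-- adding a set of cuts -/
noncomputable def zw4_S (S : Finset (ZMod q)) : FC F q →ₗ[F] FC F q :=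
  Finsupp.lmapDomain F F fun z => (S ∪ z.1, z.2)

theorem zw4_S_single (S I : Finset (ZMod q)) (l : List (ZMod q)) :
    zw4_S S (Finsupp.single (I, l) (1 : F)) = Finsupp.single (S ∪ I, l) 1 :=
  Finsupp.mapDomain_single

theorem zw4_key (k : ℕ) {c : FC F q} (hA : c ∈ AF F q)
    (hk : c ∈ Finsupp.supported F F {z | z.2.length = k}) (hd : dF c ∈ BF F q)
    (S : Finset (ZMod q)) : dF (zw4_S S c) ∈ BF F q ∧ ∃ h ∈ AF F q,
      h ∈ Finsupp.supported F F {z | z.2.length = k + 1} ∧ c - zw4_S S c - dF h ∈ BF F q := by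
  induction S using Finset.induction_on with
  | empty =>
    have e : zw4_S ∅ c = c := zw4_ext (zw4_S ∅) LinearMap.id (fun I l => by
      rw [zw4_S_single, Finset.empty_union, LinearMap.id_apply]) c
    rw [e]
    exact ⟨hd, 0, Submodule.zero_mem _, Submodule.zero_mem _, by
      rw [map_zero, sub_self, sub_self]; exact Submodule.zero_mem _⟩
  | insert a S _ ih =>
    obtain ⟨h1, h, h2, h3, h4⟩ := ih
    have e : zw4_S (insert a S) c = ins a (zw4_S S c) :=
      zw4_ext (zw4_S (insert a S)) (ins a ∘ₗ zw4_S S) (fun I l => by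
        rw [LinearMap.comp_apply, zw4_S_single, zw4_S_single, zw4_ins, Finset.insert_union]) c
    rw [e, dF_ins]
    refine ⟨zw4_mem (ins a) (fun I l hz => ?_) h1, h + pre a (zw4_S S c),
      Submodule.add_mem _ h2 (zw4_mem (pre a ∘ₗ zw4_S S) (fun I l hz => ?_) hA),
      Submodule.add_mem _ h3 (zw4_mem (pre a ∘ₗ zw4_S S) (fun I l hz => ?_) hk), ?_⟩
    · obtain rfl : I = Finset.univ := hz.1
      rw [zw4_ins]
      exact Finsupp.single_mem_supported F _ ⟨Finset.insert_eq_of_mem (Finset.mem_univ a), hz.2⟩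
    · rw [LinearMap.comp_apply, zw4_S_single, zw4_pre]
      exact Finsupp.single_mem_supported F _ (Finset.Nonempty.mono Finset.subset_union_right hz)
    · rw [LinearMap.comp_apply, zw4_S_single, zw4_pre]
      exact Finsupp.single_mem_supported F _ (congrArg (· + 1) hz)
    · have h5 : pre a (dF (zw4_S S c)) ∈ BF F q := by
        refine zw4_mem (pre a) (fun I l hz => ?_) h1
        rw [zw4_pre]
        exact Finsupp.single_mem_supported F _ ⟨hz.1, List.cons_ne_nil _ _⟩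
      exact zg1_of_eq (Submodule.add_mem _ h4 h5) (by rw [map_add, dF_pre]; abel)

theorem exists_low (r : ℕ) : ∃ l h : ℕ → FC F q,
    (∀ j, l j ∈ Finsupp.supported F F {z | z.1.card = 1 ∧ z.2.length = j}) ∧ dF (l 0) = 0 ∧
    (∀ j, dF (l (j + 1)) = (GF F q).T j (l j)) ∧
    (∀ j ≤ r, h j ∈ Finsupp.supported F F {z | z.1.Nonempty ∧ z.2.length = j + 1}) ∧
    (GF F q).NulBy (AF F q) (BF F q) r
      (fun j => sq 0 (Finsupp.single (Finset.univ, []) 1) j - l j) h := by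
  obtain ⟨l, l0, l1, l2⟩ := exists_low0 (F := F) (q := q)
  have d0 : dF (l 0) = 0 := by rw [l0, dF_single]; rfl
  have lA : ∀ j, l j ∈ AF F q := fun j =>
    Finsupp.supported_mono (fun z hz => Finset.card_pos.mp (by rw [hz.1]; exact one_pos)) (l1 j)
  have hH : (GF F q).Gr fun k => Finsupp.supported F F {z | z.2.length = k} := by
    refine ⟨fun k c hc => zw4_mem dF (fun I m h => ?_) hc,
      fun k c hc => zw4_mem sF (fun I m h => ?_) hc⟩
    · rw [dF_single]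
      exact Finsupp.supported_mono (fun z hz => Nat.succ_injective (hz.2.trans h)) (df_supp I m)
    · rw [zw4_sF]
      exact Finsupp.single_mem_supported F _ ((List.length_map _).trans h)
  refine (GC.nul_of_van (G := GF F q) hH AF_st zw4_BF_st (D := 0) (R := r)
    (x := fun j => sq 0 (Finsupp.single (Finset.univ, []) 1) j - l j) ?_ ?_ ?_ ?_).elim
      fun h hh => ?_
  rotate_right
  · obtain ⟨h1, h2⟩ := hh
    refine ⟨l, h, l1, d0, l2, fun j hj => ?_, h1⟩
    have h3 := h2 j hj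
    rw [zero_add] at h3
    exact (Finsupp.mem_supported F _).mpr fun z hz =>
      ⟨(Finsupp.mem_supported F _).mp (h1.1 j hj) hz, (Finsupp.mem_supported F _).mp h3 hz⟩
  · refine ⟨fun j _ => Submodule.sub_mem _ (zg1_sq (S := fun c => c ∈ AF F q) 0 j
      (Finsupp.single_mem_supported F _ Finset.univ_nonempty) (Submodule.zero_mem _)) (lA j), ?_,
      fun j _ => ?_⟩
    · show dF (Finsupp.single (Finset.univ, []) 1 - l 0) ∈ BF F q
      rw [map_sub, d0, dF_single, zw4_df_univ, sub_zero]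
      exact Submodule.zero_mem _
    · have e : (GF F q).T j (sq 0 (Finsupp.single (Finset.univ, []) 1) j) = 0 := by
        rcases j with _ | j
        · rw [zg1_even _ Even.zero, sub_eq_zero]
          exact (zw4_sF _ _).trans (by rw [zw4_image]; rfl)
        · exact map_zero _
      show dF (0 - l (j + 1)) - (GF F q).T j (sq 0 (Finsupp.single (Finset.univ, []) 1) j - l j) ∈
        BF F q
      rw [map_sub, map_sub, e, l2, map_zero, sub_self]
      exact Submodule.zero_mem _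
  · intro j _
    rw [zero_add]
    refine Submodule.sub_mem _ ?_ (Finsupp.supported_mono (fun z hz => hz.2) (l1 j))
    rcases j with _ | j
    · exact Finsupp.single_mem_supported F _ rfl
    · exact Submodule.zero_mem _
  · obtain ⟨-, h, h1, h2, h3⟩ := zw4_key 0 (lA 0)
      (Finsupp.supported_mono (fun z hz => hz.2) (l1 0)) (by rw [d0]; exact Submodule.zero_mem _)
      Finset.univ
    refine ⟨-h, Submodule.neg_mem _ h1, Submodule.neg_mem _ h2, ?_⟩
    have e : zw4_S Finset.univ (l 0) = Finsupp.single (Finset.univ, []) 1 := by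
      rw [l0, zw4_S_single, Finset.union_eq_left.mpr (Finset.subset_univ _)]
    rw [e] at h3
    show Finsupp.single (Finset.univ, []) 1 - l 0 - dF (-h) ∈ BF F q
    exact zg1_of_eq (Submodule.neg_mem _ h3) (by rw [map_neg]; abel)
  · intro j hj _ c hc hk hd
    obtain ⟨-, h, h1, h2, h3⟩ := zw4_key (0 + j) hc hk hd Finset.univ
    refine ⟨h, h1, h2, ?_⟩
    have h4 : zw4_S Finset.univ c ∈ BF F q := by
      refine zw4_mem (zw4_S Finset.univ) (fun I m hz => ?_) hk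
      rw [zw4_S_single]
      refine Finsupp.single_mem_supported F _
        ⟨Finset.union_eq_left.mpr (Finset.subset_univ _), fun e => ?_⟩
      have h5 : m.length = 0 + j := hz
      obtain rfl : m = [] := e
      rw [List.length_nil] at h5
      omega
    show c - dF h ∈ BF F q
    exact zg1_of_eq (Submodule.add_mem _ h3 h4) (by abel)

end Pool.Agent.Fu
end

-- part Pool.Agent.P.MP_365c00_gt.ZY0
section

/-! Spaces of tuples of paths: definitions. -/

set_option linter.unusedSectionVars false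
set_option linter.unusedVariables false

open Set Topology Filter Metric

namespace Pool.Agent.Fu

variable {F : Type} [Field F] {M : Type} [MetricSpace M] {d q n : ℕ} {S : GS M} {p0 p : M}
  {δ t : ℝ}

/-- the base: a point and a vector -/
abbrev Bs (M : Type) (d : ℕ) : Type := M × (Fin d → ℝ)

/-- a base point and a path -/
abbrev Pos (M : Type) [TopologicalSpace M] (d : ℕ) : Type := Bs M d × Mo M

/-- the default value -/
def dfl (p0 : M) : Pos M d := ((p0, 0), triv p0)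

/-- the base points of a sequence -/
def bs (M : Type) [TopologicalSpace M] (d : ℕ) : C(ℕ → Pos M d, ℕ → Bs M d) :=
  ⟨fun y i => (y i).1, by fun_prop⟩

/-- the paths of a sequence -/
def pth (y : ℕ → Pos M d) (i : ℕ) : Mo M := (y i).2

/-- base points near the diagonal -/
def Nr (n : ℕ) (r : ℝ) : Set (ℕ → Bs M d) :=
  {c | (∀ i ≤ n, ‖(c i).2‖ < r) ∧ ∀ i ≤ n, ∀ j ≤ n, dist (c i).1 (c j).1 < r}

/-- the closed version -/
def NrC (n : ℕ) (r : ℝ) : Set (ℕ → Bs M d) :=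
  {c | (∀ i ≤ n, ‖(c i).2‖ ≤ r) ∧ ∀ i ≤ n, ∀ j ≤ n, dist (c i).1 (c j).1 ≤ r}

/-- sequences with the default tail -/
def Tl (p0 : M) (n : ℕ) : Set (ℕ → Bs M d) := {c | ∀ i, n < i → c i = (p0, 0)}

/-- the compact core of the base -/
def CB (p0 : M) (δ : ℝ) (n : ℕ) : Set (ℕ → Bs M d) := NrC n (δ / 2) ∩ Tl p0 n

/-- the part of the base near the point `p` -/
def Up (δ : ℝ) (n : ℕ) (p : M) : Set (ℕ → Bs M d) :=
  Nr n δ ∩ {c | ∀ i ≤ n, dist (c i).1 p < 2 * δ}

/-- the same with the default tail -/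
def Dm (p0 : M) (δ : ℝ) (n : ℕ) (p : M) : Set (ℕ → Bs M d) := Tl p0 n ∩ Up δ n p

/-- base points that differ from `c` -/
def OfB (n : ℕ) (c : ℕ → Bs M d) : Set (ℕ → Bs M d) := {c' | ∃ i ≤ n, c' i ≠ c i}

/-- base points close to `c` -/
def Sp (p0 : M) (δ : ℝ) (n : ℕ) (c : ℕ → Bs M d) : Set (ℕ → Bs M d) :=
  Tl p0 n ∩ {c' | ∀ i ≤ n, dist (c' i) (c i) < δ / 8}

/-- far from the diagonal -/
def far (δ : ℝ) (n : ℕ) : Set (ℕ → Pos M d) := {y | bs M d y ∉ NrC n (δ / 2)}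

/-- sequences of `n + 1` paths -/
def Yt (p0 : M) (δ : ℝ) (n : ℕ) : Set (ℕ → Pos M d) :=
  {y | (∀ i, n < i → y i = dfl p0) ∧
    (bs M d y ∈ Nr n δ → pth y ∈ Tup n δ δ (y 0).1.1 (y n).1.1)}

/-- the filtration by the total duration -/
def Ys (p0 : M) (δ : ℝ) (n : ℕ) (t : ℝ) : Set (ℕ → Pos M d) :=
  {y | y ∈ Yt p0 δ n ∧ (bs M d y ∈ Nr n δ → tot n (pth y) < t)}

/-- sequences that do not lie over `c` -/
def Of (n : ℕ) (c : ℕ → Bs M d) : Set (ℕ → Pos M d) := {y | bs M d y ∈ OfB n c}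

variable (F) in
/-- chains that are null over `c` -/
noncomputable def Mc (p0 : M) (δ : ℝ) (n : ℕ) (c : ℕ → Bs M d) :
    Submodule F (Ch F (ℕ → Pos M d)) := NN F (Yt p0 δ n) (Yt p0 δ n ∩ Of n c)

/-- the local trivialisation -/
noncomputable def Gn (S : GS M) (p0 : M) (n : ℕ) (z : (ℕ → Bs M d) × Mo M) (i : ℕ) : Pos M d :=
  if i ≤ n then (z.1 i, cut n (S.wh (z.1 0).1 (z.1 n).1 z.2) i) else dfl p0

/-- a base point as a sequence -/
def one (p0 : M) (d : ℕ) : C(Bs M d, ℕ → Bs M d) :=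
  ⟨fun b i => if i = 0 then b else (p0, 0), continuous_pi fun i => by
    split_ifs <;> fun_prop⟩

/-- the product of the local orientation classes -/
noncomputable def oB (p0 : M) (o : Bs M d → Ch F (Bs M d)) :
    ℕ → (ℕ → Bs M d) → Ch F (ℕ → Bs M d)
  | 0, c => map (one p0 d) (o (c 0))
  | n + 1, c => mu (n + 1) (oB p0 o n c) (map (one p0 d) (o (c (n + 1))))

/-- the local class with the fibre `w` -/
noncomputable def Gw (S : GS M) (p0 : M) (o : Bs M d → Ch F (Bs M d)) (n : ℕ) (c : ℕ → Bs M d)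
    (w : Ch F (Mo M)) : Ch F (ℕ → Pos M d) := mp (Gn S p0 n) (cross (oB p0 o n c) w)

/-- the product of the local classes -/
noncomputable def Bt (S : GS M) (p0 : M) (o : Bs M d → Ch F (Bs M d)) (x : M → Ch F (Mo M)) :
    ℕ → (ℕ → Bs M d) → Ch F (ℕ → Pos M d)
  | 0, c => Gw S p0 o 0 c (x (c 0).1)
  | n + 1, c => mu (n + 1) (Bt S p0 o x n c) (Gw S p0 o 0 (fun _ => c (n + 1)) (x (c (n + 1)).1))

/-- chains with the right local classes -/
def Rn (S : GS M) (p0 : M) (δ : ℝ) (o : Bs M d → Ch F (Bs M d)) (x : M → Ch F (Mo M)) (n : ℕ)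
    (z : Ch F (ℕ → Pos M d)) : Prop :=
  ∀ c ∈ NrC n (δ / 2), z - Bt S p0 o x n c ∈ Mc F p0 δ n c

/-- the hypotheses on the scale and on the orientation -/
structure YH (S : GS M) (δ : ℝ) (O : OR F (d + d) (Bs M d)) : Prop where
  pos : 0 < δ
  le : 16 * δ ≤ S.a
  sm : ∀ b, O.o b ∈ CC F (ball b (δ / 8))
  euc : ∀ p : M, Euc d (ball p (2 * δ))
  rad : ∀ p : M, ∃ z ∈ ZZ F univ (ball ((p, 0) : Bs M d) δ)ᶜ, z ∈ HD F _ (d + d) ∧
    ∀ c ∈ ball ((p, 0) : Bs M d) δ, z - O.o c ∈ NN F univ (univ \ {c})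

/-- cyclic base points near the diagonal -/
def NrZ (q : ℕ) (r : ℝ) : Set (ZMod q → Bs M d) :=
  {c | (∀ i, ‖(c i).2‖ < r) ∧ ∀ i j, dist (c i).1 (c j).1 < r}

/-- the closed version -/
def NrZC (q : ℕ) (r : ℝ) : Set (ZMod q → Bs M d) :=
  {c | (∀ i, ‖(c i).2‖ ≤ r) ∧ ∀ i j, dist (c i).1 (c j).1 ≤ r}

/-- cyclic tuples of paths -/
def Zt (q : ℕ) (δ : ℝ) : Set (ZMod q → Pos M d) :=
  {x | (fun i => (x i).1) ∈ NrZ q δ →
    ∀ i, IsP (x i).2 ∧ dist (en (x i).2) (st (x (i + 1)).2) < 2 * δ}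

/-- the filtration by the total duration -/
def Zs (q : ℕ) [NeZero q] (δ t : ℝ) : Set (ZMod q → Pos M d) :=
  {x | x ∈ Zt q δ ∧ ((fun i => (x i).1) ∈ NrZ q δ → ∑ i, (x i).2.2 < t)}

/-- far from the diagonal -/
def farZ (q : ℕ) (δ : ℝ) : Set (ZMod q → Pos M d) := {x | (fun i => (x i).1) ∉ NrZC q (δ / 2)}

/-- the base points and the first start point -/
def xiZ (M : Type) [MetricSpace M] (d q : ℕ) : C(ZMod q → Pos M d, (ZMod q → Bs M d) × M) :=
  ⟨fun x => (fun i => (x i).1, st (x 0).2), by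
    refine Continuous.prodMk (by fun_prop) (st_cont.comp (by fun_prop))⟩

/-- the part of the cyclic base near `p` and `m` -/
def UpZ (q : ℕ) (δ : ℝ) (p m : M) : Set ((ZMod q → Bs M d) × M) :=
  {z | z.1 ∈ NrZ q δ ∧ (∀ i, dist (z.1 i).1 p < 2 * δ) ∧ dist z.2 m < δ}

/-- the cyclic local trivialisation -/
noncomputable def GZ (S : GS M) (q : ℕ) (z : ((ZMod q → Bs M d) × M) × Mo M) (i : ZMod q) :
    Pos M d := (z.1.1 i, cut (q - 1) (S.wh z.1.2 z.1.2 z.2) i.val)

/-- almost closed paths at the base point -/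
def A0 (δ : ℝ) : Set (Pos M d) :=
  {y | ‖y.1.2‖ < δ → IsP y.2 ∧ st y.2 = y.1.1 ∧ dist (en y.2) y.1.1 < δ}

/-- moving a loop to the base point -/
noncomputable def Gb (S : GS M) (z : Pos M d) : Pos M d := (z.1, S.wh z.1.1 z.1.1 z.2)

/-- cyclic tuples near the point `p` -/
def UZ (q : ℕ) (δ : ℝ) (p : M) : Set (ZMod q → Pos M d) :=
  {x | (fun i => (x i).1) ∈ NrZ q δ ∧ ∀ i, dist (st (x i).2) p < δ}

/-- cyclic tuples off the fixed configurations at `p` -/
def WZ (q : ℕ) (p : M) : Set (ZMod q → Pos M d) :=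
  {x | (∃ i, (x i).1.2 ≠ 0 ∨ st (x i).2 ≠ p) ∨ ∃ i j, (x i).1.1 ≠ (x j).1.1}

end Pool.Agent.Fu
end

-- part Pool.Agent.P.MP_365c00_gt.ZD1b
section

/-! Cyclic products of several chains. -/

set_option linter.unusedSectionVars false
set_option linter.unusedVariables false

open Set Topology

namespace Pool.Agent.Fu

variable {F : Type} [Field F] {X Y : Type} [TopologicalSpace X] [TopologicalSpace Y] {q : ℕ}

variable {n : ℕ} {b b' : ℕ → Ch F X}

variable [NeZero q]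

theorem zd1b_q : q - 1 + 1 = q := Nat.sub_add_cancel (Nat.one_le_iff_ne_zero.2 (NeZero.ne q))

theorem zd1b_lt {i : ℕ} (hi : i ≤ q - 1) : i < q := by
  have := zd1b_q (q := q)
  omega

theorem cpr_congr (h : ∀ i < q, b i = b' i) : cpr q b = cpr q b' :=
  congrArg (map (cyc X 0)) (tpr_congr fun i hi => h i (zd1b_lt hi))

theorem cpr_CC {A : ZMod q → Set X} (h : ∀ i < q, b i ∈ CC F (A (i : ZMod q))) :
    cpr q b ∈ CC F (Set.pi univ A) := by
  refine map_mem_CC ?_ (tpr_CC (A := fun i => A (i : ZMod q)) fun i hi => h i (zd1b_lt hi))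
  intro y hy c _
  show y (c - 0).val ∈ A c
  have h1 := hy.1 c.val (by have := ZMod.val_lt c; omega)
  rw [ZMod.natCast_zmod_val] at h1
  rwa [sub_zero]

theorem cpr_HD {k : ℕ} (h : ∀ i < q, b i ∈ HD F X k) : cpr q b ∈ HD F _ (q * k) := by
  have h1 := tpr_HD (k := fun _ => k) (n := q - 1) fun i hi => h i (zd1b_lt hi)
  rw [Finset.sum_const, Finset.card_range, zd1b_q, smul_eq_mul] at h1
  exact map_mem_HD _ h1

theorem bd_cpr (b : ℕ → Ch F X) : bd (cpr q b) = ∑ i ∈ Finset.range q,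
    cpr q fun j => if j < i then om (b j) else if j = i then bd (b j) else b j := by
  unfold cpr
  rw [bd_map, bd_tpr, map_sum, zd1b_q]

theorem zd1b_one {A A' : Set X} {i : ℕ} (hi : i < q) (h : ∀ j < q, b j ∈ CC F A)
    (h' : b i ∈ CC F A') :
    cpr q b ∈ CC F {x : ZMod q → X | (∀ c, x c ∈ A) ∧ ∃ c, x c ∈ A'} := by
  classical
  refine CC_mono ?_ (cpr_CC (A := fun c => if c = (i : ZMod q) then A ∩ A' else A) ?_)
  · intro x hx
    refine ⟨fun c => ?_, (i : ZMod q), ?_⟩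
    · have := hx c (mem_univ _)
      by_cases hc : c = (i : ZMod q)
      · simp only [if_pos hc] at this
        exact this.1
      · simpa only [if_neg hc] using this
    · have := hx (i : ZMod q) (mem_univ _)
      simp only [if_true] at this
      exact this.2
  · intro j hj
    by_cases hc : (j : ZMod q) = (i : ZMod q)
    · have e : j = i := by
        have := congrArg ZMod.val hc
        rwa [ZMod.val_cast_of_lt hj, ZMod.val_cast_of_lt hi] at this
      simp only [if_pos hc]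
      rw [CC_inter]
      exact ⟨h j hj, e ▸ h'⟩
    · simp only [if_neg hc]
      exact h j hj

theorem cpr_ZZ {A A' : Set X} (h : ∀ i < q, b i ∈ ZZ F A A') :
    cpr q b ∈ ZZ F {x : ZMod q → X | ∀ c, x c ∈ A} {x | (∀ c, x c ∈ A) ∧ ∃ c, x c ∈ A'} := by
  refine mem_ZZ.2 ⟨CC_mono (A := Set.pi univ fun _ => A) (fun x hx c => hx c (mem_univ _))
    (cpr_CC (A := fun _ => A) fun i hi => (mem_ZZ.1 (h i hi)).1), ?_⟩
  rw [bd_cpr]
  refine Submodule.sum_mem _ fun i hi => ?_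
  have hi' := Finset.mem_range.1 hi
  refine zd1b_one hi' (fun j hj => ?_) ?_
  · have h1 := (mem_ZZ.1 (h j hj)).1
    split_ifs
    · exact om_mem_CC h1
    · exact bd_mem_CC h1
    · exact h1
  · simp only [lt_irrefl, if_false, if_true]
    exact (mem_ZZ.1 (h i hi')).2

theorem cpr_sub_CC {A A' : Set X} (h : ∀ i < q, b i ∈ CC F A) (h' : ∀ i < q, b' i ∈ CC F A)
    (hs : ∀ i < q, b i - b' i ∈ CC F A') :
    cpr q b - cpr q b' ∈ CC F {x : ZMod q → X | (∀ c, x c ∈ A) ∧ ∃ c, x c ∈ A'} := by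
  have e : cpr q b - cpr q b' = ∑ i ∈ Finset.range q,
      cpr q fun j => if j < i then b' j else if j = i then b j - b' j else b j := by
    unfold cpr
    rw [← map_sub, tpr_sub, map_sum, zd1b_q]
  rw [e]
  refine Submodule.sum_mem _ fun i hi => ?_
  have hi' := Finset.mem_range.1 hi
  refine zd1b_one hi' (fun j hj => ?_) ?_
  · split_ifs
    · exact h' j hj
    · exact Submodule.sub_mem _ (h j hj) (h' j hj)
    · exact h j hj
  · simp only [lt_irrefl, if_false, if_true]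
    exact hs i hi'

theorem cpr_map (f : C(X, Y)) (b : ℕ → Ch F X) :
    map (⟨fun x c => f (x c), by fun_prop⟩ : C(ZMod q → X, ZMod q → Y)) (cpr q b) =
      cpr q fun i => map f (b i) := by
  unfold cpr
  rw [← tpr_map, map_map, map_map]
  rfl

theorem cpr_mp {f : X → Y} {A : Set X} (hf : ContinuousOn f A) (h : ∀ i < q, b i ∈ CC F A) :
    mp (fun (x : ZMod q → X) (c : ZMod q) => f (x c)) (cpr q b) = cpr q fun i => mp f (b i) := by
  have e : ∀ i < q, b i = map (incl A) (res A (b i)) := fun i hi => by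
    rw [map_incl_res, mem_CC.1 (h i hi)]
  have hc : ContinuousOn (fun (x : ZMod q → X) (c : ZMod q) => f (x c)) {x | ∀ c, x c ∈ A} :=
    continuousOn_pi.2 fun c => hf.comp (continuous_apply c).continuousOn fun x hx => hx c
  rw [cpr_congr e, ← cpr_map, mp_map _ _ hc (CC_mono (fun x _ c => (x c).2) (mem_CC_univ _))]
  refine ((mp_coe (⟨fun x c => (⟨A.domRestrict f, hf.domRestrict⟩ : C(A, Y)) (x c), by fun_prop⟩ :
    C(ZMod q → A, ZMod q → Y)) _).trans (cpr_map _ _)).trans (cpr_congr fun i hi => ?_)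
  rw [← zc6_incl hf, ← e i hi]

/-- the product as a linear function of one factor -/
noncomputable def zd1b_lin (n i : ℕ) (b : ℕ → Ch F X) (hi : i ≤ n) : Ch F X →ₗ[F] Ch F (ℕ → X) where
  toFun x := tpr n (Function.update b i x)
  map_add' x y := tpr_update_add n i b hi x y
  map_smul' r x := tpr_update_smul n i b hi r x

theorem PS_mem {U : Set Y} {A : ZMod q → Set X} {a : Ch F Y} (ha : a ∈ CC F U)
    (h : ∀ i < q, b i ∈ CC F (A (i : ZMod q))) : cross a (cpr q b) ∈ PS F U A := by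
  have key : ∀ (m : ℕ) (b : ℕ → Ch F X), (∀ i < q, b i ∈ CC F (A (i : ZMod q))) →
      (∀ i < q, m ≤ i → ∃ k, b i ∈ HD F X k) → cross a (cpr q b) ∈ PS F U A := by
    intro m
    induction m with
    | zero =>
      intro b h1 h2
      exact Submodule.subset_span ⟨a, ha, b, fun i hi => ⟨h1 i hi, h2 i hi (Nat.zero_le _)⟩, rfl⟩
    | succ m ih =>
      intro b h1 h2
      by_cases hm : m < q
      · have hm' : m ≤ q - 1 := by omega
        have h3 := mem_of_dg (cross a ∘ₗ map (cyc X (0 : ZMod q)) ∘ₗ zd1b_lin (q - 1) m b hm')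
          (PS F U A) (c := b m) fun k => ih (Function.update b m (dg k (b m))) (fun i hi => by
            by_cases e : i = m
            · subst e
              rw [Function.update_self]
              exact dg_mem_CC k (h1 i hi)
            · rw [Function.update_of_ne e]
              exact h1 i hi) (fun i hi hmi => by
            by_cases e : i = m
            · subst e
              rw [Function.update_self]
              exact ⟨k, dg_mem_HD k _⟩
            · rw [Function.update_of_ne e]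
              exact h2 i hi (by omega))
        have e : cpr q b = cpr q (Function.update b m (b m)) := by rw [Function.update_eq_self]
        rw [e]
        exact h3
      · exact ih b h1 fun i hi hmi => absurd hi (by omega)
  exact key q b h fun i hi hqi => absurd hi (by omega)

theorem PS_le (U : Set Y) (A : ZMod q → Set X) : PS F U A ≤ CC F (U ×ˢ Set.pi univ A) := by
  refine Submodule.span_le.2 ?_
  rintro _ ⟨a, ha, b, hb, rfl⟩
  exact cross_mem_CC ha (cpr_CC fun i hi => (hb i hi).1)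

theorem zd1b_xi (l : Ch F X →ₗ[F] F) (n : ℕ) : ∃ L : Ch F (ℕ → X) →ₗ[F] F,
    ∀ b : ℕ → Ch F X, L (tpr n b) = ∏ i ∈ Finset.range (n + 1), l (b i) := by
  induction n with
  | zero =>
    refine ⟨l ∘ₗ map (ev0 X), fun b => ?_⟩
    have e : (ev0 X).comp (csC X) = ContinuousMap.id X := rfl
    rw [tpr, LinearMap.comp_apply, map_map, e, map_id', zero_add, Finset.prod_range_one]
  | succ n ih =>
    obtain ⟨L, hL⟩ := ih
    let σ : C(ℕ → X, X × (ℕ → X)) := ⟨fun y => (y 0, fun i => y (i + 1)), by fun_prop⟩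
    refine ⟨L ∘ₗ sl l ∘ₗ map σ, fun b => ?_⟩
    have e : (σ.comp (appC X 1)).comp ((csC X).prodMap (ContinuousMap.id (ℕ → X))) =
        ContinuousMap.id _ := by
      refine ContinuousMap.ext fun z => Prod.ext rfl (funext fun i => ?_)
      show app 1 (csC X z.1, z.2) (i + 1) = z.2 i
      unfold app
      rw [if_neg (by omega)]
      rfl
    rw [tpr, LinearMap.comp_apply, LinearMap.comp_apply, mu_apply, cross_map_left, map_map,
      map_map, e, map_id', sl_cross, map_smul, hL, Finset.prod_range_succ' _ (n + 1), smul_eq_mul,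
      mul_comm]

theorem exists_Xi (l : Ch F X →ₗ[F] F) : ∃ L : Ch F (ZMod q → X) →ₗ[F] F,
    ∀ b : ℕ → Ch F X, L (cpr q b) = ∏ i ∈ Finset.range q, l (b i) := by
  obtain ⟨L, hL⟩ := zd1b_xi l (q - 1)
  let u : C(ZMod q → X, ℕ → X) := ⟨fun x i => x ((min i (q - 1) : ℕ) : ZMod q), by fun_prop⟩
  refine ⟨L ∘ₗ map u, fun b => ?_⟩
  have h1 := tpr_CC (n := q - 1) (b := b) (A := fun _ => univ) fun i _ => mem_CC_univ _
  have h2 : map (u.comp (cyc X (0 : ZMod q))) (tpr (q - 1) b) = tpr (q - 1) b := by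
    rw [← mp_coe]
    refine mp_eq_self (fun y hy => funext fun i => ?_) h1
    show y (((min i (q - 1) : ℕ) : ZMod q) - 0).val = y i
    rw [sub_zero, ZMod.val_cast_of_lt (zd1b_lt (min_le_right _ _))]
    rcases le_total i (q - 1) with h | h
    · rw [min_eq_left h]
    · rw [min_eq_right h, hy.2 i h]
  rw [LinearMap.comp_apply, cpr, map_map, h2, hL, zd1b_q]

end Pool.Agent.Fu
end

-- part Pool.Agent.P.MP_365c00_gt.ZD5
section

/-! Nilpotence over the free part. -/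

set_option linter.unusedSectionVars false
set_option linter.unusedVariables false

open Set Topology

namespace Pool.Agent.Fu

variable {F : Type} [Field F] {X Y : Type} [TopologicalSpace X] [TopologicalSpace Y] {q : ℕ}

theorem zd5_keep (V : Set X) {Z : Set X} {c : Ch F X} (h : c ∈ CC F Z) : prj V c ∈ CC F Z :=
  CC_mono inter_subset_right (prj_mem_inter V h)

theorem zd5_iter {s : C(X, X)} {U : ZMod q → Set X} (he : ∀ c, s ⁻¹' U (c + 1) = U c) (k : ℕ) :
    ∀ c : ZMod q, s^[k] ⁻¹' U (c + k) = U c := by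
  induction k with
  | zero => intro c; simp
  | succ k ih =>
    intro c
    rw [Function.iterate_succ', preimage_comp, Nat.cast_succ, ← add_assoc, he, ih]

theorem ind_cover [NeZero q] {s : C(X, X)} (hs : ∀ x, s^[q] x = x) {U : ZMod q → Set X}
    (hU : ∀ c, IsOpen (U c)) (hd : Pairwise (Function.onFun Disjoint U))
    (he : ∀ c, s ⁻¹' U (c + 1) = U c) {A : Set X} {B : Submodule F (Ch F X)}
    (hA : MapsTo s A A) (hB : ∀ c ∈ B, prj (U 0) c ∈ B) :
    (gc F s hs).Ind (CC F (A ∩ ⋃ c, U c)) B := by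
  refine ⟨prj (U 0), fun c hc => zd5_keep _ hc, fun c _ hc => hB c hc, fun c hc => ?_,
    fun c hc => ?_⟩
  · exact (sum_prj_disj hU hd (CC_mono inter_subset_right hc)).2 0
  · have h1 := (sum_prj_disj hU hd (CC_mono inter_subset_right hc)).1
    have h2 : ∀ i ∈ Finset.range q, ((gc F s hs).s ^ i) (prj (U 0) (((gc F s hs).s ^ (q - i)) c)) =
        prj (U (i : ZMod q)) c := by
      intro i hi
      have hi' : i ≤ q := (Finset.mem_range.1 hi).le
      have e0 : (i : ZMod q) + ((q - i : ℕ) : ZMod q) = 0 := by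
        rw [← Nat.cast_add, Nat.add_sub_cancel' hi', ZMod.natCast_self]
      have e1 : s^[q - i] ⁻¹' U 0 = U (i : ZMod q) := by
        rw [← e0]; exact zd5_iter he _ _
      have e2 : prj (U 0) (((gc F s hs).s ^ (q - i)) c) =
          ((gc F s hs).s ^ (q - i)) (prj (U (i : ZMod q)) c) := by
        show prj (U 0) (((map s : Module.End F (Ch F X)) ^ (q - i)) c) =
          ((map s : Module.End F (Ch F X)) ^ (q - i)) (prj (U (i : ZMod q)) c)
        rw [map_pow_iterate, map_pow_iterate, prj_map, ← e1]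
        rfl
      rw [e2, ← Module.End.mul_apply, ← pow_add, Nat.add_sub_cancel' hi', (gc F s hs).pow]
      rfl
    rw [Finset.sum_congr rfl h2]
    refine Eq.trans ?_ h1
    exact Finset.sum_bij' (fun i _ => (i : ZMod q)) (fun c _ => c.val) (fun _ _ => Finset.mem_univ _)
      (fun c _ => Finset.mem_range.2 (ZMod.val_lt c))
      (fun i hi => ZMod.val_cast_of_lt (Finset.mem_range.1 hi))
      (fun c _ => ZMod.natCast_zmod_val c) (fun _ _ => rfl)

theorem zd5_alg {P : Type} [AddCommGroup P] [Module F P] [CharP F q] (G : GC F q P) (m : ℕ)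
    (A : ℕ → Submodule F P) {B : Submodule F P} (hA : ∀ i, G.St (A i)) (hB : G.St B)
    (hI : ∀ i < m, G.Ind (A i) ((⨆ j < i, A j) ⊔ B)) {g : P} (hs : G.s g = g)
    (h : G.Nul ⊤ ((⨆ j < m, A j) ⊔ B) m (sq 0 g)) : ∃ a b, g - G.d a - G.T 1 b ∈ B := by
  obtain ⟨k, -, k0, k1⟩ := h
  let y : ℕ → P := fun j => Nat.casesOn j (g - G.d (k 0))
    fun j => 0 - G.d (k (j + 1)) - G.T j (k j)
  have y1 : ∀ j, G.d (y (j + 1)) = G.T j (y j) := by
    intro j
    have e1 : G.d (y (j + 1)) = - G.T j (G.d (k j)) := by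
      show G.d (0 - G.d (k (j + 1)) - G.T j (k j)) = _
      rw [map_sub, map_sub, map_zero, G.dd, G.d_T, sub_zero, zero_sub]
    rw [e1]
    rcases j with _ | j
    · show _ = G.T 0 (g - G.d (k 0))
      rw [map_sub, G.T_fix 0 hs, zero_sub]
    · show _ = G.T (j + 1) (0 - G.d (k (j + 1)) - G.T j (k j))
      rw [map_sub, map_sub, map_zero, G.T_T, sub_zero, zero_sub]
  have y2 : ∀ j, ∃ a, j ≤ m → a ∈ (⨆ j < m, A j) ∧ y j - a ∈ B := by
    intro j
    by_cases hj : j ≤ m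
    · have h1 : y j ∈ (⨆ j < m, A j) ⊔ B := by
        rcases j with _ | j
        · exact k0
        · exact k1 j hj
      obtain ⟨a, ha, b, hb, e⟩ := Submodule.mem_sup.1 h1
      exact ⟨a, fun _ => ⟨ha, by rw [← e, add_sub_cancel_left]; exact hb⟩⟩
    · exact ⟨0, fun h => absurd h hj⟩
  choose a ha using y2
  have hq : G.Seq' (⨆ j < m, A j) B m a := by
    refine ⟨fun j hj => (ha j hj).1, fun j hj => ?_⟩
    have e : G.d (a (j + 1)) - G.T j (a j) =
        G.T j (y j - a j) - G.d (y (j + 1) - a (j + 1)) := by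
      rw [map_sub, map_sub, y1]; abel
    rw [e]
    exact B.sub_mem (hB.T j (ha j hj.le).2) (hB.1 _ (ha _ hj).2)
  obtain ⟨a', -, b', -, h3⟩ := GC.nil m A hA hB hI hq
  refine ⟨k 0 + a', b', ?_⟩
  have h4 : g - G.d (k 0) - a 0 ∈ B := (ha 0 (Nat.zero_le m)).2
  have e : g - G.d (k 0 + a') - G.T 1 b' =
      (g - G.d (k 0) - a 0) + (a 0 - G.d a' - G.T 1 b') := by
    rw [map_add]; abel
  rw [e]
  exact B.add_mem h4 h3

theorem free_nil [Fact q.Prime] [CharP F q] {κ : ℕ} (lam : Fin κ → C(X, ℝ))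
    (hl : ∀ v v' : X, (∀ k, lam k v = lam k v') → v = v') {W' O : Set (ZMod q → X)}
    (hW : MapsTo (shf X q) W' W') (hO : IsOpen O) (hOi : MapsTo (shf X q) O O)
    (hfix : ∀ v : X, (fun _ => v) ∈ W' → (fun _ => v) ∈ O) {g : Ch F (ZMod q → X)}
    (hg : bd g ∈ CC F (W' ∩ O)) (hs : map (shf X q) g = g) {R : ℕ} (hR : κ * q ≤ R)
    (h : (gcy F X q).Nul ⊤ (CC F W') R (sq 0 g)) :
    ∃ a b, g - bd a - (gcy F X q).T 1 b ∈ CC F (W' ∩ O) := by
  have : NeZero q := ⟨(Fact.out : q.Prime).ne_zero⟩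
  obtain ⟨U, hU, hd, he, hc⟩ := exists_cover (q := q) lam hl
  generalize κ * q = m at hc hR
  let A : ℕ → Submodule F (Ch F (ZMod q → X)) := fun i => CC F (W' ∩ ⋃ c, U i c)
  have hA : ∀ i, (gcy F X q).St (A i) := fun i => by
    refine gc_st shf_per (hW.inter_inter fun f hf => ?_)
    obtain ⟨c, hc⟩ := mem_iUnion.1 hf
    rw [← he i c] at hc
    exact mem_iUnion.2 ⟨c + 1, hc⟩
  have hB : (gcy F X q).St (CC F (W' ∩ O)) := gc_st shf_per (hW.inter_inter hOi)
  let V : ℕ → Set (ZMod q → X) := fun j => if j < m then ⋃ c, U j c else O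
  have V1 : ∀ j < m, V j = ⋃ c, U j c := fun j hj => if_pos hj
  have V2 : ∀ j, ¬ j < m → V j = O := fun j hj => if_neg hj
  have hV : ∀ j, IsOpen (V j) := fun j => by
    by_cases hj : j < m
    · rw [V1 j hj]; exact isOpen_iUnion (hU j)
    · rw [V2 j hj]; exact hO
  have hcov : W' ⊆ ⋃ j, V j := fun f hf => by
    by_cases h0 : ∃ v, f = fun _ => v
    · obtain ⟨v, rfl⟩ := h0
      exact mem_iUnion.2 ⟨m, by rw [V2 m (lt_irrefl m)]; exact hfix v hf⟩
    · obtain ⟨i, hi, c, h1⟩ := hc f fun v hv => h0 ⟨v, hv⟩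
      exact mem_iUnion.2 ⟨i, by rw [V1 i hi]; exact mem_iUnion.2 ⟨c, h1⟩⟩
  have hS : (⨆ j, CC F (W' ∩ V j)) = (⨆ j < m, A j) ⊔ CC F (W' ∩ O) := by
    refine le_antisymm (iSup_le fun j => ?_) (sup_le (iSup₂_le fun j hj => ?_) ?_)
    · by_cases hj : j < m
      · rw [V1 j hj]
        exact le_sup_of_le_left (le_iSup₂_of_le (f := fun j (_ : j < m) => A j) j hj le_rfl)
      · rw [V2 j hj]
        exact le_sup_right
    · refine le_iSup_of_le j ?_
      rw [V1 j hj]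
    · refine le_iSup_of_le m ?_
      rw [V2 m (lt_irrefl m)]
  have hq := QI_small (F := F) hV (subset_univ W') hcov
  rw [hS, CC_univ] at hq
  have hT : (gcy F X q).St ⊤ := ⟨fun _ _ => trivial, fun _ _ => trivial⟩
  have hle : (⨆ j < m, A j) ⊔ CC F (W' ∩ O) ≤ CC F W' :=
    sup_le (iSup₂_le fun j _ => CC_mono inter_subset_left) (CC_mono inter_subset_left)
  have hE : EqMap (gcy F X q) (gcy F X q) LinearMap.id ⊤ ((⨆ j < m, A j) ⊔ CC F (W' ∩ O)) ⊤
      (CC F W') := ⟨fun _ _ => rfl, fun _ _ => rfl, fun _ _ => trivial, fun c hc => hle hc⟩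
  have hn : (gcy F X q).Nul ⊤ ((⨆ j < m, A j) ⊔ CC F (W' ∩ O)) R (sq 0 g) :=
    GC.Nul.reflect hE hq hT ((GC.zg2_St m A hA).sup hB) hT (gc_st shf_per hW) le_top le_top
      (GC.seq_sq Submodule.mem_top (Submodule.mem_sup_right hg) hs 0 R) h
  refine zd5_alg (gcy F X q) m A hA hB (fun i _ => ?_) hs (hn.mono le_rfl le_rfl hR)
  refine ind_cover shf_per (hU i) (hd i) (he i) hW fun c hc => ?_
  have key : (⨆ j < i, A j) ⊔ CC F (W' ∩ O) ≤
      ((⨆ j < i, A j) ⊔ CC F (W' ∩ O)).comap (prj (U i 0)) := by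
    refine sup_le (iSup₂_le fun j hj d hd => ?_) fun d hd => ?_
    · exact Submodule.mem_sup_left ((le_iSup₂_of_le (f := fun j (_ : j < i) => A j) j hj le_rfl :
        A j ≤ ⨆ j < i, A j) (zd5_keep _ hd))
    · exact Submodule.mem_sup_right (zd5_keep _ hd)
  exact key hc

end Pool.Agent.Fu
end

-- part Pool.Agent.P.MP_365c00_gt.ZI3
section

/-! Index theory: subdivision of a short geodesic. -/

set_option linter.unusedSectionVars false
set_option linter.unusedVariables false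

open Set Filter Topology Metric Function MeasureTheory
open scoped Manifold ContDiff
open Pool.Agent.GeoN

namespace Pool.Agent.Fu

variable {E : Type} [NormedAddCommGroup E] [InnerProductSpace ℝ E] [FiniteDimensional ℝ E]
  {M : Type} [MetricSpace M] [ChartedSpace E M] [IsManifold 𝓘(ℝ, E) ∞ M]
  [CompactSpace M] [Nonempty M] [Nontrivial E] {g : Met E M}

variable {sh : Short g} {a : ℝ}

section calc1
variable {P P' : Type} [NormedAddCommGroup P] [NormedSpace ℝ P] [NormedAddCommGroup P']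
  [NormedSpace ℝ P']

theorem zi3_ev {F : Type} [NormedAddCommGroup F] [NormedSpace ℝ F] {φ : P → F} {z : P}
    (hφ : ContDiffAt ℝ 2 φ z) : ∀ᶠ y in 𝓝 z, DifferentiableAt ℝ φ y :=
  (hφ.eventually (by simp)).mono fun _ hy => hy.differentiableAt (by simp)

theorem zi3_d {F : Type} [NormedAddCommGroup F] [NormedSpace ℝ F] {φ : P → F} {z : P}
    (hφ : ContDiffAt ℝ 2 φ z) : HasFDerivAt (fderiv ℝ φ) (fderiv ℝ (fderiv ℝ φ) z) z :=
  ((hφ.fderiv_right (m := 1) (by norm_num)).differentiableAt (by simp)).hasFDerivAt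

theorem zi3_gen {φ : P' → ℝ} {Ψ : P → P'} {z : P} (hφ : ContDiffAt ℝ 2 φ (Ψ z))
    (hΨ : ContDiffAt ℝ 2 Ψ z) (v w : P) :
    fderiv ℝ (fderiv ℝ (φ ∘ Ψ)) z v w = fderiv ℝ φ (Ψ z) (fderiv ℝ (fderiv ℝ Ψ) z v w) +
      fderiv ℝ (fderiv ℝ φ) (Ψ z) (fderiv ℝ Ψ z v) (fderiv ℝ Ψ z w) := by
  have e : fderiv ℝ (φ ∘ Ψ) =ᶠ[𝓝 z] fun y => (fderiv ℝ φ (Ψ y)).comp (fderiv ℝ Ψ y) := by
    filter_upwards [zi3_ev hΨ, hΨ.continuousAt.eventually (zi3_ev hφ)] with y h1 h2
    exact fderiv_comp y h2 h1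
  have h1 := ((zi3_d hφ).comp z (zi3_ev hΨ).self_of_nhds.hasFDerivAt).clm_comp (zi3_d hΨ)
  rw [e.fderiv_eq]
  erw [h1.fderiv]
  simp

theorem hess_nonneg {φ : P → ℝ} {z : P} (hφ : ContDiffAt ℝ 2 φ z) (hm : IsLocalMin φ z) (v : P) :
    0 ≤ fderiv ℝ (fderiv ℝ φ) z v v := by
  by_contra hn
  let c : ℝ → P := fun r => z + r • v
  have c0 : c 0 = z := by simp [c]
  have hc : ∀ r, HasDerivAt c v r := fun r => by
    have := ((hasDerivAt_id r).smul_const v).const_add z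
    rwa [one_smul] at this
  have ct : Tendsto c (𝓝 0) (𝓝 z) := c0 ▸ (hc 0).continuousAt
  have e : deriv (φ ∘ c) =ᶠ[𝓝 0] fun r => fderiv ℝ φ (c r) v := by
    filter_upwards [ct.eventually (zi3_ev hφ)] with r hr
    exact (hr.hasFDerivAt.comp_hasDerivAt r (hc r)).deriv
  have h2 : HasDerivAt (fun r => fderiv ℝ φ (c r) v) (fderiv ℝ (fderiv ℝ φ) z v v) 0 := by
    have := ((zi3_d hφ).comp_hasDerivAt_of_eq 0 (hc 0) c0.symm).clm_apply (hasDerivAt_const 0 v)
    simpa using this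
  have h3 : deriv (deriv (φ ∘ c)) 0 = fderiv ℝ (fderiv ℝ φ) z v v := by
    rw [e.deriv_eq, h2.deriv]
  have hmin : IsLocalMin (φ ∘ c) 0 :=
    IsLocalMin.comp_continuous (c0.symm ▸ hm) (hc 0).continuousAt
  have hmax : IsLocalMax (φ ∘ c) 0 := isLocalMax_of_deriv_deriv_neg (h3 ▸ not_le.1 hn)
    hmin.deriv_eq_zero (ContinuousAt.comp (c0.symm ▸ hφ.continuousAt) (hc 0).continuousAt)
  have h4 := (eventuallyEq_of_isMinFilter_of_isMaxFilter hmin hmax).deriv.deriv_eq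
  rw [h3] at h4
  exact hn (le_of_eq (by simp [h4]))

theorem hess_comp {φ : P' → ℝ} {Ψ : P → P'} {z : P} (hφ : ContDiffAt ℝ 2 φ (Ψ z))
    (hΨ : ContDiffAt ℝ 2 Ψ z) (h0 : fderiv ℝ φ (Ψ z) = 0) (v w : P) :
    fderiv ℝ (fderiv ℝ (φ ∘ Ψ)) z v w =
      fderiv ℝ (fderiv ℝ φ) (Ψ z) (fderiv ℝ Ψ z v) (fderiv ℝ Ψ z w) := by
  rw [zi3_gen hφ hΨ, h0]; simp

theorem hess_lin {φ : P' → ℝ} (L : P →L[ℝ] P') {z : P} (hφ : ContDiffAt ℝ 2 φ (L z)) (v w : P) :
    fderiv ℝ (fderiv ℝ (φ ∘ L)) z v w = fderiv ℝ (fderiv ℝ φ) (L z) (L v) (L w) := by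
  have e : fderiv ℝ (⇑L) = fun _ => L := funext fun _ => L.fderiv
  rw [zi3_gen hφ L.contDiff.contDiffAt, e]; simp

theorem hess_add {φ ψ : P → ℝ} {z : P} (hφ : ContDiffAt ℝ 2 φ z) (hψ : ContDiffAt ℝ 2 ψ z) :
    fderiv ℝ (fderiv ℝ (fun y => φ y + ψ y)) z =
      fderiv ℝ (fderiv ℝ φ) z + fderiv ℝ (fderiv ℝ ψ) z := by
  have e : fderiv ℝ (fun y => φ y + ψ y) =ᶠ[𝓝 z] fun y => fderiv ℝ φ y + fderiv ℝ ψ y := by
    filter_upwards [zi3_ev hφ, zi3_ev hψ] with y h1 h2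
    exact fderiv_fun_add h1 h2
  rw [e.fderiv_eq]
  exact ((zi3_d hφ).add (zi3_d hψ)).fderiv

theorem hess_sub {φ ψ : P → ℝ} {z : P} (hφ : ContDiffAt ℝ 2 φ z) (hψ : ContDiffAt ℝ 2 ψ z) :
    fderiv ℝ (fderiv ℝ (fun y => φ y - ψ y)) z =
      fderiv ℝ (fderiv ℝ φ) z - fderiv ℝ (fderiv ℝ ψ) z := by
  have e : fderiv ℝ (fun y => φ y - ψ y) =ᶠ[𝓝 z] fun y => fderiv ℝ φ y - fderiv ℝ ψ y := by
    filter_upwards [zi3_ev hφ, zi3_ev hψ] with y h1 h2
    exact fderiv_fun_sub h1 h2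
  rw [e.fderiv_eq]
  exact ((zi3_d hφ).sub (zi3_d hψ)).fderiv

end calc1

theorem zi3_le : (2 : WithTop ℕ∞) ≤ ∞ := by
  exact WithTop.coe_le_coe.2 (le_top (a := (2 : ℕ∞)))

theorem zi3_he (h : SMd sh dist a) (u : UG g) {s t : ℝ} (h0 : s < t) (hst : t - s < a) :
    (t - s) ^ 2 * energy g u.1 0 < sh.ε := by
  have e : energy g u.1 0 = 1 := u.2.2 0
  rw [e, mul_one]
  exact (pow_lt_pow_left₀ hst (by linarith) two_ne_zero).trans_le h.le

theorem zi3_near (h : SMd sh dist a) (u : UG g) {s t : ℝ} (h0 : s < t) (hst : t - s < a) :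
    ∀ᶠ w in 𝓝 (bp u s, bp u t), Sq sh u s t w =
      dist ((κ E (u.1 s)).symm w.1) ((κ E (u.1 t)).symm w.2) ^ 2 / (t - s) := by
  have ha : |t - s| < a := by rwa [abs_of_pos (by linarith)]
  have hp : 0 < t - s := by linarith
  have h1 : Sq sh u s t (bp u s, bp u t) < a ^ 2 / (t - s) := by
    rw [Sq_bp h u h0 hst, lt_div_iff₀ hp]; nlinarith
  filter_upwards [(Dc_open sh _ _).mem_nhds (bp_mem h u ha),
    (Sq_smooth h u ha).continuousAt.eventually (gt_mem_nhds h1)] with w hw h2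
  have h3 := h.near _ hw.2.2 ((div_lt_div_iff_of_pos_right hp).1 h2)
  rw [← (h.mem _ _ h3).2]; rfl

def zi3p (E : Type) [NormedAddCommGroup E] [NormedSpace ℝ E] : E × E × E →L[ℝ] E × E :=
  (ContinuousLinearMap.fst ℝ E (E × E)).prod
    ((ContinuousLinearMap.fst ℝ E E).comp (ContinuousLinearMap.snd ℝ E (E × E)))

def zi3q (E : Type) [NormedAddCommGroup E] [NormedSpace ℝ E] : E × E × E →L[ℝ] E × E :=
  (ContinuousLinearMap.fst ℝ E (E × E)).prod
    ((ContinuousLinearMap.snd ℝ E E).comp (ContinuousLinearMap.snd ℝ E (E × E)))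

noncomputable def zi3F (sh : Short g) (u : UG g) (s m t : ℝ) (w : E × E × E) : ℝ :=
  (Sq sh u s m ∘ zi3p E) w + (Sq sh u m t ∘ ContinuousLinearMap.snd ℝ E (E × E)) w -
    (Sq sh u s t ∘ zi3q E) w

theorem zi3_main (h : SMd sh dist a) (u : UG g) {s m t : ℝ} (hsm : s < m) (hmt : m < t)
    (hst : t - s < a) : ContDiffAt ℝ 2 (zi3F sh u s m t) (bp u s, bp u m, bp u t) ∧
      IsLocalMin (zi3F sh u s m t) (bp u s, bp u m, bp u t) ∧ ∀ x y z : E,
      fderiv ℝ (fderiv ℝ (zi3F sh u s m t)) (bp u s, bp u m, bp u t) (x, y, z) (x, y, z) =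
        Bq sh u s m (x, y) (x, y) + Bq sh u m t (y, z) (y, z) - Bq sh u s t (x, z) (x, z) := by
  have sm : ∀ {s t : ℝ}, s < t → t - s < a → ContDiffAt ℝ 2 (Sq sh u s t) (bp u s, bp u t) :=
    fun h0 h1 => (Sq_smooth h u (by rwa [abs_of_pos (by linarith)])).of_le zi3_le
  have s1 := sm hsm (by linarith)
  have s2 := sm hmt (by linarith)
  have s3 := sm (hsm.trans hmt) hst
  have t1 : ContDiffAt ℝ 2 (Sq sh u s m ∘ zi3p E) (bp u s, bp u m, bp u t) :=
    ContDiffAt.comp _ s1 (zi3p E).contDiff.contDiffAt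
  have t2 : ContDiffAt ℝ 2 (Sq sh u m t ∘ ContinuousLinearMap.snd ℝ E (E × E))
      (bp u s, bp u m, bp u t) :=
    ContDiffAt.comp _ s2 (ContinuousLinearMap.snd ℝ E (E × E)).contDiff.contDiffAt
  have t3 : ContDiffAt ℝ 2 (Sq sh u s t ∘ zi3q E) (bp u s, bp u m, bp u t) :=
    ContDiffAt.comp _ s3 (zi3q E).contDiff.contDiffAt
  refine ⟨(t1.add t2).sub t3, ?_, fun x y z => ?_⟩
  · have e0 : zi3F sh u s m t (bp u s, bp u m, bp u t) = 0 := by
      show Sq sh u s m (bp u s, bp u m) + Sq sh u m t (bp u m, bp u t) -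
        Sq sh u s t (bp u s, bp u t) = 0
      rw [Sq_bp h u hsm (by linarith), Sq_bp h u hmt (by linarith), Sq_bp h u (hsm.trans hmt) hst]
      ring
    have c1 : Tendsto (zi3p E) (𝓝 (bp u s, bp u m, bp u t)) (𝓝 (bp u s, bp u m)) :=
      (zi3p E).continuous.tendsto _
    have c2 : Tendsto (ContinuousLinearMap.snd ℝ E (E × E)) (𝓝 (bp u s, bp u m, bp u t))
        (𝓝 (bp u m, bp u t)) := (ContinuousLinearMap.snd ℝ E (E × E)).continuous.tendsto _
    have c3 : Tendsto (zi3q E) (𝓝 (bp u s, bp u m, bp u t)) (𝓝 (bp u s, bp u t)) :=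
      (zi3q E).continuous.tendsto _
    filter_upwards [c1.eventually (zi3_near h u hsm (by linarith)),
      c2.eventually (zi3_near h u hmt (by linarith)),
      c3.eventually (zi3_near h u (hsm.trans hmt) hst)] with w k1 k2 k3
    rw [e0, zi3F, comp_apply, comp_apply, comp_apply, k1, k2, k3]
    show 0 ≤ dist ((κ E (u.1 s)).symm w.1) ((κ E (u.1 m)).symm w.2.1) ^ 2 / (m - s) +
      dist ((κ E (u.1 m)).symm w.2.1) ((κ E (u.1 t)).symm w.2.2) ^ 2 / (t - m) -
      dist ((κ E (u.1 s)).symm w.1) ((κ E (u.1 t)).symm w.2.2) ^ 2 / (t - s)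
    have tr := pow_le_pow_left₀ dist_nonneg (dist_triangle ((κ E (u.1 s)).symm w.1)
      ((κ E (u.1 m)).symm w.2.1) ((κ E (u.1 t)).symm w.2.2)) 2
    generalize dist ((κ E (u.1 s)).symm w.1) ((κ E (u.1 m)).symm w.2.1) = p at tr ⊢
    generalize dist ((κ E (u.1 m)).symm w.2.1) ((κ E (u.1 t)).symm w.2.2) = q at tr ⊢
    have a1 : 0 < m - s := by linarith
    have a2 : 0 < t - m := by linarith
    have a3 : 0 < t - s := by linarith
    have e : p ^ 2 / (m - s) + q ^ 2 / (t - m) - (p + q) ^ 2 / (t - s) =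
        (p * (t - m) - q * (m - s)) ^ 2 / ((m - s) * (t - m) * (t - s)) := by
      field_simp; ring
    have k : 0 ≤ (p * (t - m) - q * (m - s)) ^ 2 / ((m - s) * (t - m) * (t - s)) := by positivity
    have := div_le_div_of_nonneg_right tr a3.le
    linarith
  · unfold zi3F
    rw [hess_sub (t1.add t2) t3, hess_add t1 t2]
    simp only [sub_apply, add_apply]
    rw [hess_lin (zi3p E) s1, hess_lin (ContinuousLinearMap.snd ℝ E (E × E)) s2,
      hess_lin (zi3q E) s3]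
    rfl

theorem Bq_sub (h : SMd sh dist a) (u : UG g) {s m t : ℝ} (hsm : s < m) (hmt : m < t)
    (hst : t - s < a) (x y z : E) :
    Bq sh u s t (x, z) (x, z) ≤ Bq sh u s m (x, y) (x, y) + Bq sh u m t (y, z) (y, z) := by
  obtain ⟨h1, h2, h3⟩ := zi3_main h u hsm hmt hst
  have := hess_nonneg h1 h2 (x, y, z)
  rw [h3] at this
  linarith

theorem Bq_mid (h : SMd sh dist a) (u : UG g) {s m t : ℝ} (hsm : s < m) (hmt : m < t)
    (hst : t - s < a) : ∃ μ : E × E →ₗ[ℝ] E, ∀ x z : E,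
      Bq sh u s m (x, μ (x, z)) (x, μ (x, z)) + Bq sh u m t (μ (x, z), z) (μ (x, z), z) =
        Bq sh u s t (x, z) (x, z) := by
  obtain ⟨h1, h2, h3⟩ := zi3_main h u hsm hmt hst
  have a1 : 0 < m - s := by linarith
  have a2 : 0 < t - m := by linarith
  have a3 : 0 < t - s := by linarith
  have ha : |t - s| < a := by rwa [abs_of_pos a3]
  have hb := bp_mem h u ha
  set r := (m - s) / (t - s) with hr
  have r0 : 0 < r := div_pos a1 a3
  have r1 : r < 1 := (div_lt_one a3).2 (by linarith)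
  let Γ : E × E → M := fun w => sh.σ ((κ E (u.1 s)).symm w.1, (κ E (u.1 t)).symm w.2) r
  have g0 : Γ (bp u s, bp u t) = u.1 m := by
    simp only [Γ, bp]
    rw [(κ E _).left_inv (mem_extChartAt_source _), (κ E _).left_inv (mem_extChartAt_source _),
      (sigma_geo u.2.1 (zi3_he h u (hsm.trans hmt) hst)).2.1]
    show u.1 ((t - s) * r + s) = u.1 m
    rw [hr, mul_div_cancel₀ _ a3.ne', sub_add_cancel]
  have gs : ContMDiffAt 𝓘(ℝ, E × E) 𝓘(ℝ, E) ∞ Γ (bp u s, bp u t) :=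
    (sh.smooth _ _ _ hb.1 hb.2.1 hb.2.2 r).comp (f := fun w : E × E => (w, r)) _
      (contDiffAt_id.prodMk contDiffAt_const).contMDiffAt
  have gm : Γ (bp u s, bp u t) ∈ (κ E (u.1 m)).source := g0 ▸ mem_extChartAt_source _
  have ns : ContDiffAt ℝ 2 (κ E (u.1 m) ∘ Γ) (bp u s, bp u t) :=
    (contDiffAt_chart (n := ⊤) gs gm).of_le zi3_le
  let Ψ : E × E → E × E × E := fun w => (w.1, (κ E (u.1 m) ∘ Γ) w, w.2)
  have p0 : Ψ (bp u s, bp u t) = (bp u s, bp u m, bp u t) := by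
    simp only [Ψ, comp_apply, g0]; rfl
  have ps : ContDiffAt ℝ 2 Ψ (bp u s, bp u t) := contDiffAt_fst.prodMk (ns.prodMk contDiffAt_snd)
  have pd := (hasFDerivAt_fst.prodMk ((ns.differentiableAt (by simp)).hasFDerivAt.prodMk
    hasFDerivAt_snd)).fderiv
  have ez : zi3F sh u s m t ∘ Ψ =ᶠ[𝓝 (bp u s, bp u t)] fun _ => 0 := by
    filter_upwards [(Dc_open sh _ _).mem_nhds hb,
      gs.continuousAt.eventually ((source_open _).mem_nhds gm)] with w hw hm
    have hγ := sh.geo _ hw.2.2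
    have hl := sh.lt _ hw.2.2
    have hn := energy_nonneg g (sh.σ ((κ E (u.1 s)).symm w.1, (κ E (u.1 t)).symm w.2)) 0
    have k1 := (sigma_geo hγ (s := 0) (t := r) ((mul_le_of_le_one_left hn
      (by nlinarith)).trans_lt hl)).2.2
    have k2 := (sigma_geo hγ (s := r) (t := 1) ((mul_le_of_le_one_left hn
      (by nlinarith)).trans_lt hl)).2.2
    rw [sh.zero _ hw.2.2] at k1
    rw [sh.one _ hw.2.2] at k2
    show sh.S (_, (κ E (u.1 m)).symm (κ E (u.1 m) (Γ w))) / (m - s) +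
      sh.S ((κ E (u.1 m)).symm (κ E (u.1 m) (Γ w)), _) / (t - m) - sh.S _ / (t - s) = 0
    rw [(κ E _).left_inv hm]
    erw [k1, k2]
    show _ - energy g (sh.σ ((κ E (u.1 s)).symm w.1, (κ E (u.1 t)).symm w.2)) 0 / (t - s) = 0
    rw [hr]
    field_simp
    ring
  refine ⟨(fderiv ℝ (κ E (u.1 m) ∘ Γ) (bp u s, bp u t) : E × E →L[ℝ] E), fun x z => ?_⟩
  have k := hess_comp (p0.symm ▸ h1) ps (p0.symm ▸ h2.fderiv_eq_zero) (x, z) (x, z)
  have pd' : fderiv ℝ Ψ (bp u s, bp u t) (x, z) =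
      (x, fderiv ℝ (κ E (u.1 m) ∘ Γ) (bp u s, bp u t) (x, z), z) := by
    erw [pd]; rfl
  rw [ez.fderiv.fderiv_eq, p0, pd', h3] at k
  simp only [fderiv_fun_const, Pi.zero_apply, zero_apply, fderiv_zero] at k
  exact sub_eq_zero.1 k.symm

end Pool.Agent.Fu
end

-- part Pool.Agent.P.MP_365c00_gt.ZI4
section

/-! Index theory: Jacobi fields. -/

set_option linter.unusedSectionVars false
set_option linter.unusedVariables false

open Set Filter Topology Metric Function MeasureTheory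
open scoped Manifold ContDiff
open Pool.Agent.GeoN

namespace Pool.Agent.Fu

variable {E : Type} [NormedAddCommGroup E] [InnerProductSpace ℝ E] [FiniteDimensional ℝ E]
  {M : Type} [MetricSpace M] [ChartedSpace E M] [IsManifold 𝓘(ℝ, E) ∞ M]
  [CompactSpace M] [Nonempty M] [Nontrivial E] {g : Met E M}

variable {sh : Short g} {a : ℝ}

theorem ZI4_tgt (u : UG g) (s : ℝ) : bp u s ∈ (κ E (u.1 s)).target := mem_extChartAt_target _

theorem ZI4_symm (u : UG g) (s : ℝ) : (κ E (u.1 s)).symm (bp u s) = u.1 s := extChartAt_to_inv _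

theorem ZI4_jet (u : UG g) : geo g (u.1 0) (bp u 0, tv u 0) = u.1 :=
  geo_jet u.2.1 (mem_extChartAt_source _)

theorem ZI4_exp {x y : M} {c V : E} (hc : c ∈ (κ E x).target) {l : ℝ}
    (hy : geo g x (c, V) l ∈ (κ E y).source) :
    ContDiffAt ℝ ∞ (fun W : E => κ E y (geo g x (c, W) l)) V := by
  have hin : ContDiff ℝ ∞ fun W : E => (((c, W), l) : (E × E) × ℝ) := by fun_prop
  exact ContDiffAt.comp (f := fun W : E => (((c, W), l) : (E × E) × ℝ)) V
    (contDiffAt_chart (n := ⊤) (x := y) (geo_smooth g x (y := (c, V)) hc l) hy) hin.contDiffAt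

theorem ZI4_line (V ξ : E) : HasDerivAt (fun r : ℝ => V + r • ξ) ξ 0 := by
  simpa using ((hasDerivAt_id (0 : ℝ)).smul_const ξ).const_add V

theorem Jac_zero (u : UG g) : Jac g u 0 = 0 := by
  have e : (fun V => κ E (u.1 0) (geo g (u.1 0) (κ E (u.1 0) (u.1 0), V) 0)) =
      fun _ => κ E (u.1 0) (u.1 0) := by
    funext V
    rw [(geo_spec g (u.1 0) (y := (κ E (u.1 0) (u.1 0), V)) (mem_extChartAt_target _)).2.1]
    exact congrArg _ (extChartAt_to_inv _)
  unfold Jac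
  rw [e]
  exact fderiv_const_apply _

/-- the curve of end points -/
theorem jac_has (u : UG g) (l : ℝ) (ξ : E) :
    HasDerivAt (fun r : ℝ => κ E (u.1 l) (geo g (u.1 0) (bp u 0, tv u 0 + r • ξ) l))
      (Jac g u l ξ) 0 := by
  have h1 := ZI4_exp (g := g) (y := u.1 l) (V := tv u 0) (ZI4_tgt u 0) (l := l)
    (by rw [ZI4_jet]; exact mem_extChartAt_source _)
  exact (h1.differentiableAt (by simp)).hasFDerivAt.comp_hasDerivAt_of_eq 0 (ZI4_line (tv u 0) ξ)
    (by simp)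

/-- the family of geodesics -/
theorem ZI4_fam (u : UG g) (ξ : E) (r : ℝ) :
    IsGeodesic g (geo g (u.1 0) (bp u 0, tv u 0 + r • ξ)) ∧
      geo g (u.1 0) (bp u 0, tv u 0 + r • ξ) 0 = u.1 0 ∧
      vel E (u.1 0) (geo g (u.1 0) (bp u 0, tv u 0 + r • ξ)) 0 = tv u 0 + r • ξ := by
  obtain ⟨h1, h2, h3⟩ := geo_spec g (u.1 0) (y := (bp u 0, tv u 0 + r • ξ)) (ZI4_tgt u 0)
  exact ⟨h1, h2.trans (ZI4_symm u 0), h3⟩

theorem ZI4_en (h : SMd sh dist a) (u : UG g) (ξ : E) {d : ℝ} (hd : |d| < a) :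
    ∀ᶠ r : ℝ in 𝓝 0, d ^ 2 * energy g (geo g (u.1 0) (bp u 0, tv u 0 + r • ξ)) 0 < sh.ε := by
  have e : ∀ r : ℝ, energy g (geo g (u.1 0) (bp u 0, tv u 0 + r • ξ)) 0 =
      gt u 0 (tv u 0 + r • ξ) (tv u 0 + r • ξ) := fun r =>
    energy_geo g (u.1 0) (y := (bp u 0, tv u 0 + r • ξ)) (ZI4_tgt u 0)
  simp only [e]
  have hc : Continuous fun r : ℝ => d ^ 2 * gt u 0 (tv u 0 + r • ξ) (tv u 0 + r • ξ) := by
    fun_prop
  refine hc.continuousAt.eventually_lt continuousAt_const ?_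
  simp only [zero_smul, add_zero, gt_tv, mul_one]
  have := h.le
  have h2 : d ^ 2 < a ^ 2 := sq_lt_sq' (by linarith [neg_abs_le d]) (by linarith [le_abs_self d])
  linarith

theorem ZI4_src (u : UG g) (ξ : E) (l : ℝ) :
    ∀ᶠ r : ℝ in 𝓝 0, geo g (u.1 0) (bp u 0, tv u 0 + r • ξ) l ∈ (κ E (u.1 l)).source := by
  have h1 := (geo_smooth g (u.1 0) (y := (bp u 0, tv u 0)) (ZI4_tgt u 0) l).continuousAt
  have h2 : ContinuousAt (fun r : ℝ => (((bp u 0, tv u 0 + r • ξ), l) : (E × E) × ℝ)) 0 := by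
    fun_prop
  have h3 := ContinuousAt.comp_of_eq h1 h2 (by simp)
  refine h3.eventually (p := fun z => z ∈ (κ E (u.1 l)).source) ((source_open _).mem_nhds ?_)
  simp only [Function.comp_apply, zero_smul, add_zero, ZI4_jet]
  exact mem_extChartAt_source _

/-- the initial velocity of the short geodesic -/
noncomputable def ZI4_lam (sh : Short g) (u : UG g) (s t : ℝ) (y : E) : E :=
  vel E (u.1 s) (sh.σ ((κ E (u.1 s)).symm (bp u s), (κ E (u.1 t)).symm y)) 0

theorem ZI4_lam_smooth (h : SMd sh dist a) (u : UG g) {s t : ℝ} (hst : |t - s| < a) :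
    ContDiffAt ℝ ∞ (ZI4_lam sh u s t) (bp u t) := by
  have hm := bp_mem h u hst
  have h1 := vel_smooth (g := g) (Γ := fun w : E × E =>
      sh.σ ((κ E (u.1 s)).symm w.1, (κ E (u.1 t)).symm w.2)) (Dc_open sh (u.1 s) (u.1 t))
    (fun w hw r => sh.smooth _ _ w hw.1 hw.2.1 hw.2.2 r) hm (t := 0) (x := u.1 s)
    (by
      have e := sh.zero _ hm.2.2
      simp only at e ⊢
      rw [e]
      exact (κ E (u.1 s)).map_target hm.1)
  have hin : ContDiff ℝ ∞ fun y : E => (((bp u s, y), 0) : (E × E) × ℝ) := by fun_prop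
  exact ContDiffAt.comp (f := fun y : E => (((bp u s, y), 0) : (E × E) × ℝ)) (bp u t) h1
    hin.contDiffAt

theorem nd_short' (h : SMd sh dist a) (u : UG g) {l : ℝ} (h0 : 0 < l) (hl : l < a) :
    NdJ g u l := by
  have hd : |l - 0| < a := by rwa [sub_zero, abs_of_pos h0]
  have hΛ := ((ZI4_lam_smooth h u hd).differentiableAt (by simp)).hasFDerivAt
  unfold NdJ
  rw [injective_iff_map_eq_zero]
  intro ξ hξ
  have h1 := hΛ.comp_hasDerivAt_of_eq 0 (jac_has u l ξ)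
    (by simp only [zero_smul, add_zero, ZI4_jet]; rfl)
  have h2 : HasDerivAt (fun r : ℝ => l • (tv u 0 + r • ξ)) (l • ξ) 0 :=
    (ZI4_line (tv u 0) ξ).const_smul l
  have e : (ZI4_lam sh u 0 l ∘ fun r : ℝ =>
      κ E (u.1 l) (geo g (u.1 0) (bp u 0, tv u 0 + r • ξ) l)) =ᶠ[𝓝 0]
      fun r : ℝ => l • (tv u 0 + r • ξ) := by
    filter_upwards [ZI4_en h u ξ hd, ZI4_src u ξ l] with r a1 a2
    obtain ⟨b1, b2, b3⟩ := ZI4_fam u ξ r
    have b4 := (sigma_geo b1 a1).2.1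
    rw [b2] at b4
    simp only [Function.comp_apply, ZI4_lam, ZI4_symm, (κ E (u.1 l)).left_inv a2, b4]
    rw [ChartX.vel_aff, mul_zero, add_zero, b3, sub_zero]
  have h3 := (h1.congr_of_eventuallyEq e.symm).unique h2
  rw [hξ, map_zero] at h3
  exact (smul_eq_zero.1 h3.symm).resolve_left h0.ne'

theorem jac_surj (h : SMd sh dist a) (u : UG g) {l : ℝ} (h0 : 0 < l) (hl : l < a) :
    Surjective (Jac g u l) :=
  (LinearMap.injective_iff_surjective (f := (Jac g u l : E →ₗ[ℝ] E))).1 (nd_short' h u h0 hl)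

/-- the discrete Jacobi equation -/
theorem jac_eq (h : SMd sh dist a) (u : UG g) {s m t : ℝ} (hsm : s < m) (hmt : m < t)
    (h1 : m - s < a) (h2 : t - m < a) (ξ ζ : E) :
    Bq sh u s m (Jac g u s ξ, Jac g u m ξ) (0, ζ) +
      Bq sh u m t (Jac g u m ξ, Jac g u t ξ) (ζ, 0) = 0 := by
  have d1 : |m - s| < a := by rwa [abs_of_pos (sub_pos.2 hsm)]
  have d2 : |t - m| < a := by rwa [abs_of_pos (sub_pos.2 hmt)]
  have k1 := Bq_has h u d1 ((jac_has u s ξ).prodMk (jac_has u m ξ))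
    (by simp only [zero_smul, add_zero, ZI4_jet]; rfl) (0, ζ)
  have k2 := Bq_has h u d2 ((jac_has u m ξ).prodMk (jac_has u t ξ))
    (by simp only [zero_smul, add_zero, ZI4_jet]; rfl) (ζ, 0)
  have k3 := k1.add k2
  refine k3.unique ((hasDerivAt_const (0 : ℝ) (0 : ℝ)).congr_of_eventuallyEq ?_)
  filter_upwards [ZI4_en h u ξ d1, ZI4_en h u ξ d2, ZI4_src u ξ s, ZI4_src u ξ m,
    ZI4_src u ξ t] with r a1 a2 a3 a4 a5
  have b1 := (ZI4_fam u ξ r).1
  obtain ⟨c1, c2⟩ := Sc_geo b1 a1 a3 a4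
  obtain ⟨c3, c4⟩ := Sc_geo b1 a2 a4 a5
  simp only [Pi.add_apply]
  rw [Sq_fderiv u c1, Sq_fderiv u c3, c2, c4]
  have n1 : m - s ≠ 0 := (sub_pos.2 hsm).ne'
  have n2 : t - m ≠ 0 := (sub_pos.2 hmt).ne'
  simp only [map_zero]
  field_simp
  ring

/-- the mixed second derivative is nondegenerate -/
theorem cross_nd (h : SMd sh dist a) (u : UG g) {s t : ℝ} (h0 : s < t) (hst : t - s < a) {w : E}
    (hw : ∀ v, Bq sh u s t (0, w) (v, 0) = 0) : w = 0 := by
  have hd : |t - s| < a := by rwa [abs_of_pos (sub_pos.2 h0)]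
  have hn : t - s ≠ 0 := (sub_pos.2 h0).ne'
  have hΛ := ((ZI4_lam_smooth h u hd).differentiableAt (by simp)).hasFDerivAt
  have hl := ZI4_line (bp u t) w
  have hΛ' := hΛ.comp_hasDerivAt_of_eq 0 hl (by simp)
  have hc : HasDerivAt (fun r : ℝ => ((bp u s, bp u t + r • w) : E × E)) (0, w) 0 :=
    (hasDerivAt_const (0 : ℝ) (bp u s)).prodMk hl
  have hD : ∀ᶠ r : ℝ in 𝓝 0, ((bp u s, bp u t + r • w) : E × E) ∈ Dc sh (u.1 s) (u.1 t) :=
    hc.continuousAt.eventually (p := fun z => z ∈ Dc sh (u.1 s) (u.1 t))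
      ((Dc_open sh _ _).mem_nhds (by simpa using bp_mem h u hd))
  have h1 : fderiv ℝ (ZI4_lam sh u s t) (bp u t) w = 0 := by
    refine ChartX.G_inj g (u.1 s) (ZI4_tgt u s) fun v => ?_
    have k1 := Bq_has h u hd hc (by simp) (v, 0)
    rw [hw v] at k1
    have k2 : HasDerivAt (fun r : ℝ => -2 * gt u s (ZI4_lam sh u s t (bp u t + r • w)) v / (t - s))
        (-2 * gt u s (fderiv ℝ (ZI4_lam sh u s t) (bp u t) w) v / (t - s)) 0 := by
      have := (((gt u s).flip v).hasFDerivAt.comp_hasDerivAt 0 hΛ').const_mul (-2)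
      exact this.div_const (t - s)
    have k3 := k1.unique (k2.congr_of_eventuallyEq (by
      filter_upwards [hD] with r hr
      rw [Sq_fderiv u hr, Sc_fderiv hr]
      simp only [map_zero, mul_zero, zero_sub, neg_mul]
      rfl))
    have k4 := k3.symm
    rw [div_eq_zero_iff] at k4
    have k5 := k4.resolve_right hn
    simp only [map_zero, zero_apply]
    change gt u s _ v = 0
    linarith
  have hm := bp_mem h u hd
  have key : ∀ y, ((bp u s, y) : E × E) ∈ Dc sh (u.1 s) (u.1 t) →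
      geo g (u.1 s) (bp u s, ZI4_lam sh u s t y) 1 = (κ E (u.1 t)).symm y := by
    intro y hy
    have g1 := sh.geo _ hy.2.2
    have g0 := sh.zero _ hy.2.2
    have := geo_jet g1 (x := u.1 s) (by rw [g0]; exact (κ E (u.1 s)).map_target hy.1)
    rw [g0, (κ E (u.1 s)).right_inv hy.1] at this
    exact (congrFun this 1).trans (sh.one _ hy.2.2)
  have h2 := ZI4_exp (g := g) (y := u.1 t) (V := ZI4_lam sh u s t (bp u t)) (ZI4_tgt u s) (l := 1)
    (by rw [key _ hm]; exact (κ E (u.1 t)).map_target (ZI4_tgt u t))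
  have h3 := (h2.differentiableAt (by simp)).hasFDerivAt.comp_hasDerivAt_of_eq 0 hΛ' (by simp)
  rw [h1, map_zero] at h3
  refine hl.unique (h3.congr_of_eventuallyEq ?_)
  filter_upwards [hD] with r hr
  simp only [Function.comp_apply]
  rw [key _ hr, (κ E (u.1 t)).right_inv hr.2.1]

theorem flat_rank {u : UG g} {P : ℝ} (hf : FlatJ g u P) :
    Module.finrank ℝ E - 1 ≤ Module.finrank ℝ (LinearMap.ker (Jac g u P : E →ₗ[ℝ] E)) := by
  have h1 := LinearMap.finrank_range_add_finrank_ker (Jac g u P : E →ₗ[ℝ] E)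
  have h2 : LinearMap.range (Jac g u P : E →ₗ[ℝ] E) ≤ Submodule.span ℝ {vel E (u.1 P) u.1 P} := by
    rintro _ ⟨ξ, rfl⟩
    obtain ⟨c, hc⟩ := hf ξ
    exact Submodule.mem_span_singleton.2 ⟨c, hc.symm⟩
  have h3 := Submodule.finrank_mono h2
  rw [finrank_span_singleton (u.vel_ne P (mem_extChartAt_source _))] at h3
  omega

end Pool.Agent.Fu
end

-- part Pool.Agent.P.MP_365c00_gt.ZO
section

/-! Charts, embedding and orientation of a closed manifold. -/

set_option linter.unusedSectionVars false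
set_option linter.unusedVariables false

open Set Filter Topology Metric Function MeasureTheory
open scoped Manifold ContDiff
open Pool.Agent.GeoN

namespace Pool.Agent.Fu

section
variable {W : Type} [NormedAddCommGroup W] [NormedSpace ℝ W] [FiniteDimensional ℝ W]
  {M : Type} [TopologicalSpace M] [T2Space M] {F : Type} [Field F]

theorem zo_map (e : OpenPartialHomeomorph M W) {p : M} (hp : p ∈ e.source) {B : Set W}
    (hB : B ⊆ e.target) (hB' : e p ∉ B) : MapsTo e.symm B (univ \ {p}) := by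
  intro y hy
  refine ⟨mem_univ _, fun h => hB' ?_⟩
  have h1 : e.symm y = p := h
  rw [← h1, e.right_inv (hB hy)]
  exact hy

theorem zo_cmp {d : ℕ} {o0 : Ch F W} (h0 : Gen F d univ 0 o0) (e e' : OpenPartialHomeomorph M W)
    {p : M} (hp : p ∈ e.source) (hp' : p ∈ e'.source) {A : W →L[ℝ] W} (hA : 0 < A.det)
    (hφ : HasFDerivAt (e' ∘ e.symm) A (e p)) {z q : Ch F W}
    (hz : z ∈ ZZ F e.target (e.target \ {e p}))
    (hz' : z - map (tr (e p)) o0 ∈ NN F univ (univ \ {e p}))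
    (hq : q ∈ ZZ F (univ ∩ e'.target) (univ \ {e' p}))
    (hq' : map (tr (e' p)) o0 - q ∈ NN F univ (univ \ {e' p})) :
    mp e.symm z - mp e'.symm q ∈ NN F univ (univ \ {p}) := by
  have hc : e p ∈ e.target := e.map_source hp
  have hc' : e' p ∈ e'.target := e'.map_source hp'
  have hUo : IsOpen (e.target ∩ e.symm ⁻¹' e'.source) :=
    e.symm.continuousOn.isOpen_inter_preimage e.open_target e'.open_source
  have hcU : e p ∈ e.target ∩ e.symm ⁻¹' e'.source :=
    ⟨hc, by rw [mem_preimage, e.left_inv hp]; exact hp'⟩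
  have hcont : ContinuousOn (e' ∘ e.symm) (e.target ∩ e.symm ⁻¹' e'.source) :=
    e'.continuousOn.comp (e.symm.continuousOn.mono inter_subset_left) fun y hy => hy.2
  obtain ⟨V, hV, hVU, hdeg⟩ := deg_loc h0 hA hφ (hUo.mem_nhds hcU) hcont
  have e1 : (e' ∘ e.symm) (e p) = e' p := by rw [comp_apply, e.left_inv hp]
  rw [e1] at hdeg
  have hcV : e p ∈ interior V := mem_interior_iff_mem_nhds.2 hV
  obtain ⟨y, hy, hy', -⟩ := exc_surj (F := F) (A := e.target) (B := e.target \ {e p})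
    (U := interior V) (V := {e p}ᶜ) isOpen_interior isOpen_compl_singleton
    (fun w _ => by
      by_cases h : w = e p
      · exact Or.inl (h ▸ hcV)
      · exact Or.inr h)
    (fun w hw => ⟨hw.1, hw.2⟩) hz
  have hyV : y ∈ ZZ F V (V \ {e p}) :=
    ZZ_mono (A := e.target ∩ interior V) (B := e.target \ {e p} ∩ interior V) (A' := V)
      (B' := V \ {e p}) (fun w hw => interior_subset hw.2)
      (fun w hw => ⟨interior_subset hw.2, hw.1.2⟩) hy
  have h1 : y - map (tr (e p)) o0 ∈ NN F univ (univ \ {e p}) := by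
    have h2 : z - y ∈ NN F univ (univ \ {e p}) :=
      NN_mono (B := e.target ∩ (e.target \ {e p})) (B' := univ \ {e p}) (subset_univ _)
        (fun w hw => ⟨mem_univ _, hw.2.2⟩) hy'
    have := sub_mem hz' h2
    rwa [sub_sub_sub_cancel_left] at this
  have h2 := hdeg y hyV h1
  have h3 : mp (e' ∘ e.symm) y - q ∈ NN F univ (univ \ {e' p}) := by
    have := add_mem h2 hq'
    rwa [sub_add_sub_cancel] at this
  have hm : MapsTo (e' ∘ e.symm) V (univ ∩ e'.target) := fun w hw =>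
    ⟨mem_univ _, e'.map_source (hVU hw).2⟩
  have h4 : mp (e' ∘ e.symm) y ∈ ZZ F (univ ∩ e'.target) (univ \ {e' p}) := by
    refine mp_mem_ZZ (hcont.mono hVU) hm ?_ hyV
    refine fun w hw => ⟨mem_univ _, fun h => hw.2.2 ?_⟩
    have h5 : e' (e.symm w) = e' p := h
    have h6 : e.symm w = p := e'.injOn (hVU hw.1).2 hp' h5
    show w = e p
    rw [← h6, e.right_inv (hVU hw.1).1]
  have h5 := exc_inj (F := F) (A := univ) (B := univ \ {e' p}) (U := e'.target) (V := {e' p}ᶜ)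
    e'.open_target isOpen_compl_singleton
    (fun w _ => by
      by_cases h : w = e' p
      · exact Or.inl (h ▸ hc')
      · exact Or.inr h)
    (fun w hw => ⟨hw.1, hw.2⟩) (sub_mem h4 hq) h3
  have h6 : mp e'.symm (mp (e' ∘ e.symm) y - q) ∈ NN F univ (univ \ {p}) :=
    mp_mem_NN (e'.symm.continuousOn.mono inter_subset_right) (mapsTo_univ _ _)
      (zo_map e' hp' inter_subset_right fun h => h.1.2 rfl) h5
  have h7 : mp e'.symm (mp (e' ∘ e.symm) y) = mp e.symm y := by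
    rw [mp_mp (hcont.mono hVU) (e'.symm.continuousOn.mono inter_subset_right) hm hyV.1]
    exact mp_congr (fun w hw => e'.left_inv (hVU hw).2) hyV.1
  have h8 : mp e.symm (z - y) ∈ NN F univ (univ \ {p}) :=
    mp_mem_NN e.symm.continuousOn (mapsTo_univ _ _)
      (zo_map e hp inter_subset_left fun h => h.2.2 rfl) hy'
  rw [map_sub, h7] at h6
  rw [map_sub] at h8
  have := add_mem h8 h6
  rwa [sub_add_sub_cancel] at this

theorem zo_atlas (h2 : (2 : F) ≠ 0) (k : M → OpenPartialHomeomorph M W)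
    (hk : ∀ x, x ∈ (k x).source)
    (hpos : ∀ x, ∀ᶠ p in 𝓝 x, ∃ A : W →L[ℝ] W, 0 < A.det ∧
      HasFDerivAt (k p ∘ (k x).symm) A (k x p)) :
    Nonempty (OR F (Module.finrank ℝ W) M) := by
  obtain ⟨o0, h0⟩ := exists_gen h2 W
  have hs : ∀ p, ∃ q ∈ CC F (univ ∩ (k p).target), Gen F (Module.finrank ℝ W) univ (k p p) q ∧
      map (tr (k p p)) o0 - q ∈ NN F univ (univ \ {k p p}) := fun p =>
    (h0.tr (k p p)).small (k p).open_target ((k p).map_source (hk p))
  choose q hq1 hq2 hq3 using hs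
  refine ⟨⟨fun p => mp (k p).symm (q p), fun p => ?_, fun x => ?_⟩⟩
  · have := (hq2 p).transfer (B := univ) (V := (k p).source) (φ := (k p).symm) (ψ := k p)
      (k p).open_target (k p).open_source ⟨mem_univ _, (k p).map_source (hk p)⟩ (hq1 p)
      ((k p).symm.continuousOn.mono inter_subset_right)
      ((k p).continuousOn.mono inter_subset_right)
      (fun w hw => ⟨mem_univ _, (k p).map_target hw.2⟩)
      (fun w hw => ⟨mem_univ _, (k p).map_source hw.2⟩)
      (fun w hw => (k p).right_inv hw.2) (fun w hw => (k p).left_inv hw.2)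
    rwa [(k p).left_inv (hk p)] at this
  · have hx := hk x
    have hc := (k x).map_source hx
    have hS : ∀ᶠ w in 𝓝 (k x x), w ∈ (k x).target ∧ ∃ A : W →L[ℝ] W, 0 < A.det ∧
        HasFDerivAt (k ((k x).symm w) ∘ (k x).symm) A (k x ((k x).symm w)) := by
      have h1 : Tendsto (k x).symm (𝓝 (k x x)) (𝓝 x) := (k x).tendsto_symm hx
      exact (Filter.Eventually.and ((k x).open_target.mem_nhds hc) (h1.eventually (hpos x)))
    obtain ⟨r, hr, hK⟩ := nhds_basis_closedBall.eventually_iff.1 hS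
    obtain ⟨z, hz1, hz2, hz3⟩ := tr_loc h0 (isCompact_closedBall (k x x) r)
      (convex_closedBall (k x x) r)
    obtain ⟨y, hy1, hy2, hy3⟩ := exc_surj (F := F) (A := univ) (B := (closedBall (k x x) r)ᶜ)
      (U := (k x).target) (V := (closedBall (k x x) r)ᶜ) (k x).open_target
      isClosed_closedBall.isOpen_compl
      (fun w _ => by
        by_cases h : w ∈ closedBall (k x x) r
        · exact Or.inl (hK h).1
        · exact Or.inr h)
      inter_subset_right hz1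
    refine ⟨(k x).source ∩ k x ⁻¹' closedBall (k x x) r,
      inter_mem ((k x).open_source.mem_nhds hx)
        (((k x).continuousAt hx).preimage_mem_nhds (closedBall_mem_nhds _ hr)),
      mp (k x).symm y, ?_, mp_mem_HD _ (hy3 _ hz2), fun p hp => ?_⟩
    · refine mp_mem_ZZ ((k x).symm.continuousOn.mono inter_subset_right) (mapsTo_univ _ _)
        ?_ hy1
      refine fun w hw h => hw.2.1 ?_
      have h1 : k x ((k x).symm w) ∈ closedBall (k x x) r := h.2
      rwa [(k x).right_inv hw.1.2] at h1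
    · have hp2 : k x p ∈ closedBall (k x x) r := hp.2
      obtain ⟨-, A, hA, hφ⟩ := hK hp2
      rw [(k x).left_inv hp.1] at hφ
      refine zo_cmp h0 (k x) (k p) hp.1 (hk p) hA hφ ?_ ?_ ⟨hq1 p, (hq2 p).zz.2⟩ (hq3 p)
      · refine ZZ_mono inter_subset_right ?_ hy1
        refine fun w hw => ⟨hw.2, fun h => hw.1 ?_⟩
        have h1 : w = k x p := h
        rw [h1]
        exact hp2
      · have h1 : z - y ∈ NN F univ (univ \ {k x p}) := by
          refine NN_mono subset_rfl ?_ hy2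
          refine fun w hw => ⟨mem_univ _, fun h => hw.2 ?_⟩
          have h1 : w = k x p := h
          rw [h1]
          exact hp2
        have := sub_mem (hz3 _ hp2) h1
        rwa [sub_sub_sub_cancel_left] at this

end

theorem zo_refl (E : Type) [NormedAddCommGroup E] [InnerProductSpace ℝ E] [FiniteDimensional ℝ E]
    [Nontrivial E] : ∃ R : E ≃L[ℝ] E, (R : E →L[ℝ] E).det = -1 := by
  obtain ⟨v, hv⟩ := exists_ne (0 : E)
  refine ⟨((ℝ ∙ v)ᗮ.reflection).toContinuousLinearEquiv, ?_⟩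
  have h := Submodule.det_reflection (ℝ ∙ v)ᗮ
  rw [Submodule.orthogonal_orthogonal, finrank_span_singleton hv, pow_one] at h
  exact h

variable {E : Type} [NormedAddCommGroup E] [InnerProductSpace ℝ E] [FiniteDimensional ℝ E]
  {M : Type} [MetricSpace M] [ChartedSpace E M] [IsManifold 𝓘(ℝ, E) ∞ M]
  [CompactSpace M] [Nonempty M] [Nontrivial E] {g : Met E M}

theorem loc_euc (p : M) : ∃ U : Set M, IsOpen U ∧ p ∈ U ∧ Euc (Module.finrank ℝ E) U := by
  let L : E ≃L[ℝ] (Fin (Module.finrank ℝ E) → ℝ) :=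
    ContinuousLinearEquiv.ofFinrankEq (by simp)
  let e := (chartAt E p).transHomeomorph L.toHomeomorph
  exact ⟨e.source, e.open_source, mem_chart_source E p, e, e.symm, e.target, e.open_target,
    e.continuousOn, e.symm.continuousOn, e.mapsTo, e.mapsTo_symm, fun x hx => e.left_inv hx,
    fun v hv => e.right_inv hv⟩

theorem exists_emb (g : Met E M) : ∃ (N : ℕ) (ι : C(M, Fin N → ℝ)), Injective ι := by
  obtain ⟨N, ι, C, hι⟩ := exists_lipEmb g
  exact ⟨N, ⟨EuclideanSpace.equiv (Fin N) ℝ ∘ ι,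
    (EuclideanSpace.equiv (Fin N) ℝ).continuous.comp hι.1.continuous⟩,
    (EuclideanSpace.equiv (Fin N) ℝ).injective.comp hι.1.injective⟩

theorem exists_or (h : OriL E M) (F : Type) [Field F] (h2 : (2 : F) ≠ 0) :
    Nonempty (OR F (Module.finrank ℝ E) M) := by
  classical
  obtain ⟨s, hs⟩ := h
  obtain ⟨R, hR⟩ := zo_refl E
  have hne : ∀ x, s x ≠ 0 := fun x hx => by
    have := (hs x).self_of_nhds
    rw [hx] at this
    simp at this
  have hL : ∀ x, ∃ L : E ≃L[ℝ] E, 0 < s x * (L : E →L[ℝ] E).det ∧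
      0 < s x * (L.symm : E →L[ℝ] E).det := fun x => by
    have key : ∀ L : E ≃L[ℝ] E, 0 < s x * (L : E →L[ℝ] E).det →
        0 < s x * (L.symm : E →L[ℝ] E).det := fun L hL => by
      rw [ContinuousLinearEquiv.det_coe_symm]
      have h0 : (L : E →L[ℝ] E).det ≠ 0 := fun h => by simp [h] at hL
      have : s x * ((L : E →L[ℝ] E).det)⁻¹ =
          s x * (L : E →L[ℝ] E).det * (((L : E →L[ℝ] E).det)⁻¹) ^ 2 := by
        field_simp
      rw [this]
      exact mul_pos hL (by positivity)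
    rcases lt_or_gt_of_ne (hne x) with h | h
    · have : 0 < s x * (R : E →L[ℝ] E).det := by rw [hR]; linarith
      exact ⟨R, this, key _ this⟩
    · have : 0 < s x * ((ContinuousLinearEquiv.refl ℝ E : E ≃L[ℝ] E) : E →L[ℝ] E).det := by
        have : ((ContinuousLinearEquiv.refl ℝ E : E ≃L[ℝ] E) : E →L[ℝ] E).det = 1 :=
          LinearMap.det_id
        rw [this]; linarith
      exact ⟨_, this, key _ this⟩
  choose L hL1 hL2 using hL
  refine zo_atlas h2 (fun x => (chartAt E x).transHomeomorph (L x).toHomeomorph)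
    (fun x => mem_chart_source E x) fun x => ?_
  filter_upwards [hs x, (source_open (E := E) x).mem_nhds (mem_extChartAt_source x)] with p h1 hp
  have hd : HasFDerivAt (κ E p ∘ (κ E x).symm) (fderiv ℝ (κ E p ∘ (κ E x).symm) (κ E x p))
      (κ E x p) :=
    ((contDiffAt_trans ((κ E x).map_source hp) (x' := p)
      (by rw [(κ E x).left_inv hp]; exact mem_extChartAt_source p)).differentiableAt
        (by simp)).hasFDerivAt
  generalize fderiv ℝ (κ E p ∘ (κ E x).symm) (κ E x p) = D at h1 hd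
  refine ⟨(L p : E →L[ℝ] E).comp (D.comp ((L x).symm : E →L[ℝ] E)), ?_, ?_⟩
  · have e : ((L p : E →L[ℝ] E).comp (D.comp ((L x).symm : E →L[ℝ] E))).det =
        (L p : E →L[ℝ] E).det * (D.det * ((L x).symm : E →L[ℝ] E).det) := by
      rw [← LinearMap.det_comp, ← LinearMap.det_comp]
      rfl
    rw [e]
    have h3 := mul_pos (mul_pos (hL1 p) (hL2 x)) h1
    have h4 : 0 < (s x * s p) ^ 2 := by
      have := mul_ne_zero (hne x) (hne p)
      positivity
    refine pos_of_mul_pos_left (b := (s x * s p) ^ 2) ?_ h4.le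
    refine h3.trans_eq ?_
    ring
  · have a1 : HasFDerivAt (κ E p ∘ (κ E x).symm) D ((L x).symm (L x (κ E x p))) := by
      rw [ContinuousLinearEquiv.symm_apply_apply]
      exact hd
    exact (L p).hasFDerivAt.comp _ (a1.comp _ (L x).symm.hasFDerivAt)

end Pool.Agent.Fu
end

-- part Pool.Agent.P.MP_365c00_gt.ZP4
section

/-! Change of end points on chains. -/

set_option linter.unusedSectionVars false
set_option linter.unusedVariables false

open Set Topology Filter Metric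

namespace Pool.Agent.Fu

variable {F : Type} [Field F] {M : Type} [MetricSpace M] {Z : Type} [TopologicalSpace Z]

variable {x y z x' y' z' x'' y'' : M} {a b : Ch F (Mo M)} (S : GS M)

namespace GS

theorem wh_contOn (hx : dist x' x < S.a) (hy : dist y y' < S.a) :
    ContinuousOn (S.wh x' y') (Pa x y) :=
  S.wh_cont (A := Pa x y) (x := fun _ => x') (y := fun _ => y') (f := fun γ => γ)
    continuousOn_const continuousOn_const continuousOn_id
    fun γ h => ⟨h.1, by rw [h.2.1]; exact hx, by rw [h.2.2]; exact hy⟩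

theorem zp4_Pa (hx : dist x' x < S.a) (hy : dist y y' < S.a) :
    MapsTo (S.wh x' y') (Pa x y) (Pa x' y') := fun γ h => (S.wh_mem h hx hy).1

theorem zp4_Om (hx : dist x' x < S.a) (hy : dist y y' < S.a) {t r : ℝ}
    (h : t + (dist x' x + dist y y') ≤ r) : MapsTo (S.wh x' y') (Om x y t) (Om x' y' r) :=
  fun γ hγ => ⟨(S.wh_mem hγ.1 hx hy).1, by
    rw [(S.wh_mem hγ.1 hx hy).2]
    linarith [hγ.2]⟩

theorem zp4_ww (hx : dist x'' x' + dist x' x < S.a) (hy : dist y y' + dist y' y'' < S.a)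
    {A B A' B' : Set (Mo M)} (hA0 : A ⊆ Pa x y)
    (hA : ∀ γ ∈ A, ∀ ω ∈ Pa x'' y'',
      ω.2 ≤ γ.2 + (dist x'' x' + dist x' x + (dist y y' + dist y' y'')) → ω ∈ A')
    (hB : ∀ γ ∈ A ∩ B, ∀ ω ∈ Pa x'' y'',
      ω.2 ≤ γ.2 + (dist x'' x' + dist x' x + (dist y y' + dist y' y'')) → ω ∈ B')
    (ha : a ∈ ZZ F A B) :
    mp (S.wh x'' y'') (mp (S.wh x' y') a) - mp (S.wh x'' y'') a ∈ NN F A' B' := by
  have d1 : dist x' x < S.a := by linarith [dist_nonneg (x := x'') (y := x')]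
  have d2 : dist x'' x' < S.a := by linarith [dist_nonneg (x := x') (y := x)]
  have d3 : dist y y' < S.a := by linarith [dist_nonneg (x := y') (y := y'')]
  have d4 : dist y' y'' < S.a := by linarith [dist_nonneg (x := y) (y := y')]
  have H := S.hp_wh_wh (A := Pa x y) (x := fun _ => x') (y := fun _ => y') (x' := fun _ => x'')
    (y' := fun _ => y'') (f := fun γ => γ) continuousOn_const continuousOn_const
    continuousOn_const continuousOn_const continuousOn_id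
    fun γ h => ⟨h.1, by rw [h.2.1]; exact hx, by rw [h.2.2]; exact hy⟩
  rw [mp_mp ((S.wh_contOn d1 d3).mono hA0) (S.wh_contOn d2 d4)
    ((S.zp4_Pa d1 d3).mono_left hA0) (mem_ZZ.1 ha).1]
  refine Htp.NN H.symm hA0 (fun γ h ω hω => hA γ h ω hω.1 ?_) (fun γ h ω hω => hB γ h ω hω.1 ?_) ha
  · have := hω.2
    simp only [(hA0 h).2.1, (hA0 h).2.2] at this
    exact this
  · have := hω.2
    simp only [(hA0 h.1).2.1, (hA0 h.1).2.2] at this
    exact this

theorem zp4_mul (hx : dist x' x < S.a) (hy : 2 * dist y y' < S.a) (hz : dist z z' < S.a)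
    {A B B0 C C' : Set (Mo M)} (hA0 : A ⊆ Pa x y) (hB0 : B ⊆ Pa y z)
    (hC : ∀ α ∈ A, ∀ β ∈ B, ∀ ω ∈ Pa x' z',
      ω.2 ≤ α.2 + β.2 + (dist x' x + 2 * dist y y' + dist z z') → ω ∈ C)
    (hC' : ∀ α ∈ A, ∀ β ∈ B ∩ B0, ∀ ω ∈ Pa x' z',
      ω.2 ≤ α.2 + β.2 + (dist x' x + 2 * dist y y' + dist z z') → ω ∈ C')
    (ha : a ∈ ZZ F A ∅) (hb : b ∈ ZZ F B B0) :
    mul (mp (S.wh x' y') a) (mp (S.wh y' z') b) - mp (S.wh x' z') (mul a b) ∈ NN F C C' := by
  have d1 : dist y y' < S.a := by linarith [dist_nonneg (x := y) (y := y')]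
  have d2 : dist y' y < S.a := by rwa [dist_comm]
  have H := S.hp_wh_cat (A := Pa x y ×ˢ Pa y z) (x := fun _ => x') (y := fun _ => y')
    (w := fun _ => z') (f := fun q : Mo M × Mo M => q.1) (g := fun q => q.2)
    continuousOn_const continuousOn_const continuousOn_const continuousOn_fst continuousOn_snd
    fun q h => ⟨h.1.1, h.2.1, by rw [h.1.2.2, h.2.2.1], by rw [h.1.2.1]; exact hx,
      by rw [h.1.2.2]; exact hy, by rw [h.2.2.2]; exact hz⟩
  have ha' : a ∈ CC F (Pa x y) := CC_mono hA0 (mem_ZZ.1 ha).1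
  have hb' : b ∈ CC F (Pa y z) := CC_mono hB0 (mem_ZZ.1 hb).1
  have hab := cross_mem_CC ha' hb'
  rw [mul_apply, mul_apply, cross_mp (S.wh_contOn hx d1) (S.wh_contOn d2 hz) ha' hb',
    mp_mp ((S.wh_contOn hx d1).prodMap (S.wh_contOn d2 hz))
      (cat_contOn (subset_refl (Pa x' y')) (subset_refl (Pa y' z')))
      ((S.zp4_Pa hx d1).prodMap (S.zp4_Pa d2 hz)) hab,
    mp_mp (cat_contOn (subset_refl (Pa x y)) (subset_refl (Pa y z))) (S.wh_contOn hx hz)
      (fun q h => cat_mem h.1 h.2) hab]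
  refine Htp.NN H.symm (prod_mono hA0 hB0) (fun q h ω hω => hC _ h.1 _ h.2 ω hω.1 ?_)
    (fun q h ω hω => hC' _ h.1.1 _ ⟨h.1.2, ?_⟩ ω hω.1 ?_) (cross_mem_ZZ ha hb)
  · have := hω.2
    simp only [(hA0 h.1).2.1, (hA0 h.1).2.2, (hB0 h.2).2.2] at this
    exact this
  · rcases h.2 with h2 | h2
    · exact absurd h2.1 (notMem_empty _)
    · exact h2.2
  · have := hω.2
    simp only [(hA0 h.1.1).2.1, (hA0 h.1.1).2.2, (hB0 h.1.2).2.2] at this
    exact this

theorem wh_ZZ (hx : dist x' x < S.a) (hy : dist y y' < S.a) {t t' r r' : ℝ}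
    (h : t + (dist x' x + dist y y') ≤ r) (h' : t' + (dist x' x + dist y y') ≤ r')
    (ha : a ∈ ZZ F (Om x y t) (Om x y t')) : mp (S.wh x' y') a ∈ ZZ F (Om x' y' r) (Om x' y' r') :=
  mp_mem_ZZ ((S.wh_contOn hx hy).mono (Om_sub x y t)) (S.zp4_Om hx hy h)
    ((S.zp4_Om hx hy h').mono_left inter_subset_right) ha
theorem wh_NN (hx : dist x' x < S.a) (hy : dist y y' < S.a) {t t' r r' : ℝ} (ht : t' ≤ t)
    (h : t + (dist x' x + dist y y') ≤ r) (h' : t' + (dist x' x + dist y y') ≤ r')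
    (ha : a ∈ NN F (Om x y t) (Om x y t')) : mp (S.wh x' y') a ∈ NN F (Om x' y' r) (Om x' y' r') :=
  mp_mem_NN ((S.wh_contOn hx hy).mono (Om_sub x y t)) (S.zp4_Om hx hy h) (S.zp4_Om hx hy h') ha
theorem wh_cyc (hx : dist x' x < S.a) (hy : dist y y' < S.a) {t r : ℝ}
    (h : t + (dist x' x + dist y y') ≤ r) (ha : a ∈ ZZ F (Om x y t) ∅) :
    mp (S.wh x' y') a ∈ ZZ F (Om x' y' r) ∅ :=
  mp_mem_ZZ ((S.wh_contOn hx hy).mono (Om_sub x y t)) (S.zp4_Om hx hy h)
    (fun _ h => h.2) ha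
theorem wh_BB (hx : dist x' x < S.a) (hy : dist y y' < S.a) {t r : ℝ}
    (h : t + (dist x' x + dist y y') ≤ r) (ha : a ∈ BB F (Om x y t)) :
    mp (S.wh x' y') a ∈ BB F (Om x' y' r) :=
  mp_mem_BB ((S.wh_contOn hx hy).mono (Om_sub x y t)) (S.zp4_Om hx hy h) ha
theorem wh_Pa (hx : dist x' x < S.a) (hy : dist y y' < S.a) (ha : a ∈ ZZ F (Pa x y) ∅) :
    mp (S.wh x' y') a ∈ ZZ F (Pa x' y') ∅ :=
  mp_mem_ZZ (S.wh_contOn hx hy) (S.zp4_Pa hx hy) (fun _ h => h.2) ha
theorem wh_BB_Pa (hx : dist x' x < S.a) (hy : dist y y' < S.a) (ha : a ∈ BB F (Pa x y)) :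
    mp (S.wh x' y') a ∈ BB F (Pa x' y') :=
  mp_mem_BB (S.wh_contOn hx hy) (S.zp4_Pa hx hy) ha
theorem mp_wh_self (ha : a ∈ CC F (Pa x y)) : mp (S.wh x y) a = a :=
  mp_eq_self (fun _ h => S.wh_self h) ha
/-- there and back -/
theorem wh_back (hx : 2 * dist x' x < S.a) (hy : 2 * dist y y' < S.a) {t t' r r' : ℝ}
    (h : t + 2 * (dist x' x + dist y y') ≤ r) (h' : t' + 2 * (dist x' x + dist y y') ≤ r')
    (ha : a ∈ ZZ F (Om x y t) (Om x y t')) :
    mp (S.wh x y) (mp (S.wh x' y') a) - a ∈ NN F (Om x y r) (Om x y r') := by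
  have e1 := dist_comm x x'
  have e2 := dist_comm y' y
  have := S.zp4_ww (x'' := x) (y'' := y) (x' := x') (y' := y') (by linarith) (by linarith)
    (Om_sub x y t) (A' := Om x y r) (B' := Om x y r')
    (fun γ hγ ω hω hl => ⟨hω, by linarith [hγ.2]⟩)
    (fun γ hγ ω hω hl => ⟨hω, by linarith [hγ.2.2]⟩) ha
  rwa [S.mp_wh_self (CC_mono (Om_sub x y t) (mem_ZZ.1 ha).1)] at this
theorem wh_back_cyc (hx : 2 * dist x' x < S.a) (hy : 2 * dist y y' < S.a) {t r : ℝ}
    (h : t + 2 * (dist x' x + dist y y') ≤ r) (ha : a ∈ ZZ F (Om x y t) ∅) :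
    mp (S.wh x y) (mp (S.wh x' y') a) - a ∈ BB F (Om x y r) := by
  have e1 := dist_comm x x'
  have e2 := dist_comm y' y
  have := S.zp4_ww (x'' := x) (y'' := y) (x' := x') (y' := y') (by linarith) (by linarith)
    (Om_sub x y t) (A' := Om x y r) (B' := ∅)
    (fun γ hγ ω hω hl => ⟨hω, by linarith [hγ.2]⟩) (fun γ hγ ω hω hl => hγ.2) ha
  rwa [S.mp_wh_self (CC_mono (Om_sub x y t) (mem_ZZ.1 ha).1), NN_empty] at this
/-- a cycle that bounds near by bounds -/
theorem BB_of_wh (hx : 2 * dist x' x < S.a) (hy : 2 * dist y y' < S.a) {t t' r : ℝ}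
    (h : t + 2 * (dist x' x + dist y y') ≤ r) (h' : t' + (dist x' x + dist y y') ≤ r)
    (ha : a ∈ ZZ F (Om x y t) ∅) (hb : mp (S.wh x' y') a ∈ BB F (Om x' y' t')) :
    a ∈ BB F (Om x y r) := by
  have e1 := dist_comm x x'
  have e2 := dist_comm y' y
  have n1 := dist_nonneg (x := x') (y := x)
  have n2 := dist_nonneg (x := y) (y := y')
  have h1 := S.wh_back_cyc hx hy h ha
  have h2 := S.wh_BB (x := x') (y := y') (x' := x) (y' := y) (r := r) (by linarith) (by linarith)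
    (by linarith) hb
  have := Submodule.sub_mem _ h2 h1
  rwa [sub_sub_cancel] at this
theorem BB_of_wh_Pa (hx : 2 * dist x' x < S.a) (hy : 2 * dist y y' < S.a)
    (ha : a ∈ ZZ F (Pa x y) ∅) (hb : mp (S.wh x' y') a ∈ BB F (Pa x' y')) : a ∈ BB F (Pa x y) := by
  have e1 := dist_comm x x'
  have e2 := dist_comm y' y
  have n1 := dist_nonneg (x := x') (y := x)
  have n2 := dist_nonneg (x := y) (y := y')
  have h1 := S.zp4_ww (x'' := x) (y'' := y) (x' := x') (y' := y') (by linarith) (by linarith)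
    (subset_refl (Pa x y)) (A' := Pa x y) (B' := ∅)
    (fun γ hγ ω hω hl => hω) (fun γ hγ ω hω hl => hγ.2) ha
  rw [S.mp_wh_self (mem_ZZ.1 ha).1, NN_empty] at h1
  have h2 := S.wh_BB_Pa (x := x') (y := y') (x' := x) (y' := y) (by linarith) (by linarith) hb
  have := Submodule.sub_mem _ h2 h1
  rwa [sub_sub_cancel] at this
theorem wh_wh_Pa (hx : dist x'' x' + dist x' x < S.a) (hy : dist y y' + dist y' y'' < S.a)
    (ha : a ∈ ZZ F (Pa x y) ∅) :
    mp (S.wh x'' y'') (mp (S.wh x' y') a) - mp (S.wh x'' y'') a ∈ BB F (Pa x'' y'') := by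
  rw [← NN_empty]
  exact S.zp4_ww hx hy (subset_refl _) (fun γ hγ ω hω hl => hω) (fun γ hγ ω hω hl => hγ.2) ha
/-- compatibility with products -/
theorem wh_mul (hx : dist x' x < S.a) (hy : 2 * dist y y' < S.a) (hz : dist z z' < S.a)
    {s t t' r r' : ℝ} (h : s + t + (dist x' x + 2 * dist y y' + dist z z') ≤ r)
    (h' : s + t' + (dist x' x + 2 * dist y y' + dist z z') ≤ r')
    (ha : a ∈ ZZ F (Om x y s) ∅) (hb : b ∈ ZZ F (Om y z t) (Om y z t')) :
    mul (mp (S.wh x' y') a) (mp (S.wh y' z') b) - mp (S.wh x' z') (mul a b) ∈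
      NN F (Om x' z' r) (Om x' z' r') :=
  S.zp4_mul hx hy hz (Om_sub x y s) (Om_sub y z t)
    (fun α hα β hβ ω hω hl => ⟨hω, by linarith [hα.2, hβ.2]⟩)
    (fun α hα β hβ ω hω hl => ⟨hω, by linarith [hα.2, hβ.2.2]⟩) ha hb
theorem wh_mul_Pa (hx : dist x' x < S.a) (hy : 2 * dist y y' < S.a) (hz : dist z z' < S.a)
    (ha : a ∈ ZZ F (Pa x y) ∅) (hb : b ∈ ZZ F (Pa y z) ∅) :
    mul (mp (S.wh x' y') a) (mp (S.wh y' z') b) - mp (S.wh x' z') (mul a b) ∈ BB F (Pa x' z') := by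
  rw [← NN_empty]
  exact S.zp4_mul hx hy hz (subset_refl _) (subset_refl _) (fun α hα β hβ ω hω hl => hω)
    (fun α hα β hβ ω hω hl => hβ.2) ha hb
theorem wh_pwr (hx : 2 * dist x x' < S.a) (n : ℕ) (ha : a ∈ ZZ F (Pa x x) ∅) :
    pwr n (mp (S.wh x' x') a) - mp (S.wh x' x') (pwr n a) ∈ BB F (Pa x' x') := by
  have d1 : dist x x' < S.a := by linarith [dist_nonneg (x := x) (y := x')]
  have d2 : dist x' x < S.a := by rwa [dist_comm]
  induction n with
  | zero => simp only [pwr, sub_self, Submodule.zero_mem]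
  | succ n ih =>
    have h1 := mul_Pa_left ih (S.wh_Pa d2 d1 ha)
    have h2 := S.wh_mul_Pa d2 hx d1 (pwr_mem n ha) ha
    have := Submodule.add_mem _ h1 h2
    rw [map_sub, LinearMap.sub_apply, sub_add_sub_cancel] at this
    exact this

end GS

end Pool.Agent.Fu
end

-- part Pool.Agent.P.MP_365c00_gt.ZR1
section

/-! Morse theory: homotopy equivalences of pairs and the local model. -/

set_option linter.unusedSectionVars false
set_option linter.unusedVariables false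

open Set Filter Topology Metric Function

namespace Pool.Agent.Fu

variable {F : Type} [Field F] {X Y : Type} [TopologicalSpace X] [TopologicalSpace Y]

/-- a homotopy equivalence of pairs is an isomorphism on relative homology -/
theorem QI_htp {A B : Set X} {A' B' : Set Y} {f : X → Y} {k : Y → X} (hB : B ⊆ A) (hB' : B' ⊆ A')
    (hf : ContinuousOn f A) (hk : ContinuousOn k A') (f1 : MapsTo f A A') (f2 : MapsTo f B B')
    (k1 : MapsTo k A' A) (k2 : MapsTo k B' B)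
    (h1 : Htp A (fun x x' => x' ∈ A ∧ (x ∈ B → x' ∈ B)) id (k ∘ f))
    (h2 : Htp A' (fun y y' => y' ∈ A' ∧ (y ∈ B' → y' ∈ B')) id (f ∘ k)) :
    QI (F := F) bd bd (mp f) (CC F A) (CC F B) (CC F A') (CC F B') := by
  refine ⟨fun c hc hb hn => ?_, fun c hc hb => ?_⟩
  · have hn' : mp f c ∈ NN F A' B' := hn
    have h3 := mp_mem_NN hk k1 k2 hn'
    rw [mp_mp hf hk f1 hc] at h3
    have h4 := h1.NN (A0 := A) (B0 := B) (A' := A) (B' := B) subset_rfl (fun x _ y hy => hy.1)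
      (fun x hx y hy => hy.2 hx.2) (mem_ZZ.2 ⟨hc, hb⟩)
    rw [mp_id] at h4
    have h5 := sub_mem h3 h4
    rwa [sub_sub_cancel] at h5
  · have hz : c ∈ ZZ F A' B' := mem_ZZ.2 ⟨hc, hb⟩
    have h3 := mem_ZZ.1 (mp_mem_ZZ hk k1 (k2.mono_left inter_subset_right) hz)
    have h4 := h2.NN (A0 := A') (B0 := B') (A' := A') (B' := B') subset_rfl (fun x _ y hy => hy.1)
      (fun x hx y hy => hy.2 hx.2) hz
    rw [mp_id, ← mp_mp hk hf k1 hc] at h4
    exact ⟨mp k c, h3.1, h3.2, h4⟩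

theorem GnR.map {A B : Set X} {A' B' : Set Y} {f : X → Y} (hB : B ⊆ A) (hf : ContinuousOn f A)
    (f1 : MapsTo f A A') (f2 : MapsTo f B B')
    (hq : QI (F := F) bd bd (mp f) (CC F A) (CC F B) (CC F A') (CC F B')) {g : Ch F X}
    (h : GnR F A B g) : GnR F A' B' (mp f g) := by
  obtain ⟨hz, hn, hs⟩ := h
  refine ⟨mp_mem_ZZ hf f1 (f2.mono_left inter_subset_right) hz,
    fun hm => hn (hq.1 g (mem_ZZ.1 hz).1 (mem_ZZ.1 hz).2 hm), fun z hz' => ?_⟩
  obtain ⟨c, hc, hb, hm⟩ := hq.2 z (mem_ZZ.1 hz').1 (mem_ZZ.1 hz').2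
  have hm' : mp f c - z ∈ NN F A' B' := hm
  obtain ⟨r, hr⟩ := hs c (mem_ZZ.2 ⟨hc, hb⟩)
  have h3 := mp_mem_NN hf f1 f2 hr
  rw [map_sub, map_smul] at h3
  have h4 := sub_mem h3 hm'
  rw [sub_sub_sub_cancel_left] at h4
  exact ⟨r, h4⟩

theorem QI_zero {A B : Set X} {A' B' : Set Y} {f : X → Y} (hB : B ⊆ A) (hf : ContinuousOn f A)
    (f1 : MapsTo f A A') (f2 : MapsTo f B B')
    (hq : QI (F := F) bd bd (mp f) (CC F A) (CC F B) (CC F A') (CC F B'))
    (h : ZZ F A B ≤ NN F A B) : ZZ F A' B' ≤ NN F A' B' := by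
  intro z hz
  obtain ⟨c, hc, hb, hm⟩ := hq.2 z (mem_ZZ.1 hz).1 (mem_ZZ.1 hz).2
  have hm' : mp f c - z ∈ NN F A' B' := hm
  have h4 := sub_mem (mp_mem_NN hf f1 f2 (h (mem_ZZ.2 ⟨hc, hb⟩))) hm'
  rwa [sub_sub_cancel] at h4

/-- the local model at a nondegenerate critical point -/
theorem gn_model {P P' : Type} [NormedAddCommGroup P] [NormedSpace ℝ P] [NormedAddCommGroup P']
    [NormedSpace ℝ P'] {Θ : P × P' → X} {Ξ : X → P × P'} {B L : Set X} {ρ : ℝ} (hρ : 0 < ρ)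
    (hL : L ⊆ B) (hΘ : ContinuousOn Θ (ball 0 ρ)) (hΞ : ContinuousOn Ξ B)
    (m1 : MapsTo Θ (ball 0 ρ) B) (m2 : MapsTo Ξ B (ball 0 ρ))
    (i1 : ∀ p ∈ ball 0 ρ, Ξ (Θ p) = p) (i2 : ∀ x ∈ B, Θ (Ξ x) = x)
    (c1 : ∀ w ∈ ball (0 : P) ρ, w ≠ 0 → Θ (w, 0) ∈ L) (c2 : ∀ w' ∈ ball (0 : P') ρ, Θ (0, w') ∉ L)
    (c3 : ∀ p ∈ ball (0 : P × P') ρ, Θ p ∈ L → ∀ s ∈ Icc (0 : ℝ) 1, Θ (p.1, s • p.2) ∈ L)
    {r : ℕ} {o : Ch F P} (ho : Gen F r univ 0 o) (hc : o ∈ CC F (ball 0 ρ)) :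
    GnR F B L (mp (fun w => Θ (w, 0)) o) := by
  have b0 : ∀ p ∈ ball (0 : P × P') ρ, ∀ s ∈ Icc (0 : ℝ) 1,
      (p.1, s • p.2) ∈ ball (0 : P × P') ρ := by
    intro p hp s hs
    rw [mem_ball_zero_iff, Prod.norm_def, max_lt_iff] at hp ⊢
    refine ⟨hp.1, lt_of_le_of_lt ?_ hp.2⟩
    change ‖s • p.2‖ ≤ ‖p.2‖
    rw [norm_smul, Real.norm_of_nonneg hs.1]
    exact mul_le_of_le_one_left (norm_nonneg _) hs.2
  have b1 : ∀ w ∈ ball (0 : P) ρ, ((w, 0) : P × P') ∈ ball (0 : P × P') ρ := by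
    intro w hw
    rw [mem_ball_zero_iff] at hw
    rw [mem_ball_zero_iff, Prod.norm_def, max_lt_iff]
    exact ⟨hw, by simpa using hρ⟩
  have b2 : ∀ p ∈ ball (0 : P × P') ρ, p.1 ∈ ball (0 : P) ρ ∧ p.2 ∈ ball (0 : P') ρ := by
    intro p hp
    rw [mem_ball_zero_iff, Prod.norm_def, max_lt_iff] at hp
    exact ⟨mem_ball_zero_iff.2 hp.1, mem_ball_zero_iff.2 hp.2⟩
  have hs : ∀ u ∈ Icc (0 : ℝ) 1, 1 - u ∈ Icc (0 : ℝ) 1 := fun u hu =>
    ⟨by linarith [hu.2], by linarith [hu.1]⟩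
  have hg := (Gen.restrict (A := univ) isOpen_ball (mem_ball_self hρ)
    (by rwa [univ_inter])).1 ho
  rw [univ_inter] at hg
  have hf : ContinuousOn (fun w : P => Θ (w, 0)) (ball 0 ρ) := hΘ.comp (by fun_prop) b1
  have f1 : MapsTo (fun w : P => Θ (w, 0)) (ball 0 ρ) B := fun w hw => m1 (b1 w hw)
  have f2 : MapsTo (fun w : P => Θ (w, 0)) (ball 0 ρ \ {0}) L := fun w hw => c1 w hw.1 hw.2
  refine GnR.map sdiff_subset hf f1 f2 ?_ ⟨hg.zz, hg.ne, hg.span⟩
  refine QI_htp (k := fun x => (Ξ x).1) sdiff_subset hL hf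
    (continuous_fst.comp_continuousOn hΞ) f1 f2 (fun x hx => (b2 _ (m2 hx)).1) ?_ ?_ ?_
  · intro x hx
    refine ⟨(b2 _ (m2 (hL hx))).1, fun h0 => c2 _ (b2 _ (m2 (hL hx))).2 ?_⟩
    have h1 : (Ξ x).1 = 0 := h0
    rw [← h1, Prod.mk.eta, i2 x (hL hx)]
    exact hx
  · refine (Htp.refl continuousOn_id fun x hx => ⟨hx, id⟩).congr (fun _ _ => rfl) fun w hw => ?_
    change w = (Ξ (Θ (w, 0))).1
    rw [i1 _ (b1 w hw)]
  · have hΞ' : ContinuousOn (fun w : ℝ × X => Ξ w.2) (Icc 0 1 ×ˢ B) :=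
      hΞ.comp continuous_snd.continuousOn fun w hw => hw.2
    refine ⟨fun w => Θ ((Ξ w.2).1, (1 - w.1) • (Ξ w.2).2), ?_, fun x hx => ?_, fun x hx => ?_,
      fun u hu x hx => ⟨m1 (b0 _ (m2 hx) _ (hs u hu)), fun hx' => ?_⟩⟩
    · exact hΘ.comp (hΞ'.fst.prodMk
        ((continuousOn_const.sub continuous_fst.continuousOn).smul hΞ'.snd))
        fun w hw => b0 _ (m2 hw.2) _ (hs _ hw.1)
    · simpa using i2 x hx
    · simp
    · exact c3 _ (m2 hx) (by rwa [i2 x hx]) _ (hs u hu)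

end Pool.Agent.Fu
end

-- part Pool.Agent.P.MP_365c00_gt.ZR2
section

/-! Morse theory: deformations. -/

set_option linter.unusedSectionVars false
set_option linter.unusedVariables false

open Set Filter Topology Metric Function

namespace Pool.Agent.Fu

variable {X : Type} [TopologicalSpace X] [CompactSpace X] [T2Space X] {W : Set X} {f : X → ℝ}

theorem Dn.le {x y : X} (h : Dn W f x y) : f y ≤ f x :=
  h.2.elim (fun e => by rw [e]) le_of_lt

theorem Dn.trans' {x y z : X} (h : Dn W f x y) (h' : Dn W f y z) : Dn W f x z := by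
  refine ⟨h'.1, ?_⟩
  rcases h.2 with e | e
  · exact e ▸ h'.2
  · exact Or.inr (h'.le.trans_lt e)

/-- composing deformations -/
theorem Htp.comp_id {R R' R'' : X → X → Prop} {P P' : X → X} (h : Htp W R id P)
    (h' : Htp W R' id P') (hW : ∀ x ∈ W, ∀ y, R x y → y ∈ W ∧ R'' x y)
    (hR : ∀ x ∈ W, ∀ y z, R x y → R' y z → R'' x z) : Htp W R'' id (P' ∘ P) :=
  (h.mono subset_rfl fun x hx y r => (hW x hx y r).2).trans
    ((h'.comp h.cont_right.1 fun x hx => (hW x hx _ (h.cont_right.2 x hx)).1).mono subset_rfl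
      fun x hx z r => hR x hx _ z (h.cont_right.2 x hx) r)

/-- one local step -/
theorem am_local (hW : IsClosed W) {β : X → ℝ} (hβ : Continuous β) {z : X} (hz : Mv W f z) :
    ∃ N ∈ 𝓝 z, ∀ ε > 0, ∃ P, Htp W (fun y y' => Dn W f y y' ∧ |β y' - β y| ≤ ε) id P ∧
      ∀ y ∈ N ∩ W, f (P y) < f y := by
  classical
  obtain ⟨N, hN, m, hm, h⟩ := hz
  obtain ⟨K, hK, hKc, hKN⟩ := exists_mem_nhds_isClosed_subset (interior_mem_nhds.2 hN)
  obtain ⟨ρ, h0, h1, h01⟩ := exists_continuous_zero_one_of_isClosed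
    (isOpen_interior (s := K)).isClosed_compl (isClosed_singleton (x := z))
    (disjoint_singleton_right.2 fun hz => hz (mem_interior_iff_mem_nhds.2 hK))
  have hρ : ∀ y, y ∉ K → ρ y = 0 := fun y hy => h0 fun h' => hy (interior_subset h')
  have KN : K ⊆ N := hKN.trans interior_subset
  refine ⟨{y | 0 < ρ y}, (isOpen_lt continuous_const ρ.continuous).mem_nhds
    (show 0 < ρ z from (h1 rfl).symm ▸ one_pos), fun ε hε => ?_⟩
  obtain ⟨δ, δ0, δ1, hδ⟩ : ∃ δ : ℝ, 0 < δ ∧ δ ≤ 1 ∧ ∀ y ∈ K ∩ W, ∀ s ∈ Icc 0 δ,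
      |β (m (y, s)) - β y| ≤ ε := by
    have c1 : ContinuousOn (fun q : X × ℝ => |β (m q) - β q.1|) ((K ∩ W) ×ˢ Icc 0 1) :=
      ((hβ.comp_continuousOn (hm.mono (prod_mono (inter_subset_inter_left _ KN) subset_rfl))).sub
        (hβ.comp continuous_fst).continuousOn).abs
    have c2 : IsCompact ((K ∩ W) ×ˢ Icc (0 : ℝ) 1 ∩
        (fun q : X × ℝ => |β (m q) - β q.1|) ⁻¹' Ici ε) :=
      ((hKc.inter hW).isCompact.prod isCompact_Icc).of_isClosed_subset
        (c1.preimage_isClosed_of_isClosed ((hKc.inter hW).prod isClosed_Icc) isClosed_Ici)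
        inter_subset_left
    obtain ⟨η, η0, hη⟩ := c2.exists_forall_le' (f := Prod.snd) (a := 0)
      continuous_snd.continuousOn fun q hq => hq.1.2.1.lt_of_ne fun e => by
        have h3 : ε ≤ |β (m q) - β q.1| := hq.2
        rw [show q = (q.1, 0) from Prod.ext rfl e.symm, (h _ ⟨KN hq.1.1.1, hq.1.1.2⟩).1,
          sub_self, abs_zero] at h3
        exact h3.not_gt hε
    refine ⟨min (η / 2) 1, by positivity, min_le_right _ _, fun y hy s hs => ?_⟩
    by_contra! hc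
    have := hη (y, s) ⟨⟨hy, hs.1, hs.2.trans (min_le_right _ _)⟩, hc.le⟩
    linarith [hs.2.trans (min_le_left _ _)]
  have hs : ∀ u ∈ Icc (0 : ℝ) 1, ∀ y, u * (δ * ρ y) ∈ Icc 0 δ := fun u hu y =>
    ⟨mul_nonneg hu.1 (mul_nonneg δ0.le (h01 y).1), (mul_le_of_le_one_left
      (mul_nonneg δ0.le (h01 y).1) hu.2).trans (mul_le_of_le_one_right δ0.le (h01 y).2)⟩
  obtain ⟨H, hH⟩ : ∃ H : ℝ × X → X,
      ∀ p, H p = if p.2 ∈ N then m (p.2, p.1 * (δ * ρ p.2)) else p.2 := ⟨_, fun _ => rfl⟩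
  have hz : ∀ u y, y ∈ W → u * (δ * ρ y) = 0 → H (u, y) = y := fun u y hy e => by
    rw [hH]
    split_ifs with hn
    · rw [e]
      exact (h y ⟨hn, hy⟩).1
    · rfl
  have hp : ∀ u y, u * (δ * ρ y) ≠ 0 → y ∈ K ∧ H (u, y) = m (y, u * (δ * ρ y)) := fun u y e => by
    have hy : y ∈ K := by_contra fun hy => e (by rw [hρ y hy, mul_zero, mul_zero])
    exact ⟨hy, by rw [hH, if_pos (KN hy)]⟩
  refine ⟨fun y => H (1, y), ⟨H, fun p hp => ?_, fun y hy => hz 0 y hy (zero_mul _),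
    fun _ _ => rfl, fun u hu y hy => ?_⟩, fun y hy => ?_⟩
  · by_cases hk : p.2 ∈ K
    · have ho : {q : ℝ × X | q.2 ∈ interior N} ∈ 𝓝 p :=
        (isOpen_interior.preimage continuous_snd).mem_nhds (hKN hk)
      rw [← continuousWithinAt_inter ho]
      refine ContinuousOn.continuousWithinAt ?_ ⟨hp, hKN hk⟩
      refine (hm.comp (f := fun q : ℝ × X => (q.2, q.1 * (δ * ρ q.2))) (by fun_prop)
        fun q hq => ⟨⟨interior_subset hq.2, hq.1.2⟩, (hs _ hq.1.1 _).1,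
          (hs _ hq.1.1 _).2.trans δ1⟩).congr fun q hq => ?_
      rw [hH, if_pos (interior_subset hq.2)]
      rfl
    · have ho : {q : ℝ × X | q.2 ∈ Kᶜ} ∈ 𝓝 p :=
        (hKc.isOpen_compl.preimage continuous_snd).mem_nhds hk
      rw [← continuousWithinAt_inter ho]
      refine ContinuousOn.continuousWithinAt ?_ ⟨hp, hk⟩
      exact continuous_snd.continuousOn.congr fun q hq =>
        hz q.1 q.2 hq.1.2 (by rw [hρ _ hq.2, mul_zero, mul_zero])
  · by_cases e : u * (δ * ρ y) = 0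
    · rw [hz u y hy e]
      exact ⟨⟨hy, Or.inl rfl⟩, by simpa using hε.le⟩
    · obtain ⟨k1, k2⟩ := hp u y e
      obtain ⟨k3, k4⟩ := (h y ⟨KN k1, hy⟩).2 _
        ⟨(hs u hu y).1.lt_of_ne' e, (hs u hu y).2.trans δ1⟩
      rw [k2]
      exact ⟨⟨k3, Or.inr k4⟩, hδ y ⟨k1, hy⟩ _ (hs u hu y)⟩
  · have e : 0 < 1 * (δ * ρ y) := mul_pos one_pos (mul_pos δ0 hy.1)
    obtain ⟨k1, k2⟩ := hp 1 y e.ne'
    exact (congrArg f k2).trans_lt
      ((h y ⟨KN k1, hy.2⟩).2 _ ⟨e, (hs 1 ⟨zero_le_one, le_rfl⟩ y).2.trans δ1⟩).2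

/-- a small deformation which lowers `f` on a compact set -/
theorem am_step (hW : IsClosed W) (hf : Continuous f) {β : X → ℝ} (hβ : Continuous β) {C : Set X}
    (hC : IsCompact C) (hCW : C ⊆ W) (h : ∀ z ∈ C, Mv W f z) {ε : ℝ} (hε : 0 < ε) :
    ∃ η > 0, ∃ P, Htp W (fun y y' => Dn W f y y' ∧ |β y' - β y| ≤ ε) id P ∧
      ∀ y ∈ C, f (P y) ≤ f y - η := by
  obtain ⟨P, h1, h2⟩ := hC.induction_on (p := fun t => ∀ ε > 0, ∃ P,
      Htp W (fun y y' => Dn W f y y' ∧ |β y' - β y| ≤ ε) id P ∧ ∀ y ∈ t ∩ W, f (P y) < f y)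
    (fun ε hε => ⟨id, Htp.refl continuousOn_id fun x hx => ⟨⟨hx, Or.inl rfl⟩, by simpa using hε.le⟩,
      fun y hy => hy.1.elim⟩)
    (fun s t hst H ε hε => (H ε hε).imp fun P hP => ⟨hP.1, fun y hy => hP.2 y ⟨hst hy.1, hy.2⟩⟩)
    (fun s t H H' ε hε => by
      obtain ⟨P, p1, p2⟩ := H _ (half_pos hε)
      obtain ⟨P', q1, q2⟩ := H' _ (half_pos hε)
      refine ⟨P' ∘ P, p1.comp_id q1 (fun x _ y r => ⟨r.1.1, r.1, r.2.trans (half_le_self hε.le)⟩)
        fun x _ y z r r' => ⟨r.1.trans' r'.1, ?_⟩, fun y hy => ?_⟩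
      · linarith [abs_sub_le (β z) (β y) (β x), r.2, r'.2]
      · have d := (p1.cont_right.2 y hy.2).1
        have d' := (q1.cont_right.2 _ d.1).1.le
        rcases hy.1 with k | k
        · exact d'.trans_lt (p2 y ⟨k, hy.2⟩)
        · rcases d.2 with e | e
          · rw [comp_apply, e]
            exact q2 y ⟨k, hy.2⟩
          · exact d'.trans_lt e)
    (fun z hz => (am_local hW hβ (h z hz)).imp fun N hN =>
      ⟨mem_nhdsWithin_of_mem_nhds hN.1, hN.2⟩) ε hε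
  obtain ⟨η, η0, hη⟩ := hC.exists_forall_le' (f := fun y => f y - f (P y)) (a := 0)
    (hf.continuousOn.sub (hf.comp_continuousOn (h1.cont_right.1.mono hCW)))
    fun y hy => sub_pos.2 (h2 y ⟨hy, hCW hy⟩)
  exact ⟨η, η0, P, h1, fun y hy => by linarith [hη y hy]⟩

/-- pushing down through regular levels -/
theorem am_push (hW : IsClosed W) (hf : Continuous f) {b c : ℝ}
    (h : ∀ z ∈ W, b ≤ f z → f z ≤ c → Mv W f z) :
    ∃ Ψ, Htp W (Dn W f) id Ψ ∧ ∀ y ∈ W, f y ≤ c → f (Ψ y) < b := by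
  obtain ⟨η, η0, P, p1, p2⟩ := am_step hW hf (β := fun _ => 0) continuous_const
    (C := W ∩ f ⁻¹' Icc b c) (hW.inter (isClosed_Icc.preimage hf)).isCompact inter_subset_left
    (fun z hz => h z hz.1 hz.2.1 hz.2.2) one_pos
  have key : ∀ n : ℕ, ∃ Ψ, Htp W (Dn W f) id Ψ ∧
      ∀ y ∈ W, f y ≤ c → f (Ψ y) < b ∨ f (Ψ y) ≤ c - n * η := fun n => by
    induction n with
    | zero => exact ⟨id, Htp.refl continuousOn_id fun x hx => ⟨hx, Or.inl rfl⟩,
        fun y _ hy => Or.inr (by simpa using hy)⟩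
    | succ n ih =>
      obtain ⟨Ψ, q1, q2⟩ := ih
      refine ⟨P ∘ Ψ, q1.comp_id p1 (fun x _ y r => ⟨r.1, r⟩) fun x _ y z r r' => r.trans' r'.1,
        fun y hy hc => ?_⟩
      have d := q1.cont_right.2 y hy
      rcases lt_or_ge (f (Ψ y)) b with k | k
      · exact Or.inl ((p1.cont_right.2 _ d.1).1.le.trans_lt k)
      · have k1 := p2 _ ⟨d.1, k, d.le.trans hc⟩
        have k2 := (q2 y hy hc).resolve_left k.not_gt
        right
        push_cast
        rw [comp_apply]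
        linarith
  obtain ⟨n, hn⟩ := exists_nat_gt ((c - b) / η)
  rw [div_lt_iff₀ η0] at hn
  obtain ⟨Ψ, q1, q2⟩ := key n
  exact ⟨Ψ, q1, fun y hy hc => (q2 y hy hc).elim id fun k => by linarith⟩

/-- pushing down to a critical level -/
theorem am_crit (hW : IsClosed W) (hf : Continuous f) {y0 : X} {U : Set X} (hU : IsOpen U)
    (h0 : y0 ∈ U) {c : ℝ} (h : ∀ z ∈ W, z ≠ y0 → f y0 ≤ f z → f z ≤ c → Mv W f z) :
    ∃ Φ, Htp W (Dn W f) id Φ ∧ ∀ y ∈ W, f y ≤ c → f (Φ y) < f y0 ∨ Φ y ∈ U := by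
  obtain ⟨β, b0, b1, -⟩ := exists_continuous_zero_one_of_isClosed (isClosed_singleton (x := y0))
    hU.isClosed_compl (disjoint_singleton_left.2 fun hz => hz h0)
  obtain ⟨η, η0, P, p1, p2⟩ := am_step hW hf β.continuous
    (C := W ∩ f ⁻¹' Icc (f y0) c ∩ β ⁻¹' Ici (1 / 2))
    ((hW.inter (isClosed_Icc.preimage hf)).inter (isClosed_Ici.preimage β.continuous)).isCompact
    (fun z hz => hz.1.1) (fun z hz => h z hz.1.1 (fun e => by
      have k : 1 / 2 ≤ β z := hz.2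
      rw [b0 e] at k
      norm_num at k) hz.1.2.1 hz.1.2.2) one_half_pos
  obtain ⟨Ψ, q1, q2⟩ := am_push hW hf (b := f y0 + η) (c := c) fun z hz k1 k2 =>
    h z hz (fun e => by rw [e] at k1; linarith) (by linarith) k2
  refine ⟨P ∘ Ψ, q1.comp_id p1 (fun x _ y r => ⟨r.1, r⟩) fun x _ y z r r' => r.trans' r'.1,
    fun y hy hc => ?_⟩
  have d := q1.cont_right.2 y hy
  have d' := p1.cont_right.2 _ d.1
  rcases lt_or_ge (f (Ψ y)) (f y0) with k | k
  · exact Or.inl (d'.1.le.trans_lt k)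
  rcases lt_or_ge (β (Ψ y)) (1 / 2) with k' | k'
  · refine Or.inr (by_contra fun hn => ?_)
    have e : β (P (Ψ y)) = 1 := b1 hn
    linarith [(abs_le.1 d'.2).2]
  · have k1 := p2 _ ⟨⟨d.1, k, d.le.trans hc⟩, k'⟩
    have k2 := q2 y hy hc
    exact Or.inl (by rw [comp_apply]; linarith)

end Pool.Agent.Fu
end

-- part Pool.Agent.P.MP_365c00_gt.ZR4
section

/-! Morse theory: broken geodesics and sampled paths. -/

set_option linter.unusedSectionVars false
set_option linter.unusedVariables false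

open Set Filter Topology Metric Function

namespace Pool.Agent.Fu

variable {M : Type} [MetricSpace M] {δ l : ℝ} {k : ℕ} {t : ℕ → ℝ} {x y : M}

theorem Part.mono' {δ' : ℝ} (ht : Part δ l k t) (h : δ ≤ δ') : Part δ' l k t :=
  ⟨ht.1, ht.2.1, ht.2.2.1, fun j hj => ⟨(ht.2.2.2 j hj).1, (ht.2.2.2 j hj).2.trans_le h⟩⟩

theorem Wk_closed (x y : M) (k : ℕ) : IsClosed (Wk x y k) := by
  have e : Wk x y k = {c | c 0 = x} ∩ ⋂ j, ⋂ (_ : k ≤ j), {c : ℕ → M | c j = y} := by
    ext c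
    simp [Wk]
  rw [e]
  exact (isClosed_eq (continuous_apply 0) continuous_const).inter
    (isClosed_iInter fun j => isClosed_iInter fun _ =>
      isClosed_eq (continuous_apply j) continuous_const)

theorem Eb_cont (k : ℕ) (t : ℕ → ℝ) : Continuous (Eb (M := M) k t) := by
  unfold Eb
  fun_prop

theorem fE_cont (k : ℕ) (t : ℕ → ℝ) : Continuous (fE (M := M) k t) :=
  (continuous_const.mul (Eb_cont k t)).sqrt

theorem Eb_nonneg (ht : Part δ l k t) (c : ℕ → M) : 0 ≤ Eb k t c :=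
  Finset.sum_nonneg fun j hj =>
    div_nonneg (sq_nonneg _) (sub_pos.2 (ht.2.2.2 j (Finset.mem_range.1 hj)).1).le

theorem zr4_sum (ht : Part δ l k t) : ∑ j ∈ Finset.range k, (t (j + 1) - t j) = l := by
  rw [Finset.sum_range_sub, ht.2.1, ht.2.2.1, sub_zero]

theorem zr4_fE (ht : Part δ l k t) (c : ℕ → M) : fE k t c = √(l * Eb k t c) := by
  rw [fE, ht.2.2.1]

theorem zr4_sq (ht : Part δ l k t) (c : ℕ → M) : fE k t c ^ 2 = l * Eb k t c := by
  rw [zr4_fE ht, Real.sq_sqrt (mul_nonneg ht.pos.le (Eb_nonneg ht c))]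

theorem fE_lt_iff (ht : Part δ l k t) (c c' : ℕ → M) :
    fE k t c < fE k t c' ↔ Eb k t c < Eb k t c' := by
  rw [zr4_fE ht, zr4_fE ht, Real.sqrt_lt_sqrt_iff (mul_nonneg ht.pos.le (Eb_nonneg ht c)),
    mul_lt_mul_iff_right₀ ht.pos]

/-- Cauchy-Schwarz -/
theorem sum_le_fE (ht : Part δ l k t) (c : ℕ → M) :
    ∑ j ∈ Finset.range k, dist (c j) (c (j + 1)) ≤ fE k t c := by
  have h := Finset.sq_sum_div_le_sum_sq_div (Finset.range k) (fun j => dist (c j) (c (j + 1)))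
    (g := fun j => t (j + 1) - t j) fun j hj => sub_pos.2 (ht.2.2.2 j (Finset.mem_range.1 hj)).1
  rw [zr4_sum ht, div_le_iff₀ ht.pos, mul_comm] at h
  rw [zr4_fE ht]
  exact Real.le_sqrt_of_sq_le h

theorem step_lt (ht : Part δ l k t) {a b : ℝ} (ha : 0 < a) (hb : b ^ 2 * δ ≤ a ^ 2 * l)
    {c : ℕ → M} (hc : fE k t c < b) : ∀ j < k, dist (c j) (c (j + 1)) < a := by
  intro j hj
  have hl := ht.pos
  obtain ⟨h1, h2⟩ := ht.2.2.2 j hj
  have h0 : 0 ≤ fE k t c := Real.sqrt_nonneg _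
  have h3 : l * Eb k t c < b ^ 2 := by
    rw [← zr4_sq ht]
    exact pow_lt_pow_left₀ hc h0 two_ne_zero
  have h4 : dist (c j) (c (j + 1)) ^ 2 / (t (j + 1) - t j) ≤ Eb k t c :=
    Finset.single_le_sum (f := fun j => dist (c j) (c (j + 1)) ^ 2 / (t (j + 1) - t j))
      (fun j hj => div_nonneg (sq_nonneg _)
        (sub_pos.2 (ht.2.2.2 j (Finset.mem_range.1 hj)).1).le) (Finset.mem_range.2 hj)
  rw [div_le_iff₀ (sub_pos.2 h1)] at h4
  have h5 : 0 < b ^ 2 := pow_pos (h0.trans_lt hc) 2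
  have h6 := mul_le_mul_of_nonneg_right h4 hl.le
  have h7 := mul_lt_mul_of_pos_right h3 (sub_pos.2 h1)
  have h8 := mul_lt_mul_of_pos_left h2 h5
  have h9 : dist (c j) (c (j + 1)) ^ 2 * l < a ^ 2 * l := by linarith
  exact lt_of_pow_lt_pow_left₀ 2 ha.le (lt_of_mul_lt_mul_right h9 hl.le)

theorem brk_le (S : GS M) (ht : Part δ l k t) {c : ℕ → M} (hc : c ∈ Wk x y k)
    (h : ∀ j < k, dist (c j) (c (j + 1)) < S.a) :
    S.brk k c ∈ Pa x y ∧ (S.brk k c).2 ≤ fE k t c := by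
  obtain ⟨h1, h2⟩ := S.brk_mem k h
  rw [hc.1, hc.2 k le_rfl] at h1
  exact ⟨h1, h2 ▸ sum_le_fE ht c⟩

theorem nod_cont (k : ℕ) (t : ℕ → ℝ) : Continuous (nod (M := M) k t) := by
  refine continuous_pi fun j => ?_
  unfold nod
  fun_prop

theorem zr4_key (ht : Part δ l k t) {u D : ℝ} (h0 : 0 ≤ u) (h1 : u ≤ 1) {c c' : ℕ → M}
    (h : ∀ j < k, dist (c' j) (c' (j + 1)) ≤
      (1 - u) * dist (c j) (c (j + 1)) + u * (D * ((t (j + 1) - t j) / l))) :
    l * Eb k t c' ≤ (1 - u) * (l * Eb k t c) + u * D ^ 2 := by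
  have hl := ht.pos
  have h2 : Eb k t c' ≤ (1 - u) * Eb k t c + u * (D / l) ^ 2 * l := by
    rw [← zr4_sum ht, Eb, Eb, Finset.mul_sum, Finset.mul_sum, ← Finset.sum_add_distrib,
      zr4_sum ht]
    refine Finset.sum_le_sum fun j hj => ?_
    have hj' := Finset.mem_range.1 hj
    have h3 := sub_pos.2 (ht.2.2.2 j hj').1
    have h4 := pow_le_pow_left₀ dist_nonneg (h j hj') 2
    have h5 : 0 ≤ u * (1 - u) * (dist (c j) (c (j + 1)) - D * ((t (j + 1) - t j) / l)) ^ 2 :=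
      mul_nonneg (mul_nonneg h0 (sub_nonneg.2 h1)) (sq_nonneg _)
    have e : (1 - u) * (dist (c j) (c (j + 1)) ^ 2 / (t (j + 1) - t j)) +
        u * (D / l) ^ 2 * (t (j + 1) - t j) = ((1 - u) * dist (c j) (c (j + 1)) ^ 2 +
          u * (D * ((t (j + 1) - t j) / l)) ^ 2) / (t (j + 1) - t j) := by
      field_simp
    rw [e]
    exact div_le_div_of_nonneg_right (by nlinarith) h3.le
  have e : l * (u * (D / l) ^ 2 * l) = u * D ^ 2 := by field_simp
  have := mul_le_mul_of_nonneg_left h2 hl.le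
  rw [mul_add, e] at this
  linarith

theorem nod_mem (ht : Part δ l k t) {γ : Mo M} (h : γ ∈ Pa x y) :
    nod k t γ ∈ Wk x y k ∧ fE k t (nod k t γ) ≤ γ.2 := by
  have hl := ht.pos
  refine ⟨⟨?_, fun j hj => ?_⟩, ?_⟩
  · rw [nod, Nat.zero_min, ht.2.1, zero_div, mul_zero]
    exact h.2.1
  · rw [nod, min_eq_right hj, ht.2.2.1, div_self hl.ne', mul_one]
    exact h.2.2
  · have := zr4_key ht (u := 1) (D := γ.2) zero_le_one le_rfl (c := nod k t γ) (c' := nod k t γ)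
      fun j hj => by
        rw [sub_self, zero_mul, zero_add, one_mul, nod, nod, min_eq_left hj.le,
          min_eq_left (Nat.succ_le_of_lt hj), ht.2.2.1]
        refine (h.1.2.1 _ _).trans (le_of_eq ?_)
        rw [abs_sub_comm, ← mul_sub, ← sub_div, abs_of_nonneg
          (mul_nonneg h.1.1 (div_nonneg (sub_pos.2 (ht.2.2.2 j hj).1).le hl.le))]
    rw [zr4_fE ht]
    exact Real.sqrt_le_iff.2 ⟨h.1.1, by linarith⟩

/-- sampling the broken geodesic is homotopic to the identity -/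
theorem htp_nod_brk (S : GS M) (ht : Part δ l k t) {b : ℝ} (hb : b ^ 2 * δ ≤ S.a ^ 2 * l) :
    Htp (Sub (Wk x y k) (fE k t) b) (fun c c' => c' ∈ Wk x y k ∧ fE k t c' ≤ fE k t c) id
      (nod k t ∘ S.brk k) := by
  have hl := ht.pos
  have hs : ∀ c ∈ Sub (Wk x y k) (fE k t) b, ∀ j < k, dist (c j) (c (j + 1)) < S.a :=
    fun c hc => step_lt ht S.a_pos hb hc.2
  have hc : ContinuousOn (fun z : ℝ × (ℕ → M) => S.brk k z.2)
      (Icc 0 1 ×ˢ Sub (Wk x y k) (fE k t) b) :=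
    S.brk_cont k continuousOn_snd fun z hz => hs _ hz.2
  refine ⟨fun z j => (S.brk k z.2).1
    ((1 - z.1) * ∑ i ∈ Finset.range (min j k), dist (z.2 i) (z.2 (i + 1)) +
      z.1 * ((S.brk k z.2).2 * (t (min j k) / t k))),
    continuousOn_pi.2 fun j => ContinuousOn.evp hc (ContinuousOn.add (by fun_prop)
      (continuousOn_fst.mul (hc.snd.mul continuousOn_const))), fun c h => ?_, fun c h => ?_,
    fun u hu c h => ?_⟩
  · funext j
    simp only [sub_zero, one_mul, zero_mul, add_zero, id]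
    rw [S.brk_corner k (hs c h) (min_le_right j k)]
    rcases le_total j k with e | e
    · rw [min_eq_left e]
    · rw [min_eq_right e, h.1.2 k le_rfl, h.1.2 j e]
  · funext j
    simp only [sub_self, one_mul, zero_mul, zero_add, comp_apply, nod]
  · obtain ⟨h1, h2⟩ := brk_le S ht h.1 (hs c h)
    have h3 := (S.brk_mem k (hs c h)).2
    refine ⟨⟨?_, fun j hj => ?_⟩, ?_⟩
    · simp only [Nat.zero_min, Finset.range_zero, Finset.sum_empty, ht.2.1, zero_div, mul_zero,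
        add_zero]
      exact h1.2.1
    · simp only [min_eq_right hj, ht.2.2.1, div_self hl.ne', mul_one, ← h3]
      rw [← add_mul, sub_add_cancel, one_mul]
      exact h1.2.2
    · rw [zr4_fE ht, zr4_fE ht]
      refine Real.sqrt_le_sqrt ((zr4_key ht (D := (S.brk k c).2) hu.1 hu.2 (c := c)
        fun j hj => ?_).trans ?_)
      · simp only [min_eq_left hj.le, min_eq_left (Nat.succ_le_of_lt hj), ht.2.2.1,
          Finset.sum_range_succ]
        refine (h1.1.2.1 _ _).trans (le_of_eq ?_)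
        have h4 : 0 ≤ (1 - u) * dist (c j) (c (j + 1)) +
            u * ((S.brk k c).2 * ((t (j + 1) - t j) / l)) :=
          add_nonneg (mul_nonneg (sub_nonneg.2 hu.2) dist_nonneg) (mul_nonneg hu.1
            (mul_nonneg h1.1.1 (div_nonneg (sub_pos.2 (ht.2.2.2 j hj).1).le hl.le)))
        rw [abs_sub_comm, ← abs_of_nonneg h4]
        congr 1
        ring
      · have h4 := pow_le_pow_left₀ h1.1.1 h2 2
        rw [zr4_sq ht] at h4
        have := mul_le_mul_of_nonneg_left h4 hu.1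
        linarith

end Pool.Agent.Fu
end

-- part Pool.Agent.P.MP_365c00_gt.ZR6
section

/-! Morse theory: calculus and linear algebra. -/

set_option linter.unusedSectionVars false
set_option linter.unusedVariables false

open Set Filter Topology Metric Function
open scoped Manifold ContDiff
open Pool.Agent.GeoN

namespace Pool.Agent.Fu

variable {E : Type} [NormedAddCommGroup E] [InnerProductSpace ℝ E] [FiniteDimensional ℝ E]
  {M : Type} [MetricSpace M] [ChartedSpace E M] [IsManifold 𝓘(ℝ, E) ∞ M]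
  [CompactSpace M] [Nonempty M] [Nontrivial E] {g : Met E M}

variable {sh : Short g} {a : ℝ}

section
variable {P P' : Type} [NormedAddCommGroup P] [NormedSpace ℝ P] [FiniteDimensional ℝ P]
  [NormedAddCommGroup P'] [NormedSpace ℝ P'] [FiniteDimensional ℝ P']

theorem zr6_ball {φ : P → ℝ} (hφ : ContDiffAt ℝ 2 φ 0) (L : P' →L[ℝ] P) (c : ℝ)
    (h : ∀ w, w ≠ 0 → 0 < c * fderiv ℝ (fderiv ℝ φ) 0 (L w) (L w)) :
    ∃ r > 0, ∀ q : P, ‖q‖ < r → DifferentiableAt ℝ φ q ∧ DifferentiableAt ℝ (fderiv ℝ φ) q ∧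
      ∀ w, w ≠ 0 → 0 < c * fderiv ℝ (fderiv ℝ φ) q (L w) (L w) := by
  have h1 : ContDiffAt ℝ 1 (fderiv ℝ φ) 0 := hφ.fderiv_right (by norm_num)
  have h2 : ContinuousAt (fderiv ℝ (fderiv ℝ φ)) 0 :=
    (h1.fderiv_right (m := 0) (by norm_num)).continuousAt
  have h3 : ∀ᶠ q in 𝓝 (0 : P), ∀ w ∈ sphere (0 : P') 1,
      0 < c * fderiv ℝ (fderiv ℝ φ) q (L w) (L w) := by
    refine (isCompact_sphere _ _).eventually_forall_of_forall_eventually fun w hw => ?_
    have hL : ContinuousAt (fun z : P × P' => L z.2) (0, w) := by fun_prop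
    have hD : ContinuousAt (fun z : P × P' => fderiv ℝ (fderiv ℝ φ) z.1) (0, w) :=
      ContinuousAt.comp (f := Prod.fst) h2 continuousAt_fst
    have hc : ContinuousAt (fun z : P × P' => c * fderiv ℝ (fderiv ℝ φ) z.1 (L z.2) (L z.2))
        (0, w) := continuousAt_const.mul ((hD.clm_apply hL).clm_apply hL)
    refine hc.eventually (lt_mem_nhds (h w ?_))
    rintro rfl
    simp at hw
  obtain ⟨r, hr, h4⟩ := Metric.eventually_nhds_iff.1
    ((hφ.eventually (by simp)).and ((h1.eventually (by simp)).and h3))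
  refine ⟨r, hr, fun q hq => ?_⟩
  obtain ⟨a1, a2, a3⟩ := h4 (y := q) (by rwa [dist_zero_right])
  refine ⟨a1.differentiableAt (by simp), a2.differentiableAt (by simp), fun w hw => ?_⟩
  have hn : 0 < ‖w‖ := norm_pos_iff.2 hw
  have a4 := a3 (‖w‖⁻¹ • w) (by simp [norm_smul, hn.ne'])
  simp only [map_smul, _root_.smul_apply, smul_eq_mul] at a4
  have a5 : 0 < ‖w‖⁻¹ * ‖w‖⁻¹ := by positivity
  refine (mul_pos_iff_of_pos_left a5).1 ?_
  linarith

theorem zr6_line {φ : P → ℝ} {p v : P} {s : ℝ} (h1 : DifferentiableAt ℝ φ (p + s • v))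
    (h2 : DifferentiableAt ℝ (fderiv ℝ φ) (p + s • v)) :
    HasDerivAt (fun s : ℝ => φ (p + s • v)) (fderiv ℝ φ (p + s • v) v) s ∧
      HasDerivAt (fun s : ℝ => fderiv ℝ φ (p + s • v) v)
        (fderiv ℝ (fderiv ℝ φ) (p + s • v) v v) s := by
  have hl : HasDerivAt (fun s : ℝ => p + s • v) v s := by
    simpa using ((hasDerivAt_id s).smul_const v).const_add p
  refine ⟨h1.hasFDerivAt.comp_hasDerivAt s hl, ?_⟩
  simpa using (h2.hasFDerivAt.comp_hasDerivAt s hl).clm_apply (hasDerivAt_const s v)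

theorem zr6_min {φ : P → ℝ} (hφ : ContDiffAt ℝ 2 φ 0) (h0 : fderiv ℝ φ 0 = 0) (L : P' →L[ℝ] P)
    (c : ℝ) (h : ∀ w, w ≠ 0 → 0 < c * fderiv ℝ (fderiv ℝ φ) 0 (L w) (L w)) :
    ∀ᶠ w in 𝓝 (0 : P'), w ≠ 0 → c * φ 0 < c * φ (L w) := by
  obtain ⟨r, hr, hb⟩ := zr6_ball hφ L c h
  have hL : ∀ᶠ w in 𝓝 (0 : P'), ‖L w‖ < r :=
    L.continuous.norm.continuousAt.eventually (gt_mem_nhds (by simpa using hr))
  filter_upwards [hL] with w hw hw0
  have hs : ∀ s ∈ Icc (0 : ℝ) 1, ‖0 + s • L w‖ < r := by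
    intro s hs
    rw [zero_add, norm_smul, Real.norm_of_nonneg hs.1]
    exact (mul_le_of_le_one_left (norm_nonneg _) hs.2).trans_lt hw
  have hd := fun s hs' => zr6_line (hb _ (hs s hs')).1 (hb _ (hs s hs')).2.1
  obtain ⟨x, hx, e1⟩ := exists_hasDerivAt_eq_slope _ _ zero_lt_one
    (fun s hs' => (hd s hs').1.continuousAt.continuousWithinAt)
    (fun s hs' => (hd s (Ioo_subset_Icc_self hs')).1)
  have sub : Icc 0 x ⊆ Icc (0 : ℝ) 1 := Icc_subset_Icc_right hx.2.le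
  obtain ⟨y, hy, e2⟩ := exists_hasDerivAt_eq_slope _ _ hx.1
    (fun s hs' => (hd s (sub hs')).2.continuousAt.continuousWithinAt)
    (fun s hs' => (hd s (sub (Ioo_subset_Icc_self hs'))).2)
  have e3 := (hb _ (hs y (sub (Ioo_subset_Icc_self hy)))).2.2 w hw0
  rw [e2, e1] at e3
  simp only [zero_smul, add_zero, one_smul, zero_add, h0, _root_.zero_apply, sub_zero,
    div_one] at e3
  rw [← mul_div_assoc] at e3
  have := (div_pos_iff_of_pos_right hx.1).1 e3
  linarith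

/-- strict local maximum -/
theorem cc_neg {φ : P → ℝ} (hφ : ContDiffAt ℝ 2 φ 0) (h0 : fderiv ℝ φ 0 = 0)
    (h : ∀ w, w ≠ 0 → fderiv ℝ (fderiv ℝ φ) 0 w w < 0) :
    ∀ᶠ w in 𝓝 (0 : P), w ≠ 0 → φ w < φ 0 := by
  filter_upwards [zr6_min hφ h0 (ContinuousLinearMap.id ℝ P) (-1) fun w hw => by
    simpa using h w hw] with w h1 hw
  simpa using h1 hw

/-- convexity in the second variable -/
theorem cc_pos {φ : P × P' → ℝ} (hφ : ContDiffAt ℝ 2 φ 0) (h0 : fderiv ℝ φ 0 = 0)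
    (h : ∀ w : P', w ≠ 0 → 0 < fderiv ℝ (fderiv ℝ φ) 0 (0, w) (0, w)) :
    ∀ᶠ p in 𝓝 (0 : P × P'), φ 0 ≤ φ (0, p.2) ∧
      ∀ s ∈ Icc (0 : ℝ) 1, φ (p.1, s • p.2) ≤ max (φ (p.1, 0)) (φ p) := by
  have h' : ∀ w : P', w ≠ 0 → 0 < 1 * fderiv ℝ (fderiv ℝ φ) 0
      (ContinuousLinearMap.inr ℝ P P' w) (ContinuousLinearMap.inr ℝ P P' w) := fun w hw => by
    rw [one_mul]
    exact h w hw
  obtain ⟨r, hr, hb⟩ := zr6_ball hφ _ 1 h'
  have ht : Tendsto Prod.snd (𝓝 (0 : P × P')) (𝓝 0) := continuous_snd.tendsto _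
  filter_upwards [ht.eventually (zr6_min hφ h0 _ 1 h'), ball_mem_nhds 0 hr] with p h1 h2
  rw [mem_ball_zero_iff] at h2
  constructor
  · by_cases hp : p.2 = 0
    · rw [hp]
      exact le_rfl
    · simpa using (h1 hp).le
  · have e : ∀ s : ℝ, (p.1, (0 : P')) + s • ((0 : P), p.2) = (p.1, s • p.2) := fun s => by simp
    have hs : ∀ s ∈ Icc (0 : ℝ) 1, ‖(p.1, (0 : P')) + s • ((0 : P), p.2)‖ < r := by
      intro s hs
      rw [e, Prod.norm_mk, norm_smul, Real.norm_of_nonneg hs.1]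
      exact max_lt ((norm_fst_le p).trans_lt h2)
        (((mul_le_of_le_one_left (norm_nonneg _) hs.2).trans (norm_snd_le p)).trans_lt h2)
    have hd := fun s hs' => zr6_line (hb _ (hs s hs')).1 (hb _ (hs s hs')).2.1
    have hc : ConvexOn ℝ (Icc (0 : ℝ) 1) fun s : ℝ => φ ((p.1, (0 : P')) + s • ((0 : P), p.2)) := by
      refine convexOn_of_hasDerivWithinAt2_nonneg (convex_Icc _ _)
        (fun s hs' => (hd s hs').1.continuousAt.continuousWithinAt)
        (fun s hs' => (hd s (interior_subset hs')).1.hasDerivWithinAt)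
        (fun s hs' => (hd s (interior_subset hs')).2.hasDerivWithinAt) fun s hs' => ?_
      by_cases hp : p.2 = 0
      · have : ((0 : P), p.2) = 0 := by rw [hp]; rfl
        rw [this, map_zero]
      · simpa using ((hb _ (hs s (interior_subset hs'))).2.2 p.2 hp).le
    intro s hs'
    have := hc.le_on_segment (left_mem_Icc.2 zero_le_one) (right_mem_Icc.2 zero_le_one)
      (z := s) (by rwa [segment_eq_Icc zero_le_one])
    simp only [e] at this
    simpa only [zero_smul, one_smul] using this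

end

theorem zr6_par (N : Submodule ℝ (ℕ → E)) [FiniteDimensional ℝ N] {r : ℕ}
    (hr : Module.finrank ℝ N = r) : ∃ ν : (Fin r → ℝ) →L[ℝ] (ℕ → E), Injective ν ∧
      (∀ w, ν w ∈ N) ∧ ∀ v ∈ N, ∃ w, ν w = v := by
  let b := (Module.finBasisOfFinrankEq ℝ N hr).equivFun
  refine ⟨LinearMap.toContinuousLinearMap (N.subtype ∘ₗ b.symm.toLinearMap),
    N.injective_subtype.comp b.symm.injective, fun w => (b.symm w).2, fun v hv => ⟨b ⟨v, hv⟩, ?_⟩⟩
  exact congrArg Subtype.val (b.symm_apply_apply ⟨v, hv⟩)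

/-- a maximal negative subspace -/
theorem la_neg (Q : (ℕ → E) →ₗ[ℝ] (ℕ → E) →ₗ[ℝ] ℝ) (k : ℕ) :
    ∃ ν : (Fin (nI (fun v w => Q v w) (Vk E k)) → ℝ) →L[ℝ] (ℕ → E),
      (∀ w, ν w ∈ Vk E k) ∧ ∀ w, w ≠ 0 → Q (ν w) (ν w) < 0 := by
  obtain ⟨N, h1, h2, h3⟩ := nI_spec (fun v w => Q v w) (Vk E k)
  have := Submodule.finiteDimensional_of_le h1
  obtain ⟨ν, a1, a2, -⟩ := zr6_par N h2
  exact ⟨ν, fun w => h1 (a2 w), fun w hw => h3 _ (a2 w) ((map_ne_zero_iff ν a1).2 hw)⟩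

/-- its complement -/
theorem la_compl {Q : (ℕ → E) →ₗ[ℝ] (ℕ → E) →ₗ[ℝ] ℝ} {k : ℕ} (hs : ∀ v w, Q v w = Q w v)
    (hn : ∀ v ∈ Vk E k, (∀ w ∈ Vk E k, Q v w = 0) → v = 0) {P : Type} [NormedAddCommGroup P]
    [NormedSpace ℝ P] [FiniteDimensional ℝ P] (ν : P →L[ℝ] (ℕ → E)) (h1 : ∀ w, ν w ∈ Vk E k)
    (h2 : ∀ w, w ≠ 0 → Q (ν w) (ν w) < 0)
    (hr : Module.finrank ℝ P = nI (fun v w => Q v w) (Vk E k)) :
    ∃ (r : ℕ) (e : P × (Fin r → ℝ) →L[ℝ] (ℕ → E)) (μ : (ℕ → E) →L[ℝ] P × (Fin r → ℝ)),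
      (∀ p, e p ∈ Vk E k) ∧ (∀ w, e (w, 0) = ν w) ∧
      (∀ w, w ≠ 0 → 0 < Q (e (0, w)) (e (0, w))) ∧ (∀ p, μ (e p) = p) ∧
      ∀ v ∈ Vk E k, e (μ v) = v := by
  have hi : Injective ν := by
    refine (injective_iff_map_eq_zero ν).2 fun w hw => ?_
    by_contra h
    have := h2 w h
    rw [hw, map_zero] at this
    exact lt_irrefl _ this
  obtain ⟨N', b1, b2, b3, b4, -⟩ := nI_compl (N := LinearMap.range (ν : P →ₗ[ℝ] (ℕ → E))) hs hn
    (by rintro _ ⟨w, rfl⟩; exact h1 w) ((LinearMap.finrank_range_of_inj hi).trans hr) (by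
      rintro _ ⟨w, rfl⟩ hw
      exact h2 w ((map_ne_zero_iff ν hi).1 hw))
  have := Submodule.finiteDimensional_of_le b1
  obtain ⟨ν', a1, a2, a3⟩ := zr6_par N' rfl
  have he : ∀ p, ν.coprod ν' p ∈ Vk E k := fun p => add_mem (h1 p.1) (b1 (a2 p.2))
  have hk : LinearMap.ker (ν.coprod ν').toLinearMap = ⊥ := by
    refine LinearMap.ker_eq_bot'.2 fun p hp => ?_
    have e : ν p.1 + ν' p.2 = 0 := hp
    have m : ν p.1 ∈ LinearMap.range (ν : P →ₗ[ℝ] (ℕ → E)) ⊓ N' :=
      ⟨⟨p.1, rfl⟩, by rw [eq_neg_of_add_eq_zero_left e]; exact neg_mem (a2 p.2)⟩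
    rw [b2, Submodule.mem_bot] at m
    rw [m, zero_add] at e
    exact Prod.ext ((map_eq_zero_iff ν hi).1 m) ((map_eq_zero_iff ν' a1).1 e)
  obtain ⟨μ, hμ⟩ := LinearMap.exists_leftInverse_of_injective _ hk
  let ext : (Fin k → E) →ₗ[ℝ] (ℕ → E) :=
    LinearMap.pi fun j => if h : j < k then LinearMap.proj ⟨j, h⟩ else 0
  let res : (ℕ → E) →L[ℝ] (Fin k → E) :=
    ContinuousLinearMap.pi fun i => ContinuousLinearMap.proj (i : ℕ)
  have er : ∀ v ∈ Vk E k, ext (res v) = v := by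
    intro v hv
    funext j
    by_cases h : j < k
    · simp [ext, res, h]
    · simp [ext, res, h, hv.2 j (not_lt.1 h)]
  have hl : ∀ p, (LinearMap.toContinuousLinearMap (μ ∘ₗ ext) ∘L res) (ν.coprod ν' p) = p := by
    intro p
    change μ (ext (res (ν.coprod ν' p))) = p
    rw [er _ (he p)]
    exact LinearMap.congr_fun hμ p
  refine ⟨_, ν.coprod ν', LinearMap.toContinuousLinearMap (μ ∘ₗ ext) ∘L res, he, fun w => by simp,
    fun w hw => ?_, hl, fun v hv => ?_⟩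
  · simpa using b4 _ (a2 w) ((map_ne_zero_iff ν' a1).2 hw)
  · rw [← b3] at hv
    obtain ⟨_, ⟨x, rfl⟩, y, hy, rfl⟩ := Submodule.mem_sup.1 hv
    obtain ⟨w, rfl⟩ := a3 y hy
    exact congrArg (ν.coprod ν') (hl (x, w))

end Pool.Agent.Fu
end

-- part Pool.Agent.P.MP_365c00_gt.ZW5
section

/-! Cutting formal cyclic words. -/

set_option linter.unusedSectionVars false
set_option linter.unusedVariables false

open Set Topology

namespace Pool.Agent.Fu

variable {F : Type} [Field F] {X Y : Type} [TopologicalSpace X] [TopologicalSpace Y] {q : ℕ}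

variable [NeZero q]

theorem zw5_idx (a b : ZMod q) {j : ℕ} (hj : j < q) : b + j + 1 = a ↔ j = (a - b - 1).val := by
  constructor
  · intro h
    have : a - b - 1 = (j : ZMod q) := by rw [← h]; ring
    rw [this, ZMod.val_natCast_of_lt hj]
  · intro h
    rw [h, ZMod.natCast_zmod_val]; ring

theorem zw5_pos : 0 < q := Nat.pos_of_ne_zero (NeZero.ne q)

theorem zw5_self (b : ZMod q) : (b - b - 1).val = q - 1 := by
  have h0 : 0 < q := zw5_pos
  refine ((zw5_idx b b (j := q - 1) (by omega)).1 ?_).symm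
  have : ((q - 1 : ℕ) : ZMod q) + 1 = 0 := by
    have h1 : ((q - 1 + 1 : ℕ) : ZMod q) = 0 := by
      rw [Nat.sub_add_cancel h0]; exact ZMod.natCast_self q
    simpa using h1
  rw [add_assoc, this, add_zero]

theorem zw5_lt {a b : ZMod q} (h : a ≠ b) : (a - b - 1).val < q - 1 := by
  have h1 : (a - b - 1).val < q := ZMod.val_lt _
  have h2 : (a - b - 1).val ≠ q - 1 := by
    intro h2
    rw [← zw5_self b] at h2
    have := ZMod.val_injective q h2
    apply h
    linear_combination this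
  omega

/-- the word without homotopy letters -/
def zw5_bw (b : ZMod q) (I : Finset (ZMod q)) : List Lt :=
  (List.range (q - 1)).map fun j : ℕ => if b + j + 1 ∈ I then Lt.I else Lt.O

theorem zw5_nil (b : ZMod q) (I : Finset (ZMod q)) : phi (F := F) b I [] = wd (zw5_bw b I) := by
  rw [phi, zw5_bw]
  congr 1
  generalize List.range (q - 1) = L
  induction L with
  | nil => rfl
  | cons x L ih =>
    rw [List.map_cons, ← ih]
    rfl

theorem zw5_cons (a b : ZMod q) (I : Finset (ZMod q)) (l : List (ZMod q)) :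
    phi (F := F) b I (a :: l) = lin (pw (F := F) (a - b - 1).val) (phi (F := F) b I l) := rfl

theorem zw5_len (b : ZMod q) (I : Finset (ZMod q)) : (zw5_bw b I).length = q - 1 := by
  simp [zw5_bw]

theorem zw5_get (b : ZMod q) (I : Finset (ZMod q)) (j : ℕ) (hj : j < (zw5_bw b I).length) :
    (zw5_bw b I)[j] = if b + j + 1 ∈ I then Lt.I else Lt.O := by
  simp [zw5_bw]

theorem zw5_noS (b : ZMod q) (I : Finset (ZMod q)) : Lt.S ∉ zw5_bw b I := by
  intro h
  obtain ⟨j, -, hj⟩ := List.mem_map.1 h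
  split_ifs at hj

theorem zw5_count (p : ℕ → Prop) [DecidablePred p] (n : ℕ) :
    ((List.range n).map fun j => if p j then Lt.I else Lt.O).count Lt.I =
      ((Finset.range n).filter p).card := by
  induction n with
  | zero => simp
  | succ n ih =>
    rw [List.range_succ, List.map_append, List.count_append, ih, Finset.range_add_one,
      Finset.filter_insert]
    by_cases h : p n
    · rw [if_pos h, Finset.card_insert_of_notMem (by simp)]
      simp [h]
    · rw [if_neg h]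
      simp [h]

theorem zw5_countI {b : ZMod q} {I : Finset (ZMod q)} (hb : b ∈ I) :
    (zw5_bw b I).count Lt.I + 1 = I.card := by
  rw [← Finset.card_erase_add_one hb]
  congr 1
  rw [zw5_bw, zw5_count (fun j : ℕ => b + j + 1 ∈ I)]
  have h0 : 0 < q := zw5_pos
  refine Finset.card_bij (fun j _ => b + j + 1) ?_ ?_ ?_
  · intro j hj
    rw [Finset.mem_filter, Finset.mem_range] at hj
    refine Finset.mem_erase.2 ⟨fun h => ?_, hj.2⟩
    have := (zw5_idx b b (j := j) (by omega)).1 h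
    rw [zw5_self] at this
    omega
  · intro i hi j hj h
    rw [Finset.mem_filter, Finset.mem_range] at hi hj
    rw [(zw5_idx _ b (j := i) (by omega)).1 h, ← (zw5_idx _ b (j := j) (by omega)).1 rfl]
  · intro a ha
    rw [Finset.mem_erase] at ha
    have h1 := (zw5_idx a b (ZMod.val_lt (a - b - 1))).2 rfl
    exact ⟨(a - b - 1).val, Finset.mem_filter.2 ⟨Finset.mem_range.2 (zw5_lt ha.1), by
      rw [h1]; exact ha.2⟩, h1⟩

theorem zw5_wd_mem {s : Set (List Lt)} {w : List Lt} (h : w ∈ s) :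
    wd (F := F) w ∈ Finsupp.supported F F s := Finsupp.single_mem_supported F 1 h

theorem phi_len (b : ZMod q) (I : Finset (ZMod q)) (l : List (ZMod q)) :
    phi (F := F) b I l ∈ Finsupp.supported F F {w | w.length = q - 1} := by
  induction l with
  | nil => rw [zw5_nil]; exact zw5_wd_mem (zw5_len b I)
  | cons a l ih =>
    rw [zw5_cons]
    refine lin_mem (fun w hw => ?_) ih
    exact Finsupp.supported_mono (fun v hv => hv.1.trans hw) (pw_supp _ w)

theorem rw_phi (a b : ZMod q) (I : Finset (ZMod q)) (l : List (ZMod q)) :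
    lin (rw (F := F) (a - b - 1).val) (phi (F := F) b I l) = phi b (insert a I) l := by
  induction l with
  | nil =>
    rw [zw5_nil, zw5_nil, lin_wd, rw_of_noS _ (zw5_noS b I)]
    congr 1
    refine List.ext_getElem (by simp [zw5_len]) fun j h1 h2 => ?_
    have hj : j < q := by rw [zw5_len] at h2; omega
    rw [List.getElem_set, zw5_get, zw5_get]
    by_cases h : (a - b - 1).val = j
    · rw [if_pos h, if_pos (Finset.mem_insert.2 (Or.inl ((zw5_idx a b hj).2 h.symm)))]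
    · rw [if_neg h]
      have h' : ¬ b + j + 1 = a := fun h' => h ((zw5_idx a b hj).1 h').symm
      simp only [Finset.mem_insert, h', false_or]
  | cons c l ih =>
    rw [zw5_cons, zw5_cons, ← ih, map_lin, map_lin]
    simp only [rw_pw]

theorem zw5_pre (a b : ZMod q) (z : FC F q) :
    lin (fun z : Finset (ZMod q) × List (ZMod q) => phi (F := F) b z.1 z.2) (pre a z) =
      lin (pw (F := F) (a - b - 1).val)
        (lin (fun z : Finset (ZMod q) × List (ZMod q) => phi (F := F) b z.1 z.2) z) := by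
  induction z using Finsupp.induction_linear with
  | zero => simp
  | add f g hf hg => simp only [map_add, hf, hg]
  | single x r =>
    rw [pre, Finsupp.lmapDomain_apply, Finsupp.mapDomain_single, lin_single, lin_single, map_smul,
      zw5_cons]

theorem dw_phi (b : ZMod q) (I : Finset (ZMod q)) (l : List (ZMod q)) :
    lin (dw (F := F)) (phi (F := F) b I l) =
      lin (fun z : Finset (ZMod q) × List (ZMod q) => phi (F := F) b z.1 z.2) (df (F := F) I l) := by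
  induction l with
  | nil => rw [zw5_nil, lin_wd, dw_of_noS (zw5_noS b I), df, map_zero]
  | cons a l ih =>
    rw [zw5_cons, df, map_sub, map_sub, lin_single, lin_single, one_smul, one_smul, zw5_pre, ← ih,
      map_lin]
    simp only [dw_pw]
    rw [lin_sub (fun w => wd w - rw (a - b - 1).val w), lin_sub, lin_wd_self, rw_phi, map_lin]

theorem phi_supp {b : ZMod q} {I : Finset (ZMod q)} (hb : b ∈ I) (l : List (ZMod q)) :
    phi (F := F) b I l ∈ Finsupp.supported F F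
      {w | w.length = q - 1 ∧ w.count Lt.S = l.length ∧ w.count Lt.I + 1 = I.card ∧
        ∀ b' ∈ I, b' ≠ b → w[(b' - b - 1).val]? = some Lt.I} := by
  induction l with
  | nil =>
    rw [zw5_nil]
    refine zw5_wd_mem ⟨zw5_len b I, List.count_eq_zero.2 (zw5_noS b I), zw5_countI hb,
      fun b' hb' hne => ?_⟩
    have h1 : (b' - b - 1).val < (zw5_bw b I).length := by rw [zw5_len]; exact zw5_lt hne
    rw [List.getElem?_eq_getElem h1, zw5_get, (zw5_idx b' b (ZMod.val_lt _)).2 rfl, if_pos hb']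
  | cons a l ih =>
    rw [zw5_cons]
    refine lin_mem (fun w hw => ?_) ih
    refine Finsupp.supported_mono (fun v hv => ?_) (pw_supp _ w)
    obtain ⟨h1, h2, h3, h4⟩ := hw
    obtain ⟨k1, k2, k3, k4⟩ := hv
    exact ⟨k1.trans h1, by rw [k2, h2, List.length_cons], by rw [k3, h3],
      fun b' hb' hne => k4 _ (h4 b' hb' hne)⟩

theorem phi_univ_nil (b : ZMod q) :
    phi (F := F) b Finset.univ [] = wd (List.replicate (q - 1) Lt.I) := by
  rw [zw5_nil]
  congr 1
  simp [zw5_bw]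

theorem phi_univ (b : ZMod q) {l : List (ZMod q)} (hl : l ≠ []) :
    phi (F := F) b Finset.univ l = 0 := by
  obtain ⟨a, l, rfl⟩ := List.exists_cons_of_ne_nil hl
  rw [zw5_cons, ← Submodule.mem_bot F]
  refine lin_mem (fun w hw => ?_) (phi_supp (Finset.mem_univ b) l)
  rw [Submodule.mem_bot]
  by_cases h : a = b
  · exact pw_of_le (by rw [h, zw5_self, hw.1])
  · exact pw_of_I (hw.2.2.2 a (Finset.mem_univ a) h)

theorem phi_shift (b : ZMod q) (I : Finset (ZMod q)) (l : List (ZMod q)) :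
    phi (F := F) (b + 1) (I.image (· + 1)) (l.map (· + 1)) = phi b I l := by
  induction l with
  | nil =>
    rw [List.map_nil, zw5_nil, zw5_nil]
    congr 1
    refine List.map_congr_left fun j _ => ?_
    have : b + 1 + j + 1 ∈ I.image (· + 1) ↔ b + j + 1 ∈ I := by
      rw [Finset.mem_image]
      constructor
      · rintro ⟨c, hc, h⟩
        have : b + j + 1 = c := by linear_combination -h
        rwa [this]
      · intro h
        exact ⟨_, h, by ring⟩
    simp only [this]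
  | cons a l ih =>
    rw [List.map_cons, zw5_cons, zw5_cons, ih]
    have : a + 1 - (b + 1) - 1 = a - b - 1 := by ring
    rw [this]

theorem phi_rot {b b' : ZMod q} {I : Finset (ZMod q)} (hb : b ∈ I) (hb' : b' ∈ I) (hne : b' ≠ b)
    (l : List (ZMod q)) :
    phi (F := F) b' I l = lin (rot (F := F) (b' - b - 1).val) (phi (F := F) b I l) := by
  have hk := zw5_lt hne
  have hb1 := (zw5_idx b' b (ZMod.val_lt _)).2 rfl
  induction l with
  | nil =>
    generalize (b' - b - 1).val = k at hk hb1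
    have hS : ((zw5_bw b I).take k).count Lt.S = 0 :=
      List.count_eq_zero.2 fun h => zw5_noS b I (List.mem_of_mem_take h)
    rw [zw5_nil, zw5_nil, lin_wd, rot, hS, zero_mul, pow_zero, one_smul]
    congr 1
    refine List.ext_getElem (by simp [zw5_len]; omega) fun j h1 h2 => ?_
    have hj : j < q - 1 := by rwa [zw5_len] at h1
    have hd : ((zw5_bw b I).drop (k + 1)).length = q - 1 - (k + 1) := by simp [zw5_len]
    rw [zw5_get, List.getElem_append]
    split_ifs with h3 h4 h4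
    · rw [List.getElem_drop, zw5_get, if_pos]
      rw [← hb1] at h3
      push_cast
      rwa [← add_assoc, ← add_assoc]
    · rw [List.getElem_cons]
      split_ifs with h5
      · rfl
      · rw [List.getElem_take, zw5_get, if_pos]
        have e : j + k + 1 = (j - ((zw5_bw b I).drop (k + 1)).length - 1) + q := by omega
        have e' := congrArg (Nat.cast : ℕ → ZMod q) e
        push_cast at e'
        rw [ZMod.natCast_self, add_zero] at e'
        rw [← e']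
        have : b + (j + k + 1) + 1 = b' + j + 1 := by rw [← hb1]; ring
        rwa [this]
    · rw [List.getElem_drop, zw5_get, if_neg]
      rw [← hb1] at h3
      push_cast
      rwa [← add_assoc, ← add_assoc]
    · rw [List.getElem_cons]
      split_ifs with h5
      · exfalso
        apply h3
        have e : j + k + 2 = q := by omega
        have e' := congrArg (Nat.cast : ℕ → ZMod q) e
        push_cast at e'
        rw [ZMod.natCast_self] at e'
        have : b' + j + 1 = b := by rw [← hb1]; linear_combination e'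
        rwa [this]
      · rw [List.getElem_take, zw5_get, if_neg]
        have e : j + k + 1 = (j - ((zw5_bw b I).drop (k + 1)).length - 1) + q := by omega
        have e' := congrArg (Nat.cast : ℕ → ZMod q) e
        push_cast at e'
        rw [ZMod.natCast_self, add_zero] at e'
        rw [← e']
        have : b + (j + k + 1) + 1 = b' + j + 1 := by rw [← hb1]; ring
        rwa [this]
  | cons a l ih =>
    rw [zw5_cons, zw5_cons, ih, map_lin, map_lin]
    refine lin_congr (fun w hw => (rot_pw (hw.2.2.2 b' hb' hne) ?_).symm) (phi_supp hb l)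
    rw [hw.1]
    have hi := ZMod.val_lt (a - b - 1)
    have hi' := ZMod.val_lt (a - b' - 1)
    have e : (((a - b' - 1).val + (b' - b - 1).val + 1 : ℕ) : ZMod q) =
        (((a - b - 1).val : ℕ) : ZMod q) := by
      push_cast
      simp only [ZMod.natCast_zmod_val]
      ring
    rw [ZMod.natCast_eq_natCast_iff', Nat.mod_eq_of_lt hi] at e
    by_cases h : (a - b' - 1).val + (b' - b - 1).val + 1 < q
    · rw [Nat.mod_eq_of_lt h] at e
      omega
    · rw [Nat.mod_eq_sub_mod (by omega), Nat.mod_eq_of_lt (by omega)] at e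
      omega

end Pool.Agent.Fu
end

-- part Pool.Agent.P.MP_365c00_gt.ZY1
section

/-! Spaces of tuples of paths: the sets. -/

set_option linter.unusedSectionVars false
set_option linter.unusedVariables false

open Set Topology Filter Metric

namespace Pool.Agent.Fu

variable {F : Type} [Field F] {M : Type} [MetricSpace M] {d q n : ℕ} {S : GS M} {p0 p : M}
  {δ t : ℝ}

theorem zy1_open {X : Type} [TopologicalSpace X] (n : ℕ) {P : ℕ → X → Prop}
    (h : ∀ i, IsOpen {c | P i c}) : IsOpen {c | ∀ i ≤ n, P i c} := by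
  have e : {c | ∀ i ≤ n, P i c} = ⋂ i ∈ Iic n, {c | P i c} := by
    ext c
    simp
  rw [e]
  exact (finite_Iic n).isOpen_biInter fun i _ => h i

theorem zy1_closed {X ι : Type} [TopologicalSpace X] {Q : ι → Prop} {P : ι → X → Prop}
    (h : ∀ i, IsClosed {c | P i c}) : IsClosed {c | ∀ i, Q i → P i c} := by
  have e : {c | ∀ i, Q i → P i c} = ⋂ i, ⋂ (_ : Q i), {c | P i c} := by
    ext c
    simp
  rw [e]
  exact isClosed_iInter fun i => isClosed_iInter fun _ => h i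

theorem zy1_l {P : Type} (x x' : ℕ → P) {i : ℕ} (hi : i ≤ n) : app (n + 1) (x, x') i = x i :=
  if_pos (Nat.lt_succ_of_le hi)

theorem zy1_r {P : Type} (n : ℕ) (x x' : ℕ → P) (i : ℕ) :
    app (n + 1) (x, x') (n + 1 + i) = x' i := by
  unfold app
  rw [if_neg (by omega), Nat.add_sub_cancel_left]

theorem Nr_open (n : ℕ) (r : ℝ) : IsOpen (Nr n r : Set (ℕ → Bs M d)) :=
  (zy1_open n fun i => isOpen_lt (by fun_prop) continuous_const).inter
    (zy1_open n fun i => zy1_open n fun j => isOpen_lt (by fun_prop) continuous_const)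

theorem NrC_closed (n : ℕ) (r : ℝ) : IsClosed (NrC n r : Set (ℕ → Bs M d)) :=
  (zy1_closed fun i => isClosed_le (by fun_prop) continuous_const).inter
    (zy1_closed fun i => zy1_closed fun j => isClosed_le (by fun_prop) continuous_const)

theorem NrC_sub (hδ : 0 < δ) (n : ℕ) : (NrC n (δ / 2) : Set (ℕ → Bs M d)) ⊆ Nr n δ :=
  fun c hc => ⟨fun i hi => by linarith [hc.1 i hi], fun i hi j hj => by linarith [hc.2 i hi j hj]⟩

theorem Up_open (δ : ℝ) (n : ℕ) (p : M) : IsOpen (Up δ n p : Set (ℕ → Bs M d)) :=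
  (Nr_open n δ).inter (zy1_open n fun i => isOpen_lt (by fun_prop) continuous_const)

theorem CB_compact [CompactSpace M] (p0 : M) (δ : ℝ) (n : ℕ) :
    IsCompact (CB p0 δ n : Set (ℕ → Bs M d)) := by
  have h1 : IsCompact (Set.pi univ fun _ : ℕ =>
      (univ ×ˢ closedBall 0 (max (δ / 2) 0) : Set (Bs M d))) :=
    isCompact_univ_pi fun _ => isCompact_univ.prod (isCompact_closedBall _ _)
  refine h1.of_isClosed_subset ((NrC_closed n _).inter
    (zy1_closed fun i => isClosed_eq (by fun_prop) continuous_const)) fun c hc i _ => ⟨trivial, ?_⟩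
  rw [mem_closedBall_zero_iff]
  rcases le_or_gt i n with hi | hi
  · exact (hc.1.1 i hi).trans (le_max_left _ _)
  · rw [hc.2 i hi, norm_zero]
    exact le_max_right _ _

theorem Ys_mono (p0 : M) (δ : ℝ) (n : ℕ) : Monotone (Ys p0 δ n : ℝ → Set (ℕ → Pos M d)) :=
  fun _ _ h _ hy => ⟨hy.1, fun h' => (hy.2 h').trans_le h⟩

theorem Ys_sub (p0 : M) (δ : ℝ) (n : ℕ) (t : ℝ) : (Ys p0 δ n t : Set (ℕ → Pos M d)) ⊆ Yt p0 δ n :=
  fun _ h => h.1

theorem zy1_Nr {n' : ℕ} {x x' : ℕ → Pos M d}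
    (h : bs M d (app (n + 1) (x, x')) ∈ Nr (n + n' + 1) δ) :
    bs M d x ∈ Nr n δ ∧ bs M d x' ∈ Nr n' δ ∧ dist (x n).1.1 (x' 0).1.1 < δ := by
  have h1 : ∀ i ≤ n + n' + 1, ‖(app (n + 1) (x, x') i).1.2‖ < δ := h.1
  have h2 : ∀ i ≤ n + n' + 1, ∀ j ≤ n + n' + 1,
      dist (app (n + 1) (x, x') i).1.1 (app (n + 1) (x, x') j).1.1 < δ := h.2
  refine ⟨⟨fun i hi => ?_, fun i hi j hj => ?_⟩, ⟨fun i hi => ?_, fun i hi j hj => ?_⟩, ?_⟩
  · have := h1 i (by omega)
    rwa [zy1_l x x' hi] at this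
  · have := h2 i (by omega) j (by omega)
    rwa [zy1_l x x' hi, zy1_l x x' hj] at this
  · have := h1 (n + 1 + i) (by omega)
    rwa [zy1_r] at this
  · have := h2 (n + 1 + i) (by omega) (n + 1 + j) (by omega)
    rwa [zy1_r, zy1_r] at this
  · have := h2 n (by omega) (n + 1 + 0) (by omega)
    rwa [zy1_l x x' le_rfl, zy1_r] at this

theorem Yt_app {n' : ℕ} {x x' : ℕ → Pos M d} (h : x ∈ Yt p0 δ n) (h' : x' ∈ Yt p0 δ n') :
    app (n + 1) (x, x') ∈ Yt p0 δ (n + n' + 1) := by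
  refine ⟨fun i hi => ?_, fun hN => ?_⟩
  · obtain ⟨j, rfl⟩ : ∃ j, i = n + 1 + j := ⟨i - (n + 1), by omega⟩
    rw [zy1_r]
    exact h'.1 j (by omega)
  · obtain ⟨n1, n2, n3⟩ := zy1_Nr hN
    obtain ⟨a1, a2, a3, a4⟩ := h.2 n1
    obtain ⟨b1, b2, b3, b4⟩ := h'.2 n2
    unfold pth at a1 a2 a3 a4 b1 b2 b3 b4
    refine ⟨fun i hi => ?_, ?_, fun i hi => ?_, ?_⟩
    · unfold pth
      rcases le_or_gt i n with hn | hn
      · rw [zy1_l x x' hn]
        exact a1 i hn
      · obtain ⟨j, rfl⟩ : ∃ j, i = n + 1 + j := ⟨i - (n + 1), by omega⟩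
        rw [zy1_r]
        exact b1 j (by omega)
    · unfold pth
      rw [zy1_l x x' (Nat.zero_le n)]
      exact a2
    · unfold pth
      rcases lt_trichotomy i n with hn | rfl | hn
      · rw [zy1_l x x' hn.le, zy1_l x x' (Nat.succ_le_of_lt hn)]
        exact a3 i hn
      · rw [zy1_l x x' le_rfl, show i + 1 = i + 1 + 0 from rfl, zy1_r, b2]
        linarith [dist_triangle (en (x i).2) (x i).1.1 (x' 0).1.1]
      · obtain ⟨j, rfl⟩ : ∃ j, i = n + 1 + j := ⟨i - (n + 1), by omega⟩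
        rw [zy1_r, add_assoc (n + 1), zy1_r]
        exact b3 j (by omega)
    · unfold pth
      rw [show n + n' + 1 = n + 1 + n' by omega, zy1_r]
      exact b4

theorem Ys_app {n' : ℕ} {t' : ℝ} {x x' : ℕ → Pos M d} (h : x ∈ Ys p0 δ n t)
    (h' : x' ∈ Ys p0 δ n' t') : app (n + 1) (x, x') ∈ Ys p0 δ (n + n' + 1) (t + t') := by
  refine ⟨Yt_app h.1 h'.1, fun hN => ?_⟩
  obtain ⟨n1, n2, -⟩ := zy1_Nr hN
  have e : tot (n + n' + 1) (pth (app (n + 1) (x, x'))) = tot n (pth x) + tot n' (pth x') := by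
    unfold tot pth
    rw [show n + n' + 1 + 1 = n + 1 + (n' + 1) by omega, Finset.sum_range_add]
    congr 1
    · refine Finset.sum_congr rfl fun i hi => ?_
      rw [zy1_l x x' (Nat.lt_succ_iff.1 (Finset.mem_range.1 hi))]
    · refine Finset.sum_congr rfl fun i hi => ?_
      rw [zy1_r]
  rw [e]
  exact add_lt_add (h.2 n1) (h'.2 n2)

theorem zy1_NrC {n' : ℕ} {r : ℝ} {x x' : ℕ → Pos M d}
    (h : bs M d (app (n + 1) (x, x')) ∈ NrC (n + n' + 1) r) :
    bs M d x ∈ NrC n r ∧ bs M d x' ∈ NrC n' r := by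
  have h1 : ∀ i ≤ n + n' + 1, ‖(app (n + 1) (x, x') i).1.2‖ ≤ r := h.1
  have h2 : ∀ i ≤ n + n' + 1, ∀ j ≤ n + n' + 1,
      dist (app (n + 1) (x, x') i).1.1 (app (n + 1) (x, x') j).1.1 ≤ r := h.2
  refine ⟨⟨fun i hi => ?_, fun i hi j hj => ?_⟩, ⟨fun i hi => ?_, fun i hi j hj => ?_⟩⟩
  · have := h1 i (by omega)
    rwa [zy1_l x x' hi] at this
  · have := h2 i (by omega) j (by omega)
    rwa [zy1_l x x' hi, zy1_l x x' hj] at this
  · have := h1 (n + 1 + i) (by omega)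
    rwa [zy1_r] at this
  · have := h2 (n + 1 + i) (by omega) (n + 1 + j) (by omega)
    rwa [zy1_r, zy1_r] at this

theorem far_left (n' : ℕ) {x : ℕ → Pos M d} (x' : ℕ → Pos M d) (h : x ∈ far δ n) :
    app (n + 1) (x, x') ∈ far δ (n + n' + 1) := fun hc => h (zy1_NrC hc).1

theorem far_right (n : ℕ) {n' : ℕ} (x : ℕ → Pos M d) {x' : ℕ → Pos M d} (h : x' ∈ far δ n') :
    app (n + 1) (x, x') ∈ far δ (n + n' + 1) := fun hc => h (zy1_NrC hc).2

theorem Of_left (n' : ℕ) {c : ℕ → Bs M d} {x : ℕ → Pos M d} (x' : ℕ → Pos M d) (h : x ∈ Of n c) :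
    app (n + 1) (x, x') ∈ Of (n + n' + 1) c := by
  obtain ⟨i, hi, hne⟩ := h
  refine ⟨i, by omega, ?_⟩
  change (app (n + 1) (x, x') i).1 ≠ c i
  rw [zy1_l x x' hi]
  exact hne

theorem Of_right (n : ℕ) {n' : ℕ} {c : ℕ → Bs M d} (x : ℕ → Pos M d) {x' : ℕ → Pos M d}
    (h : x' ∈ Of n' fun i => c (n + 1 + i)) : app (n + 1) (x, x') ∈ Of (n + n' + 1) c := by
  obtain ⟨i, hi, hne⟩ := h
  refine ⟨n + 1 + i, by omega, ?_⟩
  change (app (n + 1) (x, x') (n + 1 + i)).1 ≠ c (n + 1 + i)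
  rw [zy1_r]
  exact hne

theorem far_sub_Of {c : ℕ → Bs M d} (hc : c ∈ NrC n (δ / 2)) : far δ n ⊆ Of n c := by
  intro y hy
  by_contra hn
  have e : ∀ i ≤ n, bs M d y i = c i := fun i hi => by
    by_contra h
    exact hn ⟨i, hi, h⟩
  refine hy ⟨fun i hi => ?_, fun i hi j hj => ?_⟩
  · rw [e i hi]
    exact hc.1 i hi
  · rw [e i hi, e j hj]
    exact hc.2 i hi j hj

theorem NrC_left {n' : ℕ} {r : ℝ} {c : ℕ → Bs M d} (hc : c ∈ NrC (n + n' + 1) r) : c ∈ NrC n r :=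
  ⟨fun i hi => hc.1 i (by omega), fun i hi j hj => hc.2 i (by omega) j (by omega)⟩

theorem NrC_right {n' : ℕ} {r : ℝ} {c : ℕ → Bs M d} (hc : c ∈ NrC (n + n' + 1) r) :
    (fun i => c (n + 1 + i)) ∈ NrC n' r :=
  ⟨fun i hi => hc.1 _ (by omega), fun i hi j hj => hc.2 _ (by omega) _ (by omega)⟩

theorem zy1_Tl {y : ℕ → Pos M d} (h : y ∈ Yt p0 δ n) : bs M d y ∈ Tl p0 n := fun i hi =>
  congrArg Prod.fst (h.1 i hi)

theorem off_CB {A : Set (ℕ → Pos M d)} (hA : A ⊆ Yt p0 δ n) :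
    off A (bs M d) (CB p0 δ n) = A ∩ far δ n :=
  Set.ext fun y => ⟨fun h => ⟨h.1, fun h' => h.2 ⟨h', zy1_Tl (hA h.1)⟩⟩,
    fun h => ⟨h.1, fun h' => h.2 h'.1⟩⟩

theorem off_pt {A : Set (ℕ → Pos M d)} (hA : A ⊆ Yt p0 δ n) {c : ℕ → Bs M d} (hc : c ∈ Tl p0 n) :
    off A (bs M d) {c} = A ∩ Of n c := by
  ext y
  constructor
  · rintro ⟨h1, h2⟩
    refine ⟨h1, ?_⟩
    by_contra hn
    refine h2 (funext fun i => ?_)
    rcases le_or_gt i n with hi | hi
    · by_contra h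
      exact hn ⟨i, hi, h⟩
    · exact (zy1_Tl (hA h1) i hi).trans (hc i hi).symm
  · rintro ⟨h1, i, hi, h2⟩
    exact ⟨h1, fun h => h2 (congrFun h i)⟩

theorem Sp_sub (hδ : 0 < δ) {c : ℕ → Bs M d} (hc : c ∈ NrC n (δ / 2))
    (hp : ∀ i ≤ n, dist (c i).1 p < δ) : Sp p0 δ n c ⊆ Dm p0 δ n p := by
  intro x hx
  have h1 : ∀ i ≤ n, dist (x i).1 (c i).1 < δ / 8 ∧ dist (x i).2 (c i).2 < δ / 8 := fun i hi =>
    max_lt_iff.1 (hx.2 i hi)
  refine ⟨hx.1, ⟨fun i hi => ?_, fun i hi j hj => ?_⟩, fun i hi => ?_⟩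
  · have h2 := (h1 i hi).2
    rw [dist_eq_norm] at h2
    linarith [norm_le_insert' (x i).2 (c i).2, hc.1 i hi]
  · linarith [dist_triangle4_right (x i).1 (x j).1 (c i).1 (c j).1, (h1 i hi).1, (h1 j hj).1,
      hc.2 i hi j hj]
  · linarith [dist_triangle (x i).1 (c i).1 p, (h1 i hi).1, hp i hi]

theorem Sp_app (hδ : 0 < δ) {c x x' : ℕ → Bs M d} (h : x ∈ Sp p0 δ n c)
    (h' : x' ∈ Sp p0 δ 0 fun _ => c (n + 1)) : app (n + 1) (x, x') ∈ Sp p0 δ (n + 1) c := by
  refine ⟨fun i hi => ?_, fun i hi => ?_⟩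
  · obtain ⟨j, rfl⟩ : ∃ j, i = n + 1 + j := ⟨i - (n + 1), by omega⟩
    rw [zy1_r]
    exact h'.1 j (by omega)
  · rcases le_or_gt i n with hn | hn
    · rw [zy1_l x x' hn]
      exact h.2 i hn
    · obtain rfl : i = n + 1 + 0 := by omega
      rw [zy1_r]
      exact h'.2 0 le_rfl

theorem OfB_congr {c c' : ℕ → Bs M d} (h : ∀ i ≤ n, c' i = c i) : OfB n c' = OfB n c :=
  Set.ext fun _ => exists_congr fun i => and_congr_right fun hi => by rw [h i hi]

theorem OfB_open (n : ℕ) (c : ℕ → Bs M d) : IsOpen (OfB n c) := by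
  have e : OfB n c = ⋃ i ∈ Iic n, {c' | c' i ≠ c i} := by
    ext x
    simp [OfB]
  rw [e]
  exact isOpen_biUnion fun i _ => isOpen_ne_fun (continuous_apply i) continuous_const

theorem ev0_Yt : MapsTo (ev0 (Pos M d)) (Yt p0 δ 0) (A0 δ) := by
  intro y hy h
  have h0 : ‖(y 0).1.2‖ < δ := h
  obtain ⟨a1, a2, -, a4⟩ := hy.2 ⟨fun i hi => by
      obtain rfl := Nat.le_zero.1 hi
      exact h0, fun i hi j hj => by
      obtain rfl := Nat.le_zero.1 hi
      obtain rfl := Nat.le_zero.1 hj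
      rw [dist_self]
      exact (norm_nonneg _).trans_lt h0⟩
  exact ⟨a1 0 le_rfl, a2, a4⟩

variable [NeZero q]

theorem zy1_openZ {X : Type} [TopologicalSpace X] {P : ZMod q → X → Prop}
    (h : ∀ i, IsOpen {c | P i c}) : IsOpen {c | ∀ i, P i c} := by
  rw [ofPred_forall]
  exact isOpen_iInter_of_finite h

theorem zy1_closedZ {X : Type} [TopologicalSpace X] {P : ZMod q → X → Prop}
    (h : ∀ i, IsClosed {c | P i c}) : IsClosed {c | ∀ i, P i c} := by
  rw [ofPred_forall]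
  exact isClosed_iInter h

theorem NrZ_open (r : ℝ) : IsOpen (NrZ q r : Set (ZMod q → Bs M d)) :=
  (zy1_openZ fun i => isOpen_lt (by fun_prop) continuous_const).inter
    (zy1_openZ fun i => zy1_openZ fun j => isOpen_lt (by fun_prop) continuous_const)

theorem NrZC_compact [CompactSpace M] (r : ℝ) : IsCompact (NrZC q r : Set (ZMod q → Bs M d)) := by
  have h1 : IsCompact (Set.pi univ fun _ : ZMod q => (univ ×ˢ closedBall 0 r : Set (Bs M d))) :=
    isCompact_univ_pi fun _ => isCompact_univ.prod (isCompact_closedBall _ _)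
  exact h1.of_isClosed_subset
    ((zy1_closedZ fun i => isClosed_le (by fun_prop) continuous_const).inter
      (zy1_closedZ fun i => zy1_closedZ fun j => isClosed_le (by fun_prop) continuous_const))
    fun c hc i _ => ⟨trivial, mem_closedBall_zero_iff.2 (hc.1 i)⟩

theorem UpZ_open (δ : ℝ) (p m : M) : IsOpen (UpZ q δ p m : Set ((ZMod q → Bs M d) × M)) :=
  ((NrZ_open δ).preimage continuous_fst).inter
    ((zy1_openZ fun i => isOpen_lt (by fun_prop) continuous_const).inter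
      (isOpen_lt (continuous_snd.dist continuous_const) continuous_const))

theorem Zs_mono (δ : ℝ) : Monotone (Zs q δ : ℝ → Set (ZMod q → Pos M d)) :=
  fun _ _ h _ hy => ⟨hy.1, fun h' => (hy.2 h').trans_le h⟩

theorem zy1_shf {x : ZMod q → Pos M d} (h : (fun i => (shf (Pos M d) q x i).1) ∈ NrZ q δ) :
    (fun i => (x i).1) ∈ NrZ q δ := by
  have h1 : ∀ i, ‖(x (i - 1)).1.2‖ < δ := h.1
  have h2 : ∀ i j, dist (x (i - 1)).1.1 (x (j - 1)).1.1 < δ := h.2
  refine ⟨fun i => ?_, fun i j => ?_⟩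
  · have := h1 (i + 1)
    rwa [add_sub_cancel_right] at this
  · have := h2 (i + 1) (j + 1)
    rwa [add_sub_cancel_right, add_sub_cancel_right] at this

theorem Zt_inv (δ : ℝ) : MapsTo (shf (Pos M d) q) (Zt q δ) (Zt q δ) := by
  intro x hx h i
  have h1 := hx (zy1_shf h) (i - 1)
  refine ⟨h1.1, ?_⟩
  change dist (en (x (i - 1)).2) (st (x (i + 1 - 1)).2) < 2 * δ
  rw [show i + 1 - 1 = i - 1 + 1 by ring]
  exact h1.2

theorem Zs_inv (δ t : ℝ) : MapsTo (shf (Pos M d) q) (Zs q δ t) (Zs q δ t) := by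
  intro x hx
  refine ⟨Zt_inv δ hx.1, fun h => ?_⟩
  have e := (Equiv.subRight (1 : ZMod q)).sum_comp fun i => (x i).2.2
  exact e.trans_lt (hx.2 (zy1_shf h))

theorem farZ_inv (δ : ℝ) : MapsTo (shf (Pos M d) q) (farZ q δ) (farZ q δ) := by
  intro x hx h
  have h1 : ∀ i, ‖(x (i - 1)).1.2‖ ≤ δ / 2 := h.1
  have h2 : ∀ i j, dist (x (i - 1)).1.1 (x (j - 1)).1.1 ≤ δ / 2 := h.2
  refine hx ⟨fun i => ?_, fun i j => ?_⟩
  · have := h1 (i + 1)
    rwa [add_sub_cancel_right] at this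
  · have := h2 (i + 1) (j + 1)
    rwa [add_sub_cancel_right, add_sub_cancel_right] at this

theorem zy1_val (b : ZMod q) {i : ℕ} (hi : i ≤ q - 1) : (b + i - b).val = i := by
  have := NeZero.pos q
  rw [add_sub_cancel_left, ZMod.val_natCast_of_lt (by omega)]

theorem zy1_sum (f : ℕ → ℝ) : ∑ c : ZMod q, f c.val = ∑ i ∈ Finset.range (q - 1 + 1), f i := by
  obtain ⟨k, rfl⟩ := Nat.exists_eq_succ_of_ne_zero (NeZero.ne q)
  exact Fin.sum_univ_eq_sum_range f (k + 1)

theorem cyc_Ys (b : ZMod q) (t : ℝ) :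
    MapsTo (cyc (Pos M d) b) (Ys p0 δ (q - 1) t) (Zs q δ t) := by
  intro y hy
  have hq := NeZero.pos q
  have hN : (fun i => (cyc (Pos M d) b y i).1) ∈ NrZ q δ → bs M d y ∈ Nr (q - 1) δ := fun h => by
    have h1 : ∀ c : ZMod q, ‖(y (c - b).val).1.2‖ < δ := h.1
    have h2 : ∀ c c' : ZMod q, dist (y (c - b).val).1.1 (y (c' - b).val).1.1 < δ := h.2
    refine ⟨fun i hi => ?_, fun i hi j hj => ?_⟩
    · have := h1 (b + i)
      rwa [zy1_val b hi] at this
    · have := h2 (b + i) (b + j)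
      rwa [zy1_val b hi, zy1_val b hj] at this
  refine ⟨fun h c => ?_, fun h => ?_⟩
  · obtain ⟨a1, a2, a3, a4⟩ := hy.1.2 (hN h)
    unfold pth at a1 a2 a3 a4
    have hv := ZMod.val_lt (c - b)
    refine ⟨a1 _ (by omega), ?_⟩
    change dist (en (y (c - b).val).2) (st (y (c + 1 - b).val).2) < 2 * δ
    have e : c + 1 - b = (((c - b).val + 1 : ℕ) : ZMod q) := by
      push_cast
      rw [ZMod.natCast_zmod_val]
      ring
    rw [e]
    generalize (c - b).val = i at hv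
    rcases lt_or_ge (i + 1) q with hi | hi
    · rw [ZMod.val_natCast_of_lt hi]
      exact a3 i (by omega)
    · obtain rfl : i = q - 1 := by omega
      rw [show q - 1 + 1 = q by omega, ZMod.natCast_self, ZMod.val_zero, a2]
      have h3 : dist (y (q - 1)).1.1 (y 0).1.1 < δ := (hN h).2 _ le_rfl _ (Nat.zero_le _)
      linarith [dist_triangle (en (y (q - 1)).2) (y (q - 1)).1.1 (y 0).1.1]
  · have e := (Equiv.subRight b).sum_comp fun c => (y c.val).2.2
    exact (e.trans (zy1_sum fun i => (y i).2.2)).trans_lt (hy.2 (hN h))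

theorem cyc_far (b : ZMod q) : MapsTo (cyc (Pos M d) b) (far δ (q - 1)) (farZ q δ) := by
  intro y hy h
  have h1 : ∀ c : ZMod q, ‖(y (c - b).val).1.2‖ ≤ δ / 2 := h.1
  have h2 : ∀ c c' : ZMod q, dist (y (c - b).val).1.1 (y (c' - b).val).1.1 ≤ δ / 2 := h.2
  refine hy ⟨fun i hi => ?_, fun i hi j hj => ?_⟩
  · have := h1 (b + i)
    rwa [zy1_val b hi] at this
  · have := h2 (b + i) (b + j)
    rwa [zy1_val b hi, zy1_val b hj] at this

theorem off_CZ (A : Set (ZMod q → Pos M d)) :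
    off A (xiZ M d q) (NrZC q (δ / 2) ×ˢ univ) = A ∩ farZ q δ :=
  Set.ext fun x => ⟨fun h => ⟨h.1, fun h' => h.2 ⟨h', trivial⟩⟩, fun h => ⟨h.1, fun h' => h.2 h'.1⟩⟩

theorem exists_YH [CompactSpace M] (h2 : (2 : F) ≠ 0) (S : GS M)
    (hE : ∀ p : M, ∃ U : Set M, IsOpen U ∧ p ∈ U ∧ Euc d U) (O : OR F d M) :
    ∃ δ0 > 0, ∀ δ, 0 < δ → δ ≤ δ0 → ∃ O' : OR F (d + d) (Bs M d), YH S δ O' := by
  have h1 := or_model (W := Fin d → ℝ) h2
  rw [Module.finrank_fin_fun] at h1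
  obtain ⟨O1⟩ := h1
  obtain ⟨O2⟩ := OR.prod h2 O O1
  obtain ⟨r0, p0, q0⟩ := O2.radius (C := univ ×ˢ {0}) (isCompact_univ.prod isCompact_singleton)
  obtain ⟨r1, p1, q1⟩ := euc_radius hE
  have ha := S.a_pos
  refine ⟨min (S.a / 16) (min r0 (r1 / 2)), by positivity, fun δ hδ hl => ?_⟩
  obtain ⟨l1, l2, l3⟩ : δ ≤ S.a / 16 ∧ δ ≤ r0 ∧ δ ≤ r1 / 2 := by simpa only [le_min_iff] using hl
  choose o k1 k2 k3 using fun b : Bs M d => (O2.gen b).small (U := ball b (δ / 8)) isOpen_ball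
    (mem_ball_self (by positivity))
  have key : ∀ z c, z - O2.o c ∈ NN F univ (univ \ {c}) → z - o c ∈ NN F univ (univ \ {c}) :=
    fun z c h => by
      have := add_mem h (k3 c)
      rwa [sub_add_sub_cancel] at this
  refine ⟨⟨o, k2, fun c0 => ?_⟩, hδ, by linarith, fun b => CC_mono inter_subset_right (k1 b),
    fun p => q1 p _ (by linarith), fun p => ?_⟩
  · obtain ⟨U, hU, z, z1, z2, z3⟩ := O2.loc c0
    exact ⟨U, hU, z, z1, z2, fun c hc => key z c (z3 c hc)⟩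
  · obtain ⟨z, z1, z2, z3⟩ := q0 (p, 0) ⟨trivial, rfl⟩
    exact ⟨z, ZZ_mono subset_rfl (compl_subset_compl.2 (ball_subset_ball l2)) z1, z2,
      fun c hc => key z c (z3 c (ball_subset_ball l2 hc))⟩

end Pool.Agent.Fu
end

-- part Pool.Agent.P.MP_365c00_gt.ZD2
section

/-! Symmetries of products of several chains. -/

set_option linter.unusedSectionVars false
set_option linter.unusedVariables false

open Set Topology

namespace Pool.Agent.Fu

variable {F : Type} [Field F] {X Y : Type} [TopologicalSpace X] [TopologicalSpace Y] {q : ℕ}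

variable {X' Y' : Type} [TopologicalSpace X'] [TopologicalSpace Y']

theorem zd2_assoc {Z : Type} [TopologicalSpace Z] (a : Ch F X) (b : Ch F Y) (c : Ch F Z) :
    cross (cross a b) c = map (⟨fun z => ((z.1, z.2.1), z.2.2), by fun_prop⟩ :
      C(X × Y × Z, (X × Y) × Z)) (cross a (cross b c)) := by
  rw [← cross_assoc, map_map]
  exact (map_id' _).symm

theorem cross_shuffle {j k : ℕ} (a : Ch F X) {b : Ch F Y} {a' : Ch F X'} (b' : Ch F Y')
    (hb : b ∈ HD F Y j) (ha' : a' ∈ HD F X' k) :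
    map (⟨fun z => ((z.1.1, z.2.1), (z.1.2, z.2.2)), by fun_prop⟩ :
      C((X × Y) × (X' × Y'), (X × X') × (Y × Y'))) (cross (cross a b) (cross a' b')) =
      (-1 : F) ^ (j * k) • cross (cross a a') (cross b b') := by
  rw [zd2_assoc a a', ← cross_assoc a' b b', ← map_smul, ← map_smul, ← map_smul,
    ← LinearMap.smul_apply, ← map_smul, ← cross_swap hb ha', cross_map_left, zd2_assoc b a',
    zd2_assoc a b, map_map, map_map, map_map, cross_map_right, map_map]
  rfl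

theorem tpr_succ' (n : ℕ) (b : ℕ → Ch F X) :
    tpr (n + 1) b = mu (n + 1) (tpr n b) (map (csC X) (b (n + 1))) := by
  induction n generalizing b with
  | zero => rfl
  | succ n ih => rw [tpr, ih, mu_assoc, add_comm 1, tpr]

/-- a sequence of pairs as a pair of sequences -/
def zd2U (X Y : Type) [TopologicalSpace X] [TopologicalSpace Y] :
    C(ℕ → X × Y, (ℕ → X) × (ℕ → Y)) :=
  ⟨fun x => (fun c => (x c).1, fun c => (x c).2), by fun_prop⟩

theorem zd2_zip {a : Ch F X} {b : Ch F Y} {j k : ℕ} (ha : a ∈ HD F X j) (hj : Even j)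
    (hb : b ∈ HD F Y k) (n : ℕ) :
    map (zd2U X Y) (tpr n fun _ => cross a b) = cross (tpr n fun _ => a) (tpr n fun _ => b) := by
  have h0 : map (zd2U X Y) (map (csC (X × Y)) (cross a b)) =
      cross (map (csC X) a) (map (csC Y) b) := by
    rw [cross_map, map_map]
    rfl
  induction n with
  | zero => exact h0
  | succ n ih =>
    have h1 := cross_shuffle (map (csC X) a) (tpr n fun _ => b) (map_mem_HD (csC Y) hb)
      (tpr_HD (n := n) (b := fun _ => a) (k := fun _ => j) fun _ _ => ha)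
    rw [Even.neg_one_pow (Even.mul_left (Finset.even_sum _ fun _ _ => hj) _), one_smul, ← h0,
      ← ih, cross_map, map_map] at h1
    rw [tpr, tpr, tpr, mu_apply, mu_apply, mu_apply, cross_map, ← h1, map_map, map_map]
    congr 2
    refine ContinuousMap.ext fun z => Prod.ext (funext fun i => ?_) (funext fun i => ?_)
    · show (app 1 z i).1 = app 1 (fun c => (z.1 c).1, fun c => (z.2 c).1) i
      unfold app
      split_ifs <;> rfl
    · show (app 1 z i).2 = app 1 (fun c => (z.1 c).2, fun c => (z.2 c).2) i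
      unfold app
      split_ifs <;> rfl

theorem zd2_gen [T1Space X] (h2 : (2 : F) ≠ 0) {k : ℕ} {c : X} {o : Ch F X}
    (h : Gen F k univ c o) (n : ℕ) :
    Gen F ((n + 1) * k) {y : ℕ → X | ∀ i, n ≤ i → y i = y n} (fun _ => c) (tpr n fun _ => o) := by
  induction n with
  | zero =>
    have h1 := h.equiv (B := {y : ℕ → X | ∀ i, 0 ≤ i → y i = y 0}) (mem_univ _) (φ := csC X)
      (ψ := ev0 X) (csC X).continuous.continuousOn (ev0 X).continuous.continuousOn
      (fun _ _ _ _ => rfl) (mapsTo_univ _ _) (fun _ _ => rfl)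
      fun y hy => funext fun i => (hy i i.zero_le).symm
    rw [mp_coe] at h1
    rw [zero_add, one_mul]
    exact h1
  | succ n ih =>
    have h1 := (h.prod h2 ih).equiv (B := {y : ℕ → X | ∀ i, n + 1 ≤ i → y i = y (n + 1)})
      ⟨mem_univ _, fun _ _ => rfl⟩
      (φ := (appC X 1).comp ((csC X).prodMap (ContinuousMap.id (ℕ → X))))
      (ψ := fun y => (y 0, fun i => y (i + 1))) (ContinuousMap.continuous _).continuousOn
      (by fun_prop) (fun z hz i hi => ?_) (fun y hy => ⟨mem_univ _, fun i hi => ?_⟩)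
      (fun _ _ => rfl) fun y _ => funext fun i => ?_
    · rw [mp_coe, ← map_map, ← cross_map_left] at h1
      have e : ((appC X 1).comp ((csC X).prodMap (ContinuousMap.id (ℕ → X)))) (c, fun _ => c) =
          fun _ => c := funext fun i => ite_self c
      rw [e] at h1
      rw [add_mul (n + 1), one_mul, add_comm]
      exact h1
    · obtain ⟨i, rfl⟩ : ∃ m, i = m + 1 := ⟨i - 1, by omega⟩
      exact hz.2 i (by omega)
    · exact hy (i + 1) (by omega)
    · cases i <;> rfl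

variable [NeZero q]

theorem cpr_rot {b : ℕ → Ch F X} {k : ℕ → ℕ} (h : ∀ i < q, b i ∈ HD F X (k i)) :
    map (shf X q) (cpr q b) = (-1 : F) ^ ((∑ i ∈ Finset.range (q - 1), k i) * k (q - 1)) •
      cpr q fun i => if i = 0 then b (q - 1) else b (i - 1) := by
  obtain ⟨n, rfl⟩ := Nat.exists_eq_succ_of_ne_zero (NeZero.ne q)
  rw [cpr, cpr, shf_cyc]
  cases n with
  | zero =>
    rw [show ((0 : ZMod (Nat.succ 0)) + 1) = 0 from rfl]
    simp [tpr]
  | succ n =>
    have e : (0 : ZMod (n + 1).succ) + 1 + ((n + 1 : ℕ) : ZMod (n + 1).succ) = 0 := by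
      rw [zero_add, add_comm (1 : ZMod (n + 1).succ), ← Nat.cast_succ, ZMod.natCast_self]
    rw [Nat.succ_sub_one, tpr_succ', cyc_mu (0 + 1) (k := n + 1) (k' := 1) rfl
      (tpr_HD fun i hi => h i (by omega)) (map_mem_HD _ (h (n + 1) (by omega))), e]
    rfl

theorem cpr_fix {a : Ch F X} {k : ℕ} (ha : a ∈ HD F X k) (hk : Even k) :
    map (shf X q) (cpr q fun _ => a) = cpr q fun _ => a := by
  rw [cpr_rot (k := fun _ => k) fun _ _ => ha, Even.neg_one_pow (hk.mul_left _), one_smul]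
  simp only [ite_self]

theorem cpr_zip {a : Ch F X} {b : Ch F Y} {j k : ℕ} (ha : a ∈ HD F X j) (hj : Even j)
    (hb : b ∈ HD F Y k) :
    map (unz X Y q) (cpr q fun _ => cross a b) = cross (cpr q fun _ => a) (cpr q fun _ => b) := by
  rw [cpr, cpr, cpr, cross_map, ← zd2_zip ha hj hb, map_map, map_map]
  rfl

theorem Gen.cpr [T1Space X] (h2 : (2 : F) ≠ 0) {k : ℕ} {c : X} {o : Ch F X}
    (h : Gen F k univ c o) :
    Gen F (q * k) univ (fun _ : ZMod q => c) (Fu.cpr q fun _ => o) := by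
  obtain ⟨n, rfl⟩ := Nat.exists_eq_succ_of_ne_zero (NeZero.ne q)
  have h1 := (zd2_gen h2 h n).equiv (B := univ) (fun _ _ => rfl) (φ := cyc X (0 : ZMod n.succ))
    (ψ := fun x i => x ((min i n : ℕ) : ZMod n.succ)) (ContinuousMap.continuous _).continuousOn
    (by fun_prop) (mapsTo_univ _ _) (fun x _ i hi => ?_) (fun y hy => funext fun i => ?_)
    fun x _ => funext fun a => ?_
  · rw [mp_coe] at h1
    exact h1
  · simp only [min_eq_right hi, min_self]
  · show y (((min i n : ℕ) : ZMod n.succ) - 0).val = y i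
    rw [sub_zero, ZMod.val_natCast, Nat.mod_eq_of_lt (by omega)]
    rcases le_total i n with hi | hi
    · rw [min_eq_left hi]
    · rw [min_eq_right hi, hy i hi]
  · show x ((min (a - 0).val n : ℕ) : ZMod n.succ) = x a
    rw [sub_zero, min_eq_left (Nat.le_of_lt_succ a.val_lt), ZMod.natCast_zmod_val]

end Pool.Agent.Fu
end

-- part Pool.Agent.P.MP_365c00_gt.ZD3
section

/-! Projection onto the span of the products. -/

set_option linter.unusedSectionVars false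
set_option linter.unusedVariables false

open Set Topology

namespace Pool.Agent.Fu

variable {F : Type} [Field F] {X Y : Type} [TopologicalSpace X] [TopologicalSpace Y] {q : ℕ}

open TensorProduct in
theorem zd3_ten {Z : Type} [TopologicalSpace Z] (ρ : C(Y, Y)) {D K : Ch F Y →ₗ[F] Ch F Y}
    (h : ∀ c, map ρ c - D c = bd (K c) + K (bd c)) (w : Ch F Z ⊗[F] Ch F Y) :
    Fu.map ((ContinuousMap.id Z).prodMap ρ) (kap w) - kap (TensorProduct.map LinearMap.id D w) =
      bd (kap (TensorProduct.map om K w)) + kap (TensorProduct.map om K (tbd w)) := by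
  induction w using TensorProduct.induction_on with
  | zero => simp
  | add a b ha hb =>
    simp only [map_add]
    rw [add_sub_add_comm, ha, hb, add_add_add_comm]
  | tmul a b =>
    rw [tbd_tmul, map_add, map_add]
    simp only [TensorProduct.map_tmul, kap_tmul, LinearMap.id_apply]
    rw [← cross_map_right, ← map_sub, h, map_add, bd_cross, om_om, om_bd, map_neg,
      LinearMap.neg_apply]
    abel

open TensorProduct in
theorem ez_step {Z : Type} [TopologicalSpace Z] (ρ : C(Y, Y)) {D K : Ch F Y →ₗ[F] Ch F Y}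
    (h : ∀ c, map ρ c - D c = bd (K c) + K (bd c)) :
    ∃ K' : Ch F (Z × Y) →ₗ[F] Ch F (Z × Y),
      (∀ c, map ((ContinuousMap.id Z).prodMap ρ) c -
        kap (TensorProduct.map LinearMap.id D (cop c)) = bd (K' c) + K' (bd c)) ∧
      ∀ (U : Set Z) (A A' : Set Y), MapsTo ρ A A' → (∀ c ∈ CC F A, K c ∈ CC F A') →
        ∀ c ∈ CC F (U ×ˢ A), K' c ∈ CC F (U ×ˢ A') := by
  obtain ⟨E, h1, h2⟩ := exists_ez F Z Y
  refine ⟨Fu.map ((ContinuousMap.id Z).prodMap ρ) ∘ₗ E + kap ∘ₗ TensorProduct.map om K ∘ₗ cop,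
    fun c => ?_, fun U A A' hA hK c hc => ?_⟩
  · have t1 := congrArg (Fu.map ((ContinuousMap.id Z).prodMap ρ)) (h1 c)
    have t2 := zd3_ten ρ h (cop c)
    rw [map_sub, map_add, ← bd_map] at t1
    rw [tbd_cop] at t2
    simp only [LinearMap.add_apply, LinearMap.comp_apply, map_add]
    rw [add_add_add_comm, ← t1, ← t2, sub_add_sub_cancel]
  · refine add_mem (map_mem_CC (A := U ×ˢ A) (B := U ×ˢ A') (fun z hz => ⟨hz.1, hA hz.2⟩)
      (h2 U A c hc)) ?_
    exact zc9_TS (kap ∘ₗ TensorProduct.map om K) _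
      (fun a ha b hb => cross_mem_CC (om_mem_CC ha) (hK b hb)) (cop_mem hc)

/-- first term and tail -/
def zd3s (X : Type) [TopologicalSpace X] : C(ℕ → X, X × (ℕ → X)) :=
  ⟨fun y => (y 0, fun i => y (i + 1)), by fun_prop⟩

/-- prepending a term -/
def zd3j (X : Type) [TopologicalSpace X] : C(X × (ℕ → X), ℕ → X) :=
  (appC X 1).comp ((csC X).prodMap (ContinuousMap.id _))

theorem zd3j_zero (z : X × (ℕ → X)) : zd3j X z 0 = z.1 := rfl

theorem zd3j_succ (z : X × (ℕ → X)) (i : ℕ) : zd3j X z (i + 1) = z.2 i := rfl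

theorem zd3_tpr (n : ℕ) (b : ℕ → Ch F X) :
    tpr (n + 1) b = map (zd3j X) (cross (b 0) (tpr n fun i => b (i + 1))) := by
  rw [zd3j, ← map_map, ← cross_map, map_id']
  rfl

theorem zd3_sj (c : Ch F (X × (ℕ → X))) : map (zd3s X) (map (zd3j X) c) = c := by
  have e : (zd3s X).comp (zd3j X) = ContinuousMap.id _ :=
    ContinuousMap.ext fun z => Prod.ext rfl (funext fun i => zd3j_succ z i)
  rw [map_map, e, map_id']

theorem exists_proj_seq (F : Type) [Field F] (X : Type) [TopologicalSpace X] (n : ℕ) :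
    ∃ D K : Ch F (ℕ → X) →ₗ[F] Ch F (ℕ → X),
      (∀ c, map (⟨fun y i => y (min i n), by fun_prop⟩ : C(ℕ → X, ℕ → X)) c - D c =
        bd (K c) + K (bd c)) ∧
      (∀ A : ℕ → Set X, ∀ c ∈ CC F {y : ℕ → X | ∀ i ≤ n, y i ∈ A i},
        K c ∈ CC F {y : ℕ → X | ∀ i ≤ n, y i ∈ A i} ∧
        D c ∈ Submodule.span F {z | ∃ b : ℕ → Ch F X, (∀ i ≤ n, b i ∈ CC F (A i)) ∧ z = tpr n b}) ∧
      ∀ b : ℕ → Ch F X, D (tpr n b) = tpr n b := by
  induction n with
  | zero =>
    refine ⟨map ⟨fun y i => y (min i 0), by fun_prop⟩, 0, fun c => by simp,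
      fun A c hc => ⟨zero_mem _, Submodule.subset_span ⟨fun _ => map (ev0 X) c, fun i hi => ?_, ?_⟩⟩,
      fun b => ?_⟩
    · rw [Nat.le_zero.1 hi]
      exact map_mem_CC (A := {y : ℕ → X | ∀ i ≤ 0, y i ∈ A i}) (fun y hy => hy 0 le_rfl) hc
    · rw [tpr, map_map]
      exact congrArg (fun f => map f c)
        (ContinuousMap.ext fun y => funext fun i => congrArg y (Nat.min_zero i))
    · rw [tpr, map_map]
      rfl
  | succ n ih =>
    obtain ⟨D, K, h1, h2, h3⟩ := ih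
    obtain ⟨K', k1, k2⟩ := ez_step (Z := X) _ h1
    refine ⟨map (zd3j X) ∘ₗ kap ∘ₗ TensorProduct.map LinearMap.id D ∘ₗ cop ∘ₗ map (zd3s X),
      map (zd3j X) ∘ₗ K' ∘ₗ map (zd3s X), fun c => ?_, fun A c hc => ?_, fun b => ?_⟩
    · have t := congrArg (map (zd3j X)) (k1 (map (zd3s X) c))
      rw [map_sub, map_add, ← bd_map, bd_map (zd3s X), map_map, map_map] at t
      simp only [LinearMap.comp_apply]
      rw [← t]
      refine congrArg (fun f => map f c - _) (ContinuousMap.ext fun y => funext fun i => ?_)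
      cases i with
      | zero => exact congrArg y (Nat.zero_min _)
      | succ i => exact congrArg y (Nat.succ_min_succ i n)
    · have t : map (zd3s X) c ∈ CC F (A 0 ×ˢ {y : ℕ → X | ∀ i ≤ n, y i ∈ A (i + 1)}) :=
        map_mem_CC (B := A 0 ×ˢ {y : ℕ → X | ∀ i ≤ n, y i ∈ A (i + 1)})
          (A := {y : ℕ → X | ∀ i ≤ n + 1, y i ∈ A i})
          (fun y hy => ⟨hy 0 (Nat.zero_le _), fun i hi => hy _ (Nat.succ_le_succ hi)⟩) hc
      refine ⟨map_mem_CC (fun z hz i hi => ?_) (k2 (A 0) _ {y : ℕ → X | ∀ i ≤ n, y i ∈ A (i + 1)}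
        (fun y hy i hi => ?_) (fun c hc => (h2 (fun i => A (i + 1)) c hc).1) _ t), ?_⟩
      · cases i with
        | zero => exact hz.1
        | succ i =>
          rw [zd3j_succ]
          exact hz.2 i (Nat.le_of_succ_le_succ hi)
      · show y (min i n) ∈ _
        rw [min_eq_left hi]
        exact hy i hi
      · refine zc9_TS (map (zd3j X) ∘ₗ kap ∘ₗ TensorProduct.map LinearMap.id D) _
          (fun a ha b hb => ?_) (cop_mem t)
        refine Submodule.mem_comap.1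
          ((Submodule.span_le (p := Submodule.comap (map (zd3j X) ∘ₗ cross a) _)).2 ?_
            (h2 (fun i => A (i + 1)) b hb).2)
        rintro _ ⟨b', hb', rfl⟩
        refine Submodule.subset_span ⟨fun i => Nat.casesOn i a b', fun i hi => ?_,
          (zd3_tpr n fun i => Nat.casesOn i a b').symm⟩
        cases i with
        | zero => exact ha
        | succ i => exact hb' i (Nat.le_of_succ_le_succ hi)
    · simp only [LinearMap.comp_apply]
      rw [zd3_tpr, zd3_sj, cop_cross, TensorProduct.map_tmul, kap_tmul, h3, LinearMap.id_apply]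

theorem exists_proj (F : Type) [Field F] (X Y : Type) [TopologicalSpace X] [TopologicalSpace Y]
    (q : ℕ) [NeZero q] :
    ∃ D K : Ch F (Y × (ZMod q → X)) →ₗ[F] Ch F (Y × (ZMod q → X)),
      (∀ c, c - D c = bd (K c) + K (bd c)) ∧
      (∀ (U : Set Y) (A : ZMod q → Set X), ∀ c ∈ CC F (U ×ˢ Set.pi univ A),
        K c ∈ CC F (U ×ˢ Set.pi univ A) ∧ D c ∈ PS F U A) ∧
      ∀ (a : Ch F Y) (b : ℕ → Ch F X), D (cross a (cpr q b)) = cross a (cpr q b) := by
  have hq := NeZero.pos q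
  obtain ⟨D, K, h1, h2, h3⟩ := exists_proj_seq F X (q - 1)
  let u : C(ZMod q → X, ℕ → X) := ⟨fun x i => x (min i (q - 1) : ℕ), by fun_prop⟩
  have hv : ∀ c : ZMod q, (c - 0).val ≤ q - 1 := fun c => Nat.le_sub_one_of_lt (ZMod.val_lt _)
  have hu : ∀ (A : ZMod q → Set X), ∀ c ∈ CC F (Set.pi univ A),
      map u c ∈ CC F {y : ℕ → X | ∀ i ≤ q - 1, y i ∈ A i} := fun A c hc =>
    map_mem_CC (fun x hx i hi => by
      show x (min i (q - 1) : ℕ) ∈ _
      rw [min_eq_left hi]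
      exact hx _ (mem_univ _)) hc
  have h0 : ∀ c : Ch F (ZMod q → X), map (ContinuousMap.id _) c -
      (map (cyc X 0) ∘ₗ D ∘ₗ map u) c = bd ((map (cyc X 0) ∘ₗ K ∘ₗ map u) c) +
        (map (cyc X 0) ∘ₗ K ∘ₗ map u) (bd c) := fun c => by
    have t := congrArg (map (cyc X (0 : ZMod q))) (h1 (map u c))
    rw [map_sub, map_add, ← bd_map, bd_map u, map_map, map_map] at t
    simp only [LinearMap.comp_apply]
    rw [← t]
    refine congrArg (fun f => map f c - _) (ContinuousMap.ext fun x => funext fun i => ?_)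
    show x i = x (min (min (i - 0).val (q - 1)) (q - 1) : ℕ)
    rw [min_eq_left (hv i), min_eq_left (hv i), ZMod.natCast_zmod_val, sub_zero]
  obtain ⟨K', k1, k2⟩ := ez_step (Z := Y) _ h0
  refine ⟨kap ∘ₗ TensorProduct.map LinearMap.id (map (cyc X 0) ∘ₗ D ∘ₗ map u) ∘ₗ cop, K',
    fun c => ?_, fun U A c hc => ⟨k2 U _ _ (fun _ h => h) (fun c hc => ?_) c hc, ?_⟩,
    fun a b => ?_⟩
  · have e : (ContinuousMap.id Y).prodMap (ContinuousMap.id (ZMod q → X)) = ContinuousMap.id _ :=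
      ContinuousMap.ext fun _ => rfl
    have t := k1 c
    rwa [e, map_id'] at t
  · refine map_mem_CC (fun y hy i _ => ?_) (h2 (fun i => A i) _ (hu A c hc)).1
    have := hy _ (hv i)
    show y (i - 0).val ∈ A i
    rw [ZMod.natCast_zmod_val] at this
    rwa [sub_zero] at this ⊢
  · refine zc9_TS (kap ∘ₗ TensorProduct.map LinearMap.id (map (cyc X 0) ∘ₗ D ∘ₗ map u)) _
      (fun a ha b hb => ?_) (cop_mem hc)
    refine Submodule.mem_comap.1
      ((Submodule.span_le (p := Submodule.comap (cross a ∘ₗ map (cyc X 0)) _)).2 ?_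
        (h2 (fun i => A i) _ (hu A b hb)).2)
    rintro _ ⟨b', hb', rfl⟩
    exact PS_mem ha fun i hi => hb' i (Nat.le_sub_one_of_lt hi)
  · have e : map u (cpr q b) = tpr (q - 1) b := by
      rw [cpr, map_map, ← mp_coe]
      refine mp_eq_self (fun y hy => funext fun i => ?_)
        (tpr_CC (A := fun _ => univ) fun i _ => mem_CC_univ _)
      show y (((min i (q - 1) : ℕ) : ZMod q) - 0).val = y i
      rw [sub_zero, ZMod.val_natCast_of_lt (by omega)]
      rcases le_total i (q - 1) with h | h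
      · rw [min_eq_left h]
      · rw [min_eq_right h, hy.2 i h]
    simp only [LinearMap.comp_apply]
    rw [cop_cross, TensorProduct.map_tmul, kap_tmul, LinearMap.id_apply, LinearMap.comp_apply,
      LinearMap.comp_apply, e, h3]
    rfl

end Pool.Agent.Fu
end

-- part Pool.Agent.P.MP_365c00_gt.ZI5
section

/-! Index theory: independence of the partition. -/

set_option linter.unusedSectionVars false
set_option linter.unusedVariables false

open Set Filter Topology Metric Function MeasureTheory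
open scoped Manifold ContDiff
open Pool.Agent.GeoN

namespace Pool.Agent.Fu

variable {E : Type} [NormedAddCommGroup E] [InnerProductSpace ℝ E] [FiniteDimensional ℝ E]
  {M : Type} [MetricSpace M] [ChartedSpace E M] [IsManifold 𝓘(ℝ, E) ∞ M]
  [CompactSpace M] [Nonempty M] [Nontrivial E] {g : Met E M}

variable {sh : Short g} {a : ℝ}

theorem zi5_le {α : Type} (t : ℕ → α) {i j : ℕ} (x : α) (h : j ≤ i) : insN t i x j = t j := by
  simp [insN, h]

theorem zi5_mid {α : Type} (t : ℕ → α) (i : ℕ) (x : α) : insN t i x (i + 1) = x := by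
  simp [insN]

theorem zi5_gt {α : Type} (t : ℕ → α) {i j : ℕ} (x : α) (h : i < j) : insN t i x (j + 1) = t j := by
  have h1 : ¬j + 1 ≤ i := by omega
  have h2 : j ≠ i := by omega
  simp [insN, h1, h2]

theorem Part.insN {l : ℝ} {k : ℕ} {t : ℕ → ℝ} (ht : Part a l k t) {i : ℕ} (hi : i < k) {m : ℝ}
    (h1 : t i < m) (h2 : m < t (i + 1)) : Part a l (k + 1) (insN t i m) := by
  obtain ⟨hk, h0, hl, hs⟩ := ht
  refine ⟨by omega, by rw [zi5_le _ _ (Nat.zero_le i), h0], by rw [zi5_gt _ _ hi, hl], fun j hj => ?_⟩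
  have hsi := hs i hi
  rcases lt_trichotomy j i with hji | rfl | hji
  · rw [zi5_le _ _ hji.le, zi5_le _ _ (show j + 1 ≤ i from hji)]
    exact hs j (by omega)
  · rw [zi5_le _ _ le_rfl, zi5_mid]
    exact ⟨h1, by linarith [hsi.2]⟩
  · obtain ⟨j, rfl⟩ : ∃ j', j = j' + 1 := ⟨j - 1, by omega⟩
    rw [zi5_gt _ _ hji]
    rcases (show i ≤ j by omega).eq_or_lt with rfl | hij
    · rw [zi5_mid]
      exact ⟨h2, by linarith [hsi.2]⟩
    · rw [zi5_gt _ _ hij]
      exact hs j (by omega)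

theorem Qf_ins (u : UG g) {k : ℕ} (t : ℕ → ℝ) {i : ℕ} (hi : i < k) (m : ℝ) (v : ℕ → E) (y : E) :
    Qf sh u (k + 1) (insN t i m) (insN v i y) (insN v i y) =
      Qf sh u k t v v - Bq sh u (t i) (t (i + 1)) (v i, v (i + 1)) (v i, v (i + 1)) +
        (Bq sh u (t i) m (v i, y) (v i, y) + Bq sh u m (t (i + 1)) (y, v (i + 1)) (y, v (i + 1))) := by
  induction k, (show i + 1 ≤ k from hi) using Nat.le_induction with
  | base =>
    unfold Qf
    rw [Finset.sum_range_succ, Finset.sum_range_succ, Finset.sum_range_succ,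
      Finset.sum_congr rfl fun j hj => by
        have hj' : j + 1 ≤ i := Finset.mem_range.mp hj
        rw [zi5_le t m hj', zi5_le v y hj', zi5_le t m (show j ≤ i by omega),
          zi5_le v y (show j ≤ i by omega)]]
    rw [zi5_le t m le_rfl, zi5_le v y le_rfl, zi5_mid, zi5_mid, zi5_gt t m (Nat.lt_succ_self i),
      zi5_gt v y (Nat.lt_succ_self i)]
    ring
  | succ k hk ih =>
    have ih' := ih hk
    unfold Qf at ih' ⊢
    rw [Finset.sum_range_succ, ih', Finset.sum_range_succ _ k, zi5_gt t m hk, zi5_gt v y hk,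
      zi5_gt t m hi, zi5_gt v y hi]
    ring

theorem zi5_zero (u : UG g) (k : ℕ) (t : ℕ → ℝ) : 0 ≤ Qf sh u k t 0 0 := by
  rw [← Ql_apply, map_zero]

theorem nI_ins (h : SMd sh dist a) (u : UG g) {l : ℝ} {k : ℕ} {t : ℕ → ℝ} (ht : Part a l k t)
    {i : ℕ} (hi : i < k) {m : ℝ} (h1 : t i < m) (h2 : m < t (i + 1)) :
    nI (Qf sh u (k + 1) (insN t i m)) (Vk E (k + 1)) = nI (Qf sh u k t) (Vk E k) := by
  have hs := (ht.2.2.2 i hi).2
  refine le_antisymm ?_ ?_
  · refine nI_map (LinearMap.funLeft ℝ E fun j => if j ≤ i then j else j + 1) (zi5_zero u k t)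
      (fun v hv => ⟨?_, fun j hj => ?_⟩) fun v hv => ?_
    · simpa [LinearMap.funLeft_apply] using hv.1
    · rw [LinearMap.funLeft_apply, if_neg (by omega)]
      exact hv.2 _ (by omega)
    · generalize hw : (LinearMap.funLeft ℝ E fun j => if j ≤ i then j else j + 1) v = w
      have e : v = insN w i (v (i + 1)) := by
        funext j
        rcases le_or_gt j i with hj | hj
        · rw [zi5_le _ _ hj, ← hw, LinearMap.funLeft_apply, if_pos hj]
        · obtain ⟨j, rfl⟩ : ∃ j', j = j' + 1 := ⟨j - 1, by omega⟩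
          rcases (show i ≤ j by omega).eq_or_lt with rfl | hij
          · rw [zi5_mid]
          · rw [zi5_gt _ _ hij, ← hw, LinearMap.funLeft_apply, if_neg (by omega)]
      have e1 := Qf_ins (sh := sh) u t hi m w (v (i + 1))
      rw [← e] at e1
      have e2 := Bq_sub h u h1 h2 hs (w i) (v (i + 1)) (w (i + 1))
      linarith
  · obtain ⟨μ, hμ⟩ := Bq_mid h u h1 h2 hs
    obtain ⟨L, hL⟩ : ∃ L : (ℕ → E) →ₗ[ℝ] (ℕ → E), ∀ v, L v = insN v i (μ (v i, v (i + 1))) := by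
      refine ⟨LinearMap.pi (insN (fun j => LinearMap.proj j) i
        (μ ∘ₗ (LinearMap.proj i).prod (LinearMap.proj (i + 1)))), fun v => ?_⟩
      funext j
      rw [LinearMap.pi_apply]
      unfold insN
      split_ifs <;> rfl
    refine nI_map L (zi5_zero u _ _) (fun v hv => ⟨?_, fun j hj => ?_⟩) fun v hv => ?_
    · rw [hL, zi5_le _ _ (Nat.zero_le i)]
      exact hv.1
    · obtain ⟨j, rfl⟩ : ∃ j', j = j' + 1 := ⟨j - 1, by omega⟩
      rw [hL, zi5_gt _ _ (by omega)]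
      exact hv.2 _ (by omega)
    · rw [hL, Qf_ins u t hi, hμ]
      linarith

theorem zi5_image {α : Type} (t : ℕ → α) {i k : ℕ} (hi : i < k) (x : α) :
    insN t i x '' Iic (k + 1) = insert x (t '' Iic k) := by
  ext y
  constructor
  · rintro ⟨j, hj, rfl⟩
    have hj' : j ≤ k + 1 := hj
    rcases le_or_gt j i with h1 | h1
    · exact Or.inr ⟨j, show j ≤ k by omega, (zi5_le _ _ h1).symm⟩
    · obtain ⟨j, rfl⟩ : ∃ j', j = j' + 1 := ⟨j - 1, by omega⟩
      rcases (show i ≤ j by omega).eq_or_lt with rfl | hij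
      · exact Or.inl (zi5_mid _ _ _)
      · exact Or.inr ⟨j, show j ≤ k by omega, (zi5_gt _ _ hij).symm⟩
  · rintro (rfl | ⟨j, hj, rfl⟩)
    · exact ⟨i + 1, show i + 1 ≤ k + 1 by omega, zi5_mid _ _ _⟩
    · have hj' : j ≤ k := hj
      rcases le_or_gt j i with h1 | h1
      · exact ⟨j, show j ≤ k + 1 by omega, zi5_le _ _ h1⟩
      · exact ⟨j + 1, show j + 1 ≤ k + 1 by omega, zi5_gt _ _ h1⟩

/-- refinement by a finite set -/
theorem nI_refine (h : SMd sh dist a) (u : UG g) {l : ℝ} {k : ℕ} {t : ℕ → ℝ} (ht : Part a l k t)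
    (A : Finset ℝ) (hA : ∀ x ∈ A, x ∈ Icc 0 l) : ∃ (k' : ℕ) (t' : ℕ → ℝ), Part a l k' t' ∧
      t' '' Iic k' = t '' Iic k ∪ A ∧
      nI (Qf sh u k' t') (Vk E k') = nI (Qf sh u k t) (Vk E k) := by
  classical
  induction A using Finset.induction_on with
  | empty => exact ⟨k, t, ht, by simp, rfl⟩
  | insert x A hx ih =>
    obtain ⟨k', t', ht', e, hn⟩ := ih fun y hy => hA y (Finset.mem_insert_of_mem hy)
    have hx0 := hA x (Finset.mem_insert_self _ _)
    by_cases hm : x ∈ t' '' Iic k'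
    · refine ⟨k', t', ht', ?_, hn⟩
      rw [Finset.coe_insert, union_insert, ← e, insert_eq_of_mem hm]
    · have hk : x < t' k' := by
        refine lt_of_le_of_ne (by rw [ht'.2.2.1]; exact hx0.2) fun h0 => hm ⟨k', self_mem_Iic, h0.symm⟩
      have hex : ∃ j, x < t' j := ⟨k', hk⟩
      have f1 : Nat.find hex ≤ k' := Nat.find_min' hex hk
      have f2 := Nat.find_spec hex
      have f3 : Nat.find hex ≠ 0 := by
        intro h0
        rw [h0, ht'.2.1] at f2
        exact absurd hx0.1 (not_le.mpr f2)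
      obtain ⟨i, hi⟩ : ∃ i, Nat.find hex = i + 1 := ⟨Nat.find hex - 1, by omega⟩
      have f4 : ¬x < t' i := Nat.find_min hex (by omega)
      have f5 : t' i < x :=
        lt_of_le_of_ne (not_lt.mp f4) fun h0 => hm ⟨i, show i ≤ k' by omega, h0⟩
      rw [hi] at f1 f2
      refine ⟨k' + 1, insN t' i x, ht'.insN f1 f5 f2, ?_, (nI_ins h u ht' f1 f5 f2).trans hn⟩
      rw [zi5_image t' f1, e, Finset.coe_insert, union_insert]

theorem zi5_mono {l : ℝ} {k : ℕ} {t : ℕ → ℝ} (ht : Part a l k t) {i j : ℕ} (hij : i ≤ j)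
    (hj : j ≤ k) : t i ≤ t j := by
  rcases hij.eq_or_lt with rfl | h
  · exact le_rfl
  · exact (ht.lt h hj).le

theorem zi5_step {l : ℝ} {k k' : ℕ} {t t' : ℕ → ℝ} (ht : Part a l k t) (ht' : Part a l k' t')
    (e : t '' Iic k ⊆ t' '' Iic k') {j : ℕ} (hj : j ≤ k) (ih : ∀ i < j, t i = t' i) :
    t' j ≤ t j := by
  obtain ⟨i, hi, hi'⟩ := e ⟨j, hj, rfl⟩
  rcases le_or_gt j i with h | h
  · exact hi' ▸ zi5_mono ht' h hi
  · exact absurd ((ih i h).trans hi') (ht.lt h hj).ne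

theorem Part.uniq {l : ℝ} {k k' : ℕ} {t t' : ℕ → ℝ} (ht : Part a l k t) (ht' : Part a l k' t')
    (e : t '' Iic k = t' '' Iic k') : k = k' ∧ ∀ j ≤ k, t j = t' j := by
  have key : ∀ j, j ≤ k → j ≤ k' → t j = t' j := by
    intro j
    induction j using Nat.strong_induction_on with
    | _ j ih =>
      intro hj hj'
      have ih' : ∀ i < j, t i = t' i := fun i hi => ih i hi (by omega) (by omega)
      exact le_antisymm (zi5_step ht' ht e.symm.subset hj' fun i hi => (ih' i hi).symm)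
        (zi5_step ht ht' e.subset hj ih')
  have hk : k = k' := by
    rcases lt_trichotomy k k' with h | h | h
    · have := ht'.lt h le_rfl
      rw [← key k le_rfl h.le, ht.2.2.1, ht'.2.2.1] at this
      exact absurd this (lt_irrefl _)
    · exact h
    · have := ht.lt h le_rfl
      rw [key k' h.le le_rfl, ht.2.2.1, ht'.2.2.1] at this
      exact absurd this (lt_irrefl _)
  exact ⟨hk, fun j hj => key j hj (hk ▸ hj)⟩

theorem zi5_two (h : SMd sh dist a) (u : UG g) {l : ℝ} {k k' : ℕ} {t t' : ℕ → ℝ}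
    (ht : Part a l k t) (ht' : Part a l k' t') :
    nI (Qf sh u k t) (Vk E k) = nI (Qf sh u k' t') (Vk E k') := by
  classical
  have hm : ∀ {k : ℕ} {t : ℕ → ℝ}, Part a l k t → ∀ x ∈ (Finset.Iic k).image t, x ∈ Icc 0 l := by
    intro k t ht x hx
    obtain ⟨j, hj, rfl⟩ := Finset.mem_image.mp hx
    have hj' := Finset.mem_Iic.mp hj
    exact ⟨ht.2.1 ▸ zi5_mono ht (Nat.zero_le j) hj', ht.2.2.1 ▸ zi5_mono ht hj' le_rfl⟩
  obtain ⟨k1, t1, p1, e1, n1⟩ := nI_refine h u ht _ (hm ht')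
  obtain ⟨k2, t2, p2, e2, n2⟩ := nI_refine h u ht' _ (hm ht)
  rw [Finset.coe_image, Finset.coe_Iic] at e1 e2
  obtain ⟨rfl, e⟩ := p1.uniq p2 (by rw [e1, e2, union_comm])
  rw [← n1, ← n2]
  congr 1
  funext v w
  refine Finset.sum_congr rfl fun j hj => ?_
  have hj' := Finset.mem_range.mp hj
  rw [e j hj'.le, e (j + 1) hj']

theorem idx_part' (h : SMd sh dist a) (u : UG g) {l : ℝ} {k : ℕ} {t : ℕ → ℝ} (ht : Part a l k t) :
    idx sh a u l = nI (Qf sh u k t) (Vk E k) :=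
  zi5_two h u (part_std h.pos ht.pos) ht

end Pool.Agent.Fu
end

-- part Pool.Agent.P.MP_365c00_gt.ZI6
section

/-! Index theory: the kernel of the index form. -/

set_option linter.unusedSectionVars false
set_option linter.unusedVariables false

open Set Filter Topology Metric Function MeasureTheory
open scoped Manifold ContDiff
open Pool.Agent.GeoN

namespace Pool.Agent.Fu

variable {E : Type} [NormedAddCommGroup E] [InnerProductSpace ℝ E] [FiniteDimensional ℝ E]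
  {M : Type} [MetricSpace M] [ChartedSpace E M] [IsManifold 𝓘(ℝ, E) ∞ M]
  [CompactSpace M] [Nonempty M] [Nontrivial E] {g : Met E M}

variable {sh : Short g} {a : ℝ}

/-- the index form against a variation, node by node -/
theorem Qf_nodes (u : UG g) {k : ℕ} (t : ℕ → ℝ) (v : ℕ → E) {w : ℕ → E} (hw : w ∈ Vk E k) :
    Qf sh u k t v w = ∑ j ∈ Finset.range (k - 1),
      (Bq sh u (t j) (t (j + 1)) (v j, v (j + 1)) (0, w (j + 1)) +
        Bq sh u (t (j + 1)) (t (j + 2)) (v (j + 1), v (j + 2)) (w (j + 1), 0)) := by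
  obtain ⟨hw0, hwk⟩ := mem_Vk.1 hw
  rcases k with _ | n
  · simp [Qf]
  · have e : ∀ j, Bq sh u (t j) (t (j + 1)) (v j, v (j + 1)) (w j, w (j + 1)) =
        Bq sh u (t j) (t (j + 1)) (v j, v (j + 1)) (0, w (j + 1)) +
          Bq sh u (t j) (t (j + 1)) (v j, v (j + 1)) (w j, 0) := by
      intro j
      rw [← map_add]
      simp
    have z : ((0 : E), (0 : E)) = 0 := rfl
    simp only [Qf, e, Finset.sum_add_distrib, Nat.add_sub_cancel]
    congr 1
    · rw [Finset.sum_range_succ, hwk (n + 1) le_rfl, z, map_zero, add_zero]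
    · rw [Finset.sum_range_succ', hw0, z, map_zero, add_zero]

theorem ZI6_node (u : UG g) {k : ℕ} {t : ℕ → ℝ} {v : ℕ → E}
    (h0 : ∀ w ∈ Vk E k, Qf sh u k t v w = 0) {j : ℕ} (hj : j + 1 < k) (y : E) :
    Bq sh u (t j) (t (j + 1)) (v j, v (j + 1)) (0, y) +
      Bq sh u (t (j + 1)) (t (j + 2)) (v (j + 1), v (j + 2)) (y, 0) = 0 := by
  have hw : (Pi.single (j + 1) y : ℕ → E) ∈ Vk E k := by
    refine mem_Vk.2 ⟨Pi.single_eq_of_ne (by omega) _, fun i hi => Pi.single_eq_of_ne (by omega) _⟩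
  have h1 := h0 _ hw
  rw [Qf_nodes u t v hw, Finset.sum_eq_single j] at h1
  · simpa using h1
  · intro i _ hij
    have z : ((0 : E), (0 : E)) = 0 := rfl
    rw [Pi.single_eq_of_ne (by omega), z, map_zero, map_zero, add_zero]
  · intro hn
    exact absurd (Finset.mem_range.2 (by omega)) hn

theorem ZI6_one {l : ℝ} {k : ℕ} {t : ℕ → ℝ} (ht : Part a l k t) : 0 < t 1 ∧ t 1 < a := by
  obtain ⟨hk, h0, _, h⟩ := ht
  have := h 0 hk
  rw [h0] at this
  simpa using this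

theorem nd_part' (h : SMd sh dist a) (u : UG g) {l : ℝ} {k : ℕ} {t : ℕ → ℝ} (ht : Part a l k t)
    (hn : NdJ g u l) {v : ℕ → E} (hv : v ∈ Vk E k) (h0 : ∀ w ∈ Vk E k, Qf sh u k t v w = 0) :
    v = 0 := by
  obtain ⟨hv0, hvk⟩ := mem_Vk.1 hv
  obtain ⟨ξ, hξ⟩ := jac_surj h u (ZI6_one ht).1 (ZI6_one ht).2 (v 1)
  obtain ⟨hk, ht0, htk, hp⟩ := ht
  have key : ∀ j, j + 1 ≤ k → Jac g u (t j) ξ = v j ∧ Jac g u (t (j + 1)) ξ = v (j + 1) := by
    intro j
    induction j with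
    | zero =>
      intro _
      refine ⟨?_, hξ⟩
      rw [ht0, Jac_zero, hv0]
      rfl
    | succ j ih =>
      intro hj
      obtain ⟨e0, e1⟩ := ih (by omega)
      refine ⟨e1, ?_⟩
      have p0 := hp j (by omega)
      have p1 := hp (j + 1) (by omega)
      have : Jac g u (t (j + 2)) ξ - v (j + 2) = 0 := by
        refine cross_nd h u p1.1 p1.2 fun y => ?_
        have n1 := ZI6_node u h0 (j := j) (by omega) y
        have n2 := jac_eq h u p0.1 p1.1 p0.2 p1.2 ξ y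
        rw [e0, e1] at n2
        have e : ((0 : E), Jac g u (t (j + 2)) ξ - v (j + 2)) =
            (v (j + 1), Jac g u (t (j + 2)) ξ) - (v (j + 1), v (j + 2)) := by simp
        rw [e, map_sub, sub_apply]
        linarith
      exact sub_eq_zero.1 this
  have all : ∀ j ≤ k, Jac g u (t j) ξ = v j := by
    intro j hj
    rcases j with _ | j
    · exact (key 0 hk).1
    · exact (key j hj).2
  have hx : ξ = 0 := by
    apply hn
    rw [map_zero, ← htk, all k le_rfl, hvk k le_rfl]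
  funext j
  by_cases hj : j ≤ k
  · rw [← all j hj, hx, map_zero]
    rfl
  · exact hvk j (by omega)

/-- Jacobi fields that vanish at both ends lie in the kernel -/
theorem ker_part (h : SMd sh dist a) (u : UG g) {l : ℝ} {k : ℕ} {t : ℕ → ℝ} (ht : Part a l k t) :
    ∃ L : LinearMap.ker (Jac g u l : E →ₗ[ℝ] E) →ₗ[ℝ] (ℕ → E), Injective L ∧
      ∀ ξ, L ξ ∈ Vk E k ∧ ∀ w ∈ Vk E k, Qf sh u k t (L ξ) w = 0 := by
  have h1 := ZI6_one ht
  obtain ⟨hk, ht0, htk, hp⟩ := ht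
  let L : LinearMap.ker (Jac g u l : E →ₗ[ℝ] E) →ₗ[ℝ] (ℕ → E) :=
    { toFun := fun ξ j => if j < k then Jac g u (t j) ξ.1 else 0
      map_add' := fun ξ η => by
        funext j
        by_cases hj : j < k <;> simp [hj]
      map_smul' := fun c ξ => by
        funext j
        by_cases hj : j < k <;> simp [hj] }
  have hL : ∀ ξ j, j ≤ k → L ξ j = Jac g u (t j) ξ.1 := by
    intro ξ j hj
    show (if j < k then Jac g u (t j) ξ.1 else 0) = _
    split_ifs with h'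
    · rfl
    · have : j = k := by omega
      rw [this, htk]
      exact (LinearMap.mem_ker.1 ξ.2).symm
  refine ⟨L, ?_, fun ξ => ⟨mem_Vk.2 ⟨?_, fun j hj => ?_⟩, fun w hw => ?_⟩⟩
  · rw [injective_iff_map_eq_zero]
    intro ξ hξ
    apply Subtype.ext
    apply nd_short' h u h1.1 h1.2
    rw [← hL ξ 1 hk, hξ]
    simp
  · rw [hL ξ 0 (Nat.zero_le _), ht0, Jac_zero]
    rfl
  · show (if j < k then Jac g u (t j) ξ.1 else 0) = _
    rw [if_neg (by omega)]
  · rw [Qf_nodes u t _ hw]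
    refine Finset.sum_eq_zero fun j hj => ?_
    have hj' := Finset.mem_range.1 hj
    have p0 := hp j (by omega)
    have p1 := hp (j + 1) (by omega)
    rw [hL ξ j (by omega), hL ξ (j + 1) (by omega), hL ξ (j + 2) (by omega)]
    exact jac_eq h u p0.1 p1.1 p0.2 p1.2 ξ.1 _

end Pool.Agent.Fu
end

-- part Pool.Agent.P.MP_365c00_gt.ZQ1
section

/-! Lengths and indices of the geodesics of a pair; the Morse principles. -/

set_option linter.unusedSectionVars false
set_option linter.unusedVariables false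

open Set Topology Filter Metric

namespace Pool.Agent.Fu

variable {F : Type} [Field F] {M : Type} [MetricSpace M] {Z : Type} [TopologicalSpace Z]

namespace GD
variable {D : GD M} {x y : M} {τ : ℝ} {m k : ℕ} {w : D.G × ℝ}

theorem zq1_small {α : Type} {S : Set α} (hS : S.Finite) (f : α → ℝ) (h : ∀ s ∈ S, 0 < f s) :
    ∃ γ > 0, ∀ s ∈ S, γ < f s := by
  rcases S.eq_empty_or_nonempty with rfl | hne
  · exact ⟨1, one_pos, fun s hs => hs.elim⟩
  · obtain ⟨s0, h0, hm⟩ := Set.exists_min_image S f hS hne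
    have := h s0 h0
    exact ⟨f s0 / 2, by linarith, fun s hs => by linarith [hm s hs]⟩

theorem abs_eq {u : D.G} {l : ℝ} (h0 : D.ev u 0 = x) (h1 : D.ev u l = y) (hl : |l| < D.a) :
    |l| = dist x y := by
  have e : |(0 : ℝ) - l| = |l| := by rw [zero_sub, abs_neg]
  rw [← h0, ← h1, D.dist_ev u 0 l (by rwa [e]), e]
theorem J_short (h : w ∈ D.J x y) (hl : w.2 < D.a) : w.2 = dist x y := by
  have e : |w.2| = w.2 := abs_of_pos h.1
  rw [← e]
  exact abs_eq h.2.1 h.2.2 (by rwa [e])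
theorem J_ge (h : w ∈ D.J x y) (hd : dist x y < D.a) : dist x y ≤ w.2 := by
  rcases lt_or_ge w.2 D.a with hl | hl
  · exact (J_short h hl).ge
  · linarith
theorem ind_short (u : D.G) {l : ℝ} (h0 : 0 < l) (hl : l < D.a) : D.ind u l = 0 := by
  have h1 := D.ind_le u l h0
  have h2 := D.aC0
  have h3 := D.C0_pos
  have h4 : (D.ind u l : ℝ) < 1 := by nlinarith
  have h5 : D.ind u l < 1 := by exact_mod_cast h4
  omega
theorem chord (hne : x ≠ y) (hd : dist x y < D.a) : ∃ u, (u, dist x y) ∈ D.J x y := by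
  obtain ⟨u, h0, h1⟩ := D.ex x y hne hd
  exact ⟨u, dist_pos.2 hne, h0, h1⟩
theorem Reg.iso (h : D.Reg x y) (L : ℝ) :
    ∃ γ > 0, ∀ w ∈ D.J x y, w.2 ≤ L → γ ≤ w.2 ∧ D.Iso x y w.2 γ := by
  have hS := h.2.2.2 (L + 1)
  obtain ⟨γ1, p1, q1⟩ := zq1_small hS (fun w => w.2) fun w hw => hw.1.1
  obtain ⟨γ2, p2, q2⟩ := zq1_small ((hS.prod hS).subset
    (t := {p | p ∈ {w | w ∈ D.J x y ∧ w.2 ≤ L + 1} ×ˢ {w | w ∈ D.J x y ∧ w.2 ≤ L + 1} ∧
      p.1.2 ≠ p.2.2}) fun p hp => hp.1) (fun p => |p.1.2 - p.2.2|)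
    fun p hp => abs_pos.2 (sub_ne_zero.2 hp.2)
  refine ⟨min 1 (min γ1 γ2), lt_min one_pos (lt_min p1 p2), fun w hw hL => ⟨?_, ?_⟩⟩
  · have := q1 w ⟨hw, by linarith⟩
    exact ((min_le_right _ _).trans (min_le_left _ _)).trans this.le
  · intro v hv hd
    by_contra hne
    have h1 : |v.2 - w.2| ≤ 1 := hd.trans (min_le_left _ _)
    have h2 : |v.2 - w.2| ≤ γ2 := hd.trans ((min_le_right _ _).trans (min_le_right _ _))
    have h3 := q2 (v, w) ⟨⟨⟨hv, by linarith [(abs_le.1 h1).2]⟩, ⟨hw, by linarith⟩⟩, hne⟩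
    exact absurd h3 (not_lt.2 h2)
theorem Per.add (hτ : 0 < τ) (h : D.Per τ m x y) (hw : w ∈ D.J x y) :
    (w.1, w.2 + m * τ) ∈ D.J x y := by
  have h0 : 0 ≤ (m : ℝ) * τ := by positivity
  refine ⟨by have := hw.1; simp only; linarith, hw.2.1, ?_⟩
  exact ((h.2 w hw).1 w.2).trans hw.2.2
theorem Per.ne (h : D.Per τ m x y) (hw : w ∈ D.J x y) : w.2 ≠ m * τ := by
  intro e
  have h1 := (h.2 w hw).1.eq
  rw [← e, hw.2.2, hw.2.1] at h1
  exact h.1.1 h1.symm
theorem Per.sub (h : D.Per τ m x y) (hw : w ∈ D.J x y) (hl : m * τ ≤ w.2) :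
    (w.1, w.2 - m * τ) ∈ D.J x y ∧ D.ind w.1 w.2 = D.ind w.1 (w.2 - m * τ) + m := by
  have h1 : (w.1, w.2 - m * τ) ∈ D.J x y :=
    ⟨sub_pos.2 (lt_of_le_of_ne hl (h.ne hw).symm), hw.2.1,
      ((h.2 w hw).1.sub_eq w.2).trans hw.2.2⟩
  refine ⟨h1, ?_⟩
  have h2 := (h.2 _ h1).2.1
  simp only [sub_add_cancel] at h2
  exact h2
theorem Per.mul (hτ : 0 < τ) (hm : 0 < m) (h : D.Per τ m x y) (hk : 0 < k) :
    D.Per τ (k * m) x y := by
  have h1 : ∀ k : ℕ, ∀ w ∈ D.J x y,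
      D.ind w.1 (w.2 + (k * m : ℕ) * τ) = D.ind w.1 w.2 + k * m := by
    intro k
    induction k with
    | zero => intro w hw; simp
    | succ k ih =>
      intro w hw
      have e1 := ih _ (h.add hτ hw)
      have e2 := (h.2 w hw).2.1
      have e3 : w.2 + ((k + 1) * m : ℕ) * τ = w.2 + m * τ + (k * m : ℕ) * τ := by
        push_cast; ring
      simp only at e1
      rw [e3, e1, e2]
      ring
  have h2 : ∀ k : ℕ, ∀ w ∈ D.J x y, w.2 < (k * m : ℕ) * τ → D.ind w.1 w.2 + 2 ≤ k * m := by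
    intro k
    induction k with
    | zero =>
      intro w hw hl
      have := hw.1
      simp only [zero_mul, Nat.cast_zero] at hl
      linarith
    | succ k ih =>
      intro w hw hl
      rcases lt_or_ge w.2 (m * τ) with h3 | h3
      · have := (h.2 w hw).2.2 h3
        rw [add_mul, one_mul]
        omega
      · obtain ⟨e1, e2⟩ := h.sub hw h3
        have e3 := ih _ e1 (by push_cast at hl ⊢; linarith)
        simp only at e3
        rw [add_mul, one_mul]
        omega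
  refine ⟨h.1, fun w hw => ⟨?_, h1 k w hw, h2 k w hw⟩⟩
  have := (h.2 w hw).1.nat_mul k
  have e : ((k * m : ℕ) : ℝ) * τ = k * (m * τ) := by push_cast; ring
  rwa [e]
theorem Per.dvd (hτ : 0 < τ) (hm : 0 < m) (h : D.Per τ m x y) (hk : 0 < k) (hd : m ∣ k) :
    D.Per τ k x y := by
  obtain ⟨j, rfl⟩ := hd
  rw [mul_comm]
  exact h.mul hτ hm (Nat.pos_of_mul_pos_left hk)
theorem Per.window (h : D.Per τ m x y) (hw : w ∈ D.J x y) (h0 : m * τ ≤ w.2)
    (h1 : w.2 < m * τ + D.a) : w.2 = m * τ + dist x y ∧ D.ind w.1 w.2 = m := by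
  obtain ⟨e1, e2⟩ := h.sub hw h0
  have h2 : w.2 - m * τ < D.a := by linarith
  have e3 := J_short e1 h2
  refine ⟨by simp only at e3; linarith, ?_⟩
  rw [e2, ind_short w.1 e1.1 h2, zero_add]
theorem Per.iso (hτ : 0 < τ) (h : D.Per τ m x y) {l r : ℝ} (hr : r ≤ l) (hi : D.Iso x y l r) :
    D.Iso x y (m * τ + l) r := by
  intro v hv hd
  have h1 := abs_le.1 hd
  obtain ⟨e1, -⟩ := h.sub hv (by linarith [h1.1])
  have e2 := hi _ e1 (abs_le.2 ⟨by simp only; linarith [h1.1], by simp only; linarith [h1.2]⟩)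
  simp only at e2
  linarith
theorem Per.zq1_red (hτ : 0 < τ) (hm : 0 < m) (h : D.Per τ m x y) (hw : w ∈ D.J x y) :
    ∃ (j : ℕ) (l : ℝ), (w.1, l) ∈ D.J x y ∧ l ≤ m * τ ∧ w.2 = l + j * (m * τ) ∧
      D.ind w.1 w.2 = D.ind w.1 l + j * m := by
  have hP : 0 < (m : ℝ) * τ := by positivity
  have key : ∀ n : ℕ, ∀ w ∈ D.J x y, w.2 < n * (m * τ) →
      ∃ (j : ℕ) (l : ℝ), (w.1, l) ∈ D.J x y ∧ l ≤ m * τ ∧ w.2 = l + j * (m * τ) ∧
        D.ind w.1 w.2 = D.ind w.1 l + j * m := by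
    intro n
    induction n with
    | zero =>
      intro w hw hl
      have := hw.1
      simp only [Nat.cast_zero, zero_mul] at hl
      linarith
    | succ n ih =>
      intro w hw hl
      rcases lt_or_ge w.2 (m * τ) with h3 | h3
      · exact ⟨0, w.2, hw, h3.le, by simp, by simp⟩
      · obtain ⟨e1, e2⟩ := h.sub hw h3
        obtain ⟨j, l, f1, f2, f3, f4⟩ := ih _ e1 (by push_cast at hl ⊢; linarith)
        simp only at f1 f3 f4
        refine ⟨j + 1, l, f1, f2, by push_cast; linarith, ?_⟩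
        rw [e2, f4]
        ring
  obtain ⟨n, hn⟩ := exists_nat_gt (w.2 / (m * τ))
  exact key n w hw ((div_lt_iff₀ hP).1 hn)
theorem Per.ind_le (hτ : 0 < τ) (hm : 0 < m) (h : D.Per τ m x y) (hw : w ∈ D.J x y) :
    (D.ind w.1 w.2 : ℝ) ≤ w.2 / τ + D.C0 * (m * τ) := by
  obtain ⟨j, l, f1, f2, f3, f4⟩ := h.zq1_red hτ hm hw
  have h0 : 0 < l := f1.1
  have h1 := D.ind_le w.1 l h0
  have h2 := D.C0_pos
  have h3 : D.C0 * l ≤ D.C0 * (m * τ) := mul_le_mul_of_nonneg_left f2 h2.le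
  have h4 : (j : ℝ) * m ≤ w.2 / τ := by
    rw [le_div_iff₀ hτ, f3]
    linarith
  rw [f4]
  push_cast
  linarith
theorem Per.gap_unif (hτ : 0 < τ) (hm : 0 < m) (h : D.Per τ m x y) {c : ℝ}
    (hc : ∀ w ∈ D.J x y, ∀ k : ℤ, w.2 + c ≠ k * (m * τ)) :
    ∃ w0 > 0, ∀ w ∈ D.J x y, ∀ k : ℤ, w0 < |w.2 + c - k * (m * τ)| := by
  have hP : 0 < (m : ℝ) * τ := by positivity
  generalize hPe : (m : ℝ) * τ = P at hP hc
  have fl : ∀ t : ℝ, (⌊t / P⌋ : ℝ) * P ≤ t ∧ t < (⌊t / P⌋ + 1 : ℝ) * P := fun t =>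
    ⟨(le_div_iff₀ hP).1 (Int.floor_le _), (div_lt_iff₀ hP).1 (Int.lt_floor_add_one _)⟩
  obtain ⟨γ, p, q⟩ := zq1_small (h.1.2.2.2 P)
    (fun w => min (w.2 + c - ⌊(w.2 + c) / P⌋ * P) ((⌊(w.2 + c) / P⌋ + 1) * P - (w.2 + c)))
    fun w hw => lt_min (sub_pos.2 (lt_of_le_of_ne (fl _).1 (hc w hw.1 _).symm)) (sub_pos.2 (fl _).2)
  refine ⟨γ, p, fun w hw k => ?_⟩
  obtain ⟨j, l, f1, f2, f3, -⟩ := h.zq1_red hτ hm hw
  rw [hPe] at f2 f3
  have q1 := lt_min_iff.1 (q (w.1, l) ⟨f1, f2⟩)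
  simp only at q1
  generalize ⌊(l + c) / P⌋ = n at q1
  rw [f3]
  rcases le_or_gt (k - j) n with hk | hk
  · have h1 : ((k : ℝ) - j) ≤ n := by exact_mod_cast hk
    have h2 := mul_le_mul_of_nonneg_right h1 hP.le
    exact lt_of_lt_of_le (by linarith [q1.1]) (le_abs_self _)
  · have h1 : (n : ℝ) + 1 ≤ (k : ℝ) - j := by exact_mod_cast hk
    have h2 := mul_le_mul_of_nonneg_right h1 hP.le
    exact lt_of_lt_of_le (by linarith [q1.2]) (neg_le_abs _)

variable {b b' c c' : ℝ} {z : Ch F (Mo M)}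

theorem MT.gap_inj (hM : D.MT F) (hne : x ≠ y) (hg : D.Gap x y c c') (hb : b ≤ c)
    (hz : z ∈ ZZ F (Om x y c) (Om x y b)) (h : z ∈ NN F (Om x y c') (Om x y b)) :
    z ∈ NN F (Om x y c) (Om x y b) := by
  obtain ⟨u, hu, hn⟩ := mem_NN.1 h
  have h1 : bd u ∈ CC F (Om x y c) := by
    have := sub_mem (mem_ZZ.1 hz).1 (CC_mono (Om_mono x y hb) hn)
    rwa [sub_sub_cancel] at this
  obtain ⟨v, hv, hn'⟩ := mem_NN.1 (hM.mt0 x y c c' hne hg (mem_ZZ.2 ⟨hu, h1⟩))
  refine mem_NN.2 ⟨u - bd v, hn', ?_⟩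
  rwa [map_sub, bd_bd, sub_zero]
theorem MT.gap_low (hM : D.MT F) (hne : x ≠ y) (hg : D.Gap x y b' b) (hb : b ≤ c)
    (hz : z ∈ ZZ F (Om x y c) (Om x y b')) (h : z ∈ NN F (Om x y c) (Om x y b)) :
    z ∈ NN F (Om x y c) (Om x y b') := by
  obtain ⟨u, hu, hn⟩ := mem_NN.1 h
  have h1 : z - bd u ∈ ZZ F (Om x y b) (Om x y b') := by
    refine mem_ZZ.2 ⟨hn, ?_⟩
    rw [map_sub, bd_bd, sub_zero]
    exact (mem_ZZ.1 hz).2
  have h2 := NN_mono (Om_mono x y hb) subset_rfl (hM.mt0 x y b' b hne hg h1)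
  have h3 : bd u ∈ NN F (Om x y c) (Om x y b') := BB_le_NN _ _ (mem_BB.2 ⟨u, hu, rfl⟩)
  have := add_mem h2 h3
  rwa [sub_add_cancel] at this
theorem MT.gap_push (hM : D.MT F) (hne : x ≠ y) (hg : D.Gap x y b' b)
    (hz : bd z ∈ CC F (Om x y b)) (hd : z ∈ HD F _ k) :
    ∃ l ∈ CC F (Om x y b), l ∈ HD F _ k ∧ bd (z - l) ∈ CC F (Om x y b') := by
  have h1 : bd z ∈ ZZ F (Om x y b) (Om x y b') :=
    mem_ZZ.2 ⟨hz, by rw [bd_bd]; exact zero_mem _⟩
  obtain ⟨u, hu, hn⟩ := mem_NN.1 (hM.mt0 x y b' b hne hg h1)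
  refine ⟨dg k u, dg_mem_CC k hu, dg_mem_HD k u, ?_⟩
  have h2 : z - u ∈ ZZ F univ (Om x y b') := mem_ZZ.2 ⟨mem_CC_univ _, by rwa [map_sub]⟩
  have h3 := (mem_ZZ.1 (dg_mem_ZZ k h2)).2
  rwa [map_sub, mem_HD.1 hd] at h3
/-- a window with one geodesic -/
theorem MT.gen_win (hM : D.MT F) (h : D.Reg x y) (hw : w ∈ D.J x y) (hb : b ≤ w.2) (hc : w.2 < c)
    (hv : ∀ v ∈ D.J x y, v.2 < b ∨ v.2 = w.2 ∨ c ≤ v.2) :
    ∃ g ∈ ZZ F (Omc x y w.2) (Om x y b), g ∈ HD F _ (D.ind w.1 w.2) ∧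
      g ∉ NN F (Om x y c) (Om x y w.2) ∧
      ∀ z ∈ ZZ F (Om x y c) (Om x y b), ∃ r : F, z - r • g ∈ NN F (Om x y c) (Om x y b) := by
  obtain ⟨g, g1, g2, g3, g4⟩ := hM.mt1 x y h w hw c hc fun v hv' => by
    rcases hv v hv' with e | e | e
    · exact Or.inl (by linarith)
    · exact Or.inl e.le
    · exact Or.inr e
  have hg : D.Gap x y b w.2 := fun v hv' => by
    rcases hv v hv' with e | e | e
    · exact Or.inl e
    · exact Or.inr e.ge
    · exact Or.inr (by linarith)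
  obtain ⟨l, l1, l2, l3⟩ := hM.gap_push h.1 hg (mem_ZZ.1 g1).2 g2
  have k1 : g - l ∈ ZZ F (Omc x y w.2) (Om x y b) :=
    mem_ZZ.2 ⟨sub_mem (mem_ZZ.1 g1).1 (CC_mono (Om_sub_Omc x y _) l1), l3⟩
  have l4 : l ∈ NN F (Om x y c) (Om x y w.2) := CC_le_NN _ _ l1
  refine ⟨g - l, k1, sub_mem g2 l2, fun hn => g3 ?_, fun z hz => ?_⟩
  · have := add_mem hn l4
    rwa [sub_add_cancel] at this
  · obtain ⟨r, hr⟩ := g4 z (ZZ_mono subset_rfl (Om_mono x y hb) hz)
    refine ⟨r, hM.gap_low h.1 hg hc.le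
      (sub_mem hz (Submodule.smul_mem _ r (ZZ_mono (Omc_sub_Om x y hc) subset_rfl k1))) ?_⟩
    have := add_mem hr (Submodule.smul_mem _ r l4)
    have e : z - r • g + r • l = z - r • (g - l) := by rw [smul_sub]; abel
    rwa [e] at this
theorem MT.rel (hM : D.MT F) (h : D.Reg x y)
    (hv : ∀ v ∈ D.J x y, b ≤ v.2 → v.2 < c → D.ind v.1 v.2 ≠ k)
    (hz : z ∈ ZZ F (Om x y c) (Om x y b)) (hd : z ∈ HD F _ k) :
    z ∈ NN F (Om x y c) (Om x y b) := by
  have fin : ∀ c : ℝ, {v | v ∈ D.J x y ∧ b ≤ v.2 ∧ v.2 < c}.Finite := fun c =>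
    (h.2.2.2 c).subset fun v hv => ⟨hv.1, hv.2.2.le⟩
  have key : ∀ n : ℕ, ∀ c : ℝ, {v | v ∈ D.J x y ∧ b ≤ v.2 ∧ v.2 < c}.ncard < n →
      (∀ v ∈ D.J x y, b ≤ v.2 → v.2 < c → D.ind v.1 v.2 ≠ k) →
      ∀ z ∈ ZZ F (Om x y c) (Om x y b), z ∈ HD F _ k → z ∈ NN F (Om x y c) (Om x y b) := by
    intro n
    induction n with
    | zero => intro c hn; omega
    | succ n ih =>
      intro c hn hv z hz hd
      rcases {v | v ∈ D.J x y ∧ b ≤ v.2 ∧ v.2 < c}.eq_empty_or_nonempty with he | he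
      · refine hM.mt0 x y b c h.1 (fun v hv' => ?_) hz
        by_contra hcon
        push Not at hcon
        exact (eq_empty_iff_forall_notMem.1 he) v ⟨hv', hcon.1, hcon.2⟩
      · obtain ⟨w, ⟨w1, w2, w3⟩, hmax⟩ := Set.exists_max_image _ (fun v : D.G × ℝ => v.2) (fin c) he
        obtain ⟨g, g1, g2, g3, g4⟩ := hM.mt1 x y h w w1 c w3 fun v hv' => by
          rcases lt_or_ge v.2 b with e | e
          · exact Or.inl (by linarith)
          · rcases lt_or_ge v.2 c with e' | e'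
            · exact Or.inl (hmax v ⟨hv', e, e'⟩)
            · exact Or.inr e'
        obtain ⟨r, hr⟩ := g4 z (ZZ_mono subset_rfl (Om_mono x y w2) hz)
        have h1 := dg_mem_NN k hr
        rw [map_sub, map_smul, mem_HD.1 hd, dg_of_ne g2 (hv w w1 w2 w3).symm, smul_zero,
          sub_zero] at h1
        refine NN_trans subset_rfl (Om_mono x y w3.le) hz hd h1 fun z' hz' hd' => ?_
        refine NN_mono (Om_mono x y w3.le) subset_rfl (ih w.2 ?_
          (fun v a1 a2 a3 => hv v a1 a2 (a3.trans w3)) z' hz' hd')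
        refine lt_of_lt_of_le (Set.ncard_lt_ncard ?_ (fin c)) (Nat.lt_succ_iff.1 hn)
        refine Set.ssubset_iff_subset_ne.2 ⟨fun v a => ⟨a.1, a.2.1, a.2.2.trans w3⟩, fun a => ?_⟩
        have a' : w ∈ {v | v ∈ D.J x y ∧ b ≤ v.2 ∧ v.2 < w.2} := by
          rw [a]
          exact ⟨w1, w2, w3⟩
        exact lt_irrefl _ a'.2.2
  exact key _ c (Nat.lt_succ_self _) hv z hz hd
theorem MT.abs (hM : D.MT F) (h : D.Reg x y) (hv : ∀ v ∈ D.J x y, v.2 < c → D.ind v.1 v.2 ≠ k)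
    (hz : z ∈ ZZ F (Om x y c) ∅) (hd : z ∈ HD F _ k) : z ∈ BB F (Om x y c) := by
  have e : Om x y 0 = ∅ := Om_empty dist_nonneg
  rw [← NN_empty, ← e]
  exact hM.rel h (fun v a1 _ a3 => hv v a1 a3) (by rwa [e]) hd

end GD

end Pool.Agent.Fu
end

-- part Pool.Agent.P.MP_365c00_gt.ZR3
section

/-! Morse theory: the two abstract theorems. -/

set_option linter.unusedSectionVars false
set_option linter.unusedVariables false

open Set Filter Topology Metric Function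

namespace Pool.Agent.Fu

variable {F : Type} [Field F] {X : Type} [TopologicalSpace X] [CompactSpace X] [T2Space X]
  {W : Set X} {f : X → ℝ}

theorem zr3_sub {a : ℝ} {x y : X} (hx : x ∈ Sub W f a) (h : Dn W f x y) : y ∈ Sub W f a :=
  ⟨h.1, h.le.trans_lt hx.2⟩

theorem am_zero (hW : IsClosed W) (hf : Continuous f) {b c : ℝ}
    (h : ∀ z ∈ W, b ≤ f z → f z < c → Mv W f z) :
    ZZ F (Sub W f c) (Sub W f b) ≤ NN F (Sub W f c) (Sub W f b) := by
  intro z hz
  obtain ⟨s, hs, hzs⟩ := exists_level (A := W) hf.continuousOn hz.1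
  obtain ⟨Ψ, hΨ, hlow⟩ := am_push hW hf (b := b) (c := s)
    (fun y hy h1 h2 => h y hy h1 (h2.trans_lt hs))
  have h1 : mp Ψ z - mp id z ∈ NN F (Sub W f c) (Sub W f b) :=
    hΨ.NN (A0 := Sub W f c) (B0 := Sub W f b) (fun x hx => hx.1)
      (fun x hx y hy => zr3_sub hx hy) (fun x hx y hy => zr3_sub hx.2 hy) hz
  rw [mp_id] at h1
  have h2 : mp Ψ z ∈ CC F (Sub W f b) :=
    mp_mem_CC (A := Sub W f s) (B := Sub W f b)
      (fun y hy => And.intro (hΨ.cont_right.2 y hy.1).1 (hlow y hy.1 hy.2.le)) hzs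
  have h3 := Submodule.sub_mem _ (CC_le_NN (Sub W f c) _ h2) h1
  rwa [sub_sub_cancel] at h3

theorem am_one (hW : IsClosed W) (hf : Continuous f) {y0 : X} (hy : y0 ∈ W) {U : Set X}
    (hU : IsOpen U) (h0 : y0 ∈ U) {c : ℝ} (hc : f y0 < c)
    (h : ∀ z ∈ W, z ≠ y0 → f y0 ≤ f z → f z < c → Mv W f z) {g : Ch F X}
    (hg : GnR F (Sub W f c ∩ U) (Sub W f (f y0) ∩ U) g)
    (hs : g ∈ CC F (Sub W f (f y0) ∪ {y0})) : GnR F (Sub W f c) (Sub W f (f y0)) g := by
  have hV : IsOpen {x | f x < f y0} := isOpen_lt hf continuous_const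
  have e : (Sub W f c ∩ (U ∪ {x | f x < f y0})) ∩ U = Sub W f c ∩ U := by
    ext x
    exact ⟨fun hx => ⟨hx.1.1, hx.2⟩, fun hx => ⟨⟨hx.1, Or.inl hx.2⟩, hx.2⟩⟩
  have hB : (Sub W f c ∩ (U ∪ {x | f x < f y0})) ∩ {x | f x < f y0} ⊆ Sub W f (f y0) :=
    fun x hx => ⟨hx.1.1.1, hx.2⟩
  have crit : ∀ s < c, ∃ Φ, Htp W (Dn W f) id Φ ∧ ContinuousOn Φ (Sub W f s) ∧
      MapsTo Φ (Sub W f s) (Sub W f c ∩ (U ∪ {x | f x < f y0})) ∧
      MapsTo Φ (Sub W f (f y0)) (Sub W f (f y0)) := by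
    intro s hsc
    obtain ⟨Φ, hΦ, hlow⟩ := am_crit hW hf hU h0 (c := s)
      (fun y hy h1 h2 h3 => h y hy h1 h2 (h3.trans_lt hsc))
    refine ⟨Φ, hΦ, hΦ.cont_right.1.mono fun x hx => hx.1, fun x hx => ⟨?_, ?_⟩,
      fun x hx => zr3_sub hx (hΦ.cont_right.2 x hx.1)⟩
    · exact zr3_sub ⟨hx.1, hx.2.trans hsc⟩ (hΦ.cont_right.2 x hx.1)
    · exact (hlow x hx.1 hx.2.le).symm
  refine ⟨ZZ_mono inter_subset_left inter_subset_left hg.1, fun hn => hg.2.1 ?_, fun z hz => ?_⟩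
  · obtain ⟨k, hk, hgk⟩ := mem_NN.1 hn
    obtain ⟨s, hsc, hks⟩ := exists_level (A := W) hf.continuousOn hk
    obtain ⟨Φ, hΦ, c1, c2, c3⟩ := crit s hsc
    have h1 : mp Φ g ∈ NN F (Sub W f c ∩ (U ∪ {x | f x < f y0})) (Sub W f (f y0)) :=
      mp_mem_NN c1 c2 c3 (mem_NN.2 ⟨k, hks, hgk⟩)
    have h2 : mp Φ g - mp id g ∈ NN F (Sub W f c ∩ (U ∪ {x | f x < f y0})) (Sub W f (f y0)) := by
      refine hΦ.NN (A0 := Sub W f (f y0) ∪ {y0}) (B0 := Sub W f (f y0)) ?_ ?_
        (fun x hx y hy => zr3_sub hx.2 hy) ⟨hs, CC_mono inter_subset_left hg.1.2⟩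
      · rintro x (hx | rfl)
        · exact hx.1
        · exact hy
      · rintro x (hx | rfl) y hxy
        · have h3 := zr3_sub hx hxy
          exact ⟨⟨h3.1, h3.2.trans hc⟩, Or.inr h3.2⟩
        · refine ⟨⟨hxy.1, hxy.le.trans_lt hc⟩, ?_⟩
          rcases hxy.2 with h3 | h3
          · exact Or.inl (h3 ▸ h0)
          · exact Or.inr h3
    rw [mp_id] at h2
    have h3 := Submodule.sub_mem _ h1 h2
    rw [sub_sub_cancel] at h3
    have h4 := exc_inj hU hV inter_subset_right hB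
      (by rw [e]; exact ZZ_mono subset_rfl inter_subset_left hg.1) h3
    rwa [e] at h4
  · obtain ⟨s, hsc, hzs⟩ := exists_level (A := W) hf.continuousOn hz.1
    obtain ⟨Φ, hΦ, c1, c2, c3⟩ := crit s hsc
    have h1 : mp Φ z - mp id z ∈ NN F (Sub W f c) (Sub W f (f y0)) :=
      hΦ.NN (A0 := Sub W f c) (B0 := Sub W f (f y0)) (fun x hx => hx.1)
        (fun x hx y hy => zr3_sub hx hy) (fun x hx y hy => zr3_sub hx.2 hy) hz
    rw [mp_id] at h1
    have h2 : mp Φ z ∈ ZZ F (Sub W f c ∩ (U ∪ {x | f x < f y0})) (Sub W f (f y0)) :=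
      mp_mem_ZZ c1 c2 (fun x hx => c3 hx.2) ⟨hzs, hz.2⟩
    obtain ⟨z', k1, k2, -⟩ := exc_surj hU hV inter_subset_right hB h2
    rw [e] at k1
    obtain ⟨r, hr⟩ := hg.2.2 z' k1
    refine ⟨r, ?_⟩
    have h3 := Submodule.add_mem _
      (Submodule.sub_mem _ (NN_mono inter_subset_left inter_subset_right k2) h1)
      (NN_mono inter_subset_left inter_subset_left hr)
    have e2 : mp Φ z - z' - (mp Φ z - z) + (z' - r • g) = z - r • g := by abel
    rwa [e2] at h3

end Pool.Agent.Fu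
end

-- part Pool.Agent.P.MP_365c00_gt.ZR5
section

/-! Morse theory: the finite dimensional approximation. -/

set_option linter.unusedSectionVars false
set_option linter.unusedVariables false

open Set Filter Topology Metric Function

namespace Pool.Agent.Fu

variable {F : Type} [Field F] {M : Type} [MetricSpace M] {δ l : ℝ} {k : ℕ} {t : ℕ → ℝ} {x y : M}

theorem zr5_le (ht : Part δ l k t) {i j : ℕ} (hij : i ≤ j) (hj : j ≤ k) : t i ≤ t j := by
  rcases hij.eq_or_lt with rfl | h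
  · exact le_rfl
  · exact (ht.lt h hj).le

theorem zr5_mono (ht : Part δ l k t) {i j : ℕ} (hij : i ≤ j) (hj : j ≤ k) {g : ℝ} (hg : 0 ≤ g) :
    g * (t i / t k) ≤ g * (t j / t k) :=
  mul_le_mul_of_nonneg_left
    (div_le_div_of_nonneg_right (zr5_le ht hij hj) (ht.2.2.1.symm ▸ ht.pos.le)) hg

theorem zr5_short (ht : Part δ l k t) {a b g : ℝ} (ha : 0 < a) (hb : b ^ 2 * δ ≤ a ^ 2 * l)
    (hg : 0 ≤ g) (hgb : g < b) {j : ℕ} (hj : j < k) :
    g * (t (j + 1) / t k) - g * (t j / t k) < a := by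
  have hl := ht.pos
  obtain ⟨h1, h2⟩ := ht.2.2.2 j hj
  have h3 : t (j + 1) ≤ l := ht.2.2.1 ▸ zr5_le ht hj le_rfl
  have h4 : 0 ≤ t j := ht.2.1 ▸ zr5_le ht (Nat.zero_le j) hj.le
  rw [ht.2.2.1, ← mul_sub, ← sub_div, ← mul_div_assoc, div_lt_iff₀ hl]
  obtain ⟨d, hd⟩ : ∃ d, d = t (j + 1) - t j := ⟨_, rfl⟩
  rw [← hd] at h2 ⊢
  have d0 : 0 < d := by linarith
  have dl : d ≤ l := by linarith
  have h5 : g ^ 2 < b ^ 2 := pow_lt_pow_left₀ hgb hg two_ne_zero
  have h6 : g ^ 2 * d < a ^ 2 * l :=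
    (mul_lt_mul'' h5 h2 (sq_nonneg g) d0.le).trans_le hb
  refine lt_of_pow_lt_pow_left₀ 2 (mul_pos ha hl).le ?_
  calc (g * d) ^ 2 = g ^ 2 * d * d := by ring
    _ ≤ g ^ 2 * d * l := mul_le_mul_of_nonneg_left dl (by positivity)
    _ < a ^ 2 * l * l := mul_lt_mul_of_pos_right h6 hl
    _ = (a * l) ^ 2 := by ring

theorem zr5_ind (S : GS M) (ht : Part δ l k t) {b : ℝ} (hb : b ^ 2 * δ ≤ S.a ^ 2 * l) :
    ∀ j ≤ k, HP (Om x y b) (fun _ => x) (fun γ => γ.1 (γ.2 * (t j / t k)))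
      (fun γ => γ.2 * (t j / t k)) (fun γ => seg γ 0 (γ.2 * (t j / t k)))
      fun γ => S.brk j (nod k t γ) := by
  intro j
  induction j with
  | zero =>
    intro _
    have e : ∀ γ : Mo M, γ.2 * (t 0 / t k) = 0 := fun γ => by rw [ht.2.1, zero_div, mul_zero]
    refine (HP.refl (f := fun γ : Mo M => seg γ 0 (γ.2 * (t 0 / t k)))
      (ContinuousOn.seg' continuousOn_id continuousOn_const (by fun_prop))
      fun γ hγ => ⟨?_, (sub_zero _).le⟩).congr (fun _ _ => rfl) fun γ _ => ?_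
    · have := seg_mem hγ.1.1 (e γ).ge
      rwa [show γ.1 0 = x from hγ.1.2.1] at this
    · show seg γ 0 _ = triv (γ.1 (γ.2 * (t (min 0 k) / t k)))
      rw [Nat.zero_min, e, seg_self]
  | succ j ih =>
    intro hj
    have h0 : ∀ γ ∈ Om x y b, 0 ≤ γ.2 * (t j / t k) := fun γ hγ => by
      have := zr5_mono ht (Nat.zero_le j) (Nat.le_of_succ_le hj) hγ.1.1.1
      rwa [ht.2.1, zero_div, mul_zero] at this
    have h1 : ∀ γ ∈ Om x y b, γ.2 * (t j / t k) ≤ γ.2 * (t (j + 1) / t k) := fun γ hγ =>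
      zr5_mono ht (Nat.le_succ j) hj hγ.1.1.1
    have h2 := S.hp_short (A := Om x y b)
      (f := fun γ : Mo M => seg γ (γ.2 * (t j / t k)) (γ.2 * (t (j + 1) / t k)))
      (x := fun γ : Mo M => γ.1 (γ.2 * (t j / t k)))
      (y := fun γ : Mo M => γ.1 (γ.2 * (t (j + 1) / t k)))
      (ContinuousOn.seg' continuousOn_id (by fun_prop) (by fun_prop)) fun γ hγ =>
        ⟨seg_mem hγ.1.1 (h1 γ hγ), zr5_short ht S.a_pos hb hγ.1.1.1 hγ.2 hj⟩
    refine (((ih (Nat.le_of_succ_le hj)).cat h2).mono fun γ _ => ?_).congr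
      (fun γ hγ => cat_seg hγ.1.1 (h0 γ hγ) (h1 γ hγ)) fun γ _ => ?_
    · rw [seg_dur]
      linarith
    · show _ = cat (S.brk j (nod k t γ)) (S.sg (γ.1 (γ.2 * (t (min j k) / t k)))
        (γ.1 (γ.2 * (t (min (j + 1) k) / t k))))
      rw [min_eq_left hj, min_eq_left (Nat.le_of_succ_le hj)]

/-- breaking the sampled path is homotopic to the identity -/
theorem htp_brk_nod (S : GS M) (ht : Part δ l k t) {b : ℝ} (hb : b ^ 2 * δ ≤ S.a ^ 2 * l) :
    Htp (Om x y b) (fun γ γ' => γ' ∈ Pa x y ∧ γ'.2 ≤ γ.2) id (S.brk k ∘ nod k t) := by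
  have e : ∀ γ : Mo M, γ.2 * (t k / t k) = γ.2 := fun γ => by
    rw [div_self (ht.2.2.1.symm ▸ ht.pos.ne'), mul_one]
  have h := zr5_ind (x := x) (y := y) S ht hb k le_rfl
  simp only [e] at h
  refine (Htp.mono h subset_rfl fun γ hγ ω hω => ⟨?_, hω.2⟩).congr
    (fun γ hγ => seg_full hγ.1.1) fun _ _ => rfl
  have h1 : ω ∈ Pa x (γ.1 γ.2) := hω.1
  rwa [show γ.1 γ.2 = y from hγ.1.2.2] at h1

theorem brk_contOn (S : GS M) (ht : Part δ l k t) {c : ℝ} (hc : c ^ 2 * δ ≤ S.a ^ 2 * l) :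
    ContinuousOn (S.brk k) (Sub (Wk x y k) (fE k t) c) :=
  S.brk_cont k (c := id) continuousOn_id fun _ hz => step_lt ht S.a_pos hc hz.2

theorem brk_maps (S : GS M) (ht : Part δ l k t) {b c : ℝ} (hc : c ^ 2 * δ ≤ S.a ^ 2 * l)
    (hb : b ≤ c) : MapsTo (S.brk k) (Sub (Wk x y k) (fE k t) b) (Om x y b) := fun _ hz =>
  have h := brk_le S ht hz.1 (step_lt ht S.a_pos hc (hz.2.trans_le hb))
  ⟨h.1, h.2.trans_lt hz.2⟩

theorem QI_brk (S : GS M) (ht : Part δ l k t) {b c : ℝ} (hc : c ^ 2 * δ ≤ S.a ^ 2 * l)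
    (hb : b ≤ c) :
    QI (F := F) bd bd (mp (S.brk k)) (CC F (Sub (Wk x y k) (fE k t) c))
      (CC F (Sub (Wk x y k) (fE k t) b)) (CC F (Om x y c)) (CC F (Om x y b)) := by
  have hn : ∀ r, MapsTo (nod k t) (Om x y r) (Sub (Wk x y k) (fE k t) r) := fun r γ hγ =>
    ⟨(nod_mem ht hγ.1).1, (nod_mem ht hγ.1).2.trans_lt hγ.2⟩
  exact QI_htp (k := nod k t) (fun _ hz => ⟨hz.1, hz.2.trans_le hb⟩) (Om_mono x y hb)
    (brk_contOn S ht hc) (nod_cont k t).continuousOn (brk_maps S ht hc le_rfl)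
    (brk_maps S ht hc hb) (hn c) (hn b)
    ((htp_nod_brk S ht hc).mono subset_rfl fun z hz z' h =>
      ⟨⟨h.1, h.2.trans_lt hz.2⟩, fun hz' => ⟨h.1, h.2.trans_lt hz'.2⟩⟩)
    ((htp_brk_nod S ht hc).mono subset_rfl fun z hz z' h =>
      ⟨⟨h.1, h.2.trans_lt hz.2⟩, fun hz' => ⟨h.1, h.2.trans_lt hz'.2⟩⟩)

end Pool.Agent.Fu
end

-- part Pool.Agent.P.MP_365c00_gt.ZR7
section

/-! Morse theory: a broken geodesic with a corner can be shortened. -/

set_option linter.unusedSectionVars false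
set_option linter.unusedVariables false

open Set Filter Topology Metric Function
open scoped Manifold ContDiff
open Pool.Agent.GeoN

namespace Pool.Agent.Fu

variable {E : Type} [NormedAddCommGroup E] [InnerProductSpace ℝ E] [FiniteDimensional ℝ E]
  {M : Type} [MetricSpace M] [ChartedSpace E M] [IsManifold 𝓘(ℝ, E) ∞ M]
  [CompactSpace M] [Nonempty M] [Nontrivial E] {g : Met E M}

variable {sh : Short g} {a : ℝ}

/-- cutting a corner, with weights -/
theorem corner_w {x' x x'' : M} (h1 : (x', x) ∈ sh.D) (h2 : (x, x'') ∈ sh.D) {α β : ℝ}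
    (hne : α • vel E x (sh.σ (x', x)) 1 ≠ β • vel E x (sh.σ (x, x'')) 0) :
    ∃ ξ : E, ∀ᶠ z : M × M × M in 𝓝 (x', x, x''), z.2.1 ∈ (κ E x).source ∧ ∀ s ∈ Icc (0 : ℝ) 1,
      κ E x z.2.1 + s • ξ ∈ (κ E x).target ∧ (z.1, (κ E x).symm (κ E x z.2.1 + s • ξ)) ∈ sh.D ∧
      ((κ E x).symm (κ E x z.2.1 + s • ξ), z.2.2) ∈ sh.D ∧ (0 < s →
        α * sh.S (z.1, (κ E x).symm (κ E x z.2.1 + s • ξ)) +
          β * sh.S ((κ E x).symm (κ E x z.2.1 + s • ξ), z.2.2) <
        α * sh.S (z.1, z.2.1) + β * sh.S z.2) := by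
  obtain ⟨a1, a2, a3⟩ := bm_pair sh h1
  obtain ⟨b1, b2, b3⟩ := bm_pair sh h2
  let L : (E × E × E) →L[ℝ] E × E :=
    (ContinuousLinearMap.id ℝ E).prodMap (ContinuousLinearMap.fst ℝ E E)
  let v0 : E × E × E := (κ E x' x', κ E x x, κ E x'' x'')
  have c1 := ((contDiffAt_const (c := α)).mul
    (ContDiffAt.comp v0 (f := L) a2 L.contDiff.contDiffAt)).add
    ((contDiffAt_const (c := β)).mul (ContDiffAt.comp v0 (f := Prod.snd) b2 contDiffAt_snd))
  have c2 := ((HasFDerivAt.comp v0 (f := L) (a2.differentiableAt (by simp)).hasFDerivAt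
    L.hasFDerivAt).const_mul α).fun_add ((HasFDerivAt.comp v0 (f := Prod.snd)
      (b2.differentiableAt (by simp)).hasFDerivAt hasFDerivAt_snd).const_mul β)
  obtain ⟨η, hη⟩ := bm_desc
    (u := (0, β • vel E x (sh.σ (x, x'')) 0 - α • vel E x (sh.σ (x', x)) 1, 0))
    (c1.of_le (by simp)) (by
      have := G_pos g x (mem_extChartAt_target x) (sub_ne_zero.2 hne.symm)
      rw [map_sub (G g x _), sub_apply, map_smul (G g x _), map_smul (G g x _), smul_apply,
        smul_apply, smul_eq_mul, smul_eq_mul] at this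
      rw [c2.fderiv]
      simp only [add_apply, smul_apply, smul_eq_mul, ContinuousLinearMap.comp_apply, a3, b3, L,
        ContinuousLinearMap.coe_prodMap', Prod.map, ContinuousLinearMap.coe_fst',
        ContinuousLinearMap.coe_snd', map_zero]
      linarith) ((L.continuous.continuousAt.eventually a1).and
        (continuous_snd.continuousAt.eventually b1))
  refine ⟨η • (β • vel E x (sh.σ (x, x'')) 0 - α • vel E x (sh.σ (x', x)) 1), ?_⟩
  have d : ContinuousAt (fun z : M × M × M => (κ E x' z.1, κ E x z.2.1, κ E x'' z.2.2))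
      (x', x, x'') := (continuousAt_extChartAt x').prodMap'
        ((continuousAt_extChartAt x).prodMap' (continuousAt_extChartAt x''))
  filter_upwards [d.eventually hη, prod_mem_nhds (extChartAt_source_mem_nhds (I := 𝓘(ℝ, E)) x')
    (prod_mem_nhds (extChartAt_source_mem_nhds (I := 𝓘(ℝ, E)) x)
      (extChartAt_source_mem_nhds (I := 𝓘(ℝ, E)) x''))] with z hz hs
  refine ⟨hs.2.1, fun s h => ?_⟩
  obtain ⟨⟨⟨-, f1, f2⟩, -, -, f3⟩, f4⟩ := hz s h
  simp only [L, ContinuousLinearMap.coe_prodMap', Prod.map, ContinuousLinearMap.coe_fst',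
    ContinuousLinearMap.coe_id', id, Prod.smul_mk, Prod.mk_add_mk, smul_zero, add_zero,
    Function.comp_apply, (κ E x').left_inv hs.1, (κ E x).left_inv hs.2.1,
    (κ E x'').left_inv hs.2.2] at f1 f2 f3 f4
  exact ⟨f1, f2, f3, f4⟩

/-- on `D` the distance is at most the length of the short geodesic -/
theorem SMd.sq_le (h : SMd sh dist a) {z : M × M} (hz : z ∈ sh.D) : dist z.1 z.2 ^ 2 ≤ sh.S z := by
  rcases lt_or_ge (sh.S z) (a ^ 2) with h1 | h1
  · exact (h.mem z.1 z.2 (h.near z hz h1)).2.ge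
  · have he : 0 < energy g (sh.σ z) 0 := lt_of_lt_of_le (pow_pos h.pos 2) h1
    obtain ⟨u, hu⟩ := exists_unit_sqrt (sh.geo z hz) he
    have h2 := h.lip u (√(energy g (sh.σ z) 0) * 0) (√(energy g (sh.σ z) 0) * 1)
    rw [← hu, ← hu, sh.zero z hz, sh.one z hz, mul_zero, mul_one, zero_sub, abs_neg,
      abs_of_nonneg (Real.sqrt_nonneg _)] at h2
    have h3 := pow_le_pow_left₀ dist_nonneg h2 2
    rwa [Real.sq_sqrt he.le] at h3

/-- a corner gives a move -/
theorem mv_corner (h : SMd sh dist a) {δ l : ℝ} {k : ℕ} {t : ℕ → ℝ} (ht : Part δ l k t) {x y : M}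
    {z : ℕ → M} (hz : z ∈ Wk x y k) (hs : ∀ j < k, dist (z j) (z (j + 1)) < a) {j : ℕ}
    (hj : j + 1 < k)
    (hne : (t (j + 1) - t j)⁻¹ • vel E (z (j + 1)) (sh.σ (z j, z (j + 1))) 1 ≠
      (t (j + 2) - t (j + 1))⁻¹ • vel E (z (j + 1)) (sh.σ (z (j + 1), z (j + 2))) 0) :
    Mv (Wk x y k) (fE k t) z := by
  have s1 := hs j (by omega)
  have s2 := hs (j + 1) hj
  obtain ⟨ξ, hξ⟩ := corner_w (h.mem _ _ s1).1 (h.mem _ _ s2).1 hne
  have c : ContinuousAt (fun c : ℕ → M => (c j, c (j + 1), c (j + 2))) z :=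
    ((continuous_apply j).prodMk ((continuous_apply (j + 1)).prodMk
      (continuous_apply (j + 2)))).continuousAt
  have o1 : ∀ᶠ c : ℕ → M in 𝓝 z, dist (c j) (c (j + 1)) < a :=
    ((continuous_apply j).dist (continuous_apply (j + 1))).continuousAt.eventually_lt
      continuousAt_const s1
  have o2 : ∀ᶠ c : ℕ → M in 𝓝 z, dist (c (j + 1)) (c (j + 2)) < a :=
    ((continuous_apply (j + 1)).dist (continuous_apply (j + 2))).continuousAt.eventually_lt
      continuousAt_const s2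
  have p1 : 0 < t (j + 1) - t j := sub_pos.2 (ht.2.2.2 j (by omega)).1
  have p2 : 0 < t (j + 2) - t (j + 1) := sub_pos.2 (ht.2.2.2 (j + 1) hj).1
  refine ⟨_, inter_mem (c.eventually hξ) (inter_mem o1 o2),
    fun w => update w.1 (j + 1)
      ((κ E (z (j + 1))).symm (κ E (z (j + 1)) (w.1 (j + 1)) + w.2 • ξ)), ?_,
    fun c ⟨⟨⟨h1, h2⟩, h3, h4⟩, h5⟩ => ⟨?_, fun s hs => ?_⟩⟩
  · refine continuousOn_pi.2 fun i => ?_
    rcases eq_or_ne i (j + 1) with rfl | hi
    · simp only [update_self]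
      exact (continuousOn_extChartAt_symm _).comp (((continuousOn_extChartAt _).comp
        ((continuous_apply (j + 1)).comp continuous_fst).continuousOn fun w hw => hw.1.1.1.1).add
        (continuous_snd.smul continuous_const).continuousOn) fun w hw => (hw.1.1.1.2 _ hw.2).1
    · simp only [update_of_ne hi]
      exact ((continuous_apply i).comp continuous_fst).continuousOn
  · simp only [zero_smul, add_zero, (κ E (z (j + 1))).left_inv h1, update_eq_self]
  obtain ⟨-, d1, d2, d3⟩ := h2 s (Ioc_subset_Icc_self hs)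
  simp only at d1 d2 d3 ⊢
  generalize (κ E (z (j + 1))).symm (κ E (z (j + 1)) (c (j + 1)) + s • ξ) = u at d1 d2 d3
  refine ⟨⟨?_, fun i hi => ?_⟩, (fE_lt_iff ht _ _).2 ?_⟩
  · rw [update_of_ne (by omega)]
    exact h5.1
  · rw [update_of_ne (by omega)]
    exact h5.2 i hi
  · have e0 : update c (j + 1) u j = c j := update_of_ne (by omega) _ _
    have e2 : update c (j + 1) u (j + 1 + 1) = c (j + 2) := update_of_ne (by omega) _ _
    have q1 := h.sq_le d1
    have q2 := h.sq_le d2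
    have q3 := (h.mem _ _ h3).2
    have q4 := (h.mem _ _ h4).2
    have q5 := d3 hs.1
    simp only at q1 q2
    rw [q3, q4] at q5
    have r1 := mul_le_mul_of_nonneg_left q1 (inv_pos.2 p1).le
    have r2 := mul_le_mul_of_nonneg_left q2 (inv_pos.2 p2).le
    rw [← sub_neg, Eb, Eb, ← Finset.sum_sub_distrib, Finset.sum_eq_add_of_mem j
      (j + 1) (Finset.mem_range.2 (by omega)) (Finset.mem_range.2 hj) (by omega)
      fun i _ hi => by
        rw [update_of_ne hi.2, update_of_ne (show i + 1 ≠ j + 1 from fun e => hi.1 (by omega)),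
          sub_self],
      e0, e2, update_self]
    simp only [div_eq_inv_mul]
    change _ + ((t (j + 2) - t (j + 1))⁻¹ * _ - (t (j + 2) - t (j + 1))⁻¹ *
      dist (c (j + 1)) (c (j + 2)) ^ 2) < 0
    linarith

end Pool.Agent.Fu
end

-- part Pool.Agent.P.MP_365c00_gt.ZW6
section

/-! The chains of cyclic words. -/

set_option linter.unusedSectionVars false
set_option linter.unusedVariables false

open Set Topology

namespace Pool.Agent.Fu

variable {F : Type} [Field F] {X Y : Type} [TopologicalSpace X] [TopologicalSpace Y] {q : ℕ}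

variable [NeZero q] {Y' : ℕ → ℝ → Set (ℕ → X)} {far : ℕ → Set (ℕ → X)}
  {R : ℕ → Ch F (ℕ → X) → Prop} {T c1 c3 : ℝ} {e : ℕ} {Zc : ℝ → Set (ZMod q → X)}
  {fZ : Set (ZMod q → X)} {a : List Lt → Ch F (ℕ → X)}

theorem zw6_ind {α P : Type} [AddCommGroup P] [Module F P] {s : Set α} {N : Submodule F P}
    (L : (α →₀ F) →ₗ[F] P) (h : ∀ a ∈ s, L (Finsupp.single a 1) ∈ N) {z : α →₀ F}
    (hz : z ∈ Finsupp.supported F F s) : L z ∈ N := by
  rw [Finsupp.supported_eq_span_single] at hz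
  have : Submodule.span F ((fun i => Finsupp.single i (1 : F)) '' s) ≤ N.comap L := by
    rw [Submodule.span_le]
    rintro _ ⟨a, ha, rfl⟩
    exact h a ha
  exact this hz

theorem zw6_ll {α β P : Type} [AddCommGroup P] [Module F P] (f : β → P) (g : α → β →₀ F)
    (z : α →₀ F) : lin (F := F) f (lin (F := F) g z) = lin (F := F) (fun a => lin (F := F) f (g a)) z :=
  map_lin (P := β →₀ F) (lin f) g z

theorem cyc_rot (he : Even e) (hW : ∀ w : List Lt, w.length < q → WP Y' far T c1 c3 e a w)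
    (b : ZMod q) {k : ℕ} {w : List Lt} (hl : w.length = q - 1) (hk : w[k]? = some Lt.I) :
    map (cyc X b) (Zw a w) = map (cyc X (b + (k : ZMod q) + 1)) (lin (Zw a) (rot (F := F) k w)) := by
  have hq : 0 < q := Nat.pos_of_ne_zero (NeZero.ne q)
  obtain ⟨hk1, hk2⟩ := List.getElem?_eq_some_iff.1 hk
  have hw : w = w.take k ++ Lt.I :: w.drop (k + 1) := by
    rw [← hk2, List.getElem_cons_drop, List.take_append_drop]
  have l1 : (w.take k).length = k := by rw [List.length_take]; omega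
  have l2 : (w.drop (k + 1)).length = q - 1 - (k + 1) := by rw [List.length_drop, hl]
  have d1 := (hW (w.take k) (by omega)).2.1
  have d2 := (hW (w.drop (k + 1)) (by omega)).2.1
  have e1 : Zw a w = mu ((w.take k).length + 1) (Zw a (w.take k)) (Zw a (w.drop (k + 1))) := by
    rw [← Zw_append, ← hw]
  have hs : (w.take k).length + 1 + ((w.drop (k + 1)).length + 1) = q := by omega
  rw [e1, cyc_mu b hs d1 d2, rot, map_smul, lin_wd, Zw_append, map_smul, l1]
  have e2 : b + ((k + 1 : ℕ) : ZMod q) = b + (k : ZMod q) + 1 := by push_cast; ring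
  rw [e2]
  congr 1
  generalize (w.take k).count Lt.S = s1
  generalize (w.drop (k + 1)).count Lt.S = s2
  generalize (w.drop (k + 1)).length + 1 = y
  have e3 : ((k + 1) * e + s1) * (y * e + s2) =
      e * ((k + 1) * (y * e + s2) + s1 * y) + s1 * s2 := by ring
  rw [e3, pow_add, (he.mul_right _).neg_one_pow, one_mul]

theorem cyc_phi (he : Even e) (hW : ∀ w : List Lt, w.length < q → WP Y' far T c1 c3 e a w)
    {b b' : ZMod q} {I : Finset (ZMod q)} (hb : b ∈ I) (hb' : b' ∈ I) (l : List (ZMod q)) :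
    map (cyc X b) (lin (Zw a) (phi (F := F) b I l)) =
      map (cyc X b') (lin (Zw a) (phi (F := F) b' I l)) := by
  by_cases hne : b' = b
  · rw [hne]
  rw [phi_rot hb hb' hne l, zw6_ll, map_lin (map (cyc X b')), map_lin (map (cyc X b))]
  refine lin_congr (fun w hw => ?_) (phi_supp hb l)
  rw [cyc_rot he hW b hw.1 (hw.2.2.2 b' hb' hne)]
  have : b + (((b' - b - 1).val : ℕ) : ZMod q) + 1 = b' := by
    rw [ZMod.natCast_zmod_val]; ring
  rw [this]

theorem exists_Y (he : Even e) (hW : ∀ w : List Lt, w.length < q → WP Y' far T c1 c3 e a w)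
    (hc : ∀ (b : ZMod q) t, MapsTo (cyc X b) (Y' (q - 1) t) (Zc t))
    (hf : ∀ b : ZMod q, MapsTo (cyc X b) (far (q - 1)) fZ) :
    ∃ L : FC F q →ₗ[F] Ch F (ZMod q → X),
      L (Finsupp.single (Finset.univ, []) 1) = cpr q (fun _ => map (ev0 X) (a [])) ∧
      (∀ z ∈ BF F q, L z = 0) ∧ (∀ z ∈ AF F q, map (shf X q) (L z) = L (sF z)) ∧
      ∀ (I : Finset (ZMod q)) (l : List (ZMod q)), I.Nonempty →
        L (Finsupp.single (I, l) 1) ∈ CC F (Zc (q * T + c1 * I.card + c3 * l.length)) ∧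
        L (Finsupp.single (I, l) 1) ∈ HD F _ (q * e + l.length) ∧
        bd (L (Finsupp.single (I, l) 1)) - L (df I l) ∈
          CC F (Zc (q * T + c1 * I.card + c3 * l.length) ∩ fZ) := by
  classical
  have hq : 0 < q := Nat.pos_of_ne_zero (NeZero.ne q)
  let g : Finset (ZMod q) × List (ZMod q) → Ch F (ZMod q → X) := fun z =>
    if h : z.1.Nonempty then map (cyc X h.choose) (lin (Zw a) (phi (F := F) h.choose z.1 z.2))
    else 0
  have hg : ∀ (z : Finset (ZMod q) × List (ZMod q)) (b : ZMod q), b ∈ z.1 →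
      g z = map (cyc X b) (lin (Zw a) (phi (F := F) b z.1 z.2)) := fun z b hb => by
    have hne : z.1.Nonempty := ⟨b, hb⟩
    simp only [g, dif_pos hne]
    exact cyc_phi he hW hne.choose_spec hb z.2
  have hL : ∀ (z : Finset (ZMod q) × List (ZMod q)) (b : ZMod q), b ∈ z.1 →
      lin (F := F) g (Finsupp.single z 1) =
        map (cyc X b) (lin (Zw a) (phi (F := F) b z.1 z.2)) := fun z b hb => by
    rw [lin_single, one_smul, hg z b hb]
  refine ⟨lin g, ?_, fun z hz => ?_, fun z hz => ?_, fun I l hI => ?_⟩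
  · rw [hL _ 0 (Finset.mem_univ _), phi_univ_nil, lin_wd, Zw_rep]
  · refine (Submodule.mem_bot F).1 (zw6_ind (N := ⊥) (lin g) (fun z hz => ?_) hz)
    rw [hL z 0 (hz.1 ▸ Finset.mem_univ _), hz.1, phi_univ 0 hz.2, map_zero, map_zero]
    exact Submodule.zero_mem _
  · refine sub_eq_zero.1 ((Submodule.mem_bot F).1 (zw6_ind (N := ⊥)
      (map (shf X q) ∘ₗ lin g - lin g ∘ₗ sF) (fun z hz => ?_) hz))
    obtain ⟨b, hb⟩ := hz
    have e1 : sF (Finsupp.single z (1 : F)) =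
        Finsupp.single (z.1.image (· + 1), z.2.map (· + 1)) 1 := by
      rw [sF, Finsupp.lmapDomain_apply, Finsupp.mapDomain_single]
    rw [LinearMap.sub_apply, LinearMap.comp_apply, LinearMap.comp_apply, e1, hL z b hb,
      hL _ (b + 1) (Finset.mem_image_of_mem _ hb), shf_cyc, phi_shift, sub_self]
    exact Submodule.zero_mem _
  · obtain ⟨b, hb⟩ := hI
    have hw : ∀ w ∈ {w : List Lt | w.length = q - 1 ∧ w.count Lt.S = l.length ∧
        w.count Lt.I + 1 = I.card ∧ ∀ b' ∈ I, b' ≠ b → w[(b' - b - 1).val]? = some Lt.I},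
        Zw a w ∈ CC F (Y' (q - 1) (q * T + c1 * I.card + c3 * l.length)) ∧
        Zw a w ∈ HD F _ (q * e + l.length) ∧
        bd (Zw a w) - lin (Zw a) (dw (F := F) w) ∈
          CC F (Y' (q - 1) (q * T + c1 * I.card + c3 * l.length) ∩ far (q - 1)) := by
      rintro w ⟨w1, w2, w3, -⟩
      have h0 := hW w (by omega)
      have e0 : w.length + 1 = q := by omega
      have e1 : lev T c1 c3 w = q * T + c1 * I.card + c3 * l.length := by
        have e2 : (w.length : ℝ) + 1 = q := by exact_mod_cast e0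
        have e3 : (w.count Lt.I : ℝ) + 1 = I.card := by exact_mod_cast w3
        rw [lev, e2, e3, w2]
      rw [WP, e1, e0, w1, w2] at h0
      exact h0
    rw [hL (I, l) b hb]
    refine ⟨map_mem_CC (hc b _) (lin_mem (fun w h => (hw w h).1) (phi_supp hb l)),
      map_mem_HD _ (lin_mem (fun w h => (hw w h).2.1) (phi_supp hb l)), ?_⟩
    have e1 : lin (F := F) g (df I l) =
        map (cyc X b) (lin (Zw a) (lin (dw (F := F)) (phi (F := F) b I l))) := by
      rw [dw_phi, zw6_ll, map_lin (map (cyc X b))]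
      exact lin_congr (fun z hz => hg z b (hz.1 hb)) (df_supp I l)
    rw [e1, bd_map, ← map_sub, map_lin bd, zw6_ll, ← lin_sub]
    exact map_mem_CC ((hc b _).inter_inter (hf b))
      (lin_mem (fun w h => (hw w h).2.2) (phi_supp hb l))

theorem exists_seq (h : WS F Y' far R T c1 c3 e q) {z0 : Ch F (ℕ → X)}
    (h1 : z0 ∈ ZZ F (Y' 0 (T + c1)) (Y' 0 (T + c1) ∩ far 0)) (h2 : z0 ∈ HD F _ e) (h3 : R 0 z0)
    (hm : Monotone Zc) (hc : ∀ (b : ZMod q) t, MapsTo (cyc X b) (Y' (q - 1) t) (Zc t))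
    (hf : ∀ b : ZMod q, MapsTo (cyc X b) (far (q - 1)) fZ) (r : ℕ) {lo top : ℝ}
    (hlo : q * T + c1 + c3 * r ≤ lo) (htop : q * T + q * c1 + c3 * (r + 1) ≤ top) :
    (cpr q fun _ => map (ev0 X) z0) ∈ ZZ F (Zc top) (Zc top ∩ fZ) ∧
    ∃ l k : ℕ → Ch F (ZMod q → X), (gcy F X q).Seq (CC F (Zc lo)) (CC F (Zc lo ∩ fZ)) r l ∧
      (∀ j ≤ r, l j ∈ HD F _ (q * e + j)) ∧
      (gcy F X q).NulBy (CC F (Zc top)) (CC F (Zc top ∩ fZ)) r
        (fun j => sq 0 (cpr q fun _ => map (ev0 X) z0) j - l j) k ∧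
      ∀ j ≤ r, k j ∈ HD F _ (q * e + j + 1) := by
  obtain ⟨a, ha0, hW⟩ := exists_Z h h1 h2 h3
  obtain ⟨L, hL1, hLB, hLs, hL⟩ := exists_Y h.even hW hc hf
  obtain ⟨l, k, l1, l2, l3, k1, k2, k3, k4⟩ := exists_low (F := F) (q := q) r
  rw [ha0] at hL1
  rw [← hL1]
  have c1n := h.c1_nonneg
  have c3n : 0 ≤ c3 := h.c1_nonneg.trans h.c13
  have key : ∀ (s : Set (Finset (ZMod q) × List (ZMod q))) (t : ℝ) (j : ℕ),
      (∀ z ∈ s, z.1.Nonempty ∧ z.2.length = j ∧ q * T + c1 * z.1.card + c3 * j ≤ t) →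
      ∀ z ∈ Finsupp.supported F F s, L z ∈ CC F (Zc t) ∧ L z ∈ HD F _ (q * e + j) ∧
        bd (L z) - L (dF z) ∈ CC F (Zc t ∩ fZ) := fun s t j hs z hz => by
    refine ⟨zw6_ind L (fun y hy => ?_) hz, zw6_ind L (fun y hy => ?_) hz,
      zw6_ind (bd ∘ₗ L - L ∘ₗ dF) (fun y hy => ?_) hz⟩
    · obtain ⟨y1, y2, y3⟩ := hs y hy
      have := (hL y.1 y.2 y1).1
      rw [y2] at this
      exact CC_mono (hm y3) this
    · obtain ⟨y1, y2, y3⟩ := hs y hy
      have := (hL y.1 y.2 y1).2.1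
      rw [y2] at this
      exact this
    · obtain ⟨y1, y2, y3⟩ := hs y hy
      have := (hL y.1 y.2 y1).2.2
      rw [y2, ← dF_single] at this
      exact CC_mono (inter_subset_inter_left _ (hm y3)) this
  have hT : ∀ j, ∀ z ∈ AF F q, (gcy F X q).T j (L z) = L ((GF F q).T j z) := fun j z hz => by
    have hs : ∀ y ∈ AF F q, (gcy F X q).s (L y) = L ((GF F q).s y) := hLs
    by_cases hj : Even j
    · rw [zg1_even _ hj, zg1_even _ hj, map_sub, hs z hz]
    · rw [zg1_odd _ hj, zg1_odd _ hj, map_sum]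
      have h4 : ∀ i, ((gcy F X q).s ^ i) (L z) = L (((GF F q).s ^ i) z) := fun i => by
        induction i with
        | zero => rfl
        | succ i ih =>
          rw [pow_succ', pow_succ', Module.End.mul_apply, Module.End.mul_apply, ih,
            hs _ (zg1_pow_mem _ AF_st.2 i hz)]
      exact Finset.sum_congr rfl fun i _ => h4 i
  have hcard : ∀ I : Finset (ZMod q), (I.card : ℝ) ≤ q := fun I => by
    have := Finset.card_le_univ I
    rw [ZMod.card] at this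
    exact_mod_cast this
  have hr : (0 : ℝ) ≤ r := Nat.cast_nonneg r
  have kl : ∀ j ≤ r, L (l j) ∈ CC F (Zc lo) ∧ L (l j) ∈ HD F _ (q * e + j) ∧
      bd (L (l j)) - L (dF (l j)) ∈ CC F (Zc lo ∩ fZ) := fun j hj => by
    refine key _ lo j (fun z hz => ⟨Finset.card_pos.1 (by rw [hz.1]; exact Nat.one_pos), hz.2, ?_⟩)
      _ (l1 j)
    have e1 : (j : ℝ) ≤ r := by exact_mod_cast hj
    have e2 := mul_le_mul_of_nonneg_left e1 c3n
    rw [hz.1, Nat.cast_one]
    linarith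
  have kk : ∀ j ≤ r, L (k j) ∈ CC F (Zc top) ∧ L (k j) ∈ HD F _ (q * e + (j + 1)) ∧
      bd (L (k j)) - L (dF (k j)) ∈ CC F (Zc top ∩ fZ) := fun j hj => by
    refine key _ top (j + 1) (fun z hz => ⟨hz.1, hz.2, ?_⟩) _ (k1 j hj)
    have e1 : ((j + 1 : ℕ) : ℝ) ≤ r + 1 := by exact_mod_cast Nat.succ_le_succ hj
    have e2 := mul_le_mul_of_nonneg_left e1 c3n
    have e3 := mul_le_mul_of_nonneg_left (hcard z.1) c1n
    linarith
  have lA : ∀ j, l j ∈ AF F q := fun j =>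
    Finsupp.supported_mono (fun z hz => Finset.card_pos.1 (by rw [hz.1]; exact Nat.one_pos)) (l1 j)
  have hx : ∀ j, sq 0 (L (Finsupp.single (Finset.univ, []) 1)) j - L (l j) =
      L (sq 0 (Finsupp.single (Finset.univ, []) 1) j - l j) := fun j => by
    rw [map_sub]
    congr 1
    unfold sq
    split_ifs
    · rfl
    · rw [map_zero]
  refine ⟨?_, fun j => L (l j), fun j => L (k j), ⟨fun j hj => (kl j hj).1, ?_, fun j hj => ?_⟩,
    fun j hj => (kl j hj).2.1, ⟨fun j hj => (kk j hj).1, ?_, fun j hj => ?_⟩,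
    fun j hj => (kk j hj).2.1⟩
  · have h0 := hL Finset.univ [] Finset.univ_nonempty
    have e1 : q * T + c1 * ((Finset.univ : Finset (ZMod q)).card : ℝ) +
        c3 * (([] : List (ZMod q)).length : ℝ) ≤ top := by
      have e3 := mul_le_mul_of_nonneg_left (hcard Finset.univ) c1n
      have e4 : 0 ≤ c3 * ((r : ℝ) + 1) := mul_nonneg c3n (by linarith)
      rw [List.length_nil, Nat.cast_zero]
      linarith
    refine ⟨CC_mono (hm e1) h0.1, ?_⟩
    have h5 := h0.2.2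
    rw [df, map_zero, sub_zero] at h5
    exact CC_mono (inter_subset_inter_left _ (hm e1)) h5
  · have := (kl 0 (Nat.zero_le _)).2.2
    rw [l2, map_zero, sub_zero] at this
    exact this
  · have := (kl (j + 1) hj).2.2
    rw [l3, ← hT j _ (lA j)] at this
    exact this
  · have h5 := hLB _ k3
    have h6 := (kk 0 (Nat.zero_le _)).2.2
    rw [map_sub, sub_eq_zero] at h5
    show sq 0 (L (Finsupp.single (Finset.univ, []) 1)) 0 - L (l 0) - bd (L (k 0)) ∈ _
    rw [hx, h5, ← neg_sub]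
    exact Submodule.neg_mem _ h6
  · have h5 := hLB _ (k4 j hj)
    have h6 := (kk (j + 1) hj).2.2
    rw [map_sub, map_sub, sub_sub, sub_eq_zero] at h5
    show sq 0 (L (Finsupp.single (Finset.univ, []) 1)) (j + 1) - L (l (j + 1)) - bd (L (k (j + 1))) -
      (gcy F X q).T j (L (k j)) ∈ _
    rw [hx, h5, hT j _ (k2 j hj.le)]
    refine zg1_of_eq (Submodule.neg_mem _ h6) ?_
    show L (dF (k (j + 1))) + _ - _ - _ = _
    abel

end Pool.Agent.Fu
end

-- part Pool.Agent.P.MP_365c00_gt.ZY2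
section

/-! Local product models for the spaces of tuples of paths. -/

set_option linter.unusedSectionVars false
set_option linter.unusedVariables false

open Set Topology Filter Metric

namespace Pool.Agent.Fu

variable {F : Type} [Field F] {M : Type} [MetricSpace M] {d q n : ℕ} {S : GS M} {p0 p : M}
  {δ t : ℝ}

theorem zy2_wh (hδ : 0 < δ) (ha : 16 * δ ≤ S.a) {c : ℕ → Bs M d} (hc : c ∈ Up δ n p) {ω : Mo M}
    (hω : ω ∈ Pa p p) : S.wh (c 0).1 (c n).1 ω ∈ Pa (c 0).1 (c n).1 ∧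
      (S.wh (c 0).1 (c n).1 ω).2 ≤ ω.2 + 4 * δ := by
  have h0 := hc.2 0 (Nat.zero_le n)
  have h1 := hc.2 n le_rfl
  rw [dist_comm] at h1
  obtain ⟨a, b⟩ := S.wh_mem hω (x' := (c 0).1) (y' := (c n).1) (by linarith) (by linarith)
  exact ⟨a, by rw [b]; linarith⟩

theorem zy2_pth : Continuous (pth : (ℕ → Pos M d) → ℕ → Mo M) :=
  continuous_pi fun i => (continuous_apply i).snd

theorem zy2_fill (hδ : 0 < δ) (ha : 16 * δ ≤ S.a) {y : ℕ → Pos M d} (hy : y ∈ Yt p0 δ n)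
    (hU : bs M d y ∈ Up δ n p) : S.fill n (pth y) ∈ Pa (y 0).1.1 (en (pth y n)) ∧
      (S.fill n (pth y)).2 ≤ tot n (pth y) + 2 * δ * n ∧ dist p (y 0).1.1 < 2 * δ ∧
      dist (en (pth y n)) p < 3 * δ := by
  have T := hy.2 hU.1
  obtain ⟨a, b⟩ := S.fill_mem (by linarith) T
  have h0 : dist (y 0).1.1 p < 2 * δ := hU.2 0 (Nat.zero_le n)
  have h1 : dist (y n).1.1 p < 2 * δ := hU.2 n le_rfl
  have h2 := T.2.2.2
  have h3 := dist_triangle (en (pth y n)) (y n).1.1 p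
  exact ⟨a, b, by rwa [dist_comm], by linarith⟩

theorem Gn_cont (hδ : 0 < δ) (ha : 16 * δ ≤ S.a) :
    ContinuousOn (Gn S p0 n : _ → ℕ → Pos M d) (Dm p0 δ n p ×ˢ Pa p p) := by
  refine continuousOn_pi.2 fun i => ?_
  unfold Gn
  split_ifs with hi
  · have c1 : ∀ j : ℕ, Continuous fun z : (ℕ → Bs M d) × Mo M => z.1 j := fun j =>
      (continuous_apply j).comp continuous_fst
    refine ContinuousOn.prodMk (c1 i).continuousOn ?_
    refine (cut_cont n i).comp_continuousOn (S.wh_cont (c1 0).fst.continuousOn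
      (c1 n).fst.continuousOn continuous_snd.continuousOn fun z hz => ?_)
    have h0 := hz.1.2.2 0 (Nat.zero_le n)
    have h1 := hz.1.2.2 n le_rfl
    rw [dist_comm] at h1
    refine ⟨hz.2.1, ?_, ?_⟩
    · rw [hz.2.2.1]; linarith
    · rw [hz.2.2.2]; linarith
  · exact continuousOn_const

theorem Gn_mem (hδ : 0 < δ) (ha : 16 * δ ≤ S.a) {c : ℕ → Bs M d} (hc : c ∈ Dm p0 δ n p) {ω : Mo M}
    (hω : ω ∈ Pa p p) : Gn S p0 n (c, ω) ∈ Yt p0 δ n ∧ bs M d (Gn S p0 n (c, ω)) = c ∧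
      tot n (pth (Gn S p0 n (c, ω))) ≤ ω.2 + 4 * δ := by
  obtain ⟨a, b⟩ := zy2_wh hδ ha hc.2 hω
  obtain ⟨a1, b1⟩ := cut_mem a hδ hδ n
  have e1 : ∀ i ≤ n, Gn S p0 n (c, ω) i = (c i, cut n (S.wh (c 0).1 (c n).1 ω) i) :=
    fun i hi => if_pos hi
  have e2 : ∀ i, n < i → Gn S p0 n (c, ω) i = dfl p0 := fun i hi => if_neg (not_le.2 hi)
  obtain ⟨a2, b2⟩ := Tup.congr (γ' := pth (Gn S p0 n (c, ω))) a1 fun i hi =>
    congrArg Prod.snd (e1 i hi)
  refine ⟨⟨e2, fun _ => ?_⟩, funext fun i => ?_, by rw [b2, b1]; exact b⟩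
  · rw [e1 0 (Nat.zero_le n), e1 n le_rfl]
    exact a2
  · rcases le_or_gt i n with hi | hi
    · exact congrArg Prod.fst (e1 i hi)
    · exact (congrArg Prod.fst (e2 i hi)).trans (hc.1 i hi).symm

theorem fm_Y (hδ : 0 < δ) (ha : 16 * δ ≤ S.a) {β : ℝ} (hβ : (2 * n + 9) * δ ≤ β) :
    FM (Ys p0 δ n) (Yt p0 δ n) (bs M d) (Up δ n p) (Dm p0 δ n p) (Om p p) (Pa p p)
      (fun y => S.wh p p (S.fill n (pth y))) (Gn S p0 n) β := by
  have hn : 0 ≤ δ * n := mul_nonneg hδ.le (Nat.cast_nonneg n)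
  have hβ' : 2 * (δ * n) + 9 * δ ≤ β := by linarith
  have w : ∀ y : ℕ → Pos M d, y ∈ Yt p0 δ n → bs M d y ∈ Up δ n p →
      S.wh p p (S.fill n (pth y)) ∈ Pa p p ∧
        (S.wh p p (S.fill n (pth y))).2 ≤ tot n (pth y) + β := fun y hy hU => by
    obtain ⟨a, b, c, e⟩ := zy2_fill hδ ha hy hU
    obtain ⟨a1, b1⟩ := S.wh_mem a (x' := p) (y' := p) (by linarith) (by linarith)
    exact ⟨a1, by rw [b1]; linarith⟩
  refine ⟨Ys_mono p0 δ n, fun _ _ h => Om_mono p p h, Ys_sub p0 δ n, Om_sub p p, Up_open δ n p,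
    fun y hy => ⟨fun i hi => congrArg Prod.fst (hy.1.1 i hi), hy.2⟩, ?_,
    fun y hy => (w y hy.1 hy.2).1, fun t y hy => ⟨(w y hy.1.1 hy.2).1, ?_⟩, Gn_cont hδ ha,
    fun b hb ω hω => (Gn_mem hδ ha hb hω).2.1, fun t z hz => ?_, fun t => ?_⟩
  · refine S.wh_cont continuousOn_const continuousOn_const
      (S.fill_cont (δ := δ) (η := δ) (x := fun y => (y 0).1.1) (e := fun y => (y n).1.1)
        (by linarith) zy2_pth.continuousOn fun y hy => hy.1.2 hy.2.1) fun y hy => ?_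
    obtain ⟨a, b, c, e⟩ := zy2_fill hδ ha hy.1 hy.2
    refine ⟨a.1, ?_, ?_⟩
    · rw [a.2.1]; linarith
    · rw [a.2.2]; linarith
  · have h1 := (w y hy.1.1 hy.2).2
    have h2 := hy.1.2 hy.2.1
    show (S.wh p p (S.fill n (pth y))).2 < t + β
    linarith
  · obtain ⟨a, -, b⟩ := Gn_mem (p0 := p0) hδ ha hz.1 hz.2.1
    have h2 : z.2.2 < t := hz.2.2
    refine ⟨a, fun _ => ?_⟩
    show tot n (pth (Gn S p0 n (z.1, z.2))) < t + β
    linarith
  · have c1 : ∀ j : ℕ, Continuous fun z : ℕ → Pos M d => (z j).1 := fun j =>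
      (continuous_apply j).fst
    have H := S.tup_htp (n := n) (η := δ) (r := 2 * δ) hδ (by linarith) (by linarith)
      (A := Ys p0 δ n t ∩ bs M d ⁻¹' Up δ n p) (c := pth) (x := fun y => (y 0).1.1)
      (e := fun y => (y n).1.1) p zy2_pth.continuousOn (c1 n).fst.continuousOn fun y hy =>
        ⟨hy.1.1.2 hy.2.1, hy.2.2 0 (Nat.zero_le n), hy.2.2 n le_rfl⟩
    have ck : Continuous fun (w : (ℕ → Pos M d) × (ℕ → Mo M)) (i : ℕ) =>
        (((w.1 i).1, w.2 i) : Pos M d) := continuous_pi fun i =>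
      ((c1 i).comp continuous_fst).prodMk ((continuous_apply i).comp continuous_snd)
    refine (H.post ck.continuousOn (R' := fun x x' => x' ∈ Ys p0 δ n (t + 2 * β) ∧
      bs M d x' = bs M d x) fun y hy γ hγ => ⟨⟨⟨fun i hi => ?_, fun _ => hγ.1⟩, fun _ => ?_⟩,
        rfl⟩).congr (fun y hy => funext fun i => ?_) fun y _ => rfl
    · show ((y i).1, γ i) = dfl p0
      rw [hγ.2.2 i hi]
      exact hy.1.1.1 i hi
    · have h1 := hγ.2.1
      have h2 := hy.1.2 hy.2.1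
      show tot n γ < t + 2 * β
      linarith
    · rcases le_or_gt i n with hi | hi
      · exact (congrArg (Prod.mk (y i).1) (if_pos hi)).trans (if_pos hi).symm
      · exact ((congrArg (Prod.mk (y i).1) (if_neg (not_le.2 hi))).trans (hy.1.1.1 i hi)).trans
          (if_neg (not_le.2 hi)).symm

theorem euc_Dm (hE : Euc d (ball p (2 * δ))) :
    Euc ((n + 1) * (d + d)) (Dm p0 δ n p : Set (ℕ → Bs M d)) := by
  have h := ((hE.prod (euc_univ d)).seq n ((p0, 0) : Bs M d)).inter (Nr_open n δ)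
  have e : (Dm p0 δ n p : Set (ℕ → Bs M d)) = {y : ℕ → Bs M d |
      (∀ i ≤ n, y i ∈ ball p (2 * δ) ×ˢ (univ : Set (Fin d → ℝ))) ∧
        ∀ i, n < i → y i = (p0, 0)} ∩ Nr n δ :=
    Set.ext fun c => ⟨fun hc => ⟨⟨fun i hi => ⟨hc.2.2 i hi, trivial⟩, hc.1⟩, hc.2.1⟩,
      fun hc => ⟨hc.1.2, hc.2, fun i hi => (hc.1.1 i hi).1⟩⟩
  rw [e]
  exact h

end Pool.Agent.Fu
end

-- part Pool.Agent.P.MP_365c00_gt.ZY2b
section

/-! Local product models for the cyclic tuples of paths. -/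

set_option linter.unusedSectionVars false
set_option linter.unusedVariables false

open Set Topology Filter Metric

namespace Pool.Agent.Fu

variable {F : Type} [Field F] {M : Type} [MetricSpace M] {d q n : ℕ} {S : GS M} {p0 p : M}
  {δ t : ℝ}

variable [NeZero q]

theorem zy2b_sum (γ : ℕ → Mo M) : ∑ i : ZMod q, (γ i.val).2 = tot (q - 1) γ := by
  obtain ⟨k, rfl⟩ := Nat.exists_eq_succ_of_ne_zero (NeZero.ne q)
  exact Fin.sum_univ_eq_sum_range (fun i => (γ i).2) (k + 1)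

theorem zy2b_tot (x : ZMod q → Pos M d) :
    tot (q - 1) (fun i : ℕ => (x (i : ZMod q)).2) = ∑ i, (x i).2.2 := by
  rw [← zy2b_sum]
  simp only [ZMod.natCast_zmod_val]

theorem zy2b_to {x : ZMod q → Pos M d}
    (h : ∀ i, IsP (x i).2 ∧ dist (en (x i).2) (st (x (i + 1)).2) < 2 * δ) :
    (fun i : ℕ => (x (i : ZMod q)).2) ∈ Tup (q - 1) δ (2 * δ) (st (x 0).2) (st (x 0).2) := by
  refine ⟨fun i _ => (h _).1, by simp only [Nat.cast_zero], fun i _ => ?_, ?_⟩
  · simpa only [Nat.cast_succ] using (h i).2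
  · have e : ((q - 1 : ℕ) : ZMod q) + 1 = 0 := by
      rw [← Nat.cast_succ, Nat.succ_eq_add_one,
        Nat.sub_add_cancel (Nat.one_le_iff_ne_zero.2 (NeZero.ne q)), ZMod.natCast_self]
    have := (h ((q - 1 : ℕ) : ZMod q)).2
    rwa [e] at this

theorem zy2b_from {γ : ℕ → Mo M} {e : M} (h : γ ∈ Tup (q - 1) δ (2 * δ) e e) :
    (∀ i : ZMod q, IsP (γ i.val) ∧ dist (en (γ i.val)) (st (γ (i + 1).val)) < 2 * δ) ∧
      st (γ (0 : ZMod q).val) = e := by
  refine ⟨fun i => ?_, by rw [ZMod.val_zero]; exact h.2.1⟩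
  have hi := ZMod.val_lt i
  have e1 : (i + 1).val = (i.val + 1) % q := by
    rw [← ZMod.val_natCast, Nat.cast_succ, ZMod.natCast_zmod_val]
  refine ⟨h.1 _ (by omega), ?_⟩
  rcases lt_or_ge (i.val + 1) q with h1 | h1
  · rw [e1, Nat.mod_eq_of_lt h1]
    exact h.2.2.1 _ (by omega)
  · have e2 : i.val + 1 = q := by omega
    have e3 : i.val = q - 1 := by omega
    rw [e1, e2, Nat.mod_self, e3, h.2.1]
    exact h.2.2.2

theorem fm_Z (hδ : 0 < δ) (ha : 16 * δ ≤ S.a) (m : M) {β : ℝ} (hβ : (2 * q + 9) * δ ≤ β) :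
    FM (Zs q δ) (Zt q δ) (xiZ M d q) (UpZ q δ p m) (UpZ q δ p m) (Om m m) (Pa m m)
      (fun x => S.wh m m (S.fill (q - 1) fun i => (x (i : ZMod q)).2)) (GZ S q) β := by
  have hq : ((q - 1 : ℕ) : ℝ) = q - 1 := by
    rw [Nat.cast_sub (Nat.one_le_iff_ne_zero.2 (NeZero.ne q)), Nat.cast_one]
  have hq0 : (0 : ℝ) ≤ q * δ := by positivity
  have h2 : 2 * δ ≤ S.a := by linarith
  have cc : Continuous fun (x : ZMod q → Pos M d) (i : ℕ) => (x (i : ZMod q)).2 := by fun_prop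
  have ce : Continuous fun x : ZMod q → Pos M d => st (x 0).2 := st_cont.comp (by fun_prop)
  have hT : ∀ x ∈ Zt q δ ∩ xiZ M d q ⁻¹' UpZ q δ p m,
      (fun i : ℕ => (x (i : ZMod q)).2) ∈ Tup (q - 1) δ (2 * δ) (st (x 0).2) (st (x 0).2) ∧
        dist (st (x 0).2) m < δ := fun x hx => ⟨zy2b_to (hx.1 hx.2.1), hx.2.2.2⟩
  have hF : ∀ x ∈ Zt q δ ∩ xiZ M d q ⁻¹' UpZ q δ p m,
      S.fill (q - 1) (fun i : ℕ => (x (i : ZMod q)).2) ∈
        Pa (st (x 0).2) (en (x ((q - 1 : ℕ) : ZMod q)).2) ∧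
      dist m (st (x 0).2) < δ ∧ dist (en (x ((q - 1 : ℕ) : ZMod q)).2) m < 3 * δ := fun x hx => by
    obtain ⟨t1, t2⟩ := hT x hx
    refine ⟨(S.fill_mem h2 t1).1, by rwa [dist_comm], ?_⟩
    have := dist_triangle (en (x ((q - 1 : ℕ) : ZMod q)).2) (st (x 0).2) m
    have h3 : dist (en (x ((q - 1 : ℕ) : ZMod q)).2) (st (x 0).2) < 2 * δ := t1.2.2.2
    linarith
  have hW : ∀ b ∈ (UpZ q δ p m : Set ((ZMod q → Bs M d) × M)), ∀ ω ∈ Pa m m,
      cut (q - 1) (S.wh b.2 b.2 ω) ∈ Tup (q - 1) δ (2 * δ) b.2 b.2 ∧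
        tot (q - 1) (cut (q - 1) (S.wh b.2 b.2 ω)) ≤ ω.2 + 2 * δ := fun b hb ω hω => by
    have d1 : dist b.2 m < δ := hb.2.2
    have d2 : dist m b.2 < δ := by rwa [dist_comm]
    obtain ⟨w1, w2⟩ := S.wh_mem (x' := b.2) (y' := b.2) hω (by linarith) (by linarith)
    obtain ⟨c1, c2⟩ := cut_mem (η := 2 * δ) w1 hδ (by linarith) (q - 1)
    exact ⟨c1, by rw [c2, w2]; linarith⟩
  refine ⟨Zs_mono δ, fun t t' h => Om_mono m m h, fun t x hx => hx.1, Om_sub m m, UpZ_open δ p m,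
    fun x hx => hx.2, ?_, fun x hx => ?_, fun t x hx => ?_, ?_, fun b hb ω hω => ?_,
    fun t z hz => ?_, fun t => ?_⟩
  · refine S.wh_cont continuousOn_const continuousOn_const
      (S.fill_cont h2 cc.continuousOn fun x hx => (hT x hx).1) fun x hx => ?_
    obtain ⟨f1, f2, f3⟩ := hF x hx
    rw [f1.2.1, f1.2.2]
    exact ⟨f1.1, by linarith, by linarith⟩
  · obtain ⟨f1, f2, f3⟩ := hF x hx
    exact (S.wh_mem f1 (by linarith) (by linarith)).1
  · have hx' : x ∈ Zt q δ ∩ xiZ M d q ⁻¹' UpZ q δ p m := ⟨hx.1.1, hx.2⟩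
    obtain ⟨f1, f2, f3⟩ := hF x hx'
    obtain ⟨w1, w2⟩ := S.wh_mem (x' := m) (y' := m) f1 (by linarith) (by linarith)
    refine ⟨w1, ?_⟩
    have f4 := (S.fill_mem h2 (hT x hx').1).2
    have f5 : ∑ i, (x i).2.2 < t := hx.1.2 hx.2.1
    rw [zy2b_tot, hq] at f4
    show (S.wh m m (S.fill (q - 1) fun i : ℕ => (x (i : ZMod q)).2)).2 < t + β
    rw [w2]
    linarith
  · refine continuousOn_pi.2 fun i => ContinuousOn.prodMk (by fun_prop) ?_
    refine (cut_cont (q - 1) i.val).comp_continuousOn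
      (S.wh_cont (by fun_prop) (by fun_prop) (by fun_prop) fun z hz => ?_)
    have d1 : dist z.1.2 m < δ := hz.1.2.2
    have d2 : dist m z.1.2 < δ := by rwa [dist_comm]
    have e1 : st z.2 = m := hz.2.2.1
    have e2 : en z.2 = m := hz.2.2.2
    rw [e1, e2]
    exact ⟨hz.2.1, by linarith, by linarith⟩
  · exact Prod.ext rfl (zy2b_from (hW b hb ω hω).1).2
  · obtain ⟨w1, w2⟩ := hW z.1 hz.1 z.2 hz.2.1
    refine ⟨fun _ => (zy2b_from w1).1, fun _ => ?_⟩
    have f5 : z.2.2 < t := hz.2.2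
    have := zy2b_sum (q := q) (cut (q - 1) (S.wh z.1.2 z.1.2 z.2))
    show ∑ i : ZMod q, (cut (q - 1) (S.wh z.1.2 z.1.2 z.2) i.val).2 < t + β
    rw [this]
    linarith
  · have h0 := S.tup_htp (n := q - 1) (η := 2 * δ) (r := δ) hδ h2 (by linarith)
      (A := Zs q δ t ∩ xiZ M d q ⁻¹' UpZ q δ p m) (x := fun x => st (x 0).2) m cc.continuousOn
      ce.continuousOn fun x hx => by
        obtain ⟨t1, t2⟩ := hT x ⟨hx.1.1, hx.2⟩
        exact ⟨t1, t2, t2⟩
    have ck : Continuous fun (w : (ZMod q → Pos M d) × (ℕ → Mo M)) (i : ZMod q) =>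
        (((w.1 i).1, w.2 i.val) : Pos M d) := by fun_prop
    refine (h0.post ck.continuousOn
      (R' := fun x x' => x' ∈ Zs q δ (t + 2 * β) ∧ xiZ M d q x' = xiZ M d q x)
      fun x hx γ hγ => ?_).congr (fun x hx => ?_) fun x hx => ?_
    · obtain ⟨g1, g2, -⟩ := hγ
      refine ⟨⟨fun _ => (zy2b_from g1).1, fun _ => ?_⟩, Prod.ext rfl (zy2b_from g1).2⟩
      have f5 : ∑ i, (x i).2.2 < t := hx.1.2 hx.2.1
      rw [zy2b_tot, hq] at g2
      show ∑ i : ZMod q, (γ i.val).2 < t + 2 * β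
      rw [zy2b_sum]
      linarith
    · funext i
      refine Prod.ext rfl ?_
      have hi : i.val ≤ q - 1 := Nat.le_sub_one_of_lt (ZMod.val_lt i)
      exact if_pos hi
    · funext i
      show ((x i).1, (x (i.val : ZMod q)).2) = x i
      rw [ZMod.natCast_zmod_val]

theorem euc_UpZ (hδ : 0 < δ) {m : M} (hE : Euc d (ball p (2 * δ))) (hm : Euc d (ball m (2 * δ))) :
    Euc (q * (d + d) + d) (UpZ q δ p m : Set ((ZMod q → Bs M d) × M)) := by
  have h := ((((hE.prod (euc_univ d)).pi (ZMod q)).prod hm).inter (UpZ_open (q := q) δ p m))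
  rw [ZMod.card, inter_eq_right.2] at h
  · exact h
  · intro z hz
    refine ⟨fun i _ => ⟨hz.2.1 i, mem_univ _⟩, ?_⟩
    have : dist z.2 m < δ := hz.2.2
    exact mem_ball.2 (by linarith)

end Pool.Agent.Fu
end

-- part Pool.Agent.P.MP_365c00_gt.ZD4
section

/-! Removing the factor of the paths. -/

set_option linter.unusedSectionVars false
set_option linter.unusedVariables false

open Set Topology

namespace Pool.Agent.Fu

variable {F : Type} [Field F] {X Y : Type} [TopologicalSpace X] [TopologicalSpace Y] {q : ℕ}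

variable {W : Type} [TopologicalSpace W] [NeZero q]

theorem zd4_ind {T : Type} [AddCommGroup T] [Module F T] {U : Set Y} {A : ZMod q → Set X}
    (L : Ch F (Y × (ZMod q → X)) →ₗ[F] T) (S : Submodule F T)
    (h : ∀ a ∈ CC F U, ∀ (b : ℕ → Ch F X) (k : ℕ → ℕ), (∀ i < q, b i ∈ CC F (A (i : ZMod q))) →
      (∀ i < q, b i ∈ HD F X (k i)) → L (cross a (cpr q b)) ∈ S) :
    ∀ c ∈ PS F U A, L c ∈ S := by
  have : PS F U A ≤ S.comap L := by
    refine Submodule.span_le.2 ?_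
    rintro _ ⟨a, ha, b, hb, rfl⟩
    choose! k hk using fun i hi => (hb i hi).2
    exact h a ha b k (fun i hi => (hb i hi).1) hk
  exact fun c hc => this hc

theorem zd4_mono {U U' : Set Y} {A A' : ZMod q → Set X} (hU : U ⊆ U') (hA : ∀ c, A c ⊆ A' c) :
    PS F U A ≤ PS F U' A' :=
  fun c hc => zd4_ind LinearMap.id _
    (fun a ha b k hb _ => PS_mem (CC_mono hU ha) fun i hi => CC_mono (hA _) (hb i hi)) c hc

theorem zd4_bd (U : Set Y) (A : ZMod q → Set X) : ∀ c ∈ PS F U A, bd c ∈ PS F U A := by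
  refine zd4_ind bd _ fun a ha b k hb _ => ?_
  rw [bd_cross, bd_cpr, map_sum]
  refine add_mem (PS_mem (bd_mem_CC ha) hb)
    (Submodule.sum_mem _ fun i _ => PS_mem (om_mem_CC ha) fun j hj => ?_)
  split_ifs
  exacts [om_mem_CC (hb j hj), bd_mem_CC (hb j hj), hb j hj]

theorem zd4_shf (s : C(Y, Y)) {U : Set Y} (hU : MapsTo s U U) (A : ZMod q → Set X) :
    ∀ c ∈ PS F U A, map (s.prodMap (shf X q)) c ∈ PS F U fun e => A (e - 1) := by
  refine zd4_ind (map (s.prodMap (shf X q))) _ fun a ha b k hb hk => ?_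
  rw [← cross_map, cpr_rot hk, map_smul]
  refine Submodule.smul_mem _ _ (PS_mem (map_mem_CC hU ha) fun j hj => ?_)
  have hq : 1 ≤ q := NeZero.pos q
  split_ifs with h0
  · have := hb (q - 1) (by omega)
    rw [Nat.cast_sub hq, ZMod.natCast_self, Nat.cast_one] at this
    rw [h0, Nat.cast_zero]
    exact this
  · have := hb (j - 1) (by omega)
    rw [Nat.cast_sub (by omega), Nat.cast_one] at this
    exact this

theorem PS_st {U : Set (ZMod q → W)} (hU : MapsTo (shf W q) U U) (A : Set X) :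
    (gcy2 F X q W).St (PS F U fun _ : ZMod q => A) :=
  ⟨zd4_bd _ _, zd4_shf (shf W q) hU fun _ => A⟩

theorem PS_st' (A A' : Set X) :
    (gcy2 F X q W).St (⨆ c : ZMod q, PS F (univ : Set (ZMod q → W))
      (Function.update (fun _ : ZMod q => A) c A')) := by
  set S := ⨆ c : ZMod q, PS F (univ : Set (ZMod q → W))
      (Function.update (fun _ : ZMod q => A) c A') with hS
  have le : ∀ c : ZMod q, PS F (univ : Set (ZMod q → W))
      (Function.update (fun _ : ZMod q => A) c A') ≤ S := fun c =>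
    le_iSup (fun c : ZMod q => PS F (univ : Set (ZMod q → W))
      (Function.update (fun _ : ZMod q => A) c A')) c
  constructor
  · have : S ≤ S.comap bd := iSup_le fun c z hz => le c (zd4_bd _ _ z hz)
    exact fun z hz => this hz
  · have : S ≤ S.comap (map ((shf W q).prodMap (shf X q))) := iSup_le fun c z hz => by
      refine le (c + 1) (zd4_mono Subset.rfl (fun e => ?_)
        (zd4_shf (shf W q) (mapsTo_univ _ _) _ z hz))
      by_cases h : e = c + 1
      · rw [h, add_sub_cancel_right, Function.update_self, Function.update_self]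
      · rw [Function.update_of_ne h, Function.update_of_ne fun e' => h (sub_eq_iff_eq_add.1 e')]
    exact fun z hz => this hz

theorem zd4_rot {b : ℕ → Ch F X} {k : ℕ → ℕ} (h : ∀ i < q, b i ∈ HD F X (k i)) {D : ℕ}
    (hD : Even D) (l : Ch F X →ₗ[F] F) {L : Ch F (ZMod q → X) →ₗ[F] F}
    (hL : ∀ b : ℕ → Ch F X, L (cpr q b) = ∏ i ∈ Finset.range q, (l ∘ₗ dg D) (b i)) :
    L (map (shf X q) (cpr q b)) = L (cpr q b) := by
  rw [cpr_rot h, map_smul, hL, hL, smul_eq_mul]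
  obtain ⟨n, rfl⟩ : ∃ n, q = n + 1 := ⟨q - 1, by have := NeZero.pos q; omega⟩
  rw [Finset.prod_range_succ', Finset.prod_range_succ]
  simp only [Nat.add_sub_cancel, Nat.succ_ne_zero, if_false, if_true]
  by_cases e : D = k n
  · rw [← e, (hD.mul_left _).neg_one_pow, one_mul]
  · rw [LinearMap.comp_apply, dg_of_ne (h n (Nat.lt_succ_self n)) e, map_zero, mul_zero, mul_zero]

theorem zd4_QI {W' : Set Y} (hW : IsOpen W') (A : Set X) {O : Set X} (hO : IsOpen O) :
    QI bd bd LinearMap.id (PS F (univ : Set Y) fun _ : ZMod q => A)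
      ((PS F W' fun _ : ZMod q => A) ⊔
        ⨆ c : ZMod q, PS F (univ : Set Y) (Function.update (fun _ : ZMod q => A) c (A ∩ O)))
      (CC F (univ ×ˢ {x : ZMod q → X | ∀ c, x c ∈ A}))
      (CC F (W' ×ˢ {x : ZMod q → X | ∀ c, x c ∈ A} ∪
        univ ×ˢ {x : ZMod q → X | (∀ c, x c ∈ A) ∧ ∃ c, x c ∈ O})) := by
  have eP : {x : ZMod q → X | ∀ c, x c ∈ A} = Set.pi univ fun _ => A := by
    ext x
    simp
  set B : Set (Y × (ZMod q → X)) := W' ×ˢ {x : ZMod q → X | ∀ c, x c ∈ A} ∪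
    univ ×ˢ {x : ZMod q → X | (∀ c, x c ∈ A) ∧ ∃ c, x c ∈ O} with hB
  set T := (PS F W' fun _ : ZMod q => A) ⊔
    ⨆ c : ZMod q, PS F (univ : Set Y) (Function.update (fun _ : ZMod q => A) c (A ∩ O)) with hT
  let U : Option (ZMod q) → Set (Y × (ZMod q → X)) := fun o =>
    o.elim (W' ×ˢ univ) fun c => {z | z.2 c ∈ O}
  have hU : ∀ o, IsOpen (U o) := by
    rintro (_ | c)
    · exact hW.prod isOpen_univ
    · exact hO.preimage (by fun_prop : Continuous fun z : Y × (ZMod q → X) => z.2 c)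
  have hBA : B ⊆ univ ×ˢ {x : ZMod q → X | ∀ c, x c ∈ A} := by
    rintro z (h | h)
    exacts [⟨mem_univ _, h.2⟩, ⟨mem_univ _, h.2.1⟩]
  have hBU : B ⊆ ⋃ o, U o := by
    rintro z (h | ⟨-, -, c, h⟩)
    exacts [mem_iUnion.2 ⟨none, h.1, mem_univ _⟩, mem_iUnion.2 ⟨some c, h⟩]
  have e0 : B ∩ U none = W' ×ˢ Set.pi univ fun _ : ZMod q => A := by
    rw [← eP]
    exact Subset.antisymm (fun z hz => ⟨hz.2.1, (hBA hz.1).2⟩)
      fun z hz => ⟨Or.inl hz, hz.1, mem_univ _⟩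
  have e1 : ∀ c, B ∩ U (some c) =
      univ ×ˢ Set.pi univ (Function.update (fun _ : ZMod q => A) c (A ∩ O)) := by
    intro c
    refine Subset.antisymm (fun z hz => ⟨mem_univ _, fun e _ => ?_⟩) fun z hz => ?_
    · by_cases h : e = c
      · rw [h, Function.update_self]
        exact ⟨(hBA hz.1).2 c, hz.2⟩
      · rw [Function.update_of_ne h]
        exact (hBA hz.1).2 e
    · have hc := hz.2 c (mem_univ _)
      rw [Function.update_self] at hc
      refine ⟨Or.inr ⟨mem_univ _, fun e => ?_, c, hc.2⟩, hc.2⟩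
      by_cases h : e = c
      · rw [h]
        exact hc.1
      · have := hz.2 e (mem_univ _)
        rwa [Function.update_of_ne h] at this
  obtain ⟨q1, q2⟩ := QI_small (F := F) hU hBA hBU
  obtain ⟨D, K, h1, h2, h3⟩ := exists_proj F X Y q
  set S := ⨆ o, CC F (B ∩ U o) with hS
  have hTS : T ≤ S := by
    refine sup_le ((PS_le _ _).trans ?_) (iSup_le fun c => (PS_le _ _).trans ?_)
    · rw [← e0]
      exact le_iSup (fun o => CC F (B ∩ U o)) none
    · rw [← e1]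
      exact le_iSup (fun o => CC F (B ∩ U o)) (some c)
  have hK : S ≤ (CC F B).comap K := by
    refine iSup_le fun o z hz => CC_mono (inter_subset_left (t := U o)) ?_
    rcases o with _ | c
    · rw [e0] at hz ⊢
      exact (h2 _ _ z hz).1
    · rw [e1] at hz ⊢
      exact (h2 _ _ z hz).1
  have hD : S ≤ T.comap D := by
    refine iSup_le fun o z hz => ?_
    rcases o with _ | c
    · rw [e0] at hz
      exact Submodule.mem_sup_left (h2 _ _ z hz).2
    · rw [e1] at hz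
      exact Submodule.mem_sup_right (Submodule.mem_iSup_of_mem c (h2 _ _ z hz).2)
  have hch : ∀ c, bd (D c) = D (bd c) := fun c => by
    have a1 := congrArg bd (h1 c)
    have a2 := h1 (bd c)
    rw [map_sub, map_add, bd_bd, zero_add] at a1
    rw [bd_bd, map_zero, add_zero, ← a1] at a2
    exact (sub_right_injective a2).symm
  rw [eP] at q1 q2 ⊢
  refine ⟨fun c hc hd hn => ?_, fun c' hc' hd => ?_⟩
  · obtain ⟨_, ⟨u, hu, rfl⟩, v, hv, e⟩ :=
      Submodule.mem_sup.1 (q1 c (PS_le _ _ hc) (hTS hd) hn)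
    have e2 : (D - LinearMap.id : _ →ₗ[F] _) c ∈ (⊥ : Submodule F _) :=
      zd4_ind _ _ (fun a _ b _ _ _ => by
        rw [LinearMap.sub_apply, h3, LinearMap.id_apply, sub_self]
        exact Submodule.zero_mem _) c hc
    rw [Submodule.mem_bot, LinearMap.sub_apply, LinearMap.id_apply, sub_eq_zero] at e2
    rw [← e2, ← e, map_add, ← hch]
    exact Submodule.add_mem_sup ⟨_, (h2 _ _ u hu).2, rfl⟩ (hD hv)
  · obtain ⟨c, hc, hd', hn⟩ := q2 c' hc' hd
    refine ⟨D c, (h2 _ _ c hc).2, by rw [hch]; exact hD hd', ?_⟩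
    have e2 : D c - c' = (c - c') - (bd (K c) + K (bd c)) := by rw [← h1]; abel
    rw [LinearMap.id_apply, e2]
    exact Submodule.sub_mem _ hn (Submodule.add_mem_sup ⟨_, (h2 _ _ c hc).1, rfl⟩ (hK hd'))

theorem tp_nul [CharP F q] {W' : Set (ZMod q → W)} (hW : IsOpen W') (hi : MapsTo (shf W q) W' W')
    {A O : Set X} (hO : IsOpen O) {D : ℕ} (hD : Even D) {w : Ch F X} (hw : w ∈ ZZ F A ∅)
    (hd : w ∈ HD F X D) (hn : w ∉ NN F A (A ∩ O)) {g : Ch F (ZMod q → W)} (hg : bd g ∈ CC F W')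
    (hs : map (shf W q) g = g) {R : ℕ}
    (h : (gcy2 F X q W).Nul (CC F (univ ×ˢ {x : ZMod q → X | ∀ c, x c ∈ A}))
      (CC F (W' ×ˢ {x : ZMod q → X | ∀ c, x c ∈ A} ∪
        univ ×ˢ {x : ZMod q → X | (∀ c, x c ∈ A) ∧ ∃ c, x c ∈ O})) R
      (sq 0 (cross g (cpr q fun _ => w)))) :
    (gcy F W q).Nul ⊤ (CC F W') R (sq 0 g) := by
  have hq := zd4_QI (F := F) (q := q) hW A hO
  have sA := PS_st (F := F) (W := W) (q := q) (mapsTo_univ _ _) A
  have sB := (PS_st (F := F) hi A).sup (PS_st' A (A ∩ O))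
  set PA := PS F (univ : Set (ZMod q → W)) fun _ : ZMod q => A with hPA
  set PB := (PS F W' fun _ : ZMod q => A) ⊔ ⨆ c : ZMod q, PS F (univ : Set (ZMod q → W))
    (Function.update (fun _ : ZMod q => A) c (A ∩ O)) with hPB
  have eP : {x : ZMod q → X | ∀ c, x c ∈ A} = Set.pi univ fun _ => A := by
    ext x
    simp
  have up : ∀ c e : ZMod q, Function.update (fun _ : ZMod q => A) c (A ∩ O) e ⊆ A := fun c e => by
    by_cases h : e = c
    · rw [h, Function.update_self]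
      exact inter_subset_left
    · rw [Function.update_of_ne h]
  have hBA : PB ≤ PA :=
    sup_le (zd4_mono (subset_univ _) fun _ => Subset.rfl)
      (iSup_le fun c => zd4_mono Subset.rfl (up c))
  have hz : bd (cpr q fun _ => w) = 0 := by
    have := (mem_ZZ.1 (cpr_ZZ (q := q) (b := fun _ => w) fun _ _ => hw)).2
    refine (Submodule.mem_bot F).1 (CC_empty (F := F) (X := ZMod q → X) ▸ CC_mono ?_ this)
    rintro x ⟨-, c, hc⟩
    exact hc
  have h1 : (gcy2 F X q W).Nul PA PB R (sq 0 (cross g (cpr q fun _ => w))) := by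
    refine GC.Nul.reflect (f := LinearMap.id) ⟨fun _ _ => rfl, fun _ _ => rfl, fun c hc => ?_,
      fun c hc => ?_⟩ hq sA sB (gc_st _ fun z hz => And.intro (mem_univ _) fun c => hz.2 _)
      (gc_st _ ?_) hBA (CC_mono ?_) (GC.seq_sq ?_ ?_ ?_ 0 R) h
    · rw [eP]
      exact PS_le _ _ hc
    · refine (sup_le ((PS_le _ _).trans (CC_mono ?_))
        (iSup_le fun e => (PS_le _ _).trans (CC_mono ?_)) : PB ≤ _) hc
      · rw [← eP]
        exact subset_union_left
      · intro z hz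
        have := hz.2 e (mem_univ _)
        rw [Function.update_self] at this
        exact Or.inr ⟨mem_univ _, fun c => up e c (hz.2 c (mem_univ _)), e, this.2⟩
    · rintro z (hz | ⟨-, hz, c, hc⟩)
      · exact Or.inl ⟨hi hz.1, fun c => hz.2 _⟩
      · refine Or.inr ⟨mem_univ _, fun c => hz _, c + 1, ?_⟩
        show z.2 (c + 1 - 1) ∈ O
        rwa [add_sub_cancel_right]
    · rintro z (hz | hz)
      exacts [⟨mem_univ _, hz.2⟩, ⟨mem_univ _, hz.2.1⟩]
    · exact PS_mem (mem_CC_univ _) fun _ _ => hw.1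
    · show bd _ ∈ _
      rw [bd_cross, hz, map_zero, add_zero]
      exact Submodule.mem_sup_left (PS_mem hg fun _ _ => hw.1)
    · show map ((shf W q).prodMap (shf X q)) _ = _
      rw [← cross_map, hs, cpr_fix hd hD]
  obtain ⟨l, l1, l2⟩ := exists_dual hn
  obtain ⟨L, hL⟩ := exists_Xi (q := q) (l ∘ₗ dg D)
  have l3 : ∀ z ∈ NN F A (A ∩ O), (l ∘ₗ dg D) z = 0 := fun z hz => l2 _ (dg_mem_NN D hz)
  have hE : EqMap (gcy2 F X q W) (gcy F W q) (sr L) PA PB ⊤ (CC F W') := by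
    refine ⟨fun c hc => ?_, fun c hc => ?_, fun _ _ => Submodule.mem_top, fun c hc => ?_⟩
    · refine sub_eq_zero.1 ((Submodule.mem_bot F).1
        (zd4_ind (bd ∘ₗ sr L - sr L ∘ₗ bd) ⊥ (fun a _ b k hb _ => ?_) c hc))
      have e : L (bd (cpr q b)) = 0 := by
        rw [bd_cpr, map_sum]
        refine Finset.sum_eq_zero fun i hi => ?_
        rw [hL]
        refine Finset.prod_eq_zero hi ?_
        rw [if_neg (lt_irrefl i), if_pos rfl]
        exact l3 _ (BB_le_NN _ _ ⟨_, hb i (Finset.mem_range.1 hi), rfl⟩)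
      rw [Submodule.mem_bot, LinearMap.sub_apply, LinearMap.comp_apply, LinearMap.comp_apply,
        bd_cross, map_add, sr_cross, sr_cross, sr_cross, e, zero_smul, add_zero, map_smul, sub_self]
    · refine sub_eq_zero.1 ((Submodule.mem_bot F).1
        (zd4_ind (map (shf W q) ∘ₗ sr L - sr L ∘ₗ map ((shf W q).prodMap (shf X q))) ⊥
          (fun a _ b k _ hk => ?_) c hc))
      rw [Submodule.mem_bot, LinearMap.sub_apply, LinearMap.comp_apply, LinearMap.comp_apply,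
        ← cross_map, sr_cross, sr_cross, zd4_rot hk hD l hL, map_smul, sub_self]
    · refine (sup_le (fun z hz => zd4_ind (sr L) (CC F W') (fun a ha b k _ _ => ?_) z hz)
        (iSup_le fun e z hz => zd4_ind (sr L) (CC F W') (fun a _ b k hb _ => ?_) z hz) :
          PB ≤ (CC F W').comap (sr L)) hc
      · rw [sr_cross]
        exact Submodule.smul_mem _ _ ha
      · have := hb e.val (ZMod.val_lt e)
        rw [ZMod.natCast_zmod_val, Function.update_self] at this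
        rw [sr_cross, hL, Finset.prod_eq_zero (Finset.mem_range.2 (ZMod.val_lt e))
          (l3 _ (CC_le_NN _ _ this)), zero_smul]
        exact Submodule.zero_mem _
  have h2 := GC.Nul.map hE sA h1
  rw [sq_map, sr_cross, hL, LinearMap.comp_apply, mem_HD.1 hd, l1, Finset.prod_const_one,
    one_smul] at h2
  exact h2

end Pool.Agent.Fu
end

-- part Pool.Agent.P.MP_365c00_gt.ZD6
section

/-! Localisation in a vector space. -/

set_option linter.unusedSectionVars false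
set_option linter.unusedVariables false

open Set Topology

namespace Pool.Agent.Fu

variable {F : Type} [Field F] {X Y : Type} [TopologicalSpace X] [TopologicalSpace Y] {q : ℕ}

variable {V E : Type} [NormedAddCommGroup V] [NormedSpace ℝ V] [FiniteDimensional ℝ V]
  [NormedAddCommGroup E] [NormedSpace ℝ E] [FiniteDimensional ℝ E]

/-- tuples that are not constant or have a nonzero second component -/
def WV (V E : Type) [Zero E] (q : ℕ) : Set (ZMod q → V × E) :=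
  {f | (∃ c, (f c).2 ≠ 0) ∨ ∃ c c', (f c).1 ≠ (f c').1}

theorem WV_open [NeZero q] : IsOpen (WV V E q) := by
  have e : WV V E q = (⋃ c, {f | (f c).2 ≠ 0}) ∪ ⋃ c, ⋃ c', {f | (f c).1 ≠ (f c').1} := by
    ext f
    simp only [WV, mem_ofPred_eq, mem_union, mem_iUnion]
  rw [e]
  exact (isOpen_iUnion fun c => isOpen_ne_fun (by fun_prop) continuous_const).union
    (isOpen_iUnion fun c => isOpen_iUnion fun c' => isOpen_ne_fun (by fun_prop) (by fun_prop))

theorem zd6_inv : MapsTo (shf (V × E) q) {f : ZMod q → V × E | ∃ c, (f c).2 ≠ 0}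
    {f : ZMod q → V × E | ∃ c, (f c).2 ≠ 0} := by
  rintro f ⟨c, hc⟩
  refine ⟨c + 1, ?_⟩
  show (f (c + 1 - 1)).2 ≠ 0
  rwa [add_sub_cancel_right]

theorem WV_inv : MapsTo (shf (V × E) q) (WV V E q) (WV V E q) := by
  rintro f (h | ⟨c, c', h⟩)
  · exact Or.inl (zd6_inv h)
  · refine Or.inr ⟨c + 1, c' + 1, ?_⟩
    show (f (c + 1 - 1)).1 ≠ (f (c' + 1 - 1)).1
    rwa [add_sub_cancel_right, add_sub_cancel_right]

theorem zd6_ZZ (f : C(X, Y)) {B : Set X} {B' : Set Y} (hB : MapsTo f B B') {c : Ch F X}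
    (h : c ∈ ZZ F univ B) : map f c ∈ ZZ F univ B' :=
  mem_ZZ.2 ⟨mem_CC_univ _, by rw [bd_map]; exact map_mem_CC hB h.2⟩

theorem zd6_NN (f : C(X, Y)) {B : Set X} {B' : Set Y} (hB : MapsTo f B B') {c : Ch F X}
    (h : c ∈ NN F univ B) : map f c ∈ NN F univ B' := by
  obtain ⟨a, -, ha⟩ := mem_NN.1 h
  refine mem_NN.2 ⟨map f a, mem_CC_univ _, ?_⟩
  rw [bd_map, ← map_sub]
  exact map_mem_CC hB ha

variable (V E q) in
/-- the second components -/
def zd6_p : C(ZMod q → V × E, ZMod q → E) :=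
  ⟨fun x c => (ContinuousMap.snd : C(V × E, E)) (x c), by fun_prop⟩

variable (V E q) in
/-- the section with first components zero -/
def zd6_s : C(ZMod q → E, ZMod q → V × E) := ⟨fun e c => (0, e c), by fun_prop⟩

theorem zd6_htp {z : Ch F (ZMod q → V × E)}
    (hz : z ∈ ZZ F univ {f : ZMod q → V × E | ∃ c, (f c).2 ≠ 0}) :
    map (zd6_s q V E) (map (zd6_p q V E) z) - z ∈
      NN F univ {f : ZMod q → V × E | ∃ c, (f c).2 ≠ 0} := by
  rw [map_map, ← mp_coe]
  refine htp_id_NN (H := fun w c => ((1 - w.1) • (w.2 c).1, (w.2 c).2))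
    (Continuous.continuousOn (by fun_prop)) (mapsTo_univ _ _) (fun w hw => hw.2.2)
    (fun x _ => ?_) (fun x _ => ?_) hz
  · funext c
    simp
  · funext c
    show _ = ((0 : V), (x c).2)
    simp

theorem zd6_g [NeZero q] {o : Ch F (V × E)} (ho : o ∈ ZZ F univ {z : V × E | z.2 ≠ 0}) :
    (cpr q fun _ => o) ∈ ZZ F univ {f : ZMod q → V × E | ∃ c, (f c).2 ≠ 0} :=
  ZZ_mono (subset_univ _) (fun _ h => h.2) (cpr_ZZ (b := fun _ => o) fun _ _ => ho)

theorem loc_hom [NeZero q] (h2 : (2 : F) ≠ 0) {k : ℕ} {o : Ch F (V × E)}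
    (ho : o ∈ ZZ F univ {z : V × E | z.2 ≠ 0}) (hd : o ∈ HD F _ k)
    (hg : Gen F k univ 0 (map ContinuousMap.snd o)) {z : Ch F (ZMod q → V × E)}
    (hz : z ∈ ZZ F univ {f : ZMod q → V × E | ∃ c, (f c).2 ≠ 0}) :
    ∃ r : F, z - r • (cpr q fun _ => o) ∈ NN F univ {f : ZMod q → V × E | ∃ c, (f c).2 ≠ 0} := by
  have h1 : map (zd6_p q V E) z ∈ ZZ F univ (univ \ {fun _ : ZMod q => (0 : E)}) :=
    by
      refine zd6_ZZ _ ?_ hz
      rintro f ⟨c, hc⟩
      exact ⟨trivial, fun h => hc (congrFun h c)⟩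
  obtain ⟨r, hr⟩ := (Gen.cpr (q := q) h2 hg).span _ h1
  have e : (cpr q fun _ => map (ContinuousMap.snd : C(V × E, E)) o) =
      map (zd6_p q V E) (cpr q fun _ => o) := (cpr_map ContinuousMap.snd fun _ => o).symm
  rw [e] at hr
  have h3 := zd6_NN (zd6_s q V E) (B' := {f : ZMod q → V × E | ∃ c, (f c).2 ≠ 0})
    (fun f hf => not_forall.1 fun h => hf.2 (funext h)) hr
  rw [map_sub, map_smul] at h3
  refine ⟨r, zg1_of_eq (add_mem (sub_mem h3 (zd6_htp hz))
    (Submodule.smul_mem _ r (zd6_htp (zd6_g ho)))) ?_⟩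
  rw [smul_sub]
  abel

variable (X q) in
/-- the diagonal -/
def zd6_d : C(X, ZMod q → X) := ⟨fun v _ => v, by fun_prop⟩

variable (V E q) in
/-- the mean of the second components -/
noncomputable def zd6_m [NeZero q] : C(ZMod q → V × E, E) :=
  ⟨fun f => (q : ℝ)⁻¹ • ∑ c, (f c).2, by fun_prop⟩

theorem zd6_sum [NeZero q] (f : ZMod q → V × E) :
    ∑ c, (shf (V × E) q f c).2 = ∑ c, (f c).2 :=
  Equiv.sum_comp (Equiv.subRight (1 : ZMod q)) fun c => (f c).2

theorem zd6_const [NeZero q] (v : E) : ∑ _c : ZMod q, v = (q : ℝ) • v := by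
  rw [Finset.sum_const, Finset.card_univ, ZMod.card, Nat.cast_smul_eq_nsmul]

theorem zd6_T [NeZero q] [CharP F q] (b : Ch F (ZMod q → V × E)) :
    map (zd6_m q V E) ((gcy F (V × E) q).T 1 b) = 0 := by
  have e : (zd6_m q V E).comp (shf (V × E) q) = zd6_m q V E :=
    ContinuousMap.ext fun f => congrArg ((q : ℝ)⁻¹ • ·) (zd6_sum f)
  have h1 : ∀ i : ℕ, map (zd6_m q V E) (((gcy F (V × E) q).s ^ i) b) = map (zd6_m q V E) b := by
    intro i
    induction i with
    | zero => rfl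
    | succ i ih =>
      rw [pow_succ', Module.End.mul_apply, ← ih]
      exact (map_map _ _ _).trans (by rw [e])
  rw [zg1_odd _ Nat.not_even_one, map_sum, Finset.sum_congr rfl fun i _ => h1 i, Finset.sum_const,
    Finset.card_range, ← Nat.cast_smul_eq_nsmul F, CharP.cast_eq_zero, zero_smul]

theorem loc_false [Fact q.Prime] [CharP F q] (h2 : (2 : F) ≠ 0) {k : ℕ} (hk : Even k)
    {o : Ch F (V × E)} (ho : o ∈ ZZ F univ {z : V × E | z.2 ≠ 0}) (hd : o ∈ HD F _ k)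
    (hg : Gen F k univ 0 (map ContinuousMap.snd o)) {R : ℕ}
    (hR : Module.finrank ℝ (V × E) * q ≤ R) :
    ¬ (gcy F (V × E) q).Nul ⊤ (CC F (WV V E q)) R (sq 0 (cpr q fun _ => o)) := by
  intro h
  have hq : q ≠ 0 := (Fact.out : q.Prime).ne_zero
  have hq' : (q : ℝ) ≠ 0 := Nat.cast_ne_zero.2 hq
  have hm : Even (k * (q - 1)) := hk.mul_right _
  have hs : map (shf (V × E) q) (map (zd6_d (V × E) q) o) = map (zd6_d (V × E) q) o :=
    map_map _ _ _
  have hO : ∀ v : V × E, v.2 ≠ 0 → ∑ _c : ZMod q, v.2 ≠ 0 := fun v hv => by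
    rw [zd6_const]
    exact smul_ne_zero hq' hv
  have hx : bd (map (zd6_d (V × E) q) o) ∈ CC F ({f : ZMod q → V × E | ∃ c, (f c).2 ≠ 0} ∩
      {f | ∑ c, (f c).2 ≠ 0}) := by
    rw [bd_map]
    refine map_mem_CC ?_ ho.2
    exact fun v hv => ⟨⟨0, hv⟩, hO v hv⟩
  have hgH : (cpr q fun _ => o) ∈ HD F _ (k + k * (q - 1)) := by
    have e : k + k * (q - 1) = q * k := by
      obtain ⟨n, rfl⟩ := Nat.exists_eq_succ_of_ne_zero hq
      rw [Nat.succ_sub_one, Nat.succ_mul]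
      ring
    rw [e]
    exact cpr_HD (b := fun _ => o) fun _ _ => hd
  obtain ⟨r, hr⟩ := GC.nul_sub_sq (G := gcy F (V × E) q) (A := ⊤)
    (B := CC F {f : ZMod q → V × E | ∃ c, (f c).2 ≠ 0}) (gc_gr _)
    ⟨fun _ _ => trivial, fun _ _ => trivial⟩ (gc_st _ zd6_inv) (D := k) (R := R) hm
    (GC.seq_sq Submodule.mem_top (CC_mono inter_subset_left hx) hs 0 R)
    (fun j _ => by
      unfold sq
      split_ifs with hj
      · rw [hj]
        exact map_mem_HD _ hd
      · exact zero_mem _)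
    (g := cpr q fun _ => o) trivial hgH (zd6_g ho).2 (cpr_fix hd hk)
    (fun j _ hj c _ hc hb => by
      obtain ⟨r, hr⟩ := loc_hom h2 ho hd hg (mem_ZZ.2 ⟨mem_CC_univ c, hb⟩)
      have h1 := dg_mem_NN (k + j) hr
      rw [map_sub, map_smul, mem_HD.1 hc, dg_of_ne hgH (by omega), smul_zero, sub_zero] at h1
      obtain ⟨a, -, a1, a2⟩ := NN_HD hc h1
      exact ⟨a, trivial, a1, a2⟩)
    (fun c _ hc hb => by
      obtain ⟨r, hr⟩ := loc_hom h2 ho hd hg (mem_ZZ.2 ⟨mem_CC_univ c, hb⟩)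
      obtain ⟨a, -, a1, a2⟩ := NN_HD (sub_mem hc (Submodule.smul_mem _ r hgH)) hr
      exact ⟨r, a, trivial, a1, a2⟩)
  have hW : {f : ZMod q → V × E | ∃ c, (f c).2 ≠ 0} ⊆ WV V E q := fun f hf => Or.inl hf
  have h3 : (gcy F (V × E) q).Nul ⊤ (CC F (WV V E q)) R (sq 0 (map (zd6_d (V × E) q) o)) :=
    ((hr.mono le_rfl (CC_mono hW) le_rfl).add
      (((h.shift hm).mono le_rfl le_rfl (Nat.le_add_right _ _)).smul r)).congr fun j _ => by
        rw [sub_add_cancel, sub_self]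
        exact zero_mem _
  obtain ⟨a, b, hab⟩ := free_nil (X := V × E) (O := {f | ∑ c, (f c).2 ≠ 0})
    (fun i => ⟨(Module.finBasis ℝ (V × E)).coord i, LinearMap.continuous_of_finiteDimensional _⟩)
    (fun v v' hv => (Module.finBasis ℝ (V × E)).ext_elem hv) WV_inv
    (isOpen_ne_fun (by fun_prop) continuous_const)
    (fun f hf => by
      show ∑ c, (shf (V × E) q f c).2 ≠ 0
      rw [zd6_sum]
      exact hf)
    (fun v hv => by
      rcases hv with ⟨c, hc⟩ | ⟨c, c', hc⟩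
      exacts [hO v hc, absurd rfl hc])
    (CC_mono (inter_subset_inter_left _ hW) hx) hs hR h3
  have e : (zd6_m q V E).comp (zd6_d (V × E) q) = ContinuousMap.snd :=
    ContinuousMap.ext fun v => by
      show (q : ℝ)⁻¹ • ∑ _c : ZMod q, v.2 = v.2
      rw [zd6_const, smul_smul, inv_mul_cancel₀ hq', one_smul]
  have h4 := map_mem_CC (f := zd6_m q V E) (B := univ \ {0})
    (fun f hf => ⟨trivial, smul_ne_zero (inv_ne_zero hq') hf.2⟩) hab
  rw [map_sub, map_sub, zd6_T, sub_zero, map_map, e, ← bd_map] at h4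
  exact hg.ne (mem_NN.2 ⟨_, mem_CC_univ _, h4⟩)

end Pool.Agent.Fu
end

-- part Pool.Agent.P.MP_365c00_gt.ZD7
section

/-! Excision near the fixed configurations. -/

set_option linter.unusedSectionVars false
set_option linter.unusedVariables false

open Set Topology Filter Metric

namespace Pool.Agent.Fu

variable {F : Type} [Field F] {M : Type} [MetricSpace M] {d q n : ℕ} {S : GS M} {p0 p : M}
  {δ t : ℝ}

variable [NeZero q]

theorem zd7_ball {b : Bs M d} {r : ℝ} (h : b ∈ ball ((p, 0) : Bs M d) r) :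
    dist b.1 p < r ∧ ‖b.2‖ < r := by
  rw [mem_ball, Prod.dist_eq, max_lt_iff, dist_zero_right] at h
  exact h

theorem zd7_Zt {x : ZMod q → Pos M d} (h : ∀ c, x c ∈ A0 δ) : x ∈ Zt q δ := by
  intro hn i
  obtain ⟨h1, -, h3⟩ := h i (hn.1 i)
  refine ⟨h1, ?_⟩
  rw [(h (i + 1) (hn.1 (i + 1))).2.1]
  have h4 : dist (x i).1.1 (x (i + 1)).1.1 < δ := hn.2 i (i + 1)
  linarith [dist_triangle (en (x i).2) (x i).1.1 (x (i + 1)).1.1]

theorem zd7_WZ (hδ : 0 < δ) {x : ZMod q → Pos M d} {c : ZMod q} (h : x c ∈ A0 δ)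
    (hc : (x c).1 ≠ (p, 0)) : x ∈ WZ q p := by
  refine Or.inl ⟨c, ?_⟩
  by_contra hn
  rw [not_or, not_not, not_not] at hn
  have h1 := (h (by rw [hn.1, norm_zero]; exact hδ)).2.1
  exact hc (Prod.ext (h1.symm.trans hn.2) hn.1)

theorem zd7_not {x : ZMod q → Pos M d} (h : x ∉ WZ q p) :
    (∀ i, (x i).1.2 = 0 ∧ st (x i).2 = p) ∧ ∀ i j, (x i).1.1 = (x j).1.1 := by
  refine ⟨fun i => ⟨?_, ?_⟩, fun i j => ?_⟩
  · by_contra hn
    exact h (Or.inl ⟨i, Or.inl hn⟩)
  · by_contra hn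
    exact h (Or.inl ⟨i, Or.inr hn⟩)
  · by_contra hn
    exact h (Or.inr ⟨i, j, hn⟩)

theorem zd7_far (hδ : 0 < δ) (p : M) : (farZ q δ : Set (ZMod q → Pos M d)) ⊆ WZ q p := by
  intro x hx
  by_contra hn
  obtain ⟨h1, h2⟩ := zd7_not hn
  refine hx ⟨fun i => ?_, fun i j => ?_⟩
  · rw [(h1 i).1, norm_zero]
    linarith
  · rw [h2 i j, dist_self]
    linarith

theorem zd7_cov (hδ : 0 < δ) (p : M) (x : ZMod q → Pos M d) : x ∈ UZ q δ p ∪ WZ q p := by
  by_cases hn : x ∈ WZ q p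
  · exact Or.inr hn
  obtain ⟨h1, h2⟩ := zd7_not hn
  refine Or.inl ⟨⟨fun i => ?_, fun i j => ?_⟩, fun i => ?_⟩
  · rw [(h1 i).1, norm_zero]
    exact hδ
  · rw [h2 i j, dist_self]
    exact hδ
  · rw [(h1 i).2, dist_self]
    exact hδ

theorem UZ_open (δ : ℝ) (p : M) : IsOpen (UZ q δ p : Set (ZMod q → Pos M d)) := by
  have h1 : IsOpen {x : ZMod q → Pos M d | (fun i => (x i).1) ∈ NrZ q δ} :=
    (NrZ_open δ).preimage (f := fun (x : ZMod q → Pos M d) i => (x i).1) (by fun_prop)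
  have h2 : IsOpen {x : ZMod q → Pos M d | ∀ i, dist (st (x i).2) p < δ} := by
    rw [ofPred_forall]
    exact isOpen_iInter_of_finite fun i =>
      isOpen_lt ((st_cont.comp (by fun_prop)).dist continuous_const) continuous_const
  exact h1.inter h2

theorem WZ_open (p : M) : IsOpen (WZ q p : Set (ZMod q → Pos M d)) := by
  have h1 : IsOpen {x : ZMod q → Pos M d | ∃ i, (x i).1.2 ≠ 0 ∨ st (x i).2 ≠ p} := by
    rw [ofPred_exists]
    exact isOpen_iUnion fun i => (isOpen_ne_fun (by fun_prop) continuous_const).union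
      (isOpen_ne_fun (st_cont.comp (by fun_prop)) continuous_const)
  have h2 : IsOpen {x : ZMod q → Pos M d | ∃ i j, (x i).1.1 ≠ (x j).1.1} := by
    simp only [ofPred_exists]
    exact isOpen_iUnion fun i => isOpen_iUnion fun j => isOpen_ne_fun (by fun_prop) (by fun_prop)
  exact h1.union h2

theorem UZ_inv (δ : ℝ) (p : M) : MapsTo (shf (Pos M d) q) (UZ q δ p) (UZ q δ p) :=
  fun x hx => ⟨⟨fun i => hx.1.1 (i - 1), fun i j => hx.1.2 (i - 1) (j - 1)⟩, fun i => hx.2 (i - 1)⟩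

theorem WZ_inv (p : M) : MapsTo (shf (Pos M d) q) (WZ q p) (WZ q p) := by
  have e : ∀ (x : ZMod q → Pos M d) (i : ZMod q), shf (Pos M d) q x (i + 1) = x i := fun x i =>
    congrArg x (add_sub_cancel_right i 1)
  rintro x (⟨i, hi⟩ | ⟨i, j, hij⟩)
  · exact Or.inl ⟨i + 1, by rw [e]; exact hi⟩
  · exact Or.inr ⟨i + 1, j + 1, by rw [e, e]; exact hij⟩

theorem Gb_cont (hδ : 0 < δ) (ha : 16 * δ ≤ S.a) :
    ContinuousOn (Gb S : Pos M d → Pos M d) (ball ((p, 0) : Bs M d) (δ / 8) ×ˢ Pa p p) := by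
  refine continuousOn_fst.prodMk (S.wh_cont (by fun_prop) (by fun_prop) continuousOn_snd ?_)
  intro y hy
  have h1 := (zd7_ball hy.1).1
  refine ⟨hy.2.1, ?_, ?_⟩
  · rw [hy.2.2.1]
    linarith
  · rw [hy.2.2.2, dist_comm]
    linarith

theorem Gb_mem (hδ : 0 < δ) (ha : 16 * δ ≤ S.a) {y : Pos M d}
    (hy : y ∈ ball ((p, 0) : Bs M d) (δ / 8) ×ˢ Pa p p) :
    (Gb S y).1 = y.1 ∧ (Gb S y).2 ∈ Pa y.1.1 y.1.1 := by
  have h1 := (zd7_ball hy.1).1
  exact ⟨rfl, (S.wh_mem hy.2 (by linarith) (by rw [dist_comm]; linarith)).1⟩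

theorem det_exc [CharP F q] (hδ : 0 < δ) (ha : 16 * δ ≤ S.a) {o : Ch F (Bs M d)}
    (ho : o ∈ ZZ F univ (univ \ {((p, 0) : Bs M d)})) (hod : o ∈ HD F _ (d + d))
    (hos : o ∈ CC F (ball ((p, 0) : Bs M d) (δ / 8))) {D : ℕ} (hD : Even D) {w : Ch F (Mo M)}
    (hw : w ∈ ZZ F (Pa p p) ∅) (hd : w ∈ HD F _ D) {z : Ch F (Pos M d)}
    (hz : z - mp (Gb S) (cross o w) ∈ CC F (A0 δ ∩ {y : Pos M d | y.1 ≠ (p, 0)})) {lo : ℝ} {R : ℕ}
    (h : (gcy F (Pos M d) q).Nul (CC F (Zt q δ)) (CC F (Zt q δ ∩ farZ q δ ∪ Zs q δ lo)) R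
      (sq 0 (cpr q fun _ => z))) :
    (gcy F (Pos M d) q).Nul (CC F (Zt q δ ∩ UZ q δ p))
      (CC F ((Zt q δ ∩ WZ q p ∪ Zs q δ lo) ∩ UZ q δ p)) R
      (sq 0 (cpr q fun _ => mp (Gb S) (cross o w))) := by
  let A1 : Set (Pos M d) := {y | y.1 ∈ ball ((p, 0) : Bs M d) (δ / 8) ∧ y.2 ∈ Pa y.1.1 y.1.1}
  have h10 : A1 ⊆ A0 δ := fun y hy _ =>
    ⟨hy.2.1, hy.2.2.1, by rw [hy.2.2.2, dist_self]; exact hδ⟩
  have hb : mp (Gb S) (cross o w) ∈ ZZ F A1 {y : Pos M d | y.1 ≠ (p, 0)} := by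
    refine mp_mem_ZZ (Gb_cont hδ ha) (fun y hy => And.intro hy.1 (Gb_mem hδ ha hy).2) ?_
      (cross_mem_ZZ (mem_ZZ.2 ⟨hos, (mem_ZZ.1 ho).2⟩) hw)
    rintro y ⟨-, h1 | h1⟩
    · exact h1.1.2
    · exact h1.2.elim
  have hbd : mp (Gb S) (cross o w) ∈ HD F _ (d + d + D) := mp_mem_HD _ (cross_mem_HD hod hd)
  generalize mp (Gb S) (cross o w) = b at hz hb hbd ⊢
  have hb0 : b ∈ CC F (A0 δ) := CC_mono h10 (mem_ZZ.1 hb).1
  have hz0 : z ∈ CC F (A0 δ) := by
    have := add_mem (CC_mono inter_subset_left hz) hb0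
    rwa [sub_add_cancel] at this
  have hs : (cpr q fun _ => z) - (cpr q fun _ => b) ∈ CC F (Zt q δ ∩ WZ q p ∪ Zs q δ lo) :=
    CC_mono (fun x hx => Or.inl ⟨zd7_Zt hx.1, by
      obtain ⟨c, hc⟩ := hx.2
      exact zd7_WZ hδ hc.1 hc.2⟩) (cpr_sub_CC (fun _ _ => hz0) (fun _ _ => hb0) fun _ _ => hz)
  have h1 : (gcy F (Pos M d) q).Nul (CC F (Zt q δ)) (CC F (Zt q δ ∩ WZ q p ∪ Zs q δ lo)) R
      (sq 0 (cpr q fun _ => b)) := by
    refine (h.mono le_rfl (CC_mono (union_subset_union_left _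
      (inter_subset_inter_right _ (zd7_far hδ p)))) le_rfl).congr fun j _ => ?_
    unfold sq
    split_ifs
    · exact hs
    · rw [sub_zero]
      exact zero_mem _
  have hBA : (Zt q δ ∩ WZ q p ∪ Zs q δ lo : Set (ZMod q → Pos M d)) ⊆ Zt q δ :=
    union_subset inter_subset_left fun x hx => hx.1
  have hBi : MapsTo (shf (Pos M d) q) (Zt q δ ∩ WZ q p ∪ Zs q δ lo)
      (Zt q δ ∩ WZ q p ∪ Zs q δ lo) :=
    ((Zt_inv δ).inter_inter (WZ_inv p)).union_union (Zs_inv δ lo)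
  have hU : ∀ x : ZMod q → Pos M d, (∀ c, x c ∈ A1) → x ∈ UZ q δ p := by
    intro x hx
    refine ⟨⟨fun i => ?_, fun i j => ?_⟩, fun i => ?_⟩
    · linarith [(zd7_ball (hx i).1).2]
    · linarith [(zd7_ball (hx i).1).1, (zd7_ball (hx j).1).1,
        dist_triangle_right (x i).1.1 (x j).1.1 p]
    · rw [(hx i).2.2.1]
      linarith [(zd7_ball (hx i).1).1]
  have hc := mem_ZZ.1 (cpr_ZZ (q := q) (b := fun _ => b) fun _ _ => hb)
  refine GC.Nul.reflect (G' := gcy F (Pos M d) q) (f := LinearMap.id)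
    ⟨fun _ _ => rfl, fun _ _ => rfl, fun _ hc => CC_mono inter_subset_left hc,
      fun _ hc => CC_mono inter_subset_left hc⟩
    (QI_exc (UZ_open δ p) (WZ_open p) (fun x _ => zd7_cov hδ p x) subset_union_left hBA)
    (gc_st _ ((Zt_inv δ).inter_inter (UZ_inv δ p))) (gc_st _ (hBi.inter_inter (UZ_inv δ p)))
    (gc_st _ (Zt_inv δ)) (gc_st _ hBi) (CC_mono (inter_subset_inter_left _ hBA)) (CC_mono hBA)
    (GC.seq_sq ?_ ?_ ?_ 0 R) h1
  · refine CC_mono (fun x hx => ?_) hc.1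
    exact ⟨zd7_Zt fun c => h10 (hx c), hU x hx⟩
  · refine CC_mono (fun x hx => mem_inter
      (Or.inl (mem_inter (zd7_Zt fun c => h10 (hx.1 c)) ?_)) (hU x hx.1)) hc.2
    obtain ⟨c, hc⟩ := hx.2
    exact zd7_WZ hδ (h10 (hx.1 c)) hc
  · exact cpr_fix hbd ((Even.add_self d).add hD)

end Pool.Agent.Fu
end

-- part Pool.Agent.P.MP_365c00_gt.ZI7
section

/-! Index theory: joining partitions, the lower bound. -/

set_option linter.unusedSectionVars false
set_option linter.unusedVariables false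

open Set Filter Topology Metric Function MeasureTheory
open scoped Manifold ContDiff
open Pool.Agent.GeoN

namespace Pool.Agent.Fu

variable {E : Type} [NormedAddCommGroup E] [InnerProductSpace ℝ E] [FiniteDimensional ℝ E]
  {M : Type} [MetricSpace M] [ChartedSpace E M] [IsManifold 𝓘(ℝ, E) ∞ M]
  [CompactSpace M] [Nonempty M] [Nontrivial E] {g : Met E M}

variable {sh : Short g} {a : ℝ}

theorem zi7_hi (k : ℕ) (P : ℝ) (t t' : ℕ → ℝ) (j : ℕ) : ctp k P t t' (k + j) = t' j + P := by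
  rw [ctp, if_neg (by omega), Nat.add_sub_cancel_left]

theorem zi7_lo {P l : ℝ} {k k' : ℕ} {t t' : ℕ → ℝ} (ht : Part a P k t) (ht' : Part a l k' t')
    {j : ℕ} (hj : j ≤ k) : ctp k P t t' j = t j := by
  rcases hj.eq_or_lt with rfl | hj
  · rw [ctp, if_neg (lt_irrefl _), Nat.sub_self, ht'.2.1, zero_add, ht.2.2.1]
  · rw [ctp, if_pos hj]

theorem zi7_zero (u : UG g) (k : ℕ) (t : ℕ → ℝ) : Qf sh u k t 0 0 = 0 := by
  rw [← Ql_apply, map_zero]

theorem zi7_congr (u : UG g) {k : ℕ} (t : ℕ → ℝ) {v w : ℕ → E} (h : ∀ j ≤ k, v j = w j) :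
    Qf sh u k t v v = Qf sh u k t w w := by
  refine Finset.sum_congr rfl fun j hj => ?_
  have q := Finset.mem_range.1 hj
  rw [h j q.le, h (j + 1) q]

theorem Part.ctp {P l : ℝ} {k k' : ℕ} {t t' : ℕ → ℝ} (ht : Part a P k t) (ht' : Part a l k' t') :
    Part a (l + P) (k + k') (ctp k P t t') := by
  refine ⟨Nat.add_pos_left ht.1 _, (zi7_lo ht ht' (Nat.zero_le k)).trans ht.2.1,
    by rw [zi7_hi, ht'.2.2.1], fun j hj => ?_⟩
  rcases lt_or_ge j k with h | h
  · rw [zi7_lo ht ht' h.le, zi7_lo ht ht' h]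
    exact ht.2.2.2 j h
  · obtain ⟨i, rfl⟩ := Nat.exists_eq_add_of_le h
    rw [add_assoc, zi7_hi, zi7_hi, add_sub_add_right_eq_sub, add_lt_add_iff_right]
    exact ht'.2.2.2 i (by omega)

theorem Qf_ctp (u : UG g) {P l : ℝ} {k k' : ℕ} {t t' : ℕ → ℝ} (ht : Part a P k t)
    (ht' : Part a l k' t') (v w : ℕ → E) :
    Qf sh u (k + k') (ctp k P t t') v w = Qf sh u k t v w +
      Qf sh (shift P u) k' t' (fun j => v (k + j)) (fun j => w (k + j)) := by
  unfold Qf
  rw [Finset.sum_range_add]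
  congr 1
  · refine Finset.sum_congr rfl fun j hj => ?_
    have h := Finset.mem_range.1 hj
    rw [zi7_lo ht ht' h.le, zi7_lo ht ht' h]
  · refine Finset.sum_congr rfl fun j _ => ?_
    rw [add_assoc, zi7_hi, zi7_hi, Bq_shift']

theorem idx_mono' (h : SMd sh dist a) (u : UG g) {l l' : ℝ} (h0 : 0 < l) (hl : l ≤ l') :
    idx sh a u l ≤ idx sh a u l' := by
  rcases hl.eq_or_lt with rfl | hl
  · exact le_rfl
  have ht := part_std h.pos h0
  have ht' := part_std h.pos (sub_pos.2 hl)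
  have e := idx_part' h u (ht.ctp ht')
  rw [sub_add_cancel] at e
  rw [e, idx_part' h u ht]
  refine nI_map LinearMap.id (zi7_zero u _ _).ge
    (fun v hv => ⟨hv.1, fun j hj => hv.2 j (le_of_add_le_left hj)⟩) fun v hv => ?_
  have e0 : (fun j => v (⌊2 * l / a⌋₊ + 1 + j)) = 0 := funext fun j => hv.2 _ (Nat.le_add_right _ _)
  rw [LinearMap.id_apply, Qf_ctp u ht ht', e0, zi7_zero, add_zero]

/-- the lower bound -/
theorem idx_lower (h : SMd sh dist a) (u : UG g) {P l : ℝ} (hP : 0 < P) (hl : 0 < l)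
    (hn : NdJ g u (l + P)) :
    idx sh a (shift P u) l + (idx sh a u P +
      Module.finrank ℝ (LinearMap.ker (Jac g u P : E →ₗ[ℝ] E))) ≤ idx sh a u (l + P) := by
  obtain ⟨k, t, ht⟩ : ∃ k t, Part a P k t := ⟨_, _, part_std h.pos hP⟩
  obtain ⟨k', t', ht'⟩ : ∃ k t, Part a l k t := ⟨_, _, part_std h.pos hl⟩
  rw [idx_part' h u ht, idx_part' h (shift P u) ht', idx_part' h u (ht.ctp ht')]
  obtain ⟨N1, v1, r1, n1⟩ := nI_spec (Qf sh u k t) (Vk E k)
  obtain ⟨N2, v2, r2, n2⟩ := nI_spec (Qf sh (shift P u) k' t') (Vk E k')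
  obtain ⟨L, hL, hL'⟩ := ker_part h u ht
  have := Submodule.finiteDimensional_of_le v1
  have := Submodule.finiteDimensional_of_le v2
  obtain ⟨S, hS⟩ : ∃ S : (ℕ → E) →ₗ[ℝ] (ℕ → E), ∀ v j, S v j = if j < k then 0 else v (j - k) :=
    ⟨LinearMap.pi fun j => if j < k then 0 else LinearMap.proj (j - k), fun v j => by
      rw [LinearMap.pi_apply]
      split_ifs <;> rfl⟩
  obtain ⟨Φ, hΦ⟩ : ∃ Φ : (N2 × N1 × LinearMap.ker (Jac g u P : E →ₗ[ℝ] E)) →ₗ[ℝ] (ℕ → E),
      ∀ x, Φ x = S x.1 + (x.2.1 + L x.2.2) :=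
    ⟨(S ∘ₗ N2.subtype).coprod (N1.subtype.coprod L), fun x => rfl⟩
  have hw : ∀ x : N2 × N1 × LinearMap.ker (Jac g u P : E →ₗ[ℝ] E),
      (x.2.1 : ℕ → E) + L x.2.2 ∈ Vk E k := fun x => add_mem (v1 x.2.1.2) (hL' _).1
  have hhi : ∀ x, (fun j => Φ x (k + j)) = x.1 := fun x => funext fun j => by
    rw [hΦ, Pi.add_apply, (hw x).2 _ (Nat.le_add_right _ _), add_zero, hS,
      if_neg (by omega), Nat.add_sub_cancel_left]
  have hlo : ∀ x, ∀ j ≤ k, Φ x j = ((x.2.1 : ℕ → E) + L x.2.2) j := fun x j hj => by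
    rw [hΦ, Pi.add_apply, hS]
    split_ifs with q
    · rw [zero_add]
    · rw [show j - k = 0 by omega, (v2 x.1.2).1, zero_add]
  have hQ : ∀ (n : N1) ξ, Qf sh u k t (n + L ξ) (n + L ξ) = Qf sh u k t n n := fun n ξ => by
    have q1 := (hL' ξ).2 n (v1 n.2)
    have q2 := (hL' ξ).2 _ (hL' ξ).1
    have q3 := (Qf_symm' h u ht n (L ξ)).trans q1
    simp only [← Ql_apply] at q1 q2 q3 ⊢
    simp only [map_add, LinearMap.add_apply, q1, q2, q3, add_zero]
  have neg : ∀ {w : UG g} {m : ℕ} {s : ℕ → ℝ} {N : Submodule ℝ (ℕ → E)},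
      (∀ v ∈ N, v ≠ 0 → Qf sh w m s v v < 0) → ∀ v ∈ N, Qf sh w m s v v ≤ 0 := by
    intro w m s N hN v hv
    by_cases q : v = 0
    · rw [q, zi7_zero]
    · exact (hN v hv q).le
  have key := nI_semi_map (B := Ql sh u (k + k') (ctp k P t t')) (V := Vk E (k + k'))
    (Qf_symm' h u (ht.ctp ht')) (fun v hv q => nd_part' h u (ht.ctp ht') hn hv q) Φ
    ((injective_iff_map_eq_zero Φ).2 fun x hx => by
      have a1 : (x.1 : ℕ → E) = 0 := by
        rw [← hhi x, hx]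
        rfl
      have a2 : (x.2.1 : ℕ → E) + L x.2.2 = 0 := by
        rwa [hΦ, a1, map_zero, zero_add] at hx
      have a3 : (x.2.1 : ℕ → E) = 0 := by
        by_contra q
        have := n1 _ x.2.1.2 q
        rw [← hQ _ x.2.2, a2, zi7_zero] at this
        exact lt_irrefl _ this
      rw [a3, zero_add] at a2
      exact Prod.ext (Subtype.ext a1) (Prod.ext (Subtype.ext a3) (hL (a2.trans (map_zero L).symm))))
    (fun x => ⟨(hlo x 0 (Nat.zero_le k)).trans (hw x).1, fun j hj => by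
      obtain ⟨i, rfl⟩ := Nat.exists_eq_add_of_le (le_of_add_le_left hj)
      exact (congrFun (hhi x) i).trans ((v2 x.1.2).2 i (by omega))⟩)
    (fun x => by
      rw [Ql_apply, Qf_ctp u ht ht', hhi, zi7_congr u t (hlo x), hQ]
      exact add_nonpos (neg n1 _ x.2.1.2) (neg n2 _ x.1.2))
  rwa [Module.finrank_prod, Module.finrank_prod, r1, r2] at key

end Pool.Agent.Fu
end

-- part Pool.Agent.P.MP_365c00_gt.ZQ2
section

/-! Transfer, products of generators, the class of the closed short geodesic. -/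

set_option linter.unusedSectionVars false
set_option linter.unusedVariables false

open Set Topology Filter Metric

namespace Pool.Agent.Fu

variable {F : Type} [Field F] {M : Type} [MetricSpace M] {Z : Type} [TopologicalSpace Z]

namespace GD
variable {D : GD M} {x y z x' y' : M} {τ : ℝ} {m k : ℕ} {w : D.G × ℝ}

/-- an isolated geodesic persists -/
theorem MT.tr (hM : D.MT F) (h : D.Reg x y) (h' : D.Reg x' y') (hx : 2 * dist x' x < D.a)
    (hy : 2 * dist y y' < D.a) (hw : w ∈ D.J x y) {r : ℝ} (hr : dist x' x + dist y y' < r)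
    (hi : D.Iso x y w.2 (2 * r)) :
    ∃ v ∈ D.J x' y', D.ind v.1 v.2 = D.ind w.1 w.2 ∧ |v.2 - w.2| ≤ r := by
  by_contra hcon
  have n1 := dist_nonneg (x := x') (y := x)
  have n2 := dist_nonneg (x := y) (y := y')
  have e1 := dist_comm x x'
  have e2 := dist_comm y' y
  obtain ⟨g, g1, g2, g3, -⟩ := hM.gen_win (b := w.2 - 2 * r) (c := w.2 + 2 * r) h hw (by linarith)
    (by linarith) fun v hv => by
      by_cases h1 : v.2 < w.2 - 2 * r
      · exact Or.inl h1
      by_cases h2 : w.2 + 2 * r ≤ v.2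
      · exact Or.inr (Or.inr h2)
      exact Or.inr (Or.inl (hi v hv (abs_le.2 ⟨by linarith, by linarith⟩)))
  have g4 : g ∈ ZZ F (Om x y (w.2 + (r - (dist x' x + dist y y')))) (Om x y (w.2 - 2 * r)) :=
    ZZ_mono (Omc_sub_Om x y (by linarith)) (subset_refl _) g1
  have g5 : mp (D.wh x' y') g ∈ ZZ F (Om x' y' (w.2 + r)) (Om x' y' (w.2 - r)) :=
    D.toGS.wh_ZZ (by linarith) (by linarith) (by linarith) (by linarith) g4
  have g6 := hM.rel h' (k := D.ind w.1 w.2) (fun v hv b1 b2 e =>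
    hcon ⟨v, hv, e, abs_le.2 ⟨by linarith, by linarith⟩⟩) g5 (mp_mem_HD _ g2)
  have g7 : mp (D.wh x y) (mp (D.wh x' y') g) ∈ NN F (Om x y (w.2 + 2 * r)) (Om x y w.2) :=
    D.toGS.wh_NN (by linarith) (by linarith) (by linarith) (by linarith) (by linarith) g6
  have g8 : mp (D.wh x y) (mp (D.wh x' y') g) - g ∈ NN F (Om x y (w.2 + 2 * r)) (Om x y w.2) :=
    D.toGS.wh_back hx hy (by linarith) (by linarith) g4
  have g9 := sub_mem g7 g8
  rw [sub_sub_cancel] at g9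
  exact g3 g9

theorem zq2_ratio (hM : D.MT F) (h : D.Reg x y) {u : D.G} {l ε : ℝ} (hu : (u, l) ∈ D.J x y)
    (hε : 0 < ε) (hi : D.Iso x y l ε) {c g : Ch F (Mo M)}
    (hc : c ∈ ZZ F (Om x y (l + ε)) (Om x y (l - ε)))
    (hn : c ∉ NN F (Om x y (l + ε)) (Om x y l)) (hg : g ∈ ZZ F (Omc x y l) (Om x y l)) :
    ∃ (t : F) (n n' : Ch F (Mo M)), n ∈ CC F (Om x y l) ∧ g - n ∈ CC F (Omc x y l) ∧
      g - n ∈ ZZ F (Om x y (l + ε)) (Om x y (l - ε)) ∧
      n' ∈ NN F (Om x y (l + ε)) (Om x y (l - ε)) ∧ g - n = t • c + n' := by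
  have hgap : D.Gap x y (l - ε) l := fun v hv => by
    by_cases h1 : v.2 < l - ε
    · exact Or.inl h1
    by_cases h2 : l ≤ v.2
    · exact Or.inr h2
    exact Or.inr (hi v hv (abs_le.2 ⟨by linarith, by linarith⟩)).ge
  have b1 : bd g ∈ ZZ F (Om x y l) (Om x y (l - ε)) :=
    mem_ZZ.2 ⟨(mem_ZZ.1 hg).2, by rw [bd_bd]; exact zero_mem _⟩
  obtain ⟨n, n1, n2⟩ := mem_NN.1 (hM.mt0 x y _ _ h.1 hgap b1)
  have c1 : g - n ∈ CC F (Omc x y l) := sub_mem (mem_ZZ.1 hg).1 (CC_mono (Om_sub_Omc x y l) n1)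
  have c2 : g - n ∈ ZZ F (Om x y (l + ε)) (Om x y (l - ε)) :=
    mem_ZZ.2 ⟨CC_mono (Omc_sub_Om x y (by linarith)) c1, by rw [map_sub]; exact n2⟩
  obtain ⟨G, -, -, -, G4⟩ := hM.gen_win (w := (u, l)) (b := l - ε) (c := l + ε) h hu
    (by simp only; linarith) (by simp only; linarith) fun v hv => by
      by_cases h1 : v.2 < l - ε
      · exact Or.inl h1
      by_cases h2 : l + ε ≤ v.2
      · exact Or.inr (Or.inr h2)
      exact Or.inr (Or.inl (hi v hv (abs_le.2 ⟨by linarith, by linarith⟩)))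
  obtain ⟨a, ha⟩ := G4 _ c2
  obtain ⟨b, hb⟩ := G4 _ hc
  have b0 : b ≠ 0 := by
    rintro rfl
    rw [zero_smul, sub_zero] at hb
    exact hn (NN_mono (subset_refl _) (Om_mono x y (by linarith)) hb)
  refine ⟨a / b, n, g - n - a • G - (a / b) • (c - b • G), n1, c1, c2,
    sub_mem ha (Submodule.smul_mem _ _ hb), ?_⟩
  rw [smul_sub, smul_smul, div_mul_cancel₀ _ b0]
  abel

theorem MT.prod (hM : D.MT F) (h1 : D.Reg x y) (h2 : D.Reg y z) (h3 : D.Reg x z) {u : D.G}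
    {l1 l2 ε c : ℝ} (hu1 : (u, l1) ∈ D.J x y) (hu2 : (D.sh l1 u, l2) ∈ D.J y z)
    (hi : D.ind u (l1 + l2) = D.ind u l1 + D.ind (D.sh l1 u) l2) (hε : 0 < ε)
    (i1 : D.Iso x y l1 ε) (i2 : D.Iso y z l2 ε) (hc : l1 + l2 + 2 * ε ≤ c)
    (i3 : ∀ v ∈ D.J x z, v.2 ≤ l1 + l2 ∨ c ≤ v.2) {c1 c2 : Ch F (Mo M)}
    (z1 : c1 ∈ ZZ F (Om x y (l1 + ε)) (Om x y (l1 - ε)))
    (z2 : c2 ∈ ZZ F (Om y z (l2 + ε)) (Om y z (l2 - ε)))
    (n1 : c1 ∉ NN F (Om x y (l1 + ε)) (Om x y l1)) (n2 : c2 ∉ NN F (Om y z (l2 + ε)) (Om y z l2)) :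
    mul c1 c2 ∉ NN F (Om x z c) (Om x z (l1 + l2)) := by
  intro hcon
  obtain ⟨g1, a1, g2, a2, a3⟩ := hM.mt2 x y z h1 h2 h3 u l1 l2 hu1 hu2 hi c (by linarith) i3
  obtain ⟨t1, p1, q1, p11, p12, p13, p14, p15⟩ := zq2_ratio hM h1 hu1 hε i1 z1 n1 a1
  obtain ⟨t2, p2, q2, p21, p22, p23, p24, p25⟩ := zq2_ratio hM h2 hu2 hε i2 z2 n2 a2
  have m1 : mul q1 (g2 - p2) ∈ NN F (Om x z c) (Om x z (l1 + l2)) :=
    mul_Om_left (by linarith) p14 p23 (by linarith) (by linarith) (by linarith)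
  have m2 : mul c1 q2 ∈ NN F (Om x z c) (Om x z (l1 + l2)) :=
    mul_Om_right (by linarith) z1 p24 (by linarith) (by linarith) (by linarith)
  have m3 : mul p1 g2 ∈ CC F (Om x z (l1 + l2)) :=
    mul_mem_CC (fun α hα β hβ => ⟨cat_mem hα.1 hβ.1, by
      rw [cat_dur]; linarith [hα.2, hβ.2]⟩) p11 (mem_ZZ.1 a2).1
  have m4 : mul (g1 - p1) p2 ∈ CC F (Om x z (l1 + l2)) :=
    mul_mem_CC (fun α hα β hβ => ⟨cat_mem hα.1 hβ.1, by
      rw [cat_dur]; linarith [hα.2, hβ.2]⟩) p12 p21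
  have e1 : mul (g1 - p1) (g2 - p2) =
      t1 • (t2 • mul c1 c2 + mul c1 q2) + mul q1 (g2 - p2) := by
    rw [p15, map_add, LinearMap.add_apply, map_smul, LinearMap.smul_apply]
    congr 2
    rw [p25, map_add, map_smul]
  have e2 : mul g1 g2 = mul (g1 - p1) (g2 - p2) + mul (g1 - p1) p2 + mul p1 g2 := by
    simp only [map_sub, LinearMap.sub_apply]
    abel
  apply a3
  rw [e2, e1]
  exact add_mem (add_mem (add_mem (Submodule.smul_mem _ _
    (add_mem (Submodule.smul_mem _ _ hcon) m2)) m1) (CC_le_NN _ _ m4)) (CC_le_NN _ _ m3)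

theorem MT.van (hM : D.MT F) (h : D.Per τ m x y) {b : ℝ} (hb : b ≤ D.a)
    (hk : m < k ∨ (m ≤ k + 1 ∧ b ≤ dist x y)) {c : Ch F (Mo M)}
    (hc : c ∈ ZZ F (Om x y (m * τ + b)) ∅) (hd : c ∈ HD F _ k) : c ∈ BB F (Om x y (m * τ + b)) :=
  hM.abs h.1 (fun v hv hl e => by
    by_cases h1 : v.2 < m * τ
    · have := (h.2 v hv).2.2 h1
      omega
    · obtain ⟨w1, w2⟩ := h.window hv (not_lt.1 h1) (by linarith)
      rcases hk with hk | hk
      · omega
      · linarith [hk.2]) hc hd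

/-- `c` is the class of the short geodesic prolonged by one period -/
structure Top (F : Type) [Field F] (D : GD M) (τ : ℝ) (m : ℕ) (x y : M) (c : Ch F (Mo M)) :
    Prop where
  zz : c ∈ ZZ F (Omc x y (m * τ + dist x y)) ∅
  hd : c ∈ HD F _ m
  ne : ∀ b, b ≤ D.a → c ∉ NN F (Om x y (m * τ + b)) (Om x y (m * τ + dist x y))
  span : ∀ b, dist x y < b → b ≤ D.a → ∀ z ∈ ZZ F (Om x y (m * τ + b)) ∅, z ∈ HD F _ m →
    ∃ r : F, z - r • c ∈ BB F (Om x y (m * τ + b))

theorem MT.one (hM : D.MT F) (hτ : 0 < τ) (hm : 0 < m) (h : D.Per τ m x y) (hd : dist x y < D.a) :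
    ∃ c, Top F D τ m x y c := by
  obtain ⟨u, hu⟩ := chord h.1.1 hd
  have e0 := dist_nonneg (x := x) (y := y)
  have hw : (u, m * τ + dist x y) ∈ D.J x y := by
    have := h.add hτ hu
    rwa [add_comm] at this
  have hi : D.ind u (m * τ + dist x y) = m :=
    (h.window hw (by simp only; linarith) (by simp only; linarith)).2
  have hv : ∀ v ∈ D.J x y, v.2 ≤ m * τ + dist x y ∨ m * τ + D.a ≤ v.2 := fun v hv => by
    by_cases h1 : v.2 < m * τ
    · exact Or.inl (by linarith)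
    by_cases h2 : m * τ + D.a ≤ v.2
    · exact Or.inr h2
    exact Or.inl (h.window hv (not_lt.1 h1) (not_le.1 h2)).1.le
  obtain ⟨g, g1, g2, g3, g4⟩ := hM.mt1 x y h.1 _ hw (m * τ + D.a) (by simp only; linarith) hv
  simp only [hi] at g1 g2 g3 g4
  obtain ⟨k, rfl⟩ : ∃ k, m = k + 1 := ⟨m - 1, by omega⟩
  have b1 : bd g ∈ ZZ F (Om x y ((k + 1 : ℕ) * τ + dist x y)) ∅ :=
    mem_ZZ_empty.2 ⟨(mem_ZZ.1 g1).2, bd_bd g⟩
  obtain ⟨l0, l1, l2⟩ := mem_BB.1 (hM.van h hd.le (Or.inr ⟨le_rfl, le_rfl⟩) b1 (bd_mem_HD g2))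
  have l3 : dg (k + 1) l0 ∈ CC F (Om x y ((k + 1 : ℕ) * τ + dist x y)) := dg_mem_CC _ l1
  have l4 : bd (dg (k + 1) l0) = bd g := by
    rw [← dg_bd, l2, mem_HD.1 (bd_mem_HD g2)]
  have c1 : g - dg (k + 1) l0 ∈ ZZ F (Omc x y ((k + 1 : ℕ) * τ + dist x y)) ∅ :=
    mem_ZZ_empty.2 ⟨sub_mem (mem_ZZ.1 g1).1 (CC_mono (Om_sub_Omc x y _) l3), by
      rw [map_sub, l4, sub_self]⟩
  have c2 : g - dg (k + 1) l0 ∈ HD F _ (k + 1) := sub_mem g2 (dg_mem_HD _ _)
  refine ⟨g - dg (k + 1) l0, c1, c2, fun b hb hn => g3 ?_, fun b hb1 hb2 z hz hz' => ?_⟩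
  · have := add_mem (NN_mono (Om_mono x y (by linarith : ((k + 1 : ℕ) : ℝ) * τ + b ≤
      (k + 1 : ℕ) * τ + D.a)) (subset_refl _) hn) (CC_le_NN _ _ l3)
    rwa [sub_add_cancel] at this
  · obtain ⟨r, hr⟩ := g4 z (ZZ_mono (Om_mono x y (by linarith)) (empty_subset _) hz)
    refine ⟨r, ?_⟩
    have d1 : z - r • (g - dg (k + 1) l0) ∈ NN F (Om x y ((k + 1 : ℕ) * τ + D.a))
        (Om x y ((k + 1 : ℕ) * τ + dist x y)) := by
      have := add_mem hr (CC_le_NN _ _ (Submodule.smul_mem _ r l3))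
      rw [smul_sub, ← sub_add]
      exact this
    have d2 : z - r • (g - dg (k + 1) l0) ∈ ZZ F (Om x y ((k + 1 : ℕ) * τ + b)) ∅ :=
      sub_mem hz (Submodule.smul_mem _ r
        (ZZ_mono (Omc_sub_Om x y (by linarith)) (subset_refl _) c1))
    have d3 : z - r • (g - dg (k + 1) l0) ∈ HD F _ (k + 1) :=
      sub_mem hz' (Submodule.smul_mem _ r c2)
    have hgap : D.Gap x y ((k + 1 : ℕ) * τ + b) ((k + 1 : ℕ) * τ + D.a) := fun v hv' =>
      (hv v hv').imp (fun h1 => by linarith) id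
    have d4 := hM.gap_inj h.1.1 hgap (by linarith)
      (ZZ_mono (subset_refl _) (empty_subset _) d2) d1
    obtain ⟨p, p1, p2, p3⟩ := NN_HD d3 d4
    have d5 := hM.van h hd.le (Or.inr ⟨Nat.le_succ _, le_rfl⟩) (mem_ZZ_empty.2 ⟨p3, by
      rw [map_sub, bd_bd, sub_zero]; exact (mem_ZZ_empty.1 d2).2⟩) (sub_mem d3 (bd_mem_HD p2))
    have d6 := add_mem (BB_mono (Om_mono x y (by linarith : ((k + 1 : ℕ) : ℝ) * τ + dist x y ≤
      (k + 1 : ℕ) * τ + b)) d5) (mem_BB.2 ⟨p, p1, rfl⟩)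
    rwa [sub_add_cancel] at d6

theorem zq2_iso (h : D.Per τ m x y) {ε : ℝ} (h1 : ε ≤ dist x y) (h2 : dist x y + ε < D.a) :
    D.Iso x y (m * τ + dist x y) ε := fun v hv hl => by
  rw [abs_le] at hl
  exact (h.window hv (by linarith [hl.1]) (by linarith [hl.2])).1

/-- three points on a short geodesic -/
theorem MT.col (hM : D.MT F) (hτ : 0 < τ) {m1 m2 : ℕ} {u : D.G} {d1 d2 : ℝ} (p1 : 0 < d1)
    (p2 : 0 < d2) (hd : d1 + d2 < D.a) (hx : D.ev u 0 = x) (hy : D.ev u d1 = y)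
    (hz : D.ev u (d1 + d2) = z) (h1 : D.Per τ m1 x y) (h2 : D.Per τ m2 y z)
    (h3 : D.Per τ (m1 + m2) x z) {c1 c2 c3 : Ch F (Mo M)} (t1 : Top F D τ m1 x y c1)
    (t2 : Top F D τ m2 y z c2) (t3 : Top F D τ (m1 + m2) x z c3) :
    ∃ r : F, r ≠ 0 ∧ mul c1 c2 - r • c3 ∈ BB F (Om x z ((m1 + m2 : ℕ) * τ + D.a)) := by
  have e1 : dist x y = d1 := by
    rw [← abs_eq hx hy (by rw [abs_of_pos p1]; linarith), abs_of_pos p1]
  have e3 : dist x z = d1 + d2 := by
    rw [← abs_eq hx hz (by rw [abs_of_pos (by linarith)]; exact hd), abs_of_pos (by linarith)]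
  have s0 : D.ev (D.sh d1 u) 0 = y := by rw [D.ev_sh, zero_add, hy]
  have s1 : D.ev (D.sh d1 u) d2 = z := by rw [D.ev_sh, add_comm, hz]
  have e2 : dist y z = d2 := by
    rw [← abs_eq s0 s1 (by rw [abs_of_pos p2]; linarith), abs_of_pos p2]
  have j1 : (u, d1) ∈ D.J x y := ⟨p1, hx, hy⟩
  have j2 : (D.sh d1 u, d2) ∈ D.J y z := ⟨p2, s0, s1⟩
  have j3 : (u, d1 + d2) ∈ D.J x z := ⟨add_pos p1 p2, hx, hz⟩
  have es : D.sh (m1 * τ + d1) u = D.sh d1 u := by
    refine D.ext _ _ (funext fun s => ?_)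
    have := (h1.2 _ j1).1 (s + d1)
    rw [D.ev_sh, D.ev_sh, ← this]
    congr 1
    ring
  have k1 : (u, m1 * τ + d1) ∈ D.J x y := by
    have := h1.add hτ j1
    rwa [add_comm] at this
  have k2 : (D.sh (m1 * τ + d1) u, m2 * τ + d2) ∈ D.J y z := by
    have := h2.add hτ j2
    rwa [add_comm, ← es] at this
  have el : m1 * τ + d1 + (m2 * τ + d2) = (m1 + m2 : ℕ) * τ + (d1 + d2) := by
    push_cast; ring
  have k3 : (u, m1 * τ + d1 + (m2 * τ + d2)) ∈ D.J x z := by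
    rw [el, add_comm]
    exact h3.add hτ j3
  have i1 := (h1.window k1 (by simp only; linarith) (by simp only; linarith)).2
  have i2 := (h2.window k2 (by simp only; linarith) (by simp only; linarith)).2
  have i3 := (h3.window k3 (by simp only; linarith) (by simp only; linarith)).2
  simp only at i1 i2 i3
  obtain ⟨ε, ε0, ε1, ε2, ε3⟩ : ∃ ε : ℝ, 0 < ε ∧ ε ≤ d1 ∧ ε ≤ d2 ∧ d1 + d2 + 2 * ε ≤ D.a :=
    ⟨min (min d1 d2) ((D.a - d1 - d2) / 2), lt_min (lt_min p1 p2) (by linarith),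
      (min_le_left _ _).trans (min_le_left _ _), (min_le_left _ _).trans (min_le_right _ _), by
        linarith [min_le_right (min d1 d2) ((D.a - d1 - d2) / 2)]⟩
  have o1 := zq2_iso h1 (ε := ε) (by linarith) (by linarith)
  have o2 := zq2_iso h2 (ε := ε) (by linarith) (by linarith)
  have z1 := t1.zz
  have z2 := t2.zz
  have n1 := t1.ne (d1 + ε) (by linarith)
  have n2 := t2.ne (d2 + ε) (by linarith)
  rw [e1] at o1 z1 n1
  rw [e2] at o2 z2 n2
  rw [← add_assoc] at n1 n2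
  have y1 : c1 ∈ ZZ F (Om x y (m1 * τ + d1 + ε)) ∅ :=
    ZZ_mono (Omc_sub_Om x y (by linarith)) (subset_refl _) z1
  have y2 : c2 ∈ ZZ F (Om y z (m2 * τ + d2 + ε)) ∅ :=
    ZZ_mono (Omc_sub_Om y z (by linarith)) (subset_refl _) z2
  have hp := hM.prod h1.1 h2.1 h3.1 k1 k2 (by rw [i1, i2, i3]) ε0 o1 o2
    (c := (m1 + m2 : ℕ) * τ + D.a) (by linarith) (fun v hv => by
      by_cases a1 : v.2 < (m1 + m2 : ℕ) * τ
      · exact Or.inl (by linarith)
      by_cases a2 : (m1 + m2 : ℕ) * τ + D.a ≤ v.2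
      · exact Or.inr a2
      exact Or.inl (by rw [(h3.window hv (not_lt.1 a1) (not_le.1 a2)).1, e3, el]))
    (ZZ_mono (subset_refl _) (empty_subset _) y1) (ZZ_mono (subset_refl _) (empty_subset _) y2)
    n1 n2
  obtain ⟨r, hr⟩ := t3.span D.a (by linarith) le_rfl (mul c1 c2)
    (ZZ_mono (Om_mono x z (by linarith)) (subset_refl _) (mul_cyc y1 y2)) (mul_mem_HD t1.hd t2.hd)
  refine ⟨r, ?_, hr⟩
  rintro rfl
  rw [zero_smul, sub_zero] at hr
  exact hp (BB_le_NN _ _ hr)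

end GD

end Pool.Agent.Fu
end

-- part Pool.Agent.P.MP_365c00_gt.ZR8
section

/-! Morse theory: the critical points are the geodesics. -/

set_option linter.unusedSectionVars false
set_option linter.unusedVariables false

open Set Filter Topology Metric Function
open scoped Manifold ContDiff
open Pool.Agent.GeoN

namespace Pool.Agent.Fu

variable {E : Type} [NormedAddCommGroup E] [InnerProductSpace ℝ E] [FiniteDimensional ℝ E]
  {M : Type} [MetricSpace M] [ChartedSpace E M] [IsManifold 𝓘(ℝ, E) ∞ M]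
  [CompactSpace M] [Nonempty M] [Nontrivial E] {g : Met E M}

variable {sh : Short g} {a : ℝ}

theorem geo_of_no_corner (h : SMd sh dist a) {δ l : ℝ} {k : ℕ} {t : ℕ → ℝ} (ht : Part δ l k t)
    {x y : M} (hxy : x ≠ y) {z : ℕ → M} (hz : z ∈ Wk x y k)
    (hs : ∀ j < k, dist (z j) (z (j + 1)) < a)
    (he : ∀ j, j + 1 < k → (t (j + 1) - t j)⁻¹ • vel E (z (j + 1)) (sh.σ (z j, z (j + 1))) 1 =
      (t (j + 2) - t (j + 1))⁻¹ • vel E (z (j + 1)) (sh.σ (z (j + 1), z (j + 2))) 0) :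
    ∃ (u : UG g) (L : ℝ), 0 < L ∧ u.1 0 = x ∧ u.1 L = y ∧ fE k t z = L ∧
      ∀ j ≤ k, z j = u.1 (L * (t j / l)) := by
  have hl := ht.pos
  obtain ⟨hk, ht0, htk, hp⟩ := ht
  have hD : ∀ j < k, (z j, z (j + 1)) ∈ sh.D := fun j hj => (h.mem _ _ (hs j hj)).1
  have hne : ∀ j < k, t (j + 1) - t j ≠ 0 := fun j hj => (sub_pos.2 (hp j hj).1).ne'
  obtain ⟨γ, hγ, e0⟩ : ∃ γ : ℝ → M, IsGeodesic g γ ∧
      sh.σ (z 0, z (0 + 1)) = fun r => γ ((t (0 + 1) - t 0) * r + t 0) := by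
    refine ⟨_, (sh.geo _ (hD 0 hk)).affine (t (0 + 1) - t 0)⁻¹ 0, funext fun r => ?_⟩
    have := hne 0 hk
    refine congrArg _ ?_
    rw [ht0] at this ⊢
    field_simp
    ring
  have e : ∀ j < k, sh.σ (z j, z (j + 1)) = fun r => γ ((t (j + 1) - t j) * r + t j) := by
    intro j hj
    induction j with
    | zero => exact e0
    | succ j ih =>
      have hj' : j < k := by omega
      have i1 := ih hj'
      have a1 : (t (j + 1) - t j) * 1 + t j = t (j + 1) := by ring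
      have a2 : γ (t (j + 1)) = z (j + 1) := by
        have := sh.one _ (hD j hj')
        rw [i1] at this
        simpa only [a1] using this
      refine geo_unique (sh.geo _ (hD _ hj)) (hγ.affine _ _) (t0 := 0) (x := z (j + 1))
        (by rw [sh.zero _ (hD _ hj)]; exact mem_extChartAt_source _)
        (by simp only [mul_zero, zero_add, sh.zero _ (hD _ hj), a2]) ?_
      have a3 := he j hj
      rw [i1, ChartX.vel_aff, a1, inv_smul_smul₀ (hne j hj')] at a3
      rw [ChartX.vel_aff, mul_zero, zero_add, a3]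
      exact (smul_inv_smul₀ (hne _ hj) _).symm
  have hz' : ∀ j ≤ k, z j = γ (t j) := by
    intro j hj
    cases j with
    | zero =>
      have := sh.zero _ (hD 0 hk)
      rw [e 0 hk] at this
      simpa only [mul_zero, zero_add] using this.symm
    | succ j =>
      have := sh.one _ (hD j hj)
      rw [e j hj] at this
      simpa only [mul_one, sub_add_cancel] using this.symm
  have gx : γ 0 = x := by rw [← ht0, ← hz' 0 hk.le, hz.1]
  have gy : γ l = y := by rw [← htk, ← hz' k le_rfl, hz.2 k le_rfl]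
  have hen : 0 < energy g γ 0 := energy_pos hγ (s := l) (by rw [gx, gy]; exact hxy.symm)
  obtain ⟨u, hu⟩ := exists_unit_sqrt hγ hen
  refine ⟨u, √(energy g γ 0) * l, mul_pos (Real.sqrt_pos.2 hen) hl, ?_, ?_, ?_, fun j hj => ?_⟩
  · rw [← gx, hu, mul_zero]
  · rw [← gy, hu]
  · have b : Eb k t z = ∑ j ∈ Finset.range k, energy g γ 0 * (t (j + 1) - t j) := by
      refine Finset.sum_congr rfl fun j hj => ?_
      have hj := Finset.mem_range.1 hj
      have := hne j hj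
      rw [← (h.mem _ _ (hs j hj)).2, Short.S, e j hj, energy_affine hγ, energy_const hγ _ 0]
      field_simp
    rw [fE, b, ← Finset.mul_sum, Finset.sum_range_sub, htk, ht0, sub_zero,
      show l * (energy g γ 0 * l) = energy g γ 0 * l ^ 2 by ring, Real.sqrt_mul hen.le,
      Real.sqrt_sq hl.le]
  · rw [hz' j hj, hu]
    refine congrArg _ ?_
    field_simp

theorem mv_or (h : SMd sh dist a) {δ l : ℝ} {k : ℕ} {t : ℕ → ℝ} (ht : Part δ l k t)
    {x y : M} (hxy : x ≠ y) {z : ℕ → M} (hz : z ∈ Wk x y k)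
    (hs : ∀ j < k, dist (z j) (z (j + 1)) < a) :
    Mv (Wk x y k) (fE k t) z ∨ ∃ (u : UG g) (L : ℝ), 0 < L ∧ u.1 0 = x ∧ u.1 L = y ∧
      fE k t z = L ∧ ∀ j ≤ k, z j = u.1 (L * (t j / l)) := by
  by_contra! hc
  obtain ⟨u, L, h1, h2, h3, h4, h5⟩ := geo_of_no_corner h ht hxy hz hs fun j hj =>
    by_contra fun hne => hc.1 (mv_corner h ht hz hs hj hne)
  obtain ⟨j, hj, hne⟩ := hc.2 u L h1 h2 h3 h4
  exact hne (h5 j hj)

theorem nds_mem {l : ℝ} {k : ℕ} {t : ℕ → ℝ} (ht : Part a l k t) (u : UG g) :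
    nds u k t ∈ Wk (u.1 0) (u.1 l) k := by
  refine ⟨?_, fun j hj => ?_⟩
  · rw [nds, Nat.zero_min, ht.2.1]
  · rw [nds, min_eq_right hj, ht.2.2.1]

theorem nds_step (h : SMd sh dist a) {l : ℝ} {k : ℕ} {t : ℕ → ℝ} (ht : Part a l k t) (u : UG g) :
    ∀ j < k, dist (nds u k t j) (nds u k t (j + 1)) = t (j + 1) - t j := by
  intro j hj
  obtain ⟨h1, h2⟩ := ht.2.2.2 j hj
  have e : |t j - t (j + 1)| = t (j + 1) - t j := by
    rw [abs_sub_comm, abs_of_pos (sub_pos.2 h1)]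
  rw [nds, nds, min_eq_left hj.le, min_eq_left (Nat.succ_le_of_lt hj),
    h.dist_ug u (by rwa [e]), e]

theorem nds_fE (h : SMd sh dist a) {l : ℝ} {k : ℕ} {t : ℕ → ℝ} (ht : Part a l k t) (u : UG g) :
    fE k t (nds u k t) = l := by
  have b : Eb k t (nds u k t) = ∑ j ∈ Finset.range k, (t (j + 1) - t j) := by
    refine Finset.sum_congr rfl fun j hj => ?_
    have hj := Finset.mem_range.1 hj
    have := (sub_pos.2 (ht.2.2.2 j hj).1).ne'
    rw [nds_step h ht u j hj]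
    field_simp
  rw [fE, b, Finset.sum_range_sub, ht.2.2.1, ht.2.1, sub_zero, Real.sqrt_mul_self ht.pos.le]

variable {k : ℕ} {x y : M} {y0 : ℕ → M}

theorem zr8_Th {y0 : ℕ → M} {v : ℕ → E} {j : ℕ} (h : v j = 0) : Th y0 v j = y0 j := by
  rw [Th, h, add_zero]
  exact extChartAt_to_inv _

theorem Th_zero (y0 : ℕ → M) : Th y0 (0 : ℕ → E) = y0 := funext fun _ => zr8_Th rfl

theorem Th_mem (hy : y0 ∈ Wk x y k) {v : ℕ → E} (hv : v ∈ Vk E k) : Th y0 v ∈ Wk x y k :=
  ⟨(zr8_Th hv.1).trans hy.1, fun j hj => (zr8_Th (hv.2 j hj)).trans (hy.2 j hj)⟩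

theorem Td_open (k : ℕ) (y0 : ℕ → M) : IsOpen (Td E k y0) := by
  have : Td E k y0 = ⋂ j ∈ Iio k,
      (fun v : ℕ → E => κ E (y0 j) (y0 j) + v j) ⁻¹' (κ E (y0 j)).target := by
    ext v
    simp only [Td, mem_ofPred_eq, mem_iInter, mem_Iio, mem_preimage]
  rw [this]
  exact (finite_Iio k).isOpen_biInter fun j _ =>
    (isOpen_extChartAt_target _).preimage (continuous_const.add (continuous_apply j))

theorem Td_zero (k : ℕ) (y0 : ℕ → M) : 0 ∈ Td E k y0 := fun j _ => by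
  rw [Pi.zero_apply, add_zero]
  exact mem_extChartAt_target _

theorem Xd_open (k : ℕ) (y0 : ℕ → M) : IsOpen (Xd E k y0) := by
  have : Xd E k y0 = ⋂ j ∈ Iio k, (fun c : ℕ → M => c j) ⁻¹' (κ E (y0 j)).source := by
    ext v
    simp only [Xd, mem_ofPred_eq, mem_iInter, mem_Iio, mem_preimage]
  rw [this]
  exact (finite_Iio k).isOpen_biInter fun j _ =>
    (isOpen_extChartAt_source _).preimage (continuous_apply j)

theorem Th_cont (k : ℕ) (y0 : ℕ → M) :
    ContinuousOn (Th y0) (Td E k y0 ∩ (Vk E k : Set (ℕ → E))) := by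
  refine continuousOn_pi.2 fun j => ?_
  rcases lt_or_ge j k with hj | hj
  · exact (continuousOn_extChartAt_symm _).comp
      (continuous_const.add (continuous_apply j)).continuousOn fun v hv => hv.1 j hj
  · exact continuousOn_const.congr fun v hv => zr8_Th (hv.2.2 j hj)

theorem Xi_cont (k : ℕ) (y0 : ℕ → M) : ContinuousOn (Xi E k y0) (Xd E k y0) := by
  refine continuousOn_pi.2 fun j => ?_
  unfold Xi
  split_ifs with hj
  · exact ((continuousOn_extChartAt _).comp (continuous_apply j).continuousOn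
      fun c (hc : c ∈ Xd E k y0) => hc j hj).sub continuousOn_const
  · exact continuousOn_const

theorem Xi_Th {v : ℕ → E} (hv : v ∈ Vk E k) (hd : v ∈ Td E k y0) :
    Th y0 v ∈ Xd E k y0 ∧ Xi E k y0 (Th y0 v) = v := by
  refine ⟨fun j hj => (κ E (y0 j)).map_target (hd j hj), funext fun j => ?_⟩
  unfold Xi
  split_ifs with hj
  · rw [Th, (κ E (y0 j)).right_inv (hd j hj), add_sub_cancel_left]
  · exact (hv.2 j (not_lt.1 hj)).symm

theorem Th_Xi (hy : y0 ∈ Wk x y k) {c : ℕ → M} (hc : c ∈ Wk x y k) (hd : c ∈ Xd E k y0) :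
    Xi E k y0 c ∈ Vk E k ∧ Xi E k y0 c ∈ Td E k y0 ∧ Th y0 (Xi E k y0 c) = c := by
  refine ⟨⟨?_, fun j hj => if_neg (not_lt.2 hj)⟩, fun j hj => ?_, funext fun j => ?_⟩
  · unfold Xi
    split_ifs
    · rw [hc.1, hy.1, sub_self]
    · rfl
  · rw [Xi, if_pos hj, add_sub_cancel]
    exact (κ E (y0 j)).map_source (hd j hj)
  · rcases lt_or_ge j k with hj | hj
    · rw [Th, Xi, if_pos hj, add_sub_cancel, (κ E (y0 j)).left_inv (hd j hj)]
    · rw [zr8_Th (v := Xi E k y0 c) (if_neg (not_lt.2 hj)), hc.2 j hj, hy.2 j hj]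

end Pool.Agent.Fu
end

-- part Pool.Agent.P.MP_365c00_gt.ZY3
section

/-! The local classes. -/

set_option linter.unusedSectionVars false
set_option linter.unusedVariables false

open Set Topology Filter Metric

namespace Pool.Agent.Fu

variable {F : Type} [Field F] {M : Type} [MetricSpace M] {d q n : ℕ} {S : GS M} {p0 p : M}
  {δ t : ℝ}

variable {O : OR F (d + d) (Bs M d)} {c : ℕ → Bs M d} {x : M → Ch F (Mo M)} {w : Ch F (Mo M)}

theorem oB_congr {o : Bs M d → Ch F (Bs M d)} {c' : ℕ → Bs M d} (h : ∀ i ≤ n, c' i = c i) :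
    oB p0 o n c' = oB p0 o n c := by
  induction n with
  | zero => rw [oB, oB, h 0 le_rfl]
  | succ n ih => rw [oB, oB, h _ le_rfl, ih fun i hi => h i (hi.trans (Nat.le_succ n))]

theorem oB_HD (O : OR F (d + d) (Bs M d)) (p0 : M) (n : ℕ) (c : ℕ → Bs M d) :
    oB p0 O.o n c ∈ HD F _ ((n + 1) * (d + d)) := by
  induction n with
  | zero =>
    rw [oB, zero_add, one_mul]
    exact map_mem_HD _ (O.gen _).hd
  | succ n ih =>
    rw [oB, add_mul (n + 1), one_mul]
    exact mu_HD ih (map_mem_HD _ (O.gen _).hd)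

theorem zy3_one (hY : YH S δ O) (p0 : M) (c : ℕ → Bs M d) :
    map (one p0 d) (O.o (c 0)) ∈ ZZ F (Sp p0 δ 0 c) (Sp p0 δ 0 c ∩ OfB 0 c) := by
  have h1 : MapsTo (one p0 d) (ball (c 0) (δ / 8)) (Sp p0 δ 0 c) := by
    intro b hb
    refine ⟨fun i hi => if_neg hi.ne', fun i hi => ?_⟩
    obtain rfl := Nat.le_zero.1 hi
    exact hb
  rw [← mp_coe]
  refine mp_mem_ZZ (A := ball (c 0) (δ / 8)) (B := univ \ {c 0})
    (one p0 d).continuous.continuousOn h1 (fun b hb => ?_)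
    (mem_ZZ.2 ⟨hY.sm _, (mem_ZZ.1 (O.gen _).zz).2⟩)
  exact ⟨h1 hb.1, 0, le_rfl, hb.2.2⟩

theorem oB_Sp (hY : YH S δ O) (p0 : M) (n : ℕ) (c : ℕ → Bs M d) :
    oB p0 O.o n c ∈ ZZ F (Sp p0 δ n c) (Sp p0 δ n c ∩ OfB n c) := by
  induction n with
  | zero => exact zy3_one hY p0 c
  | succ n ih =>
    refine mu_ZZ (fun y hy y' hy' => Sp_app hY.pos hy hy') ?_ ?_ ih
      (zy3_one hY p0 fun _ => c (n + 1))
    · rintro y ⟨hy, -, i, hi, h⟩ y' hy'
      exact ⟨Sp_app hY.pos hy hy', i, hi.trans (Nat.le_succ n), by rwa [zy1_l y y' hi]⟩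
    · rintro y hy y' ⟨hy', -, i, hi, h⟩
      obtain rfl := Nat.le_zero.1 hi
      exact ⟨Sp_app hY.pos hy hy', n + 1, le_rfl, fun h1 => h ((zy1_r n y y' 0).symm.trans h1)⟩

theorem oB_ZZ (hY : YH S δ O) (hc : c ∈ NrC n (δ / 2)) (hp : ∀ i ≤ n, dist (c i).1 p < δ) :
    oB p0 O.o n c ∈ ZZ F (Dm p0 δ n p) (Dm p0 δ n p ∩ OfB n c) :=
  ZZ_mono (Sp_sub hY.pos hc hp) (inter_subset_inter_left _ (Sp_sub hY.pos hc hp))
    (oB_Sp hY p0 n c)

theorem Gn_ZZ (hδ : 0 < δ) (ha : 16 * δ ≤ S.a) {B' : Set (ℕ → Bs M d)} {ob : Ch F (ℕ → Bs M d)}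
    (ho : ob ∈ ZZ F (Dm p0 δ n p) B') (hw : w ∈ ZZ F (Om p p t) ∅) :
    mp (Gn S p0 n) (cross ob w) ∈
      ZZ F (Ys p0 δ n (t + 4 * δ)) (Ys p0 δ n (t + 4 * δ) ∩ bs M d ⁻¹' B') := by
  have h1 : MapsTo (Gn S p0 n) (Dm p0 δ n p ×ˢ Om p p t) (Ys (d := d) p0 δ n (t + 4 * δ)) := by
    rintro ⟨b, ω⟩ ⟨hb, hω⟩
    obtain ⟨k1, -, k3⟩ := Gn_mem hδ ha hb hω.1
    exact ⟨k1, fun _ => k3.trans_lt (by have := hω.2; linarith)⟩
  refine mp_mem_ZZ ((Gn_cont hδ ha).mono (prod_mono subset_rfl (Om_sub p p t))) h1 ?_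
    (cross_mem_ZZ ho hw)
  rintro ⟨b, ω⟩ ⟨hz, h2 | h2⟩
  · refine ⟨h1 hz, ?_⟩
    rw [mem_preimage, (Gn_mem hδ ha hz.1 hz.2.1).2.1]
    exact h2.1
  · exact h2.2.elim

theorem zy3_A (hδ : 0 < δ) (ha : 16 * δ ≤ S.a) :
    MapsTo (Gn S p0 n) (Dm p0 δ n p ×ˢ Pa p p) (Yt (d := d) p0 δ n) :=
  fun _ hz => (Gn_mem hδ ha hz.1 hz.2).1

theorem zy3_B (hδ : 0 < δ) (ha : 16 * δ ≤ S.a) (c : ℕ → Bs M d) :
    MapsTo (Gn S p0 n) ((Dm p0 δ n p ∩ OfB n c) ×ˢ Pa p p ∪ Dm p0 δ n p ×ˢ ∅)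
      (Yt p0 δ n ∩ Of n c) := by
  rintro ⟨b, ω⟩ (h2 | h2)
  · obtain ⟨k1, k2, -⟩ := Gn_mem hδ ha h2.1.1 h2.2
    refine ⟨k1, ?_⟩
    show bs M d (Gn S p0 n (b, ω)) ∈ OfB n c
    rw [k2]
    exact h2.1.2
  · exact h2.2.elim

theorem Gn_NN_left (hδ : 0 < δ) (ha : 16 * δ ≤ S.a) {ob : Ch F (ℕ → Bs M d)}
    (ho : ob ∈ NN F (Dm p0 δ n p) (Dm p0 δ n p ∩ OfB n c)) (hw : w ∈ ZZ F (Pa p p) ∅) :
    mp (Gn S p0 n) (cross ob w) ∈ Mc F p0 δ n c :=
  mp_mem_NN (Gn_cont hδ ha) (zy3_A hδ ha) (zy3_B hδ ha c) (cross_NN_left ho hw)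

theorem Gw_HD (O : OR F (d + d) (Bs M d)) {k : ℕ} (hw : w ∈ HD F _ k) :
    Gw S p0 O.o n c w ∈ HD F _ ((n + 1) * (d + d) + k) :=
  mp_mem_HD _ (cross_mem_HD (oB_HD O p0 n c) hw)

theorem Gw_sub (o : Bs M d → Ch F (Bs M d)) (w w' : Ch F (Mo M)) :
    Gw S p0 o n c (w - w') = Gw S p0 o n c w - Gw S p0 o n c w' := by
  rw [Gw, Gw, Gw, map_sub, map_sub]

theorem Gw_ZZ (hY : YH S δ O) (hc : c ∈ NrC n (δ / 2)) (hp : ∀ i ≤ n, dist (c i).1 p < δ)
    (hw : w ∈ ZZ F (Pa p p) ∅) : Gw S p0 O.o n c w ∈ ZZ F (Yt p0 δ n) (Yt p0 δ n ∩ Of n c) :=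
  mp_mem_ZZ (Gn_cont hY.pos hY.le) (zy3_A hY.pos hY.le)
    (fun _ hz => zy3_B hY.pos hY.le c hz.2) (cross_mem_ZZ (oB_ZZ hY hc hp) hw)

theorem Gw_BB (hY : YH S δ O) (hc : c ∈ NrC n (δ / 2)) (hp : ∀ i ≤ n, dist (c i).1 p < δ)
    (hw : w ∈ BB F (Pa p p)) : Gw S p0 O.o n c w ∈ Mc F p0 δ n c :=
  mp_mem_NN (Gn_cont hY.pos hY.le) (zy3_A hY.pos hY.le) (zy3_B hY.pos hY.le c)
    (cross_NN_right (oB_ZZ hY hc hp) (BB_le_NN _ _ hw))

theorem Mc_mul {n' : ℕ} {a a' b b' : Ch F (ℕ → Pos M d)}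
    (ha : a ∈ ZZ F (Yt p0 δ n) (Yt p0 δ n ∩ Of n c))
    (hb' : b' ∈ ZZ F (Yt p0 δ n') (Yt p0 δ n' ∩ Of n' fun i => c (n + 1 + i)))
    (haa : a - a' ∈ Mc F p0 δ n c) (hbb : b - b' ∈ Mc F p0 δ n' fun i => c (n + 1 + i)) :
    mu (n + 1) a b - mu (n + 1) a' b' ∈ Mc F p0 δ (n + n' + 1) c :=
  mu_sub_NN (A' := Of n c) (B' := Of n' fun i => c (n + 1 + i))
    (C' := Yt p0 δ (n + n' + 1) ∩ Of (n + n' + 1) c)
    (fun _ hy _ hy' => Yt_app hy hy')
    (fun _ hy y' hy' => ⟨Yt_app hy.1 hy', Of_left n' y' hy.2⟩)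
    (fun y hy _ hy' => ⟨Yt_app hy hy'.1, Of_right n y hy'.2⟩)
    (ZZ_mono subset_rfl inter_subset_right ha) (ZZ_mono subset_rfl inter_subset_right hb') haa hbb

theorem Mc_congr {c' : ℕ → Bs M d} (h : ∀ i ≤ n, c' i = c i) :
    Mc F p0 δ n c' = Mc F p0 δ n c := by
  rw [Mc, Mc, Of, Of, OfB_congr h]

theorem Bt_congr {o : Bs M d → Ch F (Bs M d)} {c' : ℕ → Bs M d} (h : ∀ i ≤ n, c' i = c i) :
    Bt S p0 o x n c' = Bt S p0 o x n c := by
  induction n with
  | zero => rw [Bt, Bt, Gw, Gw, oB_congr h, h 0 le_rfl]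
  | succ n ih => rw [Bt, Bt, h _ le_rfl, ih fun i hi => h i (hi.trans (Nat.le_succ n))]

theorem zy3_zero (hY : YH S δ O) (hx : ∀ p, x p ∈ ZZ F (Pa p p) ∅) (hc : c ∈ NrC 0 (δ / 2)) :
    Gw S p0 O.o 0 c (x (c 0).1) ∈ ZZ F (Yt p0 δ 0) (Yt p0 δ 0 ∩ Of 0 c) :=
  Gw_ZZ hY hc (fun i hi => by
    obtain rfl := Nat.le_zero.1 hi
    rw [dist_self]
    exact hY.pos) (hx _)

theorem Bt_ZZ (hY : YH S δ O) (hx : ∀ p, x p ∈ ZZ F (Pa p p) ∅) (hc : c ∈ NrC n (δ / 2)) :
    Bt S p0 O.o x n c ∈ ZZ F (Yt p0 δ n) (Yt p0 δ n ∩ Of n c) := by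
  induction n with
  | zero => exact zy3_zero hY hx hc
  | succ n ih =>
    have h1 : (fun _ : ℕ => c (n + 1)) ∈ NrC 0 (δ / 2) :=
      ⟨fun _ _ => hc.1 _ le_rfl, fun _ _ _ _ => hc.2 _ le_rfl _ le_rfl⟩
    refine mu_ZZ (fun _ hy _ hy' => Yt_app (n' := 0) hy hy')
      (fun _ hy y' hy' => ⟨Yt_app (n' := 0) hy.1 hy', Of_left 0 y' hy.2.2⟩)
      (fun y hy y' hy' => ⟨Yt_app (n' := 0) hy hy'.1, Of_right (n' := 0) n y ?_⟩)
      (ih (NrC_left (n' := 0) hc)) (zy3_zero hY hx h1)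
    obtain ⟨i, hi, h⟩ := hy'.2.2
    obtain rfl := Nat.le_zero.1 hi
    exact ⟨0, le_rfl, h⟩

theorem Bt_add (o : Bs M d → Ch F (Bs M d)) (n n' : ℕ) (c : ℕ → Bs M d) :
    Bt S p0 o x (n + n' + 1) c =
      mu (n + 1) (Bt S p0 o x n c) (Bt S p0 o x n' fun i => c (n + 1 + i)) := by
  induction n' with
  | zero => rfl
  | succ n' ih =>
    have h1 : n + 1 + (n' + 1) = n + n' + 1 + 1 := by omega
    rw [Bt, Bt, mu_assoc, ← ih, h1]
    rfl

theorem Rn_mul (hY : YH S δ O) (hx : ∀ p, x p ∈ ZZ F (Pa p p) ∅) {n' : ℕ} {t' : ℝ}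
    {a b : Ch F (ℕ → Pos M d)} (ha : a ∈ ZZ F (Ys p0 δ n t) (Ys p0 δ n t ∩ far δ n))
    (hb : b ∈ ZZ F (Ys p0 δ n' t') (Ys p0 δ n' t' ∩ far δ n')) (h1 : Rn S p0 δ O.o x n a)
    (h2 : Rn S p0 δ O.o x n' b) : Rn S p0 δ O.o x (n + n' + 1) (mu (n + 1) a b) := by
  intro c hc
  rw [Bt_add]
  exact Mc_mul (ZZ_mono (Ys_sub p0 δ n t)
    (inter_subset_inter (Ys_sub p0 δ n t) (far_sub_Of (NrC_left hc))) ha)
    (Bt_ZZ hY hx (NrC_right hc)) (h1 c (NrC_left hc)) (h2 _ (NrC_right hc))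

theorem ev0_Gw (hY : YH S δ O) (hw : w ∈ CC F (Pa p p)) :
    map (ev0 (Pos M d)) (Gw S p0 O.o 0 (fun _ => (p, 0)) w) = mp (Gb S) (cross (O.o (p, 0)) w) := by
  have hδ := hY.pos
  have hc : (fun _ : ℕ => ((p, 0) : Bs M d)) ∈ NrC 0 (δ / 2) :=
    ⟨fun _ _ => by simpa using (half_pos hδ).le, fun _ _ _ _ => by simpa using (half_pos hδ).le⟩
  have h1 : MapsTo (one p0 d) (ball ((p, 0) : Bs M d) (δ / 8)) (Dm p0 δ 0 p) := by
    intro b hb
    refine Sp_sub hδ hc (fun _ _ => by simpa using hδ) ⟨fun i hi => if_neg hi.ne', fun i hi => ?_⟩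
    obtain rfl := Nat.le_zero.1 hi
    exact hb
  have h2 := cross_mem_CC (hY.sm (p, 0)) hw
  have h3 : MapsTo ((one p0 d).prodMap (ContinuousMap.id (Mo M)))
      (ball ((p, 0) : Bs M d) (δ / 8) ×ˢ Pa p p) (Dm p0 δ 0 p ×ˢ Pa p p) :=
    fun z hz => ⟨h1 hz.1, hz.2⟩
  rw [Gw, oB, cross_map_left, mp_map _ _ (Gn_cont hδ hY.le) (CC_mono h3 h2),
    map_mp _ ((Gn_cont hδ hY.le).comp (ContinuousMap.continuous _).continuousOn h3) h2]
  refine mp_congr (fun z hz => ?_) h2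
  have h4 := (zy2_wh hδ hY.le (h1 hz.1).2 hz.2).1.1
  exact Prod.ext rfl (cut_zero h4)

end Pool.Agent.Fu
end

-- part Pool.Agent.P.MP_365c00_gt.ZY7
section

/-! Vanishing in high degrees for the cyclic tuples. -/

set_option linter.unusedSectionVars false
set_option linter.unusedVariables false

open Set Topology Filter Metric

namespace Pool.Agent.Fu

variable {F : Type} [Field F] {M : Type} [MetricSpace M] {d q n : ℕ} {S : GS M} {p0 p : M}
  {δ t : ℝ}

variable [CompactSpace M] {O : OR F (d + d) (Bs M d)} {x : M → Ch F (Mo M)}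
  {C0 τ θ η A s : ℝ} {D J : ℕ}

theorem zy7_loc [NeZero q] (h2 : (2 : F) ≠ 0) (hY : YH S δ O) (hP : PW F S C0 τ θ η A s D x)
    (hβ : (2 * q + 9) * δ ≤ η) (h0 : 0 ≤ η) {k : ℕ} {u : ℝ}
    (hk : (q * (d + d) + d : ℕ) + (u + η) / τ + A < k) :
    LocN F (Zs q δ) (xiZ M d q) (fun K => K ⊆ NrZC q (δ / 2) ×ˢ univ ∧ ∃ Q : Set (M × M),
      (∃ P P', (∀ x ∈ P, ∀ y ∈ P, dist x y < δ / 2) ∧ (∀ x ∈ P', ∀ y ∈ P', dist x y < δ / 2) ∧
        Q ⊆ P ×ˢ P') ∧ MapsTo (fun z => ((z.1 0).1, z.2)) K Q) (fun _ => ⊤) k u (u + 3 * η) := by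
  rintro K hK ⟨hC, Q, ⟨P, P', h1, h1', hQ⟩, hm⟩ z hz hd -
  rcases K.eq_empty_or_nonempty with he | ⟨c, hc⟩
  · exact zl1_empty (Zs_mono δ (by linarith)) he (mem_ZZ.1 hz).1
  have hδ := hY.pos
  have hs : K ⊆ UpZ q δ (c.1 0).1 c.2 := fun y hy => by
    have a1 := (hC hy).1
    have a2 := h1 _ (hQ (hm hy)).1 _ (hQ (hm hc)).1
    have a3 := h1' _ (hQ (hm hy)).2 _ (hQ (hm hc)).2
    refine ⟨⟨fun i => (a1.1 i).trans_lt (by linarith), fun i j => (a1.2 i j).trans_lt (by linarith)⟩,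
      fun i => (dist_triangle _ (y.1 0).1 _).trans_lt ?_, a3.trans (by linarith)⟩
    have a4 := a1.2 i 0
    linarith
  rw [show u + 3 * η = u + 2 * η + η by ring]
  refine (fm_Z hδ hY.le c.2 hβ).null h0 h2 ((euc_UpZ hδ (hY.euc _) (hY.euc _)).eh h2) hK
    (subset_inter hs hs) h0 hz hd (P := False) (fun h => h.elim)
    fun j w hw hj hle _ => hP.strip c.2 j (u + η) ?_ w hw hj
  have a5 : (k : ℝ) ≤ j + (q * (d + d) + d : ℕ) := by exact_mod_cast hle
  linarith

theorem tail_van [NeZero q] (h2 : (2 : F) ≠ 0) (hY : YH S δ O) (hP : PW F S C0 τ θ η A s D x)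
    (hJ : Cov (fun K : Set M => ∀ x ∈ K, ∀ y ∈ K, dist x y < δ / 2) J univ) (hτ : 0 < τ)
    (hβ : (2 * q + 9) * δ ≤ η) {η' : ℝ} (hη : η' = 3 * (J * J : ℕ) * η) {k : ℕ}
    (hk : (q * (d + d) + d : ℕ) + (t + η' + η) / τ + A < k) :
    Van bd (HD F (ZMod q → Pos M d)) k (CC F (Zs q δ t)) (CC F (Zs q δ t ∩ farZ q δ))
      (CC F (Zs q δ (t + η'))) (CC F (Zs q δ (t + η') ∩ farZ q δ)) := by
  have h0 : 0 ≤ η := le_trans (mul_nonneg (by positivity) hY.pos.le) hβ
  have e : η' = (J * J : ℕ) * (3 * η) := by rw [hη]; ring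
  have h1 : 0 ≤ η' := by rw [e]; positivity
  have key : ∀ u, u ≤ t + η' → (q * (d + d) + d : ℕ) + (u + η) / τ + A < k := fun u hu =>
    lt_of_le_of_lt (by gcongr) hk
  refine van_of_NN fun z hz hd => ?_
  rw [← off_CZ] at hz ⊢
  rw [e]
  refine gl_null (Mc := fun _ => ⊤) (Zs_mono δ) ?_ (by linarith)
    (zy7_loc h2 hY hP hβ h0 (key t (by linarith)))
    (fun u _ hu => zy7_loc h2 hY hP hβ h0 ((key u (e ▸ hu)).trans (by simp)))
    ((hJ.prod hJ).pull ⟨fun z : (ZMod q → Bs M d) × M => ((z.1 0).1, z.2), by fun_prop⟩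
      ((NrZC_compact _).prod isCompact_univ)) hz hd fun _ _ => trivial
  rintro K K' ⟨a1, Q, a2, a3⟩ h
  exact ⟨h.trans a1, Q, a2, a3.mono_left h⟩

end Pool.Agent.Fu
end
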