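import Mathlib
import Pool.Agent.K.MP_365c00_gt.C24
import Pool.Agent.K.MP_365c00_gt.C11
import Pool.Agent.K.MP_365c00_gt.C5
import Pool.Agent.K.MP_365c00_gt.C1
import Pool.Agent.K.MP_365c00_gt.C13

-- part Pool.Agent.P.MP_365c00_gt.ZD8a
section

/-! Passing to a product of two cyclic spaces. -/

set_option linter.unusedSectionVars false
set_option linter.unusedVariables false

open Set Topology Filter Metric

namespace Pool.Agent.Fu

variable {F : Type} [Field F] {M : Type} [MetricSpace M] {d q n : ℕ} {S : GS M} {p0 p : M}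
  {δ t : ℝ}

/-- the map to the product -/
noncomputable def zd8aF (S : GS M) (p : M) {V : Type} (ι : M → V) (φ : M → Fin d → ℝ)
    (x : ZMod q → Pos M d) :
    (ZMod q → V × ((Fin d → ℝ) × (Fin d → ℝ))) × (ZMod q → Mo M) :=
  (fun c => (ι (x c).1.1, ((x c).1.2, φ (st (x c).2) - φ p)), fun c => S.wh p p (x c).2)

theorem zd8a_near {x : ZMod q → Pos M d} (h1 : x ∈ Zt q δ) (h2 : x ∈ UZ q δ p) (c : ZMod q) :
    IsP (x c).2 ∧ dist p (st (x c).2) < δ ∧ dist (en (x c).2) p < 3 * δ := by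
  obtain ⟨a, b⟩ := h1 h2.1 c
  refine ⟨a, by rw [dist_comm]; exact h2.2 c, ?_⟩
  have := dist_triangle (en (x c).2) (st (x (c + 1)).2) p
  linarith [h2.2 (c + 1)]

theorem zd8a_wh (hδ : 0 < δ) (ha : 16 * δ ≤ S.a) {x : ZMod q → Pos M d} (h1 : x ∈ Zt q δ)
    (h2 : x ∈ UZ q δ p) (c : ZMod q) :
    S.wh p p (x c).2 ∈ Pa p p ∧ (S.wh p p (x c).2).2 ≤ (x c).2.2 + 4 * δ := by
  obtain ⟨a, b, e⟩ := zd8a_near h1 h2 c
  obtain ⟨k1, k2⟩ := GS.wh_mem S (x' := p) (y' := p) (γ := (x c).2) ⟨a, rfl, rfl⟩ (by linarith)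
    (by linarith)
  exact ⟨k1, by linarith⟩

theorem zd8a_cont (hδ : 0 < δ) (ha : 16 * δ ≤ S.a) {V : Type} [TopologicalSpace V] (ι : C(M, V))
    {φ : M → Fin d → ℝ} (hφ : ContinuousOn φ (ball p δ)) :
    ContinuousOn (zd8aF (q := q) S p ι φ) (Zt q δ ∩ UZ q δ p) := by
  refine ContinuousOn.prodMk (continuousOn_pi.2 fun c => ?_) (continuousOn_pi.2 fun c => ?_)
  · refine ContinuousOn.prodMk (Continuous.continuousOn (by fun_prop))
      (ContinuousOn.prodMk (Continuous.continuousOn (by fun_prop))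
        (ContinuousOn.sub ?_ continuousOn_const))
    exact hφ.comp (st_cont.comp (f := fun x : ZMod q → Pos M d => (x c).2)
      (by fun_prop)).continuousOn fun x hx => hx.2.2 c
  · refine GS.wh_cont S continuousOn_const continuousOn_const
      (Continuous.continuousOn (by fun_prop)) fun x hx => ?_
    obtain ⟨a, b, e⟩ := zd8a_near hx.1 hx.2 c
    exact ⟨a, by linarith, by linarith⟩

theorem zd8a_ne (hδ : 0 < δ) {φ : M → Fin d → ℝ} (hi : InjOn φ (ball p δ)) {m : M}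
    {v : Fin d → ℝ} (hm : m ∈ ball p δ) (h : v ≠ 0 ∨ m ≠ p) :
    ((v, φ m - φ p) : (Fin d → ℝ) × (Fin d → ℝ)) ≠ 0 := by
  intro e
  rw [Prod.mk_eq_zero, sub_eq_zero] at e
  exact h.elim (fun k => k e.1) fun k => k (hi hm (mem_ball_self hδ) e.2)

theorem zd8a_maps [NeZero q] (hδ : 0 < δ) (ha : 16 * δ ≤ S.a) {V : Type} {ι : M → V}
    (hι : Function.Injective ι) {φ : M → Fin d → ℝ} (hi : InjOn φ (ball p δ)) {lo l : ℝ}
    (hlo : lo + 4 * δ * q ≤ q * l) :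
    MapsTo (zd8aF (q := q) S p ι φ) ((Zt q δ ∩ WZ q p ∪ Zs q δ lo) ∩ UZ q δ p)
      (WV V ((Fin d → ℝ) × (Fin d → ℝ)) q ×ˢ {x : ZMod q → Mo M | ∀ c, x c ∈ Pa p p} ∪
        univ ×ˢ {x : ZMod q → Mo M | (∀ c, x c ∈ Pa p p) ∧ ∃ c, x c ∈ {γ : Mo M | γ.2 < l}}) := by
  rintro x ⟨⟨h1, h3⟩ | ⟨h1, h3⟩, h2⟩
  · refine Or.inl ⟨?_, fun c => (zd8a_wh hδ ha h1 h2 c).1⟩
    rcases h3 with ⟨i, h3⟩ | ⟨i, j, h3⟩
    · exact Or.inl ⟨i, zd8a_ne hδ hi (h2.2 i) h3⟩
    · exact Or.inr ⟨i, j, fun e => h3 (hι e)⟩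
  · refine Or.inr ⟨mem_univ _, fun c => (zd8a_wh hδ ha h1 h2 c).1, ?_⟩
    by_contra hn
    have hl : ∀ c : ZMod q, l ≤ (x c).2.2 + 4 * δ := fun c =>
      (not_lt.1 fun k => hn ⟨c, k⟩).trans (zd8a_wh hδ ha h1 h2 c).2
    have := Finset.sum_le_sum fun c (_ : c ∈ Finset.univ) => hl c
    rw [Finset.sum_add_distrib, Finset.sum_const, Finset.sum_const, Finset.card_univ, ZMod.card,
      nsmul_eq_mul, nsmul_eq_mul] at this
    linarith [h3 h2.1]

theorem zd8a_ball {b : Bs M d} {r : ℝ} (h : b ∈ ball ((p, 0) : Bs M d) r) :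
    dist b.1 p < r ∧ ‖b.2‖ < r := by
  rw [mem_ball, Prod.dist_eq, max_lt_iff, dist_zero_right] at h
  exact h

theorem zd8a_gb [NeZero q] (hδ : 0 < δ) (ha : 16 * δ ≤ S.a) :
    MapsTo (fun (x : ZMod q → Pos M d) (c : ZMod q) => Gb S (x c))
      {x | ∀ c, x c ∈ ball ((p, 0) : Bs M d) (δ / 8) ×ˢ Pa p p} (Zt q δ ∩ UZ q δ p) := by
  intro x hx
  have h1 := fun c => zd8a_ball (hx c).1
  have h2 := fun c => (Gb_mem hδ ha (hx c)).2
  have h3 : ∀ i j, dist (x i).1.1 (x j).1.1 < δ := fun i j => by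
    have := dist_triangle_right (x i).1.1 (x j).1.1 p
    linarith [(h1 i).1, (h1 j).1]
  refine ⟨fun _ i => ⟨(h2 i).1, ?_⟩, ⟨fun i => ?_, h3⟩, fun i => ?_⟩
  · rw [(h2 i).2.2, (h2 (i + 1)).2.1]
    linarith [h3 i (i + 1)]
  · exact (h1 i).2.trans (by linarith)
  · rw [(h2 i).2.1]
    exact (h1 i).1.trans (by linarith)

theorem zd8a_hp (hδ : 0 < δ) (ha : 16 * δ ≤ S.a) :
    Htp (ball ((p, 0) : Bs M d) (δ / 8) ×ˢ Pa p p) (fun _ ω => ω ∈ Pa p p)
      (fun z : Pos M d => S.wh p p (Gb S z).2) fun z => z.2 := by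
  have := GS.hp_wh_wh S (A := ball ((p, 0) : Bs M d) (δ / 8) ×ˢ Pa p p)
    (x := fun z : Pos M d => z.1.1) (y := fun z => z.1.1) (x' := fun _ => p) (y' := fun _ => p)
    (f := fun z => z.2) (by fun_prop) (by fun_prop) continuousOn_const continuousOn_const
    (by fun_prop) fun z hz => by
      have k := (zd8a_ball hz.1).1
      rw [hz.2.2.1, hz.2.2.2, dist_comm p]
      exact ⟨hz.2.1, by linarith, by linarith⟩
  exact (Htp.mono this subset_rfl fun z _ ω h => h.1).congr (fun z _ => rfl)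
    fun z hz => GS.wh_self S hz.2

theorem det_push [NeZero q] [CharP F q] (hδ : 0 < δ) (ha : 16 * δ ≤ S.a) {V : Type}
    [TopologicalSpace V] (ι : C(M, V)) (hι : Function.Injective ι) {φ : M → Fin d → ℝ}
    (hφ : ContinuousOn φ (ball p δ)) (hi : InjOn φ (ball p δ)) {o : Ch F (Bs M d)}
    (ho : o ∈ ZZ F univ (univ \ {((p, 0) : Bs M d)})) (hod : o ∈ HD F _ (d + d))
    (hos : o ∈ CC F (ball ((p, 0) : Bs M d) (δ / 8))) {D : ℕ} (hD : Even D) {w : Ch F (Mo M)}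
    (hw : w ∈ ZZ F (Pa p p) ∅) (hd : w ∈ HD F _ D) {lo l : ℝ} (hlo : lo + 4 * δ * q ≤ q * l) {R : ℕ}
    (h : (gcy F (Pos M d) q).Nul (CC F (Zt q δ ∩ UZ q δ p))
      (CC F ((Zt q δ ∩ WZ q p ∪ Zs q δ lo) ∩ UZ q δ p)) R
      (sq 0 (cpr q fun _ => mp (Gb S) (cross o w)))) :
    (gcy2 F (Mo M) q (V × ((Fin d → ℝ) × (Fin d → ℝ)))).Nul
      (CC F (univ ×ˢ {x : ZMod q → Mo M | ∀ c, x c ∈ Pa p p}))
      (CC F (WV V ((Fin d → ℝ) × (Fin d → ℝ)) q ×ˢ {x : ZMod q → Mo M | ∀ c, x c ∈ Pa p p} ∪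
        univ ×ˢ {x : ZMod q → Mo M | (∀ c, x c ∈ Pa p p) ∧ ∃ c, x c ∈ {γ : Mo M | γ.2 < l}})) R
      (sq 0 (cross (cpr q fun _ => mp (fun b : Bs M d => (ι b.1, (b.2, φ b.1 - φ p))) o)
        (cpr q fun _ => w))) := by
  set A1 : Set (Pos M d) := ball ((p, 0) : Bs M d) (δ / 8) ×ˢ Pa p p with hA1
  set ψ : Bs M d → V × ((Fin d → ℝ) × (Fin d → ℝ)) := fun b => (ι b.1, (b.2, φ b.1 - φ p)) with hψ
  have hb : ∀ b ∈ ball ((p, 0) : Bs M d) (δ / 8), b.1 ∈ ball p δ := fun b hb =>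
    (zd8a_ball hb).1.trans (by linarith)
  have hψc : ContinuousOn ψ (ball ((p, 0) : Bs M d) (δ / 8)) :=
    ContinuousOn.prodMk (Continuous.continuousOn (by fun_prop)) (continuousOn_snd.prodMk
      ((hφ.comp continuousOn_fst hb).sub continuousOn_const))
  have hz := cross_mem_ZZ (mem_ZZ.2 ⟨hos, ho.2⟩) hw
  have hc0 : cross o w ∈ CC F A1 := hz.1
  have hC := cpr_ZZ (q := q) (b := fun _ => cross o w) fun _ _ => hz
  have hC1 : (cpr q fun _ => cross o w) ∈ CC F {x : ZMod q → Pos M d | ∀ c, x c ∈ A1} := hC.1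
  have hap : ∀ c : ZMod q, ContinuousOn (fun x : ZMod q → Pos M d => x c) {x | ∀ c, x c ∈ A1} :=
    fun c => (continuous_apply c).continuousOn
  have h1 := h.map (gc_eqMap (shf_per (q := q)) (shf2_per (q := q)) (zd8a_cont hδ ha ι hφ)
    ((Zt_inv δ).inter_inter (UZ_inv δ p)) (fun _ _ => rfl)
    (A' := univ ×ˢ {x : ZMod q → Mo M | ∀ c, x c ∈ Pa p p})
    (fun x hx => ⟨mem_univ _, fun c => (zd8a_wh hδ ha hx.1 hx.2 c).1⟩)
    (zd8a_maps hδ ha hι hi hlo)) (gc_st _ ((Zt_inv δ).inter_inter (UZ_inv δ p)))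
  have hgq : ContinuousOn (fun (x : ZMod q → Pos M d) (c : ZMod q) => Gb S (x c))
      {x | ∀ c, x c ∈ A1} :=
    continuousOn_pi.2 fun c => (Gb_cont hδ ha).comp (hap c) fun x hx => hx c
  rw [sq_map, ← cpr_mp (Gb_cont hδ ha) fun _ _ => hc0,
    mp_mp hgq (zd8a_cont hδ ha ι hφ) (zd8a_gb hδ ha) hC1] at h1
  obtain ⟨H0, hH, e0, e1, hR⟩ := zd8a_hp (d := d) (p := p) hδ ha
  let H : ℝ × (ZMod q → Pos M d) →
      (ZMod q → V × ((Fin d → ℝ) × (Fin d → ℝ))) × (ZMod q → Mo M) :=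
    fun z => (fun c => ψ (z.2 c).1, fun c => H0 (z.1, z.2 c))
  have hHc : ContinuousOn H (Icc 0 1 ×ˢ {x | ∀ c, x c ∈ A1}) :=
    ContinuousOn.prodMk
      (continuousOn_pi.2 fun c => hψc.comp (Continuous.continuousOn (by fun_prop))
        fun z hz => (hz.2 c).1)
      (continuousOn_pi.2 fun c => hH.comp (Continuous.continuousOn (by fun_prop))
        fun z hz => ⟨hz.1, hz.2 c⟩)
  have k0 : mp (fun x => H (0, x)) (cpr q fun _ => cross o w) =
      mp (zd8aF S p ι φ ∘ fun (x : ZMod q → Pos M d) (c : ZMod q) => Gb S (x c))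
        (cpr q fun _ => cross o w) := by
    refine mp_congr (fun x hx => ?_) hC1
    refine Prod.ext (funext fun c => ?_) (funext fun c => e0 _ (hx c))
    show ψ (x c).1 = (ι (x c).1.1, ((x c).1.2, φ (st (Gb S (x c)).2) - φ p))
    rw [(Gb_mem hδ ha (hx c)).2.2.1]
  have hψ2 : ContinuousOn (Prod.map ψ id : Pos M d → _) A1 := hψc.prodMap continuousOn_id
  have k1 : mp (fun x => H (1, x)) (cpr q fun _ => cross o w) =
      cross (cpr q fun _ => mp ψ o) (cpr q fun _ => w) := by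
    have e : cross (mp ψ o) w = mp (Prod.map ψ id) (cross o w) := by
      rw [← cross_mp hψc continuousOn_id hos hw.1, mp_id]
    have hq2 : ContinuousOn (fun (x : ZMod q → Pos M d) (c : ZMod q) => Prod.map ψ id (x c))
        {x | ∀ c, x c ∈ A1} := continuousOn_pi.2 fun c => hψ2.comp (hap c) fun x hx => hx c
    rw [← cpr_zip (mp_mem_HD ψ hod) ⟨d, rfl⟩ hd, e, ← cpr_mp hψ2 fun _ _ => hc0,
      map_mp _ hq2 hC1]
    refine mp_congr (fun x hx => ?_) hC1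
    exact Prod.ext rfl (funext fun c => e1 _ (hx c))
  have hfix : map ((shf _ q).prodMap (shf (Mo M) q)) (prism H (cpr q fun _ => cross o w)) =
      prism H (cpr q fun _ => cross o w) := by
    rw [← prism_equiv hHc (shf _ q) _ (fun x hx c => hx _) (fun _ _ _ _ => rfl) hC1,
      cpr_fix (cross_mem_HD hod hd) (Even.add ⟨d, rfl⟩ hD)]
  have hHA : MapsTo H (Icc 0 1 ×ˢ {x | ∀ c, x c ∈ A1})
      (univ ×ˢ {x : ZMod q → Mo M | ∀ c, x c ∈ Pa p p}) :=
    fun z hz => ⟨mem_univ _, fun c => hR _ hz.1 _ (hz.2 c)⟩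
  have h2 := GC.nul_sq (G := gcy2 F (Mo M) q (V × ((Fin d → ℝ) × (Fin d → ℝ))))
    (A := CC F (univ ×ˢ {x : ZMod q → Mo M | ∀ c, x c ∈ Pa p p}))
    (B := CC F (WV V ((Fin d → ℝ) × (Fin d → ℝ)) q ×ˢ {x : ZMod q → Mo M | ∀ c, x c ∈ Pa p p} ∪
        univ ×ˢ {x : ZMod q → Mo M | (∀ c, x c ∈ Pa p p) ∧ ∃ c, x c ∈ {γ : Mo M | γ.2 < l}}))
    (g := mp (fun x => H (1, x)) (cpr q fun _ => cross o w) -
      mp (fun x => H (0, x)) (cpr q fun _ => cross o w))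
    (h := prism H (cpr q fun _ => cross o w))
    (prism_mem_CC hHA hC1) hfix (by
      rw [← bd_prism hHc hC1]
      refine zg1_of_eq (prism_mem_CC (H := H) ?_ hC.2) (add_sub_cancel_left _ _)
      rintro z ⟨hu, hx, c, hc⟩
      refine Or.inl ⟨Or.inl ⟨c, zd8a_ne hδ hi (hb _ (hx c).1) ?_⟩, fun c => hR _ hu _ (hx c)⟩
      rcases hc with hc | hc
      · by_contra hn
        rw [not_or, not_not, not_not] at hn
        exact hc.1.2 (Prod.ext hn.2 hn.1)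
      · exact hc.2.elim) R
  rw [k0, k1] at h2
  refine (h1.add h2).congr fun j _ => zg1_of_eq (Submodule.zero_mem _) ?_
  unfold sq
  split_ifs <;> simp

end Pool.Agent.Fu
end

-- part Pool.Agent.P.MP_365c00_gt.ZI8
section

/-! Index theory: tangential fields. -/

set_option linter.unusedSectionVars false
set_option linter.unusedVariables false

open Set Filter Topology Metric Function MeasureTheory
open scoped Manifold ContDiff
open Pool.Agent.GeoN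

namespace Pool.Agent.Fu

variable {E : Type} [NormedAddCommGroup E] [InnerProductSpace ℝ E] [FiniteDimensional ℝ E]
  {M : Type} [MetricSpace M] [ChartedSpace E M] [IsManifold 𝓘(ℝ, E) ∞ M]
  [CompactSpace M] [Nonempty M] [Nontrivial E] {g : Met E M}

variable {sh : Short g} {a : ℝ}

/-- the momentum of `u` in the chart at `u s` -/
noncomputable def zi8_F (u : UG g) (s : ℝ) (w : E) (r : ℝ) : ℝ :=
  G g (u.1 s) (κ E (u.1 s) (u.1 r)) (vel E (u.1 s) u.1 r) w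

theorem zi8_F_has (u : UG g) (s : ℝ) (w : E) :
    HasDerivAt (zi8_F u s w) (deriv (zi8_F u s w) s) s :=
  (u.2.1.2 (u.1 s) s (mem_extChartAt_source _) w).differentiableAt.hasDerivAt

theorem zi8_aff (s α : ℝ) : HasDerivAt (fun r : ℝ => s + α * r) α 0 := by
  simpa using ((hasDerivAt_id (0 : ℝ)).const_mul α).const_add s

theorem zi8_curve (u : UG g) (s α : ℝ) :
    HasDerivAt (fun r : ℝ => κ E (u.1 s) (u.1 (s + α * r))) (α • tv u s) 0 := by
  have h1 : HasDerivAt (fun r => κ E (u.1 s) (u.1 r)) (tv u s) (s + α * 0) := by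
    rw [mul_zero, add_zero]
    exact (u.geoAt s).hasDerivAt (mem_extChartAt_source _)
  exact h1.scomp (0 : ℝ) (zi8_aff s α)

theorem zi8_Fc (u : UG g) (s α : ℝ) (w : E) :
    HasDerivAt (fun r : ℝ => zi8_F u s w (s + α * r)) (deriv (zi8_F u s w) s * α) 0 := by
  have h1 : HasDerivAt (zi8_F u s w) (deriv (zi8_F u s w) s) (s + α * 0) := by
    rw [mul_zero, add_zero]
    exact zi8_F_has u s w
  exact h1.comp (0 : ℝ) (zi8_aff s α)

theorem zi8_src (u : UG g) (s α : ℝ) :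
    ∀ᶠ r in 𝓝 (0 : ℝ), u.1 (s + α * r) ∈ (κ E (u.1 s)).source := by
  have hc : Continuous fun r : ℝ => u.1 (s + α * r) := by fun_prop
  refine hc.continuousAt.preimage_mem_nhds ((source_open _).mem_nhds ?_)
  rw [mul_zero, add_zero]
  exact mem_extChartAt_source _

/-- the tangential directions -/
theorem Bq_tan (h : SMd sh dist a) (u : UG g) : ∃ c : ℝ → E → ℝ, (∀ s, c s 0 = 0) ∧
    ∀ s t α β : ℝ, s < t → t - s < a → ∀ v w : E,
      Bq sh u s t (α • tv u s, β • tv u t) (v, w) =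
        2 * (β - α) / (t - s) * (gt u t (tv u t) w - gt u s (tv u s) v) +
          2 * (β * c t w - α * c s v) := by
  refine ⟨fun s w => deriv (zi8_F u s w) s, fun s => ?_, fun s t α β hst hlt v w => ?_⟩
  · have : zi8_F u s 0 = fun _ => 0 := funext fun r => by simp [zi8_F]
    simp [this]
  have habs : |t - s| < a := by rw [abs_of_pos (by linarith)]; exact hlt
  have hc := (zi8_curve u s α).prodMk (zi8_curve u t β)
  have h1 := Bq_has h u habs hc (by simp [bp]) (v, w)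
  have hen : energy g u.1 0 = 1 := u.2.2 0
  have hε : ∀ᶠ r in 𝓝 (0 : ℝ), ((t + β * r) - (s + α * r)) ^ 2 * energy g u.1 0 < sh.ε := by
    have hc : Continuous fun r : ℝ => ((t + β * r) - (s + α * r)) ^ 2 * energy g u.1 0 := by
      fun_prop
    refine hc.continuousAt.eventually_lt continuousAt_const ?_
    have := h.le
    simp only [mul_zero, add_zero, hen, mul_one]
    nlinarith
  have h2 : (fun r => fderiv ℝ (Sq sh u s t)
      (κ E (u.1 s) (u.1 (s + α * r)), κ E (u.1 t) (u.1 (t + β * r))) (v, w)) =ᶠ[𝓝 0]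
      fun r => 2 * ((t + β * r) - (s + α * r)) *
        (zi8_F u t w (t + β * r) - zi8_F u s v (s + α * r)) / (t - s) := by
    filter_upwards [hε, zi8_src u s α, zi8_src u t β] with r e1 e2 e3
    obtain ⟨m1, m2⟩ := Sc_geo (sh := sh) u.2.1 e1 e2 e3
    rw [Sq_fderiv u m1, m2]
    rfl
  have h3 := ((((zi8_aff t β).sub (zi8_aff s α)).const_mul 2).mul
    ((zi8_Fc u t β w).sub (zi8_Fc u s α v))).div_const (t - s)
  have h4 := h1.unique (h3.congr_of_eventuallyEq h2)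
  rw [h4]
  have e1 : zi8_F u t w t = gt u t (tv u t) w := rfl
  have e2 : zi8_F u s v s = gt u s (tv u s) v := rfl
  have hne : t - s ≠ 0 := by linarith
  simp only [Pi.sub_apply, mul_zero, add_zero, e1, e2]
  field_simp



/-- the tangential field with a peak at the time `P` -/
theorem tent (h : SMd sh dist a) (u : UG g) {P l : ℝ} {k k' : ℕ} {t t' : ℕ → ℝ}
    (ht : Part a P k t) (ht' : Part a l k' t') : ∃ X ∈ Vk E (k + k'), X k = tv u P ∧
      ∀ w ∈ Vk E (k + k'), Qf sh u (k + k') (ctp k P t t') X w =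
        2 * (1 / P + 1 / l) * gt u P (tv u P) (w k) := by
  obtain ⟨c, c0, hc⟩ := Bq_tan h u
  have hP := ht.pos
  have hl := ht'.pos
  have hT := ht.ctp ht'
  obtain ⟨θ, hθ⟩ : ∃ θ : ℕ → ℝ, ∀ j, θ j =
      if j ≤ k then t j / P else if j ≤ k + k' then (l - t' (j - k)) / l else 0 := ⟨_, fun _ => rfl⟩
  have T1 : ∀ j ≤ k, ctp k P t t' j = t j := by
    intro j hj
    unfold ctp
    split_ifs with h1
    · rfl
    · have : j = k := by omega
      rw [this, Nat.sub_self, ht'.2.1, ht.2.2.1, zero_add]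
  have T2 : ∀ j, ctp k P t t' (k + j) = t' j + P := by
    intro j
    unfold ctp
    rw [if_neg (by omega), Nat.add_sub_cancel_left]
  have θ1 : ∀ j ≤ k, θ j = t j / P := fun j hj => by rw [hθ, if_pos hj]
  have θ2 : ∀ j ≤ k', θ (k + j) = (l - t' j) / l := by
    intro j hj
    rw [hθ]
    split_ifs with h1 h2
    · have : j = 0 := by omega
      rw [this, add_zero, ht.2.2.1, ht'.2.1, sub_zero, div_self hP.ne', div_self hl.ne']
    · rw [Nat.add_sub_cancel_left]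
    · omega
  have Tk : ctp k P t t' k = P := by rw [T1 k le_rfl, ht.2.2.1]
  refine ⟨fun j => θ j • tv u (ctp k P t t' j), ⟨?_, fun j hj => ?_⟩, ?_, fun w hw => ?_⟩
  · show θ 0 • _ = 0
    rw [θ1 0 (Nat.zero_le _), ht.2.1, zero_div, zero_smul]
  · show θ j • _ = 0
    have : θ j = 0 := by
      rcases hj.eq_or_lt with e | e
      · rw [← e, θ2 k' le_rfl, ht'.2.2.1, sub_self, zero_div]
      · rw [hθ, if_neg (by omega), if_neg (by omega)]
    rw [this, zero_smul]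
  · show θ k • tv u (ctp k P t t' k) = _
    rw [θ1 k le_rfl, Tk, ht.2.2.1, div_self hP.ne', one_smul]
  obtain ⟨A, hA⟩ : ∃ A : ℕ → ℝ, ∀ j, A j =
      gt u (ctp k P t t' j) (tv u (ctp k P t t' j)) (w j) := ⟨_, fun _ => rfl⟩
  obtain ⟨C, hC⟩ : ∃ C : ℕ → ℝ, ∀ j, C j = θ j * c (ctp k P t t' j) (w j) := ⟨_, fun _ => rfl⟩
  have key : ∀ j ∈ Finset.range (k + k'), Bq sh u (ctp k P t t' j) (ctp k P t t' (j + 1))
      (θ j • tv u (ctp k P t t' j), θ (j + 1) • tv u (ctp k P t t' (j + 1))) (w j, w (j + 1)) =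
      2 * (θ (j + 1) - θ j) / (ctp k P t t' (j + 1) - ctp k P t t' j) * (A (j + 1) - A j) +
        2 * (C (j + 1) - C j) := by
    intro j hj
    obtain ⟨h1, h2⟩ := hT.2.2.2 j (Finset.mem_range.1 hj)
    rw [hc _ _ _ _ h1 h2, hA, hA, hC, hC]
  have s1 : ∀ j ∈ Finset.range k,
      2 * (θ (j + 1) - θ j) / (ctp k P t t' (j + 1) - ctp k P t t' j) * (A (j + 1) - A j) =
        2 / P * (A (j + 1) - A j) := by
    intro j hj
    have hj' := Finset.mem_range.1 hj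
    have h1 : t (j + 1) - t j ≠ 0 := by linarith [(ht.2.2.2 j hj').1]
    rw [θ1 _ hj', θ1 _ hj'.le, T1 _ hj', T1 _ hj'.le]
    field_simp
  have s2 : ∀ j ∈ Finset.range k',
      2 * (θ (k + j + 1) - θ (k + j)) / (ctp k P t t' (k + j + 1) - ctp k P t t' (k + j)) *
        (A (k + j + 1) - A (k + j)) = -(2 / l) * (A (k + (j + 1)) - A (k + j)) := by
    intro j hj
    have hj' := Finset.mem_range.1 hj
    have h1 : t' (j + 1) - t' j ≠ 0 := by linarith [(ht'.2.2.2 j hj').1]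
    rw [add_assoc, θ2 _ hj', θ2 _ hj'.le, T2, T2, add_sub_add_right_eq_sub]
    field_simp
    ring
  have A0 : A 0 = 0 := by rw [hA, hw.1, map_zero]
  have A1 : A (k + k') = 0 := by rw [hA, hw.2 _ le_rfl, map_zero]
  have C0 : C 0 = 0 := by rw [hC, hw.1, c0, mul_zero]
  have C1 : C (k + k') = 0 := by rw [hC, hw.2 _ le_rfl, c0, mul_zero]
  unfold Qf
  rw [Finset.sum_congr rfl key, Finset.sum_add_distrib, ← Finset.mul_sum, Finset.sum_range_sub,
    Finset.sum_range_add, Finset.sum_congr rfl s1, Finset.sum_congr rfl s2, ← Finset.mul_sum,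
    ← Finset.mul_sum, Finset.sum_range_sub, Finset.sum_range_sub (fun j => A (k + j)), A0, A1,
    C0, C1, add_zero, hA, Tk]
  ring

end Pool.Agent.Fu
end

-- part Pool.Agent.P.MP_365c00_gt.ZQ3
section

/-! Multiplication by the class of a long closed geodesic: one critical level. -/

set_option linter.unusedSectionVars false
set_option linter.unusedVariables false

open Set Topology Filter Metric

namespace Pool.Agent.Fu

variable {F : Type} [Field F] {M : Type} [MetricSpace M] {Z : Type} [TopologicalSpace Z]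

namespace GD
variable {D : GD M} {x y : M} {τ : ℝ} {N : ℕ} {w : D.G × ℝ}

theorem zq3_iso_mono {l r r' : ℝ} (h : D.Iso x y l r) (hr : r' ≤ r) : D.Iso x y l r' :=
  fun v hv h1 => h v hv (h1.trans hr)

theorem zq3_dist {u : D.G} {δ : ℝ} (h0 : D.ev u 0 = x) (hδ : 0 < δ) (hδa : δ < D.a) :
    dist x (D.ev u δ) = δ := by
  have e : |0 - δ| = δ := by rw [zero_sub, abs_neg, abs_of_pos hδ]
  rw [← h0, D.dist_ev u 0 δ (by rw [e]; exact hδa), e]

theorem zq3_win {l r b c : ℝ} (h : D.Iso x y l r) (hb : l - r ≤ b) (hc : c ≤ l + r) :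
    ∀ v ∈ D.J x y, v.2 < b ∨ v.2 = l ∨ c ≤ v.2 := by
  intro v hv
  by_cases h1 : v.2 < b
  · exact Or.inl h1
  by_cases h2 : c ≤ v.2
  · exact Or.inr (Or.inr h2)
  refine Or.inr (Or.inl (h v hv ?_))
  rw [abs_le]
  constructor <;> linarith [not_lt.1 h1, not_le.1 h2]

theorem MT.prd (hM : D.MT F) (hτ : 0 < τ) (h : D.Per τ N x y) (hw : w ∈ D.J x y) {δ γ : ℝ}
    (hδ : 0 < δ) (hδa : 4 * δ < D.a) (hγ : 10 * δ ≤ γ) (hγw : γ ≤ w.2) (hi : D.Iso x y w.2 γ)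
    (h1 : D.Per τ N x (D.ev w.1 δ)) (h2 : D.Reg (D.ev w.1 δ) y)
    (hs : ∀ v ∈ D.J (D.ev w.1 δ) y, |v.2 - w.2| ≤ 5 * δ → v.2 = w.2 - δ) {c : Ch F (Mo M)}
    (hc : Top F D τ N x (D.ev w.1 δ) c) :
    ∃ g ∈ ZZ F (Om x y (w.2 + δ)) (Om x y (w.2 - 4 * δ)),
      mul (mp (D.wh x x) c) g ∉ NN F (Om x y (N * τ + w.2 + γ)) (Om x y (N * τ + w.2)) := by
  obtain ⟨u, l⟩ := w
  simp only at hγw hi h1 h2 hs hc ⊢
  have ha := D.a_pos
  have hw0 : D.ev u 0 = x := hw.2.1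
  have hw1 : D.ev u l = y := hw.2.2
  have hd : dist x (D.ev u δ) = δ := zq3_dist hw0 hδ (by linarith)
  have hd' : dist (D.ev u δ) x = δ := by rw [dist_comm, hd]
  have hJ : (D.sh δ u, l - δ) ∈ D.J (D.ev u δ) y := by
    refine ⟨show 0 < l - δ by linarith, ?_, ?_⟩
    · show D.ev (D.sh δ u) 0 = _
      rw [D.ev_sh, zero_add]
    · show D.ev (D.sh δ u) (l - δ) = _
      rw [D.ev_sh, sub_add_cancel, hw1]
  have hind : D.ind (D.sh δ u) (l - δ) = D.ind u l := by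
    obtain ⟨v, hv, e1, e2⟩ := hM.tr h.1 h2 (by rw [hd']; linarith) (by rw [dist_self]; linarith) hw
      (r := 2 * δ) (by rw [hd', dist_self]; linarith) (zq3_iso_mono hi (by linarith))
    have e3 : v.2 = l - δ := hs v hv (e2.trans (by linarith))
    have e4 := h2.2.2.1 v hv _ hJ e3
    rw [e4] at e1
    exact e1
  have hv : ∀ v ∈ D.J (D.ev u δ) y, v.2 < l - 5 * δ ∨ v.2 = l - δ ∨ l ≤ v.2 := by
    intro v hv
    by_cases q1 : v.2 < l - 5 * δ
    · exact Or.inl q1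
    by_cases q2 : l ≤ v.2
    · exact Or.inr (Or.inr q2)
    refine Or.inr (Or.inl (hs v hv ?_))
    rw [abs_le]
    constructor <;> linarith [not_lt.1 q1, not_le.1 q2]
  obtain ⟨g, gz, -, gn, -⟩ := hM.gen_win h2 hJ (b := l - 5 * δ) (c := l)
    (show l - 5 * δ ≤ l - δ by linarith) (show l - δ < l by linarith) hv
  simp only at gz gn
  have hJ0 : (u, δ) ∈ D.J x (D.ev u δ) := ⟨hδ, hw0, rfl⟩
  have hJ1 : (u, N * τ + δ) ∈ D.J x (D.ev u δ) := by
    have := h1.add hτ hJ0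
    simp only at this
    rwa [add_comm] at this
  have hper : Function.Periodic (D.ev u) (N * τ) := (h.2 _ hw).1
  have hsh : D.sh (N * τ + δ) u = D.sh δ u := by
    refine D.ext _ _ (funext fun s => ?_)
    rw [D.ev_sh, D.ev_sh, show s + (N * τ + δ) = s + δ + N * τ by ring, hper]
  have hsum : N * τ + δ + (l - δ) = N * τ + l := by ring
  have hi3 : D.ind u (N * τ + δ + (l - δ)) =
      D.ind u (N * τ + δ) + D.ind (D.sh (N * τ + δ) u) (l - δ) := by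
    have e1 : D.ind u (l + N * τ) = D.ind u l + N := (h.2 _ hw).2.1
    have e2 : D.ind u (δ + N * τ) = D.ind u δ + N := (h1.2 _ hJ0).2.1
    rw [hsh, hind, hsum, add_comm (N * τ) l, e1, add_comm (N * τ) δ, e2,
      ind_short u hδ (by linarith)]
    ring
  have i1 : D.Iso x (D.ev u δ) (N * τ + δ) (δ / 2) := by
    refine h1.iso hτ (by linarith) fun v hv q => ?_
    rw [J_short hv (by linarith [(abs_le.1 q).2]), hd]
  have i2 : D.Iso (D.ev u δ) y (l - δ) (δ / 2) := by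
    intro v hv q
    refine hs v hv ?_
    rw [abs_le] at q ⊢
    constructor <;> linarith [q.1, q.2]
  have i3 : ∀ v ∈ D.J x y, v.2 ≤ N * τ + δ + (l - δ) ∨ N * τ + l + γ ≤ v.2 := by
    intro v hv
    rw [hsum]
    rcases zq3_win (h.iso hτ hγw hi) (b := N * τ + l - γ) (c := N * τ + l + γ) le_rfl le_rfl v hv
      with q | q | q
    · exact Or.inl (by linarith)
    · exact Or.inl q.le
    · exact Or.inr q
  have cz : ∀ t, N * τ + δ < t → c ∈ ZZ F (Om x (D.ev u δ) t) ∅ := fun t ht =>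
    ZZ_mono (Omc_sub_Om _ _ (by rw [hd]; exact ht)) subset_rfl hc.zz
  have key := hM.prod h1.1 h2 h.1 hJ1 (by rw [hsh]; exact hJ) hi3 (ε := δ / 2)
    (c := N * τ + l + γ) (by linarith) i1 i2 (by linarith) i3 (c1 := c) (c2 := g)
    (ZZ_mono subset_rfl (empty_subset _) (cz _ (by linarith)))
    (ZZ_mono (Omc_sub_Om _ _ (by linarith)) (Om_mono _ _ (by linarith)) gz)
    (by
      have := hc.ne (δ + δ / 2) (by linarith)
      rwa [hd, ← add_assoc] at this)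
    (fun q => gn (NN_mono (Om_mono _ _ (by linarith)) subset_rfl q))
  rw [hsum] at key
  have gz' : g ∈ ZZ F (Om (D.ev u δ) y l) (Om (D.ev u δ) y (l - 5 * δ)) :=
    ZZ_mono (Omc_sub_Om _ _ (by linarith)) subset_rfl gz
  refine ⟨mp (D.wh x y) g, D.toGS.wh_ZZ (by rw [hd]; linarith) (by rw [dist_self]; exact ha)
    (by rw [hd, dist_self]; linarith) (by rw [hd, dist_self]; linarith) gz', fun q => key ?_⟩
  have hm := D.toGS.wh_mul (x := x) (y := D.ev u δ) (z := y) (x' := x) (y' := x) (z' := y)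
    (by rw [dist_self]; exact ha) (by rw [hd']; linarith) (by rw [dist_self]; exact ha)
    (s := N * τ + 2 * δ) (r := N * τ + l + γ) (r' := N * τ + l)
    (by rw [hd', dist_self, dist_self]; linarith) (by rw [hd', dist_self, dist_self]; linarith)
    (cz _ (by linarith)) gz'
  have hP : mul c g ∈ CC F (Pa x y) :=
    mul_mem_CC (fun α hα β hβ => cat_mem hα.1 hβ.1) (mem_ZZ.1 (cz (N * τ + 2 * δ) (by linarith))).1
      (mem_ZZ.1 gz').1
  rw [D.toGS.mp_wh_self hP] at hm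
  have := sub_mem q hm
  rwa [sub_sub_cancel] at this

theorem zq3_cyc {p : M} {δ : ℝ} (hd : dist x p = δ) (hδ : 0 < δ) (hδa : δ < D.a)
    {c : Ch F (Mo M)} (hc : Top F D τ N x p c) :
    mp (D.wh x x) c ∈ ZZ F (Om x x (N * τ + 3 * δ)) ∅ :=
  D.toGS.wh_cyc (x := x) (y := p) (t := N * τ + 2 * δ) (by rw [dist_self]; exact D.a_pos)
    (by rw [dist_comm, hd]; exact hδa) (by rw [dist_self, dist_comm, hd]; linarith)
    (ZZ_mono (Omc_sub_Om _ _ (by rw [hd]; linarith)) subset_rfl hc.zz)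

theorem zq3_cmp {p q : M} {δ δ' : ℝ} (hd : dist x p = δ) (hδ : 0 < δ) (hδa : 8 * δ < D.a)
    (hd' : dist x q = δ') (hδ' : 0 < δ') (hδa' : 8 * δ' < D.a) {c c' : Ch F (Mo M)}
    (hc : Top F D τ N x p c) (hc' : Top F D τ N x q c') :
    ∃ μ : F, mp (D.wh x x) c - μ • mp (D.wh x x) c' ∈ BB F (Om x x (N * τ + (3 * δ + 3 * δ'))) := by
  have ha := D.a_pos
  have e1 := zq3_cyc hd hδ (by linarith) hc
  have e2 : mp (D.wh x q) (mp (D.wh x x) c) ∈ ZZ F (Om x q (N * τ + (3 * δ + 2 * δ'))) ∅ :=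
    D.toGS.wh_cyc (by rw [dist_self]; exact ha) (by rw [hd']; linarith)
      (by rw [dist_self, hd']; linarith) e1
  obtain ⟨μ, hμ⟩ := hc'.span (3 * δ + 2 * δ') (by rw [hd']; linarith) (by linarith) _ e2
    (mp_mem_HD _ (mp_mem_HD _ hc.hd))
  have e3 := D.toGS.wh_BB (x' := x) (y' := x) (r := N * τ + (3 * δ + 3 * δ'))
    (by rw [dist_self]; exact ha) (by rw [dist_comm, hd']; linarith)
    (by rw [dist_self, dist_comm, hd']; linarith) hμ
  have e4 := D.toGS.wh_back_cyc (x' := x) (y' := q) (r := N * τ + (3 * δ + 3 * δ'))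
    (by rw [dist_self]; linarith) (by rw [hd']; linarith)
    (by rw [dist_self, hd']; linarith) e1
  rw [map_sub, map_smul] at e3
  refine ⟨μ, ?_⟩
  have := sub_mem e3 e4
  rwa [sub_sub_sub_cancel_left] at this

theorem MT.mu1 (hM : D.MT F) (hD : D.DN τ) (h : D.Good τ x y) (L : ℝ) {ε : ℝ} (hε : 0 < ε)
    {K : ℕ} (hK : 0 < K) :
    ∃ (N : ℕ) (γ : ℝ) (e : Ch F (Mo M)), 0 < N ∧ K ∣ N ∧ Even N ∧ D.Per τ N x y ∧ 0 < γ ∧ γ ≤ ε ∧
      e ∈ ZZ F (Om x x (N * τ + γ / 4)) ∅ ∧ e ∈ HD F _ N ∧ ∀ w ∈ D.J x y, w.2 ≤ L → γ ≤ w.2 ∧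
        D.Iso x y w.2 γ ∧ ∃ g ∈ ZZ F (Omc x y w.2) (Om x y (w.2 - γ)),
          mul e g ∉ NN F (Om x y (N * τ + w.2 + γ)) (Om x y (N * τ + w.2)) := by
  classical
  have hτ := hD.pos
  have ha := D.a_pos
  obtain ⟨m, hm, hP⟩ := h.1
  obtain ⟨γ0, hγ0, hiso0⟩ := hP.1.iso L
  obtain ⟨γ, hγ, hγε, hiso⟩ : ∃ γ, 0 < γ ∧ γ ≤ ε ∧
      ∀ w ∈ D.J x y, w.2 ≤ L → γ ≤ w.2 ∧ D.Iso x y w.2 γ :=
    ⟨min γ0 ε, lt_min hγ0 hε, min_le_right _ _, fun w hw hl =>
      ⟨(min_le_left _ _).trans (hiso0 w hw hl).1, zq3_iso_mono (hiso0 w hw hl).2 (min_le_left _ _)⟩⟩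
  have hch : ∀ w : D.G × ℝ, ∃ (δ : ℝ) (n : ℕ), 0 < n ∧ (w ∈ D.J x y → 0 < δ ∧ 40 * δ < γ ∧
      8 * δ < D.a ∧ D.Per τ n x (D.ev w.1 δ) ∧ D.Reg (D.ev w.1 δ) y ∧
      ∀ v ∈ D.J (D.ev w.1 δ) y, |v.2 - w.2| ≤ 5 * δ → v.2 = w.2 - δ) := by
    intro w
    by_cases hw : w ∈ D.J x y
    · obtain ⟨δ0, hδ0, hst⟩ := hD.st x y hP.1 w hw
      obtain ⟨δ, hδ, ⟨n, hn, p1⟩, ⟨n', hn', p2⟩⟩ := h.2 w hw (min δ0 (min (γ / 40) (D.a / 8)))
        (lt_min hδ0 (lt_min (by linarith) (by linarith)))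
      have q := hδ.2
      rw [lt_min_iff, lt_min_iff] at q
      exact ⟨δ, n, hn, fun _ => ⟨hδ.1, by linarith [q.2.1], by linarith [q.2.2], p1, p2.1,
        hst δ ⟨hδ.1, q.1⟩⟩⟩
    · exact ⟨0, 1, one_pos, fun q => (hw q).elim⟩
  choose δ n hn hδ using hch
  have hfin := hP.1.2.2.2 L
  obtain ⟨N, hN, hKN, hE, hmN, hnN⟩ : ∃ N : ℕ, 0 < N ∧ K ∣ N ∧ Even N ∧ m ∣ N ∧
      ∀ w ∈ D.J x y, w.2 ≤ L → n w ∣ N := by
    refine ⟨2 * (K * (m * ∏ w ∈ hfin.toFinset, n w)), ?_, ?_, even_two_mul _, ?_, ?_⟩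
    · exact Nat.mul_pos two_pos (Nat.mul_pos hK (Nat.mul_pos hm (Finset.prod_pos fun w _ => hn w)))
    · exact Dvd.dvd.mul_left (dvd_mul_right _ _) _
    · exact Dvd.dvd.mul_left (Dvd.dvd.mul_left (dvd_mul_right _ _) _) _
    · intro w hw hl
      exact Dvd.dvd.mul_left (Dvd.dvd.mul_left (Dvd.dvd.mul_left
        (Finset.dvd_prod_of_mem _ (hfin.mem_toFinset.2 ⟨hw, hl⟩)) _) _) _
  have hPN : D.Per τ N x y := hP.dvd hτ hm hN hmN
  by_cases hW : ∃ w ∈ D.J x y, w.2 ≤ L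
  swap
  · exact ⟨N, γ, 0, hN, hKN, hE, hPN, hγ, hγε, zero_mem _, zero_mem _,
      fun w hw hl => (hW ⟨w, hw, hl⟩).elim⟩
  obtain ⟨w1, hw1, hl1⟩ := hW
  have hdist : ∀ w ∈ D.J x y, dist x (D.ev w.1 (δ w)) = δ w := fun w hw =>
    zq3_dist hw.2.1 (hδ w hw).1 (by linarith [(hδ w hw).1, (hδ w hw).2.2.1])
  have hper : ∀ w ∈ D.J x y, w.2 ≤ L → D.Per τ N x (D.ev w.1 (δ w)) := fun w hw hl =>
    (hδ w hw).2.2.2.1.dvd hτ (hn w) hN (hnN w hw hl)
  have htop : ∀ w ∈ D.J x y, w.2 ≤ L → ∃ c, Top F D τ N x (D.ev w.1 (δ w)) c := fun w hw hl =>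
    hM.one hτ hN (hper w hw hl) (by
      rw [hdist w hw]
      linarith [(hδ w hw).1, (hδ w hw).2.2.1])
  obtain ⟨c1, hc1⟩ := htop w1 hw1 hl1
  obtain ⟨p1, p2, p3, -⟩ := hδ w1 hw1
  refine ⟨N, γ, mp (D.wh x x) c1, hN, hKN, hE, hPN, hγ, hγε,
    ZZ_mono (Om_mono _ _ (by linarith)) subset_rfl (zq3_cyc (hdist w1 hw1) p1 (by linarith) hc1),
    mp_mem_HD _ hc1.hd, fun w hw hl => ⟨(hiso w hw hl).1, (hiso w hw hl).2, ?_⟩⟩
  obtain ⟨c, hc⟩ := htop w hw hl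
  obtain ⟨q1, q2, q3, -, q5, q6⟩ := hδ w hw
  obtain ⟨i1, i2⟩ := hiso w hw hl
  obtain ⟨g, gz, gn⟩ := hM.prd hτ hPN hw q1 (by linarith) (γ := γ) (by linarith) i1 i2
    (hper w hw hl) q5 q6 hc
  obtain ⟨μ, hμ⟩ := zq3_cmp (hdist w hw) q1 q3 (hdist w1 hw1) p1 p3 hc hc1
  obtain ⟨g0, z0, -, n0, -⟩ := hM.gen_win hP.1 hw (b := w.2 - γ) (c := w.2 + δ w) (by linarith)
    (by linarith) (zq3_win i2 le_rfl (by linarith))
  obtain ⟨G, -, -, -, sp⟩ := hM.gen_win hP.1 hw (b := w.2 - 4 * δ w) (c := w.2 + δ w) (by linarith)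
    (by linarith) (zq3_win i2 (by linarith) (by linarith))
  have z0' : g0 ∈ ZZ F (Om x y (w.2 + δ w)) (Om x y (w.2 - γ)) :=
    ZZ_mono (Omc_sub_Om _ _ (by linarith)) subset_rfl z0
  obtain ⟨r, hr⟩ := sp g gz
  obtain ⟨r0, hr0⟩ := sp g0 (ZZ_mono subset_rfl (Om_mono _ _ (by linarith)) z0')
  have hne : r0 ≠ 0 := by
    rintro rfl
    rw [zero_smul, sub_zero] at hr0
    exact n0 (NN_mono subset_rfl (Om_mono _ _ (by linarith)) hr0)
  have hgg : g - (r / r0) • g0 ∈ NN F (Om x y (w.2 + δ w)) (Om x y (w.2 - 4 * δ w)) := by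
    have := sub_mem hr (Submodule.smul_mem _ (r / r0) hr0)
    rwa [smul_sub, smul_smul, div_mul_cancel₀ _ hne, sub_sub_sub_cancel_right] at this
  refine ⟨g0, z0, fun q => gn ?_⟩
  have m1 : mul (mp (D.wh x x) c) (g - (r / r0) • g0) ∈
      NN F (Om x y (N * τ + w.2 + γ)) (Om x y (N * τ + w.2)) :=
    NN_mono (Om_mono _ _ (by linarith)) (Om_mono _ _ (by linarith))
      (mul_cyc_NN (by linarith) (zq3_cyc (hdist w hw) q1 (by linarith) hc) hgg)
  have m2 : mul (mp (D.wh x x) c - μ • mp (D.wh x x) c1) g0 ∈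
      NN F (Om x y (N * τ + w.2 + γ)) (Om x y (N * τ + w.2)) :=
    NN_mono (Om_mono _ _ (by linarith)) (Om_mono _ _ (by linarith)) (mul_BB_ZZ hμ z0')
  rw [map_sub, map_smul] at m1
  rw [map_sub, map_smul, LinearMap.sub_apply, LinearMap.smul_apply] at m2
  have m3 := add_mem m2 (Submodule.smul_mem _ μ q)
  rw [sub_add_cancel] at m3
  have m4 := add_mem m1 (Submodule.smul_mem _ (r / r0) m3)
  rwa [sub_add_cancel] at m4

end GD

end Pool.Agent.Fu
end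

-- part Pool.Agent.P.MP_365c00_gt.ZQ7a
section

/-! Closed short geodesics persist, with the same mean index. -/

set_option linter.unusedSectionVars false
set_option linter.unusedVariables false

open Set Topology Filter Metric

namespace Pool.Agent.Fu

variable {F : Type} [Field F] {M : Type} [MetricSpace M] {Z : Type} [TopologicalSpace Z]

/-- simultaneous approximation -/
theorem dirichlet {ι : Type} {U : Set ι} (hU : U.Finite) (P : ι → ℝ) (hP : ∀ i ∈ U, 0 < P i)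
    {P0 ε : ℝ} (h0 : 0 < P0) (hε : 0 < ε) (L : ℝ) :
    ∃ k : ℕ, 0 < k ∧ L < k * P0 ∧ ∀ i ∈ U, ∃ j : ℕ, |k * P0 - j * P i| < ε := by
  induction U, hU using Set.Finite.induction_on generalizing ε with
  | empty =>
    obtain ⟨k, hk⟩ := exists_nat_gt (max (L / P0) 0)
    refine ⟨k, by exact_mod_cast (le_max_right _ _).trans_lt hk, ?_, fun i hi => hi.elim⟩
    exact (div_lt_iff₀ h0).1 ((le_max_left _ _).trans_lt hk)
  | @insert a U ha hU ih =>
    have hPa : 0 < P a := hP a (mem_insert _ _)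
    obtain ⟨n, hn⟩ := exists_nat_gt (P a / ε)
    have hn0 : (0 : ℝ) < n := (div_pos hPa hε).trans hn
    obtain ⟨k0, hk0, hL, hj⟩ := ih (fun i hi => hP i (mem_insert_of_mem _ hi)) (div_pos hε hn0)
    obtain ⟨k, hk, hkn, hr⟩ := Real.exists_nat_abs_mul_sub_round_le (k0 * P0 / P a)
      (show 0 < n by exact_mod_cast hn0)
    have hk1 : (1 : ℝ) ≤ k := by exact_mod_cast hk
    have hkn' : (k : ℝ) ≤ n := by exact_mod_cast hkn
    have hk0' : (0 : ℝ) < k0 * P0 := mul_pos (by exact_mod_cast hk0) h0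
    refine ⟨k * k0, Nat.mul_pos hk hk0, ?_, ?_⟩
    · push_cast
      nlinarith
    · rintro i (rfl | hi)
      · have h1 : 0 ≤ round ((k : ℝ) * (k0 * P0 / P i)) := by
          rw [round_eq]
          exact Int.floor_nonneg.2 (by positivity)
        obtain ⟨j, hj⟩ := Int.eq_ofNat_of_zero_le h1
        refine ⟨j, ?_⟩
        rw [hj, Int.cast_natCast] at hr
        have h2 : ((k * k0 : ℕ) : ℝ) * P0 - j * P i = (k * (k0 * P0 / P i) - j) * P i := by
          push_cast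
          field_simp
        rw [h2, abs_mul, abs_of_pos hPa]
        have h3 := mul_le_mul_of_nonneg_right hr hPa.le
        refine h3.trans_lt ?_
        rw [div_lt_iff₀ hε] at hn
        rw [one_div, inv_mul_lt_iff₀ (by positivity)]
        nlinarith
      · obtain ⟨j, hj⟩ := hj i hi
        refine ⟨k * j, ?_⟩
        have h2 : ((k * k0 : ℕ) : ℝ) * P0 - ((k * j : ℕ) : ℝ) * P i = k * (k0 * P0 - j * P i) := by
          push_cast
          ring
        rw [h2, abs_mul, abs_of_pos (by linarith : (0 : ℝ) < k)]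
        rw [lt_div_iff₀ hn0] at hj
        nlinarith [abs_nonneg (k0 * P0 - j * P i)]

namespace GD
variable {D : GD M} {x y x' y' : M}

theorem zq7a_mem {u : D.G} {P l : ℝ} (hP : 0 < P) (hp : Function.Periodic (D.ev u) P)
    (hw : (u, l) ∈ D.J x y) (k : ℕ) : (u, l + k * P) ∈ D.J x y := by
  obtain ⟨h0, h1, h2⟩ := hw
  refine ⟨add_pos_of_pos_of_nonneg h0 (by positivity), h1, ?_⟩
  exact (hp.nat_mul k l).trans h2

theorem zq7a_id {u : D.G} {v : D.G × ℝ} {Q : ℝ} (hp : Function.Periodic (D.ev v.1) Q)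
    (hv : v ∈ D.J x y) (hu : (u, dist x y) ∈ D.J x y) (j : ℕ) (h0 : 0 < v.2 - j * Q)
    (h1 : v.2 - j * Q < D.a) : v.1 = u ∧ v.2 = dist x y + j * Q := by
  have h2 : D.ev v.1 (v.2 - j * Q) = y := ((hp.nat_mul j).sub_eq v.2).trans hv.2.2
  have h3 : v.2 - j * Q = dist x y := J_short (w := (v.1, v.2 - j * Q)) ⟨h0, hv.2.1, h2⟩ h1
  refine ⟨D.uniq _ _ _ h0 h1 (hv.2.1.trans hu.2.1.symm) ?_, by linarith⟩
  rw [h2, h3]
  exact hu.2.2.symm

theorem FP.iter {u : D.G} {P l : ℝ} {m : ℕ} (h : D.FP u P m) (hr : D.Reg x y)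
    (hw : (u, l) ∈ D.J x y) (k : ℕ) :
    (u, l + k * P) ∈ D.J x y ∧ D.ind u (l + k * P) = D.ind u l + k * m := by
  refine ⟨zq7a_mem h.1 h.2.1 hw k, ?_⟩
  induction k with
  | zero => simp
  | succ k ih =>
    have h1 := zq7a_mem h.1 h.2.1 hw k
    have h2 := zq7a_mem h.1 h.2.1 hw (k + 1)
    have e : l + ((k + 1 : ℕ) : ℝ) * P = l + k * P + P := by
      push_cast
      ring
    rw [e] at h2 ⊢
    rw [h.2.2.1 _ h1.1 (hr.2.1 _ h2), ih]
    ring

theorem Fin0.fp (h : D.Fin0 x y) {u : D.G} {l P : ℝ} (hw : (u, l) ∈ D.J x y) (hP : 0 < P)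
    (hp : Function.Periodic (D.ev u) P) : ∃ P' m, D.FP u P' m := by
  obtain ⟨-, L, U, -, hU, hL⟩ := h
  obtain ⟨k, hk⟩ := exists_nat_gt (L / P)
  rw [div_lt_iff₀ hP] at hk
  exact hU u (hL _ (zq7a_mem hP hp hw k) (lt_add_of_pos_of_lt hw.1 hk))

theorem MT.near (hM : D.MT F) (h : D.Fin0 x y) (h' : D.Fin0 x' y') (hd : dist x y < D.a / 8)
    (hd' : dist x' y' < D.a / 8) (hn : dist x' x + dist y y' < dist x y / 4) {u u' : D.G}
    (hu : (u, dist x y) ∈ D.J x y) (hu' : (u', dist x' y') ∈ D.J x' y') {P : ℝ} {m : ℕ}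
    (hf : D.FP u P m) : ∃ m' : ℕ, D.FP u' (m' * (P / m)) m' := by
  obtain ⟨hr, L, U, hU, hF, hL⟩ := h
  obtain ⟨hr', L', U', hU', hF', hL'⟩ := h'
  have hex : ∀ v : D.G, ∃ (Q : ℝ) (n : ℕ), v ∈ U ∪ U' → D.FP v Q n := fun v => by
    by_cases hv : v ∈ U ∪ U'
    · obtain ⟨Q, n, hq⟩ : ∃ Q n, D.FP v Q n := hv.elim (hF v) (hF' v)
      exact ⟨Q, n, fun _ => hq⟩
    · exact ⟨0, 0, fun h => absurd h hv⟩
  choose Q n hQ using hex
  have he : 0 < dist x y := hu.1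
  have ha := D.a_pos
  have d1 : 0 ≤ dist x' x := dist_nonneg
  have d2 : 0 ≤ dist y y' := dist_nonneg
  have key : ∀ ε : ℝ, 0 < ε → ε ≤ dist x y / 3 → u' ∈ U ∪ U' ∧
      ∃ k j : ℕ, 0 < k ∧ j * n u' = k * m ∧ |k * P - j * Q u'| < ε := by
    intro ε hε hε'
    obtain ⟨k, hk, hkL, hj⟩ := dirichlet (hU.union hU') Q (fun i hi => (hQ i hi).1) hf.1 hε
      (max L L')
    have hkL1 : L < k * P := (le_max_left _ _).trans_lt hkL
    have hkL2 : L' < k * P := (le_max_right _ _).trans_lt hkL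
    obtain ⟨hw, hi⟩ := hf.iter hr hu k
    rw [ind_short u he (by linarith), zero_add] at hi
    have hiso : D.Iso x y (u, dist x y + k * P).2 (2 * (dist x y / 3)) := by
      intro v hv hvl
      simp only at hvl ⊢
      obtain ⟨b1, b2⟩ := abs_le.1 hvl
      have hvU : v.1 ∈ U ∪ U' := Or.inl (hL v hv (by linarith))
      obtain ⟨j, hj⟩ := hj _ hvU
      obtain ⟨c1, c2⟩ := abs_lt.1 hj
      obtain ⟨e1, -⟩ := zq7a_id (hQ _ hvU).2.1 hv hu j (by linarith) (by linarith)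
      have e2 := D.dist_ev u v.2 (dist x y + k * P) (hvl.trans_lt (by linarith))
      have e3 : D.ev u v.2 = y := e1 ▸ hv.2.2
      have e4 : D.ev u (dist x y + k * P) = y := hw.2.2
      rw [e3, e4, dist_self] at e2
      exact sub_eq_zero.1 (abs_eq_zero.1 e2.symm)
    obtain ⟨v, hv, hvi, hvl⟩ := hM.tr hr hr' (by linarith) (by linarith) hw
      (r := dist x y / 3) (by linarith) hiso
    simp only at hvi hvl
    obtain ⟨b1, b2⟩ := abs_le.1 hvl
    have hvU : v.1 ∈ U ∪ U' := Or.inr (hL' v hv (by linarith))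
    obtain ⟨j, hj⟩ := hj _ hvU
    obtain ⟨c1, c2⟩ := abs_lt.1 hj
    obtain ⟨e1, e2⟩ := zq7a_id (hQ _ hvU).2.1 hv hu' j (by linarith) (by linarith)
    rw [e1] at hvU hj hvi e2
    obtain ⟨-, hi'⟩ := (hQ _ hvU).iter hr' hu' j
    rw [ind_short u' hu'.1 (by simp only; linarith), zero_add, ← e2, hvi, hi] at hi'
    exact ⟨hvU, k, j, hk, hi'.symm, hj⟩
  have hU0 := (key _ (by linarith) le_rfl).1
  have hq := hQ _ hU0
  have hm : (0 : ℝ) < m := by
    have := hf.2.2.2 P hf.1 le_rfl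
    exact_mod_cast (show 0 < m by omega)
  have hn' : (0 : ℝ) < n u' := by
    have := hq.2.2.2 _ hq.1 le_rfl
    exact_mod_cast (show 0 < n u' by omega)
  have hz : |P * n u' - m * Q u'| ≤ 0 := by
    refine le_of_forall_pos_le_add fun ε hε => ?_
    obtain ⟨-, k, j, hk, e1, e2⟩ := key (min (ε / n u') (dist x y / 3))
      (lt_min (div_pos hε hn') (by linarith)) (min_le_right _ _)
    have e3 := e2.trans_le (min_le_left _ _)
    rw [lt_div_iff₀ hn'] at e3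
    have e4 : (j : ℝ) * n u' = k * m := by exact_mod_cast e1
    have hk1 : (1 : ℝ) ≤ k := by exact_mod_cast hk
    have e5 : (k * P - j * Q u') * n u' = k * (P * n u' - m * Q u') := by
      linear_combination (-Q u') * e4
    have e6 : |k * P - j * Q u'| * n u' = k * |P * n u' - m * Q u'| := by
      rw [← abs_of_pos hn', ← abs_mul, abs_of_pos hn', e5, abs_mul,
        abs_of_pos (by linarith : (0 : ℝ) < k)]
    nlinarith [abs_nonneg (P * n u' - m * Q u')]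
  have e : (n u' : ℝ) * (P / m) = Q u' := by
    have := sub_eq_zero.1 (abs_nonpos_iff.1 hz)
    field_simp
    linarith
  exact ⟨n u', e ▸ hq⟩

end GD

end Pool.Agent.Fu
end

-- part Pool.Agent.P.MP_365c00_gt.ZR9
section

/-! Morse theory: the energy in the chart. -/

set_option linter.unusedSectionVars false
set_option linter.unusedVariables false

open Set Filter Topology Metric Function
open scoped Manifold ContDiff
open Pool.Agent.GeoN

namespace Pool.Agent.Fu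

variable {E : Type} [NormedAddCommGroup E] [InnerProductSpace ℝ E] [FiniteDimensional ℝ E]
  {M : Type} [MetricSpace M] [ChartedSpace E M] [IsManifold 𝓘(ℝ, E) ∞ M]
  [CompactSpace M] [Nonempty M] [Nontrivial E] {g : Met E M}

variable {sh : Short g} {a : ℝ}

section zr9calc
variable {P Q : Type} [NormedAddCommGroup P] [NormedSpace ℝ P] [NormedAddCommGroup Q]
  [NormedSpace ℝ Q]

theorem zr9_aff {φ : Q → ℝ} {b : Q} (L : P →L[ℝ] Q) (hφ : ContDiffAt ℝ 2 φ b) :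
    ContDiffAt ℝ 2 (fun p => φ (b + L p)) 0 ∧
      (∀ v, fderiv ℝ (fun p => φ (b + L p)) 0 v = fderiv ℝ φ b (L v)) ∧
      ∀ v w, fderiv ℝ (fderiv ℝ (fun p => φ (b + L p))) 0 v w =
        fderiv ℝ (fderiv ℝ φ) b (L v) (L w) := by
  have hφ' : ContDiffAt ℝ 2 φ (b + L 0) := by simpa using hφ
  have hψ : ContDiffAt ℝ 2 (fun y => φ (b + y)) (L 0) :=
    ContDiffAt.comp (g := φ) (f := fun y => b + y) (L 0) hφ' (contDiffAt_const.add contDiffAt_id)
  have hd : fderiv ℝ (fun y => φ (b + y)) = fun y => fderiv ℝ φ (b + y) := by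
    funext y; exact fderiv_comp_add_left b
  refine ⟨ContDiffAt.comp (g := fun y => φ (b + y)) (f := L) 0 hψ L.contDiff.contDiffAt, ?_, ?_⟩
  · intro v
    have h1 : HasFDerivAt (fun y => φ (b + y)) (fderiv ℝ (fun y => φ (b + y)) (L 0)) (L 0) :=
      (hψ.differentiableAt (by simp)).hasFDerivAt
    have h2 := (h1.comp (0 : P) L.hasFDerivAt).fderiv
    have h3 : (fun p => φ (b + L p)) = (fun y => φ (b + y)) ∘ L := rfl
    rw [h3, h2, hd]
    simp
  · intro v w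
    have h3 : (fun p => φ (b + L p)) = (fun y => φ (b + y)) ∘ L := rfl
    rw [h3, hess_lin L hψ v w, hd, fderiv_comp_add_left (f := fderiv ℝ φ) b]
    simp

theorem zr9_sum (f : ℕ → P → ℝ) (z : P) (k : ℕ) (hf : ∀ j < k, ContDiffAt ℝ 2 (f j) z) :
    ContDiffAt ℝ 2 (fun p => ∑ j ∈ Finset.range k, f j p) z ∧
      (∀ v, fderiv ℝ (fun p => ∑ j ∈ Finset.range k, f j p) z v =
        ∑ j ∈ Finset.range k, fderiv ℝ (f j) z v) ∧
      ∀ v w, fderiv ℝ (fderiv ℝ (fun p => ∑ j ∈ Finset.range k, f j p)) z v w =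
        ∑ j ∈ Finset.range k, fderiv ℝ (fderiv ℝ (f j)) z v w := by
  induction k with
  | zero =>
    refine ⟨by simpa using contDiffAt_const, by simp, ?_⟩
    intro v w
    simp
  | succ k ih =>
    obtain ⟨h1, h2, h3⟩ := ih fun j hj => hf j (Nat.lt_succ_of_lt hj)
    have hk := hf k (Nat.lt_succ_self k)
    simp only [Finset.sum_range_succ]
    refine ⟨h1.add hk, ?_, ?_⟩
    · intro v
      rw [fderiv_fun_add (h1.differentiableAt (by simp)) (hk.differentiableAt (by simp)),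
        add_apply, h2]
    · intro v w
      rw [hess_add h1 hk, add_apply, add_apply, h3]

end zr9calc

theorem zr9_cont (y : ℕ → M) {P : Type} [NormedAddCommGroup P] [NormedSpace ℝ P]
    (e : P →L[ℝ] (ℕ → E)) (j : ℕ) :
    ContinuousAt (fun p => Th y (e p) j) 0 ∧ Th y (e 0) j = y j := by
  refine ⟨?_, by rw [map_zero, Th_zero]⟩
  have h1 : ContinuousAt (fun p : P => κ E (y j) (y j) + e p j) 0 :=
    (continuous_const.add ((continuous_apply j).comp e.continuous)).continuousAt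
  have h2 : ContinuousAt (κ E (y j)).symm (κ E (y j) (y j) + e 0 j) := by
    simpa using continuousAt_extChartAt_symm (I := 𝓘(ℝ, E)) (y j)
  exact ContinuousAt.comp (g := (κ E (y j)).symm)
    (f := fun p : P => κ E (y j) (y j) + e p j) h2 h1

theorem Eb_chart (h : SMd sh dist a) {l : ℝ} {k : ℕ} {t : ℕ → ℝ} (ht : Part a l k t) (u : UG g)
    {P : Type} [NormedAddCommGroup P] [NormedSpace ℝ P] (e : P →L[ℝ] (ℕ → E))
    (he : ∀ p, e p ∈ Vk E k) :
    ContDiffAt ℝ 2 (fun p => Eb k t (Th (nds u k t) (e p))) 0 ∧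
      fderiv ℝ (fun p => Eb k t (Th (nds u k t) (e p))) 0 = 0 ∧
      ∀ p q, fderiv ℝ (fderiv ℝ fun p => Eb k t (Th (nds u k t) (e p))) 0 p q =
        Qf sh u k t (e p) (e q) := by
  let L : ℕ → P →L[ℝ] (E × E) := fun j =>
    ((ContinuousLinearMap.proj j).comp e).prod ((ContinuousLinearMap.proj (j + 1)).comp e)
  have hL : ∀ j p, L j p = (e p j, e p (j + 1)) := fun _ _ => rfl
  let f : ℕ → P → ℝ := fun j p =>
    Sq sh u (t j) (t (j + 1)) ((bp u (t j), bp u (t (j + 1))) + L j p)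
  have hstep := ht.2.2.2
  have hsm : ∀ j < k, ContDiffAt ℝ 2 (Sq sh u (t j) (t (j + 1)))
      (bp u (t j), bp u (t (j + 1))) := fun j hj =>
    (Sq_smooth h u (by rw [abs_of_pos (sub_pos.2 (hstep j hj).1)]; exact (hstep j hj).2)).of_le
      (WithTop.coe_le_coe.2 (le_top : (2 : ℕ∞) ≤ ⊤))
  have hf := fun j hj => zr9_aff (L j) (hsm j hj)
  have hev : ∀ j < k, ∀ᶠ p in 𝓝 (0 : P),
      dist (Th (nds u k t) (e p) j) (Th (nds u k t) (e p) (j + 1)) < a := by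
    intro j hj
    have h1 := zr9_cont (nds u k t) e j
    have h2 := zr9_cont (nds u k t) e (j + 1)
    have h3 := h1.1.dist h2.1
    refine h3.eventually (gt_mem_nhds ?_)
    show dist (Th (nds u k t) (e 0) j) (Th (nds u k t) (e 0) (j + 1)) < a
    rw [h1.2, h2.2, nds_step h ht u j hj]
    exact (hstep j hj).2
  have hall : ∀ᶠ p in 𝓝 (0 : P), ∀ j ∈ Finset.range k,
      dist (Th (nds u k t) (e p) j) (Th (nds u k t) (e p) (j + 1)) < a :=
    (Finset.range k).eventually_all.2 fun j hj => hev j (Finset.mem_range.1 hj)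
  have heq : (fun p => Eb k t (Th (nds u k t) (e p))) =ᶠ[𝓝 0]
      fun p => ∑ j ∈ Finset.range k, f j p := by
    filter_upwards [hall] with p hp
    unfold Eb
    refine Finset.sum_congr rfl fun j hj => ?_
    have hj' := Finset.mem_range.1 hj
    rw [← (h.mem _ _ (hp j hj)).2]
    have m1 : min j k = j := min_eq_left hj'.le
    have m2 : min (j + 1) k = j + 1 := min_eq_left hj'
    simp only [f, hL, Sq, Th, nds, m1, m2, bp, Prod.mk_add_mk]
  obtain ⟨s1, s2, s3⟩ := zr9_sum f 0 k fun j hj => (hf j hj).1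
  refine ⟨s1.congr_of_eventuallyEq heq, ?_, ?_⟩
  · rw [heq.fderiv_eq]
    ext v
    rw [s2 v]
    have h1 : ∀ j ∈ Finset.range k, fderiv ℝ (f j) 0 v =
        2 * gt u (t (j + 1)) (tv u (t (j + 1))) (e v (j + 1)) -
          2 * gt u (t j) (tv u (t j)) (e v j) := by
      intro j hj
      have hj' := Finset.mem_range.1 hj
      rw [(hf j hj').2.1 v, Sq_fderiv_bp h u (hstep j hj').1 (hstep j hj').2, hL]
      ring
    rw [Finset.sum_congr rfl h1,
      Finset.sum_range_sub (fun j => 2 * gt u (t j) (tv u (t j)) (e v j)) k,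
      (mem_Vk.1 (he v)).1, (mem_Vk.1 (he v)).2 k le_rfl]
    simp
  · intro p q
    rw [heq.fderiv.fderiv_eq, s3 p q]
    unfold Qf
    refine Finset.sum_congr rfl fun j hj => ?_
    rw [(hf j (Finset.mem_range.1 hj)).2.2 p q, Bq_eq, hL, hL]

end Pool.Agent.Fu
end

-- part Pool.Agent.P.MP_365c00_gt.ZY3b
section

/-! Classes of the base over small compact sets. -/

set_option linter.unusedSectionVars false
set_option linter.unusedVariables false

open Set Topology Filter Metric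

namespace Pool.Agent.Fu

variable {F : Type} [Field F] {M : Type} [MetricSpace M] {d q n : ℕ} {S : GS M} {p0 p : M}
  {δ t : ℝ}

variable {O : OR F (d + d) (Bs M d)}

theorem zy3b_ZZ {X Y : Type} [TopologicalSpace X] [TopologicalSpace Y] {f : C(X, Y)}
    {A B : Set X} {A' B' : Set Y} (h1 : MapsTo f A A') (h2 : MapsTo f B B') {c : Ch F X}
    (hc : c ∈ ZZ F A B) : map f c ∈ ZZ F A' B' := by
  refine mem_ZZ.2 ⟨map_mem_CC h1 (mem_ZZ.1 hc).1, ?_⟩
  rw [bd_map]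
  exact map_mem_CC h2 (mem_ZZ.1 hc).2

theorem zy3b_NN {X Y : Type} [TopologicalSpace X] [TopologicalSpace Y] {f : C(X, Y)}
    {A B : Set X} {A' B' : Set Y} (h1 : MapsTo f A A') (h2 : MapsTo f B B') {c : Ch F X}
    (hc : c ∈ NN F A B) : map f c ∈ NN F A' B' := by
  obtain ⟨g, hg, hb⟩ := mem_NN.1 hc
  refine mem_NN.2 ⟨map f g, map_mem_CC h1 hg, ?_⟩
  rw [bd_map, ← map_sub]
  exact map_mem_CC h2 hb

/-- sequences with a term in the given sets -/
def zy3bW (n : ℕ) (W : ℕ → Set (Bs M d)) : Set (ℕ → Bs M d) := {c | ∃ i ≤ n, c i ∈ W i}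

theorem zy3b_one (p0 : M) : MapsTo (one p0 d) univ (Tl p0 0) := by
  intro b _ i hi
  have h : i ≠ 0 := by omega
  simp [one, h]

theorem zy3b_one' (p0 : M) (W : ℕ → Set (Bs M d)) :
    MapsTo (one p0 d) (W 0) (Tl p0 0 ∩ zy3bW 0 W) := by
  intro b hb
  refine ⟨zy3b_one p0 (mem_univ b), 0, le_rfl, ?_⟩
  simpa [one] using hb

theorem zy3b_app {x y : ℕ → Bs M d} (hy : y ∈ Tl p0 0) : app (n + 1) (x, y) ∈ Tl p0 (n + 1) := by
  intro i hi
  have h : ¬ i < n + 1 := by omega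
  simp only [app, h, if_false]
  exact hy _ (by omega)

theorem zy3b_left {W : ℕ → Set (Bs M d)} {x y : ℕ → Bs M d} (hx : x ∈ zy3bW n W) :
    app (n + 1) (x, y) ∈ zy3bW (n + 1) W := by
  obtain ⟨i, hi, hW⟩ := hx
  refine ⟨i, by omega, ?_⟩
  have h : i < n + 1 := by omega
  simpa only [app, h, if_true] using hW

theorem zy3b_right {W : ℕ → Set (Bs M d)} {x y : ℕ → Bs M d}
    (hy : y ∈ zy3bW 0 fun _ => W (n + 1)) : app (n + 1) (x, y) ∈ zy3bW (n + 1) W := by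
  obtain ⟨i, hi, hW⟩ := hy
  have h0 : i = 0 := by omega
  subst h0
  refine ⟨n + 1, le_rfl, ?_⟩
  simpa only [app, lt_irrefl, if_false, Nat.sub_self] using hW

theorem zy3b_oZZ {o : Bs M d → Ch F (Bs M d)} {c : ℕ → Bs M d} {W : ℕ → Set (Bs M d)} :
    ∀ n, (∀ i ≤ n, o (c i) ∈ ZZ F univ (W i)) →
      oB p0 o n c ∈ ZZ F (Tl p0 n) (Tl p0 n ∩ zy3bW n W) := by
  intro n
  induction n with
  | zero => exact fun h => zy3b_ZZ (zy3b_one p0) (zy3b_one' p0 W) (h 0 le_rfl)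
  | succ n ih =>
    intro h
    have h1 := ih fun i hi => h i (by omega)
    have h2 := zy3b_ZZ (zy3b_one p0) (zy3b_one' p0 fun _ => W (n + 1)) (h (n + 1) le_rfl)
    exact mu_ZZ (fun x _ y hy => zy3b_app hy)
      (fun x hx y hy => ⟨zy3b_app hy, zy3b_left hx.2.2⟩)
      (fun x _ y hy => ⟨zy3b_app hy.1, zy3b_right hy.2.2⟩) h1 h2

theorem zy3b_oNN {o o' : Bs M d → Ch F (Bs M d)} {c c' : ℕ → Bs M d} {W : ℕ → Set (Bs M d)} :
    ∀ n, (∀ i ≤ n, o (c i) ∈ ZZ F univ (W i)) → (∀ i ≤ n, o' (c' i) ∈ ZZ F univ (W i)) →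
      (∀ i ≤ n, o (c i) - o' (c' i) ∈ NN F univ (W i)) →
      oB p0 o n c - oB p0 o' n c' ∈ NN F (Tl p0 n) (Tl p0 n ∩ zy3bW n W) := by
  intro n
  induction n with
  | zero =>
    intro _ _ h
    have h1 := zy3b_NN (zy3b_one p0) (zy3b_one' p0 W) (h 0 le_rfl)
    rw [map_sub] at h1
    exact h1
  | succ n ih =>
    intro h h' hs
    have h1 := zy3b_oZZ (p0 := p0) n fun i hi => h i (by omega)
    have h2 := zy3b_ZZ (zy3b_one p0) (zy3b_one' p0 fun _ => W (n + 1)) (h' (n + 1) le_rfl)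
    have h3 := ih (fun i hi => h i (by omega)) (fun i hi => h' i (by omega))
      fun i hi => hs i (by omega)
    have h4 := zy3b_NN (zy3b_one p0) (zy3b_one' p0 fun _ => W (n + 1)) (hs (n + 1) le_rfl)
    rw [map_sub] at h4
    exact mu_sub_NN (C := Tl p0 (n + 1)) (C' := Tl p0 (n + 1) ∩ zy3bW (n + 1) W)
      (fun x _ y hy => zy3b_app hy)
      (fun x hx y hy => ⟨zy3b_app hy, zy3b_left hx.2.2⟩)
      (fun x _ y hy => ⟨zy3b_app hy.1, zy3b_right hy.2.2⟩) h1 h2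
      (NN_mono subset_rfl (subset_inter inter_subset_left subset_rfl) h3)
      (NN_mono subset_rfl (subset_inter inter_subset_left subset_rfl) h4)

theorem zy3b_HD {z : Ch F (Bs M d)} {e : ℕ} (hz : z ∈ HD F _ e) (c : ℕ → Bs M d) :
    ∀ n, oB p0 (fun _ => z) n c ∈ HD F _ ((n + 1) * e) := by
  intro n
  induction n with
  | zero =>
    rw [zero_add, one_mul]
    exact map_mem_HD _ hz
  | succ n ih =>
    rw [Nat.succ_mul (n + 1) e]
    exact mu_HD ih (map_mem_HD _ hz)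

theorem zy3b_eq {c c' : ℕ → Bs M d} (hc : c ∈ Tl p0 n) (hc' : c' ∈ Tl p0 n)
    (h : c' ∉ OfB n c) : c' = c := by
  funext i
  by_cases hi : i ≤ n
  · by_contra hne
    exact h ⟨i, hi, hne⟩
  · rw [hc i (by omega), hc' i (by omega)]

theorem base_class (hY : YH S δ O) {K : Set (ℕ → Bs M d)} (hK : IsCompact K)
    (hKC : K ⊆ CB p0 δ n) (hp : ∀ c ∈ K, ∀ i ≤ n, dist (c i).1 p < δ) :
    ∃ ob ∈ ZZ F (Dm p0 δ n p) (Dm p0 δ n p \ K), ob ∈ HD F _ ((n + 1) * (d + d)) ∧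
      ∀ c ∈ K, ob - oB p0 O.o n c ∈ NN F (Dm p0 δ n p) (Dm p0 δ n p ∩ OfB n c) := by
  have hδ := hY.pos
  obtain ⟨z, hz, hzd, hzo⟩ := hY.rad p
  have hball : ∀ c ∈ K, ∀ i ≤ n, c i ∈ ball ((p, 0) : Bs M d) δ := by
    intro c hc i hi
    rw [mem_ball, Prod.dist_eq, max_lt_iff]
    refine ⟨hp c hc i hi, ?_⟩
    have h1 := (hKC hc).1.1 i hi
    rw [dist_zero_right]
    linarith
  have hUp : K ⊆ Up δ n p := fun c hc =>
    ⟨NrC_sub hδ n (hKC hc).1, fun i hi => by linarith [hp c hc i hi]⟩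
  have h1 : oB p0 (fun _ => z) n (fun _ => ((p, 0) : Bs M d)) ∈
      ZZ F (Tl p0 n) (Tl p0 n ∩ Kᶜ) := by
    refine ZZ_mono subset_rfl ?_
      (zy3b_oZZ (W := fun _ => (ball ((p, 0) : Bs M d) δ)ᶜ) n fun _ _ => hz)
    rintro c ⟨hc, i, hi, hW⟩
    exact ⟨hc, fun hK' => hW (hball c hK' i hi)⟩
  obtain ⟨ob, ho, hoo, hod⟩ := exc_surj (U := Up δ n p) (V := Kᶜ) (Up_open δ n p)
    hK.isClosed.isOpen_compl
    (fun c _ => by
      by_cases hc : c ∈ K
      · exact Or.inl (hUp hc)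
      · exact Or.inr hc) subset_rfl h1
  have ho' : ob ∈ ZZ F (Dm p0 δ n p) (Dm p0 δ n p \ K) := by
    refine ZZ_mono subset_rfl ?_ ho
    exact fun c hc => ⟨⟨hc.1.1, hc.2⟩, hc.1.2⟩
  refine ⟨ob, ho', hod _ (zy3b_HD hzd _ n), fun c hc => ?_⟩
  have hcT : c ∈ Tl p0 n := (hKC hc).2
  have hOf : ∀ c' ∈ Tl p0 n, c' ∉ K → c' ∈ OfB n c := by
    intro c' hc' hK'
    by_contra hne
    exact hK' (zy3b_eq hcT hc' hne ▸ hc)
  have h2 : oB p0 (fun _ => z) n (fun _ => ((p, 0) : Bs M d)) - oB p0 O.o n c ∈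
      NN F (Tl p0 n) (Tl p0 n ∩ OfB n c) := by
    refine NN_mono subset_rfl ?_
      (zy3b_oNN (W := fun i => univ \ {c i}) n (fun i hi => ?_) (fun i _ => (O.gen (c i)).zz)
        fun i hi => hzo _ (hball c hc i hi))
    · rintro c' ⟨hc', i, hi, hW⟩
      exact ⟨hc', i, hi, hW.2⟩
    · refine ZZ_mono subset_rfl ?_ hz
      refine fun b hb => ⟨mem_univ b, fun hb' => hb ?_⟩
      rw [mem_singleton_iff.1 hb']
      exact hball c hc i hi
  have h3 : ob - oB p0 O.o n c ∈ NN F (Tl p0 n) (Tl p0 n ∩ OfB n c) := by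
    have e1 : Tl p0 n ∩ (Tl p0 n ∩ Kᶜ) ⊆ Tl p0 n ∩ OfB n c :=
      fun c' hc' => ⟨hc'.1, hOf c' hc'.1 hc'.2.2⟩
    have h4 := sub_mem h2 (NN_mono subset_rfl e1 hoo)
    rwa [sub_sub_sub_cancel_left] at h4
  have e2 : Dm p0 δ n p \ K ⊆ Tl p0 n ∩ OfB n c :=
    fun c' hc' => ⟨hc'.1.1, hOf c' hc'.1.1 hc'.2⟩
  have e3 : Dm p0 δ n p ∩ OfB n c ⊆ Tl p0 n ∩ OfB n c := fun c' hc' => ⟨hc'.1.1, hc'.2⟩
  have h5 : ob - oB p0 O.o n c ∈ ZZ F (Tl p0 n ∩ Up δ n p) (Tl p0 n ∩ OfB n c) :=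
    sub_mem (ZZ_mono subset_rfl e2 ho')
      (ZZ_mono subset_rfl e3 (oB_ZZ hY (hKC hc).1 (hp c hc)))
  have h6 := exc_inj (U := Up δ n p) (V := OfB n c) (Up_open δ n p) (OfB_open n c)
    (fun c' hc' => by
      by_cases h : c' ∈ OfB n c
      · exact Or.inr h
      · exact Or.inl (zy3b_eq hcT hc' h ▸ hUp hc)) subset_rfl h5 h3
  refine NN_mono subset_rfl ?_ h6
  exact fun c' hc' => ⟨⟨hc'.1.1, hc'.2⟩, hc'.1.2⟩

end Pool.Agent.Fu
end

-- part Pool.Agent.P.MP_365c00_gt.ZY4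
section

/-! The local classes are powers. -/

set_option linter.unusedSectionVars false
set_option linter.unusedVariables false

open Set Topology Filter Metric

namespace Pool.Agent.Fu

variable {F : Type} [Field F] {M : Type} [MetricSpace M] {d q n : ℕ} {S : GS M} {p0 p : M}
  {δ t : ℝ}

variable {O : OR F (d + d) (Bs M d)} {c : ℕ → Bs M d} {x : M → Ch F (Mo M)} {w w' : Ch F (Mo M)}

/-- packing base points and paths into one sequence -/
def zy4_pk (p0 : M) (n : ℕ) (b : ℕ → Bs M d) (γ : ℕ → Mo M) (i : ℕ) : Pos M d :=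
  if i ≤ n then (b i, γ i) else dfl p0

theorem zy4_congr {b : ℕ → Bs M d} {γ γ' : ℕ → Mo M} (h : ∀ i ≤ n, γ i = γ' i) :
    zy4_pk p0 n b γ = zy4_pk p0 n b γ' := by
  funext i
  unfold zy4_pk
  split_ifs with hi
  · rw [h i hi]
  · rfl

theorem zy4_mem {b : ℕ → Bs M d} {γ : ℕ → Mo M} (hb : b ∈ Tl p0 n)
    (hγ : γ ∈ Tup n δ δ (b 0).1 (b n).1) :
    zy4_pk p0 n b γ ∈ Yt p0 δ n ∧ bs M d (zy4_pk p0 n b γ) = b := by
  have e : ∀ i ≤ n, zy4_pk p0 n b γ i = (b i, γ i) := fun i hi => if_pos hi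
  refine ⟨⟨fun i hi => if_neg (not_le.2 hi), fun _ => ?_⟩, funext fun i => ?_⟩
  · rw [e 0 (Nat.zero_le n), e n le_rfl]
    exact (Tup.congr hγ fun i hi => congrArg Prod.snd (e i hi)).1
  · change (zy4_pk p0 n b γ i).1 = b i
    by_cases hi : i ≤ n
    · rw [e i hi]
    · rw [hb i (not_le.1 hi)]
      exact congrArg Prod.fst (if_neg hi : zy4_pk p0 n b γ i = dfl p0)

theorem zy4_post {Z : Type} [TopologicalSpace Z] {A : Set Z} {b : Z → ℕ → Bs M d}
    (hb : ContinuousOn b A) (hT : ∀ z ∈ A, b z ∈ Tl p0 n) {g g' : Z → ℕ → Mo M}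
    (h : Htp A (fun z γ => γ ∈ Tup n δ δ (b z 0).1 (b z n).1) g g') :
    Htp A (fun z y => y ∈ Yt p0 δ n ∧ bs M d y = b z) (fun z => zy4_pk p0 n (b z) (g z))
      fun z => zy4_pk p0 n (b z) (g' z) := by
  refine h.post (k := fun u => zy4_pk p0 n (b u.1) u.2) (continuousOn_pi.2 fun i => ?_)
    fun z hz γ hγ => zy4_mem (hT z hz) hγ
  unfold zy4_pk
  split_ifs with hi
  · exact ((continuousOn_pi.1 hb i).comp continuous_fst.continuousOn fun u hu => hu.1).prodMk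
      (by fun_prop)
  · exact continuousOn_const

theorem zy4_cut (hδ : 0 < δ) {Z : Type} [TopologicalSpace Z] {A : Set Z} {u v : Z → M} {r : Z → ℝ}
    {f g : Z → Mo M} (h : HP A u v r f g) (n : ℕ) :
    Htp A (fun z γ => γ ∈ Tup n δ δ (u z) (v z)) (fun z => cut n (f z)) fun z => cut n (g z) :=
  Htp.post h (k := fun z => cut n z.2)
    (continuous_pi fun i => (cut_cont n i).comp continuous_snd).continuousOn
    fun z hz ω hω => (cut_mem hω.1 hδ hδ n).1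

theorem zy4_en {ω : Mo M} (h : IsP ω) (n : ℕ) : en (cut n ω n) = en ω := by
  rw [(zp5_cut h n n).2.2, zp5_full]
  rfl

theorem zy4_le {P : Type} (u v : ℕ → P) {i : ℕ} (hi : i ≤ n) : app (n + 1) (u, v) i = u i :=
  if_pos (Nat.lt_succ_of_le hi)

theorem zy4_gt {P : Type} (u v : ℕ → P) {i : ℕ} (hi : n < i) :
    app (n + 1) (u, v) i = v (i - (n + 1)) := if_neg (by omega)

theorem zy4_last {P : Type} (u v : ℕ → P) : app (n + 1) (u, v) (n + 1) = v 0 := by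
  rw [zy4_gt u v n.lt_succ_self, Nat.sub_self]

theorem zy4_nr (hδ : 0 < δ) (hc : c ∈ NrC (n + 1) (δ / 2)) :
    (fun _ => c (n + 1)) ∈ NrC 0 (δ / 2) :=
  ⟨fun _ _ => hc.1 _ le_rfl, fun _ _ _ _ => hc.2 _ le_rfl _ le_rfl⟩

theorem Gw_wh (hY : YH S δ O) (hc : c ∈ NrC n (δ / 2)) {p' : M} (hp : ∀ i ≤ n, dist (c i).1 p < δ)
    (hp' : ∀ i ≤ n, dist (c i).1 p' < δ) (hw : w ∈ ZZ F (Pa p p) ∅) :
    Gw S p0 O.o n c (mp (S.wh p' p') w) - Gw S p0 O.o n c w ∈ Mc F p0 δ n c := by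
  have hδ := hY.pos
  have ha := hY.le
  have ho := oB_Sp hY p0 n c
  have s' := Sp_sub (p0 := p0) hδ hc hp'
  have hd : dist p' p < 2 * δ := by
    have h1 := dist_triangle_left p' p (c 0).1
    linarith [hp 0 (Nat.zero_le n), hp' 0 (Nat.zero_le n)]
  have hd' : dist p p' < 2 * δ := by rwa [dist_comm]
  have hW := S.wh_contOn (x := p) (y := p) (x' := p') (y' := p') (by linarith) (by linarith)
  have hz := cross_mem_ZZ ho hw
  have e1 : Gw S p0 O.o n c (mp (S.wh p' p') w) =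
      mp (Gn S p0 n ∘ Prod.map id (S.wh p' p')) (cross (oB p0 O.o n c) w) := by
    rw [← mp_mp (continuousOn_id.prodMap hW) (Gn_cont (p := p') hδ ha)
      (fun z hz => ⟨s' hz.1, S.zp4_Pa (by linarith) (by linarith) hz.2⟩) (mem_ZZ.1 hz).1,
      ← cross_mp continuousOn_id hW (mem_ZZ.1 ho).1 (mem_ZZ.1 hw).1, mp_id]
    rfl
  have h1 := S.hp_wh_wh (A := (Sp p0 δ n c ×ˢ Pa p p : Set ((ℕ → Bs M d) × Mo M)))
    (x := fun _ => p') (y := fun _ => p') (x' := fun z => (z.1 0).1) (y' := fun z => (z.1 n).1)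
    (f := Prod.snd) continuousOn_const continuousOn_const (by fun_prop) (by fun_prop)
    (by fun_prop) fun z hz => by
      have h2 := (s' hz.1).2.2 0 (Nat.zero_le n)
      have h3 := (s' hz.1).2.2 n le_rfl
      rw [dist_comm] at h3
      rw [hz.2.2.1, hz.2.2.2]
      exact ⟨hz.2.1, by linarith, by linarith⟩
  have h2 := zy4_post (p0 := p0) (b := Prod.fst) (by fun_prop) (fun z hz => hz.1.1)
    (zy4_cut hδ h1 n)
  rw [e1]
  refine h2.symm.NN (B' := Yt p0 δ n ∩ Of n c) subset_rfl (fun z _ y hy => hy.1)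
    (fun z hz y hy => ⟨hy.1, ?_⟩) hz
  change bs M d y ∈ OfB n c
  rw [hy.2]
  rcases hz.2 with h | h
  · exact h.1.2
  · exact h.2.elim

theorem Gn_app_htp (hδ : 0 < δ) (ha : 16 * δ ≤ S.a) :
    Htp {z : ((ℕ → Bs M d) × Mo M) × ((ℕ → Bs M d) × Mo M) | z.1.1 ∈ Tl p0 n ∧ z.2.1 ∈ Tl p0 0 ∧
        app (n + 1) (z.1.1, z.2.1) ∈ Up δ (n + 1) p ∧ z.1.2 ∈ Pa p p ∧ z.2.2 ∈ Pa p p}
      (fun z y => y ∈ Yt p0 δ (n + 1) ∧ bs M d y = app (n + 1) (z.1.1, z.2.1))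
      (fun z => app (n + 1) (Gn S p0 n z.1, Gn S p0 0 z.2))
      fun z => Gn S p0 (n + 1) (app (n + 1) (z.1.1, z.2.1), cat z.1.2 z.2.2) := by
  set A : Set (((ℕ → Bs M d) × Mo M) × ((ℕ → Bs M d) × Mo M)) :=
    {z | z.1.1 ∈ Tl p0 n ∧ z.2.1 ∈ Tl p0 0 ∧
      app (n + 1) (z.1.1, z.2.1) ∈ Up δ (n + 1) p ∧ z.1.2 ∈ Pa p p ∧ z.2.2 ∈ Pa p p} with hA
  have d0 : ∀ z ∈ A, dist (z.1.1 0).1 p < 2 * δ ∧ dist p (z.1.1 n).1 < 2 * δ ∧
      dist (z.2.1 0).1 p < 2 * δ ∧ dist p (z.2.1 0).1 < 2 * δ ∧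
      dist (z.1.1 n).1 (z.2.1 0).1 < δ := by
    intro z hz
    have h1 := hz.2.2.1.2 0 (Nat.zero_le _)
    have h2 := hz.2.2.1.2 n n.le_succ
    have h3 := hz.2.2.1.2 (n + 1) le_rfl
    have h4 := hz.2.2.1.1.2 n n.le_succ (n + 1) le_rfl
    rw [zy4_le _ _ (Nat.zero_le n)] at h1
    rw [zy4_le _ _ le_rfl] at h2 h4
    rw [zy4_last] at h3 h4
    exact ⟨h1, by rwa [dist_comm], h3, by rwa [dist_comm], h4⟩
  have m1 : ∀ z ∈ A, S.wh (z.1.1 0).1 (z.1.1 n).1 z.1.2 ∈ Pa (z.1.1 0).1 (z.1.1 n).1 :=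
    fun z hz => (S.wh_mem hz.2.2.2.1 (by linarith [(d0 z hz).1]) (by linarith [(d0 z hz).2.1])).1
  have m2 : ∀ z ∈ A, S.wh (z.2.1 0).1 (z.2.1 0).1 z.2.2 ∈ Pa (z.2.1 0).1 (z.2.1 0).1 :=
    fun z hz => (S.wh_mem hz.2.2.2.2 (by linarith [(d0 z hz).2.2.1])
      (by linarith [(d0 z hz).2.2.2.1])).1
  have c1 : ContinuousOn (fun z => S.wh (z.1.1 0).1 (z.1.1 n).1 z.1.2) A :=
    S.wh_cont (by fun_prop) (by fun_prop) (by fun_prop) fun z hz => by
      rw [hz.2.2.2.1.2.1, hz.2.2.2.1.2.2]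
      exact ⟨hz.2.2.2.1.1, by linarith [(d0 z hz).1], by linarith [(d0 z hz).2.1]⟩
  have c2 : ContinuousOn (fun z => S.wh (z.2.1 0).1 (z.2.1 0).1 z.2.2) A :=
    S.wh_cont (by fun_prop) (by fun_prop) (by fun_prop) fun z hz => by
      rw [hz.2.2.2.2.2.1, hz.2.2.2.2.2.2]
      exact ⟨hz.2.2.2.2.1, by linarith [(d0 z hz).2.2.1], by linarith [(d0 z hz).2.2.2.1]⟩
  set γ : ((ℕ → Bs M d) × Mo M) × ((ℕ → Bs M d) × Mo M) → ℕ → Mo M := fun z i =>
    if i ≤ n then cut n (S.wh (z.1.1 0).1 (z.1.1 n).1 z.1.2) i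
    else S.wh (z.2.1 0).1 (z.2.1 0).1 z.2.2 with hγ
  have g1 : ∀ z, ∀ i ≤ n, γ z i = cut n (S.wh (z.1.1 0).1 (z.1.1 n).1 z.1.2) i :=
    fun z i hi => if_pos hi
  have g2 : ∀ z, γ z (n + 1) = S.wh (z.2.1 0).1 (z.2.1 0).1 z.2.2 := fun z => if_neg (by omega)
  have g3 : ∀ z ∈ A, en (γ z n) = (z.1.1 n).1 := fun z hz => by
    rw [g1 z n le_rfl, zy4_en (m1 z hz).1, (m1 z hz).2.2]
  have cγ : ContinuousOn γ A := continuousOn_pi.2 fun i => by
    simp only [hγ]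
    split_ifs
    · exact (cut_cont n i).comp_continuousOn c1
    · exact c2
  have mγ : ∀ z ∈ A, γ z ∈ Tup (n + 1) δ δ (z.1.1 0).1 (z.2.1 0).1 := by
    intro z hz
    have h1 := (Tup.congr (cut_mem (m1 z hz) hδ hδ n).1 (g1 z)).1
    refine ⟨fun i hi => ?_, h1.2.1, fun i hi => ?_, ?_⟩
    · rcases Nat.lt_succ_iff_lt_or_eq.1 (Nat.lt_succ_of_le hi) with h | rfl
      · exact h1.1 i (by omega)
      · rw [g2]
        exact (m2 z hz).1
    · rcases Nat.lt_succ_iff_lt_or_eq.1 hi with h | rfl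
      · exact h1.2.2.1 i h
      · rw [g2, g3 z hz, (m2 z hz).2.1]
        linarith [(d0 z hz).2.2.2.2]
    · rw [g2, (m2 z hz).2.2, dist_self]
      exact hδ
  have t1 := (S.tup_one (x := fun z => (z.1.1 0).1) (e := fun z => (z.2.1 0).1)
    (by linarith) (by linarith) cγ (by fun_prop) mγ).symm.mono subset_rfl fun z _ y hy => hy.1
  have h1 := S.hp_wh_wh (A := A) (x := fun z => (z.1.1 0).1) (y := fun z => (z.1.1 n).1)
    (x' := fun z => (z.1.1 0).1) (y' := fun z => (z.2.1 0).1) (f := fun z => z.1.2)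
    (by fun_prop) (by fun_prop) (by fun_prop) (by fun_prop) (by fun_prop) fun z hz => by
      rw [hz.2.2.2.1.2.1, hz.2.2.2.1.2.2, dist_self]
      exact ⟨hz.2.2.2.1.1, by linarith [(d0 z hz).1],
        by linarith [(d0 z hz).2.1, (d0 z hz).2.2.2.2]⟩
  have t2 := zy4_cut hδ (h1.cat (HP.refl c2 fun z hz => ⟨m2 z hz, le_rfl⟩)) (n + 1)
  have h2 := S.hp_wh_cat (A := A) (x := fun z => (z.1.1 0).1) (y := fun z => (z.2.1 0).1)
    (w := fun z => (z.2.1 0).1) (f := fun z => z.1.2) (g := fun z => z.2.2)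
    (by fun_prop) (by fun_prop) (by fun_prop) (by fun_prop) (by fun_prop) fun z hz => by
      rw [hz.2.2.2.1.2.1, hz.2.2.2.1.2.2, hz.2.2.2.2.2.1, hz.2.2.2.2.2.2]
      exact ⟨hz.2.2.2.1.1, hz.2.2.2.2.1, rfl, by linarith [(d0 z hz).1],
        by linarith [(d0 z hz).2.2.2.1], by linarith [(d0 z hz).2.2.2.1]⟩
  have t3 := t2.trans (zy4_cut hδ h2 (n + 1))
  have cb : ContinuousOn (fun z => app (n + 1) (z.1.1, z.2.1)) A :=
    ((appC (Bs M d) (n + 1)).continuous.comp (by fun_prop)).continuousOn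
  have tb : ∀ z ∈ A, app (n + 1) (z.1.1, z.2.1) ∈ Tl p0 (n + 1) := fun z hz i hi => by
    rw [zy4_gt _ _ (by omega)]
    exact hz.2.1 _ (by omega)
  have eR : ∀ z ∈ A, ∀ y : ℕ → Mo M, y ∈ Tup (n + 1) δ δ (z.1.1 0).1 (z.2.1 0).1 →
      y ∈ Tup (n + 1) δ δ (app (n + 1) (z.1.1, z.2.1) 0).1
        (app (n + 1) (z.1.1, z.2.1) (n + 1)).1 := fun z _ y hy => by
    rwa [zy4_le _ _ (Nat.zero_le n), zy4_last]
  refine (((zy4_post cb tb (t1.mono subset_rfl eR)).congr (fun _ _ => rfl) fun z hz => ?_).trans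
    (zy4_post cb tb (t3.mono subset_rfl eR))).congr (fun z hz => ?_) fun z hz => ?_
  · refine zy4_congr fun i hi => ?_
    have h3 := (S.fill_mem (by linarith) (mγ z hz)).1
    rw [g2, (m2 z hz).2.2] at h3
    rw [if_pos hi, S.wh_self h3, S.wh_right (m1 z hz) (by linarith [(d0 z hz).2.2.2.2]),
      GS.fill, S.fill_congr (g1 z), S.fill_cut (m1 z hz).1, g3 z hz, g2, (m2 z hz).2.1]
  · funext i
    change (if i ≤ n + 1 then (app (n + 1) (z.1.1, z.2.1) i, γ z i) else dfl p0) = _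
    rcases lt_trichotomy i (n + 1) with h | rfl | h
    · have h' : i ≤ n := by omega
      rw [if_pos h.le, zy4_le _ _ h', zy4_le _ _ h', g1 z i h']
      exact (if_pos h').symm
    · rw [if_pos le_rfl, zy4_last, zy4_last, g2, ← cut_zero (m2 z hz).1]
      rfl
    · rw [if_neg (by omega), zy4_gt _ _ (by omega)]
      exact (if_neg (by omega)).symm
  · change _ = zy4_pk p0 (n + 1) _ (cut (n + 1) (S.wh (app (n + 1) (z.1.1, z.2.1) 0).1
      (app (n + 1) (z.1.1, z.2.1) (n + 1)).1 _))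
    rw [zy4_le _ _ (Nat.zero_le n), zy4_last]

theorem Gw_mul (hY : YH S δ O) (hc : c ∈ NrC (n + 1) (δ / 2))
    (hp : ∀ i ≤ n + 1, dist (c i).1 p < δ) {k : ℕ} (hw : w ∈ ZZ F (Pa p p) ∅) (hk : w ∈ HD F _ k)
    (hw' : w' ∈ ZZ F (Pa p p) ∅) :
    mu (n + 1) (Gw S p0 O.o n c w) (Gw S p0 O.o 0 (fun _ => c (n + 1)) w') -
      Gw S p0 O.o (n + 1) c (mul w w') ∈ Mc F p0 δ (n + 1) c := by
  have hδ := hY.pos
  have ha := hY.le
  have ho := oB_Sp hY p0 n c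
  have ho' := oB_Sp hY p0 0 fun _ => c (n + 1)
  have s1 := Sp_sub (p0 := p0) hδ (NrC_left (n' := 0) hc) fun i hi => hp i (by omega)
  have s2 := Sp_sub (p0 := p0) hδ (zy4_nr hδ hc) fun _ _ => hp _ le_rfl
  have s3 := Sp_sub (p0 := p0) hδ hc hp
  have z1 := cross_mem_ZZ ho hw
  have z2 := cross_mem_ZZ ho' hw'
  have hz := cross_mem_ZZ z1 z2
  have c1 := (Gn_cont (p0 := p0) (n := n) (p := p) (d := d) hδ ha).mono (prod_mono s1 subset_rfl)
  have c2 := (Gn_cont (p0 := p0) (n := 0) (p := p) (d := d) hδ ha).mono (prod_mono s2 subset_rfl)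
  have c3 := cat_contOn (A := Pa p p) (B := Pa p p) subset_rfl subset_rfl
  have c4 : ContinuousOn (appC (Bs M d) (n + 1)) (Sp p0 δ n c ×ˢ Sp p0 δ 0 fun _ => c (n + 1)) :=
    (appC (Bs M d) (n + 1)).continuous.continuousOn
  have hs := cross_shuffle (oB p0 O.o n c) w' hk (oB_HD O p0 0 fun _ => c (n + 1))
  rw [Even.neg_one_pow (((Even.add_self d).mul_left _).mul_left _), one_smul] at hs
  have y1 := cross_mem_CC (mem_ZZ.1 ho).1 (mem_ZZ.1 ho').1
  have y2 := cross_mem_CC (mem_ZZ.1 hw).1 (mem_ZZ.1 hw').1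
  have e1 : mu (n + 1) (Gw S p0 O.o n c w) (Gw S p0 O.o 0 (fun _ => c (n + 1)) w') =
      mp (fun z => app (n + 1) (Gn S p0 n z.1, Gn S p0 0 z.2))
        (cross (cross (oB p0 O.o n c) w) (cross (oB p0 O.o 0 fun _ => c (n + 1)) w')) := by
    rw [mu_apply, Gw, Gw, cross_mp c1 c2 (mem_ZZ.1 z1).1 (mem_ZZ.1 z2).1,
      map_mp _ (c1.prodMap c2) (mem_ZZ.1 hz).1]
    rfl
  have e2 : Gw S p0 O.o (n + 1) c (mul w w') =
      mp (fun z => Gn S p0 (n + 1) (app (n + 1) (z.1.1, z.2.1), cat z.1.2 z.2.2))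
        (cross (cross (oB p0 O.o n c) w) (cross (oB p0 O.o 0 fun _ => c (n + 1)) w')) := by
    have e3 : oB p0 O.o (n + 1) c =
        mu (n + 1) (oB p0 O.o n c) (oB p0 O.o 0 fun _ => c (n + 1)) := rfl
    have m3 : MapsTo (Prod.map (appC (Bs M d) (n + 1)) fun z : Mo M × Mo M => cat z.1 z.2)
        ((Sp p0 δ n c ×ˢ Sp p0 δ 0 fun _ => c (n + 1)) ×ˢ (Pa p p ×ˢ Pa p p))
        (Dm p0 δ (n + 1) p ×ˢ Pa p p) :=
      fun z hz => ⟨s3 (Sp_app hδ hz.1.1 hz.1.2), cat_mem hz.2.1 hz.2.2⟩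
    rw [Gw, e3, mu_apply, mul_apply, ← mp_coe, cross_mp c4 c3 y1 y2,
      mp_mp (c4.prodMap c3) (Gn_cont hδ ha) m3 (cross_mem_CC y1 y2), ← hs,
      mp_map _ _ ((Gn_cont hδ ha).comp (c4.prodMap c3) m3)
        (CC_mono (fun z hz => by exact ⟨⟨hz.1.1, hz.2.1⟩, hz.1.2, hz.2.2⟩) (mem_ZZ.1 hz).1)]
    rfl
  rw [e1, e2]
  refine (Gn_app_htp (p := p) hδ ha).symm.NN (B' := Yt p0 δ (n + 1) ∩ Of (n + 1) c)
    (fun z hz => ⟨hz.1.1.1, hz.2.1.1, (s3 (Sp_app hδ hz.1.1 hz.2.1)).2, hz.1.2, hz.2.2⟩)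
    (fun z _ y hy => hy.1) (fun z hz y hy => ⟨hy.1, ?_⟩) hz
  change bs M d y ∈ OfB (n + 1) c
  rw [hy.2]
  rcases hz.2 with ⟨h | h, -⟩ | ⟨-, h | h⟩
  · obtain ⟨i, hi, h⟩ := h.1.2
    exact ⟨i, by omega, by rwa [zy4_le _ _ hi]⟩
  · exact h.2.elim
  · obtain ⟨i, hi, h⟩ := h.1.2
    rw [Nat.le_zero.1 hi] at h
    exact ⟨n + 1, le_rfl, by rwa [zy4_last]⟩
  · exact h.2.elim

theorem Bt_pwr (hY : YH S δ O) {D : ℕ} (hx : ∀ p, x p ∈ ZZ F (Pa p p) ∅) (hd : ∀ p, x p ∈ HD F _ D)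
    (hj : ∀ p p' : M, dist p p' < S.a / 8 → mp (S.wh p' p') (x p) - x p' ∈ BB F (Pa p' p'))
    (hc : c ∈ NrC n (δ / 2)) (hp : ∀ i ≤ n, dist (c i).1 p < δ) :
    Bt S p0 O.o x n c - Gw S p0 O.o n c (pwr n (x p)) ∈ Mc F p0 δ n c := by
  have hδ := hY.pos
  have ha := hY.le
  have base : ∀ c : ℕ → Bs M d, c ∈ NrC 0 (δ / 2) → dist (c 0).1 p < δ →
      Gw S p0 O.o 0 c (x (c 0).1) - Gw S p0 O.o 0 c (x p) ∈ Mc F p0 δ 0 c := by
    intro c hc h0
    have h1 : ∀ i ≤ 0, dist (c i).1 p < δ := fun i hi => by rwa [Nat.le_zero.1 hi]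
    have h2 : ∀ i ≤ 0, dist (c i).1 (c 0).1 < δ := fun i hi => by
      rwa [Nat.le_zero.1 hi, dist_self]
    have h3 := Gw_BB (p0 := p0) hY hc h2 (hj p (c 0).1 (by rw [dist_comm]; linarith))
    rw [Gw_sub] at h3
    have h4 := sub_mem (Gw_wh (p0 := p0) hY hc h1 h2 (hx p)) h3
    rwa [sub_sub_sub_cancel_left] at h4
  induction n with
  | zero => exact base c hc (hp 0 le_rfl)
  | succ n ih =>
    have hc1 := NrC_left (n' := 0) hc
    have hc2 := zy4_nr hδ hc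
    have e : ∀ i ≤ 0, c (n + 1 + i) = c (n + 1) := fun i hi => by rw [Nat.le_zero.1 hi]
    have h1 := Gw_ZZ (p0 := p0) hY hc2 (fun _ _ => hp _ le_rfl) (hx p)
    have h2 := base _ hc2 (hp _ le_rfl)
    rw [← Mc_congr (c' := fun i => c (n + 1 + i)) e] at h2
    rw [Of, ← OfB_congr (c' := fun i => c (n + 1 + i)) e] at h1
    have h3 := Mc_mul (n' := 0) (Bt_ZZ hY hx hc1) h1 (ih hc1 fun i hi => hp i (by omega)) h2
    have h4 := add_mem h3 (Gw_mul hY hc hp (pwr_mem n (hx p)) (pwr_HD n (hd p)) (hx p))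
    rwa [sub_add_sub_cancel] at h4

end Pool.Agent.Fu
end

-- part Pool.Agent.P.MP_365c00_gt.ZD8
section

/-! The contradiction with the localisation. -/

set_option linter.unusedSectionVars false
set_option linter.unusedVariables false

open Set Topology Filter Metric

namespace Pool.Agent.Fu

variable {F : Type} [Field F] {M : Type} [MetricSpace M] {d q n : ℕ} {S : GS M} {p0 p : M}
  {δ t : ℝ}

theorem det_main [Fact q.Prime] [CharP F q] (h2 : (2 : F) ≠ 0) (hδ : 0 < δ) (ha : 16 * δ ≤ S.a)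
    (hE : Euc d (ball p (2 * δ))) {N : ℕ} (ι : C(M, Fin N → ℝ)) (hι : Function.Injective ι)
    {o : Ch F (Bs M d)} (ho : Gen F (d + d) univ ((p, 0) : Bs M d) o)
    (hos : o ∈ CC F (ball ((p, 0) : Bs M d) (δ / 8))) {D : ℕ} (hD : Even D) {w : Ch F (Mo M)}
    (hw : w ∈ ZZ F (Pa p p) ∅) (hd : w ∈ HD F _ D) {l : ℝ} (hn : w ∉ NN F (Pa p p) (Om p p l))
    {z : Ch F (Pos M d)}
    (hz : z - mp (Gb S) (cross o w) ∈ CC F (A0 δ ∩ {y : Pos M d | y.1 ≠ (p, 0)})) {lo : ℝ}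
    (hlo : lo + 4 * δ * q ≤ q * l) {R : ℕ} (hR : (N + (d + d)) * q ≤ R) :
    ¬ (gcy F (Pos M d) q).Nul (CC F (Zt q δ)) (CC F (Zt q δ ∩ farZ q δ ∪ Zs q δ lo)) R
      (sq 0 (cpr q fun _ => z)) := by
  intro h
  obtain ⟨φ, ψ, V0, hV0, hφ, hψ, m1, m2, l1, l2⟩ := hE
  have hsub : ball p δ ⊆ ball p (2 * δ) := ball_subset_ball (by linarith)
  have hp : p ∈ ball p (2 * δ) := mem_ball_self (by linarith)
  have hinj : InjOn φ (ball p (2 * δ)) := fun x hx y hy e => by rw [← l1 x hx, e, l1 y hy]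
  have h1 := det_exc hδ ha ho.zz ho.hd hos hD hw hd hz h
  have h3 := det_push hδ ha ι hι (hφ.mono hsub) (hinj.mono hsub) ho.zz ho.hd hos hD hw hd hlo h1
  set Ψ : Bs M d → (Fin N → ℝ) × ((Fin d → ℝ) × (Fin d → ℝ)) :=
    fun b => (ι b.1, (b.2, φ b.1 - φ p)) with hΨdef
  set U : Set (Bs M d) := ball p (2 * δ) ×ˢ univ with hU
  have hoU : o ∈ CC F U := by
    refine CC_mono (B := U) ?_ hos
    intro b hb
    refine ⟨?_, mem_univ _⟩
    have h4 : dist b.1 p ≤ dist b ((p, 0) : Bs M d) := by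
      rw [Prod.dist_eq]
      exact le_max_left _ _
    have h5 : dist b ((p, 0) : Bs M d) < δ / 8 := hb
    show dist b.1 p < 2 * δ
    linarith
  have hφ' : ContinuousOn (fun b : Bs M d => (b.2, φ b.1 - φ p)) U :=
    continuousOn_snd.prodMk
      ((hφ.comp continuousOn_fst fun b hb => hb.1).sub continuousOn_const)
  have hΨ : ContinuousOn Ψ U :=
    (ι.continuous.comp continuous_fst).continuousOn.prodMk hφ'
  have ho' : mp Ψ o ∈ ZZ F univ {z : (Fin N → ℝ) × ((Fin d → ℝ) × (Fin d → ℝ)) | z.2 ≠ 0} := by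
    refine mp_mem_ZZ (B := univ \ {((p, 0) : Bs M d)}) hΨ (mapsTo_univ _ _) ?_
      (mem_ZZ.2 ⟨hoU, (mem_ZZ.1 ho.zz).2⟩)
    intro b hb e
    have e1 : b.2 = 0 := congrArg Prod.fst e
    have e2 : φ b.1 - φ p = 0 := congrArg Prod.snd e
    exact hb.2.2 (Prod.ext (hinj hb.1.1 hp (sub_eq_zero.1 e2)) e1)
  have hd' : mp Ψ o ∈ HD F _ (d + d) := mp_mem_HD Ψ ho.hd
  have hg : Gen F (d + d) univ 0 (map ContinuousMap.snd (mp Ψ o)) := by
    rw [map_mp _ hΨ hoU]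
    have hc : Continuous fun e : (Fin d → ℝ) × (Fin d → ℝ) => e.2 + φ p := by fun_prop
    have h4 := ho.transfer (B := univ) (U := U)
      (V := {e : (Fin d → ℝ) × (Fin d → ℝ) | e.2 + φ p ∈ V0}) (isOpen_ball.prod isOpen_univ)
      (hV0.preimage hc) ⟨mem_univ _, hp, mem_univ _⟩ (by rwa [univ_inter])
      (φ := fun b : Bs M d => (b.2, φ b.1 - φ p)) (ψ := fun e => (ψ (e.2 + φ p), e.1))
      (hφ'.mono inter_subset_right)
      ((hψ.comp hc.continuousOn fun e he => he.2).prodMk continuousOn_fst)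
      (fun b hb => ⟨mem_univ _, by
        show φ b.1 - φ p + φ p ∈ V0
        rw [sub_add_cancel]
        exact m1 hb.2.1⟩)
      (fun e he => ⟨mem_univ _, m2 he.2, mem_univ _⟩)
      (fun b hb => by
        show (ψ (φ b.1 - φ p + φ p), b.2) = b
        rw [sub_add_cancel, l1 _ hb.2.1])
      (fun e he => by
        show (e.1, φ (ψ (e.2 + φ p)) - φ p) = e
        rw [l2 _ he.2, add_sub_cancel_right])
    simp only [sub_self] at h4
    exact h4
  have hev : Even (d + d) := ⟨d, rfl⟩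
  have hO : IsOpen {γ : Mo M | γ.2 < l} := isOpen_lt continuous_snd continuous_const
  have hb : bd (cpr q fun _ => mp Ψ o) ∈ CC F (WV (Fin N → ℝ) ((Fin d → ℝ) × (Fin d → ℝ)) q) :=
    CC_mono (fun x hx => Or.inl hx.2) (mem_ZZ.1 (cpr_ZZ (q := q) fun _ _ => ho')).2
  have h5 := tp_nul WV_open WV_inv hO hD hw hd hn hb (cpr_fix hd' hev) h3
  refine loc_false h2 hev ho' hd' hg ?_ h5
  simpa using hR

end Pool.Agent.Fu
end

-- part Pool.Agent.P.MP_365c00_gt.ZI9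
section

/-! Index theory: the upper bound. -/

set_option linter.unusedSectionVars false
set_option linter.unusedVariables false

open Set Filter Topology Metric Function MeasureTheory
open scoped Manifold ContDiff
open Pool.Agent.GeoN

namespace Pool.Agent.Fu

variable {E : Type} [NormedAddCommGroup E] [InnerProductSpace ℝ E] [FiniteDimensional ℝ E]
  {M : Type} [MetricSpace M] [ChartedSpace E M] [IsManifold 𝓘(ℝ, E) ∞ M]
  [CompactSpace M] [Nonempty M] [Nontrivial E] {g : Met E M}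

variable {sh : Short g} {a : ℝ}

theorem zi9_congr (u : UG g) (k : ℕ) (t : ℕ → ℝ) {v w : ℕ → E} (e : ∀ j ≤ k, v j = w j) :
    Qf sh u k t v v = Qf sh u k t w w := by
  refine Finset.sum_congr rfl fun j hj => ?_
  have h1 := Finset.mem_range.1 hj
  rw [e j h1.le, e (j + 1) h1]

theorem idx_upper (h : SMd sh dist a) (u : UG g) {P l : ℝ} (hP : 0 < P) (hl : 0 < l) :
    idx sh a u (l + P) ≤ idx sh a (shift P u) l + (idx sh a u P + (Module.finrank ℝ E - 1)) := by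
  obtain ⟨k, t, ht⟩ : ∃ k t, Part a P k t := ⟨_, _, part_std h.pos hP⟩
  obtain ⟨k', t', ht'⟩ : ∃ k t, Part a l k t := ⟨_, _, part_std h.pos hl⟩
  rw [idx_part' h u (ht.ctp ht'), idx_part' h u ht, idx_part' h (shift P u) ht']
  obtain ⟨X, hX, hXk, hXQ⟩ := tent h u ht ht'
  obtain ⟨φ1, h1⟩ := nI_fun (Ql sh u k t) (Vk E k) (Qf_symm' h u ht)
  obtain ⟨φ2, h2⟩ := nI_fun (Ql sh (shift P u) k' t') (Vk E k') (Qf_symm' h _ ht')
  have hτ : tv u P ≠ 0 := fun e => by simpa [e] using gt_tv u P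
  let ev : (ℕ → E) →ₗ[ℝ] E := LinearMap.proj k
  let R : (ℕ → E) →ₗ[ℝ] (ℕ → E) :=
    LinearMap.id - ((gt u P (tv u P)).toLinearMap ∘ₗ ev).smulRight X
  let p1 : (ℕ → E) →ₗ[ℝ] (ℕ → E) := LinearMap.pi fun j => if j < k then LinearMap.proj j else 0
  let p2 : (ℕ → E) →ₗ[ℝ] (ℕ → E) := LinearMap.pi fun j => LinearMap.proj (k + j)
  have hp1 : ∀ w j, p1 w j = if j < k then w j else 0 := by
    intro w j
    simp only [p1, LinearMap.pi_apply]
    split_ifs <;> rfl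
  refine (nI_le_of_fun ((φ2 ∘ₗ p2 ∘ₗ R).prod ((φ1 ∘ₗ p1 ∘ₗ R).prod
    ((Submodule.span ℝ {tv u P}).mkQ ∘ₗ ev))) fun v hv h0 => ?_).trans ?_
  · have e2 : φ2 (p2 (R v)) = 0 := congrArg Prod.fst h0
    have e1 : φ1 (p1 (R v)) = 0 := congrArg (fun z => z.2.1) h0
    have e0 : (Submodule.span ℝ {tv u P}).mkQ (v k) = 0 := congrArg (fun z => z.2.2) h0
    obtain ⟨c, hc⟩ := Submodule.mem_span_singleton.1 ((Submodule.Quotient.mk_eq_zero _).1 e0)
    have eR : R v = v - c • X := by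
      show v - gt u P (tv u P) (v k) • X = _
      rw [← hc, map_smul, gt_tv, smul_eq_mul, mul_one]
    rw [eR] at e1 e2
    have hw : v - c • X ∈ Vk E (k + k') := sub_mem hv (Submodule.smul_mem _ c hX)
    have hwk : (v - c • X) k = 0 := by
      rw [Pi.sub_apply, Pi.smul_apply, hXk, hc, sub_self]
    obtain ⟨w, rfl⟩ : ∃ w, v = w + c • X := ⟨v - c • X, (sub_add_cancel _ _).symm⟩
    rw [add_sub_cancel_right] at e1 e2 hw hwk
    have a1 : 0 ≤ Qf sh u k t w w := by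
      have h3 := h1 (p1 w) ⟨by rw [hp1, if_pos ht.1, hw.1], fun j hj => by
        rw [hp1, if_neg (not_lt.2 hj)]⟩ e1
      rwa [Ql_apply, zi9_congr u k t (w := w) fun j hj => by
        rw [hp1]
        split_ifs with h4
        · rfl
        · rw [le_antisymm hj (not_lt.1 h4), hwk]] at h3
    have a2 : 0 ≤ Qf sh (shift P u) k' t' (fun j => w (k + j)) (fun j => w (k + j)) :=
      h2 (p2 w) ⟨hwk, fun j hj => hw.2 (k + j) (Nat.add_le_add_left hj k)⟩ e2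
    have a3 : 0 ≤ Ql sh u (k + k') (ctp k P t t') w w := by
      rw [Ql_apply, Qf_ctp u ht ht']
      exact add_nonneg a1 a2
    have a4 : Ql sh u (k + k') (ctp k P t t') X w = 0 := by
      rw [Ql_apply, hXQ w hw, hwk, map_zero, mul_zero]
    have a5 : Ql sh u (k + k') (ctp k P t t') w X = 0 := by
      rw [Ql_apply, Qf_symm' h u (ht.ctp ht'), ← Ql_apply, a4]
    have a6 : 0 ≤ Ql sh u (k + k') (ctp k P t t') X X := by
      rw [Ql_apply, hXQ X hX, hXk, gt_tv]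
      positivity
    rw [← Ql_apply]
    simp only [map_add, map_smul, LinearMap.add_apply, LinearMap.smul_apply, smul_eq_mul, a4, a5,
      mul_zero, add_zero, zero_add]
    rw [← mul_assoc]
    exact add_nonneg a3 (mul_nonneg (mul_self_nonneg c) a6)
  · have h3 := Submodule.finrank_quotient_add_finrank (Submodule.span ℝ {tv u P})
    rw [finrank_span_singleton hτ] at h3
    rw [Module.finrank_prod, Module.finrank_prod, Module.finrank_fin_fun, Module.finrank_fin_fun,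
      ← h3, Nat.add_sub_cancel]
    exact le_rfl

end Pool.Agent.Fu
end

-- part Pool.Agent.P.MP_365c00_gt.ZQ3b
section

/-! Multiplication by the class of a long closed geodesic reflects boundaries. -/

set_option linter.unusedSectionVars false
set_option linter.unusedVariables false

open Set Topology Filter Metric

namespace Pool.Agent.Fu

variable {F : Type} [Field F] {M : Type} [MetricSpace M] {Z : Type} [TopologicalSpace Z]

section
variable {P P' : Type} [AddCommGroup P] [Module F P] [AddCommGroup P'] [Module F P']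
  {d : P →ₗ[F] P} {d' : P' →ₗ[F] P'} {f : P →ₗ[F] P'} {A B : Submodule F P} {A' B' : Submodule F P'}

theorem QI.of_zero (h : ∀ c ∈ A, d c ∈ B → c ∈ A.map d ⊔ B)
    (h' : ∀ c ∈ A', d' c ∈ B' → c ∈ A'.map d' ⊔ B') : QI d d' f A B A' B' := by
  refine ⟨fun c hc hd _ => h c hc hd, fun c' hc hd => ⟨0, A.zero_mem, ?_, ?_⟩⟩
  · rw [map_zero]
    exact B.zero_mem
  · rw [map_zero, zero_sub]
    exact neg_mem (h' c' hc hd)

theorem QI.of_one (hA : ∀ c ∈ A, f c ∈ A') (hB : ∀ c ∈ B, f c ∈ B') (hf : ∀ c ∈ A, d' (f c) = f (d c))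
    {g : P} {g' : P'} (hg : g ∈ A) (hd : d g ∈ B)
    (h : ∀ c ∈ A, d c ∈ B → ∃ r : F, c - r • g ∈ A.map d ⊔ B)
    (h' : ∀ c ∈ A', d' c ∈ B' → ∃ r : F, c - r • g' ∈ A'.map d' ⊔ B')
    (hn : f g ∉ A'.map d' ⊔ B') : QI d d' f A B A' B' := by
  have key : ∀ c ∈ A.map d ⊔ B, f c ∈ A'.map d' ⊔ B' := by
    intro c hc
    obtain ⟨a, ha, hb⟩ := zg1_mem.1 hc
    refine zg1_mem.2 ⟨f a, hA a ha, ?_⟩
    rw [hf a ha, ← map_sub]
    exact hB _ hb
  have unit : ∀ r : F, r • f g ∈ A'.map d' ⊔ B' → r = 0 := by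
    intro r hr
    by_contra h0
    exact hn ((Submodule.smul_mem_iff _ h0).1 hr)
  constructor
  · intro c hc hdc hfc
    obtain ⟨r, hr⟩ := h c hc hdc
    have h1 := key _ hr
    rw [map_sub, map_smul] at h1
    have h2 := Submodule.sub_mem _ hfc h1
    rw [sub_sub_cancel] at h2
    rwa [unit r h2, zero_smul, sub_zero] at hr
  · intro c' hc hdc
    obtain ⟨s, hs⟩ := h' (f g) (hA g hg) (by rw [hf g hg]; exact hB _ hd)
    obtain ⟨r, hr⟩ := h' c' hc hdc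
    have hs0 : s ≠ 0 := by
      rintro rfl
      rw [zero_smul, sub_zero] at hs
      exact hn hs
    refine ⟨(r / s) • g, A.smul_mem _ hg, ?_, ?_⟩
    · rw [map_smul]
      exact B.smul_mem _ hd
    · have h1 := Submodule.sub_mem _ (Submodule.smul_mem _ (r / s) hs) hr
      rw [smul_sub, smul_smul, div_mul_cancel₀ _ hs0, sub_sub_sub_cancel_right] at h1
      rwa [map_smul]
end

theorem zq3b_mul {x y : M} {s t r : ℝ} {e c : Ch F (Mo M)} (he : e ∈ CC F (Om x x s))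
    (hc : c ∈ CC F (Om x y t)) (h : s + t ≤ r) : mul e c ∈ CC F (Om x y r) := by
  refine mul_mem_CC (fun α hα β hβ => ⟨cat_mem hα.1 hβ.1, ?_⟩) he hc
  rw [cat_dur]
  linarith [hα.2, hβ.2]

theorem zq3b_bd {x y : M} {s t : ℝ} {N : ℕ} {e c : Ch F (Mo M)} (he : e ∈ ZZ F (Om x x s) ∅)
    (hd : e ∈ HD F _ N) (hN : Even N) (hc : c ∈ CC F (Om x y t)) :
    bd (mul e c) = mul e (bd c) := by
  rw [bd_mul (CC_mono (Om_sub x x s) he.1) (CC_mono (Om_sub x y t) hc), (mem_ZZ_empty.1 he).2,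
    om_of_even hd hN, map_zero, LinearMap.zero_apply, zero_add]

namespace GD
variable {D : GD M} {x y : M} {τ : ℝ}

/-- crossing one critical level -/
theorem zq3b_step (hM : D.MT F) (hτ : 0 < τ) {N : ℕ} (hN : Even N) (hp : D.Per τ N x y) {γ b : ℝ}
    (hγ : 0 < γ) {e g : Ch F (Mo M)} (he : e ∈ ZZ F (Om x x (N * τ + γ / 4)) ∅)
    (hd : e ∈ HD F _ N) {w : D.G × ℝ} (hw : w ∈ D.J x y) (hb : w.2 < b)
    (hmax : ∀ v ∈ D.J x y, v.2 < b → v.2 ≤ w.2) (hgap : D.Gap x y b (b + γ / 4)) (h1 : γ ≤ w.2)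
    (hi : D.Iso x y w.2 γ) (hg : g ∈ ZZ F (Omc x y w.2) (Om x y (w.2 - γ)))
    (hn : mul e g ∉ NN F (Om x y (N * τ + w.2 + γ)) (Om x y (N * τ + w.2))) :
    QI bd bd (mul e) (CC F (Om x y b)) (CC F (Om x y (w.2 - γ / 2)))
      (CC F (Om x y (N * τ + b + γ / 4))) (CC F (Om x y (N * τ + (w.2 - γ / 2) + γ / 4))) := by
  have win : ∀ v ∈ D.J x y, w.2 - γ / 2 ≤ v.2 → v.2 < b + γ / 4 → v.2 = w.2 := by
    intro v hv k1 k2
    have k3 := hmax v hv ((hgap v hv).resolve_right (not_le.2 k2))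
    exact hi v hv (abs_le.2 ⟨by linarith, by linarith⟩)
  obtain ⟨G, hG, -, -, sG⟩ := hM.gen_win hp.1 hw (b := w.2 - γ / 2) (c := b) (by linarith) hb
    (fun v hv => by
      rcases lt_or_ge v.2 (w.2 - γ / 2) with k1 | k1
      · exact Or.inl k1
      rcases lt_or_ge v.2 b with k2 | k2
      · exact Or.inr (Or.inl (win v hv k1 (by linarith)))
      · exact Or.inr (Or.inr k2))
  obtain ⟨G', -, -, -, sG'⟩ := hM.gen_win hp.1 (hp.add hτ hw)
    (b := N * τ + (w.2 - γ / 2) + γ / 4) (c := N * τ + b + γ / 4)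
    (by show _ ≤ w.2 + N * τ; linarith) (by show w.2 + N * τ < _; linarith)
    (fun v hv => by
      rcases lt_or_ge v.2 (N * τ + (w.2 - γ / 2) + γ / 4) with k1 | k1
      · exact Or.inl k1
      rcases lt_or_ge v.2 (N * τ + b + γ / 4) with k2 | k2
      · have k3 := win _ (hp.sub hv (by linarith)).1 (by show _ ≤ v.2 - N * τ; linarith)
          (by show v.2 - N * τ < _; linarith)
        refine Or.inr (Or.inl ?_)
        show v.2 = w.2 + N * τ
        have k4 : v.2 - N * τ = w.2 := k3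
        linarith
      · exact Or.inr (Or.inr k2))
  refine QI.of_one (g := G) (g' := G') (fun c hc => zq3b_mul he.1 hc (by linarith))
    (fun c hc => zq3b_mul he.1 hc (by linarith)) (fun c hc => zq3b_bd he hd hN hc)
    (CC_mono (Omc_sub_Om x y hb) hG.1) hG.2 (fun c hc hdc => sG c ⟨hc, hdc⟩)
    (fun c hc hdc => sG' c ⟨hc, hdc⟩) fun hGn => hn ?_
  have hGn' : mul e G ∈ NN F (Om x y (N * τ + b + γ / 4))
      (Om x y (N * τ + (w.2 - γ / 2) + γ / 4)) := hGn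
  obtain ⟨r, hr⟩ := sG g (ZZ_mono (Omc_sub_Om x y hb) (Om_mono x y (by linarith)) hg)
  have k1 := mul_cyc_NN (by linarith) he hr
  have k2 : mul e (g - r • G) ∈ NN F (Om x y (N * τ + b + γ / 4)) (Om x y (N * τ + w.2)) :=
    NN_mono (Om_mono x y (by linarith)) (Om_mono x y (by linarith)) k1
  have k3 : mul e G ∈ NN F (Om x y (N * τ + b + γ / 4)) (Om x y (N * τ + w.2)) :=
    NN_mono subset_rfl (Om_mono x y (by linarith)) hGn'
  have k4 := Submodule.add_mem _ k2 (Submodule.smul_mem _ r k3)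
  rw [map_sub, map_smul, sub_add_cancel] at k4
  have k5 : g ∈ ZZ F (Om x y (w.2 + γ / 4)) (Om x y (w.2 - γ)) :=
    ZZ_mono (Omc_sub_Om x y (by linarith)) subset_rfl hg
  have k6 : mul e g ∈ ZZ F (Om x y (N * τ + w.2 + γ / 2)) (Om x y (N * τ + w.2)) :=
    ZZ_mono (Om_mono x y (by linarith)) (Om_mono x y (by linarith)) (mul_cyc_ZZ he k5)
  refine NN_mono (Om_mono x y (by linarith)) subset_rfl
    (hM.gap_inj hp.1.1 (fun v hv => ?_) (by linarith) k6 k4)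
  rcases lt_or_ge v.2 (N * τ + w.2 + γ / 2) with j1 | j1
  · exact Or.inl j1
  rcases lt_or_ge v.2 (N * τ + b + γ / 4) with j2 | j2
  · have j3 := win _ (hp.sub hv (by linarith)).1 (by show _ ≤ v.2 - N * τ; linarith)
      (by show v.2 - N * τ < _; linarith)
    have j4 : v.2 - N * τ = w.2 := j3
    exfalso
    linarith
  · exact Or.inr j2

/-- multiplication is an isomorphism at every level followed by a gap -/
theorem zq3b_all (hM : D.MT F) (hτ : 0 < τ) {N : ℕ} (hN : Even N) (hp : D.Per τ N x y) {γ L : ℝ}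
    (hγ : 0 < γ) {e : Ch F (Mo M)} (he : e ∈ ZZ F (Om x x (N * τ + γ / 4)) ∅)
    (hd : e ∈ HD F _ N)
    (hw : ∀ w ∈ D.J x y, w.2 ≤ L → γ ≤ w.2 ∧
      D.Iso x y w.2 γ ∧ ∃ g ∈ ZZ F (Omc x y w.2) (Om x y (w.2 - γ)),
        mul e g ∉ NN F (Om x y (N * τ + w.2 + γ)) (Om x y (N * τ + w.2))) (n : ℕ) :
    ∀ b, {w | w ∈ D.J x y ∧ w.2 < b}.ncard = n → 0 ≤ b → b ≤ L → D.Gap x y b (b + γ / 4) →
      QI bd bd (mul e) (CC F (Om x y b)) (CC F ∅) (CC F (Om x y (N * τ + b + γ / 4)))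
        (CC F (Om x y (N * τ))) := by
  induction n using Nat.strong_induction_on with
  | _ n ih =>
    intro b hn h0 hL hgap
    have hfin : {w | w ∈ D.J x y ∧ w.2 < b}.Finite :=
      (hp.1.2.2.2 b).subset fun w k => ⟨k.1, k.2.le⟩
    rcases Set.eq_empty_or_nonempty {w | w ∈ D.J x y ∧ w.2 < b} with hE | hE
    · have none : ∀ v ∈ D.J x y, b + γ / 4 ≤ v.2 := fun v hv =>
        (hgap v hv).resolve_left fun k => (Set.eq_empty_iff_forall_notMem.1 hE v) ⟨hv, k⟩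
      refine QI.of_zero (fun c hc hdc => ?_) fun c hc hdc => ?_
      · have k1 := hM.mt0 x y 0 b hp.1.1 fun v hv => Or.inr (by linarith [none v hv])
        rw [Om_empty (x := x) (y := y) (t := 0) dist_nonneg] at k1
        exact k1 ⟨hc, hdc⟩
      · refine hM.mt0 x y (N * τ) (N * τ + b + γ / 4) hp.1.1 (fun v hv => ?_) ⟨hc, hdc⟩
        rcases lt_or_ge v.2 (N * τ) with k1 | k1
        · exact Or.inl k1
        · have k2 : b + γ / 4 ≤ v.2 - N * τ := none _ (hp.sub hv k1).1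
          exact Or.inr (by linarith)
    · obtain ⟨w, ⟨hwJ, hwb⟩, hmax⟩ := Set.exists_max_image _ (fun v => v.2) hfin hE
      obtain ⟨k1, k2, g, hg, hgn⟩ := hw w hwJ (by linarith)
      have q2 := zq3b_step hM hτ hN hp hγ he hd hwJ hwb (fun v hv k => hmax v ⟨hv, k⟩) hgap k1 k2
        hg hgn
      have q1 := ih {v | v ∈ D.J x y ∧ v.2 < w.2 - γ / 2}.ncard (by
        rw [← hn]
        refine Set.ncard_lt_ncard ⟨fun v k => ⟨k.1, by linarith [k.2]⟩, fun k => ?_⟩ hfin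
        have := (k ⟨hwJ, hwb⟩).2
        linarith) (w.2 - γ / 2) rfl (by linarith) (by linarith) (fun v hv => by
        rcases lt_or_ge v.2 (w.2 - γ / 2) with j1 | j1
        · exact Or.inl j1
        rcases lt_or_ge v.2 (w.2 - γ / 2 + γ / 4) with j2 | j2
        · have := k2 v hv (abs_le.2 ⟨by linarith, by linarith⟩)
          exfalso
          linarith
        · exact Or.inr j2)
      refine QI.five bd_bd bd_bd (CC_mono (Set.empty_subset _))
        (CC_mono (Om_mono x y (by linarith))) (CC_mono (Om_mono x y (by linarith)))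
        (CC_mono (Om_mono x y (by linarith))) (fun c hc => bd_mem_CC hc)
        (fun c hc => bd_mem_CC hc) (fun c hc => bd_mem_CC hc) (fun c hc => bd_mem_CC hc)
        (fun c hc => bd_mem_CC hc) (fun c hc => bd_mem_CC hc) (fun c hc => ?_)
        (fun c hc => zq3b_mul he.1 hc (by linarith)) (fun c hc => zq3b_mul he.1 hc (by linarith))
        (fun c hc => zq3b_bd he hd hN hc) q1 q2
      rw [CC_empty, Submodule.mem_bot] at hc
      rw [hc, map_zero]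
      exact Submodule.zero_mem _

theorem MT.mu (hM : D.MT F) (hD : D.DN τ) (h : D.Good τ x y) (L : ℝ) {ε : ℝ} (hε : 0 < ε)
    {K : ℕ} (hK : 0 < K) :
    ∃ (N : ℕ) (e : Ch F (Mo M)), 0 < N ∧ K ∣ N ∧ D.Per τ N x y ∧
      e ∈ ZZ F (Om x x (N * τ + ε)) ∅ ∧ e ∈ HD F _ N ∧ ∀ b, 0 ≤ b → b ≤ L →
        ∀ z ∈ ZZ F (Om x y b) ∅, mul e z ∈ NN F (Om x y (N * τ + b)) (Om x y (N * τ)) →
          z ∈ BB F (Om x y (b + ε)) := by
  obtain ⟨N, γ, e, hN, hKN, hev, hp, hγ, hγε, he, hd, hw⟩ :=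
    hM.mu1 hD h (L + 1) (lt_min hε one_pos) hK
  have g1 : γ ≤ ε := hγε.trans (min_le_left _ _)
  have g2 : γ ≤ 1 := hγε.trans (min_le_right _ _)
  refine ⟨N, e, hN, hKN, hp, ZZ_mono (Om_mono x x (by linarith)) subset_rfl he, hd,
    fun b h0 hb z hz hez => ?_⟩
  obtain ⟨b', k1, k2, hgap⟩ : ∃ b', b ≤ b' ∧ b' ≤ b + γ / 4 ∧ D.Gap x y b' (b' + γ / 4) := by
    by_cases hg : D.Gap x y b (b + γ / 4)
    · exact ⟨b, le_rfl, by linarith, hg⟩
    · refine ⟨b + γ / 4, by linarith, le_rfl, fun v hv => ?_⟩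
      simp only [Gap, not_forall, not_or, not_lt, not_le] at hg
      obtain ⟨w, hwJ, j1, j2⟩ := hg
      rcases lt_or_ge v.2 (b + γ / 4) with j3 | j3
      · exact Or.inl j3
      rcases lt_or_ge v.2 (b + γ / 4 + γ / 4) with j4 | j4
      · have := (hw w hwJ (by linarith)).2.1 v hv (abs_le.2 ⟨by linarith, by linarith⟩)
        exfalso
        linarith
      · exact Or.inr j4
  have q := zq3b_all hM hD.pos hev hp hγ he hd hw _ b' rfl (by linarith) (by linarith) hgap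
  have k3 : mul e z ∈ NN F (Om x y (N * τ + b' + γ / 4)) (Om x y (N * τ)) :=
    NN_mono (Om_mono x y (by linarith)) subset_rfl hez
  have k4 : z ∈ NN F (Om x y b') ∅ := q.1 z (CC_mono (Om_mono x y k1) hz.1) hz.2 k3
  rw [NN_empty] at k4
  exact BB_mono (Om_mono x y (by linarith)) k4

end GD

end Pool.Agent.Fu
end

-- part Pool.Agent.P.MP_365c00_gt.ZQ7
section

/-! All closed short geodesics have the same mean index. -/

set_option linter.unusedSectionVars false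
set_option linter.unusedVariables false

open Set Topology Filter Metric

namespace Pool.Agent.Fu

variable {F : Type} [Field F] {M : Type} [MetricSpace M] {Z : Type} [TopologicalSpace Z]

theorem zq7_two {D : GD M} {u : D.G} {P : ℝ} {m : ℕ} (h : D.FP u P m) : (0 : ℝ) < m := by
  have := h.2.2.2 P h.1 le_rfl
  exact_mod_cast (by omega : 0 < m)

/-- the property passes between close pairs -/
theorem zq7_loc {D : GD M} (hM : D.MT F) {τ : ℝ} {z p q : M × M}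
    (hp : p ∈ ball z (dist z.1 z.2 / 100)) (hq : q ∈ ball z (dist z.1 z.2 / 100))
    (fp : D.Fin0 p.1 p.2) (fq : D.Fin0 q.1 q.2) (dp : dist p.1 p.2 < D.a / 8)
    (dq : dist q.1 q.2 < D.a / 8) {u : D.G} (hu : (u, dist p.1 p.2) ∈ D.J p.1 p.2) {m : ℕ}
    (hf : D.FP u (m * τ) m) (v : D.G) (h0 : D.ev v 0 = q.1) (h1 : D.ev v (dist q.1 q.2) = q.2) :
    ∃ m : ℕ, D.FP v (m * τ) m := by
  rw [mem_ball, Prod.dist_eq, max_lt_iff] at hp hq
  have t1 := dist_triangle_right q.1 p.1 z.1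
  have t2 := dist_triangle_right p.2 q.2 z.2
  have t3 := dist_triangle4 z.1 p.1 p.2 z.2
  rw [dist_comm z.1 p.1] at t3
  have t4 : 0 ≤ dist z.1 z.2 := dist_nonneg
  have hv : (v, dist q.1 q.2) ∈ D.J q.1 q.2 := ⟨dist_pos.2 fq.1.1, h0, h1⟩
  obtain ⟨m', hm'⟩ := hM.near fp fq dp dq (by linarith [hp.1, hp.2, hq.1, hq.2]) hu hv hf
  rw [mul_div_cancel_left₀ τ (zq7_two hf).ne'] at hm'
  exact ⟨m', hm'⟩

theorem part1 (D : GD M) (hM : D.MT F) (hd : Dense {z : M × M | D.Fin0 z.1 z.2})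
    (hc : IsPreconnected {z : M × M | 0 < dist z.1 z.2 ∧ dist z.1 z.2 < D.a / 8})
    (h0 : ∃ x y, D.Fin0 x y ∧ dist x y < D.a / 8 ∧ ∃ u, D.ev u 0 = x ∧ D.ev u (dist x y) = y ∧
      ∃ P > 0, Function.Periodic (D.ev u) P) :
    ∃ τ > 0, ∀ x y, D.Fin0 x y → dist x y < D.a / 8 → ∀ u, D.ev u 0 = x →
      D.ev u (dist x y) = y → ∃ m : ℕ, D.FP u (m * τ) m := by
  obtain ⟨x0, y0, f0, d0, u0, a0, b0, P0, hP0, hp0⟩ := h0
  have r0 : 0 < dist x0 y0 := dist_pos.2 f0.1.1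
  have j0 : (u0, dist x0 y0) ∈ D.J x0 y0 := ⟨r0, a0, b0⟩
  obtain ⟨P, m0, hf0⟩ := f0.fp j0 hP0 hp0
  have hm0 := zq7_two hf0
  have hf1 : D.FP u0 (m0 * (P / m0)) m0 := by rwa [mul_div_cancel₀ P hm0.ne']
  refine ⟨P / m0, div_pos hf0.1 hm0, ?_⟩
  generalize P / m0 = τ at hf1
  let T : Set (M × M) := {q | D.Fin0 q.1 q.2 → dist q.1 q.2 < D.a / 8 → ∀ v, D.ev v 0 = q.1 →
    D.ev v (dist q.1 q.2) = q.2 → ∃ m : ℕ, D.FP v (m * τ) m}
  have key : ∀ z p : M × M, 0 < dist z.1 z.2 → p ∈ ball z (dist z.1 z.2 / 100) →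
      D.Fin0 p.1 p.2 → dist p.1 p.2 < D.a / 8 → ∀ (u : D.G) (m : ℕ),
      (u, dist p.1 p.2) ∈ D.J p.1 p.2 → D.FP u (m * τ) m → z ∈ interior T := by
    intro z p hz hp fp dp u m hu hf
    refine mem_interior.2 ⟨ball z (dist z.1 z.2 / 100), ?_, isOpen_ball,
      mem_ball_self (by positivity)⟩
    intro q hq fq dq v h0 h1
    exact zq7_loc hM hp hq fp fq dp dq hu hf v h0 h1
  have hs := hc.subset_of_closure_inter_subset (isOpen_interior (s := T))
    ⟨(x0, y0), ⟨r0, d0⟩, key (x0, y0) (x0, y0) r0 (mem_ball_self (by positivity)) f0 d0 u0 m0 j0 hf1⟩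
    (by
      rintro z ⟨hz, z1, z2⟩
      have ho : IsOpen (ball z (dist z.1 z.2 / 100) ∩ {q : M × M | dist q.1 q.2 < D.a / 8}) :=
        isOpen_ball.inter (isOpen_lt continuous_dist continuous_const)
      have hn := mem_closure_iff.1 hz _ ho ⟨mem_ball_self (by positivity), z2⟩
      obtain ⟨p, ⟨⟨p1, p2⟩, p3⟩, fp⟩ := hd.inter_open_nonempty _ (ho.inter isOpen_interior) hn
      have p2' : dist p.1 p.2 < D.a / 8 := p2
      have fp' : D.Fin0 p.1 p.2 := fp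
      have ha := D.a_pos
      obtain ⟨u, u0, u1⟩ := D.ex p.1 p.2 fp'.1.1 (by linarith)
      obtain ⟨m, hm⟩ := interior_subset p3 fp' p2' u u0 u1
      exact key z p z1 p1 fp' p2' u m ⟨dist_pos.2 fp'.1.1, u0, u1⟩ hm)
  intro x y f d
  exact interior_subset (hs (show (x, y) ∈ _ from ⟨dist_pos.2 f.1.1, d⟩)) f d

end Pool.Agent.Fu
end

-- part Pool.Agent.P.MP_365c00_gt.ZY5
section

/-! Local vanishing and global classes. -/

set_option linter.unusedSectionVars false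
set_option linter.unusedVariables false

open Set Topology Filter Metric

namespace Pool.Agent.Fu

variable {F : Type} [Field F] {M : Type} [MetricSpace M] {d q n : ℕ} {S : GS M} {p0 p : M}
  {δ t : ℝ}

variable {O : OR F (d + d) (Bs M d)} {x : M → Ch F (Mo M)} {C0 τ θ η A s : ℝ} {D J : ℕ}

/-- small subsets of the core -/
def SmY (p0 : M) (δ : ℝ) (n : ℕ) (K : Set (ℕ → Bs M d)) : Prop :=
  K ⊆ CB p0 δ n ∧ ∀ c ∈ K, ∀ c' ∈ K, dist (c 0).1 (c' 0).1 < δ / 2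

variable (F) in
/-- chains that are null over the point `c` -/
noncomputable def Mp (p0 : M) (δ : ℝ) (n : ℕ) (c : ℕ → Bs M d) :
    Submodule F (Ch F (ℕ → Pos M d)) := NN F (Yt p0 δ n) (off (Yt p0 δ n) (bs M d) {c})

theorem Mp_eq {c : ℕ → Bs M d} (hc : c ∈ Tl p0 n) : Mp F p0 δ n c = Mc F p0 δ n c := by
  rw [Mp, Mc, off_pt subset_rfl hc]

theorem cov_Y [CompactSpace M]
    (hJ : Cov (fun K : Set M => ∀ x ∈ K, ∀ y ∈ K, dist x y < δ / 2) J univ) (p0 : M) (n : ℕ) :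
    Cov (SmY (d := d) p0 δ n) J (CB p0 δ n) := by
  obtain ⟨K, hK, e⟩ := hJ.pull (⟨fun c => (c 0).1, by fun_prop⟩ : C(ℕ → Bs M d, M))
    (CB_compact p0 δ n)
  refine ⟨K, fun j => ?_, e⟩
  obtain ⟨m, P, h1, h2, h3⟩ := hK j
  refine ⟨m, P, fun i => ⟨(h1 i).1, (h1 i).2.1, fun c hc c' hc' => ?_⟩, h2, h3⟩
  obtain ⟨Q, q1, q2⟩ := (h1 i).2.2
  exact q1 _ (q2 hc) _ (q2 hc')

theorem zy5_near {K : Set (ℕ → Bs M d)} (hS : SmY p0 δ n K) {c0 : ℕ → Bs M d} (h0 : c0 ∈ K) :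
    ∀ c ∈ K, ∀ i ≤ n, dist (c i).1 (c0 0).1 < δ := fun c hc i hi => by
  have h1 := (hS.1 hc).1.2 i hi 0 (Nat.zero_le n)
  have h2 := hS.2 c hc c0 h0
  linarith [dist_triangle (c i).1 (c 0).1 (c0 0).1]

theorem zy5_null (h2 : (2 : F) ≠ 0) (hY : YH S δ O) {β β' : ℝ} (hβ : (2 * n + 9) * δ ≤ β)
    (hβ' : 0 ≤ β') {k : ℕ} {K : Set (ℕ → Bs M d)} (hK : IsCompact K) (hS : SmY p0 δ n K)
    {z : Ch F (ℕ → Pos M d)} (hz : z ∈ ZZ F (Ys p0 δ n t) (off (Ys p0 δ n t) (bs M d) K))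
    (hd : z ∈ HD F _ k) {P : Prop} (hP : P → ∀ c ∈ K, z ∈ Mp F p0 δ n c)
    (hv : ∀ (p : M) j, ∀ w ∈ ZZ F (Om p p (t + β)) ∅, w ∈ HD F _ j → k ≤ j + (n + 1) * (d + d) →
      (k = j + (n + 1) * (d + d) → P → w ∈ BB F (Pa p p)) → w ∈ BB F (Om p p (t + β + β')))
    {t' : ℝ} (ht : t' = t + 2 * β + β') :
    z ∈ NN F (Ys p0 δ n t') (off (Ys p0 δ n t') (bs M d) K) := by
  have hδ := hY.pos
  have h0 : 0 ≤ β := le_trans (by positivity) hβ
  subst ht
  rcases K.eq_empty_or_nonempty with hK0 | ⟨c0, hc0⟩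
  · exact zl1_empty (Ys_mono p0 δ n (by linarith)) hK0 (mem_ZZ.1 hz).1
  have hU : K ⊆ Up δ n (c0 0).1 := fun c hc =>
    ⟨NrC_sub hδ n (hS.1 hc).1, fun i hi => (zy5_near hS hc0 c hc i hi).trans (by linarith)⟩
  exact (fm_Y (p0 := p0) (p := (c0 0).1) hδ hY.le hβ).null h0 h2
    ((euc_Dm (p0 := p0) (n := n) (hY.euc _)).eh h2) hK
    (fun c hc => ⟨⟨(hS.1 hc).2, hU hc⟩, hU hc⟩) hβ' hz hd hP (hv _)

theorem loc_fine (h2 : (2 : F) ≠ 0) (hY : YH S δ O) (hP : PW F S C0 τ θ η A s D x)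
    (hβ : (2 * n + 9) * δ ≤ s) (ht : t + s ≤ (n + 1) * (D * τ) + S.a / 8) :
    LocN F (Ys p0 δ n) (bs M d) (SmY p0 δ n) (Mp F p0 δ n) ((n + 1) * (d + d + D)) t
      (t + 14 * s) := by
  intro K hK hS z hz hd hM
  have hδ := hY.pos
  have h0 : 0 ≤ s := le_trans (by positivity) hβ
  refine zy5_null h2 hY hβ (β' := 12 * s) (by linarith) hK hS hz hd (P := True) (fun _ => hM)
    (fun p j w hw hj h1 h3 => hP.fine p n j _ ht w hw hj ?_) (by ring)
  have e : (n + 1) * (d + d + D) = (n + 1) * D + (n + 1) * (d + d) := by ring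
  rcases lt_or_ge ((n + 1) * D) j with h | h
  · exact Or.inl h
  · exact Or.inr ⟨by omega, h3 (by omega) trivial⟩

theorem loc_fine' (h2 : (2 : F) ≠ 0) (hY : YH S δ O) (hP : PW F S C0 τ θ η A s D x)
    (hβ : (2 * n + 9) * δ ≤ s) (ht : t + s ≤ (n + 1) * (D * τ) + S.a / 8) {k : ℕ}
    (hk : (n + 1) * (d + d + D) < k) :
    LocN F (Ys p0 δ n) (bs M d) (SmY p0 δ n) (fun _ => ⊤) k t (t + 14 * s) := by
  intro K hK hS z hz hd _
  have hδ := hY.pos
  have h0 : 0 ≤ s := le_trans (by positivity) hβ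
  refine zy5_null h2 hY hβ (β' := 12 * s) (by linarith) hK hS hz hd (P := False) False.elim
    (fun p j w hw hj h1 _ => hP.fine p n j _ ht w hw hj (Or.inl ?_)) (by ring)
  have e : (n + 1) * (d + d + D) = (n + 1) * D + (n + 1) * (d + d) := by ring
  omega

theorem loc_coarse (h2 : (2 : F) ≠ 0) (hY : YH S δ O) (hP : PW F S C0 τ θ η A s D x)
    (hβ : (2 * n + 9) * δ ≤ θ) {b : ℝ} (hb : 0 ≤ b) {k : ℕ}
    (hk : ((n + 1) * (d + d + D) : ℕ) + C0 * (b + 2 * θ) < k) :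
    LocN F (Ys p0 δ n) (bs M d) (SmY p0 δ n) (fun _ => ⊤) k ((n + 1) * (D * τ) + b)
      ((n + 1) * (D * τ) + b + 3 * θ) := by
  intro K hK hS z hz hd _
  have hδ := hY.pos
  have h0 : 0 ≤ θ := le_trans (by positivity) hβ
  refine zy5_null h2 hY hβ h0 hK hS hz hd (P := False) False.elim
    (fun p j w hw hj h1 _ => ?_) (by ring)
  rw [add_assoc _ b θ] at hw ⊢
  refine hP.coarse p n j (b + θ) (by linarith) ?_ w hw hj
  have h3 : (k : ℝ) ≤ j + (n + 1) * (d + d) := by exact_mod_cast h1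
  push_cast at hk
  linarith

theorem loc_ex (hY : YH S δ O) (hP : PW F S C0 τ θ η A s D x) (hβ : 4 * δ ≤ s)
    {K : Set (ℕ → Bs M d)} (hK : IsCompact K) (hS : SmY p0 δ n K) :
    ∃ z ∈ ZZ F (Ys p0 δ n ((n + 1) * (D * τ) + 5 * s))
      (off (Ys p0 δ n ((n + 1) * (D * τ) + 5 * s)) (bs M d) K),
      z ∈ HD F _ ((n + 1) * (d + d + D)) ∧ ∀ c ∈ K, z - Bt S p0 O.o x n c ∈ Mp F p0 δ n c := by
  rcases K.eq_empty_or_nonempty with rfl | ⟨c0, hc0⟩
  · exact ⟨0, zero_mem _, zero_mem _, fun c hc => hc.elim⟩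
  have hp := zy5_near hS hc0
  obtain ⟨ob, o1, o2, o3⟩ := base_class hY hK hS.1 hp
  obtain ⟨w, w1, w2, w3⟩ := hP.low (c0 0).1 n
  have l : (n + 1) * (D * τ) + 4 * s + 4 * δ ≤ (n + 1) * (D * τ) + 5 * s := by linarith
  refine ⟨mp (Gn S p0 n) (cross ob w), ZZ_mono (Ys_mono p0 δ n l) ?_ (Gn_ZZ hY.pos hY.le o1 w1),
    ?_, fun c hc => ?_⟩
  · exact fun y hy => ⟨Ys_mono p0 δ n l hy.1, hy.2.2⟩
  · rw [mul_add (n + 1) (d + d) D]
    exact mp_mem_HD _ (cross_mem_HD o2 w2)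
  · have a1 := Gn_NN_left hY.pos hY.le (o3 c hc) (ZZ_mono (Om_sub _ _ _) subset_rfl w1)
    have a2 := Gw_BB (p0 := p0) hY (hS.1 hc).1 (hp c hc) w3
    have a3 := Bt_pwr (p0 := p0) hY hP.cyc hP.deg hP.conj (hS.1 hc).1 (hp c hc)
    have a4 := sub_mem (add_mem a1 a2) a3
    rw [Gw_sub, map_sub, LinearMap.sub_apply, map_sub] at a4
    rw [Mp_eq (hS.1 hc).2]
    have e : mp (Gn S p0 n) (cross (oB p0 O.o n c) w) = Gw S p0 O.o n c w := rfl
    rw [e, sub_add_sub_cancel, sub_sub_sub_cancel_right] at a4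
    exact a4

theorem glob_ex [CompactSpace M] (h2 : (2 : F) ≠ 0) (hY : YH S δ O) (hP : PW F S C0 τ θ η A s D x)
    (hJ : Cov (fun K : Set M => ∀ x ∈ K, ∀ y ∈ K, dist x y < δ / 2) J univ)
    (hβ : (2 * n + 9) * δ ≤ s) (h1 : (6 + 14 * J) * s ≤ S.a / 8) :
    ∃ z ∈ ZZ F (Ys p0 δ n ((n + 1) * (D * τ) + (5 + 14 * J) * s))
      (Ys p0 δ n ((n + 1) * (D * τ) + (5 + 14 * J) * s) ∩ far δ n),
      z ∈ HD F _ ((n + 1) * (d + d + D)) ∧ Rn S p0 δ O.o x n z := by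
  have hδ := hY.pos
  have h0 : 0 ≤ s := le_trans (by positivity) hβ
  have h4 : 4 * δ ≤ s := le_trans (by nlinarith [(Nat.cast_nonneg n : (0 : ℝ) ≤ n)]) hβ
  obtain ⟨z, z1, z2, z3⟩ := gl_ex (ξ := bs M d) (Mc := Mp F p0 δ n) (β := 14 * s) (Ys_mono p0 δ n)
    (fun K K' h h' => ⟨h'.trans h.1, fun c hc c' hc' => h.2 c (h' hc) c' (h' hc')⟩) (by linarith)
    (fun c u => NN_mono (Ys_sub p0 δ n u) (zl1_mono (Ys_sub p0 δ n u) subset_rfl))
    (fun K hK hS => loc_ex hY hP h4 hK hS)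
    (fun u _ hu => loc_fine h2 hY hP hβ (by linarith)) (cov_Y hJ p0 n)
  have e : (n + 1) * (D * τ) + 5 * s + J * (14 * s) = (n + 1) * (D * τ) + (5 + 14 * J) * s := by
    ring
  rw [e, off_CB (Ys_sub p0 δ n _)] at z1
  refine ⟨z, z1, z2, fun c hc => ?_⟩
  obtain ⟨c', e1, e2⟩ : ∃ c' : ℕ → Bs M d, (∀ i ≤ n, c' i = c i) ∧ c' ∈ Tl p0 n :=
    ⟨fun i => if i ≤ n then c i else (p0, 0), fun i hi => if_pos hi,
      fun i hi => if_neg (not_le.2 hi)⟩
  have a := z3 c' ⟨⟨fun i hi => by rw [e1 i hi]; exact hc.1 i hi,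
    fun i hi j hj => by rw [e1 i hi, e1 j hj]; exact hc.2 i hi j hj⟩, e2⟩
  rwa [Mp_eq e2, Mc_congr e1, Bt_congr e1] at a

end Pool.Agent.Fu
end

-- part Pool.Agent.P.MP_365c00_gt.ZI
section

/-! Index theory: the results. -/

set_option linter.unusedSectionVars false
set_option linter.unusedVariables false

open Set Filter Topology Metric Function MeasureTheory
open scoped Manifold ContDiff
open Pool.Agent.GeoN

namespace Pool.Agent.Fu

variable {E : Type} [NormedAddCommGroup E] [InnerProductSpace ℝ E] [FiniteDimensional ℝ E]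
  {M : Type} [MetricSpace M] [ChartedSpace E M] [IsManifold 𝓘(ℝ, E) ∞ M]
  [CompactSpace M] [Nonempty M] [Nontrivial E] {g : Met E M}

variable {sh : Short g} {a : ℝ}

theorem idx_le (h : SMd sh dist a) (u : UG g) {l : ℝ} (hl : 0 < l) :
    (idx sh a u l : ℝ) ≤ 2 * Module.finrank ℝ E / a * l := idx_le' h u hl
theorem Bq_shift (u : UG g) (r s t : ℝ) : Bq sh (shift r u) s t = Bq sh u (s + r) (t + r) := Bq_shift' u r s t
theorem Qf_symm (h : SMd sh dist a) (u : UG g) {l : ℝ} {k : ℕ} {t : ℕ → ℝ} (ht : Part a l k t)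
    (v w : ℕ → E) : Qf sh u k t v w = Qf sh u k t w v := Qf_symm' h u ht v w
theorem idx_part (h : SMd sh dist a) (u : UG g) {l : ℝ} {k : ℕ} {t : ℕ → ℝ} (ht : Part a l k t) :
    idx sh a u l = nI (Qf sh u k t) (Vk E k) := idx_part' h u ht
theorem nd_part (h : SMd sh dist a) (u : UG g) {l : ℝ} {k : ℕ} {t : ℕ → ℝ} (ht : Part a l k t)
    (hn : NdJ g u l) {v : ℕ → E} (hv : v ∈ Vk E k) (h0 : ∀ w ∈ Vk E k, Qf sh u k t v w = 0) :
    v = 0 := nd_part' h u ht hn hv h0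
theorem nd_short (h : SMd sh dist a) (u : UG g) {l : ℝ} (h0 : 0 < l) (hl : l < a) : NdJ g u l :=
  nd_short' h u h0 hl
theorem idx_mono (h : SMd sh dist a) (u : UG g) {l l' : ℝ} (h0 : 0 < l) (hl : l ≤ l') :
    idx sh a u l ≤ idx sh a u l' := idx_mono' h u h0 hl
theorem idx_add (h : SMd sh dist a) (u : UG g) {P l : ℝ} (hP : 0 < P) (hp : Periodic u.1 P)
    (hf : FlatJ g u P) (hl : 0 < l) (hn : NdJ g u (l + P)) :
    idx sh a u (l + P) = idx sh a u l + (idx sh a u P + (Module.finrank ℝ E - 1)) := by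
  have e : shift P u = u := Subtype.ext (ContinuousMap.ext fun s => by rw [shift_apply, hp s])
  have h1 := idx_lower h u hP hl hn
  have h2 := idx_upper h u hP hl
  have h3 := flat_rank hf
  rw [e] at h1 h2
  omega

end Pool.Agent.Fu
end

-- part Pool.Agent.P.MP_365c00_gt.ZQ4
section

/-! Nets of pairs of one class; the top classes never die. -/

set_option linter.unusedSectionVars false
set_option linter.unusedVariables false

open Set Topology Filter Metric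

namespace Pool.Agent.Fu

variable {F : Type} [Field F] {M : Type} [MetricSpace M] {Z : Type} [TopologicalSpace Z]

namespace GD
variable {D : GD M} {τ : ℝ}

/-- the pairs of class `m` are dense at the scale `θ` -/
def Net (D : GD M) (τ θ : ℝ) (m : ℕ) : Prop :=
  ∀ p p' : M, ∃ x y, D.Per τ m x y ∧ dist x p < θ / 4 ∧ dist y p' < θ / 4

/-- three points of class `m` on a short geodesic -/
def Tri (D : GD M) (τ : ℝ) (m : ℕ) (x y z : M) : Prop :=
  ∃ u d1 d2, 0 < d1 ∧ 0 < d2 ∧ d1 + d2 < D.a / 16 ∧ D.ev u 0 = x ∧ D.ev u d1 = y ∧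
    D.ev u (d1 + d2) = z ∧ D.Per τ m x y ∧ D.Per τ m y z ∧ D.Per τ m x z ∧ D.Good τ x z

theorem exists_net [CompactSpace M] (hD : D.DN τ) {θ : ℝ} (hθ : 0 < θ) :
    ∃ m, 0 < m ∧ D.Net τ θ m := by
  obtain ⟨t, ht⟩ := isCompact_univ.elim_finite_subcover
    (fun s : {z : M × M | D.Good τ z.1 z.2} => ball (s : M × M) (θ / 4)) (fun _ => isOpen_ball)
    (fun z _ => by
      obtain ⟨s, hs, hs'⟩ := hD.dense.exists_dist_lt z (by positivity : 0 < θ / 4)
      exact mem_iUnion.2 ⟨⟨s, hs⟩, hs'⟩)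
  choose k hk hk' using fun s : {z : M × M | D.Good τ z.1 z.2} => s.2.1
  have h0 : 0 < ∏ s ∈ t, k s := Finset.prod_pos fun s _ => hk s
  refine ⟨∏ s ∈ t, k s, h0, fun p p' => ?_⟩
  obtain ⟨s, hs, hs'⟩ := mem_iUnion₂.1 (ht (mem_univ (p, p')))
  rw [mem_ball, dist_comm, Prod.dist_eq, max_lt_iff] at hs'
  exact ⟨s.1.1, s.1.2, (hk' s).dvd hD.pos (hk s) h0 (Finset.dvd_prod_of_mem k hs), hs'.1, hs'.2⟩

theorem exists_tri [Nonempty M] (hD : D.DN τ) : ∃ m x y z, 0 < m ∧ D.Tri τ m x y z := by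
  obtain ⟨p⟩ := ‹Nonempty M›
  have ha := D.a_pos
  obtain ⟨s, hs, hs'⟩ := hD.dense.exists_dist_lt (p, p) (by positivity : 0 < D.a / 32)
  obtain ⟨x, z⟩ := s
  rw [Prod.dist_eq, max_lt_iff] at hs'
  have hd : dist x z < D.a / 16 := by
    have h1 := dist_triangle_left x z p
    have h2 : dist p x < D.a / 32 := hs'.1
    have h3 : dist p z < D.a / 32 := hs'.2
    linarith
  have hg : D.Good τ x z := hs
  obtain ⟨m0, h0, p0⟩ := hg.1
  obtain ⟨u, hu⟩ := chord (D := D) p0.1.1 (by linarith)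
  obtain ⟨δ, hδ, ⟨m1, h1, p1⟩, ⟨m2, h2, p2⟩⟩ := hg.2 _ hu _ hu.1
  have hm : 0 < m0 * m1 * m2 := by positivity
  have e : δ + (dist x z - δ) = dist x z := by ring
  refine ⟨m0 * m1 * m2, x, D.ev u δ, z, hm, u, δ, dist x z - δ, hδ.1, sub_pos.2 hδ.2,
    by rw [e]; exact hd, hu.2.1, rfl, by rw [e]; exact hu.2.2, ?_, ?_, ?_, hg⟩
  · exact p1.dvd hD.pos h1 hm ((dvd_mul_left _ _).mul_right _)
  · exact p2.dvd hD.pos h2 hm (dvd_mul_left _ _)
  · exact p0.dvd hD.pos h0 hm ((dvd_mul_right _ _).mul_right _)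

theorem exists_both [CompactSpace M] [Nonempty M] (hD : D.DN τ) {θ : ℝ} (hθ : 0 < θ) :
    ∃ m x y z, 0 < m ∧ Even m ∧ D.Net τ θ m ∧ D.Tri τ m x y z := by
  obtain ⟨m1, h1, hn⟩ := exists_net hD hθ
  obtain ⟨m2, x, y, z, h2, u, d1, d2, a1, a2, a3, a4, a5, a6, p1, p2, p3, hg⟩ := exists_tri hD
  have hm : 0 < 2 * m1 * m2 := by positivity
  have hd : m2 ∣ 2 * m1 * m2 := dvd_mul_left _ _
  refine ⟨2 * m1 * m2, x, y, z, hm, (even_two.mul_right _).mul_right _, fun p p' => ?_,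
    u, d1, d2, a1, a2, a3, a4, a5, a6, p1.dvd hD.pos h2 hm hd, p2.dvd hD.pos h2 hm hd,
    p3.dvd hD.pos h2 hm hd, hg⟩
  obtain ⟨a, b, hp, hab⟩ := hn p p'
  exact ⟨a, b, hp.dvd hD.pos h1 hm ((dvd_mul_left _ _).mul_right _), hab⟩

theorem Net.dvd {θ : ℝ} {m k : ℕ} (hτ : 0 < τ) (hm : 0 < m) (h : D.Net τ θ m) (hk : 0 < k)
    (hd : m ∣ k) : D.Net τ θ k := fun p p' => by
  obtain ⟨a, b, hp, hab⟩ := h p p'
  exact ⟨a, b, hp.dvd hτ hm hk hd, hab⟩

theorem MT.never (hM : D.MT F) (hD : D.DN τ) {m : ℕ} (hm : 0 < m) {x y z : M} (h : D.Tri τ m x y z)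
    (n : ℕ) {c : Ch F (Mo M)} (hc : Top F D τ ((n + 1) * m) x y c) : c ∉ BB F (Pa x y) := by
  intro hb
  obtain ⟨u, d1, d2, a1, a2, a3, hx, hy, hz, p1, p2, p3, hg⟩ := h
  have ha := D.a_pos
  have hτ := hD.pos
  obtain ⟨t0, ht0⟩ := BB_Pa_iff.1 hb
  have dyz : dist y z = d2 := by
    have e : |d1 - (d1 + d2)| = d2 := by
      rw [show d1 - (d1 + d2) = -d2 by ring, abs_neg, abs_of_pos a2]
    rw [← hy, ← hz, D.dist_ev u _ _ (by rw [e]; linarith), e]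
  have dxz : dist x z = d1 + d2 := by
    have e : |0 - (d1 + d2)| = d1 + d2 := by
      rw [zero_sub, abs_neg, abs_of_pos (by linarith)]
    rw [← hx, ← hz, D.dist_ev u _ _ (by rw [e]; linarith), e]
  obtain ⟨L, hL1, hL2⟩ : ∃ L : ℝ, D.a ≤ L ∧ t0 - ((n + 1) * m : ℕ) * τ + D.a ≤ L :=
    ⟨max _ _, le_max_left _ _, le_max_right _ _⟩
  obtain ⟨N, e, hN, ⟨k, hk⟩, pN, he, hed, key⟩ :=
    hM.mu hD hg L (ε := D.a / 2) (by positivity) (K := (n + 2) * m) (by positivity)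
  obtain ⟨j, rfl⟩ : ∃ j, k = j + 1 := by
    rcases k with _ | j
    · simp [hk] at hN
    · exact ⟨j, rfl⟩
  have hN' : N = (n + 1) * m + ((n + 2) * j + 1) * m := by rw [hk]; ring
  clear hk
  subst hN'
  have q1 := p1.mul hτ hm (Nat.succ_pos n)
  have q2 := p2.mul hτ hm (Nat.succ_pos ((n + 2) * j))
  obtain ⟨c2, t2⟩ := hM.one hτ (by positivity) q2 (by linarith)
  obtain ⟨c3, t3⟩ := hM.one hτ hN pN (by linarith)
  obtain ⟨r, hr, h1⟩ := hM.col hτ a1 a2 (by linarith) hx hy hz q1 q2 pN hc t2 t3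
  have h2 := mul_BB_left ht0 (ZZ_mono (Omc_sub_Om y z
    (t' := (((n + 2) * j + 1) * m : ℕ) * τ + D.a) (by
      simp only [Nat.succ_eq_add_one]; linarith)) subset_rfl t2.zz)
  have h3 : c3 ∈ BB F (Om x z (((n + 1) * m + ((n + 2) * j + 1) * m : ℕ) * τ + L)) := by
    have h4 := sub_mem (BB_mono (Om_mono x z (t' := ((n + 1) * m + ((n + 2) * j + 1) * m : ℕ) * τ + L)
      (by rw [Nat.cast_add]; linarith)) h2) (BB_mono (Om_mono x z (by linarith)) h1)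
    rw [sub_sub_cancel] at h4
    exact (Submodule.smul_mem_iff _ hr).1 h4
  have hs : D.sg x z ∈ Om x z (D.a / 2) :=
    ⟨D.mem x z (by linarith), by rw [D.dur x z (by linarith)]; linarith⟩
  have z0 : (pt (D.sg x z) : Ch F (Mo M)) ∈ ZZ F (Om x z (D.a / 2)) ∅ :=
    mem_ZZ_empty.2 ⟨pt_mem_CC hs, bd_pt _⟩
  have h5 := mul_cyc he z0
  rw [add_assoc, add_halves] at h5
  have h8 := mul_mem_HD hed (pt_mem_HD (D.sg x z))
  rw [Nat.add_zero] at h8
  obtain ⟨r', h6⟩ := t3.span D.a (by linarith) le_rfl _ h5 h8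
  have h7 := add_mem (BB_mono (Om_mono x z (by linarith)) h6) (Submodule.smul_mem _ r' h3)
  rw [sub_add_cancel] at h7
  exact pt_not_mem_BB _ _ (key L (by linarith) le_rfl _
    (ZZ_mono (Om_mono x z (by linarith)) subset_rfl z0) (BB_le_NN _ _ h7))

end GD

end Pool.Agent.Fu
end

-- part Pool.Agent.P.MP_365c00_gt.ZY6
section

/-! The hypotheses for the chains of words hold. -/

set_option linter.unusedSectionVars false
set_option linter.unusedVariables false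

open Set Topology Filter Metric

namespace Pool.Agent.Fu

variable {F : Type} [Field F] {M : Type} [MetricSpace M] {d q n : ℕ} {S : GS M} {p0 p : M}
  {δ t : ℝ}

variable [CompactSpace M] {O : OR F (d + d) (Bs M d)} {x : M → Ch F (Mo M)}
  {C0 τ θ η A s c1 c3 : ℝ} {D J : ℕ}

theorem zy6_sm (p0 : M) (δ : ℝ) (n : ℕ) (K K' : Set (ℕ → Bs M d)) (h : SmY p0 δ n K)
    (h' : K' ⊆ K) : SmY p0 δ n K' :=
  ⟨h'.trans h.1, fun c hc c' hc' => h.2 c (h' hc) c' (h' hc')⟩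

theorem zy6_num {C0 c1 c3 θ u k b : ℝ} (hC : 0 < C0) (h1 : 0 ≤ c1) (hθ : 0 ≤ θ) (hu : 0 ≤ u)
    (hc3 : c3 = c1 + 14 * u) (h3 : C0 * (3 * c1 + 28 * u + 2 * θ) < 1) (hk : 1 ≤ k)
    (hb : b ≤ 2 * c1 + c3 * k + 3 * u) : C0 * (b + 2 * θ) < k := by
  have e1 : b + 2 * θ ≤ (3 * c1 + 28 * u + 2 * θ) * k := by
    have a1 := mul_le_mul_of_nonneg_left hk h1
    have a2 := mul_le_mul_of_nonneg_left hk hθ
    have a3 := mul_le_mul_of_nonneg_left hk hu
    subst hc3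
    nlinarith
  have e2 := mul_le_mul_of_nonneg_left e1 hC.le
  have e3 := mul_lt_mul_of_pos_right h3 (lt_of_lt_of_le one_pos hk)
  nlinarith

theorem ws_inst (h2 : (2 : F) ≠ 0) (hY : YH S δ O) (hP : PW F S C0 τ θ η A s D x)
    (hJ : Cov (fun K : Set M => ∀ x ∈ K, ∀ y ∈ K, dist x y < δ / 2) J univ) (hC : 0 < C0)
    (hβ : (2 * q + 9) * δ ≤ s) (hs : s ≤ θ) (hc1 : c1 = (5 + 14 * (J + 1)) * s)
    (hc3 : c3 = c1 + 14 * J * θ) (h1 : 2 * c1 + 14 * J * θ + θ ≤ S.a / 8)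
    (h3 : C0 * (3 * c1 + 28 * J * θ + 2 * θ) < 1) :
    WS F (Ys p0 δ) (far δ) (Rn S p0 δ O.o x) (D * τ) c1 c3 (d + d + D) q := by
  have hδ := hY.pos
  have hq : (0 : ℝ) ≤ q := Nat.cast_nonneg q
  have hJ0 : (0 : ℝ) ≤ J := Nat.cast_nonneg J
  have hs0 : 0 ≤ s := le_trans (by positivity) hβ
  have hθ0 : 0 ≤ θ := hs0.trans hs
  have hJs : 0 ≤ (J : ℝ) * s := mul_nonneg hJ0 hs0
  have hJθ : (J : ℝ) * s ≤ J * θ := mul_le_mul_of_nonneg_left hs hJ0
  have hc0 : 0 ≤ c1 := by nlinarith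
  have hn : ∀ n < q, (2 * (n : ℝ) + 9) * δ ≤ s := fun n hn => by
    have : (n : ℝ) ≤ q := by exact_mod_cast hn.le
    nlinarith
  refine ⟨fun n => Ys_mono p0 δ n, fun n n' t t' x hx x' hx' => Ys_app hx hx',
    fun n n' x x' h => far_left n' x' h, fun n n' x x' h => far_right n x h,
    Even.add ⟨d, rfl⟩ hP.even, hc0, by nlinarith,
    fun n n' t t' a ha b hb => Rn_mul hY hP.cyc ha hb, fun n hq => ?_,
    fun n hq z hz z' hz' d1 d2 r1 r2 => ?_, fun n hq k hk z hz hd => ?_⟩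
  · obtain ⟨z, a1, a2, a3⟩ := glob_ex (p0 := p0) h2 hY hP hJ (hn n hq) (by nlinarith)
    have hm := Ys_mono (d := d) p0 δ n
      (show (n + 1) * (D * τ) + (5 + 14 * J) * s ≤ (n + 1) * (D * τ) + c1 by nlinarith)
    exact ⟨z, ZZ_mono hm (inter_subset_inter_left _ hm) a1, a2, a3⟩
  · rw [← off_CB (Ys_sub _ _ _ _)] at hz hz'
    have key := gl_null (β := 14 * s) (Ys_mono p0 δ n) (zy6_sm p0 δ n) (by positivity)
      (loc_fine h2 hY hP (hn n hq) (by nlinarith))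
      (fun s' _ hs' => loc_fine' h2 hY hP (hn n hq) (by nlinarith) (Nat.lt_succ_self _))
      (cov_Y hJ p0 n) (sub_mem hz hz') (sub_mem d1 d2) fun c hc => by
        rw [Mp_eq hc.2, ← sub_sub_sub_cancel_right z z' (Bt S p0 O.o x n c)]
        exact sub_mem (r1 c hc.1) (r2 c hc.1)
    rw [off_CB (Ys_sub _ _ _ _)] at key
    have hm := Ys_mono (d := d) p0 δ n
      (show (n + 1) * (D * τ) + 2 * c1 + J * (14 * s) ≤ (n + 1) * (D * τ) + c1 + c3 by nlinarith)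
    exact NN_mono hm (inter_subset_inter_left _ hm) key
  · rw [← off_CB (Ys_sub _ _ _ _)] at hz
    have hk1 : (1 : ℝ) ≤ k := by exact_mod_cast hk
    have hc30 : 0 ≤ c3 * k := mul_nonneg (by nlinarith) (Nat.cast_nonneg k)
    have loc : ∀ j : ℕ, k ≤ j → ∀ s', (n + 1) * (D * τ) + 2 * c1 + c3 * k ≤ s' →
        s' ≤ (n + 1) * (D * τ) + 2 * c1 + c3 * k + J * (3 * θ) →
        LocN F (Ys p0 δ n) (bs M d) (SmY p0 δ n) (fun _ => ⊤) ((n + 1) * (d + d + D) + j) s'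
          (s' + 3 * θ) := fun j hj s' l1 l2 => by
      have hj' : (k : ℝ) ≤ j := by exact_mod_cast hj
      have hlt := zy6_num (b := s' - (n + 1) * (D * τ)) (u := J * θ) (c3 := c3) hC hc0 hθ0
        (hJs.trans hJθ) (by rw [hc3]; ring) (by rw [← mul_assoc]; exact h3) hk1 (by linarith)
      have := loc_coarse (p0 := p0) (b := s' - (n + 1) * (D * τ))
        (k := (n + 1) * (d + d + D) + j) h2 hY hP ((hn n hq).trans hs) (by linarith)
        (by rw [Nat.cast_add _ j]; linarith)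
      rwa [add_sub_cancel] at this
    have key := gl_null (β := 3 * θ) (Ys_mono p0 δ n) (zy6_sm p0 δ n) (by positivity)
      (loc k le_rfl _ le_rfl (by nlinarith)) (loc (k + 1) (Nat.le_succ k))
      (cov_Y hJ p0 n) hz hd fun c hc => Submodule.mem_top
    rw [off_CB (Ys_sub _ _ _ _)] at key
    have hm := Ys_mono (d := d) p0 δ n
      (show (n + 1) * (D * τ) + 2 * c1 + c3 * k + J * (3 * θ) ≤
        (n + 1) * (D * τ) + c1 + c3 * (k + 1) by nlinarith)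
    exact NN_mono hm (inter_subset_inter_left _ hm) key

theorem exists_z0 (h2 : (2 : F) ≠ 0) (hY : YH S δ O) (hP : PW F S C0 τ θ η A s D x)
    (hJ : Cov (fun K : Set M => ∀ x ∈ K, ∀ y ∈ K, dist x y < δ / 2) J univ)
    (hβ : 9 * δ ≤ s) (hc1 : c1 = (5 + 14 * (J + 1)) * s) (h1 : c1 ≤ S.a / 8) {w : Ch F (Mo M)}
    (hw : w ∈ ZZ F (Om p p (D * τ + 4 * s)) ∅) (hd : w ∈ HD F _ D) (hx : w - x p ∈ BB F (Pa p p)) :
    ∃ z ∈ ZZ F (Ys p0 δ 0 (D * τ + c1)) (Ys p0 δ 0 (D * τ + c1) ∩ far δ 0),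
      z ∈ HD F _ (d + d + D) ∧ Rn S p0 δ O.o x 0 z ∧
      map (ev0 (Pos M d)) z - mp (Gb S) (cross (O.o (p, 0)) w) ∈
        CC F (A0 δ ∩ {y : Pos M d | y.1 ≠ (p, 0)}) := by
  have hδ := hY.pos
  have hJ0 : (0 : ℝ) ≤ J := Nat.cast_nonneg J
  have hs0 : 0 ≤ s := le_trans (by positivity) hβ
  have hJs : 0 ≤ (J : ℝ) * s := mul_nonneg hJ0 hs0
  have hβ' : (2 * ((0 : ℕ) : ℝ) + 9) * δ ≤ s := by simpa using hβ
  obtain ⟨z1, a1, a2, a3⟩ := glob_ex (p0 := p0) (n := 0) h2 hY hP hJ hβ' (by nlinarith)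
  have hcc : ∀ i ≤ 0, one p0 d (p, 0) i = (fun _ : ℕ => ((p, 0) : Bs M d)) i := fun i hi => by
    obtain rfl := Nat.le_zero.1 hi
    rfl
  have hc : (fun _ : ℕ => ((p, 0) : Bs M d)) ∈ NrC 0 (δ / 2) :=
    ⟨fun i _ => by simp; positivity, fun i _ j _ => by simp; positivity⟩
  have hc' : one p0 d (p, 0) ∈ NrC 0 (δ / 2) :=
    ⟨fun i hi => by rw [hcc i hi]; exact hc.1 i hi,
      fun i hi j hj => by rw [hcc i hi, hcc j hj]; exact hc.2 i hi j hj⟩
  have hT : one p0 d (p, 0) ∈ Tl p0 0 := fun i hi => if_neg hi.ne'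
  have hp : ∀ i ≤ 0, dist ((fun _ : ℕ => ((p, 0) : Bs M d)) i).1 p < δ := fun i _ => by
    simpa using hδ
  have hB : Gw S p0 O.o 0 (fun _ => (p, 0)) w ∈ _ :=
    Gn_ZZ (p0 := p0) hδ hY.le (oB_ZZ hY hc hp) hw
  have hm := Ys_mono (d := d) p0 δ 0 (show D * τ + 4 * s + 4 * δ ≤
    (((0 : ℕ) : ℝ) + 1) * (D * τ) + (5 + 14 * J) * s by push_cast; nlinarith)
  have hd1 : z1 - Gw S p0 O.o 0 (fun _ => (p, 0)) w ∈ HD F _ ((0 + 1) * (d + d + D)) := by
    refine sub_mem a2 ?_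
    have := Gw_HD (S := S) (p0 := p0) (n := 0) (c := fun _ => (p, 0)) O hd
    simpa using this
  have key := loc_fine (p0 := p0) (n := 0)
    (t := (((0 : ℕ) : ℝ) + 1) * (D * τ) + (5 + 14 * J) * s) h2 hY hP hβ' (by nlinarith)
    {one p0 d (p, 0)} isCompact_singleton
    ⟨singleton_subset_iff.2 ⟨hc', hT⟩, fun c hc c' hc' => by
      rw [mem_singleton_iff.1 hc, mem_singleton_iff.1 hc', dist_self]
      positivity⟩ (z1 - Gw S p0 O.o 0 (fun _ => (p, 0)) w) (by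
      rw [off_pt (Ys_sub _ _ _ _) hT]
      refine sub_mem (ZZ_mono subset_rfl (inter_subset_inter_right _ (far_sub_Of hc')) a1)
        (ZZ_mono hm ?_ hB)
      intro y hy
      refine ⟨hm hy.1, ?_⟩
      show bs M d y ∈ OfB 0 _
      rw [OfB_congr hcc]
      exact hy.2.2) hd1 fun c hc1 => by
      rw [mem_singleton_iff.1 hc1, Mp_eq hT, Mc_congr hcc]
      have b1 : z1 - Gw S p0 O.o 0 (fun _ => (p, 0)) (x p) ∈ _ := a3 _ hc
      have b2 := Gw_BB (p0 := p0) hY hc hp hx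
      rw [Gw_sub] at b2
      rw [← sub_sub_sub_cancel_right z1 _ (Gw S p0 O.o 0 (fun _ => (p, 0)) (x p))]
      exact sub_mem b1 b2
  have e : (((0 : ℕ) : ℝ) + 1) * (D * τ) + (5 + 14 * J) * s + 14 * s = D * τ + c1 := by
    rw [hc1]
    push_cast
    ring
  rw [e, off_pt (Ys_sub _ _ _ _) hT] at key
  obtain ⟨h, k1, k2, k3⟩ := NN_HD hd1 key
  have hm' := Ys_mono (d := d) p0 δ 0 (show
    (((0 : ℕ) : ℝ) + 1) * (D * τ) + (5 + 14 * J) * s ≤ D * τ + c1 by rw [← e]; linarith)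
  refine ⟨z1 - bd h, mem_ZZ.2 ⟨sub_mem (CC_mono hm' a1.1) (bd_mem_CC k1), ?_⟩, ?_,
    fun c hc => ?_, ?_⟩
  · rw [map_sub, bd_bd, sub_zero]
    exact CC_mono (inter_subset_inter_left _ hm') (mem_ZZ.1 a1).2
  · simpa using sub_mem a2 (bd_mem_HD k2)
  · rw [sub_right_comm]
    exact sub_mem (a3 c hc) (BB_le_NN _ _ (mem_BB.2 ⟨h, CC_mono (Ys_sub _ _ _ _) k1, rfl⟩))
  · rw [← ev0_Gw (p0 := p0) hY (CC_mono (fun y hy => hy.1) (mem_ZZ.1 hw).1), ← map_sub,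
      sub_right_comm]
    refine map_mem_CC ?_ k3
    intro y hy
    refine ⟨ev0_Yt hy.1.1, ?_⟩
    obtain ⟨i, hi, hne⟩ := hy.2
    obtain rfl := Nat.le_zero.1 hi
    exact hne

end Pool.Agent.Fu
end

-- part Pool.Agent.P.MP_365c00_gt.ZD9
section

/-! The Smith type argument for fixed constants. -/

set_option linter.unusedSectionVars false
set_option linter.unusedVariables false

open Set Topology Filter Metric

namespace Pool.Agent.Fu

variable {F : Type} [Field F] {M : Type} [MetricSpace M] {d q n : ℕ} {S : GS M} {p0 p : M}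
  {δ t : ℝ}

theorem zd9_arith {τ η η' A c1 c3 t : ℝ} {q d D r i : ℕ} (hτ : 0 < τ) (h4 : c3 ≤ τ / 2)
    (h5 : η' ≤ τ / 2) (h7 : η ≤ η') (hr : 2 * (d + A + 2) + 2 * q * c1 / τ < r)
    (ht : t ≤ q * (D * τ) + q * c1 + c3 * (r + 1) + i * η') :
    (q * (d + d) + d : ℕ) + (t + η' + η) / τ + A < (q * (d + d + D) + r + i : ℕ) := by
  have hr0 : (0 : ℝ) ≤ r := Nat.cast_nonneg r
  have hi0 : (0 : ℝ) ≤ i := Nat.cast_nonneg i
  have a1 : c3 * (r + 1) ≤ τ / 2 * (r + 1) := mul_le_mul_of_nonneg_right h4 (by linarith)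
  have a2 : (i : ℝ) * η' ≤ i * (τ / 2) := mul_le_mul_of_nonneg_left h5 hi0
  have a3 : (t + η' + η) / τ ≤ q * D + q * c1 / τ + (r + 1) / 2 + i / 2 + 1 := by
    rw [div_le_iff₀ hτ]
    have e : (q * D + q * c1 / τ + (r + 1) / 2 + i / 2 + 1) * τ =
        q * (D * τ) + q * c1 + τ / 2 * (r + 1) + i * (τ / 2) + τ := by
      field_simp
    rw [e]
    linarith
  have e2 : 2 * q * c1 / τ = 2 * (q * c1 / τ) := by ring
  rw [e2] at hr
  push_cast
  linarith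

theorem core_aux [CompactSpace M] [Fact q.Prime] (hq : 3 ≤ q) {O : OR (ZMod q) (d + d) (Bs M d)}
    (hY : YH S δ O) {x : M → Ch (ZMod q) (Mo M)} {C0 τ θ η A s c1 c3 η' : ℝ} {D N r : ℕ}
    (hP : PW (ZMod q) S C0 τ θ η A s D x) (ι : C(M, Fin N → ℝ)) (hι : Function.Injective ι)
    (hC : 0 < C0) (hτ : 0 < τ) (hβ : (2 * q + 9) * δ ≤ s) (hβ' : (2 * q + 9) * δ ≤ η) (hs : s ≤ θ)
    (hc1 : c1 = (5 + 14 * ((2 ^ N : ℕ) + 1)) * s) (hc3 : c3 = c1 + 14 * (2 ^ N : ℕ) * θ)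
    (hη : η' = 3 * (2 ^ N * 2 ^ N : ℕ) * η) (h1 : 2 * c1 + 14 * (2 ^ N : ℕ) * θ + θ ≤ S.a / 8)
    (h3 : C0 * (3 * c1 + 28 * (2 ^ N : ℕ) * θ + 2 * θ) < 1) (h4 : c3 ≤ τ / 2) (h5 : η' ≤ τ / 2)
    (h6 : η' ≤ s) (hr : 2 * (d + A + 2) + 2 * q * c1 / τ < r)
    (hfin : c1 + c3 * r + ((N + (d + d)) * q : ℕ) * η' + 4 * δ * q ≤ q * s) : False := by
  have : NeZero q := ⟨by omega⟩
  have h2 : (2 : ZMod q) ≠ 0 := fun h => by
    have h' : ((2 : ℕ) : ZMod q) = 0 := by exact_mod_cast h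
    have := Nat.le_of_dvd two_pos ((ZMod.natCast_eq_zero_iff 2 q).1 h')
    omega
  have hδ := hY.pos
  have hq' : (3 : ℝ) ≤ q := by exact_mod_cast hq
  have hJ1 : (1 : ℝ) ≤ ((2 ^ N : ℕ) : ℝ) := by exact_mod_cast Nat.one_le_two_pow
  have hJ2 : (1 : ℝ) ≤ ((2 ^ N * 2 ^ N : ℕ) : ℝ) := by
    exact_mod_cast Nat.mul_pos Nat.one_le_two_pow Nat.one_le_two_pow
  have h9 : 9 * δ ≤ s := by nlinarith
  have hs0 : 0 < s := by linarith
  have hη0 : 0 < η := by nlinarith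
  have hηη : η ≤ η' := by rw [hη]; nlinarith
  have hsc : s ≤ c1 := by rw [hc1]; nlinarith
  have hJθ : 0 ≤ 14 * ((2 ^ N : ℕ) : ℝ) * θ := by
    have : 0 ≤ θ := by linarith
    positivity
  have hcc : c1 ≤ c3 := by rw [hc3]; linarith
  obtain ⟨p, hp⟩ := hP.det
  obtain ⟨w, hw, hwd, hwx⟩ := hP.low p 0
  have e1 : (((0 : ℕ) : ℝ) + 1) * (D * τ) + 4 * s = D * τ + 4 * s := by push_cast; ring
  rw [e1] at hw
  rw [zero_add, one_mul] at hwd
  have hwx' : w - x p ∈ BB (ZMod q) (Pa p p) := hwx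
  have hn : w ∉ NN (ZMod q) (Pa p p) (Om p p (D * τ + s)) := fun h => hp (by
    have := Submodule.sub_mem _ h (BB_le_NN _ (Om p p (D * τ + s)) hwx')
    rwa [sub_sub_cancel] at this)
  have hJ := exists_cov ι hι (half_pos hδ)
  have hW := ws_inst (p0 := p) (q := q) h2 hY hP hJ hC hβ hs hc1 hc3 h1 h3
  obtain ⟨z, z1, z2, z3, z4⟩ := exists_z0 (p0 := p) h2 hY hP hJ h9 hc1 (by linarith) hw hwd hwx'
  obtain ⟨g1, l, k, g2, g3, g4, g5⟩ := exists_seq hW z1 z2 z3 (Zs_mono δ)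
    (fun b t => cyc_Ys b t) (fun b => cyc_far b) r le_rfl le_rfl
  have hzd : map (ev0 (Pos M d)) z ∈ HD (ZMod q) _ (d + d + D) := map_mem_HD _ z2
  have hgd := cpr_HD (q := q) (b := fun _ => map (ev0 (Pos M d)) z) fun _ _ => hzd
  have hfix := cpr_fix (q := q) hzd hW.even
  have key := GC.tail (G := gcy (ZMod q) (Pos M d) q) (H := HD (ZMod q) _) (gc_gr _)
    (A := fun t => CC (ZMod q) (Zs q δ t)) (B := fun t => CC (ZMod q) (Zs q δ t ∩ farZ q δ))
    (fun _ _ h => CC_mono (Zs_mono δ h))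
    (fun _ _ h => CC_mono (inter_subset_inter_left _ (Zs_mono δ h)))
    (fun t => gc_st _ (Zs_inv δ t)) (fun t => gc_st _ ((Zs_inv δ t).inter_inter (farZ_inv δ)))
    (D := q * (d + d + D)) (r := r) (R := r + (N + (d + d)) * q) (Nat.le_add_right _ _)
    (η := η') (by linarith) (by nlinarith) (GC.seq_sq g1.1 g1.2 hfix 0 _)
    (fun j _ => by
      unfold sq
      split_ifs with hj
      · subst hj
        exact hgd
      · exact zero_mem _) g2 g3 g4 g5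
    (fun i t _ ht => tail_van h2 hY hP hJ hτ hβ' hη (zd9_arith hτ h4 h5 hηη hr ht))
  rw [Nat.add_sub_cancel_left] at key
  refine det_main h2 hδ hY.le (hY.euc p) ι hι (O.gen (p, 0)) (hY.sm _) hP.even
    (ZZ_mono (Om_sub _ _ _) Subset.rfl hw) hwd hn z4
    (lo := q * (D * τ) + c1 + c3 * r + ((N + (d + d)) * q : ℕ) * η') (by linarith)
    (Nat.le_add_left _ r) (key.mono (CC_mono fun _ h => h.1) (sup_le ?_ ?_) le_rfl)
  · exact CC_mono fun _ h => Or.inl ⟨h.1.1, h.2⟩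
  · exact CC_mono subset_union_right

end Pool.Agent.Fu
end

-- part Pool.Agent.P.MP_365c00_gt.ZM3
section

/-! The system of geodesics of a Riemannian manifold. -/

set_option linter.unusedSectionVars false
set_option linter.unusedVariables false

open Set Filter Topology Metric Function MeasureTheory
open scoped Manifold ContDiff
open Pool.Agent.GeoN

namespace Pool.Agent.Fu

variable {E : Type} [NormedAddCommGroup E] [InnerProductSpace ℝ E] [FiniteDimensional ℝ E]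
  {M : Type} [MetricSpace M] [ChartedSpace E M] [IsManifold 𝓘(ℝ, E) ∞ M]
  [CompactSpace M] [Nonempty M] [Nontrivial E] {g : Met E M}

variable {sh : Short g} {a : ℝ}

theorem rk_pos : (1 : ℝ) ≤ Module.finrank ℝ E := by
  exact_mod_cast Module.finrank_pos

theorem small_le (h : SMd sh dist a) : a / (2 * Module.finrank ℝ E) ≤ a :=
  div_le_self h.pos.le (by linarith [rk_pos (E := E)])

/-- the system of geodesics -/
noncomputable def geoD (h : SMd sh dist a) (S : GS M) (hS : S.a = a / (2 * Module.finrank ℝ E)) :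
    GD M where
  toGS := S
  G := UG g
  ev u := u.1
  sh := shift
  ev_sh := shift_apply
  ext u v e := Subtype.ext (DFunLike.coe_injective e)
  ind := idx sh a
  Nd := NdJ g
  C0 := 2 * Module.finrank ℝ E / a
  C0_pos := div_pos (by linarith [rk_pos (E := E)]) h.pos
  aC0 := by
    have h1 := h.pos.ne'
    have h2 : (Module.finrank ℝ E : ℝ) ≠ 0 := by linarith [rk_pos (E := E)]
    rw [hS]
    field_simp
    exact le_rfl
  ind_le u l hl := idx_le h u hl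
  dist_ev u s t hst := h.dist_ug u (hst.trans_le (hS ▸ small_le h))
  uniq u v l h0 hl := h.uniq_ug h0 (hl.trans_le (hS ▸ small_le h))
  ex x y hne hd := h.ex_ug hne (hd.trans_le (hS ▸ small_le h))

end Pool.Agent.Fu
end

-- part Pool.Agent.P.MP_365c00_gt.ZQ4b
section

/-! The lines spanned by the top classes. -/

set_option linter.unusedSectionVars false
set_option linter.unusedVariables false

open Set Topology Filter Metric

namespace Pool.Agent.Fu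

variable {F : Type} [Field F] {M : Type} [MetricSpace M] {Z : Type} [TopologicalSpace Z]

theorem zq4b_back (S : GS M) {x y x' y' : M} {a : Ch F (Mo M)} (hx : 2 * dist x' x < S.a)
    (hy : 2 * dist y y' < S.a) (ha : a ∈ ZZ F (Pa x y) ∅) :
    mp (S.wh x y) (mp (S.wh x' y') a) - a ∈ BB F (Pa x y) := by
  have e1 := dist_comm x x'
  have e2 := dist_comm y' y
  have := S.wh_wh_Pa (x'' := x) (y'' := y) (x' := x') (y' := y') (by linarith) (by linarith) ha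
  rwa [S.mp_wh_self (mem_ZZ.1 ha).1] at this

theorem zq4b_mul {x y z : M} {a a' b b' : Ch F (Mo M)} {r s : F} (ha' : a' ∈ ZZ F (Pa x y) ∅)
    (hb : b ∈ ZZ F (Pa y z) ∅) (h1 : a - r • a' ∈ BB F (Pa x y))
    (h2 : b - s • b' ∈ BB F (Pa y z)) : mul a b - (r * s) • mul a' b' ∈ BB F (Pa x z) := by
  have e : mul a b - (r * s) • mul a' b' = mul (a - r • a') b + r • mul a' (b - s • b') := by
    simp only [map_sub, map_smul, LinearMap.sub_apply, LinearMap.smul_apply, smul_sub, mul_smul]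
    abel
  rw [e]
  exact Submodule.add_mem _ (mul_Pa_left h1 hb) (Submodule.smul_mem _ _ (mul_Pa_right ha' h2))

theorem zq4b_of {P : Type} [AddCommGroup P] [Module F P] {B : Submodule F P} {a b : P} {r : F}
    (h : a - r • b ∈ B) (hb : b ∈ B) : a ∈ B := by
  have := B.add_mem h (B.smul_mem r hb)
  rwa [sub_add_cancel] at this

theorem zq4b_of' {P : Type} [AddCommGroup P] [Module F P] {B : Submodule F P} {a b : P} {r : F}
    (h : a - r • b ∈ B) (hr : r ≠ 0) (ha : a ∈ B) : b ∈ B := by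
  have := B.sub_mem ha h
  rw [sub_sub_cancel] at this
  exact (B.smul_mem_iff hr).1 this

theorem zq4b_cast (n m : ℕ) (τ : ℝ) : (((n + 1) * m : ℕ) : ℝ) * τ = (n + 1) * (m * τ) := by
  push_cast
  ring

namespace GD
variable {D : GD M} {τ θ : ℝ} {m : ℕ}

/-- generators of the low part of the homology of the loop spaces -/
structure LN (F : Type) [Field F] (D : GD M) (τ θ : ℝ) (m : ℕ) (e : M → ℕ → Ch F (Mo M)) :
    Prop where
  zz : ∀ (p : M) (n : ℕ), e p n ∈ ZZ F (Om p p ((n + 1) * (m * τ) + θ)) ∅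
  hd : ∀ p n, e p n ∈ HD F _ ((n + 1) * m)
  span : ∀ (p : M) (n : ℕ), ∀ z ∈ ZZ F (Om p p ((n + 1) * (m * τ) + D.a / 2)) ∅,
    z ∈ HD F _ ((n + 1) * m) → ∃ r : F, z - r • e p n ∈ BB F (Pa p p)

theorem Top.q4pa {x y : M} {c : Ch F (Mo M)} (h : Top F D τ m x y c) : c ∈ ZZ F (Pa x y) ∅ :=
  ZZ_mono (Omc_sub _ _ _) subset_rfl h.zz

theorem MT.exists_ln (hM : D.MT F) (hτ : 0 < τ) (hm : 0 < m) (h0 : 0 < θ) (h1 : θ ≤ D.a / 100)
    (hN : D.Net τ θ m) : ∃ e, LN F D τ θ m e := by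
  have ha := D.a_pos
  have key : ∀ (p : M) (n : ℕ), ∃ e : Ch F (Mo M), e ∈ ZZ F (Om p p ((n + 1) * (m * τ) + θ)) ∅ ∧
      e ∈ HD F _ ((n + 1) * m) ∧ ∀ z ∈ ZZ F (Om p p ((n + 1) * (m * τ) + D.a / 2)) ∅,
        z ∈ HD F _ ((n + 1) * m) → ∃ r : F, z - r • e ∈ BB F (Pa p p) := by
    intro p n
    obtain ⟨x, y, hP, hx, hy⟩ := hN p p
    have e1 := dist_comm x p
    have e2 := dist_comm y p
    have hd : dist x y < θ / 2 := by linarith [dist_triangle x p y]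
    obtain ⟨c, hc⟩ := hM.one hτ (Nat.mul_pos n.succ_pos hm) (hP.mul hτ hm n.succ_pos)
      (by linarith)
    have hz := hc.zz
    have hs := hc.span D.a (by linarith) le_rfl
    rw [zq4b_cast] at hz hs
    refine ⟨mp (D.wh p p) c, D.wh_cyc (t := (n + 1) * (m * τ) + θ / 2) (by linarith) (by linarith)
      (by linarith) (ZZ_mono (Omc_sub_Om _ _ (by linarith)) subset_rfl hz), mp_mem_HD _ hc.hd,
      fun z hz hd => ?_⟩
    obtain ⟨r, hr⟩ := hs (mp (D.wh x y) z) (D.wh_cyc (by linarith) (by linarith) (by linarith) hz)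
      (mp_mem_HD _ hd)
    refine ⟨r, ?_⟩
    have a1 := D.wh_BB_Pa (x' := p) (y' := p) (by linarith) (by linarith)
      (BB_mono (Om_sub _ _ _) hr)
    have a2 := zq4b_back D.toGS (x' := x) (y' := y) (by linarith) (by linarith)
      (ZZ_mono (Om_sub _ _ _) subset_rfl hz)
    have := Submodule.sub_mem _ a1 a2
    rwa [map_sub, map_smul, sub_sub_sub_cancel_left] at this
  choose e a1 a2 a3 using key
  exact ⟨e, a1, a2, a3⟩

variable {e : M → ℕ → Ch F (Mo M)}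

theorem LN.q4pa (h : LN F D τ θ m e) (p : M) (n : ℕ) : e p n ∈ ZZ F (Pa p p) ∅ :=
  ZZ_mono (Om_sub _ _ _) subset_rfl (h.zz p n)

theorem LN.q4top (h : LN F D τ θ m e) {p x y : M} {n : ℕ} {c : Ch F (Mo M)}
    (hc : Top F D τ ((n + 1) * m) x y c) (hx : dist p x < D.a / 8) (hy : dist y p < D.a / 8)
    (hd : dist x y < D.a / 8) : ∃ r : F, mp (D.wh p p) c - r • e p n ∈ BB F (Pa p p) := by
  have ha := D.a_pos
  have hz := hc.zz
  rw [zq4b_cast] at hz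
  exact h.span p n _ (D.wh_cyc (t := (n + 1) * (m * τ) + D.a / 8) (by linarith) (by linarith)
    (by linarith) (ZZ_mono (Omc_sub_Om _ _ (by linarith)) subset_rfl hz)) (mp_mem_HD _ hc.hd)

theorem LN.conj (h : LN F D τ θ m e) (h1 : θ ≤ D.a / 100) {p p' : M} (hp : dist p p' < D.a / 8)
    (n : ℕ) : ∃ r : F, mp (D.wh p' p') (e p n) - r • e p' n ∈ BB F (Pa p' p') := by
  have ha := D.a_pos
  have e1 := dist_comm p p'
  exact h.span p' n _ (D.wh_cyc (by linarith) (by linarith) (by linarith) (h.zz p n))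
    (mp_mem_HD _ (h.hd p n))

/-- a property that passes to near points holds everywhere -/
theorem clopen_ind [ConnectedSpace M] {P : M → Prop} {r : ℝ} (hr : 0 < r)
    (h : ∀ p p', dist p p' < r → P p → P p') {x : M} (hx : P x) (p : M) : P p := by
  have h1 : IsOpen {p | P p} := Metric.isOpen_iff.2 fun q hq =>
    ⟨r, hr, fun q' hq' => h q q' (by rw [dist_comm]; exact hq') hq⟩
  have h2 : IsClosed {p | P p} := isOpen_compl_iff.1 (Metric.isOpen_iff.2 fun q hq =>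
    ⟨r, hr, fun q' hq' hP => hq (h q' q hq' hP)⟩)
  have h3 : {p | P p} = univ := IsClopen.eq_univ ⟨h2, h1⟩ ⟨x, hx⟩
  have : p ∈ {p | P p} := h3 ▸ mem_univ p
  exact this

theorem Tri.q4lt {x y z : M} (hT : D.Tri τ m x y z) :
    dist x y < D.a / 16 ∧ dist y z < D.a / 16 ∧ dist x z < D.a / 16 := by
  obtain ⟨u, d1, d2, p1, p2, hd, rfl, rfl, rfl, -⟩ := hT
  have ha := D.a_pos
  have e1 : |0 - d1| = d1 := by rw [zero_sub, abs_neg, abs_of_pos p1]
  have e2 : |d1 - (d1 + d2)| = d2 := by rw [sub_add_cancel_left, abs_neg, abs_of_pos p2]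
  have e3 : |0 - (d1 + d2)| = d1 + d2 := by rw [zero_sub, abs_neg, abs_of_pos (by linarith)]
  rw [D.dist_ev u _ _ (by linarith), D.dist_ev u _ _ (by linarith), D.dist_ev u _ _ (by linarith)]
  refine ⟨by linarith, by linarith, by linarith⟩

theorem LN.ne [ConnectedSpace M] (hM : D.MT F) (hD : D.DN τ) (hm : 0 < m) (h : LN F D τ θ m e)
    (h1 : θ ≤ D.a / 100) {x y z : M} (hT : D.Tri τ m x y z) (p : M) (n : ℕ) :
    e p n ∉ BB F (Pa p p) := by
  have ha := D.a_pos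
  obtain ⟨d1, -, -⟩ := hT.q4lt
  have e0 := dist_self x
  have e1 := dist_comm x y
  refine clopen_ind (P := fun p => e p n ∉ BB F (Pa p p)) (r := D.a / 8) (x := x) (by linarith)
    (fun p p' hp hP hb => ?_) (fun hb => ?_) p
  · obtain ⟨r, hr⟩ := h.conj h1 hp n
    have e2 := dist_comm p p'
    exact hP (D.BB_of_wh_Pa (by linarith) (by linarith) (h.q4pa p n) (zq4b_of hr hb))
  · have hT' := hT
    obtain ⟨u, -, -, -, -, -, -, -, -, hP, -⟩ := hT'
    obtain ⟨c, hc⟩ := hM.one hD.pos (Nat.mul_pos n.succ_pos hm) (hP.mul hD.pos hm n.succ_pos)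
      (by linarith)
    obtain ⟨r, hr⟩ := h.q4top (p := x) hc (by linarith) (by linarith) (by linarith)
    exact hM.never hD hm hT n hc
      (D.BB_of_wh_Pa (by linarith) (by linarith) hc.q4pa (zq4b_of hr hb))

theorem LN.mul_ne [ConnectedSpace M] (hM : D.MT F) (hD : D.DN τ) (hm : 0 < m) (h : LN F D τ θ m e)
    (h1 : θ ≤ D.a / 100) {x y z : M} (hT : D.Tri τ m x y z) (p : M) (n n' : ℕ) :
    mul (e p n) (e p n') ∉ BB F (Pa p p) := by
  have ha := D.a_pos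
  obtain ⟨d1, d2, d3⟩ := hT.q4lt
  have e0 := dist_self x
  have e1 := dist_comm x y
  have e3 := dist_comm x z
  refine clopen_ind (P := fun p => mul (e p n) (e p n') ∉ BB F (Pa p p)) (r := D.a / 8) (x := x)
    (by linarith) (fun p p' hp hP hb => ?_) (fun hb => ?_) p
  · obtain ⟨r, hr⟩ := h.conj h1 hp n
    obtain ⟨s, hs⟩ := h.conj h1 hp n'
    have e2 := dist_comm p p'
    have a1 := zq4b_of (zq4b_mul (h.q4pa p' n)
      (D.wh_Pa (by linarith) (by linarith) (h.q4pa p n')) hr hs) hb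
    have a2 := D.wh_mul_Pa (x' := p') (y' := p') (z' := p') (by linarith) (by linarith)
      (by linarith) (h.q4pa p n) (h.q4pa p n')
    have a3 := Submodule.sub_mem _ a1 a2
    rw [sub_sub_cancel] at a3
    exact hP (D.BB_of_wh_Pa (by linarith) (by linarith) (mul_Pa (h.q4pa p n) (h.q4pa p n')) a3)
  · have hT' := hT
    obtain ⟨u, l1, l2, p1, p2, hl, ux, uy, uz, P1, P2, P3, -⟩ := hT'
    have en : (n + 1) * m + (n' + 1) * m = (n + n' + 1 + 1) * m := by ring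
    have Q1 := P1.mul hD.pos hm n.succ_pos
    have Q2 := P2.mul hD.pos hm n'.succ_pos
    have Q3 := P3.mul hD.pos hm (n + n' + 1).succ_pos
    obtain ⟨c1, t1⟩ := hM.one hD.pos (Nat.mul_pos n.succ_pos hm) Q1 (by linarith)
    obtain ⟨c2, t2⟩ := hM.one hD.pos (Nat.mul_pos n'.succ_pos hm) Q2 (by linarith)
    obtain ⟨c3, t3⟩ := hM.one hD.pos (Nat.mul_pos (n + n' + 1).succ_pos hm) Q3 (by linarith)
    obtain ⟨r, hr0, hr⟩ := hM.col hD.pos p1 p2 (by linarith) ux uy uz Q1 Q2 (en ▸ Q3) t1 t2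
      (en ▸ t3)
    obtain ⟨r1, s1⟩ := h.q4top (p := x) t1 (by linarith) (by linarith) (by linarith)
    obtain ⟨r2, s2⟩ := h.q4top (p := x) t2 (by linarith) (by linarith) (by linarith)
    have a1 := zq4b_of (zq4b_mul (h.q4pa x n) (D.wh_Pa (by linarith) (by linarith) t2.q4pa) s1 s2) hb
    have a2 := D.wh_mul_Pa (x' := x) (y' := x) (z' := x) (by linarith) (by linarith)
      (by linarith) t1.q4pa t2.q4pa
    have a3 := Submodule.sub_mem _ a1 a2
    rw [sub_sub_cancel] at a3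
    have a4 := D.BB_of_wh_Pa (by linarith) (by linarith) (mul_Pa t1.q4pa t2.q4pa) a3
    have a5 := zq4b_of' (BB_mono (Om_sub _ _ _) hr) hr0 a4
    have hs := t3.span D.a (by linarith) le_rfl
    rw [zq4b_cast] at hs
    obtain ⟨r3, s3⟩ := hs (mp (D.wh x z) (e x (n + n' + 1)))
      (D.wh_cyc (by linarith) (by linarith) (by linarith) (h.zz x _)) (mp_mem_HD _ (h.hd x _))
    exact h.ne hM hD hm h1 hT x _ (D.BB_of_wh_Pa (by linarith) (by linarith) (h.q4pa x _)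
      (zq4b_of (BB_mono (Om_sub _ _ _) s3) a5))

theorem LN.q4pw [ConnectedSpace M] (hM : D.MT F) (hD : D.DN τ) (hm : 0 < m) (h : LN F D τ θ m e)
    (h1 : θ ≤ D.a / 100) {x y z : M} (hT : D.Tri τ m x y z) (p : M) (j : ℕ) :
    ∃ r : F, r ≠ 0 ∧ pwr j (e p 0) - r • e p j ∈ BB F (Pa p p) := by
  have ha := D.a_pos
  induction j with
  | zero => exact ⟨1, one_ne_zero, by simp [pwr]⟩
  | succ j ih =>
    obtain ⟨r, hr0, hr⟩ := ih
    have a1 := zq4b_mul (s := 1) (b' := e p 0) (h.q4pa p j) (h.q4pa p 0) hr (by simp)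
    have en : (j + 1) * m + (0 + 1) * m = (j + 1 + 1) * m := by ring
    obtain ⟨s, hs⟩ := h.span p (j + 1) (mul (e p j) (e p 0))
      (ZZ_mono (Om_mono _ _ (by push_cast; linarith)) subset_rfl (mul_cyc (h.zz p j) (h.zz p 0)))
      (en ▸ mul_mem_HD (h.hd p j) (h.hd p 0))
    have hs0 : s ≠ 0 := by
      rintro rfl
      exact h.mul_ne hM hD hm h1 hT p j 0 (by simpa using hs)
    refine ⟨r * s, mul_ne_zero hr0 hs0, ?_⟩
    have a2 := Submodule.add_mem _ a1 (Submodule.smul_mem _ r hs)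
    rwa [mul_one, smul_sub, sub_add_sub_cancel, ← mul_smul] at a2

/-- the powers are representable at the level `σ` above the multiples of the period -/
def Low (F : Type) [Field F] (τ σ : ℝ) (n : ℕ) (x : M → Ch F (Mo M)) : Prop :=
  ∀ (p : M) (k : ℕ), ∃ z ∈ ZZ F (Om p p ((k + 1) * (n * τ) + σ)) ∅, z ∈ HD F _ ((k + 1) * n) ∧
    z - pwr k (x p) ∈ BB F (Pa p p)

/-- an invariant family with nonzero powers -/
structure FX (F : Type) [Field F] (D : GD M) (τ θ : ℝ) (n : ℕ) (x : M → Ch F (Mo M)) : Prop where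
  pos : 0 < n
  even : Even n
  net : D.Net τ θ n
  cyc : ∀ p, x p ∈ ZZ F (Pa p p) ∅
  deg : ∀ p, x p ∈ HD F _ n
  conj : ∀ p p' : M, dist p p' < D.a / 8 → mp (D.wh p' p') (x p) - x p' ∈ BB F (Pa p' p')
  nz : ∀ p k, pwr k (x p) ∉ BB F (Pa p p)
  low : Low F τ θ n x

theorem MT.exists_fx [ConnectedSpace M] (hM : D.MT F) (hD : D.DN τ) (hm : 0 < m) (he : Even m)
    (h0 : 0 < θ) (h1 : θ ≤ D.a / 100) (hN : D.Net τ θ m) {x y z : M} (hT : D.Tri τ m x y z) {k : ℕ}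
    (hF : ∀ r : F, r ≠ 0 → r ^ (k + 1) = 1) : ∃ X, FX F D τ θ ((k + 1) * m) X := by
  have ha := D.a_pos
  obtain ⟨e, h⟩ := hM.exists_ln hD.pos hm h0 h1 hN
  have hd : ∀ p, e p 0 ∈ HD F _ m := fun p => by simpa using h.hd p 0
  refine ⟨fun p => pwr k (e p 0), Nat.mul_pos k.succ_pos hm, he.mul_left _,
    hN.dvd hD.pos hm (Nat.mul_pos k.succ_pos hm) (Dvd.intro_left _ rfl),
    fun p => pwr_mem k (h.q4pa p 0), fun p => pwr_HD k (hd p), fun p p' hp => ?_, fun p j hb => ?_,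
    fun p j => ?_⟩
  · obtain ⟨r, hr⟩ := h.conj h1 hp 0
    have e2 := dist_comm p p'
    have hr0 : r ≠ 0 := by
      rintro rfl
      exact h.ne hM hD hm h1 hT p 0
        (D.BB_of_wh_Pa (by linarith) (by linarith) (h.q4pa p 0) (by simpa using hr))
    have a1 := D.wh_pwr (x' := p') (by linarith) k (h.q4pa p 0)
    have a2 := pwr_congr k (D.wh_Pa (by linarith) (by linarith) (h.q4pa p 0))
      (Submodule.smul_mem _ r (h.q4pa p' 0)) hr
    rw [pwr_smul, hF r hr0, one_smul] at a2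
    have a3 := Submodule.sub_mem _ a2 a1
    rwa [sub_sub_sub_cancel_left] at a3
  · obtain ⟨r, hr0, hr⟩ := h.q4pw hM hD hm h1 hT p (j * (k + 1) + k)
    rw [pwr_pwr j k (h.q4pa p 0)] at hb
    exact h.ne hM hD hm h1 hT p _ (zq4b_of' hr hr0 hb)
  · obtain ⟨r, hr0, hr⟩ := h.q4pw hM hD hm h1 hT p (j * (k + 1) + k)
    have en : (j * (k + 1) + k + 1) * m = (j + 1) * ((k + 1) * m) := by ring
    refine ⟨r • e p (j * (k + 1) + k), Submodule.smul_mem _ r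
      (ZZ_mono (Om_mono _ _ (le_of_eq (by push_cast; ring))) subset_rfl (h.zz p _)),
      Submodule.smul_mem _ r (en ▸ h.hd p _), ?_⟩
    rw [pwr_pwr j k (h.q4pa p 0), ← neg_sub]
    exact Submodule.neg_mem _ hr

end GD

end Pool.Agent.Fu
end

-- part Pool.Agent.P.MP_365c00_gt.ZR10
section

/-! Morse theory: passing a nondegenerate critical level. -/

set_option linter.unusedSectionVars false
set_option linter.unusedVariables false

open Set Filter Topology Metric Function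
open scoped Manifold ContDiff
open Pool.Agent.GeoN

namespace Pool.Agent.Fu

variable {E : Type} [NormedAddCommGroup E] [InnerProductSpace ℝ E] [FiniteDimensional ℝ E]
  {M : Type} [MetricSpace M] [ChartedSpace E M] [IsManifold 𝓘(ℝ, E) ∞ M]
  [CompactSpace M] [Nonempty M] [Nontrivial E] {g : Met E M}

variable {sh : Short g} {a : ℝ} {F : Type} [Field F] {δ l : ℝ} {k : ℕ} {t : ℕ → ℝ}
  {P : Type} [NormedAddCommGroup P] [NormedSpace ℝ P]

theorem th_dom (k : ℕ) (y0 : ℕ → M) (e : P →L[ℝ] (ℕ → E)) :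
    ∀ᶠ p in 𝓝 (0 : P), e p ∈ Td E k y0 :=
  e.continuous.continuousAt.eventually_mem
    ((Td_open k y0).mem_nhds (by rw [map_zero]; exact Td_zero k y0))

theorem th_contOn (y0 : ℕ → M) (e : P →L[ℝ] (ℕ → E)) (he : ∀ p, e p ∈ Vk E k) {A : Set P}
    (hA : ∀ p ∈ A, e p ∈ Td E k y0) : ContinuousOn (fun p => Th y0 (e p)) A :=
  (Th_cont k y0).comp e.continuous.continuousOn fun p hp => ⟨hA p hp, he p⟩

theorem th_tendsto (y0 : ℕ → M) (e : P →L[ℝ] (ℕ → E)) (he : ∀ p, e p ∈ Vk E k) :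
    Tendsto (fun p => Th y0 (e p)) (𝓝 0) (𝓝 y0) := by
  have h := (th_contOn y0 e he (A := {p | e p ∈ Td E k y0}) fun _ hp => hp).continuousAt
    (th_dom k y0 e)
  rwa [ContinuousAt, map_zero, Th_zero] at h

variable [FiniteDimensional ℝ P]

theorem neg_ev (h : SMd sh dist a) (ht : Part a l k t) (u : UG g) (ν : P →L[ℝ] (ℕ → E))
    (h1 : ∀ w, ν w ∈ Vk E k) (h2 : ∀ w, w ≠ 0 → Qf sh u k t (ν w) (ν w) < 0) :
    ∀ᶠ w in 𝓝 (0 : P), w ≠ 0 → fE k t (Th (nds u k t) (ν w)) < l := by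
  obtain ⟨d1, d2, d3⟩ := Eb_chart h ht u ν h1
  filter_upwards [cc_neg d1 d2 fun w hw => (d3 w w).trans_lt (h2 w hw)] with w hw h0
  have := hw h0
  rw [map_zero, Th_zero] at this
  exact ((fE_lt_iff ht _ _).2 this).trans_eq (nds_fE h ht u)

/-- the descending cell -/
theorem neg_ball (h : SMd sh dist a) (S : GS M) (ht : Part δ l k t) (hδ : δ ≤ S.a) (hS : S.a ≤ a)
    (u : UG g) (ν : P →L[ℝ] (ℕ → E)) (h1 : ∀ w, ν w ∈ Vk E k)
    (h2 : ∀ w, w ≠ 0 → Qf sh u k t (ν w) (ν w) < 0) :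
    ∃ ρ > 0, ContinuousOn (fun w => S.brk k (Th (nds u k t) (ν w))) (ball 0 ρ) ∧
      ∀ w ∈ ball (0 : P) ρ,
        (∀ j < k, dist (Th (nds u k t) (ν w) j) (Th (nds u k t) (ν w) (j + 1)) < S.a) ∧
        S.brk k (Th (nds u k t) (ν w)) ∈ Omc (u.1 0) (u.1 l) l ∧
        (w ≠ 0 → S.brk k (Th (nds u k t) (ν w)) ∈ Om (u.1 0) (u.1 l) l) := by
  have ta := ht.mono' (hδ.trans hS)
  have e1 : ∀ᶠ c in 𝓝 (nds u k t), ∀ j ∈ Finset.range k, dist (c j) (c (j + 1)) < S.a :=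
    (Finset.eventually_all _).2 fun j hj =>
      (((continuous_apply j).dist (continuous_apply (j + 1))).tendsto _).eventually_lt_const (by
        rw [nds_step h ta u j (Finset.mem_range.1 hj)]
        exact (ht.2.2.2 j (Finset.mem_range.1 hj)).2.trans_le hδ)
  obtain ⟨ρ, hρ, hb⟩ := Metric.eventually_nhds_iff_ball.1 ((th_dom k (nds u k t) ν).and
    (((th_tendsto _ ν h1).eventually e1).and (neg_ev h ta u ν h1 h2)))
  have hs := fun w hw j hj => (hb w hw).2.1 j (Finset.mem_range.2 hj)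
  refine ⟨ρ, hρ, S.brk_cont k (th_contOn _ ν h1 fun p hp => (hb p hp).1) hs, fun w hw => ?_⟩
  obtain ⟨b1, b2⟩ := brk_le S ht (Th_mem (nds_mem ta u) (h1 w)) (hs w hw)
  refine ⟨hs w hw, ⟨b1, b2.trans ?_⟩, fun h0 => ⟨b1, b2.trans_lt ((hb w hw).2.2 h0)⟩⟩
  rcases eq_or_ne w 0 with rfl | h0
  · rw [map_zero, Th_zero, nds_fE h ta u]
  · exact ((hb w hw).2.2 h0).le

theorem neg_ZZ {G : P → Mo M} {ρ : ℝ} {A B : Set (Mo M)} (hG : ContinuousOn G (ball 0 ρ))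
    (h : ∀ w ∈ ball (0 : P) ρ, G w ∈ A ∧ (w ≠ 0 → G w ∈ B)) {r : ℕ} {o : Ch F P}
    (ho : Gen F r univ 0 o) (hc : o ∈ CC F (ball 0 ρ)) : mp G o ∈ ZZ F A B :=
  mp_mem_ZZ (B := univ \ {0}) hG (fun w hw => (h w hw).1) (fun w hw => (h w hw.1).2 hw.2.2)
    (mem_ZZ.2 ⟨hc, (mem_ZZ.1 ho.zz).2⟩)

theorem mt_main (h : SMd sh dist a) (S : GS M) (ht : Part δ l k t) (hδ : δ ≤ S.a) (hS : S.a ≤ a)
    {c : ℝ} (hc : c ^ 2 * δ ≤ S.a ^ 2 * l) (u : UG g) (hxy : u.1 0 ≠ u.1 l) (hn : NdJ g u l)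
    (hl : l < c) (hu : ∀ (v : UG g) (L : ℝ), 0 < L → v.1 0 = u.1 0 → v.1 L = u.1 l → l ≤ L →
      L < c → v = u ∧ L = l) (ν : P →L[ℝ] (ℕ → E)) (h1 : ∀ w, ν w ∈ Vk E k)
    (h2 : ∀ w, w ≠ 0 → Qf sh u k t (ν w) (ν w) < 0) (hr : Module.finrank ℝ P = idx sh a u l) :
    ∃ ρ > 0, ∀ (r : ℕ) (o : Ch F P), Gen F r univ 0 o → o ∈ CC F (ball 0 ρ) →
      GnR F (Om (u.1 0) (u.1 l) c) (Om (u.1 0) (u.1 l) l)
        (mp (fun w => S.brk k (Th (nds u k t) (ν w))) o) := by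
  have ta := ht.mono' (hδ.trans hS)
  obtain ⟨r', e, μ, e1, e2, e3, e4, e5⟩ := la_compl (Q := Ql sh u k t) (Qf_symm h u ta)
    (fun v hv h0 => nd_part h u ta hn hv h0) ν h1 h2 (hr.trans (idx_part h u ta))
  obtain ⟨d1, d2, d3⟩ := Eb_chart h ta u e e1
  have f0 := nds_fE h ta u
  have y0 := nds_mem ta u
  obtain ⟨ρ, hρ, hb⟩ := Metric.eventually_nhds_iff_ball.1 ((th_dom k (nds u k t) e).and
    ((((fE_cont k t).tendsto _).comp (th_tendsto _ e e1)).eventually_lt_const (f0.trans_lt hl) |>.and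
      ((cc_pos d1 d2 fun w hw => (e3 w hw).trans_eq (d3 _ _).symm).and
        (continuous_fst.continuousAt.eventually (neg_ev h ta u ν h1 h2)))))
  refine ⟨ρ, hρ, fun r o ho hoc => ?_⟩
  have cΘ := th_contOn (nds u k t) e e1 fun p hp => (hb p hp).1
  have cΞ : ContinuousOn (fun z => μ (Xi E k (nds u k t) z)) (Xd E k (nds u k t)) :=
    μ.continuous.comp_continuousOn (Xi_cont k _)
  have hU := cΞ.isOpen_inter_preimage (Xd_open k _) (isOpen_ball (x := 0) (ε := ρ))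
  generalize hUe : Xd E k (nds u k t) ∩ (fun z => μ (Xi E k (nds u k t) z)) ⁻¹' ball 0 ρ = U at hU
  have i1 : ∀ p ∈ ball 0 ρ, μ (Xi E k (nds u k t) (Th (nds u k t) (e p))) = p := fun p hp => by
    rw [(Xi_Th (e1 p) (hb p hp).1).2, e4]
  have mU : ∀ p ∈ ball 0 ρ, Th (nds u k t) (e p) ∈ U := fun p hp =>
    hUe ▸ ⟨(Xi_Th (e1 p) (hb p hp).1).1, mem_preimage.2 (by rwa [i1 p hp])⟩
  have hz : Th (nds u k t) (e 0) = nds u k t := by rw [map_zero, Th_zero]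
  have b1 : ∀ w ∈ ball (0 : P) ρ, (w, (0 : Fin r' → ℝ)) ∈ ball 0 ρ := fun w hw => by
    rw [← Prod.mk_zero_zero, ← ball_prod_same]
    exact ⟨hw, mem_ball_self hρ⟩
  have c1 : ∀ w ∈ ball (0 : P) ρ, w ≠ 0 →
      fE k t (Th (nds u k t) (e (w, 0))) < fE k t (nds u k t) := fun w hw h0 => by
    rw [e2, f0]
    exact (hb _ (b1 w hw)).2.2.2 h0
  have c2 : ∀ p ∈ ball (0 : P × (Fin r' → ℝ)) ρ,
      ¬fE k t (Th (nds u k t) (e (0, p.2))) < fE k t (nds u k t) := fun p hp hlt => by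
    have := (hb p hp).2.2.1.1
    rw [hz] at this
    exact ((fE_lt_iff ht _ _).1 hlt).not_ge this
  have hm := gn_model (F := F) (Θ := fun p => Th (nds u k t) (e p))
    (B := Sub (Wk (u.1 0) (u.1 l) k) (fE k t) c ∩ U)
    (L := Sub (Wk (u.1 0) (u.1 l) k) (fE k t) (fE k t (nds u k t)) ∩ U) hρ
    (fun z hz => ⟨⟨hz.1.1, hz.1.2.trans (f0.trans_lt hl)⟩, hz.2⟩) cΘ
    (cΞ.mono fun z hz => (hUe ▸ hz.2 :).1)
    (fun p hp => ⟨⟨Th_mem y0 (e1 p), (hb p hp).2.1⟩, mU p hp⟩) (fun z hz => (hUe ▸ hz.2 :).2) i1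
    (fun z hz => by
      obtain ⟨k1, -, k3⟩ := Th_Xi (E := E) y0 hz.1.1 (hUe ▸ hz.2 :).1
      simp only [e5 _ k1, k3])
    (fun w hw h0 => ⟨⟨Th_mem y0 (e1 _), c1 w hw h0⟩, mU _ (b1 w hw)⟩)
    (fun w hw hL => c2 (0, w) (by
      rw [← Prod.mk_zero_zero, ← ball_prod_same]
      exact ⟨mem_ball_self hρ, hw⟩) hL.1.2)
    (fun p hp hL s hs => by
      have hp' := hp
      rw [← Prod.mk_zero_zero, ← ball_prod_same] at hp'
      refine ⟨⟨Th_mem y0 (e1 _), (fE_lt_iff ht _ _).2 (((hb p hp).2.2.1.2 s hs).trans_lt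
        (max_lt ((fE_lt_iff ht _ _).1 (c1 _ hp'.1 fun h0 => c2 p hp ?_))
          ((fE_lt_iff ht _ _).1 hL.1.2)))⟩, mU _ ?_⟩
      · rw [← h0]
        exact hL.1.2
      · rw [← Prod.mk_zero_zero, ← ball_prod_same]
        refine ⟨hp'.1, ?_⟩
        have := (convex_ball (0 : Fin r' → ℝ) ρ).smul_mem_of_zero_mem (mem_ball_self hρ) hp'.2 hs
        exact this) ho hoc
  have ha := am_one (Wk_closed _ _ k) (fE_cont k t) y0 hU (hz ▸ mU 0 (mem_ball_self hρ))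
    (f0.trans_lt hl) (fun z hz hne k1 k2 => by
      refine (mv_or h ht hxy hz fun j hj =>
        (step_lt ht S.a_pos hc k2 j hj).trans_le hS).resolve_right ?_
      rintro ⟨v, L, p1, p2, p3, p4, p5⟩
      obtain ⟨rfl, rfl⟩ := hu v L p1 p2 p3 (by linarith) (by linarith)
      refine hne (funext fun j => ?_)
      rcases le_total j k with hj | hj
      · rw [p5 j hj, nds, min_eq_left hj, mul_div_cancel₀ _ p1.ne']
      · rw [hz.2 j hj, y0.2 j hj]) hm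
    (mp_mem_CC (fun w hw => by
      rcases eq_or_ne w 0 with rfl | h0
      · exact Or.inr hz
      · exact Or.inl ⟨Th_mem y0 (e1 _), c1 w hw h0⟩) hoc)
  rw [f0] at ha
  have hf := ha.map (fun z hz => And.intro hz.1 (hz.2.trans hl)) (brk_contOn S ht hc)
    (brk_maps S ht hc le_rfl) (brk_maps S ht hc hl.le) (QI_brk S ht hc hl.le)
  rw [mp_mp (f := fun w => Th (nds u k t) (e (w, 0))) (cΘ.comp (by fun_prop) b1)
    (brk_contOn S ht hc)
    (fun w hw => ⟨Th_mem y0 (e1 _), (hb _ (b1 w hw)).2.1⟩) hoc] at hf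
  simpa only [Function.comp_def, e2] using hf

end Pool.Agent.Fu
end

-- part Pool.Agent.P.MP_365c00_gt.ZA5
section

/-! Nondegenerate arcs: openness, stability, finiteness. -/

set_option linter.unusedSectionVars false
set_option linter.unusedVariables false

open Set Filter Topology Metric Function MeasureTheory
open scoped Manifold ContDiff
open Pool.Agent.GeoN

namespace Pool.Agent.Fu

variable {E : Type} [NormedAddCommGroup E] [InnerProductSpace ℝ E] [FiniteDimensional ℝ E]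
  {M : Type} [MetricSpace M] [ChartedSpace E M] [IsManifold 𝓘(ℝ, E) ∞ M]
  [CompactSpace M] [Nonempty M] [Nontrivial E] {g : Met E M}

theorem za5_ev {x : M} {w : UG g × ℝ} (hw : w.1.1 0 ∈ (κ E x).source) (hl : 0 < w.2) :
    ∀ᶠ v in 𝓝 w, v.1.1 0 ∈ (κ E x).source ∧ 0 < v.2 := by
  have h1 : Continuous fun v : UG g × ℝ => v.1.1 0 := continuous_fst.comp Psi_cont
  exact (h1.continuousAt.eventually ((source_open x).mem_nhds hw)).and
    (continuous_snd.continuousAt.eventually (lt_mem_nhds hl))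

theorem za5_inj {x x' : M} {w : UG g × ℝ} (hw : w.1.1 0 ∈ (κ E x).source)
    (hw' : w.1.1 w.2 ∈ (κ E x').source) (hl : 0 < w.2) (hn : NdJ g w.1 w.2) :
    Injective (fderiv ℝ (FF g x x') (jet x w)) :=
  (nd_iff (jet_DD hw hw' hl)).2 (by rw [arc_jet hw hl]; exact hn)

theorem nd_ev {w : UG g × ℝ} (hl : 0 < w.2) (hn : NdJ g w.1 w.2) :
    ∀ᶠ v in 𝓝 w, NdJ g v.1 v.2 := by
  have hw : w.1.1 0 ∈ (κ E (w.1.1 0)).source := mem_extChartAt_source _
  have hw' : w.1.1 w.2 ∈ (κ E (w.1.1 w.2)).source := mem_extChartAt_source _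
  have hD := jet_DD hw hw' hl
  have h1 := inj_ev (FF_smooth hD) (za5_inj hw hw' hl hn)
  have h2 : ∀ᶠ y in 𝓝 (jet (w.1.1 0) w), y ∈ DD g (w.1.1 0) (w.1.1 w.2) 1 :=
    (DD_open _ _ _).mem_nhds hD
  filter_upwards [(jet_cont hw).eventually (h1.and h2), za5_ev hw hl] with v hv hv'
  have h3 := (nd_iff hv.2).1 hv.1
  rwa [arc_jet hv'.1 hv'.2] at h3

theorem psi_inj {w : UG g × ℝ} (hl : 0 < w.2) (hn : NdJ g w.1 w.2) :
    ∃ N : Set (UG g × ℝ), IsOpen N ∧ w ∈ N ∧ InjOn Psi N := by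
  have hw : w.1.1 0 ∈ (κ E (w.1.1 0)).source := mem_extChartAt_source _
  have hw' : w.1.1 w.2 ∈ (κ E (w.1.1 w.2)).source := mem_extChartAt_source _
  have hD := jet_DD hw hw' hl
  obtain ⟨b, O, -, -, -, hb⟩ := loc_inv (FF_smooth hD) (za5_inj hw hw' hl hn) univ_mem
  obtain ⟨N, hN, hNo, hNw⟩ :=
    eventually_nhds_iff.1 (((jet_cont hw).eventually hb).and (za5_ev hw hl))
  refine ⟨N, hNo, hNw, fun v hv v' hv' e => ?_⟩
  obtain ⟨⟨-, h1⟩, h2, h3⟩ := hN v hv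
  obtain ⟨⟨-, h1'⟩, h2', h3'⟩ := hN v' hv'
  rw [FF_arc (jet_mem h2 h3), arc_jet h2 h3] at h1
  rw [FF_arc (jet_mem h2' h3'), arc_jet h2' h3', ← e, h1] at h1'
  rw [← arc_jet h2 h3, h1', arc_jet h2' h3']

variable {sh : Short g} {a : ℝ} (h : SMd sh dist a) (S : GS M)
  (hS : S.a = a / (2 * Module.finrank ℝ E))

theorem geo_st : (geoD h S hS).ST := by
  intro x y hR w hw
  change UG g × ℝ at w
  have hl : 0 < w.2 := hw.1
  have h0 : w.1.1 0 = x := hw.2.1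
  have h1 : w.1.1 w.2 = y := hw.2.2
  obtain ⟨N, hNo, hNw, hNi⟩ := psi_inj hl (hR.2.1 w hw)
  have hK : IsCompact ((univ : Set (UG g)) ×ˢ Icc (w.2 / 2) (2 * w.2)) :=
    isCompact_univ.prod isCompact_Icc
  have hC : IsClosed {z : ℝ × (UG g × ℝ) | z.2.1.1 0 = w.1.1 z.1 ∧ z.2.1.1 z.2.2 = y ∧
      |z.2.2 - w.2| ≤ 5 * z.1} :=
    (isClosed_eq ((continuous_fst.comp Psi_cont).comp continuous_snd)
      (w.1.1.continuous.comp continuous_fst)).inter
      ((isClosed_eq ((ev_cont g).comp continuous_snd) continuous_const).inter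
        (isClosed_le (f := fun z : ℝ × (UG g × ℝ) => |z.2.2 - w.2|)
          (g := fun z : ℝ × (UG g × ℝ) => 5 * z.1) (by fun_prop) (by fun_prop)))
  have E1 : ∀ᶠ δ in 𝓝 (0 : ℝ), ∀ v ∈ (univ : Set (UG g)) ×ˢ Icc (w.2 / 2) (2 * w.2),
      (v.1.1 0 = w.1.1 δ ∧ v.1.1 v.2 = y ∧ |v.2 - w.2| ≤ 5 * δ) → v ∈ N := by
    refine hK.eventually_forall_of_forall_eventually
      (P := fun (δ : ℝ) (v : UG g × ℝ) =>
        (v.1.1 0 = w.1.1 δ ∧ v.1.1 v.2 = y ∧ |v.2 - w.2| ≤ 5 * δ) → v ∈ N) fun v _ => ?_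
    by_cases hv : v.1.1 0 = w.1.1 0 ∧ v.1.1 v.2 = y ∧ |v.2 - w.2| ≤ 5 * (0 : ℝ)
    · have e : v.2 = w.2 := by
        have := hv.2.2
        rw [mul_zero, abs_nonpos_iff] at this
        linarith
      have hvJ : v ∈ (geoD h S hS).J x y := ⟨by change 0 < v.2; rwa [e], hv.1.trans h0, hv.2.1⟩
      have e' : v = w := hR.2.2.1 v hvJ w hw e
      have h2 : ∀ᶠ z : ℝ × (UG g × ℝ) in 𝓝 (0, v), z.2 ∈ N :=
        continuous_snd.continuousAt.eventually (hNo.mem_nhds (e' ▸ hNw))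
      exact h2.mono fun z hz _ => hz
    · have h2 := hC.isOpen_compl.mem_nhds (x := ((0 : ℝ), v)) hv
      exact Eventually.mono h2 fun z hz hz' => absurd hz' hz
  have E2 : ∀ᶠ δ in 𝓝 (0 : ℝ), (shift δ w.1, w.2 - δ) ∈ N := by
    have hc : Continuous fun δ : ℝ => (shift δ w.1, w.2 - δ) :=
      ((shift_cont g).comp (continuous_id.prodMk continuous_const)).prodMk (by fun_prop)
    refine hc.continuousAt.eventually (hNo.mem_nhds ?_)
    change (shift 0 w.1, w.2 - 0) ∈ N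
    rw [za_shift_zero, sub_zero]
    exact hNw
  have E3 : ∀ᶠ δ in 𝓝 (0 : ℝ), δ < w.2 / 10 := gt_mem_nhds (by linarith)
  obtain ⟨δ0, hδ0, hb⟩ := Metric.eventually_nhds_iff.1 (E1.and (E2.and E3))
  refine ⟨δ0, hδ0, fun δ hδ v hv hd => ?_⟩
  change UG g × ℝ at v
  obtain ⟨b1, b2, b3⟩ := hb (y := δ) (by rw [Real.dist_eq, sub_zero, abs_of_pos hδ.1]; exact hδ.2)
  have hd' : |v.2 - w.2| ≤ 5 * δ := hd
  have hv0 : v.1.1 0 = w.1.1 δ := hv.2.1
  have hv1 : v.1.1 v.2 = y := hv.2.2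
  have hd2 := abs_le.1 hd'
  have hvN := b1 v ⟨mem_univ _, by linarith [hd2.1], by linarith [hd2.2]⟩ ⟨hv0, hv1, hd'⟩
  have e : Psi v = Psi (shift δ w.1, w.2 - δ) := by
    refine Prod.ext ?_ ?_
    · change v.1.1 0 = (shift δ w.1).1 0
      rw [shift_apply, zero_add, hv0]
    · change v.1.1 v.2 = (shift δ w.1).1 (w.2 - δ)
      rw [shift_apply, sub_add_cancel, hv1, h1]
  exact congrArg Prod.snd (hNi hvN b2 e)

theorem geo_fin {x y : M} (hne : x ≠ y) (hn : ∀ w ∈ (geoD h S hS).J x y, NdJ g w.1 w.2) (L : ℝ) :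
    {w | w ∈ (geoD h S hS).J x y ∧ w.2 ≤ L}.Finite := by
  set A : Set (UG g × ℝ) := {w | (w.1.1 0 = x ∧ w.1.1 w.2 = y) ∧ w.2 ∈ Icc (dist x y) L} with hA
  have hd : 0 < dist x y := dist_pos.2 hne
  have hcl : IsClosed A :=
    ((isClosed_eq (continuous_fst.comp Psi_cont) continuous_const).inter
      (isClosed_eq (ev_cont g) continuous_const)).inter (isClosed_Icc.preimage continuous_snd)
  have hK : IsCompact A :=
    ((isCompact_univ (X := UG g)).prod (isCompact_Icc (a := dist x y) (b := L))).of_isClosed_subset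
      hcl fun w hw => ⟨mem_univ _, hw.2⟩
  have hex : ∀ w ∈ A, ∃ N : Set (UG g × ℝ), IsOpen N ∧ w ∈ N ∧ InjOn Psi N := fun w hw =>
    psi_inj (hd.trans_le hw.2.1) (hn w ⟨hd.trans_le hw.2.1, hw.1.1, hw.1.2⟩)
  choose! N hNo hNw hNi using hex
  obtain ⟨t, ht, hc⟩ := hK.elim_nhds_subcover N fun w hw => (hNo w hw).mem_nhds (hNw w hw)
  have hfin : A.Finite := by
    refine t.finite_toSet.subset fun w hw => ?_
    obtain ⟨v, hv, hwv⟩ := mem_iUnion₂.1 (hc hw)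
    have hvA := ht v hv
    have e : w = v := hNi v hvA hwv (hNw v hvA)
      (Prod.ext (hw.1.1.trans hvA.1.1.symm) (hw.1.2.trans hvA.1.2.symm))
    rw [e]
    exact hv
  refine hfin.subset fun w hw => ?_
  change UG g × ℝ at w
  have hl : 0 < w.2 := hw.1.1
  have h0 : w.1.1 0 = x := hw.1.2.1
  have h1 : w.1.1 w.2 = y := hw.1.2.2
  refine ⟨⟨h0, h1⟩, ?_, hw.2⟩
  have h2 := h.lip w.1 0 w.2
  rwa [h0, h1, zero_sub, abs_neg, abs_of_pos hl] at h2

end Pool.Agent.Fu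
end

-- part Pool.Agent.P.MP_365c00_gt.ZCore
section

/-! The Smith type argument. -/

set_option linter.unusedSectionVars false
set_option linter.unusedVariables false

open Set Topology Filter Metric

namespace Pool.Agent.Fu

variable {F : Type} [Field F] {M : Type} [MetricSpace M] {Z : Type} [TopologicalSpace Z]

theorem zcore_fin {K1 K3 θ s τ w q B κ η' δ c1 c3 r : ℝ} (hK1 : 0 < K1) (hK3 : 0 < K3)
    (hτ : 0 < τ) (hw : 0 < w) (hws : w ≤ s) (hs : s ≤ θ) (hq : 0 ≤ q) (hB : 0 ≤ B) (hκ : 0 ≤ κ)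
    (hc1 : c1 = K1 * s) (hc3 : c3 ≤ K3 * θ) (hc30 : 0 ≤ c3) (hr : r ≤ B + 2 * q * c1 / τ)
    (h1 : K1 * θ + K3 * θ * B ≤ q * w / 4) (h2 : θ * (8 * K1 * K3) ≤ τ)
    (h3 : η' * (4 * (κ + 1)) ≤ w) (h30 : 0 ≤ η') (h4 : δ ≤ s / 16) :
    c1 + c3 * r + κ * q * η' + 4 * δ * q ≤ q * s := by
  have hs0 : 0 < s := by linarith
  have hqs : 0 ≤ q * s := by positivity
  have a0 : q * w ≤ q * s := mul_le_mul_of_nonneg_left hws hq
  have a1 : c3 * r ≤ c3 * B + c3 * (2 * q * c1 / τ) := by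
    rw [← mul_add]; exact mul_le_mul_of_nonneg_left hr hc30
  have a2 : c3 * B ≤ K3 * θ * B := mul_le_mul_of_nonneg_right hc3 hB
  have a3 : c1 ≤ K1 * θ := by rw [hc1]; exact mul_le_mul_of_nonneg_left hs hK1.le
  have a4 : c3 * (2 * q * c1 / τ) ≤ q * s / 4 := by
    have b1 : 0 ≤ 2 * q * c1 / τ := by rw [hc1]; positivity
    refine (mul_le_mul_of_nonneg_right hc3 b1).trans ?_
    rw [hc1, ← mul_div_assoc, div_le_iff₀ hτ]
    have b2 := mul_le_mul_of_nonneg_left h2 hqs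
    linarith
  have a5 : κ * q * η' ≤ q * s / 4 := by
    have b1 : κ * η' ≤ w / 4 := by linarith
    have b2 := mul_le_mul_of_nonneg_left b1 hq
    linarith
  have a6 : 4 * δ * q ≤ q * s / 4 := by
    have b2 := mul_le_mul_of_nonneg_left h4 hq
    linarith
  linarith

theorem core [CompactSpace M] (S : GS M) {d N : ℕ}
    (hE : ∀ p : M, ∃ U : Set M, IsOpen U ∧ p ∈ U ∧ Euc d U) (ι : C(M, Fin N → ℝ))
    (hι : Function.Injective ι) {C0 τ : ℝ} (hC : 0 < C0) (hτ : 0 < τ) :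
    ∃ θ0 > 0, ∀ θ, 0 < θ → θ ≤ θ0 → ∀ w > 0, ∃ η > 0, ∀ A : ℝ, ∃ Q : ℕ, ∀ (q : ℕ) [Fact q.Prime],
      Q ≤ q → OR (ZMod q) d M → ∀ (n : ℕ) (s : ℝ) (x : M → Ch (ZMod q) (Mo M)), w ≤ s → s ≤ θ →
      PW (ZMod q) S C0 τ θ η A s n x → False := by
  have ha := S.a_pos
  obtain ⟨J, hJ⟩ : ∃ J : ℝ, J = ((2 ^ N : ℕ) : ℝ) := ⟨_, rfl⟩
  have hJ0 : 0 < J := by rw [hJ]; positivity
  obtain ⟨K1, hK1⟩ : ∃ K1 : ℝ, K1 = 5 + 14 * (J + 1) := ⟨_, rfl⟩
  have hK10 : 0 < K1 := by rw [hK1]; positivity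
  obtain ⟨K3, hK3⟩ : ∃ K3 : ℝ, K3 = K1 + 14 * J := ⟨_, rfl⟩
  have hK30 : 0 < K3 := by rw [hK3]; positivity
  obtain ⟨κ, hκ⟩ : ∃ κ : ℝ, κ = ((N + (d + d) : ℕ) : ℝ) := ⟨_, rfl⟩
  have hκ0 : 0 ≤ κ := by rw [hκ]; positivity
  refine ⟨min (min (S.a / (8 * (2 * K1 + 14 * J + 1))) (1 / (2 * C0 * (3 * K1 + 28 * J + 2))))
    (min (τ / (2 * K3)) (τ / (8 * K1 * K3))), by positivity, fun θ hθ hθ0 w hw => ?_⟩
  simp only [le_min_iff] at hθ0
  obtain ⟨⟨t1, t2⟩, t3, t4⟩ := hθ0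
  rw [le_div_iff₀ (by positivity)] at t1 t2 t3 t4
  obtain ⟨η', hη'⟩ : ∃ η' : ℝ, η' = min (τ / 2) (w / (4 * (κ + 1))) := ⟨_, rfl⟩
  have hη0 : 0 < η' := by rw [hη']; positivity
  have e1 : η' ≤ τ / 2 := by rw [hη']; exact min_le_left _ _
  have e2 : η' * (4 * (κ + 1)) ≤ w := by
    rw [← le_div_iff₀ (by positivity), hη']; exact min_le_right _ _
  obtain ⟨η, hη⟩ : ∃ η : ℝ, η = η' / (3 * (J * J)) := ⟨_, rfl⟩
  have hη1 : 0 < η := by rw [hη]; positivity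
  refine ⟨η, hη1, fun A => ?_⟩
  obtain ⟨B, hB⟩ : ∃ B : ℝ, B = 2 * (d + |A| + 2) + 1 := ⟨_, rfl⟩
  have hB0 : 0 ≤ B := by rw [hB]; positivity
  obtain ⟨Q, hQ⟩ := exists_nat_ge ((K1 * θ + K3 * θ * B) * 4 / w)
  refine ⟨max 3 Q, fun q _ hq O n s x hws hs hP => ?_⟩
  have hq3 : 3 ≤ q := (le_max_left _ _).trans hq
  have hqQ : (Q : ℝ) ≤ q := by exact_mod_cast (le_max_right _ _).trans hq
  have hq0 : (0 : ℝ) ≤ q := Nat.cast_nonneg q
  have hs0 : 0 < s := by linarith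
  have h2 : (2 : ZMod q) ≠ 0 := fun h => by
    have := Nat.le_of_dvd two_pos ((ZMod.natCast_eq_zero_iff 2 q).1 (by exact_mod_cast h))
    omega
  obtain ⟨δ0, hδ0, hY⟩ := exists_YH h2 S hE O
  obtain ⟨δ, hδ⟩ : ∃ δ : ℝ, δ = min (min δ0 (s / 16)) (min (s / (2 * q + 9)) (η / (2 * q + 9))) :=
    ⟨_, rfl⟩
  have hδ1 : 0 < δ := by rw [hδ]; positivity
  have hδ2 := hδ.le
  simp only [le_min_iff] at hδ2
  obtain ⟨⟨d1, d2⟩, d3, d4⟩ := hδ2
  rw [le_div_iff₀ (by positivity)] at d3 d4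
  obtain ⟨O', hO'⟩ := hY δ hδ1 d1
  obtain ⟨c1, hc1⟩ : ∃ c1 : ℝ, c1 = K1 * s := ⟨_, rfl⟩
  have hc10 : 0 < c1 := by rw [hc1]; positivity
  have hc11 : c1 ≤ K1 * θ := by rw [hc1]; exact mul_le_mul_of_nonneg_left hs hK10.le
  have hc3 : c1 + 14 * J * θ ≤ K3 * θ := by rw [hK3]; linarith
  have hu : 0 ≤ 2 * q * c1 / τ := by positivity
  refine core_aux (c1 := c1) (c3 := c1 + 14 * J * θ) (η' := η')
    (r := ⌊max 0 (2 * (d + A + 2) + 2 * q * c1 / τ)⌋₊ + 1) hq3 hO' hP ι hι hC hτ (by linarith)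
    (by linarith) hs (by rw [hc1, hK1, hJ]) (by rw [hJ]) ?_ ?_ ?_ (by linarith) e1 ?_ ?_ ?_
  · rw [Nat.cast_mul, ← hJ, hη]
    field_simp
  · rw [← hJ]
    linarith
  · rw [← hJ]
    have : C0 * (3 * c1 + 28 * J * θ + 2 * θ) ≤ C0 * (3 * (K1 * θ) + 28 * J * θ + 2 * θ) :=
      mul_le_mul_of_nonneg_left (by linarith) hC.le
    linarith
  · nlinarith [mul_nonneg hη0.le hκ0]
  · push_cast
    exact (le_max_right _ _).trans_lt (Nat.lt_floor_add_one _)
  · rw [Nat.cast_mul, ← hκ]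
    refine zcore_fin (B := B) hK10 hK30 hτ hw hws hs hq0 hB0 hκ0 hc1 hc3 (by positivity) ?_ ?_ t4
      e2 hη0.le d2
    · have b1 := Nat.floor_le (le_max_left 0 (2 * (d + A + 2) + 2 * q * c1 / τ))
      have b2 : max 0 (2 * (d + A + 2) + 2 * q * c1 / τ) ≤
          2 * (d + |A| + 2) + 2 * q * c1 / τ :=
        max_le (by positivity) (by linarith [le_abs_self A])
      push_cast
      linarith
    · rw [div_le_iff₀ hw] at hQ
      have := mul_le_mul_of_nonneg_right hqQ hw.le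
      linarith

end Pool.Agent.Fu
end

-- part Pool.Agent.P.MP_365c00_gt.ZQ5
section

/-! Properties of an invariant family. -/

set_option linter.unusedSectionVars false
set_option linter.unusedVariables false

open Set Topology Filter Metric

namespace Pool.Agent.Fu

variable {F : Type} [Field F] {M : Type} [MetricSpace M] {Z : Type} [TopologicalSpace Z]

namespace GD
variable {D : GD M} {τ θ σ : ℝ} {n : ℕ} {X : M → Ch F (Mo M)}

theorem Low.mono {σ' : ℝ} (h : Low F τ σ n X) (hσ : σ ≤ σ') : Low F τ σ' n X := by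
  intro p k
  obtain ⟨z, h1, h2, h3⟩ := h p k
  exact ⟨z, ZZ_mono (Om_mono p p (by linarith)) (subset_refl _) h1, h2, h3⟩
theorem Low.pwr (h : Low F τ σ n X) (hc : ∀ p, X p ∈ ZZ F (Pa p p) ∅) (j : ℕ) :
    Low F τ σ ((j + 1) * n) fun p => pwr j (X p) := by
  intro p k
  obtain ⟨z, h1, h2, h3⟩ := h p (k * (j + 1) + j)
  refine ⟨z, ZZ_mono (Om_mono p p (le_of_eq ?_)) (subset_refl _) h1, ?_, ?_⟩
  · push_cast
    ring
  · rwa [show (k + 1) * ((j + 1) * n) = (k * (j + 1) + j + 1) * n by ring]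
  · rwa [pwr_pwr k j (hc p)]
theorem FX.pwr (hτ : 0 < τ) (h : FX F D τ θ n X) (j : ℕ) :
    FX F D τ θ ((j + 1) * n) fun p => pwr j (X p) := by
  have hn := h.pos
  have hp : 0 < (j + 1) * n := by positivity
  refine ⟨hp, h.even.mul_left _, h.net.dvd hτ hn hp (Dvd.intro_left _ rfl),
    fun p => pwr_mem j (h.cyc p), fun p => pwr_HD j (h.deg p), fun p p' hd => ?_,
    fun p k => ?_, h.low.pwr h.cyc j⟩
  · have ha := D.a_pos
    have d1 : dist p p' < D.a := by linarith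
    have d2 : dist p' p < D.a := by rwa [dist_comm]
    have h1 := D.toGS.wh_pwr (x := p) (x' := p') (by linarith) j (h.cyc p)
    have h2 := pwr_congr j (D.toGS.wh_Pa d2 d1 (h.cyc p)) (h.cyc p') (h.conj p p' hd)
    have := Submodule.sub_mem _ h2 h1
    rwa [sub_sub_sub_cancel_left] at this
  · rw [pwr_pwr k j (h.cyc p)]
    exact h.nz p _

theorem mul_congr_zq5 {x y z : M} {a a' b b' : Ch F (Mo M)} (h1 : a - a' ∈ BB F (Pa x y))
    (h2 : b - b' ∈ BB F (Pa y z)) (ha : a' ∈ ZZ F (Pa x y) ∅) (hb : b ∈ ZZ F (Pa y z) ∅) :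
    mul a b - mul a' b' ∈ BB F (Pa x z) := by
  have := Submodule.add_mem _ (mul_Pa_left h1 hb) (mul_Pa_right ha h2)
  rwa [map_sub, LinearMap.sub_apply, map_sub, sub_add_sub_cancel] at this

/-- a gap in the length spectrum of one pair bounds the level from below -/
theorem FX.not_low (hM : D.MT F) (hτ : 0 < τ) (h : FX F D τ θ n X) {x y : M} {m : ℕ} (hm : 0 < m)
    (hp : D.Per τ m x y) (hd : dist x y < D.a / 16)
    (hg : D.Gap x y (n * τ + dist x y - σ) (n * τ + dist x y + σ)) : ¬ Low F τ σ n X := by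
  intro hl
  have ha := D.a_pos
  have hn := h.pos
  have d0 : dist x x < D.a := by rwa [dist_self]
  have d1 : dist x y < D.a := by linarith
  obtain ⟨k, hk⟩ : ∃ k, k + 2 = 2 * m := ⟨2 * m - 2, by omega⟩
  obtain ⟨z0, a1, a2, a3⟩ := hl x 0
  obtain ⟨z1, b1, b2, b3⟩ := hl y k
  have c1 : mp (D.wh x y) z0 ∈ ZZ F (Om x y (n * τ + dist x y + σ)) ∅ :=
    D.toGS.wh_cyc d0 d1 (le_of_eq (by rw [dist_self]; push_cast; ring)) a1
  have c2 : mp (D.wh x y) z0 ∈ HD F _ n := by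
    have := mp_mem_HD (D.wh x y) a2
    rwa [zero_add, one_mul] at this
  obtain ⟨g, g1, g2, g3⟩ :=
    NN_HD c2 (hM.mt0 x y _ _ hp.1.1 hg (ZZ_mono (subset_refl _) (empty_subset _) c1))
  have e1 : mp (D.wh x y) z0 - bd g ∈ ZZ F (Om x y (n * τ + dist x y - σ)) ∅ :=
    mem_ZZ_empty.2 ⟨g3, by rw [map_sub, bd_bd, (mem_ZZ_empty.1 c1).2, sub_zero]⟩
  have e2 : mp (D.wh x y) z0 - bd g ∈ HD F _ n := Submodule.sub_mem _ c2 (bd_mem_HD g2)
  have hP : D.Per τ ((k + 2) * n) x y :=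
    hp.dvd hτ hm (by positivity) ⟨2 * n, by rw [hk]; ring⟩
  have f1 : mul (mp (D.wh x y) z0 - bd g) z1 ∈
      BB F (Om x y (((k + 2) * n : ℕ) * τ + dist x y)) := by
    refine hM.van (k := (k + 2) * n) hP d1.le (Or.inr ⟨Nat.le_succ _, le_rfl⟩) ?_ ?_
    · refine ZZ_mono (Om_mono x y (le_of_eq ?_)) (subset_refl _) (mul_cyc e1 b1)
      push_cast
      ring
    · have := mul_mem_HD e2 b2
      rwa [show n + (k + 1) * n = (k + 2) * n by ring] at this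
  have f2 : mp (D.wh x y) z0 - bd g - mp (D.wh x y) (X x) ∈ BB F (Pa x y) := by
    have t1 := D.toGS.wh_BB_Pa d0 d1 a3
    have t2 : bd g ∈ BB F (Pa x y) := mem_BB.2 ⟨g, CC_mono (Om_sub x y _) g1, rfl⟩
    have := Submodule.sub_mem _ t1 t2
    rwa [map_sub, sub_right_comm] at this
  have f3 : z1 - mp (D.wh y y) (Fu.pwr k (X x)) ∈ BB F (Pa y y) := by
    have := Submodule.sub_mem _ b3 ((h.pwr hτ k).conj x y (by linarith))
    rwa [sub_sub_sub_cancel_right] at this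
  have f4 := mul_congr_zq5 f2 f3 (D.toGS.wh_Pa d0 d1 (h.cyc x))
    (ZZ_mono (Om_sub y y _) (subset_refl _) b1)
  have f5 := D.toGS.wh_mul_Pa (x := x) (y := x) (z := x) (x' := x) (y' := y) (z' := y) d0
    (by linarith) d1 (h.cyc x) (pwr_mem k (h.cyc x))
  have f6 := Submodule.sub_mem _ (BB_mono (Om_sub x y _) f1) (Submodule.add_mem _ f4 f5)
  rw [sub_add_sub_cancel, sub_sub_cancel] at f6
  refine h.nz x (0 + k + 1) ?_
  rw [pwr_add 0 k (h.cyc x)]
  exact D.toGS.BB_of_wh_Pa (x' := x) (y' := y) (by rw [dist_self]; linarith) (by linarith)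
    (mul_Pa (h.cyc x) (pwr_mem k (h.cyc x))) f6

theorem near_zq5 (hM : D.MT F) (h1 : θ ≤ D.a / 100) {p x y : M} (hr : D.Reg x y)
    (hx : dist x p < θ / 4) (hy : dist y p < θ / 4) {k : ℕ} {t : ℝ}
    (hv : ∀ v ∈ D.J x y, v.2 < t + θ / 2 → D.ind v.1 v.2 ≠ k)
    {z : Ch F (Mo M)} (hz : z ∈ ZZ F (Om p p t) ∅) (hd : z ∈ HD F _ k) :
    z ∈ BB F (Om p p (t + θ)) := by
  have ha := D.a_pos
  rw [dist_comm] at hy
  have c1 : mp (D.wh x y) z ∈ ZZ F (Om x y (t + θ / 2)) ∅ :=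
    D.toGS.wh_cyc (by linarith) (by linarith) (by linarith) hz
  exact D.toGS.BB_of_wh (x' := x) (y' := y) (by linarith) (by linarith) (by linarith)
    (by linarith) hz (hM.abs hr hv c1 (mp_mem_HD _ hd))

theorem Net.coarse (hM : D.MT F) (hτ : 0 < τ) (hn : 0 < n) (h1 : θ ≤ D.a / 100) (h : D.Net τ θ n)
    (p : M) (j k : ℕ) (b : ℝ) (hb : 0 ≤ b) (hk : (j + 1) * n + D.C0 * (b + θ) < k)
    {z : Ch F (Mo M)} (hz : z ∈ ZZ F (Om p p ((j + 1) * (n * τ) + b)) ∅) (hd : z ∈ HD F _ k) :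
    z ∈ BB F (Om p p ((j + 1) * (n * τ) + b + θ)) := by
  obtain ⟨x, y, hp, hx, hy⟩ := h p p
  have hθ : 0 < θ := by linarith [dist_nonneg (x := x) (y := p)]
  have hC := D.C0_pos
  have hP := hp.mul hτ hn (Nat.succ_pos j)
  refine near_zq5 hM h1 hp.1 hx hy (fun v hv hl he => ?_) hz hd
  have h0 : 0 ≤ D.C0 * (b + θ) := by positivity
  rcases lt_or_ge v.2 ((j.succ * n : ℕ) * τ) with c | c
  · have t1 : ((D.ind v.1 v.2 + 2 : ℕ) : ℝ) ≤ (j.succ * n : ℕ) := by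
      exact_mod_cast (hP.2 v hv).2.2 c
    rw [he] at t1
    push_cast at t1
    linarith
  · obtain ⟨t1, t2⟩ := hP.sub hv c
    have t3 := D.ind_le v.1 _ t1.1
    have t4 : (k : ℝ) = D.ind v.1 (v.2 - (j.succ * n : ℕ) * τ) + (j.succ * n : ℕ) := by
      rw [← he, t2]
      push_cast
      rfl
    have t5 : D.C0 * (v.2 - (j.succ * n : ℕ) * τ) ≤ D.C0 * (b + θ) := by
      refine mul_le_mul_of_nonneg_left ?_ hC.le
      push_cast
      linarith
    push_cast at t3 t4 t5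
    linarith

theorem MT.strip [CompactSpace M] (hD : D.DN τ) {η : ℝ} (hη : 0 < η) :
    ∃ A : ℝ, ∀ (F : Type) [Field F], D.MT F → ∀ (p : M) (k : ℕ) (t : ℝ), t / τ + A < k →
      ∀ z ∈ ZZ F (Om p p t) ∅, z ∈ HD F _ k → z ∈ BB F (Om p p (t + η)) := by
  have ha := D.a_pos
  have hτ := hD.pos
  have h0 : 0 < min η (D.a / 100) := lt_min hη (by linarith)
  obtain ⟨m, hm, hN⟩ := exists_net hD h0
  refine ⟨D.C0 * (m * τ) + min η (D.a / 100) / τ, fun F _ hM p k t hk z hz hd => ?_⟩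
  obtain ⟨x, y, hp, hx, hy⟩ := hN p p
  refine BB_mono (Om_mono p p ?_)
    (near_zq5 hM (min_le_right _ _) hp.1 hx hy (fun v hv hl he => ?_) hz hd)
  · linarith [min_le_left η (D.a / 100)]
  · have t1 := hp.ind_le hτ hm hv
    have t2 : v.2 / τ ≤ (t + min η (D.a / 100)) / τ :=
      div_le_div_of_nonneg_right (by linarith) hτ.le
    rw [add_div] at t2
    rw [he] at t1
    linarith

end GD

end Pool.Agent.Fu
end

-- part Pool.Agent.P.MP_365c00_gt.ZR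
section

/-! Morse theory for the path spaces of a Riemannian manifold. -/

set_option linter.unusedSectionVars false
set_option linter.unusedVariables false

open Set Filter Topology Metric Function MeasureTheory
open scoped Manifold ContDiff
open Pool.Agent.GeoN

namespace Pool.Agent.Fu

variable {E : Type} [NormedAddCommGroup E] [InnerProductSpace ℝ E] [FiniteDimensional ℝ E]
  {M : Type} [MetricSpace M] [ChartedSpace E M] [IsManifold 𝓘(ℝ, E) ∞ M]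
  [CompactSpace M] [Nonempty M] [Nontrivial E] {g : Met E M}

theorem zr_mesh {b l : ℝ} (hb : 0 < b) (hl : 0 < l) (c : ℝ) :
    ∃ δ > 0, δ ≤ b ∧ c ^ 2 * δ ≤ b ^ 2 * l := by
  refine ⟨min b (b ^ 2 * l / (c ^ 2 + 1)), by positivity, min_le_left _ _, ?_⟩
  have h := (le_div_iff₀ (by positivity)).1 (min_le_right b (b ^ 2 * l / (c ^ 2 + 1)))
  have h0 : 0 < min b (b ^ 2 * l / (c ^ 2 + 1)) := by positivity
  linarith

theorem zr_mt0 {sh : Short g} {a : ℝ} (h : SMd sh dist a) (S : GS M) (hS : S.a ≤ a) (F : Type)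
    [Field F] {x y : M} (hxy : x ≠ y) {b c : ℝ}
    (hg : ∀ (u : UG g) (l : ℝ), 0 < l → u.1 0 = x → u.1 l = y → l < b ∨ c ≤ l) :
    ZZ F (Om x y c) (Om x y b) ≤ NN F (Om x y c) (Om x y b) := by
  rcases le_total c b with hb | hb
  · exact fun z hz => CC_le_NN _ _ (CC_mono (Om_mono x y hb) (mem_ZZ.1 hz).1)
  obtain ⟨δ, h0, h1, h2⟩ := zr_mesh S.a_pos one_pos c
  have ht := part_std h0 one_pos
  refine QI_zero (fun z hz => And.intro hz.1 (hz.2.trans_le hb)) (brk_contOn S ht h2)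
    (brk_maps S ht h2 le_rfl) (brk_maps S ht h2 hb) (QI_brk S ht h2 hb)
    (am_zero (Wk_closed _ _ _) (fE_cont _ _) fun z hz k1 k2 => ?_)
  refine (mv_or h ht hxy hz fun j hj =>
    (step_lt ht S.a_pos h2 k2 j hj).trans_le hS).resolve_right ?_
  rintro ⟨v, L, p1, p2, p3, p4, -⟩
  rcases hg v L p1 p2 p3 with k | k <;> linarith

theorem zr_neg {sh : Short g} {a : ℝ} (h : SMd sh dist a) (u : UG g) {l : ℝ} {k : ℕ} {t : ℕ → ℝ}
    (ht : Part a l k t) : ∃ ν : (Fin (idx sh a u l) → ℝ) →L[ℝ] (ℕ → E),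
      (∀ w, ν w ∈ Vk E k) ∧ ∀ w, w ≠ 0 → Qf sh u k t (ν w) (ν w) < 0 := by
  rw [idx_part h u ht]
  exact la_neg (Ql sh u k t) k

theorem zr_gen {F : Type} [Field F] (h2 : (2 : F) ≠ 0) (r : ℕ) {ρ : ℝ} (hρ : 0 < ρ) :
    ∃ o : Ch F (Fin r → ℝ), Gen F r univ 0 o ∧ o ∈ CC F (ball 0 ρ) := by
  obtain ⟨o, ho⟩ := exists_gen h2 (Fin r → ℝ)
  rw [Module.finrank_fin_fun] at ho
  obtain ⟨o', k1, k2, -⟩ := ho.small isOpen_ball (mem_ball_self hρ)
  exact ⟨o', k2, by rwa [univ_inter] at k1⟩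

/-- joining two families of variations -/
theorem zr_join {P P' : Type} [NormedAddCommGroup P] [NormedSpace ℝ P] [NormedAddCommGroup P']
    [NormedSpace ℝ P'] {k k' : ℕ} (ν : P →L[ℝ] (ℕ → E)) (ν' : P' →L[ℝ] (ℕ → E))
    (h : ∀ w, ν w ∈ Vk E k) (h' : ∀ w, ν' w ∈ Vk E k') :
    ∃ μ : P × P' →L[ℝ] (ℕ → E), (∀ w, μ w ∈ Vk E (k + k')) ∧ (∀ w, ∀ j ≤ k, μ w j = ν w.1 j) ∧
      ∀ w j, μ w (k + j) = ν' w.2 j := by
  obtain ⟨μ, hμ⟩ : ∃ μ : P × P' →L[ℝ] (ℕ → E), ∀ w j,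
      μ w j = if j < k then ν w.1 j else ν' w.2 (j - k) :=
    ⟨ContinuousLinearMap.pi fun j => if j < k then
      (ContinuousLinearMap.proj j).comp (ν.comp (ContinuousLinearMap.fst ℝ P P')) else
      (ContinuousLinearMap.proj (j - k)).comp (ν'.comp (ContinuousLinearMap.snd ℝ P P')),
      fun w j => by
        rw [ContinuousLinearMap.pi_apply]
        split_ifs <;> rfl⟩
  have e1 : ∀ w, ∀ j ≤ k, μ w j = ν w.1 j := fun w j hj => by
    rw [hμ]
    split_ifs with hk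
    · rfl
    · rw [Nat.sub_eq_zero_of_le hj, (h' _).1, (h _).2 j (not_lt.1 hk)]
  refine ⟨μ, fun w => ⟨(e1 w 0 k.zero_le).trans (h _).1, fun j hj => ?_⟩, e1, fun w j => ?_⟩
  · rw [hμ, if_neg (by omega), (h' _).2 _ (by omega)]
  · rw [hμ, if_neg (by omega), Nat.add_sub_cancel_left]

theorem zr_th {y y' : ℕ → M} {v v' : ℕ → E} {j j' : ℕ} (h : y j = y' j') (h' : v j = v' j') :
    Th y v j = Th y' v' j' := by
  rw [Th, Th, h, h']

theorem zr_zero {sh : Short g} (u : UG g) (k : ℕ) (t : ℕ → ℝ) : Qf sh u k t 0 0 = 0 :=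
  (Ql sh u k t 0).map_zero

theorem zr_mt1 {sh : Short g} {a : ℝ} (h : SMd sh dist a) (S : GS M) (hSa : S.a ≤ a) {F : Type}
    [Field F] (h2 : (2 : F) ≠ 0) (u : UG g) {l c : ℝ} (hl : 0 < l) (hxy : u.1 0 ≠ u.1 l)
    (hn : NdJ g u l) (hc : l < c) (hu : ∀ (v : UG g) (L : ℝ), 0 < L → v.1 0 = u.1 0 →
      v.1 L = u.1 l → l ≤ L → L < c → v = u ∧ L = l) :
    ∃ o ∈ ZZ F (Omc (u.1 0) (u.1 l) l) (Om (u.1 0) (u.1 l) l), o ∈ HD F _ (idx sh a u l) ∧
      GnR F (Om (u.1 0) (u.1 l) c) (Om (u.1 0) (u.1 l) l) o := by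
  obtain ⟨δ, h0, h1, h3⟩ := zr_mesh S.a_pos hl c
  obtain ⟨k, t, ht⟩ : ∃ k t, Part δ l k t := ⟨_, _, part_std h0 hl⟩
  obtain ⟨ν, n1, n2⟩ := zr_neg h u (ht.mono' (h1.trans hSa))
  obtain ⟨ρ, hρ, k1⟩ := mt_main (F := F) h S ht h1 hSa h3 u hxy hn hc hu ν n1 n2
    (Module.finrank_fin_fun ℝ)
  obtain ⟨ρ', hρ', k2, k3⟩ := neg_ball h S ht h1 hSa u ν n1 n2
  obtain ⟨o, o1, o2⟩ := zr_gen h2 (idx sh a u l) (lt_min hρ hρ')
  exact ⟨_, neg_ZZ k2 (fun w hw => (k3 w hw).2) o1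
    (CC_mono (ball_subset_ball (min_le_right _ _)) o2), mp_mem_HD _ o1.hd,
    k1 _ o o1 (CC_mono (ball_subset_ball (min_le_left _ _)) o2)⟩

theorem zr_nds {δ l l' : ℝ} {k k' : ℕ} {t t' : ℕ → ℝ} (ht : Part δ l k t) (ht' : Part δ l' k' t')
    (u : UG g) : (∀ j ≤ k, nds u (k + k') (ctp k l t t') j = nds u k t j) ∧
      ∀ j ≤ k', nds u (k + k') (ctp k l t t') (k + j) = nds (shift l u) k' t' j := by
  refine ⟨fun j hj => ?_, fun j hj => ?_⟩
  · rw [nds, nds, min_eq_left hj, min_eq_left (hj.trans (Nat.le_add_right k k')), ctp]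
    split_ifs with hk
    · rfl
    · rw [Nat.sub_eq_zero_of_le hj, ht'.2.1, zero_add, le_antisymm hj (not_lt.1 hk), ht.2.2.1]
  · rw [nds, nds, min_eq_left hj, min_eq_left (Nat.add_le_add_left hj k), ctp,
      if_neg (by omega), Nat.add_sub_cancel_left, shift_apply]

theorem zr_mul {F : Type} [Field F] {P P' : Type} [TopologicalSpace P] [TopologicalSpace P']
    {A : Set P} {A' : Set P'} {G : P → Mo M} {G' : P' → Mo M} {K : P × P' → Mo M} {x y z : M}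
    (hG : ContinuousOn G A) (hG' : ContinuousOn G' A') (h : ∀ w ∈ A, G w ∈ Pa x y)
    (h' : ∀ w ∈ A', G' w ∈ Pa y z) (hK : ∀ w ∈ A ×ˢ A', K w = cat (G w.1) (G' w.2))
    {o : Ch F P} {o' : Ch F P'} (ho : o ∈ CC F A) (ho' : o' ∈ CC F A') :
    mul (mp G o) (mp G' o') = mp K (cross o o') := by
  rw [mul_apply, cross_mp hG hG' ho ho', mp_mp (hG.prodMap hG')
    (cat_contOn (x := x) (y := y) (z := z) subset_rfl subset_rfl)
    (fun w hw => ⟨h _ hw.1, h' _ hw.2⟩) (cross_mem_CC ho ho')]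
  exact (mp_congr hK (cross_mem_CC ho ho')).symm

theorem zr_mt2 {sh : Short g} {a : ℝ} (h : SMd sh dist a) (S : GS M) (hSa : S.a ≤ a) {F : Type}
    [Field F] (h2 : (2 : F) ≠ 0) (u : UG g) {l l' c : ℝ} (hl : 0 < l) (hl' : 0 < l')
    (hxy : u.1 0 ≠ u.1 (l' + l)) (hn : NdJ g u (l' + l)) (hc : l' + l < c)
    (hu : ∀ (v : UG g) (L : ℝ), 0 < L → v.1 0 = u.1 0 →
      v.1 L = u.1 (l' + l) → l' + l ≤ L → L < c → v = u ∧ L = l' + l)
    (hi : idx sh a u (l' + l) = idx sh a u l + idx sh a (shift l u) l') :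
    ∃ g1 ∈ ZZ F (Omc (u.1 0) (u.1 l) l) (Om (u.1 0) (u.1 l) l),
      ∃ g2 ∈ ZZ F (Omc (u.1 l) (u.1 (l' + l)) l') (Om (u.1 l) (u.1 (l' + l)) l'),
        mul g1 g2 ∉ NN F (Om (u.1 0) (u.1 (l' + l)) c) (Om (u.1 0) (u.1 (l' + l)) (l' + l)) := by
  obtain ⟨δ, h0, h1, h3⟩ := zr_mesh S.a_pos (add_pos hl' hl) c
  obtain ⟨k, t, ht⟩ : ∃ k t, Part δ l k t := ⟨_, _, part_std h0 hl⟩
  obtain ⟨k', t', ht'⟩ : ∃ k t, Part δ l' k t := ⟨_, _, part_std h0 hl'⟩
  obtain ⟨ν, n1, n2⟩ := zr_neg h u (ht.mono' (h1.trans hSa))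
  obtain ⟨ν', n1', n2'⟩ := zr_neg h (shift l u) (ht'.mono' (h1.trans hSa))
  obtain ⟨μ, m1, m2, m3⟩ := zr_join ν ν' n1 n1'
  have m4 : ∀ w, w ≠ 0 → Qf sh u (k + k') (ctp k l t t') (μ w) (μ w) < 0 := fun w hw => by
    have e1 : Qf sh u k t (μ w) (μ w) = Qf sh u k t (ν w.1) (ν w.1) :=
      Finset.sum_congr rfl fun j hj => by
        have := Finset.mem_range.1 hj
        rw [m2 w j this.le, m2 w (j + 1) this]
    rw [Qf_ctp u ht ht', e1, show (fun j => μ w (k + j)) = ν' w.2 from funext (m3 w)]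
    by_cases a1 : w.1 = 0
    · have a2 : w.2 ≠ 0 := fun a2 => hw (Prod.ext a1 a2)
      rw [a1, map_zero, zr_zero, zero_add]
      exact n2' _ a2
    by_cases a2 : w.2 = 0
    · rw [a2, map_zero, zr_zero, add_zero]
      exact n2 _ a1
    exact add_neg (n2 _ a1) (n2' _ a2)
  obtain ⟨ρ, hρ, k1⟩ := mt_main (F := F) h S (ht.ctp ht') h1 hSa h3 u hxy hn hc hu μ m1 m4 (by
    rw [Module.finrank_prod, Module.finrank_fin_fun, Module.finrank_fin_fun, hi])
  obtain ⟨ρ0, hρ0, -, k0⟩ := neg_ball h S (ht.ctp ht') h1 hSa u μ m1 m4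
  obtain ⟨ρ1, hρ1, k2, k3⟩ := neg_ball h S ht h1 hSa u ν n1 n2
  obtain ⟨ρ2, hρ2, k4, k5⟩ := neg_ball h S ht' h1 hSa (shift l u) ν' n1' n2'
  rw [shift_apply, shift_apply, zero_add] at k5
  obtain ⟨r, hr, r1, r2, r3, r4⟩ : ∃ r > 0, r ≤ ρ ∧ r ≤ ρ0 ∧ r ≤ ρ1 ∧ r ≤ ρ2 :=
    ⟨min (min ρ ρ0) (min ρ1 ρ2), by positivity, by simp⟩
  obtain ⟨o, o1, o2⟩ := zr_gen h2 (idx sh a u l) hr
  obtain ⟨o', o1', o2'⟩ := zr_gen h2 (idx sh a (shift l u) l') hr
  refine ⟨_, neg_ZZ k2 (fun w hw => (k3 w hw).2) o1 (CC_mono (ball_subset_ball r3) o2), _,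
    neg_ZZ k4 (fun w hw => (k5 w hw).2) o1' (CC_mono (ball_subset_ball r4) o2'), ?_⟩
  have o4 := cross_mem_CC o2 o2'
  rw [ball_prod_same] at o4
  have o5 := o1.prod h2 o1'
  rw [univ_prod_univ] at o5
  rw [zr_mul (K := fun w => S.brk (k + k') (Th (nds u (k + k') (ctp k l t t')) (μ w)))
    (k2.mono (ball_subset_ball r3)) (k4.mono (ball_subset_ball r4))
    (fun w hw => (k3 w (ball_subset_ball r3 hw)).2.1.1)
    (fun w hw => (k5 w (ball_subset_ball r4 hw)).2.1.1) (fun w hw => ?_) o2 o2']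
  · exact (k1 _ _ o5 (CC_mono (ball_subset_ball r1) o4)).2.1
  rw [ball_prod_same] at hw
  exact (S.brk_add k k' (k0 w (ball_subset_ball r2 hw)).1).trans (congrArg₂ cat
    (S.brk_congr k fun j hj => zr_th ((zr_nds ht ht' u).1 j hj) (m2 w j hj))
    (S.brk_congr k' fun j hj => zr_th ((zr_nds ht ht' u).2 j hj) (m3 w j)))

theorem geo_mt {sh : Short g} {a : ℝ} (h : SMd sh dist a) (S : GS M)
    (hS : S.a = a / (2 * Module.finrank ℝ E)) (F : Type) [Field F] (h2 : (2 : F) ≠ 0) :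
    (geoD h S hS).MT F := by
  have hSa : S.a ≤ a := hS ▸ small_le h
  have uq : ∀ {x y : M} {u : UG g} {l c : ℝ}, (geoD h S hS).Reg x y →
      (u, l) ∈ (geoD h S hS).J x y → (∀ v ∈ (geoD h S hS).J x y, v.2 ≤ l ∨ c ≤ v.2) →
      ∀ (v : UG g) (L : ℝ), 0 < L → v.1 0 = u.1 0 → v.1 L = u.1 l → l ≤ L → L < c →
        v = u ∧ L = l := fun {x y u l c} hr hw hg v L p1 p2 p3 p4 p5 => by
    have hv : (v, L) ∈ (geoD h S hS).J x y := ⟨p1, p2.trans hw.2.1, p3.trans hw.2.2⟩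
    exact Prod.ext_iff.1 (hr.2.2.1 _ hv _ hw (le_antisymm ((hg _ hv).resolve_right p5.not_ge) p4))
  refine ⟨fun x y b c hxy hg => zr_mt0 h S hSa F hxy fun u l p1 p2 p3 => hg (u, l) ⟨p1, p2, p3⟩,
    ?_, ?_⟩
  · rintro x y hr ⟨u, l⟩ hw c hc hg
    have hu := uq hr hw hg
    have hn := hr.2.1 _ hw
    have hxy := hr.1
    obtain ⟨hl, rfl, rfl⟩ := hw
    obtain ⟨o, o1, o2, -, o3⟩ := zr_mt1 h S hSa h2 u hl hxy hn hc hu
    exact ⟨o, o1, o2, o3⟩
  · intro x y z r1 r2 r3 u l1 l2 w1 w2 hi c hc hg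
    have ez : (geoD h S hS).ev u (l2 + l1) = z := ((geoD h S hS).ev_sh l1 u l2).symm.trans w2.2.2
    have hw : (u, l2 + l1) ∈ (geoD h S hS).J x z := ⟨add_pos w2.1 w1.1, w1.2.1, ez⟩
    rw [add_comm l1 l2] at hi hc hg ⊢
    have hu := uq r3 hw hg
    have hn := r3.2.1 _ hw
    have hxy := r3.1
    obtain ⟨hl, rfl, rfl⟩ := w1
    subst ez
    exact zr_mt2 h S hSa h2 u hl w2.1 hxy hn hc hu hi

end Pool.Agent.Fu
end

-- part Pool.Agent.P.MP_365c00_gt.ZA8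
section

/-! Almost every pair has a class. -/

set_option linter.unusedSectionVars false
set_option linter.unusedVariables false

open Set Filter Topology Metric Function MeasureTheory
open scoped Manifold ContDiff
open Pool.Agent.GeoN

namespace Pool.Agent.Fu

variable {E : Type} [NormedAddCommGroup E] [InnerProductSpace ℝ E] [FiniteDimensional ℝ E]
  {M : Type} [MetricSpace M] [ChartedSpace E M] [IsManifold 𝓘(ℝ, E) ∞ M]
  [CompactSpace M] [Nonempty M] [Nontrivial E] {g : Met E M}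

variable [MeasurableSpace (E × E)] [BorelSpace (E × E)] {μ : Measure (E × E)}
  [μ.IsAddHaarMeasure]

variable {sh : Short g} {a : ℝ} (h : SMd sh dist a) (S : GS M)
  (hS : S.a = a / (2 * Module.finrank ℝ E))

theorem ae_reg : NP E μ {z : M × M | ¬ (geoD h S hS).Reg z.1 z.2} := by
  refine ((np_diag.union (np_sard (g := g))).union (np_gen (g := g) 0)).mono ?_
  rintro ⟨x, y⟩ hz
  by_contra hn
  simp only [mem_union, not_or] at hn
  obtain ⟨⟨h1, h2⟩, h3⟩ := hn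
  have nd : ∀ w ∈ (geoD h S hS).J x y, NdJ g w.1 w.2 := by
    intro w hw
    by_contra hnd
    exact h2 ⟨w, hw.1, hnd, Prod.ext hw.2.1 hw.2.2⟩
  refine hz ⟨h1, nd, fun w hw v hv e => ?_, geo_fin h S hS h1 nd⟩
  by_contra hne
  refine h3 ⟨w, v, hw.1, hv.1, nd w hw, nd v hv, Prod.ext hw.2.1 hw.2.2, Prod.ext hv.2.1 hv.2.2,
    sub_eq_zero.2 e, fun hc => hne (Prod.ext hc.1 e)⟩

theorem ae_fin0 (hE : 3 ≤ Module.finrank ℝ E) (hf : NP E μ {z : M × M | ¬ FinU g z.1 z.2}) :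
    NP E μ {z : M × M | ¬ (geoD h S hS).Fin0 z.1 z.2} := by
  refine (((ae_reg h S hS).union hf).union (nt_flat (g := g)).push).mono ?_
  rintro ⟨x, y⟩ hz
  by_contra hn
  simp only [mem_union, not_or] at hn
  obtain ⟨⟨h1, h2⟩, h3⟩ := hn
  have h1' : (geoD h S hS).Reg x y := not_not.1 h1
  obtain ⟨L, U, hU, hP, hL⟩ : FinU g x y := not_not.1 h2
  refine hz ⟨h1', L, {u | u ∈ U ∧ ∃ l, (u, l) ∈ (geoD h S hS).J x y},
    hU.subset fun u hu => hu.1, ?_, fun w hw hl => ⟨hL w.1 w.2 hw.1 hl hw.2.1 hw.2.2, w.2, hw⟩⟩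
  rintro u ⟨hu, l, hw⟩
  obtain ⟨P, hP0, hp⟩ := hP u hu
  have hfl : FlatJ g u P := by
    by_contra hfl
    exact h3 ⟨(u, l), ⟨P, hP0, hp, hfl⟩, hw.1, Prod.ext hw.2.1 hw.2.2⟩
  refine ⟨P, idx sh a u P + (Module.finrank ℝ E - 1), hP0, hp,
    fun r hr hn => idx_add h u hP0 hp hfl hr hn, fun r hr hrP => ?_⟩
  have := idx_mono h u hr hrP
  change idx sh a u r + 2 ≤ _
  omega

include h hS in
theorem za8_le : S.a / 8 < a := by
  have h1 := small_le h
  have h2 := S.a_pos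
  rw [← hS] at h1
  linarith

include h hS in
theorem za8_dist (u : UG g) {l : ℝ} (h0 : 0 < l) (hl : l < S.a / 8) : dist (u.1 0) (u.1 l) = l := by
  have e : |0 - l| = l := by rw [zero_sub, abs_neg, abs_of_pos h0]
  have := h.dist_ug u (s := 0) (t := l) (by rw [e]; exact hl.trans (za8_le h S hS))
  rwa [e] at this

include h hS in
theorem za8_step {p : UG g → Prop} {A : Set (M × M)} (hA : NP E μ A)
    (hp : ∀ u l, p u → 0 < l → l < S.a / 8 → (u.1 0, u.1 l) ∈ A) :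
    NP E μ {z | ∃ w ∈ {w : UG g × ℝ | p w.1}, 0 < w.2 ∧ Psi w = z} := by
  have ha := S.a_pos
  refine NT.push (nt_of_short (r := S.a / 8) (by linarith) ((hA.pull (g := g)).mono ?_))
  rintro w ⟨h1, h2⟩ h3
  exact ⟨nd_short h w.1 h3 (h2.trans (za8_le h S hS)), hp w.1 w.2 h1 h3 h2⟩

theorem ex_start [ConnectedSpace M] (hf : NP E μ {z : M × M | ¬ FinU g z.1 z.2})
    (h0 : NP E μ {z : M × M | ¬ (geoD h S hS).Fin0 z.1 z.2}) :
    ∃ x y, (geoD h S hS).Fin0 x y ∧ dist x y < S.a / 8 ∧ ∃ u : UG g, u.1 0 = x ∧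
      u.1 (dist x y) = y ∧ ∃ P > 0, Periodic u.1 P := by
  by_contra hn
  have h1 := za8_step h S hS (p := fun u => ∃ P > 0, Periodic u.1 P) h0 fun u l hu hl hl' hF => by
    have e := za8_dist h S hS u hl hl'
    exact hn ⟨u.1 0, u.1 l, hF, by rwa [e], u, rfl, by rw [e], hu⟩
  obtain ⟨⟨x, y⟩, hz⟩ := (hf.union h1).dense.nonempty
  simp only [mem_compl_iff, mem_union, not_or] at hz
  obtain ⟨L, U, -, hP, hL⟩ : FinU g x y := not_not.1 hz.1
  obtain ⟨γ, g1, g2, g3, g4⟩ := serre g x y ((max L 0) ^ 2)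
  have he : 0 < energy g γ 0 := (sq_nonneg _).trans_lt g4
  obtain ⟨u, hu⟩ := exists_unit_sqrt g1 he
  have hl : 0 < √(energy g γ 0) := Real.sqrt_pos.2 he
  have hl' : L < √(energy g γ 0) := (le_max_left L 0).trans_lt (Real.lt_sqrt_of_sq_lt g4)
  have e0 : u.1 0 = x := by rw [← g2, hu 0, mul_zero]
  have e1 : u.1 √(energy g γ 0) = y := by rw [← g3, hu 1, mul_one]
  exact hz.2 ⟨(u, √(energy g γ 0)), hP u (hL u _ hl hl' e0 e1), hl, Prod.ext e0 e1⟩

theorem ae_pers [ConnectedSpace M] (hE : 3 ≤ Module.finrank ℝ E)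
    (hf : NP E μ {z : M × M | ¬ FinU g z.1 z.2}) :
    ∃ τ > 0, NP E μ {z : M × M | ¬ (geoD h S hS).PerS τ z.1 z.2} := by
  have h0 := ae_fin0 h S hS hE hf
  have hd : Dense {z : M × M | (geoD h S hS).Fin0 z.1 z.2} :=
    h0.dense.mono fun z hz => not_not.1 hz
  obtain ⟨τ, hτ, hm⟩ := part1 (geoD h S hS) (geo_mt h S hS ℚ two_ne_zero) hd
    (h.conn (by omega) (za8_le h S hS).le) (ex_start h S hS hf h0)
  have h1 := za8_step h S hS (p := fun u => ¬∃ m : ℕ, (geoD h S hS).FP u (m * τ) m) h0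
    fun u l hu hl hl' hF => by
      have e := za8_dist h S hS u hl hl'
      exact hu (hm (u.1 0) (u.1 l) hF (by rwa [e]) u rfl (by rw [e]; rfl))
  refine ⟨τ, hτ, (h0.union h1).mono ?_⟩
  rintro ⟨x, y⟩ hz
  by_contra hn
  simp only [mem_union, not_or] at hn
  refine hz ((geoD h S hS).pers_of_nice hτ (not_not.1 hn.1) fun w hw => ?_)
  by_contra hc
  exact hn.2 ⟨w, hc, hw.1, Prod.ext hw.2.1 hw.2.2⟩

end Pool.Agent.Fu
end

-- part Pool.Agent.P.MP_365c00_gt.ZA9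
section

/-! Good pairs, and pairs with a gap. -/

set_option linter.unusedSectionVars false
set_option linter.unusedVariables false

open Set Filter Topology Metric Function MeasureTheory
open scoped Manifold ContDiff
open Pool.Agent.GeoN

namespace Pool.Agent.Fu

variable {E : Type} [NormedAddCommGroup E] [InnerProductSpace ℝ E] [FiniteDimensional ℝ E]
  {M : Type} [MetricSpace M] [ChartedSpace E M] [IsManifold 𝓘(ℝ, E) ∞ M]
  [CompactSpace M] [Nonempty M] [Nontrivial E] {g : Met E M}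

variable [MeasurableSpace (E × E)] [BorelSpace (E × E)] {μ : Measure (E × E)}
  [μ.IsAddHaarMeasure]

variable {sh : Short g} {a : ℝ} (h : SMd sh dist a) (S : GS M)
  (hS : S.a = a / (2 * Module.finrank ℝ E))

theorem za9_seq {u : UG g} {l r : ℝ} (hl : 0 < l) (hr : 0 < r) (hn : NdJ g u l) :
    ∃ n : ℕ, 1 / ((n : ℝ) + 1) / 2 * l < r ∧
      NdJ g (shift (1 / ((n : ℝ) + 1) / 2 * l) u) ((1 - 1 / ((n : ℝ) + 1) / 2) * l) := by
  have t0 : Tendsto (fun n : ℕ => 1 / ((n : ℝ) + 1) / 2) atTop (𝓝 0) := by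
    simpa using (tendsto_one_div_add_atTop_nhds_zero_nat (𝕜 := ℝ)).div_const 2
  have c1 : Continuous fun β : ℝ => β * l := by fun_prop
  have c2 : Continuous fun β : ℝ => (shift (β * l) u, (1 - β) * l) :=
    ((shift_cont g).comp (c1.prodMk continuous_const)).prodMk (by fun_prop)
  have t1 := (c1.tendsto 0).comp t0
  have t2 := (c2.tendsto 0).comp t0
  rw [zero_mul] at t1
  rw [zero_mul, za_shift_zero, sub_zero, one_mul] at t2
  exact ((t1.eventually (gt_mem_nhds hr)).and (t2.eventually (nd_ev (w := (u, l)) hl hn))).exists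

theorem ae_good {τ : ℝ} (hp : NP E μ {z : M × M | ¬ (geoD h S hS).PerS τ z.1 z.2}) :
    NP E μ {z : M × M | ¬ (geoD h S hS).Good τ z.1 z.2} := by
  have hA := NP.pull (g := g) hp
  have b0 : ∀ n : ℕ, 0 < 1 / ((n : ℝ) + 1) / 2 := fun n => by positivity
  have b1 : ∀ n : ℕ, 0 < 1 - 1 / ((n : ℝ) + 1) / 2 := fun n => by
    have h1 : 1 / ((n : ℝ) + 1) ≤ 1 := by
      rw [div_le_one (by positivity)]
      linarith [Nat.cast_nonneg (α := ℝ) n]
    linarith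
  have hB := NT.iUnion fun n : ℕ =>
    (hA.rep 0 (b0 n)).union (hA.rep (1 / ((n : ℝ) + 1) / 2) (b1 n))
  refine (hp.union hB.push).mono fun z hz => ?_
  by_cases h1 : (geoD h S hS).PerS τ z.1 z.2
  swap
  · exact Or.inl h1
  right
  have h2 : ¬ ∀ w ∈ (geoD h S hS).J z.1 z.2, ∀ δ0 > 0, ∃ δ ∈ Ioo 0 δ0,
      (geoD h S hS).PerS τ z.1 ((geoD h S hS).ev w.1 δ) ∧
        (geoD h S hS).PerS τ ((geoD h S hS).ev w.1 δ) z.2 := fun h3 => hz ⟨h1, h3⟩
  push Not at h2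
  obtain ⟨⟨u, l⟩, hw, δ0, h0, h2⟩ := h2
  obtain ⟨m, hm, hP⟩ := h1
  have hl : 0 < l := hw.1
  have e0 : u.1 0 = z.1 := hw.2.1
  have e1 : u.1 l = z.2 := hw.2.2
  have hn : NdJ g u l := hP.1.2.1 (u, l) hw
  obtain ⟨n, n1, n2⟩ := za9_seq hl (lt_min h0 h.pos) hn
  have n0 : 0 < 1 / ((n : ℝ) + 1) / 2 * l := mul_pos (b0 n) hl
  refine ⟨(u, l), mem_iUnion.2 ⟨n, ?_⟩, hl, Prod.ext e0 e1⟩
  generalize 1 / ((n : ℝ) + 1) / 2 = β at n0 n1 n2
  have h3 := h2 (β * l) ⟨n0, n1.trans_le (min_le_left _ _)⟩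
  by_cases h4 : (geoD h S hS).PerS τ z.1 (u.1 (β * l))
  · right
    refine ⟨n2, fun h5 => h3 h4 ?_⟩
    have f0 : (shift (β * l) u).1 0 = u.1 (β * l) := by rw [shift_apply, zero_add]
    have f1 : (shift (β * l) u).1 ((1 - β) * l) = z.2 := by
      rw [shift_apply, ← e1]
      congr 1
      ring
    change (geoD h S hS).PerS τ ((shift (β * l) u).1 0) ((shift (β * l) u).1 ((1 - β) * l)) at h5
    rw [f0, f1] at h5
    exact h5
  · left
    refine ⟨nd_short h _ n0 (n1.trans_le (min_le_right _ _)), fun h5 => h4 ?_⟩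
    change (geoD h S hS).PerS τ ((shift (0 * l) u).1 0) ((shift (0 * l) u).1 (β * l)) at h5
    rw [zero_mul, za_shift_zero, e0] at h5
    exact h5

theorem ex_gap {τ : ℝ} (hτ : 0 < τ) (hp : NP E μ {z : M × M | ¬ (geoD h S hS).PerS τ z.1 z.2})
    (hb : ¬ Bes g) {m0 : ℕ} (hm : 0 < m0) :
    ∃ (x y : M) (m : ℕ), 0 < m ∧ (geoD h S hS).Per τ m x y ∧ dist x y < S.a / 16 ∧
      ∀ w ∈ (geoD h S hS).J x y, ∀ k : ℤ, w.2 + 2 * m0 * τ ≠ dist x y + k * (m * τ) := by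
  have ha := S.a_pos
  have ha' : S.a ≤ a := hS ▸ small_le h
  obtain ⟨u0, hu0⟩ : ∃ u : UG g, ¬ Periodic u.1 (2 * m0 * τ) := by
    by_contra hc
    push Not at hc
    exact hb ⟨_, by positivity, hc⟩
  have hN := NP.pull (g := g) (hp.union (NP.iUnion fun j : ℤ => np_gen (g := g) (μ := μ) (j * τ)))
  have hO : IsOpen ({u : UG g | Periodic u.1 (2 * m0 * τ)}ᶜ ×ˢ Iio (S.a / 16)) :=
    (per_closed g _).isOpen_compl.prod isOpen_Iio
  obtain ⟨⟨u, l⟩, ⟨hu, hl'⟩, hl, hv⟩ := hN.not_open hO (w := (u0, S.a / 32))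
    ⟨hu0, show S.a / 32 < S.a / 16 by linarith⟩ (show 0 < S.a / 32 by linarith)
  replace hl : 0 < l := hl
  replace hl' : l < S.a / 16 := hl'
  have hn : NdJ g u l := nd_short h u hl (by linarith)
  have h1 : (geoD h S hS).PerS τ (u.1 0) (u.1 l) := by
    by_contra hc
    exact hv ⟨hn, Or.inl hc⟩
  have e : |(0 : ℝ) - l| = l := by rw [zero_sub, abs_neg, abs_of_pos hl]
  have hd : dist (u.1 0) (u.1 l) = l := by
    rw [h.dist_ug u (by rw [e]; linarith), e]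
  obtain ⟨m, hm', hP⟩ := h1
  refine ⟨u.1 0, u.1 l, m, hm', hP, by rwa [hd], fun w hw k hk => ?_⟩
  rw [hd] at hk
  have h2 : w.1 = u ∧ Periodic (w.1 : UG g).1 (((k * m - 2 * m0 : ℤ) : ℝ) * τ) := by
    by_contra hc
    refine hv ⟨hn, Or.inr (mem_iUnion.2 ⟨k * m - 2 * m0, w, (u, l), hw.1, hl, hP.1.2.1 w hw, hn,
      Prod.ext hw.2.1 hw.2.2, rfl, ?_, hc⟩)⟩
    push_cast
    linarith
  have h3 : Periodic (w.1 : UG g).1 (m * τ) := (hP.2 w hw).1
  have h4 := (h3.int_mul k).sub_period h2.2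
  have e2 : (k : ℝ) * (m * τ) - ((k * m - 2 * m0 : ℤ) : ℝ) * τ = 2 * m0 * τ := by
    push_cast
    ring
  rw [e2, h2.1] at h4
  exact hu h4

end Pool.Agent.Fu
end

-- part Pool.Agent.P.MP_365c00_gt.ZQ5b
section

/-! Vanishing at a cost proportional to the level of the family. -/

set_option linter.unusedSectionVars false
set_option linter.unusedVariables false

open Set Topology Filter Metric

namespace Pool.Agent.Fu

variable {F : Type} [Field F] {M : Type} [MetricSpace M] {Z : Type} [TopologicalSpace Z]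

namespace GD
variable {D : GD M} {τ θ s : ℝ} {n : ℕ} {X : M → Ch F (Mo M)}

theorem zq5b_zz {x y : M} {t t' : ℝ} {a : Ch F (Mo M)} (h : a ∈ ZZ F (Om x y t) ∅) (ht : t ≤ t') :
    a ∈ ZZ F (Om x y t') ∅ := ZZ_mono (Om_mono x y ht) (subset_refl _) h

theorem zq5b_bb {x y : M} {t t' : ℝ} {a : Ch F (Mo M)} (h : a ∈ BB F (Om x y t)) (ht : t ≤ t') :
    a ∈ BB F (Om x y t') := BB_mono (Om_mono x y ht) h

theorem zq5b_zp {x y : M} {t : ℝ} {a : Ch F (Mo M)} (h : a ∈ ZZ F (Om x y t) ∅) :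
    a ∈ ZZ F (Pa x y) ∅ := ZZ_mono (Om_sub x y t) (subset_refl _) h

theorem zq5b_bp {x y : M} {t : ℝ} {a : Ch F (Mo M)} (h : a ∈ BB F (Om x y t)) :
    a ∈ BB F (Pa x y) := BB_mono (Om_sub x y t) h

/-- the top class of a near pair never dies -/
theorem FX.top_ne (h : FX F D τ θ n X) (h1 : θ ≤ D.a / 100) {x y : M} (hd : dist x y < D.a / 8)
    (j : ℕ) {c : Ch F (Mo M)} (hc : Top F D τ ((j + 1) * n) x y c) : c ∉ BB F (Pa x y) := by
  intro hb
  have ha := D.a_pos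
  have h0 := dist_self x
  obtain ⟨l, l1, l2, l3⟩ := h.low x j
  obtain ⟨r, hr⟩ := hc.span D.a (by linarith) le_rfl (mp (D.wh x y) l)
    (D.wh_cyc (by linarith) (by linarith) (by push_cast; linarith) l1) (mp_mem_HD _ l2)
  have h2 := Submodule.add_mem _ (zq5b_bp hr) (Submodule.smul_mem _ r hb)
  rw [sub_add_cancel] at h2
  have h3 := D.BB_of_wh_Pa (by linarith) (by linarith) (zq5b_zp l1) h2
  have h4 := Submodule.sub_mem _ h3 l3
  rw [sub_sub_cancel] at h4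
  exact h.nz x j h4

/-- a cycle of the critical degree or above bounds at its level -/
theorem zq5b_van (hM : D.MT F) (hτ : 0 < τ) (h : FX F D τ θ n X) (h1 : θ ≤ D.a / 100) {x y : M}
    (hd : dist x y < D.a / 8) {j k : ℕ} (hp : D.Per τ ((j + 1) * n) x y) {b : ℝ} (hb : b ≤ D.a)
    {z : Ch F (Mo M)} (hz : z ∈ ZZ F (Om x y (((j + 1) * n : ℕ) * τ + b)) ∅) (hk : z ∈ HD F _ k)
    (hh : (j + 1) * n < k ∨ (k = (j + 1) * n ∧ z ∈ BB F (Pa x y))) :
    z ∈ BB F (Om x y (((j + 1) * n : ℕ) * τ + b)) := by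
  have ha := D.a_pos
  rcases hh with hh | ⟨rfl, hh⟩
  · exact hM.van hp hb (Or.inl hh) hz hk
  rcases le_or_gt b (dist x y) with h2 | h2
  · exact hM.van hp hb (Or.inr ⟨Nat.le_succ _, h2⟩) hz hk
  obtain ⟨c, hc⟩ := hM.one hτ (Nat.mul_pos (Nat.succ_pos j) h.pos) hp (by linarith)
  obtain ⟨r, hr⟩ := hc.span b h2 hb z hz hk
  have h3 := Submodule.sub_mem _ hh (zq5b_bp hr)
  rw [sub_sub_cancel] at h3
  have h4 : r = 0 := by
    by_contra h5
    exact h.top_ne h1 hd j hc ((Submodule.smul_mem_iff _ h5).1 h3)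
  rwa [h4, zero_smul, sub_zero] at hr

/-- two cycles of the critical degree are proportional -/
theorem zq5b_prop (hM : D.MT F) (hτ : 0 < τ) {x y : M} {N : ℕ} (hN : 0 < N) (hp : D.Per τ N x y)
    {b : ℝ} (hb : 0 < b) (hd : b + 2 * dist x y < D.a) {e u : Ch F (Mo M)}
    (he : e ∈ ZZ F (Om x x (N * τ + b)) ∅) (he' : e ∈ HD F _ N)
    (hu : u ∈ ZZ F (Om x x (N * τ + b)) ∅) (hu' : u ∈ HD F _ N) (hn : u ∉ BB F (Pa x x)) :
    ∃ r : F, e - r • u ∈ BB F (Om x x (N * τ + b + 2 * dist x y)) := by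
  have h0 := dist_self x
  have h1 := dist_nonneg (x := x) (y := y)
  obtain ⟨c, hc⟩ := hM.one hτ hN hp (by linarith)
  obtain ⟨r, hr⟩ := hc.span (b + dist x y) (by linarith) (by linarith) (mp (D.wh x y) e)
    (D.wh_cyc (by linarith) (by linarith) (by linarith) he) (mp_mem_HD _ he')
  obtain ⟨r', hr'⟩ := hc.span (b + dist x y) (by linarith) (by linarith) (mp (D.wh x y) u)
    (D.wh_cyc (by linarith) (by linarith) (by linarith) hu) (mp_mem_HD _ hu')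
  have h2 : r' ≠ 0 := by
    rintro rfl
    rw [zero_smul, sub_zero] at hr'
    exact hn (D.BB_of_wh_Pa (by linarith) (by linarith) (zq5b_zp hu) (zq5b_bp hr'))
  refine ⟨r / r', D.BB_of_wh (x' := x) (y' := y) (t := N * τ + b) (t' := N * τ + (b + dist x y))
    (by linarith) (by linarith) (by linarith) (by linarith)
    (Submodule.sub_mem _ he (Submodule.smul_mem _ _ hu)) ?_⟩
  have h3 := Submodule.sub_mem _ hr (Submodule.smul_mem _ (r / r') hr')
  rwa [smul_sub, smul_smul, div_mul_cancel₀ r h2, sub_sub_sub_cancel_right, ← map_smul,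
    ← map_sub] at h3

theorem FX.fine (hM : D.MT F) (hD : D.DN τ) (h : FX F D τ θ n X) (h1 : θ ≤ D.a / 100) (hs : 0 < s)
    (hsθ : s ≤ θ) (hl : Low F τ (4 * s) n X) (p : M) (j k : ℕ) (t : ℝ)
    (ht : t ≤ (j + 1) * (n * τ) + D.a / 8) {z : Ch F (Mo M)} (hz : z ∈ ZZ F (Om p p t) ∅)
    (hd : z ∈ HD F _ k) (hk : (j + 1) * n < k ∨ (k = (j + 1) * n ∧ z ∈ BB F (Pa p p))) :
    z ∈ BB F (Om p p (t + 12 * s)) := by
  have hτ := hD.pos
  rcases le_or_gt t 0 with ht0 | ht0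
  · have h2 := (mem_ZZ.1 hz).1
    rw [Om_empty (by rwa [dist_self]), CC_empty, Submodule.mem_bot] at h2
    rw [h2]
    exact Submodule.zero_mem _
  obtain ⟨⟨x, y⟩, hG, hxy⟩ := hD.dense.exists_dist_lt (p, p) (by linarith : 0 < s / 3)
  rw [Prod.dist_eq, max_lt_iff] at hxy
  have dx : dist x p < s / 3 := by rw [dist_comm]; exact hxy.1
  have dy : dist p y < s / 3 := hxy.2
  have dxy := dist_triangle x p y
  obtain ⟨m, hm, hp⟩ := hG.1
  have z1 : mp (D.wh x y) z ∈ ZZ F (Om x y (t + 2 * s / 3)) ∅ :=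
    D.wh_cyc (by linarith) (by linarith) (by linarith) hz
  obtain ⟨n', hn'⟩ : ∃ n', m * (j + 2) = j + n' + 1 + 1 :=
    ⟨m * (j + 2) - (j + 2), by have := Nat.le_mul_of_pos_left (j + 2) hm; omega⟩
  obtain ⟨N, e, hN, ⟨N0, hN0⟩, hpN, e1, e2, hmu⟩ := hM.mu hD hG (t + 10 * s)
    (by linarith : 0 < s / 3) (Nat.mul_pos h.pos (Nat.succ_pos (n' + 1)))
  obtain ⟨n'', hn''⟩ : ∃ n'', (n' + 1).succ * N0 = n'' + 1 + (n' + 1) := by
    have h2 : 0 < N0 := Nat.pos_of_ne_zero fun h3 => by rw [h3, mul_zero] at hN0; omega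
    have h3 := Nat.le_mul_of_pos_right (n' + 1).succ h2
    exact ⟨(n' + 1).succ * N0 - (n' + 2), by omega⟩
  have eN : N = (n'' + 1) * n + (n' + 1) * n := by rw [hN0, mul_assoc, hn'']; ring
  have eR : (N : ℝ) * τ = (n'' + 1) * (n * τ) + (n' + 1) * (n * τ) := by
    rw [eN]; push_cast; ring
  obtain ⟨l', a1, a2, a3⟩ := hl x n'
  obtain ⟨l'', b1, b2, b3⟩ := hl x n''
  have hQ : D.Per τ ((j + n' + 1 + 1) * n) x y :=
    hp.dvd hτ hm (Nat.mul_pos (Nat.succ_pos _) h.pos) ⟨(j + 2) * n, by rw [← hn', mul_assoc]⟩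
  have eQ : (n' + 1) * (n * τ) + 4 * s + (t + 2 * s / 3) = (((j + n' + 1 + 1) * n : ℕ) : ℝ) * τ +
      (t - (j + 1) * (n * τ) + 4 * s + 2 * s / 3) := by
    push_cast; ring
  have c1 : mul l' (mp (D.wh x y) z) ∈
      BB F (Om x y ((n' + 1) * (n * τ) + 4 * s + (t + 2 * s / 3))) := by
    have h2 := mul_cyc a1 z1
    rw [eQ] at h2 ⊢
    refine zq5b_van hM hτ h h1 (by linarith) hQ (by linarith) h2
      (mul_mem_HD a2 (mp_mem_HD _ hd)) ?_
    have h3 : (j + n' + 1 + 1) * n = (n' + 1) * n + (j + 1) * n := by ring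
    rcases hk with hk | hk
    · exact Or.inl (by omega)
    · exact Or.inr ⟨by omega, mul_Pa_right (zq5b_zp a1)
        (D.wh_BB_Pa (by linarith) (by linarith) hk.2)⟩
  have c2 := mul_BB_right b1 c1
  rw [← mul_assoc' (zq5b_zp b1).1 (zq5b_zp a1).1 (zq5b_zp z1).1] at c2
  have u1 : mul l'' l' ∈ ZZ F (Om x x (N * τ + 8 * s)) ∅ :=
    zq5b_zz (mul_cyc b1 a1) (by linarith)
  have u2 : mul l'' l' ∉ BB F (Pa x x) := fun h2 => by
    have h3 := Submodule.sub_mem _ (Submodule.sub_mem _ h2 (mul_Pa_left b3 (zq5b_zp a1)))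
      (mul_Pa_right (pwr_mem n'' (h.cyc x)) a3)
    rw [map_sub, LinearMap.sub_apply, map_sub, sub_sub_cancel, sub_sub_cancel,
      ← pwr_add _ _ (h.cyc x)] at h3
    exact h.nz x _ h3
  obtain ⟨r, hr⟩ := zq5b_prop hM hτ hN hpN (by linarith : 0 < 8 * s) (by linarith)
    (zq5b_zz e1 (by linarith)) e2 u1 (eN ▸ mul_mem_HD b2 a2) u2
  have c3 : mul e (mp (D.wh x y) z) ∈ BB F (Om x y (N * τ + (t + 10 * s))) := by
    have h2 := Submodule.add_mem _ (zq5b_bb (t' := N * τ + (t + 10 * s)) (mul_BB_left hr z1)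
      (by linarith)) (Submodule.smul_mem _ r (zq5b_bb c2 (by linarith)))
    rwa [map_sub, LinearMap.sub_apply, map_smul, LinearMap.smul_apply, sub_add_cancel] at h2
  exact D.BB_of_wh (by linarith) (by linarith) (by linarith) (by linarith) hz
    (hmu (t + 10 * s) (by linarith) le_rfl _ (zq5b_zz z1 (by linarith)) (BB_le_NN _ _ c3))

end GD

end Pool.Agent.Fu
end

-- part Pool.Agent.P.MP_365c00_gt.ZA
section

/-! Almost every pair is good. -/

set_option linter.unusedSectionVars false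
set_option linter.unusedVariables false

open Set Filter Topology Metric Function MeasureTheory
open scoped Manifold ContDiff
open Pool.Agent.GeoN

namespace Pool.Agent.Fu

variable {E : Type} [NormedAddCommGroup E] [InnerProductSpace ℝ E] [FiniteDimensional ℝ E]
  {M : Type} [MetricSpace M] [ChartedSpace E M] [IsManifold 𝓘(ℝ, E) ∞ M]
  [CompactSpace M] [Nonempty M] [Nontrivial E] {g : Met E M}

theorem geo_dn [ConnectedSpace M] [MeasurableSpace (E × E)] [BorelSpace (E × E)]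
    (μ : Measure (E × E)) [μ.IsAddHaarMeasure] (hE : 3 ≤ Module.finrank ℝ E) {sh : Short g} {a : ℝ}
    (h : SMd sh dist a) (S : GS M) (hS : S.a = a / (2 * Module.finrank ℝ E))
    (hf : NP E μ {z : M × M | ¬ FinU g z.1 z.2}) (hb : ¬ Bes g) : ∃ τ, (geoD h S hS).DN τ := by
  obtain ⟨τ, hτ, hp⟩ := ae_pers h S hS hE hf
  refine ⟨τ, hτ, geo_st h S hS, ?_, fun m0 hm => ex_gap h S hS hτ hp hb hm⟩
  have h1 := (ae_good h S hS hp).dense
  simpa only [compl_ofPred, not_not] using h1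

end Pool.Agent.Fu
end

-- part Pool.Agent.P.MP_365c00_gt.ZQ6
section

/-! The family of classes and its powers. -/

set_option linter.unusedSectionVars false
set_option linter.unusedVariables false

open Set Topology Filter Metric

namespace Pool.Agent.Fu

variable {F : Type} [Field F] {M : Type} [MetricSpace M] {Z : Type} [TopologicalSpace Z]

theorem pw_main [CompactSpace M] [ConnectedSpace M] (D : GD M) {τ : ℝ} (hD : D.DN τ)
    (hM : ∀ (F : Type) [Field F], (2 : F) ≠ 0 → D.MT F) {θ : ℝ} (h0 : 0 < θ) (h1 : θ ≤ D.a / 100) :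
    ∃ w > 0, ∀ η > 0, ∃ A : ℝ, ∀ Q : ℕ, ∃ q : ℕ, Q ≤ q ∧ ∃ _ : Fact q.Prime,
      ∃ (n : ℕ) (s : ℝ) (x : M → Ch (ZMod q) (Mo M)), w ≤ s ∧ s ≤ θ ∧
        PW (ZMod q) D.toGS D.C0 τ θ η A s n x := by
  have hτ := hD.pos
  obtain ⟨m0, x0, y0, z0, hm0, he0, hN, hT⟩ := GD.exists_both hD h0
  obtain ⟨x, y, m1, hm1, hp, hd, hg⟩ := hD.gap m0 hm0
  obtain ⟨w0, hw0, hw⟩ := hp.gap_unif hτ hm1 (c := 2 * m0 * τ - dist x y) (by
    intro w hw k e
    exact hg w hw k (by linarith))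
  refine ⟨w0 / 2, by positivity, fun η hη => ?_⟩
  obtain ⟨A, hA⟩ := GD.MT.strip hD hη
  refine ⟨A, fun Q => ?_⟩
  have : NeZero m1 := ⟨hm1.ne'⟩
  obtain ⟨q, hq, hqp, hq1⟩ := Nat.forall_exists_prime_gt_and_eq_mod (q := m1) (a := -1)
    isUnit_one.neg (max Q 2)
  have hQ : Q ≤ q := ((le_max_left _ _).trans_lt hq).le
  have hq2 : 2 < q := (le_max_right _ _).trans_lt hq
  have hf : Fact q.Prime := ⟨hqp⟩
  obtain ⟨c, hc⟩ : m1 ∣ q + 1 := by
    rw [← ZMod.natCast_eq_zero_iff]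
    push_cast
    rw [hq1]
    ring
  have h2 : (2 : ZMod q) ≠ 0 := by
    intro e
    have : ((2 : ℕ) : ZMod q) = 0 := by exact_mod_cast e
    rw [ZMod.natCast_eq_zero_iff] at this
    exact absurd (Nat.le_of_dvd (by norm_num) this) (by omega)
  have hMq := hM (ZMod q) h2
  obtain ⟨X, hX⟩ := hMq.exists_fx hD hm0 he0 h0 h1 hN hT (k := q - 2) (by
    intro r hr
    rw [show q - 2 + 1 = q - 1 by omega]
    exact ZMod.pow_card_sub_one_eq_one hr)
  generalize hn1 : (q - 2 + 1) * m0 = n1 at hX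
  have e1 : (n1 : ℝ) + 2 * m0 = c * m0 * m1 := by
    have : n1 + 2 * m0 = c * m0 * m1 := by
      rw [← hn1, ← add_mul, show q - 2 + 1 + 2 = q + 1 by omega, hc]
      ring
    exact_mod_cast this
  have nl : ¬ GD.Low (ZMod q) τ w0 n1 X := by
    refine hX.not_low hMq hτ hm1 hp hd fun w hwJ => ?_
    have a1 := hw w hwJ ((c * m0 : ℕ) : ℤ)
    have a2 : ((((c * m0 : ℕ) : ℤ) : ℝ)) * (m1 * τ) = n1 * τ + 2 * m0 * τ := by
      push_cast
      rw [← add_mul, e1]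
      ring
    rw [a2] at a1
    rcases lt_abs.1 a1 with a | a
    · right; linarith
    · left; linarith
  set S : Set ℝ := {σ | GD.Low (ZMod q) τ σ n1 X} with hS
  have θS : θ ∈ S := hX.low
  have lb : ∀ σ ∈ S, w0 ≤ σ := fun σ hσ => by
    by_contra hlt
    exact nl (GD.Low.mono hσ (not_le.1 hlt).le)
  have bb : BddBelow S := ⟨w0, lb⟩
  have i1 : w0 ≤ sInf S := le_csInf ⟨θ, θS⟩ lb
  have i2 : sInf S ≤ θ := csInf_le bb θS
  have l4 : GD.Low (ZMod q) τ (4 * (sInf S / 2)) n1 X := by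
    obtain ⟨σ, hσ, hlt⟩ := exists_lt_of_csInf_lt ⟨θ, θS⟩
      (show sInf S < 4 * (sInf S / 2) by linarith)
    exact GD.Low.mono hσ hlt.le
  have l1 : ¬ GD.Low (ZMod q) τ (sInf S / 2) n1 X := fun h => by
    have := csInf_le bb (show sInf S / 2 ∈ S from h)
    linarith
  have hs0 : 0 < sInf S / 2 := by linarith
  have hs1 : sInf S / 2 ≤ θ := by linarith
  have hs2 : w0 / 2 ≤ sInf S / 2 := by linarith
  generalize sInf S / 2 = s at l4 l1 hs0 hs1 hs2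
  unfold GD.Low at l1
  push Not at l1
  obtain ⟨p, j, hj⟩ := l1
  have hY := hX.pwr hτ j
  have l5 := l4.pwr hX.cyc j
  refine ⟨q, hQ, hf, (j + 1) * n1, s, fun p => pwr j (X p), hs2, hs1, hY.even, hY.cyc, hY.deg,
    hY.conj, l5, ?_, ?_, hA (ZMod q) hMq, p, ?_⟩
  · intro p n k t ht z hz hzd hk
    exact hY.fine hMq hD h1 hs0 hs1 l5 p n k t ht hz hzd hk
  · intro p n k b hb hk z hz hzd
    exact GD.Net.coarse hMq hτ hY.pos h1 hY.net p n k b hb hk hz hzd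
  · intro hn
    obtain ⟨h, a1, a2, a3⟩ := NN_HD (hY.deg p) hn
    have e2 : (((j + 1) * n1 : ℕ) : ℝ) * τ + s = (j + 1) * (n1 * τ) + s := by
      push_cast
      ring
    rw [e2] at a3
    refine hj _ (mem_ZZ_empty.2 ⟨a3, ?_⟩) (Submodule.sub_mem _ (hY.deg p) (bd_mem_HD a2)) ?_
    · rw [map_sub, bd_bd, (mem_ZZ_empty.1 (hY.cyc p)).2, sub_zero]
    · rw [sub_sub_cancel_left]
      exact Submodule.neg_mem _ (mem_BB.2 ⟨h, a1, rfl⟩)

end Pool.Agent.Fu
end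

-- part Pool.Agent.P.MP_365c00_gt.ZMain
section

/-! The theorem in dimension at least three. -/

set_option linter.unusedSectionVars false
set_option linter.unusedVariables false

open Set Filter Topology Metric Function MeasureTheory
open scoped Manifold ContDiff
open Pool.Agent.GeoN

namespace Pool.Agent.Fu

variable {E : Type} [NormedAddCommGroup E] [InnerProductSpace ℝ E] [FiniteDimensional ℝ E]
  {M : Type} [TopologicalSpace M] [ChartedSpace E M] [IsManifold 𝓘(ℝ, E) ∞ M]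
  [T2Space M] [CompactSpace M] [Nonempty M] [Nontrivial E] {g : Met E M}

theorem two_ne {q : ℕ} [Fact q.Prime] (hq : 3 ≤ q) : (2 : ZMod q) ≠ 0 := by
  intro h
  have h1 : ((2 : ℕ) : ZMod q) = 0 := by exact_mod_cast h
  have := Nat.le_of_dvd (by norm_num) ((ZMod.natCast_eq_zero_iff 2 q).1 h1)
  omega

theorem besse_met {M : Type} [MetricSpace M] [ChartedSpace E M] [IsManifold 𝓘(ℝ, E) ∞ M]
    [CompactSpace M] [ConnectedSpace M] [MeasurableSpace (E × E)] [BorelSpace (E × E)]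
    (μ : Measure (E × E)) [μ.IsAddHaarMeasure] (hE : 3 ≤ Module.finrank ℝ E) {g : Met E M}
    {sh : Short g} {a : ℝ} (h : SMd sh dist a) (ho : OriL E M)
    (hf : NP E μ {z : M × M | ¬ FinU g z.1 z.2}) : Bes g := by
  by_contra hb
  obtain ⟨S, hS⟩ := h.exists_gs
    (div_pos h.pos (by linarith [rk_pos (E := E)] : (0 : ℝ) < 2 * Module.finrank ℝ E)) (small_le h)
  obtain ⟨τ, hτ⟩ := geo_dn μ hE h S hS hf hb
  obtain ⟨N, ι, hι⟩ := exists_emb g
  obtain ⟨θ0, h0, hc⟩ := core S (loc_euc (E := E)) ι hι (geoD h S hS).C0_pos hτ.pos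
  have ha : 0 < S.a / 100 := div_pos S.a_pos (by norm_num)
  obtain ⟨w, hw, hp⟩ := pw_main (geoD h S hS) hτ (fun F _ h2 => geo_mt h S hS F h2)
    (lt_min h0 ha) (min_le_right _ _)
  obtain ⟨η, hη, hc⟩ := hc _ (lt_min h0 ha) (min_le_left _ _) w hw
  obtain ⟨A, hp⟩ := hp η hη
  obtain ⟨Q, hc⟩ := hc A
  obtain ⟨q, hq, _, n, s, x, h1, h2, h3⟩ := hp (max Q 3)
  obtain ⟨o⟩ := exists_or ho (ZMod q) (two_ne ((le_max_right _ _).trans hq))
  exact hc q ((le_max_left _ _).trans hq) o n s x h1 h2 h3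

theorem besse_ori [ConnectedSpace M] [MeasurableSpace (E × E)] [BorelSpace (E × E)]
    (μ : Measure (E × E)) [μ.IsAddHaarMeasure] (hE : 3 ≤ Module.finrank ℝ E) (ho : OriL E M)
    (hf : NP E μ {z : M × M | ¬ FinU g z.1 z.2}) : Bes g := by
  obtain ⟨sh⟩ := exists_short g
  obtain ⟨d, a, h1, h2, h3, h4, h5, h6⟩ := exists_dist sh
  letI : MetricSpace M := MetricSpace.ofDistTopology d h1 h2 h3 h4 h5
  exact besse_met μ hE (sh := sh) (a := a) h6 ho hf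

theorem besse_of_fin [ConnectedSpace M] [MeasurableSpace (E × E)] [BorelSpace (E × E)]
    (μ : Measure (E × E)) [μ.IsAddHaarMeasure] (hE : 3 ≤ Module.finrank ℝ E)
    (hf : NP E μ {z : M × M | (images g z).Finite}ᶜ) : Bes g :=
  besse_cover μ (fun M' _ _ _ _ _ _ g' ho h => besse_ori μ hE ho h) (np_finU μ hf)

end Pool.Agent.Fu
end
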