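import Mathlib
import Pool.Agent.P.MP_365c00_gt.DefsN
import Pool.Agent.K.MP_365c00_gt.C0

/-! The dimensions zero and one. -/

set_option linter.unusedSectionVars false
set_option linter.unusedVariables false

open Set Function
open scoped Manifold ContDiff

namespace Pool.Agent.Fu

section aux
open Pool.Agent.GeoN Filter Topology

variable {E : Type} [NormedAddCommGroup E] [InnerProductSpace ℝ E] [FiniteDimensional ℝ E]
  {M : Type} [TopologicalSpace M] [ChartedSpace E M] [IsManifold 𝓘(ℝ, E) ∞ M]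
  [T2Space M] [CompactSpace M] [Nonempty M] [Nontrivial E] {g : GeoN.Met E M}

theorem zx_open (h1 : Module.finrank ℝ E = 1) (u : UG g) (t : ℝ) :
    map u.1 (𝓝 t) = 𝓝 (u.1 t) := by
  have hx : u.1 t ∈ (κ E (u.1 t)).source := mem_extChartAt_source _
  have hc : ContDiffAt ℝ ∞ (κ E (u.1 t) ∘ u.1) t :=
    contDiffAt_chart (n := ⊤) (u.geoAt t).1.self_of_nhds hx
  have hd := (hc.hasStrictDerivAt' ((u.geoAt t).hasDerivAt hx) (by simp)).hasStrictFDerivAt
  have hm := hd.map_nhds_eq_of_surj (by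
    refine LinearMap.range_eq_top.2 fun w => ?_
    obtain ⟨l, hl⟩ := (finrank_eq_one_iff_of_nonzero' _ (u.vel_ne t hx)).1 h1 w
    exact ⟨l, by simpa using hl⟩)
  have he : (u.1 : ℝ → M) =ᶠ[𝓝 t] (κ E (u.1 t)).symm ∘ (κ E (u.1 t) ∘ u.1) := by
    filter_upwards [u.1.continuous.continuousAt.preimage_mem_nhds
      ((source_open _).mem_nhds hx)] with s hs
    exact ((κ E (u.1 t)).left_inv hs).symm
  rw [map_congr he, ← map_map, hm]
  simpa using map_extChartAt_symm_nhdsWithin_range (I := 𝓘(ℝ, E)) (u.1 t)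

theorem zx_dir (u v : UG g) {a b s ε : ℝ} (hε : 0 < ε)
    (h : ∀ y ∈ Icc 0 ε, v.1 (y + s) ∈ u.1 '' Icc a b) :
    ∃ r, (∀ y, v.1 y = u.1 (r + y)) ∨ ∀ y, v.1 y = u.1 (r - y) := by
  obtain ⟨r, -, h1 | h1⟩ := (shift s v).dir (shift a u) (b - a) ε hε (by
    rintro _ ⟨y, hy, rfl⟩
    obtain ⟨t, ht, e⟩ := h y hy
    exact ⟨t - a, ⟨by linarith [ht.1], by linarith [ht.2]⟩, by
      rw [shift_apply, shift_apply, sub_add_cancel, e]⟩)
  · refine ⟨r + a - s, Or.inl fun y => ?_⟩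
    have := h1 (y - s)
    rw [shift_apply, shift_apply, sub_add_cancel] at this
    rw [this]
    congr 1
    ring
  · refine ⟨r + a + s, Or.inr fun y => ?_⟩
    have := h1 (y - s)
    rw [shift_apply, shift_apply, sub_add_cancel] at this
    rw [this]
    congr 1
    ring

theorem zx_range [ConnectedSpace M] (h1 : Module.finrank ℝ E = 1) (u : UG g) :
    range u.1 = univ := by
  have hn : ∀ (v : UG g) (t : ℝ), range v.1 ∈ 𝓝 (v.1 t) := fun v t => by
    rw [← zx_open h1 v t]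
    exact range_mem_map
  refine IsClopen.eq_univ ⟨?_, isOpen_iff_mem_nhds.2 ?_⟩ (range_nonempty _)
  · refine isClosed_of_closure_subset fun p hp => ?_
    obtain ⟨v, rfl⟩ := fib_ne g p
    obtain ⟨_, ⟨s, rfl⟩, t, ht⟩ := mem_closure_iff_nhds.1 hp _ (hn v 0)
    have h2 : u.1 '' Icc (t - 1) (t + 1) ∈ 𝓝 (v.1 (0 + s)) := by
      rw [zero_add, ← ht, ← zx_open h1 u t]
      exact image_mem_map (Icc_mem_nhds (by linarith) (by linarith))
    have h3 : Continuous fun y => v.1 (y + s) := by fun_prop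
    obtain ⟨ε, hε, hb⟩ := Metric.nhds_basis_closedBall.mem_iff.1
      (h3.continuousAt.preimage_mem_nhds h2)
    obtain ⟨r, h4 | h4⟩ := zx_dir u v (s := s) hε fun y hy => hb (by
      rw [Real.closedBall_eq_Icc]
      exact ⟨by linarith [hy.1], by linarith [hy.2]⟩)
    · exact ⟨_, (h4 0).symm⟩
    · exact ⟨_, (h4 0).symm⟩
  · rintro _ ⟨t, rfl⟩
    exact hn u t

theorem zx_one [ConnectedSpace M] (h1 : Module.finrank ℝ E = 1) (g : GeoN.Met E M) :
    ∃ τ : ℝ, 0 < τ ∧ ∀ v : UG g, Periodic v.1 τ := by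
  obtain ⟨u, -⟩ := fib_ne g (Classical.arbitrary M)
  have hL : ∃ L : ℝ, univ ⊆ u.1 '' Icc (-L) L := by
    refine isCompact_univ.induction_on (p := fun s => ∃ L : ℝ, s ⊆ u.1 '' Icc (-L) L)
      ⟨0, empty_subset _⟩ (fun s t hst ⟨L, hL⟩ => ⟨L, hst.trans hL⟩) ?_ fun p _ => ?_
    · rintro s t ⟨L, hL⟩ ⟨L', hL'⟩
      exact ⟨max L L', union_subset
        (hL.trans (image_mono (Icc_subset_Icc (neg_le_neg (le_max_left _ _)) (le_max_left _ _))))
        (hL'.trans (image_mono (Icc_subset_Icc (neg_le_neg (le_max_right _ _)) (le_max_right _ _))))⟩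
    · obtain ⟨t, rfl⟩ := (zx_range h1 u).ge (mem_univ p)
      refine ⟨_, mem_nhdsWithin_of_mem_nhds ?_, |t| + 1, subset_rfl⟩
      rw [← zx_open h1 u t]
      exact image_mem_map (Icc_mem_nhds (by linarith [neg_abs_le t]) (by linarith [le_abs_self t]))
  obtain ⟨L, hL⟩ := hL
  obtain ⟨ρ, hρ, e⟩ := bimg_P u (c := L + 1) (d := L + 2) (by linarith)
    ((subset_univ _).trans hL)
  have hp : Periodic u.1 (L + 1 - ρ) := bimg_per fun s => (e s).symm
  refine ⟨L + 1 - ρ, by linarith [hρ.2], fun v y => ?_⟩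
  obtain ⟨r, h | h⟩ := zx_dir u v (s := 0) one_pos fun y _ => hL (mem_univ _)
  · rw [h, h, ← add_assoc, hp]
  · rw [h, h, ← sub_sub, hp.sub_eq]

end aux

open Pool.Agent.GeoPairs

theorem besse_one {M : Type} [TopologicalSpace M] [T2Space M] [CompactSpace M] [ConnectedSpace M]
    [ChartedSpace (En 1) M] [IsManifold 𝓘(ℝ, En 1) ∞ M] (g : Met (En 1) M) : Besse g := by
  obtain ⟨τ, hτ, h⟩ := zx_one (E := En 1) (M := M) (by simp) g
  exact ⟨τ, hτ, fun γ h1 h2 => h ⟨⟨γ, h1.1.continuous⟩, h1, h2⟩⟩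

theorem besse_zero {M : Type} [TopologicalSpace M] [T2Space M] [CompactSpace M] [ConnectedSpace M]
    [ChartedSpace (En 0) M] [IsManifold 𝓘(ℝ, En 0) ∞ M] (g : Met (En 0) M) :
    Besse g ∧ NullPairs (En 0) (finPairs g)ᶜ := by
  have h : ∀ γ : ℝ → M, ¬ UnitSpeed g γ := fun γ hu => by
    have h1 := hu 0
    rw [Subsingleton.elim (α := En 0) (mfderiv 𝓘(ℝ, ℝ) 𝓘(ℝ, En 0) γ 0 (1 : ℝ)) 0] at h1
    exact zero_ne_one ((map_zero (g.inner (γ 0) (0 : En 0))).symm.trans h1)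
  refine ⟨⟨1, one_pos, fun γ _ hu => absurd hu (h γ)⟩, fun x y => ?_⟩
  have e : finPairs g = univ := eq_univ_of_forall fun z => finite_empty.subset (by
    rintro _ ⟨γ, hγ, ⟨s, -, hs⟩, -⟩
    obtain ⟨u, -⟩ := GeoN.exists_unit (g := g) hγ hs
    exact h _ u.2.2)
  simp [e]

end Pool.Agent.Fu
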